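import Pool.Agent.helper82.WC.S0K4A
import Pool.Agent.helper63.WG.Asm

/-!
Generated: a cell.
-/

namespace Pool.Agent.helper82.WC.S0K4

open Pool.Agent.helper82.WH Pool.Agent.helper63.WG

def cell : OC where
  H := H
  ce := 1374389534720
  he := 274877906944
  ck := 1044616577024
  hk := 164953587712
  V0 := 219901198336
  θ := 1098412116148
  t0 := 5
  t1 := 5
  dc := 76965806080
  al := 343597383680
  Is := [⟨0, BI0, 171798691840, 171798691840⟩]
  Rs := [⟨0, BR0, 1099511627776, 1099511627776⟩]
  mT := 0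
  T := BT
  lT := 472645208113
  mP := 0
  P := BP
  lP := 714677162979
  mM := 0
  M := BM
  lM := 698494089504

theorem cell_ok : cell.ok = true := by decide +kernel

theorem cell_cert : cell.Cert where
  I := by
    intro q hq
    simp only [cell, List.mem_cons, List.not_mem_nil, or_false] at hq
    subst hq
    exact ⟨I0AD, I0G, I0RT⟩
  R := by
    intro q hq
    simp only [cell, List.mem_cons, List.not_mem_nil, or_false] at hq
    subst hq
    exact ⟨⟨R0AD, R0G, R0RT⟩, R0RS⟩
  T := ⟨⟨TAD, TG, TRT⟩, TTT⟩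
  P := ⟨⟨PAD, PG, PRT⟩, PTT⟩
  M := ⟨⟨MAD, MG, MRT⟩, MTT⟩

theorem box : BoxOK 1099511627776 1649267441664 879662989312 1209570164736 :=
  cell.box cell_ok (by decide +kernel) cell_cert

end Pool.Agent.helper82.WC.S0K4
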