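import Pool.Agent.helper82.WC.S0bK0A
import Pool.Agent.helper63.WG.Asm

/-!
Generated: a cell.
-/

namespace Pool.Agent.helper82.WC.S0bK0

open Pool.Agent.helper82.WH Pool.Agent.helper63.WG

def cell : OC where
  H := H
  ce := 1236950581248
  he := 137438953472
  ck := 1822676746240
  hk := 55029268480
  V0 := 219901198336
  θ := 1098412116148
  t0 := 5
  t1 := 5
  dc := 109951188992
  al := 17179869184
  Is := [⟨2, BI0, 8589934592, 8589934592⟩]
  Rs := [⟨2, BR0, 1099511627776, 1099511627776⟩]
  mT := 2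
  T := BT
  lT := 1091773001643
  mP := 2
  P := BP
  lP := 1091812770004
  mM := 2
  M := BM
  lM := 1091797391215

theorem cell_ok : cell.ok = true := by decide +kernel

theorem cell_cert : cell.Cert where
  I := by
    intro q hq
    simp only [cell, List.mem_cons, List.not_mem_nil, or_false] at hq
    subst hq
    exact ⟨I0AD, I0G, I0RT⟩
  R := by
    intro q hq
    simp only [cell, List.mem_cons, List.not_mem_nil, or_false] at hq
    subst hq
    exact ⟨⟨R0AD, R0G, R0RT⟩, R0RS⟩
  T := ⟨⟨TAD, TG, TRT⟩, TTT⟩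
  P := ⟨⟨PAD, PG, PRT⟩, PTT⟩
  M := ⟨⟨MAD, MG, MRT⟩, MTT⟩

theorem box : BoxOK 1099511627776 1374389534720 1767647477760 1877706014720 :=
  cell.box cell_ok (by decide +kernel) cell_cert

end Pool.Agent.helper82.WC.S0bK0
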