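import Pool.Agent.helper82.WC.S0K0
import Pool.Agent.helper82.WC.S0K1
import Pool.Agent.helper82.WC.S0K2
import Pool.Agent.helper82.WC.S0K3
import Pool.Agent.helper82.WC.S0K4
import Pool.Agent.helper82.WC.S0K5
import Pool.Agent.helper82.WC.S0K6
import Pool.Agent.helper82.WC.S0K7
import Pool.Agent.helper82.WC.S0dK0
import Pool.Agent.helper82.WC.S0dK1
import Pool.Agent.helper82.WC.S0dK2

/-!
Generated: a column.
-/

namespace Pool.Agent.helper82.WC.Col0d

open Pool.Agent.helper82.WH Pool.Agent.helper63.WG
open Pool.Agent.helper31.IC (CovD covD_split TD)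

theorem hX : CovD 0 [pX0] [(1511828488192, 137438953472), (2241167622144, 0), (0, 0)] :=
  cov_of fX (.n 0 (.n 0 (.l 0) (.l 0)) (.l 0)) [(1511828488192, 137438953472), (2241167622144, 0), (0, 0)] rfl (by decide +kernel)

theorem col : ColOK 1374389534720 1649267441664 := by
  refine col_of [(0, 109790101504), (109790101504, 164819369984), (164819369984, 659814350848), (659814350848, 879662989312), (879662989312, 1209570164736), (1209570164736, 1539208904704), (1539208904704, 1665910439936), (1665910439936, 1767647477760), (1767647477760, 1877706014720), (1877706014720, 2020513677312), (2020513677312, 2241167622144)] (by decide +kernel) (by decide) ?_ hX (by decide) (by decide)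
  intro k hk
  simp only [List.mem_cons, List.not_mem_nil, or_false] at hk
  rcases hk with rfl | rfl | rfl | rfl | rfl | rfl | rfl | rfl | rfl | rfl | rfl
  · exact Pool.Agent.helper82.WC.S0K0.box.mono (by decide) (by decide) (by decide) (by decide)
  · exact Pool.Agent.helper82.WC.S0K1.box.mono (by decide) (by decide) (by decide) (by decide)
  · exact Pool.Agent.helper82.WC.S0K2.box.mono (by decide) (by decide) (by decide) (by decide)
  · exact Pool.Agent.helper82.WC.S0K3.box.mono (by decide) (by decide) (by decide) (by decide)
  · exact Pool.Agent.helper82.WC.S0K4.box.mono (by decide) (by decide) (by decide) (by decide)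
  · exact Pool.Agent.helper82.WC.S0K5.box.mono (by decide) (by decide) (by decide) (by decide)
  · exact Pool.Agent.helper82.WC.S0K6.box.mono (by decide) (by decide) (by decide) (by decide)
  · exact Pool.Agent.helper82.WC.S0K7.box.mono (by decide) (by decide) (by decide) (by decide)
  · exact Pool.Agent.helper82.WC.S0dK0.box
  · exact Pool.Agent.helper82.WC.S0dK1.box
  · exact Pool.Agent.helper82.WC.S0dK2.box

end Pool.Agent.helper82.WC.Col0d
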