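import Pool.Agent.helper82.WC.S1K0
import Pool.Agent.helper82.WC.S1K1
import Pool.Agent.helper82.WC.S1K2
import Pool.Agent.helper82.WC.S1K3
import Pool.Agent.helper82.WC.S1K4
import Pool.Agent.helper82.WC.S1K5
import Pool.Agent.helper82.WC.S1K6
import Pool.Agent.helper82.WC.S1K7
import Pool.Agent.helper82.WC.S1K8
import Pool.Agent.helper82.WC.S1K9
import Pool.Agent.helper82.WC.S1K10
import Pool.Agent.helper82.WC.S1K11
import Pool.Agent.helper82.WC.S1bK0

/-!
Generated: a column.
-/

namespace Pool.Agent.helper82.WC.Col1a

open Pool.Agent.helper82.WH Pool.Agent.helper63.WG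
open Pool.Agent.helper31.IC (CovD covD_split TD)

theorem hX : CovD 0 [pX0] [(1717986918400, 68719476736), (1867505467392, 0), (0, 0)] :=
  cov_of fX (.l 0) [(1717986918400, 68719476736), (1867505467392, 0), (0, 0)] rfl (by decide +kernel)

theorem col : ColOK 1649267441664 1786706395136 := by
  refine col_of [(0, 109790101504), (109790101504, 153813516288), (153813516288, 219848638464), (219848638464, 307895468032), (307895468032, 439697276928), (439697276928, 604785082368), (604785082368, 824633720832), (824633720832, 1099511627776), (1099511627776, 1432908464128), (1432908464128, 1542967001088), (1542967001088, 1653025538048), (1653025538048, 1795833200640), (1795833200640, 1867505467392)] (by decide +kernel) (by decide) ?_ hX (by decide) (by decide)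
  intro k hk
  simp only [List.mem_cons, List.not_mem_nil, or_false] at hk
  rcases hk with rfl | rfl | rfl | rfl | rfl | rfl | rfl | rfl | rfl | rfl | rfl | rfl | rfl
  · exact Pool.Agent.helper82.WC.S1K0.box.mono (by decide) (by decide) (by decide) (by decide)
  · exact Pool.Agent.helper82.WC.S1K1.box.mono (by decide) (by decide) (by decide) (by decide)
  · exact Pool.Agent.helper82.WC.S1K2.box.mono (by decide) (by decide) (by decide) (by decide)
  · exact Pool.Agent.helper82.WC.S1K3.box.mono (by decide) (by decide) (by decide) (by decide)
  · exact Pool.Agent.helper82.WC.S1K4.box.mono (by decide) (by decide) (by decide) (by decide)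
  · exact Pool.Agent.helper82.WC.S1K5.box.mono (by decide) (by decide) (by decide) (by decide)
  · exact Pool.Agent.helper82.WC.S1K6.box.mono (by decide) (by decide) (by decide) (by decide)
  · exact Pool.Agent.helper82.WC.S1K7.box.mono (by decide) (by decide) (by decide) (by decide)
  · exact Pool.Agent.helper82.WC.S1K8.box.mono (by decide) (by decide) (by decide) (by decide)
  · exact Pool.Agent.helper82.WC.S1K9.box.mono (by decide) (by decide) (by decide) (by decide)
  · exact Pool.Agent.helper82.WC.S1K10.box.mono (by decide) (by decide) (by decide) (by decide)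
  · exact Pool.Agent.helper82.WC.S1K11.box.mono (by decide) (by decide) (by decide) (by decide)
  · exact Pool.Agent.helper82.WC.S1bK0.box

end Pool.Agent.helper82.WC.Col1a
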