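import Pool.Agent.helper82.WC.S2K0
import Pool.Agent.helper82.WC.S2K1
import Pool.Agent.helper82.WC.S2K2
import Pool.Agent.helper82.WC.S2K3
import Pool.Agent.helper82.WC.S2K4
import Pool.Agent.helper82.WC.S2K5

/-!
Generated: a column.
-/

namespace Pool.Agent.helper82.WC.Col2

open Pool.Agent.helper82.WH Pool.Agent.helper63.WG
open Pool.Agent.helper31.IC (CovD covD_split TD)

theorem hX : CovD 0 [pX0] [(2473901162496, 274877906944), (1449819897856, 0), (0, 0)] :=
  cov_of fX (.n 0 (.l 0) (.l 0)) [(2473901162496, 274877906944), (1449819897856, 0), (0, 0)] rfl (by decide +kernel)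

theorem col : ColOK 2199023255552 2748779069440 := by
  refine col_of [(0, 87778394112), (87778394112, 219848638464), (219848638464, 307895468032), (307895468032, 417685569536), (417685569536, 714575183872), (714575183872, 1449819897856)] (by decide +kernel) (by decide) ?_ hX (by decide) (by decide)
  intro k hk
  simp only [List.mem_cons, List.not_mem_nil, or_false] at hk
  rcases hk with rfl | rfl | rfl | rfl | rfl | rfl
  · exact Pool.Agent.helper82.WC.S2K0.box
  · exact Pool.Agent.helper82.WC.S2K1.box
  · exact Pool.Agent.helper82.WC.S2K2.box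
  · exact Pool.Agent.helper82.WC.S2K3.box
  · exact Pool.Agent.helper82.WC.S2K4.box
  · exact Pool.Agent.helper82.WC.S2K5.box

end Pool.Agent.helper82.WC.Col2
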