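import Pool.Agent.helper82.WC.S3K0
import Pool.Agent.helper82.WC.S3K1
import Pool.Agent.helper82.WC.S3K2
import Pool.Agent.helper82.WC.S3K3
import Pool.Agent.helper82.WC.S3K4
import Pool.Agent.helper82.WC.S3K5
import Pool.Agent.helper82.WC.S3K6
import Pool.Agent.helper82.WC.S3K7
import Pool.Agent.helper82.WC.S3K8
import Pool.Agent.helper82.WC.S3K9

/-!
Generated: a column.
-/

namespace Pool.Agent.helper82.WC.Col3

open Pool.Agent.helper82.WH Pool.Agent.helper63.WG
open Pool.Agent.helper31.IC (CovD covD_split TD)

theorem hX : CovD 0 [pX0] [(3023656976384, 274877906944), (1216281051136, 0), (0, 0)] :=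
  cov_of fX (.n 0 (.l 0) (.l 0)) [(3023656976384, 274877906944), (1216281051136, 0), (0, 0)] rfl (by decide +kernel)

theorem col : ColOK 2748779069440 3298534883328 := by
  refine col_of [(0, 73014444032), (73014444032, 110058536960), (110058536960, 153813516288), (153813516288, 219848638464), (219848638464, 307895468032), (307895468032, 450703130624), (450703130624, 604785082368), (604785082368, 791616159744), (791616159744, 989453090816), (989453090816, 1216281051136)] (by decide +kernel) (by decide) ?_ hX (by decide) (by decide)
  intro k hk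
  simp only [List.mem_cons, List.not_mem_nil, or_false] at hk
  rcases hk with rfl | rfl | rfl | rfl | rfl | rfl | rfl | rfl | rfl | rfl
  · exact Pool.Agent.helper82.WC.S3K0.box
  · exact Pool.Agent.helper82.WC.S3K1.box
  · exact Pool.Agent.helper82.WC.S3K2.box
  · exact Pool.Agent.helper82.WC.S3K3.box
  · exact Pool.Agent.helper82.WC.S3K4.box
  · exact Pool.Agent.helper82.WC.S3K5.box
  · exact Pool.Agent.helper82.WC.S3K6.box
  · exact Pool.Agent.helper82.WC.S3K7.box
  · exact Pool.Agent.helper82.WC.S3K8.box
  · exact Pool.Agent.helper82.WC.S3K9.box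

end Pool.Agent.helper82.WC.Col3
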