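import Pool.Agent.helper82.WC.S4K1A
import Pool.Agent.helper63.WG.Asm

/-!
Generated: a cell.
-/

namespace Pool.Agent.helper82.WC.S4K1

open Pool.Agent.helper82.WH Pool.Agent.helper63.WG

def cell : OC where
  H := H
  ce := 3573412790272
  he := 274877906944
  ck := 80933289984
  hk := 18119393280
  V0 := 174546354176
  θ := 1098412116148
  t0 := 5
  t1 := 3
  dc := 137438953472
  al := 481036337152
  Is := [⟨0, BI0, 130325413888, 130325413888⟩, ⟨0, BI1, 370843582464, 110192754688⟩]
  Rs := [⟨0, BR0, 1099511627776, 1099511627776⟩]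
  mT := 0
  T := BT
  lT := 1092928115603
  mP := 0
  P := BP
  lP := 644641737137
  mM := 0
  M := BM
  lM := 642424886888

theorem cell_ok : cell.ok = true := by decide +kernel

theorem cell_cert : cell.Cert where
  I := by
    intro q hq
    simp only [cell, List.mem_cons, List.not_mem_nil, or_false] at hq
    rcases hq with rfl | rfl
    · exact ⟨I0AD, I0G, I0RT⟩
    · exact ⟨I1AD, I1G, I1RT⟩
  R := by
    intro q hq
    simp only [cell, List.mem_cons, List.not_mem_nil, or_false] at hq
    subst hq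
    exact ⟨⟨R0AD, R0G, R0RT⟩, R0RS⟩
  T := ⟨⟨TAD, TG, TRT⟩, TTT⟩
  P := ⟨⟨PAD, PG, PRT⟩, PTT⟩
  M := ⟨⟨MAD, MG, MRT⟩, MTT⟩

theorem box : BoxOK 3298534883328 3848290697216 62813896704 99052683264 :=
  cell.box cell_ok (by decide +kernel) cell_cert

end Pool.Agent.helper82.WC.S4K1
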