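import Pool.Agent.helper82.WC.S4K0
import Pool.Agent.helper82.WC.S4K1
import Pool.Agent.helper82.WC.S4K2
import Pool.Agent.helper82.WC.S4K3
import Pool.Agent.helper82.WC.S4K4
import Pool.Agent.helper82.WC.S4K5
import Pool.Agent.helper82.WC.S4K6
import Pool.Agent.helper82.WC.S4K7
import Pool.Agent.helper82.WC.S4K8
import Pool.Agent.helper82.WC.S4K9

/-!
Generated: a column.
-/

namespace Pool.Agent.helper82.WC.Col4

open Pool.Agent.helper82.WH Pool.Agent.helper63.WG
open Pool.Agent.helper31.IC (CovD covD_split TD)

theorem hX : CovD 0 [pX0] [(3573412790272, 274877906944), (1063541276672, 0), (0, 0)] :=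
  cov_of fX (.n 0 (.l 0) (.l 0)) [(3573412790272, 274877906944), (1063541276672, 0), (0, 0)] rfl (by decide +kernel)

theorem col : ColOK 3298534883328 3848290697216 := by
  refine col_of [(0, 62813896704), (62813896704, 99052683264), (99052683264, 142807662592), (142807662592, 197836931072), (197836931072, 263872053248), (263872053248, 351918882816), (351918882816, 450703130624), (450703130624, 659814350848), (659814350848, 791616159744), (791616159744, 1063541276672)] (by decide +kernel) (by decide) ?_ hX (by decide) (by decide)
  intro k hk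
  simp only [List.mem_cons, List.not_mem_nil, or_false] at hk
  rcases hk with rfl | rfl | rfl | rfl | rfl | rfl | rfl | rfl | rfl | rfl
  · exact Pool.Agent.helper82.WC.S4K0.box
  · exact Pool.Agent.helper82.WC.S4K1.box
  · exact Pool.Agent.helper82.WC.S4K2.box
  · exact Pool.Agent.helper82.WC.S4K3.box
  · exact Pool.Agent.helper82.WC.S4K4.box
  · exact Pool.Agent.helper82.WC.S4K5.box
  · exact Pool.Agent.helper82.WC.S4K6.box
  · exact Pool.Agent.helper82.WC.S4K7.box
  · exact Pool.Agent.helper82.WC.S4K8.box
  · exact Pool.Agent.helper82.WC.S4K9.box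

end Pool.Agent.helper82.WC.Col4
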