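import Pool.Agent.helper82.WC.S5K0
import Pool.Agent.helper82.WC.S5K1
import Pool.Agent.helper82.WC.S5K2
import Pool.Agent.helper82.WC.S5K3
import Pool.Agent.helper82.WC.S5K4
import Pool.Agent.helper82.WC.S5K5
import Pool.Agent.helper82.WC.S5K6
import Pool.Agent.helper82.WC.S5K7
import Pool.Agent.helper82.WC.S5K8
import Pool.Agent.helper82.WC.S5K9
import Pool.Agent.helper82.WC.S5K10

/-!
Generated: a column.
-/

namespace Pool.Agent.helper82.WC.Col5

open Pool.Agent.helper82.WH Pool.Agent.helper63.WG
open Pool.Agent.helper31.IC (CovD covD_split TD)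

theorem hX : CovD 0 [pX0] [(4123168604160, 274877906944), (954556481536, 0), (0, 0)] :=
  cov_of fX (.l 0) [(4123168604160, 274877906944), (954556481536, 0), (0, 0)] rfl (by decide +kernel)

theorem col : ColOK 3848290697216 4398046511104 := by
  refine col_of [(0, 54760833024), (54760833024, 77040975872), (77040975872, 110058536960), (110058536960, 153813516288), (153813516288, 219848638464), (219848638464, 307895468032), (307895468032, 450703130624), (450703130624, 549755813888), (549755813888, 659814350848), (659814350848, 769604452352), (769604452352, 954556481536)] (by decide +kernel) (by decide) ?_ hX (by decide) (by decide)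
  intro k hk
  simp only [List.mem_cons, List.not_mem_nil, or_false] at hk
  rcases hk with rfl | rfl | rfl | rfl | rfl | rfl | rfl | rfl | rfl | rfl | rfl
  · exact Pool.Agent.helper82.WC.S5K0.box
  · exact Pool.Agent.helper82.WC.S5K1.box
  · exact Pool.Agent.helper82.WC.S5K2.box
  · exact Pool.Agent.helper82.WC.S5K3.box
  · exact Pool.Agent.helper82.WC.S5K4.box
  · exact Pool.Agent.helper82.WC.S5K5.box
  · exact Pool.Agent.helper82.WC.S5K6.box
  · exact Pool.Agent.helper82.WC.S5K7.box
  · exact Pool.Agent.helper82.WC.S5K8.box
  · exact Pool.Agent.helper82.WC.S5K9.box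
  · exact Pool.Agent.helper82.WC.S5K10.box

end Pool.Agent.helper82.WC.Col5
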