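import Pool.Agent.helper82.WC.Col0a
import Pool.Agent.helper82.WC.Col0g
import Pool.Agent.helper82.WC.Col0c
import Pool.Agent.helper82.WC.Col0b
import Pool.Agent.helper82.WC.Col0d
import Pool.Agent.helper82.WC.Col1a
import Pool.Agent.helper82.WC.Col1c
import Pool.Agent.helper82.WC.Col2
import Pool.Agent.helper82.WC.Col3
import Pool.Agent.helper82.WC.Col4
import Pool.Agent.helper82.WC.Col5
import Pool.Agent.helper63.WG.TailOf
import Pool.Agent.helper63.WG.HBHead

/-!
# The W scheme for all `1 < e ≤ 4`
-/

namespace Pool.Agent.helper82.WC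

open Pool.Agent.helper63.WG Pool.Agent.helper31.EQ.W

theorem w_all : ∀ e κ : ℝ, 1 < e → e ≤ 4 → 0 < κ → fk e κ < (4 : ℝ) ^ (1 / e) - 1 →
    Nonempty (WDataB e κ) := by
  refine all_of (cs := [(1099511627776, 1133871366144), (1133871366144, 1168231104512),
    (1168231104512, 1236950581248), (1236950581248, 1374389534720),
    (1374389534720, 1649267441664), (1649267441664, 1786706395136),
    (1786706395136, 2199023255552), (2199023255552, 2748779069440),
    (2748779069440, 3298534883328), (3298534883328, 3848290697216),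
    (3848290697216, 4398046511104)]) (by decide +kernel) ?_ ht_all
  intro c hc
  simp only [List.mem_cons, List.not_mem_nil, or_false] at hc
  rcases hc with rfl | rfl | rfl | rfl | rfl | rfl | rfl | rfl | rfl | rfl | rfl
  · exact Col0a.col
  · exact Col0g.col
  · exact Col0c.col
  · exact Col0b.col
  · exact Col0d.col
  · exact Col1a.col
  · exact Col1c.col
  · exact Col2.col
  · exact Col3.col
  · exact Col4.col
  · exact Col5.col

/-- **Existence of W traps for `1 < e ≤ 4`** (hypothesis `HW` of the final assembly) -/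
theorem wexists : ∀ e κ : ℝ, 1 < e → e ≤ 4 → 0 < κ →
    2 * (Real.cosh κ - 1) / Real.cosh (e * κ / 2) ^ (2 / e) < 4 ^ (1 / e) - 1 →
    Nonempty (Pool.Agent.helper31.EQ.WTrap e (Real.exp κ)) :=
  hw_of w_all

end Pool.Agent.helper82.WC
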