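import Pool.Agent.helper82.WC.S0K0
import Pool.Agent.helper82.WC.S0K1
import Pool.Agent.helper82.WC.S0K2
import Pool.Agent.helper82.WC.S0K3
import Pool.Agent.helper82.WC.S0K4
import Pool.Agent.helper82.WC.S0K5
import Pool.Agent.helper82.WC.S0K6
import Pool.Agent.helper82.WC.S0K7
import Pool.Agent.helper82.WC.S0bK0
import Pool.Agent.helper82.WC.S0bK1
import Pool.Agent.helper82.WC.S0bK2
import Pool.Agent.helper82.WC.S0bK3
import Pool.Agent.helper82.WC.S0bK4
import Pool.Agent.helper82.WC.S0bK5
import Pool.Agent.helper82.WC.S0bK6
import Pool.Agent.helper82.WC.S0bK7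
import Pool.Agent.helper82.WC.S0cK0
import Pool.Agent.helper82.WC.S0cK1
import Pool.Agent.helper82.WC.S0cK2
import Pool.Agent.helper82.WC.S0cK3
import Pool.Agent.helper82.WC.S0cK4
import Pool.Agent.helper82.WC.S0cK5
import Pool.Agent.helper82.WC.S0cK6
import Pool.Agent.helper82.WC.S0eK0
import Pool.Agent.helper82.WC.S0fK0
import Pool.Agent.helper82.WC.S0fK1
import Pool.Agent.helper82.WC.S0fK2
import Pool.Agent.helper82.WC.S0fK3

/-!
Generated: a column.
-/

namespace Pool.Agent.helper82.WC.Col0a

open Pool.Agent.helper82.WH Pool.Agent.helper63.WG
open Pool.Agent.helper31.IC (CovD covD_split TD)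

theorem hX : CovD 0 [pX0] [(1116691496960, 17179869184), (2897760747520, 0), (0, 0)] :=
  cov_of fX (.l 0) [(1116691496960, 17179869184), (2897760747520, 0), (0, 0)] rfl (by decide +kernel)

theorem col : ColOK 1099511627776 1133871366144 := by
  refine col_of [(0, 109790101504), (109790101504, 164819369984), (164819369984, 659814350848), (659814350848, 879662989312), (879662989312, 1209570164736), (1209570164736, 1539208904704), (1539208904704, 1665910439936), (1665910439936, 1767647477760), (1767647477760, 1877706014720), (1877706014720, 2020513677312), (2020513677312, 2130572214272), (2130572214272, 2273379876864), (2273379876864, 2359010787328), (2359010787328, 2444641697792), (2444641697792, 2475511775232), (2475511775232, 2515777093632), (2515777093632, 2592818069504), (2592818069504, 2629862162432), (2629862162432, 2652142305280), (2652142305280, 2680864899072), (2680864899072, 2718445862912), (2718445862912, 2740994441216), (2740994441216, 2770253905920), (2770253905920, 2793876226048), (2793876226048, 2826893787136), (2826893787136, 2852663590912), (2852663590912, 2872796250112), (2872796250112, 2897760747520)]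 (by decide +kernel) (by decide) ?_ hX (by decide) (by decide)
  intro k hk
  simp only [List.mem_cons, List.not_mem_nil, or_false] at hk
  rcases hk with rfl | rfl | rfl | rfl | rfl | rfl | rfl | rfl | rfl | rfl | rfl | rfl | rfl | rfl | rfl | rfl | rfl | rfl | rfl | rfl | rfl | rfl | rfl | rfl | rfl | rfl | rfl | rfl
  · exact Pool.Agent.helper82.WC.S0K0.box.mono (by decide) (by decide) (by decide) (by decide)
  · exact Pool.Agent.helper82.WC.S0K1.box.mono (by decide) (by decide) (by decide) (by decide)
  · exact Pool.Agent.helper82.WC.S0K2.box.mono (by decide) (by decide) (by decide) (by decide)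
  · exact Pool.Agent.helper82.WC.S0K3.box.mono (by decide) (by decide) (by decide) (by decide)
  · exact Pool.Agent.helper82.WC.S0K4.box.mono (by decide) (by decide) (by decide) (by decide)
  · exact Pool.Agent.helper82.WC.S0K5.box.mono (by decide) (by decide) (by decide) (by decide)
  · exact Pool.Agent.helper82.WC.S0K6.box.mono (by decide) (by decide) (by decide) (by decide)
  · exact Pool.Agent.helper82.WC.S0K7.box.mono (by decide) (by decide) (by decide) (by decide)
  · exact Pool.Agent.helper82.WC.S0bK0.box.mono (by decide) (by decide) (by decide) (by decide)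
  · exact Pool.Agent.helper82.WC.S0bK1.box.mono (by decide) (by decide) (by decide) (by decide)
  · exact Pool.Agent.helper82.WC.S0bK2.box.mono (by decide) (by decide) (by decide) (by decide)
  · exact Pool.Agent.helper82.WC.S0bK3.box.mono (by decide) (by decide) (by decide) (by decide)
  · exact Pool.Agent.helper82.WC.S0bK4.box.mono (by decide) (by decide) (by decide) (by decide)
  · exact Pool.Agent.helper82.WC.S0bK5.box.mono (by decide) (by decide) (by decide) (by decide)
  · exact Pool.Agent.helper82.WC.S0bK6.box.mono (by decide) (by decide) (by decide) (by decide)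
  · exact Pool.Agent.helper82.WC.S0bK7.box.mono (by decide) (by decide) (by decide) (by decide)
  · exact Pool.Agent.helper82.WC.S0cK0.box.mono (by decide) (by decide) (by decide) (by decide)
  · exact Pool.Agent.helper82.WC.S0cK1.box.mono (by decide) (by decide) (by decide) (by decide)
  · exact Pool.Agent.helper82.WC.S0cK2.box.mono (by decide) (by decide) (by decide) (by decide)
  · exact Pool.Agent.helper82.WC.S0cK3.box.mono (by decide) (by decide) (by decide) (by decide)
  · exact Pool.Agent.helper82.WC.S0cK4.box.mono (by decide) (by decide) (by decide) (by decide)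
  · exact Pool.Agent.helper82.WC.S0cK5.box.mono (by decide) (by decide) (by decide) (by decide)
  · exact Pool.Agent.helper82.WC.S0cK6.box.mono (by decide) (by decide) (by decide) (by decide)
  · exact Pool.Agent.helper82.WC.S0eK0.box.mono (by decide) (by decide) (by decide) (by decide)
  · exact Pool.Agent.helper82.WC.S0fK0.box
  · exact Pool.Agent.helper82.WC.S0fK1.box
  · exact Pool.Agent.helper82.WC.S0fK2.box
  · exact Pool.Agent.helper82.WC.S0fK3.box

end Pool.Agent.helper82.WC.Col0a
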