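import Pool.Agent.helper82.WC.S0K0P

/-!
Generated certificates (in pairs, so that they are checked one after the other).
-/

namespace Pool.Agent.helper82.WC.S0K0

open Pool.Agent.helper82.WH
open Pool.Agent.helper31.IC (CovD covD_split TD)

mutual
theorem I0RT_56 : CovD 1 [pRT H BI0, pK1 H BI0] [(1374389534720, 274877906944), (68618813440, 13723762688), (105696460800, 5033164800)] :=
  cov_of (fRTK H BI0) (.n 2 (.n 2 (.n 0 (.n 1 (.n 0 (.l 0) (.l 0)) (.n 0 (.l 0) (.l 0))) (.n 1 (.n 0 (.l 0) (.l 0)) (.l 0))) (.n 0 (.n 1 (.n 0 (.l 0) (.l 0)) (.n 0 (.l 0) (.l 0))) (.n 1 (.n 0 (.l 0) (.l 0)) (.l 0)))) (.n 2 (.n 0 (.n 1 (.n 0 (.l 0) (.l 0)) (.l 0)) (.n 1 (.l 0) (.l 0))) (.n 0 (.n 1 (.n 0 (.l 0) (.l 0)) (.l 0)) (.n 1 (.l 0) (.l 0))))) [(1374389534720, 274877906944), (68618813440, 13723762688), (105696460800, 5033164800)] rfl (by decide +kernel)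
theorem I0RT_57 : CovD 1 [pRT H BI0, pK1 H BI0] [(1374389534720, 274877906944), (96066338816, 13723762688), (105696460800, 5033164800)] :=
  cov_of (fRTK H BI0) (.n 2 (.n 1 (.n 0 (.n 2 (.l 0) (.l 0)) (.n 2 (.l 0) (.l 0))) (.n 0 (.n 2 (.l 0) (.l 0)) (.n 2 (.l 0) (.l 0)))) (.n 0 (.n 2 (.n 1 (.l 0) (.l 0)) (.n 1 (.l 0) (.l 0))) (.n 2 (.n 1 (.l 0) (.l 0)) (.n 1 (.l 0) (.l 0))))) [(1374389534720, 274877906944), (96066338816, 13723762688), (105696460800, 5033164800)] rfl (by decide +kernel)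
end

mutual
theorem I0RT_59 : CovD 1 [pRT H BI0, pK1 H BI0] [(1374389534720, 274877906944), (68618813440, 13723762688), (115762790400, 5033164800)] :=
  cov_of (fRTK H BI0) (.n 2 (.n 0 (.n 2 (.n 1 (.l 0) (.l 0)) (.n 1 (.l 0) (.l 0))) (.n 2 (.n 1 (.l 0) (.l 0)) (.n 1 (.l 0) (.l 0)))) (.n 0 (.n 2 (.n 1 (.l 0) (.l 0)) (.n 1 (.l 0) (.l 0))) (.n 2 (.n 1 (.l 0) (.l 0)) (.n 1 (.l 0) (.l 0))))) [(1374389534720, 274877906944), (68618813440, 13723762688), (115762790400, 5033164800)] rfl (by decide +kernel)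
theorem I0RT_60 : CovD 1 [pRT H BI0, pK1 H BI0] [(1374389534720, 274877906944), (96066338816, 13723762688), (115762790400, 5033164800)] :=
  cov_of (fRTK H BI0) (.n 2 (.n 0 (.n 2 (.n 1 (.l 0) (.l 0)) (.n 1 (.l 0) (.l 0))) (.n 2 (.n 1 (.l 0) (.l 0)) (.n 1 (.l 0) (.l 0)))) (.n 0 (.n 2 (.n 1 (.l 0) (.l 0)) (.n 1 (.l 0) (.l 0))) (.n 2 (.n 1 (.l 0) (.l 0)) (.n 1 (.l 0) (.l 0))))) [(1374389534720, 274877906944), (96066338816, 13723762688), (115762790400, 5033164800)] rfl (by decide +kernel)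
end

mutual
theorem I0RT_65 : CovD 1 [pRT H BI0, pK1 H BI0] [(1374389534720, 274877906944), (27447525376, 27447525376), (123312537600, 2516582400)] :=
  cov_of (fRTK H BI0) (.n 1 (.n 0 (.n 2 (.n 0 (.l 0) (.l 0)) (.l 0)) (.n 2 (.l 0) (.l 0))) (.n 0 (.n 2 (.n 1 (.l 0) (.l 0)) (.n 0 (.l 0) (.l 0))) (.n 2 (.n 1 (.l 0) (.l 0)) (.n 0 (.l 0) (.l 0))))) [(1374389534720, 274877906944), (27447525376, 27447525376), (123312537600, 2516582400)] rfl (by decide +kernel)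
theorem I0RT_66 : CovD 1 [pRT H BI0, pK1 H BI0] [(1374389534720, 274877906944), (27447525376, 27447525376), (128345702400, 2516582400)] :=
  cov_of (fRTK H BI0) (.n 1 (.n 0 (.n 2 (.l 0) (.l 0)) (.n 2 (.l 0) (.l 0))) (.n 0 (.n 2 (.n 0 (.l 0) (.l 0)) (.n 0 (.l 0) (.l 0))) (.n 2 (.n 0 (.l 0) (.l 0)) (.n 0 (.l 0) (.l 0))))) [(1374389534720, 274877906944), (27447525376, 27447525376), (128345702400, 2516582400)] rfl (by decide +kernel)
end

mutual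
theorem I0RT_67 : CovD 1 [pRT H BI0, pK1 H BI0] [(1374389534720, 274877906944), (27447525376, 27447525376), (135895449600, 5033164800)] :=
  cov_of (fRTK H BI0) (.n 2 (.n 1 (.n 0 (.n 2 (.l 0) (.l 0)) (.n 2 (.l 0) (.l 0))) (.n 0 (.n 2 (.n 0 (.l 0) (.l 0)) (.n 0 (.l 0) (.l 0))) (.n 2 (.l 0) (.l 0)))) (.n 0 (.n 1 (.n 2 (.l 0) (.l 0)) (.n 2 (.l 0) (.l 0))) (.n 1 (.n 2 (.l 0) (.l 0)) (.n 2 (.l 0) (.l 0))))) [(1374389534720, 274877906944), (27447525376, 27447525376), (135895449600, 5033164800)] rfl (by decide +kernel)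
theorem I0RT_70 : CovD 1 [pRT H BI0, pK1 H BI0] [(1374389534720, 274877906944), (68618813440, 13723762688), (125829120000, 5033164800)] :=
  cov_of (fRTK H BI0) (.n 2 (.n 0 (.n 2 (.n 1 (.l 0) (.l 0)) (.n 1 (.l 0) (.l 0))) (.n 2 (.n 1 (.l 0) (.l 0)) (.n 1 (.l 0) (.l 0)))) (.n 0 (.n 2 (.n 0 (.l 0) (.l 0)) (.n 0 (.l 0) (.l 0))) (.n 2 (.n 0 (.l 0) (.l 0)) (.n 0 (.l 0) (.l 0))))) [(1374389534720, 274877906944), (68618813440, 13723762688), (125829120000, 5033164800)] rfl (by decide +kernel)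
end

mutual
theorem I0RT_71 : CovD 1 [pRT H BI0, pK1 H BI0] [(1374389534720, 274877906944), (96066338816, 13723762688), (125829120000, 5033164800)] :=
  cov_of (fRTK H BI0) (.n 2 (.n 0 (.n 2 (.n 0 (.l 0) (.l 0)) (.n 0 (.l 0) (.l 0))) (.n 2 (.n 0 (.l 0) (.l 0)) (.n 0 (.l 0) (.l 0)))) (.n 0 (.n 2 (.n 0 (.l 0) (.l 0)) (.n 0 (.l 0) (.l 0))) (.n 2 (.n 0 (.l 0) (.l 0)) (.n 0 (.l 0) (.l 0))))) [(1374389534720, 274877906944), (96066338816, 13723762688), (125829120000, 5033164800)] rfl (by decide +kernel)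
theorem I0RT_73 : CovD 1 [pRT H BI0, pK1 H BI0] [(1374389534720, 274877906944), (68618813440, 13723762688), (135895449600, 5033164800)] :=
  cov_of (fRTK H BI0) (.n 2 (.n 0 (.n 2 (.n 0 (.l 0) (.l 0)) (.n 0 (.l 0) (.l 0))) (.n 2 (.n 0 (.l 0) (.l 0)) (.n 0 (.l 0) (.l 0)))) (.n 0 (.n 2 (.n 0 (.l 0) (.l 0)) (.n 0 (.l 0) (.l 0))) (.n 2 (.l 0) (.l 0)))) [(1374389534720, 274877906944), (68618813440, 13723762688), (135895449600, 5033164800)] rfl (by decide +kernel)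
end

mutual
theorem I0RT_74 : CovD 1 [pRT H BI0, pK1 H BI0] [(1374389534720, 274877906944), (96066338816, 13723762688), (135895449600, 5033164800)] :=
  cov_of (fRTK H BI0) (.n 2 (.n 0 (.n 2 (.n 0 (.l 0) (.l 0)) (.n 0 (.l 0) (.l 0))) (.n 2 (.n 0 (.l 0) (.l 0)) (.l 0))) (.n 0 (.n 2 (.n 0 (.l 0) (.l 0)) (.l 0)) (.n 2 (.l 0) (.l 0)))) [(1374389534720, 274877906944), (96066338816, 13723762688), (135895449600, 5033164800)] rfl (by decide +kernel)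
theorem I0RT_77 : CovD 1 [pRT H BI0, pK1 H BI0] [(1374389534720, 274877906944), (27447525376, 27447525376), (145961779200, 5033164800)] :=
  cov_of (fRTK H BI0) (.n 2 (.n 0 (.n 1 (.n 2 (.l 0) (.l 0)) (.n 2 (.l 0) (.l 0))) (.n 1 (.n 2 (.l 0) (.l 0)) (.n 2 (.l 0) (.l 0)))) (.n 0 (.n 1 (.n 2 (.l 0) (.l 0)) (.n 2 (.l 0) (.l 0))) (.n 1 (.n 2 (.l 0) (.l 0)) (.n 2 (.l 0) (.l 0))))) [(1374389534720, 274877906944), (27447525376, 27447525376), (145961779200, 5033164800)] rfl (by decide +kernel)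
end

mutual
theorem I0RT_78 : CovD 1 [pRT H BI0, pK1 H BI0] [(1374389534720, 274877906944), (27447525376, 27447525376), (156028108800, 5033164800)] :=
  cov_of (fRTK H BI0) (.n 2 (.n 0 (.n 1 (.n 0 (.l 0) (.l 0)) (.n 2 (.l 0) (.l 0))) (.n 1 (.n 0 (.l 0) (.l 0)) (.n 1 (.l 0) (.l 0)))) (.n 0 (.n 1 (.n 0 (.l 0) (.l 0)) (.n 0 (.l 0) (.l 0))) (.n 1 (.l 0) (.n 0 (.l 0) (.l 0))))) [(1374389534720, 274877906944), (27447525376, 27447525376), (156028108800, 5033164800)] rfl (by decide +kernel)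
theorem I0RT_80 : CovD 1 [pRT H BI0, pK1 H BI0] [(1374389534720, 274877906944), (82342576128, 27447525376), (145961779200, 5033164800)] :=
  cov_of (fRTK H BI0) (.n 1 (.n 2 (.n 0 (.n 2 (.l 0) (.l 0)) (.n 2 (.l 0) (.l 0))) (.n 0 (.n 2 (.l 0) (.l 0)) (.n 1 (.l 0) (.l 0)))) (.n 0 (.n 2 (.n 2 (.l 0) (.l 0)) (.n 1 (.l 0) (.l 0))) (.n 2 (.n 1 (.l 0) (.l 0)) (.n 1 (.l 0) (.l 0))))) [(1374389534720, 274877906944), (82342576128, 27447525376), (145961779200, 5033164800)] rfl (by decide +kernel)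
end

mutual
theorem I0RT_81 : CovD 1 [pRT H BI0, pK1 H BI0] [(1374389534720, 274877906944), (82342576128, 27447525376), (156028108800, 5033164800)] :=
  cov_of (fRTK H BI0) (.n 1 (.n 0 (.n 2 (.n 1 (.l 0) (.l 0)) (.n 0 (.l 0) (.l 0))) (.n 2 (.n 1 (.l 0) (.l 0)) (.n 0 (.l 0) (.l 0)))) (.n 0 (.n 2 (.n 1 (.l 0) (.l 0)) (.n 0 (.l 0) (.l 0))) (.n 2 (.n 1 (.l 0) (.l 0)) (.n 0 (.l 0) (.l 0))))) [(1374389534720, 274877906944), (82342576128, 27447525376), (156028108800, 5033164800)] rfl (by decide +kernel)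
theorem I1AD_2 : CovD 0 [pAD H BI1, pK0 H BI1] [(1236950581248, 137438953472), (54895050752, 54895050752), (193273528320, 32212254720)] :=
  cov_of (fADK H BI1) (.n 1 (.n 0 (.n 2 (.n 0 (.l 0) (.l 0)) (.n 0 (.l 0) (.l 0))) (.n 2 (.n 0 (.l 0) (.l 0)) (.n 0 (.l 0) (.l 0)))) (.n 0 (.n 2 (.n 0 (.l 0) (.l 0)) (.n 0 (.l 0) (.l 0))) (.n 2 (.n 0 (.l 0) (.l 0)) (.n 0 (.l 0) (.l 0))))) [(1236950581248, 137438953472), (54895050752, 54895050752), (193273528320, 32212254720)] rfl (by decide +kernel)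
end

mutual
theorem I1AD_3 : CovD 0 [pAD H BI1, pK0 H BI1] [(1236950581248, 137438953472), (54895050752, 54895050752), (257698037760, 32212254720)] :=
  cov_of (fADK H BI1) (.n 0 (.n 1 (.n 2 (.n 0 (.l 0) (.l 0)) (.l 0)) (.n 2 (.n 0 (.l 0) (.l 0)) (.l 0))) (.n 1 (.n 2 (.n 0 (.l 0) (.l 0)) (.l 0)) (.n 2 (.n 0 (.l 0) (.l 0)) (.l 0)))) [(1236950581248, 137438953472), (54895050752, 54895050752), (257698037760, 32212254720)] rfl (by decide +kernel)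
theorem I1AD_5 : CovD 0 [pAD H BI1, pK0 H BI1] [(1511828488192, 137438953472), (54895050752, 54895050752), (193273528320, 32212254720)] :=
  cov_of (fADK H BI1) (.n 1 (.n 0 (.n 2 (.n 0 (.l 0) (.l 0)) (.n 0 (.l 0) (.l 0))) (.n 2 (.n 0 (.l 0) (.l 0)) (.n 0 (.l 0) (.l 0)))) (.n 0 (.n 2 (.n 0 (.l 0) (.l 0)) (.n 0 (.l 0) (.l 0))) (.n 2 (.n 0 (.l 0) (.l 0)) (.n 0 (.l 0) (.l 0))))) [(1511828488192, 137438953472), (54895050752, 54895050752), (193273528320, 32212254720)] rfl (by decide +kernel)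
end

mutual
theorem I1AD_6 : CovD 0 [pAD H BI1, pK0 H BI1] [(1511828488192, 137438953472), (54895050752, 54895050752), (257698037760, 32212254720)] :=
  cov_of (fADK H BI1) (.n 1 (.n 0 (.n 2 (.l 0) (.l 0)) (.n 2 (.l 0) (.l 0))) (.n 0 (.n 2 (.n 0 (.l 0) (.l 0)) (.l 0)) (.n 2 (.l 0) (.l 0)))) [(1511828488192, 137438953472), (54895050752, 54895050752), (257698037760, 32212254720)] rfl (by decide +kernel)
theorem I1AD_8 : CovD 0 [pAD H BI1, pK0 H BI1] [(1236950581248, 137438953472), (54895050752, 54895050752), (354334801920, 64424509440)] :=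
  cov_of (fADK H BI1) (.n 2 (.n 0 (.n 1 (.n 0 (.l 0) (.l 0)) (.n 0 (.l 0) (.l 0))) (.n 1 (.n 0 (.l 0) (.l 0)) (.n 0 (.l 0) (.l 0)))) (.n 0 (.n 1 (.n 0 (.l 0) (.l 0)) (.n 0 (.l 0) (.l 0))) (.n 1 (.l 0) (.n 0 (.l 0) (.l 0))))) [(1236950581248, 137438953472), (54895050752, 54895050752), (354334801920, 64424509440)] rfl (by decide +kernel)
end

mutual
theorem I1AD_9 : CovD 0 [pAD H BI1, pK0 H BI1] [(1511828488192, 137438953472), (54895050752, 54895050752), (354334801920, 64424509440)] :=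
  cov_of (fADK H BI1) (.n 2 (.n 0 (.n 1 (.n 0 (.l 0) (.l 0)) (.n 0 (.l 0) (.l 0))) (.n 1 (.n 0 (.l 0) (.l 0)) (.n 0 (.l 0) (.l 0)))) (.n 0 (.n 1 (.l 0) (.n 0 (.l 0) (.l 0))) (.n 1 (.l 0) (.l 0)))) [(1511828488192, 137438953472), (54895050752, 54895050752), (354334801920, 64424509440)] rfl (by decide +kernel)
theorem I1G : CovD 1 [pG H BI1, pK1 H BI1] [(1374389534720, 274877906944), (54895050752, 54895050752), (289910292480, 128849018880)] :=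
  cov_of (fGK H BI1) (.n 2 (.n 0 (.l 0) (.l 0)) (.n 2 (.l 0) (.n 0 (.l 0) (.l 0)))) [(1374389534720, 274877906944), (54895050752, 54895050752), (289910292480, 128849018880)] rfl (by decide +kernel)
end

mutual
theorem I1RT_4 : CovD 1 [pRT H BI1, pK1 H BI1] [(1374389534720, 274877906944), (27447525376, 27447525376), (169114337280, 8053063680)] :=
  cov_of (fRTK H BI1) (.n 2 (.n 0 (.n 2 (.n 1 (.l 0) (.l 0)) (.n 1 (.l 0) (.l 0))) (.n 2 (.n 1 (.l 0) (.l 0)) (.n 1 (.l 0) (.l 0)))) (.n 0 (.n 2 (.n 1 (.l 0) (.l 0)) (.n 0 (.l 0) (.l 0))) (.n 2 (.n 1 (.l 0) (.l 0)) (.n 0 (.l 0) (.l 0))))) [(1374389534720, 274877906944), (27447525376, 27447525376), (169114337280, 8053063680)] rfl (by decide +kernel)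
theorem I1RT_5 : CovD 1 [pRT H BI1, pK1 H BI1] [(1374389534720, 274877906944), (82342576128, 27447525376), (169114337280, 8053063680)] :=
  cov_of (fRTK H BI1) (.n 2 (.n 1 (.n 0 (.n 2 (.l 0) (.l 0)) (.n 2 (.l 0) (.l 0))) (.n 0 (.n 2 (.l 0) (.l 0)) (.n 2 (.l 0) (.l 0)))) (.n 0 (.n 1 (.n 2 (.l 0) (.l 0)) (.n 2 (.l 0) (.l 0))) (.n 1 (.n 2 (.l 0) (.l 0)) (.n 2 (.l 0) (.l 0))))) [(1374389534720, 274877906944), (82342576128, 27447525376), (169114337280, 8053063680)] rfl (by decide +kernel)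
end

mutual
theorem I1RT_7 : CovD 1 [pRT H BI1, pK1 H BI1] [(1374389534720, 274877906944), (27447525376, 27447525376), (185220464640, 8053063680)] :=
  cov_of (fRTK H BI1) (.n 2 (.n 0 (.n 2 (.n 0 (.l 0) (.l 0)) (.n 0 (.l 0) (.l 0))) (.n 2 (.n 0 (.l 0) (.l 0)) (.n 0 (.l 0) (.l 0)))) (.n 0 (.n 2 (.n 0 (.l 0) (.l 0)) (.l 0)) (.n 2 (.l 0) (.l 0)))) [(1374389534720, 274877906944), (27447525376, 27447525376), (185220464640, 8053063680)] rfl (by decide +kernel)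
theorem I1RT_8 : CovD 1 [pRT H BI1, pK1 H BI1] [(1374389534720, 274877906944), (82342576128, 27447525376), (185220464640, 8053063680)] :=
  cov_of (fRTK H BI1) (.n 2 (.n 0 (.n 1 (.n 2 (.l 0) (.l 0)) (.n 2 (.l 0) (.l 0))) (.n 1 (.n 2 (.l 0) (.l 0)) (.n 1 (.l 0) (.l 0)))) (.n 0 (.n 1 (.n 0 (.l 0) (.l 0)) (.n 0 (.l 0) (.l 0))) (.n 1 (.n 0 (.l 0) (.l 0)) (.n 0 (.l 0) (.l 0))))) [(1374389534720, 274877906944), (82342576128, 27447525376), (185220464640, 8053063680)] rfl (by decide +kernel)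
end

mutual
theorem I1RT_10 : CovD 1 [pRT H BI1, pK1 H BI1] [(1374389534720, 274877906944), (54895050752, 54895050752), (201326592000, 8053063680)] :=
  cov_of (fRTK H BI1) (.n 1 (.n 2 (.n 0 (.n 2 (.l 0) (.l 0)) (.n 2 (.l 0) (.l 0))) (.n 0 (.n 1 (.l 0) (.l 0)) (.n 1 (.l 0) (.l 0)))) (.n 2 (.n 0 (.n 1 (.n 0 (.l 0) (.l 0)) (.n 0 (.l 0) (.l 0))) (.n 1 (.n 0 (.l 0) (.l 0)) (.n 0 (.l 0) (.l 0)))) (.n 0 (.n 1 (.n 0 (.l 0) (.l 0)) (.l 0)) (.n 1 (.l 0) (.l 0))))) [(1374389534720, 274877906944), (54895050752, 54895050752), (201326592000, 8053063680)] rfl (by decide +kernel)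
theorem I1RT_11 : CovD 1 [pRT H BI1, pK1 H BI1] [(1374389534720, 274877906944), (54895050752, 54895050752), (217432719360, 8053063680)] :=
  cov_of (fRTK H BI1) (.n 1 (.n 0 (.n 2 (.n 0 (.l 0) (.l 0)) (.n 0 (.l 0) (.l 0))) (.n 2 (.n 0 (.l 0) (.l 0)) (.l 0))) (.n 0 (.n 2 (.n 1 (.l 0) (.l 0)) (.n 1 (.l 0) (.l 0))) (.n 2 (.n 1 (.l 0) (.l 0)) (.n 1 (.l 0) (.l 0))))) [(1374389534720, 274877906944), (54895050752, 54895050752), (217432719360, 8053063680)] rfl (by decide +kernel)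
end

mutual
theorem I1RT_13 : CovD 1 [pRT H BI1, pK1 H BI1] [(1374389534720, 274877906944), (54895050752, 54895050752), (241591910400, 16106127360)] :=
  cov_of (fRTK H BI1) (.n 2 (.n 1 (.n 0 (.n 2 (.l 0) (.l 0)) (.n 2 (.l 0) (.l 0))) (.n 0 (.n 2 (.n 0 (.l 0) (.l 0)) (.n 0 (.l 0) (.l 0))) (.n 2 (.n 0 (.l 0) (.l 0)) (.n 0 (.l 0) (.l 0))))) (.n 1 (.n 0 (.n 2 (.l 0) (.l 0)) (.n 2 (.l 0) (.l 0))) (.n 0 (.n 2 (.l 0) (.l 0)) (.n 2 (.l 0) (.l 0))))) [(1374389534720, 274877906944), (54895050752, 54895050752), (241591910400, 16106127360)] rfl (by decide +kernel)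
theorem I1RT_14 : CovD 1 [pRT H BI1, pK1 H BI1] [(1374389534720, 274877906944), (54895050752, 54895050752), (273804165120, 16106127360)] :=
  cov_of (fRTK H BI1) (.n 2 (.n 0 (.n 1 (.n 2 (.l 0) (.l 0)) (.n 2 (.l 0) (.l 0))) (.n 1 (.n 2 (.l 0) (.l 0)) (.n 2 (.l 0) (.l 0)))) (.n 0 (.n 1 (.n 0 (.l 0) (.l 0)) (.n 1 (.l 0) (.l 0))) (.n 1 (.n 0 (.l 0) (.l 0)) (.n 1 (.l 0) (.l 0))))) [(1374389534720, 274877906944), (54895050752, 54895050752), (273804165120, 16106127360)] rfl (by decide +kernel)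
end

mutual
theorem I1RT_16 : CovD 1 [pRT H BI1, pK1 H BI1] [(1374389534720, 274877906944), (54895050752, 54895050752), (322122547200, 32212254720)] :=
  cov_of (fRTK H BI1) (.n 2 (.n 0 (.n 2 (.n 1 (.n 0 (.l 0) (.l 0)) (.n 0 (.l 0) (.l 0))) (.n 1 (.l 0) (.n 0 (.l 0) (.l 0)))) (.n 2 (.n 1 (.n 0 (.l 0) (.l 0)) (.n 0 (.l 0) (.l 0))) (.n 1 (.l 0) (.n 0 (.l 0) (.l 0))))) (.n 0 (.n 2 (.n 1 (.l 0) (.l 0)) (.n 1 (.l 0) (.l 0))) (.n 2 (.n 1 (.l 0) (.n 0 (.l 0) (.l 0))) (.n 1 (.l 0) (.l 0))))) [(1374389534720, 274877906944), (54895050752, 54895050752), (322122547200, 32212254720)] rfl (by decide +kernel)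
theorem I1RT_17 : CovD 1 [pRT H BI1, pK1 H BI1] [(1374389534720, 274877906944), (54895050752, 54895050752), (386547056640, 32212254720)] :=
  cov_of (fRTK H BI1) (.n 2 (.n 0 (.n 2 (.n 1 (.l 0) (.l 0)) (.n 0 (.l 0) (.l 0))) (.n 2 (.n 1 (.l 0) (.l 0)) (.n 1 (.l 0) (.l 0)))) (.n 0 (.n 2 (.n 0 (.l 0) (.l 0)) (.n 0 (.l 0) (.l 0))) (.n 2 (.n 1 (.l 0) (.l 0)) (.n 0 (.l 0) (.n 1 (.l 0) (.l 0)))))) [(1374389534720, 274877906944), (54895050752, 54895050752), (386547056640, 32212254720)] rfl (by decide +kernel)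
end

end Pool.Agent.helper82.WC.S0K0
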