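import Pool.Agent.helper82.WC.S0K0P

/-!
Generated certificates (in pairs, so that they are checked one after the other).
-/

namespace Pool.Agent.helper82.WC.S0K0

open Pool.Agent.helper82.WH
open Pool.Agent.helper31.IC (CovD covD_split TD)

mutual
theorem I2AD_0 : CovD 0 [pAD H BI2, pK0 H BI2] [(1374389534720, 274877906944), (54895050752, 54895050752), (507343011840, 88583700480)] :=
  cov_of (fADK H BI2) (.n 0 (.n 2 (.n 0 (.n 2 (.n 0 (.l 0) (.l 0)) (.n 0 (.l 0) (.l 0))) (.n 2 (.n 0 (.l 0) (.l 0)) (.n 0 (.l 0) (.l 0)))) (.n 0 (.n 2 (.l 0) (.l 0)) (.n 2 (.l 0) (.l 0)))) (.n 2 (.n 0 (.n 2 (.n 0 (.l 0) (.l 0)) (.l 0)) (.n 2 (.n 0 (.l 0) (.l 0)) (.l 0))) (.n 0 (.n 1 (.l 0) (.l 0)) (.n 1 (.l 0) (.l 0))))) [(1374389534720, 274877906944), (54895050752, 54895050752), (507343011840, 88583700480)] rfl (by decide +kernel)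
theorem I2AD_1 : CovD 0 [pAD H BI2, pK0 H BI2] [(1374389534720, 274877906944), (54895050752, 54895050752), (684510412800, 88583700480)] :=
  cov_of (fADK H BI2) (.n 0 (.n 2 (.n 0 (.n 0 (.l 0) (.l 0)) (.n 0 (.l 0) (.l 0))) (.n 0 (.n 2 (.l 0) (.l 0)) (.n 2 (.l 0) (.l 0)))) (.n 2 (.n 0 (.n 0 (.l 0) (.l 0)) (.n 0 (.l 0) (.l 0))) (.n 0 (.n 2 (.l 0) (.l 0)) (.n 0 (.l 0) (.l 0))))) [(1374389534720, 274877906944), (54895050752, 54895050752), (684510412800, 88583700480)] rfl (by decide +kernel)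
end

mutual
theorem I2G : CovD 1 [pG H BI2, pK1 H BI2] [(1374389534720, 274877906944), (54895050752, 54895050752), (595926712320, 177167400960)] :=
  cov_of (fGK H BI2) (.n 2 (.n 2 (.n 0 (.l 0) (.n 0 (.l 0) (.l 0))) (.n 0 (.n 0 (.l 0) (.l 0)) (.n 0 (.l 0) (.l 0)))) (.n 2 (.n 0 (.n 0 (.l 0) (.l 0)) (.n 0 (.l 0) (.l 0))) (.n 0 (.n 0 (.l 0) (.l 0)) (.n 0 (.l 0) (.l 0))))) [(1374389534720, 274877906944), (54895050752, 54895050752), (595926712320, 177167400960)] rfl (by decide +kernel)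
theorem I2RT_0 : CovD 1 [pRT H BI2, pK1 H BI2] [(1374389534720, 274877906944), (54895050752, 54895050752), (507343011840, 88583700480)] :=
  cov_of (fRTK H BI2) (.n 2 (.n 2 (.n 0 (.n 2 (.n 0 (.l 0) (.l 0)) (.n 0 (.l 0) (.l 0))) (.n 2 (.n 0 (.l 0) (.l 0)) (.n 0 (.l 0) (.l 0)))) (.n 0 (.n 2 (.l 0) (.l 0)) (.n 2 (.l 0) (.l 0)))) (.n 0 (.n 2 (.n 0 (.l 0) (.l 0)) (.l 0)) (.n 2 (.n 1 (.n 0 (.l 0) (.l 0)) (.l 0)) (.n 0 (.l 0) (.n 1 (.l 0) (.l 0)))))) [(1374389534720, 274877906944), (54895050752, 54895050752), (507343011840, 88583700480)] rfl (by decide +kernel)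
end

mutual
theorem I2RT_2 : CovD 1 [pRT H BI2, pK1 H BI2] [(1374389534720, 274877906944), (54895050752, 54895050752), (640218562560, 44291850240)] :=
  cov_of (fRTK H BI2) (.n 0 (.n 2 (.l 0) (.l 0)) (.n 2 (.n 0 (.l 0) (.n 1 (.n 0 (.l 0) (.l 0)) (.l 0))) (.n 0 (.n 0 (.l 0) (.l 0)) (.n 1 (.n 2 (.l 0) (.l 0)) (.l 0))))) [(1374389534720, 274877906944), (54895050752, 54895050752), (640218562560, 44291850240)] rfl (by decide +kernel)
theorem I2RT_3 : CovD 1 [pRT H BI2, pK1 H BI2] [(1374389534720, 274877906944), (54895050752, 54895050752), (728802263040, 44291850240)] :=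
  cov_of (fRTK H BI2) (.n 0 (.n 0 (.l 0) (.n 1 (.l 0) (.l 0))) (.n 2 (.n 0 (.n 0 (.l 0) (.l 0)) (.n 1 (.n 0 (.l 0) (.n 2 (.l 0) (.l 0))) (.n 0 (.l 0) (.l 0)))) (.n 0 (.n 1 (.l 0) (.l 0)) (.n 1 (.n 0 (.l 0) (.n 2 (.l 0) (.n 0 (.l 0) (.l 0)))) (.n 2 (.l 0) (.l 0)))))) [(1374389534720, 274877906944), (54895050752, 54895050752), (728802263040, 44291850240)] rfl (by decide +kernel)
end

mutual
theorem TAD : CovD 0 [pAD H BT] [(1374389534720, 274877906944), (54895050752, 54895050752), (773094113280, 0)] :=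
  cov_of (fAD H BT) (.n 0 (.n 0 (.n 0 (.n 1 (.l 0) (.l 0)) (.n 1 (.l 0) (.l 0))) (.n 1 (.l 0) (.l 0))) (.n 0 (.n 0 (.l 0) (.l 0)) (.n 0 (.l 0) (.l 0)))) [(1374389534720, 274877906944), (54895050752, 54895050752), (773094113280, 0)] rfl (by decide +kernel)
theorem TG : CovD 1 [pG H BT] [(1374389534720, 274877906944), (54895050752, 54895050752), (773094113280, 0)] :=
  cov_of (fG H BT) (.n 0 (.n 0 (.l 0) (.l 0)) (.n 0 (.l 0) (.l 0))) [(1374389534720, 274877906944), (54895050752, 54895050752), (773094113280, 0)] rfl (by decide +kernel)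
end

mutual
theorem TRT : CovD 1 [pRT H BT] [(1374389534720, 274877906944), (54895050752, 54895050752), (773094113280, 0)] :=
  cov_of (fRT H BT) (.n 0 (.n 0 (.l 0) (.l 0)) (.n 0 (.l 0) (.n 1 (.l 0) (.l 0)))) [(1374389534720, 274877906944), (54895050752, 54895050752), (773094113280, 0)] rfl (by decide +kernel)
theorem TTT : CovD 1 [pTT H BT] [(1374389534720, 274877906944), (54895050752, 54895050752), (773094113280, 0)] :=
  cov_of (fTT H BT) (.n 0 (.n 0 (.n 0 (.n 1 (.l 0) (.l 0)) (.n 1 (.l 0) (.l 0))) (.n 1 (.l 0) (.l 0))) (.n 0 (.n 0 (.l 0) (.l 0)) (.l 0))) [(1374389534720, 274877906944), (54895050752, 54895050752), (773094113280, 0)] rfl (by decide +kernel)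
end

mutual
theorem H0H : CovD 0 [pH H BH0, pJ0 H BH0] [(1374389534720, 274877906944), (54895050752, 54895050752), (56237228032, 56237228032)] :=
  cov_of (fHJ H BH0) (.n 2 (.l 0) (.n 1 (.l 0) (.n 2 (.l 0) (.n 1 (.l 0) (.l 1))))) [(1374389534720, 274877906944), (54895050752, 54895050752), (56237228032, 56237228032)] rfl (by decide +kernel)
theorem H1H : CovD 0 [pH H BH1] [(1374389534720, 274877906944), (54895050752, 54895050752), (1099511627776, 1099511627776)] :=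
  cov_of (fH H BH1) (.l 0) [(1374389534720, 274877906944), (54895050752, 54895050752), (1099511627776, 1099511627776)] rfl (by decide +kernel)
end

end Pool.Agent.helper82.WC.S0K0
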