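import Pool.Agent.helper82.WC.S0K0C0
import Pool.Agent.helper82.WC.S0K0C1
import Pool.Agent.helper82.WC.S0K0C2

/-!
Generated certificates, assembled.
-/

namespace Pool.Agent.helper82.WC.S0K0

open Pool.Agent.helper82.WH
open Pool.Agent.helper31.IC (CovD covD_split TD)

theorem I0AD_2 : CovD 0 [pAD H BI0, pK0 H BI0] [(1374389534720, 274877906944), (82342576128, 27447525376), (40265318400, 40265318400)] :=
  covD_split 2 (by decide +kernel) I0AD_3 I0AD_4
theorem I0AD_0 : CovD 0 [pAD H BI0, pK0 H BI0] [(1374389534720, 274877906944), (54895050752, 54895050752), (40265318400, 40265318400)] :=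
  covD_split 1 (by decide +kernel) I0AD_1 I0AD_2
theorem I0AD_6 : CovD 0 [pAD H BI0, pK0 H BI0] [(1236950581248, 137438953472), (54895050752, 54895050752), (120795955200, 40265318400)] :=
  covD_split 1 (by decide +kernel) I0AD_7 I0AD_8
theorem I0AD_9 : CovD 0 [pAD H BI0, pK0 H BI0] [(1511828488192, 137438953472), (54895050752, 54895050752), (120795955200, 40265318400)] :=
  covD_split 1 (by decide +kernel) I0AD_10 I0AD_11
theorem I0AD_5 : CovD 0 [pAD H BI0, pK0 H BI0] [(1374389534720, 274877906944), (54895050752, 54895050752), (120795955200, 40265318400)] :=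
  covD_split 0 (by decide +kernel) I0AD_6 I0AD_9
theorem I0AD : CovD 0 [pAD H BI0, pK0 H BI0] [(1374389534720, 274877906944), (54895050752, 54895050752), (80530636800, 80530636800)] :=
  covD_split 2 (by decide +kernel) I0AD_0 I0AD_5
theorem I0RT_7 : CovD 1 [pRT H BI0, pK1 H BI0] [(1374389534720, 274877906944), (102928220160, 6861881344), (20132659200, 20132659200)] :=
  covD_split 2 (by decide +kernel) I0RT_8 I0RT_9
theorem I0RT_5 : CovD 1 [pRT H BI0, pK1 H BI0] [(1374389534720, 274877906944), (96066338816, 13723762688), (20132659200, 20132659200)] :=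
  covD_split 1 (by decide +kernel) I0RT_6 I0RT_7
theorem I0RT_3 : CovD 1 [pRT H BI0, pK1 H BI0] [(1374389534720, 274877906944), (82342576128, 27447525376), (20132659200, 20132659200)] :=
  covD_split 1 (by decide +kernel) I0RT_4 I0RT_5
theorem I0RT_15 : CovD 1 [pRT H BI0, pK1 H BI0] [(1374389534720, 274877906944), (96066338816, 13723762688), (55364812800, 5033164800)] :=
  covD_split 2 (by decide +kernel) I0RT_16 I0RT_17
theorem I0RT_13 : CovD 1 [pRT H BI0, pK1 H BI0] [(1374389534720, 274877906944), (96066338816, 13723762688), (50331648000, 10066329600)] :=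
  covD_split 2 (by decide +kernel) I0RT_14 I0RT_15
theorem I0RT_11 : CovD 1 [pRT H BI0, pK1 H BI0] [(1374389534720, 274877906944), (82342576128, 27447525376), (50331648000, 10066329600)] :=
  covD_split 1 (by decide +kernel) I0RT_12 I0RT_13
theorem I0RT_21 : CovD 1 [pRT H BI0, pK1 H BI0] [(1374389534720, 274877906944), (96066338816, 13723762688), (65431142400, 5033164800)] :=
  covD_split 2 (by decide +kernel) I0RT_22 I0RT_23
theorem I0RT_19 : CovD 1 [pRT H BI0, pK1 H BI0] [(1374389534720, 274877906944), (82342576128, 27447525376), (65431142400, 5033164800)] :=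
  covD_split 1 (by decide +kernel) I0RT_20 I0RT_21
theorem I0RT_26 : CovD 1 [pRT H BI0, pK1 H BI0] [(1374389534720, 274877906944), (96066338816, 13723762688), (75497472000, 5033164800)] :=
  covD_split 2 (by decide +kernel) I0RT_27 I0RT_28
theorem I0RT_24 : CovD 1 [pRT H BI0, pK1 H BI0] [(1374389534720, 274877906944), (82342576128, 27447525376), (75497472000, 5033164800)] :=
  covD_split 1 (by decide +kernel) I0RT_25 I0RT_26
theorem I0RT_18 : CovD 1 [pRT H BI0, pK1 H BI0] [(1374389534720, 274877906944), (82342576128, 27447525376), (70464307200, 10066329600)] :=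
  covD_split 2 (by decide +kernel) I0RT_19 I0RT_24
theorem I0RT_10 : CovD 1 [pRT H BI0, pK1 H BI0] [(1374389534720, 274877906944), (82342576128, 27447525376), (60397977600, 20132659200)] :=
  covD_split 2 (by decide +kernel) I0RT_11 I0RT_18
theorem I0RT_2 : CovD 1 [pRT H BI0, pK1 H BI0] [(1374389534720, 274877906944), (82342576128, 27447525376), (40265318400, 40265318400)] :=
  covD_split 2 (by decide +kernel) I0RT_3 I0RT_10
theorem I0RT_0 : CovD 1 [pRT H BI0, pK1 H BI0] [(1374389534720, 274877906944), (54895050752, 54895050752), (40265318400, 40265318400)] :=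
  covD_split 1 (by decide +kernel) I0RT_1 I0RT_2
theorem I0RT_35 : CovD 1 [pRT H BI0, pK1 H BI0] [(1374389534720, 274877906944), (68618813440, 13723762688), (85563801600, 5033164800)] :=
  covD_split 2 (by decide +kernel) I0RT_36 I0RT_37
theorem I0RT_38 : CovD 1 [pRT H BI0, pK1 H BI0] [(1374389534720, 274877906944), (96066338816, 13723762688), (85563801600, 5033164800)] :=
  covD_split 2 (by decide +kernel) I0RT_39 I0RT_40
theorem I0RT_34 : CovD 1 [pRT H BI0, pK1 H BI0] [(1374389534720, 274877906944), (82342576128, 27447525376), (85563801600, 5033164800)] :=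
  covD_split 1 (by decide +kernel) I0RT_35 I0RT_38
theorem I0RT_42 : CovD 1 [pRT H BI0, pK1 H BI0] [(1374389534720, 274877906944), (68618813440, 13723762688), (95630131200, 5033164800)] :=
  covD_split 2 (by decide +kernel) I0RT_43 I0RT_44
theorem I0RT_41 : CovD 1 [pRT H BI0, pK1 H BI0] [(1374389534720, 274877906944), (82342576128, 27447525376), (95630131200, 5033164800)] :=
  covD_split 1 (by decide +kernel) I0RT_42 I0RT_45
theorem I0RT_33 : CovD 1 [pRT H BI0, pK1 H BI0] [(1374389534720, 274877906944), (82342576128, 27447525376), (90596966400, 10066329600)] :=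
  covD_split 2 (by decide +kernel) I0RT_34 I0RT_41
theorem I0RT_31 : CovD 1 [pRT H BI0, pK1 H BI0] [(1374389534720, 274877906944), (54895050752, 54895050752), (90596966400, 10066329600)] :=
  covD_split 1 (by decide +kernel) I0RT_32 I0RT_33
theorem I0RT_48 : CovD 1 [pRT H BI0, pK1 H BI0] [(1374389534720, 274877906944), (27447525376, 27447525376), (105696460800, 5033164800)] :=
  covD_split 2 (by decide +kernel) I0RT_49 I0RT_50
theorem I0RT_51 : CovD 1 [pRT H BI0, pK1 H BI0] [(1374389534720, 274877906944), (27447525376, 27447525376), (115762790400, 5033164800)] :=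
  covD_split 2 (by decide +kernel) I0RT_52 I0RT_53
theorem I0RT_47 : CovD 1 [pRT H BI0, pK1 H BI0] [(1374389534720, 274877906944), (27447525376, 27447525376), (110729625600, 10066329600)] :=
  covD_split 2 (by decide +kernel) I0RT_48 I0RT_51
theorem I0RT_55 : CovD 1 [pRT H BI0, pK1 H BI0] [(1374389534720, 274877906944), (82342576128, 27447525376), (105696460800, 5033164800)] :=
  covD_split 1 (by decide +kernel) I0RT_56 I0RT_57
theorem I0RT_58 : CovD 1 [pRT H BI0, pK1 H BI0] [(1374389534720, 274877906944), (82342576128, 27447525376), (115762790400, 5033164800)] :=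
  covD_split 1 (by decide +kernel) I0RT_59 I0RT_60
theorem I0RT_54 : CovD 1 [pRT H BI0, pK1 H BI0] [(1374389534720, 274877906944), (82342576128, 27447525376), (110729625600, 10066329600)] :=
  covD_split 2 (by decide +kernel) I0RT_55 I0RT_58
theorem I0RT_46 : CovD 1 [pRT H BI0, pK1 H BI0] [(1374389534720, 274877906944), (54895050752, 54895050752), (110729625600, 10066329600)] :=
  covD_split 1 (by decide +kernel) I0RT_47 I0RT_54
theorem I0RT_30 : CovD 1 [pRT H BI0, pK1 H BI0] [(1374389534720, 274877906944), (54895050752, 54895050752), (100663296000, 20132659200)] :=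
  covD_split 2 (by decide +kernel) I0RT_31 I0RT_46
theorem I0RT_64 : CovD 1 [pRT H BI0, pK1 H BI0] [(1374389534720, 274877906944), (27447525376, 27447525376), (125829120000, 5033164800)] :=
  covD_split 2 (by decide +kernel) I0RT_65 I0RT_66
theorem I0RT_63 : CovD 1 [pRT H BI0, pK1 H BI0] [(1374389534720, 274877906944), (27447525376, 27447525376), (130862284800, 10066329600)] :=
  covD_split 2 (by decide +kernel) I0RT_64 I0RT_67
theorem I0RT_69 : CovD 1 [pRT H BI0, pK1 H BI0] [(1374389534720, 274877906944), (82342576128, 27447525376), (125829120000, 5033164800)] :=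
  covD_split 1 (by decide +kernel) I0RT_70 I0RT_71
theorem I0RT_72 : CovD 1 [pRT H BI0, pK1 H BI0] [(1374389534720, 274877906944), (82342576128, 27447525376), (135895449600, 5033164800)] :=
  covD_split 1 (by decide +kernel) I0RT_73 I0RT_74
theorem I0RT_68 : CovD 1 [pRT H BI0, pK1 H BI0] [(1374389534720, 274877906944), (82342576128, 27447525376), (130862284800, 10066329600)] :=
  covD_split 2 (by decide +kernel) I0RT_69 I0RT_72
theorem I0RT_62 : CovD 1 [pRT H BI0, pK1 H BI0] [(1374389534720, 274877906944), (54895050752, 54895050752), (130862284800, 10066329600)] :=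
  covD_split 1 (by decide +kernel) I0RT_63 I0RT_68
theorem I0RT_76 : CovD 1 [pRT H BI0, pK1 H BI0] [(1374389534720, 274877906944), (27447525376, 27447525376), (150994944000, 10066329600)] :=
  covD_split 2 (by decide +kernel) I0RT_77 I0RT_78
theorem I0RT_79 : CovD 1 [pRT H BI0, pK1 H BI0] [(1374389534720, 274877906944), (82342576128, 27447525376), (150994944000, 10066329600)] :=
  covD_split 2 (by decide +kernel) I0RT_80 I0RT_81
theorem I0RT_75 : CovD 1 [pRT H BI0, pK1 H BI0] [(1374389534720, 274877906944), (54895050752, 54895050752), (150994944000, 10066329600)] :=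
  covD_split 1 (by decide +kernel) I0RT_76 I0RT_79
theorem I0RT_61 : CovD 1 [pRT H BI0, pK1 H BI0] [(1374389534720, 274877906944), (54895050752, 54895050752), (140928614400, 20132659200)] :=
  covD_split 2 (by decide +kernel) I0RT_62 I0RT_75
theorem I0RT_29 : CovD 1 [pRT H BI0, pK1 H BI0] [(1374389534720, 274877906944), (54895050752, 54895050752), (120795955200, 40265318400)] :=
  covD_split 2 (by decide +kernel) I0RT_30 I0RT_61
theorem I0RT : CovD 1 [pRT H BI0, pK1 H BI0] [(1374389534720, 274877906944), (54895050752, 54895050752), (80530636800, 80530636800)] :=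
  covD_split 2 (by decide +kernel) I0RT_0 I0RT_29
theorem I1AD_1 : CovD 0 [pAD H BI1, pK0 H BI1] [(1236950581248, 137438953472), (54895050752, 54895050752), (225485783040, 64424509440)] :=
  covD_split 2 (by decide +kernel) I1AD_2 I1AD_3
theorem I1AD_4 : CovD 0 [pAD H BI1, pK0 H BI1] [(1511828488192, 137438953472), (54895050752, 54895050752), (225485783040, 64424509440)] :=
  covD_split 2 (by decide +kernel) I1AD_5 I1AD_6
theorem I1AD_0 : CovD 0 [pAD H BI1, pK0 H BI1] [(1374389534720, 274877906944), (54895050752, 54895050752), (225485783040, 64424509440)] :=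
  covD_split 0 (by decide +kernel) I1AD_1 I1AD_4
theorem I1AD_7 : CovD 0 [pAD H BI1, pK0 H BI1] [(1374389534720, 274877906944), (54895050752, 54895050752), (354334801920, 64424509440)] :=
  covD_split 0 (by decide +kernel) I1AD_8 I1AD_9
theorem I1AD : CovD 0 [pAD H BI1, pK0 H BI1] [(1374389534720, 274877906944), (54895050752, 54895050752), (289910292480, 128849018880)] :=
  covD_split 2 (by decide +kernel) I1AD_0 I1AD_7
theorem I1RT_3 : CovD 1 [pRT H BI1, pK1 H BI1] [(1374389534720, 274877906944), (54895050752, 54895050752), (169114337280, 8053063680)] :=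
  covD_split 1 (by decide +kernel) I1RT_4 I1RT_5
theorem I1RT_6 : CovD 1 [pRT H BI1, pK1 H BI1] [(1374389534720, 274877906944), (54895050752, 54895050752), (185220464640, 8053063680)] :=
  covD_split 1 (by decide +kernel) I1RT_7 I1RT_8
theorem I1RT_2 : CovD 1 [pRT H BI1, pK1 H BI1] [(1374389534720, 274877906944), (54895050752, 54895050752), (177167400960, 16106127360)] :=
  covD_split 2 (by decide +kernel) I1RT_3 I1RT_6
theorem I1RT_9 : CovD 1 [pRT H BI1, pK1 H BI1] [(1374389534720, 274877906944), (54895050752, 54895050752), (209379655680, 16106127360)] :=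
  covD_split 2 (by decide +kernel) I1RT_10 I1RT_11
theorem I1RT_1 : CovD 1 [pRT H BI1, pK1 H BI1] [(1374389534720, 274877906944), (54895050752, 54895050752), (193273528320, 32212254720)] :=
  covD_split 2 (by decide +kernel) I1RT_2 I1RT_9
theorem I1RT_12 : CovD 1 [pRT H BI1, pK1 H BI1] [(1374389534720, 274877906944), (54895050752, 54895050752), (257698037760, 32212254720)] :=
  covD_split 2 (by decide +kernel) I1RT_13 I1RT_14
theorem I1RT_0 : CovD 1 [pRT H BI1, pK1 H BI1] [(1374389534720, 274877906944), (54895050752, 54895050752), (225485783040, 64424509440)] :=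
  covD_split 2 (by decide +kernel) I1RT_1 I1RT_12
theorem I1RT_15 : CovD 1 [pRT H BI1, pK1 H BI1] [(1374389534720, 274877906944), (54895050752, 54895050752), (354334801920, 64424509440)] :=
  covD_split 2 (by decide +kernel) I1RT_16 I1RT_17
theorem I1RT : CovD 1 [pRT H BI1, pK1 H BI1] [(1374389534720, 274877906944), (54895050752, 54895050752), (289910292480, 128849018880)] :=
  covD_split 2 (by decide +kernel) I1RT_0 I1RT_15
theorem I2AD : CovD 0 [pAD H BI2, pK0 H BI2] [(1374389534720, 274877906944), (54895050752, 54895050752), (595926712320, 177167400960)] :=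
  covD_split 2 (by decide +kernel) I2AD_0 I2AD_1
theorem I2RT_1 : CovD 1 [pRT H BI2, pK1 H BI2] [(1374389534720, 274877906944), (54895050752, 54895050752), (684510412800, 88583700480)] :=
  covD_split 2 (by decide +kernel) I2RT_2 I2RT_3
theorem I2RT : CovD 1 [pRT H BI2, pK1 H BI2] [(1374389534720, 274877906944), (54895050752, 54895050752), (595926712320, 177167400960)] :=
  covD_split 2 (by decide +kernel) I2RT_0 I2RT_1

end Pool.Agent.helper82.WC.S0K0
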