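import Pool.Agent.helper82.WC.S0K0P

/-!
Generated certificates (in pairs, so that they are checked one after the other).
-/

namespace Pool.Agent.helper82.WC.S0K0

open Pool.Agent.helper82.WH
open Pool.Agent.helper31.IC (CovD covD_split TD)

mutual
theorem I0AD_1 : CovD 0 [pAD H BI0, pK0 H BI0] [(1374389534720, 274877906944), (27447525376, 27447525376), (40265318400, 40265318400)] :=
  cov_of (fADK H BI0) (.l 1) [(1374389534720, 274877906944), (27447525376, 27447525376), (40265318400, 40265318400)] rfl (by decide +kernel)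
theorem I0AD_3 : CovD 0 [pAD H BI0, pK0 H BI0] [(1374389534720, 274877906944), (82342576128, 27447525376), (20132659200, 20132659200)] :=
  cov_of (fADK H BI0) (.n 1 (.l 1) (.n 1 (.l 1) (.n 0 (.n 0 (.n 2 (.l 0) (.n 0 (.l 0) (.l 0))) (.n 2 (.l 0) (.l 0))) (.n 0 (.n 2 (.l 0) (.l 0)) (.n 2 (.l 0) (.l 0)))))) [(1374389534720, 274877906944), (82342576128, 27447525376), (20132659200, 20132659200)] rfl (by decide +kernel)
end

mutual
theorem I0AD_4 : CovD 0 [pAD H BI0, pK0 H BI0] [(1374389534720, 274877906944), (82342576128, 27447525376), (60397977600, 20132659200)] :=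
  cov_of (fADK H BI0) (.n 1 (.n 2 (.l 1) (.n 2 (.l 1) (.n 1 (.l 1) (.n 0 (.n 0 (.l 0) (.l 0)) (.n 0 (.l 0) (.l 0)))))) (.n 0 (.n 0 (.n 2 (.n 0 (.l 0) (.l 0)) (.n 0 (.l 0) (.l 0))) (.n 2 (.n 0 (.l 0) (.l 0)) (.n 0 (.l 0) (.l 0)))) (.n 0 (.n 2 (.n 0 (.l 0) (.l 0)) (.n 0 (.l 0) (.l 0))) (.n 2 (.n 0 (.l 0) (.l 0)) (.n 0 (.l 0) (.l 0)))))) [(1374389534720, 274877906944), (82342576128, 27447525376), (60397977600, 20132659200)] rfl (by decide +kernel)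
theorem I0AD_7 : CovD 0 [pAD H BI0, pK0 H BI0] [(1236950581248, 137438953472), (27447525376, 27447525376), (120795955200, 40265318400)] :=
  cov_of (fADK H BI0) (.n 2 (.n 2 (.n 1 (.l 1) (.n 2 (.l 1) (.n 0 (.n 0 (.l 0) (.l 0)) (.l 0)))) (.n 0 (.n 1 (.n 0 (.l 0) (.l 0)) (.n 0 (.l 0) (.l 0))) (.n 1 (.n 0 (.l 0) (.l 0)) (.n 0 (.l 0) (.l 0))))) (.n 0 (.n 0 (.n 2 (.n 0 (.l 0) (.l 0)) (.l 0)) (.n 2 (.n 0 (.l 0) (.l 0)) (.l 0))) (.n 2 (.n 1 (.l 0) (.l 0)) (.n 0 (.l 0) (.l 0))))) [(1236950581248, 137438953472), (27447525376, 27447525376), (120795955200, 40265318400)] rfl (by decide +kernel)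
end

mutual
theorem I0AD_8 : CovD 0 [pAD H BI0, pK0 H BI0] [(1236950581248, 137438953472), (82342576128, 27447525376), (120795955200, 40265318400)] :=
  cov_of (fADK H BI0) (.n 2 (.n 2 (.n 0 (.n 1 (.n 0 (.l 0) (.l 0)) (.n 0 (.l 0) (.l 0))) (.n 1 (.n 0 (.l 0) (.l 0)) (.n 0 (.l 0) (.l 0)))) (.n 0 (.n 1 (.n 0 (.l 0) (.l 0)) (.n 0 (.l 0) (.l 0))) (.n 1 (.n 0 (.l 0) (.l 0)) (.l 0)))) (.n 0 (.n 0 (.n 1 (.l 0) (.l 0)) (.n 1 (.l 0) (.l 0))) (.n 2 (.n 0 (.l 0) (.l 0)) (.n 0 (.l 0) (.l 0))))) [(1236950581248, 137438953472), (82342576128, 27447525376), (120795955200, 40265318400)] rfl (by decide +kernel)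
theorem I0AD_10 : CovD 0 [pAD H BI0, pK0 H BI0] [(1511828488192, 137438953472), (27447525376, 27447525376), (120795955200, 40265318400)] :=
  cov_of (fADK H BI0) (.n 2 (.n 2 (.n 1 (.l 1) (.n 2 (.l 1) (.n 0 (.l 0) (.l 0)))) (.n 0 (.n 1 (.n 0 (.l 0) (.l 0)) (.n 0 (.l 0) (.l 0))) (.n 1 (.n 0 (.l 0) (.l 0)) (.n 0 (.l 0) (.l 0))))) (.n 0 (.n 2 (.n 1 (.l 0) (.l 0)) (.n 0 (.l 0) (.l 0))) (.n 2 (.n 0 (.l 0) (.l 0)) (.n 0 (.l 0) (.l 0))))) [(1511828488192, 137438953472), (27447525376, 27447525376), (120795955200, 40265318400)] rfl (by decide +kernel)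
end

mutual
theorem I0AD_11 : CovD 0 [pAD H BI0, pK0 H BI0] [(1511828488192, 137438953472), (82342576128, 27447525376), (120795955200, 40265318400)] :=
  cov_of (fADK H BI0) (.n 2 (.n 1 (.n 0 (.n 2 (.n 0 (.l 0) (.l 0)) (.n 0 (.l 0) (.l 0))) (.n 2 (.n 0 (.l 0) (.l 0)) (.l 0))) (.n 0 (.n 2 (.n 0 (.l 0) (.l 0)) (.l 0)) (.n 2 (.l 0) (.l 0)))) (.n 0 (.n 2 (.n 0 (.l 0) (.l 0)) (.n 0 (.l 0) (.l 0))) (.n 2 (.n 0 (.l 0) (.l 0)) (.n 0 (.l 0) (.l 0))))) [(1511828488192, 137438953472), (82342576128, 27447525376), (120795955200, 40265318400)] rfl (by decide +kernel)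
theorem I0G : CovD 1 [pG H BI0, pK1 H BI0] [(1374389534720, 274877906944), (54895050752, 54895050752), (80530636800, 80530636800)] :=
  cov_of (fGK H BI0) (.l 0) [(1374389534720, 274877906944), (54895050752, 54895050752), (80530636800, 80530636800)] rfl (by decide +kernel)
end

mutual
theorem I0RT_1 : CovD 1 [pRT H BI0, pK1 H BI0] [(1374389534720, 274877906944), (27447525376, 27447525376), (40265318400, 40265318400)] :=
  cov_of (fRTK H BI0) (.l 1) [(1374389534720, 274877906944), (27447525376, 27447525376), (40265318400, 40265318400)] rfl (by decide +kernel)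
theorem I0RT_4 : CovD 1 [pRT H BI0, pK1 H BI0] [(1374389534720, 274877906944), (68618813440, 13723762688), (20132659200, 20132659200)] :=
  cov_of (fRTK H BI0) (.l 1) [(1374389534720, 274877906944), (68618813440, 13723762688), (20132659200, 20132659200)] rfl (by decide +kernel)
end

mutual
theorem I0RT_6 : CovD 1 [pRT H BI0, pK1 H BI0] [(1374389534720, 274877906944), (89204457472, 6861881344), (20132659200, 20132659200)] :=
  cov_of (fRTK H BI0) (.l 1) [(1374389534720, 274877906944), (89204457472, 6861881344), (20132659200, 20132659200)] rfl (by decide +kernel)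
theorem I0RT_8 : CovD 1 [pRT H BI0, pK1 H BI0] [(1374389534720, 274877906944), (102928220160, 6861881344), (10066329600, 10066329600)] :=
  cov_of (fRTK H BI0) (.n 1 (.l 1) (.n 1 (.l 1) (.n 2 (.n 1 (.l 1) (.n 1 (.l 1) (.n 1 (.l 1) (.n 2 (.n 2 (.l 0) (.l 0)) (.n 2 (.l 0) (.l 0)))))) (.n 2 (.n 1 (.l 1) (.n 2 (.l 0) (.l 0))) (.n 2 (.n 0 (.l 0) (.l 0)) (.n 0 (.l 0) (.l 0))))))) [(1374389534720, 274877906944), (102928220160, 6861881344), (10066329600, 10066329600)] rfl (by decide +kernel)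
end

mutual
theorem I0RT_9 : CovD 1 [pRT H BI0, pK1 H BI0] [(1374389534720, 274877906944), (102928220160, 6861881344), (30198988800, 10066329600)] :=
  cov_of (fRTK H BI0) (.n 2 (.n 1 (.l 1) (.n 2 (.n 1 (.l 1) (.n 2 (.n 0 (.l 0) (.l 0)) (.n 0 (.l 0) (.l 0)))) (.n 2 (.n 0 (.l 0) (.l 0)) (.n 0 (.l 0) (.l 0))))) (.n 2 (.n 1 (.l 1) (.n 2 (.n 0 (.l 0) (.l 0)) (.n 0 (.l 0) (.l 0)))) (.n 2 (.n 1 (.l 1) (.n 0 (.l 0) (.l 0))) (.n 0 (.n 2 (.l 0) (.l 0)) (.n 2 (.l 0) (.l 0)))))) [(1374389534720, 274877906944), (102928220160, 6861881344), (30198988800, 10066329600)] rfl (by decide +kernel)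
theorem I0RT_12 : CovD 1 [pRT H BI0, pK1 H BI0] [(1374389534720, 274877906944), (68618813440, 13723762688), (50331648000, 10066329600)] :=
  cov_of (fRTK H BI0) (.l 1) [(1374389534720, 274877906944), (68618813440, 13723762688), (50331648000, 10066329600)] rfl (by decide +kernel)
end

mutual
theorem I0RT_14 : CovD 1 [pRT H BI0, pK1 H BI0] [(1374389534720, 274877906944), (96066338816, 13723762688), (45298483200, 5033164800)] :=
  cov_of (fRTK H BI0) (.n 1 (.l 1) (.n 2 (.n 2 (.n 0 (.n 2 (.l 0) (.l 0)) (.n 1 (.l 0) (.l 0))) (.n 0 (.n 2 (.l 0) (.l 0)) (.n 1 (.l 0) (.l 0)))) (.n 2 (.n 0 (.n 2 (.l 0) (.l 0)) (.n 1 (.l 0) (.l 0))) (.n 0 (.n 2 (.l 0) (.l 0)) (.n 1 (.l 0) (.l 0)))))) [(1374389534720, 274877906944), (96066338816, 13723762688), (45298483200, 5033164800)] rfl (by decide +kernel)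
theorem I0RT_16 : CovD 1 [pRT H BI0, pK1 H BI0] [(1374389534720, 274877906944), (96066338816, 13723762688), (52848230400, 2516582400)] :=
  cov_of (fRTK H BI0) (.n 1 (.n 2 (.l 1) (.n 1 (.l 1) (.n 1 (.l 1) (.n 0 (.l 0) (.l 0))))) (.n 2 (.n 0 (.n 1 (.l 0) (.l 0)) (.n 1 (.l 0) (.l 0))) (.n 0 (.n 1 (.l 0) (.l 0)) (.n 1 (.l 0) (.l 0))))) [(1374389534720, 274877906944), (96066338816, 13723762688), (52848230400, 2516582400)] rfl (by decide +kernel)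
end

mutual
theorem I0RT_17 : CovD 1 [pRT H BI0, pK1 H BI0] [(1374389534720, 274877906944), (96066338816, 13723762688), (57881395200, 2516582400)] :=
  cov_of (fRTK H BI0) (.n 1 (.n 1 (.l 1) (.n 2 (.n 1 (.l 1) (.n 0 (.l 0) (.l 0))) (.n 0 (.n 0 (.l 0) (.l 0)) (.l 0)))) (.n 0 (.n 2 (.n 1 (.l 0) (.l 0)) (.n 1 (.l 0) (.l 0))) (.n 2 (.n 1 (.l 0) (.l 0)) (.n 1 (.l 0) (.l 0))))) [(1374389534720, 274877906944), (96066338816, 13723762688), (57881395200, 2516582400)] rfl (by decide +kernel)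
theorem I0RT_20 : CovD 1 [pRT H BI0, pK1 H BI0] [(1374389534720, 274877906944), (68618813440, 13723762688), (65431142400, 5033164800)] :=
  cov_of (fRTK H BI0) (.l 1) [(1374389534720, 274877906944), (68618813440, 13723762688), (65431142400, 5033164800)] rfl (by decide +kernel)
end

mutual
theorem I0RT_22 : CovD 1 [pRT H BI0, pK1 H BI0] [(1374389534720, 274877906944), (96066338816, 13723762688), (62914560000, 2516582400)] :=
  cov_of (fRTK H BI0) (.n 1 (.n 2 (.n 1 (.l 1) (.n 0 (.n 0 (.l 0) (.l 0)) (.l 0))) (.n 0 (.n 2 (.l 0) (.l 0)) (.n 2 (.l 0) (.l 0)))) (.n 0 (.n 2 (.n 1 (.l 0) (.l 0)) (.n 1 (.l 0) (.l 0))) (.n 2 (.n 1 (.l 0) (.l 0)) (.n 1 (.l 0) (.l 0))))) [(1374389534720, 274877906944), (96066338816, 13723762688), (62914560000, 2516582400)] rfl (by decide +kernel)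
theorem I0RT_23 : CovD 1 [pRT H BI0, pK1 H BI0] [(1374389534720, 274877906944), (96066338816, 13723762688), (67947724800, 2516582400)] :=
  cov_of (fRTK H BI0) (.n 1 (.n 2 (.n 0 (.n 2 (.l 0) (.l 0)) (.n 2 (.l 0) (.l 0))) (.n 0 (.n 2 (.l 0) (.l 0)) (.n 1 (.l 0) (.l 0)))) (.n 0 (.n 2 (.n 1 (.l 0) (.l 0)) (.n 0 (.l 0) (.l 0))) (.n 2 (.n 0 (.l 0) (.l 0)) (.n 0 (.l 0) (.l 0))))) [(1374389534720, 274877906944), (96066338816, 13723762688), (67947724800, 2516582400)] rfl (by decide +kernel)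
end

mutual
theorem I0RT_25 : CovD 1 [pRT H BI0, pK1 H BI0] [(1374389534720, 274877906944), (68618813440, 13723762688), (75497472000, 5033164800)] :=
  cov_of (fRTK H BI0) (.n 1 (.l 1) (.n 2 (.n 1 (.l 1) (.n 1 (.l 1) (.n 2 (.n 0 (.l 0) (.l 0)) (.n 0 (.l 0) (.l 0))))) (.n 2 (.n 1 (.l 1) (.n 0 (.n 0 (.l 0) (.l 0)) (.n 0 (.l 0) (.l 0)))) (.n 0 (.n 2 (.l 0) (.l 0)) (.n 2 (.l 0) (.l 0)))))) [(1374389534720, 274877906944), (68618813440, 13723762688), (75497472000, 5033164800)] rfl (by decide +kernel)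
theorem I0RT_27 : CovD 1 [pRT H BI0, pK1 H BI0] [(1374389534720, 274877906944), (96066338816, 13723762688), (72980889600, 2516582400)] :=
  cov_of (fRTK H BI0) (.n 1 (.n 0 (.n 2 (.n 2 (.l 0) (.l 0)) (.n 2 (.l 0) (.l 0))) (.n 2 (.n 1 (.l 0) (.l 0)) (.n 1 (.l 0) (.l 0)))) (.n 0 (.n 2 (.n 0 (.l 0) (.l 0)) (.n 0 (.l 0) (.l 0))) (.n 2 (.n 0 (.l 0) (.l 0)) (.n 0 (.l 0) (.l 0))))) [(1374389534720, 274877906944), (96066338816, 13723762688), (72980889600, 2516582400)] rfl (by decide +kernel)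
end

mutual
theorem I0RT_28 : CovD 1 [pRT H BI0, pK1 H BI0] [(1374389534720, 274877906944), (96066338816, 13723762688), (78014054400, 2516582400)] :=
  cov_of (fRTK H BI0) (.n 1 (.n 0 (.n 2 (.n 1 (.l 0) (.l 0)) (.n 1 (.l 0) (.l 0))) (.n 2 (.n 1 (.l 0) (.l 0)) (.n 1 (.l 0) (.l 0)))) (.n 0 (.n 2 (.n 0 (.l 0) (.l 0)) (.n 0 (.l 0) (.l 0))) (.n 2 (.n 0 (.l 0) (.l 0)) (.n 0 (.l 0) (.l 0))))) [(1374389534720, 274877906944), (96066338816, 13723762688), (78014054400, 2516582400)] rfl (by decide +kernel)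
theorem I0RT_32 : CovD 1 [pRT H BI0, pK1 H BI0] [(1374389534720, 274877906944), (27447525376, 27447525376), (90596966400, 10066329600)] :=
  cov_of (fRTK H BI0) (.n 2 (.l 1) (.n 1 (.l 1) (.n 1 (.l 1) (.n 2 (.n 2 (.l 1) (.n 2 (.l 1) (.n 0 (.l 0) (.l 0)))) (.n 0 (.n 2 (.n 2 (.l 0) (.l 0)) (.n 2 (.l 0) (.l 0))) (.n 2 (.n 1 (.l 1) (.l 0)) (.n 1 (.l 0) (.l 0)))))))) [(1374389534720, 274877906944), (27447525376, 27447525376), (90596966400, 10066329600)] rfl (by decide +kernel)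
end

mutual
theorem I0RT_36 : CovD 1 [pRT H BI0, pK1 H BI0] [(1374389534720, 274877906944), (68618813440, 13723762688), (83047219200, 2516582400)] :=
  cov_of (fRTK H BI0) (.n 1 (.l 1) (.n 2 (.n 0 (.n 2 (.l 0) (.l 0)) (.n 2 (.l 0) (.l 0))) (.n 0 (.n 2 (.l 0) (.l 0)) (.n 1 (.l 0) (.l 0))))) [(1374389534720, 274877906944), (68618813440, 13723762688), (83047219200, 2516582400)] rfl (by decide +kernel)
theorem I0RT_37 : CovD 1 [pRT H BI0, pK1 H BI0] [(1374389534720, 274877906944), (68618813440, 13723762688), (88080384000, 2516582400)] :=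
  cov_of (fRTK H BI0) (.n 1 (.n 1 (.l 1) (.n 0 (.n 2 (.n 0 (.l 0) (.l 0)) (.n 0 (.l 0) (.l 0))) (.n 2 (.n 0 (.l 0) (.l 0)) (.l 0)))) (.n 0 (.n 2 (.n 2 (.l 0) (.l 0)) (.n 1 (.l 0) (.l 0))) (.n 2 (.n 1 (.l 0) (.l 0)) (.n 1 (.l 0) (.l 0))))) [(1374389534720, 274877906944), (68618813440, 13723762688), (88080384000, 2516582400)] rfl (by decide +kernel)
end

mutual
theorem I0RT_39 : CovD 1 [pRT H BI0, pK1 H BI0] [(1374389534720, 274877906944), (96066338816, 13723762688), (83047219200, 2516582400)] :=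
  cov_of (fRTK H BI0) (.n 1 (.n 0 (.n 2 (.n 1 (.l 0) (.l 0)) (.n 0 (.l 0) (.l 0))) (.n 2 (.n 1 (.l 0) (.l 0)) (.n 0 (.l 0) (.l 0)))) (.n 0 (.n 2 (.n 0 (.l 0) (.l 0)) (.n 0 (.l 0) (.l 0))) (.n 2 (.l 0) (.l 0)))) [(1374389534720, 274877906944), (96066338816, 13723762688), (83047219200, 2516582400)] rfl (by decide +kernel)
theorem I0RT_40 : CovD 1 [pRT H BI0, pK1 H BI0] [(1374389534720, 274877906944), (96066338816, 13723762688), (88080384000, 2516582400)] :=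
  cov_of (fRTK H BI0) (.n 1 (.n 0 (.n 2 (.n 0 (.l 0) (.l 0)) (.n 0 (.l 0) (.l 0))) (.n 2 (.n 0 (.l 0) (.l 0)) (.n 0 (.l 0) (.l 0)))) (.n 0 (.n 2 (.n 0 (.l 0) (.l 0)) (.l 0)) (.n 2 (.l 0) (.l 0)))) [(1374389534720, 274877906944), (96066338816, 13723762688), (88080384000, 2516582400)] rfl (by decide +kernel)
end

mutual
theorem I0RT_43 : CovD 1 [pRT H BI0, pK1 H BI0] [(1374389534720, 274877906944), (68618813440, 13723762688), (93113548800, 2516582400)] :=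
  cov_of (fRTK H BI0) (.n 2 (.n 0 (.n 1 (.n 2 (.l 0) (.l 0)) (.n 1 (.l 0) (.l 0))) (.n 1 (.n 2 (.l 0) (.l 0)) (.n 0 (.l 0) (.l 0)))) (.n 0 (.n 1 (.n 2 (.l 0) (.l 0)) (.n 0 (.l 0) (.l 0))) (.n 1 (.n 1 (.l 0) (.l 0)) (.n 0 (.l 0) (.l 0))))) [(1374389534720, 274877906944), (68618813440, 13723762688), (93113548800, 2516582400)] rfl (by decide +kernel)
theorem I0RT_44 : CovD 1 [pRT H BI0, pK1 H BI0] [(1374389534720, 274877906944), (68618813440, 13723762688), (98146713600, 2516582400)] :=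
  cov_of (fRTK H BI0) (.n 2 (.n 0 (.n 1 (.n 2 (.l 0) (.l 0)) (.n 0 (.l 0) (.l 0))) (.n 1 (.n 1 (.l 0) (.l 0)) (.n 0 (.l 0) (.l 0)))) (.n 0 (.n 1 (.n 0 (.l 0) (.l 0)) (.n 0 (.l 0) (.l 0))) (.n 1 (.n 0 (.l 0) (.l 0)) (.n 0 (.l 0) (.l 0))))) [(1374389534720, 274877906944), (68618813440, 13723762688), (98146713600, 2516582400)] rfl (by decide +kernel)
end

mutual
theorem I0RT_45 : CovD 1 [pRT H BI0, pK1 H BI0] [(1374389534720, 274877906944), (96066338816, 13723762688), (95630131200, 5033164800)] :=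
  cov_of (fRTK H BI0) (.n 2 (.n 1 (.n 0 (.n 2 (.n 0 (.l 0) (.l 0)) (.n 0 (.l 0) (.l 0))) (.n 2 (.n 0 (.l 0) (.l 0)) (.l 0))) (.n 0 (.n 2 (.l 0) (.l 0)) (.n 2 (.l 0) (.l 0)))) (.n 1 (.n 0 (.n 2 (.n 0 (.l 0) (.l 0)) (.l 0)) (.n 2 (.l 0) (.l 0))) (.n 0 (.n 2 (.l 0) (.l 0)) (.n 2 (.l 0) (.l 0))))) [(1374389534720, 274877906944), (96066338816, 13723762688), (95630131200, 5033164800)] rfl (by decide +kernel)
theorem I0RT_49 : CovD 1 [pRT H BI0, pK1 H BI0] [(1374389534720, 274877906944), (27447525376, 27447525376), (103179878400, 2516582400)] :=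
  cov_of (fRTK H BI0) (.n 1 (.l 1) (.n 2 (.n 0 (.n 1 (.n 2 (.l 0) (.l 0)) (.n 2 (.l 0) (.l 0))) (.n 1 (.n 1 (.l 0) (.l 0)) (.n 0 (.l 0) (.l 0)))) (.n 0 (.n 1 (.n 0 (.l 0) (.l 0)) (.n 0 (.l 0) (.l 0))) (.n 1 (.n 0 (.l 0) (.l 0)) (.n 0 (.l 0) (.l 0)))))) [(1374389534720, 274877906944), (27447525376, 27447525376), (103179878400, 2516582400)] rfl (by decide +kernel)
end

mutual
theorem I0RT_50 : CovD 1 [pRT H BI0, pK1 H BI0] [(1374389534720, 274877906944), (27447525376, 27447525376), (108213043200, 2516582400)] :=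
  cov_of (fRTK H BI0) (.n 1 (.n 0 (.n 2 (.n 2 (.l 0) (.l 0)) (.n 2 (.l 0) (.l 0))) (.n 2 (.n 2 (.l 0) (.l 0)) (.n 1 (.l 0) (.l 0)))) (.n 2 (.n 0 (.n 1 (.n 0 (.l 0) (.l 0)) (.n 0 (.l 0) (.l 0))) (.n 1 (.n 0 (.l 0) (.l 0)) (.n 0 (.l 0) (.l 0)))) (.n 0 (.n 1 (.n 0 (.l 0) (.l 0)) (.n 0 (.l 0) (.l 0))) (.n 1 (.n 0 (.l 0) (.l 0)) (.l 0))))) [(1374389534720, 274877906944), (27447525376, 27447525376), (108213043200, 2516582400)] rfl (by decide +kernel)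
theorem I0RT_52 : CovD 1 [pRT H BI0, pK1 H BI0] [(1374389534720, 274877906944), (27447525376, 27447525376), (113246208000, 2516582400)] :=
  cov_of (fRTK H BI0) (.n 1 (.n 0 (.n 2 (.n 2 (.l 0) (.l 0)) (.n 0 (.l 0) (.l 0))) (.n 2 (.n 1 (.l 0) (.l 0)) (.n 0 (.l 0) (.l 0)))) (.n 0 (.n 2 (.n 1 (.n 0 (.l 0) (.l 0)) (.n 0 (.l 0) (.l 0))) (.n 1 (.l 0) (.l 0))) (.n 2 (.n 1 (.l 0) (.l 0)) (.n 1 (.l 0) (.l 0))))) [(1374389534720, 274877906944), (27447525376, 27447525376), (113246208000, 2516582400)] rfl (by decide +kernel)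
theorem I0RT_53 : CovD 1 [pRT H BI0, pK1 H BI0] [(1374389534720, 274877906944), (27447525376, 27447525376), (118279372800, 2516582400)] :=
  cov_of (fRTK H BI0) (.n 1 (.n 0 (.n 2 (.n 0 (.l 0) (.l 0)) (.n 0 (.l 0) (.l 0))) (.n 2 (.n 0 (.l 0) (.l 0)) (.n 0 (.l 0) (.l 0)))) (.n 0 (.n 2 (.n 1 (.l 0) (.l 0)) (.n 1 (.l 0) (.l 0))) (.n 2 (.n 1 (.l 0) (.l 0)) (.n 1 (.l 0) (.l 0))))) [(1374389534720, 274877906944), (27447525376, 27447525376), (118279372800, 2516582400)] rfl (by decide +kernel)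
end

end Pool.Agent.helper82.WC.S0K0
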