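import Pool.Agent.helper82.WH.Chks

/-!
Generated: constants of a cell.
-/

namespace Pool.Agent.helper82.WC.S0K0

open Pool.Agent.helper82.WH
open Pool.Agent.helper31.IC (CovD covD_split TD)

def H : HC := ⟨⟨1374389534720, 0⟩, ⟨2740715520, 0⟩, ⟨0, 122256752640⟩, ⟨0, 260540203008⟩, ⟨15429468160, 0⟩, ⟨0, 421770428416⟩, ⟨0, 1238237184⟩, ⟨91082391552, 0⟩, ⟨434463309824, 0⟩, ⟨0, 707250028544⟩, ⟨551123812352, 0⟩, ⟨4891279360, 0⟩, ⟨105879371776, 0⟩, ⟨157963649024, 0⟩, ⟨490743463936, 0⟩, ⟨0, 86135734272⟩, ⟨0, 317703847936⟩, ⟨0, 598306914304⟩, ⟨130469134336, 0⟩, ⟨136653438976, 0⟩, ⟨107047223296, 0⟩, ⟨1293520601088, 0⟩, ⟨1097400320, 0⟩, ⟨0, 3076325376⟩, ⟨0, 3282940526592⟩, ⟨0, 112900702208⟩, ⟨10995040256, 0⟩⟩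

def BI0 : BC := ⟨⟨0, 0, 1099511627776, 0⟩, ⟨0, 0⟩, ⟨0, 0⟩, 282865238016, 84193443840, 212829077504, 513291321344, 219901198336, 2164260864, 1757480484864, 1310434787328, ⟨13348758355968, 0⟩, ⟨0, 6378026434560⟩, ⟨807668154368, 0⟩, ⟨0, 0⟩, ⟨0, 0⟩⟩

def BI1 : BC := ⟨⟨0, 0, 1099511627776, 0⟩, ⟨0, 0⟩, ⟨0, 0⟩, 255242797056, 76871106560, 233892675584, 524172525568, 219901198336, 8875147264, 1745467998208, 1301962293248, ⟨6798933229568, 0⟩, ⟨0, 4415226380288⟩, ⟨834990702592, 0⟩, ⟨0, 0⟩, ⟨0, 0⟩⟩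

def BI2 : BC := ⟨⟨0, 0, 1099511627776, 0⟩, ⟨0, 0⟩, ⟨0, 0⟩, 234302799872, 71007010816, 287094210560, 494475018240, 219901198336, 16525557760, 1649401659392, 1234232672256, ⟨2761663971328, 0⟩, ⟨0, 2379411881984⟩, ⟨854950608896, 0⟩, ⟨0, 0⟩, ⟨0, 0⟩⟩

def BT : BC := ⟨⟨0, 0, 1099511627776, 0⟩, ⟨0, 0⟩, ⟨0, 0⟩, 57633341440, 23682940928, 145863081984, 264791195648, 219901198336, 16525557760, 1520686858240, 1143467933696, ⟨1571958030336, 0⟩, ⟨0, 1825361100800⟩, ⟨294610468864, 0⟩, ⟨1099511627776, 0⟩, ⟨0, 0⟩⟩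

def BH0 : BC := ⟨⟨0, 0, 1099511627776, 0⟩, ⟨0, 0⟩, ⟨0, 0⟩, 0, 0, 0, 0, 0, 0, 0, 0, ⟨0, 0⟩, ⟨0, 0⟩, ⟨0, 0⟩, ⟨0, 0⟩, ⟨0, 0⟩⟩

def BH1 : BC := ⟨⟨0, 0, 0, 0⟩, ⟨137438953472, 0⟩, ⟨1099511627776, 0⟩, 0, 0, 0, 0, 0, 0, 0, 0, ⟨0, 0⟩, ⟨0, 0⟩, ⟨0, 0⟩, ⟨0, 0⟩, ⟨0, 0⟩⟩

end Pool.Agent.helper82.WC.S0K0
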