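import Pool.Agent.helper82.WC.S0K1C0

/-!
Generated certificates, assembled.
-/

namespace Pool.Agent.helper82.WC.S0K1

open Pool.Agent.helper82.WH
open Pool.Agent.helper31.IC (CovD covD_split TD)

theorem I0AD_2 : CovD 0 [pAD H BI0] [(1236950581248, 137438953472), (137304735744, 27514634240), (52344913920, 52344913920)] :=
  covD_split 2 (by decide +kernel) I0AD_3 I0AD_4
theorem I0AD_5 : CovD 0 [pAD H BI0] [(1511828488192, 137438953472), (137304735744, 27514634240), (52344913920, 52344913920)] :=
  covD_split 2 (by decide +kernel) I0AD_6 I0AD_7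
theorem I0AD_1 : CovD 0 [pAD H BI0] [(1374389534720, 274877906944), (137304735744, 27514634240), (52344913920, 52344913920)] :=
  covD_split 0 (by decide +kernel) I0AD_2 I0AD_5
theorem I0AD_9 : CovD 0 [pAD H BI0] [(1236950581248, 137438953472), (137304735744, 27514634240), (157034741760, 52344913920)] :=
  covD_split 2 (by decide +kernel) I0AD_10 I0AD_11
theorem I0AD_8 : CovD 0 [pAD H BI0] [(1374389534720, 274877906944), (137304735744, 27514634240), (157034741760, 52344913920)] :=
  covD_split 0 (by decide +kernel) I0AD_9 I0AD_12
theorem I0AD_0 : CovD 0 [pAD H BI0] [(1374389534720, 274877906944), (137304735744, 27514634240), (104689827840, 104689827840)] :=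
  covD_split 2 (by decide +kernel) I0AD_1 I0AD_8
theorem I0AD_13 : CovD 0 [pAD H BI0] [(1374389534720, 274877906944), (137304735744, 27514634240), (314069483520, 104689827840)] :=
  covD_split 2 (by decide +kernel) I0AD_14 I0AD_15
theorem I0AD : CovD 0 [pAD H BI0] [(1374389534720, 274877906944), (137304735744, 27514634240), (209379655680, 209379655680)] :=
  covD_split 2 (by decide +kernel) I0AD_0 I0AD_13
theorem I0RT_2 : CovD 1 [pRT H BI0] [(1374389534720, 274877906944), (137304735744, 27514634240), (26172456960, 26172456960)] :=
  covD_split 2 (by decide +kernel) I0RT_3 I0RT_4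
theorem I0RT_1 : CovD 1 [pRT H BI0] [(1374389534720, 274877906944), (137304735744, 27514634240), (52344913920, 52344913920)] :=
  covD_split 2 (by decide +kernel) I0RT_2 I0RT_5
theorem I0RT_6 : CovD 1 [pRT H BI0] [(1374389534720, 274877906944), (137304735744, 27514634240), (157034741760, 52344913920)] :=
  covD_split 2 (by decide +kernel) I0RT_7 I0RT_8
theorem I0RT_0 : CovD 1 [pRT H BI0] [(1374389534720, 274877906944), (137304735744, 27514634240), (104689827840, 104689827840)] :=
  covD_split 2 (by decide +kernel) I0RT_1 I0RT_6
theorem I0RT : CovD 1 [pRT H BI0] [(1374389534720, 274877906944), (137304735744, 27514634240), (209379655680, 209379655680)] :=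
  covD_split 2 (by decide +kernel) I0RT_0 I0RT_9
theorem I1AD : CovD 0 [pAD H BI1] [(1374389534720, 274877906944), (137304735744, 27514634240), (595926712320, 177167400960)] :=
  covD_split 2 (by decide +kernel) I1AD_0 I1AD_1
theorem I1RT_1 : CovD 1 [pRT H BI1] [(1374389534720, 274877906944), (137304735744, 27514634240), (684510412800, 88583700480)] :=
  covD_split 2 (by decide +kernel) I1RT_2 I1RT_3
theorem I1RT : CovD 1 [pRT H BI1] [(1374389534720, 274877906944), (137304735744, 27514634240), (595926712320, 177167400960)] :=
  covD_split 2 (by decide +kernel) I1RT_0 I1RT_1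

end Pool.Agent.helper82.WC.S0K1
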