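import Pool.Agent.helper82.WC.S0K1P

/-!
Generated certificates (in pairs, so that they are checked one after the other).
-/

namespace Pool.Agent.helper82.WC.S0K1

open Pool.Agent.helper82.WH
open Pool.Agent.helper31.IC (CovD covD_split TD)

mutual
theorem I0AD_3 : CovD 0 [pAD H BI0] [(1236950581248, 137438953472), (137304735744, 27514634240), (26172456960, 26172456960)] :=
  cov_of (fAD H BI0) (.n 2 (.n 0 (.n 1 (.n 0 (.n 0 (.l 0) (.l 0)) (.n 0 (.l 0) (.l 0))) (.n 0 (.l 0) (.l 0))) (.n 1 (.n 0 (.n 0 (.l 0) (.l 0)) (.n 0 (.l 0) (.l 0))) (.n 0 (.l 0) (.l 0)))) (.n 0 (.n 1 (.n 0 (.n 0 (.l 0) (.l 0)) (.n 0 (.l 0) (.l 0))) (.n 0 (.l 0) (.l 0))) (.n 1 (.n 0 (.n 0 (.l 0) (.l 0)) (.n 0 (.l 0) (.l 0))) (.n 0 (.l 0) (.l 0))))) [(1236950581248, 137438953472), (137304735744, 27514634240), (26172456960, 26172456960)] rfl (by decide +kernel)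
theorem I0AD_4 : CovD 0 [pAD H BI0] [(1236950581248, 137438953472), (137304735744, 27514634240), (78517370880, 26172456960)] :=
  cov_of (fAD H BI0) (.n 2 (.n 0 (.n 1 (.n 0 (.n 0 (.l 0) (.l 0)) (.n 0 (.l 0) (.l 0))) (.n 0 (.l 0) (.l 0))) (.n 1 (.n 0 (.l 0) (.l 0)) (.n 0 (.l 0) (.l 0)))) (.n 0 (.n 1 (.n 0 (.l 0) (.l 0)) (.n 0 (.l 0) (.l 0))) (.n 1 (.n 0 (.l 0) (.l 0)) (.n 0 (.l 0) (.l 0))))) [(1236950581248, 137438953472), (137304735744, 27514634240), (78517370880, 26172456960)] rfl (by decide +kernel)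
end

mutual
theorem I0AD_6 : CovD 0 [pAD H BI0] [(1511828488192, 137438953472), (137304735744, 27514634240), (26172456960, 26172456960)] :=
  cov_of (fAD H BI0) (.n 2 (.n 0 (.n 1 (.n 0 (.n 0 (.l 0) (.l 0)) (.n 0 (.l 0) (.l 0))) (.n 0 (.l 0) (.l 0))) (.n 1 (.n 0 (.n 0 (.l 0) (.l 0)) (.l 0)) (.n 0 (.l 0) (.l 0)))) (.n 0 (.n 1 (.n 0 (.n 0 (.l 0) (.l 0)) (.n 0 (.l 0) (.l 0))) (.n 0 (.l 0) (.l 0))) (.n 1 (.n 0 (.n 0 (.l 0) (.l 0)) (.n 0 (.l 0) (.l 0))) (.n 0 (.l 0) (.l 0))))) [(1511828488192, 137438953472), (137304735744, 27514634240), (26172456960, 26172456960)] rfl (by decide +kernel)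
theorem I0AD_7 : CovD 0 [pAD H BI0] [(1511828488192, 137438953472), (137304735744, 27514634240), (78517370880, 26172456960)] :=
  cov_of (fAD H BI0) (.n 2 (.n 0 (.n 1 (.n 0 (.l 0) (.l 0)) (.n 0 (.l 0) (.l 0))) (.n 1 (.n 0 (.l 0) (.l 0)) (.n 0 (.l 0) (.l 0)))) (.n 0 (.n 1 (.n 0 (.l 0) (.l 0)) (.n 0 (.l 0) (.l 0))) (.n 1 (.n 0 (.l 0) (.l 0)) (.n 0 (.l 0) (.l 0))))) [(1511828488192, 137438953472), (137304735744, 27514634240), (78517370880, 26172456960)] rfl (by decide +kernel)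
end

mutual
theorem I0AD_10 : CovD 0 [pAD H BI0] [(1236950581248, 137438953472), (137304735744, 27514634240), (130862284800, 26172456960)] :=
  cov_of (fAD H BI0) (.n 0 (.n 2 (.n 1 (.n 0 (.l 0) (.l 0)) (.n 0 (.l 0) (.l 0))) (.n 0 (.n 0 (.l 0) (.l 0)) (.n 0 (.l 0) (.l 0)))) (.n 2 (.n 1 (.n 0 (.l 0) (.l 0)) (.n 0 (.l 0) (.l 0))) (.n 1 (.n 0 (.l 0) (.l 0)) (.n 0 (.l 0) (.l 0))))) [(1236950581248, 137438953472), (137304735744, 27514634240), (130862284800, 26172456960)] rfl (by decide +kernel)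
theorem I0AD_11 : CovD 0 [pAD H BI0] [(1236950581248, 137438953472), (137304735744, 27514634240), (183207198720, 26172456960)] :=
  cov_of (fAD H BI0) (.n 0 (.n 2 (.n 0 (.n 0 (.l 0) (.l 0)) (.n 0 (.l 0) (.l 0))) (.n 0 (.l 0) (.l 0))) (.n 2 (.n 1 (.n 0 (.l 0) (.l 0)) (.l 0)) (.n 0 (.l 0) (.l 0)))) [(1236950581248, 137438953472), (137304735744, 27514634240), (183207198720, 26172456960)] rfl (by decide +kernel)
end

mutual
theorem I0AD_12 : CovD 0 [pAD H BI0] [(1511828488192, 137438953472), (137304735744, 27514634240), (157034741760, 52344913920)] :=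
  cov_of (fAD H BI0) (.n 2 (.n 2 (.n 0 (.n 1 (.n 0 (.l 0) (.l 0)) (.n 0 (.l 0) (.l 0))) (.n 1 (.n 0 (.l 0) (.l 0)) (.n 0 (.l 0) (.l 0)))) (.n 0 (.n 1 (.n 0 (.l 0) (.l 0)) (.n 0 (.l 0) (.l 0))) (.n 1 (.n 0 (.l 0) (.l 0)) (.l 0)))) (.n 0 (.n 2 (.n 1 (.l 0) (.l 0)) (.n 0 (.l 0) (.l 0))) (.n 2 (.n 1 (.l 0) (.l 0)) (.n 0 (.l 0) (.l 0))))) [(1511828488192, 137438953472), (137304735744, 27514634240), (157034741760, 52344913920)] rfl (by decide +kernel)
theorem I0AD_14 : CovD 0 [pAD H BI0] [(1374389534720, 274877906944), (137304735744, 27514634240), (261724569600, 52344913920)] :=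
  cov_of (fAD H BI0) (.n 0 (.n 2 (.n 0 (.n 0 (.n 1 (.l 0) (.l 0)) (.n 1 (.l 0) (.l 0))) (.n 2 (.n 0 (.l 0) (.l 0)) (.n 0 (.l 0) (.l 0)))) (.n 0 (.n 0 (.l 0) (.l 0)) (.n 0 (.l 0) (.l 0)))) (.n 2 (.n 0 (.n 2 (.n 0 (.l 0) (.l 0)) (.n 0 (.l 0) (.l 0))) (.n 2 (.n 0 (.l 0) (.l 0)) (.n 0 (.l 0) (.l 0)))) (.n 0 (.n 2 (.l 0) (.l 0)) (.n 2 (.l 0) (.l 0))))) [(1374389534720, 274877906944), (137304735744, 27514634240), (261724569600, 52344913920)] rfl (by decide +kernel)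
end

mutual
theorem I0AD_15 : CovD 0 [pAD H BI0] [(1374389534720, 274877906944), (137304735744, 27514634240), (366414397440, 52344913920)] :=
  cov_of (fAD H BI0) (.n 0 (.n 0 (.n 2 (.n 0 (.l 0) (.l 0)) (.l 0)) (.n 2 (.n 0 (.l 0) (.l 0)) (.l 0))) (.n 2 (.n 0 (.n 0 (.l 0) (.l 0)) (.n 0 (.l 0) (.l 0))) (.n 0 (.l 0) (.l 0)))) [(1374389534720, 274877906944), (137304735744, 27514634240), (366414397440, 52344913920)] rfl (by decide +kernel)
theorem I0G : CovD 1 [pG H BI0] [(1374389534720, 274877906944), (137304735744, 27514634240), (209379655680, 209379655680)] :=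
  cov_of (fG H BI0) (.n 2 (.n 0 (.l 0) (.l 0)) (.n 2 (.n 0 (.l 0) (.l 0)) (.n 0 (.n 0 (.l 0) (.l 0)) (.n 2 (.l 0) (.l 0))))) [(1374389534720, 274877906944), (137304735744, 27514634240), (209379655680, 209379655680)] rfl (by decide +kernel)
end

mutual
theorem I0RT_3 : CovD 1 [pRT H BI0] [(1374389534720, 274877906944), (137304735744, 27514634240), (13086228480, 13086228480)] :=
  cov_of (fRT H BI0) (.n 2 (.n 2 (.n 1 (.n 2 (.l 0) (.l 0)) (.l 0)) (.n 1 (.n 2 (.l 0) (.l 0)) (.l 0))) (.n 2 (.n 1 (.n 2 (.l 0) (.l 0)) (.n 0 (.l 0) (.l 0))) (.n 1 (.n 2 (.l 0) (.n 0 (.l 0) (.l 0))) (.n 0 (.l 0) (.l 0))))) [(1374389534720, 274877906944), (137304735744, 27514634240), (13086228480, 13086228480)] rfl (by decide +kernel)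
theorem I0RT_4 : CovD 1 [pRT H BI0] [(1374389534720, 274877906944), (137304735744, 27514634240), (39258685440, 13086228480)] :=
  cov_of (fRT H BI0) (.n 2 (.n 2 (.n 1 (.n 1 (.n 0 (.l 0) (.l 0)) (.l 0)) (.n 0 (.l 0) (.l 0))) (.n 1 (.n 2 (.n 0 (.l 0) (.l 0)) (.l 0)) (.n 0 (.l 0) (.l 0)))) (.n 2 (.n 1 (.n 2 (.l 0) (.l 0)) (.n 0 (.l 0) (.l 0))) (.n 1 (.n 2 (.l 0) (.l 0)) (.n 0 (.l 0) (.l 0))))) [(1374389534720, 274877906944), (137304735744, 27514634240), (39258685440, 13086228480)] rfl (by decide +kernel)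
end

mutual
theorem I0RT_5 : CovD 1 [pRT H BI0] [(1374389534720, 274877906944), (137304735744, 27514634240), (78517370880, 26172456960)] :=
  cov_of (fRT H BI0) (.n 2 (.n 2 (.n 2 (.n 1 (.n 2 (.l 0) (.l 0)) (.l 0)) (.n 1 (.n 0 (.l 0) (.l 0)) (.l 0))) (.n 2 (.n 1 (.n 0 (.l 0) (.l 0)) (.l 0)) (.n 1 (.n 0 (.l 0) (.l 0)) (.l 0)))) (.n 2 (.n 2 (.n 1 (.n 0 (.l 0) (.l 0)) (.l 0)) (.n 1 (.n 0 (.l 0) (.l 0)) (.l 0))) (.n 2 (.n 1 (.n 0 (.l 0) (.l 0)) (.l 0)) (.n 1 (.n 0 (.l 0) (.l 0)) (.l 0))))) [(1374389534720, 274877906944), (137304735744, 27514634240), (78517370880, 26172456960)] rfl (by decide +kernel)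
theorem I0RT_7 : CovD 1 [pRT H BI0] [(1374389534720, 274877906944), (137304735744, 27514634240), (130862284800, 26172456960)] :=
  cov_of (fRT H BI0) (.n 2 (.n 2 (.n 2 (.n 1 (.n 0 (.l 0) (.l 0)) (.l 0)) (.n 0 (.l 0) (.l 0))) (.n 2 (.n 0 (.l 0) (.l 0)) (.n 0 (.l 0) (.l 0)))) (.n 2 (.n 0 (.n 1 (.l 0) (.l 0)) (.n 1 (.l 0) (.l 0))) (.n 0 (.n 0 (.l 0) (.l 0)) (.n 0 (.l 0) (.l 0))))) [(1374389534720, 274877906944), (137304735744, 27514634240), (130862284800, 26172456960)] rfl (by decide +kernel)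
end

mutual
theorem I0RT_8 : CovD 1 [pRT H BI0] [(1374389534720, 274877906944), (137304735744, 27514634240), (183207198720, 26172456960)] :=
  cov_of (fRT H BI0) (.n 2 (.n 2 (.n 0 (.l 0) (.l 0)) (.n 0 (.l 0) (.l 0))) (.n 2 (.n 0 (.l 0) (.l 0)) (.n 0 (.l 0) (.l 0)))) [(1374389534720, 274877906944), (137304735744, 27514634240), (183207198720, 26172456960)] rfl (by decide +kernel)
theorem I0RT_9 : CovD 1 [pRT H BI0] [(1374389534720, 274877906944), (137304735744, 27514634240), (314069483520, 104689827840)] :=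
  cov_of (fRT H BI0) (.n 2 (.n 2 (.n 2 (.n 2 (.n 0 (.l 0) (.l 0)) (.l 0)) (.n 0 (.l 0) (.l 0))) (.n 2 (.n 0 (.l 0) (.l 0)) (.n 0 (.l 0) (.l 0)))) (.n 2 (.n 2 (.n 0 (.l 0) (.l 0)) (.n 0 (.l 0) (.l 0))) (.n 0 (.l 0) (.n 2 (.l 0) (.n 1 (.n 0 (.l 0) (.l 0)) (.l 0)))))) [(1374389534720, 274877906944), (137304735744, 27514634240), (314069483520, 104689827840)] rfl (by decide +kernel)
end

mutual
theorem I1AD_0 : CovD 0 [pAD H BI1] [(1374389534720, 274877906944), (137304735744, 27514634240), (507343011840, 88583700480)] :=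
  cov_of (fAD H BI1) (.n 0 (.n 2 (.n 0 (.n 2 (.l 0) (.l 0)) (.n 2 (.l 0) (.l 0))) (.n 0 (.n 0 (.l 0) (.l 0)) (.n 0 (.l 0) (.l 0)))) (.n 2 (.n 0 (.n 2 (.l 0) (.l 0)) (.n 2 (.l 0) (.l 0))) (.n 0 (.n 0 (.l 0) (.l 0)) (.n 0 (.l 0) (.l 0))))) [(1374389534720, 274877906944), (137304735744, 27514634240), (507343011840, 88583700480)] rfl (by decide +kernel)
theorem I1AD_1 : CovD 0 [pAD H BI1] [(1374389534720, 274877906944), (137304735744, 27514634240), (684510412800, 88583700480)] :=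
  cov_of (fAD H BI1) (.n 0 (.n 2 (.n 0 (.n 0 (.l 0) (.l 0)) (.n 0 (.l 0) (.l 0))) (.n 0 (.n 2 (.l 0) (.l 0)) (.n 2 (.l 0) (.l 0)))) (.n 2 (.n 0 (.n 0 (.l 0) (.l 0)) (.n 0 (.l 0) (.l 0))) (.n 0 (.n 2 (.l 0) (.l 0)) (.n 0 (.l 0) (.l 0))))) [(1374389534720, 274877906944), (137304735744, 27514634240), (684510412800, 88583700480)] rfl (by decide +kernel)
end

mutual
theorem I1G : CovD 1 [pG H BI1] [(1374389534720, 274877906944), (137304735744, 27514634240), (595926712320, 177167400960)] :=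
  cov_of (fG H BI1) (.n 2 (.n 2 (.n 0 (.l 0) (.l 0)) (.n 0 (.l 0) (.n 0 (.l 0) (.l 0)))) (.n 2 (.n 0 (.n 0 (.l 0) (.l 0)) (.n 0 (.l 0) (.l 0))) (.n 0 (.n 0 (.l 0) (.l 0)) (.n 2 (.l 0) (.l 0))))) [(1374389534720, 274877906944), (137304735744, 27514634240), (595926712320, 177167400960)] rfl (by decide +kernel)
theorem I1RT_0 : CovD 1 [pRT H BI1] [(1374389534720, 274877906944), (137304735744, 27514634240), (507343011840, 88583700480)] :=
  cov_of (fRT H BI1) (.n 2 (.n 2 (.n 0 (.l 0) (.l 0)) (.n 0 (.l 0) (.l 0))) (.n 2 (.n 0 (.l 0) (.l 0)) (.n 0 (.l 0) (.n 0 (.l 0) (.l 0))))) [(1374389534720, 274877906944), (137304735744, 27514634240), (507343011840, 88583700480)] rfl (by decide +kernel)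
end

mutual
theorem I1RT_2 : CovD 1 [pRT H BI1] [(1374389534720, 274877906944), (137304735744, 27514634240), (640218562560, 44291850240)] :=
  cov_of (fRT H BI1) (.n 0 (.n 0 (.l 0) (.l 0)) (.n 2 (.n 0 (.l 0) (.n 1 (.l 0) (.l 0))) (.n 0 (.l 0) (.n 2 (.l 0) (.n 0 (.l 0) (.l 0)))))) [(1374389534720, 274877906944), (137304735744, 27514634240), (640218562560, 44291850240)] rfl (by decide +kernel)
theorem I1RT_3 : CovD 1 [pRT H BI1] [(1374389534720, 274877906944), (137304735744, 27514634240), (728802263040, 44291850240)] :=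
  cov_of (fRT H BI1) (.n 0 (.n 2 (.l 0) (.n 0 (.l 0) (.l 0))) (.n 2 (.n 0 (.l 0) (.n 2 (.n 1 (.l 0) (.l 0)) (.n 1 (.n 0 (.l 0) (.l 0)) (.l 0)))) (.n 0 (.n 1 (.l 0) (.l 0)) (.n 2 (.n 1 (.n 0 (.l 0) (.l 0)) (.l 0)) (.n 1 (.n 0 (.l 0) (.l 0)) (.l 0)))))) [(1374389534720, 274877906944), (137304735744, 27514634240), (728802263040, 44291850240)] rfl (by decide +kernel)
end

mutual
theorem R0AD : CovD 0 [pAD H BR0] [(1374389534720, 274877906944), (137304735744, 27514634240), (1099511627776, 1099511627776)] :=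
  cov_of (fAD H BR0) (.n 0 (.n 1 (.n 0 (.n 1 (.n 2 (.l 0) (.l 0)) (.n 2 (.l 0) (.l 0))) (.n 1 (.n 2 (.l 0) (.l 0)) (.l 0))) (.n 0 (.n 1 (.l 0) (.l 0)) (.n 1 (.l 0) (.l 0)))) (.n 1 (.n 1 (.n 0 (.l 0) (.l 0)) (.n 0 (.l 0) (.l 0))) (.n 0 (.n 1 (.l 0) (.l 0)) (.n 1 (.l 0) (.l 0))))) [(1374389534720, 274877906944), (137304735744, 27514634240), (1099511627776, 1099511627776)] rfl (by decide +kernel)
theorem R0G : CovD 1 [pG H BR0] [(1374389534720, 274877906944), (137304735744, 27514634240), (1099511627776, 1099511627776)] :=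
  cov_of (fG H BR0) (.l 0) [(1374389534720, 274877906944), (137304735744, 27514634240), (1099511627776, 1099511627776)] rfl (by decide +kernel)
end

mutual
theorem R0RT : CovD 1 [pRT H BR0] [(1374389534720, 274877906944), (137304735744, 27514634240), (1099511627776, 1099511627776)] :=
  cov_of (fRT H BR0) (.n 1 (.n 2 (.l 0) (.l 0)) (.l 0)) [(1374389534720, 274877906944), (137304735744, 27514634240), (1099511627776, 1099511627776)] rfl (by decide +kernel)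
theorem R0RS : CovD 1 [pRS H BR0] [(1374389534720, 274877906944), (137304735744, 27514634240), (1099511627776, 1099511627776)] :=
  cov_of (fRS H BR0) (.l 0) [(1374389534720, 274877906944), (137304735744, 27514634240), (1099511627776, 1099511627776)] rfl (by decide +kernel)
end

mutual
theorem PAD : CovD 0 [pAD H BP] [(1374389534720, 274877906944), (137304735744, 27514634240), (2199023255552, 0)] :=
  cov_of (fAD H BP) (.n 0 (.n 1 (.n 0 (.n 0 (.l 0) (.l 0)) (.n 0 (.l 0) (.l 0))) (.n 0 (.n 0 (.l 0) (.l 0)) (.l 0))) (.n 1 (.n 0 (.n 0 (.l 0) (.l 0)) (.l 0)) (.n 0 (.l 0) (.l 0)))) [(1374389534720, 274877906944), (137304735744, 27514634240), (2199023255552, 0)] rfl (by decide +kernel)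
theorem PG : CovD 1 [pG H BP] [(1374389534720, 274877906944), (137304735744, 27514634240), (2199023255552, 0)] :=
  cov_of (fG H BP) (.l 0) [(1374389534720, 274877906944), (137304735744, 27514634240), (2199023255552, 0)] rfl (by decide +kernel)
end

mutual
theorem PRT : CovD 1 [pRT H BP] [(1374389534720, 274877906944), (137304735744, 27514634240), (2199023255552, 0)] :=
  cov_of (fRT H BP) (.l 0) [(1374389534720, 274877906944), (137304735744, 27514634240), (2199023255552, 0)] rfl (by decide +kernel)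
theorem PTT : CovD 1 [pTT H BP] [(1374389534720, 274877906944), (137304735744, 27514634240), (2199023255552, 0)] :=
  cov_of (fTT H BP) (.n 0 (.n 1 (.n 0 (.n 1 (.n 0 (.l 0) (.l 0)) (.n 0 (.l 0) (.l 0))) (.n 1 (.n 0 (.l 0) (.l 0)) (.l 0))) (.n 0 (.n 1 (.l 0) (.l 0)) (.n 1 (.l 0) (.l 0)))) (.n 1 (.n 0 (.n 1 (.l 0) (.l 0)) (.n 1 (.l 0) (.l 0))) (.n 0 (.n 1 (.l 0) (.l 0)) (.n 1 (.l 0) (.l 0))))) [(1374389534720, 274877906944), (137304735744, 27514634240), (2199023255552, 0)] rfl (by decide +kernel)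
end

mutual
theorem MAD : CovD 0 [pAD H BM] [(1374389534720, 274877906944), (137304735744, 27514634240), (0, 0)] :=
  cov_of (fAD H BM) (.n 0 (.n 1 (.n 0 (.n 0 (.l 0) (.l 0)) (.n 0 (.l 0) (.l 0))) (.n 0 (.l 0) (.l 0))) (.n 1 (.n 0 (.l 0) (.l 0)) (.n 0 (.l 0) (.l 0)))) [(1374389534720, 274877906944), (137304735744, 27514634240), (0, 0)] rfl (by decide +kernel)
theorem MG : CovD 1 [pG H BM] [(1374389534720, 274877906944), (137304735744, 27514634240), (0, 0)] :=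
  cov_of (fG H BM) (.l 0) [(1374389534720, 274877906944), (137304735744, 27514634240), (0, 0)] rfl (by decide +kernel)
end

mutual
theorem MRT : CovD 1 [pRT H BM] [(1374389534720, 274877906944), (137304735744, 27514634240), (0, 0)] :=
  cov_of (fRT H BM) (.n 1 (.l 0) (.l 0)) [(1374389534720, 274877906944), (137304735744, 27514634240), (0, 0)] rfl (by decide +kernel)
theorem MTT : CovD 1 [pTT H BM] [(1374389534720, 274877906944), (137304735744, 27514634240), (0, 0)] :=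
  cov_of (fTT H BM) (.n 0 (.n 1 (.n 0 (.n 1 (.n 0 (.l 0) (.l 0)) (.l 0)) (.n 1 (.n 0 (.l 0) (.l 0)) (.l 0))) (.n 0 (.n 1 (.l 0) (.l 0)) (.n 1 (.l 0) (.l 0)))) (.n 1 (.n 1 (.n 0 (.l 0) (.l 0)) (.n 0 (.l 0) (.l 0))) (.n 0 (.n 1 (.l 0) (.l 0)) (.n 1 (.l 0) (.l 0))))) [(1374389534720, 274877906944), (137304735744, 27514634240), (0, 0)] rfl (by decide +kernel)
end

mutual
theorem TAD : CovD 0 [pAD H BT] [(1374389534720, 274877906944), (137304735744, 27514634240), (773094113280, 0)] :=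
  cov_of (fAD H BT) (.n 0 (.n 0 (.n 0 (.l 0) (.l 0)) (.l 0)) (.n 0 (.l 0) (.l 0))) [(1374389534720, 274877906944), (137304735744, 27514634240), (773094113280, 0)] rfl (by decide +kernel)
theorem TG : CovD 1 [pG H BT] [(1374389534720, 274877906944), (137304735744, 27514634240), (773094113280, 0)] :=
  cov_of (fG H BT) (.n 0 (.l 0) (.l 0)) [(1374389534720, 274877906944), (137304735744, 27514634240), (773094113280, 0)] rfl (by decide +kernel)
end

mutual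
theorem TRT : CovD 1 [pRT H BT] [(1374389534720, 274877906944), (137304735744, 27514634240), (773094113280, 0)] :=
  cov_of (fRT H BT) (.n 0 (.l 0) (.n 0 (.l 0) (.l 0))) [(1374389534720, 274877906944), (137304735744, 27514634240), (773094113280, 0)] rfl (by decide +kernel)
theorem TTT : CovD 1 [pTT H BT] [(1374389534720, 274877906944), (137304735744, 27514634240), (773094113280, 0)] :=
  cov_of (fTT H BT) (.n 0 (.n 0 (.n 0 (.l 0) (.l 0)) (.l 0)) (.n 0 (.l 0) (.l 0))) [(1374389534720, 274877906944), (137304735744, 27514634240), (773094113280, 0)] rfl (by decide +kernel)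
end

end Pool.Agent.helper82.WC.S0K1
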