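import Pool.Agent.helper82.WH.Chks

/-!
Generated: constants of a cell.
-/

namespace Pool.Agent.helper82.WC.S0K1

open Pool.Agent.helper82.WH
open Pool.Agent.helper31.IC (CovD covD_split TD)

def H : HC := ⟨⟨1374389534720, 0⟩, ⟨17146314752, 0⟩, ⟨0, 113222287360⟩, ⟨0, 256794230784⟩, ⟨3037265920, 0⟩, ⟨0, 449325170688⟩, ⟨1538588672, 0⟩, ⟨94515757056, 0⟩, ⟨477188063232, 0⟩, ⟨0, 757872852992⟩, ⟨551811612672, 0⟩, ⟨8826716160, 0⟩, ⟨113598791680, 0⟩, ⟨157486415872, 0⟩, ⟨485080956928, 0⟩, ⟨0, 102142705664⟩, ⟨0, 324801265664⟩, ⟨0, 589310263296⟩, ⟨156884336640, 0⟩, ⟨144208363520, 0⟩, ⟨90185072640, 0⟩, ⟨539223719936, 0⟩, ⟨8232501248, 0⟩, ⟨0, 1478907330560⟩, ⟨2997676670976, 0⟩, ⟨0, 15617379860480⟩, ⟨0, 0⟩⟩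

def BI0 : BC := ⟨⟨0, 0, 1099511627776, 0⟩, ⟨0, 0⟩, ⟨0, 0⟩, 360483586048, 103124434944, 78204895232, 549032165376, 219901198336, 7147094016, 1753302958080, 1307498774528, ⟨10269266804736, 0⟩, ⟨0, 4342211936256⟩, ⟨731982331904, 0⟩, ⟨0, 0⟩, ⟨0, 0⟩⟩

def BI1 : BC := ⟨⟨0, 0, 1099511627776, 0⟩, ⟨0, 0⟩, ⟨0, 0⟩, 264098545664, 75220844544, 205872431104, 543046500352, 219901198336, 12918456320, 1629721985024, 1220357914624, ⟨3066606649344, 0⟩, ⟨0, 2804613644288⟩, ⟨826659045376, 0⟩, ⟨0, 0⟩, ⟨0, 0⟩⟩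

def BR0 : BC := ⟨⟨0, 0, 0, 0⟩, ⟨137438953472, 0⟩, ⟨1099511627776, 0⟩, 254360748032, 72129773568, 187848327168, 578973597696, 219901198336, 1627389952, 1755416887296, 1308991946752, ⟨0, 0⟩, ⟨0, 0⟩, ⟨836730748928, 0⟩, ⟨0, 0⟩, ⟨0, 0⟩⟩

def BP : BC := ⟨⟨0, 0, 0, 0⟩, ⟨137438953472, 0⟩, ⟨1099511627776, 0⟩, 234968514560, 66958524416, 173627342848, 534186622976, 219901198336, 1577058304, 1753353289728, 1307532328960, ⟨0, 0⟩, ⟨0, 0⟩, ⟨734281007104, 0⟩, ⟨0, 0⟩, ⟨1099511627776, 0⟩⟩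

def BM : BC := ⟨⟨0, 0, 0, 0⟩, ⟨137438953472, 0⟩, ⟨1099511627776, 0⟩, 229341790208, 65482522624, 169599893504, 545848688640, 219901198336, 1627389952, 1755416887296, 1308991946752, ⟨0, 0⟩, ⟨0, 0⟩, ⟨741907693568, 0⟩, ⟨0, 0⟩, ⟨0, 1099511627776⟩⟩

def BT : BC := ⟨⟨0, 0, 1099511627776, 0⟩, ⟨0, 0⟩, ⟨0, 0⟩, 117806989312, 36209819648, 135884505088, 339448692736, 219901198336, 12868124672, 1503959973888, 1131673550848, ⟨1799591297024, 0⟩, ⟨0, 2241972928512⟩, ⟨394323034112, 0⟩, ⟨1099511627776, 0⟩, ⟨0, 0⟩⟩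

end Pool.Agent.helper82.WC.S0K1
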