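import Pool.Agent.helper82.WC.S0K2P

/-!
Generated certificates (in pairs, so that they are checked one after the other).
-/

namespace Pool.Agent.helper82.WC.S0K2

open Pool.Agent.helper82.WH
open Pool.Agent.helper31.IC (CovD covD_split TD)

mutual
theorem I0AD_57 : CovD 0 [pAD H BI0] [(1511828488192, 137438953472), (474191233024, 61874372608), (493921239040, 98784247808)] :=
  cov_of (fAD H BI0) (.n 2 (.n 1 (.n 0 (.n 0 (.l 0) (.l 0)) (.n 0 (.l 0) (.l 0))) (.n 0 (.n 0 (.l 0) (.l 0)) (.n 2 (.l 0) (.l 0)))) (.n 1 (.n 0 (.n 0 (.l 0) (.l 0)) (.n 0 (.l 0) (.l 0))) (.n 0 (.n 0 (.l 0) (.l 0)) (.n 2 (.l 0) (.l 0))))) [(1511828488192, 137438953472), (474191233024, 61874372608), (493921239040, 98784247808)] rfl (by decide +kernel)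
theorem I0AD_60 : CovD 0 [pAD H BI0] [(1236950581248, 137438953472), (597939978240, 61874372608), (444529115136, 49392123904)] :=
  cov_of (fAD H BI0) (.n 0 (.n 1 (.n 0 (.l 0) (.l 0)) (.n 2 (.n 0 (.l 0) (.l 0)) (.n 0 (.l 0) (.l 0)))) (.n 1 (.n 2 (.l 0) (.l 0)) (.n 2 (.n 0 (.l 0) (.l 0)) (.n 0 (.l 0) (.l 0))))) [(1236950581248, 137438953472), (597939978240, 61874372608), (444529115136, 49392123904)] rfl (by decide +kernel)
end

mutual
theorem I0AD_61 : CovD 0 [pAD H BI0] [(1236950581248, 137438953472), (597939978240, 61874372608), (543313362944, 49392123904)] :=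
  cov_of (fAD H BI0) (.n 0 (.n 1 (.n 2 (.l 0) (.n 0 (.l 0) (.l 0))) (.n 2 (.n 0 (.l 0) (.l 0)) (.n 0 (.l 0) (.l 0)))) (.n 1 (.n 2 (.l 0) (.l 0)) (.n 2 (.n 0 (.l 0) (.l 0)) (.n 0 (.l 0) (.l 0))))) [(1236950581248, 137438953472), (597939978240, 61874372608), (543313362944, 49392123904)] rfl (by decide +kernel)
theorem I0AD_62 : CovD 0 [pAD H BI0] [(1511828488192, 137438953472), (597939978240, 61874372608), (493921239040, 98784247808)] :=
  cov_of (fAD H BI0) (.n 2 (.n 1 (.n 0 (.n 2 (.l 0) (.l 0)) (.n 2 (.l 0) (.l 0))) (.n 0 (.n 2 (.l 0) (.n 0 (.l 0) (.l 0))) (.n 2 (.n 0 (.l 0) (.l 0)) (.n 0 (.l 0) (.l 0))))) (.n 1 (.n 0 (.n 2 (.l 0) (.l 0)) (.n 2 (.l 0) (.l 0))) (.n 0 (.n 2 (.n 0 (.l 0) (.l 0)) (.n 0 (.l 0) (.l 0))) (.n 2 (.n 0 (.l 0) (.l 0)) (.n 0 (.l 0) (.l 0)))))) [(1511828488192, 137438953472), (597939978240, 61874372608), (493921239040, 98784247808)] rfl (by decide +kernel)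
end

mutual
theorem I0AD_65 : CovD 0 [pAD H BI0] [(1236950581248, 137438953472), (474191233024, 61874372608), (691489734656, 98784247808)] :=
  cov_of (fAD H BI0) (.n 2 (.n 0 (.n 1 (.n 0 (.l 0) (.l 0)) (.n 2 (.l 0) (.l 0))) (.n 1 (.n 0 (.l 0) (.l 0)) (.n 2 (.l 0) (.l 0)))) (.n 0 (.n 1 (.n 2 (.l 0) (.n 0 (.l 0) (.l 0))) (.n 2 (.n 0 (.l 0) (.l 0)) (.n 0 (.l 0) (.l 0)))) (.n 1 (.n 2 (.l 0) (.l 0)) (.n 2 (.l 0) (.l 0))))) [(1236950581248, 137438953472), (474191233024, 61874372608), (691489734656, 98784247808)] rfl (by decide +kernel)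
theorem I0AD_67 : CovD 0 [pAD H BI0] [(1236950581248, 137438953472), (597939978240, 61874372608), (642097610752, 49392123904)] :=
  cov_of (fAD H BI0) (.n 0 (.n 1 (.n 2 (.n 0 (.l 0) (.l 0)) (.n 0 (.l 0) (.l 0))) (.n 2 (.n 0 (.l 0) (.l 0)) (.n 0 (.l 0) (.l 0)))) (.n 1 (.n 2 (.l 0) (.n 0 (.l 0) (.l 0))) (.n 2 (.n 0 (.l 0) (.l 0)) (.n 0 (.l 0) (.l 0))))) [(1236950581248, 137438953472), (597939978240, 61874372608), (642097610752, 49392123904)] rfl (by decide +kernel)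
end

mutual
theorem I0AD_68 : CovD 0 [pAD H BI0] [(1236950581248, 137438953472), (597939978240, 61874372608), (740881858560, 49392123904)] :=
  cov_of (fAD H BI0) (.n 0 (.n 1 (.n 2 (.n 0 (.l 0) (.l 0)) (.n 0 (.l 0) (.l 0))) (.n 2 (.n 0 (.l 0) (.l 0)) (.n 0 (.l 0) (.l 0)))) (.n 1 (.n 2 (.n 0 (.l 0) (.l 0)) (.n 0 (.l 0) (.l 0))) (.n 2 (.n 0 (.l 0) (.l 0)) (.n 0 (.l 0) (.l 0))))) [(1236950581248, 137438953472), (597939978240, 61874372608), (740881858560, 49392123904)] rfl (by decide +kernel)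
theorem I0AD_70 : CovD 0 [pAD H BI0] [(1511828488192, 137438953472), (474191233024, 61874372608), (691489734656, 98784247808)] :=
  cov_of (fAD H BI0) (.n 2 (.n 0 (.n 1 (.n 0 (.l 0) (.l 0)) (.n 2 (.l 0) (.l 0))) (.n 1 (.n 0 (.l 0) (.l 0)) (.n 2 (.l 0) (.l 0)))) (.n 0 (.n 1 (.n 2 (.l 0) (.l 0)) (.n 2 (.l 0) (.l 0))) (.n 1 (.n 2 (.l 0) (.l 0)) (.n 2 (.l 0) (.l 0))))) [(1511828488192, 137438953472), (474191233024, 61874372608), (691489734656, 98784247808)] rfl (by decide +kernel)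
end

mutual
theorem I0AD_71 : CovD 0 [pAD H BI0] [(1511828488192, 137438953472), (597939978240, 61874372608), (691489734656, 98784247808)] :=
  cov_of (fAD H BI0) (.n 2 (.n 1 (.n 0 (.n 2 (.l 0) (.l 0)) (.n 2 (.l 0) (.l 0))) (.n 0 (.n 2 (.n 0 (.l 0) (.l 0)) (.n 0 (.l 0) (.l 0))) (.n 2 (.n 0 (.l 0) (.l 0)) (.n 0 (.l 0) (.l 0))))) (.n 1 (.n 0 (.n 2 (.l 0) (.l 0)) (.n 2 (.l 0) (.l 0))) (.n 0 (.n 2 (.n 0 (.l 0) (.l 0)) (.n 0 (.l 0) (.l 0))) (.n 2 (.n 0 (.l 0) (.l 0)) (.l 0))))) [(1511828488192, 137438953472), (597939978240, 61874372608), (691489734656, 98784247808)] rfl (by decide +kernel)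
theorem I0G_1 : CovD 1 [pG H BI0] [(1374389534720, 274877906944), (288568115200, 123748745216), (197568495616, 197568495616)] :=
  cov_of (fG H BI0) (.n 2 (.n 1 (.n 2 (.l 0) (.n 0 (.l 0) (.l 0))) (.n 2 (.n 0 (.l 0) (.l 0)) (.n 0 (.l 0) (.l 0)))) (.n 1 (.n 2 (.n 0 (.l 0) (.n 0 (.l 0) (.l 0))) (.n 0 (.n 0 (.l 0) (.l 0)) (.n 1 (.l 0) (.l 0)))) (.n 2 (.n 0 (.n 0 (.l 0) (.l 0)) (.n 0 (.l 0) (.l 0))) (.n 0 (.n 0 (.l 0) (.l 0)) (.n 1 (.l 0) (.l 0)))))) [(1374389534720, 274877906944), (288568115200, 123748745216), (197568495616, 197568495616)] rfl (by decide +kernel)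
end

mutual
theorem I0G_2 : CovD 1 [pG H BI0] [(1374389534720, 274877906944), (536065605632, 123748745216), (197568495616, 197568495616)] :=
  cov_of (fG H BI0) (.n 2 (.n 1 (.n 2 (.n 0 (.l 0) (.l 0)) (.n 0 (.l 0) (.l 0))) (.n 0 (.n 0 (.l 0) (.l 0)) (.n 0 (.l 0) (.l 0)))) (.n 1 (.n 2 (.n 0 (.l 0) (.n 0 (.l 0) (.l 0))) (.n 0 (.n 0 (.l 0) (.l 0)) (.n 0 (.l 0) (.l 0)))) (.n 2 (.n 0 (.l 0) (.l 0)) (.n 0 (.l 0) (.l 0))))) [(1374389534720, 274877906944), (536065605632, 123748745216), (197568495616, 197568495616)] rfl (by decide +kernel)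
theorem I0G_5 : CovD 1 [pG H BI0] [(1374389534720, 274877906944), (288568115200, 123748745216), (493921239040, 98784247808)] :=
  cov_of (fG H BI0) (.n 1 (.n 2 (.n 0 (.n 0 (.l 0) (.l 0)) (.n 2 (.l 0) (.l 0))) (.n 0 (.n 0 (.l 0) (.l 0)) (.n 2 (.l 0) (.l 0)))) (.n 2 (.n 0 (.n 0 (.l 0) (.l 0)) (.n 1 (.l 0) (.l 0))) (.n 0 (.n 0 (.l 0) (.l 0)) (.n 1 (.l 0) (.l 0))))) [(1374389534720, 274877906944), (288568115200, 123748745216), (493921239040, 98784247808)] rfl (by decide +kernel)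
end

mutual
theorem I0G_6 : CovD 1 [pG H BI0] [(1374389534720, 274877906944), (288568115200, 123748745216), (691489734656, 98784247808)] :=
  cov_of (fG H BI0) (.n 0 (.n 1 (.n 2 (.n 0 (.l 0) (.l 0)) (.n 0 (.l 0) (.l 0))) (.n 2 (.n 0 (.l 0) (.l 0)) (.n 0 (.l 0) (.l 0)))) (.n 1 (.n 2 (.n 0 (.l 0) (.l 0)) (.n 0 (.l 0) (.l 0))) (.n 2 (.n 0 (.l 0) (.l 0)) (.n 0 (.l 0) (.l 0))))) [(1374389534720, 274877906944), (288568115200, 123748745216), (691489734656, 98784247808)] rfl (by decide +kernel)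
theorem I0G_8 : CovD 1 [pG H BI0] [(1374389534720, 274877906944), (536065605632, 123748745216), (493921239040, 98784247808)] :=
  cov_of (fG H BI0) (.n 1 (.n 2 (.n 0 (.n 0 (.l 0) (.l 0)) (.n 0 (.l 0) (.l 0))) (.n 0 (.n 0 (.l 0) (.l 0)) (.n 0 (.l 0) (.l 0)))) (.n 0 (.n 2 (.l 0) (.l 0)) (.n 2 (.l 0) (.l 0)))) [(1374389534720, 274877906944), (536065605632, 123748745216), (493921239040, 98784247808)] rfl (by decide +kernel)
end

mutual
theorem I0G_9 : CovD 1 [pG H BI0] [(1374389534720, 274877906944), (536065605632, 123748745216), (691489734656, 98784247808)] :=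
  cov_of (fG H BI0) (.n 1 (.n 0 (.n 2 (.l 0) (.n 0 (.l 0) (.l 0))) (.n 2 (.l 0) (.n 0 (.l 0) (.l 0)))) (.n 2 (.n 0 (.l 0) (.l 0)) (.n 0 (.n 1 (.l 0) (.n 0 (.l 0) (.l 0))) (.n 1 (.l 0) (.n 0 (.l 0) (.l 0)))))) [(1374389534720, 274877906944), (536065605632, 123748745216), (691489734656, 98784247808)] rfl (by decide +kernel)
theorem I0RT_7 : CovD 1 [pRT H BI0] [(1374389534720, 274877906944), (195756556288, 30937186304), (12348030976, 12348030976)] :=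
  cov_of (fRT H BI0) (.n 1 (.n 2 (.n 2 (.n 0 (.l 0) (.l 0)) (.n 0 (.l 0) (.l 0))) (.n 2 (.n 0 (.l 0) (.l 0)) (.n 0 (.l 0) (.l 0)))) (.n 2 (.n 2 (.l 0) (.l 0)) (.n 2 (.l 0) (.n 0 (.l 0) (.l 0))))) [(1374389534720, 274877906944), (195756556288, 30937186304), (12348030976, 12348030976)] rfl (by decide +kernel)
end

mutual
theorem I0RT_8 : CovD 1 [pRT H BI0] [(1374389534720, 274877906944), (195756556288, 30937186304), (37044092928, 12348030976)] :=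
  cov_of (fRT H BI0) (.n 1 (.n 2 (.n 2 (.n 0 (.l 0) (.l 0)) (.n 0 (.l 0) (.l 0))) (.n 2 (.n 0 (.l 0) (.l 0)) (.n 0 (.l 0) (.l 0)))) (.n 2 (.n 1 (.n 0 (.l 0) (.l 0)) (.l 0)) (.n 2 (.n 0 (.l 0) (.l 0)) (.n 0 (.l 0) (.l 0))))) [(1374389534720, 274877906944), (195756556288, 30937186304), (37044092928, 12348030976)] rfl (by decide +kernel)
theorem I0RT_9 : CovD 1 [pRT H BI0] [(1374389534720, 274877906944), (257630928896, 30937186304), (24696061952, 24696061952)] :=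
  cov_of (fRT H BI0) (.n 2 (.n 2 (.n 1 (.n 0 (.l 0) (.l 0)) (.l 0)) (.n 1 (.n 0 (.l 0) (.l 0)) (.l 0))) (.n 2 (.n 1 (.n 0 (.l 0) (.l 0)) (.l 0)) (.n 1 (.n 0 (.l 0) (.l 0)) (.l 0)))) [(1374389534720, 274877906944), (257630928896, 30937186304), (24696061952, 24696061952)] rfl (by decide +kernel)
end

mutual
theorem I0RT_12 : CovD 1 [pRT H BI0] [(1374389534720, 274877906944), (195756556288, 30937186304), (61740154880, 12348030976)] :=
  cov_of (fRT H BI0) (.n 1 (.n 2 (.n 2 (.n 0 (.l 0) (.l 0)) (.n 0 (.l 0) (.l 0))) (.n 2 (.n 0 (.l 0) (.l 0)) (.n 0 (.l 0) (.l 0)))) (.n 2 (.n 0 (.n 0 (.l 0) (.l 0)) (.n 0 (.l 0) (.l 0))) (.n 0 (.n 0 (.l 0) (.l 0)) (.l 0)))) [(1374389534720, 274877906944), (195756556288, 30937186304), (61740154880, 12348030976)] rfl (by decide +kernel)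
theorem I0RT_13 : CovD 1 [pRT H BI0] [(1374389534720, 274877906944), (195756556288, 30937186304), (86436216832, 12348030976)] :=
  cov_of (fRT H BI0) (.n 1 (.n 2 (.n 2 (.n 0 (.l 0) (.l 0)) (.n 0 (.l 0) (.l 0))) (.n 2 (.n 0 (.l 0) (.l 0)) (.n 0 (.l 0) (.l 0)))) (.n 2 (.n 0 (.n 0 (.l 0) (.l 0)) (.l 0)) (.n 0 (.l 0) (.l 0)))) [(1374389534720, 274877906944), (195756556288, 30937186304), (86436216832, 12348030976)] rfl (by decide +kernel)
end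

mutual
theorem I0RT_14 : CovD 1 [pRT H BI0] [(1374389534720, 274877906944), (257630928896, 30937186304), (74088185856, 24696061952)] :=
  cov_of (fRT H BI0) (.n 2 (.n 2 (.n 1 (.n 0 (.l 0) (.l 0)) (.l 0)) (.n 1 (.n 0 (.l 0) (.l 0)) (.l 0))) (.n 2 (.n 1 (.n 0 (.l 0) (.l 0)) (.l 0)) (.n 1 (.n 0 (.l 0) (.l 0)) (.l 0)))) [(1374389534720, 274877906944), (257630928896, 30937186304), (74088185856, 24696061952)] rfl (by decide +kernel)
theorem I0RT_15 : CovD 1 [pRT H BI0] [(1374389534720, 274877906944), (350442487808, 61874372608), (49392123904, 49392123904)] :=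
  cov_of (fRT H BI0) (.n 1 (.n 2 (.n 2 (.n 0 (.l 0) (.l 0)) (.n 0 (.l 0) (.l 0))) (.n 2 (.n 0 (.l 0) (.l 0)) (.n 0 (.l 0) (.l 0)))) (.n 2 (.n 2 (.l 0) (.l 0)) (.n 2 (.l 0) (.l 0)))) [(1374389534720, 274877906944), (350442487808, 61874372608), (49392123904, 49392123904)] rfl (by decide +kernel)
end

mutual
theorem I0RT_19 : CovD 1 [pRT H BI0] [(1374389534720, 274877906944), (195756556288, 30937186304), (123480309760, 24696061952)] :=
  cov_of (fRT H BI0) (.n 2 (.n 2 (.n 1 (.n 0 (.n 2 (.l 0) (.l 0)) (.n 1 (.l 0) (.l 0))) (.n 0 (.l 0) (.l 0))) (.n 1 (.n 0 (.n 1 (.l 0) (.l 0)) (.n 1 (.l 0) (.l 0))) (.n 0 (.l 0) (.l 0)))) (.n 2 (.n 1 (.n 0 (.n 0 (.l 0) (.l 0)) (.n 0 (.l 0) (.l 0))) (.n 0 (.l 0) (.l 0))) (.n 1 (.n 0 (.n 0 (.l 0) (.l 0)) (.l 0)) (.n 0 (.l 0) (.l 0))))) [(1374389534720, 274877906944), (195756556288, 30937186304), (123480309760, 24696061952)] rfl (by decide +kernel)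
theorem I0RT_20 : CovD 1 [pRT H BI0] [(1374389534720, 274877906944), (257630928896, 30937186304), (123480309760, 24696061952)] :=
  cov_of (fRT H BI0) (.n 2 (.n 0 (.n 1 (.n 2 (.l 0) (.l 0)) (.l 0)) (.n 2 (.n 0 (.l 0) (.l 0)) (.l 0))) (.n 0 (.n 2 (.l 0) (.l 0)) (.n 2 (.l 0) (.l 0)))) [(1374389534720, 274877906944), (257630928896, 30937186304), (123480309760, 24696061952)] rfl (by decide +kernel)
end

mutual
theorem I0RT_21 : CovD 1 [pRT H BI0] [(1374389534720, 274877906944), (226693742592, 61874372608), (172872433664, 24696061952)] :=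
  cov_of (fRT H BI0) (.n 1 (.n 2 (.n 2 (.n 0 (.n 1 (.l 0) (.l 0)) (.n 1 (.l 0) (.l 0))) (.n 0 (.n 1 (.l 0) (.l 0)) (.n 1 (.l 0) (.l 0)))) (.n 0 (.n 2 (.n 0 (.l 0) (.l 0)) (.n 0 (.l 0) (.l 0))) (.n 2 (.n 0 (.l 0) (.l 0)) (.l 0)))) (.n 2 (.n 0 (.n 2 (.l 0) (.l 0)) (.n 1 (.l 0) (.l 0))) (.n 0 (.n 0 (.l 0) (.l 0)) (.n 0 (.l 0) (.l 0))))) [(1374389534720, 274877906944), (226693742592, 61874372608), (172872433664, 24696061952)] rfl (by decide +kernel)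
theorem I0RT_22 : CovD 1 [pRT H BI0] [(1374389534720, 274877906944), (350442487808, 61874372608), (148176371712, 49392123904)] :=
  cov_of (fRT H BI0) (.n 2 (.n 1 (.n 2 (.n 0 (.l 0) (.l 0)) (.n 0 (.l 0) (.l 0))) (.n 2 (.l 0) (.l 0))) (.n 1 (.n 2 (.n 0 (.l 0) (.l 0)) (.n 0 (.l 0) (.l 0))) (.n 0 (.l 0) (.l 0)))) [(1374389534720, 274877906944), (350442487808, 61874372608), (148176371712, 49392123904)] rfl (by decide +kernel)
end

mutual
theorem I0RT_25 : CovD 1 [pRT H BI0] [(1374389534720, 274877906944), (226693742592, 61874372608), (246960619520, 49392123904)] :=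
  cov_of (fRT H BI0) (.n 2 (.n 1 (.n 2 (.n 0 (.n 2 (.l 0) (.l 0)) (.n 2 (.l 0) (.l 0))) (.n 0 (.n 1 (.l 0) (.l 0)) (.n 0 (.l 0) (.l 0)))) (.n 2 (.n 0 (.l 0) (.l 0)) (.n 0 (.l 0) (.l 0)))) (.n 1 (.n 2 (.n 0 (.l 0) (.l 0)) (.n 0 (.l 0) (.l 0))) (.n 2 (.n 0 (.l 0) (.l 0)) (.n 0 (.l 0) (.l 0))))) [(1374389534720, 274877906944), (226693742592, 61874372608), (246960619520, 49392123904)] rfl (by decide +kernel)
theorem I0RT_26 : CovD 1 [pRT H BI0] [(1374389534720, 274877906944), (350442487808, 61874372608), (246960619520, 49392123904)] :=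
  cov_of (fRT H BI0) (.n 2 (.n 1 (.n 2 (.n 0 (.l 0) (.l 0)) (.n 0 (.l 0) (.l 0))) (.n 0 (.l 0) (.l 0))) (.n 0 (.n 1 (.l 0) (.l 0)) (.n 1 (.l 0) (.l 0)))) [(1374389534720, 274877906944), (350442487808, 61874372608), (246960619520, 49392123904)] rfl (by decide +kernel)
end

mutual
theorem I0RT_27 : CovD 1 [pRT H BI0] [(1374389534720, 274877906944), (288568115200, 123748745216), (345744867328, 49392123904)] :=
  cov_of (fRT H BI0) (.n 1 (.n 2 (.n 0 (.n 1 (.n 2 (.l 0) (.l 0)) (.l 0)) (.n 1 (.n 2 (.l 0) (.l 0)) (.l 0))) (.n 0 (.n 2 (.l 0) (.l 0)) (.n 1 (.l 0) (.l 0)))) (.n 2 (.n 1 (.n 0 (.l 0) (.l 0)) (.n 0 (.l 0) (.l 0))) (.n 0 (.n 0 (.l 0) (.l 0)) (.n 1 (.l 0) (.l 0))))) [(1374389534720, 274877906944), (288568115200, 123748745216), (345744867328, 49392123904)] rfl (by decide +kernel)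
theorem I0RT_29 : CovD 1 [pRT H BI0] [(1374389534720, 274877906944), (536065605632, 123748745216), (98784247808, 98784247808)] :=
  cov_of (fRT H BI0) (.n 2 (.n 1 (.n 2 (.n 1 (.l 0) (.l 0)) (.n 1 (.n 0 (.l 0) (.l 0)) (.l 0))) (.n 0 (.l 0) (.n 0 (.l 0) (.l 0)))) (.n 1 (.n 2 (.n 0 (.l 0) (.n 1 (.l 0) (.l 0))) (.n 0 (.l 0) (.n 0 (.l 0) (.l 0)))) (.n 0 (.n 0 (.l 0) (.l 0)) (.n 1 (.l 0) (.l 0))))) [(1374389534720, 274877906944), (536065605632, 123748745216), (98784247808, 98784247808)] rfl (by decide +kernel)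
theorem I0RT_30 : CovD 1 [pRT H BI0] [(1374389534720, 274877906944), (536065605632, 123748745216), (296352743424, 98784247808)] :=
  cov_of (fRT H BI0) (.n 1 (.n 2 (.n 2 (.n 0 (.l 0) (.n 0 (.l 0) (.l 0))) (.n 0 (.l 0) (.n 0 (.l 0) (.l 0)))) (.n 1 (.n 0 (.l 0) (.n 0 (.l 0) (.l 0))) (.n 0 (.l 0) (.l 0)))) (.n 2 (.n 0 (.n 0 (.l 0) (.l 0)) (.n 1 (.l 0) (.l 0))) (.n 0 (.n 0 (.l 0) (.l 0)) (.n 1 (.l 0) (.l 0))))) [(1374389534720, 274877906944), (536065605632, 123748745216), (296352743424, 98784247808)] rfl (by decide +kernel)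
end

end Pool.Agent.helper82.WC.S0K2
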