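import Pool.Agent.helper82.WC.S0K2P

/-!
Generated certificates (in pairs, so that they are checked one after the other).
-/

namespace Pool.Agent.helper82.WC.S0K2

open Pool.Agent.helper82.WH
open Pool.Agent.helper31.IC (CovD covD_split TD)

mutual
theorem I0RT_34 : CovD 1 [pRT H BI0] [(1374389534720, 274877906944), (288568115200, 123748745216), (444529115136, 49392123904)] :=
  cov_of (fRT H BI0) (.n 1 (.n 2 (.n 0 (.n 0 (.l 0) (.l 0)) (.n 0 (.l 0) (.l 0))) (.n 0 (.l 0) (.n 0 (.l 0) (.l 0)))) (.n 0 (.n 1 (.l 0) (.l 0)) (.n 1 (.n 0 (.l 0) (.l 0)) (.n 0 (.l 0) (.l 0))))) [(1374389534720, 274877906944), (288568115200, 123748745216), (444529115136, 49392123904)] rfl (by decide +kernel)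
theorem I0RT_35 : CovD 1 [pRT H BI0] [(1374389534720, 274877906944), (288568115200, 123748745216), (543313362944, 49392123904)] :=
  cov_of (fRT H BI0) (.n 1 (.n 0 (.n 2 (.l 0) (.l 0)) (.n 2 (.n 1 (.l 0) (.l 0)) (.n 1 (.l 0) (.l 0)))) (.n 0 (.n 1 (.l 0) (.l 0)) (.n 1 (.n 2 (.l 0) (.l 0)) (.n 0 (.l 0) (.l 0))))) [(1374389534720, 274877906944), (288568115200, 123748745216), (543313362944, 49392123904)] rfl (by decide +kernel)
end

mutual
theorem I0RT_37 : CovD 1 [pRT H BI0] [(1374389534720, 274877906944), (288568115200, 123748745216), (642097610752, 49392123904)] :=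
  cov_of (fRT H BI0) (.n 1 (.n 0 (.n 2 (.l 0) (.l 0)) (.n 1 (.n 0 (.l 0) (.n 2 (.l 0) (.l 0))) (.n 2 (.l 0) (.n 0 (.l 0) (.l 0))))) (.n 0 (.n 1 (.l 0) (.l 0)) (.n 1 (.n 2 (.l 0) (.l 0)) (.n 0 (.l 0) (.l 0))))) [(1374389534720, 274877906944), (288568115200, 123748745216), (642097610752, 49392123904)] rfl (by decide +kernel)
theorem I0RT_38 : CovD 1 [pRT H BI0] [(1374389534720, 274877906944), (288568115200, 123748745216), (740881858560, 49392123904)] :=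
  cov_of (fRT H BI0) (.n 1 (.n 0 (.n 1 (.n 0 (.l 0) (.l 0)) (.l 0)) (.n 1 (.n 2 (.n 0 (.l 0) (.n 0 (.l 0) (.l 0))) (.n 0 (.l 0) (.n 1 (.l 0) (.l 0)))) (.n 0 (.l 0) (.n 2 (.l 0) (.l 0))))) (.n 0 (.n 2 (.l 0) (.n 0 (.l 0) (.l 0))) (.n 1 (.n 0 (.l 0) (.n 2 (.l 0) (.l 0))) (.n 2 (.l 0) (.l 0))))) [(1374389534720, 274877906944), (288568115200, 123748745216), (740881858560, 49392123904)] rfl (by decide +kernel)
end

mutual
theorem I0RT_40 : CovD 1 [pRT H BI0] [(1374389534720, 274877906944), (536065605632, 123748745216), (493921239040, 98784247808)] :=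
  cov_of (fRT H BI0) (.n 1 (.n 2 (.n 0 (.n 1 (.l 0) (.l 0)) (.n 1 (.n 0 (.l 0) (.l 0)) (.l 0))) (.n 0 (.n 0 (.l 0) (.l 0)) (.n 1 (.n 0 (.l 0) (.l 0)) (.l 0)))) (.n 2 (.n 0 (.n 1 (.l 0) (.l 0)) (.n 1 (.l 0) (.l 0))) (.n 0 (.n 1 (.l 0) (.l 0)) (.n 1 (.l 0) (.l 0))))) [(1374389534720, 274877906944), (536065605632, 123748745216), (493921239040, 98784247808)] rfl (by decide +kernel)
theorem I0RT_42 : CovD 1 [pRT H BI0] [(1374389534720, 274877906944), (474191233024, 61874372608), (691489734656, 98784247808)] :=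
  cov_of (fRT H BI0) (.n 2 (.n 0 (.n 1 (.l 0) (.l 0)) (.n 1 (.n 0 (.l 0) (.l 0)) (.n 0 (.l 0) (.l 0)))) (.n 0 (.n 2 (.n 0 (.l 0) (.l 0)) (.n 0 (.l 0) (.l 0))) (.n 1 (.n 0 (.l 0) (.l 0)) (.n 2 (.l 0) (.l 0))))) [(1374389534720, 274877906944), (474191233024, 61874372608), (691489734656, 98784247808)] rfl (by decide +kernel)
end

mutual
theorem I0RT_43 : CovD 1 [pRT H BI0] [(1374389534720, 274877906944), (597939978240, 61874372608), (691489734656, 98784247808)] :=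
  cov_of (fRT H BI0) (.n 2 (.n 0 (.n 1 (.l 0) (.l 0)) (.n 1 (.n 0 (.l 0) (.l 0)) (.n 0 (.l 0) (.l 0)))) (.n 0 (.n 1 (.n 0 (.l 0) (.l 0)) (.n 2 (.l 0) (.l 0))) (.n 1 (.n 2 (.l 0) (.l 0)) (.n 2 (.l 0) (.l 0))))) [(1374389534720, 274877906944), (597939978240, 61874372608), (691489734656, 98784247808)] rfl (by decide +kernel)
theorem R0AD_0 : CovD 0 [pAD H BR0] [(1374389534720, 274877906944), (288568115200, 123748745216), (1099511627776, 1099511627776)] :=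
  cov_of (fAD H BR0) (.n 1 (.n 1 (.n 0 (.n 1 (.n 0 (.l 0) (.l 0)) (.n 0 (.l 0) (.l 0))) (.n 1 (.n 2 (.l 0) (.l 0)) (.n 2 (.l 0) (.l 0)))) (.n 0 (.n 1 (.n 2 (.l 0) (.l 0)) (.n 2 (.l 0) (.l 0))) (.n 1 (.l 0) (.l 0)))) (.n 0 (.n 1 (.n 0 (.n 2 (.l 0) (.l 0)) (.n 2 (.l 0) (.l 0))) (.n 0 (.l 0) (.l 0))) (.n 1 (.n 0 (.l 0) (.l 0)) (.n 0 (.l 0) (.l 0))))) [(1374389534720, 274877906944), (288568115200, 123748745216), (1099511627776, 1099511627776)] rfl (by decide +kernel)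
end

mutual
theorem R0AD_2 : CovD 0 [pAD H BR0] [(1374389534720, 274877906944), (474191233024, 61874372608), (1099511627776, 1099511627776)] :=
  cov_of (fAD H BR0) (.n 0 (.n 1 (.n 0 (.l 0) (.l 0)) (.n 0 (.n 2 (.l 0) (.l 0)) (.l 0))) (.n 1 (.n 0 (.l 0) (.l 0)) (.n 0 (.l 0) (.l 0)))) [(1374389534720, 274877906944), (474191233024, 61874372608), (1099511627776, 1099511627776)] rfl (by decide +kernel)
theorem R0AD_3 : CovD 0 [pAD H BR0] [(1374389534720, 274877906944), (597939978240, 61874372608), (1099511627776, 1099511627776)] :=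
  cov_of (fAD H BR0) (.n 0 (.n 1 (.n 0 (.n 2 (.l 0) (.l 0)) (.n 2 (.l 0) (.l 0))) (.n 0 (.n 2 (.l 0) (.l 0)) (.n 2 (.l 0) (.l 0)))) (.n 1 (.n 0 (.n 2 (.l 0) (.l 0)) (.n 2 (.l 0) (.l 0))) (.n 0 (.n 2 (.l 0) (.l 0)) (.n 2 (.l 0) (.l 0))))) [(1374389534720, 274877906944), (597939978240, 61874372608), (1099511627776, 1099511627776)] rfl (by decide +kernel)
end

mutual
theorem R0G : CovD 1 [pG H BR0] [(1374389534720, 274877906944), (412316860416, 247497490432), (1099511627776, 1099511627776)] :=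
  cov_of (fG H BR0) (.n 1 (.n 1 (.l 0) (.l 0)) (.n 1 (.n 2 (.l 0) (.l 0)) (.n 0 (.l 0) (.l 0)))) [(1374389534720, 274877906944), (412316860416, 247497490432), (1099511627776, 1099511627776)] rfl (by decide +kernel)
theorem R0RT : CovD 1 [pRT H BR0] [(1374389534720, 274877906944), (412316860416, 247497490432), (1099511627776, 1099511627776)] :=
  cov_of (fRT H BR0) (.n 1 (.n 1 (.n 1 (.n 1 (.n 1 (.n 2 (.l 0) (.l 0)) (.l 0)) (.n 0 (.l 0) (.l 0))) (.n 1 (.n 0 (.l 0) (.l 0)) (.n 2 (.l 0) (.l 0)))) (.n 1 (.n 1 (.l 0) (.l 0)) (.n 2 (.l 0) (.l 0)))) (.n 1 (.n 1 (.n 0 (.l 0) (.l 0)) (.n 0 (.l 0) (.l 0))) (.n 0 (.n 2 (.l 0) (.l 0)) (.n 1 (.l 0) (.l 0))))) [(1374389534720, 274877906944), (412316860416, 247497490432), (1099511627776, 1099511627776)] rfl (by decide +kernel)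
end

mutual
theorem R0RS : CovD 1 [pRS H BR0] [(1374389534720, 274877906944), (412316860416, 247497490432), (1099511627776, 1099511627776)] :=
  cov_of (fRS H BR0) (.n 1 (.l 0) (.l 0)) [(1374389534720, 274877906944), (412316860416, 247497490432), (1099511627776, 1099511627776)] rfl (by decide +kernel)
theorem PAD_0 : CovD 0 [pAD H BP] [(1374389534720, 274877906944), (288568115200, 123748745216), (2199023255552, 0)] :=
  cov_of (fAD H BP) (.n 1 (.n 1 (.n 0 (.n 0 (.n 0 (.l 0) (.l 0)) (.l 0)) (.n 0 (.l 0) (.l 0))) (.n 0 (.n 0 (.l 0) (.l 0)) (.n 0 (.l 0) (.l 0)))) (.n 0 (.n 1 (.n 0 (.l 0) (.l 0)) (.n 0 (.l 0) (.l 0))) (.n 1 (.n 0 (.l 0) (.l 0)) (.n 0 (.l 0) (.l 0))))) [(1374389534720, 274877906944), (288568115200, 123748745216), (2199023255552, 0)] rfl (by decide +kernel)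
end

mutual
theorem PAD_1 : CovD 0 [pAD H BP] [(1374389534720, 274877906944), (536065605632, 123748745216), (2199023255552, 0)] :=
  cov_of (fAD H BP) (.n 1 (.n 0 (.n 1 (.n 0 (.l 0) (.l 0)) (.n 0 (.l 0) (.l 0))) (.n 1 (.n 0 (.l 0) (.l 0)) (.n 0 (.l 0) (.l 0)))) (.n 0 (.n 0 (.n 0 (.l 0) (.l 0)) (.n 0 (.l 0) (.l 0))) (.n 0 (.n 0 (.l 0) (.l 0)) (.n 0 (.l 0) (.l 0))))) [(1374389534720, 274877906944), (536065605632, 123748745216), (2199023255552, 0)] rfl (by decide +kernel)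
theorem PG : CovD 1 [pG H BP] [(1374389534720, 274877906944), (412316860416, 247497490432), (2199023255552, 0)] :=
  cov_of (fG H BP) (.n 1 (.n 0 (.l 0) (.l 0)) (.n 1 (.l 0) (.l 0))) [(1374389534720, 274877906944), (412316860416, 247497490432), (2199023255552, 0)] rfl (by decide +kernel)
end

mutual
theorem PRT : CovD 1 [pRT H BP] [(1374389534720, 274877906944), (412316860416, 247497490432), (2199023255552, 0)] :=
  cov_of (fRT H BP) (.n 1 (.n 1 (.n 1 (.n 0 (.l 0) (.l 0)) (.l 0)) (.n 1 (.l 0) (.n 0 (.l 0) (.l 0)))) (.n 1 (.n 0 (.l 0) (.n 0 (.l 0) (.l 0))) (.n 0 (.l 0) (.l 0)))) [(1374389534720, 274877906944), (412316860416, 247497490432), (2199023255552, 0)] rfl (by decide +kernel)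
theorem PTT_2 : CovD 1 [pTT H BP] [(1236950581248, 137438953472), (226693742592, 61874372608), (2199023255552, 0)] :=
  cov_of (fTT H BP) (.n 1 (.n 0 (.n 1 (.n 1 (.l 0) (.l 0)) (.n 1 (.l 0) (.l 0))) (.n 1 (.n 1 (.l 0) (.l 0)) (.n 0 (.l 0) (.l 0)))) (.n 0 (.n 1 (.n 0 (.l 0) (.l 0)) (.l 0)) (.n 1 (.n 0 (.l 0) (.l 0)) (.l 0)))) [(1236950581248, 137438953472), (226693742592, 61874372608), (2199023255552, 0)] rfl (by decide +kernel)
end

mutual
theorem PTT_3 : CovD 1 [pTT H BP] [(1511828488192, 137438953472), (226693742592, 61874372608), (2199023255552, 0)] :=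
  cov_of (fTT H BP) (.n 1 (.n 1 (.n 0 (.n 1 (.l 0) (.l 0)) (.n 1 (.l 0) (.l 0))) (.n 0 (.n 0 (.l 0) (.l 0)) (.n 0 (.l 0) (.l 0)))) (.n 1 (.n 0 (.l 0) (.l 0)) (.n 0 (.l 0) (.l 0)))) [(1511828488192, 137438953472), (226693742592, 61874372608), (2199023255552, 0)] rfl (by decide +kernel)
theorem PTT_4 : CovD 1 [pTT H BP] [(1374389534720, 274877906944), (350442487808, 61874372608), (2199023255552, 0)] :=
  cov_of (fTT H BP) (.n 0 (.n 1 (.n 0 (.n 1 (.l 0) (.l 0)) (.n 1 (.l 0) (.l 0))) (.n 0 (.n 0 (.l 0) (.l 0)) (.l 0))) (.n 1 (.n 0 (.n 1 (.l 0) (.l 0)) (.n 0 (.l 0) (.l 0))) (.n 0 (.l 0) (.l 0)))) [(1374389534720, 274877906944), (350442487808, 61874372608), (2199023255552, 0)] rfl (by decide +kernel)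
end

mutual
theorem PTT_5 : CovD 1 [pTT H BP] [(1374389534720, 274877906944), (536065605632, 123748745216), (2199023255552, 0)] :=
  cov_of (fTT H BP) (.n 0 (.n 1 (.n 1 (.n 0 (.l 0) (.l 0)) (.n 0 (.l 0) (.l 0))) (.n 0 (.n 0 (.l 0) (.l 0)) (.n 0 (.l 0) (.l 0)))) (.n 1 (.n 1 (.n 0 (.l 0) (.l 0)) (.n 0 (.l 0) (.l 0))) (.n 0 (.l 0) (.l 0)))) [(1374389534720, 274877906944), (536065605632, 123748745216), (2199023255552, 0)] rfl (by decide +kernel)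
theorem MAD_0 : CovD 0 [pAD H BM] [(1374389534720, 274877906944), (288568115200, 123748745216), (0, 0)] :=
  cov_of (fAD H BM) (.n 1 (.n 1 (.n 0 (.n 0 (.n 0 (.l 0) (.l 0)) (.l 0)) (.n 0 (.l 0) (.l 0))) (.n 0 (.n 0 (.l 0) (.l 0)) (.n 0 (.l 0) (.l 0)))) (.n 0 (.n 1 (.n 0 (.l 0) (.l 0)) (.n 0 (.l 0) (.l 0))) (.n 1 (.n 0 (.l 0) (.l 0)) (.n 0 (.l 0) (.l 0))))) [(1374389534720, 274877906944), (288568115200, 123748745216), (0, 0)] rfl (by decide +kernel)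
end

mutual
theorem MAD_1 : CovD 0 [pAD H BM] [(1374389534720, 274877906944), (536065605632, 123748745216), (0, 0)] :=
  cov_of (fAD H BM) (.n 1 (.n 0 (.n 0 (.n 0 (.l 0) (.l 0)) (.n 0 (.l 0) (.l 0))) (.n 1 (.n 0 (.l 0) (.l 0)) (.n 0 (.l 0) (.l 0)))) (.n 0 (.n 0 (.n 0 (.l 0) (.l 0)) (.n 0 (.l 0) (.l 0))) (.n 0 (.n 0 (.l 0) (.l 0)) (.n 1 (.l 0) (.l 0))))) [(1374389534720, 274877906944), (536065605632, 123748745216), (0, 0)] rfl (by decide +kernel)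
theorem MG : CovD 1 [pG H BM] [(1374389534720, 274877906944), (412316860416, 247497490432), (0, 0)] :=
  cov_of (fG H BM) (.n 1 (.n 1 (.l 0) (.l 0)) (.n 1 (.l 0) (.l 0))) [(1374389534720, 274877906944), (412316860416, 247497490432), (0, 0)] rfl (by decide +kernel)
end

mutual
theorem MRT : CovD 1 [pRT H BM] [(1374389534720, 274877906944), (412316860416, 247497490432), (0, 0)] :=
  cov_of (fRT H BM) (.n 1 (.n 1 (.n 1 (.n 1 (.n 0 (.l 0) (.l 0)) (.n 0 (.l 0) (.l 0))) (.n 1 (.l 0) (.l 0))) (.n 1 (.n 0 (.l 0) (.l 0)) (.l 0))) (.n 1 (.n 0 (.l 0) (.n 1 (.l 0) (.l 0))) (.n 0 (.l 0) (.n 0 (.l 0) (.l 0))))) [(1374389534720, 274877906944), (412316860416, 247497490432), (0, 0)] rfl (by decide +kernel)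
theorem MTT_2 : CovD 1 [pTT H BM] [(1236950581248, 137438953472), (226693742592, 61874372608), (0, 0)] :=
  cov_of (fTT H BM) (.n 1 (.n 0 (.n 1 (.n 1 (.n 0 (.l 0) (.l 0)) (.l 0)) (.n 1 (.l 0) (.l 0))) (.n 1 (.n 1 (.l 0) (.l 0)) (.n 1 (.l 0) (.l 0)))) (.n 0 (.n 1 (.n 0 (.l 0) (.l 0)) (.l 0)) (.n 1 (.n 0 (.l 0) (.l 0)) (.l 0)))) [(1236950581248, 137438953472), (226693742592, 61874372608), (0, 0)] rfl (by decide +kernel)
end

mutual
theorem MTT_3 : CovD 1 [pTT H BM] [(1511828488192, 137438953472), (226693742592, 61874372608), (0, 0)] :=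
  cov_of (fTT H BM) (.n 1 (.n 1 (.n 0 (.n 1 (.l 0) (.l 0)) (.n 1 (.l 0) (.l 0))) (.n 0 (.n 1 (.l 0) (.l 0)) (.n 0 (.l 0) (.l 0)))) (.n 1 (.n 0 (.n 0 (.l 0) (.l 0)) (.l 0)) (.n 0 (.l 0) (.l 0)))) [(1511828488192, 137438953472), (226693742592, 61874372608), (0, 0)] rfl (by decide +kernel)
theorem MTT_4 : CovD 1 [pTT H BM] [(1374389534720, 274877906944), (350442487808, 61874372608), (0, 0)] :=
  cov_of (fTT H BM) (.n 0 (.n 1 (.n 0 (.n 1 (.l 0) (.l 0)) (.n 1 (.l 0) (.l 0))) (.n 0 (.n 0 (.l 0) (.l 0)) (.n 0 (.l 0) (.l 0)))) (.n 1 (.n 0 (.n 1 (.l 0) (.l 0)) (.n 1 (.l 0) (.l 0))) (.n 0 (.l 0) (.l 0)))) [(1374389534720, 274877906944), (350442487808, 61874372608), (0, 0)] rfl (by decide +kernel)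
end

mutual
theorem MTT_5 : CovD 1 [pTT H BM] [(1374389534720, 274877906944), (536065605632, 123748745216), (0, 0)] :=
  cov_of (fTT H BM) (.n 0 (.n 1 (.n 0 (.n 1 (.l 0) (.l 0)) (.n 1 (.l 0) (.l 0))) (.n 0 (.n 0 (.l 0) (.l 0)) (.n 0 (.l 0) (.l 0)))) (.n 1 (.n 1 (.n 0 (.l 0) (.l 0)) (.n 0 (.l 0) (.l 0))) (.n 0 (.l 0) (.l 0)))) [(1374389534720, 274877906944), (536065605632, 123748745216), (0, 0)] rfl (by decide +kernel)
theorem TAD_0 : CovD 0 [pAD H BT] [(1374389534720, 274877906944), (288568115200, 123748745216), (790273982464, 0)] :=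
  cov_of (fAD H BT) (.n 0 (.n 1 (.n 0 (.n 0 (.l 0) (.l 0)) (.n 0 (.l 0) (.l 0))) (.n 0 (.n 1 (.l 0) (.l 0)) (.n 0 (.l 0) (.l 0)))) (.n 1 (.n 0 (.n 0 (.l 0) (.l 0)) (.l 0)) (.n 0 (.n 0 (.l 0) (.l 0)) (.n 0 (.l 0) (.l 0))))) [(1374389534720, 274877906944), (288568115200, 123748745216), (790273982464, 0)] rfl (by decide +kernel)
end

mutual
theorem TAD_1 : CovD 0 [pAD H BT] [(1374389534720, 274877906944), (536065605632, 123748745216), (790273982464, 0)] :=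
  cov_of (fAD H BT) (.n 0 (.n 1 (.n 0 (.n 1 (.l 0) (.l 0)) (.n 1 (.l 0) (.l 0))) (.n 0 (.n 1 (.l 0) (.l 0)) (.n 1 (.l 0) (.l 0)))) (.n 1 (.n 0 (.n 1 (.l 0) (.l 0)) (.n 1 (.l 0) (.l 0))) (.n 0 (.n 1 (.l 0) (.l 0)) (.n 1 (.l 0) (.l 0))))) [(1374389534720, 274877906944), (536065605632, 123748745216), (790273982464, 0)] rfl (by decide +kernel)
theorem TG : CovD 1 [pG H BT] [(1374389534720, 274877906944), (412316860416, 247497490432), (790273982464, 0)] :=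
  cov_of (fG H BT) (.n 1 (.n 0 (.n 0 (.l 0) (.l 0)) (.n 0 (.l 0) (.l 0))) (.n 1 (.n 0 (.l 0) (.l 0)) (.n 0 (.l 0) (.l 0)))) [(1374389534720, 274877906944), (412316860416, 247497490432), (790273982464, 0)] rfl (by decide +kernel)
end

mutual
theorem TRT : CovD 1 [pRT H BT] [(1374389534720, 274877906944), (412316860416, 247497490432), (790273982464, 0)] :=
  cov_of (fRT H BT) (.n 1 (.n 1 (.n 0 (.l 0) (.n 1 (.n 0 (.l 0) (.l 0)) (.l 0))) (.n 0 (.l 0) (.n 0 (.l 0) (.l 0)))) (.n 1 (.n 0 (.l 0) (.n 0 (.l 0) (.l 0))) (.n 0 (.l 0) (.n 0 (.l 0) (.l 0))))) [(1374389534720, 274877906944), (412316860416, 247497490432), (790273982464, 0)] rfl (by decide +kernel)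
theorem TTT_0 : CovD 1 [pTT H BT] [(1374389534720, 274877906944), (288568115200, 123748745216), (790273982464, 0)] :=
  cov_of (fTT H BT) (.n 0 (.n 1 (.n 0 (.n 1 (.n 0 (.l 0) (.l 0)) (.n 0 (.l 0) (.l 0))) (.n 1 (.l 0) (.l 0))) (.n 0 (.n 1 (.n 0 (.l 0) (.l 0)) (.n 0 (.l 0) (.l 0))) (.n 1 (.l 0) (.l 0)))) (.n 1 (.n 0 (.n 0 (.l 0) (.l 0)) (.l 0)) (.n 0 (.n 0 (.l 0) (.l 0)) (.l 0)))) [(1374389534720, 274877906944), (288568115200, 123748745216), (790273982464, 0)] rfl (by decide +kernel)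
theorem TTT_1 : CovD 1 [pTT H BT] [(1374389534720, 274877906944), (536065605632, 123748745216), (790273982464, 0)] :=
  cov_of (fTT H BT) (.n 0 (.n 1 (.n 0 (.n 1 (.n 0 (.l 0) (.l 0)) (.l 0)) (.n 0 (.l 0) (.l 0))) (.n 0 (.n 1 (.l 0) (.l 0)) (.n 1 (.l 0) (.l 0)))) (.n 1 (.n 0 (.n 0 (.l 0) (.l 0)) (.l 0)) (.n 0 (.n 0 (.l 0) (.l 0)) (.l 0)))) [(1374389534720, 274877906944), (536065605632, 123748745216), (790273982464, 0)] rfl (by decide +kernel)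
end

end Pool.Agent.helper82.WC.S0K2
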