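import Pool.Agent.helper82.WC.S0K2C0
import Pool.Agent.helper82.WC.S0K2C1
import Pool.Agent.helper82.WC.S0K2C2

/-!
Generated certificates, assembled.
-/

namespace Pool.Agent.helper82.WC.S0K2

open Pool.Agent.helper82.WH
open Pool.Agent.helper31.IC (CovD covD_split TD)

theorem I0AD_4 : CovD 0 [pAD H BI0] [(1374389534720, 274877906944), (226693742592, 61874372608), (49392123904, 49392123904)] :=
  covD_split 0 (by decide +kernel) I0AD_5 I0AD_6
theorem I0AD_7 : CovD 0 [pAD H BI0] [(1374389534720, 274877906944), (226693742592, 61874372608), (148176371712, 49392123904)] :=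
  covD_split 0 (by decide +kernel) I0AD_8 I0AD_9
theorem I0AD_3 : CovD 0 [pAD H BI0] [(1374389534720, 274877906944), (226693742592, 61874372608), (98784247808, 98784247808)] :=
  covD_split 2 (by decide +kernel) I0AD_4 I0AD_7
theorem I0AD_10 : CovD 0 [pAD H BI0] [(1374389534720, 274877906944), (350442487808, 61874372608), (98784247808, 98784247808)] :=
  covD_split 2 (by decide +kernel) I0AD_11 I0AD_12
theorem I0AD_2 : CovD 0 [pAD H BI0] [(1374389534720, 274877906944), (288568115200, 123748745216), (98784247808, 98784247808)] :=
  covD_split 1 (by decide +kernel) I0AD_3 I0AD_10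
theorem I0AD_15 : CovD 0 [pAD H BI0] [(1374389534720, 274877906944), (226693742592, 61874372608), (246960619520, 49392123904)] :=
  covD_split 0 (by decide +kernel) I0AD_16 I0AD_17
theorem I0AD_14 : CovD 0 [pAD H BI0] [(1374389534720, 274877906944), (226693742592, 61874372608), (296352743424, 98784247808)] :=
  covD_split 2 (by decide +kernel) I0AD_15 I0AD_18
theorem I0AD_19 : CovD 0 [pAD H BI0] [(1374389534720, 274877906944), (350442487808, 61874372608), (296352743424, 98784247808)] :=
  covD_split 0 (by decide +kernel) I0AD_20 I0AD_21
theorem I0AD_13 : CovD 0 [pAD H BI0] [(1374389534720, 274877906944), (288568115200, 123748745216), (296352743424, 98784247808)] :=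
  covD_split 1 (by decide +kernel) I0AD_14 I0AD_19
theorem I0AD_1 : CovD 0 [pAD H BI0] [(1374389534720, 274877906944), (288568115200, 123748745216), (197568495616, 197568495616)] :=
  covD_split 2 (by decide +kernel) I0AD_2 I0AD_13
theorem I0AD_24 : CovD 0 [pAD H BI0] [(1374389534720, 274877906944), (474191233024, 61874372608), (98784247808, 98784247808)] :=
  covD_split 0 (by decide +kernel) I0AD_25 I0AD_26
theorem I0AD_27 : CovD 0 [pAD H BI0] [(1374389534720, 274877906944), (597939978240, 61874372608), (98784247808, 98784247808)] :=
  covD_split 0 (by decide +kernel) I0AD_28 I0AD_29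
theorem I0AD_23 : CovD 0 [pAD H BI0] [(1374389534720, 274877906944), (536065605632, 123748745216), (98784247808, 98784247808)] :=
  covD_split 1 (by decide +kernel) I0AD_24 I0AD_27
theorem I0AD_31 : CovD 0 [pAD H BI0] [(1374389534720, 274877906944), (474191233024, 61874372608), (296352743424, 98784247808)] :=
  covD_split 0 (by decide +kernel) I0AD_32 I0AD_33
theorem I0AD_34 : CovD 0 [pAD H BI0] [(1374389534720, 274877906944), (597939978240, 61874372608), (296352743424, 98784247808)] :=
  covD_split 0 (by decide +kernel) I0AD_35 I0AD_36
theorem I0AD_30 : CovD 0 [pAD H BI0] [(1374389534720, 274877906944), (536065605632, 123748745216), (296352743424, 98784247808)] :=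
  covD_split 1 (by decide +kernel) I0AD_31 I0AD_34
theorem I0AD_22 : CovD 0 [pAD H BI0] [(1374389534720, 274877906944), (536065605632, 123748745216), (197568495616, 197568495616)] :=
  covD_split 2 (by decide +kernel) I0AD_23 I0AD_30
theorem I0AD_0 : CovD 0 [pAD H BI0] [(1374389534720, 274877906944), (412316860416, 247497490432), (197568495616, 197568495616)] :=
  covD_split 1 (by decide +kernel) I0AD_1 I0AD_22
theorem I0AD_40 : CovD 0 [pAD H BI0] [(1236950581248, 137438953472), (288568115200, 123748745216), (493921239040, 98784247808)] :=
  covD_split 1 (by decide +kernel) I0AD_41 I0AD_42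
theorem I0AD_43 : CovD 0 [pAD H BI0] [(1511828488192, 137438953472), (288568115200, 123748745216), (493921239040, 98784247808)] :=
  covD_split 1 (by decide +kernel) I0AD_44 I0AD_45
theorem I0AD_39 : CovD 0 [pAD H BI0] [(1374389534720, 274877906944), (288568115200, 123748745216), (493921239040, 98784247808)] :=
  covD_split 0 (by decide +kernel) I0AD_40 I0AD_43
theorem I0AD_47 : CovD 0 [pAD H BI0] [(1236950581248, 137438953472), (288568115200, 123748745216), (691489734656, 98784247808)] :=
  covD_split 1 (by decide +kernel) I0AD_48 I0AD_49
theorem I0AD_50 : CovD 0 [pAD H BI0] [(1511828488192, 137438953472), (288568115200, 123748745216), (691489734656, 98784247808)] :=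
  covD_split 2 (by decide +kernel) I0AD_51 I0AD_52
theorem I0AD_46 : CovD 0 [pAD H BI0] [(1374389534720, 274877906944), (288568115200, 123748745216), (691489734656, 98784247808)] :=
  covD_split 0 (by decide +kernel) I0AD_47 I0AD_50
theorem I0AD_38 : CovD 0 [pAD H BI0] [(1374389534720, 274877906944), (288568115200, 123748745216), (592705486848, 197568495616)] :=
  covD_split 2 (by decide +kernel) I0AD_39 I0AD_46
theorem I0AD_55 : CovD 0 [pAD H BI0] [(1374389534720, 274877906944), (474191233024, 61874372608), (493921239040, 98784247808)] :=
  covD_split 0 (by decide +kernel) I0AD_56 I0AD_57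
theorem I0AD_59 : CovD 0 [pAD H BI0] [(1236950581248, 137438953472), (597939978240, 61874372608), (493921239040, 98784247808)] :=
  covD_split 2 (by decide +kernel) I0AD_60 I0AD_61
theorem I0AD_58 : CovD 0 [pAD H BI0] [(1374389534720, 274877906944), (597939978240, 61874372608), (493921239040, 98784247808)] :=
  covD_split 0 (by decide +kernel) I0AD_59 I0AD_62
theorem I0AD_54 : CovD 0 [pAD H BI0] [(1374389534720, 274877906944), (536065605632, 123748745216), (493921239040, 98784247808)] :=
  covD_split 1 (by decide +kernel) I0AD_55 I0AD_58
theorem I0AD_66 : CovD 0 [pAD H BI0] [(1236950581248, 137438953472), (597939978240, 61874372608), (691489734656, 98784247808)] :=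
  covD_split 2 (by decide +kernel) I0AD_67 I0AD_68
theorem I0AD_64 : CovD 0 [pAD H BI0] [(1236950581248, 137438953472), (536065605632, 123748745216), (691489734656, 98784247808)] :=
  covD_split 1 (by decide +kernel) I0AD_65 I0AD_66
theorem I0AD_69 : CovD 0 [pAD H BI0] [(1511828488192, 137438953472), (536065605632, 123748745216), (691489734656, 98784247808)] :=
  covD_split 1 (by decide +kernel) I0AD_70 I0AD_71
theorem I0AD_63 : CovD 0 [pAD H BI0] [(1374389534720, 274877906944), (536065605632, 123748745216), (691489734656, 98784247808)] :=
  covD_split 0 (by decide +kernel) I0AD_64 I0AD_69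
theorem I0AD_53 : CovD 0 [pAD H BI0] [(1374389534720, 274877906944), (536065605632, 123748745216), (592705486848, 197568495616)] :=
  covD_split 2 (by decide +kernel) I0AD_54 I0AD_63
theorem I0AD_37 : CovD 0 [pAD H BI0] [(1374389534720, 274877906944), (412316860416, 247497490432), (592705486848, 197568495616)] :=
  covD_split 1 (by decide +kernel) I0AD_38 I0AD_53
theorem I0AD : CovD 0 [pAD H BI0] [(1374389534720, 274877906944), (412316860416, 247497490432), (395136991232, 395136991232)] :=
  covD_split 2 (by decide +kernel) I0AD_0 I0AD_37
theorem I0G_0 : CovD 1 [pG H BI0] [(1374389534720, 274877906944), (412316860416, 247497490432), (197568495616, 197568495616)] :=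
  covD_split 1 (by decide +kernel) I0G_1 I0G_2
theorem I0G_4 : CovD 1 [pG H BI0] [(1374389534720, 274877906944), (288568115200, 123748745216), (592705486848, 197568495616)] :=
  covD_split 2 (by decide +kernel) I0G_5 I0G_6
theorem I0G_7 : CovD 1 [pG H BI0] [(1374389534720, 274877906944), (536065605632, 123748745216), (592705486848, 197568495616)] :=
  covD_split 2 (by decide +kernel) I0G_8 I0G_9
theorem I0G_3 : CovD 1 [pG H BI0] [(1374389534720, 274877906944), (412316860416, 247497490432), (592705486848, 197568495616)] :=
  covD_split 1 (by decide +kernel) I0G_4 I0G_7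
theorem I0G : CovD 1 [pG H BI0] [(1374389534720, 274877906944), (412316860416, 247497490432), (395136991232, 395136991232)] :=
  covD_split 2 (by decide +kernel) I0G_0 I0G_3
theorem I0RT_6 : CovD 1 [pRT H BI0] [(1374389534720, 274877906944), (195756556288, 30937186304), (24696061952, 24696061952)] :=
  covD_split 2 (by decide +kernel) I0RT_7 I0RT_8
theorem I0RT_5 : CovD 1 [pRT H BI0] [(1374389534720, 274877906944), (226693742592, 61874372608), (24696061952, 24696061952)] :=
  covD_split 1 (by decide +kernel) I0RT_6 I0RT_9
theorem I0RT_11 : CovD 1 [pRT H BI0] [(1374389534720, 274877906944), (195756556288, 30937186304), (74088185856, 24696061952)] :=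
  covD_split 2 (by decide +kernel) I0RT_12 I0RT_13
theorem I0RT_10 : CovD 1 [pRT H BI0] [(1374389534720, 274877906944), (226693742592, 61874372608), (74088185856, 24696061952)] :=
  covD_split 1 (by decide +kernel) I0RT_11 I0RT_14
theorem I0RT_4 : CovD 1 [pRT H BI0] [(1374389534720, 274877906944), (226693742592, 61874372608), (49392123904, 49392123904)] :=
  covD_split 2 (by decide +kernel) I0RT_5 I0RT_10
theorem I0RT_3 : CovD 1 [pRT H BI0] [(1374389534720, 274877906944), (288568115200, 123748745216), (49392123904, 49392123904)] :=
  covD_split 1 (by decide +kernel) I0RT_4 I0RT_15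
theorem I0RT_18 : CovD 1 [pRT H BI0] [(1374389534720, 274877906944), (226693742592, 61874372608), (123480309760, 24696061952)] :=
  covD_split 1 (by decide +kernel) I0RT_19 I0RT_20
theorem I0RT_17 : CovD 1 [pRT H BI0] [(1374389534720, 274877906944), (226693742592, 61874372608), (148176371712, 49392123904)] :=
  covD_split 2 (by decide +kernel) I0RT_18 I0RT_21
theorem I0RT_16 : CovD 1 [pRT H BI0] [(1374389534720, 274877906944), (288568115200, 123748745216), (148176371712, 49392123904)] :=
  covD_split 1 (by decide +kernel) I0RT_17 I0RT_22
theorem I0RT_2 : CovD 1 [pRT H BI0] [(1374389534720, 274877906944), (288568115200, 123748745216), (98784247808, 98784247808)] :=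
  covD_split 2 (by decide +kernel) I0RT_3 I0RT_16
theorem I0RT_24 : CovD 1 [pRT H BI0] [(1374389534720, 274877906944), (288568115200, 123748745216), (246960619520, 49392123904)] :=
  covD_split 1 (by decide +kernel) I0RT_25 I0RT_26
theorem I0RT_23 : CovD 1 [pRT H BI0] [(1374389534720, 274877906944), (288568115200, 123748745216), (296352743424, 98784247808)] :=
  covD_split 2 (by decide +kernel) I0RT_24 I0RT_27
theorem I0RT_1 : CovD 1 [pRT H BI0] [(1374389534720, 274877906944), (288568115200, 123748745216), (197568495616, 197568495616)] :=
  covD_split 2 (by decide +kernel) I0RT_2 I0RT_23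
theorem I0RT_28 : CovD 1 [pRT H BI0] [(1374389534720, 274877906944), (536065605632, 123748745216), (197568495616, 197568495616)] :=
  covD_split 2 (by decide +kernel) I0RT_29 I0RT_30
theorem I0RT_0 : CovD 1 [pRT H BI0] [(1374389534720, 274877906944), (412316860416, 247497490432), (197568495616, 197568495616)] :=
  covD_split 1 (by decide +kernel) I0RT_1 I0RT_28
theorem I0RT_33 : CovD 1 [pRT H BI0] [(1374389534720, 274877906944), (288568115200, 123748745216), (493921239040, 98784247808)] :=
  covD_split 2 (by decide +kernel) I0RT_34 I0RT_35
theorem I0RT_36 : CovD 1 [pRT H BI0] [(1374389534720, 274877906944), (288568115200, 123748745216), (691489734656, 98784247808)] :=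
  covD_split 2 (by decide +kernel) I0RT_37 I0RT_38
theorem I0RT_32 : CovD 1 [pRT H BI0] [(1374389534720, 274877906944), (288568115200, 123748745216), (592705486848, 197568495616)] :=
  covD_split 2 (by decide +kernel) I0RT_33 I0RT_36
theorem I0RT_41 : CovD 1 [pRT H BI0] [(1374389534720, 274877906944), (536065605632, 123748745216), (691489734656, 98784247808)] :=
  covD_split 1 (by decide +kernel) I0RT_42 I0RT_43
theorem I0RT_39 : CovD 1 [pRT H BI0] [(1374389534720, 274877906944), (536065605632, 123748745216), (592705486848, 197568495616)] :=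
  covD_split 2 (by decide +kernel) I0RT_40 I0RT_41
theorem I0RT_31 : CovD 1 [pRT H BI0] [(1374389534720, 274877906944), (412316860416, 247497490432), (592705486848, 197568495616)] :=
  covD_split 1 (by decide +kernel) I0RT_32 I0RT_39
theorem I0RT : CovD 1 [pRT H BI0] [(1374389534720, 274877906944), (412316860416, 247497490432), (395136991232, 395136991232)] :=
  covD_split 2 (by decide +kernel) I0RT_0 I0RT_31
theorem R0AD_1 : CovD 0 [pAD H BR0] [(1374389534720, 274877906944), (536065605632, 123748745216), (1099511627776, 1099511627776)] :=
  covD_split 1 (by decide +kernel) R0AD_2 R0AD_3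
theorem R0AD : CovD 0 [pAD H BR0] [(1374389534720, 274877906944), (412316860416, 247497490432), (1099511627776, 1099511627776)] :=
  covD_split 1 (by decide +kernel) R0AD_0 R0AD_1
theorem PAD : CovD 0 [pAD H BP] [(1374389534720, 274877906944), (412316860416, 247497490432), (2199023255552, 0)] :=
  covD_split 1 (by decide +kernel) PAD_0 PAD_1
theorem PTT_1 : CovD 1 [pTT H BP] [(1374389534720, 274877906944), (226693742592, 61874372608), (2199023255552, 0)] :=
  covD_split 0 (by decide +kernel) PTT_2 PTT_3
theorem PTT_0 : CovD 1 [pTT H BP] [(1374389534720, 274877906944), (288568115200, 123748745216), (2199023255552, 0)] :=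
  covD_split 1 (by decide +kernel) PTT_1 PTT_4
theorem PTT : CovD 1 [pTT H BP] [(1374389534720, 274877906944), (412316860416, 247497490432), (2199023255552, 0)] :=
  covD_split 1 (by decide +kernel) PTT_0 PTT_5
theorem MAD : CovD 0 [pAD H BM] [(1374389534720, 274877906944), (412316860416, 247497490432), (0, 0)] :=
  covD_split 1 (by decide +kernel) MAD_0 MAD_1
theorem MTT_1 : CovD 1 [pTT H BM] [(1374389534720, 274877906944), (226693742592, 61874372608), (0, 0)] :=
  covD_split 0 (by decide +kernel) MTT_2 MTT_3
theorem MTT_0 : CovD 1 [pTT H BM] [(1374389534720, 274877906944), (288568115200, 123748745216), (0, 0)] :=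
  covD_split 1 (by decide +kernel) MTT_1 MTT_4
theorem MTT : CovD 1 [pTT H BM] [(1374389534720, 274877906944), (412316860416, 247497490432), (0, 0)] :=
  covD_split 1 (by decide +kernel) MTT_0 MTT_5
theorem TAD : CovD 0 [pAD H BT] [(1374389534720, 274877906944), (412316860416, 247497490432), (790273982464, 0)] :=
  covD_split 1 (by decide +kernel) TAD_0 TAD_1
theorem TTT : CovD 1 [pTT H BT] [(1374389534720, 274877906944), (412316860416, 247497490432), (790273982464, 0)] :=
  covD_split 1 (by decide +kernel) TTT_0 TTT_1

end Pool.Agent.helper82.WC.S0K2
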