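import Pool.Agent.helper82.WC.S0K2P

/-!
Generated certificates (in pairs, so that they are checked one after the other).
-/

namespace Pool.Agent.helper82.WC.S0K2

open Pool.Agent.helper82.WH
open Pool.Agent.helper31.IC (CovD covD_split TD)

mutual
theorem I0AD_5 : CovD 0 [pAD H BI0] [(1236950581248, 137438953472), (226693742592, 61874372608), (49392123904, 49392123904)] :=
  cov_of (fAD H BI0) (.n 1 (.n 2 (.n 0 (.n 1 (.n 0 (.l 0) (.l 0)) (.n 0 (.l 0) (.l 0))) (.n 1 (.n 0 (.l 0) (.l 0)) (.n 0 (.l 0) (.l 0)))) (.n 0 (.n 1 (.n 0 (.l 0) (.l 0)) (.n 0 (.l 0) (.l 0))) (.n 1 (.n 0 (.l 0) (.l 0)) (.n 0 (.l 0) (.l 0))))) (.n 2 (.n 0 (.n 0 (.l 0) (.l 0)) (.n 0 (.l 0) (.l 0))) (.n 0 (.n 0 (.l 0) (.l 0)) (.n 0 (.l 0) (.l 0))))) [(1236950581248, 137438953472), (226693742592, 61874372608), (49392123904, 49392123904)] rfl (by decide +kernel)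
theorem I0AD_6 : CovD 0 [pAD H BI0] [(1511828488192, 137438953472), (226693742592, 61874372608), (49392123904, 49392123904)] :=
  cov_of (fAD H BI0) (.n 1 (.n 2 (.n 0 (.n 1 (.n 0 (.l 0) (.l 0)) (.l 0)) (.n 1 (.n 0 (.l 0) (.l 0)) (.l 0))) (.n 0 (.n 1 (.n 0 (.l 0) (.l 0)) (.n 0 (.l 0) (.l 0))) (.n 1 (.n 0 (.l 0) (.l 0)) (.l 0)))) (.n 2 (.n 0 (.n 0 (.l 0) (.l 0)) (.n 0 (.l 0) (.l 0))) (.n 0 (.n 0 (.l 0) (.l 0)) (.n 1 (.l 0) (.l 0))))) [(1511828488192, 137438953472), (226693742592, 61874372608), (49392123904, 49392123904)] rfl (by decide +kernel)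
end

mutual
theorem I0AD_8 : CovD 0 [pAD H BI0] [(1236950581248, 137438953472), (226693742592, 61874372608), (148176371712, 49392123904)] :=
  cov_of (fAD H BI0) (.n 1 (.n 2 (.n 0 (.n 1 (.n 0 (.l 0) (.l 0)) (.n 0 (.l 0) (.l 0))) (.n 1 (.n 0 (.l 0) (.l 0)) (.n 0 (.l 0) (.l 0)))) (.n 0 (.n 1 (.n 0 (.l 0) (.l 0)) (.l 0)) (.n 1 (.n 0 (.l 0) (.l 0)) (.l 0)))) (.n 2 (.n 0 (.n 0 (.l 0) (.l 0)) (.n 0 (.l 0) (.l 0))) (.n 0 (.n 0 (.l 0) (.l 0)) (.n 0 (.l 0) (.l 0))))) [(1236950581248, 137438953472), (226693742592, 61874372608), (148176371712, 49392123904)] rfl (by decide +kernel)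
theorem I0AD_9 : CovD 0 [pAD H BI0] [(1511828488192, 137438953472), (226693742592, 61874372608), (148176371712, 49392123904)] :=
  cov_of (fAD H BI0) (.n 1 (.n 2 (.n 0 (.n 1 (.n 0 (.l 0) (.l 0)) (.l 0)) (.n 1 (.n 0 (.l 0) (.l 0)) (.l 0))) (.n 0 (.n 1 (.l 0) (.l 0)) (.n 1 (.l 0) (.l 0)))) (.n 2 (.n 0 (.n 0 (.l 0) (.l 0)) (.n 0 (.l 0) (.l 0))) (.n 0 (.n 0 (.l 0) (.l 0)) (.n 0 (.l 0) (.l 0))))) [(1511828488192, 137438953472), (226693742592, 61874372608), (148176371712, 49392123904)] rfl (by decide +kernel)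
end

mutual
theorem I0AD_11 : CovD 0 [pAD H BI0] [(1374389534720, 274877906944), (350442487808, 61874372608), (49392123904, 49392123904)] :=
  cov_of (fAD H BI0) (.n 0 (.n 1 (.n 0 (.n 2 (.n 0 (.l 0) (.l 0)) (.n 0 (.l 0) (.l 0))) (.n 2 (.n 0 (.l 0) (.l 0)) (.n 0 (.l 0) (.l 0)))) (.n 0 (.n 2 (.l 0) (.l 0)) (.n 2 (.l 0) (.l 0)))) (.n 1 (.n 2 (.n 0 (.n 0 (.l 0) (.l 0)) (.n 0 (.l 0) (.l 0))) (.n 0 (.n 0 (.l 0) (.l 0)) (.n 0 (.l 0) (.l 0)))) (.n 2 (.n 0 (.l 0) (.l 0)) (.n 0 (.l 0) (.l 0))))) [(1374389534720, 274877906944), (350442487808, 61874372608), (49392123904, 49392123904)] rfl (by decide +kernel)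
theorem I0AD_12 : CovD 0 [pAD H BI0] [(1374389534720, 274877906944), (350442487808, 61874372608), (148176371712, 49392123904)] :=
  cov_of (fAD H BI0) (.n 0 (.n 1 (.n 0 (.n 2 (.n 0 (.l 0) (.l 0)) (.n 0 (.l 0) (.l 0))) (.n 2 (.n 0 (.l 0) (.l 0)) (.n 0 (.l 0) (.l 0)))) (.n 0 (.n 2 (.l 0) (.l 0)) (.n 2 (.l 0) (.l 0)))) (.n 1 (.n 2 (.n 0 (.n 0 (.l 0) (.l 0)) (.n 0 (.l 0) (.l 0))) (.n 0 (.n 0 (.l 0) (.l 0)) (.n 0 (.l 0) (.l 0)))) (.n 2 (.n 0 (.l 0) (.l 0)) (.n 0 (.l 0) (.l 0))))) [(1374389534720, 274877906944), (350442487808, 61874372608), (148176371712, 49392123904)] rfl (by decide +kernel)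
end

mutual
theorem I0AD_16 : CovD 0 [pAD H BI0] [(1236950581248, 137438953472), (226693742592, 61874372608), (246960619520, 49392123904)] :=
  cov_of (fAD H BI0) (.n 0 (.n 1 (.n 2 (.n 0 (.l 0) (.l 0)) (.n 0 (.l 0) (.l 0))) (.n 2 (.n 0 (.l 0) (.l 0)) (.n 0 (.l 0) (.l 0)))) (.n 1 (.n 2 (.n 0 (.l 0) (.l 0)) (.n 0 (.l 0) (.l 0))) (.n 2 (.n 0 (.l 0) (.l 0)) (.n 0 (.l 0) (.l 0))))) [(1236950581248, 137438953472), (226693742592, 61874372608), (246960619520, 49392123904)] rfl (by decide +kernel)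
theorem I0AD_17 : CovD 0 [pAD H BI0] [(1511828488192, 137438953472), (226693742592, 61874372608), (246960619520, 49392123904)] :=
  cov_of (fAD H BI0) (.n 1 (.n 2 (.n 0 (.n 0 (.l 0) (.l 0)) (.n 0 (.l 0) (.l 0))) (.n 0 (.n 0 (.l 0) (.l 0)) (.n 0 (.l 0) (.l 0)))) (.n 2 (.n 0 (.n 0 (.l 0) (.l 0)) (.n 0 (.l 0) (.l 0))) (.n 0 (.l 0) (.l 0)))) [(1511828488192, 137438953472), (226693742592, 61874372608), (246960619520, 49392123904)] rfl (by decide +kernel)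
end

mutual
theorem I0AD_18 : CovD 0 [pAD H BI0] [(1374389534720, 274877906944), (226693742592, 61874372608), (345744867328, 49392123904)] :=
  cov_of (fAD H BI0) (.n 0 (.n 0 (.n 1 (.n 2 (.n 0 (.l 0) (.l 0)) (.l 0)) (.n 2 (.l 0) (.l 0))) (.n 1 (.n 2 (.l 0) (.l 0)) (.n 2 (.l 0) (.l 0)))) (.n 2 (.n 1 (.n 0 (.l 0) (.l 0)) (.n 0 (.l 0) (.l 0))) (.n 1 (.n 0 (.l 0) (.l 0)) (.n 0 (.l 0) (.l 0))))) [(1374389534720, 274877906944), (226693742592, 61874372608), (345744867328, 49392123904)] rfl (by decide +kernel)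
theorem I0AD_20 : CovD 0 [pAD H BI0] [(1236950581248, 137438953472), (350442487808, 61874372608), (296352743424, 98784247808)] :=
  cov_of (fAD H BI0) (.n 2 (.n 1 (.n 0 (.n 2 (.n 0 (.l 0) (.l 0)) (.l 0)) (.n 2 (.n 0 (.l 0) (.l 0)) (.l 0))) (.n 0 (.n 2 (.l 0) (.l 0)) (.n 2 (.l 0) (.l 0)))) (.n 0 (.n 1 (.n 2 (.l 0) (.l 0)) (.n 2 (.l 0) (.l 0))) (.n 1 (.n 2 (.l 0) (.l 0)) (.n 2 (.l 0) (.l 0))))) [(1236950581248, 137438953472), (350442487808, 61874372608), (296352743424, 98784247808)] rfl (by decide +kernel)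
end

mutual
theorem I0AD_21 : CovD 0 [pAD H BI0] [(1511828488192, 137438953472), (350442487808, 61874372608), (296352743424, 98784247808)] :=
  cov_of (fAD H BI0) (.n 2 (.n 1 (.n 2 (.n 0 (.l 0) (.l 0)) (.n 0 (.l 0) (.l 0))) (.n 0 (.n 2 (.l 0) (.l 0)) (.n 2 (.l 0) (.l 0)))) (.n 1 (.n 0 (.n 2 (.l 0) (.l 0)) (.n 2 (.l 0) (.l 0))) (.n 0 (.n 2 (.l 0) (.l 0)) (.n 2 (.l 0) (.l 0))))) [(1511828488192, 137438953472), (350442487808, 61874372608), (296352743424, 98784247808)] rfl (by decide +kernel)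
theorem I0AD_25 : CovD 0 [pAD H BI0] [(1236950581248, 137438953472), (474191233024, 61874372608), (98784247808, 98784247808)] :=
  cov_of (fAD H BI0) (.n 2 (.n 1 (.n 0 (.n 2 (.l 0) (.l 0)) (.n 2 (.l 0) (.l 0))) (.n 0 (.n 0 (.l 0) (.l 0)) (.n 0 (.l 0) (.l 0)))) (.n 1 (.n 0 (.n 2 (.l 0) (.l 0)) (.n 2 (.l 0) (.l 0))) (.n 0 (.n 0 (.l 0) (.l 0)) (.n 2 (.l 0) (.l 0))))) [(1236950581248, 137438953472), (474191233024, 61874372608), (98784247808, 98784247808)] rfl (by decide +kernel)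
end

mutual
theorem I0AD_26 : CovD 0 [pAD H BI0] [(1511828488192, 137438953472), (474191233024, 61874372608), (98784247808, 98784247808)] :=
  cov_of (fAD H BI0) (.n 2 (.n 1 (.n 0 (.n 2 (.l 0) (.l 0)) (.n 2 (.l 0) (.l 0))) (.n 0 (.n 0 (.l 0) (.l 0)) (.n 0 (.l 0) (.l 0)))) (.n 1 (.n 0 (.n 2 (.l 0) (.l 0)) (.n 2 (.l 0) (.l 0))) (.n 0 (.n 2 (.l 0) (.l 0)) (.n 2 (.l 0) (.l 0))))) [(1511828488192, 137438953472), (474191233024, 61874372608), (98784247808, 98784247808)] rfl (by decide +kernel)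
theorem I0AD_28 : CovD 0 [pAD H BI0] [(1236950581248, 137438953472), (597939978240, 61874372608), (98784247808, 98784247808)] :=
  cov_of (fAD H BI0) (.n 2 (.n 0 (.n 1 (.n 0 (.l 0) (.l 0)) (.n 0 (.l 0) (.l 0))) (.n 1 (.n 0 (.l 0) (.l 0)) (.n 0 (.l 0) (.l 0)))) (.n 0 (.n 1 (.n 0 (.l 0) (.l 0)) (.n 0 (.l 0) (.l 0))) (.n 1 (.n 0 (.l 0) (.l 0)) (.n 2 (.l 0) (.l 0))))) [(1236950581248, 137438953472), (597939978240, 61874372608), (98784247808, 98784247808)] rfl (by decide +kernel)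
end

mutual
theorem I0AD_29 : CovD 0 [pAD H BI0] [(1511828488192, 137438953472), (597939978240, 61874372608), (98784247808, 98784247808)] :=
  cov_of (fAD H BI0) (.n 2 (.n 1 (.n 0 (.n 0 (.l 0) (.l 0)) (.n 0 (.l 0) (.l 0))) (.n 0 (.n 0 (.l 0) (.l 0)) (.n 2 (.l 0) (.l 0)))) (.n 1 (.n 0 (.n 2 (.l 0) (.l 0)) (.n 2 (.l 0) (.l 0))) (.n 0 (.n 2 (.l 0) (.l 0)) (.n 2 (.l 0) (.l 0))))) [(1511828488192, 137438953472), (597939978240, 61874372608), (98784247808, 98784247808)] rfl (by decide +kernel)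
theorem I0AD_32 : CovD 0 [pAD H BI0] [(1236950581248, 137438953472), (474191233024, 61874372608), (296352743424, 98784247808)] :=
  cov_of (fAD H BI0) (.n 2 (.n 1 (.n 0 (.n 2 (.l 0) (.l 0)) (.n 2 (.l 0) (.l 0))) (.n 0 (.n 0 (.l 0) (.l 0)) (.n 0 (.l 0) (.l 0)))) (.n 0 (.n 1 (.n 0 (.l 0) (.l 0)) (.n 0 (.l 0) (.l 0))) (.n 1 (.n 0 (.l 0) (.l 0)) (.n 0 (.l 0) (.l 0))))) [(1236950581248, 137438953472), (474191233024, 61874372608), (296352743424, 98784247808)] rfl (by decide +kernel)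
end

mutual
theorem I0AD_33 : CovD 0 [pAD H BI0] [(1511828488192, 137438953472), (474191233024, 61874372608), (296352743424, 98784247808)] :=
  cov_of (fAD H BI0) (.n 2 (.n 1 (.n 0 (.n 2 (.l 0) (.l 0)) (.n 2 (.l 0) (.l 0))) (.n 0 (.n 2 (.l 0) (.l 0)) (.n 2 (.l 0) (.l 0)))) (.n 1 (.n 0 (.n 2 (.l 0) (.l 0)) (.n 2 (.l 0) (.l 0))) (.n 0 (.n 2 (.l 0) (.l 0)) (.n 2 (.l 0) (.l 0))))) [(1511828488192, 137438953472), (474191233024, 61874372608), (296352743424, 98784247808)] rfl (by decide +kernel)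
theorem I0AD_35 : CovD 0 [pAD H BI0] [(1236950581248, 137438953472), (597939978240, 61874372608), (296352743424, 98784247808)] :=
  cov_of (fAD H BI0) (.n 2 (.n 1 (.n 0 (.n 0 (.l 0) (.l 0)) (.n 0 (.l 0) (.l 0))) (.n 0 (.n 2 (.l 0) (.l 0)) (.n 2 (.l 0) (.l 0)))) (.n 0 (.n 1 (.n 0 (.l 0) (.l 0)) (.n 2 (.n 0 (.l 0) (.l 0)) (.n 0 (.l 0) (.l 0)))) (.n 1 (.n 0 (.l 0) (.l 0)) (.n 2 (.l 0) (.l 0))))) [(1236950581248, 137438953472), (597939978240, 61874372608), (296352743424, 98784247808)] rfl (by decide +kernel)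
end

mutual
theorem I0AD_36 : CovD 0 [pAD H BI0] [(1511828488192, 137438953472), (597939978240, 61874372608), (296352743424, 98784247808)] :=
  cov_of (fAD H BI0) (.n 2 (.n 1 (.n 0 (.n 2 (.l 0) (.l 0)) (.n 2 (.l 0) (.l 0))) (.n 0 (.n 2 (.l 0) (.l 0)) (.n 2 (.l 0) (.l 0)))) (.n 1 (.n 0 (.n 2 (.l 0) (.l 0)) (.n 2 (.l 0) (.l 0))) (.n 0 (.n 2 (.l 0) (.l 0)) (.n 2 (.l 0) (.n 0 (.l 0) (.l 0)))))) [(1511828488192, 137438953472), (597939978240, 61874372608), (296352743424, 98784247808)] rfl (by decide +kernel)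
theorem I0AD_41 : CovD 0 [pAD H BI0] [(1236950581248, 137438953472), (226693742592, 61874372608), (493921239040, 98784247808)] :=
  cov_of (fAD H BI0) (.n 2 (.n 0 (.n 1 (.n 0 (.l 0) (.l 0)) (.n 0 (.l 0) (.l 0))) (.n 1 (.n 2 (.l 0) (.l 0)) (.n 0 (.l 0) (.l 0)))) (.n 0 (.n 1 (.n 0 (.l 0) (.l 0)) (.n 0 (.l 0) (.l 0))) (.n 1 (.n 0 (.l 0) (.l 0)) (.n 0 (.l 0) (.l 0))))) [(1236950581248, 137438953472), (226693742592, 61874372608), (493921239040, 98784247808)] rfl (by decide +kernel)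
end

mutual
theorem I0AD_42 : CovD 0 [pAD H BI0] [(1236950581248, 137438953472), (350442487808, 61874372608), (493921239040, 98784247808)] :=
  cov_of (fAD H BI0) (.n 2 (.n 0 (.n 1 (.n 0 (.l 0) (.l 0)) (.n 0 (.l 0) (.l 0))) (.n 1 (.n 0 (.l 0) (.l 0)) (.n 0 (.l 0) (.l 0)))) (.n 0 (.n 1 (.n 0 (.l 0) (.l 0)) (.n 0 (.l 0) (.l 0))) (.n 1 (.n 0 (.l 0) (.l 0)) (.n 0 (.l 0) (.l 0))))) [(1236950581248, 137438953472), (350442487808, 61874372608), (493921239040, 98784247808)] rfl (by decide +kernel)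
theorem I0AD_44 : CovD 0 [pAD H BI0] [(1511828488192, 137438953472), (226693742592, 61874372608), (493921239040, 98784247808)] :=
  cov_of (fAD H BI0) (.n 2 (.n 2 (.n 1 (.n 0 (.l 0) (.l 0)) (.n 0 (.l 0) (.l 0))) (.n 0 (.n 1 (.l 0) (.l 0)) (.n 1 (.l 0) (.l 0)))) (.n 0 (.n 1 (.n 0 (.l 0) (.l 0)) (.n 0 (.l 0) (.l 0))) (.n 1 (.n 0 (.l 0) (.l 0)) (.n 0 (.l 0) (.l 0))))) [(1511828488192, 137438953472), (226693742592, 61874372608), (493921239040, 98784247808)] rfl (by decide +kernel)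
end

mutual
theorem I0AD_45 : CovD 0 [pAD H BI0] [(1511828488192, 137438953472), (350442487808, 61874372608), (493921239040, 98784247808)] :=
  cov_of (fAD H BI0) (.n 2 (.n 1 (.n 0 (.n 0 (.l 0) (.l 0)) (.n 2 (.l 0) (.l 0))) (.n 0 (.n 0 (.l 0) (.l 0)) (.n 2 (.l 0) (.l 0)))) (.n 1 (.n 0 (.n 0 (.l 0) (.l 0)) (.n 0 (.l 0) (.l 0))) (.n 0 (.n 0 (.l 0) (.l 0)) (.n 0 (.l 0) (.l 0))))) [(1511828488192, 137438953472), (350442487808, 61874372608), (493921239040, 98784247808)] rfl (by decide +kernel)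
theorem I0AD_48 : CovD 0 [pAD H BI0] [(1236950581248, 137438953472), (226693742592, 61874372608), (691489734656, 98784247808)] :=
  cov_of (fAD H BI0) (.n 2 (.n 0 (.n 1 (.n 0 (.l 0) (.l 0)) (.n 0 (.l 0) (.l 0))) (.n 1 (.n 0 (.l 0) (.l 0)) (.n 0 (.l 0) (.l 0)))) (.n 0 (.n 1 (.n 0 (.l 0) (.l 0)) (.n 0 (.l 0) (.l 0))) (.n 1 (.n 0 (.l 0) (.l 0)) (.n 0 (.l 0) (.l 0))))) [(1236950581248, 137438953472), (226693742592, 61874372608), (691489734656, 98784247808)] rfl (by decide +kernel)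
end

mutual
theorem I0AD_49 : CovD 0 [pAD H BI0] [(1236950581248, 137438953472), (350442487808, 61874372608), (691489734656, 98784247808)] :=
  cov_of (fAD H BI0) (.n 2 (.n 0 (.n 1 (.n 0 (.l 0) (.l 0)) (.n 0 (.l 0) (.l 0))) (.n 1 (.n 0 (.l 0) (.l 0)) (.n 0 (.l 0) (.l 0)))) (.n 0 (.n 1 (.n 0 (.l 0) (.l 0)) (.n 2 (.l 0) (.l 0))) (.n 1 (.n 0 (.l 0) (.l 0)) (.n 2 (.l 0) (.l 0))))) [(1236950581248, 137438953472), (350442487808, 61874372608), (691489734656, 98784247808)] rfl (by decide +kernel)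
theorem I0AD_51 : CovD 0 [pAD H BI0] [(1511828488192, 137438953472), (288568115200, 123748745216), (642097610752, 49392123904)] :=
  cov_of (fAD H BI0) (.n 1 (.n 0 (.n 1 (.n 0 (.l 0) (.l 0)) (.n 0 (.l 0) (.l 0))) (.n 1 (.n 0 (.l 0) (.l 0)) (.n 0 (.l 0) (.l 0)))) (.n 0 (.n 1 (.n 0 (.l 0) (.l 0)) (.n 0 (.l 0) (.l 0))) (.n 1 (.n 0 (.l 0) (.l 0)) (.n 0 (.l 0) (.l 0))))) [(1511828488192, 137438953472), (288568115200, 123748745216), (642097610752, 49392123904)] rfl (by decide +kernel)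
end

mutual
theorem I0AD_52 : CovD 0 [pAD H BI0] [(1511828488192, 137438953472), (288568115200, 123748745216), (740881858560, 49392123904)] :=
  cov_of (fAD H BI0) (.n 1 (.n 0 (.n 2 (.n 0 (.l 0) (.l 0)) (.n 0 (.l 0) (.l 0))) (.n 2 (.n 0 (.l 0) (.l 0)) (.n 0 (.l 0) (.l 0)))) (.n 0 (.n 1 (.n 0 (.l 0) (.l 0)) (.n 2 (.l 0) (.l 0))) (.n 1 (.n 0 (.l 0) (.l 0)) (.n 0 (.l 0) (.l 0))))) [(1511828488192, 137438953472), (288568115200, 123748745216), (740881858560, 49392123904)] rfl (by decide +kernel)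
theorem I0AD_56 : CovD 0 [pAD H BI0] [(1236950581248, 137438953472), (474191233024, 61874372608), (493921239040, 98784247808)] :=
  cov_of (fAD H BI0) (.n 2 (.n 0 (.n 1 (.n 0 (.l 0) (.l 0)) (.n 0 (.l 0) (.l 0))) (.n 1 (.n 0 (.l 0) (.l 0)) (.n 0 (.l 0) (.l 0)))) (.n 0 (.n 1 (.n 0 (.l 0) (.l 0)) (.n 0 (.l 0) (.l 0))) (.n 1 (.n 0 (.l 0) (.l 0)) (.n 0 (.l 0) (.l 0))))) [(1236950581248, 137438953472), (474191233024, 61874372608), (493921239040, 98784247808)] rfl (by decide +kernel)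
end

end Pool.Agent.helper82.WC.S0K2
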