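import Pool.Agent.helper82.WH.Chks

/-!
Generated: constants of a cell.
-/

namespace Pool.Agent.helper82.WC.S0K2

open Pool.Agent.helper82.WH
open Pool.Agent.helper31.IC (CovD covD_split TD)

def H : HC := ⟨⟨1374389534720, 0⟩, ⟨154618822656, 0⟩, ⟨0, 109409533952⟩, ⟨0, 169782214656⟩, ⟨117643018240, 0⟩, ⟨0, 189441114112⟩, ⟨0, 5788467200⟩, ⟨36202020864, 0⟩, ⟨193815969792, 0⟩, ⟨0, 210699747328⟩, ⟨557662273536, 0⟩, ⟨51270320128, 0⟩, ⟨59434532864, 0⟩, ⟨142808842240, 0⟩, ⟨459251908608, 0⟩, ⟨0, 32272285696⟩, ⟨0, 336956686336⟩, ⟨0, 502649782272⟩, ⟨33060290560, 0⟩, ⟨160241942528, 0⟩, ⟨9259778048, 0⟩, ⟨1007657877504, 0⟩, ⟨0, 59995455488⟩, ⟨0, 277940666368⟩, ⟨0, 4705649360896⟩, ⟨7042446000128, 0⟩, ⟨0, 0⟩⟩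

def BI0 : BC := ⟨⟨0, 0, 1099511627776, 0⟩, ⟨0, 0⟩, ⟨0, 0⟩, 411129020416, 102383091712, 118644539392, 457213345792, 219901198336, 11878268928, 1735972093952, 1295268184064, ⟨5914169966592, 0⟩, ⟨0, 2907692859392⟩, ⟨680768634880, 0⟩, ⟨0, 0⟩, ⟨0, 0⟩⟩

def BR0 : BC := ⟨⟨0, 0, 0, 0⟩, ⟨137438953472, 0⟩, ⟨1099511627776, 0⟩, 487596883968, 119399710720, 79756394496, 405289238528, 219901198336, 6157238272, 1739109433344, 1297482776576, ⟨0, 0⟩, ⟨0, 0⟩, ⟨604719808512, 0⟩, ⟨0, 0⟩, ⟨0, 0⟩⟩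

def BP : BC := ⟨⟨0, 0, 0, 0⟩, ⟨137438953472, 0⟩, ⟨1099511627776, 0⟩, 380616704000, 97531527168, 81498537984, 309380317184, 219901198336, 4345298944, 1734596362240, 1294295105536, ⟨0, 0⟩, ⟨0, 0⟩, ⟨429564821504, 0⟩, ⟨0, 0⟩, ⟨1099511627776, 0⟩⟩

def BM : BC := ⟨⟨0, 0, 0, 0⟩, ⟨137438953472, 0⟩, ⟨1099511627776, 0⟩, 354788311040, 83984056320, 68403003392, 346067501056, 219901198336, 6157238272, 1739109433344, 1297482776576, ⟨0, 0⟩, ⟨0, 0⟩, ⟨447685525504, 0⟩, ⟨0, 0⟩, ⟨0, 1099511627776⟩⟩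

def BT : BC := ⟨⟨0, 0, 1099511627776, 0⟩, ⟨0, 0⟩, ⟨0, 0⟩, 267472142336, 79648194560, 120981028864, 356526653440, 219901198336, 11878268928, 1487501524992, 1120063717376, ⟨2379411881984, 0⟩, ⟨0, 2705829396480⟩, ⟨474188349440, 0⟩, ⟨1099511627776, 0⟩, ⟨0, 0⟩⟩

end Pool.Agent.helper82.WC.S0K2
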