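import Pool.Agent.helper82.WC.S0K3C0

/-!
Generated certificates, assembled.
-/

namespace Pool.Agent.helper82.WC.S0K3

open Pool.Agent.helper82.WH
open Pool.Agent.helper31.IC (CovD covD_split TD)

theorem I0AD_0 : CovD 0 [pAD H BI0] [(1374389534720, 274877906944), (769738670080, 109924319232), (137438953472, 137438953472)] :=
  covD_split 1 (by decide +kernel) I0AD_1 I0AD_2
theorem I0AD_4 : CovD 0 [pAD H BI0] [(1374389534720, 274877906944), (714776510464, 54962159616), (412316860416, 137438953472)] :=
  covD_split 2 (by decide +kernel) I0AD_5 I0AD_6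
theorem I0AD_7 : CovD 0 [pAD H BI0] [(1374389534720, 274877906944), (824700829696, 54962159616), (412316860416, 137438953472)] :=
  covD_split 2 (by decide +kernel) I0AD_8 I0AD_9
theorem I0AD_3 : CovD 0 [pAD H BI0] [(1374389534720, 274877906944), (769738670080, 109924319232), (412316860416, 137438953472)] :=
  covD_split 1 (by decide +kernel) I0AD_4 I0AD_7
theorem I0AD : CovD 0 [pAD H BI0] [(1374389534720, 274877906944), (769738670080, 109924319232), (274877906944, 274877906944)] :=
  covD_split 2 (by decide +kernel) I0AD_0 I0AD_3
theorem I0G : CovD 1 [pG H BI0] [(1374389534720, 274877906944), (769738670080, 109924319232), (274877906944, 274877906944)] :=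
  covD_split 2 (by decide +kernel) I0G_0 I0G_1
theorem I0RT_0 : CovD 1 [pRT H BI0] [(1374389534720, 274877906944), (769738670080, 109924319232), (137438953472, 137438953472)] :=
  covD_split 1 (by decide +kernel) I0RT_1 I0RT_2
theorem I0RT_3 : CovD 1 [pRT H BI0] [(1374389534720, 274877906944), (769738670080, 109924319232), (412316860416, 137438953472)] :=
  covD_split 2 (by decide +kernel) I0RT_4 I0RT_5
theorem I0RT : CovD 1 [pRT H BI0] [(1374389534720, 274877906944), (769738670080, 109924319232), (274877906944, 274877906944)] :=
  covD_split 2 (by decide +kernel) I0RT_0 I0RT_3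

end Pool.Agent.helper82.WC.S0K3
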