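import Pool.Agent.helper82.WH.Chks

/-!
Generated: constants of a cell.
-/

namespace Pool.Agent.helper82.WC.S0K3

open Pool.Agent.helper82.WH
open Pool.Agent.helper31.IC (CovD covD_split TD)

def H : HC := ⟨⟨1374389534720, 0⟩, ⟨538873430016, 0⟩, ⟨57200214016, 0⟩, ⟨0, 97633107968⟩, ⟨119847190528, 0⟩, ⟨0, 507748352000⟩, ⟨0, 73705324544⟩, ⟨0, 65980923904⟩, ⟨690558402560, 0⟩, ⟨0, 427297538048⟩, ⟨582118932480, 0⟩, ⟨137693626368, 0⟩, ⟨45287866368, 0⟩, ⟨98256617472, 0⟩, ⟨346991362048, 0⟩, ⟨0, 113977131008⟩, ⟨0, 325071011840⟩, ⟨0, 344698454016⟩, ⟨125031153664, 0⟩, ⟨211639468032, 0⟩, ⟨0, 81412816896⟩, ⟨1286774063104, 0⟩, ⟨63149572096, 0⟩, ⟨612623056896, 0⟩, ⟨0, 3553222656000⟩, ⟨1823515541504, 0⟩, ⟨0, 0⟩⟩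

def BI0 : BC := ⟨⟨0, 0, 1099511627776, 0⟩, ⟨0, 0⟩, ⟨0, 0⟩, 436036173824, 107919441920, 170402381824, 378307739648, 219901198336, 5670699008, 1361823399936, 1031446462464, ⟨5334349381632, 0⟩, ⟨0, 1632087572480⟩, ⟨654984347648, 0⟩, ⟨0, 0⟩, ⟨0, 0⟩⟩

def BR0 : BC := ⟨⟨0, 0, 0, 0⟩, ⟨76965806080, 0⟩, ⟨1099511627776, 0⟩, 319207571456, 87605051392, 253332094976, 432440737792, 219901198336, 5268045824, 1369524142080, 1036882280448, ⟨0, 0⟩, ⟨0, 0⟩, ⟨770515992576, 0⟩, ⟨0, 0⟩, ⟨0, 0⟩⟩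

def BP : BC := ⟨⟨0, 0, 0, 0⟩, ⟨76965806080, 0⟩, ⟨1099511627776, 0⟩, 203070504960, 57896665088, 179707248640, 276924858368, 219901198336, 3992977408, 1354374316032, 1026195193856, ⟨0, 0⟩, ⟨0, 0⟩, ⟨365773914112, 0⟩, ⟨0, 0⟩, ⟨1099511627776, 0⟩⟩

def BM : BC := ⟨⟨0, 0, 0, 0⟩, ⟨76965806080, 0⟩, ⟨1099511627776, 0⟩, 208608296960, 58111950848, 171862065152, 285460922368, 219901198336, 5268045824, 1369524142080, 1036882280448, ⟨0, 0⟩, ⟨0, 0⟩, ⟨375185473536, 0⟩, ⟨0, 0⟩, ⟨0, 1099511627776⟩⟩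

def BT : BC := ⟨⟨0, 0, 1099511627776, 0⟩, ⟨0, 0⟩, ⟨0, 0⟩, 220488663040, 49073422336, 151252369408, 271410135040, 219901198336, 5670699008, 1303405133824, 990258397184, ⟨4174708211712, 0⟩, ⟨0, 2508260900864⟩, ⟨344674205696, 0⟩, ⟨1099511627776, 0⟩, ⟨0, 0⟩⟩

end Pool.Agent.helper82.WC.S0K3
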