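import Pool.Agent.helper82.WC.S0K4C0

/-!
Generated certificates, assembled.
-/

namespace Pool.Agent.helper82.WC.S0K4

open Pool.Agent.helper82.WH
open Pool.Agent.helper31.IC (CovD covD_split TD)

theorem I0AD_0 : CovD 0 [pAD H BI0] [(1374389534720, 274877906944), (962139783168, 82476793856), (171798691840, 171798691840)] :=
  covD_split 2 (by decide +kernel) I0AD_1 I0AD_2
theorem I0AD_5 : CovD 0 [pAD H BI0] [(1374389534720, 274877906944), (1127093370880, 82476793856), (257698037760, 85899345920)] :=
  covD_split 0 (by decide +kernel) I0AD_6 I0AD_7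
theorem I0AD_3 : CovD 0 [pAD H BI0] [(1374389534720, 274877906944), (1127093370880, 82476793856), (171798691840, 171798691840)] :=
  covD_split 2 (by decide +kernel) I0AD_4 I0AD_5
theorem I0AD : CovD 0 [pAD H BI0] [(1374389534720, 274877906944), (1044616577024, 164953587712), (171798691840, 171798691840)] :=
  covD_split 1 (by decide +kernel) I0AD_0 I0AD_3
theorem I0RT : CovD 1 [pRT H BI0] [(1374389534720, 274877906944), (1044616577024, 164953587712), (171798691840, 171798691840)] :=
  covD_split 1 (by decide +kernel) I0RT_0 I0RT_1

end Pool.Agent.helper82.WC.S0K4
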