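import Pool.Agent.helper82.WH.Chks

/-!
Generated: constants of a cell.
-/

namespace Pool.Agent.helper82.WC.S0K4

open Pool.Agent.helper82.WH
open Pool.Agent.helper31.IC (CovD covD_split TD)

def H : HC := ⟨⟨1374389534720, 0⟩, ⟨992462241792, 0⟩, ⟨85906817024, 0⟩, ⟨0, 57016254464⟩, ⟨48922755072, 0⟩, ⟨0, 485179392000⟩, ⟨0, 8017477632⟩, ⟨0, 2249588736⟩, ⟨601529974784, 0⟩, ⟨0, 281885278208⟩, ⟨595223379968, 0⟩, ⟨203326029824, 0⟩, ⟨11292246016, 0⟩, ⟨43207688192, 0⟩, ⟨212657635328, 0⟩, ⟨0, 92666265600⟩, ⟨0, 265439870976⟩, ⟨0, 187584413696⟩, ⟨89966575616, 0⟩, ⟨223243927552, 0⟩, ⟨0, 102155812864⟩, ⟨1191294992384, 0⟩, ⟨0, 159295012864⟩, ⟨341240643584, 0⟩, ⟨0, 2136290820096⟩, ⟨687130804224, 0⟩, ⟨0, 0⟩⟩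

def BI0 : BC := ⟨⟨0, 0, 1099511627776, 0⟩, ⟨0, 0⟩, ⟨0, 0⟩, 449807908864, 108864798720, 192663977984, 342115090432, 219901198336, 3154116608, 1172358299648, 897849491456, ⟨4505420693504, 0⟩, ⟨0, 648540061696⟩, ⟨640812777472, 0⟩, ⟨0, 0⟩, ⟨0, 0⟩⟩

def BR0 : BC := ⟨⟨0, 0, 0, 0⟩, ⟨76965806080, 0⟩, ⟨1099511627776, 0⟩, 457900097536, 116172390400, 179507167232, 339885621248, 219901198336, 3087007744, 1179069186048, 902580666368, ⟨0, 0⟩, ⟨0, 0⟩, ⟨632874663936, 0⟩, ⟨0, 0⟩, ⟨0, 0⟩⟩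

def BP : BC := ⟨⟨0, 0, 0, 0⟩, ⟨76965806080, 0⟩, ⟨1099511627776, 0⟩, 257247936512, 62665195520, 218776403968, 274157993984, 219901198336, 2399141888, 1166385610752, 893638410240, ⟨0, 0⟩, ⟨0, 0⟩, ⟨407658692608, 0⟩, ⟨0, 0⟩, ⟨1099511627776, 0⟩⟩

def BM : BC := ⟨⟨0, 0, 0, 0⟩, ⟨76965806080, 0⟩, ⟨1099511627776, 0⟩, 236532531200, 62350295040, 219096154112, 282708410368, 219901198336, 3087007744, 1179069186048, 902580666368, ⟨0, 0⟩, ⟨0, 0⟩, ⟨411198357504, 0⟩, ⟨0, 0⟩, ⟨0, 1099511627776⟩⟩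

def BT : BC := ⟨⟨0, 0, 1099511627776, 0⟩, ⟨0, 0⟩, ⟨0, 0⟩, 264270249984, 59388133376, 138980163584, 122901757952, 219901198336, 3154116608, 1165093765120, 892732440576, ⟨4200478015488, 0⟩, ⟨0, 1236950581248⟩, ⟨174314749952, 0⟩, ⟨1099511627776, 0⟩, ⟨0, 0⟩⟩

end Pool.Agent.helper82.WC.S0K4
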