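import Pool.Agent.helper82.WH.Chks

/-!
Generated: constants of a cell.
-/

namespace Pool.Agent.helper82.WC.S0K5

open Pool.Agent.helper82.WH
open Pool.Agent.helper31.IC (CovD covD_split TD)

def H : HC := ⟨⟨1374389534720, 0⟩, ⟨1717986918400, 0⟩, ⟨23645126656, 0⟩, ⟨0, 42602987520⟩, ⟨42044096512, 0⟩, ⟨0, 127549308928⟩, ⟨14059503616, 0⟩, ⟨0, 12366839808⟩, ⟨94366203904, 0⟩, ⟨0, 25012600832⟩, ⟨702851514368, 0⟩, ⟨272372596736, 0⟩, ⟨43903352832, 0⟩, ⟨0, 413696065536⟩, ⟨50269782016, 0⟩, ⟨0, 161025753088⟩, ⟨358726369280, 0⟩, ⟨0, 65261469696⟩, ⟨91638988800, 0⟩, ⟨0, 166467207168⟩, ⟨19679543296, 0⟩, ⟨135406092288, 0⟩, ⟨0, 7933657088⟩, ⟨0, 82577653760⟩, ⟨0, 95987105792⟩, ⟨75906023424, 0⟩, ⟨0, 0⟩⟩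

def BI0 : BC := ⟨⟨0, 0, 1099511627776, 0⟩, ⟨0, 0⟩, ⟨0, 0⟩, 376395726848, 83269124096, 241961926656, 392150581248, 219901198336, 1493172224, 936151875584, 731285291008, ⟨3663607103488, 0⟩, ⟨0, 12884901888⟩, ⟨713605251072, 0⟩, ⟨0, 0⟩, ⟨0, 0⟩⟩

def BR0 : BC := ⟨⟨0, 0, 0, 0⟩, ⟨109951188992, 0⟩, ⟨1099511627776, 0⟩, 551045365760, 131205365760, 89241485312, 322284683264, 219901198336, 1795162112, 941772242944, 735244713984, ⟨0, 0⟩, ⟨0, 0⟩, ⟨541037101056, 0⟩, ⟨0, 0⟩, ⟨0, 0⟩⟩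

def BP : BC := ⟨⟨0, 0, 0, 0⟩, ⟨109951188992, 0⟩, ⟨1099511627776, 0⟩, 377447055360, 85032632320, 241656528896, 389676531712, 219901198336, 1291845632, 931521363968, 728030511104, ⟨0, 0⟩, ⟨0, 0⟩, ⟨712538193920, 0⟩, ⟨0, 0⟩, ⟨1099511627776, 0⟩⟩

def BM : BC := ⟨⟨0, 0, 0, 0⟩, ⟨109951188992, 0⟩, ⟨1099511627776, 0⟩, 371355615232, 84264943616, 241345495040, 396755992576, 219901198336, 1795162112, 941772242944, 735244713984, ⟨0, 0⟩, ⟨0, 0⟩, ⟨718645166080, 0⟩, ⟨0, 0⟩, ⟨0, 1099511627776⟩⟩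

def BT : BC := ⟨⟨0, 0, 1099511627776, 0⟩, ⟨0, 0⟩, ⟨0, 0⟩, 376399986688, 83270303744, 241965072384, 392142061568, 219901198336, 1493172224, 936151875584, 731285291008, ⟨3663607103488, 0⟩, ⟨0, 30064771072⟩, ⟨713600991232, 0⟩, ⟨1099511627776, 0⟩, ⟨0, 0⟩⟩

end Pool.Agent.helper82.WC.S0K5
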