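import Pool.Agent.helper82.WC.S0K6C0

/-!
Generated certificates, assembled.
-/

namespace Pool.Agent.helper82.WC.S0K6

open Pool.Agent.helper82.WH
open Pool.Agent.helper31.IC (CovD covD_split TD)

theorem R0AD_0 : CovD 0 [pAD H BR0] [(1374389534720, 274877906944), (1602559672320, 63350767616), (549755813888, 549755813888)] :=
  covD_split 0 (by decide +kernel) R0AD_1 R0AD_2
theorem R0AD_3 : CovD 0 [pAD H BR0] [(1374389534720, 274877906944), (1602559672320, 63350767616), (1649267441664, 549755813888)] :=
  covD_split 0 (by decide +kernel) R0AD_4 R0AD_5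
theorem R0AD : CovD 0 [pAD H BR0] [(1374389534720, 274877906944), (1602559672320, 63350767616), (1099511627776, 1099511627776)] :=
  covD_split 2 (by decide +kernel) R0AD_0 R0AD_3
theorem R0RT_1 : CovD 1 [pRT H BR0] [(1374389534720, 274877906944), (1602559672320, 63350767616), (1649267441664, 549755813888)] :=
  covD_split 0 (by decide +kernel) R0RT_2 R0RT_3
theorem R0RT : CovD 1 [pRT H BR0] [(1374389534720, 274877906944), (1602559672320, 63350767616), (1099511627776, 1099511627776)] :=
  covD_split 2 (by decide +kernel) R0RT_0 R0RT_1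

end Pool.Agent.helper82.WC.S0K6
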