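import Pool.Agent.helper82.WH.Chks

/-!
Generated: constants of a cell.
-/

namespace Pool.Agent.helper82.WC.S0K6

open Pool.Agent.helper82.WH
open Pool.Agent.helper31.IC (CovD covD_split TD)

def H : HC := ⟨⟨1374389534720, 0⟩, ⟨2335762022400, 0⟩, ⟨0, 10143465472⟩, ⟨0, 8282308608⟩, ⟨4343201792, 0⟩, ⟨0, 6504448000⟩, ⟨0, 11915952128⟩, ⟨15629877248, 0⟩, ⟨0, 2196111360⟩, ⟨0, 341442560⟩, ⟨251687141376, 0⟩, ⟨392463384576, 0⟩, ⟨0, 206060257280⟩, ⟨887337582592, 0⟩, ⟨0, 138790961152⟩, ⟨248365907968, 0⟩, ⟨0, 1067498078208⟩, ⟨11882987520, 0⟩, ⟨0, 80646963200⟩, ⟨501946187776, 0⟩, ⟨0, 87488004096⟩, ⟨1115427504128, 0⟩, ⟨0, 23391502336⟩, ⟨52834205696, 0⟩, ⟨0, 1555851575296⟩, ⟨580323180544, 0⟩, ⟨0, 0⟩⟩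

def BI0 : BC := ⟨⟨0, 0, 1099511627776, 0⟩, ⟨0, 0⟩, ⟨0, 0⟩, 386721251328, 84675592192, 239902392320, 382585405440, 219901198336, 1056964608, 744572846080, 596195147776, ⟨3298534883328, 0⟩, ⟨0, 12884901888⟩, ⟨703302074368, 0⟩, ⟨0, 0⟩, ⟨0, 0⟩⟩

def BR0 : BC := ⟨⟨0, 0, 0, 0⟩, ⟨137438953472, 0⟩, ⟨1099511627776, 0⟩, 481574322176, 110274871296, 89529712640, 412471590912, 219901198336, 1224736768, 749018808320, 599349264384, ⟨0, 0⟩, ⟨0, 0⟩, ⟨610676637696, 0⟩, ⟨0, 0⟩, ⟨0, 0⟩⟩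

def BP : BC := ⟨⟨0, 0, 0, 0⟩, ⟨137438953472, 0⟩, ⟨1099511627776, 0⟩, 372323713024, 86567747584, 244021788672, 390979911680, 219901198336, 973078528, 741569724416, 594081218560, ⟨0, 0⟩, ⟨0, 0⟩, ⟨717596327936, 0⟩, ⟨0, 0⟩, ⟨1099511627776, 0⟩⟩

def BM : BC := ⟨⟨0, 0, 0, 0⟩, ⟨137438953472, 0⟩, ⟨1099511627776, 0⟩, 385833566208, 86039986176, 240070361088, 381918773248, 219901198336, 1224736768, 749018808320, 599349264384, ⟨0, 0⟩, ⟨0, 0⟩, ⟨704169967616, 0⟩, ⟨0, 0⟩, ⟨0, 1099511627776⟩⟩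

def BT : BC := ⟨⟨0, 0, 1099511627776, 0⟩, ⟨0, 0⟩, ⟨0, 0⟩, 386724265984, 84669759488, 239904555008, 382586060800, 219901198336, 1056964608, 744572846080, 596195147776, ⟨3298534883328, 0⟩, ⟨0, 21474836480⟩, ⟨703299125248, 0⟩, ⟨1099511627776, 0⟩, ⟨0, 0⟩⟩

end Pool.Agent.helper82.WC.S0K6
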