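import Pool.Agent.helper82.WH.Chks

/-!
Generated: constants of a cell.
-/

namespace Pool.Agent.helper82.WC.S0K7

open Pool.Agent.helper82.WH
open Pool.Agent.helper31.IC (CovD covD_split TD)

def H : HC := ⟨⟨1374389534720, 0⟩, ⟨2680580997120, 0⟩, ⟨0, 11374166016⟩, ⟨0, 4912840704⟩, ⟨1706622976, 0⟩, ⟨2576351232, 0⟩, ⟨0, 9278455808⟩, ⟨12093947904, 0⟩, ⟨0, 5537333248⟩, ⟨433520640, 0⟩, ⟨280274010112, 0⟩, ⟨452988829696, 0⟩, ⟨0, 192557940736⟩, ⟨639796838400, 0⟩, ⟨0, 200329527296⟩, ⟨197776441344, 0⟩, ⟨0, 678156304384⟩, ⟨28544466944, 0⟩, ⟨0, 53603074048⟩, ⟨271788408832, 0⟩, ⟨0, 40368668672⟩, ⟨675892494336, 0⟩, ⟨0, 28812771328⟩, ⟨0, 92353396736⟩, ⟨0, 911250882560⟩, ⟨342000730112, 0⟩, ⟨0, 0⟩⟩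

def BI0 : BC := ⟨⟨0, 0, 1099511627776, 0⟩, ⟨0, 0⟩, ⟨0, 0⟩, 386102919168, 85664137216, 241070637056, 381065887744, 219901198336, 989855744, 681255632896, 551567753216, ⟨3161095929856, 0⟩, ⟨0, 8589934592⟩, ⟨703885869056, 0⟩, ⟨0, 0⟩, ⟨0, 0⟩⟩

def BR0 : BC := ⟨⟨0, 0, 0, 0⟩, ⟨137438953472, 0⟩, ⟨1099511627776, 0⟩, 422929039360, 97123565568, 88518361088, 485284118528, 219901198336, 1107296256, 684728516608, 554000449536, ⟨0, 0⟩, ⟨0, 0⟩, ⟨669440475136, 0⟩, ⟨0, 0⟩, ⟨0, 0⟩⟩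

def BP : BC := ⟨⟨0, 0, 0, 0⟩, ⟨137438953472, 0⟩, ⟨1099511627776, 0⟩, 386432303104, 86516498432, 238935801856, 382024876032, 219901198336, 939524096, 678789382144, 549822922752, ⟨0, 0⟩, ⟨0, 0⟩, ⟨703587221504, 0⟩, ⟨0, 0⟩, ⟨1099511627776, 0⟩⟩

def BM : BC := ⟨⟨0, 0, 0, 0⟩, ⟨137438953472, 0⟩, ⟨1099511627776, 0⟩, 394742202368, 89607110656, 236544262144, 372998340608, 219901198336, 1107296256, 684728516608, 554000449536, ⟨0, 0⟩, ⟨0, 0⟩, ⟨695285645312, 0⟩, ⟨0, 0⟩, ⟨0, 1099511627776⟩⟩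

def BT : BC := ⟨⟨0, 0, 1099511627776, 0⟩, ⟨0, 0⟩, ⟨0, 0⟩, 386078998528, 85656535040, 241082957824, 381085024256, 219901198336, 989855744, 681255632896, 551550976000, ⟨3161095929856, 0⟩, ⟨0, 17179869184⟩, ⟨703909527552, 0⟩, ⟨1099511627776, 0⟩, ⟨0, 0⟩⟩

end Pool.Agent.helper82.WC.S0K7
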