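import Pool.Agent.helper82.WC.S0bK0C0

/-!
Generated certificates, assembled.
-/

namespace Pool.Agent.helper82.WC.S0bK0

open Pool.Agent.helper82.WH
open Pool.Agent.helper31.IC (CovD covD_split TD)

theorem R0AD : CovD 0 [pAD H BR0, pX0] [(1236950581248, 137438953472), (1822676746240, 55029268480), (1099511627776, 1099511627776)] :=
  covD_split 2 (by decide +kernel) R0AD_0 R0AD_1
theorem R0RT : CovD 1 [pRT H BR0, pX1] [(1236950581248, 137438953472), (1822676746240, 55029268480), (1099511627776, 1099511627776)] :=
  covD_split 2 (by decide +kernel) R0RT_0 R0RT_1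

end Pool.Agent.helper82.WC.S0bK0
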