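import Pool.Agent.helper82.WH.Chks

/-!
Generated: constants of a cell.
-/

namespace Pool.Agent.helper82.WC.S0bK0

open Pool.Agent.helper82.WH
open Pool.Agent.helper31.IC (CovD covD_split TD)

def H : HC := ⟨⟨1236950581248, 0⟩, ⟨3021478297600, 0⟩, ⟨0, 15386542080⟩, ⟨0, 2422996992⟩, ⟨0, 2650996736⟩, ⟨14494924800, 0⟩, ⟨0, 7185301504⟩, ⟨9688449024, 0⟩, ⟨0, 9840099328⟩, ⟨1248329728, 0⟩, ⟨197640650752, 0⟩, ⟨443031027712, 0⟩, ⟨0, 187268071424⟩, ⟨577053655040, 0⟩, ⟨0, 172524699648⟩, ⟨167405617152, 0⟩, ⟨0, 502452256768⟩, ⟨22245146624, 0⟩, ⟨0, 39458963456⟩, ⟨167556218880, 0⟩, ⟨0, 20580270080⟩, ⟨107982749696, 0⟩, ⟨0, 24730075136⟩, ⟨0, 24416157696⟩, ⟨0, 81201922048⟩, ⟨28394455040, 0⟩, ⟨0, 0⟩⟩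

def BI0 : BC := ⟨⟨0, 0, 1099511627776, 0⟩, ⟨0, 0⟩, ⟨0, 0⟩, 384798490624, 82941706240, 235457282048, 390718357504, 219901198336, 922746880, 633541230592, 517912657920, ⟨3066606649344, 0⟩, ⟨0, 8589934592⟩, ⟨705330937856, 0⟩, ⟨0, 0⟩, ⟨0, 0⟩⟩

def BR0 : BC := ⟨⟨0, 0, 0, 0⟩, ⟨109951188992, 0⟩, ⟨1099511627776, 0⟩, 494609367040, 110893137920, 90623508480, 397781958656, 219901198336, 973078528, 635789377536, 519506493440, ⟨0, 0⟩, ⟨0, 0⟩, ⟨597621080064, 0⟩, ⟨0, 0⟩, ⟨0, 0⟩⟩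

def BP : BC := ⟨⟨0, 0, 0, 0⟩, ⟨109951188992, 0⟩, ⟨1099511627776, 0⟩, 393420668928, 82636177408, 231751614464, 386110586880, 219901198336, 905969664, 631880286208, 516738252800, ⟨0, 0⟩, ⟨0, 0⟩, ⟨696782356480, 0⟩, ⟨0, 0⟩, ⟨1099511627776, 0⟩⟩

def BM : BC := ⟨⟨0, 0, 0, 0⟩, ⟨109951188992, 0⟩, ⟨1099511627776, 0⟩, 393115926528, 83828211712, 232125104128, 384842203136, 219901198336, 973078528, 635789377536, 519506493440, ⟨0, 0⟩, ⟨0, 0⟩, ⟨697065930752, 0⟩, ⟨0, 0⟩, ⟨0, 1099511627776⟩⟩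

def BT : BC := ⟨⟨0, 0, 1099511627776, 0⟩, ⟨0, 0⟩, ⟨0, 0⟩, 384749666304, 82942558208, 235474649088, 390748897280, 219901198336, 922746880, 633524453376, 517912657920, ⟨3066606649344, 0⟩, ⟨0, 17179869184⟩, ⟨705379303424, 0⟩, ⟨1099511627776, 0⟩, ⟨0, 0⟩⟩

end Pool.Agent.helper82.WC.S0bK0
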