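import Pool.Agent.helper82.WH.Chks

/-!
Generated: constants of a cell.
-/

namespace Pool.Agent.helper82.WC.S0bK1

open Pool.Agent.helper82.WH
open Pool.Agent.helper31.IC (CovD covD_split TD)

def H : HC := ⟨⟨1236950581248, 0⟩, ⟨3455196921856, 0⟩, ⟨0, 25349259264⟩, ⟨0, 1476263936⟩, ⟨0, 4144758784⟩, ⟨31754354688, 0⟩, ⟨0, 4708892672⟩, ⟨7499612160, 0⟩, ⟨0, 17312776192⟩, ⟨2582904832, 0⟩, ⟨0, 53693054976⟩, ⟨465764614144, 0⟩, ⟨0, 217248759808⟩, ⟨937452044288, 0⟩, ⟨0, 183554932736⟩, ⟨174874558464, 0⟩, ⟨0, 692628619264⟩, ⟨23873912832, 0⟩, ⟨0, 36212965376⟩, ⟨209325654016, 0⟩, ⟨0, 23555866624⟩, ⟨394816454656, 0⟩, ⟨0, 15855714304⟩, ⟨22097559552, 0⟩, ⟨0, 341120319488⟩, ⟨79501066240, 0⟩, ⟨0, 0⟩⟩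

def BI0 : BC := ⟨⟨0, 0, 1099511627776, 0⟩, ⟨0, 0⟩, ⟨0, 0⟩, 515569811456, 71649394688, 188805152768, 317917036544, 219901198336, 905969664, 585541615616, 484073013248, ⟨2869038153728, 0⟩, ⟨0, 21474836480⟩, ⟨575510478848, 0⟩, ⟨0, 0⟩, ⟨0, 0⟩⟩

def BR0 : BC := ⟨⟨0, 0, 0, 0⟩, ⟨109951188992, 0⟩, ⟨1099511627776, 0⟩, 685584809984, 115584335872, 60263694336, 232525856768, 219901198336, 939524096, 587454218240, 485415190528, ⟨0, 0⟩, ⟨0, 0⟩, ⟨407027515392, 0⟩, ⟨0, 0⟩, ⟨0, 0⟩⟩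

def BP : BC := ⟨⟨0, 0, 0, 0⟩, ⟨109951188992, 0⟩, ⟨1099511627776, 0⟩, 366198915072, 28751167488, 67950804992, 99912777728, 219901198336, 889192448, 584300101632, 483183820800, ⟨0, 0⟩, ⟨0, 0⟩, ⟨127982501888, 0⟩, ⟨0, 0⟩, ⟨1099511627776, 0⟩⟩

def BM : BC := ⟨⟨0, 0, 0, 0⟩, ⟨109951188992, 0⟩, ⟨1099511627776, 0⟩, 485889015808, 63560351744, 57562300416, 73940533248, 219901198336, 939524096, 587454218240, 485415190528, ⟨0, 0⟩, ⟨0, 0⟩, ⟨129176961024, 0⟩, ⟨0, 0⟩, ⟨0, 1099511627776⟩⟩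

def BT : BC := ⟨⟨0, 0, 1099511627776, 0⟩, ⟨0, 0⟩, ⟨0, 0⟩, 515495690240, 71651753984, 188829794304, 317964091392, 219901198336, 905969664, 585541615616, 484073013248, ⟨2873333121024, 0⟩, ⟨0, 42949672960⟩, ⟨575584075776, 0⟩, ⟨1099511627776, 0⟩, ⟨0, 0⟩⟩

end Pool.Agent.helper82.WC.S0bK1
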