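import Pool.Agent.helper82.WH.Chks

/-!
Generated: constants of a cell.
-/

namespace Pool.Agent.helper82.WC.S0bK2

open Pool.Agent.helper82.WH
open Pool.Agent.helper31.IC (CovD covD_split TD)

def H : HC := ⟨⟨1236950581248, 0⟩, ⟨3917992689664, 0⟩, ⟨0, 5244125184⟩, ⟨205389824, 0⟩, ⟨0, 4257415168⟩, ⟨187891712, 0⟩, ⟨0, 3660775424⟩, ⟨5515182080, 0⟩, ⟨623050752, 0⟩, ⟨0, 528482304⟩, ⟨94017880064, 0⟩, ⟨416094748672, 0⟩, ⟨0, 150340108288⟩, ⟨526719975424, 0⟩, ⟨0, 118144696320⟩, ⟨96383139840, 0⟩, ⟨0, 343051796480⟩, ⟨6439632896, 0⟩, ⟨0, 15211167744⟩, ⟨87650271232, 0⟩, ⟨0, 8370651136⟩, ⟨141492682752, 0⟩, ⟨0, 1154744320⟩, ⟨0, 13040746496⟩, ⟨0, 112898998272⟩, ⟨26669809664, 0⟩, ⟨0, 0⟩⟩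

def BI0 : BC := ⟨⟨0, 0, 1099511627776, 0⟩, ⟨0, 0⟩, ⟨0, 0⟩, 560630595584, 67416948736, 172094652416, 293812109312, 219901198336, 889192448, 528851402752, 444092907520, ⟨2993592205312, 0⟩, ⟨25769803776, 0⟩, ⟨530760925184, 0⟩, ⟨0, 0⟩, ⟨0, 0⟩⟩

def BR0 : BC := ⟨⟨0, 0, 0, 0⟩, ⟨137438953472, 0⟩, ⟨1099511627776, 0⟩, 717144915968, 106621042688, 51972669440, 218229112832, 219901198336, 922746880, 530730450944, 445418307584, ⟨0, 0⟩, ⟨0, 0⟩, ⟨375641997312, 0⟩, ⟨0, 0⟩, ⟨0, 0⟩⟩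

def BP : BC := ⟨⟨0, 0, 0, 0⟩, ⟨137438953472, 0⟩, ⟨1099511627776, 0⟩, 576997949440, 66366668800, 165674876928, 284916711424, 219901198336, 889192448, 527727329280, 443304378368, ⟨0, 0⟩, ⟨0, 0⟩, ⟨514503802880, 0⟩, ⟨0, 0⟩, ⟨1099511627776, 0⟩⟩

def BM : BC := ⟨⟨0, 0, 0, 0⟩, ⟨137438953472, 0⟩, ⟨1099511627776, 0⟩, 574452137984, 68744380416, 166116982784, 284640215040, 219901198336, 922746880, 530730450944, 445418307584, ⟨0, 0⟩, ⟨0, 0⟩, ⟨517020844032, 0⟩, ⟨0, 0⟩, ⟨0, 1099511627776⟩⟩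

def BT : BC := ⟨⟨0, 0, 1099511627776, 0⟩, ⟨0, 0⟩, ⟨0, 0⟩, 560629612544, 67416686592, 172093931520, 293814075392, 219901198336, 889192448, 528834625536, 444092907520, ⟨2993592205312, 0⟩, ⟨47244640256, 0⟩, ⟨530761908224, 0⟩, ⟨1099511627776, 0⟩, ⟨0, 0⟩⟩

end Pool.Agent.helper82.WC.S0bK2
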