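import Pool.Agent.helper82.WC.S0bK3P

/-!
Generated certificates (in pairs, so that they are checked one after the other).
-/

namespace Pool.Agent.helper82.WC.S0bK3

open Pool.Agent.helper82.WH
open Pool.Agent.helper31.IC (CovD covD_split TD)

mutual
theorem I0AD : CovD 0 [pAD H BI0, pX0] [(1236950581248, 137438953472), (2201976045568, 71403831296), (8589934592, 8589934592)] :=
  cov_of (fADX H BI0) (.n 0 (.n 1 (.n 0 (.n 1 (.n 0 (.l 0) (.l 0)) (.n 0 (.l 0) (.l 0))) (.n 1 (.l 0) (.n 0 (.l 0) (.l 0)))) (.n 0 (.n 1 (.n 0 (.l 0) (.l 0)) (.n 0 (.l 0) (.l 0))) (.n 1 (.n 0 (.l 0) (.l 0)) (.l 0)))) (.n 1 (.n 0 (.n 1 (.l 0) (.l 0)) (.n 1 (.l 0) (.l 0))) (.n 0 (.n 1 (.l 0) (.l 0)) (.n 1 (.l 0) (.l 0))))) [(1236950581248, 137438953472), (2201976045568, 71403831296), (8589934592, 8589934592)] rfl (by decide +kernel)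
theorem I0G : CovD 1 [pG H BI0, pX1] [(1236950581248, 137438953472), (2201976045568, 71403831296), (8589934592, 8589934592)] :=
  cov_of (fGX H BI0) (.l 0) [(1236950581248, 137438953472), (2201976045568, 71403831296), (8589934592, 8589934592)] rfl (by decide +kernel)
end

mutual
theorem I0RT : CovD 1 [pRT H BI0, pX1] [(1236950581248, 137438953472), (2201976045568, 71403831296), (8589934592, 8589934592)] :=
  cov_of (fRTX H BI0) (.n 0 (.n 1 (.l 0) (.l 0)) (.n 1 (.l 0) (.l 0))) [(1236950581248, 137438953472), (2201976045568, 71403831296), (8589934592, 8589934592)] rfl (by decide +kernel)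
theorem R0AD_4 : CovD 0 [pAD H BR0, pX0] [(1168231104512, 68719476736), (2166274129920, 35701915648), (137438953472, 137438953472)] :=
  cov_of (fADX H BR0) (.n 0 (.n 1 (.n 0 (.n 2 (.l 0) (.l 0)) (.n 2 (.l 0) (.l 0))) (.n 1 (.n 0 (.n 2 (.l 0) (.l 0)) (.l 0)) (.n 0 (.n 2 (.l 0) (.l 0)) (.l 0)))) (.n 1 (.n 2 (.l 0) (.l 0)) (.n 1 (.n 2 (.l 0) (.l 0)) (.n 2 (.l 0) (.l 0))))) [(1168231104512, 68719476736), (2166274129920, 35701915648), (137438953472, 137438953472)] rfl (by decide +kernel)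
end

mutual
theorem R0AD_5 : CovD 0 [pAD H BR0, pX0] [(1305670057984, 68719476736), (2166274129920, 35701915648), (137438953472, 137438953472)] :=
  cov_of (fADX H BR0) (.n 0 (.n 1 (.n 2 (.l 0) (.l 0)) (.n 1 (.l 0) (.n 2 (.l 0) (.l 0)))) (.n 1 (.n 2 (.l 0) (.l 0)) (.n 2 (.l 0) (.l 0)))) [(1305670057984, 68719476736), (2166274129920, 35701915648), (137438953472, 137438953472)] rfl (by decide +kernel)
theorem R0AD_6 : CovD 0 [pAD H BR0, pX0] [(1236950581248, 137438953472), (2166274129920, 35701915648), (412316860416, 137438953472)] :=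
  cov_of (fADX H BR0) (.n 0 (.n 0 (.n 1 (.n 0 (.n 2 (.l 0) (.l 0)) (.l 0)) (.n 0 (.n 2 (.l 0) (.l 0)) (.n 2 (.l 0) (.l 0)))) (.n 1 (.n 2 (.l 0) (.l 0)) (.n 1 (.n 2 (.l 0) (.l 0)) (.n 2 (.l 0) (.l 0))))) (.n 0 (.n 1 (.l 0) (.n 2 (.l 0) (.l 0))) (.n 1 (.n 2 (.l 0) (.l 0)) (.n 2 (.l 0) (.l 0))))) [(1236950581248, 137438953472), (2166274129920, 35701915648), (412316860416, 137438953472)] rfl (by decide +kernel)
end

mutual
theorem R0AD_9 : CovD 0 [pAD H BR0, pX0] [(1168231104512, 68719476736), (2237677961216, 35701915648), (137438953472, 137438953472)] :=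
  cov_of (fADX H BR0) (.n 0 (.n 1 (.n 1 (.n 2 (.n 2 (.l 0) (.l 0)) (.n 2 (.l 0) (.l 0))) (.n 2 (.l 0) (.l 0))) (.n 2 (.n 0 (.n 2 (.l 0) (.l 0)) (.l 0)) (.n 0 (.l 0) (.l 0)))) (.n 1 (.n 2 (.n 0 (.l 0) (.l 0)) (.n 0 (.l 0) (.l 0))) (.n 1 (.n 2 (.l 0) (.l 0)) (.n 2 (.l 0) (.l 0))))) [(1168231104512, 68719476736), (2237677961216, 35701915648), (137438953472, 137438953472)] rfl (by decide +kernel)
theorem R0AD_10 : CovD 0 [pAD H BR0, pX0] [(1305670057984, 68719476736), (2237677961216, 35701915648), (137438953472, 137438953472)] :=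
  cov_of (fADX H BR0) (.n 0 (.n 1 (.n 2 (.n 0 (.l 0) (.l 0)) (.n 2 (.l 0) (.l 0))) (.n 1 (.n 2 (.l 0) (.l 0)) (.n 2 (.l 0) (.l 0)))) (.n 1 (.n 2 (.n 1 (.l 0) (.n 2 (.l 0) (.l 0))) (.n 0 (.l 0) (.l 0))) (.n 1 (.n 2 (.n 0 (.l 0) (.l 0)) (.l 0)) (.n 2 (.n 0 (.l 0) (.l 0)) (.l 0))))) [(1305670057984, 68719476736), (2237677961216, 35701915648), (137438953472, 137438953472)] rfl (by decide +kernel)
end

mutual
theorem R0AD_12 : CovD 0 [pAD H BR0, pX0] [(1168231104512, 68719476736), (2237677961216, 35701915648), (412316860416, 137438953472)] :=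
  cov_of (fADX H BR0) (.n 0 (.n 1 (.n 1 (.n 0 (.n 2 (.l 0) (.l 0)) (.l 0)) (.n 2 (.l 0) (.l 0))) (.n 1 (.n 2 (.l 0) (.l 0)) (.n 2 (.l 0) (.l 0)))) (.n 1 (.n 2 (.n 0 (.l 0) (.l 0)) (.n 0 (.l 0) (.l 0))) (.n 1 (.n 2 (.l 0) (.l 0)) (.n 2 (.l 0) (.l 0))))) [(1168231104512, 68719476736), (2237677961216, 35701915648), (412316860416, 137438953472)] rfl (by decide +kernel)
theorem R0AD_13 : CovD 0 [pAD H BR0, pX0] [(1305670057984, 68719476736), (2237677961216, 35701915648), (412316860416, 137438953472)] :=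
  cov_of (fADX H BR0) (.n 0 (.n 1 (.n 2 (.n 2 (.l 0) (.l 0)) (.n 2 (.l 0) (.l 0))) (.n 1 (.n 2 (.l 0) (.l 0)) (.n 2 (.l 0) (.l 0)))) (.n 1 (.n 1 (.n 2 (.l 0) (.l 0)) (.n 2 (.l 0) (.l 0))) (.n 1 (.n 2 (.l 0) (.l 0)) (.n 2 (.l 0) (.l 0))))) [(1305670057984, 68719476736), (2237677961216, 35701915648), (412316860416, 137438953472)] rfl (by decide +kernel)
end

mutual
theorem R0AD_16 : CovD 0 [pAD H BR0, pX0] [(1168231104512, 68719476736), (2166274129920, 35701915648), (824633720832, 274877906944)] :=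
  cov_of (fADX H BR0) (.n 0 (.n 2 (.n 1 (.n 0 (.n 2 (.l 0) (.l 0)) (.l 0)) (.n 0 (.n 1 (.l 0) (.l 0)) (.n 2 (.l 0) (.l 0)))) (.n 1 (.n 0 (.l 0) (.l 0)) (.n 0 (.n 2 (.l 0) (.l 0)) (.n 2 (.l 0) (.l 0))))) (.n 2 (.n 1 (.n 2 (.l 0) (.l 0)) (.n 0 (.n 2 (.l 0) (.l 0)) (.l 0))) (.n 1 (.l 0) (.n 0 (.l 0) (.l 0))))) [(1168231104512, 68719476736), (2166274129920, 35701915648), (824633720832, 274877906944)] rfl (by decide +kernel)
theorem R0AD_17 : CovD 0 [pAD H BR0, pX0] [(1305670057984, 68719476736), (2166274129920, 35701915648), (824633720832, 274877906944)] :=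
  cov_of (fADX H BR0) (.n 0 (.n 2 (.n 1 (.l 0) (.n 2 (.l 0) (.l 0))) (.n 1 (.l 0) (.n 2 (.l 0) (.l 0)))) (.n 2 (.n 1 (.n 2 (.l 0) (.l 0)) (.n 2 (.l 0) (.l 0))) (.n 1 (.n 2 (.l 0) (.l 0)) (.l 0)))) [(1305670057984, 68719476736), (2166274129920, 35701915648), (824633720832, 274877906944)] rfl (by decide +kernel)
end

mutual
theorem R0AD_20 : CovD 0 [pAD H BR0, pX0] [(1168231104512, 68719476736), (2219827003392, 17850957824), (824633720832, 274877906944)] :=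
  cov_of (fADX H BR0) (.n 0 (.n 2 (.n 1 (.n 0 (.n 2 (.l 0) (.l 0)) (.l 0)) (.n 0 (.l 0) (.l 0))) (.n 0 (.n 2 (.l 0) (.l 0)) (.n 2 (.l 0) (.l 0)))) (.n 2 (.n 0 (.n 2 (.l 0) (.l 0)) (.n 2 (.l 0) (.l 0))) (.n 0 (.n 2 (.l 0) (.l 0)) (.l 0)))) [(1168231104512, 68719476736), (2219827003392, 17850957824), (824633720832, 274877906944)] rfl (by decide +kernel)
theorem R0AD_21 : CovD 0 [pAD H BR0, pX0] [(1168231104512, 68719476736), (2255528919040, 17850957824), (824633720832, 274877906944)] :=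
  cov_of (fADX H BR0) (.n 0 (.n 2 (.n 1 (.n 2 (.l 0) (.l 0)) (.l 0)) (.n 1 (.l 0) (.l 0))) (.n 2 (.n 1 (.n 2 (.l 0) (.l 0)) (.l 0)) (.n 0 (.l 0) (.l 0)))) [(1168231104512, 68719476736), (2255528919040, 17850957824), (824633720832, 274877906944)] rfl (by decide +kernel)
end

mutual
theorem R0AD_22 : CovD 0 [pAD H BR0, pX0] [(1305670057984, 68719476736), (2237677961216, 35701915648), (824633720832, 274877906944)] :=
  cov_of (fADX H BR0) (.n 2 (.n 0 (.n 1 (.n 0 (.n 2 (.l 0) (.l 0)) (.n 2 (.l 0) (.l 0))) (.n 1 (.n 2 (.l 0) (.l 0)) (.l 0))) (.n 1 (.n 1 (.l 0) (.n 2 (.l 0) (.l 0))) (.n 1 (.n 2 (.l 0) (.l 0)) (.n 2 (.l 0) (.l 0))))) (.n 0 (.n 1 (.n 2 (.l 0) (.l 0)) (.n 2 (.l 0) (.l 0))) (.n 1 (.n 2 (.l 0) (.l 0)) (.n 2 (.l 0) (.l 0))))) [(1305670057984, 68719476736), (2237677961216, 35701915648), (824633720832, 274877906944)] rfl (by decide +kernel)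
theorem R0AD_25 : CovD 0 [pAD H BR0, pX0] [(1236950581248, 137438953472), (2166274129920, 35701915648), (1374389534720, 274877906944)] :=
  cov_of (fADX H BR0) (.n 0 (.n 0 (.n 2 (.n 1 (.n 2 (.l 0) (.l 0)) (.n 0 (.l 0) (.l 0))) (.n 1 (.l 0) (.n 2 (.l 0) (.l 0)))) (.n 2 (.n 1 (.l 0) (.n 2 (.l 0) (.l 0))) (.n 1 (.l 0) (.l 0)))) (.n 0 (.n 2 (.n 1 (.l 0) (.l 0)) (.n 1 (.l 0) (.l 0))) (.n 2 (.n 1 (.n 2 (.l 0) (.l 0)) (.l 0)) (.n 1 (.n 2 (.l 0) (.l 0)) (.l 0))))) [(1236950581248, 137438953472), (2166274129920, 35701915648), (1374389534720, 274877906944)] rfl (by decide +kernel)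
end

mutual
theorem R0AD_26 : CovD 0 [pAD H BR0, pX0] [(1236950581248, 137438953472), (2237677961216, 35701915648), (1374389534720, 274877906944)] :=
  cov_of (fADX H BR0) (.n 0 (.n 0 (.n 1 (.n 2 (.n 0 (.l 0) (.l 0)) (.n 2 (.l 0) (.l 0))) (.n 2 (.n 2 (.l 0) (.l 0)) (.l 0))) (.n 2 (.n 1 (.n 2 (.l 0) (.l 0)) (.n 2 (.l 0) (.l 0))) (.n 1 (.l 0) (.l 0)))) (.n 0 (.n 2 (.n 1 (.l 0) (.l 0)) (.n 1 (.l 0) (.l 0))) (.n 2 (.n 1 (.l 0) (.l 0)) (.n 1 (.l 0) (.l 0))))) [(1236950581248, 137438953472), (2237677961216, 35701915648), (1374389534720, 274877906944)] rfl (by decide +kernel)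
theorem R0AD_28 : CovD 0 [pAD H BR0, pX0] [(1236950581248, 137438953472), (2166274129920, 35701915648), (1924145348608, 274877906944)] :=
  cov_of (fADX H BR0) (.n 0 (.n 0 (.n 2 (.n 1 (.l 0) (.l 0)) (.n 2 (.l 0) (.l 0))) (.n 2 (.n 1 (.l 0) (.l 0)) (.n 1 (.l 0) (.l 0)))) (.n 0 (.n 2 (.n 1 (.l 0) (.l 0)) (.n 1 (.l 0) (.l 0))) (.n 2 (.n 1 (.n 0 (.l 0) (.l 0)) (.l 0)) (.n 1 (.n 0 (.l 0) (.l 0)) (.n 2 (.l 0) (.l 0)))))) [(1236950581248, 137438953472), (2166274129920, 35701915648), (1924145348608, 274877906944)] rfl (by decide +kernel)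
end

mutual
theorem R0AD_30 : CovD 0 [pAD H BR0, pX0] [(1168231104512, 68719476736), (2237677961216, 35701915648), (1924145348608, 274877906944)] :=
  cov_of (fADX H BR0) (.n 0 (.n 2 (.n 1 (.l 0) (.n 2 (.l 0) (.l 0))) (.n 1 (.l 0) (.n 0 (.l 0) (.l 0)))) (.n 2 (.n 1 (.l 0) (.n 2 (.l 0) (.l 0))) (.n 1 (.l 0) (.n 0 (.l 0) (.l 0))))) [(1168231104512, 68719476736), (2237677961216, 35701915648), (1924145348608, 274877906944)] rfl (by decide +kernel)
theorem R0AD_31 : CovD 0 [pAD H BR0, pX0] [(1305670057984, 68719476736), (2237677961216, 35701915648), (1924145348608, 274877906944)] :=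
  cov_of (fADX H BR0) (.n 0 (.n 2 (.n 1 (.l 0) (.n 2 (.l 0) (.l 0))) (.n 1 (.l 0) (.n 0 (.l 0) (.l 0)))) (.n 2 (.n 1 (.l 0) (.n 2 (.l 0) (.l 0))) (.n 1 (.n 2 (.l 0) (.l 0)) (.n 0 (.l 0) (.n 2 (.l 0) (.l 0)))))) [(1305670057984, 68719476736), (2237677961216, 35701915648), (1924145348608, 274877906944)] rfl (by decide +kernel)
end

mutual
theorem R0G : CovD 1 [pG H BR0, pX1] [(1236950581248, 137438953472), (2201976045568, 71403831296), (1099511627776, 1099511627776)] :=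
  cov_of (fGX H BR0) (.n 2 (.n 2 (.l 0) (.l 0)) (.l 0)) [(1236950581248, 137438953472), (2201976045568, 71403831296), (1099511627776, 1099511627776)] rfl (by decide +kernel)
theorem R0RT_1 : CovD 1 [pRT H BR0, pX1] [(1236950581248, 137438953472), (2201976045568, 71403831296), (274877906944, 274877906944)] :=
  cov_of (fRTX H BR0) (.n 1 (.n 0 (.n 2 (.l 0) (.n 2 (.l 0) (.l 0))) (.n 2 (.l 0) (.l 0))) (.n 2 (.n 0 (.n 2 (.l 0) (.l 0)) (.l 0)) (.n 0 (.n 2 (.l 0) (.l 0)) (.n 2 (.l 0) (.l 0))))) [(1236950581248, 137438953472), (2201976045568, 71403831296), (274877906944, 274877906944)] rfl (by decide +kernel)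
end

mutual
theorem R0RT_2 : CovD 1 [pRT H BR0, pX1] [(1236950581248, 137438953472), (2201976045568, 71403831296), (824633720832, 274877906944)] :=
  cov_of (fRTX H BR0) (.n 1 (.n 0 (.n 2 (.n 2 (.l 0) (.l 0)) (.n 1 (.l 0) (.l 0))) (.n 2 (.n 2 (.l 0) (.l 0)) (.n 2 (.l 0) (.l 0)))) (.n 0 (.n 2 (.n 2 (.l 0) (.l 0)) (.n 1 (.n 2 (.l 0) (.l 0)) (.n 2 (.l 0) (.l 0)))) (.n 2 (.n 2 (.l 0) (.l 0)) (.n 1 (.l 0) (.l 0))))) [(1236950581248, 137438953472), (2201976045568, 71403831296), (824633720832, 274877906944)] rfl (by decide +kernel)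
theorem R0RT_5 : CovD 1 [pRT H BR0, pX1] [(1236950581248, 137438953472), (2166274129920, 35701915648), (1374389534720, 274877906944)] :=
  cov_of (fRTX H BR0) (.n 0 (.n 2 (.n 1 (.n 2 (.l 0) (.l 0)) (.n 2 (.l 0) (.l 0))) (.n 1 (.n 0 (.l 0) (.l 0)) (.n 0 (.l 0) (.l 0)))) (.n 2 (.n 1 (.l 0) (.l 0)) (.n 1 (.n 2 (.l 0) (.l 0)) (.n 2 (.l 0) (.l 0))))) [(1236950581248, 137438953472), (2166274129920, 35701915648), (1374389534720, 274877906944)] rfl (by decide +kernel)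
end

mutual
theorem R0RT_6 : CovD 1 [pRT H BR0, pX1] [(1236950581248, 137438953472), (2237677961216, 35701915648), (1374389534720, 274877906944)] :=
  cov_of (fRTX H BR0) (.n 0 (.n 2 (.n 1 (.n 2 (.l 0) (.l 0)) (.n 2 (.l 0) (.l 0))) (.n 0 (.n 2 (.l 0) (.n 2 (.l 0) (.l 0))) (.n 2 (.l 0) (.l 0)))) (.n 2 (.n 1 (.n 2 (.l 0) (.l 0)) (.n 2 (.l 0) (.l 0))) (.n 1 (.n 2 (.l 0) (.l 0)) (.n 2 (.l 0) (.l 0))))) [(1236950581248, 137438953472), (2237677961216, 35701915648), (1374389534720, 274877906944)] rfl (by decide +kernel)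
theorem R0RT_9 : CovD 1 [pRT H BR0, pX1] [(1168231104512, 68719476736), (2166274129920, 35701915648), (1924145348608, 274877906944)] :=
  cov_of (fRTX H BR0) (.n 2 (.n 1 (.n 0 (.n 2 (.l 0) (.l 0)) (.l 0)) (.n 0 (.n 2 (.l 0) (.l 0)) (.l 0))) (.n 1 (.n 0 (.n 2 (.l 0) (.l 0)) (.n 2 (.l 0) (.l 0))) (.n 0 (.n 2 (.l 0) (.l 0)) (.n 2 (.l 0) (.l 0))))) [(1168231104512, 68719476736), (2166274129920, 35701915648), (1924145348608, 274877906944)] rfl (by decide +kernel)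
end

mutual
theorem R0RT_10 : CovD 1 [pRT H BR0, pX1] [(1168231104512, 68719476736), (2237677961216, 35701915648), (1924145348608, 274877906944)] :=
  cov_of (fRTX H BR0) (.n 2 (.n 0 (.n 2 (.n 2 (.l 0) (.l 0)) (.n 2 (.l 0) (.l 0))) (.n 2 (.l 0) (.n 2 (.l 0) (.l 0)))) (.n 0 (.n 2 (.n 2 (.l 0) (.l 0)) (.n 1 (.l 0) (.l 0))) (.n 2 (.n 2 (.l 0) (.l 0)) (.n 2 (.l 0) (.l 0))))) [(1168231104512, 68719476736), (2237677961216, 35701915648), (1924145348608, 274877906944)] rfl (by decide +kernel)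
theorem R0RT_11 : CovD 1 [pRT H BR0, pX1] [(1305670057984, 68719476736), (2201976045568, 71403831296), (1924145348608, 274877906944)] :=
  cov_of (fRTX H BR0) (.n 1 (.n 2 (.n 1 (.n 2 (.l 0) (.l 0)) (.n 2 (.l 0) (.l 0))) (.n 1 (.n 0 (.n 2 (.l 0) (.l 0)) (.l 0)) (.n 0 (.n 2 (.l 0) (.l 0)) (.l 0)))) (.n 2 (.n 1 (.n 2 (.l 0) (.l 0)) (.n 2 (.l 0) (.l 0))) (.n 1 (.n 0 (.n 2 (.l 0) (.l 0)) (.l 0)) (.n 0 (.n 2 (.l 0) (.l 0)) (.l 0))))) [(1305670057984, 68719476736), (2201976045568, 71403831296), (1924145348608, 274877906944)] rfl (by decide +kernel)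
end

mutual
theorem R0RS : CovD 1 [pRS H BR0, pX1] [(1236950581248, 137438953472), (2201976045568, 71403831296), (1099511627776, 1099511627776)] :=
  cov_of (fRSX H BR0) (.n 2 (.l 0) (.l 0)) [(1236950581248, 137438953472), (2201976045568, 71403831296), (1099511627776, 1099511627776)] rfl (by decide +kernel)
theorem PAD : CovD 0 [pAD H BP, pX0] [(1236950581248, 137438953472), (2201976045568, 71403831296), (2199023255552, 0)] :=
  cov_of (fADX H BP) (.n 0 (.n 0 (.n 1 (.l 0) (.n 0 (.l 0) (.l 0))) (.n 1 (.n 1 (.l 0) (.l 0)) (.n 0 (.l 0) (.n 1 (.l 0) (.l 0))))) (.n 0 (.n 1 (.n 1 (.l 0) (.l 0)) (.n 1 (.l 0) (.n 0 (.l 0) (.l 0)))) (.n 1 (.n 0 (.l 0) (.n 1 (.l 0) (.l 0))) (.n 1 (.l 0) (.n 0 (.l 0) (.l 0)))))) [(1236950581248, 137438953472), (2201976045568, 71403831296), (2199023255552, 0)] rfl (by decide +kernel)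
end

mutual
theorem PG : CovD 1 [pG H BP, pX1] [(1236950581248, 137438953472), (2201976045568, 71403831296), (2199023255552, 0)] :=
  cov_of (fGX H BP) (.l 0) [(1236950581248, 137438953472), (2201976045568, 71403831296), (2199023255552, 0)] rfl (by decide +kernel)
theorem PRT : CovD 1 [pRT H BP, pX1] [(1236950581248, 137438953472), (2201976045568, 71403831296), (2199023255552, 0)] :=
  cov_of (fRTX H BP) (.n 0 (.n 1 (.n 0 (.n 1 (.l 0) (.l 0)) (.n 1 (.l 0) (.l 0))) (.n 0 (.l 0) (.l 0))) (.n 1 (.n 0 (.l 0) (.l 0)) (.n 0 (.l 0) (.l 0)))) [(1236950581248, 137438953472), (2201976045568, 71403831296), (2199023255552, 0)] rfl (by decide +kernel)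
end

mutual
theorem PTT : CovD 1 [pTT H BP, pX1] [(1236950581248, 137438953472), (2201976045568, 71403831296), (2199023255552, 0)] :=
  cov_of (fTTX H BP) (.n 0 (.l 0) (.l 0)) [(1236950581248, 137438953472), (2201976045568, 71403831296), (2199023255552, 0)] rfl (by decide +kernel)
theorem MAD_0 : CovD 0 [pAD H BM, pX0] [(1168231104512, 68719476736), (2201976045568, 71403831296), (0, 0)] :=
  cov_of (fADX H BM) (.n 1 (.n 0 (.n 1 (.n 0 (.l 0) (.l 0)) (.n 0 (.l 0) (.l 0))) (.n 1 (.l 0) (.n 0 (.l 0) (.l 0)))) (.n 0 (.n 1 (.n 0 (.l 0) (.l 0)) (.n 0 (.l 0) (.l 0))) (.n 1 (.n 0 (.l 0) (.l 0)) (.n 0 (.l 0) (.l 0))))) [(1168231104512, 68719476736), (2201976045568, 71403831296), (0, 0)] rfl (by decide +kernel)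
end

mutual
theorem MAD_1 : CovD 0 [pAD H BM, pX0] [(1305670057984, 68719476736), (2201976045568, 71403831296), (0, 0)] :=
  cov_of (fADX H BM) (.n 1 (.n 0 (.n 1 (.l 0) (.l 0)) (.n 1 (.l 0) (.l 0))) (.n 0 (.n 1 (.l 0) (.n 0 (.l 0) (.l 0))) (.n 1 (.n 0 (.l 0) (.l 0)) (.n 1 (.l 0) (.l 0))))) [(1305670057984, 68719476736), (2201976045568, 71403831296), (0, 0)] rfl (by decide +kernel)
theorem MG : CovD 1 [pG H BM, pX1] [(1236950581248, 137438953472), (2201976045568, 71403831296), (0, 0)] :=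
  cov_of (fGX H BM) (.l 0) [(1236950581248, 137438953472), (2201976045568, 71403831296), (0, 0)] rfl (by decide +kernel)
end

mutual
theorem MRT : CovD 1 [pRT H BM, pX1] [(1236950581248, 137438953472), (2201976045568, 71403831296), (0, 0)] :=
  cov_of (fRTX H BM) (.n 0 (.l 0) (.l 0)) [(1236950581248, 137438953472), (2201976045568, 71403831296), (0, 0)] rfl (by decide +kernel)
theorem MTT : CovD 1 [pTT H BM, pX1] [(1236950581248, 137438953472), (2201976045568, 71403831296), (0, 0)] :=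
  cov_of (fTTX H BM) (.l 0) [(1236950581248, 137438953472), (2201976045568, 71403831296), (0, 0)] rfl (by decide +kernel)
end

end Pool.Agent.helper82.WC.S0bK3
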