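import Pool.Agent.helper82.WH.Chks

/-!
Generated: constants of a cell.
-/

namespace Pool.Agent.helper82.WC.S0bK3

open Pool.Agent.helper82.WH
open Pool.Agent.helper31.IC (CovD covD_split TD)

def H : HC := ⟨⟨1236950581248, 0⟩, ⟨4409865601024, 0⟩, ⟨0, 17978425344⟩, ⟨447741952, 0⟩, ⟨0, 4708171776⟩, ⟨17794269184, 0⟩, ⟨0, 2360410112⟩, ⟨4209180672, 0⟩, ⟨0, 6873284608⟩, ⟨694353920, 0⟩, ⟨0, 578617344⟩, ⟨389381750784, 0⟩, ⟨0, 202780049408⟩, ⟨546408628224, 0⟩, ⟨0, 97645953024⟩, ⟨121638813696, 0⟩, ⟨0, 299975704576⟩, ⟨4255776768, 0⟩, ⟨0, 17894080512⟩, ⟨65569161216, 0⟩, ⟨0, 5347868672⟩, ⟨161548468224, 0⟩, ⟨0, 925761536⟩, ⟨0, 15901720576⟩, ⟨0, 117567455232⟩, ⟨24268308480, 0⟩, ⟨0, 0⟩⟩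

def BI0 : BC := ⟨⟨0, 0, 1099511627776, 0⟩, ⟨0, 0⟩, ⟨0, 0⟩, 728578064384, 52282916864, 117958705152, 195157557248, 219901198336, 889192448, 488904851456, 415923961856, ⟨2555505541120, 0⟩, ⟨0, 21474836480⟩, ⟨363736596480, 0⟩, ⟨0, 0⟩, ⟨0, 0⟩⟩

def BR0 : BC := ⟨⟨0, 0, 0, 0⟩, ⟨137438953472, 0⟩, ⟨1099511627776, 0⟩, 868150673408, 69135368192, 33894629376, 122809679872, 219901198336, 905969664, 490448355328, 417014480896, ⟨0, 0⟩, ⟨0, 0⟩, ⟨225110261760, 0⟩, ⟨0, 0⟩, ⟨0, 0⟩⟩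

def BP : BC := ⟨⟨0, 0, 0, 0⟩, ⟨137438953472, 0⟩, ⟨1099511627776, 0⟩, 778114236416, 48535633920, 100533731328, 166799015936, 219901198336, 889192448, 488082767872, 415353536512, ⟨0, 0⟩, ⟨0, 0⟩, ⟨314460798976, 0⟩, ⟨0, 0⟩, ⟨1099511627776, 0⟩⟩

def BM : BC := ⟨⟨0, 0, 0, 0⟩, ⟨137438953472, 0⟩, ⟨1099511627776, 0⟩, 878409285632, 75574607872, 57919209472, 82095243264, 219901198336, 905969664, 490448355328, 417014480896, ⟨0, 0⟩, ⟨0, 0⟩, ⟨214518792192, 0⟩, ⟨0, 0⟩, ⟨0, 1099511627776⟩⟩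

def BT : BC := ⟨⟨0, 0, 1099511627776, 0⟩, ⟨0, 0⟩, ⟨0, 0⟩, 728580358144, 52275838976, 117960409088, 195160637440, 219901198336, 889192448, 488904851456, 415923961856, ⟨2555505541120, 0⟩, ⟨0, 38654705664⟩, ⟨363734302720, 0⟩, ⟨1099511627776, 0⟩, ⟨0, 0⟩⟩

end Pool.Agent.helper82.WC.S0bK3
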