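import Pool.Agent.helper82.WC.S0bK4C0
import Pool.Agent.helper82.WC.S0bK4C1

/-!
Generated certificates, assembled.
-/

namespace Pool.Agent.helper82.WC.S0bK4

open Pool.Agent.helper82.WH
open Pool.Agent.helper31.IC (CovD covD_split TD)

theorem R0AD_3 : CovD 0 [pAD H BR0, pX0] [(1168231104512, 68719476736), (2316195332096, 42815455232), (137438953472, 137438953472)] :=
  covD_split 1 (by decide +kernel) R0AD_4 R0AD_5
theorem R0AD_8 : CovD 0 [pAD H BR0, pX0] [(1305670057984, 68719476736), (2337603059712, 21407727616), (137438953472, 137438953472)] :=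
  covD_split 0 (by decide +kernel) R0AD_9 R0AD_10
theorem R0AD_6 : CovD 0 [pAD H BR0, pX0] [(1305670057984, 68719476736), (2316195332096, 42815455232), (137438953472, 137438953472)] :=
  covD_split 1 (by decide +kernel) R0AD_7 R0AD_8
theorem R0AD_2 : CovD 0 [pAD H BR0, pX0] [(1236950581248, 137438953472), (2316195332096, 42815455232), (137438953472, 137438953472)] :=
  covD_split 0 (by decide +kernel) R0AD_3 R0AD_6
theorem R0AD_12 : CovD 0 [pAD H BR0, pX0] [(1168231104512, 68719476736), (2316195332096, 42815455232), (412316860416, 137438953472)] :=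
  covD_split 1 (by decide +kernel) R0AD_13 R0AD_14
theorem R0AD_11 : CovD 0 [pAD H BR0, pX0] [(1236950581248, 137438953472), (2316195332096, 42815455232), (412316860416, 137438953472)] :=
  covD_split 0 (by decide +kernel) R0AD_12 R0AD_15
theorem R0AD_1 : CovD 0 [pAD H BR0, pX0] [(1236950581248, 137438953472), (2316195332096, 42815455232), (274877906944, 274877906944)] :=
  covD_split 2 (by decide +kernel) R0AD_2 R0AD_11
theorem R0AD_18 : CovD 0 [pAD H BR0, pX0] [(1168231104512, 68719476736), (2316195332096, 42815455232), (687194767360, 137438953472)] :=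
  covD_split 0 (by decide +kernel) R0AD_19 R0AD_20
theorem R0AD_17 : CovD 0 [pAD H BR0, pX0] [(1236950581248, 137438953472), (2316195332096, 42815455232), (687194767360, 137438953472)] :=
  covD_split 0 (by decide +kernel) R0AD_18 R0AD_21
theorem R0AD_23 : CovD 0 [pAD H BR0, pX0] [(1168231104512, 68719476736), (2316195332096, 42815455232), (962072674304, 137438953472)] :=
  covD_split 0 (by decide +kernel) R0AD_24 R0AD_25
theorem R0AD_22 : CovD 0 [pAD H BR0, pX0] [(1236950581248, 137438953472), (2316195332096, 42815455232), (962072674304, 137438953472)] :=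
  covD_split 0 (by decide +kernel) R0AD_23 R0AD_26
theorem R0AD_16 : CovD 0 [pAD H BR0, pX0] [(1236950581248, 137438953472), (2316195332096, 42815455232), (824633720832, 274877906944)] :=
  covD_split 2 (by decide +kernel) R0AD_17 R0AD_22
theorem R0AD_0 : CovD 0 [pAD H BR0, pX0] [(1236950581248, 137438953472), (2316195332096, 42815455232), (549755813888, 549755813888)] :=
  covD_split 2 (by decide +kernel) R0AD_1 R0AD_16
theorem R0AD_29 : CovD 0 [pAD H BR0, pX0] [(1168231104512, 68719476736), (2316195332096, 42815455232), (1374389534720, 274877906944)] :=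
  covD_split 2 (by decide +kernel) R0AD_30 R0AD_31
theorem R0AD_32 : CovD 0 [pAD H BR0, pX0] [(1305670057984, 68719476736), (2316195332096, 42815455232), (1374389534720, 274877906944)] :=
  covD_split 2 (by decide +kernel) R0AD_33 R0AD_34
theorem R0AD_28 : CovD 0 [pAD H BR0, pX0] [(1236950581248, 137438953472), (2316195332096, 42815455232), (1374389534720, 274877906944)] :=
  covD_split 0 (by decide +kernel) R0AD_29 R0AD_32
theorem R0AD_37 : CovD 0 [pAD H BR0, pX0] [(1305670057984, 68719476736), (2316195332096, 42815455232), (1924145348608, 274877906944)] :=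
  covD_split 0 (by decide +kernel) R0AD_38 R0AD_39
theorem R0AD_35 : CovD 0 [pAD H BR0, pX0] [(1236950581248, 137438953472), (2316195332096, 42815455232), (1924145348608, 274877906944)] :=
  covD_split 0 (by decide +kernel) R0AD_36 R0AD_37
theorem R0AD_27 : CovD 0 [pAD H BR0, pX0] [(1236950581248, 137438953472), (2316195332096, 42815455232), (1649267441664, 549755813888)] :=
  covD_split 2 (by decide +kernel) R0AD_28 R0AD_35
theorem R0AD : CovD 0 [pAD H BR0, pX0] [(1236950581248, 137438953472), (2316195332096, 42815455232), (1099511627776, 1099511627776)] :=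
  covD_split 2 (by decide +kernel) R0AD_0 R0AD_27
theorem R0RT_2 : CovD 1 [pRT H BR0, pX1] [(1236950581248, 137438953472), (2316195332096, 42815455232), (1374389534720, 274877906944)] :=
  covD_split 0 (by decide +kernel) R0RT_3 R0RT_4
theorem R0RT_8 : CovD 1 [pRT H BR0, pX1] [(1168231104512, 68719476736), (2316195332096, 42815455232), (2061584302080, 137438953472)] :=
  covD_split 1 (by decide +kernel) R0RT_9 R0RT_10
theorem R0RT_6 : CovD 1 [pRT H BR0, pX1] [(1168231104512, 68719476736), (2316195332096, 42815455232), (1924145348608, 274877906944)] :=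
  covD_split 2 (by decide +kernel) R0RT_7 R0RT_8
theorem R0RT_11 : CovD 1 [pRT H BR0, pX1] [(1305670057984, 68719476736), (2316195332096, 42815455232), (1924145348608, 274877906944)] :=
  covD_split 2 (by decide +kernel) R0RT_12 R0RT_13
theorem R0RT_5 : CovD 1 [pRT H BR0, pX1] [(1236950581248, 137438953472), (2316195332096, 42815455232), (1924145348608, 274877906944)] :=
  covD_split 0 (by decide +kernel) R0RT_6 R0RT_11
theorem R0RT_1 : CovD 1 [pRT H BR0, pX1] [(1236950581248, 137438953472), (2316195332096, 42815455232), (1649267441664, 549755813888)] :=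
  covD_split 2 (by decide +kernel) R0RT_2 R0RT_5
theorem R0RT : CovD 1 [pRT H BR0, pX1] [(1236950581248, 137438953472), (2316195332096, 42815455232), (1099511627776, 1099511627776)] :=
  covD_split 2 (by decide +kernel) R0RT_0 R0RT_1
theorem MAD : CovD 0 [pAD H BM, pX0] [(1236950581248, 137438953472), (2316195332096, 42815455232), (0, 0)] :=
  covD_split 0 (by decide +kernel) MAD_0 MAD_1

end Pool.Agent.helper82.WC.S0bK4
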