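import Pool.Agent.helper82.WH.Chks

/-!
Generated: constants of a cell.
-/

namespace Pool.Agent.helper82.WC.S0bK4

open Pool.Agent.helper82.WH
open Pool.Agent.helper31.IC (CovD covD_split TD)

def H : HC := ⟨⟨1236950581248, 0⟩, ⟨4879221522432, 0⟩, ⟨1455357952, 0⟩, ⟨1826881536, 0⟩, ⟨0, 4258922496⟩, ⟨0, 5024186368⟩, ⟨0, 2194472960⟩, ⟨3094937600, 0⟩, ⟨2349268992, 0⟩, ⟨0, 453378048⟩, ⟨419026567168, 0⟩, ⟨312573755392, 0⟩, ⟨0, 136075476992⟩, ⟨0, 84022394880⟩, ⟨0, 41748856832⟩, ⟨69407014912, 0⟩, ⟨36459511808, 0⟩, ⟨0, 4069851136⟩, ⟨0, 8425308160⟩, ⟨0, 11601838080⟩, ⟨1165557760, 0⟩, ⟨83022774272, 0⟩, ⟨989921280, 0⟩, ⟨0, 12123701248⟩, ⟨0, 49262886912⟩, ⟨8753774592, 0⟩, ⟨0, 0⟩⟩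

def BI0 : BC := ⟨⟨0, 0, 1099511627776, 0⟩, ⟨0, 0⟩, ⟨0, 0⟩, 742552829952, 47595716608, 112432578560, 191400116224, 219901198336, 889192448, 441509216256, 382503747584, ⟨2778843840512, 0⟩, ⟨64424509440, 0⟩, ⟨349872128000, 0⟩, ⟨0, 0⟩, ⟨0, 0⟩⟩

def BR0 : BC := ⟨⟨0, 0, 0, 0⟩, ⟨164926717952, 0⟩, ⟨1099511627776, 0⟩, 887987568640, 64041517056, 29839851520, 112125870080, 219901198336, 889192448, 443035942912, 383594266624, ⟨0, 0⟩, ⟨0, 0⟩, ⟨205352271872, 0⟩, ⟨0, 0⟩, ⟨0, 0⟩⟩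

def BP : BC := ⟨⟨0, 0, 0, 0⟩, ⟨164926717952, 0⟩, ⟨1099511627776, 0⟩, 786928828416, 44407455744, 97035485184, 165614583808, 219901198336, 872415232, 440838127616, 382033985536, ⟨0, 0⟩, ⟨0, 0⟩, ⟨305721442304, 0⟩, ⟨0, 0⟩, ⟨1099511627776, 0⟩⟩

def BM : BC := ⟨⟨0, 0, 0, 0⟩, ⟨164926717952, 0⟩, ⟨1099511627776, 0⟩, 902788546560, 67600318464, 48666247168, 74946117632, 219901198336, 889192448, 443035942912, 383594266624, ⟨0, 0⟩, ⟨0, 0⟩, ⟨190306189312, 0⟩, ⟨0, 0⟩, ⟨0, 1099511627776⟩⟩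

def BT : BC := ⟨⟨0, 0, 1099511627776, 0⟩, ⟨0, 0⟩, ⟨0, 0⟩, 742551846912, 47595454464, 112431857664, 191402147840, 219901198336, 889192448, 441509216256, 382503747584, ⟨2778843840512, 0⟩, ⟨124554051584, 0⟩, ⟨349873176576, 0⟩, ⟨1099511627776, 0⟩, ⟨0, 0⟩⟩

end Pool.Agent.helper82.WC.S0bK4
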