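import Pool.Agent.helper82.WC.S0bK5P

/-!
Generated certificates (in pairs, so that they are checked one after the other).
-/

namespace Pool.Agent.helper82.WC.S0bK5

open Pool.Agent.helper82.WH
open Pool.Agent.helper31.IC (CovD covD_split TD)

mutual
theorem PAD : CovD 0 [pAD H BP, pX0] [(1236950581248, 137438953472), (2401826242560, 42815455232), (2199023255552, 0)] :=
  cov_of (fADX H BP) (.n 0 (.n 0 (.n 0 (.l 0) (.n 1 (.l 0) (.l 0))) (.n 0 (.n 1 (.l 0) (.l 0)) (.n 1 (.l 0) (.l 0)))) (.n 0 (.n 1 (.n 0 (.l 0) (.n 1 (.l 0) (.l 0))) (.n 0 (.l 0) (.l 0))) (.n 0 (.n 1 (.n 0 (.l 0) (.l 1)) (.l 0)) (.l 1)))) [(1236950581248, 137438953472), (2401826242560, 42815455232), (2199023255552, 0)] rfl (by decide +kernel)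
theorem PG : CovD 1 [pG H BP, pX1] [(1236950581248, 137438953472), (2401826242560, 42815455232), (2199023255552, 0)] :=
  cov_of (fGX H BP) (.l 0) [(1236950581248, 137438953472), (2401826242560, 42815455232), (2199023255552, 0)] rfl (by decide +kernel)
end

mutual
theorem PRT : CovD 1 [pRT H BP, pX1] [(1236950581248, 137438953472), (2401826242560, 42815455232), (2199023255552, 0)] :=
  cov_of (fRTX H BP) (.n 0 (.n 0 (.n 1 (.n 0 (.l 0) (.l 0)) (.n 1 (.l 0) (.n 0 (.l 0) (.l 0)))) (.n 1 (.n 0 (.l 0) (.l 0)) (.n 1 (.l 0) (.n 0 (.l 0) (.l 0))))) (.n 1 (.n 0 (.l 0) (.l 0)) (.n 0 (.n 1 (.l 0) (.l 0)) (.l 1)))) [(1236950581248, 137438953472), (2401826242560, 42815455232), (2199023255552, 0)] rfl (by decide +kernel)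
theorem PTT : CovD 1 [pTT H BP, pX1] [(1236950581248, 137438953472), (2401826242560, 42815455232), (2199023255552, 0)] :=
  cov_of (fTTX H BP) (.n 0 (.l 0) (.l 0)) [(1236950581248, 137438953472), (2401826242560, 42815455232), (2199023255552, 0)] rfl (by decide +kernel)
end

mutual
theorem MAD_0 : CovD 0 [pAD H BM, pX0] [(1168231104512, 68719476736), (2401826242560, 42815455232), (0, 0)] :=
  cov_of (fADX H BM) (.n 0 (.n 1 (.n 0 (.n 1 (.l 0) (.l 0)) (.n 1 (.l 0) (.l 0))) (.n 1 (.n 0 (.l 0) (.l 0)) (.n 0 (.l 0) (.l 0)))) (.n 1 (.n 1 (.l 0) (.n 0 (.l 0) (.l 0))) (.n 1 (.n 0 (.l 0) (.l 0)) (.n 0 (.l 0) (.l 0))))) [(1168231104512, 68719476736), (2401826242560, 42815455232), (0, 0)] rfl (by decide +kernel)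
theorem MAD_1 : CovD 0 [pAD H BM, pX0] [(1305670057984, 68719476736), (2401826242560, 42815455232), (0, 0)] :=
  cov_of (fADX H BM) (.n 0 (.n 1 (.n 0 (.l 0) (.l 0)) (.n 0 (.n 1 (.l 0) (.l 0)) (.n 1 (.l 0) (.n 0 (.l 0) (.l 0))))) (.n 1 (.n 0 (.n 1 (.l 0) (.l 0)) (.l 1)) (.l 1))) [(1305670057984, 68719476736), (2401826242560, 42815455232), (0, 0)] rfl (by decide +kernel)
end

mutual
theorem MG : CovD 1 [pG H BM, pX1] [(1236950581248, 137438953472), (2401826242560, 42815455232), (0, 0)] :=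
  cov_of (fGX H BM) (.l 0) [(1236950581248, 137438953472), (2401826242560, 42815455232), (0, 0)] rfl (by decide +kernel)
theorem MRT : CovD 1 [pRT H BM, pX1] [(1236950581248, 137438953472), (2401826242560, 42815455232), (0, 0)] :=
  cov_of (fRTX H BM) (.n 0 (.l 0) (.l 0)) [(1236950581248, 137438953472), (2401826242560, 42815455232), (0, 0)] rfl (by decide +kernel)
end

mutual
theorem MTT : CovD 1 [pTT H BM, pX1] [(1236950581248, 137438953472), (2401826242560, 42815455232), (0, 0)] :=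
  cov_of (fTTX H BM) (.l 0) [(1236950581248, 137438953472), (2401826242560, 42815455232), (0, 0)] rfl (by decide +kernel)
theorem TAD : CovD 0 [pAD H BT, pX0] [(1236950581248, 137438953472), (2401826242560, 42815455232), (17179869184, 0)] :=
  cov_of (fADX H BT) (.n 0 (.n 0 (.n 1 (.n 0 (.n 1 (.l 0) (.l 0)) (.l 0)) (.n 0 (.n 1 (.l 0) (.l 0)) (.n 1 (.l 0) (.l 0)))) (.n 1 (.n 0 (.l 0) (.l 0)) (.n 0 (.n 1 (.l 0) (.l 0)) (.n 1 (.l 0) (.l 0))))) (.n 0 (.n 1 (.n 0 (.l 0) (.l 0)) (.n 0 (.n 1 (.l 0) (.l 0)) (.n 1 (.l 0) (.n 0 (.l 0) (.l 0))))) (.n 1 (.n 0 (.l 0) (.l 0)) (.l 1)))) [(1236950581248, 137438953472), (2401826242560, 42815455232), (17179869184, 0)] rfl (by decide +kernel)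
end

mutual
theorem TG : CovD 1 [pG H BT, pX1] [(1236950581248, 137438953472), (2401826242560, 42815455232), (17179869184, 0)] :=
  cov_of (fGX H BT) (.l 0) [(1236950581248, 137438953472), (2401826242560, 42815455232), (17179869184, 0)] rfl (by decide +kernel)
theorem TRT : CovD 1 [pRT H BT, pX1] [(1236950581248, 137438953472), (2401826242560, 42815455232), (17179869184, 0)] :=
  cov_of (fRTX H BT) (.n 0 (.n 0 (.l 0) (.l 0)) (.n 0 (.l 0) (.l 0))) [(1236950581248, 137438953472), (2401826242560, 42815455232), (17179869184, 0)] rfl (by decide +kernel)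
theorem TTT : CovD 1 [pTT H BT, pX1] [(1236950581248, 137438953472), (2401826242560, 42815455232), (17179869184, 0)] :=
  cov_of (fTTX H BT) (.l 0) [(1236950581248, 137438953472), (2401826242560, 42815455232), (17179869184, 0)] rfl (by decide +kernel)
end

end Pool.Agent.helper82.WC.S0bK5
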