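import Pool.Agent.helper82.WH.Chks

/-!
Generated: constants of a cell.
-/

namespace Pool.Agent.helper82.WC.S0bK5

open Pool.Agent.helper82.WH
open Pool.Agent.helper31.IC (CovD covD_split TD)

def H : HC := ⟨⟨1236950581248, 0⟩, ⟨5246665097216, 0⟩, ⟨1041432576, 0⟩, ⟨2883780608, 0⟩, ⟨0, 5130354688⟩, ⟨0, 3976790016⟩, ⟨0, 2105475072⟩, ⟨2846949376, 0⟩, ⟨1862402048, 0⟩, ⟨0, 337772544⟩, ⟨145382703104, 0⟩, ⟨340596948992, 0⟩, ⟨0, 168748122112⟩, ⟨213666627584, 0⟩, ⟨0, 56794939392⟩, ⟨79984525312, 0⟩, ⟨0, 90684456960⟩, ⟨0, 1179582464⟩, ⟨0, 9000058880⟩, ⟨13429506048, 0⟩, ⟨0, 717881344⟩, ⟨188633907200, 0⟩, ⟨3260481536, 0⟩, ⟨0, 11881938944⟩, ⟨0, 110692597760⟩, ⟨17456234496, 0⟩, ⟨0, 0⟩⟩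

def BI0 : BC := ⟨⟨0, 0, 1099511627776, 0⟩, ⟨0, 0⟩, ⟨0, 0⟩, 786926600192, 44939608064, 97755660288, 164365598720, 219901198336, 889192448, 415403868160, 364099141632, ⟨2774548873216, 0⟩, ⟨77309411328, 0⟩, ⟨305710497792, 0⟩, ⟨0, 0⟩, ⟨0, 0⟩⟩

def BR0 : BC := ⟨⟨0, 0, 0, 0⟩, ⟨137438953472, 0⟩, ⟨1099511627776, 0⟩, 877365690368, 57987629056, 29035593728, 129604059136, 219901198336, 889192448, 416410501120, 364803784704, ⟨0, 0⟩, ⟨0, 0⟩, ⟨216020221952, 0⟩, ⟨0, 0⟩, ⟨0, 0⟩⟩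

def BP : BC := ⟨⟨0, 0, 0, 0⟩, ⟨137438953472, 0⟩, ⟨1099511627776, 0⟩, 816777134080, 41714122752, 87517495296, 147981860864, 219901198336, 872415232, 414917328896, 363763597312, ⟨0, 0⟩, ⟨0, 0⟩, ⟨276012990464, 0⟩, ⟨0, 0⟩, ⟨1099511627776, 0⟩⟩

def BM : BC := ⟨⟨0, 0, 0, 0⟩, ⟨137438953472, 0⟩, ⟨1099511627776, 0⟩, 863496110080, 80476110848, 59281768448, 90745405440, 219901198336, 889192448, 416410501120, 364803784704, ⟨0, 0⟩, ⟨0, 0⟩, ⟨229381177344, 0⟩, ⟨0, 0⟩, ⟨0, 1099511627776⟩⟩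

def BT : BC := ⟨⟨0, 0, 1099511627776, 0⟩, ⟨0, 0⟩, ⟨0, 0⟩, 786925944832, 44939476992, 97755136000, 164366909440, 219901198336, 889192448, 415403868160, 364099141632, ⟨2774548873216, 0⟩, ⟨154618822656, 0⟩, ⟨305711153152, 0⟩, ⟨1099511627776, 0⟩, ⟨0, 0⟩⟩

end Pool.Agent.helper82.WC.S0bK5
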