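import Pool.Agent.helper82.WC.S0bK6C0

/-!
Generated certificates, assembled.
-/

namespace Pool.Agent.helper82.WC.S0bK6

open Pool.Agent.helper82.WH
open Pool.Agent.helper31.IC (CovD covD_split TD)

theorem R0AD_2 : CovD 0 [pAD H BR0, pX0] [(1236950581248, 137438953472), (2460076736512, 15435038720), (137438953472, 137438953472)] :=
  covD_split 0 (by decide +kernel) R0AD_3 R0AD_4
theorem R0AD_1 : CovD 0 [pAD H BR0, pX0] [(1236950581248, 137438953472), (2460076736512, 15435038720), (274877906944, 274877906944)] :=
  covD_split 2 (by decide +kernel) R0AD_2 R0AD_5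
theorem R0AD_6 : CovD 0 [pAD H BR0, pX0] [(1236950581248, 137438953472), (2460076736512, 15435038720), (824633720832, 274877906944)] :=
  covD_split 0 (by decide +kernel) R0AD_7 R0AD_8
theorem R0AD_0 : CovD 0 [pAD H BR0, pX0] [(1236950581248, 137438953472), (2460076736512, 15435038720), (549755813888, 549755813888)] :=
  covD_split 2 (by decide +kernel) R0AD_1 R0AD_6
theorem R0AD_9 : CovD 0 [pAD H BR0, pX0] [(1236950581248, 137438953472), (2460076736512, 15435038720), (1649267441664, 549755813888)] :=
  covD_split 2 (by decide +kernel) R0AD_10 R0AD_11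
theorem R0AD : CovD 0 [pAD H BR0, pX0] [(1236950581248, 137438953472), (2460076736512, 15435038720), (1099511627776, 1099511627776)] :=
  covD_split 2 (by decide +kernel) R0AD_0 R0AD_9
theorem R0RT : CovD 1 [pRT H BR0, pX1] [(1236950581248, 137438953472), (2460076736512, 15435038720), (1099511627776, 1099511627776)] :=
  covD_split 2 (by decide +kernel) R0RT_0 R0RT_1

end Pool.Agent.helper82.WC.S0bK6
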