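import Pool.Agent.helper82.WH.Chks

/-!
Generated: constants of a cell.
-/

namespace Pool.Agent.helper82.WC.S0bK6

open Pool.Agent.helper82.WH
open Pool.Agent.helper31.IC (CovD covD_split TD)

def H : HC := ⟨⟨1236950581248, 0⟩, ⟨5504241500160, 0⟩, ⟨12809207808, 0⟩, ⟨4290379776, 0⟩, ⟨0, 6709903360⟩, ⟨0, 14260633600⟩, ⟨0, 2304376832⟩, ⟨3023896576, 0⟩, ⟨4843175936, 0⟩, ⟨0, 597098496⟩, ⟨562717655040, 0⟩, ⟨258253520896, 0⟩, ⟨0, 164395614208⟩, ⟨0, 271351021568⟩, ⟨0, 10940579840⟩, ⟨75848089600, 0⟩, ⟨113751883776, 0⟩, ⟨0, 6596263936⟩, ⟨0, 8392081408⟩, ⟨0, 23899406336⟩, ⟨1795883008, 0⟩, ⟨312669896704, 0⟩, ⟨0, 2956197888⟩, ⟨6977814528, 0⟩, ⟨0, 161030340608⟩, ⟨21382103040, 0⟩, ⟨0, 0⟩⟩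

def BI0 : BC := ⟨⟨0, 0, 1099511627776, 0⟩, ⟨0, 0⟩, ⟨0, 0⟩, 584842215424, 60543139840, 162193604608, 286392254464, 219901198336, 872415232, 390858801152, 346785054720, ⟨2761663971328, 0⟩, ⟨103079215104, 0⟩, ⟨506766229504, 0⟩, ⟨0, 0⟩, ⟨0, 0⟩⟩

def BR0 : BC := ⟨⟨0, 0, 0, 0⟩, ⟨137438953472, 0⟩, ⟨1099511627776, 0⟩, 790467772416, 100266278912, 42902880256, 160352567296, 219901198336, 889192448, 391747993600, 347422588928, ⟨0, 0⟩, ⟨0, 0⟩, ⟨302479376384, 0⟩, ⟨0, 0⟩, ⟨0, 0⟩⟩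

def BP : BC := ⟨⟨0, 0, 0, 0⟩, ⟨137438953472, 0⟩, ⟨1099511627776, 0⟩, 626290524160, 58428948480, 148098777088, 261156765696, 219901198336, 872415232, 390456147968, 346499842048, ⟨0, 0⟩, ⟨0, 0⟩, ⟨465547427840, 0⟩, ⟨0, 0⟩, ⟨1099511627776, 0⟩⟩

def BM : BC := ⟨⟨0, 0, 0, 0⟩, ⟨137438953472, 0⟩, ⟨1099511627776, 0⟩, 630872145920, 57707462656, 147121504256, 258273443840, 219901198336, 889192448, 391747993600, 347422588928, ⟨0, 0⟩, ⟨0, 0⟩, ⟨460986384384, 0⟩, ⟨0, 0⟩, ⟨0, 1099511627776⟩⟩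

def BT : BC := ⟨⟨0, 0, 1099511627776, 0⟩, ⟨0, 0⟩, ⟨0, 0⟩, 584841887744, 60543008768, 162193408000, 286392909824, 219901198336, 872415232, 390858801152, 346785054720, ⟨2761663971328, 0⟩, ⟨210453397504, 0⟩, ⟨506766557184, 0⟩, ⟨1099511627776, 0⟩, ⟨0, 0⟩⟩

end Pool.Agent.helper82.WC.S0bK6
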