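import Pool.Agent.helper82.WH.Chks

/-!
Generated: constants of a cell.
-/

namespace Pool.Agent.helper82.WC.S0bK7

open Pool.Agent.helper82.WH
open Pool.Agent.helper31.IC (CovD covD_split TD)

def H : HC := ⟨⟨1236950581248, 0⟩, ⟨5664552321024, 0⟩, ⟨12968853504, 0⟩, ⟨3945857024, 0⟩, ⟨0, 6274678784⟩, ⟨0, 13766885376⟩, ⟨0, 2027945984⟩, ⟨2705391616, 0⟩, ⟨4504813568, 0⟩, ⟨0, 532283392⟩, ⟨558732935168, 0⟩, ⟨256724828160, 0⟩, ⟨0, 168491286528⟩, ⟨0, 264663531520⟩, ⟨0, 12012027904⟩, ⟨75200266240, 0⟩, ⟨107090214912, 0⟩, ⟨0, 5917573120⟩, ⟨0, 8021147648⟩, ⟨0, 21643526144⟩, ⟨1563361280, 0⟩, ⟨402840813568, 0⟩, ⟨0, 2133524480⟩, ⟨0, 15148318720⟩, ⟨0, 216031559680⟩, ⟨29658841088, 0⟩, ⟨0, 0⟩⟩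

def BI0 : BC := ⟨⟨0, 0, 1099511627776, 0⟩, ⟨0, 0⟩, ⟨0, 0⟩, 596819509248, 59951677440, 158704009216, 278497984512, 219901198336, 872415232, 382419861504, 340845920256, ⟨2731599200256, 0⟩, ⟨120259084288, 0⟩, ⟨494847066112, 0⟩, ⟨0, 0⟩, ⟨0, 0⟩⟩

def BR0 : BC := ⟨⟨0, 0, 0, 0⟩, ⟨137438953472, 0⟩, ⟨1099511627776, 0⟩, 852476166144, 70200000512, 32524795904, 138792337408, 219901198336, 889192448, 383241945088, 341416345600, ⟨0, 0⟩, ⟨0, 0⟩, ⟨240794271744, 0⟩, ⟨0, 0⟩, ⟨0, 0⟩⟩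

def BP : BC := ⟨⟨0, 0, 0, 0⟩, ⟨137438953472, 0⟩, ⟨1099511627776, 0⟩, 727274291200, 48209788928, 115863846912, 202636460032, 219901198336, 872415232, 382033985536, 340577484800, ⟨0, 0⟩, ⟨0, 0⟩, ⟨365100007424, 0⟩, ⟨0, 0⟩, ⟨1099511627776, 0⟩⟩

def BM : BC := ⟨⟨0, 0, 0, 0⟩, ⟨137438953472, 0⟩, ⟨1099511627776, 0⟩, 756997095424, 44738936832, 107004493824, 185245761536, 219901198336, 889192448, 383241945088, 341416345600, ⟨0, 0⟩, ⟨0, 0⟩, ⟨335521054720, 0⟩, ⟨0, 0⟩, ⟨0, 1099511627776⟩⟩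

def BT : BC := ⟨⟨0, 0, 1099511627776, 0⟩, ⟨0, 0⟩, ⟨0, 0⟩, 596819509248, 59951677440, 158704009216, 278497984512, 219901198336, 872415232, 382419861504, 340845920256, ⟨2731599200256, 0⟩, ⟨240518168576, 0⟩, ⟨494847066112, 0⟩, ⟨1099511627776, 0⟩, ⟨0, 0⟩⟩

end Pool.Agent.helper82.WC.S0bK7
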