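import Pool.Agent.helper82.WC.S0cK0P

/-!
Generated certificates (in pairs, so that they are checked one after the other).
-/

namespace Pool.Agent.helper82.WC.S0cK0

open Pool.Agent.helper82.WH
open Pool.Agent.helper31.IC (CovD covD_split TD)

mutual
theorem R0RT_22 : CovD 1 [pRT H BR0, pX1] [(1133871366144, 34359738368), (2583187947520, 9630121984), (1821066133504, 34359738368)] :=
  cov_of (fRTX H BR0) (.n 0 (.n 1 (.n 2 (.l 0) (.l 0)) (.n 2 (.n 1 (.l 0) (.n 0 (.n 2 (.l 0) (.l 0)) (.l 0))) (.n 0 (.n 1 (.l 0) (.n 2 (.l 0) (.l 0))) (.n 2 (.l 0) (.l 0))))) (.n 1 (.l 0) (.n 2 (.n 0 (.l 0) (.l 0)) (.n 0 (.n 2 (.l 0) (.l 0)) (.l 0))))) [(1133871366144, 34359738368), (2583187947520, 9630121984), (1821066133504, 34359738368)] rfl (by decide +kernel)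
theorem R0RT_23 : CovD 1 [pRT H BR0, pX1] [(1133871366144, 34359738368), (2583187947520, 9630121984), (1889785610240, 34359738368)] :=
  cov_of (fRTX H BR0) (.n 0 (.n 1 (.n 2 (.l 0) (.l 0)) (.n 2 (.n 0 (.n 1 (.l 0) (.n 2 (.l 0) (.n 0 (.l 0) (.l 0)))) (.n 1 (.l 0) (.n 2 (.l 0) (.l 0)))) (.n 0 (.n 1 (.l 0) (.n 1 (.l 0) (.n 2 (.l 0) (.l 0)))) (.n 1 (.l 0) (.n 2 (.l 0) (.l 0)))))) (.n 1 (.n 2 (.l 0) (.l 0)) (.n 2 (.n 0 (.n 2 (.l 0) (.l 0)) (.l 0)) (.n 0 (.n 2 (.l 0) (.l 0)) (.l 0))))) [(1133871366144, 34359738368), (2583187947520, 9630121984), (1889785610240, 34359738368)] rfl (by decide +kernel)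
end

mutual
theorem R0RT_25 : CovD 1 [pRT H BR0, pX1] [(1202590842880, 34359738368), (2535037337600, 19260243968), (1786706395136, 137438953472)] :=
  cov_of (fRTX H BR0) (.n 2 (.n 1 (.l 0) (.l 0)) (.n 1 (.l 0) (.n 2 (.l 0) (.l 0)))) [(1202590842880, 34359738368), (2535037337600, 19260243968), (1786706395136, 137438953472)] rfl (by decide +kernel)
theorem R0RT_27 : CovD 1 [pRT H BR0, pX1] [(1202590842880, 34359738368), (2573557825536, 19260243968), (1717986918400, 68719476736)] :=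
  cov_of (fRTX H BR0) (.n 1 (.n 0 (.n 2 (.l 0) (.l 0)) (.l 0)) (.n 2 (.n 0 (.n 1 (.l 0) (.n 2 (.l 0) (.l 0))) (.n 1 (.l 0) (.l 0))) (.n 0 (.n 1 (.l 0) (.n 2 (.l 0) (.l 0))) (.n 1 (.l 0) (.n 2 (.l 0) (.l 0)))))) [(1202590842880, 34359738368), (2573557825536, 19260243968), (1717986918400, 68719476736)] rfl (by decide +kernel)
end

mutual
theorem R0RT_28 : CovD 1 [pRT H BR0, pX1] [(1202590842880, 34359738368), (2573557825536, 19260243968), (1855425871872, 68719476736)] :=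
  cov_of (fRTX H BR0) (.n 1 (.n 0 (.n 2 (.l 0) (.l 0)) (.n 2 (.l 0) (.l 0))) (.n 2 (.n 0 (.n 1 (.l 0) (.n 1 (.l 0) (.n 2 (.l 0) (.l 0)))) (.n 1 (.l 0) (.n 2 (.l 0) (.l 0)))) (.n 0 (.n 1 (.l 0) (.n 1 (.l 0) (.n 2 (.l 0) (.l 0)))) (.n 1 (.l 0) (.n 2 (.l 0) (.l 0)))))) [(1202590842880, 34359738368), (2573557825536, 19260243968), (1855425871872, 68719476736)] rfl (by decide +kernel)
theorem R0RT_32 : CovD 1 [pRT H BR0, pX1] [(1133871366144, 34359738368), (2535037337600, 19260243968), (1992864825344, 68719476736)] :=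
  cov_of (fRTX H BR0) (.n 1 (.n 0 (.n 2 (.l 0) (.l 0)) (.n 2 (.l 0) (.l 0))) (.n 0 (.n 1 (.l 0) (.n 2 (.l 0) (.l 0))) (.n 2 (.l 0) (.l 0)))) [(1133871366144, 34359738368), (2535037337600, 19260243968), (1992864825344, 68719476736)] rfl (by decide +kernel)
end

mutual
theorem R0RT_33 : CovD 1 [pRT H BR0, pX1] [(1133871366144, 34359738368), (2535037337600, 19260243968), (2130303778816, 68719476736)] :=
  cov_of (fRTX H BR0) (.n 1 (.n 0 (.n 1 (.n 2 (.l 0) (.n 2 (.l 0) (.l 0))) (.n 2 (.l 0) (.l 0))) (.n 2 (.l 0) (.n 1 (.l 0) (.l 0)))) (.n 0 (.n 1 (.n 2 (.l 0) (.l 0)) (.n 2 (.l 0) (.n 2 (.l 0) (.l 0)))) (.n 1 (.n 2 (.l 0) (.l 0)) (.n 2 (.l 0) (.l 0))))) [(1133871366144, 34359738368), (2535037337600, 19260243968), (2130303778816, 68719476736)] rfl (by decide +kernel)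
theorem R0RT_34 : CovD 1 [pRT H BR0, pX1] [(1202590842880, 34359738368), (2535037337600, 19260243968), (2061584302080, 137438953472)] :=
  cov_of (fRTX H BR0) (.n 2 (.n 1 (.n 2 (.l 0) (.l 0)) (.n 0 (.n 2 (.l 0) (.l 0)) (.l 0))) (.n 1 (.n 1 (.n 0 (.l 0) (.l 0)) (.n 2 (.l 0) (.l 0))) (.n 0 (.n 1 (.l 0) (.n 2 (.l 0) (.l 0))) (.n 2 (.l 0) (.l 0))))) [(1202590842880, 34359738368), (2535037337600, 19260243968), (2061584302080, 137438953472)] rfl (by decide +kernel)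
end

mutual
theorem R0RT_38 : CovD 1 [pRT H BR0, pX1] [(1133871366144, 34359738368), (2563927703552, 9630121984), (1992864825344, 68719476736)] :=
  cov_of (fRTX H BR0) (.n 0 (.n 2 (.n 2 (.l 0) (.l 0)) (.n 1 (.l 0) (.l 0))) (.n 2 (.l 0) (.n 2 (.l 0) (.l 0)))) [(1133871366144, 34359738368), (2563927703552, 9630121984), (1992864825344, 68719476736)] rfl (by decide +kernel)
theorem R0RT_41 : CovD 1 [pRT H BR0, pX1] [(1116691496960, 17179869184), (2583187947520, 9630121984), (1958505086976, 34359738368)] :=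
  cov_of (fRTX H BR0) (.n 1 (.n 2 (.l 0) (.n 0 (.l 0) (.l 0))) (.n 2 (.n 0 (.n 1 (.l 0) (.n 1 (.l 0) (.n 2 (.l 0) (.l 0)))) (.n 1 (.l 0) (.n 2 (.l 0) (.l 0)))) (.n 0 (.n 1 (.l 0) (.n 2 (.n 0 (.l 0) (.l 0)) (.n 0 (.l 0) (.l 0)))) (.n 1 (.l 0) (.n 2 (.l 0) (.l 0)))))) [(1116691496960, 17179869184), (2583187947520, 9630121984), (1958505086976, 34359738368)] rfl (by decide +kernel)
end

mutual
theorem R0RT_42 : CovD 1 [pRT H BR0, pX1] [(1151051235328, 17179869184), (2583187947520, 9630121984), (1958505086976, 34359738368)] :=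
  cov_of (fRTX H BR0) (.n 1 (.n 2 (.l 0) (.l 0)) (.n 2 (.n 1 (.l 0) (.n 0 (.l 0) (.l 0))) (.n 1 (.l 0) (.n 0 (.n 2 (.l 0) (.l 0)) (.l 0))))) [(1151051235328, 17179869184), (2583187947520, 9630121984), (1958505086976, 34359738368)] rfl (by decide +kernel)
theorem R0RT_44 : CovD 1 [pRT H BR0, pX1] [(1116691496960, 17179869184), (2583187947520, 9630121984), (2027224563712, 34359738368)] :=
  cov_of (fRTX H BR0) (.n 1 (.n 2 (.n 0 (.l 0) (.l 0)) (.n 0 (.l 0) (.l 0))) (.n 2 (.n 0 (.n 1 (.l 0) (.n 2 (.n 0 (.l 0) (.l 0)) (.n 0 (.n 2 (.l 0) (.l 0)) (.l 0)))) (.n 1 (.l 0) (.n 2 (.l 0) (.l 0)))) (.n 0 (.n 1 (.l 0) (.n 2 (.n 0 (.n 2 (.l 0) (.l 0)) (.l 0)) (.n 0 (.n 2 (.l 0) (.l 0)) (.l 0)))) (.n 1 (.l 0) (.n 2 (.l 0) (.l 0)))))) [(1116691496960, 17179869184), (2583187947520, 9630121984), (2027224563712, 34359738368)] rfl (by decide +kernel)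
end

mutual
theorem R0RT_45 : CovD 1 [pRT H BR0, pX1] [(1151051235328, 17179869184), (2583187947520, 9630121984), (2027224563712, 34359738368)] :=
  cov_of (fRTX H BR0) (.n 1 (.n 2 (.l 0) (.l 0)) (.n 2 (.n 1 (.l 0) (.n 0 (.n 2 (.l 0) (.l 0)) (.l 0))) (.n 1 (.l 0) (.n 0 (.n 2 (.l 0) (.l 0)) (.l 0))))) [(1151051235328, 17179869184), (2583187947520, 9630121984), (2027224563712, 34359738368)] rfl (by decide +kernel)
theorem R0RT_47 : CovD 1 [pRT H BR0, pX1] [(1133871366144, 34359738368), (2563927703552, 9630121984), (2130303778816, 68719476736)] :=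
  cov_of (fRTX H BR0) (.n 0 (.n 2 (.n 1 (.l 0) (.n 2 (.l 0) (.l 0))) (.n 1 (.n 2 (.l 0) (.l 0)) (.n 2 (.l 0) (.n 0 (.l 0) (.l 0))))) (.n 2 (.n 1 (.l 0) (.l 0)) (.n 1 (.l 0) (.n 2 (.l 0) (.l 0))))) [(1133871366144, 34359738368), (2563927703552, 9630121984), (2130303778816, 68719476736)] rfl (by decide +kernel)
end

mutual
theorem R0RT_51 : CovD 1 [pRT H BR0, pX1] [(1116691496960, 17179869184), (2578372886528, 4815060992), (2095944040448, 34359738368)] :=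
  cov_of (fRTX H BR0) (.n 2 (.n 0 (.l 0) (.l 0)) (.n 0 (.l 0) (.l 0))) [(1116691496960, 17179869184), (2578372886528, 4815060992), (2095944040448, 34359738368)] rfl (by decide +kernel)
theorem R0RT_52 : CovD 1 [pRT H BR0, pX1] [(1116691496960, 17179869184), (2588003008512, 4815060992), (2095944040448, 34359738368)] :=
  cov_of (fRTX H BR0) (.n 2 (.n 0 (.n 1 (.n 2 (.l 0) (.l 0)) (.n 2 (.n 0 (.n 2 (.l 0) (.l 0)) (.l 0)) (.n 0 (.n 2 (.l 0) (.l 0)) (.l 0)))) (.n 1 (.l 0) (.n 2 (.l 0) (.n 0 (.l 0) (.l 0))))) (.n 0 (.n 1 (.n 2 (.l 0) (.l 0)) (.n 2 (.n 0 (.n 2 (.l 0) (.l 0)) (.l 0)) (.n 0 (.n 2 (.l 0) (.l 0)) (.l 0)))) (.n 1 (.l 0) (.n 1 (.l 0) (.n 2 (.l 0) (.l 0)))))) [(1116691496960, 17179869184), (2588003008512, 4815060992), (2095944040448, 34359738368)] rfl (by decide +kernel)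
end

mutual
theorem R0RT_54 : CovD 1 [pRT H BR0, pX1] [(1116691496960, 17179869184), (2578372886528, 4815060992), (2164663517184, 34359738368)] :=
  cov_of (fRTX H BR0) (.n 2 (.n 0 (.n 2 (.l 0) (.l 0)) (.l 0)) (.n 0 (.n 2 (.l 0) (.l 0)) (.l 0))) [(1116691496960, 17179869184), (2578372886528, 4815060992), (2164663517184, 34359738368)] rfl (by decide +kernel)
theorem R0RT_56 : CovD 1 [pRT H BR0, pX1] [(1116691496960, 17179869184), (2588003008512, 4815060992), (2147483648000, 17179869184)] :=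
  cov_of (fRTX H BR0) (.n 0 (.n 1 (.n 2 (.l 0) (.l 0)) (.n 2 (.n 0 (.n 2 (.l 0) (.l 0)) (.l 0)) (.n 1 (.l 0) (.n 0 (.n 2 (.l 0) (.l 0)) (.l 0))))) (.n 1 (.l 0) (.n 2 (.n 0 (.l 0) (.l 0)) (.n 0 (.l 0) (.l 0))))) [(1116691496960, 17179869184), (2588003008512, 4815060992), (2147483648000, 17179869184)] rfl (by decide +kernel)
end

mutual
theorem R0RT_57 : CovD 1 [pRT H BR0, pX1] [(1116691496960, 17179869184), (2588003008512, 4815060992), (2181843386368, 17179869184)] :=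
  cov_of (fRTX H BR0) (.n 0 (.n 1 (.n 2 (.l 0) (.l 0)) (.n 2 (.n 1 (.l 0) (.n 0 (.n 2 (.l 0) (.l 0)) (.l 0))) (.n 1 (.l 0) (.n 0 (.n 2 (.l 0) (.l 0)) (.l 0))))) (.n 1 (.l 0) (.n 2 (.n 0 (.l 0) (.l 0)) (.n 0 (.l 0) (.l 0))))) [(1116691496960, 17179869184), (2588003008512, 4815060992), (2181843386368, 17179869184)] rfl (by decide +kernel)
theorem R0RT_59 : CovD 1 [pRT H BR0, pX1] [(1151051235328, 17179869184), (2583187947520, 9630121984), (2095944040448, 34359738368)] :=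
  cov_of (fRTX H BR0) (.n 1 (.n 2 (.l 0) (.l 0)) (.n 2 (.n 1 (.l 0) (.n 0 (.n 2 (.l 0) (.l 0)) (.l 0))) (.n 0 (.n 1 (.l 0) (.n 2 (.l 0) (.l 0))) (.n 2 (.l 0) (.l 0))))) [(1151051235328, 17179869184), (2583187947520, 9630121984), (2095944040448, 34359738368)] rfl (by decide +kernel)
end

mutual
theorem R0RT_60 : CovD 1 [pRT H BR0, pX1] [(1151051235328, 17179869184), (2583187947520, 9630121984), (2164663517184, 34359738368)] :=
  cov_of (fRTX H BR0) (.n 1 (.n 2 (.n 0 (.l 0) (.l 0)) (.n 0 (.l 0) (.l 0))) (.n 2 (.n 0 (.n 1 (.l 0) (.n 2 (.l 0) (.l 0))) (.n 2 (.l 0) (.l 0))) (.n 0 (.n 1 (.l 0) (.n 2 (.l 0) (.l 0))) (.n 2 (.l 0) (.l 0))))) [(1151051235328, 17179869184), (2583187947520, 9630121984), (2164663517184, 34359738368)] rfl (by decide +kernel)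
theorem R0RT_62 : CovD 1 [pRT H BR0, pX1] [(1202590842880, 34359738368), (2573557825536, 19260243968), (1992864825344, 68719476736)] :=
  cov_of (fRTX H BR0) (.n 1 (.n 0 (.n 2 (.l 0) (.l 0)) (.n 2 (.l 0) (.l 0))) (.n 2 (.n 0 (.n 1 (.l 0) (.n 1 (.l 0) (.n 2 (.l 0) (.l 0)))) (.n 1 (.l 0) (.n 2 (.l 0) (.l 0)))) (.n 0 (.n 1 (.l 0) (.n 2 (.n 0 (.l 0) (.l 0)) (.n 0 (.l 0) (.l 0)))) (.n 1 (.l 0) (.n 2 (.l 0) (.l 0)))))) [(1202590842880, 34359738368), (2573557825536, 19260243968), (1992864825344, 68719476736)] rfl (by decide +kernel)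
end

mutual
theorem R0RT_64 : CovD 1 [pRT H BR0, pX1] [(1202590842880, 34359738368), (2563927703552, 9630121984), (2130303778816, 68719476736)] :=
  cov_of (fRTX H BR0) (.n 0 (.n 2 (.n 2 (.l 0) (.l 0)) (.n 1 (.l 0) (.l 0))) (.n 2 (.l 0) (.n 2 (.l 0) (.l 0)))) [(1202590842880, 34359738368), (2563927703552, 9630121984), (2130303778816, 68719476736)] rfl (by decide +kernel)
theorem R0RT_65 : CovD 1 [pRT H BR0, pX1] [(1202590842880, 34359738368), (2583187947520, 9630121984), (2130303778816, 68719476736)] :=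
  cov_of (fRTX H BR0) (.n 2 (.n 0 (.n 1 (.n 2 (.l 0) (.l 0)) (.n 2 (.n 0 (.l 0) (.l 0)) (.n 0 (.n 2 (.l 0) (.l 0)) (.l 0)))) (.n 1 (.l 0) (.n 2 (.l 0) (.n 0 (.l 0) (.l 0))))) (.n 0 (.n 1 (.n 2 (.l 0) (.l 0)) (.n 2 (.n 0 (.n 2 (.l 0) (.l 0)) (.l 0)) (.n 0 (.n 2 (.l 0) (.l 0)) (.l 0)))) (.n 1 (.l 0) (.n 0 (.n 2 (.l 0) (.l 0)) (.l 1))))) [(1202590842880, 34359738368), (2583187947520, 9630121984), (2130303778816, 68719476736)] rfl (by decide +kernel)
end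

mutual
theorem R0RS : CovD 1 [pRS H BR0, pX1] [(1168231104512, 68719476736), (2554297581568, 38520487936), (1099511627776, 1099511627776)] :=
  cov_of (fRSX H BR0) (.n 2 (.l 0) (.l 0)) [(1168231104512, 68719476736), (2554297581568, 38520487936), (1099511627776, 1099511627776)] rfl (by decide +kernel)
theorem PAD : CovD 0 [pAD H BP, pX0] [(1168231104512, 68719476736), (2554297581568, 38520487936), (2199023255552, 0)] :=
  cov_of (fADX H BP) (.n 0 (.n 0 (.n 1 (.l 0) (.l 0)) (.n 1 (.l 0) (.l 0))) (.n 0 (.n 1 (.n 1 (.l 0) (.l 0)) (.l 0)) (.n 1 (.n 1 (.l 0) (.l 0)) (.l 0)))) [(1168231104512, 68719476736), (2554297581568, 38520487936), (2199023255552, 0)] rfl (by decide +kernel)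
end

mutual
theorem PG : CovD 1 [pG H BP, pX1] [(1168231104512, 68719476736), (2554297581568, 38520487936), (2199023255552, 0)] :=
  cov_of (fGX H BP) (.l 0) [(1168231104512, 68719476736), (2554297581568, 38520487936), (2199023255552, 0)] rfl (by decide +kernel)
theorem PRT_0 : CovD 1 [pRT H BP, pX1] [(1168231104512, 68719476736), (2535037337600, 19260243968), (2199023255552, 0)] :=
  cov_of (fRTX H BP) (.n 0 (.n 1 (.n 0 (.n 1 (.l 0) (.l 0)) (.n 0 (.l 0) (.l 0))) (.n 0 (.n 1 (.l 0) (.l 0)) (.l 0))) (.n 1 (.n 0 (.l 0) (.l 0)) (.n 0 (.l 0) (.l 0)))) [(1168231104512, 68719476736), (2535037337600, 19260243968), (2199023255552, 0)] rfl (by decide +kernel)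
end

mutual
theorem PRT_1 : CovD 1 [pRT H BP, pX1] [(1168231104512, 68719476736), (2573557825536, 19260243968), (2199023255552, 0)] :=
  cov_of (fRTX H BP) (.n 0 (.n 1 (.n 0 (.n 1 (.l 0) (.l 0)) (.n 0 (.l 0) (.l 0))) (.n 0 (.n 1 (.n 0 (.l 0) (.l 0)) (.n 0 (.n 1 (.l 0) (.n 0 (.l 0) (.l 0))) (.n 0 (.l 0) (.l 0)))) (.n 1 (.l 0) (.n 0 (.l 0) (.l 0))))) (.n 1 (.n 0 (.l 0) (.l 0)) (.n 0 (.n 1 (.l 0) (.l 0)) (.n 0 (.l 0) (.l 0))))) [(1168231104512, 68719476736), (2573557825536, 19260243968), (2199023255552, 0)] rfl (by decide +kernel)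
theorem PTT : CovD 1 [pTT H BP, pX1] [(1168231104512, 68719476736), (2554297581568, 38520487936), (2199023255552, 0)] :=
  cov_of (fTTX H BP) (.l 0) [(1168231104512, 68719476736), (2554297581568, 38520487936), (2199023255552, 0)] rfl (by decide +kernel)
end

mutual
theorem MAD_0 : CovD 0 [pAD H BM, pX0] [(1133871366144, 34359738368), (2554297581568, 38520487936), (0, 0)] :=
  cov_of (fADX H BM) (.n 1 (.n 0 (.n 1 (.l 0) (.n 0 (.l 0) (.l 0))) (.n 1 (.l 0) (.n 0 (.l 0) (.l 0)))) (.n 1 (.n 0 (.n 0 (.l 0) (.l 0)) (.n 0 (.l 0) (.l 0))) (.n 0 (.l 0) (.n 0 (.l 0) (.l 0))))) [(1133871366144, 34359738368), (2554297581568, 38520487936), (0, 0)] rfl (by decide +kernel)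
theorem MAD_1 : CovD 0 [pAD H BM, pX0] [(1202590842880, 34359738368), (2554297581568, 38520487936), (0, 0)] :=
  cov_of (fADX H BM) (.n 1 (.n 0 (.n 1 (.l 0) (.l 0)) (.n 1 (.l 0) (.l 0))) (.n 0 (.n 1 (.l 0) (.n 0 (.l 0) (.l 0))) (.n 1 (.n 1 (.l 0) (.l 0)) (.n 1 (.n 0 (.l 0) (.l 0)) (.l 0))))) [(1202590842880, 34359738368), (2554297581568, 38520487936), (0, 0)] rfl (by decide +kernel)
end

mutual
theorem MG : CovD 1 [pG H BM, pX1] [(1168231104512, 68719476736), (2554297581568, 38520487936), (0, 0)] :=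
  cov_of (fGX H BM) (.l 0) [(1168231104512, 68719476736), (2554297581568, 38520487936), (0, 0)] rfl (by decide +kernel)
theorem MRT : CovD 1 [pRT H BM, pX1] [(1168231104512, 68719476736), (2554297581568, 38520487936), (0, 0)] :=
  cov_of (fRTX H BM) (.l 0) [(1168231104512, 68719476736), (2554297581568, 38520487936), (0, 0)] rfl (by decide +kernel)
end

mutual
theorem MTT : CovD 1 [pTT H BM, pX1] [(1168231104512, 68719476736), (2554297581568, 38520487936), (0, 0)] :=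
  cov_of (fTTX H BM) (.l 0) [(1168231104512, 68719476736), (2554297581568, 38520487936), (0, 0)] rfl (by decide +kernel)
theorem TAD : CovD 0 [pAD H BT, pX0] [(1168231104512, 68719476736), (2554297581568, 38520487936), (17179869184, 0)] :=
  cov_of (fADX H BT) (.n 0 (.n 1 (.n 0 (.n 1 (.l 0) (.l 0)) (.n 1 (.l 0) (.l 0))) (.n 0 (.n 1 (.l 0) (.l 0)) (.n 1 (.l 0) (.l 0)))) (.n 1 (.n 0 (.l 0) (.l 0)) (.n 0 (.n 1 (.l 0) (.l 0)) (.n 1 (.l 0) (.l 0))))) [(1168231104512, 68719476736), (2554297581568, 38520487936), (17179869184, 0)] rfl (by decide +kernel)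
end

mutual
theorem TG : CovD 1 [pG H BT, pX1] [(1168231104512, 68719476736), (2554297581568, 38520487936), (17179869184, 0)] :=
  cov_of (fGX H BT) (.l 0) [(1168231104512, 68719476736), (2554297581568, 38520487936), (17179869184, 0)] rfl (by decide +kernel)
theorem TRT : CovD 1 [pRT H BT, pX1] [(1168231104512, 68719476736), (2554297581568, 38520487936), (17179869184, 0)] :=
  cov_of (fRTX H BT) (.n 1 (.n 0 (.l 0) (.l 0)) (.n 0 (.l 0) (.l 0))) [(1168231104512, 68719476736), (2554297581568, 38520487936), (17179869184, 0)] rfl (by decide +kernel)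
theorem TTT : CovD 1 [pTT H BT, pX1] [(1168231104512, 68719476736), (2554297581568, 38520487936), (17179869184, 0)] :=
  cov_of (fTTX H BT) (.l 0) [(1168231104512, 68719476736), (2554297581568, 38520487936), (17179869184, 0)] rfl (by decide +kernel)
end

end Pool.Agent.helper82.WC.S0cK0
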