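import Pool.Agent.helper82.WC.S0cK0C0
import Pool.Agent.helper82.WC.S0cK0C1

/-!
Generated certificates, assembled.
-/

namespace Pool.Agent.helper82.WC.S0cK0

open Pool.Agent.helper82.WH
open Pool.Agent.helper31.IC (CovD covD_split TD)

theorem R0AD_3 : CovD 0 [pAD H BR0, pX0] [(1168231104512, 68719476736), (2535037337600, 19260243968), (137438953472, 137438953472)] :=
  covD_split 2 (by decide +kernel) R0AD_4 R0AD_5
theorem R0AD_7 : CovD 0 [pAD H BR0, pX0] [(1168231104512, 68719476736), (2573557825536, 19260243968), (68719476736, 68719476736)] :=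
  covD_split 0 (by decide +kernel) R0AD_8 R0AD_9
theorem R0AD_6 : CovD 0 [pAD H BR0, pX0] [(1168231104512, 68719476736), (2573557825536, 19260243968), (137438953472, 137438953472)] :=
  covD_split 2 (by decide +kernel) R0AD_7 R0AD_10
theorem R0AD_2 : CovD 0 [pAD H BR0, pX0] [(1168231104512, 68719476736), (2554297581568, 38520487936), (137438953472, 137438953472)] :=
  covD_split 1 (by decide +kernel) R0AD_3 R0AD_6
theorem R0AD_12 : CovD 0 [pAD H BR0, pX0] [(1168231104512, 68719476736), (2535037337600, 19260243968), (412316860416, 137438953472)] :=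
  covD_split 0 (by decide +kernel) R0AD_13 R0AD_14
theorem R0AD_15 : CovD 0 [pAD H BR0, pX0] [(1168231104512, 68719476736), (2573557825536, 19260243968), (412316860416, 137438953472)] :=
  covD_split 0 (by decide +kernel) R0AD_16 R0AD_17
theorem R0AD_11 : CovD 0 [pAD H BR0, pX0] [(1168231104512, 68719476736), (2554297581568, 38520487936), (412316860416, 137438953472)] :=
  covD_split 1 (by decide +kernel) R0AD_12 R0AD_15
theorem R0AD_1 : CovD 0 [pAD H BR0, pX0] [(1168231104512, 68719476736), (2554297581568, 38520487936), (274877906944, 274877906944)] :=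
  covD_split 2 (by decide +kernel) R0AD_2 R0AD_11
theorem R0AD_20 : CovD 0 [pAD H BR0, pX0] [(1168231104512, 68719476736), (2535037337600, 19260243968), (687194767360, 137438953472)] :=
  covD_split 0 (by decide +kernel) R0AD_21 R0AD_22
theorem R0AD_23 : CovD 0 [pAD H BR0, pX0] [(1168231104512, 68719476736), (2573557825536, 19260243968), (687194767360, 137438953472)] :=
  covD_split 0 (by decide +kernel) R0AD_24 R0AD_25
theorem R0AD_19 : CovD 0 [pAD H BR0, pX0] [(1168231104512, 68719476736), (2554297581568, 38520487936), (687194767360, 137438953472)] :=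
  covD_split 1 (by decide +kernel) R0AD_20 R0AD_23
theorem R0AD_28 : CovD 0 [pAD H BR0, pX0] [(1168231104512, 68719476736), (2573557825536, 19260243968), (962072674304, 137438953472)] :=
  covD_split 0 (by decide +kernel) R0AD_29 R0AD_30
theorem R0AD_26 : CovD 0 [pAD H BR0, pX0] [(1168231104512, 68719476736), (2554297581568, 38520487936), (962072674304, 137438953472)] :=
  covD_split 1 (by decide +kernel) R0AD_27 R0AD_28
theorem R0AD_18 : CovD 0 [pAD H BR0, pX0] [(1168231104512, 68719476736), (2554297581568, 38520487936), (824633720832, 274877906944)] :=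
  covD_split 2 (by decide +kernel) R0AD_19 R0AD_26
theorem R0AD_0 : CovD 0 [pAD H BR0, pX0] [(1168231104512, 68719476736), (2554297581568, 38520487936), (549755813888, 549755813888)] :=
  covD_split 2 (by decide +kernel) R0AD_1 R0AD_18
theorem R0AD_33 : CovD 0 [pAD H BR0, pX0] [(1168231104512, 68719476736), (2554297581568, 38520487936), (1236950581248, 137438953472)] :=
  covD_split 0 (by decide +kernel) R0AD_34 R0AD_35
theorem R0AD_32 : CovD 0 [pAD H BR0, pX0] [(1168231104512, 68719476736), (2554297581568, 38520487936), (1374389534720, 274877906944)] :=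
  covD_split 2 (by decide +kernel) R0AD_33 R0AD_36
theorem R0AD_37 : CovD 0 [pAD H BR0, pX0] [(1168231104512, 68719476736), (2554297581568, 38520487936), (1924145348608, 274877906944)] :=
  covD_split 1 (by decide +kernel) R0AD_38 R0AD_39
theorem R0AD_31 : CovD 0 [pAD H BR0, pX0] [(1168231104512, 68719476736), (2554297581568, 38520487936), (1649267441664, 549755813888)] :=
  covD_split 2 (by decide +kernel) R0AD_32 R0AD_37
theorem R0AD : CovD 0 [pAD H BR0, pX0] [(1168231104512, 68719476736), (2554297581568, 38520487936), (1099511627776, 1099511627776)] :=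
  covD_split 2 (by decide +kernel) R0AD_0 R0AD_31
theorem R0RT_0 : CovD 1 [pRT H BR0, pX1] [(1168231104512, 68719476736), (2554297581568, 38520487936), (549755813888, 549755813888)] :=
  covD_split 2 (by decide +kernel) R0RT_1 R0RT_2
theorem R0RT_8 : CovD 1 [pRT H BR0, pX1] [(1168231104512, 68719476736), (2573557825536, 19260243968), (1511828488192, 137438953472)] :=
  covD_split 0 (by decide +kernel) R0RT_9 R0RT_10
theorem R0RT_6 : CovD 1 [pRT H BR0, pX1] [(1168231104512, 68719476736), (2554297581568, 38520487936), (1511828488192, 137438953472)] :=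
  covD_split 1 (by decide +kernel) R0RT_7 R0RT_8
theorem R0RT_4 : CovD 1 [pRT H BR0, pX1] [(1168231104512, 68719476736), (2554297581568, 38520487936), (1374389534720, 274877906944)] :=
  covD_split 2 (by decide +kernel) R0RT_5 R0RT_6
theorem R0RT_16 : CovD 1 [pRT H BR0, pX1] [(1133871366144, 34359738368), (2573557825536, 19260243968), (1717986918400, 68719476736)] :=
  covD_split 1 (by decide +kernel) R0RT_17 R0RT_18
theorem R0RT_21 : CovD 1 [pRT H BR0, pX1] [(1133871366144, 34359738368), (2583187947520, 9630121984), (1855425871872, 68719476736)] :=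
  covD_split 2 (by decide +kernel) R0RT_22 R0RT_23
theorem R0RT_19 : CovD 1 [pRT H BR0, pX1] [(1133871366144, 34359738368), (2573557825536, 19260243968), (1855425871872, 68719476736)] :=
  covD_split 1 (by decide +kernel) R0RT_20 R0RT_21
theorem R0RT_15 : CovD 1 [pRT H BR0, pX1] [(1133871366144, 34359738368), (2573557825536, 19260243968), (1786706395136, 137438953472)] :=
  covD_split 2 (by decide +kernel) R0RT_16 R0RT_19
theorem R0RT_13 : CovD 1 [pRT H BR0, pX1] [(1133871366144, 34359738368), (2554297581568, 38520487936), (1786706395136, 137438953472)] :=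
  covD_split 1 (by decide +kernel) R0RT_14 R0RT_15
theorem R0RT_26 : CovD 1 [pRT H BR0, pX1] [(1202590842880, 34359738368), (2573557825536, 19260243968), (1786706395136, 137438953472)] :=
  covD_split 2 (by decide +kernel) R0RT_27 R0RT_28
theorem R0RT_24 : CovD 1 [pRT H BR0, pX1] [(1202590842880, 34359738368), (2554297581568, 38520487936), (1786706395136, 137438953472)] :=
  covD_split 1 (by decide +kernel) R0RT_25 R0RT_26
theorem R0RT_12 : CovD 1 [pRT H BR0, pX1] [(1168231104512, 68719476736), (2554297581568, 38520487936), (1786706395136, 137438953472)] :=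
  covD_split 0 (by decide +kernel) R0RT_13 R0RT_24
theorem R0RT_31 : CovD 1 [pRT H BR0, pX1] [(1133871366144, 34359738368), (2535037337600, 19260243968), (2061584302080, 137438953472)] :=
  covD_split 2 (by decide +kernel) R0RT_32 R0RT_33
theorem R0RT_30 : CovD 1 [pRT H BR0, pX1] [(1168231104512, 68719476736), (2535037337600, 19260243968), (2061584302080, 137438953472)] :=
  covD_split 0 (by decide +kernel) R0RT_31 R0RT_34
theorem R0RT_40 : CovD 1 [pRT H BR0, pX1] [(1133871366144, 34359738368), (2583187947520, 9630121984), (1958505086976, 34359738368)] :=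
  covD_split 0 (by decide +kernel) R0RT_41 R0RT_42
theorem R0RT_43 : CovD 1 [pRT H BR0, pX1] [(1133871366144, 34359738368), (2583187947520, 9630121984), (2027224563712, 34359738368)] :=
  covD_split 0 (by decide +kernel) R0RT_44 R0RT_45
theorem R0RT_39 : CovD 1 [pRT H BR0, pX1] [(1133871366144, 34359738368), (2583187947520, 9630121984), (1992864825344, 68719476736)] :=
  covD_split 2 (by decide +kernel) R0RT_40 R0RT_43
theorem R0RT_37 : CovD 1 [pRT H BR0, pX1] [(1133871366144, 34359738368), (2573557825536, 19260243968), (1992864825344, 68719476736)] :=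
  covD_split 1 (by decide +kernel) R0RT_38 R0RT_39
theorem R0RT_50 : CovD 1 [pRT H BR0, pX1] [(1116691496960, 17179869184), (2583187947520, 9630121984), (2095944040448, 34359738368)] :=
  covD_split 1 (by decide +kernel) R0RT_51 R0RT_52
theorem R0RT_55 : CovD 1 [pRT H BR0, pX1] [(1116691496960, 17179869184), (2588003008512, 4815060992), (2164663517184, 34359738368)] :=
  covD_split 2 (by decide +kernel) R0RT_56 R0RT_57
theorem R0RT_53 : CovD 1 [pRT H BR0, pX1] [(1116691496960, 17179869184), (2583187947520, 9630121984), (2164663517184, 34359738368)] :=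
  covD_split 1 (by decide +kernel) R0RT_54 R0RT_55
theorem R0RT_49 : CovD 1 [pRT H BR0, pX1] [(1116691496960, 17179869184), (2583187947520, 9630121984), (2130303778816, 68719476736)] :=
  covD_split 2 (by decide +kernel) R0RT_50 R0RT_53
theorem R0RT_58 : CovD 1 [pRT H BR0, pX1] [(1151051235328, 17179869184), (2583187947520, 9630121984), (2130303778816, 68719476736)] :=
  covD_split 2 (by decide +kernel) R0RT_59 R0RT_60
theorem R0RT_48 : CovD 1 [pRT H BR0, pX1] [(1133871366144, 34359738368), (2583187947520, 9630121984), (2130303778816, 68719476736)] :=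
  covD_split 0 (by decide +kernel) R0RT_49 R0RT_58
theorem R0RT_46 : CovD 1 [pRT H BR0, pX1] [(1133871366144, 34359738368), (2573557825536, 19260243968), (2130303778816, 68719476736)] :=
  covD_split 1 (by decide +kernel) R0RT_47 R0RT_48
theorem R0RT_36 : CovD 1 [pRT H BR0, pX1] [(1133871366144, 34359738368), (2573557825536, 19260243968), (2061584302080, 137438953472)] :=
  covD_split 2 (by decide +kernel) R0RT_37 R0RT_46
theorem R0RT_63 : CovD 1 [pRT H BR0, pX1] [(1202590842880, 34359738368), (2573557825536, 19260243968), (2130303778816, 68719476736)] :=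
  covD_split 1 (by decide +kernel) R0RT_64 R0RT_65
theorem R0RT_61 : CovD 1 [pRT H BR0, pX1] [(1202590842880, 34359738368), (2573557825536, 19260243968), (2061584302080, 137438953472)] :=
  covD_split 2 (by decide +kernel) R0RT_62 R0RT_63
theorem R0RT_35 : CovD 1 [pRT H BR0, pX1] [(1168231104512, 68719476736), (2573557825536, 19260243968), (2061584302080, 137438953472)] :=
  covD_split 0 (by decide +kernel) R0RT_36 R0RT_61
theorem R0RT_29 : CovD 1 [pRT H BR0, pX1] [(1168231104512, 68719476736), (2554297581568, 38520487936), (2061584302080, 137438953472)] :=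
  covD_split 1 (by decide +kernel) R0RT_30 R0RT_35
theorem R0RT_11 : CovD 1 [pRT H BR0, pX1] [(1168231104512, 68719476736), (2554297581568, 38520487936), (1924145348608, 274877906944)] :=
  covD_split 2 (by decide +kernel) R0RT_12 R0RT_29
theorem R0RT_3 : CovD 1 [pRT H BR0, pX1] [(1168231104512, 68719476736), (2554297581568, 38520487936), (1649267441664, 549755813888)] :=
  covD_split 2 (by decide +kernel) R0RT_4 R0RT_11
theorem R0RT : CovD 1 [pRT H BR0, pX1] [(1168231104512, 68719476736), (2554297581568, 38520487936), (1099511627776, 1099511627776)] :=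
  covD_split 2 (by decide +kernel) R0RT_0 R0RT_3
theorem PRT : CovD 1 [pRT H BP, pX1] [(1168231104512, 68719476736), (2554297581568, 38520487936), (2199023255552, 0)] :=
  covD_split 1 (by decide +kernel) PRT_0 PRT_1
theorem MAD : CovD 0 [pAD H BM, pX0] [(1168231104512, 68719476736), (2554297581568, 38520487936), (0, 0)] :=
  covD_split 0 (by decide +kernel) MAD_0 MAD_1

end Pool.Agent.helper82.WC.S0cK0
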