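import Pool.Agent.helper82.WC.S0cK0P

/-!
Generated certificates (in pairs, so that they are checked one after the other).
-/

namespace Pool.Agent.helper82.WC.S0cK0

open Pool.Agent.helper82.WH
open Pool.Agent.helper31.IC (CovD covD_split TD)

mutual
theorem I0AD : CovD 0 [pAD H BI0, pX0] [(1168231104512, 68719476736), (2554297581568, 38520487936), (8589934592, 8589934592)] :=
  cov_of (fADX H BI0) (.n 0 (.n 1 (.n 0 (.n 1 (.l 0) (.n 0 (.l 0) (.l 0))) (.n 1 (.l 0) (.l 0))) (.n 0 (.n 1 (.l 0) (.l 0)) (.n 1 (.l 0) (.l 0)))) (.n 1 (.n 0 (.n 1 (.l 0) (.l 0)) (.l 0)) (.n 0 (.n 1 (.l 0) (.l 0)) (.n 1 (.l 0) (.l 0))))) [(1168231104512, 68719476736), (2554297581568, 38520487936), (8589934592, 8589934592)] rfl (by decide +kernel)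
theorem I0G : CovD 1 [pG H BI0, pX1] [(1168231104512, 68719476736), (2554297581568, 38520487936), (8589934592, 8589934592)] :=
  cov_of (fGX H BI0) (.l 0) [(1168231104512, 68719476736), (2554297581568, 38520487936), (8589934592, 8589934592)] rfl (by decide +kernel)
end

mutual
theorem I0RT : CovD 1 [pRT H BI0, pX1] [(1168231104512, 68719476736), (2554297581568, 38520487936), (8589934592, 8589934592)] :=
  cov_of (fRTX H BI0) (.n 1 (.n 0 (.l 0) (.l 0)) (.n 0 (.l 0) (.l 0))) [(1168231104512, 68719476736), (2554297581568, 38520487936), (8589934592, 8589934592)] rfl (by decide +kernel)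
theorem R0AD_4 : CovD 0 [pAD H BR0, pX0] [(1168231104512, 68719476736), (2535037337600, 19260243968), (68719476736, 68719476736)] :=
  cov_of (fADX H BR0) (.n 0 (.n 1 (.n 0 (.n 2 (.l 0) (.l 0)) (.n 2 (.l 0) (.l 0))) (.n 0 (.n 1 (.n 2 (.l 0) (.l 0)) (.n 2 (.n 0 (.l 0) (.l 0)) (.l 0))) (.n 1 (.l 0) (.n 2 (.l 0) (.l 0))))) (.n 1 (.n 0 (.l 0) (.l 0)) (.n 0 (.n 1 (.l 0) (.n 2 (.l 0) (.l 0))) (.n 1 (.l 0) (.l 0))))) [(1168231104512, 68719476736), (2535037337600, 19260243968), (68719476736, 68719476736)] rfl (by decide +kernel)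
end

mutual
theorem R0AD_5 : CovD 0 [pAD H BR0, pX0] [(1168231104512, 68719476736), (2535037337600, 19260243968), (206158430208, 68719476736)] :=
  cov_of (fADX H BR0) (.n 0 (.n 1 (.n 0 (.n 2 (.l 0) (.l 0)) (.n 2 (.l 0) (.l 0))) (.n 0 (.n 2 (.l 0) (.l 0)) (.n 2 (.l 0) (.l 0)))) (.n 1 (.n 0 (.l 0) (.l 0)) (.n 0 (.n 2 (.l 0) (.l 0)) (.n 2 (.l 0) (.l 0))))) [(1168231104512, 68719476736), (2535037337600, 19260243968), (206158430208, 68719476736)] rfl (by decide +kernel)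
theorem R0AD_8 : CovD 0 [pAD H BR0, pX0] [(1133871366144, 34359738368), (2573557825536, 19260243968), (68719476736, 68719476736)] :=
  cov_of (fADX H BR0) (.n 1 (.n 0 (.n 1 (.n 2 (.n 0 (.l 0) (.l 0)) (.l 0)) (.n 2 (.n 2 (.l 0) (.l 0)) (.l 0))) (.n 1 (.n 2 (.l 0) (.l 0)) (.n 2 (.n 2 (.l 0) (.l 0)) (.l 0)))) (.n 0 (.n 1 (.l 0) (.n 2 (.l 0) (.n 2 (.l 0) (.l 0)))) (.n 1 (.n 2 (.l 0) (.l 0)) (.l 0)))) [(1133871366144, 34359738368), (2573557825536, 19260243968), (68719476736, 68719476736)] rfl (by decide +kernel)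
end

mutual
theorem R0AD_9 : CovD 0 [pAD H BR0, pX0] [(1202590842880, 34359738368), (2573557825536, 19260243968), (68719476736, 68719476736)] :=
  cov_of (fADX H BR0) (.n 1 (.n 0 (.n 2 (.n 1 (.l 0) (.n 0 (.l 0) (.l 0))) (.n 0 (.l 0) (.l 0))) (.n 2 (.n 1 (.n 2 (.l 0) (.l 0)) (.n 0 (.n 2 (.l 0) (.l 0)) (.l 1))) (.n 0 (.l 0) (.l 0)))) (.n 0 (.n 1 (.n 2 (.n 0 (.l 0) (.l 0)) (.l 0)) (.n 2 (.l 0) (.l 0))) (.n 0 (.n 1 (.n 2 (.n 2 (.l 0) (.l 0)) (.l 0)) (.l 0)) (.l 1)))) [(1202590842880, 34359738368), (2573557825536, 19260243968), (68719476736, 68719476736)] rfl (by decide +kernel)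
theorem R0AD_10 : CovD 0 [pAD H BR0, pX0] [(1168231104512, 68719476736), (2573557825536, 19260243968), (206158430208, 68719476736)] :=
  cov_of (fADX H BR0) (.n 0 (.n 1 (.n 0 (.n 1 (.l 0) (.l 0)) (.n 1 (.l 0) (.l 0))) (.n 0 (.n 1 (.l 0) (.n 2 (.l 0) (.l 0))) (.l 0))) (.n 1 (.n 0 (.n 1 (.l 0) (.l 0)) (.n 1 (.l 0) (.l 0))) (.n 0 (.n 2 (.l 0) (.l 0)) (.n 1 (.l 0) (.l 0))))) [(1168231104512, 68719476736), (2573557825536, 19260243968), (206158430208, 68719476736)] rfl (by decide +kernel)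
end

mutual
theorem R0AD_13 : CovD 0 [pAD H BR0, pX0] [(1133871366144, 34359738368), (2535037337600, 19260243968), (412316860416, 137438953472)] :=
  cov_of (fADX H BR0) (.n 1 (.n 2 (.n 0 (.n 1 (.l 0) (.l 0)) (.n 2 (.l 0) (.l 0))) (.n 0 (.n 1 (.l 0) (.n 2 (.l 0) (.l 0))) (.n 2 (.l 0) (.l 0)))) (.n 2 (.n 0 (.n 1 (.l 0) (.l 0)) (.n 2 (.l 0) (.l 0))) (.n 0 (.n 1 (.n 2 (.l 0) (.l 0)) (.n 2 (.l 0) (.l 0))) (.n 2 (.l 0) (.l 0))))) [(1133871366144, 34359738368), (2535037337600, 19260243968), (412316860416, 137438953472)] rfl (by decide +kernel)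
theorem R0AD_14 : CovD 0 [pAD H BR0, pX0] [(1202590842880, 34359738368), (2535037337600, 19260243968), (412316860416, 137438953472)] :=
  cov_of (fADX H BR0) (.n 1 (.n 2 (.n 0 (.l 0) (.l 0)) (.n 0 (.l 0) (.l 0))) (.n 2 (.n 0 (.n 2 (.l 0) (.l 0)) (.n 2 (.l 0) (.l 0))) (.n 0 (.n 2 (.l 0) (.l 0)) (.n 2 (.l 0) (.l 0))))) [(1202590842880, 34359738368), (2535037337600, 19260243968), (412316860416, 137438953472)] rfl (by decide +kernel)
end

mutual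
theorem R0AD_16 : CovD 0 [pAD H BR0, pX0] [(1133871366144, 34359738368), (2573557825536, 19260243968), (412316860416, 137438953472)] :=
  cov_of (fADX H BR0) (.n 1 (.n 2 (.n 0 (.n 1 (.l 0) (.l 0)) (.n 2 (.l 0) (.l 0))) (.n 0 (.n 1 (.l 0) (.l 0)) (.n 1 (.l 0) (.l 0)))) (.n 2 (.n 0 (.n 2 (.l 0) (.l 0)) (.l 0)) (.n 0 (.l 0) (.n 2 (.l 0) (.l 0))))) [(1133871366144, 34359738368), (2573557825536, 19260243968), (412316860416, 137438953472)] rfl (by decide +kernel)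
theorem R0AD_17 : CovD 0 [pAD H BR0, pX0] [(1202590842880, 34359738368), (2573557825536, 19260243968), (412316860416, 137438953472)] :=
  cov_of (fADX H BR0) (.n 1 (.n 2 (.n 0 (.n 2 (.l 0) (.l 0)) (.n 2 (.l 0) (.l 0))) (.n 0 (.n 1 (.l 0) (.l 0)) (.n 2 (.l 0) (.l 0)))) (.n 2 (.n 0 (.n 2 (.l 0) (.l 0)) (.n 1 (.l 0) (.l 0))) (.n 0 (.n 2 (.l 0) (.l 0)) (.n 1 (.l 0) (.l 0))))) [(1202590842880, 34359738368), (2573557825536, 19260243968), (412316860416, 137438953472)] rfl (by decide +kernel)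
end

mutual
theorem R0AD_21 : CovD 0 [pAD H BR0, pX0] [(1133871366144, 34359738368), (2535037337600, 19260243968), (687194767360, 137438953472)] :=
  cov_of (fADX H BR0) (.n 1 (.n 0 (.n 2 (.n 1 (.l 0) (.n 2 (.l 0) (.l 0))) (.n 1 (.l 0) (.n 2 (.l 0) (.l 0)))) (.n 2 (.n 2 (.l 0) (.l 0)) (.l 0))) (.n 0 (.n 2 (.n 1 (.n 2 (.l 0) (.l 0)) (.n 2 (.l 0) (.l 0))) (.n 0 (.n 2 (.l 0) (.l 0)) (.n 2 (.l 0) (.l 0)))) (.n 2 (.n 0 (.l 0) (.l 0)) (.n 0 (.l 0) (.l 0))))) [(1133871366144, 34359738368), (2535037337600, 19260243968), (687194767360, 137438953472)] rfl (by decide +kernel)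
theorem R0AD_22 : CovD 0 [pAD H BR0, pX0] [(1202590842880, 34359738368), (2535037337600, 19260243968), (687194767360, 137438953472)] :=
  cov_of (fADX H BR0) (.n 1 (.n 0 (.n 2 (.l 0) (.l 0)) (.n 2 (.l 0) (.l 0))) (.n 0 (.n 2 (.n 2 (.l 0) (.l 0)) (.n 2 (.l 0) (.l 0))) (.n 2 (.n 2 (.l 0) (.l 0)) (.n 2 (.l 0) (.l 0))))) [(1202590842880, 34359738368), (2535037337600, 19260243968), (687194767360, 137438953472)] rfl (by decide +kernel)
end

mutual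
theorem R0AD_24 : CovD 0 [pAD H BR0, pX0] [(1133871366144, 34359738368), (2573557825536, 19260243968), (687194767360, 137438953472)] :=
  cov_of (fADX H BR0) (.n 1 (.n 0 (.n 2 (.n 1 (.n 2 (.l 0) (.l 0)) (.l 0)) (.n 1 (.n 2 (.l 0) (.l 0)) (.l 0))) (.n 2 (.n 1 (.l 0) (.l 0)) (.n 2 (.l 0) (.l 0)))) (.n 2 (.n 0 (.n 2 (.l 0) (.l 0)) (.n 2 (.l 0) (.l 0))) (.n 0 (.n 2 (.l 0) (.l 0)) (.n 2 (.l 0) (.l 0))))) [(1133871366144, 34359738368), (2573557825536, 19260243968), (687194767360, 137438953472)] rfl (by decide +kernel)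
theorem R0AD_25 : CovD 0 [pAD H BR0, pX0] [(1202590842880, 34359738368), (2573557825536, 19260243968), (687194767360, 137438953472)] :=
  cov_of (fADX H BR0) (.n 1 (.n 0 (.n 2 (.n 2 (.l 0) (.l 0)) (.n 2 (.l 0) (.l 0))) (.n 2 (.n 2 (.l 0) (.l 0)) (.n 2 (.l 0) (.l 0)))) (.n 2 (.n 0 (.n 2 (.l 0) (.l 0)) (.n 1 (.n 2 (.l 0) (.l 0)) (.l 0))) (.n 0 (.n 2 (.l 0) (.l 0)) (.n 1 (.l 0) (.l 0))))) [(1202590842880, 34359738368), (2573557825536, 19260243968), (687194767360, 137438953472)] rfl (by decide +kernel)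
end

mutual
theorem R0AD_27 : CovD 0 [pAD H BR0, pX0] [(1168231104512, 68719476736), (2535037337600, 19260243968), (962072674304, 137438953472)] :=
  cov_of (fADX H BR0) (.n 0 (.n 0 (.n 2 (.n 1 (.n 2 (.l 0) (.l 0)) (.n 0 (.n 2 (.l 0) (.l 0)) (.l 0))) (.n 1 (.l 0) (.n 2 (.l 0) (.l 0)))) (.n 1 (.n 2 (.l 0) (.l 0)) (.n 2 (.n 2 (.l 0) (.l 0)) (.l 0)))) (.n 0 (.n 1 (.n 2 (.l 0) (.l 0)) (.n 2 (.l 0) (.l 0))) (.n 1 (.l 0) (.n 2 (.l 0) (.l 0))))) [(1168231104512, 68719476736), (2535037337600, 19260243968), (962072674304, 137438953472)] rfl (by decide +kernel)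
theorem R0AD_29 : CovD 0 [pAD H BR0, pX0] [(1133871366144, 34359738368), (2573557825536, 19260243968), (962072674304, 137438953472)] :=
  cov_of (fADX H BR0) (.n 0 (.n 1 (.n 2 (.n 0 (.l 0) (.l 0)) (.n 2 (.l 0) (.l 0))) (.n 2 (.n 2 (.l 0) (.l 0)) (.l 0))) (.n 2 (.n 1 (.n 2 (.l 0) (.l 0)) (.n 2 (.l 0) (.l 0))) (.n 1 (.l 0) (.l 0)))) [(1133871366144, 34359738368), (2573557825536, 19260243968), (962072674304, 137438953472)] rfl (by decide +kernel)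
end

mutual
theorem R0AD_30 : CovD 0 [pAD H BR0, pX0] [(1202590842880, 34359738368), (2573557825536, 19260243968), (962072674304, 137438953472)] :=
  cov_of (fADX H BR0) (.n 0 (.n 2 (.n 1 (.n 2 (.l 0) (.l 0)) (.n 2 (.l 0) (.l 0))) (.n 1 (.l 0) (.l 0))) (.n 2 (.n 1 (.n 2 (.l 0) (.l 0)) (.n 2 (.l 0) (.l 0))) (.n 1 (.l 0) (.l 0)))) [(1202590842880, 34359738368), (2573557825536, 19260243968), (962072674304, 137438953472)] rfl (by decide +kernel)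
theorem R0AD_34 : CovD 0 [pAD H BR0, pX0] [(1133871366144, 34359738368), (2554297581568, 38520487936), (1236950581248, 137438953472)] :=
  cov_of (fADX H BR0) (.n 1 (.n 0 (.n 2 (.n 1 (.l 0) (.l 0)) (.n 2 (.l 0) (.l 0))) (.n 2 (.n 2 (.l 0) (.l 0)) (.l 0))) (.n 0 (.n 2 (.n 1 (.l 0) (.l 0)) (.n 2 (.l 0) (.l 0))) (.n 2 (.n 1 (.l 0) (.l 0)) (.n 2 (.l 0) (.l 0))))) [(1133871366144, 34359738368), (2554297581568, 38520487936), (1236950581248, 137438953472)] rfl (by decide +kernel)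
end

mutual
theorem R0AD_35 : CovD 0 [pAD H BR0, pX0] [(1202590842880, 34359738368), (2554297581568, 38520487936), (1236950581248, 137438953472)] :=
  cov_of (fADX H BR0) (.n 1 (.n 0 (.n 2 (.l 0) (.l 0)) (.n 2 (.l 0) (.l 0))) (.n 0 (.n 2 (.n 1 (.l 0) (.l 0)) (.n 2 (.l 0) (.l 0))) (.n 2 (.n 1 (.l 0) (.l 0)) (.n 1 (.l 0) (.l 0))))) [(1202590842880, 34359738368), (2554297581568, 38520487936), (1236950581248, 137438953472)] rfl (by decide +kernel)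
theorem R0AD_36 : CovD 0 [pAD H BR0, pX0] [(1168231104512, 68719476736), (2554297581568, 38520487936), (1511828488192, 137438953472)] :=
  cov_of (fADX H BR0) (.n 0 (.n 1 (.n 0 (.n 2 (.l 0) (.l 0)) (.l 0)) (.n 0 (.n 2 (.n 2 (.l 0) (.l 0)) (.l 0)) (.n 2 (.n 2 (.l 0) (.l 0)) (.l 0)))) (.n 1 (.n 0 (.n 2 (.l 0) (.l 0)) (.n 2 (.l 0) (.l 0))) (.n 0 (.n 2 (.l 0) (.l 0)) (.n 2 (.l 0) (.l 0))))) [(1168231104512, 68719476736), (2554297581568, 38520487936), (1511828488192, 137438953472)] rfl (by decide +kernel)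
end

mutual
theorem R0AD_38 : CovD 0 [pAD H BR0, pX0] [(1168231104512, 68719476736), (2535037337600, 19260243968), (1924145348608, 274877906944)] :=
  cov_of (fADX H BR0) (.n 0 (.n 2 (.n 0 (.n 2 (.l 0) (.l 0)) (.n 2 (.l 0) (.l 0))) (.n 0 (.n 2 (.l 0) (.l 0)) (.n 2 (.l 0) (.l 0)))) (.n 2 (.n 0 (.n 2 (.l 0) (.n 2 (.l 0) (.l 0))) (.n 1 (.n 2 (.l 0) (.l 0)) (.l 0))) (.n 0 (.n 1 (.n 2 (.l 0) (.l 0)) (.l 0)) (.n 1 (.n 2 (.n 2 (.l 0) (.l 0)) (.l 0)) (.n 2 (.l 0) (.l 0)))))) [(1168231104512, 68719476736), (2535037337600, 19260243968), (1924145348608, 274877906944)] rfl (by decide +kernel)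
theorem R0AD_39 : CovD 0 [pAD H BR0, pX0] [(1168231104512, 68719476736), (2573557825536, 19260243968), (1924145348608, 274877906944)] :=
  cov_of (fADX H BR0) (.n 0 (.n 2 (.n 0 (.n 2 (.l 0) (.l 0)) (.n 2 (.l 0) (.l 0))) (.n 0 (.l 0) (.l 0))) (.n 2 (.n 0 (.l 0) (.l 0)) (.n 0 (.n 2 (.l 0) (.l 0)) (.n 2 (.l 0) (.l 0))))) [(1168231104512, 68719476736), (2573557825536, 19260243968), (1924145348608, 274877906944)] rfl (by decide +kernel)
end

mutual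
theorem R0G : CovD 1 [pG H BR0, pX1] [(1168231104512, 68719476736), (2554297581568, 38520487936), (1099511627776, 1099511627776)] :=
  cov_of (fGX H BR0) (.n 2 (.n 2 (.l 0) (.l 0)) (.l 0)) [(1168231104512, 68719476736), (2554297581568, 38520487936), (1099511627776, 1099511627776)] rfl (by decide +kernel)
theorem R0RT_1 : CovD 1 [pRT H BR0, pX1] [(1168231104512, 68719476736), (2554297581568, 38520487936), (274877906944, 274877906944)] :=
  cov_of (fRTX H BR0) (.n 2 (.n 1 (.n 2 (.l 0) (.l 0)) (.n 2 (.l 0) (.l 0))) (.n 1 (.n 2 (.l 0) (.l 0)) (.n 2 (.l 0) (.l 0)))) [(1168231104512, 68719476736), (2554297581568, 38520487936), (274877906944, 274877906944)] rfl (by decide +kernel)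
end

mutual
theorem R0RT_2 : CovD 1 [pRT H BR0, pX1] [(1168231104512, 68719476736), (2554297581568, 38520487936), (824633720832, 274877906944)] :=
  cov_of (fRTX H BR0) (.n 2 (.n 1 (.n 0 (.n 2 (.l 0) (.l 0)) (.n 2 (.l 0) (.l 0))) (.n 2 (.n 0 (.l 0) (.l 0)) (.n 0 (.l 0) (.l 0)))) (.n 1 (.n 0 (.n 2 (.l 0) (.l 0)) (.n 2 (.l 0) (.l 0))) (.n 0 (.n 2 (.l 0) (.n 2 (.l 0) (.l 0))) (.n 2 (.l 0) (.n 2 (.l 0) (.l 0)))))) [(1168231104512, 68719476736), (2554297581568, 38520487936), (824633720832, 274877906944)] rfl (by decide +kernel)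
theorem R0RT_5 : CovD 1 [pRT H BR0, pX1] [(1168231104512, 68719476736), (2554297581568, 38520487936), (1236950581248, 137438953472)] :=
  cov_of (fRTX H BR0) (.n 1 (.n 0 (.n 2 (.l 0) (.n 2 (.l 0) (.l 0))) (.n 2 (.l 0) (.l 0))) (.n 0 (.n 2 (.n 1 (.l 0) (.n 2 (.l 0) (.l 0))) (.n 1 (.n 2 (.l 0) (.l 0)) (.n 2 (.l 0) (.n 0 (.l 0) (.l 0))))) (.n 2 (.n 1 (.l 0) (.l 0)) (.n 1 (.l 0) (.n 2 (.l 0) (.n 0 (.l 0) (.l 0))))))) [(1168231104512, 68719476736), (2554297581568, 38520487936), (1236950581248, 137438953472)] rfl (by decide +kernel)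
end

mutual
theorem R0RT_7 : CovD 1 [pRT H BR0, pX1] [(1168231104512, 68719476736), (2535037337600, 19260243968), (1511828488192, 137438953472)] :=
  cov_of (fRTX H BR0) (.n 0 (.n 2 (.n 0 (.l 0) (.l 0)) (.n 1 (.l 0) (.n 2 (.l 0) (.l 0)))) (.n 2 (.n 2 (.l 0) (.l 0)) (.n 0 (.l 0) (.l 0)))) [(1168231104512, 68719476736), (2535037337600, 19260243968), (1511828488192, 137438953472)] rfl (by decide +kernel)
theorem R0RT_9 : CovD 1 [pRT H BR0, pX1] [(1133871366144, 34359738368), (2573557825536, 19260243968), (1511828488192, 137438953472)] :=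
  cov_of (fRTX H BR0) (.n 2 (.n 1 (.n 2 (.l 0) (.l 0)) (.n 2 (.n 0 (.l 0) (.l 0)) (.n 1 (.l 0) (.n 0 (.l 0) (.l 0))))) (.n 1 (.n 0 (.n 2 (.l 0) (.l 0)) (.l 0)) (.n 2 (.n 0 (.n 1 (.l 0) (.n 2 (.l 0) (.l 0))) (.n 1 (.l 0) (.l 0))) (.n 0 (.n 1 (.l 0) (.n 2 (.l 0) (.n 0 (.l 0) (.l 0)))) (.n 1 (.l 0) (.n 2 (.l 0) (.l 0))))))) [(1133871366144, 34359738368), (2573557825536, 19260243968), (1511828488192, 137438953472)] rfl (by decide +kernel)
end

mutual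
theorem R0RT_10 : CovD 1 [pRT H BR0, pX1] [(1202590842880, 34359738368), (2573557825536, 19260243968), (1511828488192, 137438953472)] :=
  cov_of (fRTX H BR0) (.n 2 (.n 1 (.n 2 (.l 0) (.l 0)) (.n 2 (.n 0 (.l 0) (.l 0)) (.n 0 (.l 0) (.l 0)))) (.n 1 (.n 2 (.l 0) (.l 0)) (.n 2 (.n 1 (.l 0) (.n 0 (.l 0) (.l 0))) (.n 1 (.l 0) (.n 0 (.n 2 (.l 0) (.l 0)) (.l 0)))))) [(1202590842880, 34359738368), (2573557825536, 19260243968), (1511828488192, 137438953472)] rfl (by decide +kernel)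
theorem R0RT_14 : CovD 1 [pRT H BR0, pX1] [(1133871366144, 34359738368), (2535037337600, 19260243968), (1786706395136, 137438953472)] :=
  cov_of (fRTX H BR0) (.n 2 (.n 1 (.n 2 (.l 0) (.l 0)) (.n 2 (.l 0) (.l 0))) (.n 1 (.n 0 (.l 0) (.l 0)) (.n 0 (.n 2 (.l 0) (.l 0)) (.l 0)))) [(1133871366144, 34359738368), (2535037337600, 19260243968), (1786706395136, 137438953472)] rfl (by decide +kernel)
end

mutual
theorem R0RT_17 : CovD 1 [pRT H BR0, pX1] [(1133871366144, 34359738368), (2563927703552, 9630121984), (1717986918400, 68719476736)] :=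
  cov_of (fRTX H BR0) (.n 0 (.n 2 (.l 0) (.l 0)) (.n 2 (.l 0) (.l 0))) [(1133871366144, 34359738368), (2563927703552, 9630121984), (1717986918400, 68719476736)] rfl (by decide +kernel)
theorem R0RT_18 : CovD 1 [pRT H BR0, pX1] [(1133871366144, 34359738368), (2583187947520, 9630121984), (1717986918400, 68719476736)] :=
  cov_of (fRTX H BR0) (.n 0 (.n 2 (.n 1 (.l 0) (.n 2 (.n 0 (.l 0) (.l 0)) (.n 0 (.n 2 (.l 0) (.l 0)) (.l 0)))) (.n 1 (.n 2 (.l 0) (.l 0)) (.n 2 (.n 0 (.n 2 (.l 0) (.l 0)) (.l 0)) (.n 1 (.l 0) (.n 0 (.n 2 (.l 0) (.l 0)) (.l 0)))))) (.n 2 (.n 1 (.l 0) (.n 2 (.l 0) (.n 0 (.l 0) (.l 0)))) (.n 1 (.l 0) (.n 1 (.l 0) (.n 2 (.l 0) (.n 0 (.l 0) (.l 0))))))) [(1133871366144, 34359738368), (2583187947520, 9630121984), (1717986918400, 68719476736)] rfl (by decide +kernel)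
theorem R0RT_20 : CovD 1 [pRT H BR0, pX1] [(1133871366144, 34359738368), (2563927703552, 9630121984), (1855425871872, 68719476736)] :=
  cov_of (fRTX H BR0) (.n 0 (.n 2 (.l 0) (.n 2 (.l 0) (.l 0))) (.n 2 (.l 0) (.l 0))) [(1133871366144, 34359738368), (2563927703552, 9630121984), (1855425871872, 68719476736)] rfl (by decide +kernel)
end

end Pool.Agent.helper82.WC.S0cK0
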