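import Pool.Agent.helper82.WH.Chks

/-!
Generated: constants of a cell.
-/

namespace Pool.Agent.helper82.WC.S0cK0

open Pool.Agent.helper82.WH
open Pool.Agent.helper31.IC (CovD covD_split TD)

def H : HC := ⟨⟨1168231104512, 0⟩, ⟨5933940080640, 0⟩, ⟨2286747648, 0⟩, ⟨3140812800, 0⟩, ⟨0, 5312610304⟩, ⟨0, 4009361408⟩, ⟨0, 1557790720⟩, ⟨2173763584, 0⟩, ⟨1559625728, 0⟩, ⟨0, 219611136⟩, ⟨494731395072, 0⟩, ⟨322035187712, 0⟩, ⟨0, 139950555136⟩, ⟨0, 210561269760⟩, ⟨0, 45388333056⟩, ⟨57202507776, 0⟩, ⟨80981524480, 0⟩, ⟨0, 1338638336⟩, ⟨0, 5406851072⟩, ⟨0, 15628632064⟩, ⟨1070202880, 0⟩, ⟨489773006848, 0⟩, ⟨1487601664, 0⟩, ⟨0, 10876157952⟩, ⟨0, 244185038848⟩, ⟨31208636416, 0⟩, ⟨0, 0⟩⟩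

def BI0 : BC := ⟨⟨0, 0, 1099511627776, 0⟩, ⟨0, 0⟩, ⟨0, 0⟩, 777773318144, 44972769280, 101288312832, 169941925888, 219901198336, 872415232, 591581413376, 333262618624, ⟨2615635083264, 0⟩, ⟨111669149696, 0⟩, ⟨314817839104, 0⟩, ⟨0, 0⟩, ⟨0, 0⟩⟩

def BR0 : BC := ⟨⟨0, 0, 0, 0⟩, ⟨137438953472, 0⟩, ⟨1099511627776, 0⟩, 877039910912, 39050280960, 25530859520, 152358486016, 219901198336, 889192448, 592369942528, 333816266752, ⟨0, 0⟩, ⟨0, 0⟩, ⟨216497455104, 0⟩, ⟨0, 0⟩, ⟨0, 0⟩⟩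

def BP : BC := ⟨⟨0, 0, 0, 0⟩, ⟨137438953472, 0⟩, ⟨1099511627776, 0⟩, 827581726720, 32828489728, 37904908288, 195655565312, 219901198336, 872415232, 591279423488, 333061292032, ⟨0, 0⟩, ⟨0, 0⟩, ⟨265854189568, 0⟩, ⟨0, 0⟩, ⟨1099511627776, 0⟩⟩

def BM : BC := ⟨⟨0, 0, 0, 0⟩, ⟨137438953472, 0⟩, ⟨1099511627776, 0⟩, 937562931200, 55189766144, 42236444672, 59011563520, 219901198336, 889192448, 592369942528, 333816266752, ⟨0, 0⟩, ⟨0, 0⟩, ⟨155687452672, 0⟩, ⟨0, 0⟩, ⟨0, 1099511627776⟩⟩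

def BT : BC := ⟨⟨0, 0, 1099511627776, 0⟩, ⟨0, 0⟩, ⟨0, 0⟩, 777773318144, 44972769280, 101288312832, 169941925888, 219901198336, 872415232, 591581413376, 333262618624, ⟨2615635083264, 0⟩, ⟨223338299392, 0⟩, ⟨314817839104, 0⟩, ⟨1099511627776, 0⟩, ⟨0, 0⟩⟩

end Pool.Agent.helper82.WC.S0cK0
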