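import Pool.Agent.helper82.WC.S0cK1C0

/-!
Generated certificates, assembled.
-/

namespace Pool.Agent.helper82.WC.S0cK1

open Pool.Agent.helper82.WH
open Pool.Agent.helper31.IC (CovD covD_split TD)

theorem R0AD_4 : CovD 0 [pAD H BR0, pX0] [(1133871366144, 34359738368), (2611340115968, 18522046464), (68719476736, 68719476736)] :=
  covD_split 1 (by decide +kernel) R0AD_5 R0AD_6
theorem R0AD_3 : CovD 0 [pAD H BR0, pX0] [(1168231104512, 68719476736), (2611340115968, 18522046464), (68719476736, 68719476736)] :=
  covD_split 0 (by decide +kernel) R0AD_4 R0AD_7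
theorem R0AD_8 : CovD 0 [pAD H BR0, pX0] [(1168231104512, 68719476736), (2611340115968, 18522046464), (206158430208, 68719476736)] :=
  covD_split 0 (by decide +kernel) R0AD_9 R0AD_10
theorem R0AD_2 : CovD 0 [pAD H BR0, pX0] [(1168231104512, 68719476736), (2611340115968, 18522046464), (137438953472, 137438953472)] :=
  covD_split 2 (by decide +kernel) R0AD_3 R0AD_8
theorem R0AD_11 : CovD 0 [pAD H BR0, pX0] [(1168231104512, 68719476736), (2611340115968, 18522046464), (412316860416, 137438953472)] :=
  covD_split 0 (by decide +kernel) R0AD_12 R0AD_13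
theorem R0AD_1 : CovD 0 [pAD H BR0, pX0] [(1168231104512, 68719476736), (2611340115968, 18522046464), (274877906944, 274877906944)] :=
  covD_split 2 (by decide +kernel) R0AD_2 R0AD_11
theorem R0AD_15 : CovD 0 [pAD H BR0, pX0] [(1168231104512, 68719476736), (2611340115968, 18522046464), (687194767360, 137438953472)] :=
  covD_split 0 (by decide +kernel) R0AD_16 R0AD_17
theorem R0AD_14 : CovD 0 [pAD H BR0, pX0] [(1168231104512, 68719476736), (2611340115968, 18522046464), (824633720832, 274877906944)] :=
  covD_split 2 (by decide +kernel) R0AD_15 R0AD_18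
theorem R0AD_0 : CovD 0 [pAD H BR0, pX0] [(1168231104512, 68719476736), (2611340115968, 18522046464), (549755813888, 549755813888)] :=
  covD_split 2 (by decide +kernel) R0AD_1 R0AD_14
theorem R0AD_20 : CovD 0 [pAD H BR0, pX0] [(1168231104512, 68719476736), (2611340115968, 18522046464), (1374389534720, 274877906944)] :=
  covD_split 0 (by decide +kernel) R0AD_21 R0AD_22
theorem R0AD_23 : CovD 0 [pAD H BR0, pX0] [(1168231104512, 68719476736), (2611340115968, 18522046464), (1924145348608, 274877906944)] :=
  covD_split 0 (by decide +kernel) R0AD_24 R0AD_25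
theorem R0AD_19 : CovD 0 [pAD H BR0, pX0] [(1168231104512, 68719476736), (2611340115968, 18522046464), (1649267441664, 549755813888)] :=
  covD_split 2 (by decide +kernel) R0AD_20 R0AD_23
theorem R0AD : CovD 0 [pAD H BR0, pX0] [(1168231104512, 68719476736), (2611340115968, 18522046464), (1099511627776, 1099511627776)] :=
  covD_split 2 (by decide +kernel) R0AD_0 R0AD_19
theorem R0RT_3 : CovD 1 [pRT H BR0, pX1] [(1168231104512, 68719476736), (2611340115968, 18522046464), (1924145348608, 274877906944)] :=
  covD_split 2 (by decide +kernel) R0RT_4 R0RT_5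
theorem R0RT_1 : CovD 1 [pRT H BR0, pX1] [(1168231104512, 68719476736), (2611340115968, 18522046464), (1649267441664, 549755813888)] :=
  covD_split 2 (by decide +kernel) R0RT_2 R0RT_3
theorem R0RT : CovD 1 [pRT H BR0, pX1] [(1168231104512, 68719476736), (2611340115968, 18522046464), (1099511627776, 1099511627776)] :=
  covD_split 2 (by decide +kernel) R0RT_0 R0RT_1

end Pool.Agent.helper82.WC.S0cK1
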