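import Pool.Agent.helper82.WH.Chks

/-!
Generated: constants of a cell.
-/

namespace Pool.Agent.helper82.WC.S0cK1

open Pool.Agent.helper82.WH
open Pool.Agent.helper31.IC (CovD covD_split TD)

def H : HC := ⟨⟨1168231104512, 0⟩, ⟨6201932775424, 0⟩, ⟨14623309824, 0⟩, ⟨3772448768, 0⟩, ⟨0, 5817696256⟩, ⟨0, 13277003776⟩, ⟨0, 1559625728⟩, ⟨2105475072, 0⟩, ⟨3840147456, 0⟩, ⟨0, 391249920⟩, ⟨503036968960, 0⟩, ⟨240352624640, 0⟩, ⟨0, 169436905472⟩, ⟨0, 222515101696⟩, ⟨0, 6956646400⟩, ⟨67447947264, 0⟩, ⟨83194413056, 0⟩, ⟨0, 5253758976⟩, ⟨0, 6329139200⟩, ⟨0, 15246295040⟩, ⟨991821824, 0⟩, ⟨118332850176, 0⟩, ⟨14196670464, 0⟩, ⟨0, 4819124224⟩, ⟨0, 54448422912⟩, ⟨6701514752, 0⟩, ⟨0, 0⟩⟩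

def BI0 : BC := ⟨⟨0, 0, 1099511627776, 0⟩, ⟨0, 0⟩, ⟨0, 0⟩, 767360565248, 41715040256, 103928889344, 180970651648, 219901198336, 872415232, 571868184576, 319371083776, ⟨2787433775104, 0⟩, ⟨197568495616, 0⟩, ⟨325219909632, 0⟩, ⟨0, 0⟩, ⟨0, 0⟩⟩

def BR0 : BC := ⟨⟨0, 0, 0, 0⟩, ⟨137438953472, 0⟩, ⟨1099511627776, 0⟩, 942185512960, 54443442176, 23296737280, 74072195072, 219901198336, 889192448, 572539273216, 319840845824, ⟨0, 0⟩, ⟨0, 0⟩, ⟨151286906880, 0⟩, ⟨0, 0⟩, ⟨0, 0⟩⟩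

def BP : BC := ⟨⟨0, 0, 0, 0⟩, ⟨137438953472, 0⟩, ⟨1099511627776, 0⟩, 857224904704, 32138723328, 74893754368, 129728839680, 219901198336, 872415232, 571599749120, 319186534400, ⟨0, 0⟩, ⟨0, 0⟩, ⟨235785093120, 0⟩, ⟨0, 0⟩, ⟨1099511627776, 0⟩⟩

def BM : BC := ⟨⟨0, 0, 0, 0⟩, ⟨137438953472, 0⟩, ⟨1099511627776, 0⟩, 847511879680, 33107542016, 78395604992, 134969425920, 219901198336, 889192448, 572539273216, 319840845824, ⟨0, 0⟩, ⟨0, 0⟩, ⟨245449293824, 0⟩, ⟨0, 0⟩, ⟨0, 1099511627776⟩⟩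

def BT : BC := ⟨⟨0, 0, 1099511627776, 0⟩, ⟨0, 0⟩, ⟨0, 0⟩, 767361220608, 41715236864, 103929348096, 180969340928, 219901198336, 872415232, 571868184576, 319371083776, ⟨2787433775104, 0⟩, ⟨395136991232, 0⟩, ⟨325219254272, 0⟩, ⟨1099511627776, 0⟩, ⟨0, 0⟩⟩

end Pool.Agent.helper82.WC.S0cK1
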