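import Pool.Agent.helper82.WH.Chks

/-!
Generated: constants of a cell.
-/

namespace Pool.Agent.helper82.WC.S0cK2

open Pool.Agent.helper82.WH
open Pool.Agent.helper31.IC (CovD covD_split TD)

def H : HC := ⟨⟨1168231104512, 0⟩, ⟨6343628029952, 0⟩, ⟨16737566720, 0⟩, ⟨4193320960, 0⟩, ⟨0, 6386679808⟩, ⟨0, 14401011712⟩, ⟨0, 1596588032⟩, ⟨2161442816, 0⟩, ⟨3990421504, 0⟩, ⟨0, 387055616⟩, ⟨582183485440, 0⟩, ⟨225286553600, 0⟩, ⟨0, 162741485568⟩, ⟨0, 297234792448⟩, ⟨0, 758841344⟩, ⟨62600839168, 0⟩, ⟨107619614720, 0⟩, ⟨0, 5670764544⟩, ⟨0, 5649661952⟩, ⟨0, 18556321792⟩, ⟨1150025728, 0⟩, ⟨466262032384, 0⟩, ⟨637599744, 0⟩, ⟨240582656, 0⟩, ⟨0, 203671076864⟩, ⟨22680502272, 0⟩, ⟨0, 0⟩⟩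

def BI0 : BC := ⟨⟨0, 0, 1099511627776, 0⟩, ⟨0, 0⟩, ⟨0, 0⟩, 620797427712, 57521143808, 150466854912, 265172484096, 219901198336, 872415232, 562825265152, 312995741696, ⟨2804613644288, 0⟩, ⟨214748364800, 0⟩, ⟨471013457920, 0⟩, ⟨0, 0⟩, ⟨0, 0⟩⟩

def BR0 : BC := ⟨⟨0, 0, 0, 0⟩, ⟨137438953472, 0⟩, ⟨1099511627776, 0⟩, 770384134144, 79790080000, 40234647552, 203561238528, 219901198336, 889192448, 563479576576, 313448726528, ⟨0, 0⟩, ⟨0, 0⟩, ⟨322733080576, 0⟩, ⟨0, 0⟩, ⟨0, 0⟩⟩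

def BP : BC := ⟨⟨0, 0, 0, 0⟩, ⟨137438953472, 0⟩, ⟨1099511627776, 0⟩, 612639178752, 57114755072, 153305481216, 270897315840, 219901198336, 872415232, 562590384128, 312827969536, ⟨0, 0⟩, ⟨0, 0⟩, ⟨479133237248, 0⟩, ⟨0, 0⟩, ⟨1099511627776, 0⟩⟩

def BM : BC := ⟨⟨0, 0, 0, 0⟩, ⟨137438953472, 0⟩, ⟨1099511627776, 0⟩, 600284069888, 59506556928, 157477830656, 276685783040, 219901198336, 889192448, 563479576576, 313448726528, ⟨0, 0⟩, ⟨0, 0⟩, ⟨491404984320, 0⟩, ⟨0, 0⟩, ⟨0, 1099511627776⟩⟩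

def BT : BC := ⟨⟨0, 0, 1099511627776, 0⟩, ⟨0, 0⟩, ⟨0, 0⟩, 620797427712, 57521143808, 150466854912, 265172484096, 219901198336, 872415232, 562825265152, 312995741696, ⟨2804613644288, 0⟩, ⟨425201762304, 0⟩, ⟨471013457920, 0⟩, ⟨1099511627776, 0⟩, ⟨0, 0⟩⟩

end Pool.Agent.helper82.WC.S0cK2
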