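import Pool.Agent.helper82.WH.Chks

/-!
Generated: constants of a cell.
-/

namespace Pool.Agent.helper82.WC.S0cK3

open Pool.Agent.helper82.WH
open Pool.Agent.helper31.IC (CovD covD_split TD)

def H : HC := ⟨⟨1168231104512, 0⟩, ⟨6466726920192, 0⟩, ⟨17121738752, 0⟩, ⟨4008771584, 0⟩, ⟨0, 5906694144⟩, ⟨0, 14196473856⟩, ⟨0, 1471479808⟩, ⟨1941438464, 0⟩, ⟨3808755712, 0⟩, ⟨0, 357171200⟩, ⟨591059615744, 0⟩, ⟨179538952192, 0⟩, ⟨0, 161643298816⟩, ⟨0, 300687818752⟩, ⟨18486657024, 0⟩, ⟨60610641920, 0⟩, ⟨105614147584, 0⟩, ⟨0, 7394230272⟩, ⟨0, 5340921856⟩, ⟨0, 17608540160⟩, ⟨1056178176, 0⟩, ⟨164816486400, 0⟩, ⟨0, 2866020352⟩, ⟨0, 20652752896⟩, ⟨0, 71796260864⟩, ⟨8275689472, 0⟩, ⟨0, 0⟩⟩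

def BI0 : BC := ⟨⟨0, 0, 1099511627776, 0⟩, ⟨0, 0⟩, ⟨0, 0⟩, 638761828352, 55084187648, 145473863680, 254640783360, 219901198336, 872415232, 557540442112, 309271199744, ⟨2727304232960, 0⟩, ⟨223338299392, 0⟩, ⟨453143035904, 0⟩, ⟨0, 0⟩, ⟨0, 0⟩⟩

def BR0 : BC := ⟨⟨0, 0, 0, 0⟩, ⟨137438953472, 0⟩, ⟨1099511627776, 0⟩, 796066447360, 62291443712, 34519777280, 201093414912, 219901198336, 889192448, 558144421888, 309690630144, ⟨0, 0⟩, ⟨0, 0⟩, ⟨297230008320, 0⟩, ⟨0, 0⟩, ⟨0, 0⟩⟩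

def BP : BC := ⟨⟨0, 0, 0, 0⟩, ⟨137438953472, 0⟩, ⟨1099511627776, 0⟩, 713976578048, 47714467840, 120718557184, 211560169472, 219901198336, 872415232, 557305561088, 309086650368, ⟨0, 0⟩, ⟨0, 0⟩, ⟨378335920128, 0⟩, ⟨0, 0⟩, ⟨1099511627776, 0⟩⟩

def BM : BC := ⟨⟨0, 0, 0, 0⟩, ⟨137438953472, 0⟩, ⟨1099511627776, 0⟩, 700932554752, 49824792576, 125225664512, 217984335872, 219901198336, 889192448, 558144421888, 309690630144, ⟨0, 0⟩, ⟨0, 0⟩, ⟨391301693440, 0⟩, ⟨0, 0⟩, ⟨0, 1099511627776⟩⟩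

def BT : BC := ⟨⟨0, 0, 1099511627776, 0⟩, ⟨0, 0⟩, ⟨0, 0⟩, 638761828352, 55084187648, 145473863680, 254640783360, 219901198336, 872415232, 557540442112, 309271199744, ⟨2727304232960, 0⟩, ⟨446676598784, 0⟩, ⟨453143035904, 0⟩, ⟨1099511627776, 0⟩, ⟨0, 0⟩⟩

end Pool.Agent.helper82.WC.S0cK3
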