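import Pool.Agent.helper82.WH.Chks

/-!
Generated: constants of a cell.
-/

namespace Pool.Agent.helper82.WC.S0cK4

open Pool.Agent.helper82.WH
open Pool.Agent.helper31.IC (CovD covD_split TD)

def H : HC := ⟨⟨1168231104512, 0⟩, ⟨6628523966464, 0⟩, ⟨16651059200, 0⟩, ⟨3421962240, 0⟩, ⟨0, 5384175616⟩, ⟨0, 13309771776⟩, ⟨0, 1240662016⟩, ⟨1711931392, 0⟩, ⟨3451781120, 0⟩, ⟨0, 312475648⟩, ⟨546453258240, 0⟩, ⟨178663260160, 0⟩, ⟨0, 163934896128⟩, ⟨0, 257384710144⟩, ⟨16589586432, 0⟩, ⟨59512127488, 0⟩, ⟨88160534528, 0⟩, ⟨0, 6750535680⟩, ⟨0, 5062197248⟩, ⟨0, 14413004800⟩, ⟨842334208, 0⟩, ⟨192928219136, 0⟩, ⟨19393937408, 0⟩, ⟨0, 7589265408⟩, ⟨0, 81939595264⟩, ⟨9081651200, 0⟩, ⟨0, 0⟩⟩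

def BI0 : BC := ⟨⟨0, 0, 1099511627776, 0⟩, ⟨0, 0⟩, ⟨0, 0⟩, 776319991808, 40476803072, 101303975936, 175876866048, 219901198336, 872415232, 550796001280, 304506470400, ⟨2641404887040, 0⟩, ⟨244813135872, 0⟩, ⟨316303474688, 0⟩, ⟨0, 0⟩, ⟨0, 0⟩⟩

def BR0 : BC := ⟨⟨0, 0, 0, 0⟩, ⟨137438953472, 0⟩, ⟨1099511627776, 0⟩, 967817887744, 38058721280, 18081972224, 70040748032, 219901198336, 889192448, 551366426624, 304909123584, ⟨0, 0⟩, ⟨0, 0⟩, ⟨125806903296, 0⟩, ⟨0, 0⟩, ⟨0, 0⟩⟩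

def BP : BC := ⟨⟨0, 0, 0, 0⟩, ⟨137438953472, 0⟩, ⟨1099511627776, 0⟩, 922157121536, 25297551360, 54343368704, 92196962304, 219901198336, 872415232, 550577897472, 304355475456, ⟨0, 0⟩, ⟨0, 0⟩, ⟨171137564672, 0⟩, ⟨0, 0⟩, ⟨1099511627776, 0⟩⟩

def BM : BC := ⟨⟨0, 0, 0, 0⟩, ⟨137438953472, 0⟩, ⟨1099511627776, 0⟩, 850067914752, 33872084992, 77390020608, 132656005120, 219901198336, 889192448, 551366426624, 304909123584, ⟨0, 0⟩, ⟨0, 0⟩, ⟨242900467712, 0⟩, ⟨0, 0⟩, ⟨0, 1099511627776⟩⟩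

def BT : BC := ⟨⟨0, 0, 1099511627776, 0⟩, ⟨0, 0⟩, ⟨0, 0⟩, 776319991808, 40476803072, 101303975936, 175876866048, 219901198336, 872415232, 550796001280, 304506470400, ⟨2641404887040, 0⟩, ⟨489626271744, 0⟩, ⟨316303474688, 0⟩, ⟨1099511627776, 0⟩, ⟨0, 0⟩⟩

end Pool.Agent.helper82.WC.S0cK4
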