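import Pool.Agent.helper82.WH.Chks

/-!
Generated: constants of a cell.
-/

namespace Pool.Agent.helper82.WC.S0cK5

open Pool.Agent.helper82.WH
open Pool.Agent.helper31.IC (CovD covD_split TD)

def H : HC := ⟨⟨1168231104512, 0⟩, ⟨6776983453696, 0⟩, ⟨18709348352, 0⟩, ⟨3834904576, 0⟩, ⟨0, 5790957568⟩, ⟨0, 14292287488⟩, ⟨0, 1270480896⟩, ⟨1735393280, 0⟩, ⟨3564896256, 0⟩, ⟨0, 308609024⟩, ⟨672537444352, 0⟩, ⟨149332033536, 0⟩, ⟨0, 169382445056⟩, ⟨0, 363768578048⟩, ⟨27691253760, 0⟩, ⟨60242657280, 0⟩, ⟨119981998080, 0⟩, ⟨0, 7585792000⟩, ⟨0, 5028904960⟩, ⟨0, 18436521984⟩, ⟨1025310720, 0⟩, ⟨648199274496, 0⟩, ⟨0, 1655046144⟩, ⟨0, 17410555904⟩, ⟨0, 268864454656⟩, ⟨28184870912, 0⟩, ⟨0, 0⟩⟩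

def BI0 : BC := ⟨⟨0, 0, 1099511627776, 0⟩, ⟨0, 0⟩, ⟨0, 0⟩, 625204068352, 56554553344, 149160525824, 263041122304, 219901198336, 872415232, 542222843904, 298466672640, ⟨2710124363776, 0⟩, ⟨274877906944, 0⟩, ⟨466634276864, 0⟩, ⟨0, 0⟩, ⟨0, 0⟩⟩

def BR0 : BC := ⟨⟨0, 0, 0, 0⟩, ⟨137438953472, 0⟩, ⟨1099511627776, 0⟩, 902367870976, 54091055104, 25928925184, 111602958336, 219901198336, 889192448, 542759714816, 298835771392, ⟨0, 0⟩, ⟨0, 0⟩, ⟨191076892672, 0⟩, ⟨0, 0⟩, ⟨0, 0⟩⟩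

def BP : BC := ⟨⟨0, 0, 0, 0⟩, ⟨137438953472, 0⟩, ⟨1099511627776, 0⟩, 750765539328, 42102816768, 109083688960, 192022839296, 219901198336, 872415232, 542021517312, 298315677696, ⟨0, 0⟩, ⟨0, 0⟩, ⟨341744812032, 0⟩, ⟨0, 0⟩, ⟨1099511627776, 0⟩⟩

def BM : BC := ⟨⟨0, 0, 0, 0⟩, ⟨137438953472, 0⟩, ⟨1099511627776, 0⟩, 699812872192, 47986573312, 125570318336, 220598304768, 219901198336, 889192448, 542759714816, 298835771392, ⟨0, 0⟩, ⟨0, 0⟩, ⟨392431140864, 0⟩, ⟨0, 0⟩, ⟨0, 1099511627776⟩⟩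

def BT : BC := ⟨⟨0, 0, 1099511627776, 0⟩, ⟨0, 0⟩, ⟨0, 0⟩, 625203740672, 56554487808, 149160263680, 263041843200, 219901198336, 872415232, 542222843904, 298466672640, ⟨2710124363776, 0⟩, ⟨545460846592, 0⟩, ⟨466634735616, 0⟩, ⟨1099511627776, 0⟩, ⟨0, 0⟩⟩

end Pool.Agent.helper82.WC.S0cK5
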