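import Pool.Agent.helper82.WH.Chks

/-!
Generated: constants of a cell.
-/

namespace Pool.Agent.helper82.WC.S0cK6

open Pool.Agent.helper82.WH
open Pool.Agent.helper31.IC (CovD covD_split TD)

def H : HC := ⟨⟨1168231104512, 0⟩, ⟨6906215792640, 0⟩, ⟨19572260864, 0⟩, ⟨4273995776, 0⟩, ⟨0, 5043912704⟩, ⟨0, 14423687168⟩, ⟨0, 1332543488⟩, ⟨1487208448, 0⟩, ⟨3482451968, 0⟩, ⟨0, 291241984⟩, ⟨664478154752, 0⟩, ⟨138579214336, 0⟩, ⟨0, 169767534592⟩, ⟨0, 352756695040⟩, ⟨30270095360, 0⟩, ⟨58866008064, 0⟩, ⟨113847762944, 0⟩, ⟨0, 7527202816⟩, ⟨0, 4784783360⟩, ⟨0, 17089822720⟩, ⟨927334400, 0⟩, ⟨594840649728, 0⟩, ⟨16952655872, 0⟩, ⟨0, 788201472⟩, ⟨0, 235938316288⟩, ⟨23694540800, 0⟩, ⟨0, 0⟩⟩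

def BI0 : BC := ⟨⟨0, 0, 1099511627776, 0⟩, ⟨0, 0⟩, ⟨0, 0⟩, 837081366528, 34507718656, 81703075840, 140693405696, 219901198336, 872415232, 537172901888, 294909902848, ⟨2680059592704, 0⟩, ⟨317827579904, 0⟩, ⟨255830065152, 0⟩, ⟨0, 0⟩, ⟨0, 0⟩⟩

def BR0 : BC := ⟨⟨0, 0, 0, 0⟩, ⟨137438953472, 0⟩, ⟨1099511627776, 0⟩, 961635549184, 44633161728, 19788136448, 67943137280, 219901198336, 889192448, 537692995584, 295279001600, ⟨0, 0⟩, ⟨0, 0⟩, ⟨131932946432, 0⟩, ⟨0, 0⟩, ⟨0, 0⟩⟩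

def BP : BC := ⟨⟨0, 0, 0, 0⟩, ⟨137438953472, 0⟩, ⟨1099511627776, 0⟩, 855341203456, 30855004160, 75903467520, 131887661056, 219901198336, 872415232, 537005129728, 294775685120, ⟨0, 0⟩, ⟨0, 0⟩, ⟨237664927744, 0⟩, ⟨0, 0⟩, ⟨1099511627776, 0⟩⟩

def BM : BC := ⟨⟨0, 0, 0, 0⟩, ⟨137438953472, 0⟩, ⟨1099511627776, 0⟩, 897758003200, 27599175680, 62514790400, 106120151040, 219901198336, 889192448, 537692995584, 295279001600, ⟨0, 0⟩, ⟨0, 0⟩, ⟨195427893248, 0⟩, ⟨0, 0⟩, ⟨0, 1099511627776⟩⟩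

def BT : BC := ⟨⟨0, 0, 1099511627776, 0⟩, ⟨0, 0⟩, ⟨0, 0⟩, 837081366528, 34507718656, 81703075840, 140693405696, 219901198336, 872415232, 537172901888, 294909902848, ⟨2680059592704, 0⟩, ⟨635655159808, 0⟩, ⟨255830065152, 0⟩, ⟨1099511627776, 0⟩, ⟨0, 0⟩⟩

end Pool.Agent.helper82.WC.S0cK6
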