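import Pool.Agent.helper82.WH.Chks

/-!
Generated: constants of a cell.
-/

namespace Pool.Agent.helper82.WC.S0dK0

open Pool.Agent.helper82.WH
open Pool.Agent.helper31.IC (CovD covD_split TD)

def H : HC := ⟨⟨1511828488192, 0⟩, ⟨3021478297600, 0⟩, ⟨0, 18023448576⟩, ⟨0, 1931476992⟩, ⟨0, 842006528⟩, ⟨16894918656, 0⟩, ⟨0, 7615676416⟩, ⟨11130306560, 0⟩, ⟨0, 12762873856⟩, ⟨1873346560, 0⟩, ⟨290313469952, 0⟩, ⟨404561723392, 0⟩, ⟨0, 164246716416⟩, ⟨560466296832, 0⟩, ⟨0, 134589120512⟩, ⟨138619912192, 0⟩, ⟨0, 517508825088⟩, ⟨5018615808, 0⟩, ⟨0, 28318892032⟩, ⟨177505959936, 0⟩, ⟨0, 22886678528⟩, ⟨220290023424, 0⟩, ⟨0, 26589396992⟩, ⟨0, 4702797824⟩, ⟨0, 198438551552⟩, ⟨57260703744, 0⟩, ⟨0, 0⟩⟩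

def BI0 : BC := ⟨⟨0, 0, 1099511627776, 0⟩, ⟨0, 0⟩, ⟨0, 0⟩, 398496169984, 82087903232, 230738690048, 382637506560, 219901198336, 939524096, 335829532672, 400170156032, ⟨3049426780160, 0⟩, ⟨0, 12884901888⟩, ⟨691732283392, 0⟩, ⟨0, 0⟩, ⟨0, 0⟩⟩

def BR0 : BC := ⟨⟨0, 0, 0, 0⟩, ⟨137438953472, 0⟩, ⟨1099511627776, 0⟩, 523307778048, 113081778176, 82728714240, 374837739520, 219901198336, 1023410176, 337507254272, 402334416896, ⟨0, 0⟩, ⟨0, 0⟩, ⟨569016320000, 0⟩, ⟨0, 0⟩, ⟨0, 0⟩⟩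

def BP : BC := ⟨⟨0, 0, 0, 0⟩, ⟨137438953472, 0⟩, ⟨1099511627776, 0⟩, 413314842624, 81502994432, 224750272512, 374395109376, 219901198336, 905969664, 337507254272, 398710538240, ⟨0, 0⟩, ⟨0, 0⟩, ⟨677031706624, 0⟩, ⟨0, 0⟩, ⟨1099511627776, 0⟩⟩

def BM : BC := ⟨⟨0, 0, 0, 0⟩, ⟨137438953472, 0⟩, ⟨1099511627776, 0⟩, 408681250816, 83340689408, 226673688576, 375260971008, 219901198336, 1023410176, 333044514816, 402334416896, ⟨0, 0⟩, ⟨0, 0⟩, ⟨681608216576, 0⟩, ⟨0, 0⟩, ⟨0, 1099511627776⟩⟩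

def BT : BC := ⟨⟨0, 0, 1099511627776, 0⟩, ⟨0, 0⟩, ⟨0, 0⟩, 398436859904, 82088951808, 230759727104, 382674665472, 219901198336, 939524096, 335829532672, 400170156032, ⟨3049426780160, 0⟩, ⟨0, 21474836480⟩, ⟨691791134720, 0⟩, ⟨1099511627776, 0⟩, ⟨0, 0⟩⟩

end Pool.Agent.helper82.WC.S0dK0
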