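import Pool.Agent.helper82.WH.Chks

/-!
Generated: constants of a cell.
-/

namespace Pool.Agent.helper82.WC.S0dK1

open Pool.Agent.helper82.WH
open Pool.Agent.helper31.IC (CovD covD_split TD)

def H : HC := ⟨⟨1511828488192, 0⟩, ⟨3455196921856, 0⟩, ⟨0, 20548943872⟩, ⟨0, 1020788736⟩, ⟨0, 3182166016⟩, ⟨22286958592, 0⟩, ⟨0, 4850253824⟩, ⟨8323137536, 0⟩, ⟨0, 12739477504⟩, ⟨1692663808, 0⟩, ⟨380063514624, 0⟩, ⟨352105463808, 0⟩, ⟨0, 182228484096⟩, ⟨237213319168, 0⟩, ⟨0, 74226270208⟩, ⟨137541779456, 0⟩, ⟨0, 194484568064⟩, ⟨0, 7609319424⟩, ⟨0, 24932253696⟩, ⟨48603004928, 0⟩, ⟨0, 4441178112⟩, ⟨73234055168, 0⟩, ⟨0, 3823894528⟩, ⟨0, 9179955200⟩, ⟨0, 46085373952⟩, ⟨13163364352, 0⟩, ⟨0, 0⟩⟩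

def BI0 : BC := ⟨⟨0, 0, 1099511627776, 0⟩, ⟨0, 0⟩, ⟨0, 0⟩, 495638675456, 74706845696, 195081142272, 328550645760, 219901198336, 922746880, 267445600256, 368847093760, ⟨2911987826688, 0⟩, ⟨0, 12884901888⟩, ⟨595305431040, 0⟩, ⟨0, 0⟩, ⟨0, 0⟩⟩

def BR0 : BC := ⟨⟨0, 0, 0, 0⟩, ⟨137438953472, 0⟩, ⟨1099511627776, 0⟩, 601692635136, 97305624576, 61274783744, 333701251072, 219901198336, 973078528, 268838109184, 370608701440, ⟨0, 0⟩, ⟨0, 0⟩, ⟨491040276480, 0⟩, ⟨0, 0⟩, ⟨0, 0⟩⟩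

def BP : BC := ⟨⟨0, 0, 0, 0⟩, ⟨137438953472, 0⟩, ⟨1099511627776, 0⟩, 510456496128, 73668165632, 189091479552, 320763330560, 219901198336, 889192448, 268838109184, 367689465856, ⟨0, 0⟩, ⟨0, 0⟩, ⟨580598693888, 0⟩, ⟨0, 0⟩, ⟨1099511627776, 0⟩⟩

def BM : BC := ⟨⟨0, 0, 0, 0⟩, ⟨137438953472, 0⟩, ⟨1099511627776, 0⟩, 494247084032, 74941726720, 195113844736, 329672687616, 219901198336, 973078528, 265063235584, 370608701440, ⟨0, 0⟩, ⟨0, 0⟩, ⟨596694073344, 0⟩, ⟨0, 0⟩, ⟨0, 1099511627776⟩⟩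

def BT : BC := ⟨⟨0, 0, 1099511627776, 0⟩, ⟨0, 0⟩, ⟨0, 0⟩, 495551840256, 74711891968, 195110174720, 328603402240, 219901198336, 922746880, 267445600256, 368847093760, ⟨2911987826688, 0⟩, ⟨0, 25769803776⟩, ⟨595391741952, 0⟩, ⟨1099511627776, 0⟩, ⟨0, 0⟩⟩

end Pool.Agent.helper82.WC.S0dK1
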