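import Pool.Agent.helper82.WC.S0dK2P

/-!
Generated certificates (in pairs, so that they are checked one after the other).
-/

namespace Pool.Agent.helper82.WC.S0dK2

open Pool.Agent.helper82.WH
open Pool.Agent.helper31.IC (CovD covD_split TD)

mutual
theorem MAD : CovD 0 [pAD H BM, pX0] [(1511828488192, 137438953472), (2130840649728, 110326972416), (0, 0)] :=
  cov_of (fADX H BM) (.n 1 (.n 0 (.n 0 (.n 1 (.l 0) (.n 0 (.l 0) (.l 0))) (.n 1 (.l 0) (.n 0 (.l 0) (.l 0)))) (.n 0 (.n 0 (.n 1 (.n 0 (.l 0) (.l 1)) (.l 0)) (.l 1)) (.l 1))) (.n 0 (.n 0 (.n 1 (.n 0 (.l 0) (.n 1 (.l 0) (.l 0))) (.n 0 (.n 1 (.l 0) (.l 0)) (.l 1))) (.l 1)) (.l 1))) [(1511828488192, 137438953472), (2130840649728, 110326972416), (0, 0)] rfl (by decide +kernel)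
theorem MG : CovD 1 [pG H BM, pX1] [(1511828488192, 137438953472), (2130840649728, 110326972416), (0, 0)] :=
  cov_of (fGX H BM) (.l 0) [(1511828488192, 137438953472), (2130840649728, 110326972416), (0, 0)] rfl (by decide +kernel)
end

mutual
theorem MRT : CovD 1 [pRT H BM, pX1] [(1511828488192, 137438953472), (2130840649728, 110326972416), (0, 0)] :=
  cov_of (fRTX H BM) (.n 1 (.n 0 (.l 0) (.n 0 (.n 0 (.n 1 (.l 0) (.l 1)) (.l 1)) (.l 1))) (.n 0 (.n 0 (.l 0) (.l 1)) (.l 1))) [(1511828488192, 137438953472), (2130840649728, 110326972416), (0, 0)] rfl (by decide +kernel)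
theorem MTT : CovD 1 [pTT H BM, pX1] [(1511828488192, 137438953472), (2130840649728, 110326972416), (0, 0)] :=
  cov_of (fTTX H BM) (.l 0) [(1511828488192, 137438953472), (2130840649728, 110326972416), (0, 0)] rfl (by decide +kernel)
end

mutual
theorem TAD : CovD 0 [pAD H BT, pX0] [(1511828488192, 137438953472), (2130840649728, 110326972416), (17179869184, 0)] :=
  cov_of (fADX H BT) (.n 1 (.n 0 (.n 0 (.n 1 (.l 0) (.l 0)) (.n 1 (.l 0) (.n 1 (.l 0) (.n 0 (.l 0) (.l 1))))) (.n 1 (.n 0 (.n 0 (.l 0) (.l 0)) (.l 1)) (.l 1))) (.n 0 (.n 0 (.n 1 (.n 0 (.l 0) (.n 1 (.l 0) (.n 0 (.l 0) (.l 1)))) (.n 0 (.n 1 (.l 0) (.l 0)) (.l 1))) (.l 1)) (.l 1))) [(1511828488192, 137438953472), (2130840649728, 110326972416), (17179869184, 0)] rfl (by decide +kernel)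
theorem TG : CovD 1 [pG H BT, pX1] [(1511828488192, 137438953472), (2130840649728, 110326972416), (17179869184, 0)] :=
  cov_of (fGX H BT) (.l 0) [(1511828488192, 137438953472), (2130840649728, 110326972416), (17179869184, 0)] rfl (by decide +kernel)
end

mutual
theorem TRT : CovD 1 [pRT H BT, pX1] [(1511828488192, 137438953472), (2130840649728, 110326972416), (17179869184, 0)] :=
  cov_of (fRTX H BT) (.n 1 (.n 0 (.n 0 (.l 0) (.l 0)) (.n 1 (.n 0 (.n 0 (.l 0) (.l 1)) (.l 1)) (.l 1))) (.n 0 (.n 0 (.n 1 (.l 0) (.l 0)) (.l 1)) (.l 1))) [(1511828488192, 137438953472), (2130840649728, 110326972416), (17179869184, 0)] rfl (by decide +kernel)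
theorem TTT : CovD 1 [pTT H BT, pX1] [(1511828488192, 137438953472), (2130840649728, 110326972416), (17179869184, 0)] :=
  cov_of (fTTX H BT) (.n 0 (.l 0) (.l 0)) [(1511828488192, 137438953472), (2130840649728, 110326972416), (17179869184, 0)] rfl (by decide +kernel)
end

end Pool.Agent.helper82.WC.S0dK2
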