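import Pool.Agent.helper82.WC.S0dK2P

/-!
Generated certificates (in pairs, so that they are checked one after the other).
-/

namespace Pool.Agent.helper82.WC.S0dK2

open Pool.Agent.helper82.WH
open Pool.Agent.helper31.IC (CovD covD_split TD)

mutual
theorem I0AD : CovD 0 [pAD H BI0, pX0] [(1511828488192, 137438953472), (2130840649728, 110326972416), (8589934592, 8589934592)] :=
  cov_of (fADX H BI0) (.n 1 (.n 0 (.n 0 (.n 1 (.l 0) (.l 0)) (.n 1 (.l 0) (.n 1 (.l 0) (.n 0 (.l 0) (.l 1))))) (.n 1 (.n 0 (.n 0 (.l 0) (.l 0)) (.l 1)) (.l 1))) (.n 0 (.n 0 (.n 1 (.n 0 (.l 0) (.n 1 (.n 0 (.l 0) (.l 0)) (.n 0 (.l 0) (.l 1)))) (.n 0 (.n 1 (.l 0) (.l 0)) (.l 1))) (.l 1)) (.l 1))) [(1511828488192, 137438953472), (2130840649728, 110326972416), (8589934592, 8589934592)] rfl (by decide +kernel)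
theorem I0G : CovD 1 [pG H BI0, pX1] [(1511828488192, 137438953472), (2130840649728, 110326972416), (8589934592, 8589934592)] :=
  cov_of (fGX H BI0) (.l 0) [(1511828488192, 137438953472), (2130840649728, 110326972416), (8589934592, 8589934592)] rfl (by decide +kernel)
end

mutual
theorem I0RT : CovD 1 [pRT H BI0, pX1] [(1511828488192, 137438953472), (2130840649728, 110326972416), (8589934592, 8589934592)] :=
  cov_of (fRTX H BI0) (.n 1 (.n 0 (.n 0 (.l 0) (.l 0)) (.n 1 (.n 0 (.n 0 (.l 0) (.l 1)) (.l 1)) (.l 1))) (.n 0 (.n 0 (.n 1 (.l 0) (.n 0 (.l 0) (.l 0))) (.l 1)) (.l 1))) [(1511828488192, 137438953472), (2130840649728, 110326972416), (8589934592, 8589934592)] rfl (by decide +kernel)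
theorem R0AD_3 : CovD 0 [pAD H BR0, pX0] [(1511828488192, 137438953472), (2075677163520, 55163486208), (137438953472, 137438953472)] :=
  cov_of (fADX H BR0) (.n 0 (.n 1 (.n 0 (.n 2 (.l 0) (.l 0)) (.n 1 (.n 2 (.l 0) (.l 0)) (.l 0))) (.n 0 (.n 1 (.l 0) (.n 2 (.l 0) (.l 0))) (.n 1 (.l 0) (.n 0 (.n 2 (.l 0) (.l 0)) (.l 1))))) (.n 1 (.n 0 (.n 0 (.n 1 (.n 0 (.n 2 (.l 0) (.l 0)) (.l 1)) (.l 0)) (.l 1)) (.l 1)) (.l 1))) [(1511828488192, 137438953472), (2075677163520, 55163486208), (137438953472, 137438953472)] rfl (by decide +kernel)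
end

mutual
theorem R0AD_4 : CovD 0 [pAD H BR0, pX0] [(1511828488192, 137438953472), (2075677163520, 55163486208), (412316860416, 137438953472)] :=
  cov_of (fADX H BR0) (.n 0 (.n 1 (.n 0 (.n 2 (.l 0) (.l 0)) (.n 1 (.n 2 (.l 0) (.l 0)) (.l 0))) (.n 0 (.n 1 (.l 0) (.n 2 (.l 0) (.l 0))) (.n 1 (.l 0) (.n 0 (.n 0 (.n 2 (.l 0) (.l 0)) (.l 1)) (.l 1))))) (.n 1 (.n 0 (.n 0 (.n 1 (.n 2 (.l 0) (.l 0)) (.l 0)) (.l 1)) (.l 1)) (.l 1))) [(1511828488192, 137438953472), (2075677163520, 55163486208), (412316860416, 137438953472)] rfl (by decide +kernel)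
theorem R0AD_8 : CovD 0 [pAD H BR0, pX0] [(1408749273088, 34359738368), (2186004135936, 55163486208), (137438953472, 137438953472)] :=
  cov_of (fADX H BR0) (.n 1 (.n 1 (.n 2 (.n 0 (.l 0) (.n 2 (.l 0) (.l 0))) (.n 0 (.l 0) (.n 1 (.l 0) (.n 2 (.l 0) (.n 0 (.l 0) (.n 2 (.l 0) (.l 0))))))) (.n 2 (.n 0 (.l 0) (.n 0 (.l 0) (.l 1))) (.n 0 (.l 0) (.n 0 (.n 1 (.l 0) (.n 2 (.l 0) (.l 0))) (.l 1))))) (.n 0 (.n 1 (.n 2 (.l 0) (.n 2 (.l 0) (.l 0))) (.n 2 (.l 0) (.l 0))) (.l 1))) [(1408749273088, 34359738368), (2186004135936, 55163486208), (137438953472, 137438953472)] rfl (by decide +kernel)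
end

mutual
theorem R0AD_11 : CovD 0 [pAD H BR0, pX0] [(1408749273088, 34359738368), (2144631521280, 13790871552), (412316860416, 137438953472)] :=
  cov_of (fADX H BR0) (.n 0 (.n 2 (.l 0) (.l 0)) (.n 2 (.n 1 (.l 0) (.n 0 (.l 0) (.n 0 (.n 2 (.l 0) (.l 0)) (.l 1)))) (.n 1 (.l 0) (.n 0 (.l 0) (.n 0 (.n 2 (.l 0) (.n 1 (.l 0) (.l 0))) (.l 1)))))) [(1408749273088, 34359738368), (2144631521280, 13790871552), (412316860416, 137438953472)] rfl (by decide +kernel)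
theorem R0AD_12 : CovD 0 [pAD H BR0, pX0] [(1408749273088, 34359738368), (2172213264384, 13790871552), (412316860416, 137438953472)] :=
  cov_of (fADX H BR0) (.n 0 (.n 2 (.l 0) (.l 0)) (.n 0 (.n 2 (.n 1 (.n 2 (.l 0) (.n 2 (.l 0) (.l 0))) (.n 0 (.l 0) (.l 1))) (.n 1 (.n 1 (.l 0) (.n 0 (.l 0) (.n 0 (.l 0) (.l 1)))) (.n 0 (.n 2 (.l 0) (.l 0)) (.l 1)))) (.l 1))) [(1408749273088, 34359738368), (2172213264384, 13790871552), (412316860416, 137438953472)] rfl (by decide +kernel)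
end

mutual
theorem R0AD_13 : CovD 0 [pAD H BR0, pX0] [(1408749273088, 34359738368), (2213585879040, 27581743104), (412316860416, 137438953472)] :=
  cov_of (fADX H BR0) (.n 0 (.n 1 (.n 2 (.n 1 (.l 0) (.l 0)) (.n 1 (.l 0) (.l 0))) (.n 0 (.n 2 (.l 0) (.l 0)) (.l 1))) (.l 1)) [(1408749273088, 34359738368), (2213585879040, 27581743104), (412316860416, 137438953472)] rfl (by decide +kernel)
theorem R0AD_14 : CovD 0 [pAD H BR0, pX0] [(1477468749824, 34359738368), (2186004135936, 55163486208), (274877906944, 274877906944)] :=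
  cov_of (fADX H BR0) (.l 1) [(1477468749824, 34359738368), (2186004135936, 55163486208), (274877906944, 274877906944)] rfl (by decide +kernel)
end

mutual
theorem R0AD_15 : CovD 0 [pAD H BR0, pX0] [(1580547964928, 68719476736), (2186004135936, 55163486208), (274877906944, 274877906944)] :=
  cov_of (fADX H BR0) (.l 1) [(1580547964928, 68719476736), (2186004135936, 55163486208), (274877906944, 274877906944)] rfl (by decide +kernel)
theorem R0AD_18 : CovD 0 [pAD H BR0, pX0] [(1443109011456, 68719476736), (2075677163520, 55163486208), (824633720832, 274877906944)] :=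
  cov_of (fADX H BR0) (.n 2 (.n 0 (.n 1 (.l 0) (.n 1 (.l 0) (.n 2 (.l 0) (.l 0)))) (.n 1 (.n 2 (.l 0) (.l 0)) (.n 1 (.l 0) (.n 0 (.n 0 (.n 2 (.l 0) (.l 0)) (.l 1)) (.l 1))))) (.n 0 (.n 1 (.l 0) (.n 1 (.l 0) (.n 2 (.l 0) (.l 0)))) (.n 1 (.n 2 (.l 0) (.l 0)) (.n 1 (.l 0) (.n 0 (.n 0 (.l 0) (.l 1)) (.l 1)))))) [(1443109011456, 68719476736), (2075677163520, 55163486208), (824633720832, 274877906944)] rfl (by decide +kernel)
end

mutual
theorem R0AD_19 : CovD 0 [pAD H BR0, pX0] [(1580547964928, 68719476736), (2075677163520, 55163486208), (824633720832, 274877906944)] :=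
  cov_of (fADX H BR0) (.n 1 (.n 0 (.n 1 (.n 2 (.n 0 (.l 0) (.l 1)) (.l 0)) (.l 1)) (.l 1)) (.l 1)) [(1580547964928, 68719476736), (2075677163520, 55163486208), (824633720832, 274877906944)] rfl (by decide +kernel)
theorem R0AD_25 : CovD 0 [pAD H BR0, pX0] [(1408749273088, 34359738368), (2144631521280, 13790871552), (687194767360, 137438953472)] :=
  cov_of (fADX H BR0) (.n 0 (.l 0) (.n 2 (.n 1 (.l 0) (.n 0 (.l 0) (.n 0 (.n 1 (.l 0) (.n 0 (.l 0) (.l 1))) (.l 1)))) (.n 1 (.l 0) (.n 0 (.l 0) (.n 0 (.n 2 (.l 0) (.l 0)) (.l 1)))))) [(1408749273088, 34359738368), (2144631521280, 13790871552), (687194767360, 137438953472)] rfl (by decide +kernel)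
end

mutual
theorem R0AD_26 : CovD 0 [pAD H BR0, pX0] [(1408749273088, 34359738368), (2172213264384, 13790871552), (687194767360, 137438953472)] :=
  cov_of (fADX H BR0) (.n 0 (.n 2 (.l 0) (.l 0)) (.n 0 (.n 2 (.n 1 (.n 1 (.l 0) (.n 0 (.l 0) (.n 0 (.l 0) (.l 1)))) (.n 0 (.n 2 (.l 0) (.l 0)) (.l 1))) (.n 1 (.n 2 (.n 1 (.l 0) (.n 2 (.n 1 (.l 0) (.n 0 (.l 0) (.l 1))) (.l 0))) (.l 0)) (.n 0 (.n 2 (.l 0) (.l 0)) (.l 1)))) (.l 1))) [(1408749273088, 34359738368), (2172213264384, 13790871552), (687194767360, 137438953472)] rfl (by decide +kernel)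
theorem R0AD_27 : CovD 0 [pAD H BR0, pX0] [(1408749273088, 34359738368), (2213585879040, 27581743104), (687194767360, 137438953472)] :=
  cov_of (fADX H BR0) (.n 0 (.n 1 (.n 0 (.l 0) (.n 2 (.n 2 (.l 0) (.l 0)) (.l 0))) (.n 0 (.l 0) (.l 1))) (.l 1)) [(1408749273088, 34359738368), (2213585879040, 27581743104), (687194767360, 137438953472)] rfl (by decide +kernel)
end

mutual
theorem R0AD_28 : CovD 0 [pAD H BR0, pX0] [(1408749273088, 34359738368), (2186004135936, 55163486208), (962072674304, 137438953472)] :=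
  cov_of (fADX H BR0) (.n 1 (.n 1 (.n 0 (.l 0) (.n 1 (.l 0) (.n 2 (.n 0 (.l 0) (.n 0 (.l 0) (.l 1))) (.l 0)))) (.n 0 (.n 2 (.l 0) (.l 0)) (.n 0 (.n 2 (.n 1 (.l 0) (.n 0 (.l 0) (.l 1))) (.n 2 (.l 0) (.l 0))) (.l 1)))) (.n 0 (.n 1 (.n 2 (.l 0) (.l 0)) (.n 0 (.l 0) (.l 1))) (.l 1))) [(1408749273088, 34359738368), (2186004135936, 55163486208), (962072674304, 137438953472)] rfl (by decide +kernel)
theorem R0AD_29 : CovD 0 [pAD H BR0, pX0] [(1477468749824, 34359738368), (2186004135936, 55163486208), (824633720832, 274877906944)] :=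
  cov_of (fADX H BR0) (.l 1) [(1477468749824, 34359738368), (2186004135936, 55163486208), (824633720832, 274877906944)] rfl (by decide +kernel)
end

mutual
theorem R0AD_30 : CovD 0 [pAD H BR0, pX0] [(1580547964928, 68719476736), (2186004135936, 55163486208), (824633720832, 274877906944)] :=
  cov_of (fADX H BR0) (.l 1) [(1580547964928, 68719476736), (2186004135936, 55163486208), (824633720832, 274877906944)] rfl (by decide +kernel)
theorem R0AD_33 : CovD 0 [pAD H BR0, pX0] [(1511828488192, 137438953472), (2075677163520, 55163486208), (1374389534720, 274877906944)] :=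
  cov_of (fADX H BR0) (.n 0 (.n 1 (.n 0 (.n 2 (.l 0) (.n 2 (.l 0) (.l 0))) (.n 1 (.n 2 (.l 0) (.l 0)) (.l 0))) (.n 0 (.n 2 (.n 2 (.l 0) (.l 0)) (.l 0)) (.n 2 (.n 1 (.l 0) (.n 0 (.l 0) (.l 1))) (.n 1 (.l 0) (.n 2 (.l 0) (.l 0)))))) (.n 1 (.n 0 (.n 1 (.n 2 (.l 0) (.l 0)) (.l 0)) (.l 1)) (.l 1))) [(1511828488192, 137438953472), (2075677163520, 55163486208), (1374389534720, 274877906944)] rfl (by decide +kernel)
end

mutual
theorem R0AD_34 : CovD 0 [pAD H BR0, pX0] [(1511828488192, 137438953472), (2186004135936, 55163486208), (1374389534720, 274877906944)] :=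
  cov_of (fADX H BR0) (.n 0 (.n 0 (.n 1 (.n 2 (.n 0 (.l 0) (.n 1 (.l 0) (.n 0 (.l 0) (.l 1)))) (.n 1 (.l 0) (.n 2 (.l 0) (.l 0)))) (.n 0 (.n 2 (.n 1 (.l 0) (.l 0)) (.l 0)) (.l 1))) (.l 1)) (.l 1)) [(1511828488192, 137438953472), (2186004135936, 55163486208), (1374389534720, 274877906944)] rfl (by decide +kernel)
theorem R0AD_35 : CovD 0 [pAD H BR0, pX0] [(1511828488192, 137438953472), (2130840649728, 110326972416), (1924145348608, 274877906944)] :=
  cov_of (fADX H BR0) (.n 1 (.n 0 (.n 1 (.n 0 (.n 2 (.n 2 (.l 0) (.l 0)) (.l 0)) (.n 1 (.n 2 (.l 0) (.l 0)) (.l 0))) (.n 0 (.n 2 (.l 0) (.l 0)) (.n 2 (.l 0) (.l 0)))) (.n 1 (.n 0 (.n 1 (.n 2 (.l 0) (.l 0)) (.l 0)) (.l 1)) (.l 1))) (.n 0 (.n 0 (.n 1 (.n 2 (.l 0) (.l 0)) (.n 0 (.n 2 (.l 0) (.l 0)) (.l 1))) (.l 1)) (.l 1))) [(1511828488192, 137438953472), (2130840649728, 110326972416), (1924145348608, 274877906944)] rfl (by decide +kernel)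
end

mutual
theorem R0G : CovD 1 [pG H BR0, pX1] [(1511828488192, 137438953472), (2130840649728, 110326972416), (1099511627776, 1099511627776)] :=
  cov_of (fGX H BR0) (.n 2 (.n 2 (.n 2 (.l 0) (.l 0)) (.n 2 (.l 0) (.l 0))) (.n 2 (.l 0) (.l 0))) [(1511828488192, 137438953472), (2130840649728, 110326972416), (1099511627776, 1099511627776)] rfl (by decide +kernel)
theorem R0RT_1 : CovD 1 [pRT H BR0, pX1] [(1511828488192, 137438953472), (2130840649728, 110326972416), (274877906944, 274877906944)] :=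
  cov_of (fRTX H BR0) (.n 1 (.n 2 (.n 0 (.n 2 (.l 0) (.l 0)) (.n 0 (.n 0 (.n 1 (.l 0) (.l 1)) (.l 1)) (.l 1))) (.n 0 (.n 1 (.l 0) (.l 0)) (.n 1 (.n 0 (.n 0 (.l 0) (.l 1)) (.l 1)) (.l 1)))) (.n 0 (.n 0 (.n 2 (.n 2 (.l 0) (.l 0)) (.n 1 (.l 0) (.n 2 (.l 0) (.l 0)))) (.l 1)) (.l 1))) [(1511828488192, 137438953472), (2130840649728, 110326972416), (274877906944, 274877906944)] rfl (by decide +kernel)
end

mutual
theorem R0RT_2 : CovD 1 [pRT H BR0, pX1] [(1511828488192, 137438953472), (2130840649728, 110326972416), (824633720832, 274877906944)] :=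
  cov_of (fRTX H BR0) (.n 1 (.n 0 (.n 2 (.n 1 (.l 0) (.l 0)) (.n 1 (.l 0) (.n 2 (.l 0) (.l 0)))) (.n 1 (.n 1 (.n 0 (.n 0 (.l 0) (.l 1)) (.l 1)) (.l 1)) (.l 1))) (.n 0 (.n 0 (.n 2 (.n 1 (.l 0) (.n 2 (.l 0) (.l 0))) (.n 1 (.n 2 (.l 0) (.l 0)) (.n 0 (.n 2 (.l 0) (.l 0)) (.l 1)))) (.l 1)) (.l 1))) [(1511828488192, 137438953472), (2130840649728, 110326972416), (824633720832, 274877906944)] rfl (by decide +kernel)
theorem R0RT_5 : CovD 1 [pRT H BR0, pX1] [(1511828488192, 137438953472), (2075677163520, 55163486208), (1374389534720, 274877906944)] :=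
  cov_of (fRTX H BR0) (.n 0 (.n 2 (.n 1 (.l 0) (.n 2 (.l 0) (.n 0 (.l 0) (.l 0)))) (.n 1 (.n 2 (.l 0) (.l 0)) (.n 1 (.l 0) (.n 2 (.l 0) (.l 0))))) (.n 1 (.n 1 (.n 1 (.n 0 (.n 0 (.l 0) (.l 1)) (.l 1)) (.l 1)) (.l 1)) (.l 1))) [(1511828488192, 137438953472), (2075677163520, 55163486208), (1374389534720, 274877906944)] rfl (by decide +kernel)
end

mutual
theorem R0RT_7 : CovD 1 [pRT H BR0, pX1] [(1443109011456, 68719476736), (2075677163520, 55163486208), (1924145348608, 274877906944)] :=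
  cov_of (fRTX H BR0) (.n 2 (.n 1 (.n 2 (.l 0) (.l 0)) (.n 1 (.n 2 (.l 0) (.l 0)) (.n 0 (.n 2 (.l 0) (.l 0)) (.n 2 (.l 0) (.l 0))))) (.n 1 (.n 1 (.n 2 (.l 0) (.l 0)) (.n 2 (.l 0) (.l 0))) (.n 1 (.n 2 (.n 0 (.l 0) (.l 0)) (.n 0 (.l 0) (.l 0))) (.n 0 (.n 2 (.l 0) (.n 2 (.l 0) (.l 0))) (.n 0 (.n 2 (.l 0) (.n 2 (.l 0) (.l 0))) (.l 1)))))) [(1443109011456, 68719476736), (2075677163520, 55163486208), (1924145348608, 274877906944)] rfl (by decide +kernel)
theorem R0RT_8 : CovD 1 [pRT H BR0, pX1] [(1580547964928, 68719476736), (2075677163520, 55163486208), (1924145348608, 274877906944)] :=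
  cov_of (fRTX H BR0) (.n 1 (.n 1 (.n 1 (.n 0 (.n 0 (.n 2 (.l 0) (.l 0)) (.l 1)) (.l 1)) (.l 1)) (.l 1)) (.l 1)) [(1580547964928, 68719476736), (2075677163520, 55163486208), (1924145348608, 274877906944)] rfl (by decide +kernel)
end

mutual
theorem R0RT_12 : CovD 1 [pRT H BR0, pX1] [(1408749273088, 34359738368), (2186004135936, 55163486208), (1374389534720, 274877906944)] :=
  cov_of (fRTX H BR0) (.n 2 (.n 1 (.n 2 (.l 0) (.n 2 (.l 0) (.l 0))) (.n 0 (.n 2 (.l 0) (.l 0)) (.l 1))) (.n 1 (.n 2 (.n 1 (.l 0) (.l 0)) (.n 1 (.l 0) (.n 2 (.l 0) (.l 0)))) (.n 0 (.n 2 (.l 0) (.n 2 (.l 0) (.l 0))) (.l 1)))) [(1408749273088, 34359738368), (2186004135936, 55163486208), (1374389534720, 274877906944)] rfl (by decide +kernel)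
theorem R0RT_14 : CovD 1 [pRT H BR0, pX1] [(1408749273088, 34359738368), (2186004135936, 55163486208), (1786706395136, 137438953472)] :=
  cov_of (fRTX H BR0) (.n 1 (.n 2 (.n 1 (.l 0) (.n 0 (.l 0) (.l 0))) (.n 1 (.n 2 (.l 0) (.l 0)) (.n 0 (.l 0) (.n 2 (.l 0) (.l 0))))) (.n 0 (.n 2 (.n 2 (.l 0) (.l 0)) (.n 1 (.n 2 (.l 0) (.l 0)) (.n 2 (.l 0) (.l 0)))) (.l 1))) [(1408749273088, 34359738368), (2186004135936, 55163486208), (1786706395136, 137438953472)] rfl (by decide +kernel)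
end

mutual
theorem R0RT_16 : CovD 1 [pRT H BR0, pX1] [(1408749273088, 34359738368), (2158422392832, 27581743104), (2061584302080, 137438953472)] :=
  cov_of (fRTX H BR0) (.n 2 (.n 1 (.n 2 (.l 0) (.n 0 (.l 0) (.l 0))) (.n 0 (.n 2 (.l 0) (.l 0)) (.n 0 (.n 2 (.l 0) (.l 0)) (.l 1)))) (.n 1 (.n 2 (.n 0 (.l 0) (.l 0)) (.n 0 (.l 0) (.n 1 (.l 0) (.l 0)))) (.n 0 (.n 2 (.n 2 (.l 0) (.l 0)) (.n 1 (.l 0) (.n 2 (.l 0) (.l 0)))) (.n 0 (.n 2 (.n 2 (.l 0) (.l 0)) (.n 1 (.l 0) (.n 2 (.l 0) (.l 0)))) (.l 1))))) [(1408749273088, 34359738368), (2158422392832, 27581743104), (2061584302080, 137438953472)] rfl (by decide +kernel)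
theorem R0RT_17 : CovD 1 [pRT H BR0, pX1] [(1408749273088, 34359738368), (2213585879040, 27581743104), (2061584302080, 137438953472)] :=
  cov_of (fRTX H BR0) (.n 0 (.n 2 (.n 2 (.n 1 (.l 0) (.n 2 (.l 0) (.l 0))) (.n 1 (.n 2 (.l 0) (.l 0)) (.n 0 (.l 0) (.l 0)))) (.n 2 (.n 1 (.n 0 (.l 0) (.n 2 (.l 0) (.l 0))) (.n 0 (.l 0) (.l 1))) (.n 1 (.n 0 (.n 2 (.l 0) (.l 0)) (.n 2 (.n 2 (.l 0) (.l 0)) (.n 1 (.l 0) (.l 0)))) (.n 0 (.n 1 (.l 0) (.n 2 (.l 0) (.l 0))) (.l 1))))) (.l 1)) [(1408749273088, 34359738368), (2213585879040, 27581743104), (2061584302080, 137438953472)] rfl (by decide +kernel)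
end

mutual
theorem R0RT_18 : CovD 1 [pRT H BR0, pX1] [(1477468749824, 34359738368), (2186004135936, 55163486208), (1649267441664, 549755813888)] :=
  cov_of (fRTX H BR0) (.l 1) [(1477468749824, 34359738368), (2186004135936, 55163486208), (1649267441664, 549755813888)] rfl (by decide +kernel)
theorem R0RT_19 : CovD 1 [pRT H BR0, pX1] [(1580547964928, 68719476736), (2186004135936, 55163486208), (1649267441664, 549755813888)] :=
  cov_of (fRTX H BR0) (.l 1) [(1580547964928, 68719476736), (2186004135936, 55163486208), (1649267441664, 549755813888)] rfl (by decide +kernel)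
end

mutual
theorem R0RS : CovD 1 [pRS H BR0, pX1] [(1511828488192, 137438953472), (2130840649728, 110326972416), (1099511627776, 1099511627776)] :=
  cov_of (fRSX H BR0) (.n 2 (.l 0) (.l 0)) [(1511828488192, 137438953472), (2130840649728, 110326972416), (1099511627776, 1099511627776)] rfl (by decide +kernel)
theorem PAD : CovD 0 [pAD H BP, pX0] [(1511828488192, 137438953472), (2130840649728, 110326972416), (2199023255552, 0)] :=
  cov_of (fADX H BP) (.n 1 (.n 0 (.n 0 (.n 1 (.n 0 (.l 0) (.l 0)) (.l 0)) (.n 1 (.n 0 (.l 0) (.l 0)) (.l 0))) (.n 0 (.n 1 (.n 0 (.l 0) (.l 0)) (.l 0)) (.l 1))) (.n 0 (.n 0 (.n 1 (.l 0) (.n 0 (.l 0) (.l 0))) (.l 1)) (.l 1))) [(1511828488192, 137438953472), (2130840649728, 110326972416), (2199023255552, 0)] rfl (by decide +kernel)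
end

mutual
theorem PG : CovD 1 [pG H BP, pX1] [(1511828488192, 137438953472), (2130840649728, 110326972416), (2199023255552, 0)] :=
  cov_of (fGX H BP) (.l 0) [(1511828488192, 137438953472), (2130840649728, 110326972416), (2199023255552, 0)] rfl (by decide +kernel)
theorem PRT : CovD 1 [pRT H BP, pX1] [(1511828488192, 137438953472), (2130840649728, 110326972416), (2199023255552, 0)] :=
  cov_of (fRTX H BP) (.n 1 (.n 0 (.n 1 (.l 0) (.n 1 (.l 0) (.n 0 (.l 0) (.l 0)))) (.n 1 (.n 0 (.n 0 (.l 0) (.l 1)) (.l 1)) (.l 1))) (.n 0 (.n 0 (.n 1 (.n 1 (.n 0 (.l 0) (.l 0)) (.n 0 (.l 0) (.n 0 (.n 1 (.l 0) (.l 0)) (.l 1)))) (.n 0 (.n 1 (.n 0 (.l 0) (.l 0)) (.n 0 (.l 0) (.l 1))) (.l 1))) (.l 1)) (.l 1))) [(1511828488192, 137438953472), (2130840649728, 110326972416), (2199023255552, 0)] rfl (by decide +kernel)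
theorem PTT : CovD 1 [pTT H BP, pX1] [(1511828488192, 137438953472), (2130840649728, 110326972416), (2199023255552, 0)] :=
  cov_of (fTTX H BP) (.n 0 (.n 1 (.l 0) (.l 0)) (.n 1 (.l 0) (.l 1))) [(1511828488192, 137438953472), (2130840649728, 110326972416), (2199023255552, 0)] rfl (by decide +kernel)
end

end Pool.Agent.helper82.WC.S0dK2
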