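import Pool.Agent.helper82.WH.Chks

/-!
Generated: constants of a cell.
-/

namespace Pool.Agent.helper82.WC.S0dK2

open Pool.Agent.helper82.WH
open Pool.Agent.helper31.IC (CovD covD_split TD)

def H : HC := ⟨⟨1511828488192, 0⟩, ⟨4129544208384, 0⟩, ⟨0, 18266128384⟩, ⟨18704105472, 0⟩, ⟨0, 1013514240⟩, ⟨19911802880, 0⟩, ⟨0, 12778274816⟩, ⟨3585146880, 0⟩, ⟨0, 9331343360⟩, ⟨1071579136, 0⟩, ⟨390521815040, 0⟩, ⟨248419581952, 0⟩, ⟨0, 159570001920⟩, ⟨102278692864, 0⟩, ⟨12622626816, 0⟩, ⟨95417597952, 0⟩, ⟨0, 70810992640⟩, ⟨0, 21295857664⟩, ⟨0, 12955942912⟩, ⟨10087628800, 0⟩, ⟨0, 370540544⟩, ⟨25018171392, 0⟩, ⟨0, 19350290432⟩, ⟨0, 4740677632⟩, ⟨800260096, 0⟩, ⟨363462656, 0⟩, ⟨0, 0⟩⟩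

def BI0 : BC := ⟨⟨0, 0, 1099511627776, 0⟩, ⟨0, 0⟩, ⟨0, 0⟩, 747800297472, 79219261440, 66910289920, 200067055616, 219901198336, 905969664, 202719100928, 333161955328, ⟨2662879723520, 0⟩, ⟨0, 98784247808⟩, ⟨344988778496, 0⟩, ⟨0, 0⟩, ⟨0, 0⟩⟩

def BR0 : BC := ⟨⟨0, 0, 0, 0⟩, ⟨137438953472, 0⟩, ⟨1099511627776, 0⟩, 840466235392, 68913266688, 39027015680, 145594580992, 219901198336, 939524096, 203893506048, 334369914880, ⟨0, 0⟩, ⟨0, 0⟩, ⟨252735520768, 0⟩, ⟨0, 0⟩, ⟨0, 0⟩⟩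

def BP : BC := ⟨⟨0, 0, 0, 0⟩, ⟨137438953472, 0⟩, ⟨1099511627776, 0⟩, 684990857216, 64352223232, 66368503808, 278279028736, 219901198336, 889192448, 203893506048, 332323094528, ⟨0, 0⟩, ⟨0, 0⟩, ⟨407908188160, 0⟩, ⟨0, 0⟩, ⟨1099511627776, 0⟩⟩

def BM : BC := ⟨⟨0, 0, 0, 0⟩, ⟨137438953472, 0⟩, ⟨1099511627776, 0⟩, 821446443008, 68086071296, 59421360128, 145047420928, 219901198336, 939524096, 200672280576, 334369914880, ⟨0, 0⟩, ⟨0, 0⟩, ⟨271513616384, 0⟩, ⟨0, 0⟩, ⟨0, 1099511627776⟩⟩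

def BT : BC := ⟨⟨0, 0, 1099511627776, 0⟩, ⟨0, 0⟩, ⟨0, 0⟩, 751676293120, 80252895232, 67770449920, 194297921536, 219901198336, 905969664, 202719100928, 333161955328, ⟨2658584756224, 0⟩, ⟨0, 201863462912⟩, ⟨341094629376, 0⟩, ⟨1099511627776, 0⟩, ⟨0, 0⟩⟩

end Pool.Agent.helper82.WC.S0dK2
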