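import Pool.Agent.helper82.WH.Chks

/-!
Generated: constants of a cell.
-/

namespace Pool.Agent.helper82.WC.S0eK0

open Pool.Agent.helper82.WH
open Pool.Agent.helper31.IC (CovD covD_split TD)

def H : HC := ⟨⟨1133871366144, 0⟩, ⟨7039385337856, 0⟩, ⟨20189216768, 0⟩, ⟨3351838720, 0⟩, ⟨0, 5297078272⟩, ⟨0, 14438957056⟩, ⟨0, 1044905984⟩, ⟨1487536128, 0⟩, ⟨3388932096, 0⟩, ⟨0, 274071552⟩, ⟨675353067520, 0⟩, ⟨67248259072, 0⟩, ⟨0, 157413081088⟩, ⟨0, 362035544064⟩, ⟨58697580544, 0⟩, ⟨52552073216, 0⟩, ⟨114042404864, 0⟩, ⟨0, 10103095296⟩, ⟨0, 4079681536⟩, ⟨0, 16609640448⟩, ⟨876216320, 0⟩, ⟨1023096389632, 0⟩, ⟨0, 1380843520⟩, ⟨0, 9698672640⟩, ⟨0, 398620819456⟩, ⟨39071776768, 0⟩, ⟨0, 0⟩⟩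

def BI0 : BC := ⟨⟨0, 0, 1099511627776, 0⟩, ⟨0, 0⟩, ⟨0, 0⟩, 714121478144, 47113764864, 120982536192, 211753893888, 219901198336, 872415232, 530780782592, 290396831744, ⟨2783138807808, 0⟩, ⟨347892350976, 0⟩, ⟨378192003072, 0⟩, ⟨0, 0⟩, ⟨0, 0⟩⟩

def BR0 : BC := ⟨⟨0, 0, 0, 0⟩, ⟨137438953472, 0⟩, ⟨1099511627776, 0⟩, 962872803328, 41836806144, 19640614912, 69649891328, 219901198336, 872415232, 531284099072, 290749153280, ⟨0, 0⟩, ⟨0, 0⟩, ⟨130713387008, 0⟩, ⟨0, 0⟩, ⟨0, 0⟩⟩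

def BP : BC := ⟨⟨0, 0, 0, 0⟩, ⟨137438953472, 0⟩, ⟨1099511627776, 0⟩, 824736874496, 34445131776, 85543223296, 149258960896, 219901198336, 872415232, 530629787648, 290279391232, ⟨0, 0⟩, ⟨0, 0⟩, ⟨268127633408, 0⟩, ⟨0, 0⟩, ⟨1099511627776, 0⟩⟩

def BM : BC := ⟨⟨0, 0, 0, 0⟩, ⟨137438953472, 0⟩, ⟨1099511627776, 0⟩, 903333871616, 25959727104, 61211082752, 103488684032, 219901198336, 872415232, 531284099072, 290749153280, ⟨0, 0⟩, ⟨0, 0⟩, ⟨189877518336, 0⟩, ⟨0, 0⟩, ⟨0, 1099511627776⟩⟩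

def BT : BC := ⟨⟨0, 0, 1099511627776, 0⟩, ⟨0, 0⟩, ⟨0, 0⟩, 714121478144, 47113764864, 120982536192, 211753893888, 219901198336, 872415232, 530780782592, 290396831744, ⟨2787433775104, 0⟩, ⟨695784701952, 0⟩, ⟨378192003072, 0⟩, ⟨1099511627776, 0⟩, ⟨0, 0⟩⟩

end Pool.Agent.helper82.WC.S0eK0
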