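import Pool.Agent.helper82.WH.Chks

/-!
Generated: constants of a cell.
-/

namespace Pool.Agent.helper82.WC.S0fK0

open Pool.Agent.helper82.WH
open Pool.Agent.helper31.IC (CovD covD_split TD)

def H : HC := ⟨⟨1116691496960, 0⟩, ⟨7183429140480, 0⟩, ⟨19253428224, 0⟩, ⟨2600468480, 0⟩, ⟨0, 4857593856⟩, ⟨0, 13399097344⟩, ⟨0, 837091328⟩, ⟨1328152576, 0⟩, ⟨3062562816, 0⟩, ⟨0, 240844800⟩, ⟨606820827136, 0⟩, ⟨117486059520, 0⟩, ⟨0, 163200303104⟩, ⟨0, 303331803136⟩, ⟨35463233536, 0⟩, ⟨53180366848, 0⟩, ⟨93455777792, 0⟩, ⟨0, 7425556480⟩, ⟨0, 4025810944⟩, ⟨0, 13375832064⟩, ⟨690552832, 0⟩, ⟨413087367168, 0⟩, ⟨27533246464, 0⟩, ⟨0, 10543890432⟩, ⟨0, 158067785728⟩, ⟨15372124160, 0⟩, ⟨0, 0⟩⟩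

def BI0 : BC := ⟨⟨0, 0, 1099511627776, 0⟩, ⟨0, 0⟩, ⟨0, 0⟩, 852699381760, 32423477248, 77056704512, 131808428032, 219901198336, 872415232, 525730840576, 286840061952, ⟨2761663971328, 0⟩, ⟨382252089344, 0⟩, ⟨240282632192, 0⟩, ⟨0, 0⟩, ⟨0, 0⟩⟩

def BR0 : BC := ⟨⟨0, 0, 0, 0⟩, ⟨137438953472, 0⟩, ⟨1099511627776, 0⟩, 1026680225792, 21294678016, 11104288768, 34927935488, 219901198336, 872415232, 526217379840, 287175606272, ⟨0, 0⟩, ⟨0, 0⟩, ⟨67111157760, 0⟩, ⟨0, 0⟩, ⟨0, 0⟩⟩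

def BP : BC := ⟨⟨0, 0, 0, 0⟩, ⟨137438953472, 0⟩, ⟨1099511627776, 0⟩, 983742087168, 17241341952, 35208888320, 57810354176, 219901198336, 872415232, 525579845632, 286722621440, ⟨0, 0⟩, ⟨0, 0⟩, ⟨109813956608, 0⟩, ⟨0, 0⟩, ⟨1099511627776, 0⟩⟩

def BM : BC := ⟨⟨0, 0, 0, 0⟩, ⟨137438953472, 0⟩, ⟨1099511627776, 0⟩, 1005308542976, 15595536384, 28694740992, 44406472704, 219901198336, 872415232, 526217379840, 287175606272, ⟨0, 0⟩, ⟨0, 0⟩, ⟨88327258112, 0⟩, ⟨0, 0⟩, ⟨0, 1099511627776⟩⟩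

def BT : BC := ⟨⟨0, 0, 1099511627776, 0⟩, ⟨0, 0⟩, ⟨0, 0⟩, 852699381760, 32423477248, 77056704512, 131808428032, 219901198336, 872415232, 525730840576, 286840061952, ⟨2765958938624, 0⟩, ⟨764504178688, 0⟩, ⟨240282632192, 0⟩, ⟨1099511627776, 0⟩, ⟨0, 0⟩⟩

end Pool.Agent.helper82.WC.S0fK0
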