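import Pool.Agent.helper82.WH.Chks

/-!
Generated: constants of a cell.
-/

namespace Pool.Agent.helper82.WC.S0fK1

open Pool.Agent.helper82.WH
open Pool.Agent.helper31.IC (CovD covD_split TD)

def H : HC := ⟨⟨1116691496960, 0⟩, ⟨7334477234176, 0⟩, ⟨31236882432, 0⟩, ⟨3865706496, 0⟩, ⟨0, 7234781184⟩, ⟨0, 19890962432⟩, ⟨0, 1054932992⟩, ⟨1726742528, 0⟩, ⟨4203151360, 0⟩, ⟨0, 303628288⟩, ⟨792048435200, 0⟩, ⟨121058623488, 0⟩, ⟨0, 183494639616⟩, ⟨0, 434026840064⟩, ⟨33042792448, 0⟩, ⟨58075054080, 0⟩, ⟨126397251584, 0⟩, ⟨0, 6933512192⟩, ⟨0, 4291952640⟩, ⟨0, 16875520000⟩, ⟨822083584, 0⟩, ⟨343743987712, 0⟩, ⟨4104060928, 0⟩, ⟨4410769408, 0⟩, ⟨0, 119833165824⟩, ⟨10613424128, 0⟩, ⟨0, 0⟩⟩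

def BI0 : BC := ⟨⟨0, 0, 1099511627776, 0⟩, ⟨0, 0⟩, ⟨0, 0⟩, 824590401536, 34019934208, 85421785088, 149952593920, 219901198336, 872415232, 518801850368, 281941114880, ⟨2899102924800, 0⟩, ⟨377957122048, 0⟩, ⟨268278562816, 0⟩, ⟨0, 0⟩, ⟨0, 0⟩⟩

def BR0 : BC := ⟨⟨0, 0, 0, 0⟩, ⟨109951188992, 0⟩, ⟨1099511627776, 0⟩, 997858803712, 39441465344, 15681650688, 41024159744, 219901198336, 872415232, 519154171904, 282192773120, ⟨0, 0⟩, ⟨0, 0⟩, ⟨95784206336, 0⟩, ⟨0, 0⟩, ⟨0, 0⟩⟩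

def BP : BC := ⟨⟨0, 0, 0, 0⟩, ⟨109951188992, 0⟩, ⟨1099511627776, 0⟩, 822412181504, 33768865792, 86146613248, 151656726528, 219901198336, 872415232, 518684409856, 281874006016, ⟨0, 0⟩, ⟨0, 0⟩, ⟨270449508352, 0⟩, ⟨0, 0⟩, ⟨1099511627776, 0⟩⟩

def BM : BC := ⟨⟨0, 0, 0, 0⟩, ⟨109951188992, 0⟩, ⟨1099511627776, 0⟩, 916107821056, 24706809856, 56456052736, 96724516864, 219901198336, 872415232, 519154171904, 282192773120, ⟨0, 0⟩, ⟨0, 0⟩, ⟨177166286848, 0⟩, ⟨0, 0⟩, ⟨0, 1099511627776⟩⟩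

def BT : BC := ⟨⟨0, 0, 1099511627776, 0⟩, ⟨0, 0⟩, ⟨0, 0⟩, 824590073856, 34019868672, 85421522944, 149953249280, 219901198336, 872415232, 518801850368, 281941114880, ⟨2899102924800, 0⟩, ⟨751619276800, 0⟩, ⟨268278890496, 0⟩, ⟨1099511627776, 0⟩, ⟨0, 0⟩⟩

end Pool.Agent.helper82.WC.S0fK1
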