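import Pool.Agent.helper82.WC.S0fK2C0

/-!
Generated certificates, assembled.
-/

namespace Pool.Agent.helper82.WC.S0fK2

open Pool.Agent.helper82.WH
open Pool.Agent.helper31.IC (CovD covD_split TD)

theorem R0AD_1 : CovD 0 [pAD H BR0, pX0] [(1108101562368, 8589934592), (2862729920512, 10066329600), (549755813888, 549755813888)] :=
  covD_split 2 (by decide +kernel) R0AD_2 R0AD_3
theorem R0AD_0 : CovD 0 [pAD H BR0, pX0] [(1116691496960, 17179869184), (2862729920512, 10066329600), (549755813888, 549755813888)] :=
  covD_split 0 (by decide +kernel) R0AD_1 R0AD_4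
theorem R0AD : CovD 0 [pAD H BR0, pX0] [(1116691496960, 17179869184), (2862729920512, 10066329600), (1099511627776, 1099511627776)] :=
  covD_split 2 (by decide +kernel) R0AD_0 R0AD_5

end Pool.Agent.helper82.WC.S0fK2
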