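import Pool.Agent.helper82.WH.Chks

/-!
Generated: constants of a cell.
-/

namespace Pool.Agent.helper82.WC.S0fK2

open Pool.Agent.helper82.WH
open Pool.Agent.helper31.IC (CovD covD_split TD)

def H : HC := ⟨⟨1116691496960, 0⟩, ⟨7453511516160, 0⟩, ⟨31651921920, 0⟩, ⟨4238213120, 0⟩, ⟨0, 7424966656⟩, ⟨0, 19650510848⟩, ⟨0, 1073152000⟩, ⟨1710751744, 0⟩, ⟨4051894272, 0⟩, ⟨0, 285278208⟩, ⟨874022633472, 0⟩, ⟨25656885248, 0⟩, ⟨0, 186701053952⟩, ⟨0, 488626978816⟩, ⟨66891415552, 0⟩, ⟨57912131584, 0⟩, ⟨138848763904, 0⟩, ⟨0, 9748480000⟩, ⟨0, 4198760448⟩, ⟨0, 17991008256⟩, ⟨852557824, 0⟩, ⟨484911546368, 0⟩, ⟨11808014336, 0⟩, ⟨0, 12242518016⟩, ⟨0, 172843794432⟩, ⟨15582035968, 0⟩, ⟨0, 0⟩⟩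

def BI0 : BC := ⟨⟨0, 0, 1099511627776, 0⟩, ⟨0, 0⟩, ⟨0, 0⟩, 735707398144, 43859312640, 113752408064, 200656027648, 219901198336, 872415232, 513533804544, 278233350144, ⟨2903397892096, 0⟩, ⟨390842023936, 0⟩, ⟨356728111104, 0⟩, ⟨0, 0⟩, ⟨0, 0⟩⟩

def BR0 : BC := ⟨⟨0, 0, 0, 0⟩, ⟨109951188992, 0⟩, ⟨1099511627776, 0⟩, 958494015488, 40970092544, 19303825408, 75231592448, 219901198336, 872415232, 513852571648, 278468231168, ⟨0, 0⟩, ⟨0, 0⟩, ⟨135100891136, 0⟩, ⟨0, 0⟩, ⟨0, 0⟩⟩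

def BP : BC := ⟨⟨0, 0, 0, 0⟩, ⟨109951188992, 0⟩, ⟨1099511627776, 0⟩, 754754715648, 41074294784, 107576819712, 190571347968, 219901198336, 872415232, 513416364032, 278149464064, ⟨0, 0⟩, ⟨0, 0⟩, ⟨337782964224, 0⟩, ⟨0, 0⟩, ⟨1099511627776, 0⟩⟩

def BM : BC := ⟨⟨0, 0, 0, 0⟩, ⟨109951188992, 0⟩, ⟨1099511627776, 0⟩, 900708368384, 25560547328, 61648863232, 106075717632, 219901198336, 872415232, 513852571648, 278468231168, ⟨0, 0⟩, ⟨0, 0⟩, ⟨192500400128, 0⟩, ⟨0, 0⟩, ⟨0, 1099511627776⟩⟩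

def BT : BC := ⟨⟨0, 0, 1099511627776, 0⟩, ⟨0, 0⟩, ⟨0, 0⟩, 735707070464, 43859181568, 113752145920, 200656748544, 219901198336, 872415232, 513533804544, 278233350144, ⟨2903397892096, 0⟩, ⟨777389080576, 0⟩, ⟨356728438784, 0⟩, ⟨1099511627776, 0⟩, ⟨0, 0⟩⟩

end Pool.Agent.helper82.WC.S0fK2
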