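import Pool.Agent.helper82.WH.Chks

/-!
Generated: constants of a cell.
-/

namespace Pool.Agent.helper82.WC.S0fK3

open Pool.Agent.helper82.WH
open Pool.Agent.helper31.IC (CovD covD_split TD)

def H : HC := ⟨⟨1116691496960, 0⟩, ⟨7571390595072, 0⟩, ⟨32122142720, 0⟩, ⟨3428253696, 0⟩, ⟨0, 7028342784⟩, ⟨0, 19433783296⟩, ⟨0, 902037504⟩, ⟨1580269568, 0⟩, ⟨3907584000, 0⟩, ⟨0, 267976704⟩, ⟨903985758208, 0⟩, ⟨159379030016, 0⟩, ⟨0, 163340943360⟩, ⟨0, 500582645760⟩, ⟨16584343552, 0⟩, ⟨48401481728, 0⟩, ⟨138628169728, 0⟩, ⟨0, 5037359104⟩, ⟨0, 3294035968⟩, ⟨0, 17485004800⟩, ⟨807403520, 0⟩, ⟨750923218944, 0⟩, ⟨10089201664, 0⟩, ⟨0, 4426760192⟩, ⟨0, 258410741760⟩, ⟨22391226368, 0⟩, ⟨0, 0⟩⟩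

def BI0 : BC := ⟨⟨0, 0, 1099511627776, 0⟩, ⟨0, 0⟩, ⟨0, 0⟩, 701363322880, 47135064064, 124627517440, 220845637632, 219901198336, 872415232, 509490495488, 275381223424, ⟨2873333121024, 0⟩, ⟨416611827712, 0⟩, ⟨390900219904, 0⟩, ⟨0, 0⟩, ⟨0, 0⟩⟩

def BR0 : BC := ⟨⟨0, 0, 0, 0⟩, ⟨109951188992, 0⟩, ⟨1099511627776, 0⟩, 990764597248, 30390747136, 14652866560, 58194657280, 219901198336, 872415232, 509809262592, 275616104448, ⟨0, 0⟩, ⟨0, 0⟩, ⟨102939820032, 0⟩, ⟨0, 0⟩, ⟨0, 0⟩⟩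

def BP : BC := ⟨⟨0, 0, 0, 0⟩, ⟨109951188992, 0⟩, ⟨1099511627776, 0⟩, 866870493184, 29116989440, 72005189632, 125997154304, 219901198336, 872415232, 509389832192, 275314114560, ⟨0, 0⟩, ⟨0, 0⟩, ⟨226193768448, 0⟩, ⟨0, 0⟩, ⟨1099511627776, 0⟩⟩

def BM : BC := ⟨⟨0, 0, 0, 0⟩, ⟨109951188992, 0⟩, ⟨1099511627776, 0⟩, 806107480064, 36471701504, 91305279488, 160098811904, 219901198336, 872415232, 509809262592, 275616104448, ⟨0, 0⟩, ⟨0, 0⟩, ⟨286671437824, 0⟩, ⟨0, 0⟩, ⟨0, 1099511627776⟩⟩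

def BT : BC := ⟨⟨0, 0, 1099511627776, 0⟩, ⟨0, 0⟩, ⟨0, 0⟩, 701363322880, 47135064064, 124627517440, 220845637632, 219901198336, 872415232, 509490495488, 275381223424, ⟨2877628088320, 0⟩, ⟨833223655424, 0⟩, ⟨390900219904, 0⟩, ⟨1099511627776, 0⟩, ⟨0, 0⟩⟩

end Pool.Agent.helper82.WC.S0fK3
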