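import Pool.Agent.helper82.WC.S1K0A
import Pool.Agent.helper63.WG.Asm

/-!
Generated: a cell.
-/

namespace Pool.Agent.helper82.WC.S1K0

open Pool.Agent.helper82.WH Pool.Agent.helper63.WG

def cell : CC where
  H := H
  ce := 1924145348608
  he := 274877906944
  ck := 54895050752
  hk := 54895050752
  V0 := 219901198336
  θ := 1098412116148
  t1 := 5
  al := 687194767360
  Is := [⟨1, BI0, 200387067904, 200387067904⟩, ⟨1, BI1, 543984451584, 143210315776⟩]
  xH := 112474456064
  HI := [⟨0, BH0, 56237228032, 56237228032⟩]
  HR := [⟨0, BH1, 1099511627776, 1099511627776⟩]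
  mT := 0
  T := BT
  lT := 504998363411

theorem cell_ok : cell.ok = true := by decide +kernel

theorem cell_cert : cell.Cert where
  I := by
    intro q hq
    simp only [cell, List.mem_cons, List.not_mem_nil, or_false] at hq
    rcases hq with rfl | rfl
    · exact ⟨I0AD, I0G, I0RT⟩
    · exact ⟨I1AD, I1G, I1RT⟩
  HI := by
    intro q hq
    simp only [cell, List.mem_cons, List.not_mem_nil, or_false] at hq
    subst hq
    exact H0H
  HR := by
    intro q hq
    simp only [cell, List.mem_cons, List.not_mem_nil, or_false] at hq
    subst hq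
    exact H1H
  T := ⟨⟨TAD, TG, TRT⟩, TTT⟩

theorem box : BoxOK 1649267441664 2199023255552 0 109790101504 :=
  cell.box cell_ok (by decide +kernel) cell_cert

end Pool.Agent.helper82.WC.S1K0
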