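import Pool.Agent.helper82.WC.S1K0P

/-!
Generated certificates (in pairs, so that they are checked one after the other).
-/

namespace Pool.Agent.helper82.WC.S1K0

open Pool.Agent.helper82.WH
open Pool.Agent.helper31.IC (CovD covD_split TD)

mutual
theorem I0RT_51 : CovD 1 [pRT H BI0, pK1 H BI0] [(1924145348608, 274877906944), (27447525376, 27447525376), (122110869504, 3131047936)] :=
  cov_of (fRTK H BI0) (.n 1 (.n 2 (.n 0 (.n 1 (.l 0) (.l 0)) (.n 1 (.l 0) (.l 0))) (.n 0 (.n 1 (.l 0) (.l 0)) (.n 1 (.l 0) (.l 0)))) (.n 2 (.n 0 (.n 1 (.l 0) (.l 0)) (.n 1 (.l 0) (.l 0))) (.n 0 (.n 1 (.l 0) (.l 0)) (.n 1 (.l 0) (.l 0))))) [(1924145348608, 274877906944), (27447525376, 27447525376), (122110869504, 3131047936)] rfl (by decide +kernel)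
theorem I0RT_55 : CovD 1 [pRT H BI0, pK1 H BI0] [(1924145348608, 274877906944), (68618813440, 13723762688), (103324581888, 3131047936)] :=
  cov_of (fRTK H BI0) (.n 2 (.n 1 (.n 2 (.n 0 (.l 0) (.l 0)) (.n 0 (.l 0) (.l 0))) (.n 0 (.n 1 (.l 0) (.l 0)) (.n 1 (.l 0) (.l 0)))) (.n 1 (.n 2 (.n 0 (.l 0) (.l 0)) (.n 0 (.l 0) (.l 0))) (.n 0 (.n 0 (.l 0) (.l 0)) (.n 0 (.l 0) (.l 0))))) [(1924145348608, 274877906944), (68618813440, 13723762688), (103324581888, 3131047936)] rfl (by decide +kernel)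
end

mutual
theorem I0RT_56 : CovD 1 [pRT H BI0, pK1 H BI0] [(1924145348608, 274877906944), (68618813440, 13723762688), (109586677760, 3131047936)] :=
  cov_of (fRTK H BI0) (.n 2 (.n 1 (.n 0 (.n 1 (.l 0) (.l 0)) (.n 1 (.l 0) (.l 0))) (.n 0 (.n 0 (.l 0) (.l 0)) (.n 0 (.l 0) (.l 0)))) (.n 1 (.n 0 (.n 0 (.l 0) (.l 0)) (.n 0 (.l 0) (.l 0))) (.n 2 (.l 0) (.l 0)))) [(1924145348608, 274877906944), (68618813440, 13723762688), (109586677760, 3131047936)] rfl (by decide +kernel)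
theorem I0RT_57 : CovD 1 [pRT H BI0, pK1 H BI0] [(1924145348608, 274877906944), (96066338816, 13723762688), (106455629824, 6262095872)] :=
  cov_of (fRTK H BI0) (.n 2 (.n 2 (.n 1 (.n 2 (.n 0 (.l 0) (.l 0)) (.l 0)) (.n 0 (.l 0) (.l 0))) (.n 1 (.n 0 (.l 0) (.l 0)) (.n 0 (.l 0) (.l 0)))) (.n 2 (.n 1 (.n 0 (.l 0) (.l 0)) (.n 0 (.l 0) (.l 0))) (.n 1 (.n 0 (.l 0) (.l 0)) (.n 0 (.l 0) (.l 0))))) [(1924145348608, 274877906944), (96066338816, 13723762688), (106455629824, 6262095872)] rfl (by decide +kernel)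
end

mutual
theorem I0RT_59 : CovD 1 [pRT H BI0, pK1 H BI0] [(1924145348608, 274877906944), (68618813440, 13723762688), (118979821568, 6262095872)] :=
  cov_of (fRTK H BI0) (.n 2 (.n 2 (.n 1 (.n 2 (.n 0 (.l 0) (.l 0)) (.l 0)) (.n 0 (.l 0) (.l 0))) (.n 0 (.n 1 (.l 0) (.l 0)) (.n 1 (.l 0) (.l 0)))) (.n 2 (.n 0 (.n 1 (.l 0) (.l 0)) (.n 1 (.l 0) (.l 0))) (.n 0 (.n 1 (.l 0) (.l 0)) (.n 1 (.l 0) (.l 0))))) [(1924145348608, 274877906944), (68618813440, 13723762688), (118979821568, 6262095872)] rfl (by decide +kernel)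
theorem I0RT_60 : CovD 1 [pRT H BI0, pK1 H BI0] [(1924145348608, 274877906944), (96066338816, 13723762688), (118979821568, 6262095872)] :=
  cov_of (fRTK H BI0) (.n 2 (.n 2 (.n 1 (.n 0 (.l 0) (.l 0)) (.n 0 (.l 0) (.l 0))) (.n 1 (.n 0 (.l 0) (.l 0)) (.n 0 (.l 0) (.l 0)))) (.n 2 (.n 1 (.n 0 (.l 0) (.l 0)) (.n 0 (.l 0) (.l 0))) (.n 1 (.n 0 (.l 0) (.l 0)) (.n 0 (.l 0) (.l 0))))) [(1924145348608, 274877906944), (96066338816, 13723762688), (118979821568, 6262095872)] rfl (by decide +kernel)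
end

mutual
theorem I0RT_64 : CovD 1 [pRT H BI0, pK1 H BI0] [(1924145348608, 274877906944), (27447525376, 27447525376), (128372965376, 3131047936)] :=
  cov_of (fRTK H BI0) (.n 2 (.n 1 (.n 0 (.n 0 (.l 0) (.l 0)) (.n 0 (.l 0) (.l 0))) (.n 0 (.n 1 (.l 0) (.l 0)) (.n 1 (.l 0) (.l 0)))) (.n 1 (.n 0 (.l 0) (.l 0)) (.n 0 (.n 1 (.l 0) (.l 0)) (.n 1 (.l 0) (.l 0))))) [(1924145348608, 274877906944), (27447525376, 27447525376), (128372965376, 3131047936)] rfl (by decide +kernel)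
theorem I0RT_65 : CovD 1 [pRT H BI0, pK1 H BI0] [(1924145348608, 274877906944), (27447525376, 27447525376), (134635061248, 3131047936)] :=
  cov_of (fRTK H BI0) (.n 2 (.n 1 (.n 0 (.l 0) (.l 0)) (.n 0 (.n 0 (.l 0) (.l 0)) (.n 0 (.l 0) (.l 0)))) (.n 1 (.n 0 (.l 0) (.l 0)) (.n 0 (.n 0 (.l 0) (.l 0)) (.n 0 (.l 0) (.l 0))))) [(1924145348608, 274877906944), (27447525376, 27447525376), (134635061248, 3131047936)] rfl (by decide +kernel)
end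

mutual
theorem I0RT_66 : CovD 1 [pRT H BI0, pK1 H BI0] [(1924145348608, 274877906944), (27447525376, 27447525376), (144028205056, 6262095872)] :=
  cov_of (fRTK H BI0) (.n 2 (.n 2 (.n 1 (.n 0 (.l 0) (.l 0)) (.n 0 (.n 0 (.l 0) (.l 0)) (.l 0))) (.n 1 (.n 0 (.l 0) (.l 0)) (.n 0 (.l 0) (.l 0)))) (.n 2 (.n 1 (.n 0 (.l 0) (.l 0)) (.n 0 (.l 0) (.l 0))) (.n 1 (.n 0 (.l 0) (.l 0)) (.n 0 (.l 0) (.l 0))))) [(1924145348608, 274877906944), (27447525376, 27447525376), (144028205056, 6262095872)] rfl (by decide +kernel)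
theorem I0RT_69 : CovD 1 [pRT H BI0, pK1 H BI0] [(1924145348608, 274877906944), (68618813440, 13723762688), (131504013312, 6262095872)] :=
  cov_of (fRTK H BI0) (.n 2 (.n 2 (.n 0 (.n 1 (.l 0) (.l 0)) (.n 1 (.l 0) (.l 0))) (.n 0 (.n 1 (.l 0) (.l 0)) (.n 1 (.l 0) (.l 0)))) (.n 2 (.n 0 (.n 1 (.l 0) (.l 0)) (.n 1 (.l 0) (.l 0))) (.n 0 (.n 0 (.l 0) (.l 0)) (.n 0 (.l 0) (.l 0))))) [(1924145348608, 274877906944), (68618813440, 13723762688), (131504013312, 6262095872)] rfl (by decide +kernel)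
end

mutual
theorem I0RT_70 : CovD 1 [pRT H BI0, pK1 H BI0] [(1924145348608, 274877906944), (96066338816, 13723762688), (131504013312, 6262095872)] :=
  cov_of (fRTK H BI0) (.n 2 (.n 2 (.n 1 (.n 0 (.l 0) (.l 0)) (.n 0 (.l 0) (.l 0))) (.n 0 (.n 0 (.l 0) (.l 0)) (.n 0 (.l 0) (.l 0)))) (.n 2 (.n 1 (.n 0 (.l 0) (.l 0)) (.l 0)) (.n 1 (.n 0 (.l 0) (.l 0)) (.l 0)))) [(1924145348608, 274877906944), (96066338816, 13723762688), (131504013312, 6262095872)] rfl (by decide +kernel)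
theorem I0RT_71 : CovD 1 [pRT H BI0, pK1 H BI0] [(1924145348608, 274877906944), (82342576128, 27447525376), (144028205056, 6262095872)] :=
  cov_of (fRTK H BI0) (.n 1 (.n 2 (.n 2 (.n 0 (.n 0 (.l 0) (.l 0)) (.n 0 (.l 0) (.l 0))) (.n 0 (.l 0) (.l 0))) (.n 2 (.n 0 (.l 0) (.l 0)) (.n 0 (.l 0) (.l 0)))) (.n 2 (.n 2 (.n 0 (.l 0) (.l 0)) (.n 0 (.l 0) (.l 0))) (.n 2 (.n 0 (.l 0) (.l 0)) (.n 0 (.l 0) (.l 0))))) [(1924145348608, 274877906944), (82342576128, 27447525376), (144028205056, 6262095872)] rfl (by decide +kernel)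
end

mutual
theorem I0RT_75 : CovD 1 [pRT H BI0, pK1 H BI0] [(1924145348608, 274877906944), (27447525376, 27447525376), (156552396800, 6262095872)] :=
  cov_of (fRTK H BI0) (.n 2 (.n 2 (.n 1 (.n 0 (.l 0) (.l 0)) (.n 0 (.l 0) (.l 0))) (.n 1 (.n 0 (.l 0) (.l 0)) (.n 0 (.l 0) (.l 0)))) (.n 2 (.n 1 (.n 0 (.l 0) (.l 0)) (.n 0 (.l 0) (.l 0))) (.n 1 (.l 0) (.n 0 (.l 0) (.l 0))))) [(1924145348608, 274877906944), (27447525376, 27447525376), (156552396800, 6262095872)] rfl (by decide +kernel)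
theorem I0RT_76 : CovD 1 [pRT H BI0, pK1 H BI0] [(1924145348608, 274877906944), (27447525376, 27447525376), (169076588544, 6262095872)] :=
  cov_of (fRTK H BI0) (.n 2 (.n 2 (.n 1 (.l 0) (.n 0 (.l 0) (.l 0))) (.n 1 (.l 0) (.n 0 (.l 0) (.l 0)))) (.n 0 (.n 2 (.n 0 (.l 0) (.l 0)) (.l 0)) (.n 2 (.n 0 (.l 0) (.l 0)) (.l 0)))) [(1924145348608, 274877906944), (27447525376, 27447525376), (169076588544, 6262095872)] rfl (by decide +kernel)
end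

mutual
theorem I0RT_78 : CovD 1 [pRT H BI0, pK1 H BI0] [(1924145348608, 274877906944), (82342576128, 27447525376), (156552396800, 6262095872)] :=
  cov_of (fRTK H BI0) (.n 1 (.n 2 (.n 2 (.n 0 (.l 0) (.l 0)) (.n 0 (.l 0) (.l 0))) (.n 2 (.n 0 (.l 0) (.l 0)) (.n 0 (.l 0) (.l 0)))) (.n 2 (.n 2 (.n 0 (.l 0) (.l 0)) (.n 0 (.l 0) (.l 0))) (.n 0 (.n 1 (.l 0) (.l 0)) (.n 1 (.l 0) (.l 0))))) [(1924145348608, 274877906944), (82342576128, 27447525376), (156552396800, 6262095872)] rfl (by decide +kernel)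
theorem I0RT_79 : CovD 1 [pRT H BI0, pK1 H BI0] [(1924145348608, 274877906944), (82342576128, 27447525376), (169076588544, 6262095872)] :=
  cov_of (fRTK H BI0) (.n 2 (.n 1 (.n 2 (.n 0 (.l 0) (.l 0)) (.n 0 (.l 0) (.l 0))) (.n 0 (.n 0 (.l 0) (.l 0)) (.n 1 (.l 0) (.l 0)))) (.n 1 (.n 0 (.n 0 (.l 0) (.l 0)) (.n 0 (.l 0) (.l 0))) (.n 0 (.n 0 (.l 0) (.l 0)) (.n 0 (.l 0) (.l 0))))) [(1924145348608, 274877906944), (82342576128, 27447525376), (169076588544, 6262095872)] rfl (by decide +kernel)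
end

mutual
theorem I0RT_81 : CovD 1 [pRT H BI0, pK1 H BI0] [(1924145348608, 274877906944), (27447525376, 27447525376), (187862876160, 12524191744)] :=
  cov_of (fRTK H BI0) (.n 2 (.n 2 (.n 0 (.n 2 (.l 0) (.l 0)) (.n 1 (.l 0) (.l 0))) (.n 0 (.n 1 (.l 0) (.l 0)) (.n 1 (.l 0) (.l 0)))) (.n 2 (.n 0 (.n 1 (.l 0) (.l 0)) (.n 1 (.l 0) (.l 0))) (.n 0 (.n 0 (.l 0) (.l 0)) (.n 0 (.l 0) (.l 0))))) [(1924145348608, 274877906944), (27447525376, 27447525376), (187862876160, 12524191744)] rfl (by decide +kernel)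
theorem I0RT_82 : CovD 1 [pRT H BI0, pK1 H BI0] [(1924145348608, 274877906944), (82342576128, 27447525376), (187862876160, 12524191744)] :=
  cov_of (fRTK H BI0) (.n 2 (.n 2 (.n 1 (.n 0 (.n 0 (.l 0) (.l 0)) (.n 0 (.l 0) (.l 0))) (.n 0 (.l 0) (.l 0))) (.n 1 (.n 0 (.l 0) (.l 0)) (.n 0 (.l 0) (.l 0)))) (.n 2 (.n 1 (.n 0 (.l 0) (.l 0)) (.n 0 (.l 0) (.l 0))) (.n 1 (.n 0 (.l 0) (.l 0)) (.n 0 (.l 0) (.l 0))))) [(1924145348608, 274877906944), (82342576128, 27447525376), (187862876160, 12524191744)] rfl (by decide +kernel)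
end

mutual
theorem I0RT_86 : CovD 1 [pRT H BI0, pK1 H BI0] [(1924145348608, 274877906944), (54895050752, 54895050752), (212911259648, 12524191744)] :=
  cov_of (fRTK H BI0) (.n 1 (.n 2 (.n 2 (.n 0 (.l 0) (.l 0)) (.n 0 (.l 0) (.l 0))) (.n 2 (.n 0 (.l 0) (.l 0)) (.n 0 (.l 0) (.l 0)))) (.n 2 (.n 2 (.n 1 (.n 0 (.l 0) (.l 0)) (.n 0 (.l 0) (.l 0))) (.n 1 (.n 0 (.l 0) (.l 0)) (.n 0 (.l 0) (.l 0)))) (.n 2 (.n 0 (.n 0 (.l 0) (.l 0)) (.n 0 (.l 0) (.l 0))) (.n 0 (.l 0) (.l 0))))) [(1924145348608, 274877906944), (54895050752, 54895050752), (212911259648, 12524191744)] rfl (by decide +kernel)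
theorem I0RT_87 : CovD 1 [pRT H BI0, pK1 H BI0] [(1924145348608, 274877906944), (54895050752, 54895050752), (237959643136, 12524191744)] :=
  cov_of (fRTK H BI0) (.n 1 (.n 2 (.n 2 (.n 0 (.l 0) (.l 0)) (.n 0 (.l 0) (.l 0))) (.n 2 (.n 0 (.l 0) (.l 0)) (.n 0 (.l 0) (.l 0)))) (.n 2 (.n 2 (.n 0 (.l 0) (.l 0)) (.n 0 (.l 0) (.l 0))) (.n 0 (.n 1 (.l 0) (.l 0)) (.n 1 (.l 0) (.l 0))))) [(1924145348608, 274877906944), (54895050752, 54895050752), (237959643136, 12524191744)] rfl (by decide +kernel)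
end

mutual
theorem I0RT_89 : CovD 1 [pRT H BI0, pK1 H BI0] [(1924145348608, 274877906944), (54895050752, 54895050752), (263008026624, 12524191744)] :=
  cov_of (fRTK H BI0) (.n 2 (.n 1 (.n 2 (.n 0 (.l 0) (.l 0)) (.n 0 (.l 0) (.l 0))) (.n 0 (.n 1 (.l 0) (.l 0)) (.n 1 (.l 0) (.l 0)))) (.n 1 (.n 0 (.l 0) (.n 0 (.l 0) (.l 0))) (.n 0 (.n 0 (.l 0) (.l 0)) (.n 1 (.l 0) (.l 0))))) [(1924145348608, 274877906944), (54895050752, 54895050752), (263008026624, 12524191744)] rfl (by decide +kernel)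
theorem I0RT_90 : CovD 1 [pRT H BI0, pK1 H BI0] [(1924145348608, 274877906944), (54895050752, 54895050752), (288056410112, 12524191744)] :=
  cov_of (fRTK H BI0) (.n 2 (.n 1 (.n 0 (.l 0) (.l 0)) (.n 0 (.n 0 (.l 0) (.l 0)) (.n 0 (.l 0) (.l 0)))) (.n 1 (.n 0 (.l 0) (.l 0)) (.n 0 (.l 0) (.n 0 (.l 0) (.l 0))))) [(1924145348608, 274877906944), (54895050752, 54895050752), (288056410112, 12524191744)] rfl (by decide +kernel)
end

mutual
theorem I0RT_92 : CovD 1 [pRT H BI0, pK1 H BI0] [(1924145348608, 274877906944), (54895050752, 54895050752), (325628985344, 25048383488)] :=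
  cov_of (fRTK H BI0) (.n 2 (.n 2 (.n 1 (.n 0 (.l 0) (.l 0)) (.n 0 (.l 0) (.l 0))) (.n 1 (.n 0 (.l 0) (.l 0)) (.n 0 (.l 0) (.l 0)))) (.n 2 (.n 0 (.n 1 (.l 0) (.l 0)) (.n 1 (.l 0) (.l 0))) (.n 0 (.n 1 (.l 0) (.l 0)) (.n 1 (.l 0) (.l 0))))) [(1924145348608, 274877906944), (54895050752, 54895050752), (325628985344, 25048383488)] rfl (by decide +kernel)
theorem I0RT_93 : CovD 1 [pRT H BI0, pK1 H BI0] [(1924145348608, 274877906944), (54895050752, 54895050752), (375725752320, 25048383488)] :=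
  cov_of (fRTK H BI0) (.n 2 (.n 0 (.n 2 (.n 0 (.l 0) (.l 0)) (.n 0 (.l 0) (.l 0))) (.n 2 (.n 1 (.l 0) (.l 0)) (.n 1 (.l 0) (.l 0)))) (.n 0 (.n 2 (.n 0 (.l 0) (.l 0)) (.l 0)) (.n 2 (.n 1 (.n 0 (.l 0) (.l 0)) (.l 0)) (.n 1 (.n 0 (.l 0) (.n 0 (.l 0) (.l 0))) (.n 0 (.l 0) (.l 0)))))) [(1924145348608, 274877906944), (54895050752, 54895050752), (375725752320, 25048383488)] rfl (by decide +kernel)
end

mutual
theorem I1AD_1 : CovD 0 [pAD H BI1, pK0 H BI1] [(1924145348608, 274877906944), (54895050752, 54895050752), (436576714752, 35802578944)] :=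
  cov_of (fADK H BI1) (.n 0 (.n 0 (.n 1 (.n 0 (.l 0) (.l 0)) (.n 0 (.l 0) (.l 0))) (.n 1 (.n 0 (.l 0) (.l 0)) (.n 0 (.l 0) (.l 0)))) (.n 2 (.n 1 (.n 0 (.l 0) (.l 0)) (.n 0 (.l 0) (.l 0))) (.n 1 (.n 0 (.l 0) (.l 0)) (.n 0 (.l 0) (.l 0))))) [(1924145348608, 274877906944), (54895050752, 54895050752), (436576714752, 35802578944)] rfl (by decide +kernel)
theorem I1AD_2 : CovD 0 [pAD H BI1, pK0 H BI1] [(1924145348608, 274877906944), (54895050752, 54895050752), (508181872640, 35802578944)] :=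
  cov_of (fADK H BI1) (.n 0 (.n 0 (.n 1 (.l 0) (.n 0 (.l 0) (.l 0))) (.n 1 (.l 0) (.l 0))) (.n 2 (.n 0 (.l 0) (.l 0)) (.n 0 (.l 0) (.l 0)))) [(1924145348608, 274877906944), (54895050752, 54895050752), (508181872640, 35802578944)] rfl (by decide +kernel)
end

mutual
theorem I1AD_3 : CovD 0 [pAD H BI1, pK0 H BI1] [(1924145348608, 274877906944), (54895050752, 54895050752), (615589609472, 71605157888)] :=
  cov_of (fADK H BI1) (.n 2 (.n 0 (.n 0 (.n 1 (.l 0) (.l 0)) (.n 1 (.l 0) (.l 0))) (.n 2 (.n 0 (.l 0) (.l 0)) (.n 0 (.l 0) (.l 0)))) (.n 0 (.n 0 (.n 2 (.l 0) (.l 0)) (.n 2 (.l 0) (.l 0))) (.n 2 (.n 0 (.l 0) (.l 0)) (.n 0 (.l 0) (.l 0))))) [(1924145348608, 274877906944), (54895050752, 54895050752), (615589609472, 71605157888)] rfl (by decide +kernel)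
theorem I1G : CovD 1 [pG H BI1, pK1 H BI1] [(1924145348608, 274877906944), (54895050752, 54895050752), (543984451584, 143210315776)] :=
  cov_of (fGK H BI1) (.n 2 (.n 2 (.n 0 (.l 0) (.n 0 (.l 0) (.l 0))) (.n 0 (.n 0 (.l 0) (.l 0)) (.n 2 (.l 0) (.l 0)))) (.n 2 (.n 0 (.n 0 (.l 0) (.l 0)) (.n 2 (.n 0 (.l 0) (.l 0)) (.n 0 (.l 0) (.l 0)))) (.n 0 (.n 0 (.l 0) (.l 0)) (.n 2 (.n 0 (.l 0) (.l 0)) (.n 0 (.l 0) (.l 0)))))) [(1924145348608, 274877906944), (54895050752, 54895050752), (543984451584, 143210315776)] rfl (by decide +kernel)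
end

mutual
theorem I1RT_0 : CovD 1 [pRT H BI1, pK1 H BI1] [(1924145348608, 274877906944), (54895050752, 54895050752), (472379293696, 71605157888)] :=
  cov_of (fRTK H BI1) (.n 2 (.n 2 (.n 2 (.n 0 (.n 0 (.l 0) (.l 0)) (.n 1 (.l 0) (.l 0))) (.n 0 (.l 0) (.n 0 (.l 0) (.l 0)))) (.n 0 (.n 2 (.l 0) (.l 0)) (.n 2 (.n 0 (.l 0) (.l 0)) (.n 0 (.l 0) (.l 0))))) (.n 2 (.n 0 (.n 0 (.l 0) (.l 0)) (.n 2 (.n 0 (.l 0) (.l 0)) (.n 0 (.l 0) (.l 0)))) (.n 0 (.n 0 (.l 0) (.l 0)) (.n 0 (.l 0) (.n 0 (.l 0) (.l 0)))))) [(1924145348608, 274877906944), (54895050752, 54895050752), (472379293696, 71605157888)] rfl (by decide +kernel)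
theorem I1RT_2 : CovD 1 [pRT H BI1, pK1 H BI1] [(1924145348608, 274877906944), (54895050752, 54895050752), (579787030528, 35802578944)] :=
  cov_of (fRTK H BI1) (.n 2 (.n 0 (.l 0) (.n 0 (.l 0) (.n 1 (.l 0) (.l 0)))) (.n 0 (.n 0 (.l 0) (.l 0)) (.n 1 (.n 0 (.l 0) (.n 0 (.l 0) (.l 0))) (.n 0 (.l 0) (.l 0))))) [(1924145348608, 274877906944), (54895050752, 54895050752), (579787030528, 35802578944)] rfl (by decide +kernel)
theorem I1RT_3 : CovD 1 [pRT H BI1, pK1 H BI1] [(1924145348608, 274877906944), (54895050752, 54895050752), (651392188416, 35802578944)] :=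
  cov_of (fRTK H BI1) (.n 2 (.n 0 (.n 0 (.l 0) (.l 0)) (.n 1 (.n 0 (.l 0) (.n 2 (.l 0) (.n 0 (.l 0) (.l 0)))) (.n 0 (.l 0) (.n 0 (.l 0) (.l 0))))) (.n 0 (.n 0 (.l 0) (.l 0)) (.n 1 (.n 0 (.l 0) (.n 2 (.n 1 (.n 0 (.l 0) (.l 0)) (.l 0)) (.n 1 (.n 0 (.l 0) (.l 0)) (.l 0)))) (.n 0 (.l 0) (.n 2 (.l 0) (.l 0)))))) [(1924145348608, 274877906944), (54895050752, 54895050752), (651392188416, 35802578944)] rfl (by decide +kernel)
end

end Pool.Agent.helper82.WC.S1K0
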