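import Pool.Agent.helper82.WC.S1K0C0
import Pool.Agent.helper82.WC.S1K0C1
import Pool.Agent.helper82.WC.S1K0C2

/-!
Generated certificates, assembled.
-/

namespace Pool.Agent.helper82.WC.S1K0

open Pool.Agent.helper82.WH
open Pool.Agent.helper31.IC (CovD covD_split TD)

theorem I0AD_3 : CovD 0 [pAD H BI0, pK0 H BI0] [(1924145348608, 274877906944), (54895050752, 54895050752), (75145150464, 25048383488)] :=
  covD_split 0 (by decide +kernel) I0AD_4 I0AD_5
theorem I0AD_1 : CovD 0 [pAD H BI0, pK0 H BI0] [(1924145348608, 274877906944), (54895050752, 54895050752), (50096766976, 50096766976)] :=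
  covD_split 2 (by decide +kernel) I0AD_2 I0AD_3
theorem I0AD_8 : CovD 0 [pAD H BI0, pK0 H BI0] [(1786706395136, 137438953472), (54895050752, 54895050752), (125241917440, 25048383488)] :=
  covD_split 1 (by decide +kernel) I0AD_9 I0AD_10
theorem I0AD_11 : CovD 0 [pAD H BI0, pK0 H BI0] [(2061584302080, 137438953472), (54895050752, 54895050752), (125241917440, 25048383488)] :=
  covD_split 1 (by decide +kernel) I0AD_12 I0AD_13
theorem I0AD_7 : CovD 0 [pAD H BI0, pK0 H BI0] [(1924145348608, 274877906944), (54895050752, 54895050752), (125241917440, 25048383488)] :=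
  covD_split 0 (by decide +kernel) I0AD_8 I0AD_11
theorem I0AD_14 : CovD 0 [pAD H BI0, pK0 H BI0] [(1924145348608, 274877906944), (54895050752, 54895050752), (175338684416, 25048383488)] :=
  covD_split 0 (by decide +kernel) I0AD_15 I0AD_16
theorem I0AD_6 : CovD 0 [pAD H BI0, pK0 H BI0] [(1924145348608, 274877906944), (54895050752, 54895050752), (150290300928, 50096766976)] :=
  covD_split 2 (by decide +kernel) I0AD_7 I0AD_14
theorem I0AD_0 : CovD 0 [pAD H BI0, pK0 H BI0] [(1924145348608, 274877906944), (54895050752, 54895050752), (100193533952, 100193533952)] :=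
  covD_split 2 (by decide +kernel) I0AD_1 I0AD_6
theorem I0AD_18 : CovD 0 [pAD H BI0, pK0 H BI0] [(1924145348608, 274877906944), (54895050752, 54895050752), (250483834880, 50096766976)] :=
  covD_split 0 (by decide +kernel) I0AD_19 I0AD_20
theorem I0AD_17 : CovD 0 [pAD H BI0, pK0 H BI0] [(1924145348608, 274877906944), (54895050752, 54895050752), (300580601856, 100193533952)] :=
  covD_split 2 (by decide +kernel) I0AD_18 I0AD_21
theorem I0AD : CovD 0 [pAD H BI0, pK0 H BI0] [(1924145348608, 274877906944), (54895050752, 54895050752), (200387067904, 200387067904)] :=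
  covD_split 2 (by decide +kernel) I0AD_0 I0AD_17
theorem I0RT_10 : CovD 1 [pRT H BI0, pK1 H BI0] [(1924145348608, 274877906944), (102928220160, 6861881344), (37572575232, 12524191744)] :=
  covD_split 2 (by decide +kernel) I0RT_11 I0RT_12
theorem I0RT_8 : CovD 1 [pRT H BI0, pK1 H BI0] [(1924145348608, 274877906944), (102928220160, 6861881344), (25048383488, 25048383488)] :=
  covD_split 2 (by decide +kernel) I0RT_9 I0RT_10
theorem I0RT_6 : CovD 1 [pRT H BI0, pK1 H BI0] [(1924145348608, 274877906944), (96066338816, 13723762688), (25048383488, 25048383488)] :=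
  covD_split 1 (by decide +kernel) I0RT_7 I0RT_8
theorem I0RT_4 : CovD 1 [pRT H BI0, pK1 H BI0] [(1924145348608, 274877906944), (82342576128, 27447525376), (25048383488, 25048383488)] :=
  covD_split 1 (by decide +kernel) I0RT_5 I0RT_6
theorem I0RT_2 : CovD 1 [pRT H BI0, pK1 H BI0] [(1924145348608, 274877906944), (54895050752, 54895050752), (25048383488, 25048383488)] :=
  covD_split 1 (by decide +kernel) I0RT_3 I0RT_4
theorem I0RT_19 : CovD 1 [pRT H BI0, pK1 H BI0] [(1924145348608, 274877906944), (96066338816, 13723762688), (56358862848, 6262095872)] :=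
  covD_split 2 (by decide +kernel) I0RT_20 I0RT_21
theorem I0RT_17 : CovD 1 [pRT H BI0, pK1 H BI0] [(1924145348608, 274877906944), (82342576128, 27447525376), (56358862848, 6262095872)] :=
  covD_split 1 (by decide +kernel) I0RT_18 I0RT_19
theorem I0RT_24 : CovD 1 [pRT H BI0, pK1 H BI0] [(1924145348608, 274877906944), (96066338816, 13723762688), (68883054592, 6262095872)] :=
  covD_split 2 (by decide +kernel) I0RT_25 I0RT_26
theorem I0RT_22 : CovD 1 [pRT H BI0, pK1 H BI0] [(1924145348608, 274877906944), (82342576128, 27447525376), (68883054592, 6262095872)] :=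
  covD_split 1 (by decide +kernel) I0RT_23 I0RT_24
theorem I0RT_16 : CovD 1 [pRT H BI0, pK1 H BI0] [(1924145348608, 274877906944), (82342576128, 27447525376), (62620958720, 12524191744)] :=
  covD_split 2 (by decide +kernel) I0RT_17 I0RT_22
theorem I0RT_14 : CovD 1 [pRT H BI0, pK1 H BI0] [(1924145348608, 274877906944), (54895050752, 54895050752), (62620958720, 12524191744)] :=
  covD_split 1 (by decide +kernel) I0RT_15 I0RT_16
theorem I0RT_32 : CovD 1 [pRT H BI0, pK1 H BI0] [(1924145348608, 274877906944), (96066338816, 13723762688), (81407246336, 6262095872)] :=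
  covD_split 2 (by decide +kernel) I0RT_33 I0RT_34
theorem I0RT_30 : CovD 1 [pRT H BI0, pK1 H BI0] [(1924145348608, 274877906944), (82342576128, 27447525376), (81407246336, 6262095872)] :=
  covD_split 1 (by decide +kernel) I0RT_31 I0RT_32
theorem I0RT_36 : CovD 1 [pRT H BI0, pK1 H BI0] [(1924145348608, 274877906944), (68618813440, 13723762688), (93931438080, 6262095872)] :=
  covD_split 2 (by decide +kernel) I0RT_37 I0RT_38
theorem I0RT_39 : CovD 1 [pRT H BI0, pK1 H BI0] [(1924145348608, 274877906944), (96066338816, 13723762688), (93931438080, 6262095872)] :=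
  covD_split 2 (by decide +kernel) I0RT_40 I0RT_41
theorem I0RT_35 : CovD 1 [pRT H BI0, pK1 H BI0] [(1924145348608, 274877906944), (82342576128, 27447525376), (93931438080, 6262095872)] :=
  covD_split 1 (by decide +kernel) I0RT_36 I0RT_39
theorem I0RT_29 : CovD 1 [pRT H BI0, pK1 H BI0] [(1924145348608, 274877906944), (82342576128, 27447525376), (87669342208, 12524191744)] :=
  covD_split 2 (by decide +kernel) I0RT_30 I0RT_35
theorem I0RT_27 : CovD 1 [pRT H BI0, pK1 H BI0] [(1924145348608, 274877906944), (54895050752, 54895050752), (87669342208, 12524191744)] :=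
  covD_split 1 (by decide +kernel) I0RT_28 I0RT_29
theorem I0RT_13 : CovD 1 [pRT H BI0, pK1 H BI0] [(1924145348608, 274877906944), (54895050752, 54895050752), (75145150464, 25048383488)] :=
  covD_split 2 (by decide +kernel) I0RT_14 I0RT_27
theorem I0RT_1 : CovD 1 [pRT H BI0, pK1 H BI0] [(1924145348608, 274877906944), (54895050752, 54895050752), (50096766976, 50096766976)] :=
  covD_split 2 (by decide +kernel) I0RT_2 I0RT_13
theorem I0RT_46 : CovD 1 [pRT H BI0, pK1 H BI0] [(1924145348608, 274877906944), (27447525376, 27447525376), (106455629824, 6262095872)] :=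
  covD_split 2 (by decide +kernel) I0RT_47 I0RT_48
theorem I0RT_49 : CovD 1 [pRT H BI0, pK1 H BI0] [(1924145348608, 274877906944), (27447525376, 27447525376), (118979821568, 6262095872)] :=
  covD_split 2 (by decide +kernel) I0RT_50 I0RT_51
theorem I0RT_45 : CovD 1 [pRT H BI0, pK1 H BI0] [(1924145348608, 274877906944), (27447525376, 27447525376), (112717725696, 12524191744)] :=
  covD_split 2 (by decide +kernel) I0RT_46 I0RT_49
theorem I0RT_54 : CovD 1 [pRT H BI0, pK1 H BI0] [(1924145348608, 274877906944), (68618813440, 13723762688), (106455629824, 6262095872)] :=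
  covD_split 2 (by decide +kernel) I0RT_55 I0RT_56
theorem I0RT_53 : CovD 1 [pRT H BI0, pK1 H BI0] [(1924145348608, 274877906944), (82342576128, 27447525376), (106455629824, 6262095872)] :=
  covD_split 1 (by decide +kernel) I0RT_54 I0RT_57
theorem I0RT_58 : CovD 1 [pRT H BI0, pK1 H BI0] [(1924145348608, 274877906944), (82342576128, 27447525376), (118979821568, 6262095872)] :=
  covD_split 1 (by decide +kernel) I0RT_59 I0RT_60
theorem I0RT_52 : CovD 1 [pRT H BI0, pK1 H BI0] [(1924145348608, 274877906944), (82342576128, 27447525376), (112717725696, 12524191744)] :=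
  covD_split 2 (by decide +kernel) I0RT_53 I0RT_58
theorem I0RT_44 : CovD 1 [pRT H BI0, pK1 H BI0] [(1924145348608, 274877906944), (54895050752, 54895050752), (112717725696, 12524191744)] :=
  covD_split 1 (by decide +kernel) I0RT_45 I0RT_52
theorem I0RT_63 : CovD 1 [pRT H BI0, pK1 H BI0] [(1924145348608, 274877906944), (27447525376, 27447525376), (131504013312, 6262095872)] :=
  covD_split 2 (by decide +kernel) I0RT_64 I0RT_65
theorem I0RT_62 : CovD 1 [pRT H BI0, pK1 H BI0] [(1924145348608, 274877906944), (27447525376, 27447525376), (137766109184, 12524191744)] :=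
  covD_split 2 (by decide +kernel) I0RT_63 I0RT_66
theorem I0RT_68 : CovD 1 [pRT H BI0, pK1 H BI0] [(1924145348608, 274877906944), (82342576128, 27447525376), (131504013312, 6262095872)] :=
  covD_split 1 (by decide +kernel) I0RT_69 I0RT_70
theorem I0RT_67 : CovD 1 [pRT H BI0, pK1 H BI0] [(1924145348608, 274877906944), (82342576128, 27447525376), (137766109184, 12524191744)] :=
  covD_split 2 (by decide +kernel) I0RT_68 I0RT_71
theorem I0RT_61 : CovD 1 [pRT H BI0, pK1 H BI0] [(1924145348608, 274877906944), (54895050752, 54895050752), (137766109184, 12524191744)] :=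
  covD_split 1 (by decide +kernel) I0RT_62 I0RT_67
theorem I0RT_43 : CovD 1 [pRT H BI0, pK1 H BI0] [(1924145348608, 274877906944), (54895050752, 54895050752), (125241917440, 25048383488)] :=
  covD_split 2 (by decide +kernel) I0RT_44 I0RT_61
theorem I0RT_74 : CovD 1 [pRT H BI0, pK1 H BI0] [(1924145348608, 274877906944), (27447525376, 27447525376), (162814492672, 12524191744)] :=
  covD_split 2 (by decide +kernel) I0RT_75 I0RT_76
theorem I0RT_77 : CovD 1 [pRT H BI0, pK1 H BI0] [(1924145348608, 274877906944), (82342576128, 27447525376), (162814492672, 12524191744)] :=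
  covD_split 2 (by decide +kernel) I0RT_78 I0RT_79
theorem I0RT_73 : CovD 1 [pRT H BI0, pK1 H BI0] [(1924145348608, 274877906944), (54895050752, 54895050752), (162814492672, 12524191744)] :=
  covD_split 1 (by decide +kernel) I0RT_74 I0RT_77
theorem I0RT_80 : CovD 1 [pRT H BI0, pK1 H BI0] [(1924145348608, 274877906944), (54895050752, 54895050752), (187862876160, 12524191744)] :=
  covD_split 1 (by decide +kernel) I0RT_81 I0RT_82
theorem I0RT_72 : CovD 1 [pRT H BI0, pK1 H BI0] [(1924145348608, 274877906944), (54895050752, 54895050752), (175338684416, 25048383488)] :=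
  covD_split 2 (by decide +kernel) I0RT_73 I0RT_80
theorem I0RT_42 : CovD 1 [pRT H BI0, pK1 H BI0] [(1924145348608, 274877906944), (54895050752, 54895050752), (150290300928, 50096766976)] :=
  covD_split 2 (by decide +kernel) I0RT_43 I0RT_72
theorem I0RT_0 : CovD 1 [pRT H BI0, pK1 H BI0] [(1924145348608, 274877906944), (54895050752, 54895050752), (100193533952, 100193533952)] :=
  covD_split 2 (by decide +kernel) I0RT_1 I0RT_42
theorem I0RT_85 : CovD 1 [pRT H BI0, pK1 H BI0] [(1924145348608, 274877906944), (54895050752, 54895050752), (225435451392, 25048383488)] :=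
  covD_split 2 (by decide +kernel) I0RT_86 I0RT_87
theorem I0RT_88 : CovD 1 [pRT H BI0, pK1 H BI0] [(1924145348608, 274877906944), (54895050752, 54895050752), (275532218368, 25048383488)] :=
  covD_split 2 (by decide +kernel) I0RT_89 I0RT_90
theorem I0RT_84 : CovD 1 [pRT H BI0, pK1 H BI0] [(1924145348608, 274877906944), (54895050752, 54895050752), (250483834880, 50096766976)] :=
  covD_split 2 (by decide +kernel) I0RT_85 I0RT_88
theorem I0RT_91 : CovD 1 [pRT H BI0, pK1 H BI0] [(1924145348608, 274877906944), (54895050752, 54895050752), (350677368832, 50096766976)] :=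
  covD_split 2 (by decide +kernel) I0RT_92 I0RT_93
theorem I0RT_83 : CovD 1 [pRT H BI0, pK1 H BI0] [(1924145348608, 274877906944), (54895050752, 54895050752), (300580601856, 100193533952)] :=
  covD_split 2 (by decide +kernel) I0RT_84 I0RT_91
theorem I0RT : CovD 1 [pRT H BI0, pK1 H BI0] [(1924145348608, 274877906944), (54895050752, 54895050752), (200387067904, 200387067904)] :=
  covD_split 2 (by decide +kernel) I0RT_0 I0RT_83
theorem I1AD_0 : CovD 0 [pAD H BI1, pK0 H BI1] [(1924145348608, 274877906944), (54895050752, 54895050752), (472379293696, 71605157888)] :=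
  covD_split 2 (by decide +kernel) I1AD_1 I1AD_2
theorem I1AD : CovD 0 [pAD H BI1, pK0 H BI1] [(1924145348608, 274877906944), (54895050752, 54895050752), (543984451584, 143210315776)] :=
  covD_split 2 (by decide +kernel) I1AD_0 I1AD_3
theorem I1RT_1 : CovD 1 [pRT H BI1, pK1 H BI1] [(1924145348608, 274877906944), (54895050752, 54895050752), (615589609472, 71605157888)] :=
  covD_split 2 (by decide +kernel) I1RT_2 I1RT_3
theorem I1RT : CovD 1 [pRT H BI1, pK1 H BI1] [(1924145348608, 274877906944), (54895050752, 54895050752), (543984451584, 143210315776)] :=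
  covD_split 2 (by decide +kernel) I1RT_0 I1RT_1

end Pool.Agent.helper82.WC.S1K0
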