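import Pool.Agent.helper82.WC.S1K0P

/-!
Generated certificates (in pairs, so that they are checked one after the other).
-/

namespace Pool.Agent.helper82.WC.S1K0

open Pool.Agent.helper82.WH
open Pool.Agent.helper31.IC (CovD covD_split TD)

mutual
theorem I0AD_2 : CovD 0 [pAD H BI0, pK0 H BI0] [(1924145348608, 274877906944), (54895050752, 54895050752), (25048383488, 25048383488)] :=
  cov_of (fADK H BI0) (.n 1 (.l 1) (.n 1 (.l 1) (.n 1 (.l 1) (.n 0 (.n 2 (.n 0 (.n 0 (.l 0) (.l 0)) (.l 0)) (.n 0 (.n 0 (.l 0) (.l 0)) (.n 0 (.l 0) (.l 0)))) (.n 2 (.n 0 (.l 0) (.l 0)) (.n 0 (.l 0) (.l 0))))))) [(1924145348608, 274877906944), (54895050752, 54895050752), (25048383488, 25048383488)] rfl (by decide +kernel)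
theorem I0AD_4 : CovD 0 [pAD H BI0, pK0 H BI0] [(1786706395136, 137438953472), (54895050752, 54895050752), (75145150464, 25048383488)] :=
  cov_of (fADK H BI0) (.n 1 (.n 2 (.l 1) (.n 1 (.l 1) (.n 2 (.l 1) (.n 0 (.n 0 (.l 0) (.l 0)) (.l 0))))) (.n 1 (.n 2 (.n 2 (.l 1) (.n 1 (.l 1) (.n 0 (.l 0) (.l 0)))) (.n 0 (.n 2 (.n 0 (.l 0) (.l 0)) (.l 0)) (.n 2 (.n 0 (.l 0) (.l 0)) (.l 0)))) (.n 2 (.n 0 (.n 0 (.l 0) (.l 0)) (.n 0 (.l 0) (.l 0))) (.n 0 (.n 0 (.l 0) (.l 0)) (.n 0 (.l 0) (.l 0)))))) [(1786706395136, 137438953472), (54895050752, 54895050752), (75145150464, 25048383488)] rfl (by decide +kernel)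
end

mutual
theorem I0AD_5 : CovD 0 [pAD H BI0, pK0 H BI0] [(2061584302080, 137438953472), (54895050752, 54895050752), (75145150464, 25048383488)] :=
  cov_of (fADK H BI0) (.n 1 (.n 2 (.l 1) (.n 1 (.l 1) (.n 2 (.l 1) (.n 0 (.l 0) (.l 0))))) (.n 1 (.n 2 (.n 2 (.l 1) (.n 1 (.l 1) (.n 0 (.l 0) (.l 0)))) (.n 0 (.n 2 (.l 0) (.l 0)) (.n 2 (.l 0) (.l 0)))) (.n 2 (.n 0 (.n 0 (.l 0) (.l 0)) (.n 0 (.l 0) (.l 0))) (.n 0 (.n 0 (.l 0) (.l 0)) (.n 0 (.l 0) (.l 0)))))) [(2061584302080, 137438953472), (54895050752, 54895050752), (75145150464, 25048383488)] rfl (by decide +kernel)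
theorem I0AD_9 : CovD 0 [pAD H BI0, pK0 H BI0] [(1786706395136, 137438953472), (27447525376, 27447525376), (125241917440, 25048383488)] :=
  cov_of (fADK H BI0) (.n 2 (.n 0 (.n 1 (.n 0 (.l 0) (.l 0)) (.n 0 (.l 0) (.l 0))) (.n 1 (.n 0 (.l 0) (.l 0)) (.n 0 (.l 0) (.l 0)))) (.n 0 (.n 1 (.n 0 (.l 0) (.l 0)) (.n 0 (.l 0) (.l 0))) (.n 1 (.n 0 (.l 0) (.l 0)) (.n 0 (.l 0) (.l 0))))) [(1786706395136, 137438953472), (27447525376, 27447525376), (125241917440, 25048383488)] rfl (by decide +kernel)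
end

mutual
theorem I0AD_10 : CovD 0 [pAD H BI0, pK0 H BI0] [(1786706395136, 137438953472), (82342576128, 27447525376), (125241917440, 25048383488)] :=
  cov_of (fADK H BI0) (.n 2 (.n 0 (.n 1 (.n 0 (.l 0) (.l 0)) (.n 0 (.l 0) (.l 0))) (.n 1 (.n 0 (.l 0) (.l 0)) (.n 0 (.l 0) (.l 0)))) (.n 0 (.n 1 (.n 0 (.l 0) (.l 0)) (.l 0)) (.n 1 (.l 0) (.l 0)))) [(1786706395136, 137438953472), (82342576128, 27447525376), (125241917440, 25048383488)] rfl (by decide +kernel)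
theorem I0AD_12 : CovD 0 [pAD H BI0, pK0 H BI0] [(2061584302080, 137438953472), (27447525376, 27447525376), (125241917440, 25048383488)] :=
  cov_of (fADK H BI0) (.n 2 (.n 0 (.n 1 (.n 0 (.l 0) (.l 0)) (.n 0 (.l 0) (.l 0))) (.n 1 (.n 0 (.l 0) (.l 0)) (.n 0 (.l 0) (.l 0)))) (.n 0 (.n 1 (.l 0) (.n 0 (.l 0) (.l 0))) (.n 1 (.l 0) (.l 0)))) [(2061584302080, 137438953472), (27447525376, 27447525376), (125241917440, 25048383488)] rfl (by decide +kernel)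
end

mutual
theorem I0AD_13 : CovD 0 [pAD H BI0, pK0 H BI0] [(2061584302080, 137438953472), (82342576128, 27447525376), (125241917440, 25048383488)] :=
  cov_of (fADK H BI0) (.n 2 (.n 0 (.n 1 (.n 0 (.l 0) (.l 0)) (.n 0 (.l 0) (.l 0))) (.n 1 (.n 0 (.l 0) (.l 0)) (.n 0 (.l 0) (.l 0)))) (.n 0 (.n 1 (.l 0) (.l 0)) (.n 1 (.l 0) (.l 0)))) [(2061584302080, 137438953472), (82342576128, 27447525376), (125241917440, 25048383488)] rfl (by decide +kernel)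
theorem I0AD_15 : CovD 0 [pAD H BI0, pK0 H BI0] [(1786706395136, 137438953472), (54895050752, 54895050752), (175338684416, 25048383488)] :=
  cov_of (fADK H BI0) (.n 1 (.n 0 (.n 2 (.n 0 (.l 0) (.l 0)) (.n 0 (.l 0) (.l 0))) (.n 2 (.n 0 (.l 0) (.l 0)) (.n 0 (.l 0) (.l 0)))) (.n 0 (.n 2 (.n 1 (.l 0) (.l 0)) (.n 0 (.l 0) (.l 0))) (.n 2 (.n 1 (.l 0) (.l 0)) (.n 0 (.l 0) (.l 0))))) [(1786706395136, 137438953472), (54895050752, 54895050752), (175338684416, 25048383488)] rfl (by decide +kernel)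
end

mutual
theorem I0AD_16 : CovD 0 [pAD H BI0, pK0 H BI0] [(2061584302080, 137438953472), (54895050752, 54895050752), (175338684416, 25048383488)] :=
  cov_of (fADK H BI0) (.n 1 (.n 2 (.n 0 (.n 1 (.l 0) (.l 0)) (.n 1 (.l 0) (.l 0))) (.n 0 (.n 0 (.l 0) (.l 0)) (.n 0 (.l 0) (.l 0)))) (.n 2 (.n 0 (.n 1 (.l 0) (.l 0)) (.n 1 (.l 0) (.l 0))) (.n 0 (.n 0 (.l 0) (.l 0)) (.n 0 (.l 0) (.l 0))))) [(2061584302080, 137438953472), (54895050752, 54895050752), (175338684416, 25048383488)] rfl (by decide +kernel)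
theorem I0AD_19 : CovD 0 [pAD H BI0, pK0 H BI0] [(1786706395136, 137438953472), (54895050752, 54895050752), (250483834880, 50096766976)] :=
  cov_of (fADK H BI0) (.n 2 (.n 1 (.n 0 (.n 2 (.n 0 (.l 0) (.l 0)) (.l 0)) (.n 2 (.l 0) (.l 0))) (.n 0 (.n 2 (.n 0 (.l 0) (.l 0)) (.l 0)) (.n 2 (.n 0 (.l 0) (.l 0)) (.l 0)))) (.n 1 (.n 0 (.n 0 (.l 0) (.l 0)) (.n 0 (.l 0) (.l 0))) (.n 0 (.n 0 (.l 0) (.l 0)) (.n 0 (.l 0) (.l 0))))) [(1786706395136, 137438953472), (54895050752, 54895050752), (250483834880, 50096766976)] rfl (by decide +kernel)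
end

mutual
theorem I0AD_20 : CovD 0 [pAD H BI0, pK0 H BI0] [(2061584302080, 137438953472), (54895050752, 54895050752), (250483834880, 50096766976)] :=
  cov_of (fADK H BI0) (.n 2 (.n 1 (.n 0 (.n 2 (.l 0) (.l 0)) (.n 2 (.l 0) (.l 0))) (.n 0 (.n 2 (.n 0 (.l 0) (.l 0)) (.l 0)) (.n 2 (.n 0 (.l 0) (.l 0)) (.l 0)))) (.n 1 (.n 0 (.n 0 (.l 0) (.l 0)) (.n 0 (.l 0) (.l 0))) (.n 0 (.n 1 (.l 0) (.l 0)) (.n 1 (.l 0) (.l 0))))) [(2061584302080, 137438953472), (54895050752, 54895050752), (250483834880, 50096766976)] rfl (by decide +kernel)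
theorem I0AD_21 : CovD 0 [pAD H BI0, pK0 H BI0] [(1924145348608, 274877906944), (54895050752, 54895050752), (350677368832, 50096766976)] :=
  cov_of (fADK H BI0) (.n 0 (.n 2 (.n 1 (.n 0 (.n 0 (.l 0) (.l 0)) (.n 0 (.l 0) (.l 0))) (.n 0 (.n 0 (.l 0) (.l 0)) (.n 0 (.l 0) (.l 0)))) (.n 0 (.n 1 (.l 0) (.l 0)) (.n 1 (.l 0) (.l 0)))) (.n 2 (.n 1 (.n 0 (.l 0) (.n 0 (.l 0) (.l 0))) (.n 0 (.n 0 (.l 0) (.l 0)) (.n 0 (.l 0) (.l 0)))) (.n 1 (.n 0 (.l 0) (.l 0)) (.n 0 (.l 0) (.l 0))))) [(1924145348608, 274877906944), (54895050752, 54895050752), (350677368832, 50096766976)] rfl (by decide +kernel)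
end

mutual
theorem I0G : CovD 1 [pG H BI0, pK1 H BI0] [(1924145348608, 274877906944), (54895050752, 54895050752), (200387067904, 200387067904)] :=
  cov_of (fGK H BI0) (.n 2 (.n 2 (.l 0) (.l 0)) (.n 2 (.n 0 (.l 0) (.l 0)) (.n 2 (.l 0) (.n 0 (.l 0) (.l 0))))) [(1924145348608, 274877906944), (54895050752, 54895050752), (200387067904, 200387067904)] rfl (by decide +kernel)
theorem I0RT_3 : CovD 1 [pRT H BI0, pK1 H BI0] [(1924145348608, 274877906944), (27447525376, 27447525376), (25048383488, 25048383488)] :=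
  cov_of (fRTK H BI0) (.l 1) [(1924145348608, 274877906944), (27447525376, 27447525376), (25048383488, 25048383488)] rfl (by decide +kernel)
end

mutual
theorem I0RT_5 : CovD 1 [pRT H BI0, pK1 H BI0] [(1924145348608, 274877906944), (68618813440, 13723762688), (25048383488, 25048383488)] :=
  cov_of (fRTK H BI0) (.l 1) [(1924145348608, 274877906944), (68618813440, 13723762688), (25048383488, 25048383488)] rfl (by decide +kernel)
theorem I0RT_7 : CovD 1 [pRT H BI0, pK1 H BI0] [(1924145348608, 274877906944), (89204457472, 6861881344), (25048383488, 25048383488)] :=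
  cov_of (fRTK H BI0) (.l 1) [(1924145348608, 274877906944), (89204457472, 6861881344), (25048383488, 25048383488)] rfl (by decide +kernel)
end

mutual
theorem I0RT_9 : CovD 1 [pRT H BI0, pK1 H BI0] [(1924145348608, 274877906944), (102928220160, 6861881344), (12524191744, 12524191744)] :=
  cov_of (fRTK H BI0) (.n 1 (.l 1) (.n 1 (.l 1) (.n 2 (.n 1 (.l 1) (.n 1 (.l 1) (.n 2 (.n 2 (.l 0) (.l 0)) (.n 2 (.l 0) (.l 0))))) (.n 2 (.n 1 (.l 1) (.n 2 (.l 0) (.l 0))) (.n 2 (.n 0 (.l 0) (.l 0)) (.n 0 (.l 0) (.l 0))))))) [(1924145348608, 274877906944), (102928220160, 6861881344), (12524191744, 12524191744)] rfl (by decide +kernel)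
theorem I0RT_11 : CovD 1 [pRT H BI0, pK1 H BI0] [(1924145348608, 274877906944), (102928220160, 6861881344), (31310479360, 6262095872)] :=
  cov_of (fRTK H BI0) (.n 1 (.l 1) (.n 2 (.n 2 (.n 2 (.l 0) (.l 0)) (.n 2 (.l 0) (.l 0))) (.n 2 (.n 2 (.l 0) (.l 0)) (.n 2 (.l 0) (.l 0))))) [(1924145348608, 274877906944), (102928220160, 6861881344), (31310479360, 6262095872)] rfl (by decide +kernel)
end

mutual
theorem I0RT_12 : CovD 1 [pRT H BI0, pK1 H BI0] [(1924145348608, 274877906944), (102928220160, 6861881344), (43834671104, 6262095872)] :=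
  cov_of (fRTK H BI0) (.n 2 (.n 2 (.n 2 (.n 0 (.l 0) (.l 0)) (.n 0 (.l 0) (.l 0))) (.n 2 (.n 0 (.l 0) (.l 0)) (.n 0 (.l 0) (.l 0)))) (.n 2 (.n 2 (.n 0 (.l 0) (.l 0)) (.n 0 (.l 0) (.l 0))) (.n 2 (.n 0 (.l 0) (.l 0)) (.n 0 (.l 0) (.l 0))))) [(1924145348608, 274877906944), (102928220160, 6861881344), (43834671104, 6262095872)] rfl (by decide +kernel)
theorem I0RT_15 : CovD 1 [pRT H BI0, pK1 H BI0] [(1924145348608, 274877906944), (27447525376, 27447525376), (62620958720, 12524191744)] :=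
  cov_of (fRTK H BI0) (.l 1) [(1924145348608, 274877906944), (27447525376, 27447525376), (62620958720, 12524191744)] rfl (by decide +kernel)
end

mutual
theorem I0RT_18 : CovD 1 [pRT H BI0, pK1 H BI0] [(1924145348608, 274877906944), (68618813440, 13723762688), (56358862848, 6262095872)] :=
  cov_of (fRTK H BI0) (.l 1) [(1924145348608, 274877906944), (68618813440, 13723762688), (56358862848, 6262095872)] rfl (by decide +kernel)
theorem I0RT_20 : CovD 1 [pRT H BI0, pK1 H BI0] [(1924145348608, 274877906944), (96066338816, 13723762688), (53227814912, 3131047936)] :=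
  cov_of (fRTK H BI0) (.n 1 (.n 2 (.l 1) (.n 1 (.l 1) (.n 2 (.l 0) (.l 0)))) (.n 2 (.n 2 (.n 0 (.l 0) (.l 0)) (.n 0 (.l 0) (.l 0))) (.n 2 (.n 0 (.l 0) (.l 0)) (.n 0 (.l 0) (.l 0))))) [(1924145348608, 274877906944), (96066338816, 13723762688), (53227814912, 3131047936)] rfl (by decide +kernel)
end

mutual
theorem I0RT_21 : CovD 1 [pRT H BI0, pK1 H BI0] [(1924145348608, 274877906944), (96066338816, 13723762688), (59489910784, 3131047936)] :=
  cov_of (fRTK H BI0) (.n 1 (.n 1 (.l 1) (.n 2 (.n 2 (.l 0) (.l 0)) (.n 2 (.l 0) (.l 0)))) (.n 2 (.n 2 (.n 0 (.l 0) (.l 0)) (.n 0 (.l 0) (.l 0))) (.n 2 (.n 0 (.l 0) (.l 0)) (.n 0 (.l 0) (.l 0))))) [(1924145348608, 274877906944), (96066338816, 13723762688), (59489910784, 3131047936)] rfl (by decide +kernel)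
theorem I0RT_23 : CovD 1 [pRT H BI0, pK1 H BI0] [(1924145348608, 274877906944), (68618813440, 13723762688), (68883054592, 6262095872)] :=
  cov_of (fRTK H BI0) (.n 2 (.l 1) (.n 1 (.l 1) (.n 2 (.l 1) (.n 1 (.l 1) (.n 1 (.l 1) (.n 2 (.l 0) (.l 0))))))) [(1924145348608, 274877906944), (68618813440, 13723762688), (68883054592, 6262095872)] rfl (by decide +kernel)
end

mutual
theorem I0RT_25 : CovD 1 [pRT H BI0, pK1 H BI0] [(1924145348608, 274877906944), (96066338816, 13723762688), (65752006656, 3131047936)] :=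
  cov_of (fRTK H BI0) (.n 1 (.n 2 (.n 2 (.n 1 (.l 1) (.l 0)) (.n 0 (.l 0) (.l 0))) (.n 2 (.n 0 (.l 0) (.l 0)) (.n 0 (.l 0) (.l 0)))) (.n 2 (.n 2 (.n 0 (.l 0) (.l 0)) (.n 0 (.l 0) (.l 0))) (.n 2 (.n 0 (.l 0) (.l 0)) (.n 0 (.l 0) (.l 0))))) [(1924145348608, 274877906944), (96066338816, 13723762688), (65752006656, 3131047936)] rfl (by decide +kernel)
theorem I0RT_26 : CovD 1 [pRT H BI0, pK1 H BI0] [(1924145348608, 274877906944), (96066338816, 13723762688), (72014102528, 3131047936)] :=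
  cov_of (fRTK H BI0) (.n 1 (.n 2 (.n 2 (.n 0 (.l 0) (.l 0)) (.n 0 (.l 0) (.l 0))) (.n 2 (.n 0 (.l 0) (.l 0)) (.n 0 (.l 0) (.l 0)))) (.n 2 (.n 2 (.n 0 (.l 0) (.l 0)) (.n 0 (.l 0) (.l 0))) (.n 2 (.n 0 (.l 0) (.l 0)) (.n 0 (.l 0) (.l 0))))) [(1924145348608, 274877906944), (96066338816, 13723762688), (72014102528, 3131047936)] rfl (by decide +kernel)
end

mutual
theorem I0RT_28 : CovD 1 [pRT H BI0, pK1 H BI0] [(1924145348608, 274877906944), (27447525376, 27447525376), (87669342208, 12524191744)] :=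
  cov_of (fRTK H BI0) (.n 2 (.l 1) (.n 2 (.l 1) (.n 1 (.l 1) (.n 1 (.l 1) (.n 2 (.n 1 (.l 1) (.n 1 (.l 1) (.n 2 (.l 0) (.l 0)))) (.n 2 (.n 0 (.l 0) (.l 0)) (.n 0 (.l 0) (.l 0)))))))) [(1924145348608, 274877906944), (27447525376, 27447525376), (87669342208, 12524191744)] rfl (by decide +kernel)
theorem I0RT_31 : CovD 1 [pRT H BI0, pK1 H BI0] [(1924145348608, 274877906944), (68618813440, 13723762688), (81407246336, 6262095872)] :=
  cov_of (fRTK H BI0) (.n 2 (.n 1 (.l 1) (.n 2 (.n 1 (.l 1) (.n 2 (.l 0) (.l 0))) (.n 2 (.n 0 (.l 0) (.l 0)) (.n 0 (.l 0) (.l 0))))) (.n 2 (.n 1 (.l 1) (.n 2 (.n 0 (.l 0) (.l 0)) (.n 0 (.l 0) (.l 0)))) (.n 1 (.n 1 (.l 1) (.n 1 (.l 1) (.n 2 (.l 0) (.l 0)))) (.n 2 (.n 0 (.l 0) (.l 0)) (.n 0 (.l 0) (.l 0)))))) [(1924145348608, 274877906944), (68618813440, 13723762688), (81407246336, 6262095872)] rfl (by decide +kernel)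
end

mutual
theorem I0RT_33 : CovD 1 [pRT H BI0, pK1 H BI0] [(1924145348608, 274877906944), (96066338816, 13723762688), (78276198400, 3131047936)] :=
  cov_of (fRTK H BI0) (.n 1 (.n 2 (.n 2 (.n 0 (.l 0) (.l 0)) (.n 0 (.l 0) (.l 0))) (.n 2 (.n 0 (.l 0) (.l 0)) (.n 0 (.l 0) (.l 0)))) (.n 2 (.n 2 (.n 0 (.l 0) (.l 0)) (.n 0 (.l 0) (.l 0))) (.n 0 (.n 1 (.l 0) (.l 0)) (.n 1 (.l 0) (.l 0))))) [(1924145348608, 274877906944), (96066338816, 13723762688), (78276198400, 3131047936)] rfl (by decide +kernel)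
theorem I0RT_34 : CovD 1 [pRT H BI0, pK1 H BI0] [(1924145348608, 274877906944), (96066338816, 13723762688), (84538294272, 3131047936)] :=
  cov_of (fRTK H BI0) (.n 1 (.n 2 (.n 2 (.n 0 (.l 0) (.l 0)) (.n 0 (.l 0) (.l 0))) (.n 2 (.n 0 (.l 0) (.l 0)) (.n 0 (.l 0) (.l 0)))) (.n 2 (.n 0 (.n 0 (.l 0) (.l 0)) (.n 0 (.l 0) (.l 0))) (.n 0 (.n 0 (.l 0) (.l 0)) (.n 0 (.l 0) (.l 0))))) [(1924145348608, 274877906944), (96066338816, 13723762688), (84538294272, 3131047936)] rfl (by decide +kernel)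
end

mutual
theorem I0RT_37 : CovD 1 [pRT H BI0, pK1 H BI0] [(1924145348608, 274877906944), (68618813440, 13723762688), (90800390144, 3131047936)] :=
  cov_of (fRTK H BI0) (.n 2 (.n 1 (.n 1 (.l 1) (.n 2 (.n 0 (.l 0) (.l 0)) (.l 0))) (.n 2 (.n 0 (.l 0) (.l 0)) (.n 0 (.l 0) (.l 0)))) (.n 1 (.n 2 (.n 0 (.l 0) (.l 0)) (.n 0 (.l 0) (.l 0))) (.n 2 (.n 0 (.l 0) (.l 0)) (.n 0 (.l 0) (.l 0))))) [(1924145348608, 274877906944), (68618813440, 13723762688), (90800390144, 3131047936)] rfl (by decide +kernel)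
theorem I0RT_38 : CovD 1 [pRT H BI0, pK1 H BI0] [(1924145348608, 274877906944), (68618813440, 13723762688), (97062486016, 3131047936)] :=
  cov_of (fRTK H BI0) (.n 2 (.n 1 (.n 2 (.n 0 (.l 0) (.l 0)) (.n 0 (.l 0) (.l 0))) (.n 2 (.n 0 (.l 0) (.l 0)) (.n 0 (.l 0) (.l 0)))) (.n 1 (.n 2 (.n 0 (.l 0) (.l 0)) (.n 0 (.l 0) (.l 0))) (.n 0 (.n 1 (.l 0) (.l 0)) (.n 1 (.l 0) (.l 0))))) [(1924145348608, 274877906944), (68618813440, 13723762688), (97062486016, 3131047936)] rfl (by decide +kernel)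
end

mutual
theorem I0RT_40 : CovD 1 [pRT H BI0, pK1 H BI0] [(1924145348608, 274877906944), (96066338816, 13723762688), (90800390144, 3131047936)] :=
  cov_of (fRTK H BI0) (.n 2 (.n 1 (.n 0 (.n 1 (.l 0) (.l 0)) (.n 1 (.l 0) (.l 0))) (.n 2 (.n 0 (.l 0) (.l 0)) (.l 0))) (.n 1 (.n 0 (.n 1 (.l 0) (.l 0)) (.n 1 (.l 0) (.l 0))) (.n 0 (.l 0) (.l 0)))) [(1924145348608, 274877906944), (96066338816, 13723762688), (90800390144, 3131047936)] rfl (by decide +kernel)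
theorem I0RT_41 : CovD 1 [pRT H BI0, pK1 H BI0] [(1924145348608, 274877906944), (96066338816, 13723762688), (97062486016, 3131047936)] :=
  cov_of (fRTK H BI0) (.n 2 (.n 1 (.n 0 (.n 1 (.l 0) (.l 0)) (.n 1 (.l 0) (.l 0))) (.n 0 (.l 0) (.l 0))) (.n 1 (.n 0 (.n 0 (.l 0) (.l 0)) (.n 0 (.l 0) (.l 0))) (.n 0 (.l 0) (.l 0)))) [(1924145348608, 274877906944), (96066338816, 13723762688), (97062486016, 3131047936)] rfl (by decide +kernel)
end

mutual
theorem I0RT_47 : CovD 1 [pRT H BI0, pK1 H BI0] [(1924145348608, 274877906944), (27447525376, 27447525376), (103324581888, 3131047936)] :=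
  cov_of (fRTK H BI0) (.n 1 (.l 1) (.n 2 (.n 2 (.n 1 (.l 1) (.n 0 (.l 0) (.l 0))) (.n 0 (.n 1 (.l 0) (.l 0)) (.n 1 (.l 0) (.l 0)))) (.n 0 (.n 2 (.n 1 (.l 0) (.l 0)) (.n 1 (.l 0) (.l 0))) (.n 2 (.n 1 (.l 0) (.l 0)) (.n 1 (.l 0) (.l 0)))))) [(1924145348608, 274877906944), (27447525376, 27447525376), (103324581888, 3131047936)] rfl (by decide +kernel)
theorem I0RT_48 : CovD 1 [pRT H BI0, pK1 H BI0] [(1924145348608, 274877906944), (27447525376, 27447525376), (109586677760, 3131047936)] :=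
  cov_of (fRTK H BI0) (.n 1 (.n 2 (.n 2 (.n 0 (.l 0) (.l 0)) (.n 0 (.l 0) (.l 0))) (.n 2 (.n 0 (.l 0) (.l 0)) (.n 0 (.l 0) (.l 0)))) (.n 2 (.n 0 (.n 2 (.n 1 (.l 0) (.l 0)) (.n 0 (.l 0) (.l 0))) (.n 2 (.n 1 (.l 0) (.l 0)) (.n 0 (.l 0) (.l 0)))) (.n 0 (.n 2 (.n 0 (.l 0) (.l 0)) (.n 0 (.l 0) (.l 0))) (.n 2 (.n 0 (.l 0) (.l 0)) (.n 0 (.l 0) (.l 0)))))) [(1924145348608, 274877906944), (27447525376, 27447525376), (109586677760, 3131047936)] rfl (by decide +kernel)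
theorem I0RT_50 : CovD 1 [pRT H BI0, pK1 H BI0] [(1924145348608, 274877906944), (27447525376, 27447525376), (115848773632, 3131047936)] :=
  cov_of (fRTK H BI0) (.n 1 (.n 2 (.n 2 (.n 0 (.l 0) (.l 0)) (.n 0 (.l 0) (.l 0))) (.n 0 (.n 2 (.l 0) (.l 0)) (.n 2 (.l 0) (.l 0)))) (.n 2 (.n 0 (.n 2 (.n 0 (.l 0) (.l 0)) (.l 0)) (.n 2 (.l 0) (.l 0))) (.n 0 (.n 2 (.l 0) (.l 0)) (.n 2 (.l 0) (.l 0))))) [(1924145348608, 274877906944), (27447525376, 27447525376), (115848773632, 3131047936)] rfl (by decide +kernel)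
end

end Pool.Agent.helper82.WC.S1K0
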