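import Pool.Agent.helper82.WH.Chks

/-!
Generated: constants of a cell.
-/

namespace Pool.Agent.helper82.WC.S1K0

open Pool.Agent.helper82.WH
open Pool.Agent.helper31.IC (CovD covD_split TD)

def H : HC := ⟨⟨1924145348608, 0⟩, ⟨2740715520, 0⟩, ⟨0, 279864803328⟩, ⟨0, 406607233024⟩, ⟨43957420032, 0⟩, ⟨0, 833353285632⟩, ⟨104501411840, 0⟩, ⟨313706938368, 0⟩, ⟨918021406720, 0⟩, ⟨0, 1961842376704⟩, ⟨549376819200, 0⟩, ⟨0, 14000848896⟩, ⟨295991115776, 0⟩, ⟨452097671168, 0⟩, ⟨618084958208, 0⟩, ⟨0, 237152763904⟩, ⟨0, 624420716544⟩, ⟨0, 834035515392⟩, ⟨425614180352, 0⟩, ⟨119747772416, 0⟩, ⟨366579941376, 0⟩, ⟨1310213341184, 0⟩, ⟨0, 207880192⟩, ⟨0, 1714489655296⟩, ⟨0, 4103433814016⟩, ⟨1976216715264, 0⟩, ⟨10995040256, 0⟩⟩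

def BI0 : BC := ⟨⟨0, 0, 1099511627776, 0⟩, ⟨0, 0⟩, ⟨0, 0⟩, 220049637376, 64350388224, 225757954048, 577878622208, 219901198336, 13555990528, 1466060242944, 1306961903616, ⟨9169755176960, 0⟩, ⟨0, 4982162063360⟩, ⟨870476349440, 0⟩, ⟨0, 0⟩, ⟨0, 0⟩⟩

def BI1 : BC := ⟨⟨0, 0, 1099511627776, 0⟩, ⟨0, 0⟩, ⟨0, 0⟩, 192056524800, 57903546368, 296760836096, 535076012032, 219901198336, 26759659520, 1314595536896, 1206416048128, ⟨3032246910976, 0⟩, ⟨0, 2654289788928⟩, ⟨897176829952, 0⟩, ⟨0, 0⟩, ⟨0, 0⟩⟩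

def BT : BC := ⟨⟨0, 0, 1099511627776, 0⟩, ⟨0, 0⟩, ⟨0, 0⟩, 60145467392, 22914072576, 196502290432, 337025564672, 219901198336, 26759659520, 1141018460160, 1097028599808, ⟨1786706395136, 0⟩, ⟨0, 2108828942336⟩, ⟨396054233088, 0⟩, ⟨1099511627776, 0⟩, ⟨0, 0⟩⟩

def BH0 : BC := ⟨⟨0, 0, 1099511627776, 0⟩, ⟨0, 0⟩, ⟨0, 0⟩, 0, 0, 0, 0, 0, 0, 0, 0, ⟨0, 0⟩, ⟨0, 0⟩, ⟨0, 0⟩, ⟨0, 0⟩, ⟨0, 0⟩⟩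

def BH1 : BC := ⟨⟨0, 0, 0, 0⟩, ⟨137438953472, 0⟩, ⟨1099511627776, 0⟩, 0, 0, 0, 0, 0, 0, 0, 0, ⟨0, 0⟩, ⟨0, 0⟩, ⟨0, 0⟩, ⟨0, 0⟩, ⟨0, 0⟩⟩

end Pool.Agent.helper82.WC.S1K0
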