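import Pool.Agent.helper82.WH.Chks

/-!
Generated: constants of a cell.
-/

namespace Pool.Agent.helper82.WC.S1K10

open Pool.Agent.helper82.WH
open Pool.Agent.helper31.IC (CovD covD_split TD)

def H : HC := ⟨⟨1924145348608, 0⟩, ⟨2322478465024, 0⟩, ⟨0, 9328918528⟩, ⟨0, 7489912832⟩, ⟨10923540480, 0⟩, ⟨0, 28866052096⟩, ⟨0, 14532608000⟩, ⟨19176423424, 0⟩, ⟨12667912192, 0⟩, ⟨0, 4984864768⟩, ⟨373644197888, 0⟩, ⟨349862297600, 0⟩, ⟨0, 230928089088⟩, ⟨995161145344, 0⟩, ⟨0, 91743715328⟩, ⟨285426712576, 0⟩, ⟨0, 1236834123776⟩, ⟨0, 21285765120⟩, ⟨0, 87200890880⟩, ⟨582154977280, 0⟩, ⟨0, 103521779712⟩, ⟨0, 338377506816⟩, ⟨0, 26053378048⟩, ⟨0, 8130461696⟩, ⟨698162937856, 0⟩, ⟨0, 310431383552⟩, ⟨0, 0⟩⟩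

def BI0 : BC := ⟨⟨0, 0, 1099511627776, 0⟩, ⟨0, 0⟩, ⟨0, 0⟩, 408084021248, 80675536896, 227224256512, 377884573696, 219901198336, 1090519040, 824650498048, 380524036096, ⟨3332894621696, 0⟩, ⟨0, 4294967296⟩, ⟨682226483200, 0⟩, ⟨0, 0⟩, ⟨0, 0⟩⟩

def BR0 : BC := ⟨⟨0, 0, 0, 0⟩, ⟨137438953472, 0⟩, ⟨1099511627776, 0⟩, 595641892864, 129817575424, 76708970496, 291710959616, 219901198336, 1291845632, 828089827328, 383778816000, ⟨0, 0⟩, ⟨0, 0⟩, ⟨496632791040, 0⟩, ⟨0, 0⟩, ⟨0, 0⟩⟩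

def BP : BC := ⟨⟨0, 0, 0, 0⟩, ⟨137438953472, 0⟩, ⟨1099511627776, 0⟩, 389312872448, 82592333824, 232956559360, 389018550272, 219901198336, 973078528, 828089827328, 378091339776, ⟨0, 0⟩, ⟨0, 0⟩, ⟨700868198400, 0⟩, ⟨0, 0⟩, ⟨1099511627776, 0⟩⟩

def BM : BC := ⟨⟨0, 0, 0, 0⟩, ⟨137438953472, 0⟩, ⟨1099511627776, 0⟩, 403395510272, 81064034304, 227825156096, 381554917376, 219901198336, 1291845632, 820019986432, 383778816000, ⟨0, 0⟩, ⟨0, 0⟩, ⟨686899331072, 0⟩, ⟨0, 0⟩, ⟨0, 1099511627776⟩⟩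

def BT : BC := ⟨⟨0, 0, 1099511627776, 0⟩, ⟨0, 0⟩, ⟨0, 0⟩, 408084348928, 80675667968, 227224518656, 377883918336, 219901198336, 1090519040, 824650498048, 380524036096, ⟨3332894621696, 0⟩, ⟨0, 8589934592⟩, ⟨682226221056, 0⟩, ⟨1099511627776, 0⟩, ⟨0, 0⟩⟩

end Pool.Agent.helper82.WC.S1K10
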