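import Pool.Agent.helper82.WH.Chks

/-!
Generated: constants of a cell.
-/

namespace Pool.Agent.helper82.WC.S1K11

open Pool.Agent.helper82.WH
open Pool.Agent.helper31.IC (CovD covD_split TD)

def H : HC := ⟨⟨1924145348608, 0⟩, ⟨2704524967936, 0⟩, ⟨0, 19264438272⟩, ⟨0, 4104716288⟩, ⟨4246732800, 0⟩, ⟨9173204992, 0⟩, ⟨0, 11175198720⟩, ⟨13898612736, 0⟩, ⟨0, 13281067008⟩, ⟨2090074112, 0⟩, ⟨552121401344, 0⟩, ⟨288356892672, 0⟩, ⟨0, 199771095040⟩, ⟨284364963840, 0⟩, ⟨0, 5701763072⟩, ⟨196634214400, 0⟩, ⟨0, 336310632448⟩, ⟨0, 42833346560⟩, ⟨0, 46330019840⟩, ⟨111328296960, 0⟩, ⟨0, 14212005888⟩, ⟨138621681664, 0⟩, ⟨0, 2579169280⟩, ⟨0, 5224071168⟩, ⟨0, 111675375616⟩, ⟨35397828608, 0⟩, ⟨0, 0⟩⟩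

def BI0 : BC := ⟨⟨0, 0, 1099511627776, 0⟩, ⟨0, 0⟩, ⟨0, 0⟩, 425765502976, 80837672960, 221156868096, 366144454656, 219901198336, 1006632960, 690667651072, 345258328064, ⟨3195455668224, 0⟩, ⟨0, 8589934592⟩, ⟨664654446592, 0⟩, ⟨0, 0⟩, ⟨0, 0⟩⟩

def BR0 : BC := ⟨⟨0, 0, 0, 0⟩, ⟨137438953472, 0⟩, ⟨1099511627776, 0⟩, 584629485568, 119010623488, 74374709248, 315891253248, 219901198336, 1140850688, 693083570176, 347892350976, ⟨0, 0⟩, ⟨0, 0⟩, ⟨507764277248, 0⟩, ⟨0, 0⟩, ⟨0, 0⟩⟩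

def BP : BC := ⟨⟨0, 0, 0, 0⟩, ⟨137438953472, 0⟩, ⟨1099511627776, 0⟩, 387398959104, 82810634240, 233288302592, 390407127040, 219901198336, 939524096, 693083570176, 343345725440, ⟨0, 0⟩, ⟨0, 0⟩, ⟨702773067776, 0⟩, ⟨0, 0⟩, ⟨1099511627776, 0⟩⟩

def BM : BC := ⟨⟨0, 0, 0, 0⟩, ⟨137438953472, 0⟩, ⟨1099511627776, 0⟩, 433531912192, 79694462976, 218501939200, 362163011584, 219901198336, 1140850688, 686959886336, 347892350976, ⟨0, 0⟩, ⟨0, 0⟩, ⟨656949313536, 0⟩, ⟨0, 0⟩, ⟨0, 1099511627776⟩⟩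

def BT : BC := ⟨⟨0, 0, 1099511627776, 0⟩, ⟨0, 0⟩, ⟨0, 0⟩, 425766158336, 80837869568, 221157392384, 366143143936, 219901198336, 1006632960, 690667651072, 345258328064, ⟨3195455668224, 0⟩, ⟨0, 12884901888⟩, ⟨664653856768, 0⟩, ⟨1099511627776, 0⟩, ⟨0, 0⟩⟩

end Pool.Agent.helper82.WC.S1K11
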