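import Pool.Agent.helper82.WC.S1K1C0

/-!
Generated certificates, assembled.
-/

namespace Pool.Agent.helper82.WC.S1K1

open Pool.Agent.helper82.WH
open Pool.Agent.helper31.IC (CovD covD_split TD)

theorem I0AD_1 : CovD 0 [pAD H BI0] [(1924145348608, 274877906944), (131801808896, 22011707392), (47613739008, 47613739008)] :=
  covD_split 2 (by decide +kernel) I0AD_2 I0AD_3
theorem I0AD_4 : CovD 0 [pAD H BI0] [(1924145348608, 274877906944), (131801808896, 22011707392), (142841217024, 47613739008)] :=
  covD_split 2 (by decide +kernel) I0AD_5 I0AD_6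
theorem I0AD_0 : CovD 0 [pAD H BI0] [(1924145348608, 274877906944), (131801808896, 22011707392), (95227478016, 95227478016)] :=
  covD_split 2 (by decide +kernel) I0AD_1 I0AD_4
theorem I0AD_7 : CovD 0 [pAD H BI0] [(1924145348608, 274877906944), (131801808896, 22011707392), (285682434048, 95227478016)] :=
  covD_split 2 (by decide +kernel) I0AD_8 I0AD_9
theorem I0AD : CovD 0 [pAD H BI0] [(1924145348608, 274877906944), (131801808896, 22011707392), (190454956032, 190454956032)] :=
  covD_split 2 (by decide +kernel) I0AD_0 I0AD_7
theorem I0RT_2 : CovD 1 [pRT H BI0] [(1924145348608, 274877906944), (131801808896, 22011707392), (23806869504, 23806869504)] :=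
  covD_split 2 (by decide +kernel) I0RT_3 I0RT_4
theorem I0RT_1 : CovD 1 [pRT H BI0] [(1924145348608, 274877906944), (131801808896, 22011707392), (47613739008, 47613739008)] :=
  covD_split 2 (by decide +kernel) I0RT_2 I0RT_5
theorem I0RT_6 : CovD 1 [pRT H BI0] [(1924145348608, 274877906944), (131801808896, 22011707392), (142841217024, 47613739008)] :=
  covD_split 2 (by decide +kernel) I0RT_7 I0RT_8
theorem I0RT_0 : CovD 1 [pRT H BI0] [(1924145348608, 274877906944), (131801808896, 22011707392), (95227478016, 95227478016)] :=
  covD_split 2 (by decide +kernel) I0RT_1 I0RT_6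
theorem I0RT : CovD 1 [pRT H BI0] [(1924145348608, 274877906944), (131801808896, 22011707392), (190454956032, 190454956032)] :=
  covD_split 2 (by decide +kernel) I0RT_0 I0RT_9
theorem I1RT : CovD 1 [pRT H BI1] [(1924145348608, 274877906944), (131801808896, 22011707392), (516872470528, 135962558464)] :=
  covD_split 2 (by decide +kernel) I1RT_0 I1RT_1

end Pool.Agent.helper82.WC.S1K1
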