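import Pool.Agent.helper82.WH.Chks

/-!
Generated: constants of a cell.
-/

namespace Pool.Agent.helper82.WC.S1K1

open Pool.Agent.helper82.WH
open Pool.Agent.helper31.IC (CovD covD_split TD)

def H : HC := ⟨⟨1924145348608, 0⟩, ⟨15799484416, 0⟩, ⟨0, 236813680640⟩, ⟨0, 416063684608⟩, ⟨0, 5508104192⟩, ⟨0, 1017276858368⟩, ⟨85650702336, 0⟩, ⟨262280642560, 0⟩, ⟨1219795615744, 0⟩, ⟨0, 2506260676608⟩, ⟨551829110784, 0⟩, ⟨0, 9008119808⟩, ⟨317347921920, 0⟩, ⟨450065989632, 0⟩, ⟨617348726784, 0⟩, ⟨0, 257188888576⟩, ⟨0, 625943838720⟩, ⟨0, 822651256832⟩, ⟨539745386496, 0⟩, ⟨116724531200, 0⟩, ⟨380949889024, 0⟩, ⟨765253582848, 0⟩, ⟨3955294208, 0⟩, ⟨0, 2190815002624⟩, ⟨2882099216384, 0⟩, ⟨0, 26417795104768⟩, ⟨0, 0⟩⟩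

def BI0 : BC := ⟨⟨0, 0, 1099511627776, 0⟩, ⟨0, 0⟩, ⟨0, 0⟩, 279377739776, 78044594176, 98824486912, 632947343360, 219901198336, 10519314432, 1456363012096, 1302432055296, ⟨11570641895424, 0⟩, ⟨0, 4591320039424⟩, ⟨813000622080, 0⟩, ⟨0, 0⟩, ⟨0, 0⟩⟩

def BI1 : BC := ⟨⟨0, 0, 1099511627776, 0⟩, ⟨0, 0⟩, ⟨0, 0⟩, 211778338816, 59079589888, 241884200960, 572767207424, 219901198336, 19478347776, 1298472632320, 1197591232512, ⟨3685081939968, 0⟩, ⟨0, 3255585210368⟩, ⟨878517223424, 0⟩, ⟨0, 0⟩, ⟨0, 0⟩⟩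

def BR0 : BC := ⟨⟨0, 0, 0, 0⟩, ⟨137438953472, 0⟩, ⟨1099511627776, 0⟩, 236591841280, 71004323840, 174262648832, 611390652416, 219901198336, 1996488704, 1459198361600, 1304227217408, ⟨0, 0⟩, ⟨0, 0⟩, ⟨854731456512, 0⟩, ⟨0, 0⟩, ⟨0, 0⟩⟩

def BP : BC := ⟨⟨0, 0, 0, 0⟩, ⟨137438953472, 0⟩, ⟨1099511627776, 0⟩, 157074325504, 49515986944, 115865092096, 483080404992, 219901198336, 1929379840, 1455574482944, 1302029402112, ⟨0, 0⟩, ⟨0, 0⟩, ⟨572140093440, 0⟩, ⟨0, 0⟩, ⟨1099511627776, 0⟩⟩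

def BM : BC := ⟨⟨0, 0, 0, 0⟩, ⟨137438953472, 0⟩, ⟨1099511627776, 0⟩, 149556887552, 47836954624, 110552350720, 495698444288, 219901198336, 1996488704, 1459198361600, 1304227217408, ⟨0, 0⟩, ⟨0, 0⟩, ⟨581217812480, 0⟩, ⟨0, 0⟩, ⟨0, 1099511627776⟩⟩

def BT : BC := ⟨⟨0, 0, 1099511627776, 0⟩, ⟨0, 0⟩, ⟨0, 0⟩, 96565919744, 28356247552, 148947927040, 380617621504, 219901198336, 19478347776, 1126606831616, 1088958758912, ⟨2319282339840, 0⟩, ⟨0, 2701534429184⟩, ⟨441316802560, 0⟩, ⟨1099511627776, 0⟩, ⟨0, 0⟩⟩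

end Pool.Agent.helper82.WC.S1K1
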