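import Pool.Agent.helper82.WC.S1K2C0

/-!
Generated certificates, assembled.
-/

namespace Pool.Agent.helper82.WC.S1K2

open Pool.Agent.helper82.WH
open Pool.Agent.helper31.IC (CovD covD_split TD)

theorem I0AD_1 : CovD 0 [pAD H BI0] [(1924145348608, 274877906944), (186831077376, 33017561088), (46338670592, 46338670592)] :=
  covD_split 2 (by decide +kernel) I0AD_2 I0AD_3
theorem I0AD_4 : CovD 0 [pAD H BI0] [(1924145348608, 274877906944), (186831077376, 33017561088), (139016011776, 46338670592)] :=
  covD_split 0 (by decide +kernel) I0AD_5 I0AD_6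
theorem I0AD_0 : CovD 0 [pAD H BI0] [(1924145348608, 274877906944), (186831077376, 33017561088), (92677341184, 92677341184)] :=
  covD_split 2 (by decide +kernel) I0AD_1 I0AD_4
theorem I0AD_8 : CovD 0 [pAD H BI0] [(1924145348608, 274877906944), (186831077376, 33017561088), (231693352960, 46338670592)] :=
  covD_split 0 (by decide +kernel) I0AD_9 I0AD_10
theorem I0AD_7 : CovD 0 [pAD H BI0] [(1924145348608, 274877906944), (186831077376, 33017561088), (278032023552, 92677341184)] :=
  covD_split 2 (by decide +kernel) I0AD_8 I0AD_11
theorem I0AD : CovD 0 [pAD H BI0] [(1924145348608, 274877906944), (186831077376, 33017561088), (185354682368, 185354682368)] :=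
  covD_split 2 (by decide +kernel) I0AD_0 I0AD_7
theorem I0RT_0 : CovD 1 [pRT H BI0] [(1924145348608, 274877906944), (186831077376, 33017561088), (92677341184, 92677341184)] :=
  covD_split 2 (by decide +kernel) I0RT_1 I0RT_2
theorem I0RT : CovD 1 [pRT H BI0] [(1924145348608, 274877906944), (186831077376, 33017561088), (185354682368, 185354682368)] :=
  covD_split 2 (by decide +kernel) I0RT_0 I0RT_3
theorem I1AD : CovD 0 [pAD H BI1] [(1924145348608, 274877906944), (186831077376, 33017561088), (503182262272, 132472897536)] :=
  covD_split 2 (by decide +kernel) I1AD_0 I1AD_1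

end Pool.Agent.helper82.WC.S1K2
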