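import Pool.Agent.helper82.WH.Chks

/-!
Generated: constants of a cell.
-/

namespace Pool.Agent.helper82.WC.S1K2

open Pool.Agent.helper82.WH
open Pool.Agent.helper31.IC (CovD covD_split TD)

def H : HC := ⟨⟨1924145348608, 0⟩, ⟨31746686976, 0⟩, ⟨0, 253440491520⟩, ⟨0, 401359699968⟩, ⟨181158019072, 0⟩, ⟨0, 906939727872⟩, ⟨69974163456, 0⟩, ⟨351787024384, 0⟩, ⟨1084120432640, 0⟩, ⟨0, 2269864001536⟩, ⟨554015326208, 0⟩, ⟨0, 1597636608⟩, ⟨304046145536, 0⟩, ⟨451814293504, 0⟩, ⟨607537332224, 0⟩, ⟨0, 285736435712⟩, ⟨0, 644327211008⟩, ⟨0, 805540462592⟩, ⟨487035437056, 0⟩, ⟨140599951360, 0⟩, ⟨350210555904, 0⟩, ⟨818332762112, 0⟩, ⟨5006557184, 0⟩, ⟨0, 354708488192⟩, ⟨0, 3513458098176⟩, ⟨3371951915008, 0⟩, ⟨0, 0⟩⟩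

def BI0 : BC := ⟨⟨0, 0, 1099511627776, 0⟩, ⟨0, 0⟩, ⟨0, 0⟩, 307666747392, 82060967936, 74205102080, 625758109696, 219901198336, 9797894144, 1431130079232, 1287181565952, ⟨11269994184704, 0⟩, ⟨0, 3749506449408⟩, ⟨785009803264, 0⟩, ⟨0, 0⟩, ⟨0, 0⟩⟩

def BI1 : BC := ⟨⟨0, 0, 1099511627776, 0⟩, ⟨0, 0⟩, ⟨0, 0⟩, 283253473280, 76484509696, 133639634944, 593451417600, 219901198336, 16777216000, 1275705950208, 1184437895168, ⟨4071628996608, 0⟩, ⟨0, 3551937953792⟩, ⟨808645885952, 0⟩, ⟨0, 0⟩, ⟨0, 0⟩⟩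

def BR0 : BC := ⟨⟨0, 0, 0, 0⟩, ⟨192414547968, 0⟩, ⟨1099511627776, 0⟩, 218400292864, 64599621632, 159377326080, 650145693696, 219901198336, 3607101440, 1436834332672, 1290704781312, ⟨0, 0⟩, ⟨0, 0⟩, ⟨873215098880, 0⟩, ⟨0, 0⟩, ⟨0, 0⟩⟩

def BP : BC := ⟨⟨0, 0, 0, 0⟩, ⟨192414547968, 0⟩, ⟨1099511627776, 0⟩, 215330062336, 63056314368, 156659679232, 582610124800, 219901198336, 3170893824, 1427170656256, 1284866310144, ⟨0, 0⟩, ⟨0, 0⟩, ⟨770281701376, 0⟩, ⟨0, 0⟩, ⟨1099511627776, 0⟩⟩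

def BM : BC := ⟨⟨0, 0, 0, 0⟩, ⟨192414547968, 0⟩, ⟨1099511627776, 0⟩, 196182212608, 58825572352, 143498543104, 621341245440, 219901198336, 3607101440, 1436834332672, 1290704781312, ⟨0, 0⟩, ⟨0, 0⟩, ⟨796026339328, 0⟩, ⟨0, 0⟩, ⟨0, 1099511627776⟩⟩

def BT : BC := ⟨⟨0, 0, 1099511627776, 0⟩, ⟨0, 0⟩, ⟨0, 0⟩, 131448963072, 36082417664, 134164971520, 502336716800, 219901198336, 16777216000, 1107665354752, 1078020014080, ⟨2619930050560, 0⟩, ⟨0, 3053721747456⟩, ⟨596155498496, 0⟩, ⟨1099511627776, 0⟩, ⟨0, 0⟩⟩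

end Pool.Agent.helper82.WC.S1K2
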