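import Pool.Agent.helper82.WC.S1K3C0

/-!
Generated certificates, assembled.
-/

namespace Pool.Agent.helper82.WC.S1K3

open Pool.Agent.helper82.WH
open Pool.Agent.helper31.IC (CovD covD_split TD)

theorem I0AD_1 : CovD 0 [pAD H BI0] [(1924145348608, 274877906944), (263872053248, 44023414784), (59324235776, 59324235776)] :=
  covD_split 2 (by decide +kernel) I0AD_2 I0AD_3
theorem I0AD_4 : CovD 0 [pAD H BI0] [(1924145348608, 274877906944), (263872053248, 44023414784), (177972707328, 59324235776)] :=
  covD_split 2 (by decide +kernel) I0AD_5 I0AD_6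
theorem I0AD_0 : CovD 0 [pAD H BI0] [(1924145348608, 274877906944), (263872053248, 44023414784), (118648471552, 118648471552)] :=
  covD_split 2 (by decide +kernel) I0AD_1 I0AD_4
theorem I0AD_8 : CovD 0 [pAD H BI0] [(1924145348608, 274877906944), (263872053248, 44023414784), (296621178880, 59324235776)] :=
  covD_split 0 (by decide +kernel) I0AD_9 I0AD_10
theorem I0AD_7 : CovD 0 [pAD H BI0] [(1924145348608, 274877906944), (263872053248, 44023414784), (355945414656, 118648471552)] :=
  covD_split 2 (by decide +kernel) I0AD_8 I0AD_11
theorem I0AD : CovD 0 [pAD H BI0] [(1924145348608, 274877906944), (263872053248, 44023414784), (237296943104, 237296943104)] :=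
  covD_split 2 (by decide +kernel) I0AD_0 I0AD_7
theorem I0RT_0 : CovD 1 [pRT H BI0] [(1924145348608, 274877906944), (263872053248, 44023414784), (118648471552, 118648471552)] :=
  covD_split 2 (by decide +kernel) I0RT_1 I0RT_2
theorem I0RT_3 : CovD 1 [pRT H BI0] [(1924145348608, 274877906944), (263872053248, 44023414784), (355945414656, 118648471552)] :=
  covD_split 2 (by decide +kernel) I0RT_4 I0RT_5
theorem I0RT : CovD 1 [pRT H BI0] [(1924145348608, 274877906944), (263872053248, 44023414784), (237296943104, 237296943104)] :=
  covD_split 2 (by decide +kernel) I0RT_0 I0RT_3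
theorem I1AD : CovD 0 [pAD H BI1] [(1924145348608, 274877906944), (263872053248, 44023414784), (572304392192, 97710505984)] :=
  covD_split 2 (by decide +kernel) I1AD_0 I1AD_1

end Pool.Agent.helper82.WC.S1K3
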