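import Pool.Agent.helper82.WC.S1K3P

/-!
Generated certificates (in pairs, so that they are checked one after the other).
-/

namespace Pool.Agent.helper82.WC.S1K3

open Pool.Agent.helper82.WH
open Pool.Agent.helper31.IC (CovD covD_split TD)

mutual
theorem I0AD_2 : CovD 0 [pAD H BI0] [(1924145348608, 274877906944), (263872053248, 44023414784), (29662117888, 29662117888)] :=
  cov_of (fAD H BI0) (.n 0 (.n 1 (.n 0 (.n 2 (.l 0) (.l 0)) (.n 2 (.l 0) (.l 0))) (.n 0 (.n 0 (.l 0) (.l 0)) (.n 0 (.l 0) (.l 0)))) (.n 1 (.n 2 (.n 0 (.l 0) (.l 0)) (.n 0 (.l 0) (.l 0))) (.n 0 (.n 0 (.l 0) (.l 0)) (.n 0 (.l 0) (.l 0))))) [(1924145348608, 274877906944), (263872053248, 44023414784), (29662117888, 29662117888)] rfl (by decide +kernel)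
theorem I0AD_3 : CovD 0 [pAD H BI0] [(1924145348608, 274877906944), (263872053248, 44023414784), (88986353664, 29662117888)] :=
  cov_of (fAD H BI0) (.n 0 (.n 1 (.n 0 (.n 2 (.l 0) (.l 0)) (.n 2 (.l 0) (.l 0))) (.n 0 (.n 0 (.l 0) (.l 0)) (.n 0 (.l 0) (.l 0)))) (.n 1 (.n 2 (.n 0 (.l 0) (.l 0)) (.n 0 (.l 0) (.l 0))) (.n 2 (.n 0 (.l 0) (.l 0)) (.n 0 (.l 0) (.l 0))))) [(1924145348608, 274877906944), (263872053248, 44023414784), (88986353664, 29662117888)] rfl (by decide +kernel)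
end

mutual
theorem I0AD_5 : CovD 0 [pAD H BI0] [(1924145348608, 274877906944), (263872053248, 44023414784), (148310589440, 29662117888)] :=
  cov_of (fAD H BI0) (.n 0 (.n 1 (.n 0 (.n 2 (.l 0) (.l 0)) (.n 2 (.l 0) (.l 0))) (.n 0 (.n 0 (.l 0) (.l 0)) (.n 0 (.l 0) (.l 0)))) (.n 1 (.n 2 (.n 0 (.l 0) (.l 0)) (.n 0 (.l 0) (.l 0))) (.n 0 (.n 0 (.l 0) (.l 0)) (.n 2 (.l 0) (.l 0))))) [(1924145348608, 274877906944), (263872053248, 44023414784), (148310589440, 29662117888)] rfl (by decide +kernel)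
theorem I0AD_6 : CovD 0 [pAD H BI0] [(1924145348608, 274877906944), (263872053248, 44023414784), (207634825216, 29662117888)] :=
  cov_of (fAD H BI0) (.n 0 (.n 1 (.n 0 (.n 0 (.l 0) (.l 0)) (.n 2 (.l 0) (.l 0))) (.n 0 (.n 0 (.l 0) (.l 0)) (.n 0 (.l 0) (.l 0)))) (.n 1 (.n 0 (.n 2 (.l 0) (.l 0)) (.n 2 (.l 0) (.l 0))) (.n 0 (.n 0 (.l 0) (.l 0)) (.n 0 (.l 0) (.l 0))))) [(1924145348608, 274877906944), (263872053248, 44023414784), (207634825216, 29662117888)] rfl (by decide +kernel)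
end

mutual
theorem I0AD_9 : CovD 0 [pAD H BI0] [(1786706395136, 137438953472), (263872053248, 44023414784), (296621178880, 59324235776)] :=
  cov_of (fAD H BI0) (.n 2 (.n 1 (.n 0 (.n 0 (.l 0) (.l 0)) (.n 0 (.l 0) (.l 0))) (.n 0 (.n 0 (.l 0) (.l 0)) (.n 0 (.l 0) (.l 0)))) (.n 0 (.n 1 (.n 0 (.l 0) (.l 0)) (.n 0 (.l 0) (.l 0))) (.n 1 (.n 0 (.l 0) (.l 0)) (.n 0 (.l 0) (.l 0))))) [(1786706395136, 137438953472), (263872053248, 44023414784), (296621178880, 59324235776)] rfl (by decide +kernel)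
theorem I0AD_10 : CovD 0 [pAD H BI0] [(2061584302080, 137438953472), (263872053248, 44023414784), (296621178880, 59324235776)] :=
  cov_of (fAD H BI0) (.n 2 (.n 1 (.n 0 (.n 0 (.l 0) (.l 0)) (.n 0 (.l 0) (.l 0))) (.n 0 (.n 0 (.l 0) (.l 0)) (.n 0 (.l 0) (.l 0)))) (.n 1 (.n 0 (.n 0 (.l 0) (.l 0)) (.n 0 (.l 0) (.l 0))) (.n 0 (.l 0) (.l 0)))) [(2061584302080, 137438953472), (263872053248, 44023414784), (296621178880, 59324235776)] rfl (by decide +kernel)
end

mutual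
theorem I0AD_11 : CovD 0 [pAD H BI0] [(1924145348608, 274877906944), (263872053248, 44023414784), (415269650432, 59324235776)] :=
  cov_of (fAD H BI0) (.n 0 (.n 2 (.n 0 (.n 1 (.l 0) (.l 0)) (.n 1 (.l 0) (.l 0))) (.n 0 (.n 1 (.l 0) (.l 0)) (.n 1 (.l 0) (.l 0)))) (.n 2 (.n 1 (.n 0 (.l 0) (.l 0)) (.n 0 (.l 0) (.l 0))) (.n 0 (.n 1 (.l 0) (.l 0)) (.n 1 (.l 0) (.l 0))))) [(1924145348608, 274877906944), (263872053248, 44023414784), (415269650432, 59324235776)] rfl (by decide +kernel)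
theorem I0G : CovD 1 [pG H BI0] [(1924145348608, 274877906944), (263872053248, 44023414784), (237296943104, 237296943104)] :=
  cov_of (fG H BI0) (.n 2 (.n 2 (.l 0) (.n 2 (.l 0) (.l 0))) (.n 2 (.n 2 (.n 0 (.l 0) (.l 0)) (.n 0 (.l 0) (.l 0))) (.n 2 (.n 0 (.l 0) (.l 0)) (.n 0 (.l 0) (.l 0))))) [(1924145348608, 274877906944), (263872053248, 44023414784), (237296943104, 237296943104)] rfl (by decide +kernel)
end

mutual
theorem I0RT_1 : CovD 1 [pRT H BI0] [(1924145348608, 274877906944), (263872053248, 44023414784), (59324235776, 59324235776)] :=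
  cov_of (fRT H BI0) (.n 2 (.n 2 (.n 1 (.n 2 (.n 1 (.l 0) (.l 0)) (.n 1 (.l 0) (.l 0))) (.n 2 (.l 0) (.l 0))) (.n 1 (.n 2 (.n 2 (.l 0) (.l 0)) (.n 2 (.l 0) (.l 0))) (.n 2 (.l 0) (.l 0)))) (.n 2 (.n 1 (.n 2 (.n 2 (.l 0) (.l 0)) (.n 2 (.l 0) (.l 0))) (.n 2 (.l 0) (.l 0))) (.n 1 (.n 2 (.n 1 (.l 0) (.l 0)) (.n 0 (.l 0) (.l 0))) (.n 2 (.l 0) (.l 0))))) [(1924145348608, 274877906944), (263872053248, 44023414784), (59324235776, 59324235776)] rfl (by decide +kernel)
theorem I0RT_2 : CovD 1 [pRT H BI0] [(1924145348608, 274877906944), (263872053248, 44023414784), (177972707328, 59324235776)] :=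
  cov_of (fRT H BI0) (.n 2 (.n 2 (.n 1 (.n 2 (.n 0 (.l 0) (.l 0)) (.n 0 (.l 0) (.l 0))) (.n 2 (.l 0) (.l 0))) (.n 1 (.n 2 (.n 0 (.l 0) (.l 0)) (.l 0)) (.n 0 (.l 0) (.l 0)))) (.n 2 (.n 1 (.n 2 (.n 0 (.l 0) (.l 0)) (.n 0 (.l 0) (.l 0))) (.n 0 (.l 0) (.l 0))) (.n 1 (.n 0 (.l 0) (.l 0)) (.n 0 (.l 0) (.l 0))))) [(1924145348608, 274877906944), (263872053248, 44023414784), (177972707328, 59324235776)] rfl (by decide +kernel)
end

mutual
theorem I0RT_4 : CovD 1 [pRT H BI0] [(1924145348608, 274877906944), (263872053248, 44023414784), (296621178880, 59324235776)] :=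
  cov_of (fRT H BI0) (.n 2 (.n 2 (.n 1 (.n 0 (.l 0) (.l 0)) (.n 0 (.l 0) (.l 0))) (.n 0 (.l 0) (.n 0 (.l 0) (.l 0)))) (.n 2 (.n 0 (.l 0) (.n 0 (.l 0) (.l 0))) (.n 0 (.l 0) (.n 1 (.l 0) (.l 0))))) [(1924145348608, 274877906944), (263872053248, 44023414784), (296621178880, 59324235776)] rfl (by decide +kernel)
theorem I0RT_5 : CovD 1 [pRT H BI0] [(1924145348608, 274877906944), (263872053248, 44023414784), (415269650432, 59324235776)] :=
  cov_of (fRT H BI0) (.n 2 (.n 2 (.n 0 (.l 0) (.n 1 (.l 0) (.l 0))) (.n 0 (.l 0) (.n 1 (.l 0) (.l 0)))) (.n 0 (.n 1 (.l 0) (.l 0)) (.n 1 (.n 2 (.n 0 (.l 0) (.l 0)) (.n 0 (.l 0) (.n 1 (.l 0) (.l 0)))) (.n 2 (.n 0 (.l 0) (.l 0)) (.n 0 (.l 0) (.n 1 (.l 0) (.l 0))))))) [(1924145348608, 274877906944), (263872053248, 44023414784), (415269650432, 59324235776)] rfl (by decide +kernel)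
end

mutual
theorem I1AD_0 : CovD 0 [pAD H BI1] [(1924145348608, 274877906944), (263872053248, 44023414784), (523449139200, 48855252992)] :=
  cov_of (fAD H BI1) (.n 0 (.n 2 (.n 0 (.n 1 (.l 0) (.l 0)) (.n 0 (.l 0) (.l 0))) (.n 0 (.n 1 (.l 0) (.l 0)) (.n 1 (.l 0) (.l 0)))) (.n 2 (.n 0 (.n 0 (.l 0) (.l 0)) (.n 0 (.l 0) (.l 0))) (.n 0 (.n 0 (.l 0) (.l 0)) (.n 0 (.l 0) (.l 0))))) [(1924145348608, 274877906944), (263872053248, 44023414784), (523449139200, 48855252992)] rfl (by decide +kernel)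
theorem I1AD_1 : CovD 0 [pAD H BI1] [(1924145348608, 274877906944), (263872053248, 44023414784), (621159645184, 48855252992)] :=
  cov_of (fAD H BI1) (.n 0 (.n 2 (.n 0 (.n 1 (.l 0) (.l 0)) (.n 1 (.l 0) (.l 0))) (.n 0 (.n 1 (.l 0) (.n 0 (.l 0) (.l 0))) (.n 1 (.l 0) (.l 0)))) (.n 2 (.n 0 (.n 1 (.l 0) (.l 0)) (.n 0 (.l 0) (.l 0))) (.n 0 (.n 1 (.l 0) (.l 0)) (.n 1 (.l 0) (.l 0))))) [(1924145348608, 274877906944), (263872053248, 44023414784), (621159645184, 48855252992)] rfl (by decide +kernel)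
end

mutual
theorem I1G : CovD 1 [pG H BI1] [(1924145348608, 274877906944), (263872053248, 44023414784), (572304392192, 97710505984)] :=
  cov_of (fG H BI1) (.n 2 (.n 0 (.l 0) (.n 0 (.l 0) (.l 0))) (.n 0 (.l 0) (.n 0 (.l 0) (.l 0)))) [(1924145348608, 274877906944), (263872053248, 44023414784), (572304392192, 97710505984)] rfl (by decide +kernel)
theorem I1RT : CovD 1 [pRT H BI1] [(1924145348608, 274877906944), (263872053248, 44023414784), (572304392192, 97710505984)] :=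
  cov_of (fRT H BI1) (.n 2 (.n 0 (.n 2 (.n 0 (.l 0) (.l 0)) (.l 0)) (.n 2 (.n 1 (.l 0) (.l 0)) (.n 1 (.n 0 (.l 0) (.l 0)) (.l 0)))) (.n 0 (.n 2 (.n 0 (.l 0) (.l 0)) (.n 0 (.l 0) (.l 0))) (.n 2 (.n 0 (.l 0) (.n 1 (.l 0) (.l 0))) (.n 1 (.n 0 (.l 0) (.n 2 (.l 0) (.l 0))) (.n 2 (.l 0) (.n 0 (.l 0) (.l 0))))))) [(1924145348608, 274877906944), (263872053248, 44023414784), (572304392192, 97710505984)] rfl (by decide +kernel)
end

mutual
theorem R0AD : CovD 0 [pAD H BR0] [(1924145348608, 274877906944), (263872053248, 44023414784), (1099511627776, 1099511627776)] :=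
  cov_of (fAD H BR0) (.n 1 (.n 0 (.n 1 (.n 2 (.l 0) (.l 0)) (.n 2 (.l 0) (.l 0))) (.n 1 (.n 2 (.l 0) (.l 0)) (.n 2 (.l 0) (.l 0)))) (.n 0 (.n 1 (.n 2 (.l 0) (.l 0)) (.n 2 (.l 0) (.l 0))) (.n 1 (.l 0) (.l 0)))) [(1924145348608, 274877906944), (263872053248, 44023414784), (1099511627776, 1099511627776)] rfl (by decide +kernel)
theorem R0G : CovD 1 [pG H BR0] [(1924145348608, 274877906944), (263872053248, 44023414784), (1099511627776, 1099511627776)] :=
  cov_of (fG H BR0) (.l 0) [(1924145348608, 274877906944), (263872053248, 44023414784), (1099511627776, 1099511627776)] rfl (by decide +kernel)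
end

mutual
theorem R0RT : CovD 1 [pRT H BR0] [(1924145348608, 274877906944), (263872053248, 44023414784), (1099511627776, 1099511627776)] :=
  cov_of (fRT H BR0) (.n 1 (.n 1 (.n 2 (.l 0) (.l 0)) (.l 0)) (.n 0 (.l 0) (.l 0))) [(1924145348608, 274877906944), (263872053248, 44023414784), (1099511627776, 1099511627776)] rfl (by decide +kernel)
theorem R0RS : CovD 1 [pRS H BR0] [(1924145348608, 274877906944), (263872053248, 44023414784), (1099511627776, 1099511627776)] :=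
  cov_of (fRS H BR0) (.l 0) [(1924145348608, 274877906944), (263872053248, 44023414784), (1099511627776, 1099511627776)] rfl (by decide +kernel)
end

mutual
theorem PAD : CovD 0 [pAD H BP] [(1924145348608, 274877906944), (263872053248, 44023414784), (2199023255552, 0)] :=
  cov_of (fAD H BP) (.n 0 (.n 1 (.n 0 (.l 0) (.l 0)) (.n 0 (.l 0) (.l 0))) (.n 1 (.n 0 (.l 0) (.l 0)) (.n 0 (.l 0) (.l 0)))) [(1924145348608, 274877906944), (263872053248, 44023414784), (2199023255552, 0)] rfl (by decide +kernel)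
theorem PG : CovD 1 [pG H BP] [(1924145348608, 274877906944), (263872053248, 44023414784), (2199023255552, 0)] :=
  cov_of (fG H BP) (.l 0) [(1924145348608, 274877906944), (263872053248, 44023414784), (2199023255552, 0)] rfl (by decide +kernel)
end

mutual
theorem PRT : CovD 1 [pRT H BP] [(1924145348608, 274877906944), (263872053248, 44023414784), (2199023255552, 0)] :=
  cov_of (fRT H BP) (.n 0 (.l 0) (.l 0)) [(1924145348608, 274877906944), (263872053248, 44023414784), (2199023255552, 0)] rfl (by decide +kernel)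
theorem PTT : CovD 1 [pTT H BP] [(1924145348608, 274877906944), (263872053248, 44023414784), (2199023255552, 0)] :=
  cov_of (fTT H BP) (.n 0 (.n 1 (.n 1 (.n 0 (.l 0) (.l 0)) (.n 0 (.l 0) (.l 0))) (.n 1 (.n 0 (.l 0) (.l 0)) (.l 0))) (.n 1 (.n 1 (.n 0 (.l 0) (.l 0)) (.n 0 (.l 0) (.l 0))) (.n 1 (.l 0) (.l 0)))) [(1924145348608, 274877906944), (263872053248, 44023414784), (2199023255552, 0)] rfl (by decide +kernel)
end

mutual
theorem MAD : CovD 0 [pAD H BM] [(1924145348608, 274877906944), (263872053248, 44023414784), (0, 0)] :=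
  cov_of (fAD H BM) (.n 0 (.n 1 (.n 0 (.l 0) (.l 0)) (.n 0 (.l 0) (.l 0))) (.n 1 (.n 0 (.l 0) (.l 0)) (.n 0 (.l 0) (.l 0)))) [(1924145348608, 274877906944), (263872053248, 44023414784), (0, 0)] rfl (by decide +kernel)
theorem MG : CovD 1 [pG H BM] [(1924145348608, 274877906944), (263872053248, 44023414784), (0, 0)] :=
  cov_of (fG H BM) (.l 0) [(1924145348608, 274877906944), (263872053248, 44023414784), (0, 0)] rfl (by decide +kernel)
end

mutual
theorem MRT : CovD 1 [pRT H BM] [(1924145348608, 274877906944), (263872053248, 44023414784), (0, 0)] :=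
  cov_of (fRT H BM) (.n 1 (.n 0 (.l 0) (.l 0)) (.l 0)) [(1924145348608, 274877906944), (263872053248, 44023414784), (0, 0)] rfl (by decide +kernel)
theorem MTT : CovD 1 [pTT H BM] [(1924145348608, 274877906944), (263872053248, 44023414784), (0, 0)] :=
  cov_of (fTT H BM) (.n 0 (.n 1 (.n 1 (.n 0 (.l 0) (.l 0)) (.n 0 (.l 0) (.l 0))) (.n 1 (.n 0 (.l 0) (.l 0)) (.l 0))) (.n 1 (.n 1 (.n 0 (.l 0) (.l 0)) (.n 0 (.l 0) (.l 0))) (.n 1 (.n 0 (.l 0) (.l 0)) (.l 0)))) [(1924145348608, 274877906944), (263872053248, 44023414784), (0, 0)] rfl (by decide +kernel)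
end

mutual
theorem TAD : CovD 0 [pAD H BT] [(1924145348608, 274877906944), (263872053248, 44023414784), (670014898176, 0)] :=
  cov_of (fAD H BT) (.n 0 (.n 0 (.n 0 (.l 0) (.l 0)) (.l 0)) (.n 0 (.l 0) (.l 0))) [(1924145348608, 274877906944), (263872053248, 44023414784), (670014898176, 0)] rfl (by decide +kernel)
theorem TG : CovD 1 [pG H BT] [(1924145348608, 274877906944), (263872053248, 44023414784), (670014898176, 0)] :=
  cov_of (fG H BT) (.l 0) [(1924145348608, 274877906944), (263872053248, 44023414784), (670014898176, 0)] rfl (by decide +kernel)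
end

mutual
theorem TRT : CovD 1 [pRT H BT] [(1924145348608, 274877906944), (263872053248, 44023414784), (670014898176, 0)] :=
  cov_of (fRT H BT) (.n 0 (.l 0) (.n 1 (.l 0) (.l 0))) [(1924145348608, 274877906944), (263872053248, 44023414784), (670014898176, 0)] rfl (by decide +kernel)
theorem TTT : CovD 1 [pTT H BT] [(1924145348608, 274877906944), (263872053248, 44023414784), (670014898176, 0)] :=
  cov_of (fTT H BT) (.n 0 (.n 0 (.n 1 (.l 0) (.l 0)) (.n 0 (.l 0) (.l 0))) (.n 0 (.l 0) (.l 0))) [(1924145348608, 274877906944), (263872053248, 44023414784), (670014898176, 0)] rfl (by decide +kernel)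
end

end Pool.Agent.helper82.WC.S1K3
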