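import Pool.Agent.helper82.WH.Chks

/-!
Generated: constants of a cell.
-/

namespace Pool.Agent.helper82.WC.S1K3

open Pool.Agent.helper82.WH
open Pool.Agent.helper31.IC (CovD covD_split TD)

def H : HC := ⟨⟨1924145348608, 0⟩, ⟨63326715904, 0⟩, ⟨0, 248657281024⟩, ⟨0, 358042107904⟩, ⟨275653394432, 0⟩, ⟨0, 723289702400⟩, ⟨72322580480, 0⟩, ⟨231392280576, 0⟩, ⟨872557314048, 0⟩, ⟨0, 1624259100672⟩, ⟨558279688192, 0⟩, ⟨8264351744, 0⟩, ⟨261661196288, 0⟩, ⟨459328651264, 0⟩, ⟨583456784384, 0⟩, ⟨0, 295292174336⟩, ⟨0, 703672811520⟩, ⟨0, 799272665088⟩, ⟨375789453312, 0⟩, ⟨237320142848, 0⟩, ⟨188240232448, 0⟩, ⟨1110746333184, 0⟩, ⟨67937894400, 0⟩, ⟨19037749248, 0⟩, ⟨0, 7136542261248⟩, ⟨14541638991872, 0⟩, ⟨0, 0⟩⟩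

def BI0 : BC := ⟨⟨0, 0, 1099511627776, 0⟩, ⟨0, 0⟩, ⟨0, 0⟩, 307744079872, 81976164352, 120659836928, 578418049024, 219901198336, 12582912000, 1381100421120, 1256949022720, ⟨9363028705280, 0⟩, ⟨0, 3350074490880⟩, ⟨784296968192, 0⟩, ⟨0, 0⟩, ⟨0, 0⟩⟩

def BI1 : BC := ⟨⟨0, 0, 1099511627776, 0⟩, ⟨0, 0⟩, ⟨0, 0⟩, 293595054080, 77859782656, 134164119552, 581794398208, 219901198336, 16726884352, 1172240859136, 1120164380672, ⟨3470333575168, 0⟩, ⟨0, 3560527888384⟩, ⟨798284644352, 0⟩, ⟨0, 0⟩, ⟨0, 0⟩⟩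

def BR0 : BC := ⟨⟨0, 0, 0, 0⟩, ⟨164926717952, 0⟩, ⟨1099511627776, 0⟩, 238285029376, 67588128768, 171848105984, 613748310016, 219901198336, 6392119296, 1389757464576, 1262250622976, ⟨0, 0⟩, ⟨0, 0⟩, ⟨853109964800, 0⟩, ⟨0, 0⟩, ⟨0, 0⟩⟩

def BP : BC := ⟨⟨0, 0, 0, 0⟩, ⟨164926717952, 0⟩, ⟨1099511627776, 0⟩, 171662114816, 48743972864, 121190744064, 454009290752, 219901198336, 5184159744, 1373752000512, 1252570169344, ⟨0, 0⟩, ⟨0, 0⟩, ⟨543537102848, 0⟩, ⟨0, 0⟩, ⟨1099511627776, 0⟩⟩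

def BM : BC := ⟨⟨0, 0, 0, 0⟩, ⟨164926717952, 0⟩, ⟨1099511627776, 0⟩, 147394592768, 43374739456, 105261236224, 493181337600, 219901198336, 6392119296, 1389757464576, 1262250622976, ⟨0, 0⟩, ⟨0, 0⟩, ⟨572617850880, 0⟩, ⟨0, 0⟩, ⟨0, 1099511627776⟩⟩

def BT : BC := ⟨⟨0, 0, 1099511627776, 0⟩, ⟨0, 0⟩, ⟨0, 0⟩, 222980014080, 59351891968, 193378648064, 582516015104, 219901198336, 16726884352, 1054615797760, 1046411739136, ⟨2628519985152, 0⟩, ⟨0, 3246995275776⟩, ⟨823201824768, 0⟩, ⟨1099511627776, 0⟩, ⟨0, 0⟩⟩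

end Pool.Agent.helper82.WC.S1K3
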