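import Pool.Agent.helper82.WC.S1K4C0

/-!
Generated certificates, assembled.
-/

namespace Pool.Agent.helper82.WC.S1K4

open Pool.Agent.helper82.WH
open Pool.Agent.helper31.IC (CovD covD_split TD)

theorem I0AD_1 : CovD 0 [pAD H BI0] [(1924145348608, 274877906944), (373796372480, 65900904448), (61203283968, 61203283968)] :=
  covD_split 1 (by decide +kernel) I0AD_2 I0AD_3
theorem I0AD_4 : CovD 0 [pAD H BI0] [(1924145348608, 274877906944), (373796372480, 65900904448), (183609851904, 61203283968)] :=
  covD_split 0 (by decide +kernel) I0AD_5 I0AD_6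
theorem I0AD_0 : CovD 0 [pAD H BI0] [(1924145348608, 274877906944), (373796372480, 65900904448), (122406567936, 122406567936)] :=
  covD_split 2 (by decide +kernel) I0AD_1 I0AD_4
theorem I0AD_8 : CovD 0 [pAD H BI0] [(1924145348608, 274877906944), (373796372480, 65900904448), (306016419840, 61203283968)] :=
  covD_split 0 (by decide +kernel) I0AD_9 I0AD_10
theorem I0AD_11 : CovD 0 [pAD H BI0] [(1924145348608, 274877906944), (373796372480, 65900904448), (428422987776, 61203283968)] :=
  covD_split 0 (by decide +kernel) I0AD_12 I0AD_13
theorem I0AD_7 : CovD 0 [pAD H BI0] [(1924145348608, 274877906944), (373796372480, 65900904448), (367219703808, 122406567936)] :=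
  covD_split 2 (by decide +kernel) I0AD_8 I0AD_11
theorem I0AD : CovD 0 [pAD H BI0] [(1924145348608, 274877906944), (373796372480, 65900904448), (244813135872, 244813135872)] :=
  covD_split 2 (by decide +kernel) I0AD_0 I0AD_7
theorem I0RT_0 : CovD 1 [pRT H BI0] [(1924145348608, 274877906944), (373796372480, 65900904448), (122406567936, 122406567936)] :=
  covD_split 2 (by decide +kernel) I0RT_1 I0RT_2
theorem I0RT_5 : CovD 1 [pRT H BI0] [(1924145348608, 274877906944), (373796372480, 65900904448), (428422987776, 61203283968)] :=
  covD_split 2 (by decide +kernel) I0RT_6 I0RT_7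
theorem I0RT_3 : CovD 1 [pRT H BI0] [(1924145348608, 274877906944), (373796372480, 65900904448), (367219703808, 122406567936)] :=
  covD_split 2 (by decide +kernel) I0RT_4 I0RT_5
theorem I0RT : CovD 1 [pRT H BI0] [(1924145348608, 274877906944), (373796372480, 65900904448), (244813135872, 244813135872)] :=
  covD_split 2 (by decide +kernel) I0RT_0 I0RT_3
theorem I1AD : CovD 0 [pAD H BI1] [(1924145348608, 274877906944), (373796372480, 65900904448), (571230650368, 81604378624)] :=
  covD_split 2 (by decide +kernel) I1AD_0 I1AD_1
theorem I1RT : CovD 1 [pRT H BI1] [(1924145348608, 274877906944), (373796372480, 65900904448), (571230650368, 81604378624)] :=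
  covD_split 2 (by decide +kernel) I1RT_0 I1RT_1

end Pool.Agent.helper82.WC.S1K4
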