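import Pool.Agent.helper82.WH.Chks

/-!
Generated: constants of a cell.
-/

namespace Pool.Agent.helper82.WC.S1K4

open Pool.Agent.helper82.WH
open Pool.Agent.helper31.IC (CovD covD_split TD)

def H : HC := ⟨⟨1924145348608, 0⟩, ⟨127077974016, 0⟩, ⟨0, 172521095168⟩, ⟨0, 313018941440⟩, ⟨188671066112, 0⟩, ⟨0, 778946084864⟩, ⟨51008307200, 0⟩, ⟨121384009728, 0⟩, ⟨1063691288576, 0⟩, ⟨0, 1584688332800⟩, ⟨570978533376, 0⟩, ⟨31234588672, 0⟩, ⟨228350230528, 0⟩, ⟨450842984448, 0⟩, ⟨553881042944, 0⟩, ⟨0, 259269984256⟩, ⟨0, 731060568064⟩, ⟨0, 752423600128⟩, ⟨202190028800, 0⟩, ⟨296930443264, 0⟩, ⟨89427869696, 0⟩, ⟨1175435542528, 0⟩, ⟨55402889216, 0⟩, ⟨14380302336, 0⟩, ⟨0, 7240063909888⟩, ⟨13951624413184, 0⟩, ⟨0, 0⟩⟩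

def BI0 : BC := ⟨⟨0, 0, 1099511627776, 0⟩, ⟨0, 0⟩, ⟨0, 0⟩, 325300191232, 84069908480, 144532766720, 535486332928, 219901198336, 12700352512, 1289295495168, 1201466769408, ⟨8353711390720, 0⟩, ⟨0, 2954937499648⟩, ⟨766368415744, 0⟩, ⟨0, 0⟩, ⟨0, 0⟩⟩

def BI1 : BC := ⟨⟨0, 0, 1099511627776, 0⟩, ⟨0, 0⟩, ⟨0, 0⟩, 327384236032, 84613660672, 129292042240, 547363422208, 219901198336, 15468593152, 1098337222656, 1076510064640, ⟨3788161155072, 0⟩, ⟨0, 3715146711040⟩, ⟨764508897280, 0⟩, ⟨0, 0⟩, ⟨0, 0⟩⟩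

def BR0 : BC := ⟨⟨0, 0, 0, 0⟩, ⟨164926717952, 0⟩, ⟨1099511627776, 0⟩, 265363390464, 66095480832, 170974183424, 587957927936, 219901198336, 9495904256, 1303690346496, 1210224476160, ⟨0, 0⟩, ⟨0, 0⟩, ⟨826059980800, 0⟩, ⟨0, 0⟩, ⟨0, 0⟩⟩

def BP : BC := ⟨⟨0, 0, 0, 0⟩, ⟨164926717952, 0⟩, ⟨1099511627776, 0⟩, 213483454464, 53863251968, 138257760256, 455123861504, 219901198336, 6543114240, 1275773059072, 1193346596864, ⟨0, 0⟩, ⟨0, 0⟩, ⟨572187803648, 0⟩, ⟨0, 0⟩, ⟨1099511627776, 0⟩⟩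

def BM : BC := ⟨⟨0, 0, 0, 0⟩, ⟨164926717952, 0⟩, ⟨1099511627776, 0⟩, 196820271104, 47817293824, 118868606976, 497126998016, 219901198336, 9495904256, 1303690346496, 1210224476160, ⟨0, 0⟩, ⟨0, 0⟩, ⟨602288226304, 0⟩, ⟨0, 0⟩, ⟨0, 1099511627776⟩⟩

def BT : BC := ⟨⟨0, 0, 1099511627776, 0⟩, ⟨0, 0⟩, ⟨0, 0⟩, 236399296512, 62313136128, 198012698624, 550156107776, 219901198336, 15468593152, 1009719967744, 1020709044224, ⟨3143916060672, 0⟩, ⟨0, 3534758084608⟩, ⟨790226141184, 0⟩, ⟨1099511627776, 0⟩, ⟨0, 0⟩⟩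

end Pool.Agent.helper82.WC.S1K4
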