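import Pool.Agent.helper82.WH.Chks

/-!
Generated: constants of a cell.
-/

namespace Pool.Agent.helper82.WC.S1K5

open Pool.Agent.helper82.WH
open Pool.Agent.helper31.IC (CovD covD_split TD)

def H : HC := ⟨⟨1924145348608, 0⟩, ⟨248051793920, 0⟩, ⟨134432489472, 0⟩, ⟨0, 252518334464⟩, ⟨303399895040, 0⟩, ⟨0, 1467451965440⟩, ⟨0, 50633310208⟩, ⟨0, 505406291968⟩, ⟨2654996987904, 0⟩, ⟨0, 2490739785728⟩, ⟨597313126400, 0⟩, ⟨69753962496, 0⟩, ⟨229689196544, 0⟩, ⟨408654446592, 0⟩, ⟨534703112192, 0⟩, ⟨0, 357803622400⟩, ⟨0, 719955230720⟩, ⟨0, 685193756672⟩, ⟨334713192448, 0⟩, ⟨329400975360, 0⟩, ⟨0, 15570239488⟩, ⟨1301872443392, 0⟩, ⟨32851951616, 0⟩, ⟨0, 109803929600⟩, ⟨0, 7390117167104⟩, ⟨12679521370112, 0⟩, ⟨0, 0⟩⟩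

def BI0 : BC := ⟨⟨0, 0, 1099511627776, 0⟩, ⟨0, 0⟩, ⟨0, 0⟩, 396929269760, 95289802752, 138731257856, 459603247104, 219901198336, 12448694272, 1114510458880, 1095870971904, ⟨6975026888704, 0⟩, ⟨0, 2637109919744⟩, ⟨694726492160, 0⟩, ⟨0, 0⟩, ⟨0, 0⟩⟩

def BR0 : BC := ⟨⟨0, 0, 0, 0⟩, ⟨164926717952, 0⟩, ⟨1099511627776, 0⟩, 311772643328, 68286414848, 177562779648, 533243035648, 219901198336, 10066329600, 1137210032128, 1109611511808, ⟨0, 0⟩, ⟨0, 0⟩, ⟨779525357568, 0⟩, ⟨0, 0⟩, ⟨0, 0⟩⟩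

def BP : BC := ⟨⟨0, 0, 0, 0⟩, ⟨164926717952, 0⟩, ⟨1099511627776, 0⟩, 269997637632, 68220420096, 180368637952, 445749592064, 219901198336, 6694109184, 1093018845184, 1082902183936, ⟨0, 0⟩, ⟨0, 0⟩, ⟨633019760640, 0⟩, ⟨0, 0⟩, ⟨1099511627776, 0⟩⟩

def BM : BC := ⟨⟨0, 0, 0, 0⟩, ⟨164926717952, 0⟩, ⟨1099511627776, 0⟩, 283052539904, 60627746816, 153791102976, 495174483968, 219901198336, 10066329600, 1137210032128, 1109611511808, ⟨0, 0⟩, ⟨0, 0⟩, ⟨671400722432, 0⟩, ⟨0, 0⟩, ⟨0, 1099511627776⟩⟩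

def BT : BC := ⟨⟨0, 0, 1099511627776, 0⟩, ⟨0, 0⟩, ⟨0, 0⟩, 189751164928, 43842469888, 141987807232, 366359805952, 219901198336, 12448694272, 953734397952, 990560387072, ⟨4617089843200, 0⟩, ⟨0, 3599182594048⟩, ⟨448685670400, 0⟩, ⟨1099511627776, 0⟩, ⟨0, 0⟩⟩

end Pool.Agent.helper82.WC.S1K5
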