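import Pool.Agent.helper82.WC.S1K6P

/-!
Generated certificates (in pairs, so that they are checked one after the other).
-/

namespace Pool.Agent.helper82.WC.S1K6

open Pool.Agent.helper82.WH
open Pool.Agent.helper31.IC (CovD covD_split TD)

mutual
theorem I0AD_1 : CovD 0 [pAD H BI0] [(1924145348608, 274877906944), (659747241984, 54962159616), (107374182400, 107374182400)] :=
  cov_of (fAD H BI0) (.n 2 (.n 0 (.n 1 (.n 0 (.l 0) (.l 0)) (.n 0 (.l 0) (.l 0))) (.n 1 (.n 0 (.l 0) (.l 0)) (.n 0 (.l 0) (.l 0)))) (.n 0 (.n 1 (.n 0 (.n 0 (.l 0) (.l 0)) (.l 0)) (.n 0 (.l 0) (.l 0))) (.n 1 (.n 0 (.l 0) (.l 0)) (.n 0 (.l 0) (.l 0))))) [(1924145348608, 274877906944), (659747241984, 54962159616), (107374182400, 107374182400)] rfl (by decide +kernel)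
theorem I0AD_2 : CovD 0 [pAD H BI0] [(1924145348608, 274877906944), (769671561216, 54962159616), (107374182400, 107374182400)] :=
  cov_of (fAD H BI0) (.n 2 (.n 0 (.n 1 (.n 0 (.l 0) (.l 0)) (.n 0 (.l 0) (.l 0))) (.n 1 (.n 0 (.l 0) (.l 0)) (.l 0))) (.n 0 (.n 1 (.n 0 (.l 0) (.l 0)) (.n 0 (.l 0) (.l 0))) (.n 1 (.n 0 (.l 0) (.l 0)) (.n 0 (.l 0) (.l 0))))) [(1924145348608, 274877906944), (769671561216, 54962159616), (107374182400, 107374182400)] rfl (by decide +kernel)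
end

mutual
theorem I0AD_5 : CovD 0 [pAD H BI0] [(1924145348608, 274877906944), (659747241984, 54962159616), (268435456000, 53687091200)] :=
  cov_of (fAD H BI0) (.n 0 (.n 1 (.n 2 (.n 0 (.l 0) (.l 0)) (.n 0 (.l 0) (.l 0))) (.n 2 (.n 0 (.l 0) (.l 0)) (.n 0 (.l 0) (.l 0)))) (.n 1 (.n 2 (.l 0) (.l 0)) (.n 2 (.l 0) (.l 0)))) [(1924145348608, 274877906944), (659747241984, 54962159616), (268435456000, 53687091200)] rfl (by decide +kernel)
theorem I0AD_6 : CovD 0 [pAD H BI0] [(1924145348608, 274877906944), (659747241984, 54962159616), (375809638400, 53687091200)] :=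
  cov_of (fAD H BI0) (.n 0 (.n 1 (.n 2 (.n 0 (.l 0) (.l 0)) (.n 0 (.l 0) (.l 0))) (.n 2 (.n 0 (.l 0) (.l 0)) (.n 0 (.l 0) (.l 0)))) (.n 1 (.n 2 (.n 0 (.l 0) (.l 0)) (.n 0 (.l 0) (.l 0))) (.n 2 (.n 0 (.l 0) (.l 0)) (.n 0 (.l 0) (.l 0))))) [(1924145348608, 274877906944), (659747241984, 54962159616), (375809638400, 53687091200)] rfl (by decide +kernel)
end

mutual
theorem I0AD_8 : CovD 0 [pAD H BI0] [(1924145348608, 274877906944), (769671561216, 54962159616), (268435456000, 53687091200)] :=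
  cov_of (fAD H BI0) (.n 0 (.n 1 (.n 2 (.l 0) (.n 0 (.l 0) (.l 0))) (.n 2 (.n 0 (.l 0) (.l 0)) (.n 0 (.l 0) (.l 0)))) (.n 1 (.n 0 (.l 0) (.l 0)) (.n 2 (.l 0) (.l 0)))) [(1924145348608, 274877906944), (769671561216, 54962159616), (268435456000, 53687091200)] rfl (by decide +kernel)
theorem I0AD_9 : CovD 0 [pAD H BI0] [(1924145348608, 274877906944), (769671561216, 54962159616), (375809638400, 53687091200)] :=
  cov_of (fAD H BI0) (.n 0 (.n 1 (.n 2 (.n 0 (.l 0) (.l 0)) (.n 0 (.n 0 (.l 0) (.l 0)) (.l 0))) (.n 2 (.n 0 (.l 0) (.l 0)) (.n 0 (.n 1 (.l 0) (.l 0)) (.n 0 (.l 0) (.l 0))))) (.n 1 (.n 2 (.n 0 (.l 0) (.l 0)) (.n 0 (.l 0) (.l 0))) (.n 2 (.n 0 (.l 0) (.l 0)) (.n 0 (.n 0 (.l 0) (.l 0)) (.l 0))))) [(1924145348608, 274877906944), (769671561216, 54962159616), (375809638400, 53687091200)] rfl (by decide +kernel)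
end

mutual
theorem I0G_0 : CovD 1 [pG H BI0] [(1924145348608, 274877906944), (714709401600, 109924319232), (107374182400, 107374182400)] :=
  cov_of (fG H BI0) (.n 1 (.n 2 (.n 1 (.l 0) (.l 0)) (.n 1 (.n 0 (.l 0) (.l 0)) (.n 0 (.l 0) (.l 0)))) (.n 2 (.n 0 (.l 0) (.l 0)) (.n 1 (.n 0 (.l 0) (.l 0)) (.l 0)))) [(1924145348608, 274877906944), (714709401600, 109924319232), (107374182400, 107374182400)] rfl (by decide +kernel)
theorem I0G_1 : CovD 1 [pG H BI0] [(1924145348608, 274877906944), (714709401600, 109924319232), (322122547200, 107374182400)] :=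
  cov_of (fG H BI0) (.n 1 (.n 2 (.n 1 (.n 0 (.l 0) (.l 0)) (.n 0 (.l 0) (.l 0))) (.n 0 (.n 1 (.l 0) (.l 0)) (.n 1 (.l 0) (.l 0)))) (.n 2 (.n 0 (.n 0 (.l 0) (.l 0)) (.n 1 (.l 0) (.l 0))) (.n 1 (.n 0 (.l 0) (.l 0)) (.n 0 (.l 0) (.l 0))))) [(1924145348608, 274877906944), (714709401600, 109924319232), (322122547200, 107374182400)] rfl (by decide +kernel)
end

mutual
theorem I0RT_1 : CovD 1 [pRT H BI0] [(1924145348608, 274877906944), (659747241984, 54962159616), (107374182400, 107374182400)] :=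
  cov_of (fRT H BI0) (.n 2 (.n 1 (.n 0 (.n 0 (.l 0) (.l 0)) (.n 2 (.l 0) (.n 0 (.l 0) (.l 0)))) (.n 0 (.l 0) (.n 2 (.l 0) (.l 0)))) (.n 2 (.n 0 (.n 0 (.l 0) (.l 0)) (.n 1 (.n 0 (.l 0) (.l 0)) (.l 0))) (.n 0 (.n 1 (.l 0) (.l 0)) (.n 1 (.n 1 (.l 0) (.l 0)) (.l 0))))) [(1924145348608, 274877906944), (659747241984, 54962159616), (107374182400, 107374182400)] rfl (by decide +kernel)
theorem I0RT_2 : CovD 1 [pRT H BI0] [(1924145348608, 274877906944), (769671561216, 54962159616), (107374182400, 107374182400)] :=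
  cov_of (fRT H BI0) (.n 2 (.n 0 (.l 0) (.n 1 (.l 0) (.l 0))) (.n 1 (.n 0 (.l 0) (.n 0 (.l 0) (.l 0))) (.n 0 (.l 0) (.l 0)))) [(1924145348608, 274877906944), (769671561216, 54962159616), (107374182400, 107374182400)] rfl (by decide +kernel)
end

mutual
theorem I0RT_5 : CovD 1 [pRT H BI0] [(1924145348608, 274877906944), (659747241984, 54962159616), (268435456000, 53687091200)] :=
  cov_of (fRT H BI0) (.n 2 (.n 0 (.n 1 (.l 0) (.l 0)) (.n 1 (.n 1 (.n 0 (.l 0) (.l 0)) (.l 0)) (.n 0 (.l 0) (.l 0)))) (.n 0 (.n 1 (.l 0) (.l 0)) (.n 1 (.n 0 (.l 0) (.n 1 (.l 0) (.l 0))) (.n 0 (.l 0) (.l 0))))) [(1924145348608, 274877906944), (659747241984, 54962159616), (268435456000, 53687091200)] rfl (by decide +kernel)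
theorem I0RT_6 : CovD 1 [pRT H BI0] [(1924145348608, 274877906944), (659747241984, 54962159616), (375809638400, 53687091200)] :=
  cov_of (fRT H BI0) (.n 2 (.n 0 (.n 1 (.l 0) (.l 0)) (.n 1 (.n 2 (.n 0 (.l 0) (.l 0)) (.n 1 (.n 0 (.l 0) (.l 0)) (.l 0))) (.n 0 (.l 0) (.l 0)))) (.n 0 (.n 1 (.n 0 (.l 0) (.l 0)) (.l 0)) (.n 1 (.n 2 (.n 1 (.n 0 (.l 0) (.l 0)) (.l 0)) (.n 1 (.n 0 (.l 0) (.l 0)) (.l 0))) (.n 2 (.l 0) (.l 0))))) [(1924145348608, 274877906944), (659747241984, 54962159616), (375809638400, 53687091200)] rfl (by decide +kernel)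
end

mutual
theorem I0RT_7 : CovD 1 [pRT H BI0] [(1924145348608, 274877906944), (769671561216, 54962159616), (322122547200, 107374182400)] :=
  cov_of (fRT H BI0) (.n 2 (.n 2 (.n 0 (.l 0) (.n 0 (.l 0) (.l 0))) (.n 0 (.l 0) (.n 1 (.l 0) (.l 0)))) (.n 1 (.n 0 (.n 0 (.l 0) (.l 0)) (.n 2 (.l 0) (.l 0))) (.n 0 (.l 0) (.n 2 (.l 0) (.l 0))))) [(1924145348608, 274877906944), (769671561216, 54962159616), (322122547200, 107374182400)] rfl (by decide +kernel)
theorem R0AD : CovD 0 [pAD H BR0] [(1924145348608, 274877906944), (714709401600, 109924319232), (1099511627776, 1099511627776)] :=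
  cov_of (fAD H BR0) (.n 1 (.n 1 (.n 0 (.n 2 (.l 0) (.l 0)) (.n 2 (.l 0) (.l 0))) (.n 0 (.n 2 (.l 0) (.l 0)) (.n 2 (.l 0) (.l 0)))) (.n 2 (.n 0 (.n 1 (.n 2 (.l 0) (.l 0)) (.n 2 (.l 0) (.l 0))) (.n 1 (.l 0) (.l 0))) (.n 0 (.n 1 (.l 0) (.l 0)) (.n 1 (.l 0) (.l 0))))) [(1924145348608, 274877906944), (714709401600, 109924319232), (1099511627776, 1099511627776)] rfl (by decide +kernel)
end

mutual
theorem R0G : CovD 1 [pG H BR0] [(1924145348608, 274877906944), (714709401600, 109924319232), (1099511627776, 1099511627776)] :=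
  cov_of (fG H BR0) (.n 1 (.n 1 (.l 0) (.l 0)) (.n 1 (.n 2 (.l 0) (.l 0)) (.n 2 (.l 0) (.l 0)))) [(1924145348608, 274877906944), (714709401600, 109924319232), (1099511627776, 1099511627776)] rfl (by decide +kernel)
theorem R0RT : CovD 1 [pRT H BR0] [(1924145348608, 274877906944), (714709401600, 109924319232), (1099511627776, 1099511627776)] :=
  cov_of (fRT H BR0) (.n 1 (.n 2 (.n 0 (.n 2 (.l 0) (.l 0)) (.n 1 (.n 2 (.l 0) (.l 0)) (.l 0))) (.n 0 (.l 0) (.l 0))) (.n 2 (.n 1 (.n 2 (.l 0) (.l 0)) (.l 0)) (.n 2 (.l 0) (.l 0)))) [(1924145348608, 274877906944), (714709401600, 109924319232), (1099511627776, 1099511627776)] rfl (by decide +kernel)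
end

mutual
theorem R0RS : CovD 1 [pRS H BR0] [(1924145348608, 274877906944), (714709401600, 109924319232), (1099511627776, 1099511627776)] :=
  cov_of (fRS H BR0) (.l 0) [(1924145348608, 274877906944), (714709401600, 109924319232), (1099511627776, 1099511627776)] rfl (by decide +kernel)
theorem PAD : CovD 0 [pAD H BP] [(1924145348608, 274877906944), (714709401600, 109924319232), (2199023255552, 0)] :=
  cov_of (fAD H BP) (.n 1 (.n 0 (.n 0 (.l 0) (.l 0)) (.n 0 (.l 0) (.l 0))) (.n 0 (.n 0 (.l 0) (.l 0)) (.n 0 (.l 0) (.l 0)))) [(1924145348608, 274877906944), (714709401600, 109924319232), (2199023255552, 0)] rfl (by decide +kernel)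
end

mutual
theorem PG : CovD 1 [pG H BP] [(1924145348608, 274877906944), (714709401600, 109924319232), (2199023255552, 0)] :=
  cov_of (fG H BP) (.n 0 (.l 0) (.l 0)) [(1924145348608, 274877906944), (714709401600, 109924319232), (2199023255552, 0)] rfl (by decide +kernel)
theorem PRT : CovD 1 [pRT H BP] [(1924145348608, 274877906944), (714709401600, 109924319232), (2199023255552, 0)] :=
  cov_of (fRT H BP) (.n 1 (.n 0 (.l 0) (.n 0 (.l 0) (.l 0))) (.l 0)) [(1924145348608, 274877906944), (714709401600, 109924319232), (2199023255552, 0)] rfl (by decide +kernel)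
end

mutual
theorem PTT : CovD 1 [pTT H BP] [(1924145348608, 274877906944), (714709401600, 109924319232), (2199023255552, 0)] :=
  cov_of (fTT H BP) (.n 1 (.n 0 (.n 1 (.n 0 (.l 0) (.l 0)) (.l 0)) (.n 1 (.l 0) (.l 0))) (.n 0 (.n 0 (.l 0) (.l 0)) (.n 0 (.l 0) (.l 0)))) [(1924145348608, 274877906944), (714709401600, 109924319232), (2199023255552, 0)] rfl (by decide +kernel)
theorem MAD : CovD 0 [pAD H BM] [(1924145348608, 274877906944), (714709401600, 109924319232), (0, 0)] :=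
  cov_of (fAD H BM) (.n 1 (.n 0 (.n 0 (.l 0) (.l 0)) (.n 0 (.l 0) (.l 0))) (.n 0 (.n 0 (.l 0) (.l 0)) (.n 0 (.l 0) (.l 0)))) [(1924145348608, 274877906944), (714709401600, 109924319232), (0, 0)] rfl (by decide +kernel)
end

mutual
theorem MG : CovD 1 [pG H BM] [(1924145348608, 274877906944), (714709401600, 109924319232), (0, 0)] :=
  cov_of (fG H BM) (.n 1 (.l 0) (.l 0)) [(1924145348608, 274877906944), (714709401600, 109924319232), (0, 0)] rfl (by decide +kernel)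
theorem MRT : CovD 1 [pRT H BM] [(1924145348608, 274877906944), (714709401600, 109924319232), (0, 0)] :=
  cov_of (fRT H BM) (.n 1 (.n 0 (.l 0) (.n 1 (.l 0) (.l 0))) (.n 0 (.l 0) (.l 0))) [(1924145348608, 274877906944), (714709401600, 109924319232), (0, 0)] rfl (by decide +kernel)
end

mutual
theorem MTT : CovD 1 [pTT H BM] [(1924145348608, 274877906944), (714709401600, 109924319232), (0, 0)] :=
  cov_of (fTT H BM) (.n 1 (.n 0 (.n 1 (.n 0 (.l 0) (.l 0)) (.l 0)) (.n 1 (.l 0) (.l 0))) (.n 0 (.n 0 (.l 0) (.l 0)) (.n 0 (.l 0) (.l 0)))) [(1924145348608, 274877906944), (714709401600, 109924319232), (0, 0)] rfl (by decide +kernel)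
theorem TAD : CovD 0 [pAD H BT] [(1924145348608, 274877906944), (714709401600, 109924319232), (429496729600, 0)] :=
  cov_of (fAD H BT) (.n 1 (.n 0 (.n 1 (.n 0 (.l 0) (.l 0)) (.n 0 (.l 0) (.l 0))) (.n 1 (.n 0 (.l 0) (.l 0)) (.n 0 (.l 0) (.l 0)))) (.n 0 (.n 1 (.n 0 (.l 0) (.l 0)) (.n 0 (.n 0 (.l 0) (.l 0)) (.n 0 (.l 0) (.l 0)))) (.n 1 (.n 0 (.l 0) (.l 0)) (.n 0 (.l 0) (.l 0))))) [(1924145348608, 274877906944), (714709401600, 109924319232), (429496729600, 0)] rfl (by decide +kernel)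
end

mutual
theorem TG : CovD 1 [pG H BT] [(1924145348608, 274877906944), (714709401600, 109924319232), (429496729600, 0)] :=
  cov_of (fG H BT) (.n 1 (.n 0 (.l 0) (.l 0)) (.l 0)) [(1924145348608, 274877906944), (714709401600, 109924319232), (429496729600, 0)] rfl (by decide +kernel)
theorem TRT : CovD 1 [pRT H BT] [(1924145348608, 274877906944), (714709401600, 109924319232), (429496729600, 0)] :=
  cov_of (fRT H BT) (.n 1 (.n 0 (.n 0 (.l 0) (.l 0)) (.n 1 (.n 0 (.l 0) (.l 0)) (.l 0))) (.n 0 (.l 0) (.l 0))) [(1924145348608, 274877906944), (714709401600, 109924319232), (429496729600, 0)] rfl (by decide +kernel)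
theorem TTT : CovD 1 [pTT H BT] [(1924145348608, 274877906944), (714709401600, 109924319232), (429496729600, 0)] :=
  cov_of (fTT H BT) (.n 1 (.n 0 (.n 1 (.n 0 (.n 0 (.l 0) (.l 0)) (.l 0)) (.n 0 (.l 0) (.l 0))) (.n 1 (.n 0 (.l 0) (.l 0)) (.n 0 (.l 0) (.l 0)))) (.n 0 (.n 1 (.n 0 (.l 0) (.l 0)) (.n 0 (.l 0) (.l 0))) (.n 1 (.l 0) (.l 0)))) [(1924145348608, 274877906944), (714709401600, 109924319232), (429496729600, 0)] rfl (by decide +kernel)
end

end Pool.Agent.helper82.WC.S1K6
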