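import Pool.Agent.helper82.WH.Chks

/-!
Generated: constants of a cell.
-/

namespace Pool.Agent.helper82.WC.S1K6

open Pool.Agent.helper82.WH
open Pool.Agent.helper31.IC (CovD covD_split TD)

def H : HC := ⟨⟨1924145348608, 0⟩, ⟨464578543616, 0⟩, ⟨301306937344, 0⟩, ⟨0, 147795345408⟩, ⟨96445071360, 0⟩, ⟨0, 2085650432000⟩, ⟨0, 83931365376⟩, ⟨0, 322994634752⟩, ⟨3894562193408, 0⟩, ⟨0, 3169807958016⟩, ⟨639994363904, 0⟩, ⟨125570121728, 0⟩, ⟨207169454080, 0⟩, ⟨339734167552, 0⟩, ⟨456246624256, 0⟩, ⟨0, 435978305536⟩, ⟨0, 717064437760⟩, ⟨0, 532353187840⟩, ⟨405041643520, 0⟩, ⟨504279269376, 0⟩, ⟨0, 260978114560⟩, ⟨1310235623424, 0⟩, ⟨52901838848, 0⟩, ⟨1098527997952, 0⟩, ⟨0, 3613049683968⟩, ⟨477686005760, 0⟩, ⟨0, 0⟩⟩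

def BI0 : BC := ⟨⟨0, 0, 1099511627776, 0⟩, ⟨0, 0⟩, ⟨0, 0⟩, 391138770944, 93311991808, 173598113792, 434122784768, 219901198336, 9143582720, 866811641856, 946167873536, ⟨6068788789248, 0⟩, ⟨0, 1713691951104⟩, ⟨699977302016, 0⟩, ⟨0, 0⟩, ⟨0, 0⟩⟩

def BR0 : BC := ⟨⟨0, 0, 0, 0⟩, ⟨164926717952, 0⟩, ⟨1099511627776, 0⟩, 386408972288, 102868582400, 173181763584, 429533298688, 219901198336, 9747562496, 895014141952, 963230302208, ⟨0, 0⟩, ⟨0, 0⟩, ⟨704616857600, 0⟩, ⟨0, 0⟩, ⟨0, 0⟩⟩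

def BP : BC := ⟨⟨0, 0, 0, 0⟩, ⟨164926717952, 0⟩, ⟨1099511627776, 0⟩, 317558816768, 84838121472, 253251878912, 437381365760, 219901198336, 5469372416, 841813590016, 931068379136, ⟨0, 0⟩, ⟨0, 0⟩, ⟨772201512960, 0⟩, ⟨0, 0⟩, ⟨1099511627776, 0⟩⟩

def BM : BC := ⟨⟨0, 0, 0, 0⟩, ⟨164926717952, 0⟩, ⟨1099511627776, 0⟩, 306500927488, 81559814144, 230933463040, 472794726400, 219901198336, 9747562496, 895014141952, 963230302208, ⟨0, 0⟩, ⟨0, 0⟩, ⟨783731785728, 0⟩, ⟨0, 0⟩, ⟨0, 1099511627776⟩⟩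

def BT : BC := ⟨⟨0, 0, 1099511627776, 0⟩, ⟨0, 0⟩, ⟨0, 0⟩, 216456822784, 46730117120, 144509370368, 281701580800, 219901198336, 9143582720, 800893960192, 902144458752, ⟨5102421147648, 0⟩, ⟨0, 2808908611584⟩, ⟨352184369152, 0⟩, ⟨1099511627776, 0⟩, ⟨0, 0⟩⟩

end Pool.Agent.helper82.WC.S1K6
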