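import Pool.Agent.helper82.WC.S1K7C0

/-!
Generated certificates, assembled.
-/

namespace Pool.Agent.helper82.WC.S1K7

open Pool.Agent.helper82.WH
open Pool.Agent.helper31.IC (CovD covD_split TD)

theorem I0AD : CovD 0 [pAD H BI0] [(1924145348608, 274877906944), (962072674304, 137438953472), (103079215104, 103079215104)] :=
  covD_split 1 (by decide +kernel) I0AD_0 I0AD_1
theorem I0RT : CovD 1 [pRT H BI0] [(1924145348608, 274877906944), (962072674304, 137438953472), (103079215104, 103079215104)] :=
  covD_split 1 (by decide +kernel) I0RT_0 I0RT_1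
theorem R0AD_1 : CovD 0 [pAD H BR0] [(1924145348608, 274877906944), (1030792151040, 68719476736), (1099511627776, 1099511627776)] :=
  covD_split 2 (by decide +kernel) R0AD_2 R0AD_3
theorem R0AD : CovD 0 [pAD H BR0] [(1924145348608, 274877906944), (962072674304, 137438953472), (1099511627776, 1099511627776)] :=
  covD_split 1 (by decide +kernel) R0AD_0 R0AD_1
theorem R0RT : CovD 1 [pRT H BR0] [(1924145348608, 274877906944), (962072674304, 137438953472), (1099511627776, 1099511627776)] :=
  covD_split 1 (by decide +kernel) R0RT_0 R0RT_1

end Pool.Agent.helper82.WC.S1K7
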