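import Pool.Agent.helper82.WH.Chks

/-!
Generated: constants of a cell.
-/

namespace Pool.Agent.helper82.WC.S1K7

open Pool.Agent.helper82.WH
open Pool.Agent.helper31.IC (CovD covD_split TD)

def H : HC := ⟨⟨1924145348608, 0⟩, ⟨841813590016, 0⟩, ⟨252185280512, 0⟩, ⟨0, 50845253632⟩, ⟨20879507456, 0⟩, ⟨0, 1543888044032⟩, ⟨0, 41947037696⟩, ⟨148007485440, 0⟩, ⟨2414187184128, 0⟩, ⟨0, 1383781433344⟩, ⟨719060533248, 0⟩, ⟨208546234368, 0⟩, ⟨200313929728, 0⟩, ⟨53807677440, 0⟩, ⟨242874253312, 0⟩, ⟨0, 704319979520⟩, ⟨0, 271110111232⟩, ⟨0, 304497295360⟩, ⟨743623426048, 0⟩, ⟨300553076736, 0⟩, ⟨0, 281048907776⟩, ⟨2826672144384, 0⟩, ⟨42284875776, 0⟩, ⟨858160103424, 0⟩, ⟨0, 8920402034688⟩, ⟨6836216659968, 0⟩, ⟨0, 0⟩⟩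

def BI0 : BC := ⟨⟨0, 0, 1099511627776, 0⟩, ⟨0, 0⟩, ⟨0, 0⟩, 390138560512, 102587760640, 200710225920, 399946153984, 219901198336, 5066719232, 611865067520, 760712527872, ⟨4964982194176, 0⟩, ⟨0, 532575944704⟩, ⟨700407283712, 0⟩, ⟨0, 0⟩, ⟨0, 0⟩⟩

def BR0 : BC := ⟨⟨0, 0, 0, 0⟩, ⟨192414547968, 0⟩, ⟨1099511627776, 0⟩, 417654177792, 110622015488, 217058181120, 347872559104, 219901198336, 6861881344, 625924374528, 779872108544, ⟨0, 0⟩, ⟨0, 0⟩, ⟨672493404160, 0⟩, ⟨0, 0⟩, ⟨0, 0⟩⟩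

def BP : BC := ⟨⟨0, 0, 0, 0⟩, ⟨192414547968, 0⟩, ⟨1099511627776, 0⟩, 323203694592, 85826732032, 286660362240, 397943898112, 219901198336, 3221225472, 625924374528, 748163170304, ⟨0, 0⟩, ⟨0, 0⟩, ⟨765844783104, 0⟩, ⟨0, 0⟩, ⟨1099511627776, 0⟩⟩

def BM : BC := ⟨⟨0, 0, 0, 0⟩, ⟨192414547968, 0⟩, ⟨1099511627776, 0⟩, 317518839808, 83919241216, 284376104960, 407294377984, 219901198336, 6861881344, 591631745024, 779872108544, ⟨0, 0⟩, ⟨0, 0⟩, ⟨771606904832, 0⟩, ⟨0, 0⟩, ⟨0, 1099511627776⟩⟩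

def BT : BC := ⟨⟨0, 0, 1099511627776, 0⟩, ⟨0, 0⟩, ⟨0, 0⟩, 200747843584, 52083621888, 139971723264, 140500402176, 219901198336, 5066719232, 611865067520, 758950920192, ⟨4827543240704, 0⟩, ⟨0, 1052266987520⟩, ⟨180141883392, 0⟩, ⟨1099511627776, 0⟩, ⟨0, 0⟩⟩

end Pool.Agent.helper82.WC.S1K7
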