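import Pool.Agent.helper82.WC.S1K8P

/-!
Generated certificates (in pairs, so that they are checked one after the other).
-/

namespace Pool.Agent.helper82.WC.S1K8

open Pool.Agent.helper82.WH
open Pool.Agent.helper31.IC (CovD covD_split TD)

mutual
theorem I0AD : CovD 0 [pAD H BI0] [(1924145348608, 274877906944), (1266210045952, 166698418176), (8589934592, 8589934592)] :=
  cov_of (fAD H BI0) (.n 1 (.n 0 (.n 1 (.n 0 (.l 0) (.l 0)) (.n 0 (.l 0) (.l 0))) (.n 1 (.n 0 (.l 0) (.l 0)) (.l 0))) (.n 0 (.n 1 (.n 0 (.l 0) (.l 0)) (.n 1 (.l 0) (.n 1 (.l 0) (.n 0 (.l 0) (.l 0))))) (.n 1 (.l 0) (.n 1 (.l 0) (.n 1 (.l 0) (.n 0 (.l 0) (.l 0))))))) [(1924145348608, 274877906944), (1266210045952, 166698418176), (8589934592, 8589934592)] rfl (by decide +kernel)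
theorem I0G : CovD 1 [pG H BI0] [(1924145348608, 274877906944), (1266210045952, 166698418176), (8589934592, 8589934592)] :=
  cov_of (fG H BI0) (.n 1 (.n 0 (.l 0) (.l 0)) (.n 1 (.l 0) (.l 0))) [(1924145348608, 274877906944), (1266210045952, 166698418176), (8589934592, 8589934592)] rfl (by decide +kernel)
end

mutual
theorem I0RT : CovD 1 [pRT H BI0] [(1924145348608, 274877906944), (1266210045952, 166698418176), (8589934592, 8589934592)] :=
  cov_of (fRT H BI0) (.n 1 (.n 1 (.n 0 (.l 0) (.l 0)) (.n 0 (.l 0) (.l 0))) (.n 1 (.n 0 (.l 0) (.l 0)) (.n 0 (.n 1 (.l 0) (.n 1 (.l 0) (.l 0))) (.n 1 (.l 0) (.n 1 (.l 0) (.l 0)))))) [(1924145348608, 274877906944), (1266210045952, 166698418176), (8589934592, 8589934592)] rfl (by decide +kernel)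
theorem R0AD_2 : CovD 0 [pAD H BR0] [(1924145348608, 274877906944), (1141186232320, 41674604544), (549755813888, 549755813888)] :=
  cov_of (fAD H BR0) (.n 0 (.n 1 (.n 2 (.n 0 (.n 2 (.l 0) (.l 0)) (.l 0)) (.n 0 (.l 0) (.l 0))) (.n 2 (.n 0 (.l 0) (.l 0)) (.n 2 (.l 0) (.l 0)))) (.n 1 (.n 2 (.n 0 (.l 0) (.l 0)) (.n 0 (.l 0) (.l 0))) (.n 2 (.n 2 (.l 0) (.l 0)) (.l 0)))) [(1924145348608, 274877906944), (1141186232320, 41674604544), (549755813888, 549755813888)] rfl (by decide +kernel)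
end

mutual
theorem R0AD_3 : CovD 0 [pAD H BR0] [(1924145348608, 274877906944), (1224535441408, 41674604544), (549755813888, 549755813888)] :=
  cov_of (fAD H BR0) (.n 0 (.n 2 (.n 0 (.n 2 (.l 0) (.l 0)) (.n 2 (.l 0) (.l 0))) (.n 0 (.l 0) (.l 0))) (.n 2 (.n 1 (.l 0) (.l 0)) (.n 0 (.l 0) (.l 0)))) [(1924145348608, 274877906944), (1224535441408, 41674604544), (549755813888, 549755813888)] rfl (by decide +kernel)
theorem R0AD_5 : CovD 0 [pAD H BR0] [(1924145348608, 274877906944), (1349559255040, 83349209088), (274877906944, 274877906944)] :=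
  cov_of (fAD H BR0) (.n 1 (.n 0 (.n 0 (.n 2 (.l 0) (.l 0)) (.n 2 (.l 0) (.l 0))) (.n 0 (.n 2 (.l 0) (.l 0)) (.l 0))) (.n 0 (.n 1 (.n 0 (.l 0) (.l 0)) (.n 1 (.n 0 (.l 0) (.l 0)) (.n 0 (.n 2 (.l 0) (.l 0)) (.n 2 (.l 0) (.l 0))))) (.n 1 (.n 0 (.l 0) (.l 0)) (.n 1 (.n 0 (.l 0) (.l 0)) (.n 0 (.n 2 (.l 0) (.l 0)) (.n 2 (.l 0) (.l 0))))))) [(1924145348608, 274877906944), (1349559255040, 83349209088), (274877906944, 274877906944)] rfl (by decide +kernel)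
end

mutual
theorem R0AD_6 : CovD 0 [pAD H BR0] [(1924145348608, 274877906944), (1349559255040, 83349209088), (824633720832, 274877906944)] :=
  cov_of (fAD H BR0) (.n 1 (.n 0 (.n 0 (.l 0) (.l 0)) (.n 0 (.l 0) (.l 0))) (.n 0 (.n 1 (.n 0 (.l 0) (.l 0)) (.n 1 (.n 0 (.l 0) (.l 0)) (.n 0 (.n 2 (.l 0) (.l 0)) (.n 2 (.l 0) (.l 0))))) (.n 1 (.n 2 (.l 0) (.l 0)) (.n 1 (.n 2 (.l 0) (.l 0)) (.n 2 (.n 0 (.l 0) (.l 0)) (.n 0 (.l 0) (.l 0))))))) [(1924145348608, 274877906944), (1349559255040, 83349209088), (824633720832, 274877906944)] rfl (by decide +kernel)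
theorem R0AD_8 : CovD 0 [pAD H BR0] [(1924145348608, 274877906944), (1182860836864, 83349209088), (1649267441664, 549755813888)] :=
  cov_of (fAD H BR0) (.n 1 (.n 0 (.n 1 (.n 2 (.n 0 (.l 0) (.l 0)) (.n 0 (.l 0) (.l 0))) (.n 2 (.n 2 (.l 0) (.l 0)) (.n 2 (.l 0) (.l 0)))) (.n 1 (.n 2 (.n 0 (.l 0) (.l 0)) (.n 0 (.l 0) (.l 0))) (.n 2 (.l 0) (.n 2 (.l 0) (.l 0))))) (.n 0 (.n 2 (.n 0 (.l 0) (.l 0)) (.n 0 (.l 0) (.l 0))) (.n 2 (.n 0 (.l 0) (.l 0)) (.n 0 (.l 0) (.l 0))))) [(1924145348608, 274877906944), (1182860836864, 83349209088), (1649267441664, 549755813888)] rfl (by decide +kernel)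
end

mutual
theorem R0AD_10 : CovD 0 [pAD H BR0] [(1924145348608, 274877906944), (1307884650496, 41674604544), (1649267441664, 549755813888)] :=
  cov_of (fAD H BR0) (.n 0 (.n 2 (.n 0 (.l 0) (.l 0)) (.n 0 (.l 0) (.l 0))) (.n 2 (.n 2 (.l 0) (.l 0)) (.n 0 (.l 0) (.l 0)))) [(1924145348608, 274877906944), (1307884650496, 41674604544), (1649267441664, 549755813888)] rfl (by decide +kernel)
theorem R0AD_12 : CovD 0 [pAD H BR0] [(1924145348608, 274877906944), (1391233859584, 41674604544), (1374389534720, 274877906944)] :=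
  cov_of (fAD H BR0) (.n 0 (.n 1 (.n 2 (.l 0) (.l 0)) (.n 1 (.n 0 (.l 0) (.l 0)) (.n 0 (.n 2 (.l 0) (.l 0)) (.n 2 (.l 0) (.l 0))))) (.n 1 (.n 2 (.l 0) (.l 0)) (.n 1 (.n 2 (.l 0) (.l 0)) (.n 0 (.n 2 (.l 0) (.l 0)) (.n 2 (.l 0) (.l 0)))))) [(1924145348608, 274877906944), (1391233859584, 41674604544), (1374389534720, 274877906944)] rfl (by decide +kernel)
end

mutual
theorem R0AD_13 : CovD 0 [pAD H BR0] [(1924145348608, 274877906944), (1391233859584, 41674604544), (1924145348608, 274877906944)] :=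
  cov_of (fAD H BR0) (.n 0 (.n 1 (.n 0 (.l 0) (.l 0)) (.n 1 (.n 0 (.l 0) (.l 0)) (.n 0 (.n 2 (.l 0) (.l 0)) (.n 2 (.l 0) (.l 0))))) (.n 1 (.n 2 (.l 0) (.l 0)) (.n 1 (.n 2 (.l 0) (.l 0)) (.n 0 (.n 2 (.l 0) (.l 0)) (.n 2 (.l 0) (.l 0)))))) [(1924145348608, 274877906944), (1391233859584, 41674604544), (1924145348608, 274877906944)] rfl (by decide +kernel)
theorem R0G : CovD 1 [pG H BR0] [(1924145348608, 274877906944), (1266210045952, 166698418176), (1099511627776, 1099511627776)] :=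
  cov_of (fG H BR0) (.n 1 (.n 2 (.n 1 (.n 2 (.l 0) (.l 0)) (.n 2 (.l 0) (.l 0))) (.n 1 (.l 0) (.n 2 (.l 0) (.l 0)))) (.n 2 (.n 1 (.n 2 (.n 0 (.l 0) (.l 0)) (.l 0)) (.n 1 (.n 2 (.l 0) (.l 0)) (.l 0))) (.n 1 (.n 2 (.l 0) (.l 0)) (.n 2 (.l 0) (.l 0))))) [(1924145348608, 274877906944), (1266210045952, 166698418176), (1099511627776, 1099511627776)] rfl (by decide +kernel)
end

mutual
theorem R0RT_0 : CovD 1 [pRT H BR0] [(1924145348608, 274877906944), (1182860836864, 83349209088), (1099511627776, 1099511627776)] :=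
  cov_of (fRT H BR0) (.n 2 (.n 1 (.n 2 (.n 1 (.n 0 (.l 0) (.l 0)) (.l 0)) (.n 0 (.l 0) (.l 0))) (.n 2 (.n 0 (.l 0) (.l 0)) (.n 0 (.l 0) (.l 0)))) (.n 1 (.n 2 (.n 0 (.l 0) (.l 0)) (.n 1 (.l 0) (.n 0 (.l 0) (.l 0)))) (.n 2 (.n 0 (.n 2 (.l 0) (.l 0)) (.n 2 (.l 0) (.l 0))) (.n 0 (.n 2 (.l 0) (.n 0 (.l 0) (.l 0))) (.n 2 (.l 0) (.n 0 (.l 0) (.l 0))))))) [(1924145348608, 274877906944), (1182860836864, 83349209088), (1099511627776, 1099511627776)] rfl (by decide +kernel)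
theorem R0RT_2 : CovD 1 [pRT H BR0] [(1924145348608, 274877906944), (1349559255040, 83349209088), (549755813888, 549755813888)] :=
  cov_of (fRT H BR0) (.n 1 (.n 2 (.n 0 (.l 0) (.l 0)) (.n 0 (.n 2 (.l 0) (.l 0)) (.n 2 (.l 0) (.l 0)))) (.n 2 (.n 0 (.n 1 (.l 0) (.n 1 (.l 0) (.l 0))) (.n 1 (.l 0) (.n 1 (.l 0) (.l 0)))) (.n 0 (.n 1 (.l 0) (.n 1 (.l 0) (.l 0))) (.n 1 (.l 0) (.n 1 (.l 0) (.n 2 (.l 0) (.l 0))))))) [(1924145348608, 274877906944), (1349559255040, 83349209088), (549755813888, 549755813888)] rfl (by decide +kernel)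
end

mutual
theorem R0RT_4 : CovD 1 [pRT H BR0] [(1924145348608, 274877906944), (1307884650496, 41674604544), (1649267441664, 549755813888)] :=
  cov_of (fRT H BR0) (.n 2 (.n 0 (.n 1 (.l 0) (.n 2 (.l 0) (.l 0))) (.n 1 (.l 0) (.n 2 (.l 0) (.l 0)))) (.n 0 (.n 2 (.n 1 (.l 0) (.l 0)) (.n 1 (.l 0) (.n 0 (.l 0) (.l 0)))) (.n 2 (.n 0 (.l 0) (.l 0)) (.n 1 (.l 0) (.l 0))))) [(1924145348608, 274877906944), (1307884650496, 41674604544), (1649267441664, 549755813888)] rfl (by decide +kernel)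
theorem R0RT_5 : CovD 1 [pRT H BR0] [(1924145348608, 274877906944), (1391233859584, 41674604544), (1649267441664, 549755813888)] :=
  cov_of (fRT H BR0) (.n 2 (.n 0 (.n 1 (.n 2 (.l 0) (.l 0)) (.n 1 (.l 0) (.l 0))) (.n 1 (.n 2 (.l 0) (.l 0)) (.n 1 (.l 0) (.n 2 (.l 0) (.l 0))))) (.n 0 (.n 1 (.n 2 (.l 0) (.n 0 (.l 0) (.l 0))) (.n 1 (.n 2 (.l 0) (.l 0)) (.l 0))) (.n 1 (.n 2 (.l 0) (.n 0 (.l 0) (.l 0))) (.n 1 (.n 2 (.l 0) (.l 0)) (.l 0))))) [(1924145348608, 274877906944), (1391233859584, 41674604544), (1649267441664, 549755813888)] rfl (by decide +kernel)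
end

mutual
theorem R0RS : CovD 1 [pRS H BR0] [(1924145348608, 274877906944), (1266210045952, 166698418176), (1099511627776, 1099511627776)] :=
  cov_of (fRS H BR0) (.n 1 (.n 2 (.l 0) (.l 0)) (.n 2 (.l 0) (.l 0))) [(1924145348608, 274877906944), (1266210045952, 166698418176), (1099511627776, 1099511627776)] rfl (by decide +kernel)
theorem PAD : CovD 0 [pAD H BP] [(1924145348608, 274877906944), (1266210045952, 166698418176), (2199023255552, 0)] :=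
  cov_of (fAD H BP) (.n 1 (.n 0 (.n 1 (.n 0 (.l 0) (.l 0)) (.n 0 (.l 0) (.l 0))) (.n 1 (.n 0 (.l 0) (.n 0 (.l 0) (.l 0))) (.n 0 (.l 0) (.l 0)))) (.n 0 (.n 1 (.n 0 (.l 0) (.l 0)) (.n 1 (.l 0) (.n 0 (.l 0) (.l 0)))) (.n 1 (.l 0) (.n 1 (.l 0) (.n 0 (.l 0) (.l 0)))))) [(1924145348608, 274877906944), (1266210045952, 166698418176), (2199023255552, 0)] rfl (by decide +kernel)
end

mutual
theorem PG : CovD 1 [pG H BP] [(1924145348608, 274877906944), (1266210045952, 166698418176), (2199023255552, 0)] :=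
  cov_of (fG H BP) (.n 1 (.l 0) (.l 0)) [(1924145348608, 274877906944), (1266210045952, 166698418176), (2199023255552, 0)] rfl (by decide +kernel)
theorem PRT : CovD 1 [pRT H BP] [(1924145348608, 274877906944), (1266210045952, 166698418176), (2199023255552, 0)] :=
  cov_of (fRT H BP) (.n 1 (.n 1 (.l 0) (.n 0 (.l 0) (.l 0))) (.n 1 (.n 0 (.n 0 (.l 0) (.l 0)) (.l 0)) (.n 0 (.n 1 (.l 0) (.l 0)) (.n 1 (.l 0) (.l 0))))) [(1924145348608, 274877906944), (1266210045952, 166698418176), (2199023255552, 0)] rfl (by decide +kernel)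
end

mutual
theorem PTT : CovD 1 [pTT H BP] [(1924145348608, 274877906944), (1266210045952, 166698418176), (2199023255552, 0)] :=
  cov_of (fTT H BP) (.n 1 (.n 0 (.l 0) (.l 0)) (.n 0 (.l 0) (.l 0))) [(1924145348608, 274877906944), (1266210045952, 166698418176), (2199023255552, 0)] rfl (by decide +kernel)
theorem MAD : CovD 0 [pAD H BM] [(1924145348608, 274877906944), (1266210045952, 166698418176), (0, 0)] :=
  cov_of (fAD H BM) (.n 1 (.n 0 (.n 1 (.n 0 (.n 0 (.l 0) (.l 0)) (.n 0 (.l 0) (.l 0))) (.n 0 (.l 0) (.l 0))) (.n 1 (.n 0 (.n 0 (.l 0) (.l 0)) (.l 0)) (.n 0 (.l 0) (.l 0)))) (.n 0 (.n 1 (.n 0 (.l 0) (.l 0)) (.n 1 (.n 0 (.l 0) (.l 0)) (.n 0 (.l 0) (.l 0)))) (.n 1 (.n 0 (.l 0) (.l 0)) (.n 1 (.l 0) (.n 0 (.l 0) (.l 0)))))) [(1924145348608, 274877906944), (1266210045952, 166698418176), (0, 0)] rfl (by decide +kernel)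
end

mutual
theorem MG : CovD 1 [pG H BM] [(1924145348608, 274877906944), (1266210045952, 166698418176), (0, 0)] :=
  cov_of (fG H BM) (.n 1 (.l 0) (.l 0)) [(1924145348608, 274877906944), (1266210045952, 166698418176), (0, 0)] rfl (by decide +kernel)
theorem MRT : CovD 1 [pRT H BM] [(1924145348608, 274877906944), (1266210045952, 166698418176), (0, 0)] :=
  cov_of (fRT H BM) (.n 1 (.n 1 (.n 0 (.l 0) (.l 0)) (.l 0)) (.n 1 (.l 0) (.n 1 (.l 0) (.l 0)))) [(1924145348608, 274877906944), (1266210045952, 166698418176), (0, 0)] rfl (by decide +kernel)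
end

mutual
theorem MTT : CovD 1 [pTT H BM] [(1924145348608, 274877906944), (1266210045952, 166698418176), (0, 0)] :=
  cov_of (fTT H BM) (.n 1 (.n 0 (.l 0) (.l 0)) (.n 0 (.l 0) (.l 0))) [(1924145348608, 274877906944), (1266210045952, 166698418176), (0, 0)] rfl (by decide +kernel)
theorem TAD : CovD 0 [pAD H BT] [(1924145348608, 274877906944), (1266210045952, 166698418176), (17179869184, 0)] :=
  cov_of (fAD H BT) (.n 1 (.n 0 (.n 1 (.n 0 (.l 0) (.l 0)) (.n 0 (.l 0) (.l 0))) (.n 1 (.n 0 (.l 0) (.l 0)) (.l 0))) (.n 0 (.n 1 (.l 0) (.n 1 (.l 0) (.n 1 (.l 0) (.n 0 (.l 0) (.l 0))))) (.n 1 (.l 0) (.n 1 (.l 0) (.n 1 (.l 0) (.n 0 (.l 0) (.l 0))))))) [(1924145348608, 274877906944), (1266210045952, 166698418176), (17179869184, 0)] rfl (by decide +kernel)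
end

mutual
theorem TG : CovD 1 [pG H BT] [(1924145348608, 274877906944), (1266210045952, 166698418176), (17179869184, 0)] :=
  cov_of (fG H BT) (.n 1 (.n 0 (.l 0) (.l 0)) (.n 1 (.l 0) (.l 0))) [(1924145348608, 274877906944), (1266210045952, 166698418176), (17179869184, 0)] rfl (by decide +kernel)
theorem TRT : CovD 1 [pRT H BT] [(1924145348608, 274877906944), (1266210045952, 166698418176), (17179869184, 0)] :=
  cov_of (fRT H BT) (.n 1 (.n 1 (.n 0 (.l 0) (.l 0)) (.n 0 (.l 0) (.l 0))) (.n 1 (.n 0 (.l 0) (.l 0)) (.n 0 (.n 1 (.l 0) (.n 1 (.l 0) (.l 0))) (.n 1 (.l 0) (.n 1 (.l 0) (.l 0)))))) [(1924145348608, 274877906944), (1266210045952, 166698418176), (17179869184, 0)] rfl (by decide +kernel)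
theorem TTT : CovD 1 [pTT H BT] [(1924145348608, 274877906944), (1266210045952, 166698418176), (17179869184, 0)] :=
  cov_of (fTT H BT) (.n 1 (.n 0 (.n 1 (.n 0 (.l 0) (.l 0)) (.l 0)) (.n 0 (.l 0) (.l 0))) (.n 0 (.n 0 (.l 0) (.l 0)) (.n 0 (.l 0) (.l 0)))) [(1924145348608, 274877906944), (1266210045952, 166698418176), (17179869184, 0)] rfl (by decide +kernel)
end

end Pool.Agent.helper82.WC.S1K8
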