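import Pool.Agent.helper82.WH.Chks

/-!
Generated: constants of a cell.
-/

namespace Pool.Agent.helper82.WC.S1K8

open Pool.Agent.helper82.WH
open Pool.Agent.helper31.IC (CovD covD_split TD)

def H : HC := ⟨⟨1924145348608, 0⟩, ⟨1458181832704, 0⟩, ⟨52094304256, 0⟩, ⟨0, 17485201408⟩, ⟨46053916672, 0⟩, ⟨0, 341743108096⟩, ⟨0, 24081268736⟩, ⟨18400346112, 0⟩, ⟨349223059456, 0⟩, ⟨0, 129740701696⟩, ⟨676773691392, 0⟩, ⟨322421850112, 0⟩, ⟨0, 40369651712⟩, ⟨335355510784, 0⟩, ⟨0, 87908220928⟩, ⟨37351391232, 0⟩, ⟨0, 831034294272⟩, ⟨0, 14820769792⟩, ⟨5564334080, 0⟩, ⟨620880592896, 0⟩, ⟨0, 183281123328⟩, ⟨0, 1958772211712⟩, ⟨0, 29505552384⟩, ⟨0, 629618769920⟩, ⟨4840121827328, 0⟩, ⟨0, 2622942937088⟩, ⟨0, 0⟩⟩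

def BI0 : BC := ⟨⟨0, 0, 1099511627776, 0⟩, ⟨0, 0⟩, ⟨0, 0⟩, 565036843008, 94831968256, 127070765056, 306809077760, 219901198336, 2248146944, 868220928000, 578428076032, ⟨3869765533696, 0⟩, ⟨0, 21474836480⟩, ⟨526797897728, 0⟩, ⟨0, 0⟩, ⟨0, 0⟩⟩

def BR0 : BC := ⟨⟨0, 0, 0, 0⟩, ⟨192414547968, 0⟩, ⟨1099511627776, 0⟩, 587169988608, 84325040128, 109275709440, 312820301824, 219901198336, 3372220416, 875837784064, 588695732224, ⟨0, 0⟩, ⟨0, 0⟩, ⟨505011896320, 0⟩, ⟨0, 0⟩, ⟨0, 0⟩⟩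

def BP : BC := ⟨⟨0, 0, 0, 0⟩, ⟨192414547968, 0⟩, ⟨1099511627776, 0⟩, 527852437504, 68507009024, 196762206208, 300716130304, 219901198336, 1543503872, 875837784064, 570106576896, ⟨0, 0⟩, ⟨0, 0⟩, ⟨563127255040, 0⟩, ⟨0, 0⟩, ⟨1099511627776, 0⟩⟩

def BM : BC := ⟨⟨0, 0, 0, 0⟩, ⟨192414547968, 0⟩, ⟨1099511627776, 0⟩, 438182281216, 71816249344, 208792780800, 374725148672, 219901198336, 3372220416, 858204930048, 588695732224, ⟨0, 0⟩, ⟨0, 0⟩, ⟨652557680640, 0⟩, ⟨0, 0⟩, ⟨0, 1099511627776⟩⟩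

def BT : BC := ⟨⟨0, 0, 1099511627776, 0⟩, ⟨0, 0⟩, ⟨0, 0⟩, 563214090240, 94345953280, 127559663616, 308627308544, 219901198336, 2248146944, 868220928000, 578428076032, ⟨3869765533696, 0⟩, ⟨0, 38654705664⟩, ⟨528617504768, 0⟩, ⟨1099511627776, 0⟩, ⟨0, 0⟩⟩

end Pool.Agent.helper82.WC.S1K8
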