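import Pool.Agent.helper82.WH.Chks

/-!
Generated: constants of a cell.
-/

namespace Pool.Agent.helper82.WC.S1K9

open Pool.Agent.helper82.WH
open Pool.Agent.helper31.IC (CovD covD_split TD)

def H : HC := ⟨⟨1924145348608, 0⟩, ⟨2013583704064, 0⟩, ⟨0, 10055778304⟩, ⟨0, 13954646016⟩, ⟨17401905152, 0⟩, ⟨0, 46431272960⟩, ⟨0, 17282957312⟩, ⟨27169456128, 0⟩, ⟨23244570624, 0⟩, ⟨0, 8453947392⟩, ⟨356386734080, 0⟩, ⟨369961402368, 0⟩, ⟨0, 241929093120⟩, ⟨1294834991104, 0⟩, ⟨0, 144696213504⟩, ⟨356348788736, 0⟩, ⟨0, 1846129131520⟩, ⟨0, 2597912576⟩, ⟨0, 132116905984⟩, ⟨1024033030144, 0⟩, ⟨0, 213422112768⟩, ⟨658463391744, 0⟩, ⟨0, 44378554368⟩, ⟨0, 41220964352⟩, ⟨0, 1098685284352⟩, ⟨521411756032, 0⟩, ⟨0, 0⟩⟩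

def BI0 : BC := ⟨⟨0, 0, 1099511627776, 0⟩, ⟨0, 0⟩, ⟨0, 0⟩, 375443292160, 84712620032, 243956383744, 389708054528, 219901198336, 1308622848, 882397675520, 421175230464, ⟨3466038607872, 0⟩, ⟨0, 12884901888⟩, ⟨714501193728, 0⟩, ⟨0, 0⟩, ⟨0, 0⟩⟩

def BR0 : BC := ⟨⟨0, 0, 0, 0⟩, ⟨137438953472, 0⟩, ⟨1099511627776, 0⟩, 543938183168, 128721027072, 89678282752, 331464048640, 219901198336, 1660944384, 887565058048, 425168207872, ⟨0, 0⟩, ⟨0, 0⟩, ⟨548158767104, 0⟩, ⟨0, 0⟩, ⟨0, 0⟩⟩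

def BP : BC := ⟨⟨0, 0, 0, 0⟩, ⟨137438953472, 0⟩, ⟨1099511627776, 0⟩, 374306635776, 84358987776, 244442136576, 390744637440, 219901198336, 1090519040, 887565058048, 418121777152, ⟨0, 0⟩, ⟨0, 0⟩, ⟨715632738304, 0⟩, ⟨0, 0⟩, ⟨1099511627776, 0⟩⟩

def BM : BC := ⟨⟨0, 0, 0, 0⟩, ⟨137438953472, 0⟩, ⟨1099511627776, 0⟩, 378310688768, 83181502464, 242806685696, 389468585984, 219901198336, 1660944384, 875670011904, 425168207872, ⟨0, 0⟩, ⟨0, 0⟩, ⟨711675019264, 0⟩, ⟨0, 0⟩, ⟨0, 1099511627776⟩⟩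

def BT : BC := ⟨⟨0, 0, 1099511627776, 0⟩, ⟨0, 0⟩, ⟨0, 0⟩, 375442636800, 84713275392, 243958349824, 389706022912, 219901198336, 1308622848, 882397675520, 421175230464, ⟨3466038607872, 0⟩, ⟨0, 21474836480⟩, ⟨714501718016, 0⟩, ⟨1099511627776, 0⟩, ⟨0, 0⟩⟩

end Pool.Agent.helper82.WC.S1K9
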