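import Pool.Agent.helper82.WH.Chks

/-!
Generated: constants of a cell.
-/

namespace Pool.Agent.helper82.WC.S1bK0

open Pool.Agent.helper82.WH
open Pool.Agent.helper31.IC (CovD covD_split TD)

def H : HC := ⟨⟨1717986918400, 0⟩, ⟨3051366121472, 0⟩, ⟨0, 8116568064⟩, ⟨1728708608, 0⟩, ⟨0, 289341440⟩, ⟨0, 5395120128⟩, ⟨0, 10719854592⟩, ⟨11774787584, 0⟩, ⟨1893531648, 0⟩, ⟨0, 1512112128⟩, ⟨552114716672, 0⟩, ⟨276441530368, 0⟩, ⟨0, 178415992832⟩, ⟨63758663680, 0⟩, ⟨0, 571473920⟩, ⟨148112474112, 0⟩, ⟨0, 89264095232⟩, ⟨0, 34542321664⟩, ⟨0, 27892318208⟩, ⟨10983833600, 0⟩, ⟨780664832, 0⟩, ⟨124770058240, 0⟩, ⟨0, 7664173056⟩, ⟨53183119360, 0⟩, ⟨0, 33041219584⟩, ⟨0, 12501123072⟩, ⟨0, 0⟩⟩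

def BI0 : BC := ⟨⟨0, 0, 1099511627776, 0⟩, ⟨0, 0⟩, ⟨0, 0⟩, 365948436480, 83253985280, 236155437056, 408553259008, 219901198336, 939524096, 622619262976, 305697652736, ⟨3131031158784, 0⟩, ⟨4294967296, 0⟩, ⟨724163952640, 0⟩, ⟨0, 0⟩, ⟨0, 0⟩⟩

def BR0 : BC := ⟨⟨0, 0, 0, 0⟩, ⟨137438953472, 0⟩, ⟨1099511627776, 0⟩, 549386649600, 132259119104, 125752836096, 286536237056, 219901198336, 1023410176, 624867409920, 307727695872, ⟨0, 0⟩, ⟨0, 0⟩, ⟨542127161344, 0⟩, ⟨0, 0⟩, ⟨0, 0⟩⟩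

def BP : BC := ⟨⟨0, 0, 0, 0⟩, ⟨137438953472, 0⟩, ⟨1099511627776, 0⟩, 357116149760, 84179353600, 239750217728, 412867821568, 219901198336, 905969664, 624867409920, 304372252672, ⟨0, 0⟩, ⟨0, 0⟩, ⟨732916219904, 0⟩, ⟨0, 0⟩, ⟨1099511627776, 0⟩⟩

def BM : BC := ⟨⟨0, 0, 0, 0⟩, ⟨137438953472, 0⟩, ⟨1099511627776, 0⟩, 360038793216, 83408322560, 239330656256, 411123580928, 219901198336, 1023410176, 619465146368, 307727695872, ⟨0, 0⟩, ⟨0, 0⟩, ⟨730011009024, 0⟩, ⟨0, 0⟩, ⟨0, 1099511627776⟩⟩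

def BT : BC := ⟨⟨0, 0, 1099511627776, 0⟩, ⟨0, 0⟩, ⟨0, 0⟩, 365948436480, 83253985280, 236153208832, 408555487232, 219901198336, 939524096, 622619262976, 305697652736, ⟨3131031158784, 0⟩, ⟨12884901888, 0⟩, ⟨724164018176, 0⟩, ⟨1099511627776, 0⟩, ⟨0, 0⟩⟩

end Pool.Agent.helper82.WC.S1bK0
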