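import Pool.Agent.helper82.WC.S2K0P

/-!
Generated certificates (in pairs, so that they are checked one after the other).
-/

namespace Pool.Agent.helper82.WC.S2K0

open Pool.Agent.helper82.WH
open Pool.Agent.helper31.IC (CovD covD_split TD)

mutual
theorem I0RT_62 : CovD 1 [pRT H BI0, pK1 H BI0] [(2473901162496, 274877906944), (21944598528, 21944598528), (103389593600, 4135583744)] :=
  cov_of (fRTK H BI0) (.n 2 (.n 2 (.n 1 (.n 2 (.l 0) (.l 0)) (.n 2 (.n 0 (.l 0) (.l 0)) (.n 0 (.l 0) (.l 0)))) (.n 1 (.n 2 (.l 0) (.l 0)) (.n 2 (.n 0 (.l 0) (.l 0)) (.n 0 (.l 0) (.l 0))))) (.n 2 (.n 1 (.n 0 (.l 0) (.l 0)) (.n 2 (.n 0 (.l 0) (.l 0)) (.n 0 (.l 0) (.l 0)))) (.n 1 (.n 0 (.l 0) (.l 0)) (.n 2 (.n 0 (.l 0) (.l 0)) (.n 0 (.l 0) (.l 0)))))) [(2473901162496, 274877906944), (21944598528, 21944598528), (103389593600, 4135583744)] rfl (by decide +kernel)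
theorem I0RT_63 : CovD 1 [pRT H BI0, pK1 H BI0] [(2473901162496, 274877906944), (21944598528, 21944598528), (111660761088, 4135583744)] :=
  cov_of (fRTK H BI0) (.n 2 (.n 2 (.n 1 (.n 0 (.l 0) (.l 0)) (.n 2 (.l 0) (.l 0))) (.n 1 (.n 0 (.l 0) (.l 0)) (.n 2 (.l 0) (.l 0)))) (.n 2 (.n 1 (.n 0 (.l 0) (.l 0)) (.n 1 (.l 0) (.l 0))) (.n 1 (.n 0 (.l 0) (.l 0)) (.n 0 (.l 0) (.l 0))))) [(2473901162496, 274877906944), (21944598528, 21944598528), (111660761088, 4135583744)] rfl (by decide +kernel)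
end

mutual
theorem I0RT_66 : CovD 1 [pRT H BI0, pK1 H BI0] [(2473901162496, 274877906944), (54861496320, 10972299264), (103389593600, 4135583744)] :=
  cov_of (fRTK H BI0) (.n 2 (.n 2 (.n 1 (.n 0 (.l 0) (.l 0)) (.n 0 (.l 0) (.l 0))) (.n 1 (.n 0 (.l 0) (.l 0)) (.n 0 (.l 0) (.l 0)))) (.n 2 (.n 1 (.n 0 (.l 0) (.l 0)) (.n 0 (.l 0) (.l 0))) (.n 1 (.n 0 (.l 0) (.l 0)) (.n 0 (.l 0) (.l 0))))) [(2473901162496, 274877906944), (54861496320, 10972299264), (103389593600, 4135583744)] rfl (by decide +kernel)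
theorem I0RT_67 : CovD 1 [pRT H BI0, pK1 H BI0] [(2473901162496, 274877906944), (76806094848, 10972299264), (103389593600, 4135583744)] :=
  cov_of (fRTK H BI0) (.n 2 (.n 2 (.n 1 (.n 0 (.l 0) (.l 0)) (.l 0)) (.n 1 (.n 0 (.l 0) (.l 0)) (.l 0))) (.n 2 (.n 1 (.n 0 (.l 0) (.l 0)) (.l 0)) (.n 1 (.l 0) (.l 0)))) [(2473901162496, 274877906944), (76806094848, 10972299264), (103389593600, 4135583744)] rfl (by decide +kernel)
end

mutual
theorem I0RT_68 : CovD 1 [pRT H BI0, pK1 H BI0] [(2473901162496, 274877906944), (65833795584, 21944598528), (111660761088, 4135583744)] :=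
  cov_of (fRTK H BI0) (.n 1 (.n 2 (.n 2 (.n 1 (.n 0 (.l 0) (.l 0)) (.l 0)) (.n 1 (.n 0 (.l 0) (.l 0)) (.l 0))) (.n 2 (.n 1 (.l 0) (.l 0)) (.n 1 (.l 0) (.l 0)))) (.n 2 (.n 2 (.n 1 (.l 0) (.l 0)) (.n 1 (.l 0) (.l 0))) (.n 2 (.n 1 (.l 0) (.l 0)) (.n 1 (.l 0) (.l 0))))) [(2473901162496, 274877906944), (65833795584, 21944598528), (111660761088, 4135583744)] rfl (by decide +kernel)
theorem I0RT_71 : CovD 1 [pRT H BI0, pK1 H BI0] [(2473901162496, 274877906944), (21944598528, 21944598528), (119931928576, 4135583744)] :=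
  cov_of (fRTK H BI0) (.n 2 (.n 2 (.n 1 (.n 0 (.l 0) (.l 0)) (.n 0 (.l 0) (.l 0))) (.n 1 (.n 0 (.l 0) (.l 0)) (.n 0 (.l 0) (.l 0)))) (.n 2 (.n 1 (.l 0) (.n 0 (.l 0) (.l 0))) (.n 1 (.l 0) (.n 0 (.l 0) (.l 0))))) [(2473901162496, 274877906944), (21944598528, 21944598528), (119931928576, 4135583744)] rfl (by decide +kernel)
end

mutual
theorem I0RT_72 : CovD 1 [pRT H BI0, pK1 H BI0] [(2473901162496, 274877906944), (21944598528, 21944598528), (128203096064, 4135583744)] :=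
  cov_of (fRTK H BI0) (.n 2 (.n 2 (.n 1 (.l 0) (.n 0 (.l 0) (.l 0))) (.n 1 (.l 0) (.n 0 (.l 0) (.l 0)))) (.n 2 (.n 1 (.l 0) (.n 0 (.l 0) (.l 0))) (.n 1 (.l 0) (.l 0)))) [(2473901162496, 274877906944), (21944598528, 21944598528), (128203096064, 4135583744)] rfl (by decide +kernel)
theorem I0RT_74 : CovD 1 [pRT H BI0, pK1 H BI0] [(2473901162496, 274877906944), (65833795584, 21944598528), (119931928576, 4135583744)] :=
  cov_of (fRTK H BI0) (.n 1 (.n 2 (.n 2 (.n 0 (.l 0) (.l 0)) (.n 0 (.l 0) (.l 0))) (.n 2 (.n 0 (.l 0) (.l 0)) (.n 0 (.l 0) (.l 0)))) (.n 2 (.n 2 (.n 0 (.l 0) (.l 0)) (.n 0 (.l 0) (.l 0))) (.n 2 (.n 0 (.l 0) (.l 0)) (.n 0 (.l 0) (.l 0))))) [(2473901162496, 274877906944), (65833795584, 21944598528), (119931928576, 4135583744)] rfl (by decide +kernel)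
end

mutual
theorem I0RT_75 : CovD 1 [pRT H BI0, pK1 H BI0] [(2473901162496, 274877906944), (65833795584, 21944598528), (128203096064, 4135583744)] :=
  cov_of (fRTK H BI0) (.n 1 (.n 2 (.n 2 (.n 0 (.l 0) (.l 0)) (.n 0 (.l 0) (.l 0))) (.n 2 (.n 0 (.l 0) (.l 0)) (.n 0 (.l 0) (.l 0)))) (.n 2 (.n 2 (.n 0 (.l 0) (.l 0)) (.n 0 (.l 0) (.l 0))) (.n 2 (.n 0 (.l 0) (.l 0)) (.n 0 (.l 0) (.l 0))))) [(2473901162496, 274877906944), (65833795584, 21944598528), (128203096064, 4135583744)] rfl (by decide +kernel)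
theorem I1AD_2 : CovD 0 [pAD H BI1, pK0 H BI1] [(2336462209024, 137438953472), (43889197056, 43889197056), (158846681088, 26508001280)] :=
  cov_of (fADK H BI1) (.n 2 (.n 1 (.n 0 (.n 1 (.l 0) (.l 0)) (.n 1 (.l 0) (.l 0))) (.n 0 (.n 1 (.l 0) (.l 0)) (.n 1 (.l 0) (.l 0)))) (.n 1 (.n 0 (.n 0 (.l 0) (.l 0)) (.n 0 (.l 0) (.l 0))) (.n 0 (.n 0 (.l 0) (.l 0)) (.n 0 (.l 0) (.l 0))))) [(2336462209024, 137438953472), (43889197056, 43889197056), (158846681088, 26508001280)] rfl (by decide +kernel)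
end

mutual
theorem I1AD_3 : CovD 0 [pAD H BI1, pK0 H BI1] [(2611340115968, 137438953472), (43889197056, 43889197056), (158846681088, 26508001280)] :=
  cov_of (fADK H BI1) (.n 2 (.n 1 (.n 0 (.n 1 (.l 0) (.l 0)) (.n 1 (.l 0) (.l 0))) (.n 0 (.n 1 (.l 0) (.l 0)) (.n 1 (.l 0) (.l 0)))) (.n 1 (.n 0 (.n 0 (.l 0) (.l 0)) (.n 0 (.l 0) (.l 0))) (.n 0 (.n 0 (.l 0) (.l 0)) (.n 0 (.l 0) (.l 0))))) [(2611340115968, 137438953472), (43889197056, 43889197056), (158846681088, 26508001280)] rfl (by decide +kernel)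
theorem I1AD_4 : CovD 0 [pAD H BI1, pK0 H BI1] [(2473901162496, 274877906944), (43889197056, 43889197056), (211862683648, 26508001280)] :=
  cov_of (fADK H BI1) (.n 0 (.n 2 (.n 1 (.n 0 (.n 0 (.l 0) (.l 0)) (.n 0 (.l 0) (.l 0))) (.n 0 (.n 0 (.l 0) (.l 0)) (.n 0 (.l 0) (.l 0)))) (.n 1 (.n 0 (.l 0) (.l 0)) (.n 0 (.l 0) (.l 0)))) (.n 2 (.n 1 (.n 0 (.n 0 (.l 0) (.l 0)) (.n 0 (.l 0) (.l 0))) (.n 0 (.n 0 (.l 0) (.l 0)) (.n 0 (.l 0) (.l 0)))) (.n 1 (.n 0 (.l 0) (.l 0)) (.n 0 (.l 0) (.l 0))))) [(2473901162496, 274877906944), (43889197056, 43889197056), (211862683648, 26508001280)] rfl (by decide +kernel)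
end

mutual
theorem I1AD_6 : CovD 0 [pAD H BI1, pK0 H BI1] [(2473901162496, 274877906944), (43889197056, 43889197056), (264878686208, 26508001280)] :=
  cov_of (fADK H BI1) (.n 0 (.n 2 (.n 1 (.n 0 (.l 0) (.l 0)) (.n 0 (.l 0) (.l 0))) (.n 1 (.n 0 (.l 0) (.l 0)) (.n 0 (.l 0) (.l 0)))) (.n 2 (.n 1 (.n 0 (.l 0) (.l 0)) (.n 0 (.l 0) (.l 0))) (.n 1 (.n 0 (.l 0) (.l 0)) (.n 0 (.l 0) (.l 0))))) [(2473901162496, 274877906944), (43889197056, 43889197056), (264878686208, 26508001280)] rfl (by decide +kernel)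
theorem I1AD_7 : CovD 0 [pAD H BI1, pK0 H BI1] [(2473901162496, 274877906944), (43889197056, 43889197056), (317894688768, 26508001280)] :=
  cov_of (fADK H BI1) (.n 0 (.n 2 (.n 1 (.n 0 (.l 0) (.l 0)) (.n 0 (.l 0) (.l 0))) (.n 1 (.n 0 (.l 0) (.l 0)) (.n 0 (.l 0) (.l 0)))) (.n 2 (.n 1 (.n 0 (.l 0) (.l 0)) (.n 0 (.l 0) (.l 0))) (.n 1 (.l 0) (.n 0 (.l 0) (.l 0))))) [(2473901162496, 274877906944), (43889197056, 43889197056), (317894688768, 26508001280)] rfl (by decide +kernel)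
end

mutual
theorem I1G : CovD 1 [pG H BI1, pK1 H BI1] [(2473901162496, 274877906944), (43889197056, 43889197056), (238370684928, 106032005120)] :=
  cov_of (fGK H BI1) (.n 2 (.l 0) (.n 2 (.l 0) (.n 0 (.l 0) (.l 0)))) [(2473901162496, 274877906944), (43889197056, 43889197056), (238370684928, 106032005120)] rfl (by decide +kernel)
theorem I1RT_4 : CovD 1 [pRT H BI1, pK1 H BI1] [(2473901162496, 274877906944), (21944598528, 21944598528), (138965680128, 6627000320)] :=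
  cov_of (fRTK H BI1) (.n 2 (.n 2 (.n 1 (.n 0 (.l 0) (.l 0)) (.n 2 (.l 0) (.l 0))) (.n 1 (.n 0 (.l 0) (.l 0)) (.n 0 (.l 0) (.l 0)))) (.n 2 (.n 1 (.n 0 (.l 0) (.l 0)) (.n 0 (.l 0) (.l 0))) (.n 1 (.n 0 (.l 0) (.l 0)) (.n 0 (.l 0) (.l 0))))) [(2473901162496, 274877906944), (21944598528, 21944598528), (138965680128, 6627000320)] rfl (by decide +kernel)
end

mutual
theorem I1RT_5 : CovD 1 [pRT H BI1, pK1 H BI1] [(2473901162496, 274877906944), (65833795584, 21944598528), (138965680128, 6627000320)] :=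
  cov_of (fRTK H BI1) (.n 2 (.n 1 (.n 2 (.n 2 (.l 0) (.l 0)) (.n 0 (.l 0) (.l 0))) (.n 2 (.n 1 (.l 0) (.l 0)) (.n 0 (.l 0) (.l 0)))) (.n 1 (.n 2 (.n 0 (.l 0) (.l 0)) (.n 0 (.l 0) (.l 0))) (.n 2 (.n 0 (.l 0) (.l 0)) (.n 0 (.l 0) (.l 0))))) [(2473901162496, 274877906944), (65833795584, 21944598528), (138965680128, 6627000320)] rfl (by decide +kernel)
theorem I1RT_7 : CovD 1 [pRT H BI1, pK1 H BI1] [(2473901162496, 274877906944), (21944598528, 21944598528), (152219680768, 6627000320)] :=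
  cov_of (fRTK H BI1) (.n 2 (.n 2 (.n 1 (.l 0) (.n 0 (.l 0) (.l 0))) (.n 1 (.l 0) (.n 0 (.l 0) (.l 0)))) (.n 2 (.n 1 (.l 0) (.l 0)) (.n 0 (.l 0) (.l 0)))) [(2473901162496, 274877906944), (21944598528, 21944598528), (152219680768, 6627000320)] rfl (by decide +kernel)
end

mutual
theorem I1RT_8 : CovD 1 [pRT H BI1, pK1 H BI1] [(2473901162496, 274877906944), (65833795584, 21944598528), (152219680768, 6627000320)] :=
  cov_of (fRTK H BI1) (.n 2 (.n 1 (.n 2 (.n 0 (.l 0) (.l 0)) (.n 0 (.l 0) (.l 0))) (.n 2 (.n 0 (.l 0) (.l 0)) (.n 0 (.l 0) (.l 0)))) (.n 1 (.n 2 (.n 0 (.l 0) (.l 0)) (.n 0 (.l 0) (.l 0))) (.n 2 (.n 0 (.l 0) (.l 0)) (.n 0 (.l 0) (.l 0))))) [(2473901162496, 274877906944), (65833795584, 21944598528), (152219680768, 6627000320)] rfl (by decide +kernel)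
theorem I1RT_10 : CovD 1 [pRT H BI1, pK1 H BI1] [(2473901162496, 274877906944), (43889197056, 43889197056), (165473681408, 6627000320)] :=
  cov_of (fRTK H BI1) (.n 1 (.n 2 (.n 2 (.n 0 (.l 0) (.l 0)) (.n 0 (.l 0) (.l 0))) (.n 2 (.n 0 (.l 0) (.l 0)) (.n 0 (.l 0) (.l 0)))) (.n 2 (.n 1 (.n 2 (.l 0) (.l 0)) (.n 2 (.l 0) (.l 0))) (.n 1 (.n 2 (.l 0) (.l 0)) (.n 2 (.l 0) (.l 0))))) [(2473901162496, 274877906944), (43889197056, 43889197056), (165473681408, 6627000320)] rfl (by decide +kernel)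
end

mutual
theorem I1RT_11 : CovD 1 [pRT H BI1, pK1 H BI1] [(2473901162496, 274877906944), (43889197056, 43889197056), (178727682048, 6627000320)] :=
  cov_of (fRTK H BI1) (.n 1 (.n 2 (.n 2 (.n 0 (.l 0) (.l 0)) (.n 0 (.l 0) (.l 0))) (.n 2 (.l 0) (.l 0))) (.n 2 (.n 1 (.n 2 (.l 0) (.l 0)) (.n 2 (.l 0) (.l 0))) (.n 1 (.n 0 (.l 0) (.l 0)) (.n 0 (.l 0) (.l 0))))) [(2473901162496, 274877906944), (43889197056, 43889197056), (178727682048, 6627000320)] rfl (by decide +kernel)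
theorem I1RT_13 : CovD 1 [pRT H BI1, pK1 H BI1] [(2473901162496, 274877906944), (43889197056, 43889197056), (198608683008, 13254000640)] :=
  cov_of (fRTK H BI1) (.n 2 (.n 1 (.n 2 (.n 2 (.l 0) (.l 0)) (.n 0 (.l 0) (.l 0))) (.n 2 (.n 1 (.n 0 (.l 0) (.l 0)) (.n 0 (.l 0) (.l 0))) (.n 1 (.n 0 (.l 0) (.l 0)) (.n 0 (.l 0) (.l 0))))) (.n 1 (.n 2 (.n 0 (.l 0) (.l 0)) (.n 0 (.l 0) (.l 0))) (.n 2 (.n 1 (.n 0 (.l 0) (.l 0)) (.n 0 (.l 0) (.l 0))) (.n 0 (.l 0) (.l 0))))) [(2473901162496, 274877906944), (43889197056, 43889197056), (198608683008, 13254000640)] rfl (by decide +kernel)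
end

mutual
theorem I1RT_14 : CovD 1 [pRT H BI1, pK1 H BI1] [(2473901162496, 274877906944), (43889197056, 43889197056), (225116684288, 13254000640)] :=
  cov_of (fRTK H BI1) (.n 2 (.n 1 (.n 2 (.n 0 (.l 0) (.l 0)) (.n 0 (.l 0) (.l 0))) (.n 2 (.n 0 (.l 0) (.l 0)) (.n 0 (.l 0) (.l 0)))) (.n 1 (.n 2 (.n 0 (.l 0) (.l 0)) (.n 0 (.l 0) (.l 0))) (.n 2 (.n 0 (.l 0) (.l 0)) (.n 0 (.l 0) (.l 0))))) [(2473901162496, 274877906944), (43889197056, 43889197056), (225116684288, 13254000640)] rfl (by decide +kernel)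
theorem I1RT_17 : CovD 1 [pRT H BI1, pK1 H BI1] [(2473901162496, 274877906944), (43889197056, 43889197056), (251624685568, 13254000640)] :=
  cov_of (fRTK H BI1) (.n 2 (.n 1 (.n 2 (.n 0 (.l 0) (.l 0)) (.n 0 (.l 0) (.l 0))) (.n 2 (.n 0 (.l 0) (.l 0)) (.n 0 (.l 0) (.l 0)))) (.n 1 (.n 2 (.n 0 (.l 0) (.l 0)) (.n 0 (.l 0) (.l 0))) (.n 2 (.n 0 (.l 0) (.l 0)) (.n 0 (.l 0) (.l 0))))) [(2473901162496, 274877906944), (43889197056, 43889197056), (251624685568, 13254000640)] rfl (by decide +kernel)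
end

mutual
theorem I1RT_18 : CovD 1 [pRT H BI1, pK1 H BI1] [(2473901162496, 274877906944), (43889197056, 43889197056), (278132686848, 13254000640)] :=
  cov_of (fRTK H BI1) (.n 2 (.n 1 (.n 0 (.l 0) (.n 0 (.l 0) (.l 0))) (.n 2 (.n 0 (.l 0) (.l 0)) (.n 0 (.l 0) (.l 0)))) (.n 1 (.n 0 (.l 0) (.l 0)) (.n 2 (.n 0 (.l 0) (.l 0)) (.n 0 (.l 0) (.l 0))))) [(2473901162496, 274877906944), (43889197056, 43889197056), (278132686848, 13254000640)] rfl (by decide +kernel)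
theorem I1RT_19 : CovD 1 [pRT H BI1, pK1 H BI1] [(2473901162496, 274877906944), (43889197056, 43889197056), (317894688768, 26508001280)] :=
  cov_of (fRTK H BI1) (.n 2 (.n 2 (.n 1 (.n 0 (.l 0) (.l 0)) (.n 0 (.l 0) (.n 0 (.l 0) (.l 0)))) (.n 1 (.n 0 (.l 0) (.l 0)) (.n 0 (.l 0) (.l 0)))) (.n 2 (.n 0 (.n 1 (.l 0) (.l 0)) (.n 1 (.l 0) (.l 0))) (.n 0 (.n 1 (.l 0) (.l 0)) (.n 1 (.n 0 (.l 0) (.l 0)) (.n 0 (.l 0) (.l 0)))))) [(2473901162496, 274877906944), (43889197056, 43889197056), (317894688768, 26508001280)] rfl (by decide +kernel)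
end

mutual
theorem I2AD : CovD 0 [pAD H BI2, pK0 H BI2] [(2473901162496, 274877906944), (43889197056, 43889197056), (410572029952, 66169339904)] :=
  cov_of (fADK H BI2) (.n 2 (.n 0 (.n 2 (.n 1 (.n 0 (.l 0) (.l 0)) (.n 0 (.l 0) (.l 0))) (.n 0 (.n 0 (.l 0) (.l 0)) (.n 0 (.l 0) (.l 0)))) (.n 2 (.n 1 (.n 0 (.l 0) (.l 0)) (.n 0 (.l 0) (.l 0))) (.n 1 (.n 0 (.l 0) (.l 0)) (.n 0 (.l 0) (.l 0))))) (.n 0 (.n 2 (.n 0 (.l 0) (.l 0)) (.n 0 (.l 0) (.l 0))) (.n 2 (.n 0 (.l 0) (.l 0)) (.n 0 (.l 0) (.l 0))))) [(2473901162496, 274877906944), (43889197056, 43889197056), (410572029952, 66169339904)] rfl (by decide +kernel)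
theorem I2G : CovD 1 [pG H BI2, pK1 H BI2] [(2473901162496, 274877906944), (43889197056, 43889197056), (410572029952, 66169339904)] :=
  cov_of (fGK H BI2) (.n 2 (.n 2 (.l 0) (.n 0 (.l 0) (.l 0))) (.n 0 (.n 2 (.l 0) (.l 0)) (.n 2 (.l 0) (.n 0 (.l 0) (.l 0))))) [(2473901162496, 274877906944), (43889197056, 43889197056), (410572029952, 66169339904)] rfl (by decide +kernel)
end

mutual
theorem I2RT_0 : CovD 1 [pRT H BI2, pK1 H BI2] [(2473901162496, 274877906944), (43889197056, 43889197056), (377487360000, 33084669952)] :=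
  cov_of (fRTK H BI2) (.n 2 (.n 2 (.n 0 (.n 1 (.n 0 (.l 0) (.l 0)) (.n 0 (.l 0) (.l 0))) (.n 2 (.n 1 (.l 0) (.l 0)) (.n 1 (.l 0) (.l 0)))) (.n 0 (.n 0 (.l 0) (.n 0 (.l 0) (.l 0))) (.n 1 (.l 0) (.l 0)))) (.n 2 (.n 0 (.n 0 (.l 0) (.l 0)) (.n 1 (.l 0) (.l 0))) (.n 0 (.n 0 (.l 0) (.l 0)) (.n 1 (.l 0) (.l 0))))) [(2473901162496, 274877906944), (43889197056, 43889197056), (377487360000, 33084669952)] rfl (by decide +kernel)
theorem I2RT_1 : CovD 1 [pRT H BI2, pK1 H BI2] [(2473901162496, 274877906944), (43889197056, 43889197056), (443656699904, 33084669952)] :=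
  cov_of (fRTK H BI2) (.n 2 (.n 2 (.n 0 (.n 0 (.l 0) (.l 0)) (.n 1 (.l 0) (.l 0))) (.n 0 (.n 0 (.l 0) (.l 0)) (.n 0 (.l 0) (.n 1 (.l 0) (.l 0))))) (.n 2 (.n 0 (.n 0 (.l 0) (.l 0)) (.n 0 (.n 0 (.l 0) (.l 0)) (.n 1 (.l 0) (.l 0)))) (.n 0 (.n 0 (.l 0) (.l 0)) (.n 0 (.n 1 (.l 0) (.l 0)) (.n 1 (.n 1 (.n 0 (.l 0) (.l 0)) (.l 0)) (.l 0)))))) [(2473901162496, 274877906944), (43889197056, 43889197056), (443656699904, 33084669952)] rfl (by decide +kernel)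
theorem I3AD : CovD 0 [pAD H BI3, pK0 H BI3] [(2473901162496, 274877906944), (43889197056, 43889197056), (556198264832, 79456894976)] :=
  cov_of (fADK H BI3) (.n 2 (.n 0 (.n 2 (.n 0 (.l 0) (.l 0)) (.n 0 (.l 0) (.l 0))) (.n 2 (.n 0 (.l 0) (.l 0)) (.n 0 (.l 0) (.l 0)))) (.n 0 (.n 2 (.n 0 (.l 0) (.l 0)) (.n 0 (.l 0) (.l 0))) (.n 2 (.n 0 (.l 0) (.l 0)) (.n 0 (.l 0) (.l 0))))) [(2473901162496, 274877906944), (43889197056, 43889197056), (556198264832, 79456894976)] rfl (by decide +kernel)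
end

end Pool.Agent.helper82.WC.S2K0
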