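import Pool.Agent.helper82.WC.S2K0C0
import Pool.Agent.helper82.WC.S2K0C1
import Pool.Agent.helper82.WC.S2K0C2

/-!
Generated certificates, assembled.
-/

namespace Pool.Agent.helper82.WC.S2K0

open Pool.Agent.helper82.WH
open Pool.Agent.helper31.IC (CovD covD_split TD)

theorem I0AD_2 : CovD 0 [pAD H BI0, pK0 H BI0] [(2473901162496, 274877906944), (65833795584, 21944598528), (33084669952, 33084669952)] :=
  covD_split 2 (by decide +kernel) I0AD_3 I0AD_4
theorem I0AD_0 : CovD 0 [pAD H BI0, pK0 H BI0] [(2473901162496, 274877906944), (43889197056, 43889197056), (33084669952, 33084669952)] :=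
  covD_split 1 (by decide +kernel) I0AD_1 I0AD_2
theorem I0AD_6 : CovD 0 [pAD H BI0, pK0 H BI0] [(2473901162496, 274877906944), (43889197056, 43889197056), (82711674880, 16542334976)] :=
  covD_split 1 (by decide +kernel) I0AD_7 I0AD_8
theorem I0AD_9 : CovD 0 [pAD H BI0, pK0 H BI0] [(2473901162496, 274877906944), (43889197056, 43889197056), (115796344832, 16542334976)] :=
  covD_split 1 (by decide +kernel) I0AD_10 I0AD_11
theorem I0AD_5 : CovD 0 [pAD H BI0, pK0 H BI0] [(2473901162496, 274877906944), (43889197056, 43889197056), (99254009856, 33084669952)] :=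
  covD_split 2 (by decide +kernel) I0AD_6 I0AD_9
theorem I0AD : CovD 0 [pAD H BI0, pK0 H BI0] [(2473901162496, 274877906944), (43889197056, 43889197056), (66169339904, 66169339904)] :=
  covD_split 2 (by decide +kernel) I0AD_0 I0AD_5
theorem I0RT_7 : CovD 1 [pRT H BI0, pK1 H BI0] [(2473901162496, 274877906944), (82292244480, 5486149632), (16542334976, 16542334976)] :=
  covD_split 2 (by decide +kernel) I0RT_8 I0RT_9
theorem I0RT_5 : CovD 1 [pRT H BI0, pK1 H BI0] [(2473901162496, 274877906944), (76806094848, 10972299264), (16542334976, 16542334976)] :=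
  covD_split 1 (by decide +kernel) I0RT_6 I0RT_7
theorem I0RT_3 : CovD 1 [pRT H BI0, pK1 H BI0] [(2473901162496, 274877906944), (65833795584, 21944598528), (16542334976, 16542334976)] :=
  covD_split 1 (by decide +kernel) I0RT_4 I0RT_5
theorem I0RT_15 : CovD 1 [pRT H BI0, pK1 H BI0] [(2473901162496, 274877906944), (76806094848, 10972299264), (45491421184, 4135583744)] :=
  covD_split 2 (by decide +kernel) I0RT_16 I0RT_17
theorem I0RT_13 : CovD 1 [pRT H BI0, pK1 H BI0] [(2473901162496, 274877906944), (76806094848, 10972299264), (41355837440, 8271167488)] :=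
  covD_split 2 (by decide +kernel) I0RT_14 I0RT_15
theorem I0RT_11 : CovD 1 [pRT H BI0, pK1 H BI0] [(2473901162496, 274877906944), (65833795584, 21944598528), (41355837440, 8271167488)] :=
  covD_split 1 (by decide +kernel) I0RT_12 I0RT_13
theorem I0RT_21 : CovD 1 [pRT H BI0, pK1 H BI0] [(2473901162496, 274877906944), (76806094848, 10972299264), (53762588672, 4135583744)] :=
  covD_split 2 (by decide +kernel) I0RT_22 I0RT_23
theorem I0RT_19 : CovD 1 [pRT H BI0, pK1 H BI0] [(2473901162496, 274877906944), (65833795584, 21944598528), (53762588672, 4135583744)] :=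
  covD_split 1 (by decide +kernel) I0RT_20 I0RT_21
theorem I0RT_26 : CovD 1 [pRT H BI0, pK1 H BI0] [(2473901162496, 274877906944), (76806094848, 10972299264), (62033756160, 4135583744)] :=
  covD_split 2 (by decide +kernel) I0RT_27 I0RT_28
theorem I0RT_24 : CovD 1 [pRT H BI0, pK1 H BI0] [(2473901162496, 274877906944), (65833795584, 21944598528), (62033756160, 4135583744)] :=
  covD_split 1 (by decide +kernel) I0RT_25 I0RT_26
theorem I0RT_18 : CovD 1 [pRT H BI0, pK1 H BI0] [(2473901162496, 274877906944), (65833795584, 21944598528), (57898172416, 8271167488)] :=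
  covD_split 2 (by decide +kernel) I0RT_19 I0RT_24
theorem I0RT_10 : CovD 1 [pRT H BI0, pK1 H BI0] [(2473901162496, 274877906944), (65833795584, 21944598528), (49627004928, 16542334976)] :=
  covD_split 2 (by decide +kernel) I0RT_11 I0RT_18
theorem I0RT_2 : CovD 1 [pRT H BI0, pK1 H BI0] [(2473901162496, 274877906944), (65833795584, 21944598528), (33084669952, 33084669952)] :=
  covD_split 2 (by decide +kernel) I0RT_3 I0RT_10
theorem I0RT_0 : CovD 1 [pRT H BI0, pK1 H BI0] [(2473901162496, 274877906944), (43889197056, 43889197056), (33084669952, 33084669952)] :=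
  covD_split 1 (by decide +kernel) I0RT_1 I0RT_2
theorem I0RT_35 : CovD 1 [pRT H BI0, pK1 H BI0] [(2473901162496, 274877906944), (54861496320, 10972299264), (70304923648, 4135583744)] :=
  covD_split 2 (by decide +kernel) I0RT_36 I0RT_37
theorem I0RT_34 : CovD 1 [pRT H BI0, pK1 H BI0] [(2473901162496, 274877906944), (65833795584, 21944598528), (70304923648, 4135583744)] :=
  covD_split 1 (by decide +kernel) I0RT_35 I0RT_38
theorem I0RT_40 : CovD 1 [pRT H BI0, pK1 H BI0] [(2473901162496, 274877906944), (54861496320, 10972299264), (78576091136, 4135583744)] :=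
  covD_split 2 (by decide +kernel) I0RT_41 I0RT_42
theorem I0RT_39 : CovD 1 [pRT H BI0, pK1 H BI0] [(2473901162496, 274877906944), (65833795584, 21944598528), (78576091136, 4135583744)] :=
  covD_split 1 (by decide +kernel) I0RT_40 I0RT_43
theorem I0RT_33 : CovD 1 [pRT H BI0, pK1 H BI0] [(2473901162496, 274877906944), (65833795584, 21944598528), (74440507392, 8271167488)] :=
  covD_split 2 (by decide +kernel) I0RT_34 I0RT_39
theorem I0RT_31 : CovD 1 [pRT H BI0, pK1 H BI0] [(2473901162496, 274877906944), (43889197056, 43889197056), (74440507392, 8271167488)] :=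
  covD_split 1 (by decide +kernel) I0RT_32 I0RT_33
theorem I0RT_46 : CovD 1 [pRT H BI0, pK1 H BI0] [(2473901162496, 274877906944), (21944598528, 21944598528), (86847258624, 4135583744)] :=
  covD_split 2 (by decide +kernel) I0RT_47 I0RT_48
theorem I0RT_49 : CovD 1 [pRT H BI0, pK1 H BI0] [(2473901162496, 274877906944), (21944598528, 21944598528), (95118426112, 4135583744)] :=
  covD_split 2 (by decide +kernel) I0RT_50 I0RT_51
theorem I0RT_45 : CovD 1 [pRT H BI0, pK1 H BI0] [(2473901162496, 274877906944), (21944598528, 21944598528), (90982842368, 8271167488)] :=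
  covD_split 2 (by decide +kernel) I0RT_46 I0RT_49
theorem I0RT_53 : CovD 1 [pRT H BI0, pK1 H BI0] [(2473901162496, 274877906944), (65833795584, 21944598528), (86847258624, 4135583744)] :=
  covD_split 1 (by decide +kernel) I0RT_54 I0RT_55
theorem I0RT_56 : CovD 1 [pRT H BI0, pK1 H BI0] [(2473901162496, 274877906944), (65833795584, 21944598528), (95118426112, 4135583744)] :=
  covD_split 1 (by decide +kernel) I0RT_57 I0RT_58
theorem I0RT_52 : CovD 1 [pRT H BI0, pK1 H BI0] [(2473901162496, 274877906944), (65833795584, 21944598528), (90982842368, 8271167488)] :=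
  covD_split 2 (by decide +kernel) I0RT_53 I0RT_56
theorem I0RT_44 : CovD 1 [pRT H BI0, pK1 H BI0] [(2473901162496, 274877906944), (43889197056, 43889197056), (90982842368, 8271167488)] :=
  covD_split 1 (by decide +kernel) I0RT_45 I0RT_52
theorem I0RT_30 : CovD 1 [pRT H BI0, pK1 H BI0] [(2473901162496, 274877906944), (43889197056, 43889197056), (82711674880, 16542334976)] :=
  covD_split 2 (by decide +kernel) I0RT_31 I0RT_44
theorem I0RT_61 : CovD 1 [pRT H BI0, pK1 H BI0] [(2473901162496, 274877906944), (21944598528, 21944598528), (107525177344, 8271167488)] :=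
  covD_split 2 (by decide +kernel) I0RT_62 I0RT_63
theorem I0RT_65 : CovD 1 [pRT H BI0, pK1 H BI0] [(2473901162496, 274877906944), (65833795584, 21944598528), (103389593600, 4135583744)] :=
  covD_split 1 (by decide +kernel) I0RT_66 I0RT_67
theorem I0RT_64 : CovD 1 [pRT H BI0, pK1 H BI0] [(2473901162496, 274877906944), (65833795584, 21944598528), (107525177344, 8271167488)] :=
  covD_split 2 (by decide +kernel) I0RT_65 I0RT_68
theorem I0RT_60 : CovD 1 [pRT H BI0, pK1 H BI0] [(2473901162496, 274877906944), (43889197056, 43889197056), (107525177344, 8271167488)] :=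
  covD_split 1 (by decide +kernel) I0RT_61 I0RT_64
theorem I0RT_70 : CovD 1 [pRT H BI0, pK1 H BI0] [(2473901162496, 274877906944), (21944598528, 21944598528), (124067512320, 8271167488)] :=
  covD_split 2 (by decide +kernel) I0RT_71 I0RT_72
theorem I0RT_73 : CovD 1 [pRT H BI0, pK1 H BI0] [(2473901162496, 274877906944), (65833795584, 21944598528), (124067512320, 8271167488)] :=
  covD_split 2 (by decide +kernel) I0RT_74 I0RT_75
theorem I0RT_69 : CovD 1 [pRT H BI0, pK1 H BI0] [(2473901162496, 274877906944), (43889197056, 43889197056), (124067512320, 8271167488)] :=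
  covD_split 1 (by decide +kernel) I0RT_70 I0RT_73
theorem I0RT_59 : CovD 1 [pRT H BI0, pK1 H BI0] [(2473901162496, 274877906944), (43889197056, 43889197056), (115796344832, 16542334976)] :=
  covD_split 2 (by decide +kernel) I0RT_60 I0RT_69
theorem I0RT_29 : CovD 1 [pRT H BI0, pK1 H BI0] [(2473901162496, 274877906944), (43889197056, 43889197056), (99254009856, 33084669952)] :=
  covD_split 2 (by decide +kernel) I0RT_30 I0RT_59
theorem I0RT : CovD 1 [pRT H BI0, pK1 H BI0] [(2473901162496, 274877906944), (43889197056, 43889197056), (66169339904, 66169339904)] :=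
  covD_split 2 (by decide +kernel) I0RT_0 I0RT_29
theorem I1AD_1 : CovD 0 [pAD H BI1, pK0 H BI1] [(2473901162496, 274877906944), (43889197056, 43889197056), (158846681088, 26508001280)] :=
  covD_split 0 (by decide +kernel) I1AD_2 I1AD_3
theorem I1AD_0 : CovD 0 [pAD H BI1, pK0 H BI1] [(2473901162496, 274877906944), (43889197056, 43889197056), (185354682368, 53016002560)] :=
  covD_split 2 (by decide +kernel) I1AD_1 I1AD_4
theorem I1AD_5 : CovD 0 [pAD H BI1, pK0 H BI1] [(2473901162496, 274877906944), (43889197056, 43889197056), (291386687488, 53016002560)] :=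
  covD_split 2 (by decide +kernel) I1AD_6 I1AD_7
theorem I1AD : CovD 0 [pAD H BI1, pK0 H BI1] [(2473901162496, 274877906944), (43889197056, 43889197056), (238370684928, 106032005120)] :=
  covD_split 2 (by decide +kernel) I1AD_0 I1AD_5
theorem I1RT_3 : CovD 1 [pRT H BI1, pK1 H BI1] [(2473901162496, 274877906944), (43889197056, 43889197056), (138965680128, 6627000320)] :=
  covD_split 1 (by decide +kernel) I1RT_4 I1RT_5
theorem I1RT_6 : CovD 1 [pRT H BI1, pK1 H BI1] [(2473901162496, 274877906944), (43889197056, 43889197056), (152219680768, 6627000320)] :=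
  covD_split 1 (by decide +kernel) I1RT_7 I1RT_8
theorem I1RT_2 : CovD 1 [pRT H BI1, pK1 H BI1] [(2473901162496, 274877906944), (43889197056, 43889197056), (145592680448, 13254000640)] :=
  covD_split 2 (by decide +kernel) I1RT_3 I1RT_6
theorem I1RT_9 : CovD 1 [pRT H BI1, pK1 H BI1] [(2473901162496, 274877906944), (43889197056, 43889197056), (172100681728, 13254000640)] :=
  covD_split 2 (by decide +kernel) I1RT_10 I1RT_11
theorem I1RT_1 : CovD 1 [pRT H BI1, pK1 H BI1] [(2473901162496, 274877906944), (43889197056, 43889197056), (158846681088, 26508001280)] :=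
  covD_split 2 (by decide +kernel) I1RT_2 I1RT_9
theorem I1RT_12 : CovD 1 [pRT H BI1, pK1 H BI1] [(2473901162496, 274877906944), (43889197056, 43889197056), (211862683648, 26508001280)] :=
  covD_split 2 (by decide +kernel) I1RT_13 I1RT_14
theorem I1RT_0 : CovD 1 [pRT H BI1, pK1 H BI1] [(2473901162496, 274877906944), (43889197056, 43889197056), (185354682368, 53016002560)] :=
  covD_split 2 (by decide +kernel) I1RT_1 I1RT_12
theorem I1RT_16 : CovD 1 [pRT H BI1, pK1 H BI1] [(2473901162496, 274877906944), (43889197056, 43889197056), (264878686208, 26508001280)] :=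
  covD_split 2 (by decide +kernel) I1RT_17 I1RT_18
theorem I1RT_15 : CovD 1 [pRT H BI1, pK1 H BI1] [(2473901162496, 274877906944), (43889197056, 43889197056), (291386687488, 53016002560)] :=
  covD_split 2 (by decide +kernel) I1RT_16 I1RT_19
theorem I1RT : CovD 1 [pRT H BI1, pK1 H BI1] [(2473901162496, 274877906944), (43889197056, 43889197056), (238370684928, 106032005120)] :=
  covD_split 2 (by decide +kernel) I1RT_0 I1RT_15
theorem I2RT : CovD 1 [pRT H BI2, pK1 H BI2] [(2473901162496, 274877906944), (43889197056, 43889197056), (410572029952, 66169339904)] :=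
  covD_split 2 (by decide +kernel) I2RT_0 I2RT_1
theorem I3RT_1 : CovD 1 [pRT H BI3, pK1 H BI3] [(2473901162496, 274877906944), (43889197056, 43889197056), (595926712320, 39728447488)] :=
  covD_split 2 (by decide +kernel) I3RT_2 I3RT_3
theorem I3RT : CovD 1 [pRT H BI3, pK1 H BI3] [(2473901162496, 274877906944), (43889197056, 43889197056), (556198264832, 79456894976)] :=
  covD_split 2 (by decide +kernel) I3RT_0 I3RT_1

end Pool.Agent.helper82.WC.S2K0
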