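import Pool.Agent.helper82.WC.S2K0P

/-!
Generated certificates (in pairs, so that they are checked one after the other).
-/

namespace Pool.Agent.helper82.WC.S2K0

open Pool.Agent.helper82.WH
open Pool.Agent.helper31.IC (CovD covD_split TD)

mutual
theorem I0AD_1 : CovD 0 [pAD H BI0, pK0 H BI0] [(2473901162496, 274877906944), (21944598528, 21944598528), (33084669952, 33084669952)] :=
  cov_of (fADK H BI0) (.l 1) [(2473901162496, 274877906944), (21944598528, 21944598528), (33084669952, 33084669952)] rfl (by decide +kernel)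
theorem I0AD_3 : CovD 0 [pAD H BI0, pK0 H BI0] [(2473901162496, 274877906944), (65833795584, 21944598528), (16542334976, 16542334976)] :=
  cov_of (fADK H BI0) (.n 1 (.l 1) (.n 1 (.l 1) (.n 0 (.n 2 (.n 0 (.l 0) (.l 0)) (.n 0 (.l 0) (.l 0))) (.n 2 (.n 0 (.l 0) (.l 0)) (.n 0 (.l 0) (.l 0)))))) [(2473901162496, 274877906944), (65833795584, 21944598528), (16542334976, 16542334976)] rfl (by decide +kernel)
end

mutual
theorem I0AD_4 : CovD 0 [pAD H BI0, pK0 H BI0] [(2473901162496, 274877906944), (65833795584, 21944598528), (49627004928, 16542334976)] :=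
  cov_of (fADK H BI0) (.n 1 (.n 2 (.l 1) (.n 2 (.l 1) (.n 1 (.l 1) (.n 0 (.n 0 (.l 0) (.l 0)) (.l 0))))) (.n 2 (.n 0 (.n 0 (.n 0 (.l 0) (.l 0)) (.n 0 (.l 0) (.l 0))) (.n 0 (.n 0 (.l 0) (.l 0)) (.n 0 (.l 0) (.l 0)))) (.n 0 (.n 0 (.l 0) (.l 0)) (.n 0 (.l 0) (.l 0))))) [(2473901162496, 274877906944), (65833795584, 21944598528), (49627004928, 16542334976)] rfl (by decide +kernel)
theorem I0AD_7 : CovD 0 [pAD H BI0, pK0 H BI0] [(2473901162496, 274877906944), (21944598528, 21944598528), (82711674880, 16542334976)] :=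
  cov_of (fADK H BI0) (.n 2 (.n 1 (.l 1) (.n 2 (.l 1) (.n 0 (.n 0 (.l 0) (.l 0)) (.n 0 (.l 0) (.l 0))))) (.n 0 (.n 0 (.n 1 (.l 0) (.l 0)) (.n 1 (.l 0) (.l 0))) (.n 1 (.n 0 (.l 0) (.l 0)) (.n 0 (.l 0) (.l 0))))) [(2473901162496, 274877906944), (21944598528, 21944598528), (82711674880, 16542334976)] rfl (by decide +kernel)
end

mutual
theorem I0AD_8 : CovD 0 [pAD H BI0, pK0 H BI0] [(2473901162496, 274877906944), (65833795584, 21944598528), (82711674880, 16542334976)] :=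
  cov_of (fADK H BI0) (.n 1 (.n 2 (.n 0 (.n 0 (.n 0 (.l 0) (.l 0)) (.n 0 (.l 0) (.l 0))) (.n 0 (.n 0 (.l 0) (.l 0)) (.n 0 (.l 0) (.l 0)))) (.n 0 (.n 0 (.l 0) (.l 0)) (.n 0 (.l 0) (.l 0)))) (.n 0 (.n 2 (.n 0 (.l 0) (.l 0)) (.n 0 (.l 0) (.l 0))) (.n 2 (.n 0 (.l 0) (.l 0)) (.n 0 (.l 0) (.l 0))))) [(2473901162496, 274877906944), (65833795584, 21944598528), (82711674880, 16542334976)] rfl (by decide +kernel)
theorem I0AD_10 : CovD 0 [pAD H BI0, pK0 H BI0] [(2473901162496, 274877906944), (21944598528, 21944598528), (115796344832, 16542334976)] :=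
  cov_of (fADK H BI0) (.n 0 (.n 0 (.n 2 (.n 0 (.l 0) (.l 0)) (.n 0 (.l 0) (.l 0))) (.n 2 (.n 1 (.l 0) (.l 0)) (.n 0 (.l 0) (.l 0)))) (.n 2 (.n 0 (.n 1 (.l 0) (.l 0)) (.n 1 (.l 0) (.l 0))) (.n 0 (.n 0 (.l 0) (.l 0)) (.n 0 (.l 0) (.l 0))))) [(2473901162496, 274877906944), (21944598528, 21944598528), (115796344832, 16542334976)] rfl (by decide +kernel)
end

mutual
theorem I0AD_11 : CovD 0 [pAD H BI0, pK0 H BI0] [(2473901162496, 274877906944), (65833795584, 21944598528), (115796344832, 16542334976)] :=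
  cov_of (fADK H BI0) (.n 2 (.n 0 (.n 0 (.n 0 (.l 0) (.l 0)) (.n 0 (.l 0) (.l 0))) (.n 1 (.n 0 (.l 0) (.l 0)) (.n 0 (.l 0) (.l 0)))) (.n 0 (.n 0 (.n 0 (.l 0) (.l 0)) (.n 0 (.l 0) (.l 0))) (.n 0 (.n 0 (.l 0) (.l 0)) (.n 0 (.l 0) (.l 0))))) [(2473901162496, 274877906944), (65833795584, 21944598528), (115796344832, 16542334976)] rfl (by decide +kernel)
theorem I0G : CovD 1 [pG H BI0, pK1 H BI0] [(2473901162496, 274877906944), (43889197056, 43889197056), (66169339904, 66169339904)] :=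
  cov_of (fGK H BI0) (.l 0) [(2473901162496, 274877906944), (43889197056, 43889197056), (66169339904, 66169339904)] rfl (by decide +kernel)
end

mutual
theorem I0RT_1 : CovD 1 [pRT H BI0, pK1 H BI0] [(2473901162496, 274877906944), (21944598528, 21944598528), (33084669952, 33084669952)] :=
  cov_of (fRTK H BI0) (.l 1) [(2473901162496, 274877906944), (21944598528, 21944598528), (33084669952, 33084669952)] rfl (by decide +kernel)
theorem I0RT_4 : CovD 1 [pRT H BI0, pK1 H BI0] [(2473901162496, 274877906944), (54861496320, 10972299264), (16542334976, 16542334976)] :=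
  cov_of (fRTK H BI0) (.l 1) [(2473901162496, 274877906944), (54861496320, 10972299264), (16542334976, 16542334976)] rfl (by decide +kernel)
end

mutual
theorem I0RT_6 : CovD 1 [pRT H BI0, pK1 H BI0] [(2473901162496, 274877906944), (71319945216, 5486149632), (16542334976, 16542334976)] :=
  cov_of (fRTK H BI0) (.l 1) [(2473901162496, 274877906944), (71319945216, 5486149632), (16542334976, 16542334976)] rfl (by decide +kernel)
theorem I0RT_8 : CovD 1 [pRT H BI0, pK1 H BI0] [(2473901162496, 274877906944), (82292244480, 5486149632), (8271167488, 8271167488)] :=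
  cov_of (fRTK H BI0) (.n 1 (.l 1) (.n 1 (.l 1) (.n 2 (.n 2 (.l 1) (.n 1 (.l 1) (.n 2 (.l 0) (.l 0)))) (.n 2 (.n 1 (.l 1) (.n 2 (.l 0) (.l 0))) (.n 2 (.n 0 (.l 0) (.l 0)) (.n 0 (.l 0) (.l 0))))))) [(2473901162496, 274877906944), (82292244480, 5486149632), (8271167488, 8271167488)] rfl (by decide +kernel)
end

mutual
theorem I0RT_9 : CovD 1 [pRT H BI0, pK1 H BI0] [(2473901162496, 274877906944), (82292244480, 5486149632), (24813502464, 8271167488)] :=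
  cov_of (fRTK H BI0) (.n 2 (.n 1 (.l 1) (.n 2 (.n 1 (.l 1) (.n 2 (.n 0 (.l 0) (.l 0)) (.n 0 (.l 0) (.l 0)))) (.n 2 (.n 2 (.l 0) (.l 0)) (.n 2 (.l 0) (.l 0))))) (.n 2 (.n 1 (.l 1) (.n 2 (.n 2 (.l 0) (.l 0)) (.n 2 (.l 0) (.l 0)))) (.n 2 (.n 2 (.n 1 (.l 0) (.l 0)) (.n 1 (.l 0) (.l 0))) (.n 2 (.n 1 (.l 0) (.l 0)) (.n 1 (.l 0) (.l 0)))))) [(2473901162496, 274877906944), (82292244480, 5486149632), (24813502464, 8271167488)] rfl (by decide +kernel)
theorem I0RT_12 : CovD 1 [pRT H BI0, pK1 H BI0] [(2473901162496, 274877906944), (54861496320, 10972299264), (41355837440, 8271167488)] :=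
  cov_of (fRTK H BI0) (.l 1) [(2473901162496, 274877906944), (54861496320, 10972299264), (41355837440, 8271167488)] rfl (by decide +kernel)
end

mutual
theorem I0RT_14 : CovD 1 [pRT H BI0, pK1 H BI0] [(2473901162496, 274877906944), (76806094848, 10972299264), (37220253696, 4135583744)] :=
  cov_of (fRTK H BI0) (.n 1 (.l 1) (.n 2 (.n 2 (.n 2 (.n 1 (.l 0) (.l 0)) (.n 1 (.l 0) (.l 0))) (.n 2 (.n 1 (.l 0) (.l 0)) (.n 0 (.l 0) (.l 0)))) (.n 2 (.n 2 (.n 0 (.l 0) (.l 0)) (.n 0 (.l 0) (.l 0))) (.n 2 (.n 0 (.l 0) (.l 0)) (.n 0 (.l 0) (.l 0)))))) [(2473901162496, 274877906944), (76806094848, 10972299264), (37220253696, 4135583744)] rfl (by decide +kernel)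
theorem I0RT_16 : CovD 1 [pRT H BI0, pK1 H BI0] [(2473901162496, 274877906944), (76806094848, 10972299264), (43423629312, 2067791872)] :=
  cov_of (fRTK H BI0) (.n 1 (.n 1 (.l 1) (.n 1 (.l 1) (.n 2 (.n 2 (.l 0) (.l 0)) (.n 2 (.l 0) (.l 0))))) (.n 2 (.n 2 (.n 0 (.l 0) (.l 0)) (.n 0 (.l 0) (.l 0))) (.n 2 (.n 0 (.l 0) (.l 0)) (.n 0 (.l 0) (.l 0))))) [(2473901162496, 274877906944), (76806094848, 10972299264), (43423629312, 2067791872)] rfl (by decide +kernel)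
end

mutual
theorem I0RT_17 : CovD 1 [pRT H BI0, pK1 H BI0] [(2473901162496, 274877906944), (76806094848, 10972299264), (47559213056, 2067791872)] :=
  cov_of (fRTK H BI0) (.n 1 (.n 1 (.l 1) (.n 2 (.n 2 (.l 0) (.l 0)) (.n 2 (.l 0) (.l 0)))) (.n 2 (.n 2 (.n 0 (.l 0) (.l 0)) (.n 0 (.l 0) (.l 0))) (.n 2 (.n 0 (.l 0) (.l 0)) (.n 0 (.l 0) (.l 0))))) [(2473901162496, 274877906944), (76806094848, 10972299264), (47559213056, 2067791872)] rfl (by decide +kernel)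
theorem I0RT_20 : CovD 1 [pRT H BI0, pK1 H BI0] [(2473901162496, 274877906944), (54861496320, 10972299264), (53762588672, 4135583744)] :=
  cov_of (fRTK H BI0) (.l 1) [(2473901162496, 274877906944), (54861496320, 10972299264), (53762588672, 4135583744)] rfl (by decide +kernel)
end

mutual
theorem I0RT_22 : CovD 1 [pRT H BI0, pK1 H BI0] [(2473901162496, 274877906944), (76806094848, 10972299264), (51694796800, 2067791872)] :=
  cov_of (fRTK H BI0) (.n 1 (.n 2 (.n 2 (.n 1 (.l 0) (.l 0)) (.n 1 (.l 0) (.l 0))) (.n 2 (.n 1 (.l 0) (.l 0)) (.n 1 (.l 0) (.l 0)))) (.n 2 (.n 2 (.n 0 (.l 0) (.l 0)) (.n 0 (.l 0) (.l 0))) (.n 2 (.n 0 (.l 0) (.l 0)) (.n 0 (.l 0) (.l 0))))) [(2473901162496, 274877906944), (76806094848, 10972299264), (51694796800, 2067791872)] rfl (by decide +kernel)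
theorem I0RT_23 : CovD 1 [pRT H BI0, pK1 H BI0] [(2473901162496, 274877906944), (76806094848, 10972299264), (55830380544, 2067791872)] :=
  cov_of (fRTK H BI0) (.n 1 (.n 2 (.n 2 (.n 0 (.l 0) (.l 0)) (.n 0 (.l 0) (.l 0))) (.n 2 (.n 0 (.l 0) (.l 0)) (.n 0 (.l 0) (.l 0)))) (.n 2 (.n 2 (.n 0 (.l 0) (.l 0)) (.n 0 (.l 0) (.l 0))) (.n 2 (.n 0 (.l 0) (.l 0)) (.n 0 (.l 0) (.l 0))))) [(2473901162496, 274877906944), (76806094848, 10972299264), (55830380544, 2067791872)] rfl (by decide +kernel)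
end

mutual
theorem I0RT_25 : CovD 1 [pRT H BI0, pK1 H BI0] [(2473901162496, 274877906944), (54861496320, 10972299264), (62033756160, 4135583744)] :=
  cov_of (fRTK H BI0) (.n 1 (.l 1) (.n 2 (.n 1 (.l 1) (.n 2 (.n 2 (.l 0) (.l 0)) (.n 2 (.l 0) (.l 0)))) (.n 2 (.n 2 (.n 1 (.l 0) (.l 0)) (.n 0 (.l 0) (.l 0))) (.n 2 (.n 0 (.l 0) (.l 0)) (.n 0 (.l 0) (.l 0)))))) [(2473901162496, 274877906944), (54861496320, 10972299264), (62033756160, 4135583744)] rfl (by decide +kernel)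
theorem I0RT_27 : CovD 1 [pRT H BI0, pK1 H BI0] [(2473901162496, 274877906944), (76806094848, 10972299264), (59965964288, 2067791872)] :=
  cov_of (fRTK H BI0) (.n 1 (.n 2 (.n 2 (.n 0 (.l 0) (.l 0)) (.n 0 (.l 0) (.l 0))) (.n 2 (.n 0 (.l 0) (.l 0)) (.n 0 (.l 0) (.l 0)))) (.n 2 (.n 2 (.n 0 (.l 0) (.l 0)) (.n 0 (.l 0) (.l 0))) (.n 2 (.n 0 (.l 0) (.l 0)) (.n 0 (.l 0) (.l 0))))) [(2473901162496, 274877906944), (76806094848, 10972299264), (59965964288, 2067791872)] rfl (by decide +kernel)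
end

mutual
theorem I0RT_28 : CovD 1 [pRT H BI0, pK1 H BI0] [(2473901162496, 274877906944), (76806094848, 10972299264), (64101548032, 2067791872)] :=
  cov_of (fRTK H BI0) (.n 1 (.n 2 (.n 2 (.n 0 (.l 0) (.l 0)) (.n 0 (.l 0) (.l 0))) (.n 2 (.n 0 (.l 0) (.l 0)) (.n 0 (.l 0) (.l 0)))) (.n 2 (.n 2 (.l 0) (.l 0)) (.n 2 (.l 0) (.l 0)))) [(2473901162496, 274877906944), (76806094848, 10972299264), (64101548032, 2067791872)] rfl (by decide +kernel)
theorem I0RT_32 : CovD 1 [pRT H BI0, pK1 H BI0] [(2473901162496, 274877906944), (21944598528, 21944598528), (74440507392, 8271167488)] :=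
  cov_of (fRTK H BI0) (.n 2 (.l 1) (.n 1 (.l 1) (.n 2 (.n 1 (.l 1) (.n 1 (.l 1) (.n 2 (.n 2 (.l 0) (.l 0)) (.n 2 (.l 0) (.l 0))))) (.n 2 (.n 1 (.l 1) (.n 2 (.n 0 (.l 0) (.l 0)) (.n 0 (.l 0) (.l 0)))) (.n 2 (.n 1 (.n 0 (.l 0) (.l 0)) (.n 0 (.l 0) (.l 0))) (.n 1 (.n 0 (.l 0) (.l 0)) (.n 0 (.l 0) (.l 0)))))))) [(2473901162496, 274877906944), (21944598528, 21944598528), (74440507392, 8271167488)] rfl (by decide +kernel)
end

mutual
theorem I0RT_36 : CovD 1 [pRT H BI0, pK1 H BI0] [(2473901162496, 274877906944), (54861496320, 10972299264), (68237131776, 2067791872)] :=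
  cov_of (fRTK H BI0) (.n 2 (.n 1 (.l 1) (.n 2 (.n 0 (.l 0) (.l 0)) (.n 0 (.l 0) (.l 0)))) (.n 1 (.n 1 (.l 1) (.n 2 (.l 0) (.l 0))) (.n 2 (.n 0 (.l 0) (.l 0)) (.n 0 (.l 0) (.l 0))))) [(2473901162496, 274877906944), (54861496320, 10972299264), (68237131776, 2067791872)] rfl (by decide +kernel)
theorem I0RT_37 : CovD 1 [pRT H BI0, pK1 H BI0] [(2473901162496, 274877906944), (54861496320, 10972299264), (72372715520, 2067791872)] :=
  cov_of (fRTK H BI0) (.n 2 (.n 1 (.n 1 (.l 1) (.n 2 (.l 0) (.l 0))) (.n 2 (.n 0 (.l 0) (.l 0)) (.n 0 (.l 0) (.l 0)))) (.n 1 (.n 2 (.n 0 (.l 0) (.l 0)) (.n 0 (.l 0) (.l 0))) (.n 2 (.n 0 (.l 0) (.l 0)) (.n 0 (.l 0) (.l 0))))) [(2473901162496, 274877906944), (54861496320, 10972299264), (72372715520, 2067791872)] rfl (by decide +kernel)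
end

mutual
theorem I0RT_38 : CovD 1 [pRT H BI0, pK1 H BI0] [(2473901162496, 274877906944), (76806094848, 10972299264), (70304923648, 4135583744)] :=
  cov_of (fRTK H BI0) (.n 2 (.n 1 (.n 2 (.n 2 (.n 0 (.l 0) (.l 0)) (.n 0 (.l 0) (.l 0))) (.n 2 (.n 0 (.l 0) (.l 0)) (.n 0 (.l 0) (.l 0)))) (.n 2 (.n 2 (.l 0) (.l 0)) (.n 2 (.l 0) (.l 0)))) (.n 1 (.n 2 (.n 2 (.n 0 (.l 0) (.l 0)) (.n 0 (.l 0) (.l 0))) (.n 2 (.l 0) (.l 0))) (.n 2 (.n 2 (.l 0) (.l 0)) (.n 2 (.l 0) (.l 0))))) [(2473901162496, 274877906944), (76806094848, 10972299264), (70304923648, 4135583744)] rfl (by decide +kernel)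
theorem I0RT_41 : CovD 1 [pRT H BI0, pK1 H BI0] [(2473901162496, 274877906944), (54861496320, 10972299264), (76508299264, 2067791872)] :=
  cov_of (fRTK H BI0) (.n 2 (.n 1 (.n 2 (.n 0 (.l 0) (.l 0)) (.n 0 (.l 0) (.l 0))) (.n 2 (.n 0 (.l 0) (.l 0)) (.n 0 (.l 0) (.l 0)))) (.n 1 (.n 2 (.n 0 (.l 0) (.l 0)) (.n 0 (.l 0) (.l 0))) (.n 2 (.n 0 (.l 0) (.l 0)) (.n 0 (.l 0) (.l 0))))) [(2473901162496, 274877906944), (54861496320, 10972299264), (76508299264, 2067791872)] rfl (by decide +kernel)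
end

mutual
theorem I0RT_42 : CovD 1 [pRT H BI0, pK1 H BI0] [(2473901162496, 274877906944), (54861496320, 10972299264), (80643883008, 2067791872)] :=
  cov_of (fRTK H BI0) (.n 2 (.n 1 (.n 2 (.n 0 (.l 0) (.l 0)) (.n 0 (.l 0) (.l 0))) (.n 2 (.l 0) (.l 0))) (.n 1 (.n 2 (.n 0 (.l 0) (.l 0)) (.n 0 (.l 0) (.l 0))) (.n 2 (.l 0) (.l 0)))) [(2473901162496, 274877906944), (54861496320, 10972299264), (80643883008, 2067791872)] rfl (by decide +kernel)
theorem I0RT_43 : CovD 1 [pRT H BI0, pK1 H BI0] [(2473901162496, 274877906944), (76806094848, 10972299264), (78576091136, 4135583744)] :=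
  cov_of (fRTK H BI0) (.n 2 (.n 2 (.n 1 (.n 2 (.l 0) (.l 0)) (.n 2 (.l 0) (.l 0))) (.n 1 (.n 2 (.l 0) (.l 0)) (.n 1 (.l 0) (.l 0)))) (.n 2 (.n 1 (.n 2 (.l 0) (.l 0)) (.n 0 (.l 0) (.l 0))) (.n 1 (.n 2 (.l 0) (.l 0)) (.n 0 (.l 0) (.l 0))))) [(2473901162496, 274877906944), (76806094848, 10972299264), (78576091136, 4135583744)] rfl (by decide +kernel)
end

mutual
theorem I0RT_47 : CovD 1 [pRT H BI0, pK1 H BI0] [(2473901162496, 274877906944), (21944598528, 21944598528), (84779466752, 2067791872)] :=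
  cov_of (fRTK H BI0) (.n 1 (.n 2 (.l 1) (.n 1 (.l 1) (.n 2 (.l 0) (.l 0)))) (.n 2 (.n 2 (.n 1 (.n 0 (.l 0) (.l 0)) (.n 0 (.l 0) (.l 0))) (.n 1 (.l 0) (.l 0))) (.n 2 (.n 1 (.l 0) (.l 0)) (.n 1 (.l 0) (.l 0))))) [(2473901162496, 274877906944), (21944598528, 21944598528), (84779466752, 2067791872)] rfl (by decide +kernel)
theorem I0RT_48 : CovD 1 [pRT H BI0, pK1 H BI0] [(2473901162496, 274877906944), (21944598528, 21944598528), (88915050496, 2067791872)] :=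
  cov_of (fRTK H BI0) (.n 1 (.n 2 (.n 2 (.n 0 (.l 0) (.l 0)) (.n 0 (.l 0) (.l 0))) (.n 2 (.n 0 (.l 0) (.l 0)) (.n 0 (.l 0) (.l 0)))) (.n 2 (.n 2 (.n 1 (.l 0) (.l 0)) (.n 1 (.l 0) (.l 0))) (.n 2 (.n 1 (.l 0) (.l 0)) (.n 1 (.l 0) (.l 0))))) [(2473901162496, 274877906944), (21944598528, 21944598528), (88915050496, 2067791872)] rfl (by decide +kernel)
end

mutual
theorem I0RT_50 : CovD 1 [pRT H BI0, pK1 H BI0] [(2473901162496, 274877906944), (21944598528, 21944598528), (93050634240, 2067791872)] :=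
  cov_of (fRTK H BI0) (.n 1 (.n 2 (.n 2 (.n 0 (.l 0) (.l 0)) (.n 0 (.l 0) (.l 0))) (.n 2 (.n 0 (.l 0) (.l 0)) (.l 0))) (.n 2 (.n 2 (.n 1 (.l 0) (.l 0)) (.n 0 (.l 0) (.l 0))) (.n 2 (.n 0 (.l 0) (.l 0)) (.n 0 (.l 0) (.l 0))))) [(2473901162496, 274877906944), (21944598528, 21944598528), (93050634240, 2067791872)] rfl (by decide +kernel)
theorem I0RT_51 : CovD 1 [pRT H BI0, pK1 H BI0] [(2473901162496, 274877906944), (21944598528, 21944598528), (97186217984, 2067791872)] :=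
  cov_of (fRTK H BI0) (.n 1 (.n 2 (.n 2 (.l 0) (.l 0)) (.n 2 (.l 0) (.l 0))) (.n 2 (.n 2 (.n 0 (.l 0) (.l 0)) (.n 0 (.l 0) (.l 0))) (.n 2 (.n 0 (.l 0) (.l 0)) (.n 0 (.l 0) (.l 0))))) [(2473901162496, 274877906944), (21944598528, 21944598528), (97186217984, 2067791872)] rfl (by decide +kernel)
end

mutual
theorem I0RT_54 : CovD 1 [pRT H BI0, pK1 H BI0] [(2473901162496, 274877906944), (54861496320, 10972299264), (86847258624, 4135583744)] :=
  cov_of (fRTK H BI0) (.n 2 (.n 2 (.n 1 (.n 2 (.l 0) (.l 0)) (.n 2 (.l 0) (.l 0))) (.n 1 (.n 2 (.l 0) (.l 0)) (.n 2 (.l 0) (.l 0)))) (.n 2 (.n 1 (.n 2 (.l 0) (.l 0)) (.n 2 (.l 0) (.l 0))) (.n 1 (.n 2 (.l 0) (.l 0)) (.n 2 (.l 0) (.l 0))))) [(2473901162496, 274877906944), (54861496320, 10972299264), (86847258624, 4135583744)] rfl (by decide +kernel)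
theorem I0RT_55 : CovD 1 [pRT H BI0, pK1 H BI0] [(2473901162496, 274877906944), (76806094848, 10972299264), (86847258624, 4135583744)] :=
  cov_of (fRTK H BI0) (.n 2 (.n 2 (.n 1 (.n 2 (.l 0) (.l 0)) (.n 0 (.l 0) (.l 0))) (.n 1 (.n 2 (.l 0) (.l 0)) (.n 0 (.l 0) (.l 0)))) (.n 2 (.n 1 (.n 0 (.l 0) (.l 0)) (.n 0 (.l 0) (.l 0))) (.n 1 (.n 0 (.l 0) (.l 0)) (.n 0 (.l 0) (.l 0))))) [(2473901162496, 274877906944), (76806094848, 10972299264), (86847258624, 4135583744)] rfl (by decide +kernel)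
end

mutual
theorem I0RT_57 : CovD 1 [pRT H BI0, pK1 H BI0] [(2473901162496, 274877906944), (54861496320, 10972299264), (95118426112, 4135583744)] :=
  cov_of (fRTK H BI0) (.n 2 (.n 2 (.n 1 (.n 2 (.l 0) (.l 0)) (.n 0 (.l 0) (.l 0))) (.n 1 (.n 2 (.l 0) (.l 0)) (.n 0 (.l 0) (.l 0)))) (.n 2 (.n 1 (.n 0 (.l 0) (.l 0)) (.n 0 (.l 0) (.l 0))) (.n 1 (.n 0 (.l 0) (.l 0)) (.n 0 (.l 0) (.l 0))))) [(2473901162496, 274877906944), (54861496320, 10972299264), (95118426112, 4135583744)] rfl (by decide +kernel)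
theorem I0RT_58 : CovD 1 [pRT H BI0, pK1 H BI0] [(2473901162496, 274877906944), (76806094848, 10972299264), (95118426112, 4135583744)] :=
  cov_of (fRTK H BI0) (.n 2 (.n 2 (.n 1 (.n 0 (.l 0) (.l 0)) (.n 0 (.l 0) (.l 0))) (.n 1 (.n 0 (.l 0) (.l 0)) (.n 0 (.l 0) (.l 0)))) (.n 2 (.n 1 (.n 0 (.l 0) (.l 0)) (.n 0 (.l 0) (.l 0))) (.n 1 (.n 0 (.l 0) (.l 0)) (.n 0 (.l 0) (.l 0))))) [(2473901162496, 274877906944), (76806094848, 10972299264), (95118426112, 4135583744)] rfl (by decide +kernel)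
end

end Pool.Agent.helper82.WC.S2K0
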