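import Pool.Agent.helper82.WH.Chks

/-!
Generated: constants of a cell.
-/

namespace Pool.Agent.helper82.WC.S2K0

open Pool.Agent.helper82.WH
open Pool.Agent.helper31.IC (CovD covD_split TD)

def H : HC := ⟨⟨2473901162496, 0⟩, ⟨1751908352, 0⟩, ⟨0, 550865469440⟩, ⟨0, 576776437760⟩, ⟨429534281728, 0⟩, ⟨0, 1274095599616⟩, ⟨290896412672, 0⟩, ⟨347254882304, 0⟩, ⟨1423934881792, 0⟩, ⟨0, 3915853856768⟩, ⟨550243663872, 0⟩, ⟨0, 26012811264⟩, ⟨379402452992, 0⟩, ⟨733295935488, 0⟩, ⟨714405445632, 0⟩, ⟨0, 170333241344⟩, ⟨0, 830147461120⟩, ⟨0, 1063824392192⟩, ⟨504662917120, 0⟩, ⟨0, 262817382400⟩, ⟨1086764285952, 0⟩, ⟨1341997776896, 0⟩, ⟨487522304, 0⟩, ⟨994642952192, 0⟩, ⟨0, 5630433099776⟩, ⟨5335489249280, 0⟩, ⟨7036796928, 0⟩⟩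

def BI0 : BC := ⟨⟨0, 0, 1099511627776, 0⟩, ⟨0, 0⟩, ⟨0, 0⟩, 231118274560, 74754424832, 174777368576, 612405084160, 204782960640, 2986344448, 1184505004032, 1308924837888, ⟨16767552323584, 0⟩, ⟨0, 7846905249792⟩, ⟨860160720896, 0⟩, ⟨0, 0⟩, ⟨0, 0⟩⟩

def BI1 : BC := ⟨⟨0, 0, 1099511627776, 0⟩, ⟨0, 0⟩, ⟨0, 0⟩, 184332451840, 58357055488, 196085743616, 648734310400, 204782960640, 15149826048, 1176535826432, 1299445710848, ⟨8877697400832, 0⟩, ⟨0, 5342939316224⟩, ⟨906763960320, 0⟩, ⟨0, 0⟩, ⟨0, 0⟩⟩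

def BI2 : BC := ⟨⟨0, 0, 1099511627776, 0⟩, ⟨0, 0⟩, ⟨0, 0⟩, 164587634688, 53593440256, 253551378432, 610969518080, 204782960640, 25216155648, 1069899841536, 1207456235520, ⟨4720169058304, 0⟩, ⟨0, 3341484556288⟩, ⟨925557063680, 0⟩, ⟨0, 0⟩, ⟨0, 0⟩⟩

def BI3 : BC := ⟨⟨0, 0, 1099511627776, 0⟩, ⟨0, 0⟩, ⟨0, 0⟩, 161534705664, 52654637056, 284096069632, 578365751296, 204782960640, 36154900480, 996046536704, 1141773434880, ⟨2576980377600, 0⟩, ⟨0, 2568390443008⟩, ⟨928033013760, 0⟩, ⟨0, 0⟩, ⟨0, 0⟩⟩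

def BT : BC := ⟨⟨0, 0, 1099511627776, 0⟩, ⟨0, 0⟩, ⟨0, 0⟩, 87046881280, 33184677888, 224984629248, 461829046272, 204782960640, 36154900480, 995107012608, 1053860823040, ⟨1881195675648, 0⟩, ⟨0, 2246267895808⟩, ⟨598541271040, 0⟩, ⟨1099511627776, 0⟩, ⟨0, 0⟩⟩

def BH0 : BC := ⟨⟨0, 0, 1099511627776, 0⟩, ⟨0, 0⟩, ⟨0, 0⟩, 0, 0, 0, 0, 0, 0, 0, 0, ⟨0, 0⟩, ⟨0, 0⟩, ⟨0, 0⟩, ⟨0, 0⟩, ⟨0, 0⟩⟩

def BH1 : BC := ⟨⟨0, 0, 0, 0⟩, ⟨137438953472, 0⟩, ⟨1099511627776, 0⟩, 0, 0, 0, 0, 0, 0, 0, 0, ⟨0, 0⟩, ⟨0, 0⟩, ⟨0, 0⟩, ⟨0, 0⟩, ⟨0, 0⟩⟩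

end Pool.Agent.helper82.WC.S2K0
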