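import Pool.Agent.helper82.WC.S2K1P

/-!
Generated certificates (in pairs, so that they are checked one after the other).
-/

namespace Pool.Agent.helper82.WC.S2K1

open Pool.Agent.helper82.WH
open Pool.Agent.helper31.IC (CovD covD_split TD)

mutual
theorem I0RT_19 : CovD 1 [pRT H BI0] [(2473901162496, 274877906944), (120795955200, 33017561088), (138462363648, 19780337664)] :=
  cov_of (fRT H BI0) (.n 2 (.n 2 (.n 1 (.n 2 (.l 0) (.l 0)) (.n 1 (.l 0) (.l 0))) (.n 1 (.n 2 (.l 0) (.l 0)) (.n 0 (.l 0) (.l 0)))) (.n 2 (.n 1 (.n 2 (.l 0) (.l 0)) (.n 0 (.l 0) (.l 0))) (.n 1 (.n 0 (.l 0) (.l 0)) (.n 0 (.l 0) (.l 0))))) [(2473901162496, 274877906944), (120795955200, 33017561088), (138462363648, 19780337664)] rfl (by decide +kernel)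
theorem I0RT_20 : CovD 1 [pRT H BI0] [(2473901162496, 274877906944), (186831077376, 33017561088), (138462363648, 19780337664)] :=
  cov_of (fRT H BI0) (.n 2 (.n 1 (.n 2 (.n 0 (.l 0) (.l 0)) (.n 0 (.l 0) (.l 0))) (.n 2 (.l 0) (.n 0 (.l 0) (.l 0)))) (.n 1 (.n 2 (.n 0 (.l 0) (.l 0)) (.n 0 (.l 0) (.l 0))) (.n 2 (.n 0 (.l 0) (.l 0)) (.n 0 (.l 0) (.l 0))))) [(2473901162496, 274877906944), (186831077376, 33017561088), (138462363648, 19780337664)] rfl (by decide +kernel)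
end

mutual
theorem I0RT_23 : CovD 1 [pRT H BI0] [(2473901162496, 274877906944), (153813516288, 66035122176), (178023038976, 19780337664)] :=
  cov_of (fRT H BI0) (.n 1 (.n 2 (.n 2 (.n 1 (.n 0 (.l 0) (.l 0)) (.n 0 (.l 0) (.l 0))) (.n 1 (.l 0) (.l 0))) (.n 2 (.n 1 (.l 0) (.l 0)) (.n 1 (.l 0) (.l 0)))) (.n 2 (.n 1 (.n 2 (.n 0 (.l 0) (.l 0)) (.n 0 (.l 0) (.l 0))) (.n 0 (.l 0) (.l 0))) (.n 1 (.n 0 (.l 0) (.l 0)) (.n 0 (.l 0) (.l 0))))) [(2473901162496, 274877906944), (153813516288, 66035122176), (178023038976, 19780337664)] rfl (by decide +kernel)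
theorem I0RT_24 : CovD 1 [pRT H BI0] [(2473901162496, 274877906944), (153813516288, 66035122176), (217583714304, 19780337664)] :=
  cov_of (fRT H BI0) (.n 1 (.n 2 (.n 2 (.n 1 (.n 0 (.l 0) (.l 0)) (.l 0)) (.n 0 (.l 0) (.n 1 (.l 0) (.l 0)))) (.n 2 (.n 0 (.l 0) (.n 1 (.l 0) (.l 0))) (.n 0 (.l 0) (.n 1 (.l 0) (.l 0))))) (.n 2 (.n 1 (.n 0 (.l 0) (.l 0)) (.n 0 (.l 0) (.l 0))) (.n 1 (.n 0 (.l 0) (.l 0)) (.n 0 (.l 0) (.l 0))))) [(2473901162496, 274877906944), (153813516288, 66035122176), (217583714304, 19780337664)] rfl (by decide +kernel)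
end

mutual
theorem I0RT_26 : CovD 1 [pRT H BI0] [(2473901162496, 274877906944), (153813516288, 66035122176), (257144389632, 19780337664)] :=
  cov_of (fRT H BI0) (.n 1 (.n 2 (.n 2 (.n 0 (.l 0) (.n 1 (.l 0) (.l 0))) (.n 0 (.l 0) (.n 1 (.l 0) (.l 0)))) (.n 1 (.n 0 (.l 0) (.l 0)) (.n 0 (.l 0) (.l 0)))) (.n 2 (.n 1 (.n 0 (.l 0) (.l 0)) (.n 0 (.l 0) (.l 0))) (.n 0 (.n 0 (.l 0) (.l 0)) (.n 1 (.l 0) (.l 0))))) [(2473901162496, 274877906944), (153813516288, 66035122176), (257144389632, 19780337664)] rfl (by decide +kernel)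
theorem I0RT_27 : CovD 1 [pRT H BI0] [(2473901162496, 274877906944), (153813516288, 66035122176), (296705064960, 19780337664)] :=
  cov_of (fRT H BI0) (.n 1 (.n 2 (.n 0 (.n 0 (.l 0) (.l 0)) (.n 1 (.l 0) (.l 0))) (.n 0 (.l 0) (.n 1 (.l 0) (.l 0)))) (.n 2 (.n 0 (.n 0 (.l 0) (.l 0)) (.n 1 (.l 0) (.l 0))) (.n 0 (.l 0) (.n 1 (.l 0) (.n 1 (.l 0) (.n 0 (.l 0) (.l 0))))))) [(2473901162496, 274877906944), (153813516288, 66035122176), (296705064960, 19780337664)] rfl (by decide +kernel)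
end

mutual
theorem I1AD_2 : CovD 0 [pAD H BI1] [(2336462209024, 137438953472), (153813516288, 66035122176), (349939171328, 33453768704)] :=
  cov_of (fAD H BI1) (.n 1 (.n 2 (.n 0 (.n 0 (.l 0) (.l 0)) (.n 0 (.l 0) (.l 0))) (.n 0 (.n 0 (.l 0) (.l 0)) (.n 0 (.l 0) (.l 0)))) (.n 2 (.n 0 (.n 0 (.l 0) (.l 0)) (.n 0 (.l 0) (.l 0))) (.n 0 (.n 0 (.l 0) (.l 0)) (.n 0 (.l 0) (.l 0))))) [(2336462209024, 137438953472), (153813516288, 66035122176), (349939171328, 33453768704)] rfl (by decide +kernel)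
theorem I1AD_3 : CovD 0 [pAD H BI1] [(2611340115968, 137438953472), (153813516288, 66035122176), (349939171328, 33453768704)] :=
  cov_of (fAD H BI1) (.n 1 (.n 2 (.n 0 (.n 1 (.l 0) (.l 0)) (.n 1 (.l 0) (.l 0))) (.n 0 (.n 0 (.l 0) (.l 0)) (.n 0 (.l 0) (.l 0)))) (.n 2 (.n 1 (.n 0 (.l 0) (.l 0)) (.n 0 (.l 0) (.l 0))) (.n 0 (.n 0 (.l 0) (.l 0)) (.n 0 (.l 0) (.l 0))))) [(2611340115968, 137438953472), (153813516288, 66035122176), (349939171328, 33453768704)] rfl (by decide +kernel)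
end

mutual
theorem I1AD_4 : CovD 0 [pAD H BI1] [(2473901162496, 274877906944), (153813516288, 66035122176), (416846708736, 33453768704)] :=
  cov_of (fAD H BI1) (.n 0 (.n 1 (.n 2 (.n 0 (.l 0) (.l 0)) (.n 0 (.l 0) (.l 0))) (.n 2 (.n 0 (.n 0 (.l 0) (.l 0)) (.l 0)) (.n 0 (.l 0) (.l 0)))) (.n 1 (.n 2 (.n 0 (.l 0) (.l 0)) (.n 0 (.l 0) (.l 0))) (.n 2 (.n 0 (.l 0) (.l 0)) (.n 0 (.l 0) (.l 0))))) [(2473901162496, 274877906944), (153813516288, 66035122176), (416846708736, 33453768704)] rfl (by decide +kernel)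
theorem I1AD_6 : CovD 0 [pAD H BI1] [(2473901162496, 274877906944), (153813516288, 66035122176), (483754246144, 33453768704)] :=
  cov_of (fAD H BI1) (.n 0 (.n 1 (.n 2 (.n 0 (.l 0) (.l 0)) (.n 0 (.l 0) (.l 0))) (.n 2 (.n 0 (.l 0) (.l 0)) (.n 0 (.l 0) (.l 0)))) (.n 1 (.n 2 (.n 0 (.l 0) (.l 0)) (.n 0 (.l 0) (.l 0))) (.n 2 (.n 0 (.l 0) (.l 0)) (.n 0 (.l 0) (.l 0))))) [(2473901162496, 274877906944), (153813516288, 66035122176), (483754246144, 33453768704)] rfl (by decide +kernel)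
end

mutual
theorem I1AD_7 : CovD 0 [pAD H BI1] [(2473901162496, 274877906944), (153813516288, 66035122176), (550661783552, 33453768704)] :=
  cov_of (fAD H BI1) (.n 0 (.n 1 (.n 2 (.n 0 (.l 0) (.l 0)) (.n 0 (.n 0 (.l 0) (.l 0)) (.n 0 (.l 0) (.l 0)))) (.n 2 (.n 0 (.n 0 (.l 0) (.l 0)) (.l 0)) (.n 0 (.n 1 (.l 0) (.l 0)) (.n 1 (.l 0) (.l 0))))) (.n 1 (.n 2 (.n 0 (.l 0) (.l 0)) (.n 0 (.l 0) (.l 0))) (.n 2 (.n 0 (.l 0) (.l 0)) (.n 0 (.n 1 (.l 0) (.l 0)) (.n 1 (.l 0) (.l 0)))))) [(2473901162496, 274877906944), (153813516288, 66035122176), (550661783552, 33453768704)] rfl (by decide +kernel)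
theorem I1G_0 : CovD 1 [pG H BI1] [(2473901162496, 274877906944), (153813516288, 66035122176), (383392940032, 66907537408)] :=
  cov_of (fG H BI1) (.n 2 (.n 1 (.n 0 (.l 0) (.l 0)) (.n 2 (.l 0) (.n 0 (.l 0) (.l 0)))) (.n 2 (.n 1 (.n 0 (.l 0) (.l 0)) (.n 0 (.l 0) (.l 0))) (.n 0 (.n 0 (.l 0) (.l 0)) (.n 1 (.l 0) (.l 0))))) [(2473901162496, 274877906944), (153813516288, 66035122176), (383392940032, 66907537408)] rfl (by decide +kernel)
end

mutual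
theorem I1G_1 : CovD 1 [pG H BI1] [(2473901162496, 274877906944), (153813516288, 66035122176), (517208014848, 66907537408)] :=
  cov_of (fG H BI1) (.n 2 (.n 2 (.n 0 (.n 0 (.l 0) (.l 0)) (.n 1 (.l 0) (.l 0))) (.n 0 (.n 1 (.l 0) (.l 0)) (.n 1 (.l 0) (.n 0 (.l 0) (.l 0))))) (.n 2 (.n 1 (.n 0 (.l 0) (.n 0 (.l 0) (.l 0))) (.n 0 (.l 0) (.n 0 (.l 0) (.l 0)))) (.n 1 (.n 0 (.l 0) (.n 0 (.l 0) (.l 0))) (.n 0 (.l 0) (.n 0 (.l 0) (.l 0)))))) [(2473901162496, 274877906944), (153813516288, 66035122176), (517208014848, 66907537408)] rfl (by decide +kernel)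
theorem I1RT_2 : CovD 1 [pRT H BI1] [(2473901162496, 274877906944), (153813516288, 66035122176), (333212286976, 16726884352)] :=
  cov_of (fRT H BI1) (.n 1 (.n 2 (.n 0 (.n 0 (.l 0) (.l 0)) (.n 1 (.l 0) (.l 0))) (.n 0 (.n 0 (.l 0) (.l 0)) (.n 1 (.l 0) (.l 0)))) (.n 2 (.n 0 (.l 0) (.n 0 (.l 0) (.l 0))) (.n 0 (.l 0) (.n 0 (.l 0) (.l 0))))) [(2473901162496, 274877906944), (153813516288, 66035122176), (333212286976, 16726884352)] rfl (by decide +kernel)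
end

mutual
theorem I1RT_3 : CovD 1 [pRT H BI1] [(2473901162496, 274877906944), (153813516288, 66035122176), (366666055680, 16726884352)] :=
  cov_of (fRT H BI1) (.n 1 (.n 2 (.n 0 (.n 0 (.l 0) (.l 0)) (.n 0 (.l 0) (.l 0))) (.n 0 (.n 0 (.l 0) (.l 0)) (.n 0 (.l 0) (.l 0)))) (.n 2 (.n 0 (.l 0) (.n 0 (.l 0) (.l 0))) (.n 0 (.l 0) (.n 0 (.l 0) (.l 0))))) [(2473901162496, 274877906944), (153813516288, 66035122176), (366666055680, 16726884352)] rfl (by decide +kernel)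
theorem I1RT_4 : CovD 1 [pRT H BI1] [(2473901162496, 274877906944), (153813516288, 66035122176), (416846708736, 33453768704)] :=
  cov_of (fRT H BI1) (.n 2 (.n 1 (.n 2 (.n 0 (.n 0 (.l 0) (.l 0)) (.n 0 (.l 0) (.l 0))) (.n 0 (.l 0) (.l 0))) (.n 0 (.n 0 (.l 0) (.l 0)) (.n 1 (.l 0) (.l 0)))) (.n 1 (.n 0 (.n 0 (.l 0) (.l 0)) (.n 0 (.l 0) (.l 0))) (.n 0 (.l 0) (.n 0 (.l 0) (.l 0))))) [(2473901162496, 274877906944), (153813516288, 66035122176), (416846708736, 33453768704)] rfl (by decide +kernel)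
end

mutual
theorem I1RT_6 : CovD 1 [pRT H BI1] [(2473901162496, 274877906944), (153813516288, 66035122176), (483754246144, 33453768704)] :=
  cov_of (fRT H BI1) (.n 2 (.n 1 (.n 0 (.n 0 (.l 0) (.l 0)) (.n 0 (.l 0) (.l 0))) (.n 0 (.l 0) (.n 0 (.l 0) (.l 0)))) (.n 0 (.n 1 (.l 0) (.l 0)) (.n 1 (.n 1 (.n 0 (.l 0) (.l 0)) (.l 0)) (.n 1 (.l 0) (.l 0))))) [(2473901162496, 274877906944), (153813516288, 66035122176), (483754246144, 33453768704)] rfl (by decide +kernel)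
theorem I1RT_8 : CovD 1 [pRT H BI1] [(2473901162496, 274877906944), (153813516288, 66035122176), (533934899200, 16726884352)] :=
  cov_of (fRT H BI1) (.n 1 (.n 0 (.l 0) (.n 1 (.n 2 (.l 0) (.n 0 (.l 0) (.l 0))) (.n 2 (.l 0) (.l 0)))) (.n 0 (.n 0 (.l 0) (.l 0)) (.n 1 (.n 2 (.l 0) (.l 0)) (.n 0 (.l 0) (.l 0))))) [(2473901162496, 274877906944), (153813516288, 66035122176), (533934899200, 16726884352)] rfl (by decide +kernel)
end

mutual
theorem I1RT_9 : CovD 1 [pRT H BI1] [(2473901162496, 274877906944), (153813516288, 66035122176), (567388667904, 16726884352)] :=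
  cov_of (fRT H BI1) (.n 1 (.n 0 (.n 1 (.l 0) (.l 0)) (.n 2 (.n 0 (.l 0) (.n 1 (.n 0 (.l 0) (.l 0)) (.l 0))) (.n 1 (.n 0 (.l 0) (.n 1 (.l 0) (.l 0))) (.n 0 (.l 0) (.l 0))))) (.n 0 (.n 2 (.l 0) (.n 1 (.l 0) (.l 0))) (.n 1 (.n 2 (.l 0) (.n 0 (.l 0) (.l 0))) (.n 2 (.l 0) (.n 0 (.l 0) (.l 0)))))) [(2473901162496, 274877906944), (153813516288, 66035122176), (567388667904, 16726884352)] rfl (by decide +kernel)
theorem R0AD : CovD 0 [pAD H BR0] [(2473901162496, 274877906944), (153813516288, 66035122176), (1099511627776, 1099511627776)] :=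
  cov_of (fAD H BR0) (.n 1 (.n 1 (.n 1 (.n 0 (.n 0 (.l 0) (.l 0)) (.n 2 (.l 0) (.l 0))) (.n 0 (.n 2 (.l 0) (.l 0)) (.n 2 (.l 0) (.l 0)))) (.n 0 (.n 1 (.n 2 (.l 0) (.l 0)) (.l 0)) (.n 1 (.l 0) (.l 0)))) (.n 1 (.n 0 (.n 1 (.l 0) (.l 0)) (.n 1 (.l 0) (.l 0))) (.n 0 (.n 0 (.l 0) (.l 0)) (.n 0 (.l 0) (.l 0))))) [(2473901162496, 274877906944), (153813516288, 66035122176), (1099511627776, 1099511627776)] rfl (by decide +kernel)
end

mutual
theorem R0G : CovD 1 [pG H BR0] [(2473901162496, 274877906944), (153813516288, 66035122176), (1099511627776, 1099511627776)] :=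
  cov_of (fG H BR0) (.l 0) [(2473901162496, 274877906944), (153813516288, 66035122176), (1099511627776, 1099511627776)] rfl (by decide +kernel)
theorem R0RT : CovD 1 [pRT H BR0] [(2473901162496, 274877906944), (153813516288, 66035122176), (1099511627776, 1099511627776)] :=
  cov_of (fRT H BR0) (.n 1 (.n 1 (.n 1 (.l 0) (.l 0)) (.n 1 (.l 0) (.l 0))) (.n 1 (.n 2 (.l 0) (.l 0)) (.l 0))) [(2473901162496, 274877906944), (153813516288, 66035122176), (1099511627776, 1099511627776)] rfl (by decide +kernel)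
end

mutual
theorem R0RS : CovD 1 [pRS H BR0] [(2473901162496, 274877906944), (153813516288, 66035122176), (1099511627776, 1099511627776)] :=
  cov_of (fRS H BR0) (.l 0) [(2473901162496, 274877906944), (153813516288, 66035122176), (1099511627776, 1099511627776)] rfl (by decide +kernel)
theorem PAD : CovD 0 [pAD H BP] [(2473901162496, 274877906944), (153813516288, 66035122176), (2199023255552, 0)] :=
  cov_of (fAD H BP) (.n 1 (.n 1 (.n 0 (.n 1 (.n 0 (.l 0) (.l 0)) (.n 0 (.l 0) (.l 0))) (.n 1 (.n 0 (.l 0) (.l 0)) (.n 0 (.l 0) (.l 0)))) (.n 0 (.n 1 (.n 0 (.l 0) (.l 0)) (.n 0 (.l 0) (.l 0))) (.n 1 (.n 0 (.l 0) (.l 0)) (.l 0)))) (.n 1 (.n 0 (.n 0 (.l 0) (.l 0)) (.n 0 (.l 0) (.l 0))) (.n 0 (.n 0 (.l 0) (.l 0)) (.n 0 (.l 0) (.l 0))))) [(2473901162496, 274877906944), (153813516288, 66035122176), (2199023255552, 0)] rfl (by decide +kernel)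
end

mutual
theorem PG : CovD 1 [pG H BP] [(2473901162496, 274877906944), (153813516288, 66035122176), (2199023255552, 0)] :=
  cov_of (fG H BP) (.l 0) [(2473901162496, 274877906944), (153813516288, 66035122176), (2199023255552, 0)] rfl (by decide +kernel)
theorem PRT : CovD 1 [pRT H BP] [(2473901162496, 274877906944), (153813516288, 66035122176), (2199023255552, 0)] :=
  cov_of (fRT H BP) (.n 1 (.n 1 (.l 0) (.l 0)) (.n 1 (.l 0) (.l 0))) [(2473901162496, 274877906944), (153813516288, 66035122176), (2199023255552, 0)] rfl (by decide +kernel)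
end

mutual
theorem PTT_1 : CovD 1 [pTT H BP] [(2473901162496, 274877906944), (104287174656, 16508780544), (2199023255552, 0)] :=
  cov_of (fTT H BP) (.n 0 (.n 1 (.n 1 (.n 1 (.l 0) (.l 0)) (.n 1 (.l 0) (.l 0))) (.n 1 (.n 0 (.l 0) (.l 0)) (.n 0 (.l 0) (.l 0)))) (.n 1 (.n 1 (.n 1 (.l 0) (.l 0)) (.n 1 (.l 0) (.l 0))) (.n 1 (.n 0 (.l 0) (.l 0)) (.n 0 (.l 0) (.l 0))))) [(2473901162496, 274877906944), (104287174656, 16508780544), (2199023255552, 0)] rfl (by decide +kernel)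
theorem PTT_2 : CovD 1 [pTT H BP] [(2473901162496, 274877906944), (137304735744, 16508780544), (2199023255552, 0)] :=
  cov_of (fTT H BP) (.n 0 (.n 1 (.n 1 (.n 0 (.l 0) (.l 0)) (.n 0 (.l 0) (.l 0))) (.n 1 (.n 0 (.l 0) (.l 0)) (.n 0 (.l 0) (.l 0)))) (.n 1 (.n 1 (.n 0 (.l 0) (.l 0)) (.n 0 (.l 0) (.l 0))) (.n 1 (.n 0 (.l 0) (.l 0)) (.n 0 (.l 0) (.l 0))))) [(2473901162496, 274877906944), (137304735744, 16508780544), (2199023255552, 0)] rfl (by decide +kernel)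
end

mutual
theorem PTT_3 : CovD 1 [pTT H BP] [(2473901162496, 274877906944), (186831077376, 33017561088), (2199023255552, 0)] :=
  cov_of (fTT H BP) (.n 0 (.n 1 (.n 1 (.n 1 (.n 0 (.l 0) (.l 0)) (.n 0 (.l 0) (.l 0))) (.n 1 (.n 0 (.l 0) (.l 0)) (.n 0 (.l 0) (.l 0)))) (.n 1 (.n 1 (.n 0 (.l 0) (.l 0)) (.l 0)) (.n 1 (.l 0) (.l 0)))) (.n 1 (.n 1 (.n 1 (.n 0 (.l 0) (.l 0)) (.l 0)) (.n 1 (.l 0) (.l 0))) (.n 1 (.n 1 (.l 0) (.l 0)) (.n 1 (.l 0) (.l 0))))) [(2473901162496, 274877906944), (186831077376, 33017561088), (2199023255552, 0)] rfl (by decide +kernel)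
theorem MAD_0 : CovD 0 [pAD H BM] [(2473901162496, 274877906944), (120795955200, 33017561088), (0, 0)] :=
  cov_of (fAD H BM) (.n 1 (.n 0 (.n 1 (.n 0 (.l 0) (.l 0)) (.n 0 (.l 0) (.l 0))) (.n 1 (.n 0 (.l 0) (.l 0)) (.n 0 (.l 0) (.l 0)))) (.n 0 (.n 1 (.n 0 (.l 0) (.l 0)) (.n 0 (.l 0) (.l 0))) (.n 1 (.n 0 (.l 0) (.l 0)) (.n 0 (.l 0) (.l 0))))) [(2473901162496, 274877906944), (120795955200, 33017561088), (0, 0)] rfl (by decide +kernel)
end

mutual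
theorem MAD_1 : CovD 0 [pAD H BM] [(2473901162496, 274877906944), (186831077376, 33017561088), (0, 0)] :=
  cov_of (fAD H BM) (.n 1 (.n 0 (.n 0 (.n 0 (.l 0) (.l 0)) (.n 0 (.l 0) (.l 0))) (.n 0 (.l 0) (.l 0))) (.n 0 (.n 0 (.l 0) (.l 0)) (.n 0 (.l 0) (.l 0)))) [(2473901162496, 274877906944), (186831077376, 33017561088), (0, 0)] rfl (by decide +kernel)
theorem MG : CovD 1 [pG H BM] [(2473901162496, 274877906944), (153813516288, 66035122176), (0, 0)] :=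
  cov_of (fG H BM) (.l 0) [(2473901162496, 274877906944), (153813516288, 66035122176), (0, 0)] rfl (by decide +kernel)
end

mutual
theorem MRT : CovD 1 [pRT H BM] [(2473901162496, 274877906944), (153813516288, 66035122176), (0, 0)] :=
  cov_of (fRT H BM) (.n 1 (.n 1 (.n 1 (.l 0) (.l 0)) (.l 0)) (.n 1 (.l 0) (.l 0))) [(2473901162496, 274877906944), (153813516288, 66035122176), (0, 0)] rfl (by decide +kernel)
theorem MTT_2 : CovD 1 [pTT H BM] [(2336462209024, 137438953472), (104287174656, 16508780544), (0, 0)] :=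
  cov_of (fTT H BM) (.n 1 (.n 1 (.n 1 (.n 0 (.l 0) (.l 0)) (.n 0 (.l 0) (.l 0))) (.n 1 (.n 0 (.l 0) (.l 0)) (.n 0 (.l 0) (.l 0)))) (.n 1 (.n 1 (.n 0 (.l 0) (.l 0)) (.n 0 (.l 0) (.l 0))) (.n 1 (.n 0 (.l 0) (.l 0)) (.n 0 (.l 0) (.l 0))))) [(2336462209024, 137438953472), (104287174656, 16508780544), (0, 0)] rfl (by decide +kernel)
theorem MTT_3 : CovD 1 [pTT H BM] [(2611340115968, 137438953472), (104287174656, 16508780544), (0, 0)] :=
  cov_of (fTT H BM) (.n 1 (.n 1 (.n 1 (.n 0 (.l 0) (.l 0)) (.n 0 (.l 0) (.l 0))) (.n 1 (.n 0 (.l 0) (.l 0)) (.l 0))) (.n 1 (.n 1 (.l 0) (.l 0)) (.n 1 (.l 0) (.l 0)))) [(2611340115968, 137438953472), (104287174656, 16508780544), (0, 0)] rfl (by decide +kernel)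
end

end Pool.Agent.helper82.WC.S2K1
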