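import Pool.Agent.helper82.WC.S2K1C0
import Pool.Agent.helper82.WC.S2K1C1
import Pool.Agent.helper82.WC.S2K1C2

/-!
Generated certificates, assembled.
-/

namespace Pool.Agent.helper82.WC.S2K1

open Pool.Agent.helper82.WH
open Pool.Agent.helper31.IC (CovD covD_split TD)

theorem I0AD_3 : CovD 0 [pAD H BI0] [(2473901162496, 274877906944), (120795955200, 33017561088), (19780337664, 19780337664)] :=
  covD_split 1 (by decide +kernel) I0AD_4 I0AD_5
theorem I0AD_6 : CovD 0 [pAD H BI0] [(2473901162496, 274877906944), (120795955200, 33017561088), (59341012992, 19780337664)] :=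
  covD_split 1 (by decide +kernel) I0AD_7 I0AD_8
theorem I0AD_2 : CovD 0 [pAD H BI0] [(2473901162496, 274877906944), (120795955200, 33017561088), (39560675328, 39560675328)] :=
  covD_split 2 (by decide +kernel) I0AD_3 I0AD_6
theorem I0AD_9 : CovD 0 [pAD H BI0] [(2473901162496, 274877906944), (186831077376, 33017561088), (39560675328, 39560675328)] :=
  covD_split 2 (by decide +kernel) I0AD_10 I0AD_11
theorem I0AD_1 : CovD 0 [pAD H BI0] [(2473901162496, 274877906944), (153813516288, 66035122176), (39560675328, 39560675328)] :=
  covD_split 1 (by decide +kernel) I0AD_2 I0AD_9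
theorem I0AD_14 : CovD 0 [pAD H BI0] [(2473901162496, 274877906944), (120795955200, 33017561088), (98901688320, 19780337664)] :=
  covD_split 1 (by decide +kernel) I0AD_15 I0AD_16
theorem I0AD_17 : CovD 0 [pAD H BI0] [(2473901162496, 274877906944), (120795955200, 33017561088), (138462363648, 19780337664)] :=
  covD_split 0 (by decide +kernel) I0AD_18 I0AD_19
theorem I0AD_13 : CovD 0 [pAD H BI0] [(2473901162496, 274877906944), (120795955200, 33017561088), (118682025984, 39560675328)] :=
  covD_split 2 (by decide +kernel) I0AD_14 I0AD_17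
theorem I0AD_20 : CovD 0 [pAD H BI0] [(2473901162496, 274877906944), (186831077376, 33017561088), (118682025984, 39560675328)] :=
  covD_split 2 (by decide +kernel) I0AD_21 I0AD_22
theorem I0AD_12 : CovD 0 [pAD H BI0] [(2473901162496, 274877906944), (153813516288, 66035122176), (118682025984, 39560675328)] :=
  covD_split 1 (by decide +kernel) I0AD_13 I0AD_20
theorem I0AD_0 : CovD 0 [pAD H BI0] [(2473901162496, 274877906944), (153813516288, 66035122176), (79121350656, 79121350656)] :=
  covD_split 2 (by decide +kernel) I0AD_1 I0AD_12
theorem I0AD_25 : CovD 0 [pAD H BI0] [(2473901162496, 274877906944), (120795955200, 33017561088), (197803376640, 39560675328)] :=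
  covD_split 2 (by decide +kernel) I0AD_26 I0AD_27
theorem I0AD_28 : CovD 0 [pAD H BI0] [(2473901162496, 274877906944), (186831077376, 33017561088), (197803376640, 39560675328)] :=
  covD_split 2 (by decide +kernel) I0AD_29 I0AD_30
theorem I0AD_24 : CovD 0 [pAD H BI0] [(2473901162496, 274877906944), (153813516288, 66035122176), (197803376640, 39560675328)] :=
  covD_split 1 (by decide +kernel) I0AD_25 I0AD_28
theorem I0AD_31 : CovD 0 [pAD H BI0] [(2473901162496, 274877906944), (153813516288, 66035122176), (276924727296, 39560675328)] :=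
  covD_split 1 (by decide +kernel) I0AD_32 I0AD_33
theorem I0AD_23 : CovD 0 [pAD H BI0] [(2473901162496, 274877906944), (153813516288, 66035122176), (237364051968, 79121350656)] :=
  covD_split 2 (by decide +kernel) I0AD_24 I0AD_31
theorem I0AD : CovD 0 [pAD H BI0] [(2473901162496, 274877906944), (153813516288, 66035122176), (158242701312, 158242701312)] :=
  covD_split 2 (by decide +kernel) I0AD_0 I0AD_23
theorem I0RT_3 : CovD 1 [pRT H BI0] [(2473901162496, 274877906944), (120795955200, 33017561088), (19780337664, 19780337664)] :=
  covD_split 2 (by decide +kernel) I0RT_4 I0RT_5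
theorem I0RT_2 : CovD 1 [pRT H BI0] [(2473901162496, 274877906944), (153813516288, 66035122176), (19780337664, 19780337664)] :=
  covD_split 1 (by decide +kernel) I0RT_3 I0RT_6
theorem I0RT_8 : CovD 1 [pRT H BI0] [(2473901162496, 274877906944), (120795955200, 33017561088), (59341012992, 19780337664)] :=
  covD_split 2 (by decide +kernel) I0RT_9 I0RT_10
theorem I0RT_7 : CovD 1 [pRT H BI0] [(2473901162496, 274877906944), (153813516288, 66035122176), (59341012992, 19780337664)] :=
  covD_split 1 (by decide +kernel) I0RT_8 I0RT_11
theorem I0RT_1 : CovD 1 [pRT H BI0] [(2473901162496, 274877906944), (153813516288, 66035122176), (39560675328, 39560675328)] :=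
  covD_split 2 (by decide +kernel) I0RT_2 I0RT_7
theorem I0RT_14 : CovD 1 [pRT H BI0] [(2473901162496, 274877906944), (120795955200, 33017561088), (98901688320, 19780337664)] :=
  covD_split 2 (by decide +kernel) I0RT_15 I0RT_16
theorem I0RT_13 : CovD 1 [pRT H BI0] [(2473901162496, 274877906944), (153813516288, 66035122176), (98901688320, 19780337664)] :=
  covD_split 1 (by decide +kernel) I0RT_14 I0RT_17
theorem I0RT_18 : CovD 1 [pRT H BI0] [(2473901162496, 274877906944), (153813516288, 66035122176), (138462363648, 19780337664)] :=
  covD_split 1 (by decide +kernel) I0RT_19 I0RT_20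
theorem I0RT_12 : CovD 1 [pRT H BI0] [(2473901162496, 274877906944), (153813516288, 66035122176), (118682025984, 39560675328)] :=
  covD_split 2 (by decide +kernel) I0RT_13 I0RT_18
theorem I0RT_0 : CovD 1 [pRT H BI0] [(2473901162496, 274877906944), (153813516288, 66035122176), (79121350656, 79121350656)] :=
  covD_split 2 (by decide +kernel) I0RT_1 I0RT_12
theorem I0RT_22 : CovD 1 [pRT H BI0] [(2473901162496, 274877906944), (153813516288, 66035122176), (197803376640, 39560675328)] :=
  covD_split 2 (by decide +kernel) I0RT_23 I0RT_24
theorem I0RT_25 : CovD 1 [pRT H BI0] [(2473901162496, 274877906944), (153813516288, 66035122176), (276924727296, 39560675328)] :=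
  covD_split 2 (by decide +kernel) I0RT_26 I0RT_27
theorem I0RT_21 : CovD 1 [pRT H BI0] [(2473901162496, 274877906944), (153813516288, 66035122176), (237364051968, 79121350656)] :=
  covD_split 2 (by decide +kernel) I0RT_22 I0RT_25
theorem I0RT : CovD 1 [pRT H BI0] [(2473901162496, 274877906944), (153813516288, 66035122176), (158242701312, 158242701312)] :=
  covD_split 2 (by decide +kernel) I0RT_0 I0RT_21
theorem I1AD_1 : CovD 0 [pAD H BI1] [(2473901162496, 274877906944), (153813516288, 66035122176), (349939171328, 33453768704)] :=
  covD_split 0 (by decide +kernel) I1AD_2 I1AD_3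
theorem I1AD_0 : CovD 0 [pAD H BI1] [(2473901162496, 274877906944), (153813516288, 66035122176), (383392940032, 66907537408)] :=
  covD_split 2 (by decide +kernel) I1AD_1 I1AD_4
theorem I1AD_5 : CovD 0 [pAD H BI1] [(2473901162496, 274877906944), (153813516288, 66035122176), (517208014848, 66907537408)] :=
  covD_split 2 (by decide +kernel) I1AD_6 I1AD_7
theorem I1AD : CovD 0 [pAD H BI1] [(2473901162496, 274877906944), (153813516288, 66035122176), (450300477440, 133815074816)] :=
  covD_split 2 (by decide +kernel) I1AD_0 I1AD_5
theorem I1G : CovD 1 [pG H BI1] [(2473901162496, 274877906944), (153813516288, 66035122176), (450300477440, 133815074816)] :=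
  covD_split 2 (by decide +kernel) I1G_0 I1G_1
theorem I1RT_1 : CovD 1 [pRT H BI1] [(2473901162496, 274877906944), (153813516288, 66035122176), (349939171328, 33453768704)] :=
  covD_split 2 (by decide +kernel) I1RT_2 I1RT_3
theorem I1RT_0 : CovD 1 [pRT H BI1] [(2473901162496, 274877906944), (153813516288, 66035122176), (383392940032, 66907537408)] :=
  covD_split 2 (by decide +kernel) I1RT_1 I1RT_4
theorem I1RT_7 : CovD 1 [pRT H BI1] [(2473901162496, 274877906944), (153813516288, 66035122176), (550661783552, 33453768704)] :=
  covD_split 2 (by decide +kernel) I1RT_8 I1RT_9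
theorem I1RT_5 : CovD 1 [pRT H BI1] [(2473901162496, 274877906944), (153813516288, 66035122176), (517208014848, 66907537408)] :=
  covD_split 2 (by decide +kernel) I1RT_6 I1RT_7
theorem I1RT : CovD 1 [pRT H BI1] [(2473901162496, 274877906944), (153813516288, 66035122176), (450300477440, 133815074816)] :=
  covD_split 2 (by decide +kernel) I1RT_0 I1RT_5
theorem PTT_0 : CovD 1 [pTT H BP] [(2473901162496, 274877906944), (120795955200, 33017561088), (2199023255552, 0)] :=
  covD_split 1 (by decide +kernel) PTT_1 PTT_2
theorem PTT : CovD 1 [pTT H BP] [(2473901162496, 274877906944), (153813516288, 66035122176), (2199023255552, 0)] :=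
  covD_split 1 (by decide +kernel) PTT_0 PTT_3
theorem MAD : CovD 0 [pAD H BM] [(2473901162496, 274877906944), (153813516288, 66035122176), (0, 0)] :=
  covD_split 1 (by decide +kernel) MAD_0 MAD_1
theorem MTT_1 : CovD 1 [pTT H BM] [(2473901162496, 274877906944), (104287174656, 16508780544), (0, 0)] :=
  covD_split 0 (by decide +kernel) MTT_2 MTT_3
theorem MTT_0 : CovD 1 [pTT H BM] [(2473901162496, 274877906944), (120795955200, 33017561088), (0, 0)] :=
  covD_split 1 (by decide +kernel) MTT_1 MTT_4
theorem MTT_5 : CovD 1 [pTT H BM] [(2473901162496, 274877906944), (186831077376, 33017561088), (0, 0)] :=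
  covD_split 0 (by decide +kernel) MTT_6 MTT_7
theorem MTT : CovD 1 [pTT H BM] [(2473901162496, 274877906944), (153813516288, 66035122176), (0, 0)] :=
  covD_split 1 (by decide +kernel) MTT_0 MTT_5

end Pool.Agent.helper82.WC.S2K1
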