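import Pool.Agent.helper82.WC.S2K1P

/-!
Generated certificates (in pairs, so that they are checked one after the other).
-/

namespace Pool.Agent.helper82.WC.S2K1

open Pool.Agent.helper82.WH
open Pool.Agent.helper31.IC (CovD covD_split TD)

mutual
theorem I0AD_4 : CovD 0 [pAD H BI0] [(2473901162496, 274877906944), (104287174656, 16508780544), (19780337664, 19780337664)] :=
  cov_of (fAD H BI0) (.n 0 (.n 2 (.n 0 (.n 1 (.n 0 (.l 0) (.l 0)) (.l 0)) (.n 1 (.n 0 (.l 0) (.l 0)) (.l 0))) (.n 0 (.n 1 (.n 0 (.l 0) (.l 0)) (.l 0)) (.n 1 (.n 0 (.l 0) (.l 0)) (.l 0)))) (.n 2 (.n 0 (.n 1 (.n 0 (.l 0) (.l 0)) (.l 0)) (.n 1 (.n 0 (.l 0) (.l 0)) (.l 0))) (.n 0 (.n 1 (.n 0 (.l 0) (.l 0)) (.l 0)) (.n 1 (.n 0 (.l 0) (.l 0)) (.l 0))))) [(2473901162496, 274877906944), (104287174656, 16508780544), (19780337664, 19780337664)] rfl (by decide +kernel)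
theorem I0AD_5 : CovD 0 [pAD H BI0] [(2473901162496, 274877906944), (137304735744, 16508780544), (19780337664, 19780337664)] :=
  cov_of (fAD H BI0) (.n 0 (.n 2 (.n 0 (.n 0 (.l 0) (.l 0)) (.n 0 (.l 0) (.l 0))) (.n 0 (.n 0 (.l 0) (.l 0)) (.n 0 (.l 0) (.l 0)))) (.n 2 (.n 0 (.n 0 (.l 0) (.l 0)) (.n 0 (.l 0) (.l 0))) (.n 0 (.n 0 (.l 0) (.l 0)) (.n 0 (.l 0) (.l 0))))) [(2473901162496, 274877906944), (137304735744, 16508780544), (19780337664, 19780337664)] rfl (by decide +kernel)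
end

mutual
theorem I0AD_7 : CovD 0 [pAD H BI0] [(2473901162496, 274877906944), (104287174656, 16508780544), (59341012992, 19780337664)] :=
  cov_of (fAD H BI0) (.n 2 (.n 0 (.n 0 (.n 1 (.n 0 (.l 0) (.l 0)) (.l 0)) (.n 1 (.n 0 (.l 0) (.l 0)) (.l 0))) (.n 0 (.n 1 (.n 0 (.l 0) (.l 0)) (.l 0)) (.n 1 (.n 0 (.l 0) (.l 0)) (.l 0)))) (.n 0 (.n 0 (.n 1 (.n 0 (.l 0) (.l 0)) (.l 0)) (.n 1 (.n 0 (.l 0) (.l 0)) (.l 0))) (.n 0 (.n 1 (.n 0 (.l 0) (.l 0)) (.l 0)) (.n 1 (.n 0 (.l 0) (.l 0)) (.l 0))))) [(2473901162496, 274877906944), (104287174656, 16508780544), (59341012992, 19780337664)] rfl (by decide +kernel)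
theorem I0AD_8 : CovD 0 [pAD H BI0] [(2473901162496, 274877906944), (137304735744, 16508780544), (59341012992, 19780337664)] :=
  cov_of (fAD H BI0) (.n 0 (.n 2 (.n 0 (.n 0 (.l 0) (.l 0)) (.n 0 (.l 0) (.l 0))) (.n 0 (.n 0 (.l 0) (.l 0)) (.n 0 (.l 0) (.l 0)))) (.n 2 (.n 0 (.n 0 (.l 0) (.l 0)) (.n 0 (.l 0) (.l 0))) (.n 0 (.n 0 (.l 0) (.l 0)) (.n 0 (.l 0) (.l 0))))) [(2473901162496, 274877906944), (137304735744, 16508780544), (59341012992, 19780337664)] rfl (by decide +kernel)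
end

mutual
theorem I0AD_10 : CovD 0 [pAD H BI0] [(2473901162496, 274877906944), (186831077376, 33017561088), (19780337664, 19780337664)] :=
  cov_of (fAD H BI0) (.n 0 (.n 1 (.n 0 (.n 2 (.l 0) (.l 0)) (.n 2 (.l 0) (.l 0))) (.n 0 (.n 2 (.l 0) (.l 0)) (.n 2 (.l 0) (.l 0)))) (.n 1 (.n 2 (.n 0 (.l 0) (.l 0)) (.n 0 (.l 0) (.l 0))) (.n 2 (.n 0 (.l 0) (.l 0)) (.n 0 (.l 0) (.l 0))))) [(2473901162496, 274877906944), (186831077376, 33017561088), (19780337664, 19780337664)] rfl (by decide +kernel)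
theorem I0AD_11 : CovD 0 [pAD H BI0] [(2473901162496, 274877906944), (186831077376, 33017561088), (59341012992, 19780337664)] :=
  cov_of (fAD H BI0) (.n 1 (.n 0 (.n 2 (.n 0 (.n 0 (.l 0) (.l 0)) (.n 0 (.l 0) (.l 0))) (.n 0 (.n 0 (.l 0) (.l 0)) (.l 0))) (.n 2 (.n 0 (.n 0 (.l 0) (.l 0)) (.n 0 (.l 0) (.l 0))) (.n 0 (.l 0) (.n 0 (.l 0) (.l 0))))) (.n 0 (.n 0 (.n 2 (.l 0) (.l 0)) (.n 2 (.l 0) (.l 0))) (.n 2 (.n 0 (.l 0) (.l 0)) (.n 0 (.l 0) (.l 0))))) [(2473901162496, 274877906944), (186831077376, 33017561088), (59341012992, 19780337664)] rfl (by decide +kernel)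
end

mutual
theorem I0AD_15 : CovD 0 [pAD H BI0] [(2473901162496, 274877906944), (104287174656, 16508780544), (98901688320, 19780337664)] :=
  cov_of (fAD H BI0) (.n 0 (.n 2 (.n 0 (.n 1 (.l 0) (.l 0)) (.n 1 (.l 0) (.l 0))) (.n 0 (.n 0 (.l 0) (.l 0)) (.n 0 (.l 0) (.l 0)))) (.n 2 (.n 0 (.n 1 (.l 0) (.l 0)) (.n 1 (.l 0) (.l 0))) (.n 0 (.n 0 (.l 0) (.l 0)) (.n 0 (.l 0) (.l 0))))) [(2473901162496, 274877906944), (104287174656, 16508780544), (98901688320, 19780337664)] rfl (by decide +kernel)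
theorem I0AD_16 : CovD 0 [pAD H BI0] [(2473901162496, 274877906944), (137304735744, 16508780544), (98901688320, 19780337664)] :=
  cov_of (fAD H BI0) (.n 0 (.n 2 (.n 0 (.n 0 (.l 0) (.l 0)) (.n 0 (.l 0) (.l 0))) (.n 0 (.n 0 (.l 0) (.l 0)) (.n 0 (.l 0) (.l 0)))) (.n 2 (.n 0 (.n 0 (.l 0) (.l 0)) (.n 0 (.l 0) (.l 0))) (.n 0 (.n 0 (.l 0) (.l 0)) (.n 0 (.l 0) (.l 0))))) [(2473901162496, 274877906944), (137304735744, 16508780544), (98901688320, 19780337664)] rfl (by decide +kernel)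
end

mutual
theorem I0AD_18 : CovD 0 [pAD H BI0] [(2336462209024, 137438953472), (120795955200, 33017561088), (138462363648, 19780337664)] :=
  cov_of (fAD H BI0) (.n 1 (.n 2 (.n 0 (.n 0 (.l 0) (.l 0)) (.n 0 (.l 0) (.l 0))) (.n 0 (.n 0 (.l 0) (.l 0)) (.n 0 (.l 0) (.l 0)))) (.n 0 (.n 2 (.n 0 (.l 0) (.l 0)) (.l 0)) (.n 2 (.n 0 (.l 0) (.l 0)) (.l 0)))) [(2336462209024, 137438953472), (120795955200, 33017561088), (138462363648, 19780337664)] rfl (by decide +kernel)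
theorem I0AD_19 : CovD 0 [pAD H BI0] [(2611340115968, 137438953472), (120795955200, 33017561088), (138462363648, 19780337664)] :=
  cov_of (fAD H BI0) (.n 1 (.n 2 (.n 0 (.n 0 (.l 0) (.l 0)) (.n 0 (.l 0) (.l 0))) (.n 0 (.n 0 (.l 0) (.l 0)) (.n 0 (.l 0) (.l 0)))) (.n 2 (.n 0 (.n 0 (.l 0) (.l 0)) (.n 0 (.l 0) (.l 0))) (.n 0 (.l 0) (.l 0)))) [(2611340115968, 137438953472), (120795955200, 33017561088), (138462363648, 19780337664)] rfl (by decide +kernel)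
end

mutual
theorem I0AD_21 : CovD 0 [pAD H BI0] [(2473901162496, 274877906944), (186831077376, 33017561088), (98901688320, 19780337664)] :=
  cov_of (fAD H BI0) (.n 1 (.n 0 (.n 0 (.n 2 (.l 0) (.l 0)) (.n 2 (.l 0) (.l 0))) (.n 2 (.n 0 (.l 0) (.l 0)) (.n 0 (.l 0) (.l 0)))) (.n 0 (.n 0 (.n 2 (.l 0) (.l 0)) (.n 2 (.l 0) (.l 0))) (.n 2 (.n 0 (.l 0) (.l 0)) (.n 0 (.l 0) (.l 0))))) [(2473901162496, 274877906944), (186831077376, 33017561088), (98901688320, 19780337664)] rfl (by decide +kernel)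
theorem I0AD_22 : CovD 0 [pAD H BI0] [(2473901162496, 274877906944), (186831077376, 33017561088), (138462363648, 19780337664)] :=
  cov_of (fAD H BI0) (.n 0 (.n 1 (.n 0 (.n 2 (.l 0) (.l 0)) (.n 2 (.l 0) (.l 0))) (.n 0 (.n 0 (.l 0) (.l 0)) (.n 2 (.l 0) (.l 0)))) (.n 1 (.n 2 (.n 0 (.l 0) (.l 0)) (.n 0 (.l 0) (.l 0))) (.n 0 (.n 2 (.l 0) (.l 0)) (.n 2 (.l 0) (.l 0))))) [(2473901162496, 274877906944), (186831077376, 33017561088), (138462363648, 19780337664)] rfl (by decide +kernel)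
end

mutual
theorem I0AD_26 : CovD 0 [pAD H BI0] [(2473901162496, 274877906944), (120795955200, 33017561088), (178023038976, 19780337664)] :=
  cov_of (fAD H BI0) (.n 0 (.n 1 (.n 0 (.n 2 (.l 0) (.l 0)) (.n 2 (.l 0) (.l 0))) (.n 0 (.n 2 (.l 0) (.l 0)) (.n 2 (.l 0) (.l 0)))) (.n 1 (.n 2 (.n 0 (.l 0) (.l 0)) (.n 0 (.l 0) (.l 0))) (.n 2 (.n 0 (.l 0) (.l 0)) (.n 0 (.l 0) (.l 0))))) [(2473901162496, 274877906944), (120795955200, 33017561088), (178023038976, 19780337664)] rfl (by decide +kernel)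
theorem I0AD_27 : CovD 0 [pAD H BI0] [(2473901162496, 274877906944), (120795955200, 33017561088), (217583714304, 19780337664)] :=
  cov_of (fAD H BI0) (.n 0 (.n 1 (.n 0 (.n 0 (.l 0) (.l 0)) (.n 0 (.l 0) (.l 0))) (.n 0 (.n 0 (.l 0) (.l 0)) (.n 0 (.l 0) (.l 0)))) (.n 1 (.n 0 (.n 2 (.l 0) (.l 0)) (.n 2 (.l 0) (.l 0))) (.n 0 (.n 0 (.l 0) (.l 0)) (.n 0 (.l 0) (.l 0))))) [(2473901162496, 274877906944), (120795955200, 33017561088), (217583714304, 19780337664)] rfl (by decide +kernel)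
end

mutual
theorem I0AD_29 : CovD 0 [pAD H BI0] [(2473901162496, 274877906944), (186831077376, 33017561088), (178023038976, 19780337664)] :=
  cov_of (fAD H BI0) (.n 0 (.n 1 (.n 0 (.n 0 (.l 0) (.l 0)) (.n 2 (.l 0) (.l 0))) (.n 0 (.n 0 (.l 0) (.l 0)) (.n 0 (.l 0) (.l 0)))) (.n 1 (.n 0 (.n 2 (.l 0) (.l 0)) (.n 2 (.l 0) (.l 0))) (.n 0 (.n 0 (.l 0) (.l 0)) (.n 0 (.l 0) (.l 0))))) [(2473901162496, 274877906944), (186831077376, 33017561088), (178023038976, 19780337664)] rfl (by decide +kernel)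
theorem I0AD_30 : CovD 0 [pAD H BI0] [(2473901162496, 274877906944), (186831077376, 33017561088), (217583714304, 19780337664)] :=
  cov_of (fAD H BI0) (.n 0 (.n 1 (.n 0 (.n 0 (.l 0) (.l 0)) (.n 0 (.l 0) (.l 0))) (.n 0 (.n 0 (.l 0) (.l 0)) (.n 0 (.l 0) (.l 0)))) (.n 1 (.n 0 (.n 0 (.l 0) (.l 0)) (.n 0 (.l 0) (.l 0))) (.n 0 (.n 0 (.l 0) (.l 0)) (.n 0 (.l 0) (.l 0))))) [(2473901162496, 274877906944), (186831077376, 33017561088), (217583714304, 19780337664)] rfl (by decide +kernel)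
end

mutual
theorem I0AD_32 : CovD 0 [pAD H BI0] [(2473901162496, 274877906944), (120795955200, 33017561088), (276924727296, 39560675328)] :=
  cov_of (fAD H BI0) (.n 0 (.n 2 (.n 0 (.n 1 (.n 0 (.l 0) (.l 0)) (.n 0 (.l 0) (.l 0))) (.n 1 (.n 0 (.l 0) (.l 0)) (.n 0 (.l 0) (.l 0)))) (.n 0 (.n 1 (.l 0) (.l 0)) (.n 1 (.l 0) (.l 0)))) (.n 2 (.n 1 (.n 0 (.n 0 (.l 0) (.l 0)) (.n 0 (.l 0) (.l 0))) (.n 0 (.n 0 (.l 0) (.l 0)) (.n 0 (.l 0) (.l 0)))) (.n 1 (.n 0 (.l 0) (.l 0)) (.n 0 (.l 0) (.l 0))))) [(2473901162496, 274877906944), (120795955200, 33017561088), (276924727296, 39560675328)] rfl (by decide +kernel)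
theorem I0AD_33 : CovD 0 [pAD H BI0] [(2473901162496, 274877906944), (186831077376, 33017561088), (276924727296, 39560675328)] :=
  cov_of (fAD H BI0) (.n 0 (.n 2 (.n 1 (.n 0 (.l 0) (.l 0)) (.n 0 (.l 0) (.l 0))) (.n 0 (.n 1 (.l 0) (.l 0)) (.n 1 (.l 0) (.l 0)))) (.n 2 (.n 1 (.n 0 (.n 0 (.l 0) (.l 0)) (.n 0 (.l 0) (.l 0))) (.n 0 (.l 0) (.l 0))) (.n 1 (.n 0 (.l 0) (.l 0)) (.n 0 (.l 0) (.l 0))))) [(2473901162496, 274877906944), (186831077376, 33017561088), (276924727296, 39560675328)] rfl (by decide +kernel)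
end

mutual
theorem I0G : CovD 1 [pG H BI0] [(2473901162496, 274877906944), (153813516288, 66035122176), (158242701312, 158242701312)] :=
  cov_of (fG H BI0) (.n 2 (.n 2 (.l 0) (.n 0 (.l 0) (.l 0))) (.n 2 (.n 1 (.l 0) (.n 2 (.l 0) (.l 0))) (.n 1 (.n 2 (.l 0) (.n 0 (.l 0) (.l 0))) (.n 2 (.n 0 (.l 0) (.l 0)) (.n 0 (.n 0 (.l 0) (.l 0)) (.n 1 (.l 0) (.n 0 (.l 0) (.l 0)))))))) [(2473901162496, 274877906944), (153813516288, 66035122176), (158242701312, 158242701312)] rfl (by decide +kernel)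
theorem I0RT_4 : CovD 1 [pRT H BI0] [(2473901162496, 274877906944), (120795955200, 33017561088), (9890168832, 9890168832)] :=
  cov_of (fRT H BI0) (.n 1 (.n 2 (.n 2 (.n 1 (.n 2 (.l 0) (.l 0)) (.n 1 (.l 0) (.l 0))) (.n 1 (.n 2 (.l 0) (.l 0)) (.n 1 (.l 0) (.l 0)))) (.n 2 (.n 1 (.n 2 (.l 0) (.l 0)) (.n 1 (.l 0) (.l 0))) (.n 1 (.n 2 (.l 0) (.l 0)) (.n 1 (.l 0) (.l 0))))) (.n 2 (.n 2 (.n 1 (.l 0) (.l 0)) (.n 1 (.l 0) (.l 0))) (.n 2 (.n 1 (.l 0) (.l 0)) (.n 1 (.l 0) (.l 0))))) [(2473901162496, 274877906944), (120795955200, 33017561088), (9890168832, 9890168832)] rfl (by decide +kernel)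
end

mutual
theorem I0RT_5 : CovD 1 [pRT H BI0] [(2473901162496, 274877906944), (120795955200, 33017561088), (29670506496, 9890168832)] :=
  cov_of (fRT H BI0) (.n 1 (.n 2 (.n 1 (.n 2 (.n 2 (.l 0) (.l 0)) (.n 2 (.l 0) (.l 0))) (.n 2 (.n 1 (.l 0) (.l 0)) (.n 1 (.l 0) (.l 0)))) (.n 1 (.n 2 (.n 2 (.l 0) (.l 0)) (.n 2 (.l 0) (.l 0))) (.n 2 (.n 1 (.l 0) (.l 0)) (.n 1 (.l 0) (.l 0))))) (.n 2 (.n 2 (.n 1 (.l 0) (.l 0)) (.n 1 (.l 0) (.l 0))) (.n 2 (.n 1 (.l 0) (.l 0)) (.n 1 (.l 0) (.l 0))))) [(2473901162496, 274877906944), (120795955200, 33017561088), (29670506496, 9890168832)] rfl (by decide +kernel)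
theorem I0RT_6 : CovD 1 [pRT H BI0] [(2473901162496, 274877906944), (186831077376, 33017561088), (19780337664, 19780337664)] :=
  cov_of (fRT H BI0) (.n 2 (.n 1 (.n 2 (.n 1 (.l 0) (.l 0)) (.n 1 (.l 0) (.l 0))) (.n 2 (.l 0) (.l 0))) (.n 1 (.n 2 (.n 1 (.l 0) (.l 0)) (.n 1 (.l 0) (.l 0))) (.n 2 (.l 0) (.l 0)))) [(2473901162496, 274877906944), (186831077376, 33017561088), (19780337664, 19780337664)] rfl (by decide +kernel)
end

mutual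
theorem I0RT_9 : CovD 1 [pRT H BI0] [(2473901162496, 274877906944), (120795955200, 33017561088), (49450844160, 9890168832)] :=
  cov_of (fRT H BI0) (.n 1 (.n 2 (.n 2 (.n 1 (.n 2 (.l 0) (.l 0)) (.n 0 (.l 0) (.l 0))) (.n 1 (.n 2 (.l 0) (.l 0)) (.n 0 (.l 0) (.l 0)))) (.n 2 (.n 1 (.n 2 (.l 0) (.l 0)) (.n 0 (.l 0) (.l 0))) (.n 1 (.n 2 (.l 0) (.l 0)) (.n 0 (.l 0) (.l 0))))) (.n 2 (.n 2 (.n 1 (.l 0) (.l 0)) (.n 1 (.l 0) (.l 0))) (.n 2 (.n 1 (.l 0) (.l 0)) (.n 1 (.l 0) (.l 0))))) [(2473901162496, 274877906944), (120795955200, 33017561088), (49450844160, 9890168832)] rfl (by decide +kernel)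
theorem I0RT_10 : CovD 1 [pRT H BI0] [(2473901162496, 274877906944), (120795955200, 33017561088), (69231181824, 9890168832)] :=
  cov_of (fRT H BI0) (.n 1 (.n 2 (.n 2 (.n 1 (.n 2 (.l 0) (.l 0)) (.l 0)) (.n 1 (.n 2 (.l 0) (.l 0)) (.l 0))) (.n 2 (.n 1 (.n 0 (.l 0) (.l 0)) (.l 0)) (.n 1 (.n 0 (.l 0) (.l 0)) (.l 0)))) (.n 2 (.n 2 (.n 0 (.l 0) (.l 0)) (.n 0 (.l 0) (.l 0))) (.n 2 (.n 0 (.l 0) (.l 0)) (.n 0 (.l 0) (.l 0))))) [(2473901162496, 274877906944), (120795955200, 33017561088), (69231181824, 9890168832)] rfl (by decide +kernel)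
end

mutual
theorem I0RT_11 : CovD 1 [pRT H BI0] [(2473901162496, 274877906944), (186831077376, 33017561088), (59341012992, 19780337664)] :=
  cov_of (fRT H BI0) (.n 2 (.n 1 (.n 2 (.n 1 (.l 0) (.l 0)) (.n 1 (.l 0) (.l 0))) (.n 2 (.l 0) (.l 0))) (.n 1 (.n 2 (.n 1 (.l 0) (.l 0)) (.n 1 (.l 0) (.l 0))) (.n 2 (.l 0) (.l 0)))) [(2473901162496, 274877906944), (186831077376, 33017561088), (59341012992, 19780337664)] rfl (by decide +kernel)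
theorem I0RT_15 : CovD 1 [pRT H BI0] [(2473901162496, 274877906944), (120795955200, 33017561088), (89011519488, 9890168832)] :=
  cov_of (fRT H BI0) (.n 1 (.n 2 (.n 2 (.n 1 (.n 0 (.l 0) (.l 0)) (.l 0)) (.n 1 (.l 0) (.l 0))) (.n 2 (.n 1 (.l 0) (.l 0)) (.n 1 (.l 0) (.l 0)))) (.n 2 (.n 2 (.n 0 (.l 0) (.l 0)) (.n 0 (.l 0) (.l 0))) (.n 2 (.l 0) (.l 0)))) [(2473901162496, 274877906944), (120795955200, 33017561088), (89011519488, 9890168832)] rfl (by decide +kernel)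
end

mutual
theorem I0RT_16 : CovD 1 [pRT H BI0] [(2473901162496, 274877906944), (120795955200, 33017561088), (108791857152, 9890168832)] :=
  cov_of (fRT H BI0) (.n 1 (.n 2 (.n 2 (.n 0 (.l 0) (.l 0)) (.n 0 (.l 0) (.l 0))) (.n 2 (.n 0 (.l 0) (.l 0)) (.l 0))) (.n 2 (.n 2 (.l 0) (.l 0)) (.n 2 (.l 0) (.l 0)))) [(2473901162496, 274877906944), (120795955200, 33017561088), (108791857152, 9890168832)] rfl (by decide +kernel)
theorem I0RT_17 : CovD 1 [pRT H BI0] [(2473901162496, 274877906944), (186831077376, 33017561088), (98901688320, 19780337664)] :=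
  cov_of (fRT H BI0) (.n 2 (.n 1 (.n 2 (.n 1 (.l 0) (.l 0)) (.n 0 (.l 0) (.l 0))) (.n 2 (.l 0) (.l 0))) (.n 1 (.n 2 (.n 0 (.l 0) (.l 0)) (.n 0 (.l 0) (.l 0))) (.n 2 (.l 0) (.l 0)))) [(2473901162496, 274877906944), (186831077376, 33017561088), (98901688320, 19780337664)] rfl (by decide +kernel)
end

end Pool.Agent.helper82.WC.S2K1
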