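import Pool.Agent.helper82.WH.Chks

/-!
Generated: constants of a cell.
-/

namespace Pool.Agent.helper82.WC.S2K1

open Pool.Agent.helper82.WH
open Pool.Agent.helper31.IC (CovD covD_split TD)

def H : HC := ⟨⟨2473901162496, 0⟩, ⟨21517369344, 0⟩, ⟨0, 437822226432⟩, ⟨0, 561606885376⟩, ⟨665047728128, 0⟩, ⟨0, 1687921885184⟩, ⟨238458503168, 0⟩, ⟨602929823744, 0⟩, ⟨2236677292032, 0⟩, ⟨0, 5351962116096⟩, ⟨554992140288, 0⟩, ⟨0, 15299641344⟩, ⟨399473442816, 0⟩, ⟨730270597120, 0⟩, ⟨700286959616, 0⟩, ⟨0, 326254919680⟩, ⟨0, 829269409792⟩, ⟨0, 1029969936384⟩, ⟨465991106560, 0⟩, ⟨0, 298570547200⟩, ⟨1194861985792, 0⟩, ⟨780036079616, 0⟩, ⟨5440012288, 0⟩, ⟨0, 67876225024⟩, ⟨2421976662016, 0⟩, ⟨0, 35462113984512⟩, ⟨0, 0⟩⟩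

def BI0 : BC := ⟨⟨0, 0, 1099511627776, 0⟩, ⟨0, 0⟩, ⟨0, 0⟩, 224056967168, 65294434304, 84015316992, 714822189056, 204782960640, 12868124672, 1171334889472, 1304764088320, ⟨13125420056576, 0⟩, ⟨0, 4544075399168⟩, ⟨868613554176, 0⟩, ⟨0, 0⟩, ⟨0, 0⟩⟩

def BI1 : BC := ⟨⟨0, 0, 1099511627776, 0⟩, ⟨0, 0⟩, ⟨0, 0⟩, 190342496256, 53927870464, 184656855040, 652874285056, 204782960640, 25585254400, 1051948220416, 1203597475840, ⟨4655744548864, 0⟩, ⟨0, 3822520893440⟩, ⟨900984143872, 0⟩, ⟨0, 0⟩, ⟨0, 0⟩⟩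

def BR0 : BC := ⟨⟨0, 0, 0, 0⟩, ⟨137438953472, 0⟩, ⟨1099511627776, 0⟩, 273345740800, 83340099584, 66772598784, 668746121216, 204782960640, 4982833152, 1173901803520, 1306425032704, ⟨0, 0⟩, ⟨0, 0⟩, ⟨819416793088, 0⟩, ⟨0, 0⟩, ⟨0, 0⟩⟩

def BP : BC := ⟨⟨0, 0, 0, 0⟩, ⟨137438953472, 0⟩, ⟨1099511627776, 0⟩, 107622563840, 38857015296, 80845864960, 559064547328, 204782960640, 4496293888, 1170328256512, 1304529207296, ⟨0, 0⟩, ⟨0, 0⟩, ⟨624487628800, 0⟩, ⟨0, 0⟩, ⟨1099511627776, 0⟩⟩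

def BM : BC := ⟨⟨0, 0, 0, 0⟩, ⟨137438953472, 0⟩, ⟨1099511627776, 0⟩, 85859696640, 33490468864, 65867939840, 595822116864, 204782960640, 4982833152, 1173901803520, 1306425032704, ⟨0, 0⟩, ⟨0, 0⟩, ⟨651060183040, 0⟩, ⟨0, 0⟩, ⟨0, 1099511627776⟩⟩

def BT : BC := ⟨⟨0, 0, 1099511627776, 0⟩, ⟨0, 0⟩, ⟨0, 0⟩, 113647091712, 31928745984, 143558180864, 559398060032, 204782960640, 25585254400, 918737125376, 1056142524416, ⟨2821793513472, 0⟩, ⟨0, 3221225472000⟩, ⟨671039553536, 0⟩, ⟨1099511627776, 0⟩, ⟨0, 0⟩⟩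

end Pool.Agent.helper82.WC.S2K1
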