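import Pool.Agent.helper82.WC.S2K2C0

/-!
Generated certificates, assembled.
-/

namespace Pool.Agent.helper82.WC.S2K2

open Pool.Agent.helper82.WH
open Pool.Agent.helper31.IC (CovD covD_split TD)

theorem I0AD_1 : CovD 0 [pAD H BI0] [(2473901162496, 274877906944), (263872053248, 44023414784), (50197430272, 50197430272)] :=
  covD_split 2 (by decide +kernel) I0AD_2 I0AD_3
theorem I0AD_4 : CovD 0 [pAD H BI0] [(2473901162496, 274877906944), (263872053248, 44023414784), (150592290816, 50197430272)] :=
  covD_split 2 (by decide +kernel) I0AD_5 I0AD_6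
theorem I0AD_0 : CovD 0 [pAD H BI0] [(2473901162496, 274877906944), (263872053248, 44023414784), (100394860544, 100394860544)] :=
  covD_split 2 (by decide +kernel) I0AD_1 I0AD_4
theorem I0AD_8 : CovD 0 [pAD H BI0] [(2473901162496, 274877906944), (263872053248, 44023414784), (250987151360, 50197430272)] :=
  covD_split 2 (by decide +kernel) I0AD_9 I0AD_10
theorem I0AD_7 : CovD 0 [pAD H BI0] [(2473901162496, 274877906944), (263872053248, 44023414784), (301184581632, 100394860544)] :=
  covD_split 2 (by decide +kernel) I0AD_8 I0AD_11
theorem I0AD : CovD 0 [pAD H BI0] [(2473901162496, 274877906944), (263872053248, 44023414784), (200789721088, 200789721088)] :=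
  covD_split 2 (by decide +kernel) I0AD_0 I0AD_7
theorem I0RT_0 : CovD 1 [pRT H BI0] [(2473901162496, 274877906944), (263872053248, 44023414784), (100394860544, 100394860544)] :=
  covD_split 2 (by decide +kernel) I0RT_1 I0RT_2
theorem I0RT_3 : CovD 1 [pRT H BI0] [(2473901162496, 274877906944), (263872053248, 44023414784), (301184581632, 100394860544)] :=
  covD_split 2 (by decide +kernel) I0RT_4 I0RT_5
theorem I0RT : CovD 1 [pRT H BI0] [(2473901162496, 274877906944), (263872053248, 44023414784), (200789721088, 200789721088)] :=
  covD_split 2 (by decide +kernel) I0RT_0 I0RT_3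
theorem I1AD : CovD 0 [pAD H BI1] [(2473901162496, 274877906944), (263872053248, 44023414784), (484257562624, 82678120448)] :=
  covD_split 2 (by decide +kernel) I1AD_0 I1AD_1
theorem I1RT : CovD 1 [pRT H BI1] [(2473901162496, 274877906944), (263872053248, 44023414784), (484257562624, 82678120448)] :=
  covD_split 2 (by decide +kernel) I1RT_0 I1RT_1

end Pool.Agent.helper82.WC.S2K2
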