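import Pool.Agent.helper82.WC.S2K2P

/-!
Generated certificates (in pairs, so that they are checked one after the other).
-/

namespace Pool.Agent.helper82.WC.S2K2

open Pool.Agent.helper82.WH
open Pool.Agent.helper31.IC (CovD covD_split TD)

mutual
theorem I0AD_2 : CovD 0 [pAD H BI0] [(2473901162496, 274877906944), (263872053248, 44023414784), (25098715136, 25098715136)] :=
  cov_of (fAD H BI0) (.n 1 (.n 0 (.n 2 (.n 0 (.l 0) (.l 0)) (.n 0 (.l 0) (.l 0))) (.n 2 (.n 0 (.l 0) (.l 0)) (.n 0 (.l 0) (.l 0)))) (.n 0 (.n 0 (.n 0 (.l 0) (.l 0)) (.n 0 (.l 0) (.l 0))) (.n 2 (.n 0 (.l 0) (.l 0)) (.n 0 (.l 0) (.l 0))))) [(2473901162496, 274877906944), (263872053248, 44023414784), (25098715136, 25098715136)] rfl (by decide +kernel)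
theorem I0AD_3 : CovD 0 [pAD H BI0] [(2473901162496, 274877906944), (263872053248, 44023414784), (75296145408, 25098715136)] :=
  cov_of (fAD H BI0) (.n 1 (.n 0 (.n 2 (.n 0 (.l 0) (.l 0)) (.n 0 (.l 0) (.l 0))) (.n 2 (.n 0 (.l 0) (.l 0)) (.n 0 (.l 0) (.l 0)))) (.n 0 (.n 0 (.n 0 (.l 0) (.l 0)) (.n 2 (.l 0) (.l 0))) (.n 2 (.n 0 (.l 0) (.l 0)) (.n 0 (.l 0) (.l 0))))) [(2473901162496, 274877906944), (263872053248, 44023414784), (75296145408, 25098715136)] rfl (by decide +kernel)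
end

mutual
theorem I0AD_5 : CovD 0 [pAD H BI0] [(2473901162496, 274877906944), (263872053248, 44023414784), (125493575680, 25098715136)] :=
  cov_of (fAD H BI0) (.n 0 (.n 1 (.n 2 (.n 0 (.l 0) (.l 0)) (.n 0 (.l 0) (.l 0))) (.n 0 (.n 0 (.l 0) (.l 0)) (.n 2 (.l 0) (.l 0)))) (.n 1 (.n 2 (.n 0 (.l 0) (.l 0)) (.n 0 (.l 0) (.l 0))) (.n 2 (.n 0 (.l 0) (.l 0)) (.n 0 (.l 0) (.l 0))))) [(2473901162496, 274877906944), (263872053248, 44023414784), (125493575680, 25098715136)] rfl (by decide +kernel)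
theorem I0AD_6 : CovD 0 [pAD H BI0] [(2473901162496, 274877906944), (263872053248, 44023414784), (175691005952, 25098715136)] :=
  cov_of (fAD H BI0) (.n 0 (.n 1 (.n 0 (.n 2 (.l 0) (.l 0)) (.n 2 (.l 0) (.l 0))) (.n 0 (.n 0 (.l 0) (.l 0)) (.n 0 (.l 0) (.l 0)))) (.n 1 (.n 2 (.n 0 (.l 0) (.l 0)) (.n 0 (.l 0) (.l 0))) (.n 2 (.n 0 (.l 0) (.l 0)) (.n 0 (.l 0) (.l 0))))) [(2473901162496, 274877906944), (263872053248, 44023414784), (175691005952, 25098715136)] rfl (by decide +kernel)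
end

mutual
theorem I0AD_9 : CovD 0 [pAD H BI0] [(2473901162496, 274877906944), (263872053248, 44023414784), (225888436224, 25098715136)] :=
  cov_of (fAD H BI0) (.n 0 (.n 1 (.n 0 (.n 0 (.l 0) (.l 0)) (.n 2 (.l 0) (.l 0))) (.n 0 (.n 0 (.l 0) (.l 0)) (.n 0 (.l 0) (.l 0)))) (.n 1 (.n 2 (.n 0 (.l 0) (.l 0)) (.n 0 (.l 0) (.l 0))) (.n 0 (.n 0 (.l 0) (.l 0)) (.n 0 (.l 0) (.l 0))))) [(2473901162496, 274877906944), (263872053248, 44023414784), (225888436224, 25098715136)] rfl (by decide +kernel)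
theorem I0AD_10 : CovD 0 [pAD H BI0] [(2473901162496, 274877906944), (263872053248, 44023414784), (276085866496, 25098715136)] :=
  cov_of (fAD H BI0) (.n 0 (.n 1 (.n 0 (.n 0 (.l 0) (.l 0)) (.n 0 (.l 0) (.l 0))) (.n 0 (.n 0 (.l 0) (.l 0)) (.n 0 (.l 0) (.l 0)))) (.n 1 (.n 0 (.n 0 (.l 0) (.l 0)) (.n 0 (.l 0) (.l 0))) (.n 0 (.n 0 (.l 0) (.l 0)) (.n 0 (.l 0) (.l 0))))) [(2473901162496, 274877906944), (263872053248, 44023414784), (276085866496, 25098715136)] rfl (by decide +kernel)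
end

mutual
theorem I0AD_11 : CovD 0 [pAD H BI0] [(2473901162496, 274877906944), (263872053248, 44023414784), (351382011904, 50197430272)] :=
  cov_of (fAD H BI0) (.n 2 (.n 0 (.n 1 (.n 0 (.n 0 (.l 0) (.l 0)) (.n 0 (.l 0) (.l 0))) (.n 0 (.n 0 (.l 0) (.l 0)) (.n 0 (.l 0) (.l 0)))) (.n 1 (.n 0 (.n 0 (.l 0) (.l 0)) (.n 0 (.l 0) (.l 0))) (.n 0 (.n 0 (.l 0) (.l 0)) (.n 0 (.l 0) (.l 0))))) (.n 0 (.n 1 (.n 0 (.l 0) (.l 0)) (.n 0 (.l 0) (.l 0))) (.n 1 (.n 0 (.l 0) (.l 0)) (.n 0 (.l 0) (.l 0))))) [(2473901162496, 274877906944), (263872053248, 44023414784), (351382011904, 50197430272)] rfl (by decide +kernel)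
theorem I0G : CovD 1 [pG H BI0] [(2473901162496, 274877906944), (263872053248, 44023414784), (200789721088, 200789721088)] :=
  cov_of (fG H BI0) (.n 2 (.n 2 (.l 0) (.n 2 (.l 0) (.l 0))) (.n 2 (.n 2 (.n 0 (.l 0) (.l 0)) (.n 0 (.l 0) (.l 0))) (.n 2 (.n 0 (.l 0) (.n 0 (.l 0) (.l 0))) (.n 0 (.l 0) (.n 0 (.l 0) (.l 0)))))) [(2473901162496, 274877906944), (263872053248, 44023414784), (200789721088, 200789721088)] rfl (by decide +kernel)
end

mutual
theorem I0RT_1 : CovD 1 [pRT H BI0] [(2473901162496, 274877906944), (263872053248, 44023414784), (50197430272, 50197430272)] :=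
  cov_of (fRT H BI0) (.n 2 (.n 1 (.n 2 (.n 2 (.n 0 (.l 0) (.l 0)) (.n 0 (.l 0) (.l 0))) (.n 2 (.n 0 (.l 0) (.l 0)) (.n 0 (.l 0) (.l 0)))) (.n 2 (.n 0 (.l 0) (.l 0)) (.n 1 (.l 0) (.l 0)))) (.n 1 (.n 2 (.n 2 (.n 0 (.l 0) (.l 0)) (.n 0 (.l 0) (.l 0))) (.n 2 (.n 0 (.l 0) (.l 0)) (.n 0 (.l 0) (.l 0)))) (.n 2 (.n 1 (.l 0) (.l 0)) (.n 0 (.l 0) (.l 0))))) [(2473901162496, 274877906944), (263872053248, 44023414784), (50197430272, 50197430272)] rfl (by decide +kernel)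
theorem I0RT_2 : CovD 1 [pRT H BI0] [(2473901162496, 274877906944), (263872053248, 44023414784), (150592290816, 50197430272)] :=
  cov_of (fRT H BI0) (.n 2 (.n 2 (.n 1 (.n 2 (.n 0 (.l 0) (.l 0)) (.n 0 (.l 0) (.l 0))) (.n 0 (.l 0) (.l 0))) (.n 1 (.n 2 (.n 0 (.l 0) (.l 0)) (.n 0 (.l 0) (.l 0))) (.n 0 (.l 0) (.l 0)))) (.n 2 (.n 1 (.n 2 (.n 0 (.l 0) (.l 0)) (.n 0 (.l 0) (.l 0))) (.n 0 (.l 0) (.l 0))) (.n 1 (.n 0 (.l 0) (.n 0 (.l 0) (.l 0))) (.n 0 (.l 0) (.l 0))))) [(2473901162496, 274877906944), (263872053248, 44023414784), (150592290816, 50197430272)] rfl (by decide +kernel)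
end

mutual
theorem I0RT_4 : CovD 1 [pRT H BI0] [(2473901162496, 274877906944), (263872053248, 44023414784), (250987151360, 50197430272)] :=
  cov_of (fRT H BI0) (.n 2 (.n 2 (.n 1 (.n 0 (.l 0) (.l 0)) (.n 0 (.l 0) (.l 0))) (.n 0 (.n 1 (.l 0) (.l 0)) (.n 1 (.l 0) (.l 0)))) (.n 2 (.n 0 (.n 0 (.l 0) (.l 0)) (.n 1 (.l 0) (.l 0))) (.n 0 (.n 1 (.l 0) (.l 0)) (.n 1 (.l 0) (.l 0))))) [(2473901162496, 274877906944), (263872053248, 44023414784), (250987151360, 50197430272)] rfl (by decide +kernel)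
theorem I0RT_5 : CovD 1 [pRT H BI0] [(2473901162496, 274877906944), (263872053248, 44023414784), (351382011904, 50197430272)] :=
  cov_of (fRT H BI0) (.n 2 (.n 2 (.n 0 (.n 1 (.l 0) (.l 0)) (.n 1 (.l 0) (.l 0))) (.n 0 (.n 1 (.l 0) (.l 0)) (.n 1 (.l 0) (.n 0 (.l 0) (.l 0))))) (.n 0 (.n 1 (.n 0 (.l 0) (.l 0)) (.n 0 (.l 0) (.l 0))) (.n 1 (.n 2 (.n 0 (.l 0) (.l 0)) (.n 0 (.l 0) (.n 1 (.l 0) (.l 0)))) (.n 2 (.n 1 (.l 0) (.l 0)) (.n 0 (.l 0) (.n 1 (.l 0) (.l 0))))))) [(2473901162496, 274877906944), (263872053248, 44023414784), (351382011904, 50197430272)] rfl (by decide +kernel)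
end

mutual
theorem I1AD_0 : CovD 0 [pAD H BI1] [(2473901162496, 274877906944), (263872053248, 44023414784), (442918502400, 41339060224)] :=
  cov_of (fAD H BI1) (.n 0 (.n 2 (.n 1 (.n 0 (.l 0) (.l 0)) (.n 0 (.l 0) (.l 0))) (.n 1 (.n 0 (.l 0) (.l 0)) (.n 0 (.l 0) (.l 0)))) (.n 2 (.n 1 (.n 0 (.l 0) (.l 0)) (.n 0 (.l 0) (.l 0))) (.n 1 (.n 0 (.l 0) (.l 0)) (.n 0 (.l 0) (.l 0))))) [(2473901162496, 274877906944), (263872053248, 44023414784), (442918502400, 41339060224)] rfl (by decide +kernel)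
theorem I1AD_1 : CovD 0 [pAD H BI1] [(2473901162496, 274877906944), (263872053248, 44023414784), (525596622848, 41339060224)] :=
  cov_of (fAD H BI1) (.n 0 (.n 2 (.n 1 (.n 0 (.l 0) (.l 0)) (.n 0 (.n 0 (.l 0) (.l 0)) (.l 0))) (.n 1 (.n 0 (.n 0 (.l 0) (.l 0)) (.n 0 (.l 0) (.l 0))) (.n 0 (.n 0 (.l 0) (.l 0)) (.n 0 (.l 0) (.l 0))))) (.n 2 (.n 1 (.n 0 (.l 0) (.l 0)) (.n 0 (.l 0) (.l 0))) (.n 1 (.n 0 (.n 0 (.l 0) (.l 0)) (.l 0)) (.n 0 (.n 0 (.l 0) (.l 0)) (.n 0 (.l 0) (.l 0)))))) [(2473901162496, 274877906944), (263872053248, 44023414784), (525596622848, 41339060224)] rfl (by decide +kernel)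
end

mutual
theorem I1G : CovD 1 [pG H BI1] [(2473901162496, 274877906944), (263872053248, 44023414784), (484257562624, 82678120448)] :=
  cov_of (fG H BI1) (.n 2 (.n 0 (.n 0 (.l 0) (.l 0)) (.n 2 (.l 0) (.l 0))) (.n 0 (.n 0 (.l 0) (.l 0)) (.n 2 (.l 0) (.l 0)))) [(2473901162496, 274877906944), (263872053248, 44023414784), (484257562624, 82678120448)] rfl (by decide +kernel)
theorem I1RT_0 : CovD 1 [pRT H BI1] [(2473901162496, 274877906944), (263872053248, 44023414784), (442918502400, 41339060224)] :=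
  cov_of (fRT H BI1) (.n 2 (.n 0 (.n 1 (.n 0 (.l 0) (.l 0)) (.l 0)) (.n 1 (.n 0 (.l 0) (.l 0)) (.l 0))) (.n 0 (.n 0 (.l 0) (.n 0 (.l 0) (.l 0))) (.n 1 (.n 0 (.l 0) (.l 0)) (.l 0)))) [(2473901162496, 274877906944), (263872053248, 44023414784), (442918502400, 41339060224)] rfl (by decide +kernel)
end

mutual
theorem I1RT_1 : CovD 1 [pRT H BI1] [(2473901162496, 274877906944), (263872053248, 44023414784), (525596622848, 41339060224)] :=
  cov_of (fRT H BI1) (.n 0 (.n 0 (.n 2 (.n 0 (.l 0) (.l 0)) (.n 1 (.l 0) (.l 0))) (.n 2 (.n 0 (.l 0) (.l 0)) (.n 1 (.l 0) (.l 0)))) (.n 0 (.n 2 (.n 1 (.l 0) (.l 0)) (.n 1 (.l 0) (.l 0))) (.n 1 (.n 2 (.l 0) (.n 2 (.l 0) (.n 0 (.l 0) (.l 0)))) (.n 2 (.l 0) (.n 2 (.l 0) (.l 0)))))) [(2473901162496, 274877906944), (263872053248, 44023414784), (525596622848, 41339060224)] rfl (by decide +kernel)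
theorem R0AD : CovD 0 [pAD H BR0] [(2473901162496, 274877906944), (263872053248, 44023414784), (1099511627776, 1099511627776)] :=
  cov_of (fAD H BR0) (.n 1 (.n 0 (.n 1 (.l 0) (.l 0)) (.n 1 (.l 0) (.l 0))) (.n 0 (.n 1 (.l 0) (.l 0)) (.n 1 (.l 0) (.l 0)))) [(2473901162496, 274877906944), (263872053248, 44023414784), (1099511627776, 1099511627776)] rfl (by decide +kernel)
end

mutual
theorem R0G : CovD 1 [pG H BR0] [(2473901162496, 274877906944), (263872053248, 44023414784), (1099511627776, 1099511627776)] :=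
  cov_of (fG H BR0) (.l 0) [(2473901162496, 274877906944), (263872053248, 44023414784), (1099511627776, 1099511627776)] rfl (by decide +kernel)
theorem R0RT : CovD 1 [pRT H BR0] [(2473901162496, 274877906944), (263872053248, 44023414784), (1099511627776, 1099511627776)] :=
  cov_of (fRT H BR0) (.n 1 (.n 1 (.l 0) (.l 0)) (.l 0)) [(2473901162496, 274877906944), (263872053248, 44023414784), (1099511627776, 1099511627776)] rfl (by decide +kernel)
end

mutual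
theorem R0RS : CovD 1 [pRS H BR0] [(2473901162496, 274877906944), (263872053248, 44023414784), (1099511627776, 1099511627776)] :=
  cov_of (fRS H BR0) (.l 0) [(2473901162496, 274877906944), (263872053248, 44023414784), (1099511627776, 1099511627776)] rfl (by decide +kernel)
theorem PAD : CovD 0 [pAD H BP] [(2473901162496, 274877906944), (263872053248, 44023414784), (2199023255552, 0)] :=
  cov_of (fAD H BP) (.n 1 (.n 0 (.n 0 (.l 0) (.l 0)) (.n 0 (.l 0) (.l 0))) (.n 0 (.n 0 (.l 0) (.l 0)) (.n 0 (.l 0) (.l 0)))) [(2473901162496, 274877906944), (263872053248, 44023414784), (2199023255552, 0)] rfl (by decide +kernel)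
end

mutual
theorem PG : CovD 1 [pG H BP] [(2473901162496, 274877906944), (263872053248, 44023414784), (2199023255552, 0)] :=
  cov_of (fG H BP) (.l 0) [(2473901162496, 274877906944), (263872053248, 44023414784), (2199023255552, 0)] rfl (by decide +kernel)
theorem PRT : CovD 1 [pRT H BP] [(2473901162496, 274877906944), (263872053248, 44023414784), (2199023255552, 0)] :=
  cov_of (fRT H BP) (.n 1 (.l 0) (.l 0)) [(2473901162496, 274877906944), (263872053248, 44023414784), (2199023255552, 0)] rfl (by decide +kernel)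
end

mutual
theorem PTT : CovD 1 [pTT H BP] [(2473901162496, 274877906944), (263872053248, 44023414784), (2199023255552, 0)] :=
  cov_of (fTT H BP) (.n 1 (.n 0 (.n 1 (.n 1 (.n 0 (.l 0) (.l 0)) (.l 0)) (.n 0 (.l 0) (.l 0))) (.n 1 (.n 1 (.l 0) (.l 0)) (.n 0 (.l 0) (.l 0)))) (.n 0 (.n 1 (.n 0 (.l 0) (.l 0)) (.l 0)) (.n 1 (.l 0) (.l 0)))) [(2473901162496, 274877906944), (263872053248, 44023414784), (2199023255552, 0)] rfl (by decide +kernel)
theorem MAD : CovD 0 [pAD H BM] [(2473901162496, 274877906944), (263872053248, 44023414784), (0, 0)] :=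
  cov_of (fAD H BM) (.n 1 (.n 0 (.n 0 (.n 0 (.l 0) (.l 0)) (.n 0 (.l 0) (.l 0))) (.n 1 (.n 0 (.l 0) (.l 0)) (.n 0 (.l 0) (.l 0)))) (.n 0 (.n 0 (.n 0 (.l 0) (.l 0)) (.n 0 (.l 0) (.l 0))) (.n 0 (.n 0 (.l 0) (.l 0)) (.n 0 (.l 0) (.l 0))))) [(2473901162496, 274877906944), (263872053248, 44023414784), (0, 0)] rfl (by decide +kernel)
end

mutual
theorem MG : CovD 1 [pG H BM] [(2473901162496, 274877906944), (263872053248, 44023414784), (0, 0)] :=
  cov_of (fG H BM) (.l 0) [(2473901162496, 274877906944), (263872053248, 44023414784), (0, 0)] rfl (by decide +kernel)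
theorem MRT : CovD 1 [pRT H BM] [(2473901162496, 274877906944), (263872053248, 44023414784), (0, 0)] :=
  cov_of (fRT H BM) (.n 1 (.l 0) (.n 0 (.l 0) (.l 0))) [(2473901162496, 274877906944), (263872053248, 44023414784), (0, 0)] rfl (by decide +kernel)
end

mutual
theorem MTT : CovD 1 [pTT H BM] [(2473901162496, 274877906944), (263872053248, 44023414784), (0, 0)] :=
  cov_of (fTT H BM) (.n 0 (.n 1 (.n 1 (.n 1 (.n 0 (.l 0) (.l 0)) (.n 0 (.l 0) (.l 0))) (.n 1 (.n 0 (.l 0) (.l 0)) (.n 0 (.l 0) (.l 0)))) (.n 1 (.n 0 (.l 0) (.l 0)) (.n 0 (.l 0) (.l 0)))) (.n 1 (.n 1 (.n 1 (.n 1 (.n 0 (.l 0) (.l 0)) (.l 0)) (.n 0 (.l 0) (.l 0))) (.n 1 (.n 0 (.l 0) (.l 0)) (.l 0))) (.n 1 (.n 0 (.l 0) (.l 0)) (.n 0 (.l 0) (.l 0))))) [(2473901162496, 274877906944), (263872053248, 44023414784), (0, 0)] rfl (by decide +kernel)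
theorem TAD : CovD 0 [pAD H BT] [(2473901162496, 274877906944), (263872053248, 44023414784), (566935683072, 0)] :=
  cov_of (fAD H BT) (.n 0 (.n 1 (.n 0 (.l 0) (.l 0)) (.n 0 (.l 0) (.l 0))) (.n 1 (.l 0) (.l 0))) [(2473901162496, 274877906944), (263872053248, 44023414784), (566935683072, 0)] rfl (by decide +kernel)
end

mutual
theorem TG : CovD 1 [pG H BT] [(2473901162496, 274877906944), (263872053248, 44023414784), (566935683072, 0)] :=
  cov_of (fG H BT) (.l 0) [(2473901162496, 274877906944), (263872053248, 44023414784), (566935683072, 0)] rfl (by decide +kernel)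
theorem TRT : CovD 1 [pRT H BT] [(2473901162496, 274877906944), (263872053248, 44023414784), (566935683072, 0)] :=
  cov_of (fRT H BT) (.n 0 (.n 0 (.l 0) (.l 0)) (.n 0 (.l 0) (.n 1 (.l 0) (.l 0)))) [(2473901162496, 274877906944), (263872053248, 44023414784), (566935683072, 0)] rfl (by decide +kernel)
theorem TTT : CovD 1 [pTT H BT] [(2473901162496, 274877906944), (263872053248, 44023414784), (566935683072, 0)] :=
  cov_of (fTT H BT) (.n 0 (.n 1 (.n 0 (.l 0) (.l 0)) (.n 0 (.l 0) (.l 0))) (.n 1 (.n 0 (.l 0) (.l 0)) (.l 0))) [(2473901162496, 274877906944), (263872053248, 44023414784), (566935683072, 0)] rfl (by decide +kernel)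
end

end Pool.Agent.helper82.WC.S2K2
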