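import Pool.Agent.helper82.WH.Chks

/-!
Generated: constants of a cell.
-/

namespace Pool.Agent.helper82.WC.S2K2

open Pool.Agent.helper82.WH
open Pool.Agent.helper31.IC (CovD covD_split TD)

def H : HC := ⟨⟨2473901162496, 0⟩, ⟨63326715904, 0⟩, ⟨0, 399902834688⟩, ⟨0, 514960588800⟩, ⟨556219564032, 0⟩, ⟨0, 1566613831680⟩, ⟨195878453248, 0⟩, ⟨446019534848, 0⟩, ⟨2226861768704, 0⟩, ⟨0, 4935635304448⟩, ⟨566765420544, 0⟩, ⟨3406299136, 0⟩, ⟨441187893248, 0⟩, ⟨745153888256, 0⟩, ⟨679384317952, 0⟩, ⟨0, 505465339904⟩, ⟨0, 957789241344⟩, ⟨0, 989687316480⟩, ⟨556252594176, 0⟩, ⟨0, 73977036800⟩, ⟨831541936128, 0⟩, ⟨1219634921472, 0⟩, ⟨35054157824, 0⟩, ⟨100401938432, 0⟩, ⟨0, 10682692993024⟩, ⟨29719674421248, 0⟩, ⟨0, 0⟩⟩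

def BI0 : BC := ⟨⟨0, 0, 1099511627776, 0⟩, ⟨0, 0⟩, ⟨0, 0⟩, 256804716544, 67778904064, 107913084928, 655356461056, 204782960640, 15418261504, 1043005964288, 1236933804032, ⟨10668698763264, 0⟩, ⟨0, 3440268804096⟩, ⟨835529605120, 0⟩, ⟨0, 0⟩, ⟨0, 0⟩⟩

def BI1 : BC := ⟨⟨0, 0, 1099511627776, 0⟩, ⟨0, 0⟩, ⟨0, 0⟩, 246278717440, 63851069440, 110797193216, 664573247488, 204782960640, 21105737728, 877146406912, 1098622435328, ⟨4440996184064, 0⟩, ⟨0, 4148938407936⟩, ⟨846047674368, 0⟩, ⟨0, 0⟩, ⟨0, 0⟩⟩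

def BR0 : BC := ⟨⟨0, 0, 0, 0⟩, ⟨137438953472, 0⟩, ⟨1099511627776, 0⟩, 203110875136, 57426378752, 149312897024, 680882077696, 204782960640, 8942256128, 1053273620480, 1242621280256, ⟨0, 0⟩, ⟨0, 0⟩, ⟨888719212544, 0⟩, ⟨0, 0⟩, ⟨0, 0⟩⟩

def BP : BC := ⟨⟨0, 0, 0, 0⟩, ⟨137438953472, 0⟩, ⟨1099511627776, 0⟩, 102918258688, 29569449984, 73599549440, 459873976320, 204782960640, 7415529472, 1032906080256, 1231850307584, ⟨0, 0⟩, ⟨0, 0⟩, ⟨502008643584, 0⟩, ⟨0, 0⟩, ⟨1099511627776, 0⟩⟩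

def BM : BC := ⟨⟨0, 0, 0, 0⟩, ⟨137438953472, 0⟩, ⟨1099511627776, 0⟩, 71557316608, 22349807616, 52852359168, 506340835328, 204782960640, 8942256128, 1053273620480, 1242621280256, ⟨0, 0⟩, ⟨0, 0⟩, ⟨538411466752, 0⟩, ⟨0, 0⟩, ⟨0, 1099511627776⟩⟩

def BT : BC := ⟨⟨0, 0, 1099511627776, 0⟩, ⟨0, 0⟩, ⟨0, 0⟩, 193675329536, 50621906944, 171369103360, 670102192128, 204782960640, 21105737728, 819130793984, 1013025079296, ⟨3487513444352, 0⟩, ⟨0, 3861175599104⟩, ⟨897886453760, 0⟩, ⟨1099511627776, 0⟩, ⟨0, 0⟩⟩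

end Pool.Agent.helper82.WC.S2K2
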