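import Pool.Agent.helper82.WC.S2K3C0

/-!
Generated certificates, assembled.
-/

namespace Pool.Agent.helper82.WC.S2K3

open Pool.Agent.helper82.WH
open Pool.Agent.helper31.IC (CovD covD_split TD)

theorem I0AD_1 : CovD 0 [pAD H BI0] [(2473901162496, 274877906944), (362790518784, 54895050752), (64424509440, 64424509440)] :=
  covD_split 2 (by decide +kernel) I0AD_2 I0AD_3
theorem I0AD_4 : CovD 0 [pAD H BI0] [(2473901162496, 274877906944), (362790518784, 54895050752), (193273528320, 64424509440)] :=
  covD_split 2 (by decide +kernel) I0AD_5 I0AD_6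
theorem I0AD_0 : CovD 0 [pAD H BI0] [(2473901162496, 274877906944), (362790518784, 54895050752), (128849018880, 128849018880)] :=
  covD_split 2 (by decide +kernel) I0AD_1 I0AD_4
theorem I0AD_8 : CovD 0 [pAD H BI0] [(2473901162496, 274877906944), (362790518784, 54895050752), (322122547200, 64424509440)] :=
  covD_split 2 (by decide +kernel) I0AD_9 I0AD_10
theorem I0AD_11 : CovD 0 [pAD H BI0] [(2473901162496, 274877906944), (362790518784, 54895050752), (450971566080, 64424509440)] :=
  covD_split 2 (by decide +kernel) I0AD_12 I0AD_13
theorem I0AD_7 : CovD 0 [pAD H BI0] [(2473901162496, 274877906944), (362790518784, 54895050752), (386547056640, 128849018880)] :=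
  covD_split 2 (by decide +kernel) I0AD_8 I0AD_11
theorem I0AD : CovD 0 [pAD H BI0] [(2473901162496, 274877906944), (362790518784, 54895050752), (257698037760, 257698037760)] :=
  covD_split 2 (by decide +kernel) I0AD_0 I0AD_7
theorem I0RT_0 : CovD 1 [pRT H BI0] [(2473901162496, 274877906944), (362790518784, 54895050752), (128849018880, 128849018880)] :=
  covD_split 2 (by decide +kernel) I0RT_1 I0RT_2
theorem I0RT_5 : CovD 1 [pRT H BI0] [(2473901162496, 274877906944), (362790518784, 54895050752), (450971566080, 64424509440)] :=
  covD_split 2 (by decide +kernel) I0RT_6 I0RT_7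
theorem I0RT_3 : CovD 1 [pRT H BI0] [(2473901162496, 274877906944), (362790518784, 54895050752), (386547056640, 128849018880)] :=
  covD_split 2 (by decide +kernel) I0RT_4 I0RT_5
theorem I0RT : CovD 1 [pRT H BI0] [(2473901162496, 274877906944), (362790518784, 54895050752), (257698037760, 257698037760)] :=
  covD_split 2 (by decide +kernel) I0RT_0 I0RT_3

end Pool.Agent.helper82.WC.S2K3
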