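import Pool.Agent.helper82.WH.Chks

/-!
Generated: constants of a cell.
-/

namespace Pool.Agent.helper82.WC.S2K3

open Pool.Agent.helper82.WH
open Pool.Agent.helper31.IC (CovD covD_split TD)

def H : HC := ⟨⟨2473901162496, 0⟩, ⟨119704911872, 0⟩, ⟨0, 150125740032⟩, ⟨0, 463774941184⟩, ⟨265061466112, 0⟩, ⟨0, 2181845352448⟩, ⟨114206375936, 0⟩, ⟨0, 35383017472⟩, ⟨3872828162048, 0⟩, ⟨0, 6651748483072⟩, ⟨585129590784, 0⟩, ⟨25612124160, 0⟩, ⟨418041757696, 0⟩, ⟨745290924032, 0⟩, ⟨654634319872, 0⟩, ⟨0, 552755724288⟩, ⟨0, 1061081710592⟩, ⟨0, 935680999424⟩, ⟨319087640576, 0⟩, ⟨130917269504, 0⟩, ⟨487628341248, 0⟩, ⟨1619598376960, 0⟩, ⟨0, 12740198400⟩, ⟨0, 213540143104⟩, ⟨0, 15613173956608⟩, ⟨46251736956928, 0⟩, ⟨0, 0⟩⟩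

def BI0 : BC := ⟨⟨0, 0, 1099511627776, 0⟩, ⟨0, 0⟩, ⟨0, 0⟩, 278615621632, 68201349120, 129237450752, 611131654144, 204782960640, 18824036352, 908519800832, 1165882294272, ⟨8551279886336, 0⟩, ⟨0, 3414499000320⟩, ⟨813417103360, 0⟩, ⟨0, 0⟩, ⟨0, 0⟩⟩

def BR0 : BC := ⟨⟨0, 0, 0, 0⟩, ⟨137438953472, 0⟩, ⟨1099511627776, 0⟩, 248013193216, 57516163072, 162938880000, 621447806976, 204782960640, 12499025920, 926102323200, 1175378198528, ⟨0, 0⟩, ⟨0, 0⟩, ⟨843613077504, 0⟩, ⟨0, 0⟩, ⟨0, 0⟩⟩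

def BP : BC := ⟨⟨0, 0, 0, 0⟩, ⟨137438953472, 0⟩, ⟨1099511627776, 0⟩, 145217421312, 31291867136, 88854495232, 408097718272, 204782960640, 9261023232, 890182303744, 1156386390016, ⟨0, 0⟩, ⟨0, 0⟩, ⟨456178597888, 0⟩, ⟨0, 0⟩, ⟨1099511627776, 0⟩⟩

def BM : BC := ⟨⟨0, 0, 0, 0⟩, ⟨137438953472, 0⟩, ⟨1099511627776, 0⟩, 120889737216, 23616552960, 69715034112, 453060657152, 204782960640, 12499025920, 926102323200, 1175378198528, ⟨0, 0⟩, ⟨0, 0⟩, ⟨492513263616, 0⟩, ⟨0, 0⟩, ⟨0, 1099511627776⟩⟩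

def BT : BC := ⟨⟨0, 0, 1099511627776, 0⟩, ⟨0, 0⟩, ⟨0, 0⟩, 158456348672, 40560820224, 144367353856, 552168587264, 204782960640, 18824036352, 736955990016, 991785123840, ⟨4535485464576, 0⟩, ⟨0, 4209067950080⟩, ⟨677855494144, 0⟩, ⟨1099511627776, 0⟩, ⟨0, 0⟩⟩

end Pool.Agent.helper82.WC.S2K3
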