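import Pool.Agent.helper82.WC.S2K4P

/-!
Generated certificates (in pairs, so that they are checked one after the other).
-/

namespace Pool.Agent.helper82.WC.S2K4

open Pool.Agent.helper82.WH
open Pool.Agent.helper31.IC (CovD covD_split TD)

mutual
theorem TRT : CovD 1 [pRT H BT] [(2473901162496, 274877906944), (566130376704, 148444807168), (498216206336, 0)] :=
  cov_of (fRT H BT) (.n 1 (.n 1 (.n 0 (.l 0) (.n 1 (.n 0 (.l 0) (.l 0)) (.l 0))) (.n 0 (.l 0) (.n 0 (.l 0) (.l 0)))) (.n 1 (.n 0 (.l 0) (.l 0)) (.n 0 (.l 0) (.l 0)))) [(2473901162496, 274877906944), (566130376704, 148444807168), (498216206336, 0)] rfl (by decide +kernel)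
theorem TTT : CovD 1 [pTT H BT] [(2473901162496, 274877906944), (566130376704, 148444807168), (498216206336, 0)] :=
  cov_of (fTT H BT) (.n 1 (.n 1 (.n 0 (.n 0 (.n 1 (.l 0) (.l 0)) (.n 0 (.l 0) (.l 0))) (.n 0 (.l 0) (.l 0))) (.n 0 (.n 0 (.l 0) (.l 0)) (.n 0 (.l 0) (.l 0)))) (.n 1 (.n 0 (.n 0 (.l 0) (.l 0)) (.l 0)) (.n 0 (.n 0 (.l 0) (.l 0)) (.l 0)))) [(2473901162496, 274877906944), (566130376704, 148444807168), (498216206336, 0)] rfl (by decide +kernel)
end

end Pool.Agent.helper82.WC.S2K4
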