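import Pool.Agent.helper82.WC.S2K4C0
import Pool.Agent.helper82.WC.S2K4C1

/-!
Generated certificates, assembled.
-/

namespace Pool.Agent.helper82.WC.S2K4

open Pool.Agent.helper82.WH
open Pool.Agent.helper31.IC (CovD covD_split TD)

theorem I0AD_3 : CovD 0 [pAD H BI0] [(2473901162496, 274877906944), (491907973120, 74222403584), (186831077376, 62277025792)] :=
  covD_split 1 (by decide +kernel) I0AD_4 I0AD_5
theorem I0AD_1 : CovD 0 [pAD H BI0] [(2473901162496, 274877906944), (491907973120, 74222403584), (124554051584, 124554051584)] :=
  covD_split 2 (by decide +kernel) I0AD_2 I0AD_3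
theorem I0AD_6 : CovD 0 [pAD H BI0] [(2473901162496, 274877906944), (640352780288, 74222403584), (124554051584, 124554051584)] :=
  covD_split 2 (by decide +kernel) I0AD_7 I0AD_8
theorem I0AD_0 : CovD 0 [pAD H BI0] [(2473901162496, 274877906944), (566130376704, 148444807168), (124554051584, 124554051584)] :=
  covD_split 1 (by decide +kernel) I0AD_1 I0AD_6
theorem I0AD_11 : CovD 0 [pAD H BI0] [(2473901162496, 274877906944), (491907973120, 74222403584), (311385128960, 62277025792)] :=
  covD_split 1 (by decide +kernel) I0AD_12 I0AD_13
theorem I0AD_14 : CovD 0 [pAD H BI0] [(2473901162496, 274877906944), (491907973120, 74222403584), (435939180544, 62277025792)] :=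
  covD_split 1 (by decide +kernel) I0AD_15 I0AD_16
theorem I0AD_10 : CovD 0 [pAD H BI0] [(2473901162496, 274877906944), (491907973120, 74222403584), (373662154752, 124554051584)] :=
  covD_split 2 (by decide +kernel) I0AD_11 I0AD_14
theorem I0AD_19 : CovD 0 [pAD H BI0] [(2473901162496, 274877906944), (640352780288, 74222403584), (435939180544, 62277025792)] :=
  covD_split 1 (by decide +kernel) I0AD_20 I0AD_21
theorem I0AD_17 : CovD 0 [pAD H BI0] [(2473901162496, 274877906944), (640352780288, 74222403584), (373662154752, 124554051584)] :=
  covD_split 2 (by decide +kernel) I0AD_18 I0AD_19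
theorem I0AD_9 : CovD 0 [pAD H BI0] [(2473901162496, 274877906944), (566130376704, 148444807168), (373662154752, 124554051584)] :=
  covD_split 1 (by decide +kernel) I0AD_10 I0AD_17
theorem I0AD : CovD 0 [pAD H BI0] [(2473901162496, 274877906944), (566130376704, 148444807168), (249108103168, 249108103168)] :=
  covD_split 2 (by decide +kernel) I0AD_0 I0AD_9
theorem I0G_1 : CovD 1 [pG H BI0] [(2473901162496, 274877906944), (566130376704, 148444807168), (373662154752, 124554051584)] :=
  covD_split 1 (by decide +kernel) I0G_2 I0G_3
theorem I0G : CovD 1 [pG H BI0] [(2473901162496, 274877906944), (566130376704, 148444807168), (249108103168, 249108103168)] :=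
  covD_split 2 (by decide +kernel) I0G_0 I0G_1
theorem I0RT_1 : CovD 1 [pRT H BI0] [(2473901162496, 274877906944), (491907973120, 74222403584), (124554051584, 124554051584)] :=
  covD_split 2 (by decide +kernel) I0RT_2 I0RT_3
theorem I0RT_0 : CovD 1 [pRT H BI0] [(2473901162496, 274877906944), (566130376704, 148444807168), (124554051584, 124554051584)] :=
  covD_split 1 (by decide +kernel) I0RT_1 I0RT_4
theorem I0RT_8 : CovD 1 [pRT H BI0] [(2473901162496, 274877906944), (491907973120, 74222403584), (435939180544, 62277025792)] :=
  covD_split 2 (by decide +kernel) I0RT_9 I0RT_10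
theorem I0RT_6 : CovD 1 [pRT H BI0] [(2473901162496, 274877906944), (491907973120, 74222403584), (373662154752, 124554051584)] :=
  covD_split 2 (by decide +kernel) I0RT_7 I0RT_8
theorem I0RT_5 : CovD 1 [pRT H BI0] [(2473901162496, 274877906944), (566130376704, 148444807168), (373662154752, 124554051584)] :=
  covD_split 1 (by decide +kernel) I0RT_6 I0RT_11
theorem I0RT : CovD 1 [pRT H BI0] [(2473901162496, 274877906944), (566130376704, 148444807168), (249108103168, 249108103168)] :=
  covD_split 2 (by decide +kernel) I0RT_0 I0RT_5

end Pool.Agent.helper82.WC.S2K4
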