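import Pool.Agent.helper82.WH.Chks

/-!
Generated: constants of a cell.
-/

namespace Pool.Agent.helper82.WC.S2K4

open Pool.Agent.helper82.WH
open Pool.Agent.helper31.IC (CovD covD_split TD)

def H : HC := ⟨⟨2473901162496, 0⟩, ⟨291496329216, 0⟩, ⟨45506035712, 0⟩, ⟨0, 293812895744⟩, ⟨591535144960, 0⟩, ⟨0, 1721492963328⟩, ⟨0, 31661424640⟩, ⟨0, 703133646848⟩, ⟨3208679915520, 0⟩, ⟨0, 2896150462464⟩, ⟨650380115968, 0⟩, ⟨76559482880, 0⟩, ⟨413434773504, 0⟩, ⟨635963965440, 0⟩, ⟨617545793536, 0⟩, ⟨0, 770107572224⟩, ⟨0, 1035217993728⟩, ⟨0, 847841787904⟩, ⟨862503698432, 0⟩, ⟨311913349120, 0⟩, ⟨24937955328, 0⟩, ⟨1287788888064, 0⟩, ⟨33390526464, 0⟩, ⟨770030960640, 0⟩, ⟨0, 5865310584832⟩, ⟨7606163800064, 0⟩, ⟨0, 0⟩⟩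

def BI0 : BC := ⟨⟨0, 0, 1099511627776, 0⟩, ⟨0, 0⟩, ⟨0, 0⟩, 333155467264, 82712526848, 178476744704, 494261829632, 204782960640, 18572378112, 904912699392, 1048576000000, ⟨7065221201920, 0⟩, ⟨0, 2680059592704⟩, ⟨757988261888, 0⟩, ⟨0, 0⟩, ⟨0, 0⟩⟩

def BR0 : BC := ⟨⟨0, 0, 0, 0⟩, ⟨109951188992, 0⟩, ⟨1099511627776, 0⟩, 341458681856, 79644327936, 133306318848, 536345903104, 204782960640, 13069451264, 758565044224, 1059615408128, ⟨0, 0⟩, ⟨0, 0⟩, ⟨750416625664, 0⟩, ⟨0, 0⟩, ⟨0, 0⟩⟩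

def BP : BC := ⟨⟨0, 0, 0, 0⟩, ⟨109951188992, 0⟩, ⟨1099511627776, 0⟩, 196043276288, 46564048896, 126336696320, 388858642432, 204782960640, 9747562496, 758565044224, 1037536591872, ⟨0, 0⟩, ⟨0, 0⟩, ⟨470568075264, 0⟩, ⟨0, 0⟩, ⟨1099511627776, 0⟩⟩

def BM : BC := ⟨⟨0, 0, 0, 0⟩, ⟨109951188992, 0⟩, ⟨1099511627776, 0⟩, 203455266816, 42843439104, 100060626944, 431218360320, 204782960640, 13069451264, 719339913216, 1059615408128, ⟨0, 0⟩, ⟨0, 0⟩, ⟨506684440576, 0⟩, ⟨0, 0⟩, ⟨0, 1099511627776⟩⟩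

def BT : BC := ⟨⟨0, 0, 1099511627776, 0⟩, ⟨0, 0⟩, ⟨0, 0⟩, 213935980544, 55139565568, 182037839872, 433068113920, 204782960640, 18572378112, 904912699392, 926706302976, ⟨4909147619328, 0⟩, ⟨0, 3813930958848⟩, ⟨583467204608, 0⟩, ⟨1099511627776, 0⟩, ⟨0, 0⟩⟩

end Pool.Agent.helper82.WC.S2K4
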