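import Pool.Agent.helper82.WC.S2K5C0

/-!
Generated certificates, assembled.
-/

namespace Pool.Agent.helper82.WC.S2K5

open Pool.Agent.helper82.WH
open Pool.Agent.helper31.IC (CovD covD_split TD)

theorem I0AD_0 : CovD 0 [pAD H BI0, pX0] [(2473901162496, 274877906944), (898386362368, 183811178496), (111669149696, 111669149696)] :=
  covD_split 1 (by decide +kernel) I0AD_1 I0AD_2
theorem I0AD_3 : CovD 0 [pAD H BI0, pX0] [(2473901162496, 274877906944), (1266008719360, 183811178496), (111669149696, 111669149696)] :=
  covD_split 1 (by decide +kernel) I0AD_4 I0AD_5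
theorem I0AD : CovD 0 [pAD H BI0, pX0] [(2473901162496, 274877906944), (1082197540864, 367622356992), (111669149696, 111669149696)] :=
  covD_split 1 (by decide +kernel) I0AD_0 I0AD_3
theorem I0RT_0 : CovD 1 [pRT H BI0, pX1] [(2473901162496, 274877906944), (898386362368, 183811178496), (111669149696, 111669149696)] :=
  covD_split 1 (by decide +kernel) I0RT_1 I0RT_2
theorem I0RT : CovD 1 [pRT H BI0, pX1] [(2473901162496, 274877906944), (1082197540864, 367622356992), (111669149696, 111669149696)] :=
  covD_split 1 (by decide +kernel) I0RT_0 I0RT_3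
theorem R0AD_0 : CovD 0 [pAD H BR0, pX0] [(2473901162496, 274877906944), (898386362368, 183811178496), (1099511627776, 1099511627776)] :=
  covD_split 1 (by decide +kernel) R0AD_1 R0AD_2
theorem R0AD_4 : CovD 0 [pAD H BR0, pX0] [(2473901162496, 274877906944), (1174103130112, 91905589248), (1099511627776, 1099511627776)] :=
  covD_split 2 (by decide +kernel) R0AD_5 R0AD_6
theorem R0AD_7 : CovD 0 [pAD H BR0, pX0] [(2473901162496, 274877906944), (1357914308608, 91905589248), (1099511627776, 1099511627776)] :=
  covD_split 2 (by decide +kernel) R0AD_8 R0AD_9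
theorem R0AD_3 : CovD 0 [pAD H BR0, pX0] [(2473901162496, 274877906944), (1266008719360, 183811178496), (1099511627776, 1099511627776)] :=
  covD_split 1 (by decide +kernel) R0AD_4 R0AD_7
theorem R0AD : CovD 0 [pAD H BR0, pX0] [(2473901162496, 274877906944), (1082197540864, 367622356992), (1099511627776, 1099511627776)] :=
  covD_split 1 (by decide +kernel) R0AD_0 R0AD_3
theorem R0RT_1 : CovD 1 [pRT H BR0, pX1] [(2473901162496, 274877906944), (1266008719360, 183811178496), (1099511627776, 1099511627776)] :=
  covD_split 1 (by decide +kernel) R0RT_2 R0RT_3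
theorem R0RT : CovD 1 [pRT H BR0, pX1] [(2473901162496, 274877906944), (1082197540864, 367622356992), (1099511627776, 1099511627776)] :=
  covD_split 1 (by decide +kernel) R0RT_0 R0RT_1
theorem TAD : CovD 0 [pAD H BT, pX0] [(2473901162496, 274877906944), (1082197540864, 367622356992), (223338299392, 0)] :=
  covD_split 1 (by decide +kernel) TAD_0 TAD_1

end Pool.Agent.helper82.WC.S2K5
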