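import Pool.Agent.helper82.WC.S2K5P

/-!
Generated certificates (in pairs, so that they are checked one after the other).
-/

namespace Pool.Agent.helper82.WC.S2K5

open Pool.Agent.helper82.WH
open Pool.Agent.helper31.IC (CovD covD_split TD)

mutual
theorem I0AD_1 : CovD 0 [pAD H BI0, pX0] [(2473901162496, 274877906944), (806480773120, 91905589248), (111669149696, 111669149696)] :=
  cov_of (fADX H BI0) (.n 1 (.n 2 (.n 0 (.n 1 (.l 0) (.l 0)) (.n 0 (.l 0) (.l 0))) (.n 0 (.n 1 (.n 0 (.l 0) (.l 0)) (.l 0)) (.n 1 (.n 0 (.l 0) (.l 0)) (.l 0)))) (.n 2 (.n 0 (.n 0 (.l 0) (.l 0)) (.n 0 (.l 0) (.l 0))) (.n 0 (.n 0 (.l 0) (.l 0)) (.n 0 (.l 0) (.l 0))))) [(2473901162496, 274877906944), (806480773120, 91905589248), (111669149696, 111669149696)] rfl (by decide +kernel)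
theorem I0AD_2 : CovD 0 [pAD H BI0, pX0] [(2473901162496, 274877906944), (990291951616, 91905589248), (111669149696, 111669149696)] :=
  cov_of (fADX H BI0) (.n 1 (.n 2 (.n 0 (.n 0 (.l 0) (.l 0)) (.n 0 (.l 0) (.l 0))) (.n 0 (.n 0 (.l 0) (.l 0)) (.n 0 (.l 0) (.l 0)))) (.n 2 (.n 0 (.n 0 (.l 0) (.l 0)) (.l 0)) (.n 0 (.n 0 (.l 0) (.l 0)) (.n 0 (.l 0) (.l 0))))) [(2473901162496, 274877906944), (990291951616, 91905589248), (111669149696, 111669149696)] rfl (by decide +kernel)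
end

mutual
theorem I0AD_4 : CovD 0 [pAD H BI0, pX0] [(2473901162496, 274877906944), (1174103130112, 91905589248), (111669149696, 111669149696)] :=
  cov_of (fADX H BI0) (.n 1 (.n 0 (.n 2 (.n 0 (.l 0) (.l 0)) (.n 1 (.l 0) (.n 0 (.l 0) (.l 0)))) (.n 2 (.n 0 (.l 0) (.l 0)) (.n 0 (.l 0) (.l 0)))) (.n 0 (.n 2 (.n 0 (.l 0) (.l 0)) (.n 1 (.n 0 (.l 0) (.l 0)) (.n 0 (.l 0) (.l 0)))) (.n 2 (.n 0 (.l 0) (.l 0)) (.n 1 (.l 0) (.n 0 (.l 0) (.l 0)))))) [(2473901162496, 274877906944), (1174103130112, 91905589248), (111669149696, 111669149696)] rfl (by decide +kernel)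
theorem I0AD_5 : CovD 0 [pAD H BI0, pX0] [(2473901162496, 274877906944), (1357914308608, 91905589248), (111669149696, 111669149696)] :=
  cov_of (fADX H BI0) (.n 1 (.n 0 (.n 2 (.n 0 (.n 0 (.l 0) (.l 0)) (.l 0)) (.n 1 (.n 0 (.l 0) (.l 0)) (.n 0 (.l 0) (.l 0)))) (.n 0 (.n 2 (.l 0) (.n 2 (.l 0) (.l 0))) (.l 1))) (.n 0 (.n 2 (.n 0 (.n 0 (.l 0) (.l 0)) (.n 0 (.l 0) (.l 0))) (.n 1 (.n 0 (.l 0) (.l 0)) (.n 0 (.l 0) (.l 0)))) (.l 1))) [(2473901162496, 274877906944), (1357914308608, 91905589248), (111669149696, 111669149696)] rfl (by decide +kernel)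
end

mutual
theorem I0G : CovD 1 [pG H BI0, pX1] [(2473901162496, 274877906944), (1082197540864, 367622356992), (111669149696, 111669149696)] :=
  cov_of (fGX H BI0) (.n 1 (.n 1 (.n 1 (.n 2 (.l 0) (.n 0 (.l 0) (.l 0))) (.n 2 (.l 0) (.n 0 (.l 0) (.l 0)))) (.n 1 (.n 0 (.l 0) (.l 0)) (.n 0 (.l 0) (.l 0)))) (.n 1 (.n 1 (.l 0) (.l 0)) (.n 0 (.l 0) (.l 0)))) [(2473901162496, 274877906944), (1082197540864, 367622356992), (111669149696, 111669149696)] rfl (by decide +kernel)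
theorem I0RT_1 : CovD 1 [pRT H BI0, pX1] [(2473901162496, 274877906944), (806480773120, 91905589248), (111669149696, 111669149696)] :=
  cov_of (fRTX H BI0) (.n 2 (.n 1 (.n 0 (.n 2 (.l 0) (.l 0)) (.n 2 (.n 0 (.l 0) (.l 0)) (.n 1 (.l 0) (.l 0)))) (.n 0 (.l 0) (.l 0))) (.n 1 (.n 0 (.n 1 (.n 2 (.l 0) (.l 0)) (.l 0)) (.n 2 (.n 1 (.n 0 (.l 0) (.l 0)) (.l 0)) (.n 1 (.n 2 (.l 0) (.l 0)) (.l 0)))) (.n 0 (.l 0) (.n 2 (.l 0) (.l 0))))) [(2473901162496, 274877906944), (806480773120, 91905589248), (111669149696, 111669149696)] rfl (by decide +kernel)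
end

mutual
theorem I0RT_2 : CovD 1 [pRT H BI0, pX1] [(2473901162496, 274877906944), (990291951616, 91905589248), (111669149696, 111669149696)] :=
  cov_of (fRTX H BI0) (.n 1 (.n 2 (.l 0) (.n 0 (.l 0) (.l 0))) (.n 2 (.n 0 (.l 0) (.l 0)) (.n 0 (.l 0) (.l 0)))) [(2473901162496, 274877906944), (990291951616, 91905589248), (111669149696, 111669149696)] rfl (by decide +kernel)
theorem I0RT_3 : CovD 1 [pRT H BI0, pX1] [(2473901162496, 274877906944), (1266008719360, 183811178496), (111669149696, 111669149696)] :=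
  cov_of (fRTX H BI0) (.n 1 (.n 1 (.n 2 (.n 0 (.l 0) (.l 0)) (.n 0 (.l 0) (.l 0))) (.n 2 (.n 0 (.l 0) (.l 0)) (.n 0 (.l 0) (.l 0)))) (.n 1 (.n 0 (.n 2 (.l 0) (.l 0)) (.n 2 (.l 0) (.l 0))) (.n 0 (.n 2 (.l 0) (.n 0 (.l 0) (.l 0))) (.l 1)))) [(2473901162496, 274877906944), (1266008719360, 183811178496), (111669149696, 111669149696)] rfl (by decide +kernel)
end

mutual
theorem R0AD_1 : CovD 0 [pAD H BR0, pX0] [(2473901162496, 274877906944), (806480773120, 91905589248), (1099511627776, 1099511627776)] :=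
  cov_of (fADX H BR0) (.n 1 (.n 2 (.n 0 (.n 1 (.l 0) (.l 0)) (.n 0 (.l 0) (.l 0))) (.n 0 (.n 2 (.l 0) (.l 0)) (.n 2 (.l 0) (.l 0)))) (.n 2 (.n 0 (.n 1 (.l 0) (.l 0)) (.n 2 (.l 0) (.l 0))) (.n 0 (.n 2 (.l 0) (.l 0)) (.n 2 (.l 0) (.l 0))))) [(2473901162496, 274877906944), (806480773120, 91905589248), (1099511627776, 1099511627776)] rfl (by decide +kernel)
theorem R0AD_2 : CovD 0 [pAD H BR0, pX0] [(2473901162496, 274877906944), (990291951616, 91905589248), (1099511627776, 1099511627776)] :=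
  cov_of (fADX H BR0) (.n 1 (.n 2 (.n 0 (.n 1 (.l 0) (.l 0)) (.n 2 (.l 0) (.l 0))) (.n 0 (.n 2 (.l 0) (.l 0)) (.n 2 (.l 0) (.l 0)))) (.n 2 (.n 0 (.n 1 (.l 0) (.n 2 (.l 0) (.l 0))) (.n 2 (.l 0) (.l 0))) (.n 0 (.n 2 (.l 0) (.l 0)) (.n 2 (.l 0) (.l 0))))) [(2473901162496, 274877906944), (990291951616, 91905589248), (1099511627776, 1099511627776)] rfl (by decide +kernel)
end

mutual
theorem R0AD_5 : CovD 0 [pAD H BR0, pX0] [(2473901162496, 274877906944), (1174103130112, 91905589248), (549755813888, 549755813888)] :=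
  cov_of (fADX H BR0) (.n 1 (.n 0 (.n 1 (.n 2 (.l 0) (.l 0)) (.n 2 (.l 0) (.l 0))) (.n 1 (.l 0) (.n 2 (.l 0) (.l 0)))) (.n 2 (.n 0 (.n 1 (.l 0) (.n 2 (.l 0) (.l 0))) (.n 2 (.l 0) (.l 0))) (.n 0 (.n 0 (.l 0) (.l 0)) (.n 0 (.l 0) (.l 0))))) [(2473901162496, 274877906944), (1174103130112, 91905589248), (549755813888, 549755813888)] rfl (by decide +kernel)
theorem R0AD_6 : CovD 0 [pAD H BR0, pX0] [(2473901162496, 274877906944), (1174103130112, 91905589248), (1649267441664, 549755813888)] :=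
  cov_of (fADX H BR0) (.n 1 (.n 0 (.n 1 (.l 0) (.n 2 (.l 0) (.l 0))) (.n 1 (.l 0) (.n 2 (.l 0) (.l 0)))) (.n 0 (.n 1 (.n 2 (.l 0) (.l 0)) (.n 2 (.l 0) (.l 0))) (.n 2 (.n 0 (.l 0) (.l 0)) (.n 0 (.l 0) (.l 0))))) [(2473901162496, 274877906944), (1174103130112, 91905589248), (1649267441664, 549755813888)] rfl (by decide +kernel)
end

mutual
theorem R0AD_8 : CovD 0 [pAD H BR0, pX0] [(2473901162496, 274877906944), (1357914308608, 91905589248), (549755813888, 549755813888)] :=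
  cov_of (fADX H BR0) (.n 1 (.n 2 (.n 0 (.n 1 (.n 2 (.l 0) (.l 0)) (.n 0 (.l 0) (.l 0))) (.n 1 (.l 0) (.n 2 (.l 0) (.l 0)))) (.n 0 (.n 1 (.n 2 (.l 0) (.l 0)) (.n 2 (.l 0) (.l 0))) (.n 0 (.l 0) (.l 1)))) (.n 0 (.n 2 (.n 1 (.n 0 (.n 2 (.l 0) (.l 0)) (.l 0)) (.n 0 (.n 2 (.l 0) (.l 0)) (.l 1))) (.n 1 (.n 0 (.l 0) (.l 0)) (.n 0 (.l 0) (.l 0)))) (.l 1))) [(2473901162496, 274877906944), (1357914308608, 91905589248), (549755813888, 549755813888)] rfl (by decide +kernel)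
theorem R0AD_9 : CovD 0 [pAD H BR0, pX0] [(2473901162496, 274877906944), (1357914308608, 91905589248), (1649267441664, 549755813888)] :=
  cov_of (fADX H BR0) (.n 1 (.n 2 (.n 0 (.n 0 (.n 2 (.l 0) (.l 0)) (.l 0)) (.n 0 (.l 0) (.l 1))) (.n 0 (.n 0 (.l 0) (.l 0)) (.n 0 (.l 0) (.l 1)))) (.n 0 (.n 2 (.n 1 (.n 2 (.l 0) (.l 0)) (.n 0 (.l 0) (.l 0))) (.n 1 (.n 2 (.l 0) (.l 0)) (.n 0 (.l 0) (.l 1)))) (.l 1))) [(2473901162496, 274877906944), (1357914308608, 91905589248), (1649267441664, 549755813888)] rfl (by decide +kernel)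
end

mutual
theorem R0G : CovD 1 [pG H BR0, pX1] [(2473901162496, 274877906944), (1082197540864, 367622356992), (1099511627776, 1099511627776)] :=
  cov_of (fGX H BR0) (.n 1 (.n 1 (.n 1 (.n 2 (.l 0) (.l 0)) (.n 2 (.l 0) (.l 0))) (.n 1 (.n 2 (.l 0) (.l 0)) (.n 2 (.l 0) (.l 0)))) (.n 1 (.n 2 (.n 2 (.l 0) (.l 0)) (.n 2 (.l 0) (.l 0))) (.n 2 (.n 2 (.l 0) (.l 0)) (.n 2 (.l 0) (.l 0))))) [(2473901162496, 274877906944), (1082197540864, 367622356992), (1099511627776, 1099511627776)] rfl (by decide +kernel)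
theorem R0RT_0 : CovD 1 [pRT H BR0, pX1] [(2473901162496, 274877906944), (898386362368, 183811178496), (1099511627776, 1099511627776)] :=
  cov_of (fRTX H BR0) (.n 1 (.n 1 (.n 2 (.n 1 (.n 0 (.l 0) (.l 0)) (.l 0)) (.l 0)) (.n 2 (.n 2 (.l 0) (.l 0)) (.l 0))) (.n 1 (.n 2 (.l 0) (.n 2 (.l 0) (.l 0))) (.n 2 (.n 2 (.l 0) (.l 0)) (.n 2 (.l 0) (.l 0))))) [(2473901162496, 274877906944), (898386362368, 183811178496), (1099511627776, 1099511627776)] rfl (by decide +kernel)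
end

mutual
theorem R0RT_2 : CovD 1 [pRT H BR0, pX1] [(2473901162496, 274877906944), (1174103130112, 91905589248), (1099511627776, 1099511627776)] :=
  cov_of (fRTX H BR0) (.n 2 (.n 1 (.n 2 (.l 0) (.l 0)) (.n 2 (.l 0) (.n 0 (.l 0) (.l 0)))) (.n 1 (.n 0 (.n 2 (.l 0) (.l 0)) (.n 2 (.l 0) (.l 0))) (.n 0 (.n 2 (.l 0) (.l 0)) (.n 2 (.l 0) (.l 0))))) [(2473901162496, 274877906944), (1174103130112, 91905589248), (1099511627776, 1099511627776)] rfl (by decide +kernel)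
theorem R0RT_3 : CovD 1 [pRT H BR0, pX1] [(2473901162496, 274877906944), (1357914308608, 91905589248), (1099511627776, 1099511627776)] :=
  cov_of (fRTX H BR0) (.n 2 (.n 1 (.n 2 (.n 0 (.l 0) (.l 0)) (.n 0 (.l 0) (.l 0))) (.n 0 (.n 2 (.l 0) (.l 0)) (.l 1))) (.n 1 (.n 0 (.n 2 (.l 0) (.n 2 (.l 0) (.l 0))) (.n 2 (.l 0) (.l 0))) (.n 0 (.n 2 (.n 2 (.l 0) (.l 0)) (.n 2 (.l 0) (.n 0 (.l 0) (.l 0)))) (.l 1)))) [(2473901162496, 274877906944), (1357914308608, 91905589248), (1099511627776, 1099511627776)] rfl (by decide +kernel)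
end

mutual
theorem R0RS : CovD 1 [pRS H BR0, pX1] [(2473901162496, 274877906944), (1082197540864, 367622356992), (1099511627776, 1099511627776)] :=
  cov_of (fRSX H BR0) (.n 1 (.n 2 (.l 0) (.l 0)) (.n 1 (.l 0) (.n 2 (.l 0) (.l 0)))) [(2473901162496, 274877906944), (1082197540864, 367622356992), (1099511627776, 1099511627776)] rfl (by decide +kernel)
theorem PAD : CovD 0 [pAD H BP, pX0] [(2473901162496, 274877906944), (1082197540864, 367622356992), (2199023255552, 0)] :=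
  cov_of (fADX H BP) (.n 1 (.n 1 (.n 1 (.n 0 (.l 0) (.l 0)) (.n 0 (.l 0) (.l 0))) (.n 0 (.n 0 (.l 0) (.l 0)) (.n 1 (.l 0) (.l 0)))) (.n 1 (.n 0 (.n 1 (.l 0) (.l 0)) (.n 1 (.l 0) (.l 0))) (.n 1 (.n 0 (.n 0 (.l 0) (.l 0)) (.n 0 (.l 0) (.l 0))) (.n 0 (.n 0 (.l 0) (.l 0)) (.l 1))))) [(2473901162496, 274877906944), (1082197540864, 367622356992), (2199023255552, 0)] rfl (by decide +kernel)
end

mutual
theorem PG : CovD 1 [pG H BP, pX1] [(2473901162496, 274877906944), (1082197540864, 367622356992), (2199023255552, 0)] :=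
  cov_of (fGX H BP) (.n 1 (.n 1 (.l 0) (.l 0)) (.n 1 (.l 0) (.l 0))) [(2473901162496, 274877906944), (1082197540864, 367622356992), (2199023255552, 0)] rfl (by decide +kernel)
theorem PRT : CovD 1 [pRT H BP, pX1] [(2473901162496, 274877906944), (1082197540864, 367622356992), (2199023255552, 0)] :=
  cov_of (fRTX H BP) (.n 1 (.n 1 (.n 1 (.n 0 (.l 0) (.l 0)) (.l 0)) (.n 0 (.l 0) (.l 0))) (.n 1 (.n 0 (.n 0 (.l 0) (.l 0)) (.l 0)) (.n 0 (.n 1 (.l 0) (.l 0)) (.n 1 (.l 0) (.l 1))))) [(2473901162496, 274877906944), (1082197540864, 367622356992), (2199023255552, 0)] rfl (by decide +kernel)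
end

mutual
theorem PTT : CovD 1 [pTT H BP, pX1] [(2473901162496, 274877906944), (1082197540864, 367622356992), (2199023255552, 0)] :=
  cov_of (fTTX H BP) (.n 1 (.n 1 (.n 1 (.n 0 (.l 0) (.l 0)) (.n 0 (.l 0) (.l 0))) (.n 0 (.n 0 (.l 0) (.l 0)) (.n 0 (.l 0) (.l 0)))) (.n 1 (.n 0 (.n 0 (.l 0) (.l 0)) (.n 0 (.l 0) (.l 0))) (.n 0 (.n 0 (.l 0) (.l 0)) (.n 1 (.l 0) (.l 1))))) [(2473901162496, 274877906944), (1082197540864, 367622356992), (2199023255552, 0)] rfl (by decide +kernel)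
theorem MAD : CovD 0 [pAD H BM, pX0] [(2473901162496, 274877906944), (1082197540864, 367622356992), (0, 0)] :=
  cov_of (fADX H BM) (.n 1 (.n 1 (.n 1 (.n 0 (.l 0) (.l 0)) (.n 0 (.l 0) (.l 0))) (.n 0 (.n 1 (.l 0) (.l 0)) (.n 1 (.l 0) (.l 0)))) (.n 1 (.n 0 (.n 1 (.n 0 (.l 0) (.l 0)) (.n 0 (.l 0) (.l 0))) (.n 1 (.l 0) (.l 0))) (.n 0 (.n 1 (.n 0 (.l 0) (.l 0)) (.n 0 (.l 0) (.l 0))) (.n 1 (.n 0 (.l 0) (.l 0)) (.l 1))))) [(2473901162496, 274877906944), (1082197540864, 367622356992), (0, 0)] rfl (by decide +kernel)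
end

mutual
theorem MG : CovD 1 [pG H BM, pX1] [(2473901162496, 274877906944), (1082197540864, 367622356992), (0, 0)] :=
  cov_of (fGX H BM) (.n 1 (.n 1 (.l 0) (.l 0)) (.n 1 (.l 0) (.l 0))) [(2473901162496, 274877906944), (1082197540864, 367622356992), (0, 0)] rfl (by decide +kernel)
theorem MRT : CovD 1 [pRT H BM, pX1] [(2473901162496, 274877906944), (1082197540864, 367622356992), (0, 0)] :=
  cov_of (fRTX H BM) (.n 1 (.n 1 (.n 1 (.n 0 (.l 0) (.l 0)) (.l 0)) (.n 0 (.l 0) (.l 0))) (.n 1 (.n 0 (.l 0) (.l 0)) (.n 0 (.l 0) (.n 1 (.l 0) (.l 1))))) [(2473901162496, 274877906944), (1082197540864, 367622356992), (0, 0)] rfl (by decide +kernel)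
end

mutual
theorem MTT : CovD 1 [pTT H BM, pX1] [(2473901162496, 274877906944), (1082197540864, 367622356992), (0, 0)] :=
  cov_of (fTTX H BM) (.n 1 (.n 1 (.n 1 (.n 0 (.l 0) (.l 0)) (.n 0 (.l 0) (.l 0))) (.n 0 (.l 0) (.l 0))) (.n 1 (.n 0 (.l 0) (.l 0)) (.n 0 (.l 0) (.l 0)))) [(2473901162496, 274877906944), (1082197540864, 367622356992), (0, 0)] rfl (by decide +kernel)
theorem TAD_0 : CovD 0 [pAD H BT, pX0] [(2473901162496, 274877906944), (898386362368, 183811178496), (223338299392, 0)] :=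
  cov_of (fADX H BT) (.n 1 (.n 1 (.n 0 (.l 0) (.l 0)) (.n 0 (.l 0) (.l 0))) (.n 1 (.n 0 (.l 0) (.l 0)) (.n 0 (.n 0 (.l 0) (.l 0)) (.l 0)))) [(2473901162496, 274877906944), (898386362368, 183811178496), (223338299392, 0)] rfl (by decide +kernel)
end

mutual
theorem TAD_1 : CovD 0 [pAD H BT, pX0] [(2473901162496, 274877906944), (1266008719360, 183811178496), (223338299392, 0)] :=
  cov_of (fADX H BT) (.n 1 (.n 1 (.n 0 (.n 0 (.l 0) (.l 0)) (.n 0 (.l 0) (.l 0))) (.n 0 (.n 0 (.l 0) (.l 0)) (.n 0 (.l 0) (.l 0)))) (.n 1 (.n 0 (.n 0 (.n 0 (.l 0) (.l 0)) (.n 0 (.l 0) (.l 0))) (.n 0 (.l 0) (.l 0))) (.n 0 (.n 0 (.n 1 (.l 0) (.l 0)) (.n 0 (.l 0) (.l 0))) (.l 1)))) [(2473901162496, 274877906944), (1266008719360, 183811178496), (223338299392, 0)] rfl (by decide +kernel)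
theorem TG : CovD 1 [pG H BT, pX1] [(2473901162496, 274877906944), (1082197540864, 367622356992), (223338299392, 0)] :=
  cov_of (fGX H BT) (.n 1 (.n 1 (.n 1 (.l 0) (.l 0)) (.n 0 (.l 0) (.l 0))) (.n 1 (.l 0) (.l 0))) [(2473901162496, 274877906944), (1082197540864, 367622356992), (223338299392, 0)] rfl (by decide +kernel)
end

mutual
theorem TRT : CovD 1 [pRT H BT, pX1] [(2473901162496, 274877906944), (1082197540864, 367622356992), (223338299392, 0)] :=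
  cov_of (fRTX H BT) (.n 1 (.n 1 (.n 1 (.n 0 (.l 0) (.n 0 (.l 0) (.l 0))) (.n 0 (.l 0) (.l 0))) (.n 0 (.l 0) (.l 0))) (.n 1 (.n 0 (.l 0) (.l 0)) (.n 0 (.n 0 (.l 0) (.l 0)) (.n 1 (.l 0) (.l 1))))) [(2473901162496, 274877906944), (1082197540864, 367622356992), (223338299392, 0)] rfl (by decide +kernel)
theorem TTT : CovD 1 [pTT H BT, pX1] [(2473901162496, 274877906944), (1082197540864, 367622356992), (223338299392, 0)] :=
  cov_of (fTTX H BT) (.n 1 (.n 1 (.n 1 (.n 0 (.n 1 (.n 0 (.l 0) (.l 0)) (.n 0 (.l 0) (.l 0))) (.n 1 (.l 0) (.l 0))) (.n 0 (.n 0 (.l 0) (.l 0)) (.n 0 (.l 0) (.l 0)))) (.n 0 (.n 1 (.l 0) (.l 0)) (.n 1 (.l 0) (.l 0)))) (.n 1 (.n 0 (.n 0 (.l 0) (.l 0)) (.n 0 (.l 0) (.l 0))) (.n 0 (.l 0) (.l 0)))) [(2473901162496, 274877906944), (1082197540864, 367622356992), (223338299392, 0)] rfl (by decide +kernel)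
end

end Pool.Agent.helper82.WC.S2K5
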