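import Pool.Agent.helper82.WH.Chks

/-!
Generated: constants of a cell.
-/

namespace Pool.Agent.helper82.WC.S2K5

open Pool.Agent.helper82.WH
open Pool.Agent.helper31.IC (CovD covD_split TD)

def H : HC := ⟨⟨2473901162496, 0⟩, ⟨1065156083712, 0⟩, ⟨23106551808, 0⟩, ⟨0, 9824632832⟩, ⟨155938193408, 0⟩, ⟨0, 490389110784⟩, ⟨0, 24049549312⟩, ⟨0, 98513518592⟩, ⟨547513237504, 0⟩, ⟨0, 189952360448⟩, ⟨845957431296, 0⟩, ⟨197439520768, 0⟩, ⟨261204017152, 0⟩, ⟨292972199936, 0⟩, ⟨250834190336, 0⟩, ⟨0, 593024974848⟩, ⟨0, 1058698297344⟩, ⟨0, 314149896192⟩, ⟨318366744576, 0⟩, ⟨1052571598848, 0⟩, ⟨0, 417305591808⟩, ⟨490451435520, 0⟩, ⟨15437398016, 0⟩, ⟨0, 37556781056⟩, ⟨0, 760573722624⟩, ⟨390429999104, 0⟩, ⟨0, 0⟩⟩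

def BI0 : BC := ⟨⟨0, 0, 1099511627776, 0⟩, ⟨0, 0⟩, ⟨0, 0⟩, 552074412032, 105438511104, 119200088064, 315554660352, 204782960640, 8036286464, 1441263517696, 714927505408, ⟨4823248273408, 0⟩, ⟨0, 356482285568⟩, ⟨539786870784, 0⟩, ⟨0, 0⟩, ⟨0, 0⟩⟩

def BR0 : BC := ⟨⟨0, 0, 0, 0⟩, ⟨164926717952, 0⟩, ⟨1099511627776, 0⟩, 555788402688, 103408271360, 113281269760, 319253970944, 204782960640, 9999220736, 1449702457344, 734103863296, ⟨0, 0⟩, ⟨0, 0⟩, ⟨536178786304, 0⟩, ⟨0, 0⟩, ⟨0, 0⟩⟩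

def BP : BC := ⟨⟨0, 0, 0, 0⟩, ⟨164926717952, 0⟩, ⟨1099511627776, 0⟩, 556305940480, 103546290176, 131991732224, 301159153664, 204782960640, 5100273664, 1449702457344, 698670383104, ⟨0, 0⟩, ⟨0, 0⟩, ⟨535377346560, 0⟩, ⟨0, 0⟩, ⟨1099511627776, 0⟩⟩

def BM : BC := ⟨⟨0, 0, 0, 0⟩, ⟨164926717952, 0⟩, ⟨1099511627776, 0⟩, 495257190400, 109723189248, 133114101760, 353427783680, 204782960640, 9999220736, 1425845256192, 734103863296, ⟨0, 0⟩, ⟨0, 0⟩, ⟨596353351680, 0⟩, ⟨0, 0⟩, ⟨0, 1099511627776⟩⟩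

def BT : BC := ⟨⟨0, 0, 1099511627776, 0⟩, ⟨0, 0⟩, ⟨0, 0⟩, 491203330048, 89206161408, 112889298944, 228840439808, 204782960640, 8036286464, 1441263517696, 707327426560, ⟨4569845202944, 0⟩, ⟨0, 652835028992⟩, ⟨374740615168, 0⟩, ⟨1099511627776, 0⟩, ⟨0, 0⟩⟩

end Pool.Agent.helper82.WC.S2K5
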