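import Pool.Agent.helper82.WC.S3K0A
import Pool.Agent.helper63.WG.Asm

/-!
Generated: a cell.
-/

namespace Pool.Agent.helper82.WC.S3K0

open Pool.Agent.helper82.WH Pool.Agent.helper63.WG

def cell : CC where
  H := H
  ce := 3023656976384
  he := 274877906944
  ck := 36507222016
  hk := 36507222016
  V0 := 189664657408
  θ := 1098412116148
  t1 := 5
  al := 635655159808
  Is := [⟨1, BI0, 92744450048, 92744450048⟩, ⟨1, BI1, 304674242560, 119185342464⟩, ⟨1, BI2, 463588032512, 39728447488⟩, ⟨1, BI3, 569485819904, 66169339904⟩]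
  xH := 75161927680
  HI := [⟨0, BH0, 37580963840, 37580963840⟩]
  HR := [⟨0, BH1, 1099511627776, 1099511627776⟩]
  mT := 0
  T := BT
  lT := 1093058597982

theorem cell_ok : cell.ok = true := by decide +kernel

theorem cell_cert : cell.Cert where
  I := by
    intro q hq
    simp only [cell, List.mem_cons, List.not_mem_nil, or_false] at hq
    rcases hq with rfl | rfl | rfl | rfl
    · exact ⟨I0AD, I0G, I0RT⟩
    · exact ⟨I1AD, I1G, I1RT⟩
    · exact ⟨I2AD, I2G, I2RT⟩
    · exact ⟨I3AD, I3G, I3RT⟩
  HI := by
    intro q hq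
    simp only [cell, List.mem_cons, List.not_mem_nil, or_false] at hq
    subst hq
    exact H0H
  HR := by
    intro q hq
    simp only [cell, List.mem_cons, List.not_mem_nil, or_false] at hq
    subst hq
    exact H1H
  T := ⟨⟨TAD, TG, TRT⟩, TTT⟩

theorem box : BoxOK 2748779069440 3298534883328 0 73014444032 :=
  cell.box cell_ok (by decide +kernel) cell_cert

end Pool.Agent.helper82.WC.S3K0
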