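import Pool.Agent.helper82.WC.S3K0P

/-!
Generated certificates (in pairs, so that they are checked one after the other).
-/

namespace Pool.Agent.helper82.WC.S3K0

open Pool.Agent.helper82.WH
open Pool.Agent.helper31.IC (CovD covD_split TD)

mutual
theorem I0RT_46 : CovD 1 [pRT H BI0, pK1 H BI0] [(3023656976384, 274877906944), (63887638528, 9126805504), (72456601600, 2898264064)] :=
  cov_of (fRTK H BI0) (.n 2 (.n 2 (.n 1 (.n 0 (.l 0) (.l 0)) (.l 0)) (.n 1 (.n 0 (.l 0) (.l 0)) (.l 0))) (.n 2 (.n 1 (.l 0) (.l 0)) (.n 1 (.l 0) (.l 0)))) [(3023656976384, 274877906944), (63887638528, 9126805504), (72456601600, 2898264064)] rfl (by decide +kernel)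
theorem I0RT_47 : CovD 1 [pRT H BI0, pK1 H BI0] [(3023656976384, 274877906944), (54760833024, 18253611008), (78253129728, 2898264064)] :=
  cov_of (fRTK H BI0) (.n 1 (.n 2 (.n 2 (.n 1 (.n 0 (.l 0) (.l 0)) (.n 0 (.l 0) (.l 0))) (.n 1 (.n 0 (.l 0) (.l 0)) (.n 0 (.l 0) (.l 0)))) (.n 2 (.n 1 (.n 0 (.l 0) (.l 0)) (.l 0)) (.n 1 (.n 0 (.l 0) (.l 0)) (.l 0)))) (.n 2 (.n 2 (.n 1 (.l 0) (.l 0)) (.n 1 (.l 0) (.l 0))) (.n 2 (.n 1 (.l 0) (.l 0)) (.n 1 (.l 0) (.l 0))))) [(3023656976384, 274877906944), (54760833024, 18253611008), (78253129728, 2898264064)] rfl (by decide +kernel)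
end

mutual
theorem I0RT_50 : CovD 1 [pRT H BI0, pK1 H BI0] [(3023656976384, 274877906944), (18253611008, 18253611008), (84049657856, 2898264064)] :=
  cov_of (fRTK H BI0) (.n 2 (.n 2 (.n 1 (.n 2 (.l 0) (.l 0)) (.n 2 (.l 0) (.l 0))) (.n 1 (.n 0 (.l 0) (.l 0)) (.n 1 (.l 0) (.l 0)))) (.n 2 (.n 1 (.n 0 (.l 0) (.l 0)) (.n 1 (.l 0) (.l 0))) (.n 1 (.n 0 (.l 0) (.l 0)) (.n 1 (.l 0) (.l 0))))) [(3023656976384, 274877906944), (18253611008, 18253611008), (84049657856, 2898264064)] rfl (by decide +kernel)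
theorem I0RT_51 : CovD 1 [pRT H BI0, pK1 H BI0] [(3023656976384, 274877906944), (18253611008, 18253611008), (89846185984, 2898264064)] :=
  cov_of (fRTK H BI0) (.n 2 (.n 2 (.n 1 (.n 0 (.l 0) (.l 0)) (.n 1 (.l 0) (.l 0))) (.n 1 (.l 0) (.n 0 (.l 0) (.l 0)))) (.n 2 (.n 1 (.l 0) (.n 0 (.l 0) (.l 0))) (.n 1 (.l 0) (.n 0 (.l 0) (.l 0))))) [(3023656976384, 274877906944), (18253611008, 18253611008), (89846185984, 2898264064)] rfl (by decide +kernel)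
end

mutual
theorem I0RT_53 : CovD 1 [pRT H BI0, pK1 H BI0] [(3023656976384, 274877906944), (54760833024, 18253611008), (84049657856, 2898264064)] :=
  cov_of (fRTK H BI0) (.n 1 (.n 2 (.n 2 (.n 1 (.l 0) (.l 0)) (.n 1 (.l 0) (.l 0))) (.n 2 (.n 1 (.l 0) (.l 0)) (.n 1 (.l 0) (.l 0)))) (.n 2 (.n 2 (.n 1 (.l 0) (.l 0)) (.n 1 (.l 0) (.l 0))) (.n 2 (.n 1 (.l 0) (.l 0)) (.n 0 (.l 0) (.l 0))))) [(3023656976384, 274877906944), (54760833024, 18253611008), (84049657856, 2898264064)] rfl (by decide +kernel)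
theorem I0RT_54 : CovD 1 [pRT H BI0, pK1 H BI0] [(3023656976384, 274877906944), (54760833024, 18253611008), (89846185984, 2898264064)] :=
  cov_of (fRTK H BI0) (.n 1 (.n 2 (.n 2 (.n 1 (.l 0) (.l 0)) (.n 1 (.l 0) (.l 0))) (.n 2 (.n 0 (.l 0) (.l 0)) (.n 0 (.l 0) (.l 0)))) (.n 2 (.n 2 (.n 0 (.l 0) (.l 0)) (.n 0 (.l 0) (.l 0))) (.n 2 (.n 0 (.l 0) (.l 0)) (.n 0 (.l 0) (.l 0))))) [(3023656976384, 274877906944), (54760833024, 18253611008), (89846185984, 2898264064)] rfl (by decide +kernel)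
end

mutual
theorem I0RT_59 : CovD 1 [pRT H BI0, pK1 H BI0] [(3023656976384, 274877906944), (18253611008, 18253611008), (98540978176, 5796528128)] :=
  cov_of (fRTK H BI0) (.n 2 (.n 2 (.n 2 (.n 1 (.l 0) (.n 0 (.l 0) (.l 0))) (.n 1 (.l 0) (.n 0 (.l 0) (.l 0)))) (.n 2 (.n 1 (.l 0) (.l 0)) (.n 1 (.l 0) (.l 0)))) (.n 2 (.n 2 (.n 1 (.l 0) (.l 0)) (.n 1 (.l 0) (.l 0))) (.n 2 (.n 1 (.l 0) (.l 0)) (.n 1 (.l 0) (.l 0))))) [(3023656976384, 274877906944), (18253611008, 18253611008), (98540978176, 5796528128)] rfl (by decide +kernel)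
theorem I0RT_60 : CovD 1 [pRT H BI0, pK1 H BI0] [(3023656976384, 274877906944), (54760833024, 18253611008), (98540978176, 5796528128)] :=
  cov_of (fRTK H BI0) (.n 2 (.n 1 (.n 2 (.n 2 (.n 0 (.l 0) (.l 0)) (.n 0 (.l 0) (.l 0))) (.n 2 (.n 0 (.l 0) (.l 0)) (.n 0 (.l 0) (.l 0)))) (.n 2 (.n 2 (.n 0 (.l 0) (.l 0)) (.n 0 (.l 0) (.l 0))) (.n 2 (.n 0 (.l 0) (.l 0)) (.l 0)))) (.n 1 (.n 2 (.n 2 (.l 0) (.l 0)) (.n 2 (.l 0) (.l 0))) (.n 2 (.n 2 (.l 0) (.l 0)) (.n 2 (.l 0) (.l 0))))) [(3023656976384, 274877906944), (54760833024, 18253611008), (98540978176, 5796528128)] rfl (by decide +kernel)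
end

mutual
theorem I0RT_62 : CovD 1 [pRT H BI0, pK1 H BI0] [(3023656976384, 274877906944), (18253611008, 18253611008), (110134034432, 5796528128)] :=
  cov_of (fRTK H BI0) (.n 2 (.n 2 (.n 2 (.n 1 (.l 0) (.l 0)) (.n 1 (.l 0) (.l 0))) (.n 2 (.n 1 (.l 0) (.l 0)) (.n 0 (.l 0) (.l 0)))) (.n 2 (.n 2 (.n 0 (.l 0) (.l 0)) (.n 0 (.l 0) (.l 0))) (.n 2 (.n 0 (.l 0) (.l 0)) (.n 0 (.l 0) (.l 0))))) [(3023656976384, 274877906944), (18253611008, 18253611008), (110134034432, 5796528128)] rfl (by decide +kernel)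
theorem I0RT_63 : CovD 1 [pRT H BI0, pK1 H BI0] [(3023656976384, 274877906944), (54760833024, 18253611008), (110134034432, 5796528128)] :=
  cov_of (fRTK H BI0) (.n 2 (.n 2 (.n 1 (.n 2 (.l 0) (.l 0)) (.n 2 (.l 0) (.l 0))) (.n 1 (.n 2 (.l 0) (.l 0)) (.n 1 (.l 0) (.l 0)))) (.n 2 (.n 1 (.n 2 (.l 0) (.l 0)) (.n 1 (.l 0) (.l 0))) (.n 1 (.n 1 (.l 0) (.l 0)) (.n 0 (.l 0) (.l 0))))) [(3023656976384, 274877906944), (54760833024, 18253611008), (110134034432, 5796528128)] rfl (by decide +kernel)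
end

mutual
theorem I0RT_65 : CovD 1 [pRT H BI0, pK1 H BI0] [(3023656976384, 274877906944), (36507222016, 36507222016), (121727090688, 5796528128)] :=
  cov_of (fRTK H BI0) (.n 1 (.n 2 (.n 2 (.n 2 (.n 0 (.l 0) (.l 0)) (.n 0 (.l 0) (.l 0))) (.n 2 (.l 0) (.l 0))) (.n 2 (.n 2 (.l 0) (.l 0)) (.n 1 (.l 0) (.l 0)))) (.n 2 (.n 2 (.n 1 (.n 0 (.l 0) (.l 0)) (.n 0 (.l 0) (.l 0))) (.n 1 (.n 0 (.l 0) (.l 0)) (.n 0 (.l 0) (.l 0)))) (.n 2 (.n 1 (.n 0 (.l 0) (.l 0)) (.l 0)) (.n 1 (.l 0) (.l 0))))) [(3023656976384, 274877906944), (36507222016, 36507222016), (121727090688, 5796528128)] rfl (by decide +kernel)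
theorem I0RT_66 : CovD 1 [pRT H BI0, pK1 H BI0] [(3023656976384, 274877906944), (36507222016, 36507222016), (133320146944, 5796528128)] :=
  cov_of (fRTK H BI0) (.n 1 (.n 2 (.n 2 (.n 1 (.l 0) (.l 0)) (.n 0 (.l 0) (.l 0))) (.n 2 (.n 0 (.l 0) (.l 0)) (.n 0 (.l 0) (.l 0)))) (.n 2 (.n 2 (.n 1 (.l 0) (.l 0)) (.n 1 (.l 0) (.l 0))) (.n 2 (.n 1 (.n 0 (.l 0) (.l 0)) (.l 0)) (.n 1 (.n 0 (.l 0) (.l 0)) (.l 0))))) [(3023656976384, 274877906944), (36507222016, 36507222016), (133320146944, 5796528128)] rfl (by decide +kernel)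
end

mutual
theorem I0RT_69 : CovD 1 [pRT H BI0, pK1 H BI0] [(3023656976384, 274877906944), (36507222016, 36507222016), (144913203200, 5796528128)] :=
  cov_of (fRTK H BI0) (.n 1 (.n 2 (.n 2 (.n 0 (.l 0) (.l 0)) (.n 0 (.l 0) (.l 0))) (.n 2 (.n 0 (.l 0) (.l 0)) (.n 0 (.l 0) (.l 0)))) (.n 2 (.n 2 (.n 1 (.n 0 (.l 0) (.l 0)) (.n 0 (.l 0) (.l 0))) (.n 0 (.l 0) (.l 0))) (.n 2 (.n 0 (.l 0) (.l 0)) (.n 0 (.l 0) (.l 0))))) [(3023656976384, 274877906944), (36507222016, 36507222016), (144913203200, 5796528128)] rfl (by decide +kernel)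
theorem I0RT_70 : CovD 1 [pRT H BI0, pK1 H BI0] [(3023656976384, 274877906944), (36507222016, 36507222016), (156506259456, 5796528128)] :=
  cov_of (fRTK H BI0) (.n 2 (.n 1 (.n 2 (.n 0 (.l 0) (.l 0)) (.n 0 (.l 0) (.l 0))) (.n 2 (.n 0 (.l 0) (.l 0)) (.n 0 (.l 0) (.l 0)))) (.n 1 (.n 2 (.n 0 (.l 0) (.l 0)) (.n 0 (.l 0) (.l 0))) (.n 2 (.n 0 (.l 0) (.l 0)) (.n 0 (.l 0) (.l 0))))) [(3023656976384, 274877906944), (36507222016, 36507222016), (156506259456, 5796528128)] rfl (by decide +kernel)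
end

mutual
theorem I0RT_71 : CovD 1 [pRT H BI0, pK1 H BI0] [(3023656976384, 274877906944), (36507222016, 36507222016), (173895843840, 11593056256)] :=
  cov_of (fRTK H BI0) (.n 2 (.n 2 (.n 1 (.n 0 (.l 0) (.l 0)) (.n 1 (.n 0 (.l 0) (.l 0)) (.n 0 (.l 0) (.l 0)))) (.n 1 (.n 0 (.l 0) (.l 0)) (.n 0 (.l 0) (.l 0)))) (.n 2 (.n 1 (.n 0 (.l 0) (.l 0)) (.n 0 (.l 0) (.l 0))) (.n 1 (.n 0 (.l 0) (.l 0)) (.n 0 (.l 0) (.l 0))))) [(3023656976384, 274877906944), (36507222016, 36507222016), (173895843840, 11593056256)] rfl (by decide +kernel)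
theorem I1AD_2 : CovD 0 [pAD H BI1, pK0 H BI1] [(3023656976384, 274877906944), (36507222016, 36507222016), (200387067904, 14898167808)] :=
  cov_of (fADK H BI1) (.n 0 (.n 1 (.n 0 (.n 0 (.l 0) (.l 0)) (.n 0 (.l 0) (.l 0))) (.n 0 (.n 1 (.l 0) (.l 0)) (.n 1 (.l 0) (.l 0)))) (.n 1 (.n 0 (.n 1 (.l 0) (.l 0)) (.n 2 (.l 0) (.l 0))) (.n 0 (.n 2 (.l 0) (.l 0)) (.n 2 (.l 0) (.l 0))))) [(3023656976384, 274877906944), (36507222016, 36507222016), (200387067904, 14898167808)] rfl (by decide +kernel)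
end

mutual
theorem I1AD_3 : CovD 0 [pAD H BI1, pK0 H BI1] [(3023656976384, 274877906944), (36507222016, 36507222016), (230183403520, 14898167808)] :=
  cov_of (fADK H BI1) (.n 0 (.n 1 (.n 0 (.n 0 (.l 0) (.l 0)) (.n 0 (.l 0) (.l 0))) (.n 0 (.n 0 (.l 0) (.l 0)) (.n 0 (.l 0) (.l 0)))) (.n 1 (.n 0 (.n 0 (.l 0) (.l 0)) (.n 0 (.l 0) (.l 0))) (.n 0 (.n 0 (.l 0) (.l 0)) (.n 0 (.l 0) (.l 0))))) [(3023656976384, 274877906944), (36507222016, 36507222016), (230183403520, 14898167808)] rfl (by decide +kernel)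
theorem I1AD_5 : CovD 0 [pAD H BI1, pK0 H BI1] [(2886218022912, 137438953472), (36507222016, 36507222016), (274877906944, 29796335616)] :=
  cov_of (fADK H BI1) (.n 2 (.n 1 (.n 0 (.n 0 (.l 0) (.l 0)) (.n 0 (.l 0) (.l 0))) (.n 0 (.n 0 (.l 0) (.l 0)) (.n 0 (.l 0) (.l 0)))) (.n 1 (.n 0 (.l 0) (.l 0)) (.n 0 (.n 0 (.l 0) (.l 0)) (.n 0 (.l 0) (.l 0))))) [(2886218022912, 137438953472), (36507222016, 36507222016), (274877906944, 29796335616)] rfl (by decide +kernel)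
end

mutual
theorem I1AD_6 : CovD 0 [pAD H BI1, pK0 H BI1] [(3161095929856, 137438953472), (36507222016, 36507222016), (274877906944, 29796335616)] :=
  cov_of (fADK H BI1) (.n 2 (.n 1 (.n 0 (.n 0 (.l 0) (.l 0)) (.n 0 (.l 0) (.l 0))) (.n 0 (.n 0 (.l 0) (.l 0)) (.n 0 (.l 0) (.l 0)))) (.n 1 (.n 0 (.l 0) (.l 0)) (.n 0 (.n 0 (.l 0) (.l 0)) (.n 0 (.l 0) (.l 0))))) [(3161095929856, 137438953472), (36507222016, 36507222016), (274877906944, 29796335616)] rfl (by decide +kernel)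
theorem I1AD_8 : CovD 0 [pAD H BI1, pK0 H BI1] [(3023656976384, 274877906944), (36507222016, 36507222016), (334470578176, 29796335616)] :=
  cov_of (fADK H BI1) (.n 0 (.n 2 (.n 1 (.n 0 (.l 0) (.l 0)) (.n 0 (.l 0) (.l 0))) (.n 0 (.n 1 (.l 0) (.l 0)) (.n 1 (.l 0) (.l 0)))) (.n 2 (.n 0 (.n 1 (.l 0) (.l 0)) (.n 1 (.l 0) (.l 0))) (.n 0 (.n 1 (.l 0) (.l 0)) (.n 1 (.l 0) (.l 0))))) [(3023656976384, 274877906944), (36507222016, 36507222016), (334470578176, 29796335616)] rfl (by decide +kernel)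
end

mutual
theorem I1AD_9 : CovD 0 [pAD H BI1, pK0 H BI1] [(3023656976384, 274877906944), (36507222016, 36507222016), (394063249408, 29796335616)] :=
  cov_of (fADK H BI1) (.n 0 (.n 2 (.n 0 (.n 1 (.l 0) (.l 0)) (.n 1 (.l 0) (.l 0))) (.n 0 (.n 1 (.l 0) (.l 0)) (.n 1 (.l 0) (.l 0)))) (.n 2 (.n 0 (.n 1 (.l 0) (.l 0)) (.n 1 (.l 0) (.l 0))) (.n 0 (.n 1 (.l 0) (.l 0)) (.n 1 (.l 0) (.l 0))))) [(3023656976384, 274877906944), (36507222016, 36507222016), (394063249408, 29796335616)] rfl (by decide +kernel)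
theorem I1G : CovD 1 [pG H BI1, pK1 H BI1] [(3023656976384, 274877906944), (36507222016, 36507222016), (304674242560, 119185342464)] :=
  cov_of (fGK H BI1) (.n 2 (.n 2 (.l 0) (.n 2 (.l 0) (.l 0))) (.n 2 (.n 2 (.n 0 (.l 0) (.l 0)) (.n 0 (.l 0) (.l 0))) (.n 2 (.n 0 (.l 0) (.n 0 (.l 0) (.l 0))) (.n 0 (.l 0) (.n 0 (.l 0) (.l 0)))))) [(3023656976384, 274877906944), (36507222016, 36507222016), (304674242560, 119185342464)] rfl (by decide +kernel)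
end

mutual
theorem I1RT_2 : CovD 1 [pRT H BI1, pK1 H BI1] [(3023656976384, 274877906944), (36507222016, 36507222016), (200387067904, 14898167808)] :=
  cov_of (fRTK H BI1) (.n 2 (.n 2 (.n 1 (.l 0) (.n 0 (.l 0) (.l 0))) (.n 1 (.n 0 (.l 0) (.l 0)) (.l 0))) (.n 2 (.n 1 (.n 0 (.l 0) (.l 0)) (.l 0)) (.n 1 (.n 0 (.l 0) (.l 0)) (.n 0 (.l 0) (.l 0))))) [(3023656976384, 274877906944), (36507222016, 36507222016), (200387067904, 14898167808)] rfl (by decide +kernel)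
theorem I1RT_3 : CovD 1 [pRT H BI1, pK1 H BI1] [(3023656976384, 274877906944), (36507222016, 36507222016), (230183403520, 14898167808)] :=
  cov_of (fRTK H BI1) (.n 2 (.n 2 (.n 1 (.n 0 (.l 0) (.l 0)) (.n 0 (.l 0) (.l 0))) (.n 1 (.n 0 (.l 0) (.l 0)) (.n 0 (.l 0) (.l 0)))) (.n 2 (.n 1 (.n 0 (.l 0) (.l 0)) (.n 0 (.l 0) (.l 0))) (.n 1 (.n 0 (.l 0) (.l 0)) (.n 0 (.l 0) (.l 0))))) [(3023656976384, 274877906944), (36507222016, 36507222016), (230183403520, 14898167808)] rfl (by decide +kernel)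
end

mutual
theorem I1RT_4 : CovD 1 [pRT H BI1, pK1 H BI1] [(3023656976384, 274877906944), (36507222016, 36507222016), (274877906944, 29796335616)] :=
  cov_of (fRTK H BI1) (.n 2 (.n 2 (.n 2 (.n 1 (.n 0 (.l 0) (.l 0)) (.n 0 (.l 0) (.l 0))) (.n 1 (.n 0 (.l 0) (.l 0)) (.n 0 (.l 0) (.l 0)))) (.n 1 (.n 0 (.l 0) (.l 0)) (.n 0 (.l 0) (.l 0)))) (.n 2 (.n 0 (.n 0 (.l 0) (.l 0)) (.n 1 (.n 0 (.l 0) (.l 0)) (.l 0))) (.n 0 (.n 0 (.l 0) (.l 0)) (.n 1 (.n 0 (.l 0) (.l 0)) (.l 0))))) [(3023656976384, 274877906944), (36507222016, 36507222016), (274877906944, 29796335616)] rfl (by decide +kernel)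
theorem I1RT_6 : CovD 1 [pRT H BI1, pK1 H BI1] [(3023656976384, 274877906944), (36507222016, 36507222016), (334470578176, 29796335616)] :=
  cov_of (fRTK H BI1) (.n 2 (.n 2 (.n 0 (.n 1 (.l 0) (.l 0)) (.n 1 (.n 0 (.l 0) (.l 0)) (.l 0))) (.n 0 (.n 1 (.l 0) (.l 0)) (.n 1 (.n 0 (.l 0) (.l 0)) (.l 0)))) (.n 0 (.n 1 (.n 2 (.l 0) (.l 0)) (.n 0 (.l 0) (.l 0))) (.n 1 (.n 2 (.n 0 (.l 0) (.l 0)) (.n 0 (.l 0) (.l 0))) (.n 2 (.l 0) (.l 0))))) [(3023656976384, 274877906944), (36507222016, 36507222016), (334470578176, 29796335616)] rfl (by decide +kernel)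
end

mutual
theorem I1RT_7 : CovD 1 [pRT H BI1, pK1 H BI1] [(3023656976384, 274877906944), (36507222016, 36507222016), (394063249408, 29796335616)] :=
  cov_of (fRTK H BI1) (.n 2 (.n 0 (.n 1 (.n 2 (.l 0) (.l 0)) (.n 0 (.l 0) (.l 0))) (.n 1 (.n 2 (.n 0 (.l 0) (.l 0)) (.n 0 (.l 0) (.l 0))) (.n 2 (.l 0) (.l 0)))) (.n 0 (.n 1 (.n 2 (.l 0) (.l 0)) (.n 0 (.l 0) (.l 0))) (.n 0 (.n 1 (.n 2 (.l 0) (.l 0)) (.l 0)) (.n 1 (.n 2 (.l 0) (.l 0)) (.n 0 (.l 0) (.l 0)))))) [(3023656976384, 274877906944), (36507222016, 36507222016), (394063249408, 29796335616)] rfl (by decide +kernel)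
theorem I2AD_0 : CovD 0 [pAD H BI2, pK0 H BI2] [(2886218022912, 137438953472), (36507222016, 36507222016), (463588032512, 39728447488)] :=
  cov_of (fADK H BI2) (.n 2 (.n 0 (.n 1 (.n 0 (.l 0) (.l 0)) (.n 0 (.l 0) (.l 0))) (.n 1 (.n 0 (.l 0) (.l 0)) (.n 0 (.l 0) (.l 0)))) (.n 0 (.n 1 (.l 0) (.n 0 (.l 0) (.l 0))) (.n 1 (.l 0) (.n 0 (.l 0) (.l 0))))) [(2886218022912, 137438953472), (36507222016, 36507222016), (463588032512, 39728447488)] rfl (by decide +kernel)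
end

mutual
theorem I2AD_1 : CovD 0 [pAD H BI2, pK0 H BI2] [(3161095929856, 137438953472), (36507222016, 36507222016), (463588032512, 39728447488)] :=
  cov_of (fADK H BI2) (.n 2 (.n 0 (.n 1 (.n 0 (.l 0) (.l 0)) (.n 0 (.l 0) (.l 0))) (.n 1 (.n 0 (.l 0) (.l 0)) (.n 0 (.l 0) (.l 0)))) (.n 0 (.n 1 (.l 0) (.l 0)) (.n 1 (.l 0) (.n 0 (.l 0) (.l 0))))) [(3161095929856, 137438953472), (36507222016, 36507222016), (463588032512, 39728447488)] rfl (by decide +kernel)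
theorem I2G : CovD 1 [pG H BI2, pK1 H BI2] [(3023656976384, 274877906944), (36507222016, 36507222016), (463588032512, 39728447488)] :=
  cov_of (fGK H BI2) (.n 2 (.n 0 (.l 0) (.n 2 (.l 0) (.l 0))) (.n 0 (.l 0) (.n 2 (.l 0) (.l 0)))) [(3023656976384, 274877906944), (36507222016, 36507222016), (463588032512, 39728447488)] rfl (by decide +kernel)
end

end Pool.Agent.helper82.WC.S3K0
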