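import Pool.Agent.helper82.WC.S3K0P

/-!
Generated certificates (in pairs, so that they are checked one after the other).
-/

namespace Pool.Agent.helper82.WC.S3K0

open Pool.Agent.helper82.WH
open Pool.Agent.helper31.IC (CovD covD_split TD)

mutual
theorem I2RT : CovD 1 [pRT H BI2, pK1 H BI2] [(3023656976384, 274877906944), (36507222016, 36507222016), (463588032512, 39728447488)] :=
  cov_of (fRTK H BI2) (.n 2 (.n 0 (.n 2 (.n 0 (.l 0) (.l 0)) (.n 0 (.l 0) (.l 0))) (.n 2 (.n 1 (.n 0 (.l 0) (.l 0)) (.l 0)) (.n 1 (.n 0 (.l 0) (.l 0)) (.n 0 (.l 0) (.l 0))))) (.n 0 (.n 2 (.n 1 (.l 0) (.l 0)) (.n 1 (.n 0 (.l 0) (.l 0)) (.l 0))) (.n 0 (.n 1 (.n 2 (.l 0) (.l 0)) (.n 0 (.l 0) (.l 0))) (.n 1 (.n 2 (.l 0) (.l 0)) (.n 0 (.l 0) (.l 0)))))) [(3023656976384, 274877906944), (36507222016, 36507222016), (463588032512, 39728447488)] rfl (by decide +kernel)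
theorem I3AD_1 : CovD 0 [pAD H BI3, pK0 H BI3] [(2886218022912, 137438953472), (36507222016, 36507222016), (536401149952, 33084669952)] :=
  cov_of (fADK H BI3) (.n 2 (.n 0 (.n 1 (.n 0 (.l 0) (.l 0)) (.n 0 (.l 0) (.l 0))) (.n 1 (.n 0 (.l 0) (.l 0)) (.n 0 (.l 0) (.l 0)))) (.n 0 (.n 1 (.n 0 (.l 0) (.l 0)) (.n 2 (.l 0) (.l 0))) (.n 1 (.n 0 (.l 0) (.l 0)) (.n 2 (.l 0) (.l 0))))) [(2886218022912, 137438953472), (36507222016, 36507222016), (536401149952, 33084669952)] rfl (by decide +kernel)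
end

mutual
theorem I3AD_2 : CovD 0 [pAD H BI3, pK0 H BI3] [(3161095929856, 137438953472), (36507222016, 36507222016), (536401149952, 33084669952)] :=
  cov_of (fADK H BI3) (.n 2 (.n 0 (.n 1 (.n 0 (.l 0) (.l 0)) (.n 0 (.l 0) (.l 0))) (.n 1 (.n 0 (.l 0) (.l 0)) (.n 0 (.l 0) (.l 0)))) (.n 0 (.n 1 (.n 0 (.l 0) (.l 0)) (.n 2 (.l 0) (.l 0))) (.n 1 (.n 2 (.l 0) (.l 0)) (.n 2 (.l 0) (.l 0))))) [(3161095929856, 137438953472), (36507222016, 36507222016), (536401149952, 33084669952)] rfl (by decide +kernel)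
theorem I3AD_4 : CovD 0 [pAD H BI3, pK0 H BI3] [(2886218022912, 137438953472), (36507222016, 36507222016), (602570489856, 33084669952)] :=
  cov_of (fADK H BI3) (.n 2 (.n 0 (.n 1 (.n 2 (.l 0) (.l 0)) (.n 2 (.l 0) (.l 0))) (.n 2 (.n 1 (.l 0) (.l 0)) (.n 1 (.l 0) (.l 0)))) (.n 0 (.n 2 (.n 1 (.l 0) (.l 0)) (.n 1 (.l 0) (.l 0))) (.n 2 (.n 1 (.l 0) (.l 0)) (.n 1 (.l 0) (.l 0))))) [(2886218022912, 137438953472), (36507222016, 36507222016), (602570489856, 33084669952)] rfl (by decide +kernel)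
end

mutual
theorem I3AD_5 : CovD 0 [pAD H BI3, pK0 H BI3] [(3161095929856, 137438953472), (36507222016, 36507222016), (602570489856, 33084669952)] :=
  cov_of (fADK H BI3) (.n 2 (.n 0 (.n 2 (.n 1 (.l 0) (.l 0)) (.n 1 (.l 0) (.l 0))) (.n 2 (.n 1 (.l 0) (.l 0)) (.n 1 (.l 0) (.l 0)))) (.n 0 (.n 2 (.n 1 (.l 0) (.l 0)) (.n 1 (.l 0) (.l 0))) (.n 2 (.n 1 (.l 0) (.l 0)) (.n 1 (.l 0) (.l 0))))) [(3161095929856, 137438953472), (36507222016, 36507222016), (602570489856, 33084669952)] rfl (by decide +kernel)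
theorem I3G : CovD 1 [pG H BI3, pK1 H BI3] [(3023656976384, 274877906944), (36507222016, 36507222016), (569485819904, 66169339904)] :=
  cov_of (fGK H BI3) (.n 2 (.n 0 (.n 2 (.l 0) (.l 0)) (.n 2 (.n 2 (.n 0 (.l 0) (.l 0)) (.l 0)) (.n 0 (.l 0) (.l 0)))) (.n 0 (.n 2 (.l 0) (.l 0)) (.n 2 (.n 0 (.l 0) (.l 0)) (.n 2 (.l 0) (.n 0 (.l 0) (.l 0)))))) [(3023656976384, 274877906944), (36507222016, 36507222016), (569485819904, 66169339904)] rfl (by decide +kernel)
end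

mutual
theorem I3RT_1 : CovD 1 [pRT H BI3, pK1 H BI3] [(2886218022912, 137438953472), (36507222016, 36507222016), (536401149952, 33084669952)] :=
  cov_of (fRTK H BI3) (.n 2 (.n 0 (.n 1 (.l 0) (.l 0)) (.n 1 (.n 0 (.l 0) (.l 0)) (.l 0))) (.n 0 (.n 1 (.n 0 (.l 0) (.l 0)) (.l 0)) (.n 1 (.n 0 (.l 0) (.l 0)) (.l 0)))) [(2886218022912, 137438953472), (36507222016, 36507222016), (536401149952, 33084669952)] rfl (by decide +kernel)
theorem I3RT_2 : CovD 1 [pRT H BI3, pK1 H BI3] [(3161095929856, 137438953472), (36507222016, 36507222016), (536401149952, 33084669952)] :=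
  cov_of (fRTK H BI3) (.n 2 (.n 1 (.n 0 (.n 0 (.l 0) (.l 0)) (.n 2 (.l 0) (.l 0))) (.n 0 (.l 0) (.n 0 (.l 0) (.l 0)))) (.n 0 (.n 1 (.n 2 (.l 0) (.l 0)) (.n 0 (.l 0) (.l 0))) (.n 1 (.n 2 (.n 0 (.l 0) (.l 0)) (.n 0 (.l 0) (.l 0))) (.n 0 (.l 0) (.l 0))))) [(3161095929856, 137438953472), (36507222016, 36507222016), (536401149952, 33084669952)] rfl (by decide +kernel)
end

mutual
theorem I3RT_4 : CovD 1 [pRT H BI3, pK1 H BI3] [(3023656976384, 274877906944), (36507222016, 36507222016), (586028154880, 16542334976)] :=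
  cov_of (fRTK H BI3) (.n 0 (.n 0 (.n 1 (.n 0 (.l 0) (.l 0)) (.l 0)) (.n 1 (.n 2 (.l 0) (.l 0)) (.l 0))) (.n 0 (.n 1 (.n 2 (.n 0 (.l 0) (.l 0)) (.n 0 (.l 0) (.l 0))) (.n 0 (.l 0) (.l 0))) (.n 2 (.n 1 (.n 0 (.l 0) (.l 0)) (.l 0)) (.n 1 (.n 0 (.l 0) (.l 0)) (.l 0))))) [(3023656976384, 274877906944), (36507222016, 36507222016), (586028154880, 16542334976)] rfl (by decide +kernel)
theorem I3RT_5 : CovD 1 [pRT H BI3, pK1 H BI3] [(3023656976384, 274877906944), (36507222016, 36507222016), (619112824832, 16542334976)] :=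
  cov_of (fRTK H BI3) (.n 0 (.n 2 (.n 0 (.n 0 (.l 0) (.l 0)) (.n 0 (.l 0) (.l 0))) (.n 0 (.n 0 (.l 0) (.l 0)) (.n 0 (.l 0) (.l 0)))) (.n 0 (.n 2 (.n 1 (.n 0 (.l 0) (.l 0)) (.l 0)) (.n 1 (.l 0) (.l 0))) (.n 2 (.n 1 (.n 0 (.l 0) (.l 0)) (.l 0)) (.n 1 (.n 0 (.l 0) (.l 0)) (.l 0))))) [(3023656976384, 274877906944), (36507222016, 36507222016), (619112824832, 16542334976)] rfl (by decide +kernel)
end

mutual
theorem TAD : CovD 0 [pAD H BT] [(3023656976384, 274877906944), (36507222016, 36507222016), (635655159808, 0)] :=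
  cov_of (fAD H BT) (.n 0 (.n 0 (.n 0 (.l 0) (.l 0)) (.l 0)) (.n 0 (.l 0) (.l 0))) [(3023656976384, 274877906944), (36507222016, 36507222016), (635655159808, 0)] rfl (by decide +kernel)
theorem TG : CovD 1 [pG H BT] [(3023656976384, 274877906944), (36507222016, 36507222016), (635655159808, 0)] :=
  cov_of (fG H BT) (.l 0) [(3023656976384, 274877906944), (36507222016, 36507222016), (635655159808, 0)] rfl (by decide +kernel)
end

mutual
theorem TRT : CovD 1 [pRT H BT] [(3023656976384, 274877906944), (36507222016, 36507222016), (635655159808, 0)] :=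
  cov_of (fRT H BT) (.n 0 (.n 0 (.l 0) (.l 0)) (.n 0 (.l 0) (.n 0 (.l 0) (.l 0)))) [(3023656976384, 274877906944), (36507222016, 36507222016), (635655159808, 0)] rfl (by decide +kernel)
theorem TTT : CovD 1 [pTT H BT] [(3023656976384, 274877906944), (36507222016, 36507222016), (635655159808, 0)] :=
  cov_of (fTT H BT) (.n 0 (.l 0) (.l 0)) [(3023656976384, 274877906944), (36507222016, 36507222016), (635655159808, 0)] rfl (by decide +kernel)
end

mutual
theorem H0H : CovD 0 [pH H BH0, pJ0 H BH0] [(3023656976384, 274877906944), (36507222016, 36507222016), (37580963840, 37580963840)] :=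
  cov_of (fHJ H BH0) (.n 2 (.l 0) (.n 1 (.l 0) (.n 2 (.l 0) (.n 1 (.l 0) (.l 1))))) [(3023656976384, 274877906944), (36507222016, 36507222016), (37580963840, 37580963840)] rfl (by decide +kernel)
theorem H1H : CovD 0 [pH H BH1] [(3023656976384, 274877906944), (36507222016, 36507222016), (1099511627776, 1099511627776)] :=
  cov_of (fH H BH1) (.l 0) [(3023656976384, 274877906944), (36507222016, 36507222016), (1099511627776, 1099511627776)] rfl (by decide +kernel)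
end

end Pool.Agent.helper82.WC.S3K0
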