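import Pool.Agent.helper82.WC.S3K0C0
import Pool.Agent.helper82.WC.S3K0C1
import Pool.Agent.helper82.WC.S3K0C2

/-!
Generated certificates, assembled.
-/

namespace Pool.Agent.helper82.WC.S3K0

open Pool.Agent.helper82.WH
open Pool.Agent.helper31.IC (CovD covD_split TD)

theorem I0AD_3 : CovD 0 [pAD H BI0, pK0 H BI0] [(3023656976384, 274877906944), (54760833024, 18253611008), (23186112512, 23186112512)] :=
  covD_split 1 (by decide +kernel) I0AD_4 I0AD_5
theorem I0AD_1 : CovD 0 [pAD H BI0, pK0 H BI0] [(3023656976384, 274877906944), (36507222016, 36507222016), (23186112512, 23186112512)] :=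
  covD_split 1 (by decide +kernel) I0AD_2 I0AD_3
theorem I0AD_7 : CovD 0 [pAD H BI0, pK0 H BI0] [(2886218022912, 137438953472), (36507222016, 36507222016), (69558337536, 23186112512)] :=
  covD_split 1 (by decide +kernel) I0AD_8 I0AD_9
theorem I0AD_10 : CovD 0 [pAD H BI0, pK0 H BI0] [(3161095929856, 137438953472), (36507222016, 36507222016), (69558337536, 23186112512)] :=
  covD_split 1 (by decide +kernel) I0AD_11 I0AD_12
theorem I0AD_6 : CovD 0 [pAD H BI0, pK0 H BI0] [(3023656976384, 274877906944), (36507222016, 36507222016), (69558337536, 23186112512)] :=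
  covD_split 0 (by decide +kernel) I0AD_7 I0AD_10
theorem I0AD_0 : CovD 0 [pAD H BI0, pK0 H BI0] [(3023656976384, 274877906944), (36507222016, 36507222016), (46372225024, 46372225024)] :=
  covD_split 2 (by decide +kernel) I0AD_1 I0AD_6
theorem I0AD_15 : CovD 0 [pAD H BI0, pK0 H BI0] [(2886218022912, 137438953472), (36507222016, 36507222016), (115930562560, 23186112512)] :=
  covD_split 2 (by decide +kernel) I0AD_16 I0AD_17
theorem I0AD_18 : CovD 0 [pAD H BI0, pK0 H BI0] [(3161095929856, 137438953472), (36507222016, 36507222016), (115930562560, 23186112512)] :=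
  covD_split 2 (by decide +kernel) I0AD_19 I0AD_20
theorem I0AD_14 : CovD 0 [pAD H BI0, pK0 H BI0] [(3023656976384, 274877906944), (36507222016, 36507222016), (115930562560, 23186112512)] :=
  covD_split 0 (by decide +kernel) I0AD_15 I0AD_18
theorem I0AD_21 : CovD 0 [pAD H BI0, pK0 H BI0] [(3023656976384, 274877906944), (36507222016, 36507222016), (162302787584, 23186112512)] :=
  covD_split 0 (by decide +kernel) I0AD_22 I0AD_23
theorem I0AD_13 : CovD 0 [pAD H BI0, pK0 H BI0] [(3023656976384, 274877906944), (36507222016, 36507222016), (139116675072, 46372225024)] :=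
  covD_split 2 (by decide +kernel) I0AD_14 I0AD_21
theorem I0AD : CovD 0 [pAD H BI0, pK0 H BI0] [(3023656976384, 274877906944), (36507222016, 36507222016), (92744450048, 92744450048)] :=
  covD_split 2 (by decide +kernel) I0AD_0 I0AD_13
theorem I0RT_10 : CovD 1 [pRT H BI0, pK1 H BI0] [(3023656976384, 274877906944), (68451041280, 4563402752), (28982640640, 5796528128)] :=
  covD_split 2 (by decide +kernel) I0RT_11 I0RT_12
theorem I0RT_8 : CovD 1 [pRT H BI0, pK1 H BI0] [(3023656976384, 274877906944), (63887638528, 9126805504), (28982640640, 5796528128)] :=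
  covD_split 1 (by decide +kernel) I0RT_9 I0RT_10
theorem I0RT_13 : CovD 1 [pRT H BI0, pK1 H BI0] [(3023656976384, 274877906944), (63887638528, 9126805504), (40575696896, 5796528128)] :=
  covD_split 2 (by decide +kernel) I0RT_14 I0RT_15
theorem I0RT_7 : CovD 1 [pRT H BI0, pK1 H BI0] [(3023656976384, 274877906944), (63887638528, 9126805504), (34779168768, 11593056256)] :=
  covD_split 2 (by decide +kernel) I0RT_8 I0RT_13
theorem I0RT_5 : CovD 1 [pRT H BI0, pK1 H BI0] [(3023656976384, 274877906944), (63887638528, 9126805504), (23186112512, 23186112512)] :=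
  covD_split 2 (by decide +kernel) I0RT_6 I0RT_7
theorem I0RT_3 : CovD 1 [pRT H BI0, pK1 H BI0] [(3023656976384, 274877906944), (54760833024, 18253611008), (23186112512, 23186112512)] :=
  covD_split 1 (by decide +kernel) I0RT_4 I0RT_5
theorem I0RT_1 : CovD 1 [pRT H BI0, pK1 H BI0] [(3023656976384, 274877906944), (36507222016, 36507222016), (23186112512, 23186112512)] :=
  covD_split 1 (by decide +kernel) I0RT_2 I0RT_3
theorem I0RT_21 : CovD 1 [pRT H BI0, pK1 H BI0] [(3023656976384, 274877906944), (54760833024, 18253611008), (49270489088, 2898264064)] :=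
  covD_split 1 (by decide +kernel) I0RT_22 I0RT_23
theorem I0RT_24 : CovD 1 [pRT H BI0, pK1 H BI0] [(3023656976384, 274877906944), (54760833024, 18253611008), (55067017216, 2898264064)] :=
  covD_split 1 (by decide +kernel) I0RT_25 I0RT_26
theorem I0RT_20 : CovD 1 [pRT H BI0, pK1 H BI0] [(3023656976384, 274877906944), (54760833024, 18253611008), (52168753152, 5796528128)] :=
  covD_split 2 (by decide +kernel) I0RT_21 I0RT_24
theorem I0RT_18 : CovD 1 [pRT H BI0, pK1 H BI0] [(3023656976384, 274877906944), (36507222016, 36507222016), (52168753152, 5796528128)] :=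
  covD_split 1 (by decide +kernel) I0RT_19 I0RT_20
theorem I0RT_30 : CovD 1 [pRT H BI0, pK1 H BI0] [(3023656976384, 274877906944), (54760833024, 18253611008), (60863545344, 2898264064)] :=
  covD_split 1 (by decide +kernel) I0RT_31 I0RT_32
theorem I0RT_33 : CovD 1 [pRT H BI0, pK1 H BI0] [(3023656976384, 274877906944), (54760833024, 18253611008), (66660073472, 2898264064)] :=
  covD_split 1 (by decide +kernel) I0RT_34 I0RT_35
theorem I0RT_29 : CovD 1 [pRT H BI0, pK1 H BI0] [(3023656976384, 274877906944), (54760833024, 18253611008), (63761809408, 5796528128)] :=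
  covD_split 2 (by decide +kernel) I0RT_30 I0RT_33
theorem I0RT_27 : CovD 1 [pRT H BI0, pK1 H BI0] [(3023656976384, 274877906944), (36507222016, 36507222016), (63761809408, 5796528128)] :=
  covD_split 1 (by decide +kernel) I0RT_28 I0RT_29
theorem I0RT_17 : CovD 1 [pRT H BI0, pK1 H BI0] [(3023656976384, 274877906944), (36507222016, 36507222016), (57965281280, 11593056256)] :=
  covD_split 2 (by decide +kernel) I0RT_18 I0RT_27
theorem I0RT_39 : CovD 1 [pRT H BI0, pK1 H BI0] [(3023656976384, 274877906944), (18253611008, 18253611008), (72456601600, 2898264064)] :=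
  covD_split 2 (by decide +kernel) I0RT_40 I0RT_41
theorem I0RT_38 : CovD 1 [pRT H BI0, pK1 H BI0] [(3023656976384, 274877906944), (18253611008, 18253611008), (75354865664, 5796528128)] :=
  covD_split 2 (by decide +kernel) I0RT_39 I0RT_42
theorem I0RT_44 : CovD 1 [pRT H BI0, pK1 H BI0] [(3023656976384, 274877906944), (54760833024, 18253611008), (72456601600, 2898264064)] :=
  covD_split 1 (by decide +kernel) I0RT_45 I0RT_46
theorem I0RT_43 : CovD 1 [pRT H BI0, pK1 H BI0] [(3023656976384, 274877906944), (54760833024, 18253611008), (75354865664, 5796528128)] :=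
  covD_split 2 (by decide +kernel) I0RT_44 I0RT_47
theorem I0RT_37 : CovD 1 [pRT H BI0, pK1 H BI0] [(3023656976384, 274877906944), (36507222016, 36507222016), (75354865664, 5796528128)] :=
  covD_split 1 (by decide +kernel) I0RT_38 I0RT_43
theorem I0RT_49 : CovD 1 [pRT H BI0, pK1 H BI0] [(3023656976384, 274877906944), (18253611008, 18253611008), (86947921920, 5796528128)] :=
  covD_split 2 (by decide +kernel) I0RT_50 I0RT_51
theorem I0RT_52 : CovD 1 [pRT H BI0, pK1 H BI0] [(3023656976384, 274877906944), (54760833024, 18253611008), (86947921920, 5796528128)] :=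
  covD_split 2 (by decide +kernel) I0RT_53 I0RT_54
theorem I0RT_48 : CovD 1 [pRT H BI0, pK1 H BI0] [(3023656976384, 274877906944), (36507222016, 36507222016), (86947921920, 5796528128)] :=
  covD_split 1 (by decide +kernel) I0RT_49 I0RT_52
theorem I0RT_36 : CovD 1 [pRT H BI0, pK1 H BI0] [(3023656976384, 274877906944), (36507222016, 36507222016), (81151393792, 11593056256)] :=
  covD_split 2 (by decide +kernel) I0RT_37 I0RT_48
theorem I0RT_16 : CovD 1 [pRT H BI0, pK1 H BI0] [(3023656976384, 274877906944), (36507222016, 36507222016), (69558337536, 23186112512)] :=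
  covD_split 2 (by decide +kernel) I0RT_17 I0RT_36
theorem I0RT_0 : CovD 1 [pRT H BI0, pK1 H BI0] [(3023656976384, 274877906944), (36507222016, 36507222016), (46372225024, 46372225024)] :=
  covD_split 2 (by decide +kernel) I0RT_1 I0RT_16
theorem I0RT_58 : CovD 1 [pRT H BI0, pK1 H BI0] [(3023656976384, 274877906944), (36507222016, 36507222016), (98540978176, 5796528128)] :=
  covD_split 1 (by decide +kernel) I0RT_59 I0RT_60
theorem I0RT_61 : CovD 1 [pRT H BI0, pK1 H BI0] [(3023656976384, 274877906944), (36507222016, 36507222016), (110134034432, 5796528128)] :=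
  covD_split 1 (by decide +kernel) I0RT_62 I0RT_63
theorem I0RT_57 : CovD 1 [pRT H BI0, pK1 H BI0] [(3023656976384, 274877906944), (36507222016, 36507222016), (104337506304, 11593056256)] :=
  covD_split 2 (by decide +kernel) I0RT_58 I0RT_61
theorem I0RT_64 : CovD 1 [pRT H BI0, pK1 H BI0] [(3023656976384, 274877906944), (36507222016, 36507222016), (127523618816, 11593056256)] :=
  covD_split 2 (by decide +kernel) I0RT_65 I0RT_66
theorem I0RT_56 : CovD 1 [pRT H BI0, pK1 H BI0] [(3023656976384, 274877906944), (36507222016, 36507222016), (115930562560, 23186112512)] :=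
  covD_split 2 (by decide +kernel) I0RT_57 I0RT_64
theorem I0RT_68 : CovD 1 [pRT H BI0, pK1 H BI0] [(3023656976384, 274877906944), (36507222016, 36507222016), (150709731328, 11593056256)] :=
  covD_split 2 (by decide +kernel) I0RT_69 I0RT_70
theorem I0RT_67 : CovD 1 [pRT H BI0, pK1 H BI0] [(3023656976384, 274877906944), (36507222016, 36507222016), (162302787584, 23186112512)] :=
  covD_split 2 (by decide +kernel) I0RT_68 I0RT_71
theorem I0RT_55 : CovD 1 [pRT H BI0, pK1 H BI0] [(3023656976384, 274877906944), (36507222016, 36507222016), (139116675072, 46372225024)] :=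
  covD_split 2 (by decide +kernel) I0RT_56 I0RT_67
theorem I0RT : CovD 1 [pRT H BI0, pK1 H BI0] [(3023656976384, 274877906944), (36507222016, 36507222016), (92744450048, 92744450048)] :=
  covD_split 2 (by decide +kernel) I0RT_0 I0RT_55
theorem I1AD_1 : CovD 0 [pAD H BI1, pK0 H BI1] [(3023656976384, 274877906944), (36507222016, 36507222016), (215285235712, 29796335616)] :=
  covD_split 2 (by decide +kernel) I1AD_2 I1AD_3
theorem I1AD_4 : CovD 0 [pAD H BI1, pK0 H BI1] [(3023656976384, 274877906944), (36507222016, 36507222016), (274877906944, 29796335616)] :=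
  covD_split 0 (by decide +kernel) I1AD_5 I1AD_6
theorem I1AD_0 : CovD 0 [pAD H BI1, pK0 H BI1] [(3023656976384, 274877906944), (36507222016, 36507222016), (245081571328, 59592671232)] :=
  covD_split 2 (by decide +kernel) I1AD_1 I1AD_4
theorem I1AD_7 : CovD 0 [pAD H BI1, pK0 H BI1] [(3023656976384, 274877906944), (36507222016, 36507222016), (364266913792, 59592671232)] :=
  covD_split 2 (by decide +kernel) I1AD_8 I1AD_9
theorem I1AD : CovD 0 [pAD H BI1, pK0 H BI1] [(3023656976384, 274877906944), (36507222016, 36507222016), (304674242560, 119185342464)] :=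
  covD_split 2 (by decide +kernel) I1AD_0 I1AD_7
theorem I1RT_1 : CovD 1 [pRT H BI1, pK1 H BI1] [(3023656976384, 274877906944), (36507222016, 36507222016), (215285235712, 29796335616)] :=
  covD_split 2 (by decide +kernel) I1RT_2 I1RT_3
theorem I1RT_0 : CovD 1 [pRT H BI1, pK1 H BI1] [(3023656976384, 274877906944), (36507222016, 36507222016), (245081571328, 59592671232)] :=
  covD_split 2 (by decide +kernel) I1RT_1 I1RT_4
theorem I1RT_5 : CovD 1 [pRT H BI1, pK1 H BI1] [(3023656976384, 274877906944), (36507222016, 36507222016), (364266913792, 59592671232)] :=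
  covD_split 2 (by decide +kernel) I1RT_6 I1RT_7
theorem I1RT : CovD 1 [pRT H BI1, pK1 H BI1] [(3023656976384, 274877906944), (36507222016, 36507222016), (304674242560, 119185342464)] :=
  covD_split 2 (by decide +kernel) I1RT_0 I1RT_5
theorem I2AD : CovD 0 [pAD H BI2, pK0 H BI2] [(3023656976384, 274877906944), (36507222016, 36507222016), (463588032512, 39728447488)] :=
  covD_split 0 (by decide +kernel) I2AD_0 I2AD_1
theorem I3AD_0 : CovD 0 [pAD H BI3, pK0 H BI3] [(3023656976384, 274877906944), (36507222016, 36507222016), (536401149952, 33084669952)] :=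
  covD_split 0 (by decide +kernel) I3AD_1 I3AD_2
theorem I3AD_3 : CovD 0 [pAD H BI3, pK0 H BI3] [(3023656976384, 274877906944), (36507222016, 36507222016), (602570489856, 33084669952)] :=
  covD_split 0 (by decide +kernel) I3AD_4 I3AD_5
theorem I3AD : CovD 0 [pAD H BI3, pK0 H BI3] [(3023656976384, 274877906944), (36507222016, 36507222016), (569485819904, 66169339904)] :=
  covD_split 2 (by decide +kernel) I3AD_0 I3AD_3
theorem I3RT_0 : CovD 1 [pRT H BI3, pK1 H BI3] [(3023656976384, 274877906944), (36507222016, 36507222016), (536401149952, 33084669952)] :=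
  covD_split 0 (by decide +kernel) I3RT_1 I3RT_2
theorem I3RT_3 : CovD 1 [pRT H BI3, pK1 H BI3] [(3023656976384, 274877906944), (36507222016, 36507222016), (602570489856, 33084669952)] :=
  covD_split 2 (by decide +kernel) I3RT_4 I3RT_5
theorem I3RT : CovD 1 [pRT H BI3, pK1 H BI3] [(3023656976384, 274877906944), (36507222016, 36507222016), (569485819904, 66169339904)] :=
  covD_split 2 (by decide +kernel) I3RT_0 I3RT_3

end Pool.Agent.helper82.WC.S3K0
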