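import Pool.Agent.helper82.WC.S3K0P

/-!
Generated certificates (in pairs, so that they are checked one after the other).
-/

namespace Pool.Agent.helper82.WC.S3K0

open Pool.Agent.helper82.WH
open Pool.Agent.helper31.IC (CovD covD_split TD)

mutual
theorem I0AD_2 : CovD 0 [pAD H BI0, pK0 H BI0] [(3023656976384, 274877906944), (18253611008, 18253611008), (23186112512, 23186112512)] :=
  cov_of (fADK H BI0) (.l 1) [(3023656976384, 274877906944), (18253611008, 18253611008), (23186112512, 23186112512)] rfl (by decide +kernel)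
theorem I0AD_4 : CovD 0 [pAD H BI0, pK0 H BI0] [(3023656976384, 274877906944), (45634027520, 9126805504), (23186112512, 23186112512)] :=
  cov_of (fADK H BI0) (.l 1) [(3023656976384, 274877906944), (45634027520, 9126805504), (23186112512, 23186112512)] rfl (by decide +kernel)
end

mutual
theorem I0AD_5 : CovD 0 [pAD H BI0, pK0 H BI0] [(3023656976384, 274877906944), (63887638528, 9126805504), (23186112512, 23186112512)] :=
  cov_of (fADK H BI0) (.n 2 (.n 1 (.l 1) (.n 1 (.l 1) (.n 0 (.n 2 (.n 0 (.l 0) (.l 0)) (.n 0 (.l 0) (.l 0))) (.n 2 (.n 0 (.l 0) (.l 0)) (.n 0 (.l 0) (.l 0)))))) (.n 0 (.n 2 (.n 1 (.l 1) (.n 0 (.l 0) (.l 0))) (.n 0 (.n 0 (.l 0) (.l 0)) (.n 0 (.l 0) (.l 0)))) (.n 2 (.n 1 (.l 1) (.n 0 (.l 0) (.l 0))) (.n 0 (.n 0 (.l 0) (.l 0)) (.n 0 (.l 0) (.l 0)))))) [(3023656976384, 274877906944), (63887638528, 9126805504), (23186112512, 23186112512)] rfl (by decide +kernel)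
theorem I0AD_8 : CovD 0 [pAD H BI0, pK0 H BI0] [(2886218022912, 137438953472), (18253611008, 18253611008), (69558337536, 23186112512)] :=
  cov_of (fADK H BI0) (.n 2 (.n 2 (.l 1) (.n 1 (.l 1) (.n 0 (.n 0 (.l 0) (.l 0)) (.n 0 (.l 0) (.l 0))))) (.n 0 (.n 1 (.n 2 (.n 0 (.l 0) (.l 0)) (.l 0)) (.n 2 (.n 0 (.l 0) (.l 0)) (.l 0))) (.n 1 (.n 2 (.n 0 (.l 0) (.l 0)) (.l 0)) (.n 2 (.n 0 (.l 0) (.l 0)) (.l 0))))) [(2886218022912, 137438953472), (18253611008, 18253611008), (69558337536, 23186112512)] rfl (by decide +kernel)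
end

mutual
theorem I0AD_9 : CovD 0 [pAD H BI0, pK0 H BI0] [(2886218022912, 137438953472), (54760833024, 18253611008), (69558337536, 23186112512)] :=
  cov_of (fADK H BI0) (.n 2 (.n 1 (.n 2 (.n 0 (.n 0 (.l 0) (.l 0)) (.n 0 (.l 0) (.l 0))) (.n 0 (.n 0 (.l 0) (.l 0)) (.n 0 (.l 0) (.l 0)))) (.n 0 (.n 2 (.n 0 (.l 0) (.l 0)) (.l 0)) (.n 2 (.n 0 (.l 0) (.l 0)) (.l 0)))) (.n 1 (.n 0 (.n 2 (.l 0) (.l 0)) (.n 2 (.l 0) (.l 0))) (.n 0 (.n 2 (.l 0) (.l 0)) (.n 2 (.l 0) (.l 0))))) [(2886218022912, 137438953472), (54760833024, 18253611008), (69558337536, 23186112512)] rfl (by decide +kernel)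
theorem I0AD_11 : CovD 0 [pAD H BI0, pK0 H BI0] [(3161095929856, 137438953472), (18253611008, 18253611008), (69558337536, 23186112512)] :=
  cov_of (fADK H BI0) (.n 2 (.n 2 (.l 1) (.n 1 (.l 1) (.n 0 (.n 0 (.l 0) (.l 0)) (.n 0 (.l 0) (.l 0))))) (.n 2 (.n 1 (.n 0 (.n 0 (.l 0) (.l 0)) (.n 0 (.l 0) (.l 0))) (.n 0 (.n 0 (.l 0) (.l 0)) (.n 0 (.l 0) (.l 0)))) (.n 1 (.n 0 (.l 0) (.l 0)) (.n 0 (.l 0) (.l 0))))) [(3161095929856, 137438953472), (18253611008, 18253611008), (69558337536, 23186112512)] rfl (by decide +kernel)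
end

mutual
theorem I0AD_12 : CovD 0 [pAD H BI0, pK0 H BI0] [(3161095929856, 137438953472), (54760833024, 18253611008), (69558337536, 23186112512)] :=
  cov_of (fADK H BI0) (.n 2 (.n 1 (.n 2 (.n 0 (.n 0 (.l 0) (.l 0)) (.n 0 (.l 0) (.l 0))) (.n 0 (.n 0 (.l 0) (.l 0)) (.n 0 (.l 0) (.l 0)))) (.n 2 (.n 0 (.n 0 (.l 0) (.l 0)) (.n 0 (.l 0) (.l 0))) (.n 0 (.l 0) (.l 0)))) (.n 1 (.n 2 (.n 0 (.l 0) (.l 0)) (.n 0 (.l 0) (.l 0))) (.n 2 (.n 0 (.l 0) (.l 0)) (.n 0 (.l 0) (.l 0))))) [(3161095929856, 137438953472), (54760833024, 18253611008), (69558337536, 23186112512)] rfl (by decide +kernel)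
theorem I0AD_16 : CovD 0 [pAD H BI0, pK0 H BI0] [(2886218022912, 137438953472), (36507222016, 36507222016), (104337506304, 11593056256)] :=
  cov_of (fADK H BI0) (.n 1 (.n 0 (.n 2 (.n 1 (.l 0) (.l 0)) (.n 0 (.l 0) (.l 0))) (.n 2 (.n 1 (.l 0) (.l 0)) (.n 0 (.l 0) (.l 0)))) (.n 0 (.n 1 (.n 0 (.l 0) (.l 0)) (.n 0 (.l 0) (.l 0))) (.n 1 (.n 0 (.l 0) (.l 0)) (.n 0 (.l 0) (.l 0))))) [(2886218022912, 137438953472), (36507222016, 36507222016), (104337506304, 11593056256)] rfl (by decide +kernel)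
end

mutual
theorem I0AD_17 : CovD 0 [pAD H BI0, pK0 H BI0] [(2886218022912, 137438953472), (36507222016, 36507222016), (127523618816, 11593056256)] :=
  cov_of (fADK H BI0) (.n 1 (.n 0 (.n 2 (.n 0 (.l 0) (.l 0)) (.l 0)) (.n 2 (.n 0 (.l 0) (.l 0)) (.l 0))) (.n 0 (.n 1 (.n 0 (.l 0) (.l 0)) (.n 0 (.l 0) (.l 0))) (.n 1 (.n 0 (.l 0) (.l 0)) (.n 0 (.l 0) (.l 0))))) [(2886218022912, 137438953472), (36507222016, 36507222016), (127523618816, 11593056256)] rfl (by decide +kernel)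
theorem I0AD_19 : CovD 0 [pAD H BI0, pK0 H BI0] [(3161095929856, 137438953472), (36507222016, 36507222016), (104337506304, 11593056256)] :=
  cov_of (fADK H BI0) (.n 1 (.n 0 (.n 2 (.n 1 (.l 0) (.l 0)) (.n 0 (.l 0) (.l 0))) (.n 2 (.n 1 (.l 0) (.l 0)) (.n 0 (.l 0) (.l 0)))) (.n 0 (.n 1 (.n 0 (.l 0) (.l 0)) (.n 0 (.l 0) (.l 0))) (.n 1 (.n 2 (.l 0) (.l 0)) (.n 0 (.l 0) (.l 0))))) [(3161095929856, 137438953472), (36507222016, 36507222016), (104337506304, 11593056256)] rfl (by decide +kernel)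
end

mutual
theorem I0AD_20 : CovD 0 [pAD H BI0, pK0 H BI0] [(3161095929856, 137438953472), (36507222016, 36507222016), (127523618816, 11593056256)] :=
  cov_of (fADK H BI0) (.n 1 (.n 0 (.n 2 (.n 0 (.l 0) (.l 0)) (.l 0)) (.n 2 (.n 0 (.l 0) (.l 0)) (.l 0))) (.n 0 (.n 1 (.n 0 (.l 0) (.l 0)) (.n 0 (.l 0) (.l 0))) (.n 1 (.n 0 (.l 0) (.l 0)) (.n 0 (.l 0) (.l 0))))) [(3161095929856, 137438953472), (36507222016, 36507222016), (127523618816, 11593056256)] rfl (by decide +kernel)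
theorem I0AD_22 : CovD 0 [pAD H BI0, pK0 H BI0] [(2886218022912, 137438953472), (36507222016, 36507222016), (162302787584, 23186112512)] :=
  cov_of (fADK H BI0) (.n 2 (.n 1 (.n 0 (.n 0 (.l 0) (.l 0)) (.n 1 (.l 0) (.l 0))) (.n 0 (.n 1 (.l 0) (.l 0)) (.n 1 (.l 0) (.l 0)))) (.n 1 (.n 0 (.n 0 (.l 0) (.l 0)) (.n 0 (.l 0) (.l 0))) (.n 0 (.n 0 (.l 0) (.l 0)) (.n 0 (.l 0) (.l 0))))) [(2886218022912, 137438953472), (36507222016, 36507222016), (162302787584, 23186112512)] rfl (by decide +kernel)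
end

mutual
theorem I0AD_23 : CovD 0 [pAD H BI0, pK0 H BI0] [(3161095929856, 137438953472), (36507222016, 36507222016), (162302787584, 23186112512)] :=
  cov_of (fADK H BI0) (.n 2 (.n 1 (.n 0 (.n 1 (.l 0) (.l 0)) (.n 1 (.l 0) (.l 0))) (.n 0 (.n 1 (.l 0) (.l 0)) (.n 1 (.l 0) (.l 0)))) (.n 1 (.n 0 (.n 0 (.l 0) (.l 0)) (.n 0 (.l 0) (.l 0))) (.n 0 (.n 0 (.l 0) (.l 0)) (.n 0 (.l 0) (.l 0))))) [(3161095929856, 137438953472), (36507222016, 36507222016), (162302787584, 23186112512)] rfl (by decide +kernel)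
theorem I0G : CovD 1 [pG H BI0, pK1 H BI0] [(3023656976384, 274877906944), (36507222016, 36507222016), (92744450048, 92744450048)] :=
  cov_of (fGK H BI0) (.n 2 (.l 0) (.n 2 (.l 0) (.l 0))) [(3023656976384, 274877906944), (36507222016, 36507222016), (92744450048, 92744450048)] rfl (by decide +kernel)
end

mutual
theorem I0RT_2 : CovD 1 [pRT H BI0, pK1 H BI0] [(3023656976384, 274877906944), (18253611008, 18253611008), (23186112512, 23186112512)] :=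
  cov_of (fRTK H BI0) (.l 1) [(3023656976384, 274877906944), (18253611008, 18253611008), (23186112512, 23186112512)] rfl (by decide +kernel)
theorem I0RT_4 : CovD 1 [pRT H BI0, pK1 H BI0] [(3023656976384, 274877906944), (45634027520, 9126805504), (23186112512, 23186112512)] :=
  cov_of (fRTK H BI0) (.l 1) [(3023656976384, 274877906944), (45634027520, 9126805504), (23186112512, 23186112512)] rfl (by decide +kernel)
end

mutual
theorem I0RT_6 : CovD 1 [pRT H BI0, pK1 H BI0] [(3023656976384, 274877906944), (63887638528, 9126805504), (11593056256, 11593056256)] :=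
  cov_of (fRTK H BI0) (.n 1 (.l 1) (.n 1 (.l 1) (.n 2 (.n 2 (.l 1) (.n 1 (.l 1) (.n 1 (.l 1) (.n 2 (.n 2 (.l 0) (.l 0)) (.n 2 (.l 0) (.l 0)))))) (.n 2 (.n 1 (.l 1) (.n 2 (.n 2 (.l 0) (.l 0)) (.n 2 (.l 0) (.l 0)))) (.n 2 (.n 2 (.n 1 (.l 1) (.l 0)) (.n 2 (.l 0) (.l 0))) (.n 2 (.n 1 (.l 0) (.l 0)) (.n 1 (.l 0) (.l 0)))))))) [(3023656976384, 274877906944), (63887638528, 9126805504), (11593056256, 11593056256)] rfl (by decide +kernel)
theorem I0RT_9 : CovD 1 [pRT H BI0, pK1 H BI0] [(3023656976384, 274877906944), (59324235776, 4563402752), (28982640640, 5796528128)] :=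
  cov_of (fRTK H BI0) (.l 1) [(3023656976384, 274877906944), (59324235776, 4563402752), (28982640640, 5796528128)] rfl (by decide +kernel)
end

mutual
theorem I0RT_11 : CovD 1 [pRT H BI0, pK1 H BI0] [(3023656976384, 274877906944), (68451041280, 4563402752), (26084376576, 2898264064)] :=
  cov_of (fRTK H BI0) (.n 2 (.n 1 (.l 1) (.n 2 (.n 1 (.l 0) (.l 0)) (.n 1 (.l 0) (.l 0)))) (.n 2 (.n 2 (.n 0 (.l 0) (.l 0)) (.n 0 (.l 0) (.l 0))) (.n 2 (.n 0 (.l 0) (.l 0)) (.n 0 (.l 0) (.l 0))))) [(3023656976384, 274877906944), (68451041280, 4563402752), (26084376576, 2898264064)] rfl (by decide +kernel)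
theorem I0RT_12 : CovD 1 [pRT H BI0, pK1 H BI0] [(3023656976384, 274877906944), (68451041280, 4563402752), (31880904704, 2898264064)] :=
  cov_of (fRTK H BI0) (.n 2 (.n 2 (.n 2 (.n 0 (.l 0) (.l 0)) (.n 0 (.l 0) (.l 0))) (.n 2 (.n 0 (.l 0) (.l 0)) (.n 0 (.l 0) (.l 0)))) (.n 2 (.n 2 (.n 0 (.l 0) (.l 0)) (.n 0 (.l 0) (.l 0))) (.n 2 (.l 0) (.l 0)))) [(3023656976384, 274877906944), (68451041280, 4563402752), (31880904704, 2898264064)] rfl (by decide +kernel)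
end

mutual
theorem I0RT_14 : CovD 1 [pRT H BI0, pK1 H BI0] [(3023656976384, 274877906944), (63887638528, 9126805504), (37677432832, 2898264064)] :=
  cov_of (fRTK H BI0) (.n 2 (.n 1 (.n 1 (.l 1) (.n 1 (.l 1) (.n 1 (.l 1) (.n 2 (.l 0) (.l 0))))) (.n 2 (.n 2 (.l 0) (.l 0)) (.n 2 (.l 0) (.l 0)))) (.n 1 (.n 1 (.l 1) (.n 2 (.n 2 (.l 0) (.l 0)) (.n 2 (.l 0) (.l 0)))) (.n 2 (.n 2 (.l 0) (.l 0)) (.n 2 (.l 0) (.l 0))))) [(3023656976384, 274877906944), (63887638528, 9126805504), (37677432832, 2898264064)] rfl (by decide +kernel)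
theorem I0RT_15 : CovD 1 [pRT H BI0, pK1 H BI0] [(3023656976384, 274877906944), (63887638528, 9126805504), (43473960960, 2898264064)] :=
  cov_of (fRTK H BI0) (.n 2 (.n 1 (.n 2 (.n 1 (.l 1) (.n 2 (.l 0) (.l 0))) (.n 2 (.n 0 (.l 0) (.l 0)) (.n 0 (.l 0) (.l 0)))) (.n 2 (.n 2 (.l 0) (.l 0)) (.n 2 (.l 0) (.l 0)))) (.n 1 (.n 2 (.n 2 (.n 0 (.l 0) (.l 0)) (.n 0 (.l 0) (.l 0))) (.n 2 (.n 0 (.l 0) (.l 0)) (.n 0 (.l 0) (.l 0)))) (.n 2 (.n 2 (.l 0) (.l 0)) (.n 2 (.l 0) (.l 0))))) [(3023656976384, 274877906944), (63887638528, 9126805504), (43473960960, 2898264064)] rfl (by decide +kernel)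
end

mutual
theorem I0RT_19 : CovD 1 [pRT H BI0, pK1 H BI0] [(3023656976384, 274877906944), (18253611008, 18253611008), (52168753152, 5796528128)] :=
  cov_of (fRTK H BI0) (.l 1) [(3023656976384, 274877906944), (18253611008, 18253611008), (52168753152, 5796528128)] rfl (by decide +kernel)
theorem I0RT_22 : CovD 1 [pRT H BI0, pK1 H BI0] [(3023656976384, 274877906944), (45634027520, 9126805504), (49270489088, 2898264064)] :=
  cov_of (fRTK H BI0) (.n 1 (.l 1) (.n 1 (.l 1) (.n 2 (.n 2 (.l 1) (.n 2 (.l 0) (.l 0))) (.n 2 (.n 2 (.l 0) (.l 0)) (.n 2 (.l 0) (.l 0)))))) [(3023656976384, 274877906944), (45634027520, 9126805504), (49270489088, 2898264064)] rfl (by decide +kernel)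
end

mutual
theorem I0RT_23 : CovD 1 [pRT H BI0, pK1 H BI0] [(3023656976384, 274877906944), (63887638528, 9126805504), (49270489088, 2898264064)] :=
  cov_of (fRTK H BI0) (.n 2 (.n 1 (.n 2 (.n 2 (.n 0 (.l 0) (.l 0)) (.l 0)) (.n 2 (.l 0) (.l 0))) (.n 2 (.n 2 (.l 0) (.l 0)) (.n 2 (.l 0) (.l 0)))) (.n 1 (.n 2 (.n 2 (.l 0) (.l 0)) (.n 2 (.l 0) (.l 0))) (.n 2 (.n 1 (.l 0) (.l 0)) (.n 1 (.l 0) (.l 0))))) [(3023656976384, 274877906944), (63887638528, 9126805504), (49270489088, 2898264064)] rfl (by decide +kernel)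
theorem I0RT_25 : CovD 1 [pRT H BI0, pK1 H BI0] [(3023656976384, 274877906944), (45634027520, 9126805504), (55067017216, 2898264064)] :=
  cov_of (fRTK H BI0) (.n 2 (.n 1 (.l 1) (.n 2 (.n 2 (.n 0 (.l 0) (.l 0)) (.n 0 (.l 0) (.l 0))) (.n 2 (.n 0 (.l 0) (.l 0)) (.l 0)))) (.n 2 (.n 1 (.l 1) (.n 2 (.l 0) (.l 0))) (.n 1 (.n 2 (.l 1) (.n 0 (.l 0) (.l 0))) (.n 2 (.l 0) (.l 0))))) [(3023656976384, 274877906944), (45634027520, 9126805504), (55067017216, 2898264064)] rfl (by decide +kernel)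
end

mutual
theorem I0RT_26 : CovD 1 [pRT H BI0, pK1 H BI0] [(3023656976384, 274877906944), (63887638528, 9126805504), (55067017216, 2898264064)] :=
  cov_of (fRTK H BI0) (.n 2 (.n 1 (.n 2 (.n 2 (.l 0) (.l 0)) (.n 2 (.l 0) (.l 0))) (.n 2 (.n 1 (.l 0) (.l 0)) (.n 1 (.l 0) (.l 0)))) (.n 1 (.n 2 (.n 2 (.l 0) (.l 0)) (.n 2 (.l 0) (.l 0))) (.n 2 (.n 1 (.l 0) (.l 0)) (.n 0 (.l 0) (.l 0))))) [(3023656976384, 274877906944), (63887638528, 9126805504), (55067017216, 2898264064)] rfl (by decide +kernel)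
theorem I0RT_28 : CovD 1 [pRT H BI0, pK1 H BI0] [(3023656976384, 274877906944), (18253611008, 18253611008), (63761809408, 5796528128)] :=
  cov_of (fRTK H BI0) (.n 1 (.l 1) (.n 2 (.n 2 (.l 1) (.n 2 (.l 1) (.n 1 (.l 1) (.n 2 (.l 0) (.l 0))))) (.n 2 (.n 1 (.l 1) (.n 2 (.n 2 (.l 0) (.l 0)) (.n 2 (.l 0) (.l 0)))) (.n 2 (.n 2 (.n 1 (.l 0) (.l 0)) (.n 1 (.l 0) (.l 0))) (.n 2 (.n 1 (.l 0) (.l 0)) (.n 1 (.l 0) (.l 0))))))) [(3023656976384, 274877906944), (18253611008, 18253611008), (63761809408, 5796528128)] rfl (by decide +kernel)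
end

mutual
theorem I0RT_31 : CovD 1 [pRT H BI0, pK1 H BI0] [(3023656976384, 274877906944), (45634027520, 9126805504), (60863545344, 2898264064)] :=
  cov_of (fRTK H BI0) (.n 2 (.n 2 (.n 1 (.n 1 (.l 1) (.n 2 (.l 0) (.l 0))) (.n 2 (.l 0) (.l 0))) (.n 1 (.n 2 (.l 0) (.l 0)) (.n 2 (.l 0) (.l 0)))) (.n 2 (.n 1 (.n 2 (.l 0) (.l 0)) (.n 2 (.l 0) (.l 0))) (.n 1 (.n 2 (.l 0) (.l 0)) (.n 2 (.l 0) (.l 0))))) [(3023656976384, 274877906944), (45634027520, 9126805504), (60863545344, 2898264064)] rfl (by decide +kernel)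
theorem I0RT_32 : CovD 1 [pRT H BI0, pK1 H BI0] [(3023656976384, 274877906944), (63887638528, 9126805504), (60863545344, 2898264064)] :=
  cov_of (fRTK H BI0) (.n 2 (.n 2 (.n 1 (.n 2 (.l 0) (.l 0)) (.n 0 (.l 0) (.l 0))) (.n 1 (.n 1 (.l 0) (.l 0)) (.n 0 (.l 0) (.l 0)))) (.n 2 (.n 1 (.n 1 (.l 0) (.l 0)) (.n 0 (.l 0) (.l 0))) (.n 1 (.n 1 (.l 0) (.l 0)) (.n 0 (.l 0) (.l 0))))) [(3023656976384, 274877906944), (63887638528, 9126805504), (60863545344, 2898264064)] rfl (by decide +kernel)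
end

mutual
theorem I0RT_34 : CovD 1 [pRT H BI0, pK1 H BI0] [(3023656976384, 274877906944), (45634027520, 9126805504), (66660073472, 2898264064)] :=
  cov_of (fRTK H BI0) (.n 2 (.n 2 (.n 1 (.n 2 (.l 0) (.l 0)) (.n 2 (.l 0) (.l 0))) (.n 1 (.n 2 (.l 0) (.l 0)) (.n 2 (.l 0) (.l 0)))) (.n 2 (.n 1 (.n 2 (.l 0) (.l 0)) (.n 2 (.l 0) (.l 0))) (.n 1 (.n 2 (.l 0) (.l 0)) (.n 1 (.l 0) (.l 0))))) [(3023656976384, 274877906944), (45634027520, 9126805504), (66660073472, 2898264064)] rfl (by decide +kernel)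
theorem I0RT_35 : CovD 1 [pRT H BI0, pK1 H BI0] [(3023656976384, 274877906944), (63887638528, 9126805504), (66660073472, 2898264064)] :=
  cov_of (fRTK H BI0) (.n 2 (.n 2 (.n 1 (.n 0 (.l 0) (.l 0)) (.n 0 (.l 0) (.l 0))) (.n 1 (.n 0 (.l 0) (.l 0)) (.l 0))) (.n 2 (.n 1 (.n 0 (.l 0) (.l 0)) (.l 0)) (.n 1 (.n 0 (.l 0) (.l 0)) (.l 0)))) [(3023656976384, 274877906944), (63887638528, 9126805504), (66660073472, 2898264064)] rfl (by decide +kernel)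
end

mutual
theorem I0RT_40 : CovD 1 [pRT H BI0, pK1 H BI0] [(3023656976384, 274877906944), (18253611008, 18253611008), (71007469568, 1449132032)] :=
  cov_of (fRTK H BI0) (.n 1 (.n 1 (.l 1) (.n 2 (.n 2 (.l 0) (.l 0)) (.n 2 (.l 0) (.l 0)))) (.n 2 (.n 2 (.n 1 (.l 0) (.l 0)) (.n 1 (.l 0) (.l 0))) (.n 2 (.n 1 (.l 0) (.l 0)) (.n 0 (.l 0) (.l 0))))) [(3023656976384, 274877906944), (18253611008, 18253611008), (71007469568, 1449132032)] rfl (by decide +kernel)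
theorem I0RT_41 : CovD 1 [pRT H BI0, pK1 H BI0] [(3023656976384, 274877906944), (18253611008, 18253611008), (73905733632, 1449132032)] :=
  cov_of (fRTK H BI0) (.n 1 (.n 2 (.n 2 (.l 0) (.l 0)) (.n 2 (.l 0) (.l 0))) (.n 2 (.n 2 (.n 0 (.l 0) (.l 0)) (.n 0 (.l 0) (.l 0))) (.n 2 (.n 0 (.l 0) (.l 0)) (.n 0 (.l 0) (.l 0))))) [(3023656976384, 274877906944), (18253611008, 18253611008), (73905733632, 1449132032)] rfl (by decide +kernel)
end

mutual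
theorem I0RT_42 : CovD 1 [pRT H BI0, pK1 H BI0] [(3023656976384, 274877906944), (18253611008, 18253611008), (78253129728, 2898264064)] :=
  cov_of (fRTK H BI0) (.n 2 (.n 1 (.n 2 (.n 2 (.l 0) (.l 0)) (.n 2 (.l 0) (.l 0))) (.n 2 (.n 2 (.n 0 (.l 0) (.l 0)) (.n 0 (.l 0) (.l 0))) (.n 2 (.n 0 (.l 0) (.l 0)) (.n 0 (.l 0) (.l 0))))) (.n 1 (.n 2 (.n 2 (.l 0) (.l 0)) (.n 2 (.l 0) (.l 0))) (.n 2 (.n 2 (.n 0 (.l 0) (.l 0)) (.l 0)) (.n 2 (.l 0) (.l 0))))) [(3023656976384, 274877906944), (18253611008, 18253611008), (78253129728, 2898264064)] rfl (by decide +kernel)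
theorem I0RT_45 : CovD 1 [pRT H BI0, pK1 H BI0] [(3023656976384, 274877906944), (45634027520, 9126805504), (72456601600, 2898264064)] :=
  cov_of (fRTK H BI0) (.n 2 (.n 2 (.n 1 (.n 2 (.l 0) (.l 0)) (.n 0 (.l 0) (.l 0))) (.n 1 (.n 2 (.l 0) (.l 0)) (.n 0 (.l 0) (.l 0)))) (.n 2 (.n 1 (.n 1 (.l 0) (.l 0)) (.n 0 (.l 0) (.l 0))) (.n 1 (.n 0 (.l 0) (.l 0)) (.n 0 (.l 0) (.l 0))))) [(3023656976384, 274877906944), (45634027520, 9126805504), (72456601600, 2898264064)] rfl (by decide +kernel)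
end

end Pool.Agent.helper82.WC.S3K0
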