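import Pool.Agent.helper82.WH.Chks

/-!
Generated: constants of a cell.
-/

namespace Pool.Agent.helper82.WC.S3K0

open Pool.Agent.helper82.WH
open Pool.Agent.helper31.IC (CovD covD_split TD)

def H : HC := ⟨⟨3023656976384, 0⟩, ⟨1212153856, 0⟩, ⟨0, 1054010966016⟩, ⟨0, 719956082688⟩, ⟨1235203588096, 0⟩, ⟨0, 957558620160⟩, ⟨508634988544, 0⟩, ⟨0, 122438811648⟩, ⟨865673347072, 0⟩, ⟨0, 4096862715904⟩, ⟨550276956160, 0⟩, ⟨0, 40991719424⟩, ⟨507677573120, 0⟩, ⟨1028603117568, 0⟩, ⟨810438950912, 0⟩, ⟨0, 251094368256⟩, ⟨0, 1003778473984⟩, ⟨0, 1470119608320⟩, ⟨383751684096, 0⟩, ⟨0, 948567408640⟩, ⟨2344270626816, 0⟩, ⟨1316263362560, 0⟩, ⟨1938948096, 0⟩, ⟨0, 351380832256⟩, ⟨0, 12854063857664⟩, ⟨38873834848256, 0⟩, ⟨4886691840, 0⟩⟩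

def BI0 : BC := ⟨⟨0, 0, 1099511627776, 0⟩, ⟨0, 0⟩, ⟨0, 0⟩, 147212402688, 55888773120, 48542056448, 839993589760, 189664657408, 6224347136, 925347348480, 1311105875968, ⟨15397457756160, 0⟩, ⟨0, 8967891714048⟩, ⟨945959993344, 0⟩, ⟨0, 0⟩, ⟨0, 0⟩⟩

def BI1 : BC := ⟨⟨0, 0, 1099511627776, 0⟩, ⟨0, 0⟩, ⟨0, 0⟩, 138416881664, 48458301440, 107810062336, 783086125056, 189664657408, 25820135424, 1219904929792, 1274816757760, ⟨7292854468608, 0⟩, ⟨0, 4402341478400⟩, ⟨954068959232, 0⟩, ⟨0, 0⟩, ⟨0, 0⟩⟩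

def BI2 : BC := ⟨⟨0, 0, 1099511627776, 0⟩, ⟨0, 0⟩, ⟨0, 0⟩, 119020388352, 45923696640, 109649526784, 796291891200, 189664657408, 31943819264, 1304646647808, 1123083616256, ⟨3487513444352, 0⟩, ⟨0, 3019362009088⟩, ⟨973462306816, 0⟩, ⟨0, 0⟩, ⟨0, 0⟩⟩

def BI3 : BC := ⟨⟨0, 0, 1099511627776, 0⟩, ⟨0, 0⟩, ⟨0, 0⟩, 100997464064, 37880659968, 98488745984, 817420894208, 189664657408, 43469766656, 1452722356224, 1064178810880, ⟨2104533975040, 0⟩, ⟨0, 2495375998976⟩, ⟨991693766656, 0⟩, ⟨0, 0⟩, ⟨0, 0⟩⟩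

def BT : BC := ⟨⟨0, 0, 1099511627776, 0⟩, ⟨0, 0⟩, ⟨0, 0⟩, 106944790528, 39978532864, 124623519744, 784806445056, 189664657408, 43469766656, 1452722356224, 971350474752, ⟨1473173782528, 0⟩, ⟨0, 2229088026624⟩, ⟨985388089344, 0⟩, ⟨1099511627776, 0⟩, ⟨0, 0⟩⟩

def BH0 : BC := ⟨⟨0, 0, 1099511627776, 0⟩, ⟨0, 0⟩, ⟨0, 0⟩, 0, 0, 0, 0, 0, 0, 0, 0, ⟨0, 0⟩, ⟨0, 0⟩, ⟨0, 0⟩, ⟨0, 0⟩, ⟨0, 0⟩⟩

def BH1 : BC := ⟨⟨0, 0, 0, 0⟩, ⟨137438953472, 0⟩, ⟨1099511627776, 0⟩, 0, 0, 0, 0, 0, 0, 0, 0, ⟨0, 0⟩, ⟨0, 0⟩, ⟨0, 0⟩, ⟨0, 0⟩, ⟨0, 0⟩⟩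

end Pool.Agent.helper82.WC.S3K0
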