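import Pool.Agent.helper82.WC.S3K1C0
import Pool.Agent.helper82.WC.S3K1C1

/-!
Generated certificates, assembled.
-/

namespace Pool.Agent.helper82.WC.S3K1

open Pool.Agent.helper82.WH
open Pool.Agent.helper31.IC (CovD covD_split TD)

theorem I0AD_2 : CovD 0 [pAD H BI0] [(3023656976384, 274877906944), (91536490496, 18522046464), (18605932544, 18605932544)] :=
  covD_split 1 (by decide +kernel) I0AD_3 I0AD_4
theorem I0AD_5 : CovD 0 [pAD H BI0] [(3023656976384, 274877906944), (91536490496, 18522046464), (55817797632, 18605932544)] :=
  covD_split 1 (by decide +kernel) I0AD_6 I0AD_7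
theorem I0AD_1 : CovD 0 [pAD H BI0] [(3023656976384, 274877906944), (91536490496, 18522046464), (37211865088, 37211865088)] :=
  covD_split 2 (by decide +kernel) I0AD_2 I0AD_5
theorem I0AD_9 : CovD 0 [pAD H BI0] [(3023656976384, 274877906944), (91536490496, 18522046464), (93029662720, 18605932544)] :=
  covD_split 2 (by decide +kernel) I0AD_10 I0AD_11
theorem I0AD_8 : CovD 0 [pAD H BI0] [(3023656976384, 274877906944), (91536490496, 18522046464), (111635595264, 37211865088)] :=
  covD_split 2 (by decide +kernel) I0AD_9 I0AD_12
theorem I0AD_0 : CovD 0 [pAD H BI0] [(3023656976384, 274877906944), (91536490496, 18522046464), (74423730176, 74423730176)] :=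
  covD_split 2 (by decide +kernel) I0AD_1 I0AD_8
theorem I0AD_14 : CovD 0 [pAD H BI0] [(3023656976384, 274877906944), (91536490496, 18522046464), (186059325440, 37211865088)] :=
  covD_split 2 (by decide +kernel) I0AD_15 I0AD_16
theorem I0AD_13 : CovD 0 [pAD H BI0] [(3023656976384, 274877906944), (91536490496, 18522046464), (223271190528, 74423730176)] :=
  covD_split 2 (by decide +kernel) I0AD_14 I0AD_17
theorem I0AD : CovD 0 [pAD H BI0] [(3023656976384, 274877906944), (91536490496, 18522046464), (148847460352, 148847460352)] :=
  covD_split 2 (by decide +kernel) I0AD_0 I0AD_13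
theorem I0RT_3 : CovD 1 [pRT H BI0] [(3023656976384, 274877906944), (91536490496, 18522046464), (9302966272, 9302966272)] :=
  covD_split 2 (by decide +kernel) I0RT_4 I0RT_5
theorem I0RT_6 : CovD 1 [pRT H BI0] [(3023656976384, 274877906944), (91536490496, 18522046464), (27908898816, 9302966272)] :=
  covD_split 2 (by decide +kernel) I0RT_7 I0RT_8
theorem I0RT_2 : CovD 1 [pRT H BI0] [(3023656976384, 274877906944), (91536490496, 18522046464), (18605932544, 18605932544)] :=
  covD_split 2 (by decide +kernel) I0RT_3 I0RT_6
theorem I0RT_9 : CovD 1 [pRT H BI0] [(3023656976384, 274877906944), (91536490496, 18522046464), (55817797632, 18605932544)] :=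
  covD_split 2 (by decide +kernel) I0RT_10 I0RT_11
theorem I0RT_1 : CovD 1 [pRT H BI0] [(3023656976384, 274877906944), (91536490496, 18522046464), (37211865088, 37211865088)] :=
  covD_split 2 (by decide +kernel) I0RT_2 I0RT_9
theorem I0RT_13 : CovD 1 [pRT H BI0] [(3023656976384, 274877906944), (91536490496, 18522046464), (93029662720, 18605932544)] :=
  covD_split 2 (by decide +kernel) I0RT_14 I0RT_15
theorem I0RT_12 : CovD 1 [pRT H BI0] [(3023656976384, 274877906944), (91536490496, 18522046464), (111635595264, 37211865088)] :=
  covD_split 2 (by decide +kernel) I0RT_13 I0RT_16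
theorem I0RT_0 : CovD 1 [pRT H BI0] [(3023656976384, 274877906944), (91536490496, 18522046464), (74423730176, 74423730176)] :=
  covD_split 2 (by decide +kernel) I0RT_1 I0RT_12
theorem I0RT_17 : CovD 1 [pRT H BI0] [(3023656976384, 274877906944), (91536490496, 18522046464), (223271190528, 74423730176)] :=
  covD_split 2 (by decide +kernel) I0RT_18 I0RT_19
theorem I0RT : CovD 1 [pRT H BI0] [(3023656976384, 274877906944), (91536490496, 18522046464), (148847460352, 148847460352)] :=
  covD_split 2 (by decide +kernel) I0RT_0 I0RT_17
theorem I1AD : CovD 0 [pAD H BI1] [(3023656976384, 274877906944), (91536490496, 18522046464), (423725367296, 126030446592)] :=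
  covD_split 2 (by decide +kernel) I1AD_0 I1AD_1
theorem I1RT : CovD 1 [pRT H BI1] [(3023656976384, 274877906944), (91536490496, 18522046464), (423725367296, 126030446592)] :=
  covD_split 2 (by decide +kernel) I1RT_0 I1RT_1

end Pool.Agent.helper82.WC.S3K1
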