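import Pool.Agent.helper82.WC.S3K1P

/-!
Generated certificates (in pairs, so that they are checked one after the other).
-/

namespace Pool.Agent.helper82.WC.S3K1

open Pool.Agent.helper82.WH
open Pool.Agent.helper31.IC (CovD covD_split TD)

mutual
theorem I0AD_3 : CovD 0 [pAD H BI0] [(3023656976384, 274877906944), (82275467264, 9261023232), (18605932544, 18605932544)] :=
  cov_of (fAD H BI0) (.n 0 (.n 2 (.n 0 (.n 2 (.l 0) (.n 0 (.l 0) (.l 0))) (.n 2 (.l 0) (.l 0))) (.n 0 (.n 2 (.n 0 (.l 0) (.l 0)) (.l 0)) (.n 2 (.n 0 (.l 0) (.l 0)) (.l 0)))) (.n 2 (.n 0 (.n 2 (.l 0) (.l 0)) (.n 2 (.l 0) (.l 0))) (.n 0 (.n 2 (.l 0) (.l 0)) (.n 2 (.l 0) (.l 0))))) [(3023656976384, 274877906944), (82275467264, 9261023232), (18605932544, 18605932544)] rfl (by decide +kernel)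
theorem I0AD_4 : CovD 0 [pAD H BI0] [(3023656976384, 274877906944), (100797513728, 9261023232), (18605932544, 18605932544)] :=
  cov_of (fAD H BI0) (.n 0 (.n 2 (.n 0 (.n 0 (.l 0) (.l 0)) (.n 0 (.l 0) (.l 0))) (.n 0 (.n 0 (.l 0) (.l 0)) (.n 0 (.l 0) (.l 0)))) (.n 2 (.n 0 (.n 0 (.l 0) (.l 0)) (.n 0 (.l 0) (.l 0))) (.n 0 (.n 0 (.l 0) (.l 0)) (.n 0 (.l 0) (.l 0))))) [(3023656976384, 274877906944), (100797513728, 9261023232), (18605932544, 18605932544)] rfl (by decide +kernel)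
end

mutual
theorem I0AD_6 : CovD 0 [pAD H BI0] [(3023656976384, 274877906944), (82275467264, 9261023232), (55817797632, 18605932544)] :=
  cov_of (fAD H BI0) (.n 0 (.n 2 (.n 0 (.n 2 (.l 0) (.l 0)) (.n 2 (.l 0) (.l 0))) (.n 0 (.n 0 (.l 0) (.l 0)) (.n 0 (.l 0) (.l 0)))) (.n 2 (.n 0 (.n 2 (.l 0) (.l 0)) (.n 2 (.l 0) (.l 0))) (.n 0 (.n 2 (.l 0) (.l 0)) (.n 2 (.l 0) (.l 0))))) [(3023656976384, 274877906944), (82275467264, 9261023232), (55817797632, 18605932544)] rfl (by decide +kernel)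
theorem I0AD_7 : CovD 0 [pAD H BI0] [(3023656976384, 274877906944), (100797513728, 9261023232), (55817797632, 18605932544)] :=
  cov_of (fAD H BI0) (.n 0 (.n 2 (.n 0 (.n 0 (.l 0) (.l 0)) (.n 0 (.l 0) (.l 0))) (.n 0 (.n 0 (.l 0) (.l 0)) (.n 0 (.l 0) (.l 0)))) (.n 2 (.n 0 (.n 0 (.l 0) (.l 0)) (.n 0 (.l 0) (.l 0))) (.n 0 (.n 0 (.l 0) (.l 0)) (.n 0 (.l 0) (.l 0))))) [(3023656976384, 274877906944), (100797513728, 9261023232), (55817797632, 18605932544)] rfl (by decide +kernel)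
end

mutual
theorem I0AD_10 : CovD 0 [pAD H BI0] [(3023656976384, 274877906944), (91536490496, 18522046464), (83726696448, 9302966272)] :=
  cov_of (fAD H BI0) (.n 0 (.n 0 (.n 1 (.n 0 (.l 0) (.l 0)) (.n 0 (.l 0) (.l 0))) (.n 1 (.n 0 (.l 0) (.l 0)) (.n 0 (.l 0) (.l 0)))) (.n 1 (.n 0 (.n 0 (.l 0) (.l 0)) (.n 0 (.l 0) (.l 0))) (.n 0 (.n 0 (.l 0) (.l 0)) (.n 0 (.l 0) (.l 0))))) [(3023656976384, 274877906944), (91536490496, 18522046464), (83726696448, 9302966272)] rfl (by decide +kernel)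
theorem I0AD_11 : CovD 0 [pAD H BI0] [(3023656976384, 274877906944), (91536490496, 18522046464), (102332628992, 9302966272)] :=
  cov_of (fAD H BI0) (.n 0 (.n 0 (.n 1 (.n 0 (.l 0) (.l 0)) (.l 0)) (.n 1 (.n 0 (.l 0) (.l 0)) (.l 0))) (.n 1 (.n 0 (.n 0 (.l 0) (.l 0)) (.n 0 (.l 0) (.l 0))) (.n 0 (.l 0) (.n 0 (.l 0) (.l 0))))) [(3023656976384, 274877906944), (91536490496, 18522046464), (102332628992, 9302966272)] rfl (by decide +kernel)
end

mutual
theorem I0AD_12 : CovD 0 [pAD H BI0] [(3023656976384, 274877906944), (91536490496, 18522046464), (130241527808, 18605932544)] :=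
  cov_of (fAD H BI0) (.n 0 (.n 2 (.n 0 (.n 1 (.l 0) (.l 0)) (.n 1 (.l 0) (.l 0))) (.n 0 (.n 1 (.l 0) (.l 0)) (.n 1 (.l 0) (.l 0)))) (.n 2 (.n 0 (.n 1 (.l 0) (.l 0)) (.n 1 (.l 0) (.l 0))) (.n 0 (.n 1 (.l 0) (.l 0)) (.n 1 (.l 0) (.l 0))))) [(3023656976384, 274877906944), (91536490496, 18522046464), (130241527808, 18605932544)] rfl (by decide +kernel)
theorem I0AD_15 : CovD 0 [pAD H BI0] [(3023656976384, 274877906944), (91536490496, 18522046464), (167453392896, 18605932544)] :=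
  cov_of (fAD H BI0) (.n 0 (.n 2 (.n 0 (.n 0 (.l 0) (.l 0)) (.n 0 (.l 0) (.l 0))) (.n 0 (.n 0 (.l 0) (.l 0)) (.n 0 (.l 0) (.l 0)))) (.n 2 (.n 0 (.n 1 (.l 0) (.l 0)) (.n 1 (.l 0) (.l 0))) (.n 0 (.n 0 (.l 0) (.l 0)) (.n 0 (.l 0) (.l 0))))) [(3023656976384, 274877906944), (91536490496, 18522046464), (167453392896, 18605932544)] rfl (by decide +kernel)
end

mutual
theorem I0AD_16 : CovD 0 [pAD H BI0] [(3023656976384, 274877906944), (91536490496, 18522046464), (204665257984, 18605932544)] :=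
  cov_of (fAD H BI0) (.n 0 (.n 2 (.n 0 (.n 0 (.l 0) (.l 0)) (.n 0 (.l 0) (.l 0))) (.n 0 (.l 0) (.l 0))) (.n 2 (.n 0 (.n 0 (.l 0) (.l 0)) (.n 0 (.l 0) (.l 0))) (.n 0 (.n 0 (.l 0) (.l 0)) (.n 0 (.l 0) (.l 0))))) [(3023656976384, 274877906944), (91536490496, 18522046464), (204665257984, 18605932544)] rfl (by decide +kernel)
theorem I0AD_17 : CovD 0 [pAD H BI0] [(3023656976384, 274877906944), (91536490496, 18522046464), (260483055616, 37211865088)] :=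
  cov_of (fAD H BI0) (.n 2 (.n 0 (.n 0 (.n 2 (.l 0) (.l 0)) (.n 2 (.l 0) (.l 0))) (.n 2 (.n 0 (.l 0) (.l 0)) (.n 0 (.l 0) (.l 0)))) (.n 0 (.n 0 (.n 0 (.l 0) (.l 0)) (.n 2 (.l 0) (.l 0))) (.n 2 (.n 0 (.l 0) (.l 0)) (.n 0 (.l 0) (.l 0))))) [(3023656976384, 274877906944), (91536490496, 18522046464), (260483055616, 37211865088)] rfl (by decide +kernel)
end

mutual
theorem I0G : CovD 1 [pG H BI0] [(3023656976384, 274877906944), (91536490496, 18522046464), (148847460352, 148847460352)] :=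
  cov_of (fG H BI0) (.n 2 (.n 0 (.l 0) (.l 0)) (.n 2 (.l 0) (.n 2 (.l 0) (.n 0 (.l 0) (.n 0 (.l 0) (.l 0)))))) [(3023656976384, 274877906944), (91536490496, 18522046464), (148847460352, 148847460352)] rfl (by decide +kernel)
theorem I0RT_4 : CovD 1 [pRT H BI0] [(3023656976384, 274877906944), (91536490496, 18522046464), (4651483136, 4651483136)] :=
  cov_of (fRT H BI0) (.n 2 (.n 1 (.n 2 (.n 1 (.n 1 (.l 0) (.l 0)) (.l 0)) (.n 1 (.n 1 (.l 0) (.l 0)) (.l 0))) (.n 2 (.l 0) (.l 0))) (.n 1 (.n 2 (.n 1 (.n 1 (.l 0) (.l 0)) (.l 0)) (.n 1 (.n 1 (.l 0) (.l 0)) (.l 0))) (.n 2 (.l 0) (.l 0)))) [(3023656976384, 274877906944), (91536490496, 18522046464), (4651483136, 4651483136)] rfl (by decide +kernel)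
end

mutual
theorem I0RT_5 : CovD 1 [pRT H BI0] [(3023656976384, 274877906944), (91536490496, 18522046464), (13954449408, 4651483136)] :=
  cov_of (fRT H BI0) (.n 2 (.n 1 (.n 2 (.n 1 (.n 1 (.l 0) (.l 0)) (.l 0)) (.n 1 (.n 1 (.l 0) (.l 0)) (.l 0))) (.n 2 (.l 0) (.l 0))) (.n 1 (.n 2 (.n 1 (.n 1 (.l 0) (.l 0)) (.l 0)) (.n 1 (.n 1 (.l 0) (.l 0)) (.l 0))) (.n 2 (.l 0) (.l 0)))) [(3023656976384, 274877906944), (91536490496, 18522046464), (13954449408, 4651483136)] rfl (by decide +kernel)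
theorem I0RT_7 : CovD 1 [pRT H BI0] [(3023656976384, 274877906944), (91536490496, 18522046464), (23257415680, 4651483136)] :=
  cov_of (fRT H BI0) (.n 2 (.n 1 (.n 2 (.n 1 (.n 1 (.l 0) (.l 0)) (.l 0)) (.n 2 (.n 0 (.l 0) (.l 0)) (.l 0))) (.n 2 (.l 0) (.l 0))) (.n 1 (.n 2 (.n 2 (.l 0) (.l 0)) (.n 2 (.l 0) (.l 0))) (.n 2 (.l 0) (.l 0)))) [(3023656976384, 274877906944), (91536490496, 18522046464), (23257415680, 4651483136)] rfl (by decide +kernel)
end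

mutual
theorem I0RT_8 : CovD 1 [pRT H BI0] [(3023656976384, 274877906944), (91536490496, 18522046464), (32560381952, 4651483136)] :=
  cov_of (fRT H BI0) (.n 2 (.n 1 (.n 2 (.n 2 (.l 0) (.l 0)) (.n 2 (.l 0) (.l 0))) (.n 2 (.l 0) (.l 0))) (.n 1 (.n 2 (.n 2 (.l 0) (.l 0)) (.n 1 (.l 0) (.l 0))) (.n 2 (.l 0) (.l 0)))) [(3023656976384, 274877906944), (91536490496, 18522046464), (32560381952, 4651483136)] rfl (by decide +kernel)
theorem I0RT_10 : CovD 1 [pRT H BI0] [(3023656976384, 274877906944), (91536490496, 18522046464), (46514831360, 9302966272)] :=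
  cov_of (fRT H BI0) (.n 2 (.n 2 (.n 1 (.n 2 (.n 1 (.l 0) (.l 0)) (.n 1 (.l 0) (.l 0))) (.n 2 (.l 0) (.l 0))) (.n 1 (.n 2 (.n 1 (.l 0) (.l 0)) (.n 1 (.l 0) (.l 0))) (.n 2 (.l 0) (.l 0)))) (.n 2 (.n 1 (.n 2 (.n 1 (.l 0) (.l 0)) (.n 1 (.l 0) (.l 0))) (.n 2 (.l 0) (.l 0))) (.n 1 (.n 2 (.n 1 (.l 0) (.l 0)) (.n 0 (.l 0) (.l 0))) (.n 2 (.l 0) (.l 0))))) [(3023656976384, 274877906944), (91536490496, 18522046464), (46514831360, 9302966272)] rfl (by decide +kernel)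
end

mutual
theorem I0RT_11 : CovD 1 [pRT H BI0] [(3023656976384, 274877906944), (91536490496, 18522046464), (65120763904, 9302966272)] :=
  cov_of (fRT H BI0) (.n 2 (.n 2 (.n 1 (.n 2 (.n 0 (.l 0) (.l 0)) (.n 0 (.l 0) (.l 0))) (.n 2 (.l 0) (.l 0))) (.n 1 (.n 2 (.n 0 (.l 0) (.l 0)) (.l 0)) (.n 2 (.l 0) (.l 0)))) (.n 1 (.n 2 (.n 2 (.l 0) (.l 0)) (.n 2 (.l 0) (.l 0))) (.n 2 (.n 1 (.l 0) (.l 0)) (.n 1 (.l 0) (.l 0))))) [(3023656976384, 274877906944), (91536490496, 18522046464), (65120763904, 9302966272)] rfl (by decide +kernel)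
theorem I0RT_14 : CovD 1 [pRT H BI0] [(3023656976384, 274877906944), (91536490496, 18522046464), (83726696448, 9302966272)] :=
  cov_of (fRT H BI0) (.n 2 (.n 2 (.n 1 (.n 2 (.l 0) (.l 0)) (.n 1 (.l 0) (.l 0))) (.n 1 (.n 2 (.l 0) (.l 0)) (.n 0 (.l 0) (.l 0)))) (.n 2 (.n 1 (.n 2 (.l 0) (.l 0)) (.n 0 (.l 0) (.l 0))) (.n 1 (.n 1 (.l 0) (.l 0)) (.l 0)))) [(3023656976384, 274877906944), (91536490496, 18522046464), (83726696448, 9302966272)] rfl (by decide +kernel)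
end

mutual
theorem I0RT_15 : CovD 1 [pRT H BI0] [(3023656976384, 274877906944), (91536490496, 18522046464), (102332628992, 9302966272)] :=
  cov_of (fRT H BI0) (.n 2 (.n 2 (.n 1 (.n 0 (.l 0) (.l 0)) (.l 0)) (.n 1 (.n 0 (.l 0) (.l 0)) (.l 0))) (.n 2 (.n 1 (.l 0) (.l 0)) (.n 1 (.l 0) (.l 0)))) [(3023656976384, 274877906944), (91536490496, 18522046464), (102332628992, 9302966272)] rfl (by decide +kernel)
theorem I0RT_16 : CovD 1 [pRT H BI0] [(3023656976384, 274877906944), (91536490496, 18522046464), (130241527808, 18605932544)] :=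
  cov_of (fRT H BI0) (.n 2 (.n 2 (.n 2 (.n 1 (.l 0) (.l 0)) (.n 1 (.l 0) (.l 0))) (.n 2 (.n 0 (.l 0) (.l 0)) (.n 0 (.l 0) (.l 0)))) (.n 2 (.n 2 (.n 0 (.l 0) (.l 0)) (.n 0 (.l 0) (.l 0))) (.n 2 (.n 0 (.l 0) (.l 0)) (.n 0 (.l 0) (.l 0))))) [(3023656976384, 274877906944), (91536490496, 18522046464), (130241527808, 18605932544)] rfl (by decide +kernel)
end

mutual
theorem I0RT_18 : CovD 1 [pRT H BI0] [(3023656976384, 274877906944), (91536490496, 18522046464), (186059325440, 37211865088)] :=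
  cov_of (fRT H BI0) (.n 2 (.n 2 (.n 2 (.n 1 (.l 0) (.l 0)) (.n 1 (.l 0) (.l 0))) (.n 2 (.n 0 (.l 0) (.l 0)) (.n 1 (.l 0) (.l 0)))) (.n 2 (.n 2 (.n 0 (.l 0) (.n 0 (.l 0) (.l 0))) (.n 0 (.l 0) (.n 0 (.l 0) (.l 0)))) (.n 2 (.n 0 (.l 0) (.n 0 (.l 0) (.l 0))) (.n 0 (.l 0) (.n 0 (.l 0) (.l 0)))))) [(3023656976384, 274877906944), (91536490496, 18522046464), (186059325440, 37211865088)] rfl (by decide +kernel)
theorem I0RT_19 : CovD 1 [pRT H BI0] [(3023656976384, 274877906944), (91536490496, 18522046464), (260483055616, 37211865088)] :=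
  cov_of (fRT H BI0) (.n 2 (.n 2 (.n 2 (.n 0 (.l 0) (.n 0 (.l 0) (.l 0))) (.n 0 (.l 0) (.n 0 (.l 0) (.l 0)))) (.n 0 (.n 0 (.l 0) (.l 0)) (.n 0 (.l 0) (.n 1 (.l 0) (.l 0))))) (.n 2 (.n 0 (.l 0) (.n 0 (.l 0) (.n 0 (.l 0) (.l 0)))) (.n 0 (.l 0) (.n 0 (.l 0) (.n 0 (.l 0) (.l 0)))))) [(3023656976384, 274877906944), (91536490496, 18522046464), (260483055616, 37211865088)] rfl (by decide +kernel)
end

mutual
theorem I1AD_0 : CovD 0 [pAD H BI1] [(3023656976384, 274877906944), (91536490496, 18522046464), (360710144000, 63015223296)] :=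
  cov_of (fAD H BI1) (.n 2 (.n 0 (.n 2 (.n 0 (.n 0 (.l 0) (.l 0)) (.n 0 (.l 0) (.l 0))) (.n 0 (.l 0) (.l 0))) (.n 2 (.n 0 (.n 0 (.l 0) (.l 0)) (.n 0 (.l 0) (.l 0))) (.n 0 (.l 0) (.l 0)))) (.n 0 (.n 2 (.n 0 (.l 0) (.l 0)) (.n 0 (.l 0) (.l 0))) (.n 2 (.n 0 (.l 0) (.l 0)) (.n 0 (.l 0) (.l 0))))) [(3023656976384, 274877906944), (91536490496, 18522046464), (360710144000, 63015223296)] rfl (by decide +kernel)
theorem I1AD_1 : CovD 0 [pAD H BI1] [(3023656976384, 274877906944), (91536490496, 18522046464), (486740590592, 63015223296)] :=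
  cov_of (fAD H BI1) (.n 2 (.n 0 (.n 2 (.n 0 (.l 0) (.l 0)) (.n 0 (.l 0) (.l 0))) (.n 2 (.n 0 (.l 0) (.l 0)) (.n 0 (.l 0) (.l 0)))) (.n 0 (.n 2 (.n 0 (.l 0) (.l 0)) (.n 0 (.n 0 (.l 0) (.l 0)) (.n 0 (.l 0) (.l 0)))) (.n 2 (.n 0 (.l 0) (.l 0)) (.n 2 (.l 0) (.n 0 (.l 0) (.l 0)))))) [(3023656976384, 274877906944), (91536490496, 18522046464), (486740590592, 63015223296)] rfl (by decide +kernel)
end

mutual
theorem I1G : CovD 1 [pG H BI1] [(3023656976384, 274877906944), (91536490496, 18522046464), (423725367296, 126030446592)] :=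
  cov_of (fG H BI1) (.n 2 (.n 2 (.n 0 (.l 0) (.l 0)) (.n 2 (.n 0 (.l 0) (.l 0)) (.n 0 (.l 0) (.l 0)))) (.n 2 (.n 2 (.n 0 (.l 0) (.l 0)) (.n 0 (.l 0) (.l 0))) (.n 2 (.n 0 (.l 0) (.l 0)) (.n 0 (.l 0) (.l 0))))) [(3023656976384, 274877906944), (91536490496, 18522046464), (423725367296, 126030446592)] rfl (by decide +kernel)
theorem I1RT_0 : CovD 1 [pRT H BI1] [(3023656976384, 274877906944), (91536490496, 18522046464), (360710144000, 63015223296)] :=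
  cov_of (fRT H BI1) (.n 2 (.n 2 (.n 2 (.n 0 (.l 0) (.n 0 (.l 0) (.n 0 (.l 0) (.l 0)))) (.n 0 (.l 0) (.n 0 (.l 0) (.l 0)))) (.n 0 (.n 2 (.l 0) (.l 0)) (.n 2 (.n 0 (.l 0) (.l 0)) (.n 0 (.l 0) (.l 0))))) (.n 2 (.n 0 (.n 0 (.l 0) (.l 0)) (.n 2 (.n 0 (.l 0) (.l 0)) (.l 0))) (.n 0 (.l 0) (.n 0 (.l 0) (.l 0))))) [(3023656976384, 274877906944), (91536490496, 18522046464), (360710144000, 63015223296)] rfl (by decide +kernel)
end

mutual
theorem I1RT_1 : CovD 1 [pRT H BI1] [(3023656976384, 274877906944), (91536490496, 18522046464), (486740590592, 63015223296)] :=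
  cov_of (fRT H BI1) (.n 2 (.n 2 (.n 0 (.l 0) (.n 0 (.l 0) (.l 0))) (.n 0 (.l 0) (.l 0))) (.n 2 (.n 0 (.n 0 (.l 0) (.l 0)) (.n 2 (.l 0) (.l 0))) (.n 0 (.n 2 (.l 0) (.n 0 (.l 0) (.l 0))) (.n 0 (.n 2 (.l 0) (.l 0)) (.n 2 (.l 0) (.n 1 (.l 0) (.l 0))))))) [(3023656976384, 274877906944), (91536490496, 18522046464), (486740590592, 63015223296)] rfl (by decide +kernel)
theorem R0AD : CovD 0 [pAD H BR0] [(3023656976384, 274877906944), (91536490496, 18522046464), (1099511627776, 1099511627776)] :=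
  cov_of (fAD H BR0) (.n 1 (.n 0 (.n 1 (.l 0) (.l 0)) (.n 1 (.l 0) (.l 0))) (.n 0 (.n 0 (.l 0) (.l 0)) (.n 0 (.l 0) (.l 0)))) [(3023656976384, 274877906944), (91536490496, 18522046464), (1099511627776, 1099511627776)] rfl (by decide +kernel)
end

mutual
theorem R0G : CovD 1 [pG H BR0] [(3023656976384, 274877906944), (91536490496, 18522046464), (1099511627776, 1099511627776)] :=
  cov_of (fG H BR0) (.l 0) [(3023656976384, 274877906944), (91536490496, 18522046464), (1099511627776, 1099511627776)] rfl (by decide +kernel)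
theorem R0RT : CovD 1 [pRT H BR0] [(3023656976384, 274877906944), (91536490496, 18522046464), (1099511627776, 1099511627776)] :=
  cov_of (fRT H BR0) (.n 1 (.n 1 (.l 0) (.l 0)) (.l 0)) [(3023656976384, 274877906944), (91536490496, 18522046464), (1099511627776, 1099511627776)] rfl (by decide +kernel)
end

mutual
theorem R0RS : CovD 1 [pRS H BR0] [(3023656976384, 274877906944), (91536490496, 18522046464), (1099511627776, 1099511627776)] :=
  cov_of (fRS H BR0) (.l 0) [(3023656976384, 274877906944), (91536490496, 18522046464), (1099511627776, 1099511627776)] rfl (by decide +kernel)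
theorem PAD : CovD 0 [pAD H BP] [(3023656976384, 274877906944), (91536490496, 18522046464), (2199023255552, 0)] :=
  cov_of (fAD H BP) (.n 1 (.n 0 (.n 0 (.l 0) (.l 0)) (.n 0 (.l 0) (.l 0))) (.n 0 (.n 0 (.l 0) (.l 0)) (.n 0 (.l 0) (.l 0)))) [(3023656976384, 274877906944), (91536490496, 18522046464), (2199023255552, 0)] rfl (by decide +kernel)
end

mutual
theorem PG : CovD 1 [pG H BP] [(3023656976384, 274877906944), (91536490496, 18522046464), (2199023255552, 0)] :=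
  cov_of (fG H BP) (.l 0) [(3023656976384, 274877906944), (91536490496, 18522046464), (2199023255552, 0)] rfl (by decide +kernel)
theorem PRT : CovD 1 [pRT H BP] [(3023656976384, 274877906944), (91536490496, 18522046464), (2199023255552, 0)] :=
  cov_of (fRT H BP) (.n 1 (.l 0) (.l 0)) [(3023656976384, 274877906944), (91536490496, 18522046464), (2199023255552, 0)] rfl (by decide +kernel)
end

mutual
theorem PTT : CovD 1 [pTT H BP] [(3023656976384, 274877906944), (91536490496, 18522046464), (2199023255552, 0)] :=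
  cov_of (fTT H BP) (.n 1 (.n 0 (.n 1 (.n 1 (.n 0 (.l 0) (.l 0)) (.l 0)) (.n 1 (.l 0) (.l 0))) (.n 1 (.n 1 (.l 0) (.l 0)) (.n 1 (.l 0) (.l 0)))) (.n 0 (.n 1 (.n 1 (.l 0) (.l 0)) (.n 0 (.l 0) (.l 0))) (.n 1 (.n 1 (.l 0) (.l 0)) (.n 0 (.l 0) (.l 0))))) [(3023656976384, 274877906944), (91536490496, 18522046464), (2199023255552, 0)] rfl (by decide +kernel)
theorem MAD : CovD 0 [pAD H BM] [(3023656976384, 274877906944), (91536490496, 18522046464), (0, 0)] :=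
  cov_of (fAD H BM) (.n 1 (.n 0 (.n 0 (.l 0) (.l 0)) (.n 0 (.l 0) (.l 0))) (.n 0 (.n 0 (.l 0) (.l 0)) (.n 0 (.l 0) (.l 0)))) [(3023656976384, 274877906944), (91536490496, 18522046464), (0, 0)] rfl (by decide +kernel)
end

mutual
theorem MG : CovD 1 [pG H BM] [(3023656976384, 274877906944), (91536490496, 18522046464), (0, 0)] :=
  cov_of (fG H BM) (.l 0) [(3023656976384, 274877906944), (91536490496, 18522046464), (0, 0)] rfl (by decide +kernel)
theorem MRT : CovD 1 [pRT H BM] [(3023656976384, 274877906944), (91536490496, 18522046464), (0, 0)] :=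
  cov_of (fRT H BM) (.n 1 (.l 0) (.l 0)) [(3023656976384, 274877906944), (91536490496, 18522046464), (0, 0)] rfl (by decide +kernel)
end

end Pool.Agent.helper82.WC.S3K1
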