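import Pool.Agent.helper82.WH.Chks

/-!
Generated: constants of a cell.
-/

namespace Pool.Agent.helper82.WC.S3K1

open Pool.Agent.helper82.WH
open Pool.Agent.helper31.IC (CovD covD_split TD)

def H : HC := ⟨⟨3023656976384, 0⟩, ⟨7620591616, 0⟩, ⟨0, 847609921536⟩, ⟨0, 797091889152⟩, ⟨1079877042176, 0⟩, ⟨0, 2432233111552⟩, ⟨557135757312, 0⟩, ⟨348412510208, 0⟩, ⟨3027665747968, 0⟩, ⟨0, 9980746924032⟩, ⟨553095397376, 0⟩, ⟨0, 29885661184⟩, ⟨549740085248, 0⟩, ⟨1015029301248, 0⟩, ⟨795501330432, 0⟩, ⟨0, 200745615360⟩, ⟨0, 934802030592⟩, ⟨0, 1303051763712⟩, ⟨787239796736, 0⟩, ⟨0, 1142794616832⟩, ⟨2718525095936, 0⟩, ⟨902931611648, 0⟩, ⟨1629093888, 0⟩, ⟨489955262464, 0⟩, ⟨0, 1263774597120⟩, ⟨0, 26468478746624⟩, ⟨0, 0⟩⟩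

def BI0 : BC := ⟨⟨0, 0, 1099511627776, 0⟩, ⟨0, 0⟩, ⟨0, 0⟩, 156100919296, 50090016768, 71553449984, 809626435584, 189664657408, 14126415872, 1009250205696, 1306794131456, ⟨15010910699520, 0⟩, ⟨0, 6085968658432⟩, ⟨936832729088, 0⟩, ⟨0, 0⟩, ⟨0, 0⟩⟩

def BI1 : BC := ⟨⟨0, 0, 1099511627776, 0⟩, ⟨0, 0⟩, ⟨0, 0⟩, 130804088832, 42999676928, 154254245888, 743650492416, 189664657408, 32229031936, 1348485513216, 1199151513600, ⟨4741643894784, 0⟩, ⟨0, 3783866187776⟩, ⟨961084588032, 0⟩, ⟨0, 0⟩, ⟨0, 0⟩⟩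

def BR0 : BC := ⟨⟨0, 0, 0, 0⟩, ⟨109951188992, 0⟩, ⟨1099511627776, 0⟩, 183531864064, 65106477056, 137869131776, 706979758080, 189664657408, 1912602624, 888638799872, 1308153085952, ⟨0, 0⟩, ⟨0, 0⟩, ⟨908398886912, 0⟩, ⟨0, 0⟩, ⟨0, 0⟩⟩

def BP : BC := ⟨⟨0, 0, 0, 0⟩, ⟨109951188992, 0⟩, ⟨1099511627776, 0⟩, 134946029568, 52058980352, 102193364992, 623178678272, 115447627776, 1879048192, 885837004800, 1306844463104, ⟨0, 0⟩, ⟨0, 0⟩, ⟨431866970112, 0⟩, ⟨0, 0⟩, ⟨1099511627776, 0⟩⟩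

def BM : BC := ⟨⟨0, 0, 0, 0⟩, ⟨109951188992, 0⟩, ⟨1099511627776, 0⟩, 129182138368, 50638749696, 98082816000, 634694860800, 115447627776, 1912602624, 888638799872, 1308153085952, ⟨0, 0⟩, ⟨0, 0⟩, ⟨436531232768, 0⟩, ⟨0, 0⟩, ⟨0, 1099511627776⟩⟩

def BT : BC := ⟨⟨0, 0, 1099511627776, 0⟩, ⟨0, 0⟩, ⟨0, 0⟩, 131069771776, 42265673728, 148428423168, 749761331200, 189664657408, 32229031936, 1348485513216, 1021564682240, ⟨2744484102144, 0⟩, ⟨0, 3062311682048⟩, ⟨960908886016, 0⟩, ⟨1099511627776, 0⟩, ⟨0, 0⟩⟩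

end Pool.Agent.helper82.WC.S3K1
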