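import Pool.Agent.helper82.WC.S3K2C0

/-!
Generated certificates, assembled.
-/

namespace Pool.Agent.helper82.WC.S3K2

open Pool.Agent.helper82.WH
open Pool.Agent.helper31.IC (CovD covD_split TD)

theorem I0AD_0 : CovD 0 [pAD H BI0] [(3023656976384, 274877906944), (131936026624, 21877489664), (33285996544, 33285996544)] :=
  covD_split 2 (by decide +kernel) I0AD_1 I0AD_2
theorem I0AD_3 : CovD 0 [pAD H BI0] [(3023656976384, 274877906944), (131936026624, 21877489664), (99857989632, 33285996544)] :=
  covD_split 2 (by decide +kernel) I0AD_4 I0AD_5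
theorem I0AD : CovD 0 [pAD H BI0] [(3023656976384, 274877906944), (131936026624, 21877489664), (66571993088, 66571993088)] :=
  covD_split 2 (by decide +kernel) I0AD_0 I0AD_3
theorem I0RT_0 : CovD 1 [pRT H BI0] [(3023656976384, 274877906944), (131936026624, 21877489664), (33285996544, 33285996544)] :=
  covD_split 2 (by decide +kernel) I0RT_1 I0RT_2
theorem I0RT_3 : CovD 1 [pRT H BI0] [(3023656976384, 274877906944), (131936026624, 21877489664), (99857989632, 33285996544)] :=
  covD_split 2 (by decide +kernel) I0RT_4 I0RT_5
theorem I0RT : CovD 1 [pRT H BI0] [(3023656976384, 274877906944), (131936026624, 21877489664), (66571993088, 66571993088)] :=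
  covD_split 2 (by decide +kernel) I0RT_0 I0RT_3
theorem I1AD_0 : CovD 0 [pAD H BI1] [(3023656976384, 274877906944), (131936026624, 21877489664), (166429982720, 33285996544)] :=
  covD_split 2 (by decide +kernel) I1AD_1 I1AD_2
theorem I1AD : CovD 0 [pAD H BI1] [(3023656976384, 274877906944), (131936026624, 21877489664), (199715979264, 66571993088)] :=
  covD_split 2 (by decide +kernel) I1AD_0 I1AD_3
theorem I1RT_0 : CovD 1 [pRT H BI1] [(3023656976384, 274877906944), (131936026624, 21877489664), (166429982720, 33285996544)] :=
  covD_split 2 (by decide +kernel) I1RT_1 I1RT_2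
theorem I1RT : CovD 1 [pRT H BI1] [(3023656976384, 274877906944), (131936026624, 21877489664), (199715979264, 66571993088)] :=
  covD_split 2 (by decide +kernel) I1RT_0 I1RT_3
theorem I2AD_0 : CovD 0 [pAD H BI2] [(3023656976384, 274877906944), (131936026624, 21877489664), (332859965440, 66571993088)] :=
  covD_split 2 (by decide +kernel) I2AD_1 I2AD_2
theorem I2AD : CovD 0 [pAD H BI2] [(3023656976384, 274877906944), (131936026624, 21877489664), (399431958528, 133143986176)] :=
  covD_split 2 (by decide +kernel) I2AD_0 I2AD_3
theorem I2RT_0 : CovD 1 [pRT H BI2] [(3023656976384, 274877906944), (131936026624, 21877489664), (332859965440, 66571993088)] :=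
  covD_split 2 (by decide +kernel) I2RT_1 I2RT_2
theorem I2RT : CovD 1 [pRT H BI2] [(3023656976384, 274877906944), (131936026624, 21877489664), (399431958528, 133143986176)] :=
  covD_split 2 (by decide +kernel) I2RT_0 I2RT_3

end Pool.Agent.helper82.WC.S3K2
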