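import Pool.Agent.helper82.WH.Chks

/-!
Generated: constants of a cell.
-/

namespace Pool.Agent.helper82.WC.S3K2

open Pool.Agent.helper82.WH
open Pool.Agent.helper31.IC (CovD covD_split TD)

def H : HC := ⟨⟨3023656976384, 0⟩, ⟨15831662592, 0⟩, ⟨0, 768713621504⟩, ⟨0, 793921716224⟩, ⟨997734547456, 0⟩, ⟨0, 2728069103616⟩, ⟨524668960768, 0⟩, ⟨572091334656, 0⟩, ⟨3667364741120, 0⟩, ⟨0, 11317933965312⟩, ⟨556365447168, 0⟩, ⟨0, 25696206848⟩, ⟨508061941760, 0⟩, ⟨1017184714752, 0⟩, ⟨789352742912, 0⟩, ⟨0, 256626130944⟩, ⟨0, 954745094144⟩, ⟨0, 1275507310592⟩, ⟨532024983552, 0⟩, ⟨0, 1126158041088⟩, ⟨2710882484224, 0⟩, ⟨910169931776, 0⟩, ⟨11500191744, 0⟩, ⟨1649001562112, 0⟩, ⟨0, 186607403008⟩, ⟨0, 36530175606784⟩, ⟨0, 0⟩⟩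

def BI0 : BC := ⟨⟨0, 0, 1099511627776, 0⟩, ⟨0, 0⟩, ⟨0, 0⟩, 177806639104, 58486226944, 42488889344, 813238190080, 189664657408, 5788139520, 862499897344, 1291912740864, ⟨18653042966528, 0⟩, ⟨0, 3809635991552⟩, ⟨915420741632, 0⟩, ⟨0, 0⟩, ⟨0, 0⟩⟩

def BI1 : BC := ⟨⟨0, 0, 1099511627776, 0⟩, ⟨0, 0⟩, ⟨0, 0⟩, 178808881152, 55144480768, 70804570112, 783894315008, 189664657408, 12801015808, 933853396992, 1268474970112, ⟨12000138625024, 0⟩, ⟨0, 5257039970304⟩, ⟨914099404800, 0⟩, ⟨0, 0⟩, ⟨0, 0⟩⟩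

def BI2 : BC := ⟨⟨0, 0, 1099511627776, 0⟩, ⟨0, 0⟩, ⟨0, 0⟩, 143789129728, 44703678464, 159262834688, 726938812416, 189664657408, 29829890048, 1319578370048, 1205694627840, ⟨5544802779136, 0⟩, ⟨0, 4196183048192⟩, ⟨948010811392, 0⟩, ⟨0, 0⟩, ⟨0, 0⟩⟩

def BR0 : BC := ⟨⟨0, 0, 0, 0⟩, ⟨109951188992, 0⟩, ⟨1099511627776, 0⟩, 159315263488, 56405655552, 122228047872, 755067387904, 189664657408, 3355443200, 858473365504, 1293976338432, ⟨0, 0⟩, ⟨0, 0⟩, ⟨932908826624, 0⟩, ⟨0, 0⟩, ⟨0, 0⟩⟩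

def BP : BC := ⟨⟨0, 0, 0, 0⟩, ⟨109951188992, 0⟩, ⟨1099511627776, 0⟩, 114368905216, 44252790784, 89087016960, 658137939968, 115447627776, 3221225472, 852215463936, 1291023548416, ⟨0, 0⟩, ⟨0, 0⟩, ⟨443525300224, 0⟩, ⟨0, 0⟩, ⟨1099511627776, 0⟩⟩

def BM : BC := ⟨⟨0, 0, 0, 0⟩, ⟨109951188992, 0⟩, ⟨1099511627776, 0⟩, 102873432064, 41426616320, 81035657216, 680271085568, 115447627776, 3355443200, 858473365504, 1293976338432, ⟨0, 0⟩, ⟨0, 0⟩, ⟨452609900544, 0⟩, ⟨0, 0⟩, ⟨0, 1099511627776⟩⟩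

def BT : BC := ⟨⟨0, 0, 1099511627776, 0⟩, ⟨0, 0⟩, ⟨0, 0⟩, 146395299840, 44463030272, 161459863552, 722494423040, 189664657408, 29829890048, 1319578370048, 1024131596288, ⟨3191160700928, 0⟩, ⟨0, 3470333575168⟩, ⟨945374363648, 0⟩, ⟨1099511627776, 0⟩, ⟨0, 0⟩⟩

end Pool.Agent.helper82.WC.S3K2
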