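import Pool.Agent.helper82.WC.S3K3C0
import Pool.Agent.helper82.WC.S3K3C1

/-!
Generated certificates, assembled.
-/

namespace Pool.Agent.helper82.WC.S3K3

open Pool.Agent.helper82.WH
open Pool.Agent.helper31.IC (CovD covD_split TD)

theorem I0AD_0 : CovD 0 [pAD H BI0] [(3023656976384, 274877906944), (186831077376, 33017561088), (32212254720, 32212254720)] :=
  covD_split 2 (by decide +kernel) I0AD_1 I0AD_2
theorem I0AD_3 : CovD 0 [pAD H BI0] [(3023656976384, 274877906944), (186831077376, 33017561088), (96636764160, 32212254720)] :=
  covD_split 2 (by decide +kernel) I0AD_4 I0AD_5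
theorem I0AD : CovD 0 [pAD H BI0] [(3023656976384, 274877906944), (186831077376, 33017561088), (64424509440, 64424509440)] :=
  covD_split 2 (by decide +kernel) I0AD_0 I0AD_3
theorem I0RT_0 : CovD 1 [pRT H BI0] [(3023656976384, 274877906944), (186831077376, 33017561088), (32212254720, 32212254720)] :=
  covD_split 2 (by decide +kernel) I0RT_1 I0RT_2
theorem I0RT_3 : CovD 1 [pRT H BI0] [(3023656976384, 274877906944), (186831077376, 33017561088), (96636764160, 32212254720)] :=
  covD_split 2 (by decide +kernel) I0RT_4 I0RT_5
theorem I0RT : CovD 1 [pRT H BI0] [(3023656976384, 274877906944), (186831077376, 33017561088), (64424509440, 64424509440)] :=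
  covD_split 2 (by decide +kernel) I0RT_0 I0RT_3
theorem I1AD_0 : CovD 0 [pAD H BI1] [(3023656976384, 274877906944), (186831077376, 33017561088), (161061273600, 32212254720)] :=
  covD_split 2 (by decide +kernel) I1AD_1 I1AD_2
theorem I1AD : CovD 0 [pAD H BI1] [(3023656976384, 274877906944), (186831077376, 33017561088), (193273528320, 64424509440)] :=
  covD_split 2 (by decide +kernel) I1AD_0 I1AD_3
theorem I1RT_0 : CovD 1 [pRT H BI1] [(3023656976384, 274877906944), (186831077376, 33017561088), (161061273600, 32212254720)] :=
  covD_split 2 (by decide +kernel) I1RT_1 I1RT_2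
theorem I1RT_3 : CovD 1 [pRT H BI1] [(3023656976384, 274877906944), (186831077376, 33017561088), (225485783040, 32212254720)] :=
  covD_split 2 (by decide +kernel) I1RT_4 I1RT_5
theorem I1RT : CovD 1 [pRT H BI1] [(3023656976384, 274877906944), (186831077376, 33017561088), (193273528320, 64424509440)] :=
  covD_split 2 (by decide +kernel) I1RT_0 I1RT_3
theorem I2AD_0 : CovD 0 [pAD H BI2] [(3023656976384, 274877906944), (186831077376, 33017561088), (322122547200, 64424509440)] :=
  covD_split 2 (by decide +kernel) I2AD_1 I2AD_2
theorem I2AD_3 : CovD 0 [pAD H BI2] [(3023656976384, 274877906944), (186831077376, 33017561088), (450971566080, 64424509440)] :=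
  covD_split 2 (by decide +kernel) I2AD_4 I2AD_5
theorem I2AD : CovD 0 [pAD H BI2] [(3023656976384, 274877906944), (186831077376, 33017561088), (386547056640, 128849018880)] :=
  covD_split 2 (by decide +kernel) I2AD_0 I2AD_3
theorem I2RT_0 : CovD 1 [pRT H BI2] [(3023656976384, 274877906944), (186831077376, 33017561088), (322122547200, 64424509440)] :=
  covD_split 2 (by decide +kernel) I2RT_1 I2RT_2
theorem I2RT_5 : CovD 1 [pRT H BI2] [(3023656976384, 274877906944), (186831077376, 33017561088), (483183820800, 32212254720)] :=
  covD_split 2 (by decide +kernel) I2RT_6 I2RT_7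
theorem I2RT_3 : CovD 1 [pRT H BI2] [(3023656976384, 274877906944), (186831077376, 33017561088), (450971566080, 64424509440)] :=
  covD_split 2 (by decide +kernel) I2RT_4 I2RT_5
theorem I2RT : CovD 1 [pRT H BI2] [(3023656976384, 274877906944), (186831077376, 33017561088), (386547056640, 128849018880)] :=
  covD_split 2 (by decide +kernel) I2RT_0 I2RT_3
theorem MTT : CovD 1 [pTT H BM] [(3023656976384, 274877906944), (186831077376, 33017561088), (0, 0)] :=
  covD_split 1 (by decide +kernel) MTT_0 MTT_1

end Pool.Agent.helper82.WC.S3K3
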