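import Pool.Agent.helper82.WH.Chks

/-!
Generated: constants of a cell.
-/

namespace Pool.Agent.helper82.WC.S3K3

open Pool.Agent.helper82.WH
open Pool.Agent.helper31.IC (CovD covD_split TD)

def H : HC := ⟨⟨3023656976384, 0⟩, ⟨31746686976, 0⟩, ⟨0, 665098518528⟩, ⟨0, 761654018048⟩, ⟨1017646546944, 0⟩, ⟨0, 2940820979712⟩, ⟨465098047488, 0⟩, ⟨712866136064, 0⟩, ⟨4363793399808, 0⟩, ⟨0, 12199514996736⟩, ⟨562633310208, 0⟩, ⟨0, 19674365952⟩, ⟨492216778752, 0⟩, ⟨1022669553664, 0⟩, ⟨780158173184, 0⟩, ⟨0, 385180368896⟩, ⟨0, 1009370791936⟩, ⟨0, 1253038292992⟩, ⟨187967864832, 0⟩, ⟨0, 1046219063296⟩, ⟨2586341212160, 0⟩, ⟨924571664384, 0⟩, ⟨15840968704, 0⟩, ⟨1323762974720, 0⟩, ⟨497102422016, 0⟩, ⟨0, 41815421550592⟩, ⟨0, 0⟩⟩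

def BI0 : BC := ⟨⟨0, 0, 1099511627776, 0⟩, ⟨0, 0⟩, ⟨0, 0⟩, 200541929472, 60749316096, 52032962560, 777789046784, 189664657408, 8573157376, 812084363264, 1267015352320, ⟨16806207029248, 0⟩, ⟨0, 2478196129792⟩, ⟨892557721600, 0⟩, ⟨0, 0⟩, ⟨0, 0⟩⟩

def BI1 : BC := ⟨⟨0, 0, 1099511627776, 0⟩, ⟨0, 0⟩, ⟨0, 0⟩, 180013301760, 53180039168, 88606244864, 766438735872, 189664657408, 14193524736, 886659088384, 1245909614592, ⟨12159052414976, 0⟩, ⟨0, 4629974745088⟩, ⟨912684482560, 0⟩, ⟨0, 0⟩, ⟨0, 0⟩⟩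

def BI2 : BC := ⟨⟨0, 0, 1099511627776, 0⟩, ⟨0, 0⟩, ⟨0, 0⟩, 157862395904, 45755465728, 172032851968, 701472112640, 189664657408, 28068282368, 1289010282496, 1189101961216, ⟨6068788789248, 0⟩, ⟨0, 4501125726208⟩, ⟨933737005056, 0⟩, ⟨0, 0⟩, ⟨0, 0⟩⟩

def BR0 : BC := ⟨⟨0, 0, 0, 0⟩, ⟨109951188992, 0⟩, ⟨1099511627776, 0⟩, 151123918848, 50532057088, 118589751296, 771654942720, 189664657408, 6660554752, 807990722560, 1270236577792, ⟨0, 0⟩, ⟨0, 0⟩, ⟨941196378112, 0⟩, ⟨0, 0⟩, ⟨0, 0⟩⟩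

def BP : BC := ⟨⟨0, 0, 0, 0⟩, ⟨109951188992, 0⟩, ⟨1099511627776, 0⟩, 111718039552, 39527972864, 88933466112, 659546046464, 115447627776, 6106906624, 796112453632, 1264649764864, ⟨0, 0⟩, ⟨0, 0⟩, ⟨441770049536, 0⟩, ⟨0, 0⟩, ⟨1099511627776, 0⟩⟩

def BM : BC := ⟨⟨0, 0, 0, 0⟩, ⟨109951188992, 0⟩, ⟨1099511627776, 0⟩, 92776955904, 35113009152, 76187435008, 694770335744, 115447627776, 6660554752, 807990722560, 1270236577792, ⟨0, 0⟩, ⟨0, 0⟩, ⟨456508637184, 0⟩, ⟨0, 0⟩, ⟨0, 1099511627776⟩⟩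

def BT : BC := ⟨⟨0, 0, 1099511627776, 0⟩, ⟨0, 0⟩, ⟨0, 0⟩, 133267718144, 38262276096, 156572581888, 658238930944, 189664657408, 28068282368, 1289010282496, 1021329801216, ⟨3723736645632, 0⟩, ⟨0, 3938485010432⟩, ⟨832941654016, 0⟩, ⟨1099511627776, 0⟩, ⟨0, 0⟩⟩

end Pool.Agent.helper82.WC.S3K3
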