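import Pool.Agent.helper82.WC.S3K4C0
import Pool.Agent.helper82.WC.S3K4C1

/-!
Generated certificates, assembled.
-/

namespace Pool.Agent.helper82.WC.S3K4

open Pool.Agent.helper82.WH
open Pool.Agent.helper31.IC (CovD covD_split TD)

theorem I0AD_1 : CovD 0 [pAD H BI0] [(3023656976384, 274877906944), (263872053248, 44023414784), (30064771072, 30064771072)] :=
  covD_split 1 (by decide +kernel) I0AD_2 I0AD_3
theorem I0AD_4 : CovD 0 [pAD H BI0] [(3023656976384, 274877906944), (263872053248, 44023414784), (90194313216, 30064771072)] :=
  covD_split 1 (by decide +kernel) I0AD_5 I0AD_6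
theorem I0AD_0 : CovD 0 [pAD H BI0] [(3023656976384, 274877906944), (263872053248, 44023414784), (60129542144, 60129542144)] :=
  covD_split 2 (by decide +kernel) I0AD_1 I0AD_4
theorem I0AD_8 : CovD 0 [pAD H BI0] [(3023656976384, 274877906944), (263872053248, 44023414784), (150323855360, 30064771072)] :=
  covD_split 1 (by decide +kernel) I0AD_9 I0AD_10
theorem I0AD_11 : CovD 0 [pAD H BI0] [(3023656976384, 274877906944), (263872053248, 44023414784), (210453397504, 30064771072)] :=
  covD_split 1 (by decide +kernel) I0AD_12 I0AD_13
theorem I0AD_7 : CovD 0 [pAD H BI0] [(3023656976384, 274877906944), (263872053248, 44023414784), (180388626432, 60129542144)] :=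
  covD_split 2 (by decide +kernel) I0AD_8 I0AD_11
theorem I0AD : CovD 0 [pAD H BI0] [(3023656976384, 274877906944), (263872053248, 44023414784), (120259084288, 120259084288)] :=
  covD_split 2 (by decide +kernel) I0AD_0 I0AD_7
theorem I0RT_0 : CovD 1 [pRT H BI0] [(3023656976384, 274877906944), (263872053248, 44023414784), (60129542144, 60129542144)] :=
  covD_split 2 (by decide +kernel) I0RT_1 I0RT_2
theorem I0RT_4 : CovD 1 [pRT H BI0] [(3023656976384, 274877906944), (263872053248, 44023414784), (150323855360, 30064771072)] :=
  covD_split 2 (by decide +kernel) I0RT_5 I0RT_6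
theorem I0RT_7 : CovD 1 [pRT H BI0] [(3023656976384, 274877906944), (263872053248, 44023414784), (210453397504, 30064771072)] :=
  covD_split 2 (by decide +kernel) I0RT_8 I0RT_9
theorem I0RT_3 : CovD 1 [pRT H BI0] [(3023656976384, 274877906944), (263872053248, 44023414784), (180388626432, 60129542144)] :=
  covD_split 2 (by decide +kernel) I0RT_4 I0RT_7
theorem I0RT : CovD 1 [pRT H BI0] [(3023656976384, 274877906944), (263872053248, 44023414784), (120259084288, 120259084288)] :=
  covD_split 2 (by decide +kernel) I0RT_0 I0RT_3
theorem I1AD_0 : CovD 0 [pAD H BI1] [(3023656976384, 274877906944), (263872053248, 44023414784), (295614545920, 55096377344)] :=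
  covD_split 2 (by decide +kernel) I1AD_1 I1AD_2
theorem I1AD_3 : CovD 0 [pAD H BI1] [(3023656976384, 274877906944), (263872053248, 44023414784), (405807300608, 55096377344)] :=
  covD_split 2 (by decide +kernel) I1AD_4 I1AD_5
theorem I1AD : CovD 0 [pAD H BI1] [(3023656976384, 274877906944), (263872053248, 44023414784), (350710923264, 110192754688)] :=
  covD_split 2 (by decide +kernel) I1AD_0 I1AD_3
theorem I1G : CovD 1 [pG H BI1] [(3023656976384, 274877906944), (263872053248, 44023414784), (350710923264, 110192754688)] :=
  covD_split 2 (by decide +kernel) I1G_0 I1G_1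
theorem I1RT_0 : CovD 1 [pRT H BI1] [(3023656976384, 274877906944), (263872053248, 44023414784), (295614545920, 55096377344)] :=
  covD_split 2 (by decide +kernel) I1RT_1 I1RT_2
theorem I1RT_5 : CovD 1 [pRT H BI1] [(3023656976384, 274877906944), (263872053248, 44023414784), (433355489280, 27548188672)] :=
  covD_split 2 (by decide +kernel) I1RT_6 I1RT_7
theorem I1RT_3 : CovD 1 [pRT H BI1] [(3023656976384, 274877906944), (263872053248, 44023414784), (405807300608, 55096377344)] :=
  covD_split 2 (by decide +kernel) I1RT_4 I1RT_5
theorem I1RT : CovD 1 [pRT H BI1] [(3023656976384, 274877906944), (263872053248, 44023414784), (350710923264, 110192754688)] :=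
  covD_split 2 (by decide +kernel) I1RT_0 I1RT_3

end Pool.Agent.helper82.WC.S3K4
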