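import Pool.Agent.helper82.WC.S3K4P

/-!
Generated certificates (in pairs, so that they are checked one after the other).
-/

namespace Pool.Agent.helper82.WC.S3K4

open Pool.Agent.helper82.WH
open Pool.Agent.helper31.IC (CovD covD_split TD)

mutual
theorem I0AD_2 : CovD 0 [pAD H BI0] [(3023656976384, 274877906944), (241860345856, 22011707392), (30064771072, 30064771072)] :=
  cov_of (fAD H BI0) (.n 2 (.n 0 (.n 1 (.n 0 (.l 0) (.l 0)) (.n 0 (.l 0) (.l 0))) (.n 1 (.n 0 (.l 0) (.l 0)) (.n 0 (.l 0) (.l 0)))) (.n 0 (.n 1 (.n 0 (.l 0) (.l 0)) (.n 0 (.l 0) (.l 0))) (.n 1 (.n 0 (.l 0) (.l 0)) (.n 0 (.l 0) (.l 0))))) [(3023656976384, 274877906944), (241860345856, 22011707392), (30064771072, 30064771072)] rfl (by decide +kernel)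
theorem I0AD_3 : CovD 0 [pAD H BI0] [(3023656976384, 274877906944), (285883760640, 22011707392), (30064771072, 30064771072)] :=
  cov_of (fAD H BI0) (.n 0 (.n 2 (.n 1 (.n 0 (.l 0) (.l 0)) (.l 0)) (.n 1 (.n 0 (.l 0) (.l 0)) (.n 0 (.l 0) (.l 0)))) (.n 2 (.n 1 (.l 0) (.l 0)) (.n 1 (.n 0 (.l 0) (.l 0)) (.l 0)))) [(3023656976384, 274877906944), (285883760640, 22011707392), (30064771072, 30064771072)] rfl (by decide +kernel)
end

mutual
theorem I0AD_5 : CovD 0 [pAD H BI0] [(3023656976384, 274877906944), (241860345856, 22011707392), (90194313216, 30064771072)] :=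
  cov_of (fAD H BI0) (.n 2 (.n 0 (.n 1 (.n 0 (.l 0) (.l 0)) (.n 0 (.l 0) (.l 0))) (.n 1 (.n 0 (.l 0) (.l 0)) (.n 0 (.l 0) (.l 0)))) (.n 0 (.n 1 (.n 0 (.l 0) (.l 0)) (.n 0 (.l 0) (.l 0))) (.n 1 (.n 0 (.l 0) (.l 0)) (.n 0 (.l 0) (.l 0))))) [(3023656976384, 274877906944), (241860345856, 22011707392), (90194313216, 30064771072)] rfl (by decide +kernel)
theorem I0AD_6 : CovD 0 [pAD H BI0] [(3023656976384, 274877906944), (285883760640, 22011707392), (90194313216, 30064771072)] :=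
  cov_of (fAD H BI0) (.n 2 (.n 0 (.n 1 (.n 0 (.l 0) (.l 0)) (.n 0 (.l 0) (.l 0))) (.n 1 (.n 0 (.l 0) (.l 0)) (.n 0 (.l 0) (.l 0)))) (.n 0 (.n 1 (.n 0 (.l 0) (.l 0)) (.n 0 (.l 0) (.l 0))) (.n 1 (.n 0 (.l 0) (.l 0)) (.n 0 (.l 0) (.l 0))))) [(3023656976384, 274877906944), (285883760640, 22011707392), (90194313216, 30064771072)] rfl (by decide +kernel)
end

mutual
theorem I0AD_9 : CovD 0 [pAD H BI0] [(3023656976384, 274877906944), (241860345856, 22011707392), (150323855360, 30064771072)] :=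
  cov_of (fAD H BI0) (.n 2 (.n 0 (.n 1 (.n 0 (.l 0) (.l 0)) (.n 0 (.l 0) (.l 0))) (.n 1 (.n 0 (.l 0) (.l 0)) (.n 0 (.l 0) (.l 0)))) (.n 0 (.n 1 (.n 0 (.l 0) (.l 0)) (.n 0 (.l 0) (.l 0))) (.n 1 (.n 0 (.l 0) (.l 0)) (.n 0 (.l 0) (.l 0))))) [(3023656976384, 274877906944), (241860345856, 22011707392), (150323855360, 30064771072)] rfl (by decide +kernel)
theorem I0AD_10 : CovD 0 [pAD H BI0] [(3023656976384, 274877906944), (285883760640, 22011707392), (150323855360, 30064771072)] :=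
  cov_of (fAD H BI0) (.n 0 (.n 2 (.n 1 (.n 0 (.l 0) (.l 0)) (.n 0 (.l 0) (.l 0))) (.n 1 (.n 0 (.l 0) (.l 0)) (.n 0 (.l 0) (.l 0)))) (.n 2 (.n 1 (.n 0 (.l 0) (.l 0)) (.n 0 (.l 0) (.l 0))) (.n 1 (.n 0 (.l 0) (.l 0)) (.n 0 (.l 0) (.l 0))))) [(3023656976384, 274877906944), (285883760640, 22011707392), (150323855360, 30064771072)] rfl (by decide +kernel)
end

mutual
theorem I0AD_12 : CovD 0 [pAD H BI0] [(3023656976384, 274877906944), (241860345856, 22011707392), (210453397504, 30064771072)] :=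
  cov_of (fAD H BI0) (.n 0 (.n 2 (.n 0 (.n 1 (.l 0) (.l 0)) (.n 1 (.l 0) (.l 0))) (.n 0 (.n 0 (.l 0) (.l 0)) (.n 0 (.l 0) (.l 0)))) (.n 2 (.n 1 (.n 0 (.l 0) (.l 0)) (.n 0 (.l 0) (.l 0))) (.n 1 (.n 0 (.l 0) (.l 0)) (.n 0 (.l 0) (.l 0))))) [(3023656976384, 274877906944), (241860345856, 22011707392), (210453397504, 30064771072)] rfl (by decide +kernel)
theorem I0AD_13 : CovD 0 [pAD H BI0] [(3023656976384, 274877906944), (285883760640, 22011707392), (210453397504, 30064771072)] :=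
  cov_of (fAD H BI0) (.n 0 (.n 2 (.n 0 (.n 0 (.l 0) (.l 0)) (.n 0 (.l 0) (.l 0))) (.n 0 (.n 0 (.l 0) (.l 0)) (.n 0 (.l 0) (.l 0)))) (.n 2 (.n 1 (.n 0 (.l 0) (.l 0)) (.n 0 (.l 0) (.l 0))) (.n 1 (.n 0 (.l 0) (.l 0)) (.n 0 (.l 0) (.l 0))))) [(3023656976384, 274877906944), (285883760640, 22011707392), (210453397504, 30064771072)] rfl (by decide +kernel)
end

mutual
theorem I0G : CovD 1 [pG H BI0] [(3023656976384, 274877906944), (263872053248, 44023414784), (120259084288, 120259084288)] :=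
  cov_of (fG H BI0) (.n 2 (.n 2 (.l 0) (.n 1 (.l 0) (.l 0))) (.n 2 (.n 1 (.l 0) (.n 2 (.l 0) (.l 0))) (.n 1 (.n 2 (.l 0) (.n 0 (.l 0) (.l 0))) (.n 2 (.n 0 (.l 0) (.l 0)) (.n 0 (.l 0) (.n 0 (.l 0) (.l 0))))))) [(3023656976384, 274877906944), (263872053248, 44023414784), (120259084288, 120259084288)] rfl (by decide +kernel)
theorem I0RT_1 : CovD 1 [pRT H BI0] [(3023656976384, 274877906944), (263872053248, 44023414784), (30064771072, 30064771072)] :=
  cov_of (fRT H BI0) (.n 2 (.n 1 (.n 2 (.n 1 (.l 0) (.l 0)) (.n 1 (.l 0) (.l 0))) (.n 2 (.n 0 (.l 0) (.l 0)) (.n 1 (.l 0) (.l 0)))) (.n 1 (.n 2 (.n 1 (.l 0) (.l 0)) (.n 1 (.l 0) (.l 0))) (.n 2 (.n 1 (.l 0) (.l 0)) (.n 1 (.l 0) (.l 0))))) [(3023656976384, 274877906944), (263872053248, 44023414784), (30064771072, 30064771072)] rfl (by decide +kernel)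
end

mutual
theorem I0RT_2 : CovD 1 [pRT H BI0] [(3023656976384, 274877906944), (263872053248, 44023414784), (90194313216, 30064771072)] :=
  cov_of (fRT H BI0) (.n 2 (.n 1 (.n 2 (.n 1 (.n 0 (.l 0) (.l 0)) (.l 0)) (.n 1 (.n 0 (.l 0) (.l 0)) (.n 0 (.l 0) (.l 0)))) (.n 2 (.n 1 (.l 0) (.l 0)) (.n 1 (.l 0) (.l 0)))) (.n 1 (.n 2 (.n 1 (.n 0 (.l 0) (.l 0)) (.n 0 (.l 0) (.l 0))) (.n 1 (.n 0 (.l 0) (.l 0)) (.n 0 (.l 0) (.l 0)))) (.n 2 (.n 1 (.l 0) (.l 0)) (.n 1 (.n 0 (.l 0) (.l 0)) (.l 0))))) [(3023656976384, 274877906944), (263872053248, 44023414784), (90194313216, 30064771072)] rfl (by decide +kernel)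
theorem I0RT_5 : CovD 1 [pRT H BI0] [(3023656976384, 274877906944), (263872053248, 44023414784), (135291469824, 15032385536)] :=
  cov_of (fRT H BI0) (.n 1 (.n 2 (.n 1 (.n 0 (.l 0) (.l 0)) (.n 0 (.l 0) (.l 0))) (.n 0 (.n 0 (.l 0) (.l 0)) (.n 1 (.l 0) (.l 0)))) (.n 1 (.n 0 (.l 0) (.n 0 (.l 0) (.l 0))) (.n 0 (.l 0) (.l 0)))) [(3023656976384, 274877906944), (263872053248, 44023414784), (135291469824, 15032385536)] rfl (by decide +kernel)
end

mutual
theorem I0RT_6 : CovD 1 [pRT H BI0] [(3023656976384, 274877906944), (263872053248, 44023414784), (165356240896, 15032385536)] :=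
  cov_of (fRT H BI0) (.n 1 (.n 2 (.n 0 (.n 0 (.l 0) (.l 0)) (.n 1 (.l 0) (.l 0))) (.n 0 (.n 0 (.l 0) (.l 0)) (.n 1 (.l 0) (.l 0)))) (.n 0 (.n 1 (.l 0) (.l 0)) (.n 1 (.n 0 (.l 0) (.l 0)) (.l 0)))) [(3023656976384, 274877906944), (263872053248, 44023414784), (165356240896, 15032385536)] rfl (by decide +kernel)
theorem I0RT_8 : CovD 1 [pRT H BI0] [(3023656976384, 274877906944), (263872053248, 44023414784), (195421011968, 15032385536)] :=
  cov_of (fRT H BI0) (.n 1 (.n 1 (.n 0 (.n 0 (.l 0) (.l 0)) (.n 0 (.l 0) (.l 0))) (.n 0 (.l 0) (.l 0))) (.n 0 (.n 0 (.l 0) (.l 0)) (.n 1 (.l 0) (.n 0 (.l 0) (.l 0))))) [(3023656976384, 274877906944), (263872053248, 44023414784), (195421011968, 15032385536)] rfl (by decide +kernel)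
end

mutual
theorem I0RT_9 : CovD 1 [pRT H BI0] [(3023656976384, 274877906944), (263872053248, 44023414784), (225485783040, 15032385536)] :=
  cov_of (fRT H BI0) (.n 1 (.n 0 (.n 0 (.n 0 (.l 0) (.l 0)) (.n 1 (.l 0) (.l 0))) (.n 0 (.n 1 (.l 0) (.l 0)) (.n 1 (.n 0 (.l 0) (.l 0)) (.l 0)))) (.n 0 (.n 0 (.l 0) (.l 0)) (.n 0 (.n 1 (.l 0) (.l 0)) (.n 1 (.n 0 (.l 0) (.l 0)) (.n 2 (.l 0) (.l 0)))))) [(3023656976384, 274877906944), (263872053248, 44023414784), (225485783040, 15032385536)] rfl (by decide +kernel)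
theorem I1AD_1 : CovD 0 [pAD H BI1] [(3023656976384, 274877906944), (263872053248, 44023414784), (268066357248, 27548188672)] :=
  cov_of (fAD H BI1) (.n 0 (.n 1 (.n 2 (.n 0 (.n 0 (.l 0) (.l 0)) (.n 0 (.l 0) (.l 0))) (.n 0 (.l 0) (.l 0))) (.n 2 (.n 0 (.l 0) (.l 0)) (.n 0 (.l 0) (.l 0)))) (.n 1 (.n 2 (.n 0 (.n 0 (.l 0) (.l 0)) (.n 0 (.l 0) (.l 0))) (.n 0 (.l 0) (.n 0 (.l 0) (.l 0)))) (.n 2 (.n 0 (.l 0) (.l 0)) (.n 0 (.l 0) (.l 0))))) [(3023656976384, 274877906944), (263872053248, 44023414784), (268066357248, 27548188672)] rfl (by decide +kernel)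
end

mutual
theorem I1AD_2 : CovD 0 [pAD H BI1] [(3023656976384, 274877906944), (263872053248, 44023414784), (323162734592, 27548188672)] :=
  cov_of (fAD H BI1) (.n 0 (.n 1 (.n 2 (.n 0 (.l 0) (.l 0)) (.n 0 (.l 0) (.l 0))) (.n 2 (.n 0 (.l 0) (.l 0)) (.n 0 (.l 0) (.l 0)))) (.n 1 (.n 2 (.n 0 (.l 0) (.l 0)) (.n 0 (.l 0) (.l 0))) (.n 2 (.n 0 (.l 0) (.l 0)) (.n 0 (.l 0) (.l 0))))) [(3023656976384, 274877906944), (263872053248, 44023414784), (323162734592, 27548188672)] rfl (by decide +kernel)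
theorem I1AD_4 : CovD 0 [pAD H BI1] [(3023656976384, 274877906944), (263872053248, 44023414784), (378259111936, 27548188672)] :=
  cov_of (fAD H BI1) (.n 0 (.n 1 (.n 2 (.n 0 (.l 0) (.l 0)) (.n 0 (.l 0) (.l 0))) (.n 2 (.n 0 (.l 0) (.l 0)) (.n 0 (.l 0) (.l 0)))) (.n 1 (.n 2 (.n 0 (.l 0) (.l 0)) (.n 0 (.l 0) (.l 0))) (.n 2 (.n 0 (.l 0) (.l 0)) (.n 0 (.l 0) (.l 0))))) [(3023656976384, 274877906944), (263872053248, 44023414784), (378259111936, 27548188672)] rfl (by decide +kernel)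
end

mutual
theorem I1AD_5 : CovD 0 [pAD H BI1] [(3023656976384, 274877906944), (263872053248, 44023414784), (433355489280, 27548188672)] :=
  cov_of (fAD H BI1) (.n 0 (.n 1 (.n 2 (.n 0 (.l 0) (.l 0)) (.n 0 (.l 0) (.l 0))) (.n 2 (.n 0 (.l 0) (.l 0)) (.n 0 (.n 0 (.l 0) (.l 0)) (.n 0 (.l 0) (.l 0))))) (.n 1 (.n 2 (.n 0 (.l 0) (.l 0)) (.n 0 (.l 0) (.l 0))) (.n 2 (.n 0 (.l 0) (.l 0)) (.n 0 (.l 0) (.l 0))))) [(3023656976384, 274877906944), (263872053248, 44023414784), (433355489280, 27548188672)] rfl (by decide +kernel)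
theorem I1G_0 : CovD 1 [pG H BI1] [(3023656976384, 274877906944), (263872053248, 44023414784), (295614545920, 55096377344)] :=
  cov_of (fG H BI1) (.n 2 (.n 1 (.n 0 (.l 0) (.l 0)) (.n 2 (.l 0) (.n 0 (.l 0) (.l 0)))) (.n 1 (.n 2 (.l 0) (.n 0 (.l 0) (.l 0))) (.n 2 (.n 0 (.l 0) (.l 0)) (.n 0 (.l 0) (.l 0))))) [(3023656976384, 274877906944), (263872053248, 44023414784), (295614545920, 55096377344)] rfl (by decide +kernel)
end

mutual
theorem I1G_1 : CovD 1 [pG H BI1] [(3023656976384, 274877906944), (263872053248, 44023414784), (405807300608, 55096377344)] :=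
  cov_of (fG H BI1) (.n 2 (.n 1 (.n 0 (.l 0) (.n 2 (.l 0) (.l 0))) (.n 2 (.n 0 (.l 0) (.l 0)) (.n 0 (.l 0) (.l 0)))) (.n 2 (.n 0 (.l 0) (.n 0 (.l 0) (.l 0))) (.n 0 (.l 0) (.n 0 (.l 0) (.l 0))))) [(3023656976384, 274877906944), (263872053248, 44023414784), (405807300608, 55096377344)] rfl (by decide +kernel)
theorem I1RT_1 : CovD 1 [pRT H BI1] [(3023656976384, 274877906944), (263872053248, 44023414784), (268066357248, 27548188672)] :=
  cov_of (fRT H BI1) (.n 2 (.n 1 (.n 0 (.n 1 (.n 0 (.l 0) (.l 0)) (.l 0)) (.n 1 (.n 2 (.l 0) (.l 0)) (.n 0 (.l 0) (.l 0)))) (.n 0 (.n 0 (.l 0) (.l 0)) (.n 1 (.l 0) (.l 0)))) (.n 1 (.n 0 (.n 1 (.l 0) (.l 0)) (.n 1 (.n 0 (.l 0) (.l 0)) (.n 0 (.l 0) (.l 0)))) (.n 0 (.n 0 (.l 0) (.l 0)) (.n 1 (.l 0) (.l 0))))) [(3023656976384, 274877906944), (263872053248, 44023414784), (268066357248, 27548188672)] rfl (by decide +kernel)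
end

mutual
theorem I1RT_2 : CovD 1 [pRT H BI1] [(3023656976384, 274877906944), (263872053248, 44023414784), (323162734592, 27548188672)] :=
  cov_of (fRT H BI1) (.n 2 (.n 1 (.n 0 (.n 1 (.l 0) (.l 0)) (.n 1 (.n 0 (.l 0) (.l 0)) (.n 0 (.l 0) (.l 0)))) (.n 0 (.n 0 (.l 0) (.l 0)) (.n 1 (.l 0) (.l 0)))) (.n 0 (.n 1 (.n 0 (.l 0) (.l 0)) (.n 0 (.l 0) (.l 0))) (.n 1 (.n 1 (.n 0 (.l 0) (.l 0)) (.l 0)) (.n 0 (.l 0) (.l 0))))) [(3023656976384, 274877906944), (263872053248, 44023414784), (323162734592, 27548188672)] rfl (by decide +kernel)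
theorem I1RT_4 : CovD 1 [pRT H BI1] [(3023656976384, 274877906944), (263872053248, 44023414784), (378259111936, 27548188672)] :=
  cov_of (fRT H BI1) (.n 2 (.n 0 (.n 1 (.n 0 (.l 0) (.l 0)) (.l 0)) (.n 1 (.n 1 (.l 0) (.l 0)) (.n 0 (.l 0) (.l 0)))) (.n 0 (.n 1 (.l 0) (.l 0)) (.n 1 (.n 0 (.l 0) (.l 0)) (.n 1 (.l 0) (.l 0))))) [(3023656976384, 274877906944), (263872053248, 44023414784), (378259111936, 27548188672)] rfl (by decide +kernel)
end

mutual
theorem I1RT_6 : CovD 1 [pRT H BI1] [(3023656976384, 274877906944), (263872053248, 44023414784), (419581394944, 13774094336)] :=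
  cov_of (fRT H BI1) (.n 0 (.n 1 (.l 0) (.l 0)) (.n 0 (.n 1 (.l 0) (.l 0)) (.n 1 (.n 1 (.l 0) (.l 0)) (.n 2 (.l 0) (.n 0 (.l 0) (.l 0)))))) [(3023656976384, 274877906944), (263872053248, 44023414784), (419581394944, 13774094336)] rfl (by decide +kernel)
theorem I1RT_7 : CovD 1 [pRT H BI1] [(3023656976384, 274877906944), (263872053248, 44023414784), (447129583616, 13774094336)] :=
  cov_of (fRT H BI1) (.n 0 (.n 1 (.n 0 (.l 0) (.l 0)) (.n 0 (.l 0) (.l 0))) (.n 0 (.n 1 (.n 1 (.l 0) (.l 0)) (.n 1 (.l 0) (.l 0))) (.n 1 (.n 2 (.n 1 (.l 0) (.l 0)) (.n 1 (.l 0) (.l 0))) (.n 2 (.n 1 (.l 0) (.l 0)) (.n 1 (.l 0) (.l 0)))))) [(3023656976384, 274877906944), (263872053248, 44023414784), (447129583616, 13774094336)] rfl (by decide +kernel)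
end

mutual
theorem I2AD : CovD 0 [pAD H BI2] [(3023656976384, 274877906944), (263872053248, 44023414784), (470970007552, 10066329600)] :=
  cov_of (fAD H BI2) (.n 0 (.n 1 (.n 0 (.n 0 (.l 0) (.l 0)) (.n 0 (.l 0) (.l 0))) (.n 0 (.n 0 (.l 0) (.l 0)) (.n 0 (.l 0) (.l 0)))) (.n 1 (.n 0 (.n 0 (.l 0) (.l 0)) (.l 0)) (.n 0 (.n 0 (.l 0) (.l 0)) (.n 0 (.l 0) (.l 0))))) [(3023656976384, 274877906944), (263872053248, 44023414784), (470970007552, 10066329600)] rfl (by decide +kernel)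
theorem I2G : CovD 1 [pG H BI2] [(3023656976384, 274877906944), (263872053248, 44023414784), (470970007552, 10066329600)] :=
  cov_of (fG H BI2) (.n 0 (.l 0) (.n 1 (.l 0) (.l 0))) [(3023656976384, 274877906944), (263872053248, 44023414784), (470970007552, 10066329600)] rfl (by decide +kernel)
end

mutual
theorem I2RT : CovD 1 [pRT H BI2] [(3023656976384, 274877906944), (263872053248, 44023414784), (470970007552, 10066329600)] :=
  cov_of (fRT H BI2) (.n 0 (.n 1 (.n 0 (.l 0) (.l 0)) (.n 1 (.l 0) (.l 0))) (.n 0 (.n 1 (.n 0 (.l 0) (.l 0)) (.n 0 (.l 0) (.l 0))) (.n 1 (.n 1 (.n 1 (.l 0) (.l 0)) (.n 1 (.l 0) (.l 0))) (.n 1 (.n 1 (.l 0) (.l 0)) (.n 1 (.l 0) (.l 0)))))) [(3023656976384, 274877906944), (263872053248, 44023414784), (470970007552, 10066329600)] rfl (by decide +kernel)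
theorem R0AD : CovD 0 [pAD H BR0] [(3023656976384, 274877906944), (263872053248, 44023414784), (1099511627776, 1099511627776)] :=
  cov_of (fAD H BR0) (.n 1 (.n 0 (.n 1 (.n 2 (.l 0) (.l 0)) (.n 2 (.l 0) (.l 0))) (.n 1 (.n 2 (.l 0) (.l 0)) (.n 2 (.l 0) (.l 0)))) (.n 0 (.n 1 (.n 2 (.l 0) (.l 0)) (.n 2 (.l 0) (.l 0))) (.n 1 (.n 2 (.l 0) (.l 0)) (.n 2 (.l 0) (.l 0))))) [(3023656976384, 274877906944), (263872053248, 44023414784), (1099511627776, 1099511627776)] rfl (by decide +kernel)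
end

mutual
theorem R0G : CovD 1 [pG H BR0] [(3023656976384, 274877906944), (263872053248, 44023414784), (1099511627776, 1099511627776)] :=
  cov_of (fG H BR0) (.l 0) [(3023656976384, 274877906944), (263872053248, 44023414784), (1099511627776, 1099511627776)] rfl (by decide +kernel)
theorem R0RT : CovD 1 [pRT H BR0] [(3023656976384, 274877906944), (263872053248, 44023414784), (1099511627776, 1099511627776)] :=
  cov_of (fRT H BR0) (.n 1 (.n 1 (.l 0) (.l 0)) (.n 2 (.l 0) (.l 0))) [(3023656976384, 274877906944), (263872053248, 44023414784), (1099511627776, 1099511627776)] rfl (by decide +kernel)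
end

mutual
theorem R0RS : CovD 1 [pRS H BR0] [(3023656976384, 274877906944), (263872053248, 44023414784), (1099511627776, 1099511627776)] :=
  cov_of (fRS H BR0) (.l 0) [(3023656976384, 274877906944), (263872053248, 44023414784), (1099511627776, 1099511627776)] rfl (by decide +kernel)
theorem PAD : CovD 0 [pAD H BP] [(3023656976384, 274877906944), (263872053248, 44023414784), (2199023255552, 0)] :=
  cov_of (fAD H BP) (.n 1 (.n 0 (.n 0 (.l 0) (.l 0)) (.n 0 (.l 0) (.l 0))) (.n 0 (.n 0 (.l 0) (.l 0)) (.n 0 (.l 0) (.l 0)))) [(3023656976384, 274877906944), (263872053248, 44023414784), (2199023255552, 0)] rfl (by decide +kernel)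
end

mutual
theorem PG : CovD 1 [pG H BP] [(3023656976384, 274877906944), (263872053248, 44023414784), (2199023255552, 0)] :=
  cov_of (fG H BP) (.l 0) [(3023656976384, 274877906944), (263872053248, 44023414784), (2199023255552, 0)] rfl (by decide +kernel)
theorem PRT : CovD 1 [pRT H BP] [(3023656976384, 274877906944), (263872053248, 44023414784), (2199023255552, 0)] :=
  cov_of (fRT H BP) (.n 1 (.l 0) (.l 0)) [(3023656976384, 274877906944), (263872053248, 44023414784), (2199023255552, 0)] rfl (by decide +kernel)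
end

mutual
theorem PTT : CovD 1 [pTT H BP] [(3023656976384, 274877906944), (263872053248, 44023414784), (2199023255552, 0)] :=
  cov_of (fTT H BP) (.n 1 (.n 0 (.n 1 (.n 0 (.l 0) (.l 0)) (.l 0)) (.n 1 (.n 0 (.l 0) (.l 0)) (.l 0))) (.n 0 (.n 1 (.l 0) (.l 0)) (.n 1 (.l 0) (.l 0)))) [(3023656976384, 274877906944), (263872053248, 44023414784), (2199023255552, 0)] rfl (by decide +kernel)
theorem MAD : CovD 0 [pAD H BM] [(3023656976384, 274877906944), (263872053248, 44023414784), (0, 0)] :=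
  cov_of (fAD H BM) (.n 1 (.n 0 (.n 0 (.l 0) (.l 0)) (.n 0 (.l 0) (.l 0))) (.n 0 (.n 0 (.l 0) (.l 0)) (.n 0 (.l 0) (.l 0)))) [(3023656976384, 274877906944), (263872053248, 44023414784), (0, 0)] rfl (by decide +kernel)
end

mutual
theorem MG : CovD 1 [pG H BM] [(3023656976384, 274877906944), (263872053248, 44023414784), (0, 0)] :=
  cov_of (fG H BM) (.l 0) [(3023656976384, 274877906944), (263872053248, 44023414784), (0, 0)] rfl (by decide +kernel)
theorem MRT : CovD 1 [pRT H BM] [(3023656976384, 274877906944), (263872053248, 44023414784), (0, 0)] :=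
  cov_of (fRT H BM) (.n 1 (.n 0 (.l 0) (.l 0)) (.l 0)) [(3023656976384, 274877906944), (263872053248, 44023414784), (0, 0)] rfl (by decide +kernel)
end

end Pool.Agent.helper82.WC.S3K4
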