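import Pool.Agent.helper82.WH.Chks

/-!
Generated: constants of a cell.
-/

namespace Pool.Agent.helper82.WC.S3K4

open Pool.Agent.helper82.WH
open Pool.Agent.helper31.IC (CovD covD_split TD)

def H : HC := ⟨⟨3023656976384, 0⟩, ⟨63326715904, 0⟩, ⟨0, 146117427200⟩, ⟨0, 712228601856⟩, ⟨1278908497920, 0⟩, ⟨0, 3672999526400⟩, ⟨345757122560, 0⟩, ⟨0, 675679764480⟩, ⟨7525167136768, 0⟩, ⟨0, 13367145922560⟩, ⟨575207702528, 0⟩, ⟨0, 1759576064⟩, ⟨581253595136, 0⟩, ⟨1036403539968, 0⟩, ⟨754630590464, 0⟩, ⟨0, 636369436672⟩, ⟨0, 1149221928960⟩, ⟨0, 1201426857984⟩, ⟨301308248064, 0⟩, ⟨0, 821093072896⟩, ⟨2178226323456, 0⟩, ⟨911993405440, 0⟩, ⟨19677642752, 0⟩, ⟨2670215888896, 0⟩, ⟨0, 1763111665664⟩, ⟨0, 26835605782528⟩, ⟨0, 0⟩⟩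

def BI0 : BC := ⟨⟨0, 0, 1099511627776, 0⟩, ⟨0, 0⟩, ⟨0, 0⟩, 175545122816, 46766751744, 91446968320, 774079840256, 189664657408, 15753805824, 783646982144, 1214251008000, ⟨13396002996224, 0⟩, ⟨0, 2834678415360⟩, ⟨917162098688, 0⟩, ⟨0, 0⟩, ⟨0, 0⟩⟩

def BI1 : BC := ⟨⟨0, 0, 1099511627776, 0⟩, ⟨0, 0⟩, ⟨0, 0⟩, 187220295680, 49171267584, 134007947264, 710803456000, 189664657408, 23722983424, 1173264269312, 1147762900992, ⟨6983616823296, 0⟩, ⟨0, 4741643894784⟩, ⟨904902279168, 0⟩, ⟨0, 0⟩, ⟨0, 0⟩⟩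

def BI2 : BC := ⟨⟨0, 0, 1099511627776, 0⟩, ⟨0, 0⟩, ⟨0, 0⟩, 180833812480, 42807328768, 99020636160, 756940341248, 189664657408, 24477958144, 1195846402048, 1016397299712, ⟨4758823763968, 0⟩, ⟨0, 4475355922432⟩, ⟨911807479808, 0⟩, ⟨0, 0⟩, ⟨0, 0⟩⟩

def BR0 : BC := ⟨⟨0, 0, 0, 0⟩, ⟨137438953472, 0⟩, ⟨1099511627776, 0⟩, 138129309696, 38838599680, 105916399616, 806961610752, 189664657408, 12012486656, 703586107392, 1221163220992, ⟨0, 0⟩, ⟨0, 0⟩, ⟨954447691776, 0⟩, ⟨0, 0⟩, ⟨0, 0⟩⟩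

def BP : BC := ⟨⟨0, 0, 0, 0⟩, ⟨137438953472, 0⟩, ⟨1099511627776, 0⟩, 167090978816, 45948993536, 125205807104, 752840212480, 115447627776, 9881780224, 675232612352, 1207825334272, ⟨0, 0⟩, ⟨0, 0⟩, ⟨540120776704, 0⟩, ⟨0, 0⟩, ⟨1099511627776, 0⟩⟩

def BM : BC := ⟨⟨0, 0, 0, 0⟩, ⟨137438953472, 0⟩, ⟨1099511627776, 0⟩, 138129309696, 38838599680, 105916399616, 806961610752, 115447627776, 12012486656, 703586107392, 1221163220992, ⟨0, 0⟩, ⟨0, 0⟩, ⟨557456162816, 0⟩, ⟨0, 0⟩, ⟨0, 1099511627776⟩⟩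

def BT : BC := ⟨⟨0, 0, 1099511627776, 0⟩, ⟨0, 0⟩, ⟨0, 0⟩, 168521170944, 39523975168, 136203403264, 735757008896, 189664657408, 24477958144, 1195846402048, 1000911929344, ⟨4681514352640, 0⟩, ⟨0, 4428111282176⟩, ⟨923648393216, 0⟩, ⟨1099511627776, 0⟩, ⟨0, 0⟩⟩

end Pool.Agent.helper82.WC.S3K4
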