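import Pool.Agent.helper82.WC.S3K5C0
import Pool.Agent.helper82.WC.S3K5C1

/-!
Generated certificates, assembled.
-/

namespace Pool.Agent.helper82.WC.S3K5

open Pool.Agent.helper82.WH
open Pool.Agent.helper31.IC (CovD covD_split TD)

theorem I0AD_1 : CovD 0 [pAD H BI0] [(3023656976384, 274877906944), (379299299328, 71403831296), (55834574848, 55834574848)] :=
  covD_split 1 (by decide +kernel) I0AD_2 I0AD_3
theorem I0AD_5 : CovD 0 [pAD H BI0] [(3023656976384, 274877906944), (343597383680, 35701915648), (167503724544, 55834574848)] :=
  covD_split 2 (by decide +kernel) I0AD_6 I0AD_7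
theorem I0AD_4 : CovD 0 [pAD H BI0] [(3023656976384, 274877906944), (379299299328, 71403831296), (167503724544, 55834574848)] :=
  covD_split 1 (by decide +kernel) I0AD_5 I0AD_8
theorem I0AD_0 : CovD 0 [pAD H BI0] [(3023656976384, 274877906944), (379299299328, 71403831296), (111669149696, 111669149696)] :=
  covD_split 2 (by decide +kernel) I0AD_1 I0AD_4
theorem I0AD_11 : CovD 0 [pAD H BI0] [(3023656976384, 274877906944), (343597383680, 35701915648), (279172874240, 55834574848)] :=
  covD_split 2 (by decide +kernel) I0AD_12 I0AD_13
theorem I0AD_10 : CovD 0 [pAD H BI0] [(3023656976384, 274877906944), (379299299328, 71403831296), (279172874240, 55834574848)] :=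
  covD_split 1 (by decide +kernel) I0AD_11 I0AD_14
theorem I0AD_16 : CovD 0 [pAD H BI0] [(3023656976384, 274877906944), (343597383680, 35701915648), (390842023936, 55834574848)] :=
  covD_split 2 (by decide +kernel) I0AD_17 I0AD_18
theorem I0AD_19 : CovD 0 [pAD H BI0] [(3023656976384, 274877906944), (415001214976, 35701915648), (390842023936, 55834574848)] :=
  covD_split 2 (by decide +kernel) I0AD_20 I0AD_21
theorem I0AD_15 : CovD 0 [pAD H BI0] [(3023656976384, 274877906944), (379299299328, 71403831296), (390842023936, 55834574848)] :=
  covD_split 1 (by decide +kernel) I0AD_16 I0AD_19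
theorem I0AD_9 : CovD 0 [pAD H BI0] [(3023656976384, 274877906944), (379299299328, 71403831296), (335007449088, 111669149696)] :=
  covD_split 2 (by decide +kernel) I0AD_10 I0AD_15
theorem I0AD : CovD 0 [pAD H BI0] [(3023656976384, 274877906944), (379299299328, 71403831296), (223338299392, 223338299392)] :=
  covD_split 2 (by decide +kernel) I0AD_0 I0AD_9
theorem I0G_1 : CovD 1 [pG H BI0] [(3023656976384, 274877906944), (379299299328, 71403831296), (335007449088, 111669149696)] :=
  covD_split 2 (by decide +kernel) I0G_2 I0G_3
theorem I0G : CovD 1 [pG H BI0] [(3023656976384, 274877906944), (379299299328, 71403831296), (223338299392, 223338299392)] :=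
  covD_split 2 (by decide +kernel) I0G_0 I0G_1
theorem I0RT_1 : CovD 1 [pRT H BI0] [(3023656976384, 274877906944), (379299299328, 71403831296), (55834574848, 55834574848)] :=
  covD_split 2 (by decide +kernel) I0RT_2 I0RT_3
theorem I0RT_5 : CovD 1 [pRT H BI0] [(3023656976384, 274877906944), (343597383680, 35701915648), (167503724544, 55834574848)] :=
  covD_split 2 (by decide +kernel) I0RT_6 I0RT_7
theorem I0RT_4 : CovD 1 [pRT H BI0] [(3023656976384, 274877906944), (379299299328, 71403831296), (167503724544, 55834574848)] :=
  covD_split 1 (by decide +kernel) I0RT_5 I0RT_8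
theorem I0RT_0 : CovD 1 [pRT H BI0] [(3023656976384, 274877906944), (379299299328, 71403831296), (111669149696, 111669149696)] :=
  covD_split 2 (by decide +kernel) I0RT_1 I0RT_4
theorem I0RT_10 : CovD 1 [pRT H BI0] [(3023656976384, 274877906944), (379299299328, 71403831296), (279172874240, 55834574848)] :=
  covD_split 2 (by decide +kernel) I0RT_11 I0RT_12
theorem I0RT_15 : CovD 1 [pRT H BI0] [(3023656976384, 274877906944), (379299299328, 71403831296), (418759311360, 27917287424)] :=
  covD_split 1 (by decide +kernel) I0RT_16 I0RT_17
theorem I0RT_13 : CovD 1 [pRT H BI0] [(3023656976384, 274877906944), (379299299328, 71403831296), (390842023936, 55834574848)] :=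
  covD_split 2 (by decide +kernel) I0RT_14 I0RT_15
theorem I0RT_9 : CovD 1 [pRT H BI0] [(3023656976384, 274877906944), (379299299328, 71403831296), (335007449088, 111669149696)] :=
  covD_split 2 (by decide +kernel) I0RT_10 I0RT_13
theorem I0RT : CovD 1 [pRT H BI0] [(3023656976384, 274877906944), (379299299328, 71403831296), (223338299392, 223338299392)] :=
  covD_split 2 (by decide +kernel) I0RT_0 I0RT_9
theorem MTT_0 : CovD 1 [pTT H BM] [(3023656976384, 274877906944), (343597383680, 35701915648), (0, 0)] :=
  covD_split 0 (by decide +kernel) MTT_1 MTT_2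
theorem MTT : CovD 1 [pTT H BM] [(3023656976384, 274877906944), (379299299328, 71403831296), (0, 0)] :=
  covD_split 1 (by decide +kernel) MTT_0 MTT_3

end Pool.Agent.helper82.WC.S3K5
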