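import Pool.Agent.helper82.WC.S3K5P

/-!
Generated certificates (in pairs, so that they are checked one after the other).
-/

namespace Pool.Agent.helper82.WC.S3K5

open Pool.Agent.helper82.WH
open Pool.Agent.helper31.IC (CovD covD_split TD)

mutual
theorem I0AD_2 : CovD 0 [pAD H BI0] [(3023656976384, 274877906944), (343597383680, 35701915648), (55834574848, 55834574848)] :=
  cov_of (fAD H BI0) (.n 2 (.n 1 (.n 0 (.n 2 (.l 0) (.n 0 (.l 0) (.l 0))) (.n 2 (.l 0) (.l 0))) (.n 0 (.n 0 (.l 0) (.l 0)) (.n 2 (.l 0) (.l 0)))) (.n 1 (.n 0 (.n 2 (.n 0 (.l 0) (.l 0)) (.n 0 (.l 0) (.l 0))) (.n 2 (.n 0 (.l 0) (.l 0)) (.n 0 (.l 0) (.l 0)))) (.n 0 (.n 2 (.l 0) (.l 0)) (.n 2 (.l 0) (.l 0))))) [(3023656976384, 274877906944), (343597383680, 35701915648), (55834574848, 55834574848)] rfl (by decide +kernel)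
theorem I0AD_3 : CovD 0 [pAD H BI0] [(3023656976384, 274877906944), (415001214976, 35701915648), (55834574848, 55834574848)] :=
  cov_of (fAD H BI0) (.n 2 (.n 1 (.n 0 (.n 0 (.l 0) (.l 0)) (.n 0 (.l 0) (.l 0))) (.n 0 (.n 0 (.l 0) (.l 0)) (.n 0 (.l 0) (.l 0)))) (.n 1 (.n 0 (.n 0 (.l 0) (.l 0)) (.n 2 (.l 0) (.l 0))) (.n 0 (.n 0 (.l 0) (.l 0)) (.n 0 (.l 0) (.l 0))))) [(3023656976384, 274877906944), (415001214976, 35701915648), (55834574848, 55834574848)] rfl (by decide +kernel)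
end

mutual
theorem I0AD_6 : CovD 0 [pAD H BI0] [(3023656976384, 274877906944), (343597383680, 35701915648), (139586437120, 27917287424)] :=
  cov_of (fAD H BI0) (.n 0 (.n 1 (.n 2 (.n 0 (.l 0) (.l 0)) (.n 0 (.l 0) (.l 0))) (.n 2 (.n 0 (.l 0) (.l 0)) (.n 0 (.l 0) (.l 0)))) (.n 1 (.n 2 (.n 0 (.l 0) (.l 0)) (.n 0 (.l 0) (.l 0))) (.n 2 (.l 0) (.l 0)))) [(3023656976384, 274877906944), (343597383680, 35701915648), (139586437120, 27917287424)] rfl (by decide +kernel)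
theorem I0AD_7 : CovD 0 [pAD H BI0] [(3023656976384, 274877906944), (343597383680, 35701915648), (195421011968, 27917287424)] :=
  cov_of (fAD H BI0) (.n 0 (.n 1 (.n 2 (.n 0 (.l 0) (.l 0)) (.n 0 (.l 0) (.l 0))) (.n 2 (.n 0 (.l 0) (.l 0)) (.n 0 (.l 0) (.l 0)))) (.n 1 (.n 2 (.n 0 (.l 0) (.l 0)) (.n 0 (.l 0) (.l 0))) (.n 2 (.l 0) (.n 0 (.l 0) (.l 0))))) [(3023656976384, 274877906944), (343597383680, 35701915648), (195421011968, 27917287424)] rfl (by decide +kernel)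
end

mutual
theorem I0AD_8 : CovD 0 [pAD H BI0] [(3023656976384, 274877906944), (415001214976, 35701915648), (167503724544, 55834574848)] :=
  cov_of (fAD H BI0) (.n 2 (.n 0 (.n 1 (.n 2 (.l 0) (.l 0)) (.n 0 (.l 0) (.l 0))) (.n 1 (.n 2 (.l 0) (.l 0)) (.n 0 (.l 0) (.l 0)))) (.n 0 (.n 1 (.n 2 (.l 0) (.l 0)) (.n 0 (.l 0) (.l 0))) (.n 1 (.n 2 (.l 0) (.l 0)) (.n 0 (.l 0) (.l 0))))) [(3023656976384, 274877906944), (415001214976, 35701915648), (167503724544, 55834574848)] rfl (by decide +kernel)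
theorem I0AD_12 : CovD 0 [pAD H BI0] [(3023656976384, 274877906944), (343597383680, 35701915648), (251255586816, 27917287424)] :=
  cov_of (fAD H BI0) (.n 0 (.n 1 (.n 2 (.n 0 (.l 0) (.l 0)) (.n 0 (.l 0) (.l 0))) (.n 2 (.n 0 (.l 0) (.l 0)) (.n 0 (.l 0) (.l 0)))) (.n 1 (.n 2 (.n 0 (.l 0) (.l 0)) (.n 0 (.l 0) (.l 0))) (.n 2 (.l 0) (.l 0)))) [(3023656976384, 274877906944), (343597383680, 35701915648), (251255586816, 27917287424)] rfl (by decide +kernel)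
end

mutual
theorem I0AD_13 : CovD 0 [pAD H BI0] [(3023656976384, 274877906944), (343597383680, 35701915648), (307090161664, 27917287424)] :=
  cov_of (fAD H BI0) (.n 0 (.n 1 (.n 2 (.n 0 (.l 0) (.l 0)) (.n 0 (.l 0) (.l 0))) (.n 2 (.n 0 (.l 0) (.l 0)) (.n 0 (.l 0) (.l 0)))) (.n 1 (.n 2 (.n 0 (.l 0) (.l 0)) (.n 0 (.l 0) (.l 0))) (.n 2 (.l 0) (.l 0)))) [(3023656976384, 274877906944), (343597383680, 35701915648), (307090161664, 27917287424)] rfl (by decide +kernel)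
theorem I0AD_14 : CovD 0 [pAD H BI0] [(3023656976384, 274877906944), (415001214976, 35701915648), (279172874240, 55834574848)] :=
  cov_of (fAD H BI0) (.n 2 (.n 0 (.n 1 (.n 2 (.n 0 (.l 0) (.l 0)) (.n 0 (.l 0) (.l 0))) (.n 2 (.l 0) (.l 0))) (.n 1 (.n 2 (.l 0) (.l 0)) (.n 2 (.l 0) (.l 0)))) (.n 0 (.n 1 (.n 2 (.n 0 (.l 0) (.l 0)) (.n 0 (.l 0) (.l 0))) (.n 2 (.n 0 (.l 0) (.l 0)) (.n 0 (.l 0) (.l 0)))) (.n 1 (.n 2 (.l 0) (.l 0)) (.n 2 (.l 0) (.l 0))))) [(3023656976384, 274877906944), (415001214976, 35701915648), (279172874240, 55834574848)] rfl (by decide +kernel)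
end

mutual
theorem I0AD_17 : CovD 0 [pAD H BI0] [(3023656976384, 274877906944), (343597383680, 35701915648), (362924736512, 27917287424)] :=
  cov_of (fAD H BI0) (.n 0 (.n 1 (.n 2 (.n 0 (.l 0) (.l 0)) (.n 0 (.l 0) (.l 0))) (.n 2 (.n 0 (.l 0) (.l 0)) (.n 0 (.l 0) (.l 0)))) (.n 1 (.n 2 (.n 0 (.l 0) (.l 0)) (.l 0)) (.n 2 (.l 0) (.l 0)))) [(3023656976384, 274877906944), (343597383680, 35701915648), (362924736512, 27917287424)] rfl (by decide +kernel)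
theorem I0AD_18 : CovD 0 [pAD H BI0] [(3023656976384, 274877906944), (343597383680, 35701915648), (418759311360, 27917287424)] :=
  cov_of (fAD H BI0) (.n 0 (.n 2 (.n 1 (.n 0 (.l 0) (.l 0)) (.n 0 (.l 0) (.l 0))) (.n 1 (.n 0 (.l 0) (.l 0)) (.n 0 (.l 0) (.l 0)))) (.n 2 (.n 1 (.l 0) (.l 0)) (.n 1 (.n 0 (.l 0) (.l 0)) (.n 0 (.l 0) (.l 0))))) [(3023656976384, 274877906944), (343597383680, 35701915648), (418759311360, 27917287424)] rfl (by decide +kernel)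
end

mutual
theorem I0AD_20 : CovD 0 [pAD H BI0] [(3023656976384, 274877906944), (415001214976, 35701915648), (362924736512, 27917287424)] :=
  cov_of (fAD H BI0) (.n 0 (.n 1 (.n 2 (.n 0 (.l 0) (.l 0)) (.n 0 (.l 0) (.l 0))) (.n 2 (.n 0 (.l 0) (.l 0)) (.n 0 (.l 0) (.l 0)))) (.n 1 (.n 2 (.l 0) (.l 0)) (.n 2 (.l 0) (.l 0)))) [(3023656976384, 274877906944), (415001214976, 35701915648), (362924736512, 27917287424)] rfl (by decide +kernel)
theorem I0AD_21 : CovD 0 [pAD H BI0] [(3023656976384, 274877906944), (415001214976, 35701915648), (418759311360, 27917287424)] :=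
  cov_of (fAD H BI0) (.n 0 (.n 2 (.n 1 (.n 0 (.l 0) (.l 0)) (.n 0 (.l 0) (.l 0))) (.n 1 (.n 0 (.l 0) (.l 0)) (.n 0 (.l 0) (.l 0)))) (.n 2 (.n 1 (.l 0) (.l 0)) (.n 1 (.n 0 (.l 0) (.l 0)) (.n 0 (.l 0) (.l 0))))) [(3023656976384, 274877906944), (415001214976, 35701915648), (418759311360, 27917287424)] rfl (by decide +kernel)
end

mutual
theorem I0G_0 : CovD 1 [pG H BI0] [(3023656976384, 274877906944), (379299299328, 71403831296), (111669149696, 111669149696)] :=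
  cov_of (fG H BI0) (.n 2 (.n 1 (.n 2 (.l 0) (.l 0)) (.n 2 (.l 0) (.n 1 (.l 0) (.l 0)))) (.n 1 (.n 2 (.n 1 (.l 0) (.l 0)) (.n 0 (.l 0) (.n 1 (.l 0) (.l 0)))) (.n 2 (.n 1 (.n 0 (.l 0) (.l 0)) (.n 0 (.l 0) (.l 0))) (.n 1 (.n 0 (.l 0) (.l 0)) (.n 0 (.l 0) (.n 0 (.l 0) (.l 0))))))) [(3023656976384, 274877906944), (379299299328, 71403831296), (111669149696, 111669149696)] rfl (by decide +kernel)
theorem I0G_2 : CovD 1 [pG H BI0] [(3023656976384, 274877906944), (379299299328, 71403831296), (279172874240, 55834574848)] :=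
  cov_of (fG H BI0) (.n 1 (.n 2 (.n 1 (.n 0 (.l 0) (.l 0)) (.n 0 (.l 0) (.n 0 (.l 0) (.l 0)))) (.n 0 (.n 1 (.l 0) (.l 0)) (.n 1 (.n 0 (.l 0) (.l 0)) (.n 0 (.l 0) (.l 0))))) (.n 2 (.n 1 (.n 0 (.l 0) (.n 0 (.l 0) (.l 0))) (.n 0 (.l 0) (.n 2 (.l 0) (.l 0)))) (.n 0 (.n 1 (.l 0) (.l 0)) (.n 1 (.n 2 (.l 0) (.l 0)) (.n 2 (.l 0) (.l 0)))))) [(3023656976384, 274877906944), (379299299328, 71403831296), (279172874240, 55834574848)] rfl (by decide +kernel)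
end

mutual
theorem I0G_3 : CovD 1 [pG H BI0] [(3023656976384, 274877906944), (379299299328, 71403831296), (390842023936, 55834574848)] :=
  cov_of (fG H BI0) (.n 2 (.n 1 (.n 0 (.n 1 (.l 0) (.l 0)) (.n 2 (.n 0 (.l 0) (.l 0)) (.n 0 (.l 0) (.l 0)))) (.n 0 (.n 1 (.l 0) (.l 0)) (.n 2 (.n 1 (.l 0) (.l 0)) (.n 1 (.l 0) (.l 0))))) (.n 1 (.n 0 (.n 1 (.l 0) (.l 0)) (.n 2 (.n 0 (.l 0) (.l 0)) (.n 0 (.l 0) (.l 0)))) (.n 2 (.n 0 (.l 0) (.n 0 (.l 0) (.l 0))) (.n 0 (.l 0) (.n 0 (.l 0) (.l 0)))))) [(3023656976384, 274877906944), (379299299328, 71403831296), (390842023936, 55834574848)] rfl (by decide +kernel)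
theorem I0RT_2 : CovD 1 [pRT H BI0] [(3023656976384, 274877906944), (379299299328, 71403831296), (27917287424, 27917287424)] :=
  cov_of (fRT H BI0) (.n 1 (.n 2 (.n 1 (.n 1 (.n 0 (.l 0) (.l 0)) (.l 0)) (.n 0 (.l 0) (.l 0))) (.n 1 (.n 1 (.n 0 (.l 0) (.l 0)) (.n 0 (.l 0) (.l 0))) (.n 0 (.l 0) (.l 0)))) (.n 2 (.n 1 (.l 0) (.l 0)) (.n 1 (.n 0 (.l 0) (.l 0)) (.l 0)))) [(3023656976384, 274877906944), (379299299328, 71403831296), (27917287424, 27917287424)] rfl (by decide +kernel)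
end

mutual
theorem I0RT_3 : CovD 1 [pRT H BI0] [(3023656976384, 274877906944), (379299299328, 71403831296), (83751862272, 27917287424)] :=
  cov_of (fRT H BI0) (.n 1 (.n 2 (.n 1 (.n 0 (.n 0 (.l 0) (.l 0)) (.n 1 (.l 0) (.l 0))) (.n 0 (.l 0) (.n 0 (.l 0) (.l 0)))) (.n 1 (.n 0 (.n 0 (.l 0) (.l 0)) (.n 1 (.l 0) (.l 0))) (.n 0 (.l 0) (.n 0 (.l 0) (.l 0))))) (.n 2 (.n 1 (.n 0 (.l 0) (.l 0)) (.l 0)) (.n 1 (.n 0 (.l 0) (.l 0)) (.l 0)))) [(3023656976384, 274877906944), (379299299328, 71403831296), (83751862272, 27917287424)] rfl (by decide +kernel)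
theorem I0RT_6 : CovD 1 [pRT H BI0] [(3023656976384, 274877906944), (343597383680, 35701915648), (139586437120, 27917287424)] :=
  cov_of (fRT H BI0) (.n 2 (.n 1 (.n 0 (.l 0) (.n 1 (.l 0) (.l 0))) (.n 0 (.l 0) (.l 0))) (.n 1 (.n 0 (.n 0 (.l 0) (.l 0)) (.n 1 (.l 0) (.l 0))) (.n 0 (.l 0) (.l 0)))) [(3023656976384, 274877906944), (343597383680, 35701915648), (139586437120, 27917287424)] rfl (by decide +kernel)
end

mutual
theorem I0RT_7 : CovD 1 [pRT H BI0] [(3023656976384, 274877906944), (343597383680, 35701915648), (195421011968, 27917287424)] :=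
  cov_of (fRT H BI0) (.n 2 (.n 1 (.n 0 (.n 0 (.l 0) (.l 0)) (.n 1 (.l 0) (.l 0))) (.n 0 (.l 0) (.n 0 (.l 0) (.l 0)))) (.n 1 (.n 0 (.n 0 (.l 0) (.l 0)) (.n 1 (.l 0) (.l 0))) (.n 0 (.l 0) (.n 0 (.l 0) (.l 0))))) [(3023656976384, 274877906944), (343597383680, 35701915648), (195421011968, 27917287424)] rfl (by decide +kernel)
theorem I0RT_8 : CovD 1 [pRT H BI0] [(3023656976384, 274877906944), (415001214976, 35701915648), (167503724544, 55834574848)] :=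
  cov_of (fRT H BI0) (.n 2 (.n 2 (.n 1 (.n 0 (.l 0) (.l 0)) (.l 0)) (.n 1 (.n 0 (.l 0) (.l 0)) (.l 0))) (.n 2 (.n 1 (.n 0 (.l 0) (.l 0)) (.l 0)) (.n 1 (.n 0 (.l 0) (.l 0)) (.n 0 (.l 0) (.l 0))))) [(3023656976384, 274877906944), (415001214976, 35701915648), (167503724544, 55834574848)] rfl (by decide +kernel)
end

mutual
theorem I0RT_11 : CovD 1 [pRT H BI0] [(3023656976384, 274877906944), (379299299328, 71403831296), (251255586816, 27917287424)] :=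
  cov_of (fRT H BI0) (.n 1 (.n 2 (.n 1 (.n 0 (.n 0 (.l 0) (.l 0)) (.n 0 (.l 0) (.l 0))) (.n 0 (.l 0) (.n 0 (.l 0) (.l 0)))) (.n 0 (.n 1 (.l 0) (.l 0)) (.n 1 (.n 0 (.l 0) (.l 0)) (.l 0)))) (.n 2 (.n 0 (.n 0 (.l 0) (.l 0)) (.n 1 (.l 0) (.l 0))) (.n 0 (.n 0 (.l 0) (.l 0)) (.n 1 (.l 0) (.l 0))))) [(3023656976384, 274877906944), (379299299328, 71403831296), (251255586816, 27917287424)] rfl (by decide +kernel)
theorem I0RT_12 : CovD 1 [pRT H BI0] [(3023656976384, 274877906944), (379299299328, 71403831296), (307090161664, 27917287424)] :=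
  cov_of (fRT H BI0) (.n 1 (.n 2 (.n 0 (.n 1 (.l 0) (.l 0)) (.n 1 (.n 0 (.l 0) (.l 0)) (.l 0))) (.n 1 (.n 0 (.l 0) (.l 0)) (.n 0 (.l 0) (.l 0)))) (.n 1 (.n 0 (.n 0 (.l 0) (.l 0)) (.n 2 (.l 0) (.n 0 (.l 0) (.l 0)))) (.n 0 (.l 0) (.n 2 (.l 0) (.n 0 (.l 0) (.l 0)))))) [(3023656976384, 274877906944), (379299299328, 71403831296), (307090161664, 27917287424)] rfl (by decide +kernel)
end

mutual
theorem I0RT_14 : CovD 1 [pRT H BI0] [(3023656976384, 274877906944), (379299299328, 71403831296), (362924736512, 27917287424)] :=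
  cov_of (fRT H BI0) (.n 1 (.n 2 (.n 0 (.n 1 (.l 0) (.l 0)) (.n 1 (.n 0 (.l 0) (.l 0)) (.n 0 (.l 0) (.l 0)))) (.n 0 (.n 1 (.l 0) (.l 0)) (.n 1 (.n 1 (.l 0) (.l 0)) (.n 1 (.l 0) (.l 0))))) (.n 0 (.n 1 (.n 0 (.l 0) (.l 0)) (.n 0 (.l 0) (.l 0))) (.n 1 (.n 2 (.n 0 (.l 0) (.l 0)) (.n 1 (.l 0) (.l 0))) (.n 2 (.n 0 (.l 0) (.l 0)) (.n 1 (.l 0) (.l 0)))))) [(3023656976384, 274877906944), (379299299328, 71403831296), (362924736512, 27917287424)] rfl (by decide +kernel)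
theorem I0RT_16 : CovD 1 [pRT H BI0] [(3023656976384, 274877906944), (343597383680, 35701915648), (418759311360, 27917287424)] :=
  cov_of (fRT H BI0) (.n 2 (.n 0 (.n 1 (.l 0) (.l 0)) (.n 1 (.n 0 (.l 0) (.n 1 (.l 0) (.l 0))) (.n 0 (.l 0) (.n 1 (.l 0) (.l 0))))) (.n 0 (.n 1 (.n 0 (.l 0) (.l 0)) (.l 0)) (.n 1 (.n 2 (.n 0 (.l 0) (.n 1 (.l 0) (.l 0))) (.n 0 (.l 0) (.n 1 (.l 0) (.l 0)))) (.n 2 (.n 0 (.l 0) (.n 1 (.l 0) (.l 0))) (.n 0 (.l 0) (.n 1 (.l 0) (.l 0))))))) [(3023656976384, 274877906944), (343597383680, 35701915648), (418759311360, 27917287424)] rfl (by decide +kernel)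
end

mutual
theorem I0RT_17 : CovD 1 [pRT H BI0] [(3023656976384, 274877906944), (415001214976, 35701915648), (418759311360, 27917287424)] :=
  cov_of (fRT H BI0) (.n 0 (.n 2 (.n 1 (.l 0) (.l 0)) (.n 1 (.l 0) (.l 0))) (.n 0 (.n 2 (.n 1 (.l 0) (.l 0)) (.n 1 (.n 0 (.l 0) (.l 0)) (.l 0))) (.n 1 (.n 2 (.n 1 (.l 0) (.l 0)) (.n 2 (.n 0 (.l 0) (.l 0)) (.n 1 (.l 0) (.l 0)))) (.n 2 (.n 1 (.l 0) (.l 0)) (.n 2 (.l 0) (.n 0 (.l 0) (.l 0))))))) [(3023656976384, 274877906944), (415001214976, 35701915648), (418759311360, 27917287424)] rfl (by decide +kernel)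
theorem R0AD : CovD 0 [pAD H BR0] [(3023656976384, 274877906944), (379299299328, 71403831296), (1099511627776, 1099511627776)] :=
  cov_of (fAD H BR0) (.n 1 (.n 1 (.n 0 (.l 0) (.l 0)) (.n 0 (.l 0) (.l 0))) (.n 1 (.n 0 (.l 0) (.l 0)) (.n 0 (.l 0) (.l 0)))) [(3023656976384, 274877906944), (379299299328, 71403831296), (1099511627776, 1099511627776)] rfl (by decide +kernel)
end

mutual
theorem R0G : CovD 1 [pG H BR0] [(3023656976384, 274877906944), (379299299328, 71403831296), (1099511627776, 1099511627776)] :=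
  cov_of (fG H BR0) (.n 1 (.l 0) (.l 0)) [(3023656976384, 274877906944), (379299299328, 71403831296), (1099511627776, 1099511627776)] rfl (by decide +kernel)
theorem R0RT : CovD 1 [pRT H BR0] [(3023656976384, 274877906944), (379299299328, 71403831296), (1099511627776, 1099511627776)] :=
  cov_of (fRT H BR0) (.n 1 (.n 1 (.l 0) (.l 0)) (.n 1 (.l 0) (.n 0 (.l 0) (.l 0)))) [(3023656976384, 274877906944), (379299299328, 71403831296), (1099511627776, 1099511627776)] rfl (by decide +kernel)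
end

mutual
theorem R0RS : CovD 1 [pRS H BR0] [(3023656976384, 274877906944), (379299299328, 71403831296), (1099511627776, 1099511627776)] :=
  cov_of (fRS H BR0) (.l 0) [(3023656976384, 274877906944), (379299299328, 71403831296), (1099511627776, 1099511627776)] rfl (by decide +kernel)
theorem PAD : CovD 0 [pAD H BP] [(3023656976384, 274877906944), (379299299328, 71403831296), (2199023255552, 0)] :=
  cov_of (fAD H BP) (.n 1 (.n 0 (.n 1 (.n 0 (.l 0) (.l 0)) (.l 0)) (.n 1 (.l 0) (.l 0))) (.n 0 (.n 1 (.l 0) (.l 0)) (.n 1 (.l 0) (.l 0)))) [(3023656976384, 274877906944), (379299299328, 71403831296), (2199023255552, 0)] rfl (by decide +kernel)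
end

mutual
theorem PG : CovD 1 [pG H BP] [(3023656976384, 274877906944), (379299299328, 71403831296), (2199023255552, 0)] :=
  cov_of (fG H BP) (.n 1 (.l 0) (.l 0)) [(3023656976384, 274877906944), (379299299328, 71403831296), (2199023255552, 0)] rfl (by decide +kernel)
theorem PRT : CovD 1 [pRT H BP] [(3023656976384, 274877906944), (379299299328, 71403831296), (2199023255552, 0)] :=
  cov_of (fRT H BP) (.n 1 (.n 1 (.n 0 (.l 0) (.l 0)) (.l 0)) (.n 1 (.l 0) (.l 0))) [(3023656976384, 274877906944), (379299299328, 71403831296), (2199023255552, 0)] rfl (by decide +kernel)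
end

mutual
theorem PTT : CovD 1 [pTT H BP] [(3023656976384, 274877906944), (379299299328, 71403831296), (2199023255552, 0)] :=
  cov_of (fTT H BP) (.n 1 (.n 0 (.n 1 (.n 1 (.n 0 (.l 0) (.l 0)) (.n 0 (.l 0) (.l 0))) (.n 1 (.l 0) (.l 0))) (.n 1 (.n 1 (.n 0 (.l 0) (.l 0)) (.n 0 (.l 0) (.l 0))) (.n 1 (.l 0) (.l 0)))) (.n 0 (.n 1 (.n 0 (.l 0) (.l 0)) (.n 0 (.l 0) (.l 0))) (.n 1 (.n 0 (.l 0) (.l 0)) (.n 0 (.l 0) (.l 0))))) [(3023656976384, 274877906944), (379299299328, 71403831296), (2199023255552, 0)] rfl (by decide +kernel)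
theorem MAD : CovD 0 [pAD H BM] [(3023656976384, 274877906944), (379299299328, 71403831296), (0, 0)] :=
  cov_of (fAD H BM) (.n 1 (.n 0 (.n 1 (.n 0 (.l 0) (.l 0)) (.n 0 (.l 0) (.l 0))) (.n 1 (.n 0 (.l 0) (.l 0)) (.n 0 (.l 0) (.l 0)))) (.n 0 (.n 1 (.n 0 (.l 0) (.l 0)) (.n 0 (.l 0) (.l 0))) (.n 1 (.n 0 (.l 0) (.l 0)) (.n 0 (.l 0) (.l 0))))) [(3023656976384, 274877906944), (379299299328, 71403831296), (0, 0)] rfl (by decide +kernel)
end

end Pool.Agent.helper82.WC.S3K5
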