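import Pool.Agent.helper82.WH.Chks

/-!
Generated: constants of a cell.
-/

namespace Pool.Agent.helper82.WC.S3K5

open Pool.Agent.helper82.WH
open Pool.Agent.helper31.IC (CovD covD_split TD)

def H : HC := ⟨⟨3023656976384, 0⟩, ⟨130847145984, 0⟩, ⟨228351279104, 0⟩, ⟨0, 582424526848⟩, ⟨1236980006912, 0⟩, ⟨0, 4208640786432⟩, ⟨114550833152, 0⟩, ⟨0, 2592735559680⟩, ⟨9981927096320, 0⟩, ⟨0, 13006310801408⟩, ⟨608409681920, 0⟩, ⟨28863037440, 0⟩, ⟨622594949120, 0⟩, ⟨1036034834432, 0⟩, ⟨721115938816, 0⟩, ⟨0, 911255928832⟩, ⟨0, 1381932466176⟩, ⟨0, 1093581012992⟩, ⟨529272733696, 0⟩, ⟨0, 278507814912⟩, ⟨1078920609792, 0⟩, ⟨1161165799424, 0⟩, ⟨104900919296, 0⟩, ⟨2234534264832, 0⟩, ⟨0, 4691198214144⟩, ⟨0, 6206379065344⟩, ⟨0, 0⟩⟩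

def BI0 : BC := ⟨⟨0, 0, 1099511627776, 0⟩, ⟨0, 0⟩, ⟨0, 0⟩, 221059678208, 52312080384, 158185881600, 650353967104, 189664657408, 24092082176, 1193631809536, 1123234611200, ⟨9320079032320, 0⟩, ⟨0, 3521873182720⟩, ⟨870687768576, 0⟩, ⟨0, 0⟩, ⟨0, 0⟩⟩

def BR0 : BC := ⟨⟨0, 0, 0, 0⟩, ⟨76965806080, 0⟩, ⟨1099511627776, 0⟩, 199475265536, 46339653632, 148633157632, 694237855744, 189664657408, 16458448896, 667011776512, 1129609953280, ⟨0, 0⟩, ⟨0, 0⟩, ⟨892459810816, 0⟩, ⟨0, 0⟩, ⟨0, 0⟩⟩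

def BP : BC := ⟨⟨0, 0, 0, 0⟩, ⟨76965806080, 0⟩, ⟨1099511627776, 0⟩, 108655214592, 22981640192, 81278795776, 517979963392, 115447627776, 13539213312, 667011776512, 1116674719744, ⟨0, 0⟩, ⟨0, 0⟩, ⟨336899211264, 0⟩, ⟨0, 0⟩, ⟨1099511627776, 0⟩⟩

def BM : BC := ⟨⟨0, 0, 0, 0⟩, ⟨76965806080, 0⟩, ⟨1099511627776, 0⟩, 93514891264, 18083545088, 70928826368, 554043506688, 115447627776, 16458448896, 629112045568, 1129609953280, ⟨0, 0⟩, ⟨0, 0⟩, ⟨355308929024, 0⟩, ⟨0, 0⟩, ⟨0, 1099511627776⟩⟩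

def BT : BC := ⟨⟨0, 0, 1099511627776, 0⟩, ⟨0, 0⟩, ⟨0, 0⟩, 175844950016, 35549741056, 156274393088, 541302063104, 189664657408, 24092082176, 1193631809536, 961418362880, ⟨5712306503680, 0⟩, ⟨0, 4625679777792⟩, ⟨680173371392, 0⟩, ⟨1099511627776, 0⟩, ⟨0, 0⟩⟩

end Pool.Agent.helper82.WC.S3K5
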