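import Pool.Agent.helper82.WC.S3K6C0

/-!
Generated certificates, assembled.
-/

namespace Pool.Agent.helper82.WC.S3K6

open Pool.Agent.helper82.WH
open Pool.Agent.helper31.IC (CovD covD_split TD)

theorem I0AD_0 : CovD 0 [pAD H BI0] [(3023656976384, 274877906944), (527744106496, 77040975872), (94489280512, 94489280512)] :=
  covD_split 2 (by decide +kernel) I0AD_1 I0AD_2
theorem I0AD_4 : CovD 0 [pAD H BI0] [(3023656976384, 274877906944), (527744106496, 77040975872), (236223201280, 47244640256)] :=
  covD_split 1 (by decide +kernel) I0AD_5 I0AD_6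
theorem I0AD_7 : CovD 0 [pAD H BI0] [(3023656976384, 274877906944), (527744106496, 77040975872), (330712481792, 47244640256)] :=
  covD_split 1 (by decide +kernel) I0AD_8 I0AD_9
theorem I0AD_3 : CovD 0 [pAD H BI0] [(3023656976384, 274877906944), (527744106496, 77040975872), (283467841536, 94489280512)] :=
  covD_split 2 (by decide +kernel) I0AD_4 I0AD_7
theorem I0AD : CovD 0 [pAD H BI0] [(3023656976384, 274877906944), (527744106496, 77040975872), (188978561024, 188978561024)] :=
  covD_split 2 (by decide +kernel) I0AD_0 I0AD_3
theorem I0RT_3 : CovD 1 [pRT H BI0] [(3023656976384, 274877906944), (527744106496, 77040975872), (330712481792, 47244640256)] :=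
  covD_split 1 (by decide +kernel) I0RT_4 I0RT_5
theorem I0RT_1 : CovD 1 [pRT H BI0] [(3023656976384, 274877906944), (527744106496, 77040975872), (283467841536, 94489280512)] :=
  covD_split 2 (by decide +kernel) I0RT_2 I0RT_3
theorem I0RT : CovD 1 [pRT H BI0] [(3023656976384, 274877906944), (527744106496, 77040975872), (188978561024, 188978561024)] :=
  covD_split 2 (by decide +kernel) I0RT_0 I0RT_1

end Pool.Agent.helper82.WC.S3K6
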