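import Pool.Agent.helper82.WH.Chks

/-!
Generated: constants of a cell.
-/

namespace Pool.Agent.helper82.WC.S3K6

open Pool.Agent.helper82.WH
open Pool.Agent.helper31.IC (CovD covD_split TD)

def H : HC := ⟨⟨3023656976384, 0⟩, ⟨253306863616, 0⟩, ⟨915584057344, 0⟩, ⟨0, 402265735168⟩, ⟨819646234624, 0⟩, ⟨0, 7408797810688⟩, ⟨0, 109239533568⟩, ⟨0, 5077785509888⟩, ⟨18923356684288, 0⟩, ⟨0, 22338689892352⟩, ⟨677597609984, 0⟩, ⟨76447547392, 0⟩, ⟨657074749440, 0⟩, ⟨947067944960, 0⟩, ⟨640729808896, 0⟩, ⟨0, 1422543618048⟩, ⟨0, 1441099022336⟩, ⟨0, 986487848960⟩, ⟨1620217102336, 0⟩, ⟨176636166144, 0⟩, ⟨353384464384, 0⟩, ⟨1032412528640, 0⟩, ⟨61972938752, 0⟩, ⟨776147501056, 0⟩, ⟨0, 5399313186816⟩, ⟨6933085487104, 0⟩, ⟨0, 0⟩⟩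

def BI0 : BC := ⟨⟨0, 0, 1099511627776, 0⟩, ⟨0, 0⟩, ⟨0, 0⟩, 375951392768, 63863586816, 122494255104, 523661672448, 189664657408, 19746783232, 1328537403392, 932846764032, ⟨8194797600768, 0⟩, ⟨0, 2770253905920⟩, ⟨716213649408, 0⟩, ⟨0, 0⟩, ⟨0, 0⟩⟩

def BR0 : BC := ⟨⟨0, 0, 0, 0⟩, ⟨109951188992, 0⟩, ⟨1099511627776, 0⟩, 257537474560, 54896492544, 150638493696, 624334798848, 189664657408, 15955132416, 1157460131840, 946838962176, ⟨0, 0⟩, ⟨0, 0⟩, ⟨834296741888, 0⟩, ⟨0, 0⟩, ⟨0, 0⟩⟩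

def BP : BC := ⟨⟨0, 0, 0, 0⟩, ⟨109951188992, 0⟩, ⟨1099511627776, 0⟩, 220319449088, 54698967040, 147778699264, 510423662592, 189664657408, 12113149952, 1157460131840, 919307550720, ⟨0, 0⟩, ⟨0, 0⟩, ⟨658141544448, 0⟩, ⟨0, 0⟩, ⟨1099511627776, 0⟩⟩

def BM : BC := ⟨⟨0, 0, 0, 0⟩, ⟨109951188992, 0⟩, ⟨1099511627776, 0⟩, 219917975552, 44864634880, 123050852352, 574761664512, 189664657408, 15955132416, 1102447640576, 946838962176, ⟨0, 0⟩, ⟨0, 0⟩, ⟨710060867584, 0⟩, ⟨0, 0⟩, ⟨0, 1099511627776⟩⟩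

def BT : BC := ⟨⟨0, 0, 1099511627776, 0⟩, ⟨0, 0⟩, ⟨0, 0⟩, 264447721472, 49067851776, 161142079488, 506018856960, 189664657408, 19746783232, 1328537403392, 850688737280, ⟨6854767804416, 0⟩, ⟨0, 4179003179008⟩, ⟨680142897152, 0⟩, ⟨1099511627776, 0⟩, ⟨0, 0⟩⟩

end Pool.Agent.helper82.WC.S3K6
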