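import Pool.Agent.helper82.WC.S3K7C0

/-!
Generated certificates, assembled.
-/

namespace Pool.Agent.helper82.WC.S3K7

open Pool.Agent.helper82.WH
open Pool.Agent.helper31.IC (CovD covD_split TD)

theorem I0AD : CovD 0 [pAD H BI0] [(3023656976384, 274877906944), (698200621056, 93415538688), (128849018880, 128849018880)] :=
  covD_split 2 (by decide +kernel) I0AD_0 I0AD_1
theorem I0RT_2 : CovD 1 [pRT H BI0] [(3023656976384, 274877906944), (651492851712, 46707769344), (193273528320, 64424509440)] :=
  covD_split 2 (by decide +kernel) I0RT_3 I0RT_4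
theorem I0RT_1 : CovD 1 [pRT H BI0] [(3023656976384, 274877906944), (698200621056, 93415538688), (193273528320, 64424509440)] :=
  covD_split 1 (by decide +kernel) I0RT_2 I0RT_5
theorem I0RT : CovD 1 [pRT H BI0] [(3023656976384, 274877906944), (698200621056, 93415538688), (128849018880, 128849018880)] :=
  covD_split 2 (by decide +kernel) I0RT_0 I0RT_1

end Pool.Agent.helper82.WC.S3K7
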