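import Pool.Agent.helper82.WH.Chks

/-!
Generated: constants of a cell.
-/

namespace Pool.Agent.helper82.WC.S3K7

open Pool.Agent.helper82.WH
open Pool.Agent.helper31.IC (CovD covD_split TD)

def H : HC := ⟨⟨3023656976384, 0⟩, ⟨443364212736, 0⟩, ⟨1136697540608, 0⟩, ⟨0, 189257285632⟩, ⟨345370198016, 0⟩, ⟨0, 9402262552576⟩, ⟨0, 160058376192⟩, ⟨0, 1260239257600⟩, ⟨24106717609984, 0⟩, ⟨0, 24453667487744⟩, ⟨788054409216, 0⟩, ⟨139711152128, 0⟩, ⟨618706305024, 0⟩, ⟨672766296064, 0⟩, ⟨438367289344, 0⟩, ⟨0, 1725517201408⟩, ⟨0, 1169631346688⟩, ⟨0, 667347320832⟩, ⟨2027393122304, 0⟩, ⟨497093836800, 0⟩, ⟨0, 437059911680⟩, ⟨2916343087104, 0⟩, ⟨0, 118162194432⟩, ⟨2021836718080, 0⟩, ⟨0, 15775218794496⟩, ⟨23589100257280, 0⟩, ⟨0, 0⟩⟩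

def BI0 : BC := ⟨⟨0, 0, 1099511627776, 0⟩, ⟨0, 0⟩, ⟨0, 0⟩, 285313728512, 74821009408, 292502044672, 435659997184, 189664657408, 15317598208, 1643663851520, 736872103936, ⟨6824703033344, 0⟩, ⟨0, 1417339207680⟩, ⟨803770007552, 0⟩, ⟨0, 0⟩, ⟨0, 0⟩⟩

def BR0 : BC := ⟨⟨0, 0, 0, 0⟩, ⟨109951188992, 0⟩, ⟨1099511627776, 0⟩, 293789827072, 75818205184, 268595298304, 449788837888, 189664657408, 15686696960, 1625359908864, 753347330048, ⟨0, 0⟩, ⟨0, 0⟩, ⟨795782414336, 0⟩, ⟨0, 0⟩, ⟨0, 0⟩⟩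

def BP : BC := ⟨⟨0, 0, 0, 0⟩, ⟨109951188992, 0⟩, ⟨1099511627776, 0⟩, 205091635200, 51984859136, 199832764416, 288260030464, 189664657408, 10317987840, 1625359908864, 720598204416, ⟨0, 0⟩, ⟨0, 0⟩, ⟨389349507072, 0⟩, ⟨0, 0⟩, ⟨1099511627776, 0⟩⟩

def BM : BC := ⟨⟨0, 0, 0, 0⟩, ⟨109951188992, 0⟩, ⟨1099511627776, 0⟩, 188597862400, 47767027712, 191454511104, 311450140672, 189664657408, 15686696960, 1574692716544, 753347330048, ⟨0, 0⟩, ⟨0, 0⟩, ⟨409253117952, 0⟩, ⟨0, 0⟩, ⟨0, 1099511627776⟩⟩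

def BT : BC := ⟨⟨0, 0, 1099511627776, 0⟩, ⟨0, 0⟩, ⟨0, 0⟩, 132729077760, 33815068672, 180606599168, 232517337088, 189664657408, 15317598208, 1643663851520, 718299725824, ⟨6463925780480, 0⟩, ⟨0, 2615635083264⟩, ⟨280914952192, 0⟩, ⟨1099511627776, 0⟩, ⟨0, 0⟩⟩

end Pool.Agent.helper82.WC.S3K7
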