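import Pool.Agent.helper82.WH.Chks

/-!
Generated: constants of a cell.
-/

namespace Pool.Agent.helper82.WC.S3K8

open Pool.Agent.helper82.WH
open Pool.Agent.helper31.IC (CovD covD_split TD)

def H : HC := ⟨⟨3023656976384, 0⟩, ⟨721276502016, 0⟩, ⟨838722846720, 0⟩, ⟨0, 87403331584⟩, ⟨0, 90518847488⟩, ⟨0, 6293112291328⟩, ⟨0, 33757069312⟩, ⟨798900944896, 0⟩, ⟨13150648532992, 0⟩, ⟨0, 9634619785216⟩, ⟨888113332224, 0⟩, ⟨240580231168, 0⟩, ⟨479965413376, 0⟩, ⟨712354430976, 0⟩, ⟨10745151488, 0⟩, ⟨0, 1603540549632⟩, ⟨0, 2796994625536⟩, ⟨0, 132234739712⟩, ⟨1884032466944, 0⟩, ⟨4954239336448, 0⟩, ⟨0, 3923494174720⟩, ⟨2019484237824, 0⟩, ⟨0, 66811920384⟩, ⟨613599150080, 0⟩, ⟨0, 7111185399808⟩, ⟨6823224999936, 0⟩, ⟨0, 0⟩⟩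

def BI0 : BC := ⟨⟨0, 0, 1099511627776, 0⟩, ⟨0, 0⟩, ⟨0, 0⟩, 306131959808, 83775848448, 277890203648, 423275528192, 189664657408, 7868514304, 1915505082368, 526670364672, ⟨5373004087296, 0⟩, ⟨0, 60129542144⟩, ⟨783136849920, 0⟩, ⟨0, 0⟩, ⟨0, 0⟩⟩

def BR0 : BC := ⟨⟨0, 0, 0, 0⟩, ⟨164926717952, 0⟩, ⟨1099511627776, 0⟩, 375778574336, 102695043072, 203682742272, 407930535936, 189664657408, 10452205568, 1935537078272, 543313362944, ⟨0, 0⟩, ⟨0, 0⟩, ⟨714714972160, 0⟩, ⟨0, 0⟩, ⟨0, 0⟩⟩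

def BP : BC := ⟨⟨0, 0, 0, 0⟩, ⟨164926717952, 0⟩, ⟨1099511627776, 0⟩, 307887407104, 84711178240, 283577876480, 415725060096, 189664657408, 5855248384, 1935537078272, 514456551424, ⟨0, 0⟩, ⟨0, 0⟩, ⟨781245612032, 0⟩, ⟨0, 0⟩, ⟨1099511627776, 0⟩⟩

def BM : BC := ⟨⟨0, 0, 0, 0⟩, ⟨164926717952, 0⟩, ⟨1099511627776, 0⟩, 301564887040, 82617696256, 273274044416, 432475865088, 189664657408, 10452205568, 1891614326784, 543313362944, ⟨0, 0⟩, ⟨0, 0⟩, ⟨787818217472, 0⟩, ⟨0, 0⟩, ⟨0, 1099511627776⟩⟩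

def BT : BC := ⟨⟨0, 0, 1099511627776, 0⟩, ⟨0, 0⟩, ⟨0, 0⟩, 187938766848, 52257685504, 191215239168, 266757079040, 189664657408, 7868514304, 1915505082368, 526670364672, ⟨5373004087296, 0⟩, ⟨0, 120259084288⟩, ⟨350872272896, 0⟩, ⟨1099511627776, 0⟩, ⟨0, 0⟩⟩

end Pool.Agent.helper82.WC.S3K8
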