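import Pool.Agent.helper82.WC.S3K9P

/-!
Generated certificates (in pairs, so that they are checked one after the other).
-/

namespace Pool.Agent.helper82.WC.S3K9

open Pool.Agent.helper82.WH
open Pool.Agent.helper31.IC (CovD covD_split TD)

mutual
theorem I0AD : CovD 0 [pAD H BI0, pX0] [(3023656976384, 274877906944), (1102867070976, 113413980160), (8589934592, 8589934592)] :=
  cov_of (fADX H BI0) (.n 1 (.n 0 (.n 0 (.l 0) (.l 0)) (.l 0)) (.n 0 (.n 0 (.l 0) (.l 0)) (.n 0 (.l 0) (.l 0)))) [(3023656976384, 274877906944), (1102867070976, 113413980160), (8589934592, 8589934592)] rfl (by decide +kernel)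
theorem I0G : CovD 1 [pG H BI0, pX1] [(3023656976384, 274877906944), (1102867070976, 113413980160), (8589934592, 8589934592)] :=
  cov_of (fGX H BI0) (.l 0) [(3023656976384, 274877906944), (1102867070976, 113413980160), (8589934592, 8589934592)] rfl (by decide +kernel)
end

mutual
theorem I0RT : CovD 1 [pRT H BI0, pX1] [(3023656976384, 274877906944), (1102867070976, 113413980160), (8589934592, 8589934592)] :=
  cov_of (fRTX H BI0) (.n 1 (.n 0 (.l 0) (.l 0)) (.n 0 (.l 0) (.n 0 (.l 0) (.l 1)))) [(3023656976384, 274877906944), (1102867070976, 113413980160), (8589934592, 8589934592)] rfl (by decide +kernel)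
theorem R0AD_0 : CovD 0 [pAD H BR0, pX0] [(3023656976384, 274877906944), (1102867070976, 113413980160), (549755813888, 549755813888)] :=
  cov_of (fADX H BR0) (.n 1 (.n 1 (.n 0 (.l 0) (.l 0)) (.n 0 (.n 2 (.l 0) (.l 0)) (.n 2 (.l 0) (.l 0)))) (.n 2 (.n 0 (.n 1 (.l 0) (.l 0)) (.n 1 (.l 0) (.l 0))) (.n 0 (.n 1 (.l 0) (.l 0)) (.n 1 (.l 0) (.l 0))))) [(3023656976384, 274877906944), (1102867070976, 113413980160), (549755813888, 549755813888)] rfl (by decide +kernel)
end

mutual
theorem R0AD_1 : CovD 0 [pAD H BR0, pX0] [(3023656976384, 274877906944), (1102867070976, 113413980160), (1649267441664, 549755813888)] :=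
  cov_of (fADX H BR0) (.n 1 (.n 1 (.n 0 (.l 0) (.l 0)) (.n 0 (.l 0) (.l 0))) (.n 1 (.n 0 (.n 2 (.l 0) (.l 0)) (.n 2 (.l 0) (.l 0))) (.n 0 (.n 2 (.l 0) (.l 0)) (.l 1)))) [(3023656976384, 274877906944), (1102867070976, 113413980160), (1649267441664, 549755813888)] rfl (by decide +kernel)
theorem R0G : CovD 1 [pG H BR0, pX1] [(3023656976384, 274877906944), (1102867070976, 113413980160), (1099511627776, 1099511627776)] :=
  cov_of (fGX H BR0) (.n 1 (.n 2 (.l 0) (.l 0)) (.n 2 (.n 2 (.l 0) (.l 0)) (.l 0))) [(3023656976384, 274877906944), (1102867070976, 113413980160), (1099511627776, 1099511627776)] rfl (by decide +kernel)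
end

mutual
theorem R0RT : CovD 1 [pRT H BR0, pX1] [(3023656976384, 274877906944), (1102867070976, 113413980160), (1099511627776, 1099511627776)] :=
  cov_of (fRTX H BR0) (.n 1 (.n 2 (.n 1 (.n 0 (.l 0) (.n 2 (.l 0) (.l 0))) (.n 2 (.l 0) (.l 0))) (.n 1 (.n 2 (.l 0) (.l 0)) (.n 2 (.l 0) (.l 0)))) (.n 2 (.n 1 (.n 2 (.l 0) (.l 0)) (.n 2 (.l 0) (.n 0 (.l 0) (.l 0)))) (.n 1 (.n 2 (.l 0) (.n 0 (.l 0) (.l 0))) (.n 0 (.n 2 (.l 0) (.l 0)) (.l 1))))) [(3023656976384, 274877906944), (1102867070976, 113413980160), (1099511627776, 1099511627776)] rfl (by decide +kernel)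
theorem R0RS : CovD 1 [pRS H BR0, pX1] [(3023656976384, 274877906944), (1102867070976, 113413980160), (1099511627776, 1099511627776)] :=
  cov_of (fRSX H BR0) (.n 1 (.l 0) (.n 2 (.l 0) (.l 0))) [(3023656976384, 274877906944), (1102867070976, 113413980160), (1099511627776, 1099511627776)] rfl (by decide +kernel)
end

mutual
theorem PAD : CovD 0 [pAD H BP, pX0] [(3023656976384, 274877906944), (1102867070976, 113413980160), (2199023255552, 0)] :=
  cov_of (fADX H BP) (.n 1 (.n 0 (.l 0) (.l 0)) (.n 0 (.n 0 (.l 0) (.l 0)) (.n 0 (.l 0) (.l 0)))) [(3023656976384, 274877906944), (1102867070976, 113413980160), (2199023255552, 0)] rfl (by decide +kernel)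
theorem PG : CovD 1 [pG H BP, pX1] [(3023656976384, 274877906944), (1102867070976, 113413980160), (2199023255552, 0)] :=
  cov_of (fGX H BP) (.l 0) [(3023656976384, 274877906944), (1102867070976, 113413980160), (2199023255552, 0)] rfl (by decide +kernel)
end

mutual
theorem PRT : CovD 1 [pRT H BP, pX1] [(3023656976384, 274877906944), (1102867070976, 113413980160), (2199023255552, 0)] :=
  cov_of (fRTX H BP) (.n 1 (.n 0 (.l 0) (.l 0)) (.n 0 (.l 0) (.l 0))) [(3023656976384, 274877906944), (1102867070976, 113413980160), (2199023255552, 0)] rfl (by decide +kernel)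
theorem PTT : CovD 1 [pTT H BP, pX1] [(3023656976384, 274877906944), (1102867070976, 113413980160), (2199023255552, 0)] :=
  cov_of (fTTX H BP) (.n 1 (.n 0 (.n 0 (.l 0) (.l 0)) (.n 1 (.l 0) (.l 0))) (.n 0 (.n 0 (.l 0) (.l 0)) (.n 1 (.n 0 (.l 0) (.l 0)) (.l 1)))) [(3023656976384, 274877906944), (1102867070976, 113413980160), (2199023255552, 0)] rfl (by decide +kernel)
end

mutual
theorem MAD : CovD 0 [pAD H BM, pX0] [(3023656976384, 274877906944), (1102867070976, 113413980160), (0, 0)] :=
  cov_of (fADX H BM) (.n 1 (.n 0 (.l 0) (.l 0)) (.n 0 (.n 0 (.l 0) (.l 0)) (.n 0 (.l 0) (.l 0)))) [(3023656976384, 274877906944), (1102867070976, 113413980160), (0, 0)] rfl (by decide +kernel)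
theorem MG : CovD 1 [pG H BM, pX1] [(3023656976384, 274877906944), (1102867070976, 113413980160), (0, 0)] :=
  cov_of (fGX H BM) (.l 0) [(3023656976384, 274877906944), (1102867070976, 113413980160), (0, 0)] rfl (by decide +kernel)
end

mutual
theorem MRT : CovD 1 [pRT H BM, pX1] [(3023656976384, 274877906944), (1102867070976, 113413980160), (0, 0)] :=
  cov_of (fRTX H BM) (.n 1 (.n 0 (.l 0) (.l 0)) (.n 0 (.l 0) (.n 0 (.l 0) (.l 1)))) [(3023656976384, 274877906944), (1102867070976, 113413980160), (0, 0)] rfl (by decide +kernel)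
theorem MTT : CovD 1 [pTT H BM, pX1] [(3023656976384, 274877906944), (1102867070976, 113413980160), (0, 0)] :=
  cov_of (fTTX H BM) (.n 1 (.l 0) (.l 0)) [(3023656976384, 274877906944), (1102867070976, 113413980160), (0, 0)] rfl (by decide +kernel)
end

mutual
theorem TAD : CovD 0 [pAD H BT, pX0] [(3023656976384, 274877906944), (1102867070976, 113413980160), (17179869184, 0)] :=
  cov_of (fADX H BT) (.n 1 (.n 0 (.l 0) (.l 0)) (.n 0 (.n 0 (.l 0) (.l 0)) (.n 0 (.l 0) (.l 0)))) [(3023656976384, 274877906944), (1102867070976, 113413980160), (17179869184, 0)] rfl (by decide +kernel)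
theorem TG : CovD 1 [pG H BT, pX1] [(3023656976384, 274877906944), (1102867070976, 113413980160), (17179869184, 0)] :=
  cov_of (fGX H BT) (.l 0) [(3023656976384, 274877906944), (1102867070976, 113413980160), (17179869184, 0)] rfl (by decide +kernel)
end

mutual
theorem TRT : CovD 1 [pRT H BT, pX1] [(3023656976384, 274877906944), (1102867070976, 113413980160), (17179869184, 0)] :=
  cov_of (fRTX H BT) (.n 1 (.n 0 (.l 0) (.l 0)) (.n 0 (.l 0) (.n 0 (.l 0) (.l 1)))) [(3023656976384, 274877906944), (1102867070976, 113413980160), (17179869184, 0)] rfl (by decide +kernel)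
theorem TTT : CovD 1 [pTT H BT, pX1] [(3023656976384, 274877906944), (1102867070976, 113413980160), (17179869184, 0)] :=
  cov_of (fTTX H BT) (.n 1 (.n 0 (.l 0) (.l 0)) (.n 0 (.l 0) (.l 0))) [(3023656976384, 274877906944), (1102867070976, 113413980160), (17179869184, 0)] rfl (by decide +kernel)
end

end Pool.Agent.helper82.WC.S3K9
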