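import Pool.Agent.helper82.WH.Chks

/-!
Generated: constants of a cell.
-/

namespace Pool.Agent.helper82.WC.S3K9

open Pool.Agent.helper82.WH
open Pool.Agent.helper31.IC (CovD covD_split TD)

def H : HC := ⟨⟨3023656976384, 0⟩, ⟨1106232737792, 0⟩, ⟨129827536896, 0⟩, ⟨0, 82372198400⟩, ⟨92304179200, 0⟩, ⟨0, 1119079432192⟩, ⟨18107006976, 0⟩, ⟨153172639744, 0⟩, ⟨1518087569408, 0⟩, ⟨0, 755779502080⟩, ⟨918596222976, 0⟩, ⟨277568946176, 0⟩, ⟨77137838080, 0⟩, ⟨685301825536, 0⟩, ⟨0, 105602875392⟩, ⟨0, 206471299072⟩, ⟨0, 2078052319232⟩, ⟨0, 38214762496⟩, ⟨253150953472, 0⟩, ⟨2111682379776, 0⟩, ⟨0, 913918328832⟩, ⟨1508752883712, 0⟩, ⟨0, 24080220160⟩, ⟨342624174080, 0⟩, ⟨0, 3690216292352⟩, ⟨2478507622400, 0⟩, ⟨0, 0⟩⟩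

def BI0 : BC := ⟨⟨0, 0, 1099511627776, 0⟩, ⟨0, 0⟩, ⟨0, 0⟩, 321944551424, 84568834048, 283763015680, 401909481472, 189664657408, 5133828096, 1999709929472, 380574367744, ⟨4307852197888, 0⟩, ⟨0, 30064771072⟩, ⟨767186239488, 0⟩, ⟨0, 0⟩, ⟨0, 0⟩⟩

def BR0 : BC := ⟨⟨0, 0, 0, 0⟩, ⟨164926717952, 0⟩, ⟨1099511627776, 0⟩, 390785794048, 102583631872, 193291616256, 404683423744, 189664657408, 7197425664, 2015715393536, 390372261888, ⟨0, 0⟩, ⟨0, 0⟩, ⟨699894857728, 0⟩, ⟨0, 0⟩, ⟨0, 0⟩⟩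

def BP : BC := ⟨⟨0, 0, 0, 0⟩, ⟨164926717952, 0⟩, ⟨1099511627776, 0⟩, 327583793152, 85729804288, 283557363712, 395887509504, 189664657408, 3623878656, 2015715393536, 372252868608, ⟨0, 0⟩, ⟨0, 0⟩, ⟨761534349312, 0⟩, ⟨0, 0⟩, ⟨1099511627776, 0⟩⟩

def BM : BC := ⟨⟨0, 0, 0, 0⟩, ⟨164926717952, 0⟩, ⟨1099511627776, 0⟩, 320919240704, 84074496000, 280575672320, 405809659904, 189664657408, 7197425664, 1980936224768, 390372261888, ⟨0, 0⟩, ⟨0, 0⟩, ⟨768287965184, 0⟩, ⟨0, 0⟩, ⟨0, 1099511627776⟩⟩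

def BT : BC := ⟨⟨0, 0, 1099511627776, 0⟩, ⟨0, 0⟩, ⟨0, 0⟩, 321953136640, 84571127808, 283769307136, 401892376576, 189664657408, 5133828096, 1999709929472, 380574367744, ⟨4307852197888, 0⟩, ⟨0, 60129542144⟩, ⟨767177457664, 0⟩, ⟨1099511627776, 0⟩, ⟨0, 0⟩⟩

end Pool.Agent.helper82.WC.S3K9
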