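import Pool.Agent.helper82.WC.S4K0A
import Pool.Agent.helper63.WG.Asm

/-!
Generated: a cell.
-/

namespace Pool.Agent.helper82.WC.S4K0

open Pool.Agent.helper82.WH Pool.Agent.helper63.WG

def cell : CC where
  H := H
  ce := 3573412790272
  he := 274877906944
  ck := 31406948352
  hk := 31406948352
  V0 := 174546354176
  θ := 1098412116148
  t1 := 5
  al := 618475290624
  Is := [⟨1, BI0, 141733920768, 141733920768⟩, ⟨1, BI1, 322122547200, 38654705664⟩, ⟨1, BI2, 476741369856, 115964116992⟩, ⟨1, BI3, 605590388736, 12884901888⟩]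
  xH := 64424509440
  HI := [⟨0, BH0, 32212254720, 32212254720⟩]
  HR := [⟨0, BH1, 1099511627776, 1099511627776⟩]
  mT := 0
  T := BT
  lT := 1092994583826

theorem cell_ok : cell.ok = true := by decide +kernel

theorem cell_cert : cell.Cert where
  I := by
    intro q hq
    simp only [cell, List.mem_cons, List.not_mem_nil, or_false] at hq
    rcases hq with rfl | rfl | rfl | rfl
    · exact ⟨I0AD, I0G, I0RT⟩
    · exact ⟨I1AD, I1G, I1RT⟩
    · exact ⟨I2AD, I2G, I2RT⟩
    · exact ⟨I3AD, I3G, I3RT⟩
  HI := by
    intro q hq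
    simp only [cell, List.mem_cons, List.not_mem_nil, or_false] at hq
    subst hq
    exact H0H
  HR := by
    intro q hq
    simp only [cell, List.mem_cons, List.not_mem_nil, or_false] at hq
    subst hq
    exact H1H
  T := ⟨⟨TAD, TG, TRT⟩, TTT⟩

theorem box : BoxOK 3298534883328 3848290697216 0 62813896704 :=
  cell.box cell_ok (by decide +kernel) cell_cert

end Pool.Agent.helper82.WC.S4K0
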