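import Pool.Agent.helper82.WC.S4K0P

/-!
Generated certificates (in pairs, so that they are checked one after the other).
-/

namespace Pool.Agent.helper82.WC.S4K0

open Pool.Agent.helper82.WH
open Pool.Agent.helper31.IC (CovD covD_split TD)

mutual
theorem I0RT_35 : CovD 1 [pRT H BI0, pK1 H BI0] [(3573412790272, 274877906944), (39258685440, 7851737088), (50935627776, 2214592512)] :=
  cov_of (fRTK H BI0) (.n 2 (.n 2 (.n 1 (.n 2 (.l 0) (.l 0)) (.n 2 (.l 0) (.l 0))) (.n 1 (.n 2 (.l 0) (.l 0)) (.n 2 (.l 0) (.l 0)))) (.n 2 (.n 1 (.n 2 (.l 0) (.l 0)) (.n 2 (.l 0) (.l 0))) (.n 1 (.n 2 (.l 0) (.l 0)) (.n 2 (.l 0) (.l 0))))) [(3573412790272, 274877906944), (39258685440, 7851737088), (50935627776, 2214592512)] rfl (by decide +kernel)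
theorem I0RT_36 : CovD 1 [pRT H BI0, pK1 H BI0] [(3573412790272, 274877906944), (54962159616, 7851737088), (50935627776, 2214592512)] :=
  cov_of (fRTK H BI0) (.n 2 (.n 2 (.n 1 (.n 2 (.l 0) (.l 0)) (.n 0 (.l 0) (.l 0))) (.n 1 (.n 1 (.l 0) (.l 0)) (.n 0 (.l 0) (.l 0)))) (.n 2 (.n 1 (.n 1 (.l 0) (.l 0)) (.n 0 (.l 0) (.l 0))) (.n 1 (.n 1 (.l 0) (.l 0)) (.n 0 (.l 0) (.l 0))))) [(3573412790272, 274877906944), (54962159616, 7851737088), (50935627776, 2214592512)] rfl (by decide +kernel)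
end

mutual
theorem I0RT_40 : CovD 1 [pRT H BI0, pK1 H BI0] [(3573412790272, 274877906944), (15703474176, 15703474176), (55364812800, 2214592512)] :=
  cov_of (fRTK H BI0) (.n 1 (.l 1) (.n 1 (.l 1) (.n 2 (.n 2 (.l 1) (.n 2 (.l 0) (.l 0))) (.n 2 (.n 2 (.l 0) (.l 0)) (.n 2 (.l 0) (.l 0)))))) [(3573412790272, 274877906944), (15703474176, 15703474176), (55364812800, 2214592512)] rfl (by decide +kernel)
theorem I0RT_41 : CovD 1 [pRT H BI0, pK1 H BI0] [(3573412790272, 274877906944), (15703474176, 15703474176), (59793997824, 2214592512)] :=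
  cov_of (fRTK H BI0) (.n 2 (.n 1 (.l 1) (.n 2 (.n 2 (.n 1 (.l 0) (.l 0)) (.n 1 (.l 0) (.l 0))) (.n 2 (.n 1 (.l 0) (.l 0)) (.n 1 (.l 0) (.l 0))))) (.n 1 (.n 1 (.l 1) (.n 2 (.n 2 (.l 0) (.l 0)) (.n 2 (.l 0) (.l 0)))) (.n 2 (.n 2 (.n 1 (.l 0) (.l 0)) (.n 1 (.l 0) (.l 0))) (.n 2 (.n 0 (.l 0) (.l 0)) (.n 0 (.l 0) (.l 0)))))) [(3573412790272, 274877906944), (15703474176, 15703474176), (59793997824, 2214592512)] rfl (by decide +kernel)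
end

mutual
theorem I0RT_44 : CovD 1 [pRT H BI0, pK1 H BI0] [(3573412790272, 274877906944), (39258685440, 7851737088), (55364812800, 2214592512)] :=
  cov_of (fRTK H BI0) (.n 2 (.n 2 (.n 1 (.n 2 (.l 0) (.l 0)) (.n 2 (.l 0) (.l 0))) (.n 1 (.n 2 (.l 0) (.l 0)) (.n 2 (.l 0) (.l 0)))) (.n 2 (.n 1 (.n 2 (.l 0) (.l 0)) (.n 2 (.l 0) (.l 0))) (.n 1 (.n 2 (.l 0) (.l 0)) (.n 1 (.l 0) (.l 0))))) [(3573412790272, 274877906944), (39258685440, 7851737088), (55364812800, 2214592512)] rfl (by decide +kernel)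
theorem I0RT_45 : CovD 1 [pRT H BI0, pK1 H BI0] [(3573412790272, 274877906944), (54962159616, 7851737088), (55364812800, 2214592512)] :=
  cov_of (fRTK H BI0) (.n 2 (.n 2 (.n 1 (.n 1 (.l 0) (.l 0)) (.n 0 (.l 0) (.l 0))) (.n 1 (.n 1 (.l 0) (.l 0)) (.l 0))) (.n 2 (.n 1 (.n 0 (.l 0) (.l 0)) (.l 0)) (.n 1 (.n 0 (.l 0) (.l 0)) (.l 0)))) [(3573412790272, 274877906944), (54962159616, 7851737088), (55364812800, 2214592512)] rfl (by decide +kernel)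
end

mutual
theorem I0RT_47 : CovD 1 [pRT H BI0, pK1 H BI0] [(3573412790272, 274877906944), (39258685440, 7851737088), (59793997824, 2214592512)] :=
  cov_of (fRTK H BI0) (.n 2 (.n 2 (.n 1 (.n 2 (.l 0) (.l 0)) (.n 1 (.l 0) (.l 0))) (.n 1 (.n 2 (.l 0) (.l 0)) (.n 1 (.l 0) (.l 0)))) (.n 2 (.n 1 (.n 2 (.l 0) (.l 0)) (.n 0 (.l 0) (.l 0))) (.n 1 (.n 1 (.l 0) (.l 0)) (.n 0 (.l 0) (.l 0))))) [(3573412790272, 274877906944), (39258685440, 7851737088), (59793997824, 2214592512)] rfl (by decide +kernel)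
theorem I0RT_48 : CovD 1 [pRT H BI0, pK1 H BI0] [(3573412790272, 274877906944), (54962159616, 7851737088), (59793997824, 2214592512)] :=
  cov_of (fRTK H BI0) (.n 2 (.n 2 (.n 1 (.n 0 (.l 0) (.l 0)) (.l 0)) (.n 1 (.n 0 (.l 0) (.l 0)) (.l 0))) (.n 2 (.n 1 (.n 0 (.l 0) (.l 0)) (.l 0)) (.n 1 (.l 0) (.l 0)))) [(3573412790272, 274877906944), (54962159616, 7851737088), (59793997824, 2214592512)] rfl (by decide +kernel)
end

mutual
theorem I0RT_51 : CovD 1 [pRT H BI0, pK1 H BI0] [(3573412790272, 274877906944), (15703474176, 15703474176), (64223182848, 2214592512)] :=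
  cov_of (fRTK H BI0) (.n 2 (.n 1 (.n 2 (.n 2 (.l 0) (.l 0)) (.n 2 (.l 0) (.l 0))) (.n 2 (.n 2 (.n 0 (.l 0) (.l 0)) (.n 0 (.l 0) (.l 0))) (.n 2 (.n 0 (.l 0) (.l 0)) (.n 0 (.l 0) (.l 0))))) (.n 1 (.n 2 (.n 2 (.l 0) (.l 0)) (.n 2 (.l 0) (.l 0))) (.n 2 (.n 2 (.n 0 (.l 0) (.l 0)) (.n 0 (.l 0) (.l 0))) (.n 2 (.n 0 (.l 0) (.l 0)) (.l 0))))) [(3573412790272, 274877906944), (15703474176, 15703474176), (64223182848, 2214592512)] rfl (by decide +kernel)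
theorem I0RT_52 : CovD 1 [pRT H BI0, pK1 H BI0] [(3573412790272, 274877906944), (15703474176, 15703474176), (68652367872, 2214592512)] :=
  cov_of (fRTK H BI0) (.n 2 (.n 1 (.n 2 (.n 2 (.l 0) (.l 0)) (.n 2 (.l 0) (.l 0))) (.n 2 (.n 2 (.l 0) (.l 0)) (.n 2 (.l 0) (.l 0)))) (.n 2 (.n 1 (.n 1 (.l 0) (.l 0)) (.n 2 (.l 0) (.l 0))) (.n 1 (.n 1 (.l 0) (.l 0)) (.n 1 (.l 0) (.l 0))))) [(3573412790272, 274877906944), (15703474176, 15703474176), (68652367872, 2214592512)] rfl (by decide +kernel)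
end

mutual
theorem I0RT_54 : CovD 1 [pRT H BI0, pK1 H BI0] [(3573412790272, 274877906944), (47110422528, 15703474176), (64223182848, 2214592512)] :=
  cov_of (fRTK H BI0) (.n 1 (.n 2 (.n 2 (.n 1 (.n 1 (.l 0) (.l 0)) (.n 0 (.l 0) (.l 0))) (.n 1 (.n 0 (.l 0) (.l 0)) (.n 0 (.l 0) (.l 0)))) (.n 2 (.n 1 (.n 0 (.l 0) (.l 0)) (.n 0 (.l 0) (.l 0))) (.n 1 (.n 0 (.l 0) (.l 0)) (.l 0)))) (.n 2 (.n 2 (.n 1 (.l 0) (.l 0)) (.n 1 (.l 0) (.l 0))) (.n 2 (.n 1 (.l 0) (.l 0)) (.n 1 (.l 0) (.l 0))))) [(3573412790272, 274877906944), (47110422528, 15703474176), (64223182848, 2214592512)] rfl (by decide +kernel)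
theorem I0RT_55 : CovD 1 [pRT H BI0, pK1 H BI0] [(3573412790272, 274877906944), (47110422528, 15703474176), (68652367872, 2214592512)] :=
  cov_of (fRTK H BI0) (.n 1 (.n 2 (.n 2 (.n 1 (.n 0 (.l 0) (.l 0)) (.l 0)) (.n 1 (.l 0) (.l 0))) (.n 2 (.n 1 (.l 0) (.l 0)) (.n 1 (.l 0) (.l 0)))) (.n 2 (.n 2 (.n 1 (.l 0) (.l 0)) (.n 1 (.l 0) (.l 0))) (.n 2 (.n 1 (.l 0) (.l 0)) (.n 1 (.l 0) (.l 0))))) [(3573412790272, 274877906944), (47110422528, 15703474176), (68652367872, 2214592512)] rfl (by decide +kernel)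
end

mutual
theorem I0RT_61 : CovD 1 [pRT H BI0, pK1 H BI0] [(3573412790272, 274877906944), (15703474176, 15703474176), (73081552896, 2214592512)] :=
  cov_of (fRTK H BI0) (.n 2 (.n 2 (.n 1 (.n 0 (.l 0) (.l 0)) (.n 1 (.l 0) (.l 0))) (.n 1 (.n 0 (.l 0) (.l 0)) (.n 1 (.l 0) (.l 0)))) (.n 2 (.n 1 (.n 0 (.l 0) (.l 0)) (.n 1 (.l 0) (.l 0))) (.n 1 (.n 0 (.l 0) (.l 0)) (.n 1 (.l 0) (.l 0))))) [(3573412790272, 274877906944), (15703474176, 15703474176), (73081552896, 2214592512)] rfl (by decide +kernel)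
theorem I0RT_62 : CovD 1 [pRT H BI0, pK1 H BI0] [(3573412790272, 274877906944), (15703474176, 15703474176), (77510737920, 2214592512)] :=
  cov_of (fRTK H BI0) (.n 2 (.n 2 (.n 1 (.l 0) (.n 1 (.l 0) (.l 0))) (.n 1 (.l 0) (.n 0 (.l 0) (.l 0)))) (.n 2 (.n 1 (.l 0) (.n 0 (.l 0) (.l 0))) (.n 1 (.l 0) (.n 0 (.l 0) (.l 0))))) [(3573412790272, 274877906944), (15703474176, 15703474176), (77510737920, 2214592512)] rfl (by decide +kernel)
end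

mutual
theorem I0RT_64 : CovD 1 [pRT H BI0, pK1 H BI0] [(3573412790272, 274877906944), (47110422528, 15703474176), (73081552896, 2214592512)] :=
  cov_of (fRTK H BI0) (.n 1 (.n 2 (.n 2 (.n 1 (.l 0) (.l 0)) (.n 1 (.l 0) (.l 0))) (.n 2 (.n 1 (.l 0) (.l 0)) (.n 1 (.l 0) (.l 0)))) (.n 2 (.n 2 (.n 1 (.l 0) (.l 0)) (.n 1 (.l 0) (.l 0))) (.n 2 (.n 1 (.l 0) (.l 0)) (.n 1 (.l 0) (.l 0))))) [(3573412790272, 274877906944), (47110422528, 15703474176), (73081552896, 2214592512)] rfl (by decide +kernel)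
theorem I0RT_65 : CovD 1 [pRT H BI0, pK1 H BI0] [(3573412790272, 274877906944), (47110422528, 15703474176), (77510737920, 2214592512)] :=
  cov_of (fRTK H BI0) (.n 1 (.n 2 (.n 2 (.n 1 (.l 0) (.l 0)) (.n 1 (.l 0) (.l 0))) (.n 2 (.n 0 (.l 0) (.l 0)) (.n 0 (.l 0) (.l 0)))) (.n 2 (.n 2 (.n 0 (.l 0) (.l 0)) (.n 0 (.l 0) (.l 0))) (.n 2 (.n 0 (.l 0) (.l 0)) (.n 0 (.l 0) (.l 0))))) [(3573412790272, 274877906944), (47110422528, 15703474176), (77510737920, 2214592512)] rfl (by decide +kernel)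
end

mutual
theorem I0RT_67 : CovD 1 [pRT H BI0, pK1 H BI0] [(3573412790272, 274877906944), (15703474176, 15703474176), (84154515456, 4429185024)] :=
  cov_of (fRTK H BI0) (.n 2 (.n 2 (.n 2 (.n 1 (.l 0) (.n 0 (.l 0) (.l 0))) (.n 1 (.l 0) (.l 0))) (.n 2 (.n 1 (.l 0) (.l 0)) (.n 1 (.l 0) (.l 0)))) (.n 2 (.n 2 (.n 1 (.l 0) (.l 0)) (.n 1 (.l 0) (.l 0))) (.n 2 (.n 1 (.l 0) (.l 0)) (.n 1 (.l 0) (.l 0))))) [(3573412790272, 274877906944), (15703474176, 15703474176), (84154515456, 4429185024)] rfl (by decide +kernel)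
theorem I0RT_68 : CovD 1 [pRT H BI0, pK1 H BI0] [(3573412790272, 274877906944), (47110422528, 15703474176), (84154515456, 4429185024)] :=
  cov_of (fRTK H BI0) (.n 2 (.n 1 (.n 2 (.n 2 (.n 0 (.l 0) (.l 0)) (.n 0 (.l 0) (.l 0))) (.n 2 (.n 0 (.l 0) (.l 0)) (.n 0 (.l 0) (.l 0)))) (.n 2 (.n 2 (.n 0 (.l 0) (.l 0)) (.n 0 (.l 0) (.l 0))) (.n 2 (.l 0) (.l 0)))) (.n 1 (.n 2 (.n 2 (.l 0) (.l 0)) (.n 2 (.l 0) (.l 0))) (.n 2 (.n 2 (.l 0) (.l 0)) (.n 2 (.l 0) (.l 0))))) [(3573412790272, 274877906944), (47110422528, 15703474176), (84154515456, 4429185024)] rfl (by decide +kernel)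
end

mutual
theorem I0RT_71 : CovD 1 [pRT H BI0, pK1 H BI0] [(3573412790272, 274877906944), (15703474176, 15703474176), (93012885504, 4429185024)] :=
  cov_of (fRTK H BI0) (.n 2 (.n 2 (.n 2 (.n 1 (.l 0) (.l 0)) (.n 1 (.l 0) (.l 0))) (.n 2 (.n 1 (.l 0) (.l 0)) (.n 1 (.l 0) (.l 0)))) (.n 2 (.n 2 (.n 1 (.l 0) (.l 0)) (.n 0 (.l 0) (.l 0))) (.n 2 (.n 0 (.l 0) (.l 0)) (.n 0 (.l 0) (.l 0))))) [(3573412790272, 274877906944), (15703474176, 15703474176), (93012885504, 4429185024)] rfl (by decide +kernel)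
theorem I0RT_72 : CovD 1 [pRT H BI0, pK1 H BI0] [(3573412790272, 274877906944), (47110422528, 15703474176), (93012885504, 4429185024)] :=
  cov_of (fRTK H BI0) (.n 2 (.n 1 (.n 2 (.n 2 (.l 0) (.l 0)) (.n 2 (.l 0) (.l 0))) (.n 2 (.n 2 (.l 0) (.l 0)) (.n 1 (.l 0) (.l 0)))) (.n 2 (.n 1 (.n 2 (.l 0) (.l 0)) (.n 1 (.l 0) (.l 0))) (.n 1 (.n 1 (.l 0) (.l 0)) (.n 1 (.l 0) (.l 0))))) [(3573412790272, 274877906944), (47110422528, 15703474176), (93012885504, 4429185024)] rfl (by decide +kernel)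
end

mutual
theorem I0RT_74 : CovD 1 [pRT H BI0, pK1 H BI0] [(3573412790272, 274877906944), (15703474176, 15703474176), (101871255552, 4429185024)] :=
  cov_of (fRTK H BI0) (.n 2 (.n 2 (.n 2 (.n 0 (.l 0) (.l 0)) (.n 0 (.l 0) (.l 0))) (.n 2 (.n 0 (.l 0) (.l 0)) (.l 0))) (.n 2 (.n 2 (.l 0) (.l 0)) (.n 2 (.l 0) (.l 0)))) [(3573412790272, 274877906944), (15703474176, 15703474176), (101871255552, 4429185024)] rfl (by decide +kernel)
theorem I0RT_75 : CovD 1 [pRT H BI0, pK1 H BI0] [(3573412790272, 274877906944), (47110422528, 15703474176), (101871255552, 4429185024)] :=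
  cov_of (fRTK H BI0) (.n 2 (.n 2 (.n 1 (.n 1 (.l 0) (.l 0)) (.n 1 (.l 0) (.l 0))) (.n 1 (.n 1 (.l 0) (.l 0)) (.n 0 (.l 0) (.l 0)))) (.n 2 (.n 1 (.n 0 (.l 0) (.l 0)) (.n 0 (.l 0) (.l 0))) (.n 1 (.n 0 (.l 0) (.l 0)) (.n 0 (.l 0) (.l 0))))) [(3573412790272, 274877906944), (47110422528, 15703474176), (101871255552, 4429185024)] rfl (by decide +kernel)
end

mutual
theorem I0RT_78 : CovD 1 [pRT H BI0, pK1 H BI0] [(3573412790272, 274877906944), (31406948352, 31406948352), (110729625600, 4429185024)] :=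
  cov_of (fRTK H BI0) (.n 1 (.n 2 (.n 2 (.n 1 (.l 0) (.l 0)) (.n 1 (.l 0) (.l 0))) (.n 2 (.n 1 (.l 0) (.l 0)) (.n 1 (.l 0) (.l 0)))) (.n 2 (.n 2 (.n 1 (.n 0 (.l 0) (.l 0)) (.n 0 (.l 0) (.l 0))) (.n 1 (.l 0) (.l 0))) (.n 2 (.n 1 (.l 0) (.l 0)) (.n 1 (.l 0) (.l 0))))) [(3573412790272, 274877906944), (31406948352, 31406948352), (110729625600, 4429185024)] rfl (by decide +kernel)
theorem I0RT_79 : CovD 1 [pRT H BI0, pK1 H BI0] [(3573412790272, 274877906944), (31406948352, 31406948352), (119587995648, 4429185024)] :=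
  cov_of (fRTK H BI0) (.n 1 (.n 2 (.n 2 (.n 0 (.l 0) (.l 0)) (.n 0 (.l 0) (.l 0))) (.n 2 (.n 0 (.l 0) (.l 0)) (.l 0))) (.n 2 (.n 2 (.n 1 (.l 0) (.l 0)) (.n 1 (.l 0) (.l 0))) (.n 2 (.n 1 (.l 0) (.l 0)) (.n 1 (.l 0) (.l 0))))) [(3573412790272, 274877906944), (31406948352, 31406948352), (119587995648, 4429185024)] rfl (by decide +kernel)
end

mutual
theorem I0RT_80 : CovD 1 [pRT H BI0, pK1 H BI0] [(3573412790272, 274877906944), (31406948352, 31406948352), (132875550720, 8858370048)] :=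
  cov_of (fRTK H BI0) (.n 2 (.n 1 (.n 2 (.n 2 (.l 0) (.l 0)) (.n 2 (.l 0) (.l 0))) (.n 2 (.n 2 (.n 1 (.l 0) (.l 0)) (.n 0 (.l 0) (.l 0))) (.n 2 (.n 0 (.l 0) (.l 0)) (.n 0 (.l 0) (.l 0))))) (.n 2 (.n 1 (.n 2 (.l 0) (.l 0)) (.n 2 (.n 0 (.l 0) (.l 0)) (.n 0 (.l 0) (.l 0)))) (.n 1 (.n 2 (.l 0) (.l 0)) (.n 2 (.l 0) (.l 0))))) [(3573412790272, 274877906944), (31406948352, 31406948352), (132875550720, 8858370048)] rfl (by decide +kernel)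
theorem I0RT_84 : CovD 1 [pRT H BI0, pK1 H BI0] [(3573412790272, 274877906944), (31406948352, 31406948352), (150592290816, 8858370048)] :=
  cov_of (fRTK H BI0) (.n 2 (.n 2 (.n 1 (.n 2 (.l 0) (.l 0)) (.n 2 (.l 0) (.l 0))) (.n 1 (.n 0 (.l 0) (.l 0)) (.n 1 (.l 0) (.l 0)))) (.n 2 (.n 1 (.n 0 (.l 0) (.l 0)) (.n 1 (.l 0) (.l 0))) (.n 1 (.l 0) (.n 0 (.l 0) (.l 0))))) [(3573412790272, 274877906944), (31406948352, 31406948352), (150592290816, 8858370048)] rfl (by decide +kernel)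
end

mutual
theorem I0RT_85 : CovD 1 [pRT H BI0, pK1 H BI0] [(3573412790272, 274877906944), (31406948352, 31406948352), (168309030912, 8858370048)] :=
  cov_of (fRTK H BI0) (.n 2 (.n 2 (.n 1 (.l 0) (.n 0 (.l 0) (.l 0))) (.n 1 (.n 0 (.l 0) (.l 0)) (.n 0 (.l 0) (.l 0)))) (.n 2 (.n 1 (.n 0 (.l 0) (.l 0)) (.l 0)) (.n 1 (.n 0 (.l 0) (.l 0)) (.l 0)))) [(3573412790272, 274877906944), (31406948352, 31406948352), (168309030912, 8858370048)] rfl (by decide +kernel)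
theorem I0RT_87 : CovD 1 [pRT H BI0, pK1 H BI0] [(3573412790272, 274877906944), (31406948352, 31406948352), (186025771008, 8858370048)] :=
  cov_of (fRTK H BI0) (.n 2 (.n 2 (.n 1 (.n 0 (.l 0) (.l 0)) (.n 0 (.l 0) (.l 0))) (.n 1 (.n 0 (.l 0) (.l 0)) (.n 0 (.l 0) (.l 0)))) (.n 2 (.n 1 (.n 0 (.l 0) (.l 0)) (.n 0 (.l 0) (.l 0))) (.n 1 (.n 0 (.l 0) (.l 0)) (.n 0 (.l 0) (.l 0))))) [(3573412790272, 274877906944), (31406948352, 31406948352), (186025771008, 8858370048)] rfl (by decide +kernel)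
end

mutual
theorem I0RT_88 : CovD 1 [pRT H BI0, pK1 H BI0] [(3573412790272, 274877906944), (31406948352, 31406948352), (203742511104, 8858370048)] :=
  cov_of (fRTK H BI0) (.n 2 (.n 2 (.n 1 (.n 0 (.l 0) (.l 0)) (.n 0 (.l 0) (.l 0))) (.n 1 (.n 0 (.l 0) (.l 0)) (.n 0 (.l 0) (.l 0)))) (.n 2 (.n 1 (.n 0 (.l 0) (.n 0 (.l 0) (.l 0))) (.n 0 (.l 0) (.l 0))) (.n 1 (.n 0 (.l 0) (.n 0 (.l 0) (.l 0))) (.n 0 (.l 0) (.l 0))))) [(3573412790272, 274877906944), (31406948352, 31406948352), (203742511104, 8858370048)] rfl (by decide +kernel)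
theorem I0RT_91 : CovD 1 [pRT H BI0, pK1 H BI0] [(3573412790272, 274877906944), (31406948352, 31406948352), (221459251200, 8858370048)] :=
  cov_of (fRTK H BI0) (.n 2 (.n 2 (.n 1 (.n 0 (.l 0) (.n 0 (.l 0) (.l 0))) (.n 0 (.l 0) (.l 0))) (.n 1 (.n 0 (.l 0) (.n 0 (.l 0) (.l 0))) (.n 0 (.l 0) (.l 0)))) (.n 2 (.n 1 (.n 0 (.l 0) (.n 0 (.l 0) (.l 0))) (.n 0 (.l 0) (.l 0))) (.n 1 (.n 0 (.l 0) (.n 0 (.l 0) (.l 0))) (.n 0 (.l 0) (.l 0))))) [(3573412790272, 274877906944), (31406948352, 31406948352), (221459251200, 8858370048)] rfl (by decide +kernel)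
end

end Pool.Agent.helper82.WC.S4K0
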