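import Pool.Agent.helper82.WC.S4K0P

/-!
Generated certificates (in pairs, so that they are checked one after the other).
-/

namespace Pool.Agent.helper82.WC.S4K0

open Pool.Agent.helper82.WH
open Pool.Agent.helper31.IC (CovD covD_split TD)

mutual
theorem I0RT_92 : CovD 1 [pRT H BI0, pK1 H BI0] [(3573412790272, 274877906944), (31406948352, 31406948352), (239175991296, 8858370048)] :=
  cov_of (fRTK H BI0) (.n 2 (.n 2 (.n 1 (.n 0 (.l 0) (.n 0 (.l 0) (.l 0))) (.n 0 (.l 0) (.l 0))) (.n 1 (.n 0 (.l 0) (.n 0 (.l 0) (.l 0))) (.n 0 (.l 0) (.l 0)))) (.n 2 (.n 1 (.n 0 (.l 0) (.n 0 (.l 0) (.l 0))) (.n 0 (.l 0) (.l 0))) (.n 1 (.n 0 (.l 0) (.n 0 (.l 0) (.l 0))) (.n 0 (.l 0) (.l 0))))) [(3573412790272, 274877906944), (31406948352, 31406948352), (239175991296, 8858370048)] rfl (by decide +kernel)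
theorem I0RT_94 : CovD 1 [pRT H BI0, pK1 H BI0] [(3573412790272, 274877906944), (31406948352, 31406948352), (256892731392, 8858370048)] :=
  cov_of (fRTK H BI0) (.n 2 (.n 1 (.n 0 (.l 0) (.n 1 (.n 0 (.l 0) (.l 0)) (.l 0))) (.n 0 (.l 0) (.n 0 (.l 0) (.l 0)))) (.n 1 (.n 0 (.l 0) (.n 1 (.l 0) (.l 0))) (.n 0 (.l 0) (.n 0 (.l 0) (.l 0))))) [(3573412790272, 274877906944), (31406948352, 31406948352), (256892731392, 8858370048)] rfl (by decide +kernel)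
end

mutual
theorem I0RT_95 : CovD 1 [pRT H BI0, pK1 H BI0] [(3573412790272, 274877906944), (31406948352, 31406948352), (274609471488, 8858370048)] :=
  cov_of (fRTK H BI0) (.n 2 (.n 0 (.n 1 (.l 0) (.l 0)) (.n 1 (.n 0 (.l 0) (.l 0)) (.n 0 (.l 0) (.l 0)))) (.n 0 (.n 1 (.l 0) (.l 0)) (.n 1 (.n 0 (.l 0) (.l 0)) (.n 0 (.l 0) (.l 0))))) [(3573412790272, 274877906944), (31406948352, 31406948352), (274609471488, 8858370048)] rfl (by decide +kernel)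
theorem I1AD_0 : CovD 0 [pAD H BI1, pK0 H BI1] [(3573412790272, 274877906944), (31406948352, 31406948352), (302795194368, 19327352832)] :=
  cov_of (fADK H BI1) (.n 0 (.n 2 (.n 0 (.n 1 (.l 0) (.l 0)) (.n 1 (.l 0) (.l 0))) (.n 0 (.n 1 (.l 0) (.l 0)) (.n 1 (.l 0) (.l 0)))) (.n 2 (.n 0 (.n 1 (.l 0) (.l 0)) (.n 1 (.l 0) (.l 0))) (.n 0 (.n 1 (.l 0) (.l 0)) (.n 1 (.l 0) (.l 0))))) [(3573412790272, 274877906944), (31406948352, 31406948352), (302795194368, 19327352832)] rfl (by decide +kernel)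
end

mutual
theorem I1AD_1 : CovD 0 [pAD H BI1, pK0 H BI1] [(3573412790272, 274877906944), (31406948352, 31406948352), (341449900032, 19327352832)] :=
  cov_of (fADK H BI1) (.n 0 (.n 2 (.n 0 (.n 1 (.l 0) (.l 0)) (.n 1 (.l 0) (.l 0))) (.n 0 (.n 1 (.l 0) (.l 0)) (.n 1 (.l 0) (.l 0)))) (.n 2 (.n 0 (.n 1 (.l 0) (.l 0)) (.n 1 (.l 0) (.l 0))) (.n 0 (.n 1 (.l 0) (.l 0)) (.n 1 (.l 0) (.l 0))))) [(3573412790272, 274877906944), (31406948352, 31406948352), (341449900032, 19327352832)] rfl (by decide +kernel)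
theorem I1G : CovD 1 [pG H BI1, pK1 H BI1] [(3573412790272, 274877906944), (31406948352, 31406948352), (322122547200, 38654705664)] :=
  cov_of (fGK H BI1) (.n 2 (.n 2 (.l 0) (.n 0 (.l 0) (.l 0))) (.n 0 (.n 2 (.l 0) (.n 0 (.l 0) (.l 0))) (.n 2 (.n 0 (.l 0) (.l 0)) (.n 0 (.n 0 (.l 0) (.l 0)) (.n 2 (.l 0) (.n 0 (.l 0) (.l 0))))))) [(3573412790272, 274877906944), (31406948352, 31406948352), (322122547200, 38654705664)] rfl (by decide +kernel)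
end

mutual
theorem I1RT_1 : CovD 1 [pRT H BI1, pK1 H BI1] [(3573412790272, 274877906944), (31406948352, 31406948352), (293131517952, 9663676416)] :=
  cov_of (fRTK H BI1) (.n 2 (.n 0 (.n 1 (.l 0) (.l 0)) (.n 1 (.n 0 (.l 0) (.n 0 (.l 0) (.l 0))) (.n 0 (.l 0) (.l 0)))) (.n 0 (.n 1 (.l 0) (.l 0)) (.n 1 (.n 0 (.l 0) (.n 0 (.l 0) (.l 0))) (.n 0 (.l 0) (.l 0))))) [(3573412790272, 274877906944), (31406948352, 31406948352), (293131517952, 9663676416)] rfl (by decide +kernel)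
theorem I1RT_2 : CovD 1 [pRT H BI1, pK1 H BI1] [(3573412790272, 274877906944), (31406948352, 31406948352), (312458870784, 9663676416)] :=
  cov_of (fRTK H BI1) (.n 2 (.n 0 (.n 1 (.l 0) (.l 0)) (.n 1 (.n 0 (.l 0) (.l 0)) (.n 0 (.l 0) (.l 0)))) (.n 0 (.n 1 (.l 0) (.l 0)) (.n 1 (.n 0 (.l 0) (.l 0)) (.n 0 (.l 0) (.l 0))))) [(3573412790272, 274877906944), (31406948352, 31406948352), (312458870784, 9663676416)] rfl (by decide +kernel)
end

mutual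
theorem I1RT_3 : CovD 1 [pRT H BI1, pK1 H BI1] [(3573412790272, 274877906944), (31406948352, 31406948352), (341449900032, 19327352832)] :=
  cov_of (fRTK H BI1) (.n 2 (.n 2 (.n 0 (.n 1 (.l 0) (.l 0)) (.n 1 (.n 0 (.l 0) (.l 0)) (.n 0 (.l 0) (.l 0)))) (.n 0 (.n 1 (.l 0) (.l 0)) (.n 1 (.n 0 (.l 0) (.l 0)) (.n 0 (.l 0) (.l 0))))) (.n 2 (.n 0 (.n 1 (.l 0) (.l 0)) (.n 1 (.n 0 (.l 0) (.l 0)) (.n 0 (.l 0) (.l 0)))) (.n 0 (.n 1 (.l 0) (.l 0)) (.n 1 (.n 0 (.l 0) (.l 0)) (.l 0))))) [(3573412790272, 274877906944), (31406948352, 31406948352), (341449900032, 19327352832)] rfl (by decide +kernel)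
theorem I2AD_2 : CovD 0 [pAD H BI2, pK0 H BI2] [(3435973836800, 137438953472), (31406948352, 31406948352), (389768282112, 28991029248)] :=
  cov_of (fADK H BI2) (.n 2 (.n 0 (.n 2 (.n 1 (.l 0) (.l 0)) (.n 1 (.l 0) (.l 0))) (.n 1 (.n 0 (.l 0) (.l 0)) (.n 0 (.l 0) (.l 0)))) (.n 0 (.n 2 (.n 1 (.l 0) (.l 0)) (.n 1 (.l 0) (.l 0))) (.n 1 (.l 0) (.l 0)))) [(3435973836800, 137438953472), (31406948352, 31406948352), (389768282112, 28991029248)] rfl (by decide +kernel)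
end

mutual
theorem I2AD_3 : CovD 0 [pAD H BI2, pK0 H BI2] [(3710851743744, 137438953472), (31406948352, 31406948352), (389768282112, 28991029248)] :=
  cov_of (fADK H BI2) (.n 2 (.n 0 (.n 1 (.n 0 (.l 0) (.l 0)) (.n 0 (.l 0) (.l 0))) (.n 1 (.n 0 (.l 0) (.l 0)) (.n 0 (.l 0) (.l 0)))) (.n 0 (.n 1 (.l 0) (.n 0 (.l 0) (.l 0))) (.n 1 (.n 0 (.l 0) (.l 0)) (.n 0 (.l 0) (.l 0))))) [(3710851743744, 137438953472), (31406948352, 31406948352), (389768282112, 28991029248)] rfl (by decide +kernel)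
theorem I2AD_4 : CovD 0 [pAD H BI2, pK0 H BI2] [(3573412790272, 274877906944), (31406948352, 31406948352), (447750340608, 28991029248)] :=
  cov_of (fADK H BI2) (.n 0 (.n 2 (.n 0 (.n 0 (.n 1 (.l 0) (.l 0)) (.n 0 (.l 0) (.l 0))) (.n 1 (.l 0) (.l 0))) (.n 0 (.n 1 (.l 0) (.l 0)) (.n 0 (.l 0) (.l 0)))) (.n 2 (.n 0 (.n 1 (.l 0) (.l 0)) (.n 1 (.l 0) (.l 0))) (.n 0 (.n 0 (.l 0) (.l 0)) (.n 0 (.l 0) (.l 0))))) [(3573412790272, 274877906944), (31406948352, 31406948352), (447750340608, 28991029248)] rfl (by decide +kernel)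
end

mutual
theorem I2AD_6 : CovD 0 [pAD H BI2, pK0 H BI2] [(3573412790272, 274877906944), (31406948352, 31406948352), (505732399104, 28991029248)] :=
  cov_of (fADK H BI2) (.n 0 (.n 2 (.n 0 (.n 0 (.l 0) (.l 0)) (.n 0 (.l 0) (.l 0))) (.n 0 (.n 1 (.l 0) (.n 0 (.l 0) (.l 0))) (.n 1 (.l 0) (.l 0)))) (.n 2 (.n 0 (.n 0 (.l 0) (.l 0)) (.n 1 (.l 0) (.l 0))) (.n 0 (.n 1 (.l 0) (.l 0)) (.n 1 (.l 0) (.n 0 (.l 0) (.l 0)))))) [(3573412790272, 274877906944), (31406948352, 31406948352), (505732399104, 28991029248)] rfl (by decide +kernel)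
theorem I2AD_8 : CovD 0 [pAD H BI2, pK0 H BI2] [(3435973836800, 137438953472), (31406948352, 31406948352), (563714457600, 28991029248)] :=
  cov_of (fADK H BI2) (.n 2 (.n 0 (.n 1 (.n 0 (.l 0) (.l 0)) (.n 0 (.l 0) (.l 0))) (.n 1 (.n 0 (.l 0) (.l 0)) (.n 0 (.l 0) (.l 0)))) (.n 0 (.n 2 (.n 1 (.l 0) (.l 0)) (.n 1 (.l 0) (.n 0 (.l 0) (.l 0)))) (.n 2 (.n 0 (.l 0) (.l 0)) (.n 1 (.l 0) (.l 0))))) [(3435973836800, 137438953472), (31406948352, 31406948352), (563714457600, 28991029248)] rfl (by decide +kernel)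
end

mutual
theorem I2AD_9 : CovD 0 [pAD H BI2, pK0 H BI2] [(3710851743744, 137438953472), (31406948352, 31406948352), (563714457600, 28991029248)] :=
  cov_of (fADK H BI2) (.n 2 (.n 0 (.n 2 (.n 0 (.l 0) (.l 0)) (.n 0 (.l 0) (.l 0))) (.n 2 (.n 0 (.l 0) (.l 0)) (.n 0 (.l 0) (.l 0)))) (.n 0 (.n 2 (.n 0 (.l 0) (.l 0)) (.n 0 (.l 0) (.l 0))) (.n 2 (.n 1 (.l 0) (.l 0)) (.n 0 (.l 0) (.l 0))))) [(3710851743744, 137438953472), (31406948352, 31406948352), (563714457600, 28991029248)] rfl (by decide +kernel)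
theorem I2G_1 : CovD 1 [pG H BI2, pK1 H BI2] [(3573412790272, 274877906944), (31406948352, 31406948352), (389768282112, 28991029248)] :=
  cov_of (fGK H BI2) (.n 2 (.n 0 (.l 0) (.n 2 (.l 0) (.l 0))) (.n 0 (.n 0 (.l 0) (.l 0)) (.n 2 (.n 0 (.l 0) (.l 0)) (.n 0 (.l 0) (.l 0))))) [(3573412790272, 274877906944), (31406948352, 31406948352), (389768282112, 28991029248)] rfl (by decide +kernel)
end

mutual
theorem I2G_2 : CovD 1 [pG H BI2, pK1 H BI2] [(3573412790272, 274877906944), (31406948352, 31406948352), (447750340608, 28991029248)] :=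
  cov_of (fGK H BI2) (.n 2 (.n 0 (.n 2 (.l 0) (.l 0)) (.n 2 (.n 0 (.l 0) (.n 0 (.l 0) (.l 0))) (.n 0 (.l 0) (.n 0 (.l 0) (.l 0))))) (.n 0 (.n 0 (.l 0) (.n 0 (.l 0) (.l 0))) (.n 2 (.n 0 (.l 0) (.n 2 (.l 0) (.n 0 (.l 0) (.l 0)))) (.n 0 (.l 0) (.n 0 (.l 0) (.n 1 (.l 0) (.l 0))))))) [(3573412790272, 274877906944), (31406948352, 31406948352), (447750340608, 28991029248)] rfl (by decide +kernel)
theorem I2G_4 : CovD 1 [pG H BI2, pK1 H BI2] [(3573412790272, 274877906944), (31406948352, 31406948352), (505732399104, 28991029248)] :=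
  cov_of (fGK H BI2) (.n 2 (.n 0 (.n 0 (.l 0) (.n 0 (.l 0) (.l 0))) (.n 2 (.n 0 (.l 0) (.n 0 (.l 0) (.n 1 (.l 0) (.l 0)))) (.n 0 (.l 0) (.n 0 (.l 0) (.n 1 (.l 0) (.l 0)))))) (.n 0 (.n 2 (.n 0 (.l 0) (.l 0)) (.l 0)) (.n 2 (.n 0 (.l 0) (.n 0 (.l 0) (.n 1 (.l 0) (.l 0)))) (.n 0 (.l 0) (.n 2 (.n 0 (.l 0) (.l 0)) (.l 0)))))) [(3573412790272, 274877906944), (31406948352, 31406948352), (505732399104, 28991029248)] rfl (by decide +kernel)
end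

mutual
theorem I2G_5 : CovD 1 [pG H BI2, pK1 H BI2] [(3573412790272, 274877906944), (31406948352, 31406948352), (563714457600, 28991029248)] :=
  cov_of (fGK H BI2) (.n 2 (.n 0 (.n 0 (.l 0) (.l 0)) (.n 2 (.n 0 (.l 0) (.n 0 (.l 0) (.l 0))) (.n 0 (.l 0) (.l 0)))) (.n 0 (.n 0 (.l 0) (.l 0)) (.n 2 (.n 0 (.l 0) (.l 0)) (.l 0)))) [(3573412790272, 274877906944), (31406948352, 31406948352), (563714457600, 28991029248)] rfl (by decide +kernel)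
theorem I2RT_3 : CovD 1 [pRT H BI2, pK1 H BI2] [(3573412790272, 274877906944), (31406948352, 31406948352), (368025010176, 7247757312)] :=
  cov_of (fRTK H BI2) (.n 0 (.n 1 (.n 0 (.n 0 (.l 0) (.l 0)) (.n 2 (.n 0 (.l 0) (.l 0)) (.l 0))) (.n 0 (.l 0) (.n 0 (.l 0) (.l 0)))) (.n 1 (.n 0 (.n 2 (.n 0 (.l 0) (.l 0)) (.n 0 (.l 0) (.l 0))) (.n 2 (.n 1 (.n 0 (.l 0) (.l 0)) (.l 0)) (.n 0 (.l 0) (.n 0 (.l 0) (.l 0))))) (.n 0 (.n 0 (.l 0) (.l 0)) (.n 2 (.n 0 (.l 0) (.l 0)) (.l 0))))) [(3573412790272, 274877906944), (31406948352, 31406948352), (368025010176, 7247757312)] rfl (by decide +kernel)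
end

mutual
theorem I2RT_4 : CovD 1 [pRT H BI2, pK1 H BI2] [(3573412790272, 274877906944), (31406948352, 31406948352), (382520524800, 7247757312)] :=
  cov_of (fRTK H BI2) (.n 0 (.n 1 (.n 0 (.n 0 (.l 0) (.l 0)) (.n 0 (.l 0) (.l 0))) (.n 0 (.l 0) (.l 0))) (.n 1 (.n 0 (.n 2 (.n 0 (.l 0) (.l 0)) (.n 0 (.l 0) (.l 0))) (.n 2 (.n 0 (.l 0) (.n 0 (.l 0) (.l 0))) (.n 0 (.l 0) (.l 0)))) (.n 0 (.n 0 (.l 0) (.l 0)) (.n 2 (.l 0) (.l 0))))) [(3573412790272, 274877906944), (31406948352, 31406948352), (382520524800, 7247757312)] rfl (by decide +kernel)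
theorem I2RT_6 : CovD 1 [pRT H BI2, pK1 H BI2] [(3573412790272, 274877906944), (31406948352, 31406948352), (397016039424, 7247757312)] :=
  cov_of (fRTK H BI2) (.n 0 (.n 1 (.n 0 (.l 0) (.n 0 (.l 0) (.l 0))) (.n 0 (.l 0) (.l 0))) (.n 1 (.n 0 (.n 2 (.l 0) (.l 0)) (.n 2 (.n 0 (.l 0) (.l 0)) (.n 0 (.l 0) (.l 0)))) (.n 0 (.l 0) (.n 0 (.l 0) (.l 0))))) [(3573412790272, 274877906944), (31406948352, 31406948352), (397016039424, 7247757312)] rfl (by decide +kernel)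
end

mutual
theorem I2RT_7 : CovD 1 [pRT H BI2, pK1 H BI2] [(3573412790272, 274877906944), (31406948352, 31406948352), (411511554048, 7247757312)] :=
  cov_of (fRTK H BI2) (.n 0 (.n 0 (.n 1 (.l 0) (.l 0)) (.n 1 (.l 0) (.l 0))) (.n 1 (.n 0 (.n 0 (.l 0) (.l 0)) (.n 2 (.l 0) (.l 0))) (.n 0 (.l 0) (.n 0 (.l 0) (.l 0))))) [(3573412790272, 274877906944), (31406948352, 31406948352), (411511554048, 7247757312)] rfl (by decide +kernel)
theorem I2RT_9 : CovD 1 [pRT H BI2, pK1 H BI2] [(3573412790272, 274877906944), (31406948352, 31406948352), (433254825984, 14495514624)] :=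
  cov_of (fRTK H BI2) (.n 2 (.n 0 (.n 0 (.n 0 (.l 0) (.l 0)) (.n 1 (.l 0) (.l 0))) (.n 0 (.n 1 (.n 0 (.l 0) (.l 0)) (.l 0)) (.n 1 (.n 0 (.l 0) (.l 0)) (.l 0)))) (.n 0 (.n 0 (.n 0 (.l 0) (.l 0)) (.n 0 (.l 0) (.l 0))) (.n 0 (.n 1 (.l 0) (.l 0)) (.n 1 (.n 0 (.l 0) (.l 0)) (.l 0))))) [(3573412790272, 274877906944), (31406948352, 31406948352), (433254825984, 14495514624)] rfl (by decide +kernel)
end

mutual
theorem I2RT_10 : CovD 1 [pRT H BI2, pK1 H BI2] [(3573412790272, 274877906944), (31406948352, 31406948352), (462245855232, 14495514624)] :=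
  cov_of (fRTK H BI2) (.n 2 (.n 0 (.n 0 (.l 0) (.n 0 (.l 0) (.l 0))) (.n 0 (.n 0 (.l 0) (.l 0)) (.n 1 (.l 0) (.l 0)))) (.n 0 (.n 0 (.l 0) (.n 0 (.l 0) (.l 0))) (.n 0 (.n 0 (.l 0) (.l 0)) (.n 1 (.l 0) (.l 0))))) [(3573412790272, 274877906944), (31406948352, 31406948352), (462245855232, 14495514624)] rfl (by decide +kernel)
theorem I2RT_13 : CovD 1 [pRT H BI2, pK1 H BI2] [(3573412790272, 274877906944), (31406948352, 31406948352), (491236884480, 14495514624)] :=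
  cov_of (fRTK H BI2) (.n 2 (.n 0 (.n 0 (.l 0) (.l 0)) (.n 0 (.n 0 (.l 0) (.l 0)) (.n 1 (.l 0) (.l 0)))) (.n 0 (.n 0 (.l 0) (.l 0)) (.n 0 (.n 0 (.l 0) (.l 0)) (.n 0 (.l 0) (.l 0))))) [(3573412790272, 274877906944), (31406948352, 31406948352), (491236884480, 14495514624)] rfl (by decide +kernel)
end

mutual
theorem I2RT_14 : CovD 1 [pRT H BI2, pK1 H BI2] [(3573412790272, 274877906944), (31406948352, 31406948352), (520227913728, 14495514624)] :=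
  cov_of (fRTK H BI2) (.n 2 (.n 0 (.n 0 (.l 0) (.l 0)) (.n 2 (.n 0 (.l 0) (.l 0)) (.n 0 (.l 0) (.n 0 (.l 0) (.l 0))))) (.n 0 (.n 0 (.l 0) (.n 0 (.l 0) (.l 0))) (.n 2 (.n 0 (.l 0) (.n 0 (.l 0) (.l 0))) (.n 0 (.l 0) (.n 0 (.l 0) (.l 0)))))) [(3573412790272, 274877906944), (31406948352, 31406948352), (520227913728, 14495514624)] rfl (by decide +kernel)
theorem I2RT_16 : CovD 1 [pRT H BI2, pK1 H BI2] [(3573412790272, 274877906944), (31406948352, 31406948352), (549218942976, 14495514624)] :=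
  cov_of (fRTK H BI2) (.n 2 (.n 0 (.n 0 (.l 0) (.n 0 (.l 0) (.l 0))) (.n 2 (.n 0 (.l 0) (.n 0 (.l 0) (.l 0))) (.n 0 (.l 0) (.n 0 (.l 0) (.l 0))))) (.n 0 (.n 0 (.n 0 (.l 0) (.l 0)) (.n 0 (.l 0) (.l 0))) (.n 2 (.n 0 (.l 0) (.n 0 (.l 0) (.l 0))) (.n 0 (.n 0 (.l 0) (.l 0)) (.n 0 (.l 0) (.l 0)))))) [(3573412790272, 274877906944), (31406948352, 31406948352), (549218942976, 14495514624)] rfl (by decide +kernel)
end

mutual
theorem I2RT_18 : CovD 1 [pRT H BI2, pK1 H BI2] [(3573412790272, 274877906944), (31406948352, 31406948352), (570962214912, 7247757312)] :=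
  cov_of (fRTK H BI2) (.n 0 (.n 0 (.n 0 (.l 0) (.l 0)) (.n 1 (.l 0) (.l 0))) (.n 2 (.n 0 (.n 0 (.l 0) (.l 0)) (.n 0 (.l 0) (.l 0))) (.n 0 (.n 0 (.l 0) (.l 0)) (.n 1 (.l 0) (.l 0))))) [(3573412790272, 274877906944), (31406948352, 31406948352), (570962214912, 7247757312)] rfl (by decide +kernel)
theorem I2RT_19 : CovD 1 [pRT H BI2, pK1 H BI2] [(3573412790272, 274877906944), (31406948352, 31406948352), (585457729536, 7247757312)] :=
  cov_of (fRTK H BI2) (.n 0 (.n 0 (.n 1 (.l 0) (.l 0)) (.n 1 (.n 0 (.l 0) (.l 0)) (.l 0))) (.n 0 (.n 1 (.n 0 (.l 0) (.l 0)) (.l 0)) (.n 1 (.n 2 (.l 0) (.n 0 (.l 0) (.l 0))) (.n 0 (.l 0) (.l 0))))) [(3573412790272, 274877906944), (31406948352, 31406948352), (585457729536, 7247757312)] rfl (by decide +kernel)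
theorem I3AD : CovD 0 [pAD H BI3, pK0 H BI3] [(3573412790272, 274877906944), (31406948352, 31406948352), (605590388736, 12884901888)] :=
  cov_of (fADK H BI3) (.n 0 (.n 0 (.n 2 (.n 1 (.l 0) (.n 0 (.l 0) (.l 0))) (.n 0 (.n 1 (.l 0) (.n 0 (.l 0) (.l 0))) (.n 1 (.l 0) (.l 0)))) (.n 2 (.n 0 (.l 0) (.l 0)) (.n 1 (.l 0) (.l 0)))) (.n 0 (.n 2 (.n 0 (.l 0) (.l 0)) (.n 0 (.l 0) (.l 0))) (.n 2 (.n 0 (.l 0) (.l 0)) (.n 2 (.l 0) (.n 0 (.l 0) (.l 0)))))) [(3573412790272, 274877906944), (31406948352, 31406948352), (605590388736, 12884901888)] rfl (by decide +kernel)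
end

end Pool.Agent.helper82.WC.S4K0
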