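import Pool.Agent.helper82.WC.S4K0P

/-!
Generated certificates (in pairs, so that they are checked one after the other).
-/

namespace Pool.Agent.helper82.WC.S4K0

open Pool.Agent.helper82.WH
open Pool.Agent.helper31.IC (CovD covD_split TD)

mutual
theorem I3G : CovD 1 [pG H BI3, pK1 H BI3] [(3573412790272, 274877906944), (31406948352, 31406948352), (605590388736, 12884901888)] :=
  cov_of (fGK H BI3) (.n 0 (.n 2 (.n 0 (.l 0) (.l 0)) (.l 0)) (.n 2 (.n 0 (.n 0 (.l 0) (.l 0)) (.n 2 (.n 1 (.l 0) (.l 0)) (.n 0 (.l 0) (.l 0)))) (.n 0 (.l 0) (.n 0 (.l 0) (.l 0))))) [(3573412790272, 274877906944), (31406948352, 31406948352), (605590388736, 12884901888)] rfl (by decide +kernel)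
theorem I3RT_0 : CovD 1 [pRT H BI3, pK1 H BI3] [(3435973836800, 137438953472), (31406948352, 31406948352), (605590388736, 12884901888)] :=
  cov_of (fRTK H BI3) (.n 2 (.n 0 (.n 0 (.l 0) (.l 0)) (.n 1 (.l 0) (.l 0))) (.n 0 (.n 1 (.n 0 (.l 0) (.l 0)) (.l 0)) (.n 1 (.n 2 (.l 0) (.n 0 (.l 0) (.l 0))) (.n 0 (.l 0) (.l 0))))) [(3435973836800, 137438953472), (31406948352, 31406948352), (605590388736, 12884901888)] rfl (by decide +kernel)
end

mutual
theorem I3RT_2 : CovD 1 [pRT H BI3, pK1 H BI3] [(3710851743744, 137438953472), (31406948352, 31406948352), (599147937792, 6442450944)] :=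
  cov_of (fRTK H BI3) (.n 0 (.n 1 (.n 0 (.l 0) (.l 0)) (.l 0)) (.n 1 (.n 0 (.l 0) (.n 1 (.n 2 (.l 0) (.l 0)) (.l 0))) (.n 0 (.l 0) (.l 0)))) [(3710851743744, 137438953472), (31406948352, 31406948352), (599147937792, 6442450944)] rfl (by decide +kernel)
theorem I3RT_3 : CovD 1 [pRT H BI3, pK1 H BI3] [(3710851743744, 137438953472), (31406948352, 31406948352), (612032839680, 6442450944)] :=
  cov_of (fRTK H BI3) (.n 0 (.n 1 (.n 2 (.n 0 (.l 0) (.l 0)) (.n 0 (.l 0) (.l 0))) (.n 0 (.l 0) (.l 0))) (.n 1 (.n 2 (.n 0 (.l 0) (.n 1 (.n 0 (.l 0) (.l 0)) (.l 0))) (.n 0 (.n 0 (.l 0) (.l 0)) (.n 1 (.n 2 (.l 0) (.n 0 (.l 0) (.l 0))) (.l 0)))) (.n 2 (.l 0) (.n 0 (.l 0) (.l 0))))) [(3710851743744, 137438953472), (31406948352, 31406948352), (612032839680, 6442450944)] rfl (by decide +kernel)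
end

mutual
theorem TAD : CovD 0 [pAD H BT] [(3573412790272, 274877906944), (31406948352, 31406948352), (618475290624, 0)] :=
  cov_of (fAD H BT) (.n 0 (.n 0 (.n 0 (.l 0) (.l 0)) (.l 0)) (.n 0 (.l 0) (.l 0))) [(3573412790272, 274877906944), (31406948352, 31406948352), (618475290624, 0)] rfl (by decide +kernel)
theorem TG : CovD 1 [pG H BT] [(3573412790272, 274877906944), (31406948352, 31406948352), (618475290624, 0)] :=
  cov_of (fG H BT) (.n 0 (.l 0) (.l 0)) [(3573412790272, 274877906944), (31406948352, 31406948352), (618475290624, 0)] rfl (by decide +kernel)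
end

mutual
theorem TRT : CovD 1 [pRT H BT] [(3573412790272, 274877906944), (31406948352, 31406948352), (618475290624, 0)] :=
  cov_of (fRT H BT) (.n 0 (.n 0 (.n 0 (.l 0) (.l 0)) (.n 0 (.l 0) (.l 0))) (.n 1 (.n 0 (.l 0) (.n 1 (.n 0 (.l 0) (.l 0)) (.l 0))) (.n 0 (.l 0) (.l 0)))) [(3573412790272, 274877906944), (31406948352, 31406948352), (618475290624, 0)] rfl (by decide +kernel)
theorem TTT : CovD 1 [pTT H BT] [(3573412790272, 274877906944), (31406948352, 31406948352), (618475290624, 0)] :=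
  cov_of (fTT H BT) (.n 0 (.l 0) (.l 0)) [(3573412790272, 274877906944), (31406948352, 31406948352), (618475290624, 0)] rfl (by decide +kernel)
end

mutual
theorem H0H : CovD 0 [pH H BH0, pJ0 H BH0] [(3573412790272, 274877906944), (31406948352, 31406948352), (32212254720, 32212254720)] :=
  cov_of (fHJ H BH0) (.n 2 (.l 0) (.n 1 (.l 0) (.l 0))) [(3573412790272, 274877906944), (31406948352, 31406948352), (32212254720, 32212254720)] rfl (by decide +kernel)
theorem H1H : CovD 0 [pH H BH1] [(3573412790272, 274877906944), (31406948352, 31406948352), (1099511627776, 1099511627776)] :=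
  cov_of (fH H BH1) (.l 0) [(3573412790272, 274877906944), (31406948352, 31406948352), (1099511627776, 1099511627776)] rfl (by decide +kernel)
end

end Pool.Agent.helper82.WC.S4K0
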