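import Pool.Agent.helper82.WC.S4K0C0
import Pool.Agent.helper82.WC.S4K0C1
import Pool.Agent.helper82.WC.S4K0C2
import Pool.Agent.helper82.WC.S4K0C3

/-!
Generated certificates, assembled.
-/

namespace Pool.Agent.helper82.WC.S4K0

open Pool.Agent.helper82.WH
open Pool.Agent.helper31.IC (CovD covD_split TD)

theorem I0AD_4 : CovD 0 [pAD H BI0, pK0 H BI0] [(3573412790272, 274877906944), (47110422528, 15703474176), (17716740096, 17716740096)] :=
  covD_split 1 (by decide +kernel) I0AD_5 I0AD_6
theorem I0AD_2 : CovD 0 [pAD H BI0, pK0 H BI0] [(3573412790272, 274877906944), (31406948352, 31406948352), (17716740096, 17716740096)] :=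
  covD_split 1 (by decide +kernel) I0AD_3 I0AD_4
theorem I0AD_10 : CovD 0 [pAD H BI0, pK0 H BI0] [(3435973836800, 137438953472), (47110422528, 15703474176), (53150220288, 17716740096)] :=
  covD_split 2 (by decide +kernel) I0AD_11 I0AD_12
theorem I0AD_8 : CovD 0 [pAD H BI0, pK0 H BI0] [(3435973836800, 137438953472), (31406948352, 31406948352), (53150220288, 17716740096)] :=
  covD_split 1 (by decide +kernel) I0AD_9 I0AD_10
theorem I0AD_13 : CovD 0 [pAD H BI0, pK0 H BI0] [(3710851743744, 137438953472), (31406948352, 31406948352), (53150220288, 17716740096)] :=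
  covD_split 0 (by decide +kernel) I0AD_14 I0AD_15
theorem I0AD_7 : CovD 0 [pAD H BI0, pK0 H BI0] [(3573412790272, 274877906944), (31406948352, 31406948352), (53150220288, 17716740096)] :=
  covD_split 0 (by decide +kernel) I0AD_8 I0AD_13
theorem I0AD_1 : CovD 0 [pAD H BI0, pK0 H BI0] [(3573412790272, 274877906944), (31406948352, 31406948352), (35433480192, 35433480192)] :=
  covD_split 2 (by decide +kernel) I0AD_2 I0AD_7
theorem I0AD_18 : CovD 0 [pAD H BI0, pK0 H BI0] [(3435973836800, 137438953472), (31406948352, 31406948352), (88583700480, 17716740096)] :=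
  covD_split 2 (by decide +kernel) I0AD_19 I0AD_20
theorem I0AD_21 : CovD 0 [pAD H BI0, pK0 H BI0] [(3710851743744, 137438953472), (31406948352, 31406948352), (88583700480, 17716740096)] :=
  covD_split 2 (by decide +kernel) I0AD_22 I0AD_23
theorem I0AD_17 : CovD 0 [pAD H BI0, pK0 H BI0] [(3573412790272, 274877906944), (31406948352, 31406948352), (88583700480, 17716740096)] :=
  covD_split 0 (by decide +kernel) I0AD_18 I0AD_21
theorem I0AD_24 : CovD 0 [pAD H BI0, pK0 H BI0] [(3573412790272, 274877906944), (31406948352, 31406948352), (124017180672, 17716740096)] :=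
  covD_split 0 (by decide +kernel) I0AD_25 I0AD_26
theorem I0AD_16 : CovD 0 [pAD H BI0, pK0 H BI0] [(3573412790272, 274877906944), (31406948352, 31406948352), (106300440576, 35433480192)] :=
  covD_split 2 (by decide +kernel) I0AD_17 I0AD_24
theorem I0AD_0 : CovD 0 [pAD H BI0, pK0 H BI0] [(3573412790272, 274877906944), (31406948352, 31406948352), (70866960384, 70866960384)] :=
  covD_split 2 (by decide +kernel) I0AD_1 I0AD_16
theorem I0AD_29 : CovD 0 [pAD H BI0, pK0 H BI0] [(3573412790272, 274877906944), (31406948352, 31406948352), (159450660864, 17716740096)] :=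
  covD_split 0 (by decide +kernel) I0AD_30 I0AD_31
theorem I0AD_32 : CovD 0 [pAD H BI0, pK0 H BI0] [(3573412790272, 274877906944), (31406948352, 31406948352), (194884141056, 17716740096)] :=
  covD_split 0 (by decide +kernel) I0AD_33 I0AD_34
theorem I0AD_28 : CovD 0 [pAD H BI0, pK0 H BI0] [(3573412790272, 274877906944), (31406948352, 31406948352), (177167400960, 35433480192)] :=
  covD_split 2 (by decide +kernel) I0AD_29 I0AD_32
theorem I0AD_35 : CovD 0 [pAD H BI0, pK0 H BI0] [(3573412790272, 274877906944), (31406948352, 31406948352), (248034361344, 35433480192)] :=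
  covD_split 2 (by decide +kernel) I0AD_36 I0AD_37
theorem I0AD_27 : CovD 0 [pAD H BI0, pK0 H BI0] [(3573412790272, 274877906944), (31406948352, 31406948352), (212600881152, 70866960384)] :=
  covD_split 2 (by decide +kernel) I0AD_28 I0AD_35
theorem I0AD : CovD 0 [pAD H BI0, pK0 H BI0] [(3573412790272, 274877906944), (31406948352, 31406948352), (141733920768, 141733920768)] :=
  covD_split 2 (by decide +kernel) I0AD_0 I0AD_27
theorem I0RT_9 : CovD 1 [pRT H BI0, pK1 H BI0] [(3573412790272, 274877906944), (58888028160, 3925868544), (8858370048, 8858370048)] :=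
  covD_split 1 (by decide +kernel) I0RT_10 I0RT_11
theorem I0RT_7 : CovD 1 [pRT H BI0, pK1 H BI0] [(3573412790272, 274877906944), (54962159616, 7851737088), (8858370048, 8858370048)] :=
  covD_split 1 (by decide +kernel) I0RT_8 I0RT_9
theorem I0RT_15 : CovD 1 [pRT H BI0, pK1 H BI0] [(3573412790272, 274877906944), (58888028160, 3925868544), (22145925120, 4429185024)] :=
  covD_split 2 (by decide +kernel) I0RT_16 I0RT_17
theorem I0RT_13 : CovD 1 [pRT H BI0, pK1 H BI0] [(3573412790272, 274877906944), (54962159616, 7851737088), (22145925120, 4429185024)] :=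
  covD_split 1 (by decide +kernel) I0RT_14 I0RT_15
theorem I0RT_18 : CovD 1 [pRT H BI0, pK1 H BI0] [(3573412790272, 274877906944), (54962159616, 7851737088), (31004295168, 4429185024)] :=
  covD_split 2 (by decide +kernel) I0RT_19 I0RT_20
theorem I0RT_12 : CovD 1 [pRT H BI0, pK1 H BI0] [(3573412790272, 274877906944), (54962159616, 7851737088), (26575110144, 8858370048)] :=
  covD_split 2 (by decide +kernel) I0RT_13 I0RT_18
theorem I0RT_6 : CovD 1 [pRT H BI0, pK1 H BI0] [(3573412790272, 274877906944), (54962159616, 7851737088), (17716740096, 17716740096)] :=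
  covD_split 2 (by decide +kernel) I0RT_7 I0RT_12
theorem I0RT_4 : CovD 1 [pRT H BI0, pK1 H BI0] [(3573412790272, 274877906944), (47110422528, 15703474176), (17716740096, 17716740096)] :=
  covD_split 1 (by decide +kernel) I0RT_5 I0RT_6
theorem I0RT_2 : CovD 1 [pRT H BI0, pK1 H BI0] [(3573412790272, 274877906944), (31406948352, 31406948352), (17716740096, 17716740096)] :=
  covD_split 1 (by decide +kernel) I0RT_3 I0RT_4
theorem I0RT_27 : CovD 1 [pRT H BI0, pK1 H BI0] [(3573412790272, 274877906944), (47110422528, 15703474176), (42077257728, 2214592512)] :=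
  covD_split 1 (by decide +kernel) I0RT_28 I0RT_29
theorem I0RT_25 : CovD 1 [pRT H BI0, pK1 H BI0] [(3573412790272, 274877906944), (47110422528, 15703474176), (39862665216, 4429185024)] :=
  covD_split 2 (by decide +kernel) I0RT_26 I0RT_27
theorem I0RT_31 : CovD 1 [pRT H BI0, pK1 H BI0] [(3573412790272, 274877906944), (47110422528, 15703474176), (46506442752, 2214592512)] :=
  covD_split 1 (by decide +kernel) I0RT_32 I0RT_33
theorem I0RT_34 : CovD 1 [pRT H BI0, pK1 H BI0] [(3573412790272, 274877906944), (47110422528, 15703474176), (50935627776, 2214592512)] :=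
  covD_split 1 (by decide +kernel) I0RT_35 I0RT_36
theorem I0RT_30 : CovD 1 [pRT H BI0, pK1 H BI0] [(3573412790272, 274877906944), (47110422528, 15703474176), (48721035264, 4429185024)] :=
  covD_split 2 (by decide +kernel) I0RT_31 I0RT_34
theorem I0RT_24 : CovD 1 [pRT H BI0, pK1 H BI0] [(3573412790272, 274877906944), (47110422528, 15703474176), (44291850240, 8858370048)] :=
  covD_split 2 (by decide +kernel) I0RT_25 I0RT_30
theorem I0RT_22 : CovD 1 [pRT H BI0, pK1 H BI0] [(3573412790272, 274877906944), (31406948352, 31406948352), (44291850240, 8858370048)] :=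
  covD_split 1 (by decide +kernel) I0RT_23 I0RT_24
theorem I0RT_39 : CovD 1 [pRT H BI0, pK1 H BI0] [(3573412790272, 274877906944), (15703474176, 15703474176), (57579405312, 4429185024)] :=
  covD_split 2 (by decide +kernel) I0RT_40 I0RT_41
theorem I0RT_43 : CovD 1 [pRT H BI0, pK1 H BI0] [(3573412790272, 274877906944), (47110422528, 15703474176), (55364812800, 2214592512)] :=
  covD_split 1 (by decide +kernel) I0RT_44 I0RT_45
theorem I0RT_46 : CovD 1 [pRT H BI0, pK1 H BI0] [(3573412790272, 274877906944), (47110422528, 15703474176), (59793997824, 2214592512)] :=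
  covD_split 1 (by decide +kernel) I0RT_47 I0RT_48
theorem I0RT_42 : CovD 1 [pRT H BI0, pK1 H BI0] [(3573412790272, 274877906944), (47110422528, 15703474176), (57579405312, 4429185024)] :=
  covD_split 2 (by decide +kernel) I0RT_43 I0RT_46
theorem I0RT_38 : CovD 1 [pRT H BI0, pK1 H BI0] [(3573412790272, 274877906944), (31406948352, 31406948352), (57579405312, 4429185024)] :=
  covD_split 1 (by decide +kernel) I0RT_39 I0RT_42
theorem I0RT_50 : CovD 1 [pRT H BI0, pK1 H BI0] [(3573412790272, 274877906944), (15703474176, 15703474176), (66437775360, 4429185024)] :=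
  covD_split 2 (by decide +kernel) I0RT_51 I0RT_52
theorem I0RT_53 : CovD 1 [pRT H BI0, pK1 H BI0] [(3573412790272, 274877906944), (47110422528, 15703474176), (66437775360, 4429185024)] :=
  covD_split 2 (by decide +kernel) I0RT_54 I0RT_55
theorem I0RT_49 : CovD 1 [pRT H BI0, pK1 H BI0] [(3573412790272, 274877906944), (31406948352, 31406948352), (66437775360, 4429185024)] :=
  covD_split 1 (by decide +kernel) I0RT_50 I0RT_53
theorem I0RT_37 : CovD 1 [pRT H BI0, pK1 H BI0] [(3573412790272, 274877906944), (31406948352, 31406948352), (62008590336, 8858370048)] :=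
  covD_split 2 (by decide +kernel) I0RT_38 I0RT_49
theorem I0RT_21 : CovD 1 [pRT H BI0, pK1 H BI0] [(3573412790272, 274877906944), (31406948352, 31406948352), (53150220288, 17716740096)] :=
  covD_split 2 (by decide +kernel) I0RT_22 I0RT_37
theorem I0RT_1 : CovD 1 [pRT H BI0, pK1 H BI0] [(3573412790272, 274877906944), (31406948352, 31406948352), (35433480192, 35433480192)] :=
  covD_split 2 (by decide +kernel) I0RT_2 I0RT_21
theorem I0RT_60 : CovD 1 [pRT H BI0, pK1 H BI0] [(3573412790272, 274877906944), (15703474176, 15703474176), (75296145408, 4429185024)] :=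
  covD_split 2 (by decide +kernel) I0RT_61 I0RT_62
theorem I0RT_63 : CovD 1 [pRT H BI0, pK1 H BI0] [(3573412790272, 274877906944), (47110422528, 15703474176), (75296145408, 4429185024)] :=
  covD_split 2 (by decide +kernel) I0RT_64 I0RT_65
theorem I0RT_59 : CovD 1 [pRT H BI0, pK1 H BI0] [(3573412790272, 274877906944), (31406948352, 31406948352), (75296145408, 4429185024)] :=
  covD_split 1 (by decide +kernel) I0RT_60 I0RT_63
theorem I0RT_66 : CovD 1 [pRT H BI0, pK1 H BI0] [(3573412790272, 274877906944), (31406948352, 31406948352), (84154515456, 4429185024)] :=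
  covD_split 1 (by decide +kernel) I0RT_67 I0RT_68
theorem I0RT_58 : CovD 1 [pRT H BI0, pK1 H BI0] [(3573412790272, 274877906944), (31406948352, 31406948352), (79725330432, 8858370048)] :=
  covD_split 2 (by decide +kernel) I0RT_59 I0RT_66
theorem I0RT_70 : CovD 1 [pRT H BI0, pK1 H BI0] [(3573412790272, 274877906944), (31406948352, 31406948352), (93012885504, 4429185024)] :=
  covD_split 1 (by decide +kernel) I0RT_71 I0RT_72
theorem I0RT_73 : CovD 1 [pRT H BI0, pK1 H BI0] [(3573412790272, 274877906944), (31406948352, 31406948352), (101871255552, 4429185024)] :=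
  covD_split 1 (by decide +kernel) I0RT_74 I0RT_75
theorem I0RT_69 : CovD 1 [pRT H BI0, pK1 H BI0] [(3573412790272, 274877906944), (31406948352, 31406948352), (97442070528, 8858370048)] :=
  covD_split 2 (by decide +kernel) I0RT_70 I0RT_73
theorem I0RT_57 : CovD 1 [pRT H BI0, pK1 H BI0] [(3573412790272, 274877906944), (31406948352, 31406948352), (88583700480, 17716740096)] :=
  covD_split 2 (by decide +kernel) I0RT_58 I0RT_69
theorem I0RT_77 : CovD 1 [pRT H BI0, pK1 H BI0] [(3573412790272, 274877906944), (31406948352, 31406948352), (115158810624, 8858370048)] :=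
  covD_split 2 (by decide +kernel) I0RT_78 I0RT_79
theorem I0RT_76 : CovD 1 [pRT H BI0, pK1 H BI0] [(3573412790272, 274877906944), (31406948352, 31406948352), (124017180672, 17716740096)] :=
  covD_split 2 (by decide +kernel) I0RT_77 I0RT_80
theorem I0RT_56 : CovD 1 [pRT H BI0, pK1 H BI0] [(3573412790272, 274877906944), (31406948352, 31406948352), (106300440576, 35433480192)] :=
  covD_split 2 (by decide +kernel) I0RT_57 I0RT_76
theorem I0RT_0 : CovD 1 [pRT H BI0, pK1 H BI0] [(3573412790272, 274877906944), (31406948352, 31406948352), (70866960384, 70866960384)] :=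
  covD_split 2 (by decide +kernel) I0RT_1 I0RT_56
theorem I0RT_83 : CovD 1 [pRT H BI0, pK1 H BI0] [(3573412790272, 274877906944), (31406948352, 31406948352), (159450660864, 17716740096)] :=
  covD_split 2 (by decide +kernel) I0RT_84 I0RT_85
theorem I0RT_86 : CovD 1 [pRT H BI0, pK1 H BI0] [(3573412790272, 274877906944), (31406948352, 31406948352), (194884141056, 17716740096)] :=
  covD_split 2 (by decide +kernel) I0RT_87 I0RT_88
theorem I0RT_82 : CovD 1 [pRT H BI0, pK1 H BI0] [(3573412790272, 274877906944), (31406948352, 31406948352), (177167400960, 35433480192)] :=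
  covD_split 2 (by decide +kernel) I0RT_83 I0RT_86
theorem I0RT_90 : CovD 1 [pRT H BI0, pK1 H BI0] [(3573412790272, 274877906944), (31406948352, 31406948352), (230317621248, 17716740096)] :=
  covD_split 2 (by decide +kernel) I0RT_91 I0RT_92
theorem I0RT_93 : CovD 1 [pRT H BI0, pK1 H BI0] [(3573412790272, 274877906944), (31406948352, 31406948352), (265751101440, 17716740096)] :=
  covD_split 2 (by decide +kernel) I0RT_94 I0RT_95
theorem I0RT_89 : CovD 1 [pRT H BI0, pK1 H BI0] [(3573412790272, 274877906944), (31406948352, 31406948352), (248034361344, 35433480192)] :=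
  covD_split 2 (by decide +kernel) I0RT_90 I0RT_93
theorem I0RT_81 : CovD 1 [pRT H BI0, pK1 H BI0] [(3573412790272, 274877906944), (31406948352, 31406948352), (212600881152, 70866960384)] :=
  covD_split 2 (by decide +kernel) I0RT_82 I0RT_89
theorem I0RT : CovD 1 [pRT H BI0, pK1 H BI0] [(3573412790272, 274877906944), (31406948352, 31406948352), (141733920768, 141733920768)] :=
  covD_split 2 (by decide +kernel) I0RT_0 I0RT_81
theorem I1AD : CovD 0 [pAD H BI1, pK0 H BI1] [(3573412790272, 274877906944), (31406948352, 31406948352), (322122547200, 38654705664)] :=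
  covD_split 2 (by decide +kernel) I1AD_0 I1AD_1
theorem I1RT_0 : CovD 1 [pRT H BI1, pK1 H BI1] [(3573412790272, 274877906944), (31406948352, 31406948352), (302795194368, 19327352832)] :=
  covD_split 2 (by decide +kernel) I1RT_1 I1RT_2
theorem I1RT : CovD 1 [pRT H BI1, pK1 H BI1] [(3573412790272, 274877906944), (31406948352, 31406948352), (322122547200, 38654705664)] :=
  covD_split 2 (by decide +kernel) I1RT_0 I1RT_3
theorem I2AD_1 : CovD 0 [pAD H BI2, pK0 H BI2] [(3573412790272, 274877906944), (31406948352, 31406948352), (389768282112, 28991029248)] :=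
  covD_split 0 (by decide +kernel) I2AD_2 I2AD_3
theorem I2AD_0 : CovD 0 [pAD H BI2, pK0 H BI2] [(3573412790272, 274877906944), (31406948352, 31406948352), (418759311360, 57982058496)] :=
  covD_split 2 (by decide +kernel) I2AD_1 I2AD_4
theorem I2AD_7 : CovD 0 [pAD H BI2, pK0 H BI2] [(3573412790272, 274877906944), (31406948352, 31406948352), (563714457600, 28991029248)] :=
  covD_split 0 (by decide +kernel) I2AD_8 I2AD_9
theorem I2AD_5 : CovD 0 [pAD H BI2, pK0 H BI2] [(3573412790272, 274877906944), (31406948352, 31406948352), (534723428352, 57982058496)] :=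
  covD_split 2 (by decide +kernel) I2AD_6 I2AD_7
theorem I2AD : CovD 0 [pAD H BI2, pK0 H BI2] [(3573412790272, 274877906944), (31406948352, 31406948352), (476741369856, 115964116992)] :=
  covD_split 2 (by decide +kernel) I2AD_0 I2AD_5
theorem I2G_0 : CovD 1 [pG H BI2, pK1 H BI2] [(3573412790272, 274877906944), (31406948352, 31406948352), (418759311360, 57982058496)] :=
  covD_split 2 (by decide +kernel) I2G_1 I2G_2
theorem I2G_3 : CovD 1 [pG H BI2, pK1 H BI2] [(3573412790272, 274877906944), (31406948352, 31406948352), (534723428352, 57982058496)] :=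
  covD_split 2 (by decide +kernel) I2G_4 I2G_5
theorem I2G : CovD 1 [pG H BI2, pK1 H BI2] [(3573412790272, 274877906944), (31406948352, 31406948352), (476741369856, 115964116992)] :=
  covD_split 2 (by decide +kernel) I2G_0 I2G_3
theorem I2RT_2 : CovD 1 [pRT H BI2, pK1 H BI2] [(3573412790272, 274877906944), (31406948352, 31406948352), (375272767488, 14495514624)] :=
  covD_split 2 (by decide +kernel) I2RT_3 I2RT_4
theorem I2RT_5 : CovD 1 [pRT H BI2, pK1 H BI2] [(3573412790272, 274877906944), (31406948352, 31406948352), (404263796736, 14495514624)] :=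
  covD_split 2 (by decide +kernel) I2RT_6 I2RT_7
theorem I2RT_1 : CovD 1 [pRT H BI2, pK1 H BI2] [(3573412790272, 274877906944), (31406948352, 31406948352), (389768282112, 28991029248)] :=
  covD_split 2 (by decide +kernel) I2RT_2 I2RT_5
theorem I2RT_8 : CovD 1 [pRT H BI2, pK1 H BI2] [(3573412790272, 274877906944), (31406948352, 31406948352), (447750340608, 28991029248)] :=
  covD_split 2 (by decide +kernel) I2RT_9 I2RT_10
theorem I2RT_0 : CovD 1 [pRT H BI2, pK1 H BI2] [(3573412790272, 274877906944), (31406948352, 31406948352), (418759311360, 57982058496)] :=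
  covD_split 2 (by decide +kernel) I2RT_1 I2RT_8
theorem I2RT_12 : CovD 1 [pRT H BI2, pK1 H BI2] [(3573412790272, 274877906944), (31406948352, 31406948352), (505732399104, 28991029248)] :=
  covD_split 2 (by decide +kernel) I2RT_13 I2RT_14
theorem I2RT_17 : CovD 1 [pRT H BI2, pK1 H BI2] [(3573412790272, 274877906944), (31406948352, 31406948352), (578209972224, 14495514624)] :=
  covD_split 2 (by decide +kernel) I2RT_18 I2RT_19
theorem I2RT_15 : CovD 1 [pRT H BI2, pK1 H BI2] [(3573412790272, 274877906944), (31406948352, 31406948352), (563714457600, 28991029248)] :=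
  covD_split 2 (by decide +kernel) I2RT_16 I2RT_17
theorem I2RT_11 : CovD 1 [pRT H BI2, pK1 H BI2] [(3573412790272, 274877906944), (31406948352, 31406948352), (534723428352, 57982058496)] :=
  covD_split 2 (by decide +kernel) I2RT_12 I2RT_15
theorem I2RT : CovD 1 [pRT H BI2, pK1 H BI2] [(3573412790272, 274877906944), (31406948352, 31406948352), (476741369856, 115964116992)] :=
  covD_split 2 (by decide +kernel) I2RT_0 I2RT_11
theorem I3RT_1 : CovD 1 [pRT H BI3, pK1 H BI3] [(3710851743744, 137438953472), (31406948352, 31406948352), (605590388736, 12884901888)] :=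
  covD_split 2 (by decide +kernel) I3RT_2 I3RT_3
theorem I3RT : CovD 1 [pRT H BI3, pK1 H BI3] [(3573412790272, 274877906944), (31406948352, 31406948352), (605590388736, 12884901888)] :=
  covD_split 0 (by decide +kernel) I3RT_0 I3RT_1

end Pool.Agent.helper82.WC.S4K0
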