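import Pool.Agent.helper82.WC.S4K0P

/-!
Generated certificates (in pairs, so that they are checked one after the other).
-/

namespace Pool.Agent.helper82.WC.S4K0

open Pool.Agent.helper82.WH
open Pool.Agent.helper31.IC (CovD covD_split TD)

mutual
theorem I0AD_3 : CovD 0 [pAD H BI0, pK0 H BI0] [(3573412790272, 274877906944), (15703474176, 15703474176), (17716740096, 17716740096)] :=
  cov_of (fADK H BI0) (.l 1) [(3573412790272, 274877906944), (15703474176, 15703474176), (17716740096, 17716740096)] rfl (by decide +kernel)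
theorem I0AD_5 : CovD 0 [pAD H BI0, pK0 H BI0] [(3573412790272, 274877906944), (39258685440, 7851737088), (17716740096, 17716740096)] :=
  cov_of (fADK H BI0) (.l 1) [(3573412790272, 274877906944), (39258685440, 7851737088), (17716740096, 17716740096)] rfl (by decide +kernel)
end

mutual
theorem I0AD_6 : CovD 0 [pAD H BI0, pK0 H BI0] [(3573412790272, 274877906944), (54962159616, 7851737088), (17716740096, 17716740096)] :=
  cov_of (fADK H BI0) (.n 2 (.n 1 (.l 1) (.n 1 (.l 1) (.n 0 (.n 2 (.n 0 (.l 0) (.l 0)) (.n 0 (.l 0) (.l 0))) (.n 2 (.n 0 (.l 0) (.l 0)) (.n 0 (.l 0) (.l 0)))))) (.n 0 (.n 2 (.n 1 (.l 1) (.n 0 (.l 0) (.l 0))) (.n 0 (.n 0 (.l 0) (.l 0)) (.n 0 (.l 0) (.l 0)))) (.n 2 (.n 1 (.l 1) (.n 0 (.l 0) (.l 0))) (.n 0 (.n 0 (.l 0) (.l 0)) (.n 0 (.l 0) (.l 0)))))) [(3573412790272, 274877906944), (54962159616, 7851737088), (17716740096, 17716740096)] rfl (by decide +kernel)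
theorem I0AD_9 : CovD 0 [pAD H BI0, pK0 H BI0] [(3435973836800, 137438953472), (15703474176, 15703474176), (53150220288, 17716740096)] :=
  cov_of (fADK H BI0) (.n 2 (.l 1) (.n 1 (.n 2 (.n 2 (.l 1) (.n 0 (.l 0) (.l 0))) (.n 0 (.n 0 (.l 0) (.l 0)) (.n 0 (.l 0) (.l 0)))) (.n 2 (.n 0 (.n 0 (.l 0) (.l 0)) (.n 0 (.l 0) (.l 0))) (.n 0 (.n 0 (.l 0) (.l 0)) (.n 0 (.l 0) (.l 0)))))) [(3435973836800, 137438953472), (15703474176, 15703474176), (53150220288, 17716740096)] rfl (by decide +kernel)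
end

mutual
theorem I0AD_11 : CovD 0 [pAD H BI0, pK0 H BI0] [(3435973836800, 137438953472), (47110422528, 15703474176), (44291850240, 8858370048)] :=
  cov_of (fADK H BI0) (.n 1 (.n 2 (.n 1 (.l 1) (.n 0 (.l 0) (.l 0))) (.n 0 (.n 0 (.l 0) (.l 0)) (.n 0 (.l 0) (.l 0)))) (.n 0 (.n 2 (.n 0 (.l 0) (.l 0)) (.n 0 (.l 0) (.l 0))) (.n 2 (.n 0 (.l 0) (.l 0)) (.n 0 (.l 0) (.l 0))))) [(3435973836800, 137438953472), (47110422528, 15703474176), (44291850240, 8858370048)] rfl (by decide +kernel)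
theorem I0AD_12 : CovD 0 [pAD H BI0, pK0 H BI0] [(3435973836800, 137438953472), (47110422528, 15703474176), (62008590336, 8858370048)] :=
  cov_of (fADK H BI0) (.n 1 (.n 0 (.n 2 (.n 0 (.l 0) (.l 0)) (.n 0 (.l 0) (.l 0))) (.n 2 (.n 0 (.l 0) (.l 0)) (.n 0 (.l 0) (.l 0)))) (.n 0 (.n 2 (.l 0) (.l 0)) (.n 2 (.l 0) (.l 0)))) [(3435973836800, 137438953472), (47110422528, 15703474176), (62008590336, 8858370048)] rfl (by decide +kernel)
end

mutual
theorem I0AD_14 : CovD 0 [pAD H BI0, pK0 H BI0] [(3642132267008, 68719476736), (31406948352, 31406948352), (53150220288, 17716740096)] :=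
  cov_of (fADK H BI0) (.n 1 (.n 2 (.l 1) (.n 1 (.n 2 (.n 0 (.l 0) (.l 0)) (.n 0 (.l 0) (.l 0))) (.n 2 (.n 0 (.l 0) (.l 0)) (.n 0 (.l 0) (.l 0))))) (.n 2 (.n 1 (.n 2 (.n 1 (.l 1) (.l 0)) (.n 0 (.l 0) (.l 0))) (.n 2 (.n 0 (.l 0) (.l 0)) (.n 0 (.l 0) (.l 0)))) (.n 1 (.n 2 (.n 0 (.l 0) (.l 0)) (.n 0 (.l 0) (.l 0))) (.n 2 (.l 0) (.l 0))))) [(3642132267008, 68719476736), (31406948352, 31406948352), (53150220288, 17716740096)] rfl (by decide +kernel)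
theorem I0AD_15 : CovD 0 [pAD H BI0, pK0 H BI0] [(3779571220480, 68719476736), (31406948352, 31406948352), (53150220288, 17716740096)] :=
  cov_of (fADK H BI0) (.n 2 (.n 1 (.l 1) (.n 1 (.n 2 (.n 1 (.l 1) (.l 0)) (.n 0 (.l 0) (.l 0))) (.n 2 (.n 0 (.l 0) (.l 0)) (.n 0 (.l 0) (.l 0))))) (.n 1 (.n 1 (.n 2 (.n 0 (.l 0) (.l 0)) (.n 0 (.l 0) (.l 0))) (.n 2 (.n 0 (.l 0) (.l 0)) (.n 0 (.l 0) (.l 0)))) (.n 1 (.n 2 (.n 0 (.l 0) (.l 0)) (.n 0 (.l 0) (.l 0))) (.n 2 (.n 0 (.l 0) (.l 0)) (.l 0))))) [(3779571220480, 68719476736), (31406948352, 31406948352), (53150220288, 17716740096)] rfl (by decide +kernel)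
end

mutual
theorem I0AD_19 : CovD 0 [pAD H BI0, pK0 H BI0] [(3435973836800, 137438953472), (31406948352, 31406948352), (79725330432, 8858370048)] :=
  cov_of (fADK H BI0) (.n 1 (.n 0 (.n 1 (.n 2 (.l 0) (.l 0)) (.n 2 (.l 0) (.l 0))) (.n 1 (.n 2 (.l 0) (.l 0)) (.n 2 (.l 0) (.l 0)))) (.n 0 (.n 1 (.n 2 (.l 0) (.l 0)) (.n 2 (.l 0) (.l 0))) (.n 1 (.n 2 (.l 0) (.l 0)) (.n 2 (.l 0) (.l 0))))) [(3435973836800, 137438953472), (31406948352, 31406948352), (79725330432, 8858370048)] rfl (by decide +kernel)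
theorem I0AD_20 : CovD 0 [pAD H BI0, pK0 H BI0] [(3435973836800, 137438953472), (31406948352, 31406948352), (97442070528, 8858370048)] :=
  cov_of (fADK H BI0) (.n 1 (.n 0 (.n 1 (.n 0 (.l 0) (.l 0)) (.n 0 (.l 0) (.l 0))) (.n 1 (.n 0 (.l 0) (.l 0)) (.n 0 (.l 0) (.l 0)))) (.n 0 (.n 1 (.n 0 (.l 0) (.l 0)) (.n 0 (.l 0) (.l 0))) (.n 1 (.n 0 (.l 0) (.l 0)) (.n 0 (.l 0) (.l 0))))) [(3435973836800, 137438953472), (31406948352, 31406948352), (97442070528, 8858370048)] rfl (by decide +kernel)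
end

mutual
theorem I0AD_22 : CovD 0 [pAD H BI0, pK0 H BI0] [(3710851743744, 137438953472), (31406948352, 31406948352), (79725330432, 8858370048)] :=
  cov_of (fADK H BI0) (.n 1 (.n 0 (.n 1 (.n 2 (.l 0) (.l 0)) (.n 2 (.l 0) (.l 0))) (.n 1 (.n 2 (.l 0) (.l 0)) (.n 2 (.l 0) (.l 0)))) (.n 1 (.n 0 (.n 2 (.l 0) (.l 0)) (.n 2 (.l 0) (.l 0))) (.n 0 (.n 2 (.l 0) (.l 0)) (.n 2 (.l 0) (.l 0))))) [(3710851743744, 137438953472), (31406948352, 31406948352), (79725330432, 8858370048)] rfl (by decide +kernel)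
theorem I0AD_23 : CovD 0 [pAD H BI0, pK0 H BI0] [(3710851743744, 137438953472), (31406948352, 31406948352), (97442070528, 8858370048)] :=
  cov_of (fADK H BI0) (.n 1 (.n 0 (.n 1 (.n 0 (.l 0) (.l 0)) (.n 0 (.l 0) (.l 0))) (.n 1 (.n 0 (.l 0) (.l 0)) (.n 2 (.l 0) (.l 0)))) (.n 0 (.n 1 (.n 0 (.l 0) (.l 0)) (.n 0 (.l 0) (.l 0))) (.n 1 (.n 0 (.l 0) (.l 0)) (.n 0 (.l 0) (.l 0))))) [(3710851743744, 137438953472), (31406948352, 31406948352), (97442070528, 8858370048)] rfl (by decide +kernel)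
end

mutual
theorem I0AD_25 : CovD 0 [pAD H BI0, pK0 H BI0] [(3435973836800, 137438953472), (31406948352, 31406948352), (124017180672, 17716740096)] :=
  cov_of (fADK H BI0) (.n 2 (.n 1 (.n 0 (.n 1 (.n 0 (.l 0) (.l 0)) (.n 0 (.l 0) (.l 0))) (.n 1 (.n 0 (.l 0) (.l 0)) (.n 0 (.l 0) (.l 0)))) (.n 0 (.n 1 (.n 0 (.l 0) (.l 0)) (.n 0 (.l 0) (.l 0))) (.n 1 (.n 0 (.l 0) (.l 0)) (.n 0 (.l 0) (.l 0))))) (.n 1 (.n 0 (.n 1 (.l 0) (.l 0)) (.n 1 (.l 0) (.l 0))) (.n 0 (.n 1 (.l 0) (.l 0)) (.n 1 (.l 0) (.l 0))))) [(3435973836800, 137438953472), (31406948352, 31406948352), (124017180672, 17716740096)] rfl (by decide +kernel)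
theorem I0AD_26 : CovD 0 [pAD H BI0, pK0 H BI0] [(3710851743744, 137438953472), (31406948352, 31406948352), (124017180672, 17716740096)] :=
  cov_of (fADK H BI0) (.n 2 (.n 1 (.n 0 (.n 1 (.n 0 (.l 0) (.l 0)) (.n 0 (.l 0) (.l 0))) (.n 1 (.n 0 (.l 0) (.l 0)) (.n 0 (.l 0) (.l 0)))) (.n 0 (.n 1 (.n 0 (.l 0) (.l 0)) (.n 0 (.l 0) (.l 0))) (.n 1 (.n 0 (.l 0) (.l 0)) (.n 0 (.l 0) (.l 0))))) (.n 1 (.n 0 (.n 1 (.l 0) (.l 0)) (.n 1 (.l 0) (.l 0))) (.n 0 (.n 1 (.l 0) (.l 0)) (.n 1 (.l 0) (.l 0))))) [(3710851743744, 137438953472), (31406948352, 31406948352), (124017180672, 17716740096)] rfl (by decide +kernel)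
end

mutual
theorem I0AD_30 : CovD 0 [pAD H BI0, pK0 H BI0] [(3435973836800, 137438953472), (31406948352, 31406948352), (159450660864, 17716740096)] :=
  cov_of (fADK H BI0) (.n 2 (.n 1 (.n 0 (.n 0 (.l 0) (.l 0)) (.n 0 (.l 0) (.l 0))) (.n 0 (.n 0 (.l 0) (.l 0)) (.n 1 (.l 0) (.l 0)))) (.n 1 (.n 0 (.n 0 (.l 0) (.l 0)) (.n 0 (.l 0) (.l 0))) (.n 0 (.n 0 (.l 0) (.l 0)) (.n 0 (.l 0) (.l 0))))) [(3435973836800, 137438953472), (31406948352, 31406948352), (159450660864, 17716740096)] rfl (by decide +kernel)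
theorem I0AD_31 : CovD 0 [pAD H BI0, pK0 H BI0] [(3710851743744, 137438953472), (31406948352, 31406948352), (159450660864, 17716740096)] :=
  cov_of (fADK H BI0) (.n 2 (.n 1 (.n 0 (.n 0 (.l 0) (.l 0)) (.n 0 (.l 0) (.l 0))) (.n 0 (.n 1 (.l 0) (.l 0)) (.n 1 (.l 0) (.l 0)))) (.n 1 (.n 0 (.n 0 (.l 0) (.l 0)) (.n 0 (.l 0) (.l 0))) (.n 0 (.n 0 (.l 0) (.l 0)) (.n 0 (.l 0) (.l 0))))) [(3710851743744, 137438953472), (31406948352, 31406948352), (159450660864, 17716740096)] rfl (by decide +kernel)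
end

mutual
theorem I0AD_33 : CovD 0 [pAD H BI0, pK0 H BI0] [(3435973836800, 137438953472), (31406948352, 31406948352), (194884141056, 17716740096)] :=
  cov_of (fADK H BI0) (.n 2 (.n 1 (.n 0 (.n 0 (.l 0) (.l 0)) (.n 0 (.l 0) (.l 0))) (.n 0 (.n 0 (.l 0) (.l 0)) (.n 0 (.l 0) (.l 0)))) (.n 1 (.n 0 (.l 0) (.l 0)) (.n 0 (.n 0 (.l 0) (.l 0)) (.n 0 (.l 0) (.l 0))))) [(3435973836800, 137438953472), (31406948352, 31406948352), (194884141056, 17716740096)] rfl (by decide +kernel)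
theorem I0AD_34 : CovD 0 [pAD H BI0, pK0 H BI0] [(3710851743744, 137438953472), (31406948352, 31406948352), (194884141056, 17716740096)] :=
  cov_of (fADK H BI0) (.n 2 (.n 1 (.n 0 (.n 0 (.l 0) (.l 0)) (.n 0 (.l 0) (.l 0))) (.n 0 (.n 0 (.l 0) (.l 0)) (.n 0 (.l 0) (.l 0)))) (.n 1 (.n 0 (.l 0) (.l 0)) (.n 0 (.n 0 (.l 0) (.l 0)) (.n 0 (.l 0) (.l 0))))) [(3710851743744, 137438953472), (31406948352, 31406948352), (194884141056, 17716740096)] rfl (by decide +kernel)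
end

mutual
theorem I0AD_36 : CovD 0 [pAD H BI0, pK0 H BI0] [(3573412790272, 274877906944), (31406948352, 31406948352), (230317621248, 17716740096)] :=
  cov_of (fADK H BI0) (.n 0 (.n 2 (.n 1 (.n 0 (.l 0) (.l 0)) (.n 0 (.l 0) (.l 0))) (.n 1 (.n 0 (.l 0) (.l 0)) (.n 0 (.l 0) (.l 0)))) (.n 2 (.n 1 (.n 0 (.l 0) (.l 0)) (.n 0 (.l 0) (.n 0 (.l 0) (.l 0)))) (.n 1 (.n 0 (.l 0) (.l 0)) (.n 0 (.l 0) (.l 0))))) [(3573412790272, 274877906944), (31406948352, 31406948352), (230317621248, 17716740096)] rfl (by decide +kernel)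
theorem I0AD_37 : CovD 0 [pAD H BI0, pK0 H BI0] [(3573412790272, 274877906944), (31406948352, 31406948352), (265751101440, 17716740096)] :=
  cov_of (fADK H BI0) (.n 0 (.n 2 (.n 1 (.n 0 (.l 0) (.l 0)) (.n 0 (.l 0) (.l 0))) (.n 1 (.n 0 (.l 0) (.l 0)) (.n 0 (.l 0) (.l 0)))) (.n 2 (.n 0 (.n 1 (.l 0) (.l 0)) (.n 1 (.l 0) (.l 0))) (.n 0 (.n 1 (.l 0) (.l 0)) (.n 1 (.l 0) (.l 0))))) [(3573412790272, 274877906944), (31406948352, 31406948352), (265751101440, 17716740096)] rfl (by decide +kernel)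
end

mutual
theorem I0G : CovD 1 [pG H BI0, pK1 H BI0] [(3573412790272, 274877906944), (31406948352, 31406948352), (141733920768, 141733920768)] :=
  cov_of (fGK H BI0) (.n 2 (.n 2 (.l 0) (.l 0)) (.n 2 (.n 2 (.l 0) (.l 0)) (.n 2 (.n 0 (.l 0) (.l 0)) (.n 2 (.n 0 (.l 0) (.l 0)) (.n 0 (.n 0 (.l 0) (.l 0)) (.n 2 (.l 0) (.n 1 (.l 0) (.n 0 (.l 0) (.l 0))))))))) [(3573412790272, 274877906944), (31406948352, 31406948352), (141733920768, 141733920768)] rfl (by decide +kernel)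
theorem I0RT_3 : CovD 1 [pRT H BI0, pK1 H BI0] [(3573412790272, 274877906944), (15703474176, 15703474176), (17716740096, 17716740096)] :=
  cov_of (fRTK H BI0) (.l 1) [(3573412790272, 274877906944), (15703474176, 15703474176), (17716740096, 17716740096)] rfl (by decide +kernel)
end

mutual
theorem I0RT_5 : CovD 1 [pRT H BI0, pK1 H BI0] [(3573412790272, 274877906944), (39258685440, 7851737088), (17716740096, 17716740096)] :=
  cov_of (fRTK H BI0) (.l 1) [(3573412790272, 274877906944), (39258685440, 7851737088), (17716740096, 17716740096)] rfl (by decide +kernel)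
theorem I0RT_8 : CovD 1 [pRT H BI0, pK1 H BI0] [(3573412790272, 274877906944), (51036291072, 3925868544), (8858370048, 8858370048)] :=
  cov_of (fRTK H BI0) (.l 1) [(3573412790272, 274877906944), (51036291072, 3925868544), (8858370048, 8858370048)] rfl (by decide +kernel)
end

mutual
theorem I0RT_10 : CovD 1 [pRT H BI0, pK1 H BI0] [(3573412790272, 274877906944), (56925093888, 1962934272), (8858370048, 8858370048)] :=
  cov_of (fRTK H BI0) (.l 1) [(3573412790272, 274877906944), (56925093888, 1962934272), (8858370048, 8858370048)] rfl (by decide +kernel)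
theorem I0RT_11 : CovD 1 [pRT H BI0, pK1 H BI0] [(3573412790272, 274877906944), (60850962432, 1962934272), (8858370048, 8858370048)] :=
  cov_of (fRTK H BI0) (.n 2 (.n 1 (.l 1) (.n 1 (.l 1) (.n 2 (.n 1 (.l 1) (.n 1 (.l 1) (.n 2 (.n 2 (.l 0) (.l 0)) (.n 2 (.l 0) (.l 0))))) (.n 2 (.n 2 (.l 0) (.l 0)) (.n 2 (.l 0) (.l 0)))))) (.n 2 (.n 1 (.l 1) (.n 2 (.n 2 (.l 0) (.l 0)) (.n 2 (.l 0) (.l 0)))) (.n 2 (.n 1 (.l 1) (.n 2 (.l 0) (.l 0))) (.n 2 (.n 1 (.l 0) (.l 0)) (.n 1 (.l 0) (.l 0)))))) [(3573412790272, 274877906944), (60850962432, 1962934272), (8858370048, 8858370048)] rfl (by decide +kernel)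
end

mutual
theorem I0RT_14 : CovD 1 [pRT H BI0, pK1 H BI0] [(3573412790272, 274877906944), (51036291072, 3925868544), (22145925120, 4429185024)] :=
  cov_of (fRTK H BI0) (.l 1) [(3573412790272, 274877906944), (51036291072, 3925868544), (22145925120, 4429185024)] rfl (by decide +kernel)
theorem I0RT_16 : CovD 1 [pRT H BI0, pK1 H BI0] [(3573412790272, 274877906944), (58888028160, 3925868544), (19931332608, 2214592512)] :=
  cov_of (fRTK H BI0) (.n 2 (.n 1 (.l 1) (.n 2 (.n 1 (.l 0) (.l 0)) (.n 1 (.l 0) (.l 0)))) (.n 2 (.n 1 (.l 1) (.n 1 (.l 0) (.l 0))) (.n 2 (.n 0 (.l 0) (.l 0)) (.n 0 (.l 0) (.l 0))))) [(3573412790272, 274877906944), (58888028160, 3925868544), (19931332608, 2214592512)] rfl (by decide +kernel)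
end

mutual
theorem I0RT_17 : CovD 1 [pRT H BI0, pK1 H BI0] [(3573412790272, 274877906944), (58888028160, 3925868544), (24360517632, 2214592512)] :=
  cov_of (fRTK H BI0) (.n 2 (.n 2 (.n 2 (.n 0 (.l 0) (.l 0)) (.n 0 (.l 0) (.l 0))) (.n 2 (.n 0 (.l 0) (.l 0)) (.n 0 (.l 0) (.l 0)))) (.n 2 (.n 2 (.n 0 (.l 0) (.l 0)) (.l 0)) (.n 2 (.l 0) (.l 0)))) [(3573412790272, 274877906944), (58888028160, 3925868544), (24360517632, 2214592512)] rfl (by decide +kernel)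
theorem I0RT_19 : CovD 1 [pRT H BI0, pK1 H BI0] [(3573412790272, 274877906944), (54962159616, 7851737088), (28789702656, 2214592512)] :=
  cov_of (fRTK H BI0) (.n 2 (.n 1 (.l 1) (.n 2 (.n 2 (.l 0) (.l 0)) (.n 2 (.l 0) (.l 0)))) (.n 1 (.n 2 (.l 1) (.n 1 (.l 1) (.n 2 (.l 0) (.l 0)))) (.n 2 (.n 2 (.l 0) (.l 0)) (.n 2 (.l 0) (.l 0))))) [(3573412790272, 274877906944), (54962159616, 7851737088), (28789702656, 2214592512)] rfl (by decide +kernel)
end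

mutual
theorem I0RT_20 : CovD 1 [pRT H BI0, pK1 H BI0] [(3573412790272, 274877906944), (54962159616, 7851737088), (33218887680, 2214592512)] :=
  cov_of (fRTK H BI0) (.n 2 (.n 1 (.n 1 (.l 1) (.n 1 (.l 1) (.n 2 (.n 0 (.l 0) (.l 0)) (.n 0 (.l 0) (.l 0))))) (.n 2 (.n 2 (.l 0) (.l 0)) (.n 2 (.l 0) (.l 0)))) (.n 1 (.n 1 (.l 1) (.n 2 (.n 2 (.l 0) (.l 0)) (.n 2 (.l 0) (.l 0)))) (.n 2 (.n 2 (.l 0) (.l 0)) (.n 2 (.l 0) (.l 0))))) [(3573412790272, 274877906944), (54962159616, 7851737088), (33218887680, 2214592512)] rfl (by decide +kernel)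
theorem I0RT_23 : CovD 1 [pRT H BI0, pK1 H BI0] [(3573412790272, 274877906944), (15703474176, 15703474176), (44291850240, 8858370048)] :=
  cov_of (fRTK H BI0) (.l 1) [(3573412790272, 274877906944), (15703474176, 15703474176), (44291850240, 8858370048)] rfl (by decide +kernel)
end

mutual
theorem I0RT_26 : CovD 1 [pRT H BI0, pK1 H BI0] [(3573412790272, 274877906944), (47110422528, 15703474176), (37648072704, 2214592512)] :=
  cov_of (fRTK H BI0) (.n 1 (.l 1) (.n 2 (.n 1 (.n 2 (.n 1 (.l 1) (.n 2 (.l 0) (.l 0))) (.n 2 (.n 0 (.l 0) (.l 0)) (.n 0 (.l 0) (.l 0)))) (.n 2 (.n 2 (.l 0) (.l 0)) (.n 2 (.l 0) (.l 0)))) (.n 1 (.n 2 (.n 2 (.l 0) (.l 0)) (.n 2 (.l 0) (.l 0))) (.n 2 (.n 2 (.l 0) (.l 0)) (.n 2 (.l 0) (.l 0)))))) [(3573412790272, 274877906944), (47110422528, 15703474176), (37648072704, 2214592512)] rfl (by decide +kernel)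
theorem I0RT_28 : CovD 1 [pRT H BI0, pK1 H BI0] [(3573412790272, 274877906944), (39258685440, 7851737088), (42077257728, 2214592512)] :=
  cov_of (fRTK H BI0) (.n 1 (.l 1) (.n 1 (.l 1) (.n 2 (.n 2 (.l 1) (.n 2 (.l 0) (.l 0))) (.n 2 (.n 2 (.l 0) (.l 0)) (.n 2 (.l 0) (.l 0)))))) [(3573412790272, 274877906944), (39258685440, 7851737088), (42077257728, 2214592512)] rfl (by decide +kernel)
end

mutual
theorem I0RT_29 : CovD 1 [pRT H BI0, pK1 H BI0] [(3573412790272, 274877906944), (54962159616, 7851737088), (42077257728, 2214592512)] :=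
  cov_of (fRTK H BI0) (.n 2 (.n 1 (.n 2 (.n 2 (.l 0) (.l 0)) (.n 2 (.l 0) (.l 0))) (.n 2 (.n 1 (.l 0) (.l 0)) (.n 1 (.l 0) (.l 0)))) (.n 1 (.n 2 (.n 2 (.l 0) (.l 0)) (.n 2 (.l 0) (.l 0))) (.n 2 (.n 1 (.l 0) (.l 0)) (.n 1 (.l 0) (.l 0))))) [(3573412790272, 274877906944), (54962159616, 7851737088), (42077257728, 2214592512)] rfl (by decide +kernel)
theorem I0RT_32 : CovD 1 [pRT H BI0, pK1 H BI0] [(3573412790272, 274877906944), (39258685440, 7851737088), (46506442752, 2214592512)] :=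
  cov_of (fRTK H BI0) (.n 1 (.l 1) (.n 2 (.n 2 (.n 2 (.l 0) (.l 0)) (.n 2 (.l 0) (.l 0))) (.n 2 (.n 2 (.l 0) (.l 0)) (.n 2 (.l 0) (.l 0))))) [(3573412790272, 274877906944), (39258685440, 7851737088), (46506442752, 2214592512)] rfl (by decide +kernel)
theorem I0RT_33 : CovD 1 [pRT H BI0, pK1 H BI0] [(3573412790272, 274877906944), (54962159616, 7851737088), (46506442752, 2214592512)] :=
  cov_of (fRTK H BI0) (.n 2 (.n 1 (.n 2 (.n 2 (.l 0) (.l 0)) (.n 2 (.l 0) (.l 0))) (.n 2 (.n 1 (.l 0) (.l 0)) (.n 1 (.l 0) (.l 0)))) (.n 1 (.n 2 (.n 2 (.l 0) (.l 0)) (.n 2 (.l 0) (.l 0))) (.n 2 (.n 1 (.l 0) (.l 0)) (.n 1 (.l 0) (.l 0))))) [(3573412790272, 274877906944), (54962159616, 7851737088), (46506442752, 2214592512)] rfl (by decide +kernel)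
end

end Pool.Agent.helper82.WC.S4K0
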