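import Pool.Agent.helper82.WH.Chks

/-!
Generated: constants of a cell.
-/

namespace Pool.Agent.helper82.WC.S4K0

open Pool.Agent.helper82.WH
open Pool.Agent.helper31.IC (CovD covD_split TD)

def H : HC := ⟨⟨3573412790272, 0⟩, ⟨897122304, 0⟩, ⟨0, 1575517093888⟩, ⟨0, 928059555840⟩, ⟨2219562369024, 0⟩, ⟨0, 703047794688⟩, ⟨890842120192, 0⟩, ⟨0, 1687104323584⟩, ⟨582195675136, 0⟩, ⟨0, 4741795938304⟩, ⟨549726650368, 0⟩, ⟨0, 57471729664⟩, ⟨855087972352, 0⟩, ⟨1311767199744, 0⟩, ⟨951177379840, 0⟩, ⟨0, 512687210496⟩, ⟨0, 1036924944384⟩, ⟨0, 2168509890560⟩, ⟨1200426450944, 0⟩, ⟨0, 2396266364928⟩, ⟨4881032609792, 0⟩, ⟨1294040956928, 0⟩, ⟨0, 15582298112⟩, ⟨0, 6877609984⟩, ⟨0, 7643307704320⟩, ⟨6494968479744, 0⟩, ⟨3590193152, 0⟩⟩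

def BI0 : BC := ⟨⟨0, 0, 1099511627776, 0⟩, ⟨0, 0⟩, ⟨0, 0⟩, 100908335104, 45623607296, 87616651264, 847899066368, 174546354176, 18337497088, 1347881533440, 1311038767104, ⟨14418205212672, 0⟩, ⟨0, 8409545965568⟩, ⟨991857213440, 0⟩, ⟨0, 0⟩, ⟨0, 0⟩⟩

def BI1 : BC := ⟨⟨0, 0, 1099511627776, 0⟩, ⟨0, 0⟩, ⟨0, 0⟩, 93176004608, 45108494336, 148025376768, 785553293312, 174546354176, 28219277312, 1626551091200, 1215408635904, ⟨6751688589312, 0⟩, ⟨0, 4131758538752⟩, ⟨998784237568, 0⟩, ⟨0, 0⟩, ⟨0, 0⟩⟩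

def BI2 : BC := ⟨⟨0, 0, 1099511627776, 0⟩, ⟨0, 0⟩, ⟨0, 0⟩, 80314826752, 42644733952, 198214615040, 713088892928, 174546354176, 54755679063, 2167985405952, 1162275192832, ⟨3079491551232, 0⟩, ⟨0, 2972117368832⟩, ⟨1010925502464, 0⟩, ⟨0, 0⟩, ⟨0, 0⟩⟩

def BI3 : BC := ⟨⟨0, 0, 1099511627776, 0⟩, ⟨0, 0⟩, ⟨0, 0⟩, 79578136576, 40633892864, 143579742208, 765680156672, 174546354176, 54755679063, 2190080999424, 965562335232, ⟨1443109011456, 0⟩, ⟨0, 2314987372544⟩, ⟨1012498825216, 0⟩, ⟨0, 0⟩, ⟨0, 0⟩⟩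

def BT : BC := ⟨⟨0, 0, 1099511627776, 0⟩, ⟨0, 0⟩, ⟨0, 0⟩, 91716255744, 43870715904, 131255566336, 762866630656, 174546354176, 54755679063, 2190080999424, 936923627520, ⟨1301375090688, 0⟩, ⟨0, 2263447764992⟩, ⟨1000506392576, 0⟩, ⟨1099511627776, 0⟩, ⟨0, 0⟩⟩

def BH0 : BC := ⟨⟨0, 0, 1099511627776, 0⟩, ⟨0, 0⟩, ⟨0, 0⟩, 0, 0, 0, 0, 0, 0, 0, 0, ⟨0, 0⟩, ⟨0, 0⟩, ⟨0, 0⟩, ⟨0, 0⟩, ⟨0, 0⟩⟩

def BH1 : BC := ⟨⟨0, 0, 0, 0⟩, ⟨137438953472, 0⟩, ⟨1099511627776, 0⟩, 0, 0, 0, 0, 0, 0, 0, 0, ⟨0, 0⟩, ⟨0, 0⟩, ⟨0, 0⟩, ⟨0, 0⟩, ⟨0, 0⟩⟩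

end Pool.Agent.helper82.WC.S4K0
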