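import Pool.Agent.helper82.WC.S4K1P

/-!
Generated certificates (in pairs, so that they are checked one after the other).
-/

namespace Pool.Agent.helper82.WC.S4K1

open Pool.Agent.helper82.WH
open Pool.Agent.helper31.IC (CovD covD_split TD)

mutual
theorem I0RT_27 : CovD 1 [pRT H BI0] [(3573412790272, 274877906944), (80933289984, 18119393280), (244360151040, 16290676736)] :=
  cov_of (fRT H BI0) (.n 2 (.n 2 (.n 0 (.l 0) (.n 1 (.l 0) (.l 0))) (.n 0 (.l 0) (.n 1 (.l 0) (.l 0)))) (.n 2 (.n 0 (.l 0) (.n 0 (.l 0) (.l 0))) (.n 0 (.l 0) (.n 0 (.l 0) (.l 0))))) [(3573412790272, 274877906944), (80933289984, 18119393280), (244360151040, 16290676736)] rfl (by decide +kernel)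
theorem I1AD_1 : CovD 0 [pAD H BI1] [(3573412790272, 274877906944), (80933289984, 18119393280), (288199016448, 27548188672)] :=
  cov_of (fAD H BI1) (.n 2 (.n 0 (.n 0 (.n 2 (.l 0) (.l 0)) (.n 2 (.l 0) (.l 0))) (.n 2 (.n 0 (.l 0) (.n 0 (.l 0) (.l 0))) (.n 0 (.l 0) (.l 0)))) (.n 0 (.n 0 (.n 0 (.l 0) (.l 0)) (.n 1 (.l 0) (.l 0))) (.n 0 (.n 1 (.l 0) (.l 0)) (.n 1 (.l 0) (.l 0))))) [(3573412790272, 274877906944), (80933289984, 18119393280), (288199016448, 27548188672)] rfl (by decide +kernel)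
end

mutual
theorem I1AD_2 : CovD 0 [pAD H BI1] [(3573412790272, 274877906944), (80933289984, 18119393280), (343295393792, 27548188672)] :=
  cov_of (fAD H BI1) (.n 0 (.n 2 (.n 0 (.n 0 (.l 0) (.l 0)) (.n 0 (.l 0) (.l 0))) (.n 0 (.n 0 (.l 0) (.l 0)) (.l 0))) (.n 2 (.n 2 (.n 0 (.l 0) (.l 0)) (.n 0 (.l 0) (.l 0))) (.n 0 (.l 0) (.n 0 (.l 0) (.l 0))))) [(3573412790272, 274877906944), (80933289984, 18119393280), (343295393792, 27548188672)] rfl (by decide +kernel)
theorem I1AD_4 : CovD 0 [pAD H BI1] [(3573412790272, 274877906944), (80933289984, 18119393280), (398391771136, 27548188672)] :=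
  cov_of (fAD H BI1) (.n 0 (.n 2 (.n 0 (.n 0 (.l 0) (.l 0)) (.n 0 (.l 0) (.l 0))) (.n 0 (.n 0 (.l 0) (.l 0)) (.n 0 (.l 0) (.l 0)))) (.n 2 (.n 0 (.l 0) (.l 0)) (.n 0 (.n 0 (.l 0) (.l 0)) (.n 0 (.l 0) (.l 0))))) [(3573412790272, 274877906944), (80933289984, 18119393280), (398391771136, 27548188672)] rfl (by decide +kernel)
end

mutual
theorem I1AD_5 : CovD 0 [pAD H BI1] [(3573412790272, 274877906944), (80933289984, 18119393280), (453488148480, 27548188672)] :=
  cov_of (fAD H BI1) (.n 0 (.n 2 (.n 0 (.n 0 (.l 0) (.l 0)) (.n 0 (.l 0) (.l 0))) (.n 0 (.n 2 (.l 0) (.n 0 (.l 0) (.l 0))) (.n 2 (.l 0) (.l 0)))) (.n 2 (.n 0 (.n 0 (.l 0) (.l 0)) (.n 0 (.l 0) (.l 0))) (.n 0 (.n 2 (.l 0) (.l 0)) (.n 2 (.l 0) (.l 0))))) [(3573412790272, 274877906944), (80933289984, 18119393280), (453488148480, 27548188672)] rfl (by decide +kernel)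
theorem I1G_0 : CovD 1 [pG H BI1] [(3573412790272, 274877906944), (80933289984, 18119393280), (315747205120, 55096377344)] :=
  cov_of (fG H BI1) (.n 2 (.n 2 (.l 0) (.n 0 (.l 0) (.l 0))) (.n 2 (.n 0 (.l 0) (.n 0 (.l 0) (.l 0))) (.n 0 (.l 0) (.n 2 (.l 0) (.l 0))))) [(3573412790272, 274877906944), (80933289984, 18119393280), (315747205120, 55096377344)] rfl (by decide +kernel)
end

mutual
theorem I1G_1 : CovD 1 [pG H BI1] [(3573412790272, 274877906944), (80933289984, 18119393280), (425939959808, 55096377344)] :=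
  cov_of (fG H BI1) (.n 2 (.n 2 (.n 0 (.n 0 (.l 0) (.l 0)) (.n 2 (.n 0 (.l 0) (.l 0)) (.n 0 (.l 0) (.l 0)))) (.n 0 (.n 0 (.l 0) (.l 0)) (.n 2 (.n 0 (.l 0) (.l 0)) (.n 0 (.l 0) (.l 0))))) (.n 2 (.n 0 (.n 0 (.l 0) (.l 0)) (.n 2 (.n 0 (.l 0) (.l 0)) (.n 0 (.l 0) (.l 0)))) (.n 0 (.n 0 (.l 0) (.l 0)) (.n 2 (.n 0 (.l 0) (.l 0)) (.l 0))))) [(3573412790272, 274877906944), (80933289984, 18119393280), (425939959808, 55096377344)] rfl (by decide +kernel)
theorem I1RT_2 : CovD 1 [pRT H BI1] [(3573412790272, 274877906944), (80933289984, 18119393280), (274424922112, 13774094336)] :=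
  cov_of (fRT H BI1) (.n 2 (.n 0 (.n 0 (.l 0) (.n 0 (.l 0) (.l 0))) (.n 1 (.n 0 (.l 0) (.n 2 (.l 0) (.l 0))) (.n 0 (.l 0) (.n 0 (.l 0) (.l 0))))) (.n 0 (.n 1 (.n 0 (.l 0) (.l 0)) (.l 0)) (.n 1 (.n 0 (.l 0) (.n 0 (.l 0) (.l 0))) (.n 0 (.l 0) (.l 0))))) [(3573412790272, 274877906944), (80933289984, 18119393280), (274424922112, 13774094336)] rfl (by decide +kernel)
end

mutual
theorem I1RT_3 : CovD 1 [pRT H BI1] [(3573412790272, 274877906944), (80933289984, 18119393280), (301973110784, 13774094336)] :=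
  cov_of (fRT H BI1) (.n 2 (.n 0 (.n 0 (.l 0) (.l 0)) (.n 0 (.n 1 (.l 0) (.l 0)) (.n 1 (.n 0 (.l 0) (.l 0)) (.l 0)))) (.n 0 (.n 0 (.l 0) (.l 0)) (.n 0 (.n 0 (.l 0) (.l 0)) (.n 1 (.l 0) (.l 0))))) [(3573412790272, 274877906944), (80933289984, 18119393280), (301973110784, 13774094336)] rfl (by decide +kernel)
theorem I1RT_4 : CovD 1 [pRT H BI1] [(3573412790272, 274877906944), (80933289984, 18119393280), (343295393792, 27548188672)] :=
  cov_of (fRT H BI1) (.n 2 (.n 2 (.n 0 (.n 0 (.l 0) (.l 0)) (.n 0 (.l 0) (.n 0 (.l 0) (.l 0)))) (.n 0 (.n 0 (.l 0) (.l 0)) (.n 0 (.l 0) (.l 0)))) (.n 2 (.n 0 (.l 0) (.n 0 (.l 0) (.l 0))) (.n 0 (.l 0) (.n 0 (.l 0) (.l 0))))) [(3573412790272, 274877906944), (80933289984, 18119393280), (343295393792, 27548188672)] rfl (by decide +kernel)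
end

mutual
theorem I1RT_6 : CovD 1 [pRT H BI1] [(3573412790272, 274877906944), (80933289984, 18119393280), (398391771136, 27548188672)] :=
  cov_of (fRT H BI1) (.n 2 (.n 2 (.n 0 (.l 0) (.l 0)) (.n 0 (.l 0) (.l 0))) (.n 2 (.n 0 (.l 0) (.l 0)) (.n 0 (.l 0) (.n 0 (.l 0) (.l 0))))) [(3573412790272, 274877906944), (80933289984, 18119393280), (398391771136, 27548188672)] rfl (by decide +kernel)
theorem I1RT_8 : CovD 1 [pRT H BI1] [(3573412790272, 274877906944), (80933289984, 18119393280), (439714054144, 13774094336)] :=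
  cov_of (fRT H BI1) (.n 2 (.n 0 (.l 0) (.n 0 (.l 0) (.l 0))) (.n 0 (.n 0 (.l 0) (.l 0)) (.n 0 (.l 0) (.l 0)))) [(3573412790272, 274877906944), (80933289984, 18119393280), (439714054144, 13774094336)] rfl (by decide +kernel)
end

mutual
theorem I1RT_10 : CovD 1 [pRT H BI1] [(3435973836800, 137438953472), (80933289984, 18119393280), (467262242816, 13774094336)] :=
  cov_of (fRT H BI1) (.n 2 (.n 0 (.n 0 (.l 0) (.l 0)) (.n 0 (.l 0) (.l 0))) (.n 0 (.n 2 (.l 0) (.n 1 (.l 0) (.l 0))) (.n 2 (.n 0 (.l 0) (.l 0)) (.n 1 (.l 0) (.l 0))))) [(3435973836800, 137438953472), (80933289984, 18119393280), (467262242816, 13774094336)] rfl (by decide +kernel)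
theorem I1RT_11 : CovD 1 [pRT H BI1] [(3710851743744, 137438953472), (80933289984, 18119393280), (467262242816, 13774094336)] :=
  cov_of (fRT H BI1) (.n 2 (.n 0 (.n 0 (.l 0) (.l 0)) (.n 1 (.l 0) (.l 0))) (.n 0 (.n 2 (.n 0 (.l 0) (.l 0)) (.n 1 (.n 0 (.l 0) (.l 0)) (.n 0 (.l 0) (.l 0)))) (.n 2 (.n 0 (.l 0) (.l 0)) (.n 1 (.n 0 (.l 0) (.l 0)) (.n 0 (.l 0) (.l 0)))))) [(3710851743744, 137438953472), (80933289984, 18119393280), (467262242816, 13774094336)] rfl (by decide +kernel)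
end

mutual
theorem R0AD : CovD 0 [pAD H BR0] [(3573412790272, 274877906944), (80933289984, 18119393280), (1099511627776, 1099511627776)] :=
  cov_of (fAD H BR0) (.n 1 (.n 1 (.n 0 (.l 0) (.l 0)) (.n 0 (.l 0) (.l 0))) (.n 0 (.n 1 (.l 0) (.l 0)) (.n 1 (.l 0) (.l 0)))) [(3573412790272, 274877906944), (80933289984, 18119393280), (1099511627776, 1099511627776)] rfl (by decide +kernel)
theorem R0G : CovD 1 [pG H BR0] [(3573412790272, 274877906944), (80933289984, 18119393280), (1099511627776, 1099511627776)] :=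
  cov_of (fG H BR0) (.l 0) [(3573412790272, 274877906944), (80933289984, 18119393280), (1099511627776, 1099511627776)] rfl (by decide +kernel)
end

mutual
theorem R0RT : CovD 1 [pRT H BR0] [(3573412790272, 274877906944), (80933289984, 18119393280), (1099511627776, 1099511627776)] :=
  cov_of (fRT H BR0) (.n 1 (.n 1 (.l 0) (.l 0)) (.n 1 (.l 0) (.l 0))) [(3573412790272, 274877906944), (80933289984, 18119393280), (1099511627776, 1099511627776)] rfl (by decide +kernel)
theorem R0RS : CovD 1 [pRS H BR0] [(3573412790272, 274877906944), (80933289984, 18119393280), (1099511627776, 1099511627776)] :=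
  cov_of (fRS H BR0) (.l 0) [(3573412790272, 274877906944), (80933289984, 18119393280), (1099511627776, 1099511627776)] rfl (by decide +kernel)
end

mutual
theorem PAD : CovD 0 [pAD H BP] [(3573412790272, 274877906944), (80933289984, 18119393280), (2199023255552, 0)] :=
  cov_of (fAD H BP) (.n 1 (.n 0 (.n 0 (.l 0) (.l 0)) (.n 0 (.l 0) (.l 0))) (.n 0 (.l 0) (.l 0))) [(3573412790272, 274877906944), (80933289984, 18119393280), (2199023255552, 0)] rfl (by decide +kernel)
theorem PG : CovD 1 [pG H BP] [(3573412790272, 274877906944), (80933289984, 18119393280), (2199023255552, 0)] :=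
  cov_of (fG H BP) (.l 0) [(3573412790272, 274877906944), (80933289984, 18119393280), (2199023255552, 0)] rfl (by decide +kernel)
end

mutual
theorem PRT : CovD 1 [pRT H BP] [(3573412790272, 274877906944), (80933289984, 18119393280), (2199023255552, 0)] :=
  cov_of (fRT H BP) (.n 1 (.l 0) (.l 0)) [(3573412790272, 274877906944), (80933289984, 18119393280), (2199023255552, 0)] rfl (by decide +kernel)
theorem PTT : CovD 1 [pTT H BP] [(3573412790272, 274877906944), (80933289984, 18119393280), (2199023255552, 0)] :=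
  cov_of (fTT H BP) (.n 1 (.n 1 (.n 0 (.n 1 (.l 0) (.l 0)) (.n 1 (.l 0) (.l 0))) (.n 0 (.n 1 (.l 0) (.l 0)) (.n 1 (.l 0) (.l 0)))) (.n 0 (.n 1 (.n 1 (.l 0) (.l 0)) (.n 0 (.l 0) (.l 0))) (.n 1 (.n 1 (.l 0) (.l 0)) (.n 1 (.l 0) (.l 0))))) [(3573412790272, 274877906944), (80933289984, 18119393280), (2199023255552, 0)] rfl (by decide +kernel)
end

mutual
theorem MAD : CovD 0 [pAD H BM] [(3573412790272, 274877906944), (80933289984, 18119393280), (0, 0)] :=
  cov_of (fAD H BM) (.n 1 (.n 0 (.n 0 (.l 0) (.l 0)) (.n 0 (.l 0) (.l 0))) (.n 0 (.l 0) (.l 0))) [(3573412790272, 274877906944), (80933289984, 18119393280), (0, 0)] rfl (by decide +kernel)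
theorem MG : CovD 1 [pG H BM] [(3573412790272, 274877906944), (80933289984, 18119393280), (0, 0)] :=
  cov_of (fG H BM) (.l 0) [(3573412790272, 274877906944), (80933289984, 18119393280), (0, 0)] rfl (by decide +kernel)
end

mutual
theorem MRT : CovD 1 [pRT H BM] [(3573412790272, 274877906944), (80933289984, 18119393280), (0, 0)] :=
  cov_of (fRT H BM) (.n 1 (.n 1 (.l 0) (.l 0)) (.n 0 (.l 0) (.l 0))) [(3573412790272, 274877906944), (80933289984, 18119393280), (0, 0)] rfl (by decide +kernel)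
theorem MTT : CovD 1 [pTT H BM] [(3573412790272, 274877906944), (80933289984, 18119393280), (0, 0)] :=
  cov_of (fTT H BM) (.n 1 (.n 1 (.n 0 (.n 1 (.l 0) (.l 0)) (.n 1 (.l 0) (.l 0))) (.n 0 (.n 1 (.l 0) (.l 0)) (.n 1 (.l 0) (.l 0)))) (.n 0 (.n 1 (.n 1 (.l 0) (.l 0)) (.n 1 (.l 0) (.l 0))) (.n 1 (.n 1 (.l 0) (.l 0)) (.n 1 (.l 0) (.l 0))))) [(3573412790272, 274877906944), (80933289984, 18119393280), (0, 0)] rfl (by decide +kernel)
end

mutual
theorem TAD : CovD 0 [pAD H BT] [(3573412790272, 274877906944), (80933289984, 18119393280), (481036337152, 0)] :=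
  cov_of (fAD H BT) (.n 0 (.n 0 (.l 0) (.l 0)) (.l 0)) [(3573412790272, 274877906944), (80933289984, 18119393280), (481036337152, 0)] rfl (by decide +kernel)
theorem TG : CovD 1 [pG H BT] [(3573412790272, 274877906944), (80933289984, 18119393280), (481036337152, 0)] :=
  cov_of (fG H BT) (.l 0) [(3573412790272, 274877906944), (80933289984, 18119393280), (481036337152, 0)] rfl (by decide +kernel)
end

mutual
theorem TRT : CovD 1 [pRT H BT] [(3573412790272, 274877906944), (80933289984, 18119393280), (481036337152, 0)] :=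
  cov_of (fRT H BT) (.n 0 (.n 0 (.l 0) (.l 0)) (.n 0 (.l 0) (.n 0 (.l 0) (.l 0)))) [(3573412790272, 274877906944), (80933289984, 18119393280), (481036337152, 0)] rfl (by decide +kernel)
theorem TTT : CovD 1 [pTT H BT] [(3573412790272, 274877906944), (80933289984, 18119393280), (481036337152, 0)] :=
  cov_of (fTT H BT) (.n 0 (.n 0 (.n 0 (.n 0 (.l 0) (.l 0)) (.l 0)) (.l 0)) (.n 0 (.l 0) (.l 0))) [(3573412790272, 274877906944), (80933289984, 18119393280), (481036337152, 0)] rfl (by decide +kernel)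
end

end Pool.Agent.helper82.WC.S4K1
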