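import Pool.Agent.helper82.WC.S4K1C0
import Pool.Agent.helper82.WC.S4K1C1

/-!
Generated certificates, assembled.
-/

namespace Pool.Agent.helper82.WC.S4K1

open Pool.Agent.helper82.WH
open Pool.Agent.helper31.IC (CovD covD_split TD)

theorem I0AD_3 : CovD 0 [pAD H BI0] [(3573412790272, 274877906944), (71873593344, 9059696640), (16290676736, 16290676736)] :=
  covD_split 2 (by decide +kernel) I0AD_4 I0AD_5
theorem I0AD_2 : CovD 0 [pAD H BI0] [(3573412790272, 274877906944), (80933289984, 18119393280), (16290676736, 16290676736)] :=
  covD_split 1 (by decide +kernel) I0AD_3 I0AD_6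
theorem I0AD_7 : CovD 0 [pAD H BI0] [(3573412790272, 274877906944), (80933289984, 18119393280), (48872030208, 16290676736)] :=
  covD_split 2 (by decide +kernel) I0AD_8 I0AD_9
theorem I0AD_1 : CovD 0 [pAD H BI0] [(3573412790272, 274877906944), (80933289984, 18119393280), (32581353472, 32581353472)] :=
  covD_split 2 (by decide +kernel) I0AD_2 I0AD_7
theorem I0AD_11 : CovD 0 [pAD H BI0] [(3573412790272, 274877906944), (80933289984, 18119393280), (81453383680, 16290676736)] :=
  covD_split 0 (by decide +kernel) I0AD_12 I0AD_13
theorem I0AD_14 : CovD 0 [pAD H BI0] [(3573412790272, 274877906944), (80933289984, 18119393280), (114034737152, 16290676736)] :=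
  covD_split 0 (by decide +kernel) I0AD_15 I0AD_16
theorem I0AD_10 : CovD 0 [pAD H BI0] [(3573412790272, 274877906944), (80933289984, 18119393280), (97744060416, 32581353472)] :=
  covD_split 2 (by decide +kernel) I0AD_11 I0AD_14
theorem I0AD_0 : CovD 0 [pAD H BI0] [(3573412790272, 274877906944), (80933289984, 18119393280), (65162706944, 65162706944)] :=
  covD_split 2 (by decide +kernel) I0AD_1 I0AD_10
theorem I0AD_18 : CovD 0 [pAD H BI0] [(3573412790272, 274877906944), (80933289984, 18119393280), (162906767360, 32581353472)] :=
  covD_split 2 (by decide +kernel) I0AD_19 I0AD_20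
theorem I0AD_17 : CovD 0 [pAD H BI0] [(3573412790272, 274877906944), (80933289984, 18119393280), (195488120832, 65162706944)] :=
  covD_split 2 (by decide +kernel) I0AD_18 I0AD_21
theorem I0AD : CovD 0 [pAD H BI0] [(3573412790272, 274877906944), (80933289984, 18119393280), (130325413888, 130325413888)] :=
  covD_split 2 (by decide +kernel) I0AD_0 I0AD_17
theorem I0RT_3 : CovD 1 [pRT H BI0] [(3573412790272, 274877906944), (80933289984, 18119393280), (8145338368, 8145338368)] :=
  covD_split 2 (by decide +kernel) I0RT_4 I0RT_5
theorem I0RT_6 : CovD 1 [pRT H BI0] [(3573412790272, 274877906944), (80933289984, 18119393280), (24436015104, 8145338368)] :=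
  covD_split 2 (by decide +kernel) I0RT_7 I0RT_8
theorem I0RT_2 : CovD 1 [pRT H BI0] [(3573412790272, 274877906944), (80933289984, 18119393280), (16290676736, 16290676736)] :=
  covD_split 2 (by decide +kernel) I0RT_3 I0RT_6
theorem I0RT_10 : CovD 1 [pRT H BI0] [(3573412790272, 274877906944), (80933289984, 18119393280), (40726691840, 8145338368)] :=
  covD_split 2 (by decide +kernel) I0RT_11 I0RT_12
theorem I0RT_13 : CovD 1 [pRT H BI0] [(3573412790272, 274877906944), (80933289984, 18119393280), (57017368576, 8145338368)] :=
  covD_split 2 (by decide +kernel) I0RT_14 I0RT_15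
theorem I0RT_9 : CovD 1 [pRT H BI0] [(3573412790272, 274877906944), (80933289984, 18119393280), (48872030208, 16290676736)] :=
  covD_split 2 (by decide +kernel) I0RT_10 I0RT_13
theorem I0RT_1 : CovD 1 [pRT H BI0] [(3573412790272, 274877906944), (80933289984, 18119393280), (32581353472, 32581353472)] :=
  covD_split 2 (by decide +kernel) I0RT_2 I0RT_9
theorem I0RT_17 : CovD 1 [pRT H BI0] [(3573412790272, 274877906944), (80933289984, 18119393280), (81453383680, 16290676736)] :=
  covD_split 2 (by decide +kernel) I0RT_18 I0RT_19
theorem I0RT_16 : CovD 1 [pRT H BI0] [(3573412790272, 274877906944), (80933289984, 18119393280), (97744060416, 32581353472)] :=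
  covD_split 2 (by decide +kernel) I0RT_17 I0RT_20
theorem I0RT_0 : CovD 1 [pRT H BI0] [(3573412790272, 274877906944), (80933289984, 18119393280), (65162706944, 65162706944)] :=
  covD_split 2 (by decide +kernel) I0RT_1 I0RT_16
theorem I0RT_22 : CovD 1 [pRT H BI0] [(3573412790272, 274877906944), (80933289984, 18119393280), (162906767360, 32581353472)] :=
  covD_split 2 (by decide +kernel) I0RT_23 I0RT_24
theorem I0RT_25 : CovD 1 [pRT H BI0] [(3573412790272, 274877906944), (80933289984, 18119393280), (228069474304, 32581353472)] :=
  covD_split 2 (by decide +kernel) I0RT_26 I0RT_27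
theorem I0RT_21 : CovD 1 [pRT H BI0] [(3573412790272, 274877906944), (80933289984, 18119393280), (195488120832, 65162706944)] :=
  covD_split 2 (by decide +kernel) I0RT_22 I0RT_25
theorem I0RT : CovD 1 [pRT H BI0] [(3573412790272, 274877906944), (80933289984, 18119393280), (130325413888, 130325413888)] :=
  covD_split 2 (by decide +kernel) I0RT_0 I0RT_21
theorem I1AD_0 : CovD 0 [pAD H BI1] [(3573412790272, 274877906944), (80933289984, 18119393280), (315747205120, 55096377344)] :=
  covD_split 2 (by decide +kernel) I1AD_1 I1AD_2
theorem I1AD_3 : CovD 0 [pAD H BI1] [(3573412790272, 274877906944), (80933289984, 18119393280), (425939959808, 55096377344)] :=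
  covD_split 2 (by decide +kernel) I1AD_4 I1AD_5
theorem I1AD : CovD 0 [pAD H BI1] [(3573412790272, 274877906944), (80933289984, 18119393280), (370843582464, 110192754688)] :=
  covD_split 2 (by decide +kernel) I1AD_0 I1AD_3
theorem I1G : CovD 1 [pG H BI1] [(3573412790272, 274877906944), (80933289984, 18119393280), (370843582464, 110192754688)] :=
  covD_split 2 (by decide +kernel) I1G_0 I1G_1
theorem I1RT_1 : CovD 1 [pRT H BI1] [(3573412790272, 274877906944), (80933289984, 18119393280), (288199016448, 27548188672)] :=
  covD_split 2 (by decide +kernel) I1RT_2 I1RT_3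
theorem I1RT_0 : CovD 1 [pRT H BI1] [(3573412790272, 274877906944), (80933289984, 18119393280), (315747205120, 55096377344)] :=
  covD_split 2 (by decide +kernel) I1RT_1 I1RT_4
theorem I1RT_9 : CovD 1 [pRT H BI1] [(3573412790272, 274877906944), (80933289984, 18119393280), (467262242816, 13774094336)] :=
  covD_split 0 (by decide +kernel) I1RT_10 I1RT_11
theorem I1RT_7 : CovD 1 [pRT H BI1] [(3573412790272, 274877906944), (80933289984, 18119393280), (453488148480, 27548188672)] :=
  covD_split 2 (by decide +kernel) I1RT_8 I1RT_9
theorem I1RT_5 : CovD 1 [pRT H BI1] [(3573412790272, 274877906944), (80933289984, 18119393280), (425939959808, 55096377344)] :=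
  covD_split 2 (by decide +kernel) I1RT_6 I1RT_7
theorem I1RT : CovD 1 [pRT H BI1] [(3573412790272, 274877906944), (80933289984, 18119393280), (370843582464, 110192754688)] :=
  covD_split 2 (by decide +kernel) I1RT_0 I1RT_5

end Pool.Agent.helper82.WC.S4K1
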