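import Pool.Agent.helper82.WC.S4K1P

/-!
Generated certificates (in pairs, so that they are checked one after the other).
-/

namespace Pool.Agent.helper82.WC.S4K1

open Pool.Agent.helper82.WH
open Pool.Agent.helper31.IC (CovD covD_split TD)

mutual
theorem I0AD_4 : CovD 0 [pAD H BI0] [(3573412790272, 274877906944), (71873593344, 9059696640), (8145338368, 8145338368)] :=
  cov_of (fAD H BI0) (.n 0 (.n 0 (.n 2 (.n 0 (.l 0) (.l 0)) (.n 0 (.l 0) (.l 0))) (.n 2 (.n 0 (.l 0) (.l 0)) (.n 0 (.l 0) (.l 0)))) (.n 0 (.n 2 (.n 0 (.l 0) (.l 0)) (.n 0 (.l 0) (.l 0))) (.n 2 (.n 0 (.l 0) (.l 0)) (.n 0 (.l 0) (.l 0))))) [(3573412790272, 274877906944), (71873593344, 9059696640), (8145338368, 8145338368)] rfl (by decide +kernel)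
theorem I0AD_5 : CovD 0 [pAD H BI0] [(3573412790272, 274877906944), (71873593344, 9059696640), (24436015104, 8145338368)] :=
  cov_of (fAD H BI0) (.n 0 (.n 0 (.n 2 (.n 0 (.l 0) (.l 0)) (.n 0 (.l 0) (.l 0))) (.n 2 (.n 0 (.l 0) (.l 0)) (.n 0 (.l 0) (.l 0)))) (.n 0 (.n 2 (.n 0 (.l 0) (.l 0)) (.n 0 (.l 0) (.l 0))) (.n 2 (.n 0 (.l 0) (.l 0)) (.n 0 (.l 0) (.l 0))))) [(3573412790272, 274877906944), (71873593344, 9059696640), (24436015104, 8145338368)] rfl (by decide +kernel)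
end

mutual
theorem I0AD_6 : CovD 0 [pAD H BI0] [(3573412790272, 274877906944), (89992986624, 9059696640), (16290676736, 16290676736)] :=
  cov_of (fAD H BI0) (.n 0 (.n 2 (.n 0 (.n 2 (.l 0) (.l 0)) (.n 2 (.l 0) (.l 0))) (.n 0 (.n 2 (.l 0) (.l 0)) (.n 2 (.l 0) (.l 0)))) (.n 2 (.n 0 (.n 2 (.l 0) (.l 0)) (.n 2 (.l 0) (.l 0))) (.n 0 (.n 2 (.l 0) (.l 0)) (.n 2 (.l 0) (.l 0))))) [(3573412790272, 274877906944), (89992986624, 9059696640), (16290676736, 16290676736)] rfl (by decide +kernel)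
theorem I0AD_8 : CovD 0 [pAD H BI0] [(3573412790272, 274877906944), (80933289984, 18119393280), (40726691840, 8145338368)] :=
  cov_of (fAD H BI0) (.n 1 (.n 0 (.n 0 (.n 2 (.n 0 (.l 0) (.l 0)) (.n 0 (.l 0) (.l 0))) (.n 2 (.n 0 (.l 0) (.l 0)) (.n 0 (.l 0) (.l 0)))) (.n 0 (.n 2 (.n 0 (.l 0) (.l 0)) (.n 0 (.l 0) (.l 0))) (.n 2 (.n 0 (.l 0) (.l 0)) (.n 0 (.l 0) (.l 0))))) (.n 0 (.n 0 (.n 2 (.l 0) (.l 0)) (.n 2 (.l 0) (.l 0))) (.n 0 (.n 2 (.l 0) (.l 0)) (.n 2 (.l 0) (.l 0))))) [(3573412790272, 274877906944), (80933289984, 18119393280), (40726691840, 8145338368)] rfl (by decide +kernel)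
end

mutual
theorem I0AD_9 : CovD 0 [pAD H BI0] [(3573412790272, 274877906944), (80933289984, 18119393280), (57017368576, 8145338368)] :=
  cov_of (fAD H BI0) (.n 1 (.n 0 (.n 0 (.n 2 (.n 0 (.l 0) (.l 0)) (.l 0)) (.n 2 (.n 0 (.l 0) (.l 0)) (.l 0))) (.n 0 (.n 2 (.n 0 (.l 0) (.l 0)) (.l 0)) (.n 2 (.n 0 (.l 0) (.l 0)) (.l 0)))) (.n 0 (.n 0 (.n 0 (.l 0) (.l 0)) (.n 2 (.l 0) (.l 0))) (.n 0 (.n 2 (.l 0) (.l 0)) (.n 2 (.l 0) (.l 0))))) [(3573412790272, 274877906944), (80933289984, 18119393280), (57017368576, 8145338368)] rfl (by decide +kernel)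
theorem I0AD_12 : CovD 0 [pAD H BI0] [(3435973836800, 137438953472), (80933289984, 18119393280), (81453383680, 16290676736)] :=
  cov_of (fAD H BI0) (.n 2 (.n 1 (.n 0 (.n 2 (.l 0) (.l 0)) (.n 2 (.l 0) (.l 0))) (.n 0 (.n 0 (.l 0) (.l 0)) (.n 0 (.l 0) (.l 0)))) (.n 1 (.n 0 (.n 0 (.l 0) (.l 0)) (.n 0 (.l 0) (.l 0))) (.n 0 (.n 0 (.l 0) (.l 0)) (.n 0 (.l 0) (.l 0))))) [(3435973836800, 137438953472), (80933289984, 18119393280), (81453383680, 16290676736)] rfl (by decide +kernel)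
end

mutual
theorem I0AD_13 : CovD 0 [pAD H BI0] [(3710851743744, 137438953472), (80933289984, 18119393280), (81453383680, 16290676736)] :=
  cov_of (fAD H BI0) (.n 2 (.n 1 (.n 0 (.n 2 (.l 0) (.l 0)) (.n 2 (.l 0) (.l 0))) (.n 0 (.n 0 (.l 0) (.l 0)) (.n 0 (.l 0) (.l 0)))) (.n 1 (.n 0 (.n 0 (.l 0) (.l 0)) (.n 0 (.l 0) (.l 0))) (.n 0 (.n 0 (.l 0) (.l 0)) (.n 0 (.l 0) (.l 0))))) [(3710851743744, 137438953472), (80933289984, 18119393280), (81453383680, 16290676736)] rfl (by decide +kernel)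
theorem I0AD_15 : CovD 0 [pAD H BI0] [(3435973836800, 137438953472), (80933289984, 18119393280), (114034737152, 16290676736)] :=
  cov_of (fAD H BI0) (.n 2 (.n 1 (.n 0 (.n 0 (.l 0) (.l 0)) (.n 0 (.l 0) (.l 0))) (.n 0 (.n 0 (.l 0) (.l 0)) (.n 0 (.l 0) (.l 0)))) (.n 1 (.n 0 (.n 0 (.l 0) (.l 0)) (.n 0 (.l 0) (.l 0))) (.n 0 (.l 0) (.l 0)))) [(3435973836800, 137438953472), (80933289984, 18119393280), (114034737152, 16290676736)] rfl (by decide +kernel)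
end

mutual
theorem I0AD_16 : CovD 0 [pAD H BI0] [(3710851743744, 137438953472), (80933289984, 18119393280), (114034737152, 16290676736)] :=
  cov_of (fAD H BI0) (.n 2 (.n 1 (.n 0 (.n 0 (.l 0) (.l 0)) (.n 0 (.l 0) (.l 0))) (.n 0 (.n 0 (.l 0) (.l 0)) (.n 0 (.l 0) (.l 0)))) (.n 1 (.n 0 (.n 0 (.l 0) (.l 0)) (.n 0 (.l 0) (.l 0))) (.n 0 (.l 0) (.l 0)))) [(3710851743744, 137438953472), (80933289984, 18119393280), (114034737152, 16290676736)] rfl (by decide +kernel)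
theorem I0AD_19 : CovD 0 [pAD H BI0] [(3573412790272, 274877906944), (80933289984, 18119393280), (146616090624, 16290676736)] :=
  cov_of (fAD H BI0) (.n 0 (.n 2 (.n 0 (.n 1 (.l 0) (.l 0)) (.n 1 (.l 0) (.l 0))) (.n 0 (.n 1 (.l 0) (.l 0)) (.n 1 (.l 0) (.l 0)))) (.n 2 (.n 1 (.n 0 (.l 0) (.l 0)) (.n 0 (.l 0) (.l 0))) (.n 1 (.n 0 (.l 0) (.l 0)) (.n 0 (.l 0) (.l 0))))) [(3573412790272, 274877906944), (80933289984, 18119393280), (146616090624, 16290676736)] rfl (by decide +kernel)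
end

mutual
theorem I0AD_20 : CovD 0 [pAD H BI0] [(3573412790272, 274877906944), (80933289984, 18119393280), (179197444096, 16290676736)] :=
  cov_of (fAD H BI0) (.n 0 (.n 2 (.n 0 (.n 1 (.l 0) (.l 0)) (.n 1 (.l 0) (.l 0))) (.n 0 (.n 0 (.l 0) (.l 0)) (.n 0 (.l 0) (.l 0)))) (.n 2 (.n 0 (.n 1 (.l 0) (.l 0)) (.n 1 (.l 0) (.l 0))) (.n 0 (.n 0 (.l 0) (.l 0)) (.n 1 (.l 0) (.l 0))))) [(3573412790272, 274877906944), (80933289984, 18119393280), (179197444096, 16290676736)] rfl (by decide +kernel)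
theorem I0AD_21 : CovD 0 [pAD H BI0] [(3573412790272, 274877906944), (80933289984, 18119393280), (228069474304, 32581353472)] :=
  cov_of (fAD H BI0) (.n 2 (.n 0 (.n 2 (.n 0 (.n 0 (.l 0) (.l 0)) (.n 0 (.l 0) (.l 0))) (.n 0 (.n 0 (.l 0) (.l 0)) (.n 0 (.l 0) (.l 0)))) (.n 2 (.n 0 (.n 0 (.l 0) (.l 0)) (.n 0 (.l 0) (.l 0))) (.n 0 (.n 0 (.l 0) (.l 0)) (.n 0 (.l 0) (.l 0))))) (.n 0 (.n 2 (.n 0 (.l 0) (.l 0)) (.n 0 (.l 0) (.l 0))) (.n 2 (.n 0 (.l 0) (.l 0)) (.n 0 (.l 0) (.l 0))))) [(3573412790272, 274877906944), (80933289984, 18119393280), (228069474304, 32581353472)] rfl (by decide +kernel)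
end

mutual
theorem I0G : CovD 1 [pG H BI0] [(3573412790272, 274877906944), (80933289984, 18119393280), (130325413888, 130325413888)] :=
  cov_of (fG H BI0) (.n 2 (.l 0) (.n 2 (.l 0) (.n 2 (.l 0) (.n 2 (.l 0) (.n 0 (.l 0) (.n 0 (.l 0) (.l 0))))))) [(3573412790272, 274877906944), (80933289984, 18119393280), (130325413888, 130325413888)] rfl (by decide +kernel)
theorem I0RT_4 : CovD 1 [pRT H BI0] [(3573412790272, 274877906944), (80933289984, 18119393280), (4072669184, 4072669184)] :=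
  cov_of (fRT H BI0) (.n 1 (.n 2 (.n 2 (.n 1 (.n 2 (.l 0) (.l 0)) (.n 1 (.l 0) (.l 0))) (.n 1 (.n 2 (.l 0) (.l 0)) (.n 1 (.l 0) (.l 0)))) (.n 2 (.n 1 (.n 2 (.l 0) (.l 0)) (.n 1 (.l 0) (.l 0))) (.n 1 (.n 2 (.l 0) (.l 0)) (.n 1 (.l 0) (.l 0))))) (.n 2 (.n 2 (.n 1 (.l 0) (.l 0)) (.n 1 (.l 0) (.l 0))) (.n 2 (.n 1 (.l 0) (.l 0)) (.n 1 (.l 0) (.l 0))))) [(3573412790272, 274877906944), (80933289984, 18119393280), (4072669184, 4072669184)] rfl (by decide +kernel)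
end

mutual
theorem I0RT_5 : CovD 1 [pRT H BI0] [(3573412790272, 274877906944), (80933289984, 18119393280), (12218007552, 4072669184)] :=
  cov_of (fRT H BI0) (.n 1 (.n 2 (.n 2 (.n 1 (.n 2 (.l 0) (.l 0)) (.n 1 (.l 0) (.l 0))) (.n 1 (.n 2 (.l 0) (.l 0)) (.n 1 (.l 0) (.l 0)))) (.n 2 (.n 1 (.n 2 (.l 0) (.l 0)) (.n 1 (.l 0) (.l 0))) (.n 1 (.n 2 (.l 0) (.l 0)) (.n 1 (.l 0) (.l 0))))) (.n 2 (.n 2 (.n 1 (.l 0) (.l 0)) (.n 1 (.l 0) (.l 0))) (.n 2 (.n 1 (.l 0) (.l 0)) (.n 1 (.l 0) (.l 0))))) [(3573412790272, 274877906944), (80933289984, 18119393280), (12218007552, 4072669184)] rfl (by decide +kernel)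
theorem I0RT_7 : CovD 1 [pRT H BI0] [(3573412790272, 274877906944), (80933289984, 18119393280), (20363345920, 4072669184)] :=
  cov_of (fRT H BI0) (.n 1 (.n 2 (.n 2 (.n 1 (.n 2 (.l 0) (.l 0)) (.n 1 (.l 0) (.l 0))) (.n 1 (.n 2 (.l 0) (.l 0)) (.n 1 (.l 0) (.l 0)))) (.n 2 (.n 1 (.n 2 (.l 0) (.l 0)) (.n 1 (.l 0) (.l 0))) (.n 1 (.n 2 (.l 0) (.l 0)) (.n 1 (.l 0) (.l 0))))) (.n 2 (.n 2 (.n 1 (.l 0) (.l 0)) (.n 1 (.l 0) (.l 0))) (.n 2 (.n 1 (.l 0) (.l 0)) (.n 1 (.l 0) (.l 0))))) [(3573412790272, 274877906944), (80933289984, 18119393280), (20363345920, 4072669184)] rfl (by decide +kernel)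
end

mutual
theorem I0RT_8 : CovD 1 [pRT H BI0] [(3573412790272, 274877906944), (80933289984, 18119393280), (28508684288, 4072669184)] :=
  cov_of (fRT H BI0) (.n 1 (.n 2 (.n 1 (.n 2 (.n 2 (.l 0) (.l 0)) (.n 2 (.l 0) (.l 0))) (.n 2 (.n 1 (.l 0) (.l 0)) (.n 1 (.l 0) (.l 0)))) (.n 2 (.n 1 (.n 2 (.l 0) (.l 0)) (.n 1 (.l 0) (.l 0))) (.n 1 (.n 2 (.l 0) (.l 0)) (.n 1 (.l 0) (.l 0))))) (.n 2 (.n 2 (.n 1 (.l 0) (.l 0)) (.n 1 (.l 0) (.l 0))) (.n 2 (.n 1 (.l 0) (.l 0)) (.n 1 (.l 0) (.l 0))))) [(3573412790272, 274877906944), (80933289984, 18119393280), (28508684288, 4072669184)] rfl (by decide +kernel)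
theorem I0RT_11 : CovD 1 [pRT H BI0] [(3573412790272, 274877906944), (80933289984, 18119393280), (36654022656, 4072669184)] :=
  cov_of (fRT H BI0) (.n 1 (.n 2 (.n 2 (.n 1 (.n 2 (.l 0) (.l 0)) (.n 0 (.l 0) (.l 0))) (.n 1 (.n 2 (.l 0) (.l 0)) (.n 0 (.l 0) (.l 0)))) (.n 2 (.n 1 (.n 2 (.l 0) (.l 0)) (.n 0 (.l 0) (.l 0))) (.n 1 (.n 2 (.l 0) (.l 0)) (.l 0)))) (.n 2 (.n 2 (.n 1 (.l 0) (.l 0)) (.n 1 (.l 0) (.l 0))) (.n 2 (.n 1 (.l 0) (.l 0)) (.n 1 (.l 0) (.l 0))))) [(3573412790272, 274877906944), (80933289984, 18119393280), (36654022656, 4072669184)] rfl (by decide +kernel)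
end

mutual
theorem I0RT_12 : CovD 1 [pRT H BI0] [(3573412790272, 274877906944), (80933289984, 18119393280), (44799361024, 4072669184)] :=
  cov_of (fRT H BI0) (.n 2 (.n 1 (.n 2 (.n 1 (.n 1 (.l 0) (.l 0)) (.l 0)) (.n 1 (.n 1 (.l 0) (.l 0)) (.l 0))) (.n 2 (.n 1 (.l 0) (.l 0)) (.n 1 (.l 0) (.l 0)))) (.n 1 (.n 2 (.n 1 (.n 1 (.l 0) (.l 0)) (.l 0)) (.n 1 (.n 1 (.l 0) (.l 0)) (.l 0))) (.n 2 (.n 1 (.l 0) (.l 0)) (.n 1 (.l 0) (.l 0))))) [(3573412790272, 274877906944), (80933289984, 18119393280), (44799361024, 4072669184)] rfl (by decide +kernel)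
theorem I0RT_14 : CovD 1 [pRT H BI0] [(3573412790272, 274877906944), (80933289984, 18119393280), (52944699392, 4072669184)] :=
  cov_of (fRT H BI0) (.n 2 (.n 1 (.n 2 (.n 1 (.n 0 (.l 0) (.l 0)) (.l 0)) (.n 2 (.l 0) (.l 0))) (.n 2 (.n 1 (.l 0) (.l 0)) (.n 0 (.l 0) (.l 0)))) (.n 1 (.n 2 (.n 1 (.l 0) (.l 0)) (.n 1 (.l 0) (.l 0))) (.n 2 (.n 0 (.l 0) (.l 0)) (.n 0 (.l 0) (.l 0))))) [(3573412790272, 274877906944), (80933289984, 18119393280), (52944699392, 4072669184)] rfl (by decide +kernel)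
end

mutual
theorem I0RT_15 : CovD 1 [pRT H BI0] [(3573412790272, 274877906944), (80933289984, 18119393280), (61090037760, 4072669184)] :=
  cov_of (fRT H BI0) (.n 2 (.n 1 (.n 2 (.n 1 (.l 0) (.l 0)) (.n 1 (.l 0) (.l 0))) (.n 2 (.n 0 (.l 0) (.l 0)) (.n 0 (.l 0) (.l 0)))) (.n 1 (.n 2 (.n 1 (.l 0) (.l 0)) (.n 1 (.l 0) (.l 0))) (.n 2 (.l 0) (.l 0)))) [(3573412790272, 274877906944), (80933289984, 18119393280), (61090037760, 4072669184)] rfl (by decide +kernel)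
theorem I0RT_18 : CovD 1 [pRT H BI0] [(3573412790272, 274877906944), (80933289984, 18119393280), (73308045312, 8145338368)] :=
  cov_of (fRT H BI0) (.n 2 (.n 2 (.n 1 (.n 2 (.n 1 (.l 0) (.l 0)) (.n 1 (.l 0) (.l 0))) (.n 2 (.l 0) (.l 0))) (.n 1 (.n 2 (.n 0 (.l 0) (.l 0)) (.n 0 (.l 0) (.l 0))) (.n 2 (.l 0) (.l 0)))) (.n 2 (.n 1 (.n 2 (.n 0 (.l 0) (.l 0)) (.l 0)) (.n 2 (.l 0) (.l 0))) (.n 1 (.n 2 (.l 0) (.l 0)) (.n 2 (.l 0) (.l 0))))) [(3573412790272, 274877906944), (80933289984, 18119393280), (73308045312, 8145338368)] rfl (by decide +kernel)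
end

mutual
theorem I0RT_19 : CovD 1 [pRT H BI0] [(3573412790272, 274877906944), (80933289984, 18119393280), (89598722048, 8145338368)] :=
  cov_of (fRT H BI0) (.n 2 (.n 1 (.n 2 (.n 2 (.l 0) (.l 0)) (.n 2 (.l 0) (.l 0))) (.n 2 (.n 1 (.l 0) (.l 0)) (.n 1 (.l 0) (.l 0)))) (.n 2 (.n 1 (.n 2 (.l 0) (.l 0)) (.n 1 (.l 0) (.l 0))) (.n 1 (.n 2 (.l 0) (.l 0)) (.n 0 (.l 0) (.l 0))))) [(3573412790272, 274877906944), (80933289984, 18119393280), (89598722048, 8145338368)] rfl (by decide +kernel)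
theorem I0RT_20 : CovD 1 [pRT H BI0] [(3573412790272, 274877906944), (80933289984, 18119393280), (114034737152, 16290676736)] :=
  cov_of (fRT H BI0) (.n 2 (.n 2 (.n 2 (.n 1 (.n 1 (.l 0) (.l 0)) (.n 0 (.l 0) (.l 0))) (.n 1 (.n 1 (.l 0) (.l 0)) (.l 0))) (.n 2 (.n 1 (.n 0 (.l 0) (.l 0)) (.l 0)) (.n 1 (.l 0) (.l 0)))) (.n 2 (.n 2 (.n 1 (.l 0) (.l 0)) (.n 1 (.l 0) (.l 0))) (.n 2 (.n 1 (.l 0) (.l 0)) (.n 1 (.l 0) (.l 0))))) [(3573412790272, 274877906944), (80933289984, 18119393280), (114034737152, 16290676736)] rfl (by decide +kernel)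
end

mutual
theorem I0RT_23 : CovD 1 [pRT H BI0] [(3573412790272, 274877906944), (80933289984, 18119393280), (146616090624, 16290676736)] :=
  cov_of (fRT H BI0) (.n 2 (.n 2 (.n 2 (.n 1 (.l 0) (.l 0)) (.n 0 (.l 0) (.l 0))) (.n 2 (.n 0 (.l 0) (.l 0)) (.n 0 (.l 0) (.l 0)))) (.n 2 (.n 2 (.n 0 (.l 0) (.l 0)) (.n 1 (.l 0) (.l 0))) (.n 2 (.n 1 (.l 0) (.l 0)) (.n 1 (.l 0) (.l 0))))) [(3573412790272, 274877906944), (80933289984, 18119393280), (146616090624, 16290676736)] rfl (by decide +kernel)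
theorem I0RT_24 : CovD 1 [pRT H BI0] [(3573412790272, 274877906944), (80933289984, 18119393280), (179197444096, 16290676736)] :=
  cov_of (fRT H BI0) (.n 2 (.n 2 (.n 1 (.n 0 (.l 0) (.l 0)) (.n 0 (.l 0) (.l 0))) (.n 1 (.n 0 (.l 0) (.l 0)) (.n 0 (.l 0) (.l 0)))) (.n 2 (.n 0 (.n 0 (.l 0) (.l 0)) (.n 1 (.l 0) (.l 0))) (.n 0 (.n 0 (.l 0) (.l 0)) (.n 1 (.l 0) (.l 0))))) [(3573412790272, 274877906944), (80933289984, 18119393280), (179197444096, 16290676736)] rfl (by decide +kernel)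
theorem I0RT_26 : CovD 1 [pRT H BI0] [(3573412790272, 274877906944), (80933289984, 18119393280), (211778797568, 16290676736)] :=
  cov_of (fRT H BI0) (.n 2 (.n 2 (.n 0 (.n 0 (.l 0) (.l 0)) (.n 1 (.l 0) (.l 0))) (.n 0 (.n 0 (.l 0) (.l 0)) (.n 1 (.l 0) (.l 0)))) (.n 2 (.n 0 (.n 0 (.l 0) (.l 0)) (.n 1 (.l 0) (.l 0))) (.n 0 (.n 0 (.l 0) (.l 0)) (.n 1 (.l 0) (.l 0))))) [(3573412790272, 274877906944), (80933289984, 18119393280), (211778797568, 16290676736)] rfl (by decide +kernel)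
end

end Pool.Agent.helper82.WC.S4K1
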