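import Pool.Agent.helper82.WH.Chks

/-!
Generated: constants of a cell.
-/

namespace Pool.Agent.helper82.WC.S4K1

open Pool.Agent.helper82.WH
open Pool.Agent.helper31.IC (CovD covD_split TD)

def H : HC := ⟨⟨3573412790272, 0⟩, ⟨5957353472, 0⟩, ⟨0, 1188835033088⟩, ⟨0, 1061422694400⟩, ⟨1894058098688, 0⟩, ⟨0, 4628243480576⟩, ⟨922536771584, 0⟩, ⟨1091436281856, 0⟩, ⟨6421746417664, 0⟩, ⟨0, 24466955108352⟩, ⟨553453617152, 0⟩, ⟨0, 33043447808⟩, ⟨702861279232, 0⟩, ⟨1283295019008, 0⟩, ⟨875790663680, 0⟩, ⟨0, 272989224960⟩, ⟨0, 876363776000⟩, ⟨0, 1513377890304⟩, ⟨225898725376, 0⟩, ⟨0, 2809217679360⟩, ⟨5679837151232, 0⟩, ⟨999113555968, 0⟩, ⟨55926063104, 0⟩, ⟨461772685312, 0⟩, ⟨1781185708032, 0⟩, ⟨0, 83680776749056⟩, ⟨0, 0⟩⟩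

def BI0 : BC := ⟨⟨0, 0, 1099511627776, 0⟩, ⟨0, 0⟩, ⟨0, 0⟩, 109545455616, 40808480768, 76324077568, 858425131008, 174546354176, 15049162752, 1246832361472, 1308371189760, ⟨16956530884608, 0⟩, ⟨0, 6807523164160⟩, ⟨983392452608, 0⟩, ⟨0, 0⟩, ⟨0, 0⟩⟩

def BI1 : BC := ⟨⟨0, 0, 1099511627776, 0⟩, ⟨0, 0⟩, ⟨0, 0⟩, 81172889600, 33852358656, 164883726336, 780586319872, 174546354176, 36020682752, 1874568675328, 1217472233472, ⟨5802500816896, 0⟩, ⟨0, 4217657884672⟩, ⟨1010642714624, 0⟩, ⟨0, 0⟩, ⟨0, 0⟩⟩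

def BR0 : BC := ⟨⟨0, 0, 0, 0⟩, ⟨137438953472, 0⟩, ⟨1099511627776, 0⟩, 166695403520, 62432280576, 126635999232, 737863270400, 174546354176, 1929379840, 603694563328, 1309663035392, ⟨0, 0⟩, ⟨0, 0⟩, ⟨925418586112, 0⟩, ⟨0, 0⟩, ⟨0, 0⟩⟩

def BP : BC := ⟨⟨0, 0, 0, 0⟩, ⟨137438953472, 0⟩, ⟨1099511627776, 0⟩, 140917014528, 55335911424, 107673550848, 679905984512, 115447627776, 1895825408, 600221679616, 1308203417600, ⟨0, 0⟩, ⟨0, 0⟩, ⟨477609525248, 0⟩, ⟨0, 0⟩, ⟨1099511627776, 0⟩⟩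

def BM : BC := ⟨⟨0, 0, 0, 0⟩, ⟨137438953472, 0⟩, ⟨1099511627776, 0⟩, 134052446208, 53754462208, 102771982336, 694496919552, 115447627776, 1929379840, 603694563328, 1309663035392, ⟨0, 0⟩, ⟨0, 0⟩, ⟨483410771968, 0⟩, ⟨0, 0⟩, ⟨0, 1099511627776⟩⟩

def BT : BC := ⟨⟨0, 0, 1099511627776, 0⟩, ⟨0, 0⟩, ⟨0, 0⟩, 98279292928, 38414057472, 144526475264, 779329470464, 174546354176, 36020682752, 1874568675328, 1037184270336, ⟨3521873182720, 0⟩, ⟨0, 3435973836800⟩, ⟨993790066688, 0⟩, ⟨1099511627776, 0⟩, ⟨0, 0⟩⟩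

end Pool.Agent.helper82.WC.S4K1
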