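import Pool.Agent.helper82.WC.S4K2C0
import Pool.Agent.helper82.WC.S4K2C1

/-!
Generated certificates, assembled.
-/

namespace Pool.Agent.helper82.WC.S4K2

open Pool.Agent.helper82.WH
open Pool.Agent.helper31.IC (CovD covD_split TD)

theorem I0AD_1 : CovD 0 [pAD H BI0] [(3573412790272, 274877906944), (120930172928, 21877489664), (35064381440, 35064381440)] :=
  covD_split 2 (by decide +kernel) I0AD_2 I0AD_3
theorem I0AD_4 : CovD 0 [pAD H BI0] [(3573412790272, 274877906944), (120930172928, 21877489664), (105193144320, 35064381440)] :=
  covD_split 2 (by decide +kernel) I0AD_5 I0AD_6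
theorem I0AD_0 : CovD 0 [pAD H BI0] [(3573412790272, 274877906944), (120930172928, 21877489664), (70128762880, 70128762880)] :=
  covD_split 2 (by decide +kernel) I0AD_1 I0AD_4
theorem I0AD_8 : CovD 0 [pAD H BI0] [(3573412790272, 274877906944), (120930172928, 21877489664), (175321907200, 35064381440)] :=
  covD_split 2 (by decide +kernel) I0AD_9 I0AD_10
theorem I0AD_11 : CovD 0 [pAD H BI0] [(3573412790272, 274877906944), (120930172928, 21877489664), (245450670080, 35064381440)] :=
  covD_split 2 (by decide +kernel) I0AD_12 I0AD_13
theorem I0AD_7 : CovD 0 [pAD H BI0] [(3573412790272, 274877906944), (120930172928, 21877489664), (210386288640, 70128762880)] :=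
  covD_split 2 (by decide +kernel) I0AD_8 I0AD_11
theorem I0AD : CovD 0 [pAD H BI0] [(3573412790272, 274877906944), (120930172928, 21877489664), (140257525760, 140257525760)] :=
  covD_split 2 (by decide +kernel) I0AD_0 I0AD_7
theorem I0RT_3 : CovD 1 [pRT H BI0] [(3573412790272, 274877906944), (120930172928, 21877489664), (8766095360, 8766095360)] :=
  covD_split 2 (by decide +kernel) I0RT_4 I0RT_5
theorem I0RT_6 : CovD 1 [pRT H BI0] [(3573412790272, 274877906944), (120930172928, 21877489664), (26298286080, 8766095360)] :=
  covD_split 2 (by decide +kernel) I0RT_7 I0RT_8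
theorem I0RT_2 : CovD 1 [pRT H BI0] [(3573412790272, 274877906944), (120930172928, 21877489664), (17532190720, 17532190720)] :=
  covD_split 2 (by decide +kernel) I0RT_3 I0RT_6
theorem I0RT_10 : CovD 1 [pRT H BI0] [(3573412790272, 274877906944), (120930172928, 21877489664), (43830476800, 8766095360)] :=
  covD_split 2 (by decide +kernel) I0RT_11 I0RT_12
theorem I0RT_13 : CovD 1 [pRT H BI0] [(3573412790272, 274877906944), (120930172928, 21877489664), (61362667520, 8766095360)] :=
  covD_split 2 (by decide +kernel) I0RT_14 I0RT_15
theorem I0RT_9 : CovD 1 [pRT H BI0] [(3573412790272, 274877906944), (120930172928, 21877489664), (52596572160, 17532190720)] :=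
  covD_split 2 (by decide +kernel) I0RT_10 I0RT_13
theorem I0RT_1 : CovD 1 [pRT H BI0] [(3573412790272, 274877906944), (120930172928, 21877489664), (35064381440, 35064381440)] :=
  covD_split 2 (by decide +kernel) I0RT_2 I0RT_9
theorem I0RT_17 : CovD 1 [pRT H BI0] [(3573412790272, 274877906944), (120930172928, 21877489664), (87660953600, 17532190720)] :=
  covD_split 2 (by decide +kernel) I0RT_18 I0RT_19
theorem I0RT_16 : CovD 1 [pRT H BI0] [(3573412790272, 274877906944), (120930172928, 21877489664), (105193144320, 35064381440)] :=
  covD_split 2 (by decide +kernel) I0RT_17 I0RT_20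
theorem I0RT_0 : CovD 1 [pRT H BI0] [(3573412790272, 274877906944), (120930172928, 21877489664), (70128762880, 70128762880)] :=
  covD_split 2 (by decide +kernel) I0RT_1 I0RT_16
theorem I0RT_22 : CovD 1 [pRT H BI0] [(3573412790272, 274877906944), (120930172928, 21877489664), (175321907200, 35064381440)] :=
  covD_split 2 (by decide +kernel) I0RT_23 I0RT_24
theorem I0RT_25 : CovD 1 [pRT H BI0] [(3573412790272, 274877906944), (120930172928, 21877489664), (245450670080, 35064381440)] :=
  covD_split 2 (by decide +kernel) I0RT_26 I0RT_27
theorem I0RT_21 : CovD 1 [pRT H BI0] [(3573412790272, 274877906944), (120930172928, 21877489664), (210386288640, 70128762880)] :=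
  covD_split 2 (by decide +kernel) I0RT_22 I0RT_25
theorem I0RT : CovD 1 [pRT H BI0] [(3573412790272, 274877906944), (120930172928, 21877489664), (140257525760, 140257525760)] :=
  covD_split 2 (by decide +kernel) I0RT_0 I0RT_21
theorem I1AD_0 : CovD 0 [pAD H BI1] [(3573412790272, 274877906944), (120930172928, 21877489664), (330645372928, 50130321408)] :=
  covD_split 2 (by decide +kernel) I1AD_1 I1AD_2
theorem I1AD_3 : CovD 0 [pAD H BI1] [(3573412790272, 274877906944), (120930172928, 21877489664), (430906015744, 50130321408)] :=
  covD_split 2 (by decide +kernel) I1AD_4 I1AD_5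
theorem I1AD : CovD 0 [pAD H BI1] [(3573412790272, 274877906944), (120930172928, 21877489664), (380775694336, 100260642816)] :=
  covD_split 2 (by decide +kernel) I1AD_0 I1AD_3
theorem I1RT_1 : CovD 1 [pRT H BI1] [(3573412790272, 274877906944), (120930172928, 21877489664), (305580212224, 25065160704)] :=
  covD_split 2 (by decide +kernel) I1RT_2 I1RT_3
theorem I1RT_0 : CovD 1 [pRT H BI1] [(3573412790272, 274877906944), (120930172928, 21877489664), (330645372928, 50130321408)] :=
  covD_split 2 (by decide +kernel) I1RT_1 I1RT_4
theorem I1RT : CovD 1 [pRT H BI1] [(3573412790272, 274877906944), (120930172928, 21877489664), (380775694336, 100260642816)] :=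
  covD_split 2 (by decide +kernel) I1RT_0 I1RT_5

end Pool.Agent.helper82.WC.S4K2
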