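import Pool.Agent.helper82.WC.S4K2P

/-!
Generated certificates (in pairs, so that they are checked one after the other).
-/

namespace Pool.Agent.helper82.WC.S4K2

open Pool.Agent.helper82.WH
open Pool.Agent.helper31.IC (CovD covD_split TD)

mutual
theorem I0AD_2 : CovD 0 [pAD H BI0] [(3573412790272, 274877906944), (120930172928, 21877489664), (17532190720, 17532190720)] :=
  cov_of (fAD H BI0) (.n 1 (.n 0 (.n 2 (.n 0 (.n 0 (.l 0) (.l 0)) (.n 0 (.l 0) (.l 0))) (.n 0 (.n 0 (.l 0) (.l 0)) (.n 0 (.l 0) (.l 0)))) (.n 2 (.n 0 (.n 0 (.l 0) (.l 0)) (.n 0 (.l 0) (.l 0))) (.n 0 (.n 0 (.l 0) (.l 0)) (.n 0 (.l 0) (.l 0))))) (.n 0 (.n 2 (.n 0 (.l 0) (.l 0)) (.n 0 (.l 0) (.l 0))) (.n 2 (.n 0 (.l 0) (.l 0)) (.n 0 (.l 0) (.l 0))))) [(3573412790272, 274877906944), (120930172928, 21877489664), (17532190720, 17532190720)] rfl (by decide +kernel)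
theorem I0AD_3 : CovD 0 [pAD H BI0] [(3573412790272, 274877906944), (120930172928, 21877489664), (52596572160, 17532190720)] :=
  cov_of (fAD H BI0) (.n 2 (.n 0 (.n 1 (.n 0 (.n 0 (.l 0) (.l 0)) (.n 0 (.l 0) (.l 0))) (.n 0 (.l 0) (.l 0))) (.n 1 (.n 0 (.n 0 (.l 0) (.l 0)) (.n 0 (.l 0) (.l 0))) (.n 0 (.l 0) (.l 0)))) (.n 0 (.n 1 (.n 0 (.n 0 (.l 0) (.l 0)) (.n 0 (.l 0) (.l 0))) (.n 0 (.l 0) (.l 0))) (.n 1 (.n 0 (.n 0 (.l 0) (.l 0)) (.n 0 (.l 0) (.l 0))) (.n 0 (.l 0) (.l 0))))) [(3573412790272, 274877906944), (120930172928, 21877489664), (52596572160, 17532190720)] rfl (by decide +kernel)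
end

mutual
theorem I0AD_5 : CovD 0 [pAD H BI0] [(3573412790272, 274877906944), (120930172928, 21877489664), (87660953600, 17532190720)] :=
  cov_of (fAD H BI0) (.n 0 (.n 2 (.n 1 (.n 0 (.n 0 (.l 0) (.l 0)) (.n 0 (.l 0) (.l 0))) (.n 0 (.l 0) (.l 0))) (.n 1 (.n 0 (.l 0) (.n 0 (.l 0) (.l 0))) (.n 0 (.l 0) (.l 0)))) (.n 2 (.n 1 (.n 0 (.n 0 (.l 0) (.l 0)) (.n 0 (.l 0) (.l 0))) (.n 0 (.l 0) (.l 0))) (.n 1 (.n 0 (.n 0 (.l 0) (.l 0)) (.n 0 (.l 0) (.l 0))) (.n 0 (.l 0) (.l 0))))) [(3573412790272, 274877906944), (120930172928, 21877489664), (87660953600, 17532190720)] rfl (by decide +kernel)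
theorem I0AD_6 : CovD 0 [pAD H BI0] [(3573412790272, 274877906944), (120930172928, 21877489664), (122725335040, 17532190720)] :=
  cov_of (fAD H BI0) (.n 0 (.n 2 (.n 1 (.n 0 (.l 0) (.l 0)) (.n 0 (.l 0) (.l 0))) (.n 1 (.n 0 (.l 0) (.l 0)) (.n 0 (.l 0) (.l 0)))) (.n 2 (.n 1 (.n 0 (.l 0) (.l 0)) (.n 0 (.l 0) (.l 0))) (.n 1 (.n 0 (.l 0) (.l 0)) (.n 0 (.l 0) (.l 0))))) [(3573412790272, 274877906944), (120930172928, 21877489664), (122725335040, 17532190720)] rfl (by decide +kernel)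
end

mutual
theorem I0AD_9 : CovD 0 [pAD H BI0] [(3573412790272, 274877906944), (120930172928, 21877489664), (157789716480, 17532190720)] :=
  cov_of (fAD H BI0) (.n 0 (.n 2 (.n 1 (.n 0 (.l 0) (.l 0)) (.n 0 (.l 0) (.l 0))) (.n 1 (.n 0 (.l 0) (.l 0)) (.n 0 (.l 0) (.l 0)))) (.n 2 (.n 1 (.n 0 (.l 0) (.l 0)) (.n 0 (.l 0) (.l 0))) (.n 1 (.n 0 (.l 0) (.l 0)) (.n 0 (.l 0) (.l 0))))) [(3573412790272, 274877906944), (120930172928, 21877489664), (157789716480, 17532190720)] rfl (by decide +kernel)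
theorem I0AD_10 : CovD 0 [pAD H BI0] [(3573412790272, 274877906944), (120930172928, 21877489664), (192854097920, 17532190720)] :=
  cov_of (fAD H BI0) (.n 0 (.n 2 (.n 1 (.n 0 (.l 0) (.l 0)) (.n 0 (.l 0) (.l 0))) (.n 1 (.n 0 (.l 0) (.l 0)) (.n 0 (.l 0) (.l 0)))) (.n 2 (.n 1 (.n 0 (.l 0) (.l 0)) (.n 0 (.l 0) (.l 0))) (.n 1 (.n 0 (.l 0) (.l 0)) (.n 0 (.l 0) (.l 0))))) [(3573412790272, 274877906944), (120930172928, 21877489664), (192854097920, 17532190720)] rfl (by decide +kernel)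
end

mutual
theorem I0AD_12 : CovD 0 [pAD H BI0] [(3573412790272, 274877906944), (120930172928, 21877489664), (227918479360, 17532190720)] :=
  cov_of (fAD H BI0) (.n 0 (.n 2 (.n 1 (.n 0 (.l 0) (.l 0)) (.n 0 (.l 0) (.l 0))) (.n 1 (.n 0 (.l 0) (.l 0)) (.n 0 (.l 0) (.l 0)))) (.n 2 (.n 1 (.n 0 (.l 0) (.l 0)) (.n 0 (.l 0) (.l 0))) (.n 1 (.n 0 (.l 0) (.l 0)) (.n 0 (.l 0) (.l 0))))) [(3573412790272, 274877906944), (120930172928, 21877489664), (227918479360, 17532190720)] rfl (by decide +kernel)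
theorem I0AD_13 : CovD 0 [pAD H BI0] [(3573412790272, 274877906944), (120930172928, 21877489664), (262982860800, 17532190720)] :=
  cov_of (fAD H BI0) (.n 0 (.n 2 (.n 0 (.l 0) (.n 0 (.l 0) (.l 0))) (.n 0 (.l 0) (.l 0))) (.n 2 (.n 1 (.n 0 (.l 0) (.l 0)) (.l 0)) (.n 0 (.l 0) (.l 0)))) [(3573412790272, 274877906944), (120930172928, 21877489664), (262982860800, 17532190720)] rfl (by decide +kernel)
end

mutual
theorem I0G : CovD 1 [pG H BI0] [(3573412790272, 274877906944), (120930172928, 21877489664), (140257525760, 140257525760)] :=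
  cov_of (fG H BI0) (.n 2 (.n 2 (.l 0) (.l 0)) (.n 2 (.n 2 (.l 0) (.l 0)) (.n 2 (.n 0 (.l 0) (.l 0)) (.n 2 (.n 0 (.l 0) (.l 0)) (.n 0 (.l 0) (.n 1 (.l 0) (.l 0))))))) [(3573412790272, 274877906944), (120930172928, 21877489664), (140257525760, 140257525760)] rfl (by decide +kernel)
theorem I0RT_4 : CovD 1 [pRT H BI0] [(3573412790272, 274877906944), (120930172928, 21877489664), (4383047680, 4383047680)] :=
  cov_of (fRT H BI0) (.n 1 (.n 2 (.n 2 (.n 1 (.l 0) (.l 0)) (.n 1 (.l 0) (.l 0))) (.n 2 (.n 1 (.l 0) (.l 0)) (.n 1 (.l 0) (.l 0)))) (.n 2 (.n 2 (.l 0) (.l 0)) (.n 1 (.n 0 (.l 0) (.l 0)) (.l 0)))) [(3573412790272, 274877906944), (120930172928, 21877489664), (4383047680, 4383047680)] rfl (by decide +kernel)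
end

mutual
theorem I0RT_5 : CovD 1 [pRT H BI0] [(3573412790272, 274877906944), (120930172928, 21877489664), (13149143040, 4383047680)] :=
  cov_of (fRT H BI0) (.n 1 (.n 2 (.n 2 (.n 1 (.l 0) (.l 0)) (.n 1 (.l 0) (.l 0))) (.n 2 (.n 1 (.l 0) (.l 0)) (.n 1 (.l 0) (.l 0)))) (.n 2 (.n 1 (.n 0 (.l 0) (.l 0)) (.l 0)) (.n 1 (.n 1 (.l 0) (.l 0)) (.l 0)))) [(3573412790272, 274877906944), (120930172928, 21877489664), (13149143040, 4383047680)] rfl (by decide +kernel)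
theorem I0RT_7 : CovD 1 [pRT H BI0] [(3573412790272, 274877906944), (120930172928, 21877489664), (21915238400, 4383047680)] :=
  cov_of (fRT H BI0) (.n 1 (.n 2 (.n 2 (.n 1 (.l 0) (.l 0)) (.n 1 (.l 0) (.l 0))) (.n 2 (.n 1 (.l 0) (.l 0)) (.n 1 (.l 0) (.l 0)))) (.n 2 (.n 1 (.n 1 (.l 0) (.l 0)) (.l 0)) (.n 1 (.n 1 (.l 0) (.l 0)) (.l 0)))) [(3573412790272, 274877906944), (120930172928, 21877489664), (21915238400, 4383047680)] rfl (by decide +kernel)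
end

mutual
theorem I0RT_8 : CovD 1 [pRT H BI0] [(3573412790272, 274877906944), (120930172928, 21877489664), (30681333760, 4383047680)] :=
  cov_of (fRT H BI0) (.n 1 (.n 2 (.n 2 (.n 1 (.l 0) (.l 0)) (.n 1 (.l 0) (.l 0))) (.n 2 (.n 1 (.l 0) (.l 0)) (.n 1 (.l 0) (.l 0)))) (.n 2 (.n 1 (.n 1 (.l 0) (.l 0)) (.l 0)) (.n 1 (.n 1 (.l 0) (.l 0)) (.l 0)))) [(3573412790272, 274877906944), (120930172928, 21877489664), (30681333760, 4383047680)] rfl (by decide +kernel)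
theorem I0RT_11 : CovD 1 [pRT H BI0] [(3573412790272, 274877906944), (120930172928, 21877489664), (39447429120, 4383047680)] :=
  cov_of (fRT H BI0) (.n 1 (.n 2 (.n 2 (.n 1 (.l 0) (.l 0)) (.n 1 (.l 0) (.l 0))) (.n 2 (.n 1 (.l 0) (.l 0)) (.n 1 (.l 0) (.l 0)))) (.n 2 (.n 1 (.n 1 (.l 0) (.l 0)) (.l 0)) (.n 1 (.n 0 (.l 0) (.l 0)) (.l 0)))) [(3573412790272, 274877906944), (120930172928, 21877489664), (39447429120, 4383047680)] rfl (by decide +kernel)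
end

mutual
theorem I0RT_12 : CovD 1 [pRT H BI0] [(3573412790272, 274877906944), (120930172928, 21877489664), (48213524480, 4383047680)] :=
  cov_of (fRT H BI0) (.n 1 (.n 2 (.n 2 (.n 1 (.l 0) (.l 0)) (.n 1 (.l 0) (.l 0))) (.n 2 (.n 1 (.l 0) (.l 0)) (.n 1 (.l 0) (.l 0)))) (.n 2 (.n 1 (.n 0 (.l 0) (.l 0)) (.l 0)) (.n 1 (.n 0 (.l 0) (.l 0)) (.l 0)))) [(3573412790272, 274877906944), (120930172928, 21877489664), (48213524480, 4383047680)] rfl (by decide +kernel)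
theorem I0RT_14 : CovD 1 [pRT H BI0] [(3573412790272, 274877906944), (120930172928, 21877489664), (56979619840, 4383047680)] :=
  cov_of (fRT H BI0) (.n 1 (.n 2 (.n 2 (.n 1 (.l 0) (.l 0)) (.n 1 (.l 0) (.l 0))) (.n 2 (.n 1 (.l 0) (.l 0)) (.n 1 (.l 0) (.l 0)))) (.n 2 (.n 2 (.n 0 (.l 0) (.l 0)) (.l 0)) (.n 2 (.l 0) (.l 0)))) [(3573412790272, 274877906944), (120930172928, 21877489664), (56979619840, 4383047680)] rfl (by decide +kernel)
end

mutual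
theorem I0RT_15 : CovD 1 [pRT H BI0] [(3573412790272, 274877906944), (120930172928, 21877489664), (65745715200, 4383047680)] :=
  cov_of (fRT H BI0) (.n 1 (.n 2 (.n 2 (.n 1 (.l 0) (.l 0)) (.n 1 (.l 0) (.l 0))) (.n 2 (.n 1 (.l 0) (.l 0)) (.n 1 (.l 0) (.l 0)))) (.n 2 (.n 1 (.l 0) (.l 0)) (.n 1 (.l 0) (.l 0)))) [(3573412790272, 274877906944), (120930172928, 21877489664), (65745715200, 4383047680)] rfl (by decide +kernel)
theorem I0RT_18 : CovD 1 [pRT H BI0] [(3573412790272, 274877906944), (120930172928, 21877489664), (78894858240, 8766095360)] :=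
  cov_of (fRT H BI0) (.n 2 (.n 1 (.n 2 (.n 2 (.n 1 (.l 0) (.l 0)) (.n 1 (.l 0) (.l 0))) (.n 2 (.n 0 (.l 0) (.l 0)) (.n 0 (.l 0) (.l 0)))) (.n 2 (.n 1 (.l 0) (.l 0)) (.n 1 (.l 0) (.l 0)))) (.n 1 (.n 2 (.n 2 (.n 0 (.l 0) (.l 0)) (.n 0 (.l 0) (.l 0))) (.n 1 (.n 1 (.l 0) (.l 0)) (.l 0))) (.n 2 (.n 1 (.l 0) (.l 0)) (.n 1 (.l 0) (.l 0))))) [(3573412790272, 274877906944), (120930172928, 21877489664), (78894858240, 8766095360)] rfl (by decide +kernel)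
end

mutual
theorem I0RT_19 : CovD 1 [pRT H BI0] [(3573412790272, 274877906944), (120930172928, 21877489664), (96427048960, 8766095360)] :=
  cov_of (fRT H BI0) (.n 2 (.n 1 (.n 2 (.n 2 (.n 0 (.l 0) (.l 0)) (.l 0)) (.n 2 (.l 0) (.l 0))) (.n 2 (.n 1 (.l 0) (.l 0)) (.n 1 (.l 0) (.l 0)))) (.n 1 (.n 2 (.n 1 (.l 0) (.l 0)) (.n 1 (.l 0) (.l 0))) (.n 2 (.n 0 (.l 0) (.l 0)) (.n 0 (.l 0) (.l 0))))) [(3573412790272, 274877906944), (120930172928, 21877489664), (96427048960, 8766095360)] rfl (by decide +kernel)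
theorem I0RT_20 : CovD 1 [pRT H BI0] [(3573412790272, 274877906944), (120930172928, 21877489664), (122725335040, 17532190720)] :=
  cov_of (fRT H BI0) (.n 2 (.n 2 (.n 1 (.n 2 (.n 1 (.l 0) (.l 0)) (.n 1 (.l 0) (.l 0))) (.n 2 (.n 0 (.l 0) (.l 0)) (.n 0 (.l 0) (.l 0)))) (.n 1 (.n 2 (.n 0 (.l 0) (.l 0)) (.n 0 (.l 0) (.l 0))) (.n 2 (.l 0) (.l 0)))) (.n 2 (.n 1 (.n 2 (.n 0 (.l 0) (.l 0)) (.l 0)) (.n 2 (.l 0) (.l 0))) (.n 1 (.n 2 (.l 0) (.l 0)) (.n 2 (.l 0) (.l 0))))) [(3573412790272, 274877906944), (120930172928, 21877489664), (122725335040, 17532190720)] rfl (by decide +kernel)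
end

mutual
theorem I0RT_23 : CovD 1 [pRT H BI0] [(3573412790272, 274877906944), (120930172928, 21877489664), (157789716480, 17532190720)] :=
  cov_of (fRT H BI0) (.n 2 (.n 2 (.n 1 (.n 2 (.l 0) (.l 0)) (.n 2 (.l 0) (.l 0))) (.n 1 (.n 2 (.l 0) (.l 0)) (.n 1 (.l 0) (.l 0)))) (.n 2 (.n 1 (.n 2 (.l 0) (.l 0)) (.n 0 (.l 0) (.l 0))) (.n 1 (.n 0 (.l 0) (.l 0)) (.n 0 (.l 0) (.l 0))))) [(3573412790272, 274877906944), (120930172928, 21877489664), (157789716480, 17532190720)] rfl (by decide +kernel)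
theorem I0RT_24 : CovD 1 [pRT H BI0] [(3573412790272, 274877906944), (120930172928, 21877489664), (192854097920, 17532190720)] :=
  cov_of (fRT H BI0) (.n 2 (.n 2 (.n 1 (.n 0 (.l 0) (.l 0)) (.n 0 (.l 0) (.l 0))) (.n 1 (.n 0 (.l 0) (.l 0)) (.n 0 (.l 0) (.l 0)))) (.n 2 (.n 1 (.n 0 (.l 0) (.l 0)) (.n 0 (.l 0) (.l 0))) (.n 1 (.n 0 (.l 0) (.l 0)) (.n 0 (.l 0) (.l 0))))) [(3573412790272, 274877906944), (120930172928, 21877489664), (192854097920, 17532190720)] rfl (by decide +kernel)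
end

mutual
theorem I0RT_26 : CovD 1 [pRT H BI0] [(3573412790272, 274877906944), (120930172928, 21877489664), (227918479360, 17532190720)] :=
  cov_of (fRT H BI0) (.n 2 (.n 2 (.n 1 (.n 0 (.l 0) (.l 0)) (.n 0 (.l 0) (.l 0))) (.n 0 (.n 0 (.l 0) (.l 0)) (.n 1 (.l 0) (.l 0)))) (.n 2 (.n 0 (.n 0 (.l 0) (.l 0)) (.n 1 (.l 0) (.l 0))) (.n 0 (.n 0 (.l 0) (.l 0)) (.n 1 (.l 0) (.l 0))))) [(3573412790272, 274877906944), (120930172928, 21877489664), (227918479360, 17532190720)] rfl (by decide +kernel)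
theorem I0RT_27 : CovD 1 [pRT H BI0] [(3573412790272, 274877906944), (120930172928, 21877489664), (262982860800, 17532190720)] :=
  cov_of (fRT H BI0) (.n 2 (.n 2 (.n 0 (.n 0 (.l 0) (.l 0)) (.n 1 (.l 0) (.l 0))) (.n 0 (.n 0 (.l 0) (.l 0)) (.n 1 (.l 0) (.l 0)))) (.n 2 (.n 0 (.l 0) (.n 0 (.l 0) (.l 0))) (.n 0 (.l 0) (.n 1 (.l 0) (.l 0))))) [(3573412790272, 274877906944), (120930172928, 21877489664), (262982860800, 17532190720)] rfl (by decide +kernel)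
end

mutual
theorem I1AD_1 : CovD 0 [pAD H BI1] [(3573412790272, 274877906944), (120930172928, 21877489664), (305580212224, 25065160704)] :=
  cov_of (fAD H BI1) (.n 0 (.n 2 (.n 0 (.n 0 (.l 0) (.l 0)) (.n 0 (.l 0) (.l 0))) (.n 0 (.n 0 (.l 0) (.l 0)) (.n 0 (.l 0) (.l 0)))) (.n 2 (.n 0 (.n 1 (.l 0) (.l 0)) (.n 1 (.l 0) (.l 0))) (.n 0 (.n 0 (.l 0) (.l 0)) (.n 0 (.l 0) (.l 0))))) [(3573412790272, 274877906944), (120930172928, 21877489664), (305580212224, 25065160704)] rfl (by decide +kernel)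
theorem I1AD_2 : CovD 0 [pAD H BI1] [(3573412790272, 274877906944), (120930172928, 21877489664), (355710533632, 25065160704)] :=
  cov_of (fAD H BI1) (.n 0 (.n 2 (.n 0 (.l 0) (.l 0)) (.n 0 (.l 0) (.l 0))) (.n 2 (.n 0 (.l 0) (.n 0 (.l 0) (.l 0))) (.n 0 (.l 0) (.l 0)))) [(3573412790272, 274877906944), (120930172928, 21877489664), (355710533632, 25065160704)] rfl (by decide +kernel)
end

mutual
theorem I1AD_4 : CovD 0 [pAD H BI1] [(3573412790272, 274877906944), (120930172928, 21877489664), (405840855040, 25065160704)] :=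
  cov_of (fAD H BI1) (.n 0 (.n 2 (.n 0 (.l 0) (.l 0)) (.n 0 (.n 0 (.l 0) (.l 0)) (.l 0))) (.n 2 (.n 0 (.l 0) (.l 0)) (.n 0 (.l 0) (.l 0)))) [(3573412790272, 274877906944), (120930172928, 21877489664), (405840855040, 25065160704)] rfl (by decide +kernel)
theorem I1AD_5 : CovD 0 [pAD H BI1] [(3573412790272, 274877906944), (120930172928, 21877489664), (455971176448, 25065160704)] :=
  cov_of (fAD H BI1) (.n 0 (.n 2 (.n 0 (.n 0 (.l 0) (.l 0)) (.n 0 (.l 0) (.l 0))) (.n 0 (.n 0 (.l 0) (.l 0)) (.n 0 (.l 0) (.l 0)))) (.n 2 (.n 0 (.n 0 (.l 0) (.l 0)) (.n 0 (.l 0) (.l 0))) (.n 0 (.n 0 (.l 0) (.l 0)) (.n 0 (.l 0) (.l 0))))) [(3573412790272, 274877906944), (120930172928, 21877489664), (455971176448, 25065160704)] rfl (by decide +kernel)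
end

mutual
theorem I1G : CovD 1 [pG H BI1] [(3573412790272, 274877906944), (120930172928, 21877489664), (380775694336, 100260642816)] :=
  cov_of (fG H BI1) (.n 2 (.n 2 (.n 2 (.l 0) (.n 0 (.l 0) (.l 0))) (.n 2 (.n 0 (.l 0) (.n 0 (.l 0) (.l 0))) (.n 0 (.l 0) (.n 0 (.l 0) (.l 0))))) (.n 2 (.n 2 (.n 0 (.l 0) (.n 0 (.l 0) (.l 0))) (.n 0 (.l 0) (.n 0 (.l 0) (.l 0)))) (.n 2 (.n 0 (.l 0) (.n 0 (.l 0) (.l 0))) (.n 0 (.l 0) (.n 0 (.l 0) (.l 0)))))) [(3573412790272, 274877906944), (120930172928, 21877489664), (380775694336, 100260642816)] rfl (by decide +kernel)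
theorem I1RT_2 : CovD 1 [pRT H BI1] [(3573412790272, 274877906944), (120930172928, 21877489664), (293047631872, 12532580352)] :=
  cov_of (fRT H BI1) (.n 2 (.n 0 (.n 1 (.l 0) (.l 0)) (.n 1 (.n 0 (.l 0) (.n 0 (.l 0) (.l 0))) (.n 0 (.l 0) (.l 0)))) (.n 0 (.n 1 (.l 0) (.l 0)) (.n 1 (.n 0 (.l 0) (.l 0)) (.n 0 (.l 0) (.l 0))))) [(3573412790272, 274877906944), (120930172928, 21877489664), (293047631872, 12532580352)] rfl (by decide +kernel)
theorem I1RT_3 : CovD 1 [pRT H BI1] [(3573412790272, 274877906944), (120930172928, 21877489664), (318112792576, 12532580352)] :=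
  cov_of (fRT H BI1) (.n 2 (.n 0 (.n 0 (.l 0) (.l 0)) (.n 1 (.n 0 (.l 0) (.l 0)) (.n 0 (.l 0) (.l 0)))) (.n 0 (.n 0 (.l 0) (.l 0)) (.n 1 (.n 0 (.l 0) (.l 0)) (.n 0 (.l 0) (.l 0))))) [(3573412790272, 274877906944), (120930172928, 21877489664), (318112792576, 12532580352)] rfl (by decide +kernel)
end

end Pool.Agent.helper82.WC.S4K2
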