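import Pool.Agent.helper82.WH.Chks

/-!
Generated: constants of a cell.
-/

namespace Pool.Agent.helper82.WC.S4K2

open Pool.Agent.helper82.WH
open Pool.Agent.helper31.IC (CovD covD_split TD)

def H : HC := ⟨⟨3573412790272, 0⟩, ⟨13300531200, 0⟩, ⟨0, 1201699684352⟩, ⟨0, 1026280914944⟩, ⟨1883075575808, 0⟩, ⟨0, 4146869108736⟩, ⟨886325968896, 0⟩, ⟨1461901852672, 0⟩, ⟨5843639009280, 0⟩, ⟨0, 21867120754688⟩, ⟨557222985728, 0⟩, ⟨0, 31496732672⟩, ⟨655557197824, 0⟩, ⟨1292954042368, 0⟩, ⟨874438721536, 0⟩, ⟨0, 373952479232⟩, ⟨0, 944460267520⟩, ⟨0, 1530207141888⟩, ⟨0, 33256177664⟩, ⟨0, 2678561832960⟩, ⟨5434431635456, 0⟩, ⟨1232511631360, 0⟩, ⟨0, 3359309824⟩, ⟨2021092425728, 0⟩, ⟨0, 7077166710784⟩, ⟨0, 10556595175424⟩, ⟨0, 0⟩⟩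

def BI0 : BC := ⟨⟨0, 0, 1099511627776, 0⟩, ⟨0, 0⟩, ⟨0, 0⟩, 124966862848, 44267536384, 97577009152, 816307306496, 174546354176, 17817403392, 1312817152000, 1293724680192, ⟨15930033700864, 0⟩, ⟨0, 5205500362752⟩, ⟨967680917504, 0⟩, ⟨0, 0⟩, ⟨0, 0⟩⟩

def BI1 : BC := ⟨⟨0, 0, 1099511627776, 0⟩, ⟨0, 0⟩, ⟨0, 0⟩, 103880851456, 40455503872, 163179397120, 755323174912, 174546354176, 34997272576, 1872387637248, 1191484325888, ⟨5759551143936, 0⟩, ⟨0, 4453881085952⟩, ⟨987902574592, 0⟩, ⟨0, 0⟩, ⟨0, 0⟩⟩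

def BR0 : BC := ⟨⟨0, 0, 0, 0⟩, ⟨137438953472, 0⟩, ⟨1099511627776, 0⟩, 152976687104, 57556598784, 122031636480, 760661868544, 174546354176, 3707764736, 571314536448, 1295972827136, ⟨0, 0⟩, ⟨0, 0⟩, ⟨939240980480, 0⟩, ⟨0, 0⟩, ⟨0, 0⟩⟩

def BP : BC := ⟨⟨0, 0, 0, 0⟩, ⟨137438953472, 0⟩, ⟨1099511627776, 0⟩, 100248584192, 43071307776, 83075137536, 646374621184, 115447627776, 3523215360, 562791710720, 1292365725696, ⟨0, 0⟩, ⟨0, 0⟩, ⟨430733197312, 0⟩, ⟨0, 0⟩, ⟨1099511627776, 0⟩⟩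

def BM : BC := ⟨⟨0, 0, 0, 0⟩, ⟨137438953472, 0⟩, ⟨1099511627776, 0⟩, 86243672064, 39842021376, 73316564992, 672180666368, 115447627776, 3707764736, 571314536448, 1295972827136, ⟨0, 0⟩, ⟨0, 0⟩, ⟨441610207232, 0⟩, ⟨0, 0⟩, ⟨0, 1099511627776⟩⟩

def BT : BC := ⟨⟨0, 0, 1099511627776, 0⟩, ⟨0, 0⟩, ⟨0, 0⟩, 97085489152, 38921961472, 153954025472, 727802773504, 174546354176, 34997272576, 1872387637248, 1030725042176, ⟨3736621547520, 0⟩, ⟨0, 3813930958848⟩, ⟨931451371520, 0⟩, ⟨1099511627776, 0⟩, ⟨0, 0⟩⟩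

end Pool.Agent.helper82.WC.S4K2
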