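import Pool.Agent.helper82.WC.S4K3C0
import Pool.Agent.helper82.WC.S4K3C1

/-!
Generated certificates, assembled.
-/

namespace Pool.Agent.helper82.WC.S4K3

open Pool.Agent.helper82.WH
open Pool.Agent.helper31.IC (CovD covD_split TD)

theorem I0AD_0 : CovD 0 [pAD H BI0] [(3573412790272, 274877906944), (170322296832, 27514634240), (43486543872, 43486543872)] :=
  covD_split 2 (by decide +kernel) I0AD_1 I0AD_2
theorem I0AD_3 : CovD 0 [pAD H BI0] [(3573412790272, 274877906944), (170322296832, 27514634240), (130459631616, 43486543872)] :=
  covD_split 2 (by decide +kernel) I0AD_4 I0AD_5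
theorem I0AD : CovD 0 [pAD H BI0] [(3573412790272, 274877906944), (170322296832, 27514634240), (86973087744, 86973087744)] :=
  covD_split 2 (by decide +kernel) I0AD_0 I0AD_3
theorem I0RT_1 : CovD 1 [pRT H BI0] [(3573412790272, 274877906944), (170322296832, 27514634240), (21743271936, 21743271936)] :=
  covD_split 2 (by decide +kernel) I0RT_2 I0RT_3
theorem I0RT_4 : CovD 1 [pRT H BI0] [(3573412790272, 274877906944), (170322296832, 27514634240), (65229815808, 21743271936)] :=
  covD_split 2 (by decide +kernel) I0RT_5 I0RT_6
theorem I0RT_0 : CovD 1 [pRT H BI0] [(3573412790272, 274877906944), (170322296832, 27514634240), (43486543872, 43486543872)] :=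
  covD_split 2 (by decide +kernel) I0RT_1 I0RT_4
theorem I0RT_8 : CovD 1 [pRT H BI0] [(3573412790272, 274877906944), (170322296832, 27514634240), (108716359680, 21743271936)] :=
  covD_split 2 (by decide +kernel) I0RT_9 I0RT_10
theorem I0RT_11 : CovD 1 [pRT H BI0] [(3573412790272, 274877906944), (170322296832, 27514634240), (152202903552, 21743271936)] :=
  covD_split 2 (by decide +kernel) I0RT_12 I0RT_13
theorem I0RT_7 : CovD 1 [pRT H BI0] [(3573412790272, 274877906944), (170322296832, 27514634240), (130459631616, 43486543872)] :=
  covD_split 2 (by decide +kernel) I0RT_8 I0RT_11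
theorem I0RT : CovD 1 [pRT H BI0] [(3573412790272, 274877906944), (170322296832, 27514634240), (86973087744, 86973087744)] :=
  covD_split 2 (by decide +kernel) I0RT_0 I0RT_7
theorem I1AD : CovD 0 [pAD H BI1] [(3573412790272, 274877906944), (170322296832, 27514634240), (231928233984, 57982058496)] :=
  covD_split 2 (by decide +kernel) I1AD_0 I1AD_1
theorem I1RT_0 : CovD 1 [pRT H BI1] [(3573412790272, 274877906944), (170322296832, 27514634240), (202937204736, 28991029248)] :=
  covD_split 2 (by decide +kernel) I1RT_1 I1RT_2
theorem I1RT : CovD 1 [pRT H BI1] [(3573412790272, 274877906944), (170322296832, 27514634240), (231928233984, 57982058496)] :=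
  covD_split 2 (by decide +kernel) I1RT_0 I1RT_3
theorem I2AD : CovD 0 [pAD H BI2] [(3573412790272, 274877906944), (170322296832, 27514634240), (376883380224, 86973087744)] :=
  covD_split 2 (by decide +kernel) I2AD_0 I2AD_1
theorem I2RT_0 : CovD 1 [pRT H BI2] [(3573412790272, 274877906944), (170322296832, 27514634240), (333396836352, 43486543872)] :=
  covD_split 2 (by decide +kernel) I2RT_1 I2RT_2
theorem I2RT : CovD 1 [pRT H BI2] [(3573412790272, 274877906944), (170322296832, 27514634240), (376883380224, 86973087744)] :=
  covD_split 2 (by decide +kernel) I2RT_0 I2RT_3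
theorem MTT : CovD 1 [pTT H BM] [(3573412790272, 274877906944), (170322296832, 27514634240), (0, 0)] :=
  covD_split 1 (by decide +kernel) MTT_0 MTT_1

end Pool.Agent.helper82.WC.S4K3
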