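import Pool.Agent.helper82.WC.S4K3P

/-!
Generated certificates (in pairs, so that they are checked one after the other).
-/

namespace Pool.Agent.helper82.WC.S4K3

open Pool.Agent.helper82.WH
open Pool.Agent.helper31.IC (CovD covD_split TD)

mutual
theorem I0AD_1 : CovD 0 [pAD H BI0] [(3573412790272, 274877906944), (170322296832, 27514634240), (21743271936, 21743271936)] :=
  cov_of (fAD H BI0) (.n 2 (.n 1 (.n 0 (.n 0 (.l 0) (.l 0)) (.n 0 (.l 0) (.l 0))) (.n 0 (.n 0 (.l 0) (.l 0)) (.n 0 (.l 0) (.l 0)))) (.n 1 (.n 0 (.n 0 (.l 0) (.l 0)) (.n 0 (.l 0) (.l 0))) (.n 0 (.n 0 (.l 0) (.l 0)) (.n 0 (.l 0) (.l 0))))) [(3573412790272, 274877906944), (170322296832, 27514634240), (21743271936, 21743271936)] rfl (by decide +kernel)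
theorem I0AD_2 : CovD 0 [pAD H BI0] [(3573412790272, 274877906944), (170322296832, 27514634240), (65229815808, 21743271936)] :=
  cov_of (fAD H BI0) (.n 2 (.n 1 (.n 0 (.n 0 (.l 0) (.l 0)) (.n 0 (.l 0) (.l 0))) (.n 0 (.n 0 (.l 0) (.l 0)) (.n 0 (.l 0) (.l 0)))) (.n 1 (.n 0 (.n 0 (.l 0) (.l 0)) (.n 0 (.l 0) (.l 0))) (.n 0 (.n 0 (.l 0) (.l 0)) (.n 0 (.l 0) (.l 0))))) [(3573412790272, 274877906944), (170322296832, 27514634240), (65229815808, 21743271936)] rfl (by decide +kernel)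
end

mutual
theorem I0AD_4 : CovD 0 [pAD H BI0] [(3573412790272, 274877906944), (170322296832, 27514634240), (108716359680, 21743271936)] :=
  cov_of (fAD H BI0) (.n 2 (.n 0 (.n 1 (.n 0 (.l 0) (.l 0)) (.n 0 (.l 0) (.l 0))) (.n 1 (.n 0 (.l 0) (.l 0)) (.n 0 (.l 0) (.l 0)))) (.n 0 (.n 1 (.n 0 (.l 0) (.l 0)) (.n 0 (.l 0) (.l 0))) (.n 1 (.n 0 (.l 0) (.l 0)) (.n 0 (.l 0) (.l 0))))) [(3573412790272, 274877906944), (170322296832, 27514634240), (108716359680, 21743271936)] rfl (by decide +kernel)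
theorem I0AD_5 : CovD 0 [pAD H BI0] [(3573412790272, 274877906944), (170322296832, 27514634240), (152202903552, 21743271936)] :=
  cov_of (fAD H BI0) (.n 0 (.n 2 (.n 1 (.n 0 (.l 0) (.l 0)) (.n 0 (.l 0) (.l 0))) (.n 1 (.n 0 (.l 0) (.l 0)) (.n 0 (.l 0) (.l 0)))) (.n 2 (.n 1 (.n 0 (.l 0) (.l 0)) (.n 0 (.l 0) (.l 0))) (.n 1 (.n 0 (.l 0) (.l 0)) (.n 0 (.l 0) (.l 0))))) [(3573412790272, 274877906944), (170322296832, 27514634240), (152202903552, 21743271936)] rfl (by decide +kernel)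
end

mutual
theorem I0G : CovD 1 [pG H BI0] [(3573412790272, 274877906944), (170322296832, 27514634240), (86973087744, 86973087744)] :=
  cov_of (fG H BI0) (.n 2 (.n 0 (.l 0) (.l 0)) (.n 2 (.n 0 (.l 0) (.l 0)) (.n 2 (.l 0) (.n 0 (.l 0) (.l 0))))) [(3573412790272, 274877906944), (170322296832, 27514634240), (86973087744, 86973087744)] rfl (by decide +kernel)
theorem I0RT_2 : CovD 1 [pRT H BI0] [(3573412790272, 274877906944), (170322296832, 27514634240), (10871635968, 10871635968)] :=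
  cov_of (fRT H BI0) (.n 1 (.n 2 (.n 2 (.n 1 (.n 1 (.l 0) (.l 0)) (.l 0)) (.n 1 (.n 1 (.l 0) (.l 0)) (.l 0))) (.n 1 (.n 2 (.n 2 (.l 0) (.l 0)) (.n 2 (.l 0) (.l 0))) (.n 2 (.n 0 (.l 0) (.l 0)) (.n 0 (.l 0) (.l 0))))) (.n 2 (.n 2 (.n 1 (.l 0) (.l 0)) (.n 1 (.l 0) (.l 0))) (.n 2 (.n 1 (.l 0) (.l 0)) (.n 1 (.l 0) (.l 0))))) [(3573412790272, 274877906944), (170322296832, 27514634240), (10871635968, 10871635968)] rfl (by decide +kernel)
end

mutual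
theorem I0RT_3 : CovD 1 [pRT H BI0] [(3573412790272, 274877906944), (170322296832, 27514634240), (32614907904, 10871635968)] :=
  cov_of (fRT H BI0) (.n 1 (.n 2 (.n 1 (.n 2 (.n 2 (.l 0) (.l 0)) (.n 2 (.l 0) (.l 0))) (.n 2 (.n 0 (.l 0) (.l 0)) (.n 0 (.l 0) (.l 0)))) (.n 2 (.n 1 (.n 2 (.l 0) (.l 0)) (.n 0 (.l 0) (.l 0))) (.n 1 (.n 2 (.l 0) (.l 0)) (.n 0 (.l 0) (.l 0))))) (.n 2 (.n 2 (.n 1 (.l 0) (.l 0)) (.n 1 (.l 0) (.l 0))) (.n 2 (.n 1 (.l 0) (.l 0)) (.n 1 (.l 0) (.l 0))))) [(3573412790272, 274877906944), (170322296832, 27514634240), (32614907904, 10871635968)] rfl (by decide +kernel)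
theorem I0RT_5 : CovD 1 [pRT H BI0] [(3573412790272, 274877906944), (170322296832, 27514634240), (54358179840, 10871635968)] :=
  cov_of (fRT H BI0) (.n 1 (.n 2 (.n 2 (.n 1 (.n 2 (.l 0) (.l 0)) (.n 0 (.l 0) (.l 0))) (.n 1 (.n 2 (.l 0) (.l 0)) (.n 0 (.l 0) (.l 0)))) (.n 2 (.n 1 (.n 2 (.l 0) (.l 0)) (.n 0 (.l 0) (.l 0))) (.n 1 (.n 2 (.l 0) (.l 0)) (.n 0 (.l 0) (.l 0))))) (.n 2 (.n 2 (.n 1 (.l 0) (.l 0)) (.n 1 (.l 0) (.l 0))) (.n 2 (.n 1 (.l 0) (.l 0)) (.n 1 (.l 0) (.l 0))))) [(3573412790272, 274877906944), (170322296832, 27514634240), (54358179840, 10871635968)] rfl (by decide +kernel)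
end

mutual
theorem I0RT_6 : CovD 1 [pRT H BI0] [(3573412790272, 274877906944), (170322296832, 27514634240), (76101451776, 10871635968)] :=
  cov_of (fRT H BI0) (.n 1 (.n 2 (.n 2 (.n 1 (.n 2 (.l 0) (.l 0)) (.n 0 (.l 0) (.l 0))) (.n 1 (.n 2 (.l 0) (.l 0)) (.n 0 (.l 0) (.l 0)))) (.n 2 (.n 1 (.n 1 (.l 0) (.l 0)) (.n 0 (.l 0) (.l 0))) (.n 1 (.n 1 (.l 0) (.l 0)) (.l 0)))) (.n 2 (.n 2 (.n 1 (.l 0) (.l 0)) (.n 1 (.l 0) (.l 0))) (.n 2 (.n 1 (.l 0) (.l 0)) (.n 1 (.l 0) (.l 0))))) [(3573412790272, 274877906944), (170322296832, 27514634240), (76101451776, 10871635968)] rfl (by decide +kernel)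
theorem I0RT_9 : CovD 1 [pRT H BI0] [(3573412790272, 274877906944), (170322296832, 27514634240), (97844723712, 10871635968)] :=
  cov_of (fRT H BI0) (.n 1 (.n 2 (.n 2 (.n 1 (.n 1 (.l 0) (.l 0)) (.l 0)) (.n 1 (.n 0 (.l 0) (.l 0)) (.l 0))) (.n 2 (.n 1 (.n 0 (.l 0) (.l 0)) (.l 0)) (.n 1 (.n 0 (.l 0) (.l 0)) (.l 0)))) (.n 2 (.n 2 (.n 1 (.l 0) (.l 0)) (.n 0 (.l 0) (.l 0))) (.n 2 (.n 0 (.l 0) (.l 0)) (.n 0 (.l 0) (.l 0))))) [(3573412790272, 274877906944), (170322296832, 27514634240), (97844723712, 10871635968)] rfl (by decide +kernel)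
end

mutual
theorem I0RT_10 : CovD 1 [pRT H BI0] [(3573412790272, 274877906944), (170322296832, 27514634240), (119587995648, 10871635968)] :=
  cov_of (fRT H BI0) (.n 1 (.n 2 (.n 2 (.n 1 (.n 0 (.l 0) (.l 0)) (.l 0)) (.n 1 (.l 0) (.l 0))) (.n 2 (.n 1 (.l 0) (.l 0)) (.n 1 (.l 0) (.l 0)))) (.n 2 (.n 2 (.n 0 (.l 0) (.l 0)) (.n 0 (.l 0) (.l 0))) (.n 2 (.n 0 (.l 0) (.l 0)) (.l 0)))) [(3573412790272, 274877906944), (170322296832, 27514634240), (119587995648, 10871635968)] rfl (by decide +kernel)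
theorem I0RT_12 : CovD 1 [pRT H BI0] [(3573412790272, 274877906944), (170322296832, 27514634240), (141331267584, 10871635968)] :=
  cov_of (fRT H BI0) (.n 1 (.n 2 (.n 2 (.n 1 (.l 0) (.l 0)) (.n 0 (.l 0) (.l 0))) (.n 2 (.n 0 (.l 0) (.l 0)) (.n 0 (.l 0) (.l 0)))) (.n 2 (.n 2 (.l 0) (.l 0)) (.n 2 (.l 0) (.n 0 (.l 0) (.l 0))))) [(3573412790272, 274877906944), (170322296832, 27514634240), (141331267584, 10871635968)] rfl (by decide +kernel)
end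

mutual
theorem I0RT_13 : CovD 1 [pRT H BI0] [(3573412790272, 274877906944), (170322296832, 27514634240), (163074539520, 10871635968)] :=
  cov_of (fRT H BI0) (.n 2 (.n 1 (.n 2 (.n 0 (.l 0) (.l 0)) (.n 0 (.l 0) (.l 0))) (.n 1 (.n 0 (.l 0) (.l 0)) (.n 0 (.l 0) (.l 0)))) (.n 1 (.n 2 (.n 0 (.l 0) (.l 0)) (.n 0 (.l 0) (.n 0 (.l 0) (.l 0)))) (.n 0 (.l 0) (.n 0 (.l 0) (.l 0))))) [(3573412790272, 274877906944), (170322296832, 27514634240), (163074539520, 10871635968)] rfl (by decide +kernel)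
theorem I1AD_0 : CovD 0 [pAD H BI1] [(3573412790272, 274877906944), (170322296832, 27514634240), (202937204736, 28991029248)] :=
  cov_of (fAD H BI1) (.n 2 (.n 0 (.n 1 (.n 0 (.n 0 (.l 0) (.l 0)) (.n 0 (.l 0) (.l 0))) (.n 0 (.l 0) (.l 0))) (.n 1 (.n 2 (.n 0 (.l 0) (.l 0)) (.n 0 (.l 0) (.l 0))) (.n 2 (.n 0 (.l 0) (.l 0)) (.l 0)))) (.n 0 (.n 1 (.n 0 (.l 0) (.l 0)) (.n 0 (.l 0) (.l 0))) (.n 1 (.n 0 (.l 0) (.l 0)) (.n 0 (.l 0) (.l 0))))) [(3573412790272, 274877906944), (170322296832, 27514634240), (202937204736, 28991029248)] rfl (by decide +kernel)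
end

mutual
theorem I1AD_1 : CovD 0 [pAD H BI1] [(3573412790272, 274877906944), (170322296832, 27514634240), (260919263232, 28991029248)] :=
  cov_of (fAD H BI1) (.n 2 (.n 0 (.n 1 (.n 0 (.l 0) (.l 0)) (.n 0 (.l 0) (.l 0))) (.n 1 (.n 0 (.l 0) (.l 0)) (.n 0 (.l 0) (.l 0)))) (.n 0 (.n 1 (.n 0 (.l 0) (.l 0)) (.n 0 (.l 0) (.l 0))) (.n 1 (.n 0 (.l 0) (.l 0)) (.n 0 (.l 0) (.l 0))))) [(3573412790272, 274877906944), (170322296832, 27514634240), (260919263232, 28991029248)] rfl (by decide +kernel)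
theorem I1G : CovD 1 [pG H BI1] [(3573412790272, 274877906944), (170322296832, 27514634240), (231928233984, 57982058496)] :=
  cov_of (fG H BI1) (.n 2 (.n 2 (.l 0) (.n 0 (.l 0) (.l 0))) (.n 2 (.n 0 (.l 0) (.n 0 (.l 0) (.l 0))) (.n 0 (.n 0 (.l 0) (.l 0)) (.n 2 (.l 0) (.n 0 (.l 0) (.l 0)))))) [(3573412790272, 274877906944), (170322296832, 27514634240), (231928233984, 57982058496)] rfl (by decide +kernel)
end

mutual
theorem I1RT_1 : CovD 1 [pRT H BI1] [(3573412790272, 274877906944), (170322296832, 27514634240), (188441690112, 14495514624)] :=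
  cov_of (fRT H BI1) (.n 2 (.n 1 (.n 2 (.n 0 (.l 0) (.l 0)) (.n 0 (.l 0) (.l 0))) (.n 2 (.n 0 (.l 0) (.l 0)) (.n 0 (.l 0) (.l 0)))) (.n 1 (.n 2 (.n 0 (.l 0) (.l 0)) (.n 0 (.l 0) (.l 0))) (.n 1 (.n 0 (.l 0) (.l 0)) (.n 0 (.l 0) (.l 0))))) [(3573412790272, 274877906944), (170322296832, 27514634240), (188441690112, 14495514624)] rfl (by decide +kernel)
theorem I1RT_2 : CovD 1 [pRT H BI1] [(3573412790272, 274877906944), (170322296832, 27514634240), (217432719360, 14495514624)] :=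
  cov_of (fRT H BI1) (.n 2 (.n 2 (.n 1 (.n 0 (.l 0) (.l 0)) (.n 0 (.l 0) (.l 0))) (.n 1 (.n 0 (.l 0) (.l 0)) (.n 0 (.l 0) (.l 0)))) (.n 2 (.n 1 (.n 0 (.l 0) (.l 0)) (.n 0 (.l 0) (.l 0))) (.n 1 (.n 0 (.l 0) (.l 0)) (.n 0 (.l 0) (.l 0))))) [(3573412790272, 274877906944), (170322296832, 27514634240), (217432719360, 14495514624)] rfl (by decide +kernel)
end

mutual
theorem I1RT_3 : CovD 1 [pRT H BI1] [(3573412790272, 274877906944), (170322296832, 27514634240), (260919263232, 28991029248)] :=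
  cov_of (fRT H BI1) (.n 2 (.n 2 (.n 2 (.n 1 (.n 0 (.l 0) (.l 0)) (.n 0 (.l 0) (.l 0))) (.n 0 (.l 0) (.n 1 (.l 0) (.l 0)))) (.n 1 (.n 0 (.l 0) (.l 0)) (.n 0 (.l 0) (.l 0)))) (.n 2 (.n 2 (.n 0 (.l 0) (.n 0 (.l 0) (.l 0))) (.n 0 (.l 0) (.n 0 (.l 0) (.l 0)))) (.n 0 (.n 0 (.l 0) (.l 0)) (.n 1 (.n 0 (.l 0) (.l 0)) (.n 1 (.l 0) (.l 0)))))) [(3573412790272, 274877906944), (170322296832, 27514634240), (260919263232, 28991029248)] rfl (by decide +kernel)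
theorem I2AD_0 : CovD 0 [pAD H BI2] [(3573412790272, 274877906944), (170322296832, 27514634240), (333396836352, 43486543872)] :=
  cov_of (fAD H BI2) (.n 2 (.n 0 (.n 2 (.n 1 (.n 0 (.l 0) (.l 0)) (.n 0 (.l 0) (.l 0))) (.n 1 (.l 0) (.l 0))) (.n 2 (.n 1 (.n 0 (.l 0) (.l 0)) (.n 0 (.l 0) (.l 0))) (.n 1 (.l 0) (.l 0)))) (.n 0 (.n 2 (.n 1 (.l 0) (.l 0)) (.n 1 (.l 0) (.l 0))) (.n 2 (.n 1 (.l 0) (.l 0)) (.n 1 (.l 0) (.l 0))))) [(3573412790272, 274877906944), (170322296832, 27514634240), (333396836352, 43486543872)] rfl (by decide +kernel)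
end

mutual
theorem I2AD_1 : CovD 0 [pAD H BI2] [(3573412790272, 274877906944), (170322296832, 27514634240), (420369924096, 43486543872)] :=
  cov_of (fAD H BI2) (.n 2 (.n 0 (.n 2 (.n 1 (.l 0) (.l 0)) (.n 1 (.l 0) (.n 0 (.l 0) (.l 0)))) (.n 2 (.n 1 (.l 0) (.l 0)) (.n 1 (.l 0) (.l 0)))) (.n 0 (.n 2 (.n 1 (.n 0 (.l 0) (.l 0)) (.n 0 (.l 0) (.l 0))) (.n 1 (.n 0 (.l 0) (.l 0)) (.n 0 (.l 0) (.l 0)))) (.n 2 (.n 1 (.l 0) (.n 0 (.l 0) (.l 0))) (.n 1 (.n 0 (.l 0) (.l 0)) (.n 0 (.l 0) (.l 0)))))) [(3573412790272, 274877906944), (170322296832, 27514634240), (420369924096, 43486543872)] rfl (by decide +kernel)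
theorem I2G : CovD 1 [pG H BI2] [(3573412790272, 274877906944), (170322296832, 27514634240), (376883380224, 86973087744)] :=
  cov_of (fG H BI2) (.n 2 (.n 2 (.n 2 (.n 0 (.l 0) (.l 0)) (.n 0 (.l 0) (.l 0))) (.n 0 (.n 0 (.l 0) (.l 0)) (.n 2 (.l 0) (.l 0)))) (.n 2 (.n 0 (.n 0 (.l 0) (.l 0)) (.n 2 (.n 0 (.l 0) (.l 0)) (.n 0 (.l 0) (.l 0)))) (.n 0 (.n 1 (.l 0) (.l 0)) (.n 2 (.n 0 (.l 0) (.l 0)) (.n 0 (.l 0) (.l 0)))))) [(3573412790272, 274877906944), (170322296832, 27514634240), (376883380224, 86973087744)] rfl (by decide +kernel)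
end

mutual
theorem I2RT_1 : CovD 1 [pRT H BI2] [(3573412790272, 274877906944), (170322296832, 27514634240), (311653564416, 21743271936)] :=
  cov_of (fRT H BI2) (.n 2 (.n 2 (.n 0 (.n 1 (.l 0) (.l 0)) (.n 1 (.n 0 (.l 0) (.l 0)) (.n 0 (.l 0) (.l 0)))) (.n 0 (.n 0 (.l 0) (.l 0)) (.n 1 (.n 0 (.l 0) (.l 0)) (.l 0)))) (.n 2 (.n 0 (.n 0 (.l 0) (.l 0)) (.n 1 (.n 0 (.l 0) (.l 0)) (.l 0))) (.n 0 (.n 0 (.l 0) (.l 0)) (.n 1 (.l 0) (.l 0))))) [(3573412790272, 274877906944), (170322296832, 27514634240), (311653564416, 21743271936)] rfl (by decide +kernel)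
theorem I2RT_2 : CovD 1 [pRT H BI2] [(3573412790272, 274877906944), (170322296832, 27514634240), (355140108288, 21743271936)] :=
  cov_of (fRT H BI2) (.n 2 (.n 0 (.n 1 (.l 0) (.l 0)) (.n 1 (.n 0 (.l 0) (.l 0)) (.n 0 (.l 0) (.l 0)))) (.n 0 (.n 1 (.l 0) (.l 0)) (.n 1 (.n 0 (.l 0) (.l 0)) (.n 0 (.l 0) (.l 0))))) [(3573412790272, 274877906944), (170322296832, 27514634240), (355140108288, 21743271936)] rfl (by decide +kernel)
end

mutual
theorem I2RT_3 : CovD 1 [pRT H BI2] [(3573412790272, 274877906944), (170322296832, 27514634240), (420369924096, 43486543872)] :=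
  cov_of (fRT H BI2) (.n 2 (.n 2 (.n 0 (.n 0 (.l 0) (.l 0)) (.n 1 (.n 0 (.l 0) (.l 0)) (.l 0))) (.n 0 (.n 0 (.l 0) (.l 0)) (.n 1 (.l 0) (.l 0)))) (.n 2 (.n 0 (.n 0 (.l 0) (.l 0)) (.n 1 (.n 0 (.l 0) (.l 0)) (.n 0 (.l 0) (.l 0)))) (.n 0 (.n 1 (.l 0) (.l 0)) (.n 1 (.n 0 (.l 0) (.n 2 (.l 0) (.n 0 (.l 0) (.l 0)))) (.n 0 (.l 0) (.n 2 (.l 0) (.l 0))))))) [(3573412790272, 274877906944), (170322296832, 27514634240), (420369924096, 43486543872)] rfl (by decide +kernel)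
theorem R0AD : CovD 0 [pAD H BR0] [(3573412790272, 274877906944), (170322296832, 27514634240), (1099511627776, 1099511627776)] :=
  cov_of (fAD H BR0) (.n 1 (.n 0 (.n 0 (.l 0) (.l 0)) (.n 2 (.l 0) (.l 0))) (.n 0 (.n 2 (.l 0) (.l 0)) (.n 2 (.l 0) (.l 0)))) [(3573412790272, 274877906944), (170322296832, 27514634240), (1099511627776, 1099511627776)] rfl (by decide +kernel)
end

mutual
theorem R0G : CovD 1 [pG H BR0] [(3573412790272, 274877906944), (170322296832, 27514634240), (1099511627776, 1099511627776)] :=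
  cov_of (fG H BR0) (.l 0) [(3573412790272, 274877906944), (170322296832, 27514634240), (1099511627776, 1099511627776)] rfl (by decide +kernel)
theorem R0RT : CovD 1 [pRT H BR0] [(3573412790272, 274877906944), (170322296832, 27514634240), (1099511627776, 1099511627776)] :=
  cov_of (fRT H BR0) (.n 1 (.n 2 (.n 1 (.n 1 (.l 0) (.l 0)) (.n 2 (.l 0) (.l 0))) (.l 0)) (.n 1 (.n 2 (.l 0) (.l 0)) (.l 0))) [(3573412790272, 274877906944), (170322296832, 27514634240), (1099511627776, 1099511627776)] rfl (by decide +kernel)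
end

mutual
theorem R0RS : CovD 1 [pRS H BR0] [(3573412790272, 274877906944), (170322296832, 27514634240), (1099511627776, 1099511627776)] :=
  cov_of (fRS H BR0) (.l 0) [(3573412790272, 274877906944), (170322296832, 27514634240), (1099511627776, 1099511627776)] rfl (by decide +kernel)
theorem PAD : CovD 0 [pAD H BP] [(3573412790272, 274877906944), (170322296832, 27514634240), (2199023255552, 0)] :=
  cov_of (fAD H BP) (.n 1 (.n 0 (.n 0 (.l 0) (.l 0)) (.n 0 (.l 0) (.l 0))) (.n 0 (.l 0) (.l 0))) [(3573412790272, 274877906944), (170322296832, 27514634240), (2199023255552, 0)] rfl (by decide +kernel)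
end

mutual
theorem PG : CovD 1 [pG H BP] [(3573412790272, 274877906944), (170322296832, 27514634240), (2199023255552, 0)] :=
  cov_of (fG H BP) (.l 0) [(3573412790272, 274877906944), (170322296832, 27514634240), (2199023255552, 0)] rfl (by decide +kernel)
theorem PRT : CovD 1 [pRT H BP] [(3573412790272, 274877906944), (170322296832, 27514634240), (2199023255552, 0)] :=
  cov_of (fRT H BP) (.n 1 (.l 0) (.l 0)) [(3573412790272, 274877906944), (170322296832, 27514634240), (2199023255552, 0)] rfl (by decide +kernel)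
theorem PTT : CovD 1 [pTT H BP] [(3573412790272, 274877906944), (170322296832, 27514634240), (2199023255552, 0)] :=
  cov_of (fTT H BP) (.n 1 (.n 0 (.n 1 (.n 1 (.n 0 (.l 0) (.l 0)) (.l 0)) (.n 1 (.l 0) (.l 0))) (.n 1 (.n 1 (.n 0 (.l 0) (.l 0)) (.l 0)) (.n 1 (.l 0) (.l 0)))) (.n 0 (.n 1 (.n 0 (.l 0) (.l 0)) (.n 0 (.l 0) (.l 0))) (.n 1 (.n 0 (.l 0) (.l 0)) (.n 0 (.l 0) (.l 0))))) [(3573412790272, 274877906944), (170322296832, 27514634240), (2199023255552, 0)] rfl (by decide +kernel)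
end

end Pool.Agent.helper82.WC.S4K3
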