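import Pool.Agent.helper82.WH.Chks

/-!
Generated: constants of a cell.
-/

namespace Pool.Agent.helper82.WC.S4K3

open Pool.Agent.helper82.WH
open Pool.Agent.helper31.IC (CovD covD_split TD)

def H : HC := ⟨⟨3573412790272, 0⟩, ⟨26384138240, 0⟩, ⟨0, 1092872699904⟩, ⟨0, 990930927616⟩, ⟨1893778522112, 0⟩, ⟨0, 4460634308608⟩, ⟨788030226432, 0⟩, ⟨1956089167872, 0⟩, ⟨6824240807936, 0⟩, ⟨0, 23844107583488⟩, ⟨564081065984, 0⟩, ⟨0, 26398818304⟩, ⟨625335795712, 0⟩, ⟨1304760287232, 0⟩, ⟨862040424448, 0⟩, ⟨0, 462968586240⟩, ⟨0, 1028561240064⟩, ⟨0, 1492231782400⟩, ⟨0, 420911841280⟩, ⟨0, 2540740280320⟩, ⟨5215729156096, 0⟩, ⟨1440809156608, 0⟩, ⟨0, 871825408⟩, ⟨120260001792, 0⟩, ⟨0, 12139168006144⟩, ⟨21906106155008, 0⟩, ⟨0, 0⟩⟩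

def BI0 : BC := ⟨⟨0, 0, 1099511627776, 0⟩, ⟨0, 0⟩, ⟨0, 0⟩, 147464978432, 47702474752, 74615554048, 819088326656, 174546354176, 12364808192, 881860804608, 1268122648576, ⟨17386027614208, 0⟩, ⟨0, 3405909065728⟩, ⟨945446518784, 0⟩, ⟨0, 0⟩, ⟨0, 0⟩⟩

def BI1 : BC := ⟨⟨0, 0, 1099511627776, 0⟩, ⟨0, 0⟩, ⟨0, 0⟩, 137971695616, 45901479936, 130423848960, 767471386624, 174546354176, 20233322496, 1340717662208, 1228108988416, ⟨11158325035008, 0⟩, ⟨0, 5128190951424⟩, ⟨954226442240, 0⟩, ⟨0, 0⟩, ⟨0, 0⟩⟩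

def BI2 : BC := ⟨⟨0, 0, 1099511627776, 0⟩, ⟨0, 0⟩, ⟨0, 0⟩, 121851346944, 43274010624, 175643557888, 725857075200, 174546354176, 33118224384, 1828213227520, 1162526851072, ⟨6085968658432, 0⟩, ⟨0, 4776003633152⟩, ⟨969719742464, 0⟩, ⟨0, 0⟩, ⟨0, 0⟩⟩

def BR0 : BC := ⟨⟨0, 0, 0, 0⟩, ⟨137438953472, 0⟩, ⟨1099511627776, 0⟩, 143641018368, 51630637056, 123305787392, 773777522688, 174546354176, 7230980096, 514657878016, 1271998185472, ⟨0, 0⟩, ⟨0, 0⟩, ⟨948605943808, 0⟩, ⟨0, 0⟩, ⟨0, 0⟩⟩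

def BP : BC := ⟨⟨0, 0, 0, 0⟩, ⟨137438953472, 0⟩, ⟨1099511627776, 0⟩, 80301260800, 33974779904, 75732942848, 613279596544, 115447627776, 6576668672, 497293459456, 1264649764864, ⟨0, 0⟩, ⟨0, 0⟩, ⟨399641739264, 0⟩, ⟨0, 0⟩, ⟨1099511627776, 0⟩⟩

def BM : BC := ⟨⟨0, 0, 0, 0⟩, ⟨137438953472, 0⟩, ⟨1099511627776, 0⟩, 54721380352, 28084404224, 58553597952, 656298213376, 115447627776, 7230980096, 514657878016, 1271998185472, ⟨0, 0⟩, ⟨0, 0⟩, ⟨418607792128, 0⟩, ⟨0, 0⟩, ⟨0, 1099511627776⟩⟩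

def BT : BC := ⟨⟨0, 0, 1099511627776, 0⟩, ⟨0, 0⟩, ⟨0, 0⟩, 81900929024, 32625262592, 151720427520, 645440208896, 174546354176, 33118224384, 1828213227520, 1028007133184, ⟨4333622001664, 0⟩, ⟨0, 4299262263296⟩, ⟨798961958912, 0⟩, ⟨1099511627776, 0⟩, ⟨0, 0⟩⟩

end Pool.Agent.helper82.WC.S4K3
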