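import Pool.Agent.helper82.WC.S4K4C0

/-!
Generated certificates, assembled.
-/

namespace Pool.Agent.helper82.WC.S4K4

open Pool.Agent.helper82.WH
open Pool.Agent.helper31.IC (CovD covD_split TD)

theorem I0AD_0 : CovD 0 [pAD H BI0] [(3573412790272, 274877906944), (230854492160, 33017561088), (41875931136, 41875931136)] :=
  covD_split 2 (by decide +kernel) I0AD_1 I0AD_2
theorem I0AD_3 : CovD 0 [pAD H BI0] [(3573412790272, 274877906944), (230854492160, 33017561088), (125627793408, 41875931136)] :=
  covD_split 2 (by decide +kernel) I0AD_4 I0AD_5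
theorem I0AD : CovD 0 [pAD H BI0] [(3573412790272, 274877906944), (230854492160, 33017561088), (83751862272, 83751862272)] :=
  covD_split 2 (by decide +kernel) I0AD_0 I0AD_3
theorem I0RT_0 : CovD 1 [pRT H BI0] [(3573412790272, 274877906944), (230854492160, 33017561088), (41875931136, 41875931136)] :=
  covD_split 2 (by decide +kernel) I0RT_1 I0RT_2
theorem I0RT_3 : CovD 1 [pRT H BI0] [(3573412790272, 274877906944), (230854492160, 33017561088), (125627793408, 41875931136)] :=
  covD_split 2 (by decide +kernel) I0RT_4 I0RT_5
theorem I0RT : CovD 1 [pRT H BI0] [(3573412790272, 274877906944), (230854492160, 33017561088), (83751862272, 83751862272)] :=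
  covD_split 2 (by decide +kernel) I0RT_0 I0RT_3
theorem I1AD_0 : CovD 0 [pAD H BI1] [(3573412790272, 274877906944), (230854492160, 33017561088), (218707787776, 51204063232)] :=
  covD_split 2 (by decide +kernel) I1AD_1 I1AD_2
theorem I1AD_3 : CovD 0 [pAD H BI1] [(3573412790272, 274877906944), (230854492160, 33017561088), (321115914240, 51204063232)] :=
  covD_split 2 (by decide +kernel) I1AD_4 I1AD_5
theorem I1AD : CovD 0 [pAD H BI1] [(3573412790272, 274877906944), (230854492160, 33017561088), (269911851008, 102408126464)] :=
  covD_split 2 (by decide +kernel) I1AD_0 I1AD_3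
theorem I1RT_0 : CovD 1 [pRT H BI1] [(3573412790272, 274877906944), (230854492160, 33017561088), (218707787776, 51204063232)] :=
  covD_split 2 (by decide +kernel) I1RT_1 I1RT_2
theorem I1RT_3 : CovD 1 [pRT H BI1] [(3573412790272, 274877906944), (230854492160, 33017561088), (321115914240, 51204063232)] :=
  covD_split 2 (by decide +kernel) I1RT_4 I1RT_5
theorem I1RT : CovD 1 [pRT H BI1] [(3573412790272, 274877906944), (230854492160, 33017561088), (269911851008, 102408126464)] :=
  covD_split 2 (by decide +kernel) I1RT_0 I1RT_3
theorem I2AD : CovD 0 [pAD H BI2] [(3573412790272, 274877906944), (230854492160, 33017561088), (409498288128, 37178310656)] :=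
  covD_split 2 (by decide +kernel) I2AD_0 I2AD_1
theorem I2RT : CovD 1 [pRT H BI2] [(3573412790272, 274877906944), (230854492160, 33017561088), (409498288128, 37178310656)] :=
  covD_split 2 (by decide +kernel) I2RT_0 I2RT_1

end Pool.Agent.helper82.WC.S4K4
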