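import Pool.Agent.helper82.WH.Chks

/-!
Generated: constants of a cell.
-/

namespace Pool.Agent.helper82.WC.S4K4

open Pool.Agent.helper82.WH
open Pool.Agent.helper31.IC (CovD covD_split TD)

def H : HC := ⟨⟨3573412790272, 0⟩, ⟨48470425600, 0⟩, ⟨0, 890565820416⟩, ⟨0, 923677491200⟩, ⟨1603695673344, 0⟩, ⟨0, 4875675959296⟩, ⟨678663880704, 0⟩, ⟨1405200105472, 0⟩, ⟨8475385331712, 0⟩, ⟨0, 25922846720000⟩, ⟨575752962048, 0⟩, ⟨0, 16028860416⟩, ⟨682111795200, 0⟩, ⟨1327959310336, 0⟩, ⟨844705693696, 0⟩, ⟨0, 682637524992⟩, ⟨0, 1206853697536⟩, ⟨0, 1458144018432⟩, ⟨0, 61635559424⟩, ⟨0, 2202729054208⟩, ⟨4598887677952, 0⟩, ⟨1509085675520, 0⟩, ⟨28967239680, 0⟩, ⟨1094354141184, 0⟩, ⟨0, 18555930279936⟩, ⟨72510982520832, 0⟩, ⟨0, 0⟩⟩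

def BI0 : BC := ⟨⟨0, 0, 1099511627776, 0⟩, ⟨0, 0⟩, ⟨0, 0⟩, 173062815744, 48357179392, 76332597248, 789638807552, 174546354176, 15300820992, 897262288896, 1221263884288, ⟨15878494093312, 0⟩, ⟨0, 2555505541120⟩, ⟨919823515648, 0⟩, ⟨0, 0⟩, ⟨0, 0⟩⟩

def BI1 : BC := ⟨⟨0, 0, 1099511627776, 0⟩, ⟨0, 0⟩, ⟨0, 0⟩, 144960192512, 42020175872, 118637723648, 770076901376, 174546354176, 25383927808, 1555784794112, 1183078940672, ⟨9530532429824, 0⟩, ⟨0, 4986457030656⟩, ⟨947430555648, 0⟩, ⟨0, 0⟩, ⟨0, 0⟩⟩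

def BI2 : BC := ⟨⟨0, 0, 1099511627776, 0⟩, ⟨0, 0⟩, ⟨0, 0⟩, 141621526528, 42341498880, 118415294464, 766521769984, 174546354176, 30517755904, 1742028668928, 1053810491392, ⟨5549097746432, 0⟩, ⟨0, 4913442586624⟩, ⟨950772432896, 0⟩, ⟨0, 0⟩, ⟨0, 0⟩⟩

def BR0 : BC := ⟨⟨0, 0, 0, 0⟩, ⟨137438953472, 0⟩, ⟨1099511627776, 0⟩, 131463708672, 41991471104, 113718657024, 803639001088, 174546354176, 12364808192, 432936058880, 1228025102336, ⟨0, 0⟩, ⟨0, 0⟩, ⟨960987332608, 0⟩, ⟨0, 0⟩, ⟨0, 0⟩⟩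

def BP : BC := ⟨⟨0, 0, 0, 0⟩, ⟨137438953472, 0⟩, ⟨1099511627776, 0⟩, 107539398656, 34287845376, 93217554432, 648982691840, 115447627776, 10569646080, 432936058880, 1214552997888, ⟨0, 0⟩, ⟨0, 0⟩, ⟨432690495488, 0⟩, ⟨0, 0⟩, ⟨1099511627776, 0⟩⟩

def BM : BC := ⟨⟨0, 0, 0, 0⟩, ⟨137438953472, 0⟩, ⟨1099511627776, 0⟩, 68500586496, 25318588416, 67868229632, 720612098048, 115447627776, 12364808192, 410723024896, 1228025102336, ⟨0, 0⟩, ⟨0, 0⟩, ⟨463611035648, 0⟩, ⟨0, 0⟩, ⟨0, 1099511627776⟩⟩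

def BT : BC := ⟨⟨0, 0, 1099511627776, 0⟩, ⟨0, 0⟩, ⟨0, 0⟩, 121764446208, 38301466624, 144931160064, 752048209920, 174546354176, 30517755904, 1742028668928, 996365303808, ⟨5025111736320, 0⟩, ⟨0, 4724464025600⟩, ⟨953601884160, 0⟩, ⟨1099511627776, 0⟩, ⟨0, 0⟩⟩

end Pool.Agent.helper82.WC.S4K4
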