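import Pool.Agent.helper82.WC.S4K5C0

/-!
Generated certificates, assembled.
-/

namespace Pool.Agent.helper82.WC.S4K5

open Pool.Agent.helper82.WH
open Pool.Agent.helper31.IC (CovD covD_split TD)

theorem I0AD : CovD 0 [pAD H BI0] [(3573412790272, 274877906944), (307895468032, 44023414784), (77309411328, 77309411328)] :=
  covD_split 2 (by decide +kernel) I0AD_0 I0AD_1
theorem I0RT_1 : CovD 1 [pRT H BI0] [(3573412790272, 274877906944), (307895468032, 44023414784), (115964116992, 38654705664)] :=
  covD_split 2 (by decide +kernel) I0RT_2 I0RT_3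
theorem I0RT : CovD 1 [pRT H BI0] [(3573412790272, 274877906944), (307895468032, 44023414784), (77309411328, 77309411328)] :=
  covD_split 2 (by decide +kernel) I0RT_0 I0RT_1
theorem I1AD_0 : CovD 0 [pAD H BI1] [(3573412790272, 274877906944), (307895468032, 44023414784), (197568495616, 42949672960)] :=
  covD_split 2 (by decide +kernel) I1AD_1 I1AD_2
theorem I1AD_3 : CovD 0 [pAD H BI1] [(3573412790272, 274877906944), (307895468032, 44023414784), (283467841536, 42949672960)] :=
  covD_split 2 (by decide +kernel) I1AD_4 I1AD_5
theorem I1AD : CovD 0 [pAD H BI1] [(3573412790272, 274877906944), (307895468032, 44023414784), (240518168576, 85899345920)] :=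
  covD_split 2 (by decide +kernel) I1AD_0 I1AD_3
theorem I1RT_0 : CovD 1 [pRT H BI1] [(3573412790272, 274877906944), (307895468032, 44023414784), (197568495616, 42949672960)] :=
  covD_split 2 (by decide +kernel) I1RT_1 I1RT_2
theorem I1RT_3 : CovD 1 [pRT H BI1] [(3573412790272, 274877906944), (307895468032, 44023414784), (283467841536, 42949672960)] :=
  covD_split 2 (by decide +kernel) I1RT_4 I1RT_5
theorem I1RT : CovD 1 [pRT H BI1] [(3573412790272, 274877906944), (307895468032, 44023414784), (240518168576, 85899345920)] :=
  covD_split 2 (by decide +kernel) I1RT_0 I1RT_3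
theorem I2AD : CovD 0 [pAD H BI2] [(3573412790272, 274877906944), (307895468032, 44023414784), (369367187456, 42949672960)] :=
  covD_split 2 (by decide +kernel) I2AD_0 I2AD_1
theorem I2RT : CovD 1 [pRT H BI2] [(3573412790272, 274877906944), (307895468032, 44023414784), (369367187456, 42949672960)] :=
  covD_split 2 (by decide +kernel) I2RT_0 I2RT_1

end Pool.Agent.helper82.WC.S4K5
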