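import Pool.Agent.helper82.WH.Chks

/-!
Generated: constants of a cell.
-/

namespace Pool.Agent.helper82.WC.S4K5

open Pool.Agent.helper82.WH
open Pool.Agent.helper31.IC (CovD covD_split TD)

def H : HC := ⟨⟨3573412790272, 0⟩, ⟨86219751424, 0⟩, ⟨0, 295260389376⟩, ⟨0, 824086167552⟩, ⟨710685032448, 0⟩, ⟨0, 6438452723712⟩, ⟨457703030784, 0⟩, ⟨0, 823395155968⟩, ⟨14311704297472, 0⟩, ⟨0, 32819039895552⟩, ⟨596592295936, 0⟩, ⟨9429647360, 0⟩, ⟨830193139712, 0⟩, ⟨1357481508864, 0⟩, ⟨795742240768, 0⟩, ⟨0, 1146792574976⟩, ⟨0, 1500282159104⟩, ⟨0, 1362449793024⟩, ⟨671373918208, 0⟩, ⟨0, 1602284290048⟩, ⟨3450906673152, 0⟩, ⟨1906876088320, 0⟩, ⟨16517758976, 0⟩, ⟨1189123457024, 0⟩, ⟨0, 24978360893440⟩, ⟨100119573037056, 0⟩, ⟨0, 0⟩⟩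

def BI0 : BC := ⟨⟨0, 0, 1099511627776, 0⟩, ⟨0, 0⟩, ⟨0, 0⟩, 198595641344, 47842983936, 112938057728, 726043787264, 174546354176, 18387828736, 1041982554112, 1150464032768, ⟨14177687044096, 0⟩, ⟨0, 2010044694528⟩, ⟨893824073728, 0⟩, ⟨0, 0⟩, ⟨0, 0⟩⟩

def BI1 : BC := ⟨⟨0, 0, 1099511627776, 0⟩, ⟨0, 0⟩, ⟨0, 0⟩, 184648794112, 46347845632, 133740167168, 714133209088, 174546354176, 23907532800, 1475908468736, 1119073861632, ⟨9899899617280, 0⟩, ⟨0, 4711579123712⟩, ⟨907501240320, 0⟩, ⟨0, 0⟩, ⟨0, 0⟩⟩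

def BI2 : BC := ⟨⟨0, 0, 1099511627776, 0⟩, ⟨0, 0⟩, ⟨0, 0⟩, 172862799872, 42378723328, 130670854144, 726623322112, 174546354176, 28689039360, 1688643567616, 1023577948160, ⟨6644314406912, 0⟩, ⟨0, 5188320493568⟩, ⟨919363649536, 0⟩, ⟨0, 0⟩, ⟨0, 0⟩⟩

def BR0 : BC := ⟨⟨0, 0, 0, 0⟩, ⟨137438953472, 0⟩, ⟨1099511627776, 0⟩, 173913604096, 41470066688, 135983988736, 735050465280, 174546354176, 18555600896, 827385184256, 1161402777600, ⟨0, 0⟩, ⟨0, 0⟩, ⟨918240952320, 0⟩, ⟨0, 0⟩, ⟨0, 0⟩⟩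

def BP : BC := ⟨⟨0, 0, 0, 0⟩, ⟨137438953472, 0⟩, ⟨1099511627776, 0⟩, 151096000512, 34206384128, 115659243520, 592235921408, 115447627776, 14495514624, 827385184256, 1139038748672, ⟨0, 0⟩, ⟨0, 0⟩, ⟨409542262784, 0⟩, ⟨0, 0⟩, ⟨1099511627776, 0⟩⟩

def BM : BC := ⟨⟨0, 0, 0, 0⟩, ⟨137438953472, 0⟩, ⟨1099511627776, 0⟩, 117333229568, 26381975552, 94491705344, 660426063872, 115447627776, 18555600896, 752374251520, 1161402777600, ⟨0, 0⟩, ⟨0, 0⟩, ⟨440492228608, 0⟩, ⟨0, 0⟩, ⟨0, 1099511627776⟩⟩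

def BT : BC := ⟨⟨0, 0, 1099511627776, 0⟩, ⟨0, 0⟩, ⟨0, 0⟩, 116322205696, 30128275456, 133090246656, 678889521152, 174546354176, 28689039360, 1688643567616, 965864325120, ⟨6120328396800, 0⟩, ⟨0, 5055176507392⟩, ⟨826110574592, 0⟩, ⟨1099511627776, 0⟩, ⟨0, 0⟩⟩

end Pool.Agent.helper82.WC.S4K5
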