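import Pool.Agent.helper82.WC.S4K6C0

/-!
Generated certificates, assembled.
-/

namespace Pool.Agent.helper82.WC.S4K6

open Pool.Agent.helper82.WH
open Pool.Agent.helper31.IC (CovD covD_split TD)

theorem I0AD_2 : CovD 0 [pAD H BI0] [(3573412790272, 274877906944), (401311006720, 49392123904), (148176371712, 49392123904)] :=
  covD_split 2 (by decide +kernel) I0AD_3 I0AD_4
theorem I0AD_0 : CovD 0 [pAD H BI0] [(3573412790272, 274877906944), (401311006720, 49392123904), (98784247808, 98784247808)] :=
  covD_split 2 (by decide +kernel) I0AD_1 I0AD_2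
theorem I0AD_6 : CovD 0 [pAD H BI0] [(3573412790272, 274877906944), (401311006720, 49392123904), (246960619520, 49392123904)] :=
  covD_split 2 (by decide +kernel) I0AD_7 I0AD_8
theorem I0AD_9 : CovD 0 [pAD H BI0] [(3573412790272, 274877906944), (401311006720, 49392123904), (345744867328, 49392123904)] :=
  covD_split 2 (by decide +kernel) I0AD_10 I0AD_11
theorem I0AD_5 : CovD 0 [pAD H BI0] [(3573412790272, 274877906944), (401311006720, 49392123904), (296352743424, 98784247808)] :=
  covD_split 2 (by decide +kernel) I0AD_6 I0AD_9
theorem I0AD : CovD 0 [pAD H BI0] [(3573412790272, 274877906944), (401311006720, 49392123904), (197568495616, 197568495616)] :=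
  covD_split 2 (by decide +kernel) I0AD_0 I0AD_5
theorem I0G : CovD 1 [pG H BI0] [(3573412790272, 274877906944), (401311006720, 49392123904), (197568495616, 197568495616)] :=
  covD_split 2 (by decide +kernel) I0G_0 I0G_1
theorem I0RT_0 : CovD 1 [pRT H BI0] [(3573412790272, 274877906944), (401311006720, 49392123904), (98784247808, 98784247808)] :=
  covD_split 2 (by decide +kernel) I0RT_1 I0RT_2
theorem I0RT_4 : CovD 1 [pRT H BI0] [(3573412790272, 274877906944), (401311006720, 49392123904), (246960619520, 49392123904)] :=
  covD_split 2 (by decide +kernel) I0RT_5 I0RT_6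
theorem I0RT_9 : CovD 1 [pRT H BI0] [(3573412790272, 274877906944), (401311006720, 49392123904), (370440929280, 24696061952)] :=
  covD_split 1 (by decide +kernel) I0RT_10 I0RT_11
theorem I0RT_7 : CovD 1 [pRT H BI0] [(3573412790272, 274877906944), (401311006720, 49392123904), (345744867328, 49392123904)] :=
  covD_split 2 (by decide +kernel) I0RT_8 I0RT_9
theorem I0RT_3 : CovD 1 [pRT H BI0] [(3573412790272, 274877906944), (401311006720, 49392123904), (296352743424, 98784247808)] :=
  covD_split 2 (by decide +kernel) I0RT_4 I0RT_7
theorem I0RT : CovD 1 [pRT H BI0] [(3573412790272, 274877906944), (401311006720, 49392123904), (197568495616, 197568495616)] :=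
  covD_split 2 (by decide +kernel) I0RT_0 I0RT_3

end Pool.Agent.helper82.WC.S4K6
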