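import Pool.Agent.helper82.WH.Chks

/-!
Generated: constants of a cell.
-/

namespace Pool.Agent.helper82.WC.S4K6

open Pool.Agent.helper82.WH
open Pool.Agent.helper31.IC (CovD covD_split TD)

def H : HC := ⟨⟨3573412790272, 0⟩, ⟨146474598400, 0⟩, ⟨366785134592, 0⟩, ⟨0, 689924734976⟩, ⟨1519898132480, 0⟩, ⟨0, 7178737745920⟩, ⟨245969387520, 0⟩, ⟨0, 3938809610240⟩, ⟨18804172980224, 0⟩, ⟨0, 28616605761536⟩, ⟨638987730944, 0⟩, ⟨39601766400, 0⟩, ⟨851210207232, 0⟩, ⟨1349430083584, 0⟩, ⟨740209131520, 0⟩, ⟨0, 1472641368064⟩, ⟨0, 1770860838912⟩, ⟨0, 1239378165760⟩, ⟨1115684864000, 0⟩, ⟨0, 787692388352⟩, ⟨2021162352640, 0⟩, ⟨2264414289920, 0⟩, ⟨0, 129740767232⟩, ⟨263777484800, 0⟩, ⟨0, 27453718265856⟩, ⟨99895906992128, 0⟩, ⟨0, 0⟩⟩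

def BI0 : BC := ⟨⟨0, 0, 1099511627776, 0⟩, ⟨0, 0⟩, ⟨0, 0⟩, 223175245824, 45059145728, 170311745536, 637049176064, 174546354176, 27564965888, 1765114118144, 1030792151040, ⟨9835475107840, 0⟩, ⟨0, 3599182594048⟩, ⟨868457840640, 0⟩, ⟨0, 0⟩, ⟨0, 0⟩⟩

def BR0 : BC := ⟨⟨0, 0, 0, 0⟩, ⟨137438953472, 0⟩, ⟨1099511627776, 0⟩, 238207762432, 41330540544, 149614755840, 654504361984, 174546354176, 20837302272, 1253258035200, 1047653253120, ⟨0, 0⟩, ⟨0, 0⟩, ⟨853757263872, 0⟩, ⟨0, 0⟩, ⟨0, 0⟩⟩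

def BP : BC := ⟨⟨0, 0, 0, 0⟩, ⟨137438953472, 0⟩, ⟨1099511627776, 0⟩, 229329010688, 43598282752, 157877862400, 542726291456, 115447627776, 15284043776, 1253258035200, 1013343846400, ⟨0, 0⟩, ⟨0, 0⟩, ⟨417255587840, 0⟩, ⟨0, 0⟩, ⟨1099511627776, 0⟩⟩

def BM : BC := ⟨⟨0, 0, 0, 0⟩, ⟨137438953472, 0⟩, ⟨1099511627776, 0⟩, 214346760192, 34967650304, 132116643840, 623276392448, 115447627776, 20837302272, 1166922481664, 1047653253120, ⟨0, 0⟩, ⟨0, 0⟩, ⟨455491059712, 0⟩, ⟨0, 0⟩, ⟨0, 1099511627776⟩⟩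

def BT : BC := ⟨⟨0, 0, 1099511627776, 0⟩, ⟨0, 0⟩, ⟨0, 0⟩, 165232312320, 33470021632, 146937675776, 596393000960, 174546354176, 27564965888, 1765114118144, 891625144320, ⟨6794638262272, 0⟩, ⟨0, 4960687226880⟩, ⟨747528060928, 0⟩, ⟨1099511627776, 0⟩, ⟨0, 0⟩⟩

end Pool.Agent.helper82.WC.S4K6
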