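import Pool.Agent.helper82.WC.S4K7C0

/-!
Generated certificates, assembled.
-/

namespace Pool.Agent.helper82.WC.S4K7

open Pool.Agent.helper82.WH
open Pool.Agent.helper31.IC (CovD covD_split TD)

theorem I0AD_1 : CovD 0 [pAD H BI0] [(3573412790272, 274877906944), (502980935680, 52277805056), (81604378624, 81604378624)] :=
  covD_split 2 (by decide +kernel) I0AD_2 I0AD_3
theorem I0AD_4 : CovD 0 [pAD H BI0] [(3573412790272, 274877906944), (607536545792, 52277805056), (81604378624, 81604378624)] :=
  covD_split 2 (by decide +kernel) I0AD_5 I0AD_6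
theorem I0AD_0 : CovD 0 [pAD H BI0] [(3573412790272, 274877906944), (555258740736, 104555610112), (81604378624, 81604378624)] :=
  covD_split 1 (by decide +kernel) I0AD_1 I0AD_4
theorem I0AD_8 : CovD 0 [pAD H BI0] [(3573412790272, 274877906944), (502980935680, 52277805056), (244813135872, 81604378624)] :=
  covD_split 2 (by decide +kernel) I0AD_9 I0AD_10
theorem I0AD_13 : CovD 0 [pAD H BI0] [(3573412790272, 274877906944), (607536545792, 52277805056), (285615325184, 40802189312)] :=
  covD_split 1 (by decide +kernel) I0AD_14 I0AD_15
theorem I0AD_11 : CovD 0 [pAD H BI0] [(3573412790272, 274877906944), (607536545792, 52277805056), (244813135872, 81604378624)] :=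
  covD_split 2 (by decide +kernel) I0AD_12 I0AD_13
theorem I0AD_7 : CovD 0 [pAD H BI0] [(3573412790272, 274877906944), (555258740736, 104555610112), (244813135872, 81604378624)] :=
  covD_split 1 (by decide +kernel) I0AD_8 I0AD_11
theorem I0AD : CovD 0 [pAD H BI0] [(3573412790272, 274877906944), (555258740736, 104555610112), (163208757248, 163208757248)] :=
  covD_split 2 (by decide +kernel) I0AD_0 I0AD_7
theorem I0RT_2 : CovD 1 [pRT H BI0] [(3573412790272, 274877906944), (502980935680, 52277805056), (244813135872, 81604378624)] :=
  covD_split 2 (by decide +kernel) I0RT_3 I0RT_4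
theorem I0RT_1 : CovD 1 [pRT H BI0] [(3573412790272, 274877906944), (555258740736, 104555610112), (244813135872, 81604378624)] :=
  covD_split 1 (by decide +kernel) I0RT_2 I0RT_5
theorem I0RT : CovD 1 [pRT H BI0] [(3573412790272, 274877906944), (555258740736, 104555610112), (163208757248, 163208757248)] :=
  covD_split 2 (by decide +kernel) I0RT_0 I0RT_1

end Pool.Agent.helper82.WC.S4K7
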