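import Pool.Agent.helper82.WC.S4K7P

/-!
Generated certificates (in pairs, so that they are checked one after the other).
-/

namespace Pool.Agent.helper82.WC.S4K7

open Pool.Agent.helper82.WH
open Pool.Agent.helper31.IC (CovD covD_split TD)

mutual
theorem I0AD_2 : CovD 0 [pAD H BI0] [(3573412790272, 274877906944), (502980935680, 52277805056), (40802189312, 40802189312)] :=
  cov_of (fAD H BI0) (.n 1 (.n 2 (.n 0 (.l 0) (.l 0)) (.n 0 (.n 0 (.l 0) (.l 0)) (.n 0 (.l 0) (.l 0)))) (.n 2 (.n 0 (.n 0 (.l 0) (.l 0)) (.n 0 (.l 0) (.l 0))) (.n 0 (.n 0 (.l 0) (.l 0)) (.n 0 (.l 0) (.l 0))))) [(3573412790272, 274877906944), (502980935680, 52277805056), (40802189312, 40802189312)] rfl (by decide +kernel)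
theorem I0AD_3 : CovD 0 [pAD H BI0] [(3573412790272, 274877906944), (502980935680, 52277805056), (122406567936, 40802189312)] :=
  cov_of (fAD H BI0) (.n 1 (.n 2 (.n 0 (.n 0 (.l 0) (.l 0)) (.n 0 (.l 0) (.l 0))) (.n 0 (.n 0 (.l 0) (.l 0)) (.n 0 (.l 0) (.l 0)))) (.n 2 (.n 0 (.n 0 (.l 0) (.l 0)) (.n 0 (.l 0) (.l 0))) (.n 0 (.n 0 (.l 0) (.l 0)) (.n 0 (.l 0) (.l 0))))) [(3573412790272, 274877906944), (502980935680, 52277805056), (122406567936, 40802189312)] rfl (by decide +kernel)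
end

mutual
theorem I0AD_5 : CovD 0 [pAD H BI0] [(3573412790272, 274877906944), (607536545792, 52277805056), (40802189312, 40802189312)] :=
  cov_of (fAD H BI0) (.n 1 (.n 2 (.n 0 (.n 0 (.l 0) (.l 0)) (.n 1 (.l 0) (.l 0))) (.n 0 (.n 0 (.l 0) (.l 0)) (.n 1 (.l 0) (.l 0)))) (.n 2 (.n 0 (.n 1 (.l 0) (.l 0)) (.n 1 (.n 0 (.l 0) (.l 0)) (.n 0 (.l 0) (.l 0)))) (.n 0 (.n 1 (.l 0) (.l 0)) (.n 1 (.n 0 (.l 0) (.l 0)) (.n 0 (.l 0) (.l 0)))))) [(3573412790272, 274877906944), (607536545792, 52277805056), (40802189312, 40802189312)] rfl (by decide +kernel)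
theorem I0AD_6 : CovD 0 [pAD H BI0] [(3573412790272, 274877906944), (607536545792, 52277805056), (122406567936, 40802189312)] :=
  cov_of (fAD H BI0) (.n 1 (.n 2 (.n 0 (.n 0 (.l 0) (.l 0)) (.n 1 (.l 0) (.l 0))) (.n 0 (.n 1 (.l 0) (.l 0)) (.n 1 (.l 0) (.l 0)))) (.n 2 (.n 0 (.n 1 (.l 0) (.l 0)) (.n 1 (.l 0) (.l 0))) (.n 0 (.n 1 (.l 0) (.l 0)) (.n 1 (.l 0) (.l 0))))) [(3573412790272, 274877906944), (607536545792, 52277805056), (122406567936, 40802189312)] rfl (by decide +kernel)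
end

mutual
theorem I0AD_9 : CovD 0 [pAD H BI0] [(3573412790272, 274877906944), (502980935680, 52277805056), (204010946560, 40802189312)] :=
  cov_of (fAD H BI0) (.n 1 (.n 2 (.n 0 (.n 0 (.l 0) (.l 0)) (.n 0 (.l 0) (.l 0))) (.n 0 (.n 0 (.l 0) (.l 0)) (.n 0 (.l 0) (.l 0)))) (.n 2 (.n 0 (.n 0 (.l 0) (.l 0)) (.n 1 (.l 0) (.l 0))) (.n 0 (.n 1 (.l 0) (.l 0)) (.n 1 (.l 0) (.l 0))))) [(3573412790272, 274877906944), (502980935680, 52277805056), (204010946560, 40802189312)] rfl (by decide +kernel)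
theorem I0AD_10 : CovD 0 [pAD H BI0] [(3573412790272, 274877906944), (502980935680, 52277805056), (285615325184, 40802189312)] :=
  cov_of (fAD H BI0) (.n 1 (.n 2 (.n 0 (.n 1 (.l 0) (.l 0)) (.n 1 (.l 0) (.l 0))) (.n 0 (.n 1 (.n 0 (.l 0) (.l 0)) (.n 0 (.l 0) (.l 0))) (.n 1 (.n 0 (.l 0) (.l 0)) (.n 0 (.l 0) (.l 0))))) (.n 2 (.n 0 (.n 1 (.l 0) (.l 0)) (.n 1 (.l 0) (.l 0))) (.n 0 (.n 1 (.n 0 (.l 0) (.l 0)) (.n 2 (.l 0) (.l 0))) (.n 1 (.n 0 (.l 0) (.l 0)) (.n 2 (.l 0) (.l 0)))))) [(3573412790272, 274877906944), (502980935680, 52277805056), (285615325184, 40802189312)] rfl (by decide +kernel)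
end

mutual
theorem I0AD_12 : CovD 0 [pAD H BI0] [(3573412790272, 274877906944), (607536545792, 52277805056), (204010946560, 40802189312)] :=
  cov_of (fAD H BI0) (.n 1 (.n 2 (.n 0 (.n 1 (.l 0) (.l 0)) (.n 1 (.l 0) (.l 0))) (.n 0 (.n 1 (.l 0) (.l 0)) (.n 1 (.l 0) (.l 0)))) (.n 2 (.n 0 (.n 1 (.l 0) (.l 0)) (.n 1 (.l 0) (.l 0))) (.n 0 (.n 1 (.n 0 (.l 0) (.l 0)) (.n 0 (.l 0) (.l 0))) (.n 1 (.l 0) (.l 0))))) [(3573412790272, 274877906944), (607536545792, 52277805056), (204010946560, 40802189312)] rfl (by decide +kernel)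
theorem I0AD_14 : CovD 0 [pAD H BI0] [(3573412790272, 274877906944), (581397643264, 26138902528), (285615325184, 40802189312)] :=
  cov_of (fAD H BI0) (.n 2 (.n 0 (.n 1 (.n 0 (.l 0) (.l 0)) (.n 0 (.l 0) (.l 0))) (.n 1 (.l 0) (.n 0 (.l 0) (.l 0)))) (.n 0 (.n 1 (.n 2 (.l 0) (.l 0)) (.n 2 (.l 0) (.l 0))) (.n 1 (.n 2 (.l 0) (.l 0)) (.n 2 (.l 0) (.l 0))))) [(3573412790272, 274877906944), (581397643264, 26138902528), (285615325184, 40802189312)] rfl (by decide +kernel)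
end

mutual
theorem I0AD_15 : CovD 0 [pAD H BI0] [(3573412790272, 274877906944), (633675448320, 26138902528), (285615325184, 40802189312)] :=
  cov_of (fAD H BI0) (.n 2 (.n 0 (.n 1 (.n 0 (.l 0) (.l 0)) (.n 0 (.l 0) (.l 0))) (.n 1 (.n 0 (.l 0) (.l 0)) (.n 0 (.l 0) (.l 0)))) (.n 1 (.n 0 (.n 2 (.l 0) (.l 0)) (.n 2 (.l 0) (.l 0))) (.n 0 (.n 2 (.l 0) (.l 0)) (.n 0 (.l 0) (.l 0))))) [(3573412790272, 274877906944), (633675448320, 26138902528), (285615325184, 40802189312)] rfl (by decide +kernel)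
theorem I0G : CovD 1 [pG H BI0] [(3573412790272, 274877906944), (555258740736, 104555610112), (163208757248, 163208757248)] :=
  cov_of (fG H BI0) (.n 2 (.n 1 (.n 2 (.n 1 (.l 0) (.l 0)) (.n 1 (.n 0 (.l 0) (.l 0)) (.l 0))) (.n 2 (.l 0) (.l 0))) (.n 1 (.n 2 (.n 1 (.n 2 (.l 0) (.l 0)) (.l 0)) (.n 1 (.n 0 (.l 0) (.l 0)) (.l 0))) (.n 2 (.n 0 (.l 0) (.l 0)) (.n 1 (.l 0) (.n 2 (.l 0) (.l 0)))))) [(3573412790272, 274877906944), (555258740736, 104555610112), (163208757248, 163208757248)] rfl (by decide +kernel)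
end

mutual
theorem I0RT_0 : CovD 1 [pRT H BI0] [(3573412790272, 274877906944), (555258740736, 104555610112), (81604378624, 81604378624)] :=
  cov_of (fRT H BI0) (.n 1 (.n 2 (.n 1 (.n 2 (.n 0 (.l 0) (.l 0)) (.n 1 (.l 0) (.l 0))) (.n 2 (.l 0) (.n 0 (.l 0) (.l 0)))) (.n 1 (.n 2 (.n 1 (.n 0 (.l 0) (.l 0)) (.l 0)) (.n 1 (.n 0 (.l 0) (.l 0)) (.l 0))) (.n 2 (.n 0 (.l 0) (.l 0)) (.n 0 (.l 0) (.l 0))))) (.n 2 (.n 1 (.n 0 (.l 0) (.l 0)) (.l 0)) (.n 1 (.n 2 (.l 0) (.l 0)) (.n 2 (.l 0) (.l 0))))) [(3573412790272, 274877906944), (555258740736, 104555610112), (81604378624, 81604378624)] rfl (by decide +kernel)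
theorem I0RT_3 : CovD 1 [pRT H BI0] [(3573412790272, 274877906944), (502980935680, 52277805056), (204010946560, 40802189312)] :=
  cov_of (fRT H BI0) (.n 1 (.n 2 (.n 0 (.n 0 (.l 0) (.l 0)) (.n 1 (.l 0) (.l 0))) (.n 1 (.n 2 (.l 0) (.l 0)) (.n 0 (.l 0) (.l 0)))) (.n 2 (.n 0 (.l 0) (.l 0)) (.n 1 (.l 0) (.l 0)))) [(3573412790272, 274877906944), (502980935680, 52277805056), (204010946560, 40802189312)] rfl (by decide +kernel)
end

mutual
theorem I0RT_4 : CovD 1 [pRT H BI0] [(3573412790272, 274877906944), (502980935680, 52277805056), (285615325184, 40802189312)] :=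
  cov_of (fRT H BI0) (.n 1 (.n 2 (.n 1 (.n 0 (.l 0) (.n 2 (.l 0) (.l 0))) (.n 0 (.l 0) (.l 0))) (.n 1 (.n 0 (.n 0 (.l 0) (.l 0)) (.n 2 (.l 0) (.n 1 (.l 0) (.l 0)))) (.n 0 (.l 0) (.n 2 (.l 0) (.l 0))))) (.n 2 (.n 1 (.n 0 (.l 0) (.l 0)) (.n 0 (.l 0) (.l 0))) (.n 1 (.n 2 (.l 0) (.n 0 (.l 0) (.l 0))) (.n 0 (.l 0) (.l 0))))) [(3573412790272, 274877906944), (502980935680, 52277805056), (285615325184, 40802189312)] rfl (by decide +kernel)
theorem I0RT_5 : CovD 1 [pRT H BI0] [(3573412790272, 274877906944), (607536545792, 52277805056), (244813135872, 81604378624)] :=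
  cov_of (fRT H BI0) (.n 2 (.n 1 (.n 2 (.l 0) (.n 0 (.l 0) (.l 0))) (.n 1 (.l 0) (.l 0))) (.n 1 (.n 2 (.n 1 (.l 0) (.l 0)) (.n 1 (.n 0 (.l 0) (.l 0)) (.n 0 (.l 0) (.l 0)))) (.n 1 (.n 2 (.l 0) (.l 0)) (.n 2 (.l 0) (.n 0 (.l 0) (.l 0)))))) [(3573412790272, 274877906944), (607536545792, 52277805056), (244813135872, 81604378624)] rfl (by decide +kernel)
end

mutual
theorem R0AD : CovD 0 [pAD H BR0] [(3573412790272, 274877906944), (555258740736, 104555610112), (1099511627776, 1099511627776)] :=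
  cov_of (fAD H BR0) (.n 1 (.n 1 (.n 0 (.l 0) (.l 0)) (.n 0 (.n 2 (.l 0) (.l 0)) (.n 2 (.l 0) (.l 0)))) (.n 1 (.n 0 (.n 1 (.l 0) (.l 0)) (.n 1 (.l 0) (.l 0))) (.n 0 (.n 1 (.l 0) (.l 0)) (.n 1 (.n 2 (.l 0) (.l 0)) (.n 2 (.l 0) (.l 0)))))) [(3573412790272, 274877906944), (555258740736, 104555610112), (1099511627776, 1099511627776)] rfl (by decide +kernel)
theorem R0G : CovD 1 [pG H BR0] [(3573412790272, 274877906944), (555258740736, 104555610112), (1099511627776, 1099511627776)] :=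
  cov_of (fG H BR0) (.n 1 (.l 0) (.l 0)) [(3573412790272, 274877906944), (555258740736, 104555610112), (1099511627776, 1099511627776)] rfl (by decide +kernel)
end

mutual
theorem R0RT : CovD 1 [pRT H BR0] [(3573412790272, 274877906944), (555258740736, 104555610112), (1099511627776, 1099511627776)] :=
  cov_of (fRT H BR0) (.n 1 (.n 1 (.n 1 (.l 0) (.l 0)) (.l 0)) (.n 1 (.l 0) (.l 0))) [(3573412790272, 274877906944), (555258740736, 104555610112), (1099511627776, 1099511627776)] rfl (by decide +kernel)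
theorem R0RS : CovD 1 [pRS H BR0] [(3573412790272, 274877906944), (555258740736, 104555610112), (1099511627776, 1099511627776)] :=
  cov_of (fRS H BR0) (.l 0) [(3573412790272, 274877906944), (555258740736, 104555610112), (1099511627776, 1099511627776)] rfl (by decide +kernel)
end

mutual
theorem PAD : CovD 0 [pAD H BP] [(3573412790272, 274877906944), (555258740736, 104555610112), (2199023255552, 0)] :=
  cov_of (fAD H BP) (.n 1 (.n 1 (.n 0 (.l 0) (.l 0)) (.n 0 (.l 0) (.l 0))) (.n 1 (.n 0 (.l 0) (.l 0)) (.n 0 (.n 0 (.l 0) (.l 0)) (.n 0 (.l 0) (.l 0))))) [(3573412790272, 274877906944), (555258740736, 104555610112), (2199023255552, 0)] rfl (by decide +kernel)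
theorem PG : CovD 1 [pG H BP] [(3573412790272, 274877906944), (555258740736, 104555610112), (2199023255552, 0)] :=
  cov_of (fG H BP) (.n 1 (.l 0) (.l 0)) [(3573412790272, 274877906944), (555258740736, 104555610112), (2199023255552, 0)] rfl (by decide +kernel)
end

mutual
theorem PRT : CovD 1 [pRT H BP] [(3573412790272, 274877906944), (555258740736, 104555610112), (2199023255552, 0)] :=
  cov_of (fRT H BP) (.n 1 (.n 1 (.l 0) (.l 0)) (.n 0 (.l 0) (.l 0))) [(3573412790272, 274877906944), (555258740736, 104555610112), (2199023255552, 0)] rfl (by decide +kernel)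
theorem PTT : CovD 1 [pTT H BP] [(3573412790272, 274877906944), (555258740736, 104555610112), (2199023255552, 0)] :=
  cov_of (fTT H BP) (.n 1 (.n 1 (.n 0 (.n 0 (.l 0) (.l 0)) (.n 0 (.l 0) (.l 0))) (.n 0 (.l 0) (.l 0))) (.n 1 (.n 0 (.l 0) (.l 0)) (.n 0 (.l 0) (.l 0)))) [(3573412790272, 274877906944), (555258740736, 104555610112), (2199023255552, 0)] rfl (by decide +kernel)
end

mutual
theorem MAD : CovD 0 [pAD H BM] [(3573412790272, 274877906944), (555258740736, 104555610112), (0, 0)] :=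
  cov_of (fAD H BM) (.n 1 (.n 1 (.n 0 (.l 0) (.l 0)) (.n 0 (.l 0) (.l 0))) (.n 1 (.n 0 (.n 0 (.l 0) (.l 0)) (.n 0 (.l 0) (.l 0))) (.n 0 (.n 0 (.l 0) (.l 0)) (.n 1 (.n 0 (.l 0) (.l 0)) (.n 0 (.l 0) (.l 0)))))) [(3573412790272, 274877906944), (555258740736, 104555610112), (0, 0)] rfl (by decide +kernel)
theorem MG : CovD 1 [pG H BM] [(3573412790272, 274877906944), (555258740736, 104555610112), (0, 0)] :=
  cov_of (fG H BM) (.n 1 (.n 1 (.l 0) (.l 0)) (.l 0)) [(3573412790272, 274877906944), (555258740736, 104555610112), (0, 0)] rfl (by decide +kernel)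
end

mutual
theorem MRT : CovD 1 [pRT H BM] [(3573412790272, 274877906944), (555258740736, 104555610112), (0, 0)] :=
  cov_of (fRT H BM) (.n 1 (.n 1 (.n 0 (.l 0) (.l 0)) (.l 0)) (.n 1 (.l 0) (.l 0))) [(3573412790272, 274877906944), (555258740736, 104555610112), (0, 0)] rfl (by decide +kernel)
theorem MTT : CovD 1 [pTT H BM] [(3573412790272, 274877906944), (555258740736, 104555610112), (0, 0)] :=
  cov_of (fTT H BM) (.n 1 (.n 1 (.n 0 (.n 1 (.n 0 (.l 0) (.l 0)) (.l 0)) (.n 1 (.n 0 (.l 0) (.l 0)) (.l 0))) (.n 0 (.l 0) (.l 0))) (.n 1 (.n 0 (.l 0) (.l 0)) (.l 0))) [(3573412790272, 274877906944), (555258740736, 104555610112), (0, 0)] rfl (by decide +kernel)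
end

mutual
theorem TAD : CovD 0 [pAD H BT] [(3573412790272, 274877906944), (555258740736, 104555610112), (326417514496, 0)] :=
  cov_of (fAD H BT) (.n 1 (.n 1 (.n 0 (.n 0 (.l 0) (.l 0)) (.n 0 (.l 0) (.l 0))) (.n 0 (.n 1 (.l 0) (.l 0)) (.n 0 (.l 0) (.l 0)))) (.n 1 (.n 0 (.n 1 (.l 0) (.l 0)) (.n 1 (.l 0) (.l 0))) (.n 0 (.n 1 (.l 0) (.l 0)) (.n 1 (.l 0) (.l 0))))) [(3573412790272, 274877906944), (555258740736, 104555610112), (326417514496, 0)] rfl (by decide +kernel)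
theorem TG : CovD 1 [pG H BT] [(3573412790272, 274877906944), (555258740736, 104555610112), (326417514496, 0)] :=
  cov_of (fG H BT) (.n 1 (.l 0) (.n 0 (.l 0) (.l 0))) [(3573412790272, 274877906944), (555258740736, 104555610112), (326417514496, 0)] rfl (by decide +kernel)
end

mutual
theorem TRT : CovD 1 [pRT H BT] [(3573412790272, 274877906944), (555258740736, 104555610112), (326417514496, 0)] :=
  cov_of (fRT H BT) (.n 1 (.n 1 (.n 1 (.n 0 (.l 0) (.l 0)) (.l 0)) (.n 0 (.l 0) (.l 0))) (.n 1 (.l 0) (.n 0 (.l 0) (.l 0)))) [(3573412790272, 274877906944), (555258740736, 104555610112), (326417514496, 0)] rfl (by decide +kernel)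
theorem TTT : CovD 1 [pTT H BT] [(3573412790272, 274877906944), (555258740736, 104555610112), (326417514496, 0)] :=
  cov_of (fTT H BT) (.n 1 (.n 1 (.n 0 (.n 1 (.n 0 (.l 0) (.l 0)) (.l 0)) (.n 0 (.l 0) (.l 0))) (.n 0 (.l 0) (.l 0))) (.n 1 (.n 0 (.l 0) (.l 0)) (.n 0 (.l 0) (.l 0)))) [(3573412790272, 274877906944), (555258740736, 104555610112), (326417514496, 0)] rfl (by decide +kernel)
end

end Pool.Agent.helper82.WC.S4K7
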