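import Pool.Agent.helper82.WH.Chks

/-!
Generated: constants of a cell.
-/

namespace Pool.Agent.helper82.WC.S4K7

open Pool.Agent.helper82.WH
open Pool.Agent.helper31.IC (CovD covD_split TD)

def H : HC := ⟨⟨3573412790272, 0⟩, ⟨280408358912, 0⟩, ⟨723050430464, 0⟩, ⟨0, 433841963008⟩, ⟨1204800782336, 0⟩, ⟨0, 8822583853056⟩, ⟨0, 142351073280⟩, ⟨0, 3038559731712⟩, ⟨23757823016960, 0⟩, ⟨0, 30434511355904⟩, ⟨745481961472, 0⟩, ⟨83860717568, 0⟩, ⟨900112252928, 0⟩, ⟨1134266744832, 0⟩, ⟨649772990464, 0⟩, ⟨0, 2331120762880⟩, ⟨0, 1677591969792⟩, ⟨0, 1104102162432⟩, ⟨3055738683392, 0⟩, ⟨0, 219602944000⟩, ⟨643223715840, 0⟩, ⟨1824958709760, 0⟩, ⟨0, 3009216512⟩, ⟨353102856192, 0⟩, ⟨0, 16878605500416⟩, ⟨43767464984576, 0⟩, ⟨0, 0⟩⟩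

def BI0 : BC := ⟨⟨0, 0, 1099511627776, 0⟩, ⟨0, 0⟩, ⟨0, 0⟩, 349548249088, 44039405568, 144292904960, 542010245120, 174546354176, 23085449216, 2083814113280, 866207662080, ⟨8362301325312, 0⟩, ⟨0, 2576980377600⟩, ⟨742473465856, 0⟩, ⟨0, 0⟩, ⟨0, 0⟩⟩

def BR0 : BC := ⟨⟨0, 0, 0, 0⟩, ⟨76965806080, 0⟩, ⟨1099511627776, 0⟩, 375016718336, 45135757312, 132870504448, 530247581696, 174546354176, 19444793344, 1975970168832, 877398065152, ⟨0, 0⟩, ⟨0, 0⟩, ⟨717154811904, 0⟩, ⟨0, 0⟩, ⟨0, 0⟩⟩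

def BP : BC := ⟨⟨0, 0, 0, 0⟩, ⟨76965806080, 0⟩, ⟨1099511627776, 0⟩, 296750678016, 30317346816, 90515898368, 382009344000, 174546354176, 15988686848, 1975970168832, 854765600768, ⟨0, 0⟩, ⟨0, 0⟩, ⟨453677154304, 0⟩, ⟨0, 0⟩, ⟨1099511627776, 0⟩⟩

def BM : BC := ⟨⟨0, 0, 0, 0⟩, ⟨76965806080, 0⟩, ⟨1099511627776, 0⟩, 295903821824, 24038998016, 74854367232, 426876534784, 174546354176, 19444793344, 1934379450368, 877398065152, ⟨0, 0⟩, ⟨0, 0⟩, ⟨492937805824, 0⟩, ⟨0, 0⟩, ⟨0, 1099511627776⟩⟩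

def BT : BC := ⟨⟨0, 0, 1099511627776, 0⟩, ⟨0, 0⟩, ⟨0, 0⟩, 268940345344, 49045110784, 157394599936, 564940636160, 174546354176, 23085449216, 2083814113280, 794434732032, ⟨7125350744064, 0⟩, ⟨0, 4187593113600⟩, ⟨768384172032, 0⟩, ⟨1099511627776, 0⟩, ⟨0, 0⟩⟩

end Pool.Agent.helper82.WC.S4K7
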