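import Pool.Agent.helper82.WC.S4K8C0

/-!
Generated certificates, assembled.
-/

namespace Pool.Agent.helper82.WC.S4K8

open Pool.Agent.helper82.WH
open Pool.Agent.helper31.IC (CovD covD_split TD)

theorem I0RT : CovD 1 [pRT H BI0] [(3573412790272, 274877906944), (725715255296, 65900904448), (68719476736, 68719476736)] :=
  covD_split 2 (by decide +kernel) I0RT_0 I0RT_1

end Pool.Agent.helper82.WC.S4K8
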