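import Pool.Agent.helper82.WH.Chks

/-!
Generated: constants of a cell.
-/

namespace Pool.Agent.helper82.WC.S4K8

open Pool.Agent.helper82.WH
open Pool.Agent.helper31.IC (CovD covD_split TD)

def H : HC := ⟨⟨3573412790272, 0⟩, ⟨478996856832, 0⟩, ⟨1936135159808, 0⟩, ⟨0, 93766090752⟩, ⟨173968261120, 0⟩, ⟨0, 17855520702464⟩, ⟨0, 252671426560⟩, ⟨149438595072, 0⟩, ⟨51841302593536, 0⟩, ⟨0, 55375170306048⟩, ⟨905594601472, 0⟩, ⟨173359366144, 0⟩, ⟨815860219904, 0⟩, ⟨653927317504, 0⟩, ⟨247191764992, 0⟩, ⟨0, 2618332086272⟩, ⟨0, 1035042029568⟩, ⟨0, 464652009472⟩, ⟨3265574141952, 0⟩, ⟨136305180672, 0⟩, ⟨0, 526291959808⟩, ⟨1944686428160, 0⟩, ⟨0, 175974973440⟩, ⟨2632649801728, 0⟩, ⟨0, 5857324433408⟩, ⟨0, 2043933818880⟩, ⟨0, 0⟩⟩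

def BI0 : BC := ⟨⟨0, 0, 1099511627776, 0⟩, ⟨0, 0⟩, ⟨0, 0⟩, 296302084096, 78034239488, 266991566848, 445793435648, 174546354176, 13908312064, 2299803992064, 567942316032, ⟨6717328850944, 0⟩, ⟨0, 773094113280⟩, ⟨793274613760, 0⟩, ⟨0, 0⟩, ⟨0, 0⟩⟩

def BR0 : BC := ⟨⟨0, 0, 0, 0⟩, ⟨109951188992, 0⟩, ⟨1099511627776, 0⟩, 297144352768, 77849100288, 259014066176, 452044587008, 174546354176, 15502147584, 2314400169984, 583377354752, ⟨0, 0⟩, ⟨0, 0⟩, ⟨792596447232, 0⟩, ⟨0, 0⟩, ⟨0, 0⟩⟩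

def BP : BC := ⟨⟨0, 0, 0, 0⟩, ⟨109951188992, 0⟩, ⟨1099511627776, 0⟩, 177684742144, 45855539200, 173722828800, 260987551744, 174546354176, 9982443520, 2314400169984, 552993816576, ⟨0, 0⟩, ⟨0, 0⟩, ⟨330517315584, 0⟩, ⟨0, 0⟩, ⟨1099511627776, 0⟩⟩

def BM : BC := ⟨⟨0, 0, 0, 0⟩, ⟨109951188992, 0⟩, ⟨1099511627776, 0⟩, 165457756160, 42732617728, 161969930240, 279562354688, 174546354176, 15502147584, 2264001413120, 583377354752, ⟨0, 0⟩, ⟨0, 0⟩, ⟨346820575232, 0⟩, ⟨0, 0⟩, ⟨0, 1099511627776⟩⟩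

def BT : BC := ⟨⟨0, 0, 1099511627776, 0⟩, ⟨0, 0⟩, ⟨0, 0⟩, 157981147136, 41202614272, 165704630272, 264160346112, 174546354176, 13908312064, 2299803992064, 566885351424, ⟨6627134537728, 0⟩, ⟨0, 1529008357376⟩, ⟨325706055680, 0⟩, ⟨1099511627776, 0⟩, ⟨0, 0⟩⟩

end Pool.Agent.helper82.WC.S4K8
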