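import Pool.Agent.helper82.WC.S4K9C0

/-!
Generated certificates, assembled.
-/

namespace Pool.Agent.helper82.WC.S4K9

open Pool.Agent.helper82.WH
open Pool.Agent.helper31.IC (CovD covD_split TD)

theorem R0AD : CovD 0 [pAD H BR0, pX0] [(3573412790272, 274877906944), (927578718208, 135962558464), (1099511627776, 1099511627776)] :=
  covD_split 1 (by decide +kernel) R0AD_0 R0AD_1

end Pool.Agent.helper82.WC.S4K9
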