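import Pool.Agent.helper82.WH.Chks

/-!
Generated: constants of a cell.
-/

namespace Pool.Agent.helper82.WC.S4K9

open Pool.Agent.helper82.WH
open Pool.Agent.helper31.IC (CovD covD_split TD)

def H : HC := ⟨⟨3573412790272, 0⟩, ⟨782531297280, 0⟩, ⟨786075156480, 0⟩, ⟨0, 103251312640⟩, ⟨189503700992, 0⟩, ⟨0, 5864300347392⟩, ⟨22899720192, 0⟩, ⟨209641209856, 0⟩, ⟨11156966014976, 0⟩, ⟨0, 7240209596416⟩, ⟨1218968748032, 0⟩, ⟨229524832256, 0⟩, ⟨974535393280, 0⟩, ⟨0, 718357200896⟩, ⟨0, 61164486656⟩, ⟨0, 3857243963392⟩, ⟨435706396672, 0⟩, ⟨0, 30317412352⟩, ⟨4224308740096, 0⟩, ⟨2236148416512, 0⟩, ⟨0, 3501601587200⟩, ⟨2194266193920, 0⟩, ⟨0, 94007066624⟩, ⟨1053955129344, 0⟩, ⟨0, 6858210410496⟩, ⟨4871022444544, 0⟩, ⟨0, 0⟩⟩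

def BI0 : BC := ⟨⟨0, 0, 1099511627776, 0⟩, ⟨0, 0⟩, ⟨0, 0⟩, 315223310336, 84059488256, 277219049472, 412805955584, 174546354176, 9747562496, 2556495396864, 432466296832, ⟨5179730558976, 0⟩, ⟨0, 55834574848⟩, ⟨774057754624, 0⟩, ⟨0, 0⟩, ⟨0, 0⟩⟩

def BR0 : BC := ⟨⟨0, 0, 0, 0⟩, ⟨164926717952, 0⟩, ⟨1099511627776, 0⟩, 411304919040, 110093598720, 206384398336, 360605024256, 174546354176, 12851347456, 2577282367488, 446223613952, ⟨0, 0⟩, ⟨0, 0⟩, ⟨679055654912, 0⟩, ⟨0, 0⟩, ⟨0, 0⟩⟩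

def BP : BC := ⟨⟨0, 0, 0, 0⟩, ⟨164926717952, 0⟩, ⟨1099511627776, 0⟩, 316496543744, 86042214400, 278995599360, 409072304128, 174546354176, 7247757312, 2577282367488, 420420255744, ⟨0, 0⟩, ⟨0, 0⟩, ⟨772717674496, 0⟩, ⟨0, 0⟩, ⟨1099511627776, 0⟩⟩

def BM : BC := ⟨⟨0, 0, 0, 0⟩, ⟨164926717952, 0⟩, ⟨1099511627776, 0⟩, 315301036032, 82699288576, 274086297600, 415542476800, 174546354176, 12851347456, 2532520755200, 446223613952, ⟨0, 0⟩, ⟨0, 0⟩, ⟨774066339840, 0⟩, ⟨0, 0⟩, ⟨0, 1099511627776⟩⟩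

def BT : BC := ⟨⟨0, 0, 1099511627776, 0⟩, ⟨0, 0⟩, ⟨0, 0⟩, 271780282368, 72474689536, 245360820224, 355505537024, 174546354176, 9747562496, 2556495396864, 432466296832, ⟨5179730558976, 0⟩, ⟨0, 107374182400⟩, ⟨578157150208, 0⟩, ⟨1099511627776, 0⟩, ⟨0, 0⟩⟩

end Pool.Agent.helper82.WC.S4K9
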