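import Pool.Agent.helper82.WC.S5K0P

/-!
Generated certificates (in pairs, so that they are checked one after the other).
-/

namespace Pool.Agent.helper82.WC.S5K0

open Pool.Agent.helper82.WH
open Pool.Agent.helper31.IC (CovD covD_split TD)

mutual
theorem I0RT_24 : CovD 1 [pRT H BI0, pK1 H BI0] [(4123168604160, 274877906944), (47915728896, 6845104128), (30425481216, 981467136)] :=
  cov_of (fRTK H BI0) (.n 1 (.n 1 (.l 1) (.n 2 (.n 2 (.l 0) (.l 0)) (.n 2 (.l 0) (.l 0)))) (.n 2 (.n 2 (.n 1 (.l 0) (.l 0)) (.n 1 (.l 0) (.l 0))) (.n 2 (.n 1 (.l 0) (.l 0)) (.n 1 (.l 0) (.l 0))))) [(4123168604160, 274877906944), (47915728896, 6845104128), (30425481216, 981467136)] rfl (by decide +kernel)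
theorem I0RT_27 : CovD 1 [pRT H BI0, pK1 H BI0] [(4123168604160, 274877906944), (13690208256, 13690208256), (39258685440, 7851737088)] :=
  cov_of (fRTK H BI0) (.l 1) [(4123168604160, 274877906944), (13690208256, 13690208256), (39258685440, 7851737088)] rfl (by decide +kernel)
end

mutual
theorem I0RT_31 : CovD 1 [pRT H BI0, pK1 H BI0] [(4123168604160, 274877906944), (34225520640, 6845104128), (33369882624, 1962934272)] :=
  cov_of (fRTK H BI0) (.l 1) [(4123168604160, 274877906944), (34225520640, 6845104128), (33369882624, 1962934272)] rfl (by decide +kernel)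
theorem I0RT_33 : CovD 1 [pRT H BI0, pK1 H BI0] [(4123168604160, 274877906944), (47915728896, 6845104128), (32388415488, 981467136)] :=
  cov_of (fRTK H BI0) (.n 1 (.n 2 (.n 2 (.n 1 (.l 1) (.l 0)) (.n 1 (.n 0 (.l 0) (.l 0)) (.l 0))) (.n 2 (.n 2 (.l 0) (.l 0)) (.n 1 (.l 0) (.l 0)))) (.n 2 (.n 2 (.n 1 (.l 0) (.l 0)) (.n 1 (.l 0) (.l 0))) (.n 2 (.n 1 (.l 0) (.l 0)) (.n 1 (.l 0) (.l 0))))) [(4123168604160, 274877906944), (47915728896, 6845104128), (32388415488, 981467136)] rfl (by decide +kernel)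
end

mutual
theorem I0RT_34 : CovD 1 [pRT H BI0, pK1 H BI0] [(4123168604160, 274877906944), (47915728896, 6845104128), (34351349760, 981467136)] :=
  cov_of (fRTK H BI0) (.n 1 (.n 2 (.n 2 (.n 1 (.l 0) (.l 0)) (.n 1 (.l 0) (.l 0))) (.n 2 (.n 1 (.l 0) (.l 0)) (.n 1 (.l 0) (.l 0)))) (.n 2 (.n 2 (.n 1 (.l 0) (.l 0)) (.n 1 (.l 0) (.l 0))) (.n 2 (.n 1 (.l 0) (.l 0)) (.n 1 (.l 0) (.l 0))))) [(4123168604160, 274877906944), (47915728896, 6845104128), (34351349760, 981467136)] rfl (by decide +kernel)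
theorem I0RT_36 : CovD 1 [pRT H BI0, pK1 H BI0] [(4123168604160, 274877906944), (34225520640, 6845104128), (37295751168, 1962934272)] :=
  cov_of (fRTK H BI0) (.n 1 (.l 1) (.n 1 (.l 1) (.n 2 (.n 2 (.l 1) (.n 2 (.n 0 (.l 0) (.l 0)) (.l 0))) (.n 2 (.n 2 (.l 0) (.l 0)) (.n 2 (.l 0) (.l 0)))))) [(4123168604160, 274877906944), (34225520640, 6845104128), (37295751168, 1962934272)] rfl (by decide +kernel)
end

mutual
theorem I0RT_38 : CovD 1 [pRT H BI0, pK1 H BI0] [(4123168604160, 274877906944), (47915728896, 6845104128), (36314284032, 981467136)] :=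
  cov_of (fRTK H BI0) (.n 1 (.n 2 (.n 2 (.n 1 (.l 0) (.l 0)) (.n 1 (.l 0) (.l 0))) (.n 2 (.n 1 (.l 0) (.l 0)) (.n 1 (.l 0) (.l 0)))) (.n 2 (.n 2 (.n 1 (.l 0) (.l 0)) (.n 1 (.l 0) (.l 0))) (.n 2 (.n 0 (.l 0) (.l 0)) (.n 0 (.l 0) (.l 0))))) [(4123168604160, 274877906944), (47915728896, 6845104128), (36314284032, 981467136)] rfl (by decide +kernel)
theorem I0RT_39 : CovD 1 [pRT H BI0, pK1 H BI0] [(4123168604160, 274877906944), (47915728896, 6845104128), (38277218304, 981467136)] :=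
  cov_of (fRTK H BI0) (.n 1 (.n 2 (.n 2 (.n 1 (.l 0) (.l 0)) (.n 1 (.l 0) (.l 0))) (.n 2 (.n 1 (.l 0) (.l 0)) (.n 1 (.l 0) (.l 0)))) (.n 2 (.n 2 (.n 0 (.l 0) (.l 0)) (.n 0 (.l 0) (.l 0))) (.n 2 (.n 0 (.l 0) (.l 0)) (.n 0 (.l 0) (.l 0))))) [(4123168604160, 274877906944), (47915728896, 6845104128), (38277218304, 981467136)] rfl (by decide +kernel)
end

mutual
theorem I0RT_42 : CovD 1 [pRT H BI0, pK1 H BI0] [(4123168604160, 274877906944), (34225520640, 6845104128), (41221619712, 1962934272)] :=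
  cov_of (fRTK H BI0) (.n 2 (.n 1 (.l 1) (.n 2 (.n 2 (.n 1 (.l 1) (.l 0)) (.n 2 (.l 0) (.l 0))) (.n 2 (.n 1 (.l 0) (.l 0)) (.n 1 (.l 0) (.l 0))))) (.n 2 (.n 1 (.l 1) (.n 2 (.n 1 (.l 0) (.l 0)) (.n 1 (.l 0) (.l 0)))) (.n 1 (.n 2 (.l 1) (.n 1 (.l 1) (.l 0))) (.n 2 (.n 1 (.l 0) (.l 0)) (.n 1 (.l 0) (.l 0)))))) [(4123168604160, 274877906944), (34225520640, 6845104128), (41221619712, 1962934272)] rfl (by decide +kernel)
theorem I0RT_44 : CovD 1 [pRT H BI0, pK1 H BI0] [(4123168604160, 274877906944), (47915728896, 6845104128), (40240152576, 981467136)] :=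
  cov_of (fRTK H BI0) (.n 1 (.n 2 (.n 2 (.n 1 (.l 0) (.l 0)) (.n 1 (.l 0) (.l 0))) (.n 2 (.n 1 (.l 0) (.l 0)) (.n 1 (.l 0) (.l 0)))) (.n 2 (.n 2 (.n 0 (.l 0) (.l 0)) (.n 0 (.l 0) (.l 0))) (.n 2 (.n 0 (.l 0) (.l 0)) (.n 0 (.l 0) (.l 0))))) [(4123168604160, 274877906944), (47915728896, 6845104128), (40240152576, 981467136)] rfl (by decide +kernel)
end

mutual
theorem I0RT_45 : CovD 1 [pRT H BI0, pK1 H BI0] [(4123168604160, 274877906944), (47915728896, 6845104128), (42203086848, 981467136)] :=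
  cov_of (fRTK H BI0) (.n 1 (.n 2 (.n 2 (.n 1 (.l 0) (.l 0)) (.n 1 (.l 0) (.l 0))) (.n 2 (.n 1 (.l 0) (.l 0)) (.n 1 (.l 0) (.l 0)))) (.n 2 (.n 2 (.n 0 (.l 0) (.l 0)) (.l 0)) (.n 2 (.l 0) (.l 0)))) [(4123168604160, 274877906944), (47915728896, 6845104128), (42203086848, 981467136)] rfl (by decide +kernel)
theorem I0RT_48 : CovD 1 [pRT H BI0, pK1 H BI0] [(4123168604160, 274877906944), (34225520640, 6845104128), (44166021120, 981467136)] :=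
  cov_of (fRTK H BI0) (.n 2 (.n 1 (.n 1 (.l 1) (.n 2 (.l 0) (.l 0))) (.n 2 (.n 1 (.l 0) (.l 0)) (.n 1 (.l 0) (.l 0)))) (.n 1 (.n 1 (.l 1) (.n 2 (.l 0) (.l 0))) (.n 2 (.n 1 (.l 0) (.l 0)) (.n 1 (.l 0) (.l 0))))) [(4123168604160, 274877906944), (34225520640, 6845104128), (44166021120, 981467136)] rfl (by decide +kernel)
end

mutual
theorem I0RT_49 : CovD 1 [pRT H BI0, pK1 H BI0] [(4123168604160, 274877906944), (34225520640, 6845104128), (46128955392, 981467136)] :=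
  cov_of (fRTK H BI0) (.n 2 (.n 1 (.n 2 (.n 1 (.l 0) (.l 0)) (.n 1 (.l 0) (.l 0))) (.n 2 (.n 1 (.l 0) (.l 0)) (.n 1 (.l 0) (.l 0)))) (.n 1 (.n 2 (.n 1 (.l 0) (.l 0)) (.n 1 (.l 0) (.l 0))) (.n 2 (.n 1 (.l 0) (.l 0)) (.n 1 (.l 0) (.l 0))))) [(4123168604160, 274877906944), (34225520640, 6845104128), (46128955392, 981467136)] rfl (by decide +kernel)
theorem I0RT_50 : CovD 1 [pRT H BI0, pK1 H BI0] [(4123168604160, 274877906944), (47915728896, 6845104128), (45147488256, 1962934272)] :=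
  cov_of (fRTK H BI0) (.n 2 (.n 1 (.n 2 (.n 2 (.n 0 (.l 0) (.l 0)) (.n 0 (.l 0) (.l 0))) (.n 2 (.n 0 (.l 0) (.l 0)) (.n 0 (.l 0) (.l 0)))) (.n 2 (.n 2 (.l 0) (.l 0)) (.n 2 (.l 0) (.l 0)))) (.n 1 (.n 2 (.n 2 (.n 0 (.l 0) (.l 0)) (.n 0 (.l 0) (.l 0))) (.n 2 (.n 0 (.l 0) (.l 0)) (.n 0 (.l 0) (.l 0)))) (.n 2 (.n 2 (.l 0) (.l 0)) (.n 2 (.l 0) (.l 0))))) [(4123168604160, 274877906944), (47915728896, 6845104128), (45147488256, 1962934272)] rfl (by decide +kernel)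
end

mutual
theorem I0RT_54 : CovD 1 [pRT H BI0, pK1 H BI0] [(4123168604160, 274877906944), (13690208256, 13690208256), (49073356800, 1962934272)] :=
  cov_of (fRTK H BI0) (.n 1 (.l 1) (.n 2 (.n 1 (.l 1) (.n 1 (.l 1) (.n 2 (.n 2 (.l 0) (.l 0)) (.n 2 (.l 0) (.l 0))))) (.n 2 (.n 1 (.l 1) (.n 2 (.n 1 (.l 0) (.l 0)) (.n 1 (.l 0) (.l 0)))) (.n 2 (.n 1 (.l 1) (.n 1 (.l 0) (.l 0))) (.n 1 (.n 1 (.l 0) (.l 0)) (.n 1 (.l 0) (.l 0))))))) [(4123168604160, 274877906944), (13690208256, 13690208256), (49073356800, 1962934272)] rfl (by decide +kernel)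
theorem I0RT_57 : CovD 1 [pRT H BI0, pK1 H BI0] [(4123168604160, 274877906944), (34225520640, 6845104128), (48091889664, 981467136)] :=
  cov_of (fRTK H BI0) (.n 2 (.n 1 (.n 2 (.n 1 (.l 0) (.l 0)) (.n 1 (.l 0) (.l 0))) (.n 2 (.n 0 (.l 0) (.l 0)) (.n 0 (.l 0) (.l 0)))) (.n 1 (.n 2 (.n 1 (.l 0) (.l 0)) (.n 1 (.l 0) (.l 0))) (.n 2 (.n 0 (.l 0) (.l 0)) (.n 0 (.l 0) (.l 0))))) [(4123168604160, 274877906944), (34225520640, 6845104128), (48091889664, 981467136)] rfl (by decide +kernel)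
end

mutual
theorem I0RT_58 : CovD 1 [pRT H BI0, pK1 H BI0] [(4123168604160, 274877906944), (34225520640, 6845104128), (50054823936, 981467136)] :=
  cov_of (fRTK H BI0) (.n 2 (.n 1 (.n 2 (.n 1 (.l 0) (.l 0)) (.n 1 (.l 0) (.l 0))) (.n 2 (.n 0 (.l 0) (.l 0)) (.n 0 (.l 0) (.l 0)))) (.n 1 (.n 2 (.n 0 (.l 0) (.l 0)) (.n 0 (.l 0) (.l 0))) (.n 2 (.n 0 (.l 0) (.l 0)) (.n 0 (.l 0) (.l 0))))) [(4123168604160, 274877906944), (34225520640, 6845104128), (50054823936, 981467136)] rfl (by decide +kernel)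
theorem I0RT_59 : CovD 1 [pRT H BI0, pK1 H BI0] [(4123168604160, 274877906944), (47915728896, 6845104128), (49073356800, 1962934272)] :=
  cov_of (fRTK H BI0) (.n 2 (.n 1 (.n 2 (.n 2 (.n 0 (.l 0) (.l 0)) (.l 0)) (.n 2 (.l 0) (.l 0))) (.n 2 (.n 2 (.l 0) (.l 0)) (.n 2 (.l 0) (.l 0)))) (.n 1 (.n 2 (.n 2 (.l 0) (.l 0)) (.n 2 (.l 0) (.l 0))) (.n 2 (.n 2 (.l 0) (.l 0)) (.n 2 (.l 0) (.l 0))))) [(4123168604160, 274877906944), (47915728896, 6845104128), (49073356800, 1962934272)] rfl (by decide +kernel)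
end

mutual
theorem I0RT_62 : CovD 1 [pRT H BI0, pK1 H BI0] [(4123168604160, 274877906944), (13690208256, 13690208256), (52017758208, 981467136)] :=
  cov_of (fRTK H BI0) (.n 1 (.l 1) (.n 2 (.n 2 (.n 1 (.n 0 (.l 0) (.l 0)) (.n 0 (.l 0) (.l 0))) (.n 1 (.n 0 (.l 0) (.l 0)) (.n 0 (.l 0) (.l 0)))) (.n 2 (.n 1 (.n 0 (.l 0) (.l 0)) (.n 0 (.l 0) (.l 0))) (.n 1 (.n 0 (.l 0) (.l 0)) (.n 0 (.l 0) (.l 0)))))) [(4123168604160, 274877906944), (13690208256, 13690208256), (52017758208, 981467136)] rfl (by decide +kernel)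
theorem I0RT_63 : CovD 1 [pRT H BI0, pK1 H BI0] [(4123168604160, 274877906944), (13690208256, 13690208256), (53980692480, 981467136)] :=
  cov_of (fRTK H BI0) (.n 1 (.n 2 (.n 1 (.l 1) (.n 2 (.l 0) (.l 0))) (.n 2 (.n 1 (.l 0) (.l 0)) (.n 1 (.l 0) (.l 0)))) (.n 2 (.n 2 (.n 1 (.n 0 (.l 0) (.l 0)) (.n 0 (.l 0) (.l 0))) (.n 1 (.n 0 (.l 0) (.l 0)) (.n 0 (.l 0) (.l 0)))) (.n 2 (.n 1 (.n 0 (.l 0) (.l 0)) (.n 0 (.l 0) (.l 0))) (.n 1 (.l 0) (.n 0 (.l 0) (.l 0)))))) [(4123168604160, 274877906944), (13690208256, 13690208256), (53980692480, 981467136)] rfl (by decide +kernel)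
end

mutual
theorem I0RT_65 : CovD 1 [pRT H BI0, pK1 H BI0] [(4123168604160, 274877906944), (34225520640, 6845104128), (52999225344, 1962934272)] :=
  cov_of (fRTK H BI0) (.n 2 (.n 2 (.n 1 (.n 2 (.n 0 (.l 0) (.l 0)) (.n 0 (.l 0) (.l 0))) (.n 2 (.n 0 (.l 0) (.l 0)) (.l 0))) (.n 1 (.n 2 (.n 0 (.l 0) (.l 0)) (.n 0 (.l 0) (.l 0))) (.n 2 (.l 0) (.l 0)))) (.n 2 (.n 1 (.n 2 (.n 0 (.l 0) (.l 0)) (.n 0 (.l 0) (.l 0))) (.n 2 (.l 0) (.l 0))) (.n 1 (.n 2 (.l 0) (.l 0)) (.n 2 (.l 0) (.l 0))))) [(4123168604160, 274877906944), (34225520640, 6845104128), (52999225344, 1962934272)] rfl (by decide +kernel)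
theorem I0RT_66 : CovD 1 [pRT H BI0, pK1 H BI0] [(4123168604160, 274877906944), (47915728896, 6845104128), (52999225344, 1962934272)] :=
  cov_of (fRTK H BI0) (.n 2 (.n 1 (.n 2 (.n 2 (.l 0) (.l 0)) (.n 2 (.l 0) (.l 0))) (.n 2 (.n 2 (.l 0) (.l 0)) (.n 2 (.l 0) (.l 0)))) (.n 1 (.n 2 (.n 2 (.l 0) (.l 0)) (.n 2 (.l 0) (.l 0))) (.n 2 (.n 2 (.l 0) (.l 0)) (.n 1 (.l 0) (.l 0))))) [(4123168604160, 274877906944), (47915728896, 6845104128), (52999225344, 1962934272)] rfl (by decide +kernel)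
end

mutual
theorem I0RT_70 : CovD 1 [pRT H BI0, pK1 H BI0] [(4123168604160, 274877906944), (13690208256, 13690208256), (55943626752, 981467136)] :=
  cov_of (fRTK H BI0) (.n 1 (.n 2 (.n 2 (.n 1 (.l 0) (.l 0)) (.n 1 (.l 0) (.l 0))) (.n 2 (.n 1 (.l 0) (.l 0)) (.n 1 (.l 0) (.l 0)))) (.n 2 (.n 2 (.n 1 (.l 0) (.l 0)) (.n 1 (.l 0) (.l 0))) (.n 2 (.n 1 (.l 0) (.l 0)) (.n 1 (.l 0) (.l 0))))) [(4123168604160, 274877906944), (13690208256, 13690208256), (55943626752, 981467136)] rfl (by decide +kernel)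
theorem I0RT_71 : CovD 1 [pRT H BI0, pK1 H BI0] [(4123168604160, 274877906944), (13690208256, 13690208256), (57906561024, 981467136)] :=
  cov_of (fRTK H BI0) (.n 1 (.n 2 (.n 2 (.n 0 (.l 0) (.l 0)) (.n 0 (.l 0) (.l 0))) (.n 2 (.n 0 (.l 0) (.l 0)) (.n 0 (.l 0) (.l 0)))) (.n 2 (.n 2 (.n 1 (.l 0) (.l 0)) (.n 1 (.l 0) (.l 0))) (.n 2 (.n 1 (.l 0) (.l 0)) (.n 1 (.l 0) (.l 0))))) [(4123168604160, 274877906944), (13690208256, 13690208256), (57906561024, 981467136)] rfl (by decide +kernel)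
end

mutual
theorem I0RT_73 : CovD 1 [pRT H BI0, pK1 H BI0] [(4123168604160, 274877906944), (34225520640, 6845104128), (56925093888, 1962934272)] :=
  cov_of (fRTK H BI0) (.n 2 (.n 2 (.n 1 (.n 2 (.l 0) (.l 0)) (.n 2 (.l 0) (.l 0))) (.n 1 (.n 2 (.l 0) (.l 0)) (.n 2 (.l 0) (.l 0)))) (.n 2 (.n 1 (.n 2 (.l 0) (.l 0)) (.n 2 (.l 0) (.l 0))) (.n 1 (.n 2 (.l 0) (.l 0)) (.n 2 (.l 0) (.l 0))))) [(4123168604160, 274877906944), (34225520640, 6845104128), (56925093888, 1962934272)] rfl (by decide +kernel)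
theorem I0RT_74 : CovD 1 [pRT H BI0, pK1 H BI0] [(4123168604160, 274877906944), (47915728896, 6845104128), (56925093888, 1962934272)] :=
  cov_of (fRTK H BI0) (.n 2 (.n 2 (.n 1 (.n 2 (.l 0) (.l 0)) (.n 1 (.l 0) (.l 0))) (.n 1 (.n 2 (.l 0) (.l 0)) (.n 1 (.l 0) (.l 0)))) (.n 2 (.n 1 (.n 2 (.l 0) (.l 0)) (.n 1 (.l 0) (.l 0))) (.n 1 (.n 2 (.l 0) (.l 0)) (.n 1 (.l 0) (.l 0))))) [(4123168604160, 274877906944), (47915728896, 6845104128), (56925093888, 1962934272)] rfl (by decide +kernel)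
end

mutual
theorem I0RT_77 : CovD 1 [pRT H BI0, pK1 H BI0] [(4123168604160, 274877906944), (13690208256, 13690208256), (59869495296, 981467136)] :=
  cov_of (fRTK H BI0) (.n 1 (.n 2 (.n 2 (.n 0 (.l 0) (.l 0)) (.n 0 (.l 0) (.l 0))) (.n 2 (.n 0 (.l 0) (.l 0)) (.n 0 (.l 0) (.l 0)))) (.n 2 (.n 2 (.n 1 (.l 0) (.l 0)) (.n 1 (.l 0) (.l 0))) (.n 2 (.n 1 (.l 0) (.l 0)) (.n 1 (.l 0) (.l 0))))) [(4123168604160, 274877906944), (13690208256, 13690208256), (59869495296, 981467136)] rfl (by decide +kernel)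
theorem I0RT_78 : CovD 1 [pRT H BI0, pK1 H BI0] [(4123168604160, 274877906944), (13690208256, 13690208256), (61832429568, 981467136)] :=
  cov_of (fRTK H BI0) (.n 1 (.n 2 (.n 2 (.l 0) (.l 0)) (.n 2 (.l 0) (.l 0))) (.n 2 (.n 2 (.n 1 (.l 0) (.l 0)) (.n 1 (.l 0) (.l 0))) (.n 2 (.n 1 (.l 0) (.l 0)) (.n 1 (.l 0) (.l 0))))) [(4123168604160, 274877906944), (13690208256, 13690208256), (61832429568, 981467136)] rfl (by decide +kernel)
end

mutual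
theorem I0RT_80 : CovD 1 [pRT H BI0, pK1 H BI0] [(4123168604160, 274877906944), (34225520640, 6845104128), (60850962432, 1962934272)] :=
  cov_of (fRTK H BI0) (.n 2 (.n 2 (.n 1 (.n 2 (.l 0) (.l 0)) (.n 2 (.l 0) (.l 0))) (.n 1 (.n 2 (.l 0) (.l 0)) (.n 2 (.l 0) (.l 0)))) (.n 2 (.n 1 (.n 2 (.l 0) (.l 0)) (.n 2 (.l 0) (.l 0))) (.n 1 (.n 2 (.l 0) (.l 0)) (.n 2 (.l 0) (.l 0))))) [(4123168604160, 274877906944), (34225520640, 6845104128), (60850962432, 1962934272)] rfl (by decide +kernel)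
theorem I0RT_81 : CovD 1 [pRT H BI0, pK1 H BI0] [(4123168604160, 274877906944), (47915728896, 6845104128), (60850962432, 1962934272)] :=
  cov_of (fRTK H BI0) (.n 2 (.n 2 (.n 1 (.n 2 (.l 0) (.l 0)) (.n 1 (.l 0) (.l 0))) (.n 1 (.n 1 (.l 0) (.l 0)) (.n 1 (.l 0) (.l 0)))) (.n 2 (.n 1 (.n 1 (.l 0) (.l 0)) (.n 0 (.l 0) (.l 0))) (.n 1 (.n 1 (.l 0) (.l 0)) (.n 0 (.l 0) (.l 0))))) [(4123168604160, 274877906944), (47915728896, 6845104128), (60850962432, 1962934272)] rfl (by decide +kernel)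
theorem I0RT_87 : CovD 1 [pRT H BI0, pK1 H BI0] [(4123168604160, 274877906944), (13690208256, 13690208256), (64776830976, 1962934272)] :=
  cov_of (fRTK H BI0) (.n 2 (.n 1 (.n 2 (.n 2 (.l 0) (.l 0)) (.n 2 (.l 0) (.l 0))) (.n 2 (.n 2 (.n 1 (.l 0) (.l 0)) (.n 1 (.l 0) (.l 0))) (.n 2 (.n 1 (.l 0) (.l 0)) (.n 0 (.l 0) (.l 0))))) (.n 1 (.n 2 (.n 2 (.l 0) (.l 0)) (.n 2 (.l 0) (.l 0))) (.n 2 (.n 2 (.n 0 (.l 0) (.l 0)) (.n 0 (.l 0) (.l 0))) (.n 2 (.n 0 (.l 0) (.l 0)) (.n 0 (.l 0) (.l 0)))))) [(4123168604160, 274877906944), (13690208256, 13690208256), (64776830976, 1962934272)] rfl (by decide +kernel)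
end

end Pool.Agent.helper82.WC.S5K0
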