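import Pool.Agent.helper82.WC.S5K0P

/-!
Generated certificates (in pairs, so that they are checked one after the other).
-/

namespace Pool.Agent.helper82.WC.S5K0

open Pool.Agent.helper82.WH
open Pool.Agent.helper31.IC (CovD covD_split TD)

mutual
theorem I0RT_89 : CovD 1 [pRT H BI0, pK1 H BI0] [(4123168604160, 274877906944), (34225520640, 6845104128), (64776830976, 1962934272)] :=
  cov_of (fRTK H BI0) (.n 2 (.n 2 (.n 1 (.n 2 (.l 0) (.l 0)) (.n 2 (.l 0) (.l 0))) (.n 1 (.n 2 (.l 0) (.l 0)) (.n 2 (.l 0) (.l 0)))) (.n 2 (.n 1 (.n 2 (.l 0) (.l 0)) (.n 1 (.l 0) (.l 0))) (.n 1 (.n 2 (.l 0) (.l 0)) (.n 1 (.l 0) (.l 0))))) [(4123168604160, 274877906944), (34225520640, 6845104128), (64776830976, 1962934272)] rfl (by decide +kernel)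
theorem I0RT_90 : CovD 1 [pRT H BI0, pK1 H BI0] [(4123168604160, 274877906944), (47915728896, 6845104128), (64776830976, 1962934272)] :=
  cov_of (fRTK H BI0) (.n 2 (.n 2 (.n 1 (.n 1 (.l 0) (.l 0)) (.n 0 (.l 0) (.l 0))) (.n 1 (.n 1 (.l 0) (.l 0)) (.n 0 (.l 0) (.l 0)))) (.n 2 (.n 1 (.n 0 (.l 0) (.l 0)) (.n 0 (.l 0) (.l 0))) (.n 1 (.n 0 (.l 0) (.l 0)) (.l 0)))) [(4123168604160, 274877906944), (47915728896, 6845104128), (64776830976, 1962934272)] rfl (by decide +kernel)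
end

mutual
theorem I0RT_92 : CovD 1 [pRT H BI0, pK1 H BI0] [(4123168604160, 274877906944), (13690208256, 13690208256), (68702699520, 1962934272)] :=
  cov_of (fRTK H BI0) (.n 2 (.n 1 (.n 2 (.n 2 (.l 0) (.l 0)) (.n 2 (.l 0) (.l 0))) (.n 2 (.n 2 (.n 0 (.l 0) (.l 0)) (.n 0 (.l 0) (.l 0))) (.n 2 (.n 0 (.l 0) (.l 0)) (.n 0 (.l 0) (.l 0))))) (.n 2 (.n 1 (.n 2 (.l 0) (.l 0)) (.n 2 (.n 0 (.l 0) (.l 0)) (.l 0))) (.n 1 (.n 2 (.l 0) (.l 0)) (.n 2 (.l 0) (.l 0))))) [(4123168604160, 274877906944), (13690208256, 13690208256), (68702699520, 1962934272)] rfl (by decide +kernel)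
theorem I0RT_94 : CovD 1 [pRT H BI0, pK1 H BI0] [(4123168604160, 274877906944), (34225520640, 6845104128), (68702699520, 1962934272)] :=
  cov_of (fRTK H BI0) (.n 2 (.n 2 (.n 1 (.n 2 (.l 0) (.l 0)) (.n 1 (.l 0) (.l 0))) (.n 1 (.n 1 (.l 0) (.l 0)) (.n 0 (.l 0) (.l 0)))) (.n 2 (.n 1 (.n 1 (.l 0) (.l 0)) (.n 0 (.l 0) (.l 0))) (.n 1 (.n 0 (.l 0) (.l 0)) (.n 0 (.l 0) (.l 0))))) [(4123168604160, 274877906944), (34225520640, 6845104128), (68702699520, 1962934272)] rfl (by decide +kernel)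
end

mutual
theorem I0RT_95 : CovD 1 [pRT H BI0, pK1 H BI0] [(4123168604160, 274877906944), (47915728896, 6845104128), (68702699520, 1962934272)] :=
  cov_of (fRTK H BI0) (.n 2 (.n 2 (.n 1 (.n 0 (.l 0) (.l 0)) (.l 0)) (.n 1 (.n 0 (.l 0) (.l 0)) (.l 0))) (.n 2 (.n 1 (.n 0 (.l 0) (.l 0)) (.l 0)) (.n 1 (.l 0) (.l 0)))) [(4123168604160, 274877906944), (47915728896, 6845104128), (68702699520, 1962934272)] rfl (by decide +kernel)
theorem I0RT_98 : CovD 1 [pRT H BI0, pK1 H BI0] [(4123168604160, 274877906944), (13690208256, 13690208256), (72628568064, 1962934272)] :=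
  cov_of (fRTK H BI0) (.n 2 (.n 2 (.n 1 (.n 2 (.l 0) (.l 0)) (.n 2 (.l 0) (.l 0))) (.n 1 (.n 2 (.l 0) (.l 0)) (.n 2 (.l 0) (.l 0)))) (.n 2 (.n 1 (.n 2 (.l 0) (.l 0)) (.n 2 (.l 0) (.l 0))) (.n 1 (.n 1 (.l 0) (.l 0)) (.n 2 (.l 0) (.l 0))))) [(4123168604160, 274877906944), (13690208256, 13690208256), (72628568064, 1962934272)] rfl (by decide +kernel)
end

mutual
theorem I0RT_99 : CovD 1 [pRT H BI0, pK1 H BI0] [(4123168604160, 274877906944), (41070624768, 13690208256), (72628568064, 1962934272)] :=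
  cov_of (fRTK H BI0) (.n 1 (.n 2 (.n 2 (.n 1 (.n 0 (.l 0) (.l 0)) (.n 0 (.l 0) (.l 0))) (.n 1 (.n 0 (.l 0) (.l 0)) (.n 0 (.l 0) (.l 0)))) (.n 2 (.n 1 (.n 0 (.l 0) (.l 0)) (.l 0)) (.n 2 (.l 0) (.l 0)))) (.n 2 (.n 2 (.n 1 (.l 0) (.l 0)) (.n 1 (.l 0) (.l 0))) (.n 2 (.n 1 (.l 0) (.l 0)) (.n 1 (.l 0) (.l 0))))) [(4123168604160, 274877906944), (41070624768, 13690208256), (72628568064, 1962934272)] rfl (by decide +kernel)
theorem I0RT_101 : CovD 1 [pRT H BI0, pK1 H BI0] [(4123168604160, 274877906944), (13690208256, 13690208256), (76554436608, 1962934272)] :=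
  cov_of (fRTK H BI0) (.n 2 (.n 2 (.n 1 (.n 1 (.l 0) (.l 0)) (.n 1 (.l 0) (.l 0))) (.n 1 (.n 0 (.l 0) (.l 0)) (.n 1 (.l 0) (.l 0)))) (.n 2 (.n 1 (.n 0 (.l 0) (.l 0)) (.n 1 (.l 0) (.l 0))) (.n 1 (.n 0 (.l 0) (.l 0)) (.n 1 (.l 0) (.l 0))))) [(4123168604160, 274877906944), (13690208256, 13690208256), (76554436608, 1962934272)] rfl (by decide +kernel)
end

mutual
theorem I0RT_102 : CovD 1 [pRT H BI0, pK1 H BI0] [(4123168604160, 274877906944), (41070624768, 13690208256), (76554436608, 1962934272)] :=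
  cov_of (fRTK H BI0) (.n 1 (.n 2 (.n 2 (.n 1 (.l 0) (.l 0)) (.n 1 (.l 0) (.l 0))) (.n 2 (.n 1 (.l 0) (.l 0)) (.n 1 (.l 0) (.l 0)))) (.n 2 (.n 2 (.n 1 (.l 0) (.l 0)) (.n 1 (.l 0) (.l 0))) (.n 2 (.n 1 (.l 0) (.l 0)) (.n 1 (.l 0) (.l 0))))) [(4123168604160, 274877906944), (41070624768, 13690208256), (76554436608, 1962934272)] rfl (by decide +kernel)
theorem I0RT_106 : CovD 1 [pRT H BI0, pK1 H BI0] [(4123168604160, 274877906944), (13690208256, 13690208256), (80480305152, 1962934272)] :=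
  cov_of (fRTK H BI0) (.n 2 (.n 2 (.n 1 (.n 0 (.l 0) (.l 0)) (.n 1 (.l 0) (.l 0))) (.n 1 (.l 0) (.n 1 (.l 0) (.l 0)))) (.n 2 (.n 1 (.l 0) (.n 1 (.l 0) (.l 0))) (.n 1 (.l 0) (.n 0 (.l 0) (.l 0))))) [(4123168604160, 274877906944), (13690208256, 13690208256), (80480305152, 1962934272)] rfl (by decide +kernel)
end

mutual
theorem I0RT_107 : CovD 1 [pRT H BI0, pK1 H BI0] [(4123168604160, 274877906944), (41070624768, 13690208256), (80480305152, 1962934272)] :=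
  cov_of (fRTK H BI0) (.n 1 (.n 2 (.n 2 (.n 1 (.l 0) (.l 0)) (.n 1 (.l 0) (.l 0))) (.n 2 (.n 1 (.l 0) (.l 0)) (.n 1 (.l 0) (.l 0)))) (.n 2 (.n 2 (.n 1 (.l 0) (.l 0)) (.n 1 (.l 0) (.l 0))) (.n 2 (.n 1 (.l 0) (.l 0)) (.n 1 (.l 0) (.l 0))))) [(4123168604160, 274877906944), (41070624768, 13690208256), (80480305152, 1962934272)] rfl (by decide +kernel)
theorem I0RT_109 : CovD 1 [pRT H BI0, pK1 H BI0] [(4123168604160, 274877906944), (13690208256, 13690208256), (84406173696, 1962934272)] :=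
  cov_of (fRTK H BI0) (.n 2 (.n 2 (.n 1 (.l 0) (.n 0 (.l 0) (.l 0))) (.n 1 (.l 0) (.n 0 (.l 0) (.l 0)))) (.n 2 (.n 1 (.l 0) (.n 0 (.l 0) (.l 0))) (.n 1 (.l 0) (.n 0 (.l 0) (.l 0))))) [(4123168604160, 274877906944), (13690208256, 13690208256), (84406173696, 1962934272)] rfl (by decide +kernel)
end

mutual
theorem I0RT_110 : CovD 1 [pRT H BI0, pK1 H BI0] [(4123168604160, 274877906944), (41070624768, 13690208256), (84406173696, 1962934272)] :=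
  cov_of (fRTK H BI0) (.n 1 (.n 2 (.n 2 (.n 1 (.l 0) (.l 0)) (.n 0 (.l 0) (.l 0))) (.n 2 (.n 0 (.l 0) (.l 0)) (.n 0 (.l 0) (.l 0)))) (.n 2 (.n 2 (.n 0 (.l 0) (.l 0)) (.n 0 (.l 0) (.l 0))) (.n 2 (.n 0 (.l 0) (.l 0)) (.n 0 (.l 0) (.l 0))))) [(4123168604160, 274877906944), (41070624768, 13690208256), (84406173696, 1962934272)] rfl (by decide +kernel)
theorem I0RT_112 : CovD 1 [pRT H BI0, pK1 H BI0] [(4123168604160, 274877906944), (27380416512, 27380416512), (88332042240, 1962934272)] :=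
  cov_of (fRTK H BI0) (.n 1 (.n 2 (.n 2 (.n 1 (.l 0) (.l 0)) (.n 1 (.l 0) (.l 0))) (.n 2 (.n 1 (.l 0) (.l 0)) (.n 1 (.l 0) (.l 0)))) (.n 1 (.n 2 (.n 2 (.n 0 (.l 0) (.l 0)) (.n 0 (.l 0) (.l 0))) (.n 2 (.n 0 (.l 0) (.l 0)) (.n 0 (.l 0) (.l 0)))) (.n 2 (.n 2 (.n 0 (.l 0) (.l 0)) (.n 0 (.l 0) (.l 0))) (.n 2 (.n 0 (.l 0) (.l 0)) (.l 0))))) [(4123168604160, 274877906944), (27380416512, 27380416512), (88332042240, 1962934272)] rfl (by decide +kernel)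
end

mutual
theorem I0RT_113 : CovD 1 [pRT H BI0, pK1 H BI0] [(4123168604160, 274877906944), (27380416512, 27380416512), (92257910784, 1962934272)] :=
  cov_of (fRTK H BI0) (.n 1 (.n 2 (.n 2 (.n 1 (.l 0) (.l 0)) (.n 1 (.l 0) (.l 0))) (.n 2 (.n 1 (.l 0) (.l 0)) (.n 1 (.l 0) (.l 0)))) (.n 1 (.n 2 (.n 2 (.l 0) (.l 0)) (.n 2 (.l 0) (.l 0))) (.n 2 (.n 2 (.l 0) (.l 0)) (.n 2 (.l 0) (.l 0))))) [(4123168604160, 274877906944), (27380416512, 27380416512), (92257910784, 1962934272)] rfl (by decide +kernel)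
theorem I0RT_117 : CovD 1 [pRT H BI0, pK1 H BI0] [(4123168604160, 274877906944), (27380416512, 27380416512), (96183779328, 1962934272)] :=
  cov_of (fRTK H BI0) (.n 1 (.n 2 (.n 2 (.n 1 (.l 0) (.l 0)) (.n 1 (.l 0) (.l 0))) (.n 2 (.n 1 (.l 0) (.l 0)) (.n 1 (.l 0) (.l 0)))) (.n 2 (.n 1 (.n 2 (.l 0) (.l 0)) (.n 2 (.l 0) (.l 0))) (.n 1 (.n 2 (.l 0) (.l 0)) (.n 2 (.l 0) (.l 0))))) [(4123168604160, 274877906944), (27380416512, 27380416512), (96183779328, 1962934272)] rfl (by decide +kernel)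
end

mutual
theorem I0RT_118 : CovD 1 [pRT H BI0, pK1 H BI0] [(4123168604160, 274877906944), (27380416512, 27380416512), (100109647872, 1962934272)] :=
  cov_of (fRTK H BI0) (.n 1 (.n 2 (.n 2 (.n 0 (.l 0) (.l 0)) (.n 0 (.l 0) (.l 0))) (.n 2 (.n 0 (.l 0) (.l 0)) (.n 0 (.l 0) (.l 0)))) (.n 2 (.n 1 (.n 2 (.l 0) (.l 0)) (.n 2 (.l 0) (.l 0))) (.n 1 (.n 2 (.l 0) (.l 0)) (.n 2 (.l 0) (.l 0))))) [(4123168604160, 274877906944), (27380416512, 27380416512), (100109647872, 1962934272)] rfl (by decide +kernel)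
theorem I0RT_120 : CovD 1 [pRT H BI0, pK1 H BI0] [(4123168604160, 274877906944), (27380416512, 27380416512), (104035516416, 1962934272)] :=
  cov_of (fRTK H BI0) (.n 1 (.n 2 (.n 2 (.n 0 (.l 0) (.l 0)) (.n 0 (.l 0) (.l 0))) (.n 2 (.n 0 (.l 0) (.l 0)) (.n 0 (.l 0) (.l 0)))) (.n 2 (.n 1 (.n 2 (.l 0) (.l 0)) (.n 1 (.l 0) (.l 0))) (.n 1 (.n 2 (.l 0) (.l 0)) (.n 1 (.l 0) (.l 0))))) [(4123168604160, 274877906944), (27380416512, 27380416512), (104035516416, 1962934272)] rfl (by decide +kernel)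
end

mutual
theorem I0RT_121 : CovD 1 [pRT H BI0, pK1 H BI0] [(4123168604160, 274877906944), (27380416512, 27380416512), (107961384960, 1962934272)] :=
  cov_of (fRTK H BI0) (.n 1 (.n 2 (.n 2 (.l 0) (.l 0)) (.n 2 (.l 0) (.l 0))) (.n 2 (.n 1 (.n 1 (.l 0) (.l 0)) (.n 1 (.l 0) (.l 0))) (.n 1 (.n 1 (.l 0) (.l 0)) (.n 0 (.l 0) (.l 0))))) [(4123168604160, 274877906944), (27380416512, 27380416512), (107961384960, 1962934272)] rfl (by decide +kernel)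
theorem I0RT_123 : CovD 1 [pRT H BI0, pK1 H BI0] [(4123168604160, 274877906944), (27380416512, 27380416512), (113850187776, 3925868544)] :=
  cov_of (fRTK H BI0) (.n 2 (.n 1 (.n 2 (.n 2 (.l 0) (.l 0)) (.n 2 (.l 0) (.l 0))) (.n 2 (.n 1 (.n 0 (.l 0) (.l 0)) (.n 0 (.l 0) (.l 0))) (.n 1 (.n 0 (.l 0) (.l 0)) (.n 0 (.l 0) (.l 0))))) (.n 1 (.n 2 (.n 1 (.l 0) (.l 0)) (.n 1 (.l 0) (.l 0))) (.n 2 (.n 1 (.n 0 (.l 0) (.l 0)) (.n 0 (.l 0) (.l 0))) (.n 1 (.l 0) (.l 0))))) [(4123168604160, 274877906944), (27380416512, 27380416512), (113850187776, 3925868544)] rfl (by decide +kernel)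
end

mutual
theorem I0RT_124 : CovD 1 [pRT H BI0, pK1 H BI0] [(4123168604160, 274877906944), (27380416512, 27380416512), (121701924864, 3925868544)] :=
  cov_of (fRTK H BI0) (.n 2 (.n 1 (.n 2 (.n 1 (.l 0) (.l 0)) (.n 1 (.l 0) (.l 0))) (.n 2 (.n 1 (.l 0) (.l 0)) (.n 1 (.l 0) (.l 0)))) (.n 1 (.n 2 (.n 0 (.l 0) (.l 0)) (.n 0 (.l 0) (.l 0))) (.n 2 (.n 1 (.l 0) (.l 0)) (.n 1 (.l 0) (.l 0))))) [(4123168604160, 274877906944), (27380416512, 27380416512), (121701924864, 3925868544)] rfl (by decide +kernel)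
theorem I0RT_129 : CovD 1 [pRT H BI0, pK1 H BI0] [(4123168604160, 274877906944), (27380416512, 27380416512), (129553661952, 3925868544)] :=
  cov_of (fRTK H BI0) (.n 2 (.n 1 (.n 2 (.n 0 (.l 0) (.l 0)) (.n 0 (.l 0) (.l 0))) (.n 2 (.n 1 (.l 0) (.l 0)) (.n 1 (.l 0) (.l 0)))) (.n 1 (.n 2 (.l 0) (.l 0)) (.n 2 (.n 1 (.l 0) (.l 0)) (.n 1 (.l 0) (.l 0))))) [(4123168604160, 274877906944), (27380416512, 27380416512), (129553661952, 3925868544)] rfl (by decide +kernel)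
end

mutual
theorem I0RT_130 : CovD 1 [pRT H BI0, pK1 H BI0] [(4123168604160, 274877906944), (27380416512, 27380416512), (137405399040, 3925868544)] :=
  cov_of (fRTK H BI0) (.n 2 (.n 1 (.n 2 (.l 0) (.l 0)) (.n 2 (.n 0 (.l 0) (.l 0)) (.n 0 (.l 0) (.l 0)))) (.n 1 (.n 2 (.l 0) (.l 0)) (.n 2 (.n 0 (.l 0) (.l 0)) (.n 0 (.l 0) (.l 0))))) [(4123168604160, 274877906944), (27380416512, 27380416512), (137405399040, 3925868544)] rfl (by decide +kernel)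
theorem I0RT_131 : CovD 1 [pRT H BI0, pK1 H BI0] [(4123168604160, 274877906944), (27380416512, 27380416512), (149183004672, 7851737088)] :=
  cov_of (fRTK H BI0) (.n 2 (.n 2 (.n 1 (.n 2 (.l 0) (.l 0)) (.n 2 (.n 0 (.l 0) (.l 0)) (.l 0))) (.n 1 (.n 2 (.l 0) (.l 0)) (.n 2 (.l 0) (.l 0)))) (.n 2 (.n 1 (.n 2 (.l 0) (.n 0 (.l 0) (.l 0))) (.n 2 (.l 0) (.l 0))) (.n 1 (.n 2 (.n 0 (.l 0) (.l 0)) (.n 0 (.l 0) (.l 0))) (.n 2 (.l 0) (.l 0))))) [(4123168604160, 274877906944), (27380416512, 27380416512), (149183004672, 7851737088)] rfl (by decide +kernel)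
end

mutual
theorem I0RT_133 : CovD 1 [pRT H BI0, pK1 H BI0] [(4123168604160, 274877906944), (27380416512, 27380416512), (164886478848, 7851737088)] :=
  cov_of (fRTK H BI0) (.n 2 (.n 2 (.n 1 (.n 0 (.l 0) (.l 0)) (.n 1 (.l 0) (.l 0))) (.n 1 (.n 0 (.l 0) (.l 0)) (.n 1 (.l 0) (.l 0)))) (.n 2 (.n 1 (.n 0 (.l 0) (.n 0 (.l 0) (.l 0))) (.n 0 (.l 0) (.l 0))) (.n 1 (.n 0 (.l 0) (.n 0 (.l 0) (.l 0))) (.n 0 (.l 0) (.l 0))))) [(4123168604160, 274877906944), (27380416512, 27380416512), (164886478848, 7851737088)] rfl (by decide +kernel)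
theorem I0RT_134 : CovD 1 [pRT H BI0, pK1 H BI0] [(4123168604160, 274877906944), (27380416512, 27380416512), (180589953024, 7851737088)] :=
  cov_of (fRTK H BI0) (.n 2 (.n 2 (.n 1 (.n 0 (.l 0) (.n 0 (.l 0) (.l 0))) (.n 0 (.l 0) (.l 0))) (.n 1 (.n 0 (.l 0) (.n 0 (.l 0) (.l 0))) (.n 0 (.l 0) (.l 0)))) (.n 2 (.n 1 (.n 0 (.l 0) (.n 0 (.l 0) (.l 0))) (.n 0 (.l 0) (.l 0))) (.n 1 (.n 0 (.l 0) (.n 1 (.l 0) (.l 0))) (.n 0 (.l 0) (.n 0 (.l 0) (.l 0)))))) [(4123168604160, 274877906944), (27380416512, 27380416512), (180589953024, 7851737088)] rfl (by decide +kernel)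
end

mutual
theorem I0RT_138 : CovD 1 [pRT H BI0, pK1 H BI0] [(4123168604160, 274877906944), (27380416512, 27380416512), (192367558656, 3925868544)] :=
  cov_of (fRTK H BI0) (.n 2 (.n 1 (.n 0 (.l 0) (.n 1 (.l 0) (.l 0))) (.n 0 (.l 0) (.n 0 (.l 0) (.l 0)))) (.n 1 (.n 0 (.l 0) (.n 1 (.n 0 (.l 0) (.l 0)) (.l 0))) (.n 0 (.l 0) (.n 0 (.l 0) (.l 0))))) [(4123168604160, 274877906944), (27380416512, 27380416512), (192367558656, 3925868544)] rfl (by decide +kernel)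
theorem I0RT_139 : CovD 1 [pRT H BI0, pK1 H BI0] [(4123168604160, 274877906944), (27380416512, 27380416512), (200219295744, 3925868544)] :=
  cov_of (fRTK H BI0) (.n 2 (.n 1 (.n 0 (.l 0) (.n 1 (.n 0 (.l 0) (.l 0)) (.l 0))) (.n 0 (.l 0) (.n 0 (.l 0) (.l 0)))) (.n 1 (.n 0 (.l 0) (.n 1 (.n 0 (.l 0) (.l 0)) (.l 0))) (.n 0 (.l 0) (.n 0 (.l 0) (.l 0))))) [(4123168604160, 274877906944), (27380416512, 27380416512), (200219295744, 3925868544)] rfl (by decide +kernel)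
end

mutual
theorem I0RT_141 : CovD 1 [pRT H BI0, pK1 H BI0] [(4123168604160, 274877906944), (27380416512, 27380416512), (208071032832, 3925868544)] :=
  cov_of (fRTK H BI0) (.n 2 (.n 1 (.n 0 (.l 0) (.n 1 (.n 0 (.l 0) (.l 0)) (.l 0))) (.n 0 (.l 0) (.n 0 (.l 0) (.l 0)))) (.n 1 (.n 0 (.l 0) (.n 1 (.n 0 (.l 0) (.l 0)) (.l 0))) (.n 0 (.l 0) (.n 0 (.l 0) (.l 0))))) [(4123168604160, 274877906944), (27380416512, 27380416512), (208071032832, 3925868544)] rfl (by decide +kernel)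
theorem I0RT_142 : CovD 1 [pRT H BI0, pK1 H BI0] [(4123168604160, 274877906944), (27380416512, 27380416512), (215922769920, 3925868544)] :=
  cov_of (fRTK H BI0) (.n 2 (.n 1 (.n 0 (.l 0) (.n 1 (.n 0 (.l 0) (.l 0)) (.l 0))) (.n 0 (.l 0) (.n 0 (.l 0) (.l 0)))) (.n 1 (.n 0 (.n 0 (.l 0) (.l 0)) (.n 1 (.n 0 (.l 0) (.l 0)) (.l 0))) (.n 0 (.l 0) (.n 0 (.l 0) (.l 0))))) [(4123168604160, 274877906944), (27380416512, 27380416512), (215922769920, 3925868544)] rfl (by decide +kernel)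
theorem I0RT_145 : CovD 1 [pRT H BI0, pK1 H BI0] [(4123168604160, 274877906944), (27380416512, 27380416512), (223774507008, 3925868544)] :=
  cov_of (fRTK H BI0) (.n 2 (.n 1 (.n 0 (.n 0 (.l 0) (.l 0)) (.n 0 (.l 0) (.n 1 (.l 0) (.l 0)))) (.n 0 (.l 0) (.n 0 (.l 0) (.l 0)))) (.n 1 (.n 0 (.n 0 (.l 0) (.l 0)) (.n 0 (.l 0) (.n 1 (.l 0) (.l 0)))) (.n 0 (.l 0) (.n 0 (.l 0) (.l 0))))) [(4123168604160, 274877906944), (27380416512, 27380416512), (223774507008, 3925868544)] rfl (by decide +kernel)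
end

end Pool.Agent.helper82.WC.S5K0
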