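import Pool.Agent.helper82.WC.S5K0P

/-!
Generated certificates (in pairs, so that they are checked one after the other).
-/

namespace Pool.Agent.helper82.WC.S5K0

open Pool.Agent.helper82.WH
open Pool.Agent.helper31.IC (CovD covD_split TD)

mutual
theorem I0RT_146 : CovD 1 [pRT H BI0, pK1 H BI0] [(4123168604160, 274877906944), (27380416512, 27380416512), (231626244096, 3925868544)] :=
  cov_of (fRTK H BI0) (.n 2 (.n 1 (.n 0 (.n 0 (.l 0) (.l 0)) (.n 0 (.l 0) (.n 1 (.l 0) (.l 0)))) (.n 0 (.l 0) (.n 0 (.l 0) (.l 0)))) (.n 1 (.n 0 (.n 0 (.l 0) (.l 0)) (.n 1 (.n 0 (.l 0) (.l 0)) (.l 0))) (.n 0 (.l 0) (.n 0 (.l 0) (.l 0))))) [(4123168604160, 274877906944), (27380416512, 27380416512), (231626244096, 3925868544)] rfl (by decide +kernel)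
theorem I0RT_148 : CovD 1 [pRT H BI0, pK1 H BI0] [(4123168604160, 274877906944), (27380416512, 27380416512), (239477981184, 3925868544)] :=
  cov_of (fRTK H BI0) (.n 2 (.n 1 (.n 0 (.n 0 (.l 0) (.l 0)) (.n 1 (.n 0 (.l 0) (.l 0)) (.l 0))) (.n 0 (.l 0) (.n 0 (.l 0) (.l 0)))) (.n 1 (.n 0 (.n 0 (.l 0) (.l 0)) (.n 0 (.l 0) (.n 0 (.l 0) (.l 0)))) (.n 0 (.l 0) (.n 0 (.l 0) (.l 0))))) [(4123168604160, 274877906944), (27380416512, 27380416512), (239477981184, 3925868544)] rfl (by decide +kernel)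
end

mutual
theorem I0RT_149 : CovD 1 [pRT H BI0, pK1 H BI0] [(4123168604160, 274877906944), (27380416512, 27380416512), (247329718272, 3925868544)] :=
  cov_of (fRTK H BI0) (.n 2 (.n 1 (.n 0 (.n 0 (.l 0) (.l 0)) (.n 0 (.l 0) (.n 0 (.l 0) (.l 0)))) (.n 0 (.l 0) (.n 0 (.l 0) (.l 0)))) (.n 1 (.n 0 (.n 0 (.l 0) (.l 0)) (.n 0 (.l 0) (.n 1 (.l 0) (.l 0)))) (.n 0 (.l 0) (.n 0 (.l 0) (.l 0))))) [(4123168604160, 274877906944), (27380416512, 27380416512), (247329718272, 3925868544)] rfl (by decide +kernel)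
theorem I1AD_1 : CovD 0 [pAD H BI1, pK0 H BI1] [(3985729650688, 137438953472), (27380416512, 27380416512), (270582939648, 19327352832)] :=
  cov_of (fADK H BI1) (.n 2 (.n 0 (.n 1 (.n 0 (.l 0) (.l 0)) (.n 2 (.l 0) (.l 0))) (.n 1 (.n 2 (.l 0) (.l 0)) (.n 2 (.l 0) (.l 0)))) (.n 0 (.n 1 (.n 2 (.l 0) (.l 0)) (.n 2 (.l 0) (.l 0))) (.n 1 (.n 0 (.l 0) (.l 0)) (.n 0 (.l 0) (.l 0))))) [(3985729650688, 137438953472), (27380416512, 27380416512), (270582939648, 19327352832)] rfl (by decide +kernel)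
end

mutual
theorem I1AD_2 : CovD 0 [pAD H BI1, pK0 H BI1] [(4260607557632, 137438953472), (27380416512, 27380416512), (270582939648, 19327352832)] :=
  cov_of (fADK H BI1) (.n 2 (.n 0 (.n 1 (.n 2 (.l 0) (.l 0)) (.n 2 (.n 0 (.l 0) (.l 0)) (.l 0))) (.n 1 (.n 2 (.l 0) (.l 0)) (.n 2 (.n 0 (.l 0) (.l 0)) (.n 0 (.l 0) (.l 0))))) (.n 0 (.n 1 (.n 0 (.l 0) (.l 0)) (.n 2 (.l 0) (.l 0))) (.n 1 (.n 2 (.l 0) (.l 0)) (.n 2 (.l 0) (.l 0))))) [(4260607557632, 137438953472), (27380416512, 27380416512), (270582939648, 19327352832)] rfl (by decide +kernel)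
theorem I1AD_4 : CovD 0 [pAD H BI1, pK0 H BI1] [(3985729650688, 137438953472), (27380416512, 27380416512), (309237645312, 19327352832)] :=
  cov_of (fADK H BI1) (.n 2 (.n 0 (.n 1 (.n 2 (.l 0) (.l 0)) (.n 2 (.l 0) (.l 0))) (.n 1 (.n 0 (.l 0) (.l 0)) (.n 0 (.l 0) (.l 0)))) (.n 0 (.n 1 (.n 0 (.l 0) (.l 0)) (.n 0 (.l 0) (.l 0))) (.n 1 (.l 0) (.l 0)))) [(3985729650688, 137438953472), (27380416512, 27380416512), (309237645312, 19327352832)] rfl (by decide +kernel)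
end

mutual
theorem I1AD_5 : CovD 0 [pAD H BI1, pK0 H BI1] [(4260607557632, 137438953472), (27380416512, 27380416512), (309237645312, 19327352832)] :=
  cov_of (fADK H BI1) (.n 2 (.n 0 (.n 1 (.n 0 (.l 0) (.l 0)) (.n 0 (.l 0) (.l 0))) (.n 1 (.n 0 (.l 0) (.l 0)) (.n 0 (.l 0) (.l 0)))) (.n 0 (.n 1 (.l 0) (.l 0)) (.n 1 (.l 0) (.n 0 (.l 0) (.l 0))))) [(4260607557632, 137438953472), (27380416512, 27380416512), (309237645312, 19327352832)] rfl (by decide +kernel)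
theorem I1G : CovD 1 [pG H BI1, pK1 H BI1] [(4123168604160, 274877906944), (27380416512, 27380416512), (289910292480, 38654705664)] :=
  cov_of (fGK H BI1) (.n 2 (.n 2 (.l 0) (.n 0 (.l 0) (.l 0))) (.n 2 (.n 0 (.l 0) (.n 2 (.l 0) (.n 0 (.l 0) (.l 0)))) (.n 0 (.n 2 (.l 0) (.n 0 (.l 0) (.l 0))) (.n 2 (.n 0 (.l 0) (.n 1 (.l 0) (.l 0))) (.n 0 (.n 1 (.l 0) (.l 0)) (.n 1 (.n 2 (.l 0) (.n 0 (.l 0) (.l 0))) (.n 2 (.l 0) (.n 0 (.l 0) (.l 0))))))))) [(4123168604160, 274877906944), (27380416512, 27380416512), (289910292480, 38654705664)] rfl (by decide +kernel)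
end

mutual
theorem I1RT_2 : CovD 1 [pRT H BI1, pK1 H BI1] [(4123168604160, 274877906944), (27380416512, 27380416512), (256087425024, 4831838208)] :=
  cov_of (fRTK H BI1) (.n 2 (.n 0 (.n 1 (.n 0 (.l 0) (.l 0)) (.l 0)) (.n 1 (.n 0 (.n 0 (.l 0) (.l 0)) (.n 1 (.n 0 (.l 0) (.n 0 (.l 0) (.l 0))) (.l 0))) (.n 0 (.l 0) (.l 0)))) (.n 0 (.n 1 (.n 0 (.l 0) (.l 0)) (.l 0)) (.n 1 (.n 0 (.n 0 (.l 0) (.l 0)) (.n 1 (.n 0 (.l 0) (.l 0)) (.l 0))) (.n 0 (.l 0) (.l 0))))) [(4123168604160, 274877906944), (27380416512, 27380416512), (256087425024, 4831838208)] rfl (by decide +kernel)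
theorem I1RT_3 : CovD 1 [pRT H BI1, pK1 H BI1] [(4123168604160, 274877906944), (27380416512, 27380416512), (265751101440, 4831838208)] :=
  cov_of (fRTK H BI1) (.n 2 (.n 0 (.n 1 (.n 0 (.l 0) (.l 0)) (.l 0)) (.n 1 (.n 0 (.n 0 (.l 0) (.l 0)) (.n 1 (.n 0 (.l 0) (.l 0)) (.l 0))) (.n 0 (.l 0) (.l 0)))) (.n 0 (.n 1 (.n 0 (.l 0) (.l 0)) (.l 0)) (.n 1 (.n 0 (.n 0 (.l 0) (.l 0)) (.n 1 (.n 0 (.l 0) (.l 0)) (.l 0))) (.n 0 (.l 0) (.l 0))))) [(4123168604160, 274877906944), (27380416512, 27380416512), (265751101440, 4831838208)] rfl (by decide +kernel)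
end

mutual
theorem I1RT_5 : CovD 1 [pRT H BI1, pK1 H BI1] [(4123168604160, 274877906944), (27380416512, 27380416512), (275414777856, 4831838208)] :=
  cov_of (fRTK H BI1) (.n 2 (.n 0 (.n 1 (.n 0 (.l 0) (.l 0)) (.l 0)) (.n 1 (.n 0 (.n 0 (.l 0) (.l 0)) (.n 0 (.l 0) (.n 0 (.l 0) (.l 0)))) (.n 0 (.l 0) (.l 0)))) (.n 0 (.n 1 (.n 0 (.l 0) (.l 0)) (.l 0)) (.n 1 (.n 0 (.n 0 (.l 0) (.l 0)) (.n 0 (.l 0) (.n 0 (.l 0) (.l 0)))) (.n 0 (.l 0) (.l 0))))) [(4123168604160, 274877906944), (27380416512, 27380416512), (275414777856, 4831838208)] rfl (by decide +kernel)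
theorem I1RT_6 : CovD 1 [pRT H BI1, pK1 H BI1] [(4123168604160, 274877906944), (27380416512, 27380416512), (285078454272, 4831838208)] :=
  cov_of (fRTK H BI1) (.n 2 (.n 0 (.n 1 (.n 0 (.l 0) (.l 0)) (.l 0)) (.n 1 (.n 0 (.n 0 (.l 0) (.l 0)) (.n 0 (.l 0) (.n 0 (.l 0) (.l 0)))) (.n 0 (.l 0) (.l 0)))) (.n 0 (.n 1 (.n 0 (.l 0) (.l 0)) (.l 0)) (.n 1 (.n 0 (.n 0 (.l 0) (.l 0)) (.n 0 (.l 0) (.l 0))) (.n 0 (.l 0) (.l 0))))) [(4123168604160, 274877906944), (27380416512, 27380416512), (285078454272, 4831838208)] rfl (by decide +kernel)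
end

mutual
theorem I1RT_9 : CovD 1 [pRT H BI1, pK1 H BI1] [(4123168604160, 274877906944), (27380416512, 27380416512), (294742130688, 4831838208)] :=
  cov_of (fRTK H BI1) (.n 2 (.n 0 (.n 1 (.n 0 (.l 0) (.l 0)) (.l 0)) (.n 1 (.n 0 (.l 0) (.n 0 (.l 0) (.l 0))) (.n 0 (.l 0) (.l 0)))) (.n 0 (.n 1 (.n 0 (.l 0) (.l 0)) (.l 0)) (.n 1 (.n 0 (.l 0) (.n 0 (.l 0) (.l 0))) (.n 0 (.l 0) (.l 0))))) [(4123168604160, 274877906944), (27380416512, 27380416512), (294742130688, 4831838208)] rfl (by decide +kernel)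
theorem I1RT_10 : CovD 1 [pRT H BI1, pK1 H BI1] [(4123168604160, 274877906944), (27380416512, 27380416512), (304405807104, 4831838208)] :=
  cov_of (fRTK H BI1) (.n 2 (.n 0 (.n 1 (.n 0 (.l 0) (.l 0)) (.l 0)) (.n 1 (.n 0 (.l 0) (.n 0 (.l 0) (.l 0))) (.n 0 (.l 0) (.l 0)))) (.n 0 (.n 1 (.n 0 (.l 0) (.l 0)) (.l 0)) (.n 1 (.n 0 (.l 0) (.n 0 (.l 0) (.l 0))) (.n 0 (.l 0) (.l 0))))) [(4123168604160, 274877906944), (27380416512, 27380416512), (304405807104, 4831838208)] rfl (by decide +kernel)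
end

mutual
theorem I1RT_12 : CovD 1 [pRT H BI1, pK1 H BI1] [(4123168604160, 274877906944), (27380416512, 27380416512), (314069483520, 4831838208)] :=
  cov_of (fRTK H BI1) (.n 2 (.n 0 (.n 1 (.n 0 (.l 0) (.l 0)) (.l 0)) (.n 1 (.n 0 (.l 0) (.n 0 (.l 0) (.l 0))) (.n 0 (.l 0) (.l 0)))) (.n 0 (.n 1 (.n 0 (.l 0) (.l 0)) (.l 0)) (.n 1 (.n 0 (.l 0) (.n 0 (.l 0) (.l 0))) (.n 0 (.l 0) (.l 0))))) [(4123168604160, 274877906944), (27380416512, 27380416512), (314069483520, 4831838208)] rfl (by decide +kernel)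
theorem I1RT_13 : CovD 1 [pRT H BI1, pK1 H BI1] [(4123168604160, 274877906944), (27380416512, 27380416512), (323733159936, 4831838208)] :=
  cov_of (fRTK H BI1) (.n 2 (.n 0 (.n 1 (.n 0 (.l 0) (.l 0)) (.l 0)) (.n 1 (.n 0 (.l 0) (.n 0 (.l 0) (.l 0))) (.n 0 (.l 0) (.l 0)))) (.n 0 (.n 1 (.n 0 (.l 0) (.l 0)) (.l 0)) (.n 1 (.n 0 (.l 0) (.n 0 (.l 0) (.l 0))) (.n 0 (.l 0) (.l 0))))) [(4123168604160, 274877906944), (27380416512, 27380416512), (323733159936, 4831838208)] rfl (by decide +kernel)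
end

mutual
theorem I2AD_1 : CovD 0 [pAD H BI2, pK0 H BI2] [(4123168604160, 274877906944), (27380416512, 27380416512), (343060512768, 14495514624)] :=
  cov_of (fADK H BI2) (.n 0 (.n 2 (.n 0 (.n 1 (.n 0 (.l 0) (.l 0)) (.n 0 (.l 0) (.l 0))) (.n 1 (.l 0) (.l 0))) (.n 0 (.n 1 (.l 0) (.l 0)) (.n 1 (.l 0) (.l 0)))) (.n 2 (.n 0 (.n 1 (.l 0) (.l 0)) (.n 1 (.l 0) (.l 0))) (.n 0 (.n 1 (.l 0) (.l 0)) (.n 1 (.l 0) (.l 0))))) [(4123168604160, 274877906944), (27380416512, 27380416512), (343060512768, 14495514624)] rfl (by decide +kernel)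
theorem I2AD_2 : CovD 0 [pAD H BI2, pK0 H BI2] [(4123168604160, 274877906944), (27380416512, 27380416512), (372051542016, 14495514624)] :=
  cov_of (fADK H BI2) (.n 0 (.n 2 (.n 0 (.n 1 (.l 0) (.l 0)) (.n 1 (.l 0) (.l 0))) (.n 0 (.n 1 (.l 0) (.l 0)) (.n 1 (.l 0) (.l 0)))) (.n 2 (.n 0 (.n 1 (.l 0) (.l 0)) (.n 1 (.l 0) (.l 0))) (.n 0 (.n 1 (.l 0) (.l 0)) (.n 1 (.l 0) (.l 0))))) [(4123168604160, 274877906944), (27380416512, 27380416512), (372051542016, 14495514624)] rfl (by decide +kernel)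
end

mutual
theorem I2AD_4 : CovD 0 [pAD H BI2, pK0 H BI2] [(4123168604160, 274877906944), (27380416512, 27380416512), (401042571264, 14495514624)] :=
  cov_of (fADK H BI2) (.n 0 (.n 2 (.n 1 (.n 0 (.l 0) (.l 0)) (.n 0 (.n 0 (.l 0) (.l 0)) (.l 0))) (.n 0 (.n 1 (.n 0 (.l 0) (.l 0)) (.n 0 (.l 0) (.l 0))) (.n 1 (.l 0) (.n 0 (.l 0) (.l 0))))) (.n 2 (.n 0 (.n 1 (.l 0) (.l 0)) (.n 1 (.l 0) (.l 0))) (.n 0 (.n 1 (.l 0) (.n 0 (.l 0) (.l 0))) (.n 1 (.l 0) (.n 0 (.l 0) (.l 0)))))) [(4123168604160, 274877906944), (27380416512, 27380416512), (401042571264, 14495514624)] rfl (by decide +kernel)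
theorem I2AD_6 : CovD 0 [pAD H BI2, pK0 H BI2] [(3985729650688, 137438953472), (27380416512, 27380416512), (430033600512, 14495514624)] :=
  cov_of (fADK H BI2) (.n 2 (.n 0 (.n 1 (.n 0 (.l 0) (.l 0)) (.n 0 (.l 0) (.l 0))) (.n 1 (.l 0) (.n 0 (.l 0) (.l 0)))) (.n 0 (.n 1 (.n 0 (.l 0) (.l 0)) (.n 0 (.l 0) (.l 0))) (.n 1 (.l 0) (.n 0 (.l 0) (.l 0))))) [(3985729650688, 137438953472), (27380416512, 27380416512), (430033600512, 14495514624)] rfl (by decide +kernel)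
end

mutual
theorem I2AD_7 : CovD 0 [pAD H BI2, pK0 H BI2] [(4260607557632, 137438953472), (27380416512, 27380416512), (430033600512, 14495514624)] :=
  cov_of (fADK H BI2) (.n 2 (.n 0 (.n 1 (.l 0) (.n 0 (.l 0) (.l 0))) (.n 1 (.l 0) (.n 0 (.l 0) (.l 0)))) (.n 0 (.n 1 (.l 0) (.n 0 (.l 0) (.l 0))) (.n 0 (.n 1 (.l 0) (.l 0)) (.n 1 (.l 0) (.l 0))))) [(4260607557632, 137438953472), (27380416512, 27380416512), (430033600512, 14495514624)] rfl (by decide +kernel)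
theorem I2G_1 : CovD 1 [pG H BI2, pK1 H BI2] [(4123168604160, 274877906944), (27380416512, 27380416512), (343060512768, 14495514624)] :=
  cov_of (fGK H BI2) (.n 0 (.n 2 (.l 0) (.n 0 (.l 0) (.l 0))) (.n 2 (.n 0 (.l 0) (.n 0 (.l 0) (.l 0))) (.n 0 (.n 0 (.l 0) (.l 0)) (.n 2 (.l 0) (.n 0 (.l 0) (.l 0)))))) [(4123168604160, 274877906944), (27380416512, 27380416512), (343060512768, 14495514624)] rfl (by decide +kernel)
end

mutual
theorem I2G_2 : CovD 1 [pG H BI2, pK1 H BI2] [(4123168604160, 274877906944), (27380416512, 27380416512), (372051542016, 14495514624)] :=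
  cov_of (fGK H BI2) (.n 0 (.n 2 (.n 0 (.l 0) (.l 0)) (.n 0 (.l 0) (.n 0 (.l 0) (.l 0)))) (.n 2 (.n 0 (.n 1 (.l 0) (.l 0)) (.n 1 (.n 2 (.l 0) (.l 0)) (.n 2 (.l 0) (.l 0)))) (.n 0 (.n 1 (.n 0 (.l 0) (.l 0)) (.n 0 (.l 0) (.l 0))) (.n 1 (.n 2 (.n 0 (.l 0) (.l 0)) (.n 0 (.l 0) (.l 0))) (.n 2 (.n 0 (.l 0) (.l 0)) (.n 0 (.l 0) (.l 0))))))) [(4123168604160, 274877906944), (27380416512, 27380416512), (372051542016, 14495514624)] rfl (by decide +kernel)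
theorem I2G_5 : CovD 1 [pG H BI2, pK1 H BI2] [(3985729650688, 137438953472), (27380416512, 27380416512), (401042571264, 14495514624)] :=
  cov_of (fGK H BI2) (.n 2 (.n 0 (.l 0) (.n 0 (.l 0) (.l 0))) (.n 0 (.l 0) (.n 0 (.l 0) (.l 0)))) [(3985729650688, 137438953472), (27380416512, 27380416512), (401042571264, 14495514624)] rfl (by decide +kernel)
end

mutual
theorem I2G_7 : CovD 1 [pG H BI2, pK1 H BI2] [(4260607557632, 137438953472), (27380416512, 27380416512), (393794813952, 7247757312)] :=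
  cov_of (fGK H BI2) (.n 0 (.n 1 (.n 0 (.l 0) (.l 0)) (.n 0 (.l 0) (.l 0))) (.n 1 (.n 2 (.n 0 (.l 0) (.l 0)) (.n 0 (.l 0) (.l 0))) (.n 2 (.n 0 (.l 0) (.l 0)) (.n 0 (.l 0) (.n 0 (.l 0) (.l 0)))))) [(4260607557632, 137438953472), (27380416512, 27380416512), (393794813952, 7247757312)] rfl (by decide +kernel)
theorem I2G_8 : CovD 1 [pG H BI2, pK1 H BI2] [(4260607557632, 137438953472), (27380416512, 27380416512), (408290328576, 7247757312)] :=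
  cov_of (fGK H BI2) (.n 0 (.n 1 (.n 0 (.l 0) (.l 0)) (.n 0 (.l 0) (.l 0))) (.n 1 (.n 2 (.n 0 (.l 0) (.n 0 (.l 0) (.l 0))) (.n 0 (.l 0) (.l 0))) (.n 2 (.n 0 (.l 0) (.n 0 (.l 0) (.l 0))) (.n 0 (.l 0) (.l 0))))) [(4260607557632, 137438953472), (27380416512, 27380416512), (408290328576, 7247757312)] rfl (by decide +kernel)
end

mutual
theorem I2G_9 : CovD 1 [pG H BI2, pK1 H BI2] [(4123168604160, 274877906944), (27380416512, 27380416512), (430033600512, 14495514624)] :=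
  cov_of (fGK H BI2) (.n 0 (.n 2 (.n 0 (.l 0) (.n 0 (.l 0) (.l 0))) (.n 1 (.l 0) (.l 0))) (.n 2 (.n 0 (.n 1 (.n 0 (.l 0) (.l 0)) (.n 0 (.l 0) (.l 0))) (.n 1 (.n 2 (.n 0 (.l 0) (.l 0)) (.n 0 (.l 0) (.l 0))) (.n 2 (.n 0 (.l 0) (.l 0)) (.n 0 (.l 0) (.l 0))))) (.n 1 (.n 0 (.l 0) (.n 2 (.l 0) (.l 0))) (.n 0 (.l 0) (.n 2 (.l 0) (.l 0)))))) [(4123168604160, 274877906944), (27380416512, 27380416512), (430033600512, 14495514624)] rfl (by decide +kernel)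
theorem I2RT_4 : CovD 1 [pRT H BI2, pK1 H BI2] [(3985729650688, 137438953472), (27380416512, 27380416512), (332188876800, 3623878656)] :=
  cov_of (fRTK H BI2) (.n 1 (.n 0 (.n 0 (.l 0) (.l 0)) (.n 0 (.l 0) (.n 0 (.l 0) (.l 0)))) (.n 0 (.l 0) (.n 0 (.l 0) (.l 0)))) [(3985729650688, 137438953472), (27380416512, 27380416512), (332188876800, 3623878656)] rfl (by decide +kernel)
end

mutual
theorem I2RT_5 : CovD 1 [pRT H BI2, pK1 H BI2] [(4260607557632, 137438953472), (27380416512, 27380416512), (332188876800, 3623878656)] :=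
  cov_of (fRTK H BI2) (.n 1 (.n 0 (.n 0 (.n 1 (.l 0) (.l 0)) (.n 1 (.n 0 (.l 0) (.l 0)) (.l 0))) (.n 0 (.n 1 (.n 2 (.l 0) (.l 0)) (.l 0)) (.n 1 (.n 2 (.n 0 (.l 0) (.l 0)) (.n 0 (.l 0) (.l 0))) (.n 0 (.l 0) (.l 0))))) (.n 0 (.n 0 (.l 0) (.l 0)) (.n 0 (.n 0 (.l 0) (.l 0)) (.n 1 (.l 0) (.l 0))))) [(4260607557632, 137438953472), (27380416512, 27380416512), (332188876800, 3623878656)] rfl (by decide +kernel)
theorem I2RT_6 : CovD 1 [pRT H BI2, pK1 H BI2] [(4123168604160, 274877906944), (27380416512, 27380416512), (339436634112, 3623878656)] :=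
  cov_of (fRTK H BI2) (.n 0 (.n 1 (.n 0 (.n 0 (.l 0) (.l 0)) (.n 0 (.l 0) (.l 0))) (.n 0 (.l 0) (.l 0))) (.n 1 (.n 0 (.n 0 (.n 0 (.l 0) (.l 0)) (.n 1 (.l 0) (.l 0))) (.n 0 (.n 1 (.n 0 (.l 0) (.l 0)) (.l 0)) (.n 1 (.n 2 (.n 0 (.l 0) (.l 0)) (.l 0)) (.n 0 (.l 0) (.l 0))))) (.n 0 (.n 0 (.l 0) (.l 0)) (.n 0 (.n 0 (.l 0) (.l 0)) (.n 0 (.l 0) (.l 0)))))) [(4123168604160, 274877906944), (27380416512, 27380416512), (339436634112, 3623878656)] rfl (by decide +kernel)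
end

end Pool.Agent.helper82.WC.S5K0
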