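import Pool.Agent.helper82.WC.S5K0P

/-!
Generated certificates (in pairs, so that they are checked one after the other).
-/

namespace Pool.Agent.helper82.WC.S5K0

open Pool.Agent.helper82.WH
open Pool.Agent.helper31.IC (CovD covD_split TD)

mutual
theorem I2RT_8 : CovD 1 [pRT H BI2, pK1 H BI2] [(4123168604160, 274877906944), (27380416512, 27380416512), (346684391424, 3623878656)] :=
  cov_of (fRTK H BI2) (.n 0 (.n 1 (.n 0 (.l 0) (.n 0 (.l 0) (.l 0))) (.n 0 (.l 0) (.l 0))) (.n 1 (.n 0 (.n 0 (.n 0 (.l 0) (.l 0)) (.n 1 (.l 0) (.l 0))) (.n 0 (.n 1 (.n 0 (.l 0) (.l 0)) (.l 0)) (.n 1 (.n 2 (.l 0) (.l 0)) (.l 0)))) (.n 0 (.n 0 (.l 0) (.l 0)) (.n 0 (.l 0) (.n 0 (.l 0) (.l 0)))))) [(4123168604160, 274877906944), (27380416512, 27380416512), (346684391424, 3623878656)] rfl (by decide +kernel)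
theorem I2RT_9 : CovD 1 [pRT H BI2, pK1 H BI2] [(4123168604160, 274877906944), (27380416512, 27380416512), (353932148736, 3623878656)] :=
  cov_of (fRTK H BI2) (.n 0 (.n 1 (.n 0 (.l 0) (.n 0 (.l 0) (.l 0))) (.n 0 (.l 0) (.l 0))) (.n 1 (.n 0 (.n 0 (.l 0) (.n 0 (.l 0) (.l 0))) (.n 0 (.n 1 (.l 0) (.l 0)) (.n 1 (.n 0 (.l 0) (.l 0)) (.l 0)))) (.n 0 (.n 0 (.l 0) (.l 0)) (.n 0 (.l 0) (.l 0))))) [(4123168604160, 274877906944), (27380416512, 27380416512), (353932148736, 3623878656)] rfl (by decide +kernel)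
end

mutual
theorem I2RT_12 : CovD 1 [pRT H BI2, pK1 H BI2] [(4123168604160, 274877906944), (27380416512, 27380416512), (361179906048, 3623878656)] :=
  cov_of (fRTK H BI2) (.n 0 (.n 1 (.n 0 (.l 0) (.n 0 (.l 0) (.l 0))) (.n 0 (.l 0) (.l 0))) (.n 1 (.n 0 (.n 0 (.l 0) (.l 0)) (.n 0 (.n 0 (.l 0) (.l 0)) (.n 1 (.l 0) (.l 0)))) (.n 0 (.n 0 (.l 0) (.l 0)) (.n 0 (.l 0) (.l 0))))) [(4123168604160, 274877906944), (27380416512, 27380416512), (361179906048, 3623878656)] rfl (by decide +kernel)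
theorem I2RT_13 : CovD 1 [pRT H BI2, pK1 H BI2] [(4123168604160, 274877906944), (27380416512, 27380416512), (368427663360, 3623878656)] :=
  cov_of (fRTK H BI2) (.n 0 (.n 1 (.n 0 (.l 0) (.n 0 (.l 0) (.l 0))) (.n 0 (.l 0) (.l 0))) (.n 1 (.n 0 (.n 0 (.l 0) (.l 0)) (.n 1 (.n 0 (.l 0) (.l 0)) (.l 0))) (.n 0 (.l 0) (.n 0 (.l 0) (.l 0))))) [(4123168604160, 274877906944), (27380416512, 27380416512), (368427663360, 3623878656)] rfl (by decide +kernel)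
end

mutual
theorem I2RT_14 : CovD 1 [pRT H BI2, pK1 H BI2] [(4123168604160, 274877906944), (27380416512, 27380416512), (379299299328, 7247757312)] :=
  cov_of (fRTK H BI2) (.n 2 (.n 0 (.n 1 (.n 0 (.l 0) (.l 0)) (.n 0 (.l 0) (.l 0))) (.n 1 (.n 0 (.n 0 (.l 0) (.l 0)) (.n 0 (.l 0) (.n 0 (.l 0) (.l 0)))) (.n 0 (.l 0) (.n 0 (.l 0) (.l 0))))) (.n 0 (.n 1 (.n 0 (.l 0) (.l 0)) (.n 0 (.l 0) (.l 0))) (.n 1 (.n 0 (.n 0 (.l 0) (.l 0)) (.n 0 (.l 0) (.l 0))) (.n 0 (.l 0) (.n 0 (.l 0) (.l 0)))))) [(4123168604160, 274877906944), (27380416512, 27380416512), (379299299328, 7247757312)] rfl (by decide +kernel)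
theorem I2RT_17 : CovD 1 [pRT H BI2, pK1 H BI2] [(4123168604160, 274877906944), (27380416512, 27380416512), (393794813952, 7247757312)] :=
  cov_of (fRTK H BI2) (.n 0 (.n 1 (.n 0 (.n 0 (.l 0) (.l 0)) (.n 0 (.l 0) (.l 0))) (.n 0 (.l 0) (.n 0 (.l 0) (.l 0)))) (.n 2 (.n 1 (.n 0 (.n 0 (.l 0) (.l 0)) (.n 0 (.l 0) (.l 0))) (.n 0 (.l 0) (.n 0 (.l 0) (.l 0)))) (.n 1 (.n 0 (.n 0 (.l 0) (.l 0)) (.n 0 (.l 0) (.l 0))) (.n 0 (.l 0) (.l 0))))) [(4123168604160, 274877906944), (27380416512, 27380416512), (393794813952, 7247757312)] rfl (by decide +kernel)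
end

mutual
theorem I2RT_18 : CovD 1 [pRT H BI2, pK1 H BI2] [(4123168604160, 274877906944), (27380416512, 27380416512), (408290328576, 7247757312)] :=
  cov_of (fRTK H BI2) (.n 0 (.n 1 (.n 0 (.n 0 (.l 0) (.l 0)) (.n 0 (.l 0) (.l 0))) (.n 0 (.l 0) (.n 0 (.l 0) (.l 0)))) (.n 2 (.n 1 (.n 0 (.l 0) (.n 0 (.l 0) (.l 0))) (.n 0 (.l 0) (.l 0))) (.n 1 (.n 0 (.l 0) (.n 0 (.l 0) (.l 0))) (.n 0 (.l 0) (.l 0))))) [(4123168604160, 274877906944), (27380416512, 27380416512), (408290328576, 7247757312)] rfl (by decide +kernel)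
theorem I2RT_20 : CovD 1 [pRT H BI2, pK1 H BI2] [(4123168604160, 274877906944), (27380416512, 27380416512), (422785843200, 7247757312)] :=
  cov_of (fRTK H BI2) (.n 0 (.n 1 (.n 0 (.n 0 (.l 0) (.l 0)) (.n 0 (.l 0) (.l 0))) (.n 0 (.l 0) (.n 0 (.l 0) (.l 0)))) (.n 2 (.n 1 (.n 0 (.n 0 (.l 0) (.l 0)) (.n 0 (.l 0) (.l 0))) (.n 0 (.l 0) (.n 0 (.l 0) (.l 0)))) (.n 1 (.n 0 (.n 0 (.l 0) (.l 0)) (.n 0 (.l 0) (.l 0))) (.n 0 (.l 0) (.n 0 (.l 0) (.l 0)))))) [(4123168604160, 274877906944), (27380416512, 27380416512), (422785843200, 7247757312)] rfl (by decide +kernel)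
end

mutual
theorem I2RT_22 : CovD 1 [pRT H BI2, pK1 H BI2] [(3985729650688, 137438953472), (27380416512, 27380416512), (437281357824, 7247757312)] :=
  cov_of (fRTK H BI2) (.n 1 (.n 0 (.n 2 (.l 0) (.l 0)) (.n 2 (.n 0 (.l 0) (.l 0)) (.n 0 (.l 0) (.l 0)))) (.n 0 (.n 0 (.l 0) (.l 0)) (.n 1 (.l 0) (.l 0)))) [(3985729650688, 137438953472), (27380416512, 27380416512), (437281357824, 7247757312)] rfl (by decide +kernel)
theorem I2RT_23 : CovD 1 [pRT H BI2, pK1 H BI2] [(4260607557632, 137438953472), (27380416512, 27380416512), (437281357824, 7247757312)] :=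
  cov_of (fRTK H BI2) (.n 2 (.n 1 (.n 0 (.n 0 (.l 0) (.l 0)) (.n 1 (.n 0 (.l 0) (.l 0)) (.l 0))) (.n 0 (.l 0) (.n 0 (.l 0) (.l 0)))) (.n 1 (.n 0 (.n 0 (.l 0) (.n 0 (.l 0) (.l 0))) (.n 0 (.n 1 (.l 0) (.l 0)) (.n 1 (.n 0 (.l 0) (.l 0)) (.l 0)))) (.n 0 (.n 0 (.l 0) (.l 0)) (.n 0 (.l 0) (.l 0))))) [(4260607557632, 137438953472), (27380416512, 27380416512), (437281357824, 7247757312)] rfl (by decide +kernel)
end

mutual
theorem I3AD_0 : CovD 0 [pAD H BI3, pK0 H BI3] [(3985729650688, 137438953472), (27380416512, 27380416512), (454192791552, 9663676416)] :=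
  cov_of (fADK H BI3) (.n 0 (.n 1 (.n 2 (.l 0) (.n 0 (.l 0) (.l 0))) (.n 2 (.l 0) (.n 0 (.l 0) (.l 0)))) (.n 1 (.n 2 (.l 0) (.n 0 (.l 0) (.l 0))) (.n 2 (.l 0) (.n 0 (.l 0) (.l 0))))) [(3985729650688, 137438953472), (27380416512, 27380416512), (454192791552, 9663676416)] rfl (by decide +kernel)
theorem I3AD_1 : CovD 0 [pAD H BI3, pK0 H BI3] [(4260607557632, 137438953472), (27380416512, 27380416512), (454192791552, 9663676416)] :=
  cov_of (fADK H BI3) (.n 0 (.n 1 (.n 2 (.l 0) (.n 0 (.l 0) (.l 0))) (.n 2 (.l 0) (.n 1 (.l 0) (.n 0 (.l 0) (.l 0))))) (.n 2 (.n 1 (.l 0) (.l 0)) (.n 0 (.n 1 (.l 0) (.l 0)) (.n 0 (.n 1 (.l 0) (.l 0)) (.n 1 (.l 0) (.l 0)))))) [(4260607557632, 137438953472), (27380416512, 27380416512), (454192791552, 9663676416)] rfl (by decide +kernel)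
end

mutual
theorem I3G_0 : CovD 1 [pG H BI3, pK1 H BI3] [(3985729650688, 137438953472), (27380416512, 27380416512), (454192791552, 9663676416)] :=
  cov_of (fGK H BI3) (.n 2 (.n 1 (.l 0) (.l 0)) (.n 0 (.l 0) (.l 0))) [(3985729650688, 137438953472), (27380416512, 27380416512), (454192791552, 9663676416)] rfl (by decide +kernel)
theorem I3G_1 : CovD 1 [pG H BI3, pK1 H BI3] [(4260607557632, 137438953472), (27380416512, 27380416512), (454192791552, 9663676416)] :=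
  cov_of (fGK H BI3) (.n 2 (.n 1 (.n 0 (.n 0 (.l 0) (.l 0)) (.n 2 (.n 0 (.l 0) (.n 1 (.l 0) (.l 0))) (.n 0 (.l 0) (.n 0 (.l 0) (.l 0))))) (.n 0 (.n 0 (.l 0) (.l 0)) (.n 2 (.n 1 (.n 0 (.l 0) (.l 0)) (.l 0)) (.n 0 (.l 0) (.l 0))))) (.n 1 (.n 0 (.l 0) (.n 2 (.n 0 (.l 0) (.l 0)) (.l 0))) (.n 0 (.l 0) (.n 2 (.n 0 (.l 0) (.l 0)) (.l 0))))) [(4260607557632, 137438953472), (27380416512, 27380416512), (454192791552, 9663676416)] rfl (by decide +kernel)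
end

mutual
theorem I3RT_1 : CovD 1 [pRT H BI3, pK1 H BI3] [(3985729650688, 137438953472), (27380416512, 27380416512), (449360953344, 4831838208)] :=
  cov_of (fRTK H BI3) (.n 1 (.n 0 (.n 0 (.l 0) (.l 0)) (.n 1 (.n 0 (.l 0) (.l 0)) (.n 0 (.l 0) (.l 0)))) (.n 0 (.n 0 (.l 0) (.l 0)) (.n 1 (.l 0) (.l 0)))) [(3985729650688, 137438953472), (27380416512, 27380416512), (449360953344, 4831838208)] rfl (by decide +kernel)
theorem I3RT_2 : CovD 1 [pRT H BI3, pK1 H BI3] [(4260607557632, 137438953472), (27380416512, 27380416512), (449360953344, 4831838208)] :=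
  cov_of (fRTK H BI3) (.n 1 (.n 0 (.n 0 (.n 1 (.l 0) (.l 0)) (.n 2 (.l 0) (.n 0 (.l 0) (.l 0)))) (.n 2 (.n 0 (.n 0 (.l 0) (.l 0)) (.n 1 (.l 0) (.l 0))) (.n 1 (.n 0 (.l 0) (.n 0 (.l 0) (.l 0))) (.n 0 (.l 0) (.l 0))))) (.n 0 (.n 1 (.n 0 (.l 0) (.l 0)) (.n 0 (.l 0) (.l 0))) (.n 1 (.n 2 (.l 0) (.n 0 (.l 0) (.l 0))) (.n 0 (.l 0) (.l 0))))) [(4260607557632, 137438953472), (27380416512, 27380416512), (449360953344, 4831838208)] rfl (by decide +kernel)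
end

mutual
theorem I3RT_4 : CovD 1 [pRT H BI3, pK1 H BI3] [(3985729650688, 137438953472), (27380416512, 27380416512), (459024629760, 4831838208)] :=
  cov_of (fRTK H BI3) (.n 1 (.n 0 (.n 2 (.n 0 (.l 0) (.l 0)) (.n 0 (.l 0) (.l 0))) (.n 2 (.n 1 (.n 0 (.l 0) (.l 0)) (.l 0)) (.n 1 (.n 0 (.l 0) (.l 0)) (.l 0)))) (.n 0 (.n 2 (.l 0) (.n 0 (.l 0) (.l 0))) (.n 1 (.n 0 (.l 0) (.l 0)) (.n 0 (.l 0) (.l 0))))) [(3985729650688, 137438953472), (27380416512, 27380416512), (459024629760, 4831838208)] rfl (by decide +kernel)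
theorem I3RT_7 : CovD 1 [pRT H BI3, pK1 H BI3] [(4191888080896, 68719476736), (13690208256, 13690208256), (459024629760, 4831838208)] :=
  cov_of (fRTK H BI3) (.n 2 (.n 1 (.n 0 (.l 0) (.l 0)) (.n 0 (.l 0) (.l 0))) (.n 1 (.n 0 (.l 0) (.n 0 (.l 0) (.l 0))) (.n 0 (.l 0) (.l 0)))) [(4191888080896, 68719476736), (13690208256, 13690208256), (459024629760, 4831838208)] rfl (by decide +kernel)
end

mutual
theorem I3RT_8 : CovD 1 [pRT H BI3, pK1 H BI3] [(4329327034368, 68719476736), (13690208256, 13690208256), (459024629760, 4831838208)] :=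
  cov_of (fRTK H BI3) (.n 2 (.n 1 (.n 0 (.n 0 (.l 0) (.l 0)) (.n 2 (.l 0) (.l 0))) (.n 0 (.l 0) (.l 0))) (.n 1 (.n 0 (.n 2 (.l 0) (.n 0 (.l 0) (.l 0))) (.n 2 (.n 0 (.l 0) (.l 0)) (.n 0 (.l 0) (.n 0 (.l 0) (.l 0))))) (.n 0 (.l 0) (.n 0 (.l 0) (.l 0))))) [(4329327034368, 68719476736), (13690208256, 13690208256), (459024629760, 4831838208)] rfl (by decide +kernel)
theorem I3RT_9 : CovD 1 [pRT H BI3, pK1 H BI3] [(4260607557632, 137438953472), (41070624768, 13690208256), (459024629760, 4831838208)] :=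
  cov_of (fRTK H BI3) (.n 0 (.n 1 (.n 2 (.l 0) (.n 0 (.l 0) (.l 0))) (.n 2 (.l 0) (.n 0 (.l 0) (.l 0)))) (.n 1 (.n 2 (.n 0 (.l 0) (.l 0)) (.n 0 (.l 0) (.l 0))) (.n 2 (.n 0 (.l 0) (.l 0)) (.n 0 (.l 0) (.l 0))))) [(4260607557632, 137438953472), (41070624768, 13690208256), (459024629760, 4831838208)] rfl (by decide +kernel)
end

mutual
theorem TAD : CovD 0 [pAD H BT] [(4123168604160, 274877906944), (27380416512, 27380416512), (463856467968, 0)] :=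
  cov_of (fAD H BT) (.n 0 (.n 0 (.n 0 (.l 0) (.l 0)) (.n 0 (.l 0) (.l 0))) (.n 1 (.n 0 (.l 0) (.l 0)) (.n 0 (.l 0) (.l 0)))) [(4123168604160, 274877906944), (27380416512, 27380416512), (463856467968, 0)] rfl (by decide +kernel)
theorem TG : CovD 1 [pG H BT] [(4123168604160, 274877906944), (27380416512, 27380416512), (463856467968, 0)] :=
  cov_of (fG H BT) (.n 0 (.l 0) (.n 0 (.l 0) (.n 1 (.l 0) (.l 0)))) [(4123168604160, 274877906944), (27380416512, 27380416512), (463856467968, 0)] rfl (by decide +kernel)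
end

mutual
theorem TRT : CovD 1 [pRT H BT] [(4123168604160, 274877906944), (27380416512, 27380416512), (463856467968, 0)] :=
  cov_of (fRT H BT) (.n 0 (.n 1 (.n 0 (.n 0 (.l 0) (.l 0)) (.n 0 (.l 0) (.l 0))) (.n 0 (.l 0) (.n 0 (.l 0) (.l 0)))) (.n 1 (.n 0 (.n 1 (.n 0 (.l 0) (.l 0)) (.l 0)) (.n 1 (.n 0 (.l 0) (.n 0 (.l 0) (.l 0))) (.n 0 (.l 0) (.l 0)))) (.n 0 (.n 0 (.l 0) (.l 0)) (.n 1 (.n 0 (.l 0) (.l 0)) (.l 0))))) [(4123168604160, 274877906944), (27380416512, 27380416512), (463856467968, 0)] rfl (by decide +kernel)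
theorem TTT : CovD 1 [pTT H BT] [(4123168604160, 274877906944), (27380416512, 27380416512), (463856467968, 0)] :=
  cov_of (fTT H BT) (.n 0 (.n 0 (.n 1 (.n 0 (.n 0 (.n 1 (.l 0) (.l 0)) (.l 0)) (.l 0)) (.n 0 (.n 0 (.l 0) (.l 0)) (.l 0))) (.n 1 (.l 0) (.l 0))) (.n 1 (.n 0 (.l 0) (.l 0)) (.l 0))) [(4123168604160, 274877906944), (27380416512, 27380416512), (463856467968, 0)] rfl (by decide +kernel)
end

mutual
theorem H0H : CovD 0 [pH H BH0, pJ0 H BH0] [(4123168604160, 274877906944), (27380416512, 27380416512), (28185722880, 28185722880)] :=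
  cov_of (fHJ H BH0) (.l 0) [(4123168604160, 274877906944), (27380416512, 27380416512), (28185722880, 28185722880)] rfl (by decide +kernel)
theorem H1H : CovD 0 [pH H BH1] [(4123168604160, 274877906944), (27380416512, 27380416512), (1099511627776, 1099511627776)] :=
  cov_of (fH H BH1) (.l 0) [(4123168604160, 274877906944), (27380416512, 27380416512), (1099511627776, 1099511627776)] rfl (by decide +kernel)
end

end Pool.Agent.helper82.WC.S5K0
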