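import Pool.Agent.helper82.WC.S5K0C0
import Pool.Agent.helper82.WC.S5K0C1
import Pool.Agent.helper82.WC.S5K0C2
import Pool.Agent.helper82.WC.S5K0C3
import Pool.Agent.helper82.WC.S5K0C4

/-!
Generated certificates, assembled.
-/

namespace Pool.Agent.helper82.WC.S5K0

open Pool.Agent.helper82.WH
open Pool.Agent.helper31.IC (CovD covD_split TD)

theorem I0AD_4 : CovD 0 [pAD H BI0, pK0 H BI0] [(4123168604160, 274877906944), (41070624768, 13690208256), (15703474176, 15703474176)] :=
  covD_split 1 (by decide +kernel) I0AD_5 I0AD_6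
theorem I0AD_2 : CovD 0 [pAD H BI0, pK0 H BI0] [(4123168604160, 274877906944), (27380416512, 27380416512), (15703474176, 15703474176)] :=
  covD_split 1 (by decide +kernel) I0AD_3 I0AD_4
theorem I0AD_10 : CovD 0 [pAD H BI0, pK0 H BI0] [(4123168604160, 274877906944), (41070624768, 13690208256), (39258685440, 7851737088)] :=
  covD_split 1 (by decide +kernel) I0AD_11 I0AD_12
theorem I0AD_8 : CovD 0 [pAD H BI0, pK0 H BI0] [(4123168604160, 274877906944), (27380416512, 27380416512), (39258685440, 7851737088)] :=
  covD_split 1 (by decide +kernel) I0AD_9 I0AD_10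
theorem I0AD_14 : CovD 0 [pAD H BI0, pK0 H BI0] [(3985729650688, 137438953472), (27380416512, 27380416512), (54962159616, 7851737088)] :=
  covD_split 1 (by decide +kernel) I0AD_15 I0AD_16
theorem I0AD_17 : CovD 0 [pAD H BI0, pK0 H BI0] [(4260607557632, 137438953472), (27380416512, 27380416512), (54962159616, 7851737088)] :=
  covD_split 1 (by decide +kernel) I0AD_18 I0AD_19
theorem I0AD_13 : CovD 0 [pAD H BI0, pK0 H BI0] [(4123168604160, 274877906944), (27380416512, 27380416512), (54962159616, 7851737088)] :=
  covD_split 0 (by decide +kernel) I0AD_14 I0AD_17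
theorem I0AD_7 : CovD 0 [pAD H BI0, pK0 H BI0] [(4123168604160, 274877906944), (27380416512, 27380416512), (47110422528, 15703474176)] :=
  covD_split 2 (by decide +kernel) I0AD_8 I0AD_13
theorem I0AD_1 : CovD 0 [pAD H BI0, pK0 H BI0] [(4123168604160, 274877906944), (27380416512, 27380416512), (31406948352, 31406948352)] :=
  covD_split 2 (by decide +kernel) I0AD_2 I0AD_7
theorem I0AD_22 : CovD 0 [pAD H BI0, pK0 H BI0] [(3985729650688, 137438953472), (27380416512, 27380416512), (78517370880, 15703474176)] :=
  covD_split 2 (by decide +kernel) I0AD_23 I0AD_24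
theorem I0AD_25 : CovD 0 [pAD H BI0, pK0 H BI0] [(4260607557632, 137438953472), (27380416512, 27380416512), (78517370880, 15703474176)] :=
  covD_split 0 (by decide +kernel) I0AD_26 I0AD_27
theorem I0AD_21 : CovD 0 [pAD H BI0, pK0 H BI0] [(4123168604160, 274877906944), (27380416512, 27380416512), (78517370880, 15703474176)] :=
  covD_split 0 (by decide +kernel) I0AD_22 I0AD_25
theorem I0AD_29 : CovD 0 [pAD H BI0, pK0 H BI0] [(3985729650688, 137438953472), (27380416512, 27380416512), (109924319232, 15703474176)] :=
  covD_split 0 (by decide +kernel) I0AD_30 I0AD_31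
theorem I0AD_32 : CovD 0 [pAD H BI0, pK0 H BI0] [(4260607557632, 137438953472), (27380416512, 27380416512), (109924319232, 15703474176)] :=
  covD_split 2 (by decide +kernel) I0AD_33 I0AD_34
theorem I0AD_28 : CovD 0 [pAD H BI0, pK0 H BI0] [(4123168604160, 274877906944), (27380416512, 27380416512), (109924319232, 15703474176)] :=
  covD_split 0 (by decide +kernel) I0AD_29 I0AD_32
theorem I0AD_20 : CovD 0 [pAD H BI0, pK0 H BI0] [(4123168604160, 274877906944), (27380416512, 27380416512), (94220845056, 31406948352)] :=
  covD_split 2 (by decide +kernel) I0AD_21 I0AD_28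
theorem I0AD_0 : CovD 0 [pAD H BI0, pK0 H BI0] [(4123168604160, 274877906944), (27380416512, 27380416512), (62813896704, 62813896704)] :=
  covD_split 2 (by decide +kernel) I0AD_1 I0AD_20
theorem I0AD_37 : CovD 0 [pAD H BI0, pK0 H BI0] [(4123168604160, 274877906944), (27380416512, 27380416512), (141331267584, 15703474176)] :=
  covD_split 0 (by decide +kernel) I0AD_38 I0AD_39
theorem I0AD_40 : CovD 0 [pAD H BI0, pK0 H BI0] [(4123168604160, 274877906944), (27380416512, 27380416512), (172738215936, 15703474176)] :=
  covD_split 0 (by decide +kernel) I0AD_41 I0AD_42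
theorem I0AD_36 : CovD 0 [pAD H BI0, pK0 H BI0] [(4123168604160, 274877906944), (27380416512, 27380416512), (157034741760, 31406948352)] :=
  covD_split 2 (by decide +kernel) I0AD_37 I0AD_40
theorem I0AD_44 : CovD 0 [pAD H BI0, pK0 H BI0] [(4123168604160, 274877906944), (27380416512, 27380416512), (204145164288, 15703474176)] :=
  covD_split 0 (by decide +kernel) I0AD_45 I0AD_46
theorem I0AD_43 : CovD 0 [pAD H BI0, pK0 H BI0] [(4123168604160, 274877906944), (27380416512, 27380416512), (219848638464, 31406948352)] :=
  covD_split 2 (by decide +kernel) I0AD_44 I0AD_47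
theorem I0AD_35 : CovD 0 [pAD H BI0, pK0 H BI0] [(4123168604160, 274877906944), (27380416512, 27380416512), (188441690112, 62813896704)] :=
  covD_split 2 (by decide +kernel) I0AD_36 I0AD_43
theorem I0AD : CovD 0 [pAD H BI0, pK0 H BI0] [(4123168604160, 274877906944), (27380416512, 27380416512), (125627793408, 125627793408)] :=
  covD_split 2 (by decide +kernel) I0AD_0 I0AD_35
theorem I0RT_11 : CovD 1 [pRT H BI0, pK1 H BI0] [(4123168604160, 274877906944), (53049556992, 1711276032), (7851737088, 7851737088)] :=
  covD_split 2 (by decide +kernel) I0RT_12 I0RT_13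
theorem I0RT_9 : CovD 1 [pRT H BI0, pK1 H BI0] [(4123168604160, 274877906944), (51338280960, 3422552064), (7851737088, 7851737088)] :=
  covD_split 1 (by decide +kernel) I0RT_10 I0RT_11
theorem I0RT_7 : CovD 1 [pRT H BI0, pK1 H BI0] [(4123168604160, 274877906944), (47915728896, 6845104128), (7851737088, 7851737088)] :=
  covD_split 1 (by decide +kernel) I0RT_8 I0RT_9
theorem I0RT_17 : CovD 1 [pRT H BI0, pK1 H BI0] [(4123168604160, 274877906944), (51338280960, 3422552064), (19629342720, 3925868544)] :=
  covD_split 2 (by decide +kernel) I0RT_18 I0RT_19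
theorem I0RT_15 : CovD 1 [pRT H BI0, pK1 H BI0] [(4123168604160, 274877906944), (47915728896, 6845104128), (19629342720, 3925868544)] :=
  covD_split 1 (by decide +kernel) I0RT_16 I0RT_17
theorem I0RT_22 : CovD 1 [pRT H BI0, pK1 H BI0] [(4123168604160, 274877906944), (47915728896, 6845104128), (29444014080, 1962934272)] :=
  covD_split 2 (by decide +kernel) I0RT_23 I0RT_24
theorem I0RT_20 : CovD 1 [pRT H BI0, pK1 H BI0] [(4123168604160, 274877906944), (47915728896, 6845104128), (27481079808, 3925868544)] :=
  covD_split 2 (by decide +kernel) I0RT_21 I0RT_22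
theorem I0RT_14 : CovD 1 [pRT H BI0, pK1 H BI0] [(4123168604160, 274877906944), (47915728896, 6845104128), (23555211264, 7851737088)] :=
  covD_split 2 (by decide +kernel) I0RT_15 I0RT_20
theorem I0RT_6 : CovD 1 [pRT H BI0, pK1 H BI0] [(4123168604160, 274877906944), (47915728896, 6845104128), (15703474176, 15703474176)] :=
  covD_split 2 (by decide +kernel) I0RT_7 I0RT_14
theorem I0RT_4 : CovD 1 [pRT H BI0, pK1 H BI0] [(4123168604160, 274877906944), (41070624768, 13690208256), (15703474176, 15703474176)] :=
  covD_split 1 (by decide +kernel) I0RT_5 I0RT_6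
theorem I0RT_2 : CovD 1 [pRT H BI0, pK1 H BI0] [(4123168604160, 274877906944), (27380416512, 27380416512), (15703474176, 15703474176)] :=
  covD_split 1 (by decide +kernel) I0RT_3 I0RT_4
theorem I0RT_32 : CovD 1 [pRT H BI0, pK1 H BI0] [(4123168604160, 274877906944), (47915728896, 6845104128), (33369882624, 1962934272)] :=
  covD_split 2 (by decide +kernel) I0RT_33 I0RT_34
theorem I0RT_30 : CovD 1 [pRT H BI0, pK1 H BI0] [(4123168604160, 274877906944), (41070624768, 13690208256), (33369882624, 1962934272)] :=
  covD_split 1 (by decide +kernel) I0RT_31 I0RT_32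
theorem I0RT_37 : CovD 1 [pRT H BI0, pK1 H BI0] [(4123168604160, 274877906944), (47915728896, 6845104128), (37295751168, 1962934272)] :=
  covD_split 2 (by decide +kernel) I0RT_38 I0RT_39
theorem I0RT_35 : CovD 1 [pRT H BI0, pK1 H BI0] [(4123168604160, 274877906944), (41070624768, 13690208256), (37295751168, 1962934272)] :=
  covD_split 1 (by decide +kernel) I0RT_36 I0RT_37
theorem I0RT_29 : CovD 1 [pRT H BI0, pK1 H BI0] [(4123168604160, 274877906944), (41070624768, 13690208256), (35332816896, 3925868544)] :=
  covD_split 2 (by decide +kernel) I0RT_30 I0RT_35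
theorem I0RT_43 : CovD 1 [pRT H BI0, pK1 H BI0] [(4123168604160, 274877906944), (47915728896, 6845104128), (41221619712, 1962934272)] :=
  covD_split 2 (by decide +kernel) I0RT_44 I0RT_45
theorem I0RT_41 : CovD 1 [pRT H BI0, pK1 H BI0] [(4123168604160, 274877906944), (41070624768, 13690208256), (41221619712, 1962934272)] :=
  covD_split 1 (by decide +kernel) I0RT_42 I0RT_43
theorem I0RT_47 : CovD 1 [pRT H BI0, pK1 H BI0] [(4123168604160, 274877906944), (34225520640, 6845104128), (45147488256, 1962934272)] :=
  covD_split 2 (by decide +kernel) I0RT_48 I0RT_49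
theorem I0RT_46 : CovD 1 [pRT H BI0, pK1 H BI0] [(4123168604160, 274877906944), (41070624768, 13690208256), (45147488256, 1962934272)] :=
  covD_split 1 (by decide +kernel) I0RT_47 I0RT_50
theorem I0RT_40 : CovD 1 [pRT H BI0, pK1 H BI0] [(4123168604160, 274877906944), (41070624768, 13690208256), (43184553984, 3925868544)] :=
  covD_split 2 (by decide +kernel) I0RT_41 I0RT_46
theorem I0RT_28 : CovD 1 [pRT H BI0, pK1 H BI0] [(4123168604160, 274877906944), (41070624768, 13690208256), (39258685440, 7851737088)] :=
  covD_split 2 (by decide +kernel) I0RT_29 I0RT_40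
theorem I0RT_26 : CovD 1 [pRT H BI0, pK1 H BI0] [(4123168604160, 274877906944), (27380416512, 27380416512), (39258685440, 7851737088)] :=
  covD_split 1 (by decide +kernel) I0RT_27 I0RT_28
theorem I0RT_56 : CovD 1 [pRT H BI0, pK1 H BI0] [(4123168604160, 274877906944), (34225520640, 6845104128), (49073356800, 1962934272)] :=
  covD_split 2 (by decide +kernel) I0RT_57 I0RT_58
theorem I0RT_55 : CovD 1 [pRT H BI0, pK1 H BI0] [(4123168604160, 274877906944), (41070624768, 13690208256), (49073356800, 1962934272)] :=
  covD_split 1 (by decide +kernel) I0RT_56 I0RT_59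
theorem I0RT_53 : CovD 1 [pRT H BI0, pK1 H BI0] [(4123168604160, 274877906944), (27380416512, 27380416512), (49073356800, 1962934272)] :=
  covD_split 1 (by decide +kernel) I0RT_54 I0RT_55
theorem I0RT_61 : CovD 1 [pRT H BI0, pK1 H BI0] [(4123168604160, 274877906944), (13690208256, 13690208256), (52999225344, 1962934272)] :=
  covD_split 2 (by decide +kernel) I0RT_62 I0RT_63
theorem I0RT_64 : CovD 1 [pRT H BI0, pK1 H BI0] [(4123168604160, 274877906944), (41070624768, 13690208256), (52999225344, 1962934272)] :=
  covD_split 1 (by decide +kernel) I0RT_65 I0RT_66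
theorem I0RT_60 : CovD 1 [pRT H BI0, pK1 H BI0] [(4123168604160, 274877906944), (27380416512, 27380416512), (52999225344, 1962934272)] :=
  covD_split 1 (by decide +kernel) I0RT_61 I0RT_64
theorem I0RT_52 : CovD 1 [pRT H BI0, pK1 H BI0] [(4123168604160, 274877906944), (27380416512, 27380416512), (51036291072, 3925868544)] :=
  covD_split 2 (by decide +kernel) I0RT_53 I0RT_60
theorem I0RT_69 : CovD 1 [pRT H BI0, pK1 H BI0] [(4123168604160, 274877906944), (13690208256, 13690208256), (56925093888, 1962934272)] :=
  covD_split 2 (by decide +kernel) I0RT_70 I0RT_71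
theorem I0RT_72 : CovD 1 [pRT H BI0, pK1 H BI0] [(4123168604160, 274877906944), (41070624768, 13690208256), (56925093888, 1962934272)] :=
  covD_split 1 (by decide +kernel) I0RT_73 I0RT_74
theorem I0RT_68 : CovD 1 [pRT H BI0, pK1 H BI0] [(4123168604160, 274877906944), (27380416512, 27380416512), (56925093888, 1962934272)] :=
  covD_split 1 (by decide +kernel) I0RT_69 I0RT_72
theorem I0RT_76 : CovD 1 [pRT H BI0, pK1 H BI0] [(4123168604160, 274877906944), (13690208256, 13690208256), (60850962432, 1962934272)] :=
  covD_split 2 (by decide +kernel) I0RT_77 I0RT_78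
theorem I0RT_79 : CovD 1 [pRT H BI0, pK1 H BI0] [(4123168604160, 274877906944), (41070624768, 13690208256), (60850962432, 1962934272)] :=
  covD_split 1 (by decide +kernel) I0RT_80 I0RT_81
theorem I0RT_75 : CovD 1 [pRT H BI0, pK1 H BI0] [(4123168604160, 274877906944), (27380416512, 27380416512), (60850962432, 1962934272)] :=
  covD_split 1 (by decide +kernel) I0RT_76 I0RT_79
theorem I0RT_67 : CovD 1 [pRT H BI0, pK1 H BI0] [(4123168604160, 274877906944), (27380416512, 27380416512), (58888028160, 3925868544)] :=
  covD_split 2 (by decide +kernel) I0RT_68 I0RT_75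
theorem I0RT_51 : CovD 1 [pRT H BI0, pK1 H BI0] [(4123168604160, 274877906944), (27380416512, 27380416512), (54962159616, 7851737088)] :=
  covD_split 2 (by decide +kernel) I0RT_52 I0RT_67
theorem I0RT_25 : CovD 1 [pRT H BI0, pK1 H BI0] [(4123168604160, 274877906944), (27380416512, 27380416512), (47110422528, 15703474176)] :=
  covD_split 2 (by decide +kernel) I0RT_26 I0RT_51
theorem I0RT_1 : CovD 1 [pRT H BI0, pK1 H BI0] [(4123168604160, 274877906944), (27380416512, 27380416512), (31406948352, 31406948352)] :=
  covD_split 2 (by decide +kernel) I0RT_2 I0RT_25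
theorem I0RT_88 : CovD 1 [pRT H BI0, pK1 H BI0] [(4123168604160, 274877906944), (41070624768, 13690208256), (64776830976, 1962934272)] :=
  covD_split 1 (by decide +kernel) I0RT_89 I0RT_90
theorem I0RT_86 : CovD 1 [pRT H BI0, pK1 H BI0] [(4123168604160, 274877906944), (27380416512, 27380416512), (64776830976, 1962934272)] :=
  covD_split 1 (by decide +kernel) I0RT_87 I0RT_88
theorem I0RT_93 : CovD 1 [pRT H BI0, pK1 H BI0] [(4123168604160, 274877906944), (41070624768, 13690208256), (68702699520, 1962934272)] :=
  covD_split 1 (by decide +kernel) I0RT_94 I0RT_95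
theorem I0RT_91 : CovD 1 [pRT H BI0, pK1 H BI0] [(4123168604160, 274877906944), (27380416512, 27380416512), (68702699520, 1962934272)] :=
  covD_split 1 (by decide +kernel) I0RT_92 I0RT_93
theorem I0RT_85 : CovD 1 [pRT H BI0, pK1 H BI0] [(4123168604160, 274877906944), (27380416512, 27380416512), (66739765248, 3925868544)] :=
  covD_split 2 (by decide +kernel) I0RT_86 I0RT_91
theorem I0RT_97 : CovD 1 [pRT H BI0, pK1 H BI0] [(4123168604160, 274877906944), (27380416512, 27380416512), (72628568064, 1962934272)] :=
  covD_split 1 (by decide +kernel) I0RT_98 I0RT_99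
theorem I0RT_100 : CovD 1 [pRT H BI0, pK1 H BI0] [(4123168604160, 274877906944), (27380416512, 27380416512), (76554436608, 1962934272)] :=
  covD_split 1 (by decide +kernel) I0RT_101 I0RT_102
theorem I0RT_96 : CovD 1 [pRT H BI0, pK1 H BI0] [(4123168604160, 274877906944), (27380416512, 27380416512), (74591502336, 3925868544)] :=
  covD_split 2 (by decide +kernel) I0RT_97 I0RT_100
theorem I0RT_84 : CovD 1 [pRT H BI0, pK1 H BI0] [(4123168604160, 274877906944), (27380416512, 27380416512), (70665633792, 7851737088)] :=
  covD_split 2 (by decide +kernel) I0RT_85 I0RT_96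
theorem I0RT_105 : CovD 1 [pRT H BI0, pK1 H BI0] [(4123168604160, 274877906944), (27380416512, 27380416512), (80480305152, 1962934272)] :=
  covD_split 1 (by decide +kernel) I0RT_106 I0RT_107
theorem I0RT_108 : CovD 1 [pRT H BI0, pK1 H BI0] [(4123168604160, 274877906944), (27380416512, 27380416512), (84406173696, 1962934272)] :=
  covD_split 1 (by decide +kernel) I0RT_109 I0RT_110
theorem I0RT_104 : CovD 1 [pRT H BI0, pK1 H BI0] [(4123168604160, 274877906944), (27380416512, 27380416512), (82443239424, 3925868544)] :=
  covD_split 2 (by decide +kernel) I0RT_105 I0RT_108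
theorem I0RT_111 : CovD 1 [pRT H BI0, pK1 H BI0] [(4123168604160, 274877906944), (27380416512, 27380416512), (90294976512, 3925868544)] :=
  covD_split 2 (by decide +kernel) I0RT_112 I0RT_113
theorem I0RT_103 : CovD 1 [pRT H BI0, pK1 H BI0] [(4123168604160, 274877906944), (27380416512, 27380416512), (86369107968, 7851737088)] :=
  covD_split 2 (by decide +kernel) I0RT_104 I0RT_111
theorem I0RT_83 : CovD 1 [pRT H BI0, pK1 H BI0] [(4123168604160, 274877906944), (27380416512, 27380416512), (78517370880, 15703474176)] :=
  covD_split 2 (by decide +kernel) I0RT_84 I0RT_103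
theorem I0RT_116 : CovD 1 [pRT H BI0, pK1 H BI0] [(4123168604160, 274877906944), (27380416512, 27380416512), (98146713600, 3925868544)] :=
  covD_split 2 (by decide +kernel) I0RT_117 I0RT_118
theorem I0RT_119 : CovD 1 [pRT H BI0, pK1 H BI0] [(4123168604160, 274877906944), (27380416512, 27380416512), (105998450688, 3925868544)] :=
  covD_split 2 (by decide +kernel) I0RT_120 I0RT_121
theorem I0RT_115 : CovD 1 [pRT H BI0, pK1 H BI0] [(4123168604160, 274877906944), (27380416512, 27380416512), (102072582144, 7851737088)] :=
  covD_split 2 (by decide +kernel) I0RT_116 I0RT_119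
theorem I0RT_122 : CovD 1 [pRT H BI0, pK1 H BI0] [(4123168604160, 274877906944), (27380416512, 27380416512), (117776056320, 7851737088)] :=
  covD_split 2 (by decide +kernel) I0RT_123 I0RT_124
theorem I0RT_114 : CovD 1 [pRT H BI0, pK1 H BI0] [(4123168604160, 274877906944), (27380416512, 27380416512), (109924319232, 15703474176)] :=
  covD_split 2 (by decide +kernel) I0RT_115 I0RT_122
theorem I0RT_82 : CovD 1 [pRT H BI0, pK1 H BI0] [(4123168604160, 274877906944), (27380416512, 27380416512), (94220845056, 31406948352)] :=
  covD_split 2 (by decide +kernel) I0RT_83 I0RT_114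
theorem I0RT_0 : CovD 1 [pRT H BI0, pK1 H BI0] [(4123168604160, 274877906944), (27380416512, 27380416512), (62813896704, 62813896704)] :=
  covD_split 2 (by decide +kernel) I0RT_1 I0RT_82
theorem I0RT_128 : CovD 1 [pRT H BI0, pK1 H BI0] [(4123168604160, 274877906944), (27380416512, 27380416512), (133479530496, 7851737088)] :=
  covD_split 2 (by decide +kernel) I0RT_129 I0RT_130
theorem I0RT_127 : CovD 1 [pRT H BI0, pK1 H BI0] [(4123168604160, 274877906944), (27380416512, 27380416512), (141331267584, 15703474176)] :=
  covD_split 2 (by decide +kernel) I0RT_128 I0RT_131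
theorem I0RT_132 : CovD 1 [pRT H BI0, pK1 H BI0] [(4123168604160, 274877906944), (27380416512, 27380416512), (172738215936, 15703474176)] :=
  covD_split 2 (by decide +kernel) I0RT_133 I0RT_134
theorem I0RT_126 : CovD 1 [pRT H BI0, pK1 H BI0] [(4123168604160, 274877906944), (27380416512, 27380416512), (157034741760, 31406948352)] :=
  covD_split 2 (by decide +kernel) I0RT_127 I0RT_132
theorem I0RT_137 : CovD 1 [pRT H BI0, pK1 H BI0] [(4123168604160, 274877906944), (27380416512, 27380416512), (196293427200, 7851737088)] :=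
  covD_split 2 (by decide +kernel) I0RT_138 I0RT_139
theorem I0RT_140 : CovD 1 [pRT H BI0, pK1 H BI0] [(4123168604160, 274877906944), (27380416512, 27380416512), (211996901376, 7851737088)] :=
  covD_split 2 (by decide +kernel) I0RT_141 I0RT_142
theorem I0RT_136 : CovD 1 [pRT H BI0, pK1 H BI0] [(4123168604160, 274877906944), (27380416512, 27380416512), (204145164288, 15703474176)] :=
  covD_split 2 (by decide +kernel) I0RT_137 I0RT_140
theorem I0RT_144 : CovD 1 [pRT H BI0, pK1 H BI0] [(4123168604160, 274877906944), (27380416512, 27380416512), (227700375552, 7851737088)] :=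
  covD_split 2 (by decide +kernel) I0RT_145 I0RT_146
theorem I0RT_147 : CovD 1 [pRT H BI0, pK1 H BI0] [(4123168604160, 274877906944), (27380416512, 27380416512), (243403849728, 7851737088)] :=
  covD_split 2 (by decide +kernel) I0RT_148 I0RT_149
theorem I0RT_143 : CovD 1 [pRT H BI0, pK1 H BI0] [(4123168604160, 274877906944), (27380416512, 27380416512), (235552112640, 15703474176)] :=
  covD_split 2 (by decide +kernel) I0RT_144 I0RT_147
theorem I0RT_135 : CovD 1 [pRT H BI0, pK1 H BI0] [(4123168604160, 274877906944), (27380416512, 27380416512), (219848638464, 31406948352)] :=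
  covD_split 2 (by decide +kernel) I0RT_136 I0RT_143
theorem I0RT_125 : CovD 1 [pRT H BI0, pK1 H BI0] [(4123168604160, 274877906944), (27380416512, 27380416512), (188441690112, 62813896704)] :=
  covD_split 2 (by decide +kernel) I0RT_126 I0RT_135
theorem I0RT : CovD 1 [pRT H BI0, pK1 H BI0] [(4123168604160, 274877906944), (27380416512, 27380416512), (125627793408, 125627793408)] :=
  covD_split 2 (by decide +kernel) I0RT_0 I0RT_125
theorem I1AD_0 : CovD 0 [pAD H BI1, pK0 H BI1] [(4123168604160, 274877906944), (27380416512, 27380416512), (270582939648, 19327352832)] :=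
  covD_split 0 (by decide +kernel) I1AD_1 I1AD_2
theorem I1AD_3 : CovD 0 [pAD H BI1, pK0 H BI1] [(4123168604160, 274877906944), (27380416512, 27380416512), (309237645312, 19327352832)] :=
  covD_split 0 (by decide +kernel) I1AD_4 I1AD_5
theorem I1AD : CovD 0 [pAD H BI1, pK0 H BI1] [(4123168604160, 274877906944), (27380416512, 27380416512), (289910292480, 38654705664)] :=
  covD_split 2 (by decide +kernel) I1AD_0 I1AD_3
theorem I1RT_1 : CovD 1 [pRT H BI1, pK1 H BI1] [(4123168604160, 274877906944), (27380416512, 27380416512), (260919263232, 9663676416)] :=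
  covD_split 2 (by decide +kernel) I1RT_2 I1RT_3
theorem I1RT_4 : CovD 1 [pRT H BI1, pK1 H BI1] [(4123168604160, 274877906944), (27380416512, 27380416512), (280246616064, 9663676416)] :=
  covD_split 2 (by decide +kernel) I1RT_5 I1RT_6
theorem I1RT_0 : CovD 1 [pRT H BI1, pK1 H BI1] [(4123168604160, 274877906944), (27380416512, 27380416512), (270582939648, 19327352832)] :=
  covD_split 2 (by decide +kernel) I1RT_1 I1RT_4
theorem I1RT_8 : CovD 1 [pRT H BI1, pK1 H BI1] [(4123168604160, 274877906944), (27380416512, 27380416512), (299573968896, 9663676416)] :=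
  covD_split 2 (by decide +kernel) I1RT_9 I1RT_10
theorem I1RT_11 : CovD 1 [pRT H BI1, pK1 H BI1] [(4123168604160, 274877906944), (27380416512, 27380416512), (318901321728, 9663676416)] :=
  covD_split 2 (by decide +kernel) I1RT_12 I1RT_13
theorem I1RT_7 : CovD 1 [pRT H BI1, pK1 H BI1] [(4123168604160, 274877906944), (27380416512, 27380416512), (309237645312, 19327352832)] :=
  covD_split 2 (by decide +kernel) I1RT_8 I1RT_11
theorem I1RT : CovD 1 [pRT H BI1, pK1 H BI1] [(4123168604160, 274877906944), (27380416512, 27380416512), (289910292480, 38654705664)] :=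
  covD_split 2 (by decide +kernel) I1RT_0 I1RT_7
theorem I2AD_0 : CovD 0 [pAD H BI2, pK0 H BI2] [(4123168604160, 274877906944), (27380416512, 27380416512), (357556027392, 28991029248)] :=
  covD_split 2 (by decide +kernel) I2AD_1 I2AD_2
theorem I2AD_5 : CovD 0 [pAD H BI2, pK0 H BI2] [(4123168604160, 274877906944), (27380416512, 27380416512), (430033600512, 14495514624)] :=
  covD_split 0 (by decide +kernel) I2AD_6 I2AD_7
theorem I2AD_3 : CovD 0 [pAD H BI2, pK0 H BI2] [(4123168604160, 274877906944), (27380416512, 27380416512), (415538085888, 28991029248)] :=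
  covD_split 2 (by decide +kernel) I2AD_4 I2AD_5
theorem I2AD : CovD 0 [pAD H BI2, pK0 H BI2] [(4123168604160, 274877906944), (27380416512, 27380416512), (386547056640, 57982058496)] :=
  covD_split 2 (by decide +kernel) I2AD_0 I2AD_3
theorem I2G_0 : CovD 1 [pG H BI2, pK1 H BI2] [(4123168604160, 274877906944), (27380416512, 27380416512), (357556027392, 28991029248)] :=
  covD_split 2 (by decide +kernel) I2G_1 I2G_2
theorem I2G_6 : CovD 1 [pG H BI2, pK1 H BI2] [(4260607557632, 137438953472), (27380416512, 27380416512), (401042571264, 14495514624)] :=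
  covD_split 2 (by decide +kernel) I2G_7 I2G_8
theorem I2G_4 : CovD 1 [pG H BI2, pK1 H BI2] [(4123168604160, 274877906944), (27380416512, 27380416512), (401042571264, 14495514624)] :=
  covD_split 0 (by decide +kernel) I2G_5 I2G_6
theorem I2G_3 : CovD 1 [pG H BI2, pK1 H BI2] [(4123168604160, 274877906944), (27380416512, 27380416512), (415538085888, 28991029248)] :=
  covD_split 2 (by decide +kernel) I2G_4 I2G_9
theorem I2G : CovD 1 [pG H BI2, pK1 H BI2] [(4123168604160, 274877906944), (27380416512, 27380416512), (386547056640, 57982058496)] :=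
  covD_split 2 (by decide +kernel) I2G_0 I2G_3
theorem I2RT_3 : CovD 1 [pRT H BI2, pK1 H BI2] [(4123168604160, 274877906944), (27380416512, 27380416512), (332188876800, 3623878656)] :=
  covD_split 0 (by decide +kernel) I2RT_4 I2RT_5
theorem I2RT_2 : CovD 1 [pRT H BI2, pK1 H BI2] [(4123168604160, 274877906944), (27380416512, 27380416512), (335812755456, 7247757312)] :=
  covD_split 2 (by decide +kernel) I2RT_3 I2RT_6
theorem I2RT_7 : CovD 1 [pRT H BI2, pK1 H BI2] [(4123168604160, 274877906944), (27380416512, 27380416512), (350308270080, 7247757312)] :=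
  covD_split 2 (by decide +kernel) I2RT_8 I2RT_9
theorem I2RT_1 : CovD 1 [pRT H BI2, pK1 H BI2] [(4123168604160, 274877906944), (27380416512, 27380416512), (343060512768, 14495514624)] :=
  covD_split 2 (by decide +kernel) I2RT_2 I2RT_7
theorem I2RT_11 : CovD 1 [pRT H BI2, pK1 H BI2] [(4123168604160, 274877906944), (27380416512, 27380416512), (364803784704, 7247757312)] :=
  covD_split 2 (by decide +kernel) I2RT_12 I2RT_13
theorem I2RT_10 : CovD 1 [pRT H BI2, pK1 H BI2] [(4123168604160, 274877906944), (27380416512, 27380416512), (372051542016, 14495514624)] :=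
  covD_split 2 (by decide +kernel) I2RT_11 I2RT_14
theorem I2RT_0 : CovD 1 [pRT H BI2, pK1 H BI2] [(4123168604160, 274877906944), (27380416512, 27380416512), (357556027392, 28991029248)] :=
  covD_split 2 (by decide +kernel) I2RT_1 I2RT_10
theorem I2RT_16 : CovD 1 [pRT H BI2, pK1 H BI2] [(4123168604160, 274877906944), (27380416512, 27380416512), (401042571264, 14495514624)] :=
  covD_split 2 (by decide +kernel) I2RT_17 I2RT_18
theorem I2RT_21 : CovD 1 [pRT H BI2, pK1 H BI2] [(4123168604160, 274877906944), (27380416512, 27380416512), (437281357824, 7247757312)] :=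
  covD_split 0 (by decide +kernel) I2RT_22 I2RT_23
theorem I2RT_19 : CovD 1 [pRT H BI2, pK1 H BI2] [(4123168604160, 274877906944), (27380416512, 27380416512), (430033600512, 14495514624)] :=
  covD_split 2 (by decide +kernel) I2RT_20 I2RT_21
theorem I2RT_15 : CovD 1 [pRT H BI2, pK1 H BI2] [(4123168604160, 274877906944), (27380416512, 27380416512), (415538085888, 28991029248)] :=
  covD_split 2 (by decide +kernel) I2RT_16 I2RT_19
theorem I2RT : CovD 1 [pRT H BI2, pK1 H BI2] [(4123168604160, 274877906944), (27380416512, 27380416512), (386547056640, 57982058496)] :=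
  covD_split 2 (by decide +kernel) I2RT_0 I2RT_15
theorem I3AD : CovD 0 [pAD H BI3, pK0 H BI3] [(4123168604160, 274877906944), (27380416512, 27380416512), (454192791552, 9663676416)] :=
  covD_split 0 (by decide +kernel) I3AD_0 I3AD_1
theorem I3G : CovD 1 [pG H BI3, pK1 H BI3] [(4123168604160, 274877906944), (27380416512, 27380416512), (454192791552, 9663676416)] :=
  covD_split 0 (by decide +kernel) I3G_0 I3G_1
theorem I3RT_0 : CovD 1 [pRT H BI3, pK1 H BI3] [(4123168604160, 274877906944), (27380416512, 27380416512), (449360953344, 4831838208)] :=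
  covD_split 0 (by decide +kernel) I3RT_1 I3RT_2
theorem I3RT_6 : CovD 1 [pRT H BI3, pK1 H BI3] [(4260607557632, 137438953472), (13690208256, 13690208256), (459024629760, 4831838208)] :=
  covD_split 0 (by decide +kernel) I3RT_7 I3RT_8
theorem I3RT_5 : CovD 1 [pRT H BI3, pK1 H BI3] [(4260607557632, 137438953472), (27380416512, 27380416512), (459024629760, 4831838208)] :=
  covD_split 1 (by decide +kernel) I3RT_6 I3RT_9
theorem I3RT_3 : CovD 1 [pRT H BI3, pK1 H BI3] [(4123168604160, 274877906944), (27380416512, 27380416512), (459024629760, 4831838208)] :=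
  covD_split 0 (by decide +kernel) I3RT_4 I3RT_5
theorem I3RT : CovD 1 [pRT H BI3, pK1 H BI3] [(4123168604160, 274877906944), (27380416512, 27380416512), (454192791552, 9663676416)] :=
  covD_split 2 (by decide +kernel) I3RT_0 I3RT_3

end Pool.Agent.helper82.WC.S5K0
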