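import Pool.Agent.helper82.WC.S5K0P

/-!
Generated certificates (in pairs, so that they are checked one after the other).
-/

namespace Pool.Agent.helper82.WC.S5K0

open Pool.Agent.helper82.WH
open Pool.Agent.helper31.IC (CovD covD_split TD)

mutual
theorem I0AD_3 : CovD 0 [pAD H BI0, pK0 H BI0] [(4123168604160, 274877906944), (13690208256, 13690208256), (15703474176, 15703474176)] :=
  cov_of (fADK H BI0) (.l 1) [(4123168604160, 274877906944), (13690208256, 13690208256), (15703474176, 15703474176)] rfl (by decide +kernel)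
theorem I0AD_5 : CovD 0 [pAD H BI0, pK0 H BI0] [(4123168604160, 274877906944), (34225520640, 6845104128), (15703474176, 15703474176)] :=
  cov_of (fADK H BI0) (.l 1) [(4123168604160, 274877906944), (34225520640, 6845104128), (15703474176, 15703474176)] rfl (by decide +kernel)
end

mutual
theorem I0AD_6 : CovD 0 [pAD H BI0, pK0 H BI0] [(4123168604160, 274877906944), (47915728896, 6845104128), (15703474176, 15703474176)] :=
  cov_of (fADK H BI0) (.n 2 (.n 1 (.l 1) (.n 1 (.l 1) (.n 0 (.n 2 (.n 0 (.l 0) (.l 0)) (.n 0 (.l 0) (.l 0))) (.n 2 (.n 0 (.l 0) (.l 0)) (.n 0 (.l 0) (.l 0)))))) (.n 0 (.n 2 (.n 1 (.l 1) (.n 0 (.l 0) (.l 0))) (.n 0 (.n 0 (.l 0) (.l 0)) (.n 1 (.l 0) (.l 0)))) (.n 2 (.n 1 (.l 1) (.n 0 (.l 0) (.l 0))) (.n 0 (.n 1 (.l 0) (.l 0)) (.n 1 (.l 0) (.l 0)))))) [(4123168604160, 274877906944), (47915728896, 6845104128), (15703474176, 15703474176)] rfl (by decide +kernel)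
theorem I0AD_9 : CovD 0 [pAD H BI0, pK0 H BI0] [(4123168604160, 274877906944), (13690208256, 13690208256), (39258685440, 7851737088)] :=
  cov_of (fADK H BI0) (.l 1) [(4123168604160, 274877906944), (13690208256, 13690208256), (39258685440, 7851737088)] rfl (by decide +kernel)
end

mutual
theorem I0AD_11 : CovD 0 [pAD H BI0, pK0 H BI0] [(4123168604160, 274877906944), (34225520640, 6845104128), (39258685440, 7851737088)] :=
  cov_of (fADK H BI0) (.n 2 (.n 1 (.l 1) (.n 2 (.l 1) (.n 1 (.l 1) (.n 0 (.n 0 (.l 0) (.l 0)) (.n 0 (.l 0) (.l 0)))))) (.n 0 (.n 0 (.n 0 (.l 0) (.l 0)) (.n 1 (.n 0 (.l 0) (.l 0)) (.l 0))) (.n 0 (.n 1 (.n 0 (.l 0) (.l 0)) (.l 0)) (.n 1 (.n 0 (.l 0) (.l 0)) (.l 0))))) [(4123168604160, 274877906944), (34225520640, 6845104128), (39258685440, 7851737088)] rfl (by decide +kernel)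
theorem I0AD_12 : CovD 0 [pAD H BI0, pK0 H BI0] [(4123168604160, 274877906944), (47915728896, 6845104128), (39258685440, 7851737088)] :=
  cov_of (fADK H BI0) (.n 0 (.n 2 (.n 0 (.n 0 (.l 0) (.l 0)) (.n 0 (.l 0) (.l 0))) (.n 0 (.n 0 (.l 0) (.l 0)) (.n 0 (.l 0) (.l 0)))) (.n 2 (.n 0 (.n 0 (.l 0) (.l 0)) (.n 0 (.l 0) (.l 0))) (.n 0 (.n 0 (.l 0) (.l 0)) (.n 0 (.l 0) (.l 0))))) [(4123168604160, 274877906944), (47915728896, 6845104128), (39258685440, 7851737088)] rfl (by decide +kernel)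
end

mutual
theorem I0AD_15 : CovD 0 [pAD H BI0, pK0 H BI0] [(3985729650688, 137438953472), (13690208256, 13690208256), (54962159616, 7851737088)] :=
  cov_of (fADK H BI0) (.n 1 (.n 2 (.n 2 (.l 1) (.n 0 (.l 0) (.l 0))) (.n 0 (.n 0 (.l 0) (.l 0)) (.n 0 (.l 0) (.l 0)))) (.n 2 (.n 0 (.n 0 (.l 0) (.l 0)) (.n 0 (.l 0) (.l 0))) (.n 0 (.n 0 (.l 0) (.l 0)) (.n 0 (.l 0) (.l 0))))) [(3985729650688, 137438953472), (13690208256, 13690208256), (54962159616, 7851737088)] rfl (by decide +kernel)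
theorem I0AD_16 : CovD 0 [pAD H BI0, pK0 H BI0] [(3985729650688, 137438953472), (41070624768, 13690208256), (54962159616, 7851737088)] :=
  cov_of (fADK H BI0) (.n 1 (.n 2 (.n 0 (.n 0 (.l 0) (.l 0)) (.n 0 (.l 0) (.l 0))) (.n 0 (.n 0 (.l 0) (.l 0)) (.n 0 (.l 0) (.l 0)))) (.n 2 (.n 0 (.n 0 (.l 0) (.l 0)) (.n 0 (.l 0) (.l 0))) (.n 0 (.n 0 (.l 0) (.l 0)) (.n 0 (.l 0) (.l 0))))) [(3985729650688, 137438953472), (41070624768, 13690208256), (54962159616, 7851737088)] rfl (by decide +kernel)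
end

mutual
theorem I0AD_18 : CovD 0 [pAD H BI0, pK0 H BI0] [(4260607557632, 137438953472), (13690208256, 13690208256), (54962159616, 7851737088)] :=
  cov_of (fADK H BI0) (.n 1 (.n 2 (.n 2 (.l 1) (.n 0 (.l 0) (.l 0))) (.n 0 (.n 0 (.l 0) (.l 0)) (.n 0 (.l 0) (.l 0)))) (.n 2 (.n 0 (.n 0 (.l 0) (.l 0)) (.n 0 (.l 0) (.l 0))) (.n 0 (.n 0 (.l 0) (.l 0)) (.n 0 (.l 0) (.l 0))))) [(4260607557632, 137438953472), (13690208256, 13690208256), (54962159616, 7851737088)] rfl (by decide +kernel)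
theorem I0AD_19 : CovD 0 [pAD H BI0, pK0 H BI0] [(4260607557632, 137438953472), (41070624768, 13690208256), (54962159616, 7851737088)] :=
  cov_of (fADK H BI0) (.n 1 (.n 2 (.n 0 (.n 0 (.l 0) (.l 0)) (.n 0 (.l 0) (.l 0))) (.n 0 (.n 0 (.l 0) (.l 0)) (.n 0 (.l 0) (.l 0)))) (.n 2 (.n 0 (.n 0 (.l 0) (.l 0)) (.n 0 (.l 0) (.l 0))) (.n 0 (.n 0 (.l 0) (.l 0)) (.n 0 (.l 0) (.l 0))))) [(4260607557632, 137438953472), (41070624768, 13690208256), (54962159616, 7851737088)] rfl (by decide +kernel)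
end

mutual
theorem I0AD_23 : CovD 0 [pAD H BI0, pK0 H BI0] [(3985729650688, 137438953472), (27380416512, 27380416512), (70665633792, 7851737088)] :=
  cov_of (fADK H BI0) (.n 1 (.n 0 (.n 1 (.n 2 (.n 0 (.l 0) (.l 0)) (.l 0)) (.n 2 (.n 0 (.l 0) (.l 0)) (.l 0))) (.n 1 (.n 2 (.n 0 (.l 0) (.l 0)) (.l 0)) (.n 2 (.n 0 (.l 0) (.l 0)) (.l 0)))) (.n 0 (.n 1 (.n 2 (.n 0 (.l 0) (.l 0)) (.l 0)) (.n 2 (.l 0) (.l 0))) (.n 1 (.n 2 (.n 0 (.l 0) (.l 0)) (.l 0)) (.n 2 (.l 0) (.l 0))))) [(3985729650688, 137438953472), (27380416512, 27380416512), (70665633792, 7851737088)] rfl (by decide +kernel)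
theorem I0AD_24 : CovD 0 [pAD H BI0, pK0 H BI0] [(3985729650688, 137438953472), (27380416512, 27380416512), (86369107968, 7851737088)] :=
  cov_of (fADK H BI0) (.n 1 (.n 0 (.n 1 (.n 2 (.l 0) (.l 0)) (.n 2 (.l 0) (.l 0))) (.n 1 (.n 2 (.l 0) (.l 0)) (.n 2 (.l 0) (.l 0)))) (.n 0 (.n 1 (.n 2 (.l 0) (.l 0)) (.n 2 (.l 0) (.l 0))) (.n 1 (.n 2 (.l 0) (.l 0)) (.n 2 (.l 0) (.l 0))))) [(3985729650688, 137438953472), (27380416512, 27380416512), (86369107968, 7851737088)] rfl (by decide +kernel)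
end

mutual
theorem I0AD_26 : CovD 0 [pAD H BI0, pK0 H BI0] [(4191888080896, 68719476736), (27380416512, 27380416512), (78517370880, 15703474176)] :=
  cov_of (fADK H BI0) (.n 1 (.n 2 (.n 1 (.n 2 (.n 0 (.l 0) (.l 0)) (.l 0)) (.n 2 (.n 0 (.l 0) (.l 0)) (.l 0))) (.n 1 (.n 2 (.l 0) (.l 0)) (.n 2 (.l 0) (.l 0)))) (.n 2 (.n 1 (.n 2 (.n 0 (.l 0) (.l 0)) (.l 0)) (.n 2 (.l 0) (.l 0))) (.n 1 (.n 2 (.l 0) (.l 0)) (.n 2 (.l 0) (.l 0))))) [(4191888080896, 68719476736), (27380416512, 27380416512), (78517370880, 15703474176)] rfl (by decide +kernel)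
theorem I0AD_27 : CovD 0 [pAD H BI0, pK0 H BI0] [(4329327034368, 68719476736), (27380416512, 27380416512), (78517370880, 15703474176)] :=
  cov_of (fADK H BI0) (.n 2 (.n 1 (.n 1 (.n 2 (.n 0 (.l 0) (.l 0)) (.l 0)) (.n 2 (.n 0 (.l 0) (.l 0)) (.l 0))) (.n 1 (.n 2 (.n 0 (.l 0) (.l 0)) (.l 0)) (.n 2 (.l 0) (.l 0)))) (.n 1 (.n 1 (.n 2 (.l 0) (.l 0)) (.n 2 (.l 0) (.l 0))) (.n 1 (.n 2 (.l 0) (.l 0)) (.n 2 (.l 0) (.l 0))))) [(4329327034368, 68719476736), (27380416512, 27380416512), (78517370880, 15703474176)] rfl (by decide +kernel)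
end

mutual
theorem I0AD_30 : CovD 0 [pAD H BI0, pK0 H BI0] [(3917010173952, 68719476736), (27380416512, 27380416512), (109924319232, 15703474176)] :=
  cov_of (fADK H BI0) (.n 1 (.n 2 (.n 1 (.n 0 (.l 0) (.l 0)) (.n 0 (.l 0) (.l 0))) (.n 1 (.n 0 (.l 0) (.l 0)) (.n 0 (.l 0) (.l 0)))) (.n 2 (.n 1 (.n 0 (.l 0) (.l 0)) (.n 0 (.l 0) (.l 0))) (.n 1 (.n 0 (.l 0) (.l 0)) (.n 0 (.l 0) (.l 0))))) [(3917010173952, 68719476736), (27380416512, 27380416512), (109924319232, 15703474176)] rfl (by decide +kernel)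
theorem I0AD_31 : CovD 0 [pAD H BI0, pK0 H BI0] [(4054449127424, 68719476736), (27380416512, 27380416512), (109924319232, 15703474176)] :=
  cov_of (fADK H BI0) (.n 1 (.n 2 (.n 1 (.n 0 (.l 0) (.l 0)) (.n 0 (.l 0) (.l 0))) (.n 1 (.n 0 (.l 0) (.l 0)) (.n 0 (.l 0) (.l 0)))) (.n 2 (.n 1 (.n 0 (.l 0) (.l 0)) (.n 0 (.l 0) (.l 0))) (.n 1 (.n 0 (.l 0) (.l 0)) (.n 0 (.l 0) (.l 0))))) [(4054449127424, 68719476736), (27380416512, 27380416512), (109924319232, 15703474176)] rfl (by decide +kernel)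
end

mutual
theorem I0AD_33 : CovD 0 [pAD H BI0, pK0 H BI0] [(4260607557632, 137438953472), (27380416512, 27380416512), (102072582144, 7851737088)] :=
  cov_of (fADK H BI0) (.n 1 (.n 0 (.n 1 (.n 0 (.l 0) (.l 0)) (.n 0 (.l 0) (.l 0))) (.n 1 (.n 0 (.l 0) (.l 0)) (.n 0 (.l 0) (.l 0)))) (.n 0 (.n 1 (.n 0 (.l 0) (.l 0)) (.n 0 (.l 0) (.l 0))) (.n 1 (.n 0 (.l 0) (.l 0)) (.n 0 (.l 0) (.l 0))))) [(4260607557632, 137438953472), (27380416512, 27380416512), (102072582144, 7851737088)] rfl (by decide +kernel)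
theorem I0AD_34 : CovD 0 [pAD H BI0, pK0 H BI0] [(4260607557632, 137438953472), (27380416512, 27380416512), (117776056320, 7851737088)] :=
  cov_of (fADK H BI0) (.n 1 (.n 0 (.n 1 (.n 0 (.l 0) (.l 0)) (.n 0 (.l 0) (.l 0))) (.n 1 (.n 0 (.l 0) (.l 0)) (.n 0 (.l 0) (.l 0)))) (.n 0 (.n 1 (.n 0 (.l 0) (.l 0)) (.n 0 (.l 0) (.l 0))) (.n 1 (.n 0 (.l 0) (.l 0)) (.n 0 (.l 0) (.l 0))))) [(4260607557632, 137438953472), (27380416512, 27380416512), (117776056320, 7851737088)] rfl (by decide +kernel)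
end

mutual
theorem I0AD_38 : CovD 0 [pAD H BI0, pK0 H BI0] [(3985729650688, 137438953472), (27380416512, 27380416512), (141331267584, 15703474176)] :=
  cov_of (fADK H BI0) (.n 2 (.n 1 (.n 0 (.n 1 (.l 0) (.l 0)) (.n 1 (.l 0) (.l 0))) (.n 0 (.n 1 (.l 0) (.l 0)) (.n 1 (.n 0 (.l 0) (.l 0)) (.n 0 (.l 0) (.l 0))))) (.n 1 (.n 0 (.n 0 (.l 0) (.l 0)) (.n 1 (.l 0) (.l 0))) (.n 0 (.n 1 (.l 0) (.l 0)) (.n 1 (.l 0) (.l 0))))) [(3985729650688, 137438953472), (27380416512, 27380416512), (141331267584, 15703474176)] rfl (by decide +kernel)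
theorem I0AD_39 : CovD 0 [pAD H BI0, pK0 H BI0] [(4260607557632, 137438953472), (27380416512, 27380416512), (141331267584, 15703474176)] :=
  cov_of (fADK H BI0) (.n 2 (.n 1 (.n 0 (.n 1 (.l 0) (.n 0 (.l 0) (.l 0))) (.n 1 (.l 0) (.n 0 (.l 0) (.l 0)))) (.n 0 (.n 1 (.n 0 (.l 0) (.l 0)) (.n 0 (.l 0) (.l 0))) (.n 1 (.n 0 (.l 0) (.l 0)) (.n 0 (.l 0) (.l 0))))) (.n 1 (.n 0 (.n 1 (.l 0) (.l 0)) (.n 1 (.l 0) (.l 0))) (.n 0 (.n 1 (.l 0) (.l 0)) (.n 1 (.l 0) (.l 0))))) [(4260607557632, 137438953472), (27380416512, 27380416512), (141331267584, 15703474176)] rfl (by decide +kernel)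
end

mutual
theorem I0AD_41 : CovD 0 [pAD H BI0, pK0 H BI0] [(3985729650688, 137438953472), (27380416512, 27380416512), (172738215936, 15703474176)] :=
  cov_of (fADK H BI0) (.n 2 (.n 1 (.n 0 (.n 0 (.l 0) (.l 0)) (.n 0 (.l 0) (.l 0))) (.n 0 (.n 0 (.l 0) (.l 0)) (.n 0 (.l 0) (.l 0)))) (.n 1 (.n 0 (.n 0 (.l 0) (.l 0)) (.n 0 (.l 0) (.l 0))) (.n 0 (.n 0 (.l 0) (.l 0)) (.n 0 (.l 0) (.l 0))))) [(3985729650688, 137438953472), (27380416512, 27380416512), (172738215936, 15703474176)] rfl (by decide +kernel)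
theorem I0AD_42 : CovD 0 [pAD H BI0, pK0 H BI0] [(4260607557632, 137438953472), (27380416512, 27380416512), (172738215936, 15703474176)] :=
  cov_of (fADK H BI0) (.n 2 (.n 1 (.n 0 (.n 0 (.l 0) (.l 0)) (.n 0 (.l 0) (.l 0))) (.n 0 (.n 1 (.l 0) (.l 0)) (.n 1 (.l 0) (.l 0)))) (.n 1 (.n 0 (.n 0 (.l 0) (.l 0)) (.n 0 (.l 0) (.l 0))) (.n 0 (.n 0 (.l 0) (.l 0)) (.n 0 (.l 0) (.l 0))))) [(4260607557632, 137438953472), (27380416512, 27380416512), (172738215936, 15703474176)] rfl (by decide +kernel)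
end

mutual
theorem I0AD_45 : CovD 0 [pAD H BI0, pK0 H BI0] [(3985729650688, 137438953472), (27380416512, 27380416512), (204145164288, 15703474176)] :=
  cov_of (fADK H BI0) (.n 2 (.n 1 (.n 0 (.n 0 (.l 0) (.l 0)) (.n 0 (.l 0) (.l 0))) (.n 0 (.n 0 (.l 0) (.l 0)) (.n 0 (.l 0) (.l 0)))) (.n 0 (.n 1 (.l 0) (.n 0 (.l 0) (.l 0))) (.n 1 (.l 0) (.n 0 (.l 0) (.l 0))))) [(3985729650688, 137438953472), (27380416512, 27380416512), (204145164288, 15703474176)] rfl (by decide +kernel)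
theorem I0AD_46 : CovD 0 [pAD H BI0, pK0 H BI0] [(4260607557632, 137438953472), (27380416512, 27380416512), (204145164288, 15703474176)] :=
  cov_of (fADK H BI0) (.n 2 (.n 0 (.n 1 (.n 0 (.l 0) (.l 0)) (.n 0 (.l 0) (.l 0))) (.n 1 (.n 0 (.l 0) (.l 0)) (.n 0 (.l 0) (.l 0)))) (.n 0 (.n 1 (.n 0 (.l 0) (.l 0)) (.n 0 (.l 0) (.l 0))) (.n 1 (.n 0 (.l 0) (.l 0)) (.n 0 (.l 0) (.l 0))))) [(4260607557632, 137438953472), (27380416512, 27380416512), (204145164288, 15703474176)] rfl (by decide +kernel)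
end

mutual
theorem I0AD_47 : CovD 0 [pAD H BI0, pK0 H BI0] [(4123168604160, 274877906944), (27380416512, 27380416512), (235552112640, 15703474176)] :=
  cov_of (fADK H BI0) (.n 0 (.n 2 (.n 0 (.n 1 (.l 0) (.l 0)) (.n 1 (.l 0) (.l 0))) (.n 0 (.n 1 (.l 0) (.l 0)) (.n 1 (.l 0) (.l 0)))) (.n 2 (.n 0 (.n 1 (.l 0) (.n 0 (.l 0) (.l 0))) (.n 1 (.l 0) (.n 0 (.l 0) (.l 0)))) (.n 0 (.n 1 (.l 0) (.l 0)) (.n 1 (.l 0) (.l 0))))) [(4123168604160, 274877906944), (27380416512, 27380416512), (235552112640, 15703474176)] rfl (by decide +kernel)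
theorem I0G : CovD 1 [pG H BI0, pK1 H BI0] [(4123168604160, 274877906944), (27380416512, 27380416512), (125627793408, 125627793408)] :=
  cov_of (fGK H BI0) (.n 2 (.n 0 (.l 0) (.l 0)) (.n 2 (.n 0 (.l 0) (.l 0)) (.n 2 (.n 0 (.l 0) (.l 0)) (.n 2 (.n 0 (.l 0) (.l 0)) (.n 0 (.n 0 (.l 0) (.l 0)) (.n 2 (.l 0) (.n 0 (.l 0) (.n 1 (.l 0) (.l 0))))))))) [(4123168604160, 274877906944), (27380416512, 27380416512), (125627793408, 125627793408)] rfl (by decide +kernel)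
end

mutual
theorem I0RT_3 : CovD 1 [pRT H BI0, pK1 H BI0] [(4123168604160, 274877906944), (13690208256, 13690208256), (15703474176, 15703474176)] :=
  cov_of (fRTK H BI0) (.l 1) [(4123168604160, 274877906944), (13690208256, 13690208256), (15703474176, 15703474176)] rfl (by decide +kernel)
theorem I0RT_5 : CovD 1 [pRT H BI0, pK1 H BI0] [(4123168604160, 274877906944), (34225520640, 6845104128), (15703474176, 15703474176)] :=
  cov_of (fRTK H BI0) (.l 1) [(4123168604160, 274877906944), (34225520640, 6845104128), (15703474176, 15703474176)] rfl (by decide +kernel)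
end

mutual
theorem I0RT_8 : CovD 1 [pRT H BI0, pK1 H BI0] [(4123168604160, 274877906944), (44493176832, 3422552064), (7851737088, 7851737088)] :=
  cov_of (fRTK H BI0) (.l 1) [(4123168604160, 274877906944), (44493176832, 3422552064), (7851737088, 7851737088)] rfl (by decide +kernel)
theorem I0RT_10 : CovD 1 [pRT H BI0, pK1 H BI0] [(4123168604160, 274877906944), (49627004928, 1711276032), (7851737088, 7851737088)] :=
  cov_of (fRTK H BI0) (.l 1) [(4123168604160, 274877906944), (49627004928, 1711276032), (7851737088, 7851737088)] rfl (by decide +kernel)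
end

mutual
theorem I0RT_12 : CovD 1 [pRT H BI0, pK1 H BI0] [(4123168604160, 274877906944), (53049556992, 1711276032), (3925868544, 3925868544)] :=
  cov_of (fRTK H BI0) (.n 2 (.l 1) (.n 1 (.l 1) (.n 1 (.l 1) (.n 1 (.l 1) (.n 2 (.n 1 (.l 1) (.n 2 (.n 2 (.l 0) (.l 0)) (.n 2 (.l 0) (.l 0)))) (.n 2 (.n 2 (.l 0) (.l 0)) (.n 2 (.l 0) (.l 0)))))))) [(4123168604160, 274877906944), (53049556992, 1711276032), (3925868544, 3925868544)] rfl (by decide +kernel)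
theorem I0RT_13 : CovD 1 [pRT H BI0, pK1 H BI0] [(4123168604160, 274877906944), (53049556992, 1711276032), (11777605632, 3925868544)] :=
  cov_of (fRTK H BI0) (.n 2 (.n 1 (.l 1) (.n 2 (.n 1 (.l 1) (.n 2 (.n 2 (.l 0) (.l 0)) (.n 2 (.l 0) (.l 0)))) (.n 2 (.n 2 (.l 0) (.l 0)) (.n 2 (.l 0) (.l 0))))) (.n 2 (.n 1 (.l 1) (.n 2 (.n 2 (.l 0) (.l 0)) (.n 2 (.l 0) (.l 0)))) (.n 2 (.n 2 (.l 0) (.l 0)) (.n 2 (.l 0) (.l 0))))) [(4123168604160, 274877906944), (53049556992, 1711276032), (11777605632, 3925868544)] rfl (by decide +kernel)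
end

mutual
theorem I0RT_16 : CovD 1 [pRT H BI0, pK1 H BI0] [(4123168604160, 274877906944), (44493176832, 3422552064), (19629342720, 3925868544)] :=
  cov_of (fRTK H BI0) (.l 1) [(4123168604160, 274877906944), (44493176832, 3422552064), (19629342720, 3925868544)] rfl (by decide +kernel)
theorem I0RT_18 : CovD 1 [pRT H BI0, pK1 H BI0] [(4123168604160, 274877906944), (51338280960, 3422552064), (17666408448, 1962934272)] :=
  cov_of (fRTK H BI0) (.n 1 (.l 1) (.n 2 (.n 2 (.n 2 (.l 0) (.l 0)) (.n 2 (.l 0) (.l 0))) (.n 2 (.n 2 (.l 0) (.l 0)) (.n 2 (.l 0) (.l 0))))) [(4123168604160, 274877906944), (51338280960, 3422552064), (17666408448, 1962934272)] rfl (by decide +kernel)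
end

mutual
theorem I0RT_19 : CovD 1 [pRT H BI0, pK1 H BI0] [(4123168604160, 274877906944), (51338280960, 3422552064), (21592276992, 1962934272)] :=
  cov_of (fRTK H BI0) (.n 2 (.n 2 (.n 2 (.n 1 (.l 0) (.l 0)) (.n 1 (.l 0) (.l 0))) (.n 2 (.n 1 (.l 0) (.l 0)) (.n 1 (.l 0) (.l 0)))) (.n 2 (.n 2 (.n 1 (.l 0) (.l 0)) (.n 1 (.l 0) (.l 0))) (.n 2 (.n 1 (.l 0) (.l 0)) (.n 1 (.l 0) (.l 0))))) [(4123168604160, 274877906944), (51338280960, 3422552064), (21592276992, 1962934272)] rfl (by decide +kernel)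
theorem I0RT_21 : CovD 1 [pRT H BI0, pK1 H BI0] [(4123168604160, 274877906944), (47915728896, 6845104128), (25518145536, 1962934272)] :=
  cov_of (fRTK H BI0) (.n 2 (.n 1 (.l 1) (.n 2 (.n 2 (.n 1 (.l 0) (.l 0)) (.n 1 (.l 0) (.l 0))) (.n 2 (.n 1 (.l 0) (.l 0)) (.n 1 (.l 0) (.l 0))))) (.n 1 (.n 2 (.l 1) (.n 1 (.l 1) (.n 2 (.n 0 (.l 0) (.l 0)) (.l 0)))) (.n 2 (.n 2 (.n 1 (.l 0) (.l 0)) (.n 1 (.l 0) (.l 0))) (.n 2 (.n 1 (.l 0) (.l 0)) (.n 1 (.l 0) (.l 0)))))) [(4123168604160, 274877906944), (47915728896, 6845104128), (25518145536, 1962934272)] rfl (by decide +kernel)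
theorem I0RT_23 : CovD 1 [pRT H BI0, pK1 H BI0] [(4123168604160, 274877906944), (47915728896, 6845104128), (28462546944, 981467136)] :=
  cov_of (fRTK H BI0) (.n 1 (.n 1 (.l 1) (.n 1 (.l 1) (.n 2 (.n 2 (.l 0) (.l 0)) (.n 2 (.l 0) (.l 0))))) (.n 2 (.n 2 (.n 1 (.l 0) (.l 0)) (.n 1 (.l 0) (.l 0))) (.n 2 (.n 1 (.l 0) (.l 0)) (.n 1 (.l 0) (.l 0))))) [(4123168604160, 274877906944), (47915728896, 6845104128), (28462546944, 981467136)] rfl (by decide +kernel)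
end

end Pool.Agent.helper82.WC.S5K0
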