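import Pool.Agent.helper82.WH.Chks

/-!
Generated: constants of a cell.
-/

namespace Pool.Agent.helper82.WC.S5K0

open Pool.Agent.helper82.WH
open Pool.Agent.helper31.IC (CovD covD_split TD)

def H : HC := ⟨⟨4123168604160, 0⟩, ⟨681836544, 0⟩, ⟨0, 1961768517632⟩, ⟨0, 1291963072512⟩, ⟨3596326404096, 0⟩, ⟨0, 5367166402560⟩, ⟨1523040845824, 0⟩, ⟨498718998528, 0⟩, ⟨6893941948416, 0⟩, ⟨0, 34420604731392⟩, ⟨551118962688, 0⟩, ⟨0, 43653070848⟩, ⟨481179336704, 0⟩, ⟨1543478968320, 0⟩, ⟨999028817920, 0⟩, ⟨99104718848, 0⟩, ⟨0, 708966154240⟩, ⟨0, 1946689142784⟩, ⟨0, 4720410689536⟩, ⟨0, 5261650296832⟩, ⟨9763985555456, 0⟩, ⟨1442325397504, 0⟩, ⟨16700407808, 0⟩, ⟨0, 7828727398400⟩, ⟨0, 9109940994048⟩, ⟨0, 21083547631616⟩, ⟨2748710912, 0⟩⟩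

def BI0 : BC := ⟨⟨0, 0, 1099511627776, 0⟩, ⟨0, 0⟩, ⟨0, 0⟩, 68406607872, 35435184128, 89610846208, 885796765696, 159428116480, 18488492032, 1662672437248, 1314998190080, ⟨16136192131072, 0⟩, ⟨0, 9470402887680⟩, ⟨1024405143552, 0⟩, ⟨0, 0⟩, ⟨0, 0⟩⟩

def BI1 : BC := ⟨⟨0, 0, 1099511627776, 0⟩, ⟨0, 0⟩, ⟨0, 0⟩, 49782980608, 31072518144, 153117261824, 829522247680, 159428116480, 30282874880, 2090340450304, 1236430487552, ⟨7834020347904, 0⟩, ⟨0, 4548370366464⟩, ⟨1042223136768, 0⟩, ⟨0, 0⟩, ⟨0, 0⟩⟩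

def BI2 : BC := ⟨⟨0, 0, 1099511627776, 0⟩, ⟨0, 0⟩, ⟨0, 0⟩, 43008786432, 27064074240, 191836913664, 774730088448, 159428116480, 46506442752, 2549113421824, 1184186236928, ⟨4621384810496, 0⟩, ⟨0, 3586297692160⟩, ⟨1048474025984, 0⟩, ⟨0, 0⟩, ⟨0, 0⟩⟩

def BI3 : BC := ⟨⟨0, 0, 1099511627776, 0⟩, ⟨0, 0⟩, ⟨0, 0⟩, 39251804160, 30572412928, 169988456448, 790816227328, 159428116480, 48804921344, 2605367427072, 1071476899840, ⟨3401614098432, 0⟩, ⟨0, 3083786518528⟩, ⟨1052528803840, 0⟩, ⟨0, 0⟩, ⟨0, 0⟩⟩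

def BT : BC := ⟨⟨0, 0, 1099511627776, 0⟩, ⟨0, 0⟩, ⟨0, 0⟩, 49839996928, 33395900416, 159133204480, 788449525760, 159428116480, 48804921344, 2605367427072, 1044599799808, ⟨3328599654400, 0⟩, ⟨0, 3019362009088⟩, ⟨1042074238976, 0⟩, ⟨1099511627776, 0⟩, ⟨0, 0⟩⟩

def BH0 : BC := ⟨⟨0, 0, 1099511627776, 0⟩, ⟨0, 0⟩, ⟨0, 0⟩, 0, 0, 0, 0, 0, 0, 0, 0, ⟨0, 0⟩, ⟨0, 0⟩, ⟨0, 0⟩, ⟨0, 0⟩, ⟨0, 0⟩⟩

def BH1 : BC := ⟨⟨0, 0, 0, 0⟩, ⟨137438953472, 0⟩, ⟨1099511627776, 0⟩, 0, 0, 0, 0, 0, 0, 0, 0, ⟨0, 0⟩, ⟨0, 0⟩, ⟨0, 0⟩, ⟨0, 0⟩, ⟨0, 0⟩⟩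

end Pool.Agent.helper82.WC.S5K0
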