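import Pool.Agent.helper82.WH.Chks

/-!
Generated: constants of a cell.
-/

namespace Pool.Agent.helper82.WC.S5K10

open Pool.Agent.helper82.WH
open Pool.Agent.helper31.IC (CovD covD_split TD)

def H : HC := ⟨⟨4123168604160, 0⟩, ⟨675920740352, 0⟩, ⟨1214869209088, 0⟩, ⟨0, 93439655936⟩, ⟨0, 113736679424⟩, ⟨0, 10252717391872⟩, ⟨0, 85468184576⟩, ⟨1498827325440, 0⟩, ⟨23123564298240, 0⟩, ⟨0, 18142343725056⟩, ⟨1109029617664, 0⟩, ⟨216070094848, 0⟩, ⟨679603929088, 0⟩, ⟨704078610432, 0⟩, ⟨0, 23089840128⟩, ⟨0, 2445994885120⟩, ⟨0, 3026213470208⟩, ⟨0, 192119242752⟩, ⟨3081442623488, 0⟩, ⟨5539125067776, 0⟩, ⟨0, 4966434996224⟩, ⟨2789089935360, 0⟩, ⟨0, 32007389184⟩, ⟨1617743839232, 0⟩, ⟨0, 10667797053440⟩, ⟨9365462974464, 0⟩, ⟨0, 0⟩⟩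

def BI0 : BC := ⟨⟨0, 0, 1099511627776, 0⟩, ⟨0, 0⟩, ⟨0, 0⟩, 312974835712, 82668879872, 276836188160, 414263738368, 159428116480, 12280922112, 3113247309824, 374987554816, ⟨5527622909952, 0⟩, ⟨0, 68719476736⟩, ⟨776336048128, 0⟩, ⟨0, 0⟩, ⟨0, 0⟩⟩

def BR0 : BC := ⟨⟨0, 0, 0, 0⟩, ⟨192414547968, 0⟩, ⟨1099511627776, 0⟩, 393831186432, 104376172544, 206257061888, 380049293312, 159428116480, 16743661568, 3143060422656, 391362117632, ⟨0, 0⟩, ⟨0, 0⟩, ⟨696601608192, 0⟩, ⟨0, 0⟩, ⟨0, 0⟩⟩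

def BP : BC := ⟨⟨0, 0, 0, 0⟩, ⟨192414547968, 0⟩, ⟨1099511627776, 0⟩, 315705589760, 83911507968, 280277024768, 409112018944, 159428116480, 8740929536, 3143060422656, 361096019968, ⟨0, 0⟩, ⟨0, 0⟩, ⟨773512626176, 0⟩, ⟨0, 0⟩, ⟨1099511627776, 0⟩⟩

def BM : BC := ⟨⟨0, 0, 0, 0⟩, ⟨192414547968, 0⟩, ⟨1099511627776, 0⟩, 306327715840, 80439083008, 276768555008, 420161257472, 159428116480, 16743661568, 3079021789184, 391362117632, ⟨0, 0⟩, ⟨0, 0⟩, ⟨783018033152, 0⟩, ⟨0, 0⟩, ⟨0, 1099511627776⟩⟩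

def BT : BC := ⟨⟨0, 0, 1099511627776, 0⟩, ⟨0, 0⟩, ⟨0, 0⟩, 312984535040, 82671501312, 276843331584, 414244601856, 159428116480, 12280922112, 3113247309824, 374987554816, ⟨5527622909952, 0⟩, ⟨0, 133143986176⟩, ⟨776326152192, 0⟩, ⟨1099511627776, 0⟩, ⟨0, 0⟩⟩

end Pool.Agent.helper82.WC.S5K10
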