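import Pool.Agent.helper82.WC.S5K1P

/-!
Generated certificates (in pairs, so that they are checked one after the other).
-/

namespace Pool.Agent.helper82.WC.S5K1

open Pool.Agent.helper82.WH
open Pool.Agent.helper31.IC (CovD covD_split TD)

mutual
theorem I0RT_31 : CovD 1 [pRT H BI0] [(4123168604160, 274877906944), (65900904448, 11140071424), (89598722048, 8145338368)] :=
  cov_of (fRT H BI0) (.n 2 (.n 2 (.n 2 (.n 1 (.l 0) (.l 0)) (.n 1 (.l 0) (.l 0))) (.n 2 (.n 1 (.l 0) (.l 0)) (.n 1 (.l 0) (.l 0)))) (.n 2 (.n 2 (.n 1 (.l 0) (.l 0)) (.n 1 (.l 0) (.l 0))) (.n 2 (.n 1 (.l 0) (.l 0)) (.n 1 (.l 0) (.l 0))))) [(4123168604160, 274877906944), (65900904448, 11140071424), (89598722048, 8145338368)] rfl (by decide +kernel)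
theorem I0RT_32 : CovD 1 [pRT H BI0] [(4123168604160, 274877906944), (65900904448, 11140071424), (114034737152, 16290676736)] :=
  cov_of (fRT H BI0) (.n 2 (.n 2 (.n 2 (.n 2 (.n 1 (.l 0) (.l 0)) (.n 0 (.l 0) (.l 0))) (.n 2 (.n 0 (.l 0) (.l 0)) (.n 0 (.l 0) (.l 0)))) (.n 2 (.n 2 (.l 0) (.l 0)) (.n 2 (.l 0) (.l 0)))) (.n 2 (.n 2 (.n 2 (.l 0) (.l 0)) (.n 2 (.l 0) (.l 0))) (.n 2 (.n 1 (.l 0) (.l 0)) (.n 1 (.l 0) (.l 0))))) [(4123168604160, 274877906944), (65900904448, 11140071424), (114034737152, 16290676736)] rfl (by decide +kernel)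
end

mutual
theorem I0RT_35 : CovD 1 [pRT H BI0] [(4123168604160, 274877906944), (65900904448, 11140071424), (146616090624, 16290676736)] :=
  cov_of (fRT H BI0) (.n 2 (.n 2 (.n 2 (.n 0 (.l 0) (.l 0)) (.n 0 (.l 0) (.l 0))) (.n 2 (.n 0 (.l 0) (.l 0)) (.n 0 (.l 0) (.l 0)))) (.n 2 (.n 2 (.n 0 (.l 0) (.l 0)) (.n 0 (.l 0) (.n 0 (.l 0) (.l 0)))) (.n 2 (.n 0 (.l 0) (.n 0 (.l 0) (.l 0))) (.n 0 (.l 0) (.n 0 (.l 0) (.l 0)))))) [(4123168604160, 274877906944), (65900904448, 11140071424), (146616090624, 16290676736)] rfl (by decide +kernel)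
theorem I0RT_37 : CovD 1 [pRT H BI0] [(4123168604160, 274877906944), (65900904448, 11140071424), (171052105728, 8145338368)] :=
  cov_of (fRT H BI0) (.n 2 (.n 2 (.n 0 (.l 0) (.n 0 (.l 0) (.l 0))) (.n 0 (.l 0) (.n 1 (.l 0) (.l 0)))) (.n 2 (.n 0 (.l 0) (.n 1 (.l 0) (.l 0))) (.n 0 (.l 0) (.n 1 (.n 0 (.l 0) (.l 0)) (.l 0))))) [(4123168604160, 274877906944), (65900904448, 11140071424), (171052105728, 8145338368)] rfl (by decide +kernel)
end

mutual
theorem I0RT_38 : CovD 1 [pRT H BI0] [(4123168604160, 274877906944), (65900904448, 11140071424), (187342782464, 8145338368)] :=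
  cov_of (fRT H BI0) (.n 2 (.n 0 (.n 0 (.l 0) (.l 0)) (.n 1 (.n 0 (.l 0) (.n 0 (.l 0) (.l 0))) (.n 0 (.l 0) (.n 0 (.l 0) (.l 0))))) (.n 0 (.n 0 (.l 0) (.l 0)) (.n 1 (.n 0 (.l 0) (.n 0 (.l 0) (.l 0))) (.n 0 (.l 0) (.n 0 (.l 0) (.l 0)))))) [(4123168604160, 274877906944), (65900904448, 11140071424), (187342782464, 8145338368)] rfl (by decide +kernel)
theorem I0RT_41 : CovD 1 [pRT H BI0] [(4123168604160, 274877906944), (65900904448, 11140071424), (203633459200, 8145338368)] :=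
  cov_of (fRT H BI0) (.n 2 (.n 0 (.n 0 (.l 0) (.l 0)) (.n 0 (.n 1 (.l 0) (.l 0)) (.n 1 (.n 2 (.l 0) (.l 0)) (.n 0 (.l 0) (.l 0))))) (.n 0 (.n 0 (.l 0) (.l 0)) (.n 0 (.n 1 (.l 0) (.l 0)) (.n 1 (.n 2 (.l 0) (.l 0)) (.n 0 (.l 0) (.l 0)))))) [(4123168604160, 274877906944), (65900904448, 11140071424), (203633459200, 8145338368)] rfl (by decide +kernel)
end

mutual
theorem I0RT_42 : CovD 1 [pRT H BI0] [(4123168604160, 274877906944), (65900904448, 11140071424), (219924135936, 8145338368)] :=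
  cov_of (fRT H BI0) (.n 2 (.n 0 (.n 0 (.l 0) (.l 0)) (.n 0 (.n 1 (.l 0) (.l 0)) (.n 1 (.n 0 (.l 0) (.l 0)) (.n 0 (.l 0) (.l 0))))) (.n 0 (.n 0 (.l 0) (.l 0)) (.n 0 (.n 0 (.l 0) (.l 0)) (.n 1 (.n 0 (.l 0) (.l 0)) (.l 0))))) [(4123168604160, 274877906944), (65900904448, 11140071424), (219924135936, 8145338368)] rfl (by decide +kernel)
theorem I0RT_43 : CovD 1 [pRT H BI0] [(4123168604160, 274877906944), (65900904448, 11140071424), (244360151040, 16290676736)] :=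
  cov_of (fRT H BI0) (.n 2 (.n 2 (.n 0 (.n 0 (.l 0) (.l 0)) (.n 0 (.n 0 (.l 0) (.l 0)) (.n 1 (.n 0 (.l 0) (.l 0)) (.l 0)))) (.n 0 (.n 0 (.l 0) (.l 0)) (.n 0 (.l 0) (.n 1 (.l 0) (.l 0))))) (.n 2 (.n 0 (.n 0 (.l 0) (.l 0)) (.n 0 (.l 0) (.n 1 (.l 0) (.l 0)))) (.n 0 (.n 0 (.l 0) (.l 0)) (.n 0 (.l 0) (.n 1 (.l 0) (.l 0)))))) [(4123168604160, 274877906944), (65900904448, 11140071424), (244360151040, 16290676736)] rfl (by decide +kernel)
end

mutual
theorem I1AD : CovD 0 [pAD H BI1] [(4123168604160, 274877906944), (65900904448, 11140071424), (290715598848, 30064771072)] :=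
  cov_of (fAD H BI1) (.n 2 (.n 0 (.n 2 (.n 0 (.l 0) (.l 0)) (.n 0 (.n 0 (.l 0) (.l 0)) (.l 0))) (.n 2 (.n 0 (.n 0 (.l 0) (.l 0)) (.n 0 (.l 0) (.l 0))) (.n 0 (.l 0) (.l 0)))) (.n 0 (.n 2 (.n 0 (.n 0 (.l 0) (.l 0)) (.l 0)) (.n 0 (.l 0) (.l 0))) (.n 2 (.n 0 (.l 0) (.l 0)) (.n 0 (.l 0) (.l 0))))) [(4123168604160, 274877906944), (65900904448, 11140071424), (290715598848, 30064771072)] rfl (by decide +kernel)
theorem I1G : CovD 1 [pG H BI1] [(4123168604160, 274877906944), (65900904448, 11140071424), (290715598848, 30064771072)] :=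
  cov_of (fG H BI1) (.n 2 (.n 2 (.l 0) (.n 0 (.l 0) (.l 0))) (.n 0 (.n 2 (.l 0) (.l 0)) (.n 2 (.l 0) (.n 0 (.l 0) (.n 2 (.l 0) (.l 0)))))) [(4123168604160, 274877906944), (65900904448, 11140071424), (290715598848, 30064771072)] rfl (by decide +kernel)
end

mutual
theorem I1RT_0 : CovD 1 [pRT H BI1] [(4123168604160, 274877906944), (65900904448, 11140071424), (275683213312, 15032385536)] :=
  cov_of (fRT H BI1) (.n 2 (.n 2 (.n 0 (.n 0 (.l 0) (.l 0)) (.n 0 (.n 0 (.l 0) (.l 0)) (.n 1 (.l 0) (.l 0)))) (.n 0 (.n 0 (.l 0) (.l 0)) (.n 0 (.l 0) (.n 0 (.l 0) (.l 0))))) (.n 2 (.n 0 (.n 0 (.l 0) (.l 0)) (.n 0 (.l 0) (.n 0 (.l 0) (.l 0)))) (.n 0 (.n 0 (.l 0) (.l 0)) (.n 0 (.l 0) (.l 0))))) [(4123168604160, 274877906944), (65900904448, 11140071424), (275683213312, 15032385536)] rfl (by decide +kernel)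
theorem I1RT_1 : CovD 1 [pRT H BI1] [(4123168604160, 274877906944), (65900904448, 11140071424), (305747984384, 15032385536)] :=
  cov_of (fRT H BI1) (.n 2 (.n 2 (.n 0 (.n 0 (.l 0) (.l 0)) (.n 0 (.l 0) (.l 0))) (.n 0 (.n 0 (.l 0) (.l 0)) (.n 0 (.l 0) (.l 0)))) (.n 2 (.n 0 (.n 0 (.l 0) (.l 0)) (.n 0 (.l 0) (.l 0))) (.n 0 (.l 0) (.n 0 (.l 0) (.l 0))))) [(4123168604160, 274877906944), (65900904448, 11140071424), (305747984384, 15032385536)] rfl (by decide +kernel)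
end

mutual
theorem I2AD_0 : CovD 0 [pAD H BI2] [(4123168604160, 274877906944), (65900904448, 11140071424), (355811196928, 35030827008)] :=
  cov_of (fAD H BI2) (.n 2 (.n 0 (.n 2 (.n 0 (.n 0 (.l 0) (.l 0)) (.l 0)) (.n 0 (.l 0) (.l 0))) (.n 2 (.n 0 (.l 0) (.l 0)) (.n 0 (.l 0) (.l 0)))) (.n 0 (.n 2 (.n 0 (.l 0) (.l 0)) (.n 0 (.l 0) (.l 0))) (.n 2 (.n 0 (.l 0) (.l 0)) (.n 0 (.l 0) (.l 0))))) [(4123168604160, 274877906944), (65900904448, 11140071424), (355811196928, 35030827008)] rfl (by decide +kernel)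
theorem I2AD_1 : CovD 0 [pAD H BI2] [(4123168604160, 274877906944), (65900904448, 11140071424), (425872850944, 35030827008)] :=
  cov_of (fAD H BI2) (.n 2 (.n 0 (.n 2 (.n 0 (.l 0) (.l 0)) (.n 0 (.l 0) (.l 0))) (.n 2 (.n 0 (.l 0) (.l 0)) (.n 0 (.l 0) (.l 0)))) (.n 0 (.n 2 (.n 0 (.n 0 (.l 0) (.l 0)) (.l 0)) (.n 0 (.n 0 (.l 0) (.l 0)) (.n 0 (.l 0) (.l 0)))) (.n 2 (.n 0 (.l 0) (.n 0 (.l 0) (.l 0))) (.n 0 (.n 0 (.l 0) (.l 0)) (.n 0 (.l 0) (.l 0)))))) [(4123168604160, 274877906944), (65900904448, 11140071424), (425872850944, 35030827008)] rfl (by decide +kernel)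
end

mutual
theorem I2G_0 : CovD 1 [pG H BI2] [(4123168604160, 274877906944), (65900904448, 11140071424), (355811196928, 35030827008)] :=
  cov_of (fG H BI2) (.n 2 (.n 0 (.n 2 (.l 0) (.l 0)) (.n 2 (.l 0) (.n 0 (.l 0) (.l 0)))) (.n 0 (.n 2 (.l 0) (.l 0)) (.n 2 (.n 2 (.l 0) (.n 0 (.l 0) (.l 0))) (.n 0 (.l 0) (.n 2 (.l 0) (.l 0)))))) [(4123168604160, 274877906944), (65900904448, 11140071424), (355811196928, 35030827008)] rfl (by decide +kernel)
theorem I2G_1 : CovD 1 [pG H BI2] [(4123168604160, 274877906944), (65900904448, 11140071424), (425872850944, 35030827008)] :=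
  cov_of (fG H BI2) (.n 2 (.n 0 (.n 2 (.n 0 (.l 0) (.l 0)) (.n 0 (.l 0) (.l 0))) (.n 2 (.n 0 (.l 0) (.n 2 (.l 0) (.l 0))) (.n 0 (.l 0) (.n 2 (.l 0) (.l 0))))) (.n 2 (.n 0 (.l 0) (.n 0 (.l 0) (.n 2 (.l 0) (.l 0)))) (.n 0 (.l 0) (.n 2 (.n 0 (.l 0) (.l 0)) (.l 0))))) [(4123168604160, 274877906944), (65900904448, 11140071424), (425872850944, 35030827008)] rfl (by decide +kernel)
end

mutual
theorem I2RT_2 : CovD 1 [pRT H BI2] [(4123168604160, 274877906944), (65900904448, 11140071424), (329538076672, 8757706752)] :=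
  cov_of (fRT H BI2) (.n 2 (.n 0 (.n 0 (.l 0) (.n 0 (.l 0) (.l 0))) (.n 0 (.n 2 (.n 0 (.l 0) (.l 0)) (.l 0)) (.n 2 (.n 0 (.l 0) (.n 0 (.l 0) (.l 0))) (.n 0 (.l 0) (.l 0))))) (.n 0 (.n 0 (.l 0) (.l 0)) (.n 0 (.n 0 (.l 0) (.l 0)) (.n 2 (.n 0 (.l 0) (.l 0)) (.n 0 (.l 0) (.l 0)))))) [(4123168604160, 274877906944), (65900904448, 11140071424), (329538076672, 8757706752)] rfl (by decide +kernel)
theorem I2RT_3 : CovD 1 [pRT H BI2] [(4123168604160, 274877906944), (65900904448, 11140071424), (347053490176, 8757706752)] :=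
  cov_of (fRT H BI2) (.n 2 (.n 0 (.n 0 (.l 0) (.l 0)) (.n 0 (.n 0 (.l 0) (.l 0)) (.n 0 (.l 0) (.n 0 (.l 0) (.l 0))))) (.n 0 (.n 0 (.l 0) (.l 0)) (.n 0 (.l 0) (.n 0 (.l 0) (.l 0))))) [(4123168604160, 274877906944), (65900904448, 11140071424), (347053490176, 8757706752)] rfl (by decide +kernel)
end

mutual
theorem I2RT_4 : CovD 1 [pRT H BI2] [(4123168604160, 274877906944), (65900904448, 11140071424), (373326610432, 17515413504)] :=
  cov_of (fRT H BI2) (.n 2 (.n 2 (.n 0 (.n 0 (.l 0) (.l 0)) (.n 0 (.l 0) (.n 0 (.l 0) (.l 0)))) (.n 0 (.n 0 (.l 0) (.l 0)) (.n 0 (.l 0) (.l 0)))) (.n 2 (.n 0 (.n 0 (.l 0) (.l 0)) (.n 0 (.l 0) (.l 0))) (.n 0 (.n 0 (.l 0) (.l 0)) (.n 0 (.l 0) (.l 0))))) [(4123168604160, 274877906944), (65900904448, 11140071424), (373326610432, 17515413504)] rfl (by decide +kernel)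
theorem I2RT_6 : CovD 1 [pRT H BI2] [(4123168604160, 274877906944), (65900904448, 11140071424), (408357437440, 17515413504)] :=
  cov_of (fRT H BI2) (.n 2 (.n 0 (.n 0 (.l 0) (.l 0)) (.n 0 (.n 0 (.l 0) (.l 0)) (.n 0 (.l 0) (.l 0)))) (.n 2 (.n 0 (.l 0) (.n 0 (.l 0) (.l 0))) (.n 0 (.n 0 (.l 0) (.l 0)) (.n 0 (.l 0) (.l 0))))) [(4123168604160, 274877906944), (65900904448, 11140071424), (408357437440, 17515413504)] rfl (by decide +kernel)
end

mutual
theorem I2RT_7 : CovD 1 [pRT H BI2] [(4123168604160, 274877906944), (65900904448, 11140071424), (443388264448, 17515413504)] :=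
  cov_of (fRT H BI2) (.n 2 (.n 2 (.n 0 (.n 0 (.l 0) (.l 0)) (.n 0 (.l 0) (.l 0))) (.n 0 (.n 0 (.l 0) (.l 0)) (.n 0 (.l 0) (.l 0)))) (.n 2 (.n 0 (.n 0 (.l 0) (.l 0)) (.n 0 (.l 0) (.n 0 (.l 0) (.l 0)))) (.n 0 (.n 0 (.l 0) (.n 0 (.l 0) (.l 0))) (.n 0 (.n 0 (.l 0) (.l 0)) (.n 2 (.l 0) (.n 0 (.l 0) (.l 0))))))) [(4123168604160, 274877906944), (65900904448, 11140071424), (443388264448, 17515413504)] rfl (by decide +kernel)
theorem I3AD : CovD 0 [pAD H BI3] [(4123168604160, 274877906944), (65900904448, 11140071424), (470970007552, 10066329600)] :=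
  cov_of (fAD H BI3) (.n 0 (.n 0 (.n 2 (.n 0 (.l 0) (.l 0)) (.n 2 (.l 0) (.n 2 (.l 0) (.n 0 (.l 0) (.l 0))))) (.n 2 (.l 0) (.n 2 (.l 0) (.n 0 (.l 0) (.n 0 (.l 0) (.l 0)))))) (.n 0 (.n 2 (.l 0) (.n 2 (.l 0) (.n 2 (.l 0) (.n 0 (.l 0) (.l 0))))) (.n 0 (.n 2 (.l 0) (.n 2 (.l 0) (.l 0))) (.n 2 (.l 0) (.n 2 (.l 0) (.n 1 (.l 0) (.l 0))))))) [(4123168604160, 274877906944), (65900904448, 11140071424), (470970007552, 10066329600)] rfl (by decide +kernel)
end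

mutual
theorem I3G : CovD 1 [pG H BI3] [(4123168604160, 274877906944), (65900904448, 11140071424), (470970007552, 10066329600)] :=
  cov_of (fG H BI3) (.n 0 (.n 2 (.n 0 (.l 0) (.l 0)) (.l 0)) (.n 2 (.n 0 (.n 0 (.l 0) (.l 0)) (.n 2 (.n 0 (.l 0) (.n 1 (.n 0 (.l 0) (.l 0)) (.l 0))) (.n 0 (.l 0) (.l 0)))) (.n 0 (.l 0) (.n 0 (.l 0) (.l 0))))) [(4123168604160, 274877906944), (65900904448, 11140071424), (470970007552, 10066329600)] rfl (by decide +kernel)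
theorem I3RT_0 : CovD 1 [pRT H BI3] [(4123168604160, 274877906944), (65900904448, 11140071424), (465936842752, 5033164800)] :=
  cov_of (fRT H BI3) (.n 0 (.n 0 (.n 0 (.l 0) (.l 0)) (.n 0 (.l 0) (.l 0))) (.n 0 (.n 2 (.l 0) (.n 0 (.l 0) (.l 0))) (.n 2 (.n 0 (.l 0) (.l 0)) (.n 0 (.l 0) (.l 0))))) [(4123168604160, 274877906944), (65900904448, 11140071424), (465936842752, 5033164800)] rfl (by decide +kernel)
end

mutual
theorem I3RT_2 : CovD 1 [pRT H BI3] [(3985729650688, 137438953472), (65900904448, 11140071424), (476003172352, 5033164800)] :=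
  cov_of (fRT H BI3) (.n 0 (.n 2 (.l 0) (.n 0 (.l 0) (.n 0 (.l 0) (.l 0)))) (.n 2 (.n 0 (.l 0) (.l 0)) (.n 0 (.n 0 (.l 0) (.l 0)) (.n 1 (.l 0) (.l 0))))) [(3985729650688, 137438953472), (65900904448, 11140071424), (476003172352, 5033164800)] rfl (by decide +kernel)
theorem I3RT_4 : CovD 1 [pRT H BI3] [(4191888080896, 68719476736), (65900904448, 11140071424), (476003172352, 5033164800)] :=
  cov_of (fRT H BI3) (.n 2 (.n 0 (.l 0) (.n 0 (.l 0) (.l 0))) (.n 0 (.n 2 (.l 0) (.n 1 (.l 0) (.l 0))) (.n 1 (.n 2 (.l 0) (.l 0)) (.n 2 (.l 0) (.l 0))))) [(4191888080896, 68719476736), (65900904448, 11140071424), (476003172352, 5033164800)] rfl (by decide +kernel)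
end

mutual
theorem I3RT_5 : CovD 1 [pRT H BI3] [(4329327034368, 68719476736), (65900904448, 11140071424), (476003172352, 5033164800)] :=
  cov_of (fRT H BI3) (.n 2 (.n 0 (.n 1 (.l 0) (.l 0)) (.n 2 (.l 0) (.n 0 (.l 0) (.l 0)))) (.n 0 (.n 1 (.n 2 (.l 0) (.n 0 (.l 0) (.l 0))) (.n 2 (.l 0) (.n 0 (.l 0) (.l 0)))) (.n 1 (.n 2 (.n 0 (.l 0) (.l 0)) (.n 0 (.n 0 (.l 0) (.l 0)) (.n 1 (.l 0) (.l 0)))) (.n 2 (.n 0 (.l 0) (.l 0)) (.n 0 (.n 0 (.l 0) (.l 0)) (.n 1 (.l 0) (.n 0 (.l 0) (.l 0)))))))) [(4329327034368, 68719476736), (65900904448, 11140071424), (476003172352, 5033164800)] rfl (by decide +kernel)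
theorem R0AD : CovD 0 [pAD H BR0] [(4123168604160, 274877906944), (65900904448, 11140071424), (1099511627776, 1099511627776)] :=
  cov_of (fAD H BR0) (.n 1 (.n 0 (.n 2 (.l 0) (.l 0)) (.n 2 (.l 0) (.l 0))) (.n 0 (.l 0) (.l 0))) [(4123168604160, 274877906944), (65900904448, 11140071424), (1099511627776, 1099511627776)] rfl (by decide +kernel)
end

mutual
theorem R0G : CovD 1 [pG H BR0] [(4123168604160, 274877906944), (65900904448, 11140071424), (1099511627776, 1099511627776)] :=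
  cov_of (fG H BR0) (.l 0) [(4123168604160, 274877906944), (65900904448, 11140071424), (1099511627776, 1099511627776)] rfl (by decide +kernel)
theorem R0RT : CovD 1 [pRT H BR0] [(4123168604160, 274877906944), (65900904448, 11140071424), (1099511627776, 1099511627776)] :=
  cov_of (fRT H BR0) (.n 1 (.n 1 (.n 2 (.l 0) (.l 0)) (.l 0)) (.n 1 (.l 0) (.l 0))) [(4123168604160, 274877906944), (65900904448, 11140071424), (1099511627776, 1099511627776)] rfl (by decide +kernel)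
end

mutual
theorem R0RS : CovD 1 [pRS H BR0] [(4123168604160, 274877906944), (65900904448, 11140071424), (1099511627776, 1099511627776)] :=
  cov_of (fRS H BR0) (.l 0) [(4123168604160, 274877906944), (65900904448, 11140071424), (1099511627776, 1099511627776)] rfl (by decide +kernel)
theorem PAD : CovD 0 [pAD H BP] [(4123168604160, 274877906944), (65900904448, 11140071424), (2199023255552, 0)] :=
  cov_of (fAD H BP) (.n 1 (.n 0 (.l 0) (.l 0)) (.n 0 (.l 0) (.l 0))) [(4123168604160, 274877906944), (65900904448, 11140071424), (2199023255552, 0)] rfl (by decide +kernel)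
end

mutual
theorem PG : CovD 1 [pG H BP] [(4123168604160, 274877906944), (65900904448, 11140071424), (2199023255552, 0)] :=
  cov_of (fG H BP) (.l 0) [(4123168604160, 274877906944), (65900904448, 11140071424), (2199023255552, 0)] rfl (by decide +kernel)
theorem PRT : CovD 1 [pRT H BP] [(4123168604160, 274877906944), (65900904448, 11140071424), (2199023255552, 0)] :=
  cov_of (fRT H BP) (.n 1 (.l 0) (.l 0)) [(4123168604160, 274877906944), (65900904448, 11140071424), (2199023255552, 0)] rfl (by decide +kernel)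
end

mutual
theorem PTT : CovD 1 [pTT H BP] [(4123168604160, 274877906944), (65900904448, 11140071424), (2199023255552, 0)] :=
  cov_of (fTT H BP) (.n 1 (.n 1 (.n 0 (.n 1 (.l 0) (.l 0)) (.n 1 (.l 0) (.l 0))) (.n 0 (.n 1 (.l 0) (.l 0)) (.n 1 (.l 0) (.l 0)))) (.n 1 (.n 0 (.n 0 (.l 0) (.l 0)) (.n 0 (.l 0) (.l 0))) (.n 0 (.n 0 (.l 0) (.l 0)) (.n 0 (.l 0) (.l 0))))) [(4123168604160, 274877906944), (65900904448, 11140071424), (2199023255552, 0)] rfl (by decide +kernel)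
theorem MAD : CovD 0 [pAD H BM] [(4123168604160, 274877906944), (65900904448, 11140071424), (0, 0)] :=
  cov_of (fAD H BM) (.n 1 (.n 0 (.l 0) (.l 0)) (.n 0 (.l 0) (.l 0))) [(4123168604160, 274877906944), (65900904448, 11140071424), (0, 0)] rfl (by decide +kernel)
end

mutual
theorem MG : CovD 1 [pG H BM] [(4123168604160, 274877906944), (65900904448, 11140071424), (0, 0)] :=
  cov_of (fG H BM) (.l 0) [(4123168604160, 274877906944), (65900904448, 11140071424), (0, 0)] rfl (by decide +kernel)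
theorem MRT : CovD 1 [pRT H BM] [(4123168604160, 274877906944), (65900904448, 11140071424), (0, 0)] :=
  cov_of (fRT H BM) (.n 1 (.n 1 (.l 0) (.l 0)) (.n 1 (.l 0) (.l 0))) [(4123168604160, 274877906944), (65900904448, 11140071424), (0, 0)] rfl (by decide +kernel)
end

end Pool.Agent.helper82.WC.S5K1
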