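import Pool.Agent.helper82.WC.S5K1C0
import Pool.Agent.helper82.WC.S5K1C1
import Pool.Agent.helper82.WC.S5K1C2

/-!
Generated certificates, assembled.
-/

namespace Pool.Agent.helper82.WC.S5K1

open Pool.Agent.helper82.WH
open Pool.Agent.helper31.IC (CovD covD_split TD)

theorem I0AD_2 : CovD 0 [pAD H BI0] [(4123168604160, 274877906944), (65900904448, 11140071424), (16290676736, 16290676736)] :=
  covD_split 2 (by decide +kernel) I0AD_3 I0AD_4
theorem I0AD_5 : CovD 0 [pAD H BI0] [(4123168604160, 274877906944), (65900904448, 11140071424), (48872030208, 16290676736)] :=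
  covD_split 2 (by decide +kernel) I0AD_6 I0AD_7
theorem I0AD_1 : CovD 0 [pAD H BI0] [(4123168604160, 274877906944), (65900904448, 11140071424), (32581353472, 32581353472)] :=
  covD_split 2 (by decide +kernel) I0AD_2 I0AD_5
theorem I0AD_9 : CovD 0 [pAD H BI0] [(4123168604160, 274877906944), (65900904448, 11140071424), (81453383680, 16290676736)] :=
  covD_split 2 (by decide +kernel) I0AD_10 I0AD_11
theorem I0AD_12 : CovD 0 [pAD H BI0] [(4123168604160, 274877906944), (65900904448, 11140071424), (114034737152, 16290676736)] :=
  covD_split 0 (by decide +kernel) I0AD_13 I0AD_14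
theorem I0AD_8 : CovD 0 [pAD H BI0] [(4123168604160, 274877906944), (65900904448, 11140071424), (97744060416, 32581353472)] :=
  covD_split 2 (by decide +kernel) I0AD_9 I0AD_12
theorem I0AD_0 : CovD 0 [pAD H BI0] [(4123168604160, 274877906944), (65900904448, 11140071424), (65162706944, 65162706944)] :=
  covD_split 2 (by decide +kernel) I0AD_1 I0AD_8
theorem I0AD_16 : CovD 0 [pAD H BI0] [(4123168604160, 274877906944), (65900904448, 11140071424), (162906767360, 32581353472)] :=
  covD_split 2 (by decide +kernel) I0AD_17 I0AD_18
theorem I0AD_19 : CovD 0 [pAD H BI0] [(4123168604160, 274877906944), (65900904448, 11140071424), (228069474304, 32581353472)] :=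
  covD_split 2 (by decide +kernel) I0AD_20 I0AD_21
theorem I0AD_15 : CovD 0 [pAD H BI0] [(4123168604160, 274877906944), (65900904448, 11140071424), (195488120832, 65162706944)] :=
  covD_split 2 (by decide +kernel) I0AD_16 I0AD_19
theorem I0AD : CovD 0 [pAD H BI0] [(4123168604160, 274877906944), (65900904448, 11140071424), (130325413888, 130325413888)] :=
  covD_split 2 (by decide +kernel) I0AD_0 I0AD_15
theorem I0RT_4 : CovD 1 [pRT H BI0] [(4123168604160, 274877906944), (65900904448, 11140071424), (4072669184, 4072669184)] :=
  covD_split 2 (by decide +kernel) I0RT_5 I0RT_6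
theorem I0RT_7 : CovD 1 [pRT H BI0] [(4123168604160, 274877906944), (65900904448, 11140071424), (12218007552, 4072669184)] :=
  covD_split 2 (by decide +kernel) I0RT_8 I0RT_9
theorem I0RT_3 : CovD 1 [pRT H BI0] [(4123168604160, 274877906944), (65900904448, 11140071424), (8145338368, 8145338368)] :=
  covD_split 2 (by decide +kernel) I0RT_4 I0RT_7
theorem I0RT_11 : CovD 1 [pRT H BI0] [(4123168604160, 274877906944), (65900904448, 11140071424), (20363345920, 4072669184)] :=
  covD_split 2 (by decide +kernel) I0RT_12 I0RT_13
theorem I0RT_14 : CovD 1 [pRT H BI0] [(4123168604160, 274877906944), (65900904448, 11140071424), (28508684288, 4072669184)] :=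
  covD_split 2 (by decide +kernel) I0RT_15 I0RT_16
theorem I0RT_10 : CovD 1 [pRT H BI0] [(4123168604160, 274877906944), (65900904448, 11140071424), (24436015104, 8145338368)] :=
  covD_split 2 (by decide +kernel) I0RT_11 I0RT_14
theorem I0RT_2 : CovD 1 [pRT H BI0] [(4123168604160, 274877906944), (65900904448, 11140071424), (16290676736, 16290676736)] :=
  covD_split 2 (by decide +kernel) I0RT_3 I0RT_10
theorem I0RT_19 : CovD 1 [pRT H BI0] [(4123168604160, 274877906944), (65900904448, 11140071424), (36654022656, 4072669184)] :=
  covD_split 2 (by decide +kernel) I0RT_20 I0RT_21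
theorem I0RT_18 : CovD 1 [pRT H BI0] [(4123168604160, 274877906944), (65900904448, 11140071424), (40726691840, 8145338368)] :=
  covD_split 2 (by decide +kernel) I0RT_19 I0RT_22
theorem I0RT_23 : CovD 1 [pRT H BI0] [(4123168604160, 274877906944), (65900904448, 11140071424), (57017368576, 8145338368)] :=
  covD_split 2 (by decide +kernel) I0RT_24 I0RT_25
theorem I0RT_17 : CovD 1 [pRT H BI0] [(4123168604160, 274877906944), (65900904448, 11140071424), (48872030208, 16290676736)] :=
  covD_split 2 (by decide +kernel) I0RT_18 I0RT_23
theorem I0RT_1 : CovD 1 [pRT H BI0] [(4123168604160, 274877906944), (65900904448, 11140071424), (32581353472, 32581353472)] :=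
  covD_split 2 (by decide +kernel) I0RT_2 I0RT_17
theorem I0RT_28 : CovD 1 [pRT H BI0] [(4123168604160, 274877906944), (65900904448, 11140071424), (73308045312, 8145338368)] :=
  covD_split 2 (by decide +kernel) I0RT_29 I0RT_30
theorem I0RT_27 : CovD 1 [pRT H BI0] [(4123168604160, 274877906944), (65900904448, 11140071424), (81453383680, 16290676736)] :=
  covD_split 2 (by decide +kernel) I0RT_28 I0RT_31
theorem I0RT_26 : CovD 1 [pRT H BI0] [(4123168604160, 274877906944), (65900904448, 11140071424), (97744060416, 32581353472)] :=
  covD_split 2 (by decide +kernel) I0RT_27 I0RT_32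
theorem I0RT_0 : CovD 1 [pRT H BI0] [(4123168604160, 274877906944), (65900904448, 11140071424), (65162706944, 65162706944)] :=
  covD_split 2 (by decide +kernel) I0RT_1 I0RT_26
theorem I0RT_36 : CovD 1 [pRT H BI0] [(4123168604160, 274877906944), (65900904448, 11140071424), (179197444096, 16290676736)] :=
  covD_split 2 (by decide +kernel) I0RT_37 I0RT_38
theorem I0RT_34 : CovD 1 [pRT H BI0] [(4123168604160, 274877906944), (65900904448, 11140071424), (162906767360, 32581353472)] :=
  covD_split 2 (by decide +kernel) I0RT_35 I0RT_36
theorem I0RT_40 : CovD 1 [pRT H BI0] [(4123168604160, 274877906944), (65900904448, 11140071424), (211778797568, 16290676736)] :=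
  covD_split 2 (by decide +kernel) I0RT_41 I0RT_42
theorem I0RT_39 : CovD 1 [pRT H BI0] [(4123168604160, 274877906944), (65900904448, 11140071424), (228069474304, 32581353472)] :=
  covD_split 2 (by decide +kernel) I0RT_40 I0RT_43
theorem I0RT_33 : CovD 1 [pRT H BI0] [(4123168604160, 274877906944), (65900904448, 11140071424), (195488120832, 65162706944)] :=
  covD_split 2 (by decide +kernel) I0RT_34 I0RT_39
theorem I0RT : CovD 1 [pRT H BI0] [(4123168604160, 274877906944), (65900904448, 11140071424), (130325413888, 130325413888)] :=
  covD_split 2 (by decide +kernel) I0RT_0 I0RT_33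
theorem I1RT : CovD 1 [pRT H BI1] [(4123168604160, 274877906944), (65900904448, 11140071424), (290715598848, 30064771072)] :=
  covD_split 2 (by decide +kernel) I1RT_0 I1RT_1
theorem I2AD : CovD 0 [pAD H BI2] [(4123168604160, 274877906944), (65900904448, 11140071424), (390842023936, 70061654016)] :=
  covD_split 2 (by decide +kernel) I2AD_0 I2AD_1
theorem I2G : CovD 1 [pG H BI2] [(4123168604160, 274877906944), (65900904448, 11140071424), (390842023936, 70061654016)] :=
  covD_split 2 (by decide +kernel) I2G_0 I2G_1
theorem I2RT_1 : CovD 1 [pRT H BI2] [(4123168604160, 274877906944), (65900904448, 11140071424), (338295783424, 17515413504)] :=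
  covD_split 2 (by decide +kernel) I2RT_2 I2RT_3
theorem I2RT_0 : CovD 1 [pRT H BI2] [(4123168604160, 274877906944), (65900904448, 11140071424), (355811196928, 35030827008)] :=
  covD_split 2 (by decide +kernel) I2RT_1 I2RT_4
theorem I2RT_5 : CovD 1 [pRT H BI2] [(4123168604160, 274877906944), (65900904448, 11140071424), (425872850944, 35030827008)] :=
  covD_split 2 (by decide +kernel) I2RT_6 I2RT_7
theorem I2RT : CovD 1 [pRT H BI2] [(4123168604160, 274877906944), (65900904448, 11140071424), (390842023936, 70061654016)] :=
  covD_split 2 (by decide +kernel) I2RT_0 I2RT_5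
theorem I3RT_3 : CovD 1 [pRT H BI3] [(4260607557632, 137438953472), (65900904448, 11140071424), (476003172352, 5033164800)] :=
  covD_split 0 (by decide +kernel) I3RT_4 I3RT_5
theorem I3RT_1 : CovD 1 [pRT H BI3] [(4123168604160, 274877906944), (65900904448, 11140071424), (476003172352, 5033164800)] :=
  covD_split 0 (by decide +kernel) I3RT_2 I3RT_3
theorem I3RT : CovD 1 [pRT H BI3] [(4123168604160, 274877906944), (65900904448, 11140071424), (470970007552, 10066329600)] :=
  covD_split 2 (by decide +kernel) I3RT_0 I3RT_1

end Pool.Agent.helper82.WC.S5K1
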