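import Pool.Agent.helper82.WC.S5K1P

/-!
Generated certificates (in pairs, so that they are checked one after the other).
-/

namespace Pool.Agent.helper82.WC.S5K1

open Pool.Agent.helper82.WH
open Pool.Agent.helper31.IC (CovD covD_split TD)

mutual
theorem I0AD_3 : CovD 0 [pAD H BI0] [(4123168604160, 274877906944), (65900904448, 11140071424), (8145338368, 8145338368)] :=
  cov_of (fAD H BI0) (.n 0 (.n 1 (.n 2 (.n 0 (.n 0 (.l 0) (.l 0)) (.n 0 (.l 0) (.l 0))) (.n 0 (.n 0 (.l 0) (.l 0)) (.n 0 (.l 0) (.l 0)))) (.n 2 (.n 0 (.l 0) (.l 0)) (.n 0 (.l 0) (.l 0)))) (.n 1 (.n 2 (.n 0 (.n 0 (.l 0) (.l 0)) (.n 0 (.l 0) (.l 0))) (.n 0 (.n 0 (.l 0) (.l 0)) (.n 0 (.l 0) (.l 0)))) (.n 2 (.n 0 (.l 0) (.l 0)) (.n 0 (.l 0) (.l 0))))) [(4123168604160, 274877906944), (65900904448, 11140071424), (8145338368, 8145338368)] rfl (by decide +kernel)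
theorem I0AD_4 : CovD 0 [pAD H BI0] [(4123168604160, 274877906944), (65900904448, 11140071424), (24436015104, 8145338368)] :=
  cov_of (fAD H BI0) (.n 0 (.n 0 (.n 1 (.n 2 (.n 0 (.l 0) (.l 0)) (.n 0 (.l 0) (.l 0))) (.n 2 (.l 0) (.l 0))) (.n 1 (.n 2 (.n 0 (.l 0) (.l 0)) (.n 0 (.l 0) (.l 0))) (.n 2 (.l 0) (.l 0)))) (.n 1 (.n 2 (.n 0 (.n 0 (.l 0) (.l 0)) (.n 0 (.l 0) (.l 0))) (.n 0 (.n 0 (.l 0) (.l 0)) (.n 0 (.l 0) (.l 0)))) (.n 2 (.n 0 (.l 0) (.l 0)) (.n 0 (.l 0) (.l 0))))) [(4123168604160, 274877906944), (65900904448, 11140071424), (24436015104, 8145338368)] rfl (by decide +kernel)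
end

mutual
theorem I0AD_6 : CovD 0 [pAD H BI0] [(4123168604160, 274877906944), (65900904448, 11140071424), (40726691840, 8145338368)] :=
  cov_of (fAD H BI0) (.n 0 (.n 0 (.n 2 (.n 1 (.n 0 (.l 0) (.l 0)) (.l 0)) (.n 1 (.n 0 (.l 0) (.l 0)) (.l 0))) (.n 2 (.n 1 (.n 0 (.l 0) (.l 0)) (.l 0)) (.n 1 (.n 0 (.l 0) (.l 0)) (.l 0)))) (.n 2 (.n 1 (.n 0 (.n 0 (.l 0) (.l 0)) (.n 0 (.l 0) (.l 0))) (.n 0 (.l 0) (.l 0))) (.n 1 (.n 0 (.n 0 (.l 0) (.l 0)) (.n 0 (.l 0) (.l 0))) (.n 0 (.l 0) (.l 0))))) [(4123168604160, 274877906944), (65900904448, 11140071424), (40726691840, 8145338368)] rfl (by decide +kernel)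
theorem I0AD_7 : CovD 0 [pAD H BI0] [(4123168604160, 274877906944), (65900904448, 11140071424), (57017368576, 8145338368)] :=
  cov_of (fAD H BI0) (.n 0 (.n 0 (.n 2 (.n 1 (.l 0) (.l 0)) (.n 1 (.l 0) (.l 0))) (.n 2 (.n 1 (.l 0) (.l 0)) (.n 1 (.l 0) (.l 0)))) (.n 0 (.n 2 (.n 1 (.l 0) (.l 0)) (.n 1 (.l 0) (.l 0))) (.n 2 (.n 1 (.l 0) (.l 0)) (.n 1 (.l 0) (.l 0))))) [(4123168604160, 274877906944), (65900904448, 11140071424), (57017368576, 8145338368)] rfl (by decide +kernel)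
end

mutual
theorem I0AD_10 : CovD 0 [pAD H BI0] [(4123168604160, 274877906944), (65900904448, 11140071424), (73308045312, 8145338368)] :=
  cov_of (fAD H BI0) (.n 0 (.n 0 (.n 2 (.n 1 (.l 0) (.l 0)) (.n 0 (.l 0) (.l 0))) (.n 2 (.n 1 (.l 0) (.l 0)) (.n 1 (.l 0) (.l 0)))) (.n 0 (.n 2 (.n 1 (.l 0) (.l 0)) (.n 1 (.l 0) (.l 0))) (.n 2 (.n 1 (.l 0) (.l 0)) (.n 1 (.l 0) (.l 0))))) [(4123168604160, 274877906944), (65900904448, 11140071424), (73308045312, 8145338368)] rfl (by decide +kernel)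
theorem I0AD_11 : CovD 0 [pAD H BI0] [(4123168604160, 274877906944), (65900904448, 11140071424), (89598722048, 8145338368)] :=
  cov_of (fAD H BI0) (.n 0 (.n 0 (.n 2 (.n 0 (.l 0) (.l 0)) (.n 0 (.l 0) (.l 0))) (.n 2 (.n 0 (.l 0) (.l 0)) (.n 0 (.l 0) (.l 0)))) (.n 0 (.n 2 (.n 0 (.l 0) (.l 0)) (.n 0 (.l 0) (.l 0))) (.n 2 (.n 1 (.l 0) (.l 0)) (.n 0 (.l 0) (.l 0))))) [(4123168604160, 274877906944), (65900904448, 11140071424), (89598722048, 8145338368)] rfl (by decide +kernel)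
end

mutual
theorem I0AD_13 : CovD 0 [pAD H BI0] [(3985729650688, 137438953472), (65900904448, 11140071424), (114034737152, 16290676736)] :=
  cov_of (fAD H BI0) (.n 2 (.n 0 (.n 2 (.n 0 (.l 0) (.l 0)) (.n 0 (.l 0) (.l 0))) (.n 2 (.n 0 (.l 0) (.l 0)) (.n 0 (.l 0) (.l 0)))) (.n 0 (.n 2 (.n 0 (.l 0) (.l 0)) (.n 0 (.l 0) (.l 0))) (.n 2 (.n 0 (.l 0) (.l 0)) (.n 0 (.l 0) (.l 0))))) [(3985729650688, 137438953472), (65900904448, 11140071424), (114034737152, 16290676736)] rfl (by decide +kernel)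
theorem I0AD_14 : CovD 0 [pAD H BI0] [(4260607557632, 137438953472), (65900904448, 11140071424), (114034737152, 16290676736)] :=
  cov_of (fAD H BI0) (.n 2 (.n 0 (.n 2 (.n 0 (.l 0) (.l 0)) (.n 0 (.l 0) (.l 0))) (.n 2 (.n 0 (.l 0) (.l 0)) (.n 0 (.l 0) (.l 0)))) (.n 0 (.n 2 (.n 0 (.l 0) (.l 0)) (.n 0 (.l 0) (.l 0))) (.n 2 (.n 0 (.l 0) (.l 0)) (.n 0 (.l 0) (.l 0))))) [(4260607557632, 137438953472), (65900904448, 11140071424), (114034737152, 16290676736)] rfl (by decide +kernel)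
end

mutual
theorem I0AD_17 : CovD 0 [pAD H BI0] [(4123168604160, 274877906944), (65900904448, 11140071424), (146616090624, 16290676736)] :=
  cov_of (fAD H BI0) (.n 0 (.n 2 (.n 0 (.n 2 (.l 0) (.l 0)) (.n 2 (.l 0) (.l 0))) (.n 0 (.n 1 (.l 0) (.l 0)) (.n 1 (.l 0) (.l 0)))) (.n 2 (.n 0 (.n 2 (.l 0) (.l 0)) (.n 2 (.n 0 (.l 0) (.l 0)) (.l 0))) (.n 0 (.n 2 (.l 0) (.l 0)) (.n 2 (.l 0) (.l 0))))) [(4123168604160, 274877906944), (65900904448, 11140071424), (146616090624, 16290676736)] rfl (by decide +kernel)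
theorem I0AD_18 : CovD 0 [pAD H BI0] [(4123168604160, 274877906944), (65900904448, 11140071424), (179197444096, 16290676736)] :=
  cov_of (fAD H BI0) (.n 0 (.n 2 (.n 0 (.n 0 (.l 0) (.l 0)) (.n 0 (.l 0) (.l 0))) (.n 0 (.n 0 (.l 0) (.l 0)) (.n 0 (.l 0) (.l 0)))) (.n 2 (.n 0 (.n 1 (.l 0) (.l 0)) (.n 1 (.l 0) (.l 0))) (.n 0 (.n 0 (.l 0) (.l 0)) (.n 1 (.l 0) (.l 0))))) [(4123168604160, 274877906944), (65900904448, 11140071424), (179197444096, 16290676736)] rfl (by decide +kernel)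
end

mutual
theorem I0AD_20 : CovD 0 [pAD H BI0] [(4123168604160, 274877906944), (65900904448, 11140071424), (211778797568, 16290676736)] :=
  cov_of (fAD H BI0) (.n 0 (.n 2 (.n 0 (.n 0 (.l 0) (.l 0)) (.n 0 (.l 0) (.l 0))) (.n 0 (.n 0 (.l 0) (.l 0)) (.n 0 (.l 0) (.l 0)))) (.n 2 (.n 0 (.n 0 (.l 0) (.l 0)) (.n 0 (.l 0) (.l 0))) (.n 0 (.n 0 (.l 0) (.l 0)) (.n 0 (.l 0) (.l 0))))) [(4123168604160, 274877906944), (65900904448, 11140071424), (211778797568, 16290676736)] rfl (by decide +kernel)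
theorem I0AD_21 : CovD 0 [pAD H BI0] [(4123168604160, 274877906944), (65900904448, 11140071424), (244360151040, 16290676736)] :=
  cov_of (fAD H BI0) (.n 0 (.n 2 (.n 0 (.n 0 (.l 0) (.l 0)) (.n 0 (.l 0) (.l 0))) (.n 0 (.l 0) (.l 0))) (.n 2 (.n 0 (.n 0 (.l 0) (.l 0)) (.n 0 (.l 0) (.l 0))) (.n 0 (.n 0 (.l 0) (.l 0)) (.n 0 (.l 0) (.l 0))))) [(4123168604160, 274877906944), (65900904448, 11140071424), (244360151040, 16290676736)] rfl (by decide +kernel)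
end

mutual
theorem I0G : CovD 1 [pG H BI0] [(4123168604160, 274877906944), (65900904448, 11140071424), (130325413888, 130325413888)] :=
  cov_of (fG H BI0) (.n 2 (.n 0 (.l 0) (.l 0)) (.n 2 (.n 0 (.l 0) (.l 0)) (.n 2 (.n 0 (.l 0) (.l 0)) (.n 2 (.n 0 (.l 0) (.l 0)) (.n 0 (.l 0) (.n 2 (.l 0) (.n 0 (.l 0) (.n 0 (.l 0) (.l 0))))))))) [(4123168604160, 274877906944), (65900904448, 11140071424), (130325413888, 130325413888)] rfl (by decide +kernel)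
theorem I0RT_5 : CovD 1 [pRT H BI0] [(4123168604160, 274877906944), (65900904448, 11140071424), (2036334592, 2036334592)] :=
  cov_of (fRT H BI0) (.n 1 (.n 2 (.n 2 (.n 1 (.n 1 (.l 0) (.l 0)) (.l 0)) (.n 1 (.n 1 (.l 0) (.l 0)) (.l 0))) (.n 2 (.n 1 (.n 1 (.l 0) (.l 0)) (.l 0)) (.n 1 (.n 1 (.l 0) (.l 0)) (.l 0)))) (.n 2 (.n 2 (.n 1 (.l 0) (.l 0)) (.n 1 (.l 0) (.l 0))) (.n 2 (.n 1 (.l 0) (.l 0)) (.n 1 (.l 0) (.l 0))))) [(4123168604160, 274877906944), (65900904448, 11140071424), (2036334592, 2036334592)] rfl (by decide +kernel)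
end

mutual
theorem I0RT_6 : CovD 1 [pRT H BI0] [(4123168604160, 274877906944), (65900904448, 11140071424), (6109003776, 2036334592)] :=
  cov_of (fRT H BI0) (.n 1 (.n 2 (.n 2 (.n 1 (.n 1 (.l 0) (.l 0)) (.l 0)) (.n 1 (.n 1 (.l 0) (.l 0)) (.l 0))) (.n 2 (.n 1 (.n 1 (.l 0) (.l 0)) (.l 0)) (.n 1 (.n 1 (.l 0) (.l 0)) (.l 0)))) (.n 2 (.n 2 (.n 1 (.l 0) (.l 0)) (.n 1 (.l 0) (.l 0))) (.n 2 (.n 1 (.l 0) (.l 0)) (.n 1 (.l 0) (.l 0))))) [(4123168604160, 274877906944), (65900904448, 11140071424), (6109003776, 2036334592)] rfl (by decide +kernel)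
theorem I0RT_8 : CovD 1 [pRT H BI0] [(4123168604160, 274877906944), (65900904448, 11140071424), (10181672960, 2036334592)] :=
  cov_of (fRT H BI0) (.n 1 (.n 2 (.n 2 (.n 1 (.n 1 (.l 0) (.l 0)) (.l 0)) (.n 1 (.n 1 (.l 0) (.l 0)) (.l 0))) (.n 2 (.n 1 (.n 1 (.l 0) (.l 0)) (.l 0)) (.n 1 (.n 1 (.l 0) (.l 0)) (.l 0)))) (.n 2 (.n 2 (.n 1 (.l 0) (.l 0)) (.n 1 (.l 0) (.l 0))) (.n 2 (.n 1 (.l 0) (.l 0)) (.n 1 (.l 0) (.l 0))))) [(4123168604160, 274877906944), (65900904448, 11140071424), (10181672960, 2036334592)] rfl (by decide +kernel)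
end

mutual
theorem I0RT_9 : CovD 1 [pRT H BI0] [(4123168604160, 274877906944), (65900904448, 11140071424), (14254342144, 2036334592)] :=
  cov_of (fRT H BI0) (.n 1 (.n 2 (.n 2 (.n 1 (.n 1 (.l 0) (.l 0)) (.l 0)) (.n 1 (.n 1 (.l 0) (.l 0)) (.l 0))) (.n 2 (.n 1 (.n 1 (.l 0) (.l 0)) (.l 0)) (.n 1 (.n 1 (.l 0) (.l 0)) (.l 0)))) (.n 2 (.n 2 (.n 1 (.l 0) (.l 0)) (.n 1 (.l 0) (.l 0))) (.n 2 (.n 1 (.l 0) (.l 0)) (.n 1 (.l 0) (.l 0))))) [(4123168604160, 274877906944), (65900904448, 11140071424), (14254342144, 2036334592)] rfl (by decide +kernel)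
theorem I0RT_12 : CovD 1 [pRT H BI0] [(4123168604160, 274877906944), (65900904448, 11140071424), (18327011328, 2036334592)] :=
  cov_of (fRT H BI0) (.n 1 (.n 2 (.n 2 (.n 1 (.n 1 (.l 0) (.l 0)) (.l 0)) (.n 1 (.n 1 (.l 0) (.l 0)) (.l 0))) (.n 2 (.n 1 (.n 1 (.l 0) (.l 0)) (.l 0)) (.n 1 (.n 1 (.l 0) (.l 0)) (.l 0)))) (.n 2 (.n 2 (.n 1 (.l 0) (.l 0)) (.n 1 (.l 0) (.l 0))) (.n 2 (.n 1 (.l 0) (.l 0)) (.n 1 (.l 0) (.l 0))))) [(4123168604160, 274877906944), (65900904448, 11140071424), (18327011328, 2036334592)] rfl (by decide +kernel)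
end

mutual
theorem I0RT_13 : CovD 1 [pRT H BI0] [(4123168604160, 274877906944), (65900904448, 11140071424), (22399680512, 2036334592)] :=
  cov_of (fRT H BI0) (.n 1 (.n 2 (.n 2 (.n 1 (.n 1 (.l 0) (.l 0)) (.l 0)) (.n 1 (.n 1 (.l 0) (.l 0)) (.l 0))) (.n 2 (.n 1 (.n 1 (.l 0) (.l 0)) (.l 0)) (.n 1 (.n 1 (.l 0) (.l 0)) (.l 0)))) (.n 2 (.n 2 (.n 1 (.l 0) (.l 0)) (.n 1 (.l 0) (.l 0))) (.n 2 (.n 1 (.l 0) (.l 0)) (.n 1 (.l 0) (.l 0))))) [(4123168604160, 274877906944), (65900904448, 11140071424), (22399680512, 2036334592)] rfl (by decide +kernel)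
theorem I0RT_15 : CovD 1 [pRT H BI0] [(4123168604160, 274877906944), (65900904448, 11140071424), (26472349696, 2036334592)] :=
  cov_of (fRT H BI0) (.n 1 (.n 2 (.n 2 (.n 1 (.n 1 (.l 0) (.l 0)) (.l 0)) (.n 1 (.n 0 (.l 0) (.l 0)) (.l 0))) (.n 2 (.n 1 (.n 0 (.l 0) (.l 0)) (.l 0)) (.n 1 (.n 0 (.l 0) (.l 0)) (.l 0)))) (.n 2 (.n 2 (.n 1 (.l 0) (.l 0)) (.n 1 (.l 0) (.l 0))) (.n 2 (.n 1 (.l 0) (.l 0)) (.n 1 (.l 0) (.l 0))))) [(4123168604160, 274877906944), (65900904448, 11140071424), (26472349696, 2036334592)] rfl (by decide +kernel)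
end

mutual
theorem I0RT_16 : CovD 1 [pRT H BI0] [(4123168604160, 274877906944), (65900904448, 11140071424), (30545018880, 2036334592)] :=
  cov_of (fRT H BI0) (.n 1 (.n 2 (.n 2 (.n 2 (.l 0) (.l 0)) (.n 2 (.l 0) (.l 0))) (.n 2 (.n 1 (.l 0) (.l 0)) (.n 1 (.l 0) (.l 0)))) (.n 2 (.n 2 (.n 1 (.l 0) (.l 0)) (.n 0 (.l 0) (.l 0))) (.n 2 (.n 0 (.l 0) (.l 0)) (.n 0 (.l 0) (.l 0))))) [(4123168604160, 274877906944), (65900904448, 11140071424), (30545018880, 2036334592)] rfl (by decide +kernel)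
theorem I0RT_20 : CovD 1 [pRT H BI0] [(4123168604160, 274877906944), (65900904448, 11140071424), (34617688064, 2036334592)] :=
  cov_of (fRT H BI0) (.n 1 (.n 2 (.n 2 (.n 1 (.l 0) (.l 0)) (.n 1 (.l 0) (.l 0))) (.n 2 (.n 1 (.l 0) (.l 0)) (.n 1 (.l 0) (.l 0)))) (.n 2 (.n 2 (.n 0 (.l 0) (.l 0)) (.n 0 (.l 0) (.l 0))) (.n 2 (.n 0 (.l 0) (.l 0)) (.n 0 (.l 0) (.l 0))))) [(4123168604160, 274877906944), (65900904448, 11140071424), (34617688064, 2036334592)] rfl (by decide +kernel)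
end

mutual
theorem I0RT_21 : CovD 1 [pRT H BI0] [(4123168604160, 274877906944), (65900904448, 11140071424), (38690357248, 2036334592)] :=
  cov_of (fRT H BI0) (.n 1 (.n 2 (.n 2 (.n 1 (.l 0) (.l 0)) (.n 1 (.l 0) (.l 0))) (.n 2 (.n 1 (.l 0) (.l 0)) (.n 1 (.l 0) (.l 0)))) (.n 2 (.n 2 (.n 0 (.l 0) (.l 0)) (.l 0)) (.n 2 (.l 0) (.l 0)))) [(4123168604160, 274877906944), (65900904448, 11140071424), (38690357248, 2036334592)] rfl (by decide +kernel)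
theorem I0RT_22 : CovD 1 [pRT H BI0] [(4123168604160, 274877906944), (65900904448, 11140071424), (44799361024, 4072669184)] :=
  cov_of (fRT H BI0) (.n 2 (.n 1 (.n 2 (.n 2 (.n 1 (.l 0) (.l 0)) (.n 1 (.l 0) (.l 0))) (.n 2 (.n 1 (.l 0) (.l 0)) (.n 1 (.l 0) (.l 0)))) (.n 2 (.n 2 (.l 0) (.l 0)) (.n 2 (.l 0) (.l 0)))) (.n 1 (.n 2 (.n 2 (.n 1 (.l 0) (.l 0)) (.n 1 (.l 0) (.l 0))) (.n 2 (.n 0 (.l 0) (.l 0)) (.n 0 (.l 0) (.l 0)))) (.n 2 (.n 2 (.l 0) (.l 0)) (.n 2 (.l 0) (.l 0))))) [(4123168604160, 274877906944), (65900904448, 11140071424), (44799361024, 4072669184)] rfl (by decide +kernel)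
end

mutual
theorem I0RT_24 : CovD 1 [pRT H BI0] [(4123168604160, 274877906944), (65900904448, 11140071424), (52944699392, 4072669184)] :=
  cov_of (fRT H BI0) (.n 2 (.n 1 (.n 2 (.n 2 (.n 0 (.l 0) (.l 0)) (.n 0 (.l 0) (.l 0))) (.n 2 (.n 0 (.l 0) (.l 0)) (.l 0))) (.n 2 (.n 2 (.l 0) (.l 0)) (.n 2 (.l 0) (.l 0)))) (.n 1 (.n 2 (.n 2 (.l 0) (.l 0)) (.n 2 (.l 0) (.l 0))) (.n 2 (.n 2 (.l 0) (.l 0)) (.n 2 (.l 0) (.l 0))))) [(4123168604160, 274877906944), (65900904448, 11140071424), (52944699392, 4072669184)] rfl (by decide +kernel)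
theorem I0RT_25 : CovD 1 [pRT H BI0] [(4123168604160, 274877906944), (65900904448, 11140071424), (61090037760, 4072669184)] :=
  cov_of (fRT H BI0) (.n 2 (.n 1 (.n 2 (.n 2 (.l 0) (.l 0)) (.n 2 (.l 0) (.l 0))) (.n 2 (.n 1 (.l 0) (.l 0)) (.n 1 (.l 0) (.l 0)))) (.n 1 (.n 2 (.n 2 (.l 0) (.l 0)) (.n 2 (.l 0) (.l 0))) (.n 2 (.n 1 (.l 0) (.l 0)) (.n 1 (.l 0) (.l 0))))) [(4123168604160, 274877906944), (65900904448, 11140071424), (61090037760, 4072669184)] rfl (by decide +kernel)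
end

mutual
theorem I0RT_29 : CovD 1 [pRT H BI0] [(4123168604160, 274877906944), (65900904448, 11140071424), (69235376128, 4072669184)] :=
  cov_of (fRT H BI0) (.n 2 (.n 2 (.n 1 (.n 2 (.l 0) (.l 0)) (.n 1 (.l 0) (.l 0))) (.n 1 (.n 2 (.l 0) (.l 0)) (.n 0 (.l 0) (.l 0)))) (.n 2 (.n 1 (.n 1 (.l 0) (.l 0)) (.n 0 (.l 0) (.l 0))) (.n 1 (.n 1 (.l 0) (.l 0)) (.n 0 (.l 0) (.l 0))))) [(4123168604160, 274877906944), (65900904448, 11140071424), (69235376128, 4072669184)] rfl (by decide +kernel)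
theorem I0RT_30 : CovD 1 [pRT H BI0] [(4123168604160, 274877906944), (65900904448, 11140071424), (77380714496, 4072669184)] :=
  cov_of (fRT H BI0) (.n 2 (.n 2 (.n 1 (.n 1 (.l 0) (.l 0)) (.l 0)) (.n 1 (.n 0 (.l 0) (.l 0)) (.l 0))) (.n 2 (.n 1 (.n 0 (.l 0) (.l 0)) (.l 0)) (.n 1 (.n 0 (.l 0) (.l 0)) (.l 0)))) [(4123168604160, 274877906944), (65900904448, 11140071424), (77380714496, 4072669184)] rfl (by decide +kernel)
end

end Pool.Agent.helper82.WC.S5K1
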