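import Pool.Agent.helper82.WH.Chks

/-!
Generated: constants of a cell.
-/

namespace Pool.Agent.helper82.WC.S5K1

open Pool.Agent.helper82.WH
open Pool.Agent.helper31.IC (CovD covD_split TD)

def H : HC := ⟨⟨4123168604160, 0⟩, ⟨3949854720, 0⟩, ⟨0, 2017182089216⟩, ⟨0, 1241057656832⟩, ⟨3660557516800, 0⟩, ⟨0, 4442385743872⟩, ⟨1493405204480, 0⟩, ⟨0, 1806162264064⟩, ⟨5478462193664, 0⟩, ⟨0, 28135643283456⟩, ⟨552679374848, 0⟩, ⟨0, 46020231168⟩, ⟨980096909312, 0⟩, ⟨1556564410368, 0⟩, ⟨1018323664896, 0⟩, ⟨0, 378822328320⟩, ⟨0, 808251686912⟩, ⟨0, 2099951173632⟩, ⟨277208694784, 0⟩, ⟨0, 5063117963264⟩, ⟨9322569269248, 0⟩, ⟨1197937590272, 0⟩, ⟨5154471936, 0⟩, ⟨0, 987185414144⟩, ⟨0, 4261609406464⟩, ⟨0, 46420211007488⟩, ⟨0, 0⟩⟩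

def BI0 : BC := ⟨⟨0, 0, 1099511627776, 0⟩, ⟨0, 0⟩, ⟨0, 0⟩, 68368072704, 34887499776, 85490728960, 890114867200, 159428116480, 18555600896, 1699213213696, 1309814030336, ⟨17845589114880, 0⟩, ⟨0, 7756710936576⟩, ⟨1024498663424, 0⟩, ⟨0, 0⟩, ⟨0, 0⟩⟩

def BI1 : BC := ⟨⟨0, 0, 1099511627776, 0⟩, ⟨0, 0⟩, ⟨0, 0⟩, 61880860672, 33736949760, 137847767040, 835315957760, 159428116480, 26407337984, 2027090345984, 1216163610624, ⟨8246337208320, 0⟩, ⟨0, 4917737553920⟩, ⟨1030315114496, 0⟩, ⟨0, 0⟩, ⟨0, 0⟩⟩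

def BI2 : BC := ⟨⟨0, 0, 1099511627776, 0⟩, ⟨0, 0⟩, ⟨0, 0⟩, 57194446848, 31707299840, 178719031296, 772744937472, 159428116480, 44073746432, 2575654977536, 1172878393344, ⟨4831838208000, 0⟩, ⟨0, 4032974290944⟩, ⟨1034443554816, 0⟩, ⟨0, 0⟩, ⟨0, 0⟩⟩

def BI3 : BC := ⟨⟨0, 0, 1099511627776, 0⟩, ⟨0, 0⟩, ⟨0, 0⟩, 42404741120, 30061428736, 137312862208, 823058628608, 159428116480, 45986349056, 2621423222784, 1039935733760, ⟨3388729196544, 0⟩, ⟨0, 3435973836800⟩, ⟨1049840254976, 0⟩, ⟨0, 0⟩, ⟨0, 0⟩⟩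

def BR0 : BC := ⟨⟨0, 0, 0, 0⟩, ⟨137438953472, 0⟩, ⟨1099511627776, 0⟩, 174864924672, 70344638464, 132444585984, 716190318592, 159428116480, 1577058304, 319001985024, 1311005212672, ⟨0, 0⟩, ⟨0, 0⟩, ⟨917100363776, 0⟩, ⟨0, 0⟩, ⟨0, 0⟩⟩

def BP : BC := ⟨⟨0, 0, 0, 0⟩, ⟨137438953472, 0⟩, ⟨1099511627776, 0⟩, 112247570432, 53399257088, 86492184576, 616812576768, 115447627776, 1543503872, 315612987392, 1309713367040, ⟨0, 0⟩, ⟨0, 0⟩, ⟨418877341696, 0⟩, ⟨0, 0⟩, ⟨1099511627776, 0⟩⟩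

def BM : BC := ⟨⟨0, 0, 0, 0⟩, ⟨137438953472, 0⟩, ⟨1099511627776, 0⟩, 107277254656, 52334690304, 82917392384, 626162139136, 115447627776, 1577058304, 319001985024, 1311005212672, ⟨0, 0⟩, ⟨0, 0⟩, ⟨422815268864, 0⟩, ⟨0, 0⟩, ⟨0, 1099511627776⟩⟩

def BT : BC := ⟨⟨0, 0, 1099511627776, 0⟩, ⟨0, 0⟩, ⟨0, 0⟩, 52977467392, 32880787456, 121882804224, 824955502592, 159428116480, 45986349056, 2621423222784, 1011078922240, ⟨3315714752512, 0⟩, ⟨0, 3362959392768⟩, ⟨1039453323264, 0⟩, ⟨1099511627776, 0⟩, ⟨0, 0⟩⟩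

end Pool.Agent.helper82.WC.S5K1
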