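import Pool.Agent.helper82.WC.S5K2P

/-!
Generated certificates (in pairs, so that they are checked one after the other).
-/

namespace Pool.Agent.helper82.WC.S5K2

open Pool.Agent.helper82.WH
open Pool.Agent.helper31.IC (CovD covD_split TD)

mutual
theorem I0RT_34 : CovD 1 [pRT H BI0] [(4123168604160, 274877906944), (93549756416, 16508780544), (151515037696, 13774094336)] :=
  cov_of (fRT H BI0) (.n 2 (.n 2 (.n 2 (.n 1 (.l 0) (.l 0)) (.n 1 (.l 0) (.l 0))) (.n 2 (.n 1 (.l 0) (.l 0)) (.n 1 (.l 0) (.l 0)))) (.n 2 (.n 2 (.n 1 (.l 0) (.l 0)) (.n 1 (.n 0 (.l 0) (.l 0)) (.n 0 (.l 0) (.l 0)))) (.n 2 (.n 1 (.n 0 (.l 0) (.l 0)) (.n 0 (.l 0) (.l 0))) (.n 0 (.l 0) (.n 1 (.l 0) (.l 0)))))) [(4123168604160, 274877906944), (93549756416, 16508780544), (151515037696, 13774094336)] rfl (by decide +kernel)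
theorem I0RT_36 : CovD 1 [pRT H BI0] [(4123168604160, 274877906944), (93549756416, 16508780544), (179063226368, 13774094336)] :=
  cov_of (fRT H BI0) (.n 2 (.n 2 (.n 2 (.n 0 (.l 0) (.n 1 (.l 0) (.l 0))) (.n 0 (.l 0) (.n 1 (.l 0) (.l 0)))) (.n 2 (.n 0 (.l 0) (.n 1 (.l 0) (.l 0))) (.n 0 (.l 0) (.n 1 (.l 0) (.l 0))))) (.n 2 (.n 2 (.n 0 (.l 0) (.n 1 (.l 0) (.l 0))) (.n 0 (.l 0) (.n 1 (.l 0) (.l 0)))) (.n 2 (.n 0 (.l 0) (.n 1 (.l 0) (.l 0))) (.n 0 (.l 0) (.n 1 (.l 0) (.l 0)))))) [(4123168604160, 274877906944), (93549756416, 16508780544), (179063226368, 13774094336)] rfl (by decide +kernel)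
end

mutual
theorem I0RT_37 : CovD 1 [pRT H BI0] [(4123168604160, 274877906944), (93549756416, 16508780544), (206611415040, 13774094336)] :=
  cov_of (fRT H BI0) (.n 2 (.n 2 (.n 2 (.n 0 (.l 0) (.n 1 (.l 0) (.l 0))) (.n 0 (.l 0) (.n 1 (.l 0) (.l 0)))) (.n 2 (.n 0 (.l 0) (.n 1 (.l 0) (.l 0))) (.n 0 (.l 0) (.n 1 (.l 0) (.l 0))))) (.n 2 (.n 2 (.n 0 (.l 0) (.n 1 (.l 0) (.l 0))) (.n 0 (.l 0) (.n 0 (.l 0) (.l 0)))) (.n 2 (.n 0 (.l 0) (.n 0 (.l 0) (.l 0))) (.n 0 (.l 0) (.n 0 (.l 0) (.l 0)))))) [(4123168604160, 274877906944), (93549756416, 16508780544), (206611415040, 13774094336)] rfl (by decide +kernel)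
theorem I1AD_1 : CovD 0 [pAD H BI1] [(4123168604160, 274877906944), (93549756416, 16508780544), (232934866944, 12549357568)] :=
  cov_of (fAD H BI1) (.n 0 (.n 0 (.n 2 (.n 0 (.l 0) (.l 0)) (.n 0 (.l 0) (.l 0))) (.n 2 (.n 0 (.l 0) (.l 0)) (.n 0 (.l 0) (.l 0)))) (.n 2 (.n 0 (.n 0 (.l 0) (.l 0)) (.n 0 (.l 0) (.l 0))) (.n 0 (.n 0 (.l 0) (.l 0)) (.n 0 (.l 0) (.l 0))))) [(4123168604160, 274877906944), (93549756416, 16508780544), (232934866944, 12549357568)] rfl (by decide +kernel)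
end

mutual
theorem I1AD_2 : CovD 0 [pAD H BI1] [(4123168604160, 274877906944), (93549756416, 16508780544), (258033582080, 12549357568)] :=
  cov_of (fAD H BI1) (.n 0 (.n 0 (.n 2 (.n 0 (.l 0) (.l 0)) (.l 0)) (.n 2 (.n 0 (.l 0) (.l 0)) (.l 0))) (.n 2 (.n 0 (.n 0 (.l 0) (.l 0)) (.n 0 (.l 0) (.l 0))) (.n 0 (.n 0 (.l 0) (.l 0)) (.n 0 (.l 0) (.l 0))))) [(4123168604160, 274877906944), (93549756416, 16508780544), (258033582080, 12549357568)] rfl (by decide +kernel)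
theorem I1AD_3 : CovD 0 [pAD H BI1] [(4123168604160, 274877906944), (93549756416, 16508780544), (295681654784, 25098715136)] :=
  cov_of (fAD H BI1) (.n 2 (.n 0 (.n 0 (.n 2 (.l 0) (.l 0)) (.n 2 (.l 0) (.l 0))) (.n 0 (.n 2 (.l 0) (.l 0)) (.n 2 (.l 0) (.l 0)))) (.n 0 (.n 0 (.n 2 (.l 0) (.l 0)) (.n 0 (.l 0) (.l 0))) (.n 0 (.n 1 (.l 0) (.l 0)) (.n 1 (.l 0) (.l 0))))) [(4123168604160, 274877906944), (93549756416, 16508780544), (295681654784, 25098715136)] rfl (by decide +kernel)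
end

mutual
theorem I1G : CovD 1 [pG H BI1] [(4123168604160, 274877906944), (93549756416, 16508780544), (270582939648, 50197430272)] :=
  cov_of (fG H BI1) (.n 2 (.n 2 (.l 0) (.n 0 (.l 0) (.l 0))) (.n 2 (.n 0 (.l 0) (.n 2 (.l 0) (.l 0))) (.n 0 (.n 2 (.l 0) (.n 0 (.l 0) (.l 0))) (.n 2 (.n 0 (.l 0) (.l 0)) (.n 0 (.n 0 (.l 0) (.l 0)) (.n 2 (.l 0) (.n 0 (.l 0) (.l 0)))))))) [(4123168604160, 274877906944), (93549756416, 16508780544), (270582939648, 50197430272)] rfl (by decide +kernel)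
theorem I1RT_2 : CovD 1 [pRT H BI1] [(4123168604160, 274877906944), (93549756416, 16508780544), (226660188160, 6274678784)] :=
  cov_of (fRT H BI1) (.n 2 (.n 1 (.n 0 (.l 0) (.n 0 (.l 0) (.n 0 (.l 0) (.l 0)))) (.n 0 (.l 0) (.n 0 (.l 0) (.l 0)))) (.n 1 (.n 0 (.l 0) (.n 0 (.l 0) (.n 0 (.l 0) (.l 0)))) (.n 0 (.l 0) (.n 0 (.l 0) (.l 0))))) [(4123168604160, 274877906944), (93549756416, 16508780544), (226660188160, 6274678784)] rfl (by decide +kernel)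
end

mutual
theorem I1RT_3 : CovD 1 [pRT H BI1] [(4123168604160, 274877906944), (93549756416, 16508780544), (239209545728, 6274678784)] :=
  cov_of (fRT H BI1) (.n 2 (.n 1 (.n 0 (.l 0) (.n 0 (.l 0) (.l 0))) (.n 0 (.l 0) (.n 0 (.l 0) (.l 0)))) (.n 0 (.n 0 (.l 0) (.l 0)) (.n 1 (.n 0 (.l 0) (.l 0)) (.n 0 (.l 0) (.l 0))))) [(4123168604160, 274877906944), (93549756416, 16508780544), (239209545728, 6274678784)] rfl (by decide +kernel)
theorem I1RT_4 : CovD 1 [pRT H BI1] [(4123168604160, 274877906944), (93549756416, 16508780544), (258033582080, 12549357568)] :=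
  cov_of (fRT H BI1) (.n 2 (.n 2 (.n 0 (.n 0 (.l 0) (.l 0)) (.n 1 (.n 0 (.l 0) (.l 0)) (.n 0 (.l 0) (.l 0)))) (.n 0 (.n 0 (.l 0) (.l 0)) (.n 1 (.n 0 (.l 0) (.l 0)) (.n 0 (.l 0) (.l 0))))) (.n 2 (.n 0 (.n 0 (.l 0) (.l 0)) (.n 1 (.n 0 (.l 0) (.l 0)) (.l 0))) (.n 0 (.n 0 (.l 0) (.l 0)) (.n 1 (.n 0 (.l 0) (.l 0)) (.l 0))))) [(4123168604160, 274877906944), (93549756416, 16508780544), (258033582080, 12549357568)] rfl (by decide +kernel)
end

mutual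
theorem I1RT_6 : CovD 1 [pRT H BI1] [(4123168604160, 274877906944), (93549756416, 16508780544), (283132297216, 12549357568)] :=
  cov_of (fRT H BI1) (.n 2 (.n 2 (.n 0 (.n 0 (.l 0) (.l 0)) (.n 1 (.n 0 (.l 0) (.l 0)) (.l 0))) (.n 0 (.n 0 (.l 0) (.l 0)) (.n 1 (.n 0 (.l 0) (.l 0)) (.l 0)))) (.n 2 (.n 0 (.n 0 (.l 0) (.l 0)) (.n 0 (.l 0) (.n 0 (.l 0) (.l 0)))) (.n 0 (.n 0 (.l 0) (.l 0)) (.n 0 (.l 0) (.n 0 (.l 0) (.l 0)))))) [(4123168604160, 274877906944), (93549756416, 16508780544), (283132297216, 12549357568)] rfl (by decide +kernel)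
theorem I1RT_7 : CovD 1 [pRT H BI1] [(4123168604160, 274877906944), (93549756416, 16508780544), (308231012352, 12549357568)] :=
  cov_of (fRT H BI1) (.n 2 (.n 2 (.n 0 (.n 0 (.l 0) (.l 0)) (.n 0 (.l 0) (.n 0 (.l 0) (.l 0)))) (.n 0 (.n 0 (.l 0) (.l 0)) (.n 0 (.l 0) (.n 0 (.l 0) (.l 0))))) (.n 2 (.n 0 (.n 0 (.l 0) (.l 0)) (.n 0 (.l 0) (.n 0 (.l 0) (.l 0)))) (.n 0 (.n 0 (.l 0) (.l 0)) (.n 1 (.n 0 (.l 0) (.l 0)) (.l 0))))) [(4123168604160, 274877906944), (93549756416, 16508780544), (308231012352, 12549357568)] rfl (by decide +kernel)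
end

mutual
theorem I2AD_0 : CovD 0 [pAD H BI2] [(4123168604160, 274877906944), (93549756416, 16508780544), (355811196928, 35030827008)] :=
  cov_of (fAD H BI2) (.n 2 (.n 0 (.n 2 (.n 0 (.n 0 (.l 0) (.l 0)) (.l 0)) (.n 0 (.l 0) (.l 0))) (.n 2 (.n 0 (.l 0) (.l 0)) (.n 0 (.l 0) (.l 0)))) (.n 0 (.n 2 (.n 0 (.l 0) (.l 0)) (.n 0 (.l 0) (.l 0))) (.n 2 (.n 0 (.l 0) (.l 0)) (.n 0 (.l 0) (.l 0))))) [(4123168604160, 274877906944), (93549756416, 16508780544), (355811196928, 35030827008)] rfl (by decide +kernel)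
theorem I2AD_1 : CovD 0 [pAD H BI2] [(4123168604160, 274877906944), (93549756416, 16508780544), (425872850944, 35030827008)] :=
  cov_of (fAD H BI2) (.n 2 (.n 0 (.n 2 (.n 0 (.l 0) (.l 0)) (.n 0 (.l 0) (.l 0))) (.n 2 (.n 0 (.l 0) (.l 0)) (.n 0 (.l 0) (.l 0)))) (.n 0 (.n 2 (.n 0 (.n 0 (.l 0) (.l 0)) (.l 0)) (.n 0 (.n 0 (.l 0) (.l 0)) (.n 0 (.l 0) (.l 0)))) (.n 2 (.n 0 (.l 0) (.n 0 (.l 0) (.l 0))) (.n 0 (.n 0 (.l 0) (.l 0)) (.n 0 (.l 0) (.l 0)))))) [(4123168604160, 274877906944), (93549756416, 16508780544), (425872850944, 35030827008)] rfl (by decide +kernel)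
end

mutual
theorem I2G_0 : CovD 1 [pG H BI2] [(4123168604160, 274877906944), (93549756416, 16508780544), (355811196928, 35030827008)] :=
  cov_of (fG H BI2) (.n 2 (.n 0 (.n 2 (.l 0) (.l 0)) (.n 2 (.n 0 (.l 0) (.l 0)) (.n 2 (.l 0) (.n 0 (.l 0) (.l 0))))) (.n 0 (.n 2 (.n 0 (.l 0) (.l 0)) (.n 0 (.l 0) (.l 0))) (.n 2 (.n 0 (.l 0) (.n 2 (.l 0) (.l 0))) (.n 0 (.n 0 (.l 0) (.l 0)) (.n 2 (.l 0) (.l 0)))))) [(4123168604160, 274877906944), (93549756416, 16508780544), (355811196928, 35030827008)] rfl (by decide +kernel)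
theorem I2G_1 : CovD 1 [pG H BI2] [(4123168604160, 274877906944), (93549756416, 16508780544), (425872850944, 35030827008)] :=
  cov_of (fG H BI2) (.n 2 (.n 0 (.n 2 (.n 0 (.l 0) (.l 0)) (.n 0 (.l 0) (.l 0))) (.n 2 (.n 0 (.n 0 (.l 0) (.l 0)) (.n 2 (.l 0) (.l 0))) (.n 0 (.l 0) (.n 2 (.l 0) (.l 0))))) (.n 2 (.n 0 (.l 0) (.n 0 (.l 0) (.n 2 (.l 0) (.l 0)))) (.n 0 (.l 0) (.n 2 (.n 0 (.l 0) (.l 0)) (.l 0))))) [(4123168604160, 274877906944), (93549756416, 16508780544), (425872850944, 35030827008)] rfl (by decide +kernel)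
end

mutual
theorem I2RT_2 : CovD 1 [pRT H BI2] [(4123168604160, 274877906944), (93549756416, 16508780544), (329538076672, 8757706752)] :=
  cov_of (fRT H BI2) (.n 2 (.n 0 (.n 0 (.n 0 (.l 0) (.l 0)) (.n 1 (.l 0) (.l 0))) (.n 0 (.n 1 (.n 0 (.l 0) (.l 0)) (.l 0)) (.n 1 (.n 2 (.n 0 (.l 0) (.l 0)) (.l 0)) (.n 0 (.l 0) (.l 0))))) (.n 0 (.n 0 (.n 0 (.l 0) (.l 0)) (.n 0 (.l 0) (.l 0))) (.n 0 (.n 1 (.n 0 (.l 0) (.l 0)) (.l 0)) (.n 1 (.n 0 (.l 0) (.l 0)) (.n 0 (.l 0) (.l 0)))))) [(4123168604160, 274877906944), (93549756416, 16508780544), (329538076672, 8757706752)] rfl (by decide +kernel)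
theorem I2RT_3 : CovD 1 [pRT H BI2] [(4123168604160, 274877906944), (93549756416, 16508780544), (347053490176, 8757706752)] :=
  cov_of (fRT H BI2) (.n 2 (.n 0 (.n 0 (.l 0) (.n 0 (.l 0) (.l 0))) (.n 0 (.n 1 (.l 0) (.l 0)) (.n 1 (.n 0 (.l 0) (.l 0)) (.l 0)))) (.n 0 (.n 0 (.l 0) (.n 0 (.l 0) (.l 0))) (.n 0 (.n 0 (.l 0) (.l 0)) (.n 1 (.n 0 (.l 0) (.l 0)) (.l 0))))) [(4123168604160, 274877906944), (93549756416, 16508780544), (347053490176, 8757706752)] rfl (by decide +kernel)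
end

mutual
theorem I2RT_4 : CovD 1 [pRT H BI2] [(4123168604160, 274877906944), (93549756416, 16508780544), (373326610432, 17515413504)] :=
  cov_of (fRT H BI2) (.n 2 (.n 2 (.n 0 (.n 0 (.l 0) (.l 0)) (.n 0 (.n 0 (.l 0) (.l 0)) (.n 1 (.l 0) (.l 0)))) (.n 0 (.n 0 (.l 0) (.l 0)) (.n 0 (.n 0 (.l 0) (.l 0)) (.n 0 (.l 0) (.l 0))))) (.n 2 (.n 0 (.n 0 (.l 0) (.l 0)) (.n 0 (.l 0) (.n 0 (.l 0) (.l 0)))) (.n 0 (.n 0 (.l 0) (.l 0)) (.n 0 (.l 0) (.l 0))))) [(4123168604160, 274877906944), (93549756416, 16508780544), (373326610432, 17515413504)] rfl (by decide +kernel)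
theorem I2RT_6 : CovD 1 [pRT H BI2] [(4123168604160, 274877906944), (93549756416, 16508780544), (408357437440, 17515413504)] :=
  cov_of (fRT H BI2) (.n 2 (.n 0 (.n 0 (.l 0) (.n 0 (.l 0) (.l 0))) (.n 2 (.n 0 (.l 0) (.l 0)) (.n 0 (.l 0) (.l 0)))) (.n 0 (.n 0 (.l 0) (.n 0 (.l 0) (.l 0))) (.n 2 (.n 0 (.l 0) (.l 0)) (.n 0 (.l 0) (.l 0))))) [(4123168604160, 274877906944), (93549756416, 16508780544), (408357437440, 17515413504)] rfl (by decide +kernel)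
end

mutual
theorem I2RT_7 : CovD 1 [pRT H BI2] [(4123168604160, 274877906944), (93549756416, 16508780544), (443388264448, 17515413504)] :=
  cov_of (fRT H BI2) (.n 2 (.n 0 (.n 0 (.l 0) (.n 0 (.l 0) (.l 0))) (.n 2 (.n 0 (.l 0) (.l 0)) (.n 0 (.l 0) (.l 0)))) (.n 0 (.n 2 (.n 0 (.l 0) (.l 0)) (.n 0 (.l 0) (.l 0))) (.n 2 (.n 0 (.l 0) (.n 0 (.l 0) (.l 0))) (.n 0 (.n 0 (.l 0) (.l 0)) (.n 1 (.l 0) (.l 0)))))) [(4123168604160, 274877906944), (93549756416, 16508780544), (443388264448, 17515413504)] rfl (by decide +kernel)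
theorem I3AD : CovD 0 [pAD H BI3] [(4123168604160, 274877906944), (93549756416, 16508780544), (470970007552, 10066329600)] :=
  cov_of (fAD H BI3) (.n 0 (.n 0 (.n 2 (.l 0) (.n 0 (.l 0) (.l 0))) (.n 2 (.l 0) (.n 0 (.l 0) (.l 0)))) (.n 0 (.n 2 (.l 0) (.n 0 (.l 0) (.l 0))) (.n 2 (.l 0) (.n 0 (.l 0) (.l 0))))) [(4123168604160, 274877906944), (93549756416, 16508780544), (470970007552, 10066329600)] rfl (by decide +kernel)
end

mutual
theorem I3G : CovD 1 [pG H BI3] [(4123168604160, 274877906944), (93549756416, 16508780544), (470970007552, 10066329600)] :=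
  cov_of (fG H BI3) (.n 0 (.n 2 (.l 0) (.l 0)) (.n 2 (.n 0 (.l 0) (.n 2 (.l 0) (.l 0))) (.n 0 (.l 0) (.l 0)))) [(4123168604160, 274877906944), (93549756416, 16508780544), (470970007552, 10066329600)] rfl (by decide +kernel)
theorem I3RT : CovD 1 [pRT H BI3] [(4123168604160, 274877906944), (93549756416, 16508780544), (470970007552, 10066329600)] :=
  cov_of (fRT H BI3) (.n 0 (.n 2 (.n 0 (.l 0) (.n 0 (.l 0) (.l 0))) (.n 0 (.n 1 (.l 0) (.l 0)) (.n 2 (.l 0) (.n 0 (.l 0) (.l 0))))) (.n 2 (.n 0 (.n 1 (.l 0) (.l 0)) (.n 2 (.n 0 (.l 0) (.l 0)) (.n 0 (.l 0) (.l 0)))) (.n 0 (.n 2 (.n 0 (.l 0) (.l 0)) (.n 1 (.l 0) (.l 0))) (.n 2 (.n 1 (.l 0) (.l 0)) (.n 1 (.n 0 (.l 0) (.l 0)) (.n 0 (.l 0) (.l 0))))))) [(4123168604160, 274877906944), (93549756416, 16508780544), (470970007552, 10066329600)] rfl (by decide +kernel)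
end

mutual
theorem R0AD : CovD 0 [pAD H BR0] [(4123168604160, 274877906944), (93549756416, 16508780544), (1099511627776, 1099511627776)] :=
  cov_of (fAD H BR0) (.n 1 (.n 1 (.n 0 (.l 0) (.l 0)) (.n 2 (.l 0) (.l 0))) (.n 0 (.l 0) (.l 0))) [(4123168604160, 274877906944), (93549756416, 16508780544), (1099511627776, 1099511627776)] rfl (by decide +kernel)
theorem R0G : CovD 1 [pG H BR0] [(4123168604160, 274877906944), (93549756416, 16508780544), (1099511627776, 1099511627776)] :=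
  cov_of (fG H BR0) (.l 0) [(4123168604160, 274877906944), (93549756416, 16508780544), (1099511627776, 1099511627776)] rfl (by decide +kernel)
end

mutual
theorem R0RT : CovD 1 [pRT H BR0] [(4123168604160, 274877906944), (93549756416, 16508780544), (1099511627776, 1099511627776)] :=
  cov_of (fRT H BR0) (.n 1 (.n 1 (.n 1 (.l 0) (.l 0)) (.n 1 (.l 0) (.l 0))) (.n 2 (.n 1 (.n 1 (.l 0) (.l 0)) (.n 2 (.l 0) (.l 0))) (.l 0))) [(4123168604160, 274877906944), (93549756416, 16508780544), (1099511627776, 1099511627776)] rfl (by decide +kernel)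
theorem R0RS : CovD 1 [pRS H BR0] [(4123168604160, 274877906944), (93549756416, 16508780544), (1099511627776, 1099511627776)] :=
  cov_of (fRS H BR0) (.l 0) [(4123168604160, 274877906944), (93549756416, 16508780544), (1099511627776, 1099511627776)] rfl (by decide +kernel)
end

mutual
theorem PAD : CovD 0 [pAD H BP] [(4123168604160, 274877906944), (93549756416, 16508780544), (2199023255552, 0)] :=
  cov_of (fAD H BP) (.n 1 (.n 0 (.n 0 (.l 0) (.l 0)) (.n 0 (.l 0) (.l 0))) (.n 0 (.l 0) (.l 0))) [(4123168604160, 274877906944), (93549756416, 16508780544), (2199023255552, 0)] rfl (by decide +kernel)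
theorem PG : CovD 1 [pG H BP] [(4123168604160, 274877906944), (93549756416, 16508780544), (2199023255552, 0)] :=
  cov_of (fG H BP) (.l 0) [(4123168604160, 274877906944), (93549756416, 16508780544), (2199023255552, 0)] rfl (by decide +kernel)
end

mutual
theorem PRT : CovD 1 [pRT H BP] [(4123168604160, 274877906944), (93549756416, 16508780544), (2199023255552, 0)] :=
  cov_of (fRT H BP) (.n 1 (.l 0) (.l 0)) [(4123168604160, 274877906944), (93549756416, 16508780544), (2199023255552, 0)] rfl (by decide +kernel)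
theorem PTT : CovD 1 [pTT H BP] [(4123168604160, 274877906944), (93549756416, 16508780544), (2199023255552, 0)] :=
  cov_of (fTT H BP) (.n 1 (.n 1 (.n 0 (.n 1 (.n 0 (.l 0) (.l 0)) (.n 0 (.l 0) (.l 0))) (.n 1 (.n 0 (.l 0) (.l 0)) (.n 0 (.l 0) (.l 0)))) (.n 0 (.n 1 (.n 0 (.l 0) (.l 0)) (.n 0 (.l 0) (.l 0))) (.n 1 (.n 0 (.l 0) (.l 0)) (.n 0 (.l 0) (.l 0))))) (.n 1 (.n 0 (.n 1 (.l 0) (.l 0)) (.n 1 (.l 0) (.l 0))) (.n 0 (.n 1 (.l 0) (.l 0)) (.n 1 (.l 0) (.l 0))))) [(4123168604160, 274877906944), (93549756416, 16508780544), (2199023255552, 0)] rfl (by decide +kernel)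
end

mutual
theorem MAD : CovD 0 [pAD H BM] [(4123168604160, 274877906944), (93549756416, 16508780544), (0, 0)] :=
  cov_of (fAD H BM) (.n 1 (.n 0 (.n 0 (.l 0) (.l 0)) (.n 0 (.l 0) (.l 0))) (.n 0 (.l 0) (.l 0))) [(4123168604160, 274877906944), (93549756416, 16508780544), (0, 0)] rfl (by decide +kernel)
theorem MG : CovD 1 [pG H BM] [(4123168604160, 274877906944), (93549756416, 16508780544), (0, 0)] :=
  cov_of (fG H BM) (.l 0) [(4123168604160, 274877906944), (93549756416, 16508780544), (0, 0)] rfl (by decide +kernel)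
theorem MRT : CovD 1 [pRT H BM] [(4123168604160, 274877906944), (93549756416, 16508780544), (0, 0)] :=
  cov_of (fRT H BM) (.n 1 (.n 1 (.n 1 (.l 0) (.l 0)) (.n 0 (.l 0) (.l 0))) (.n 1 (.l 0) (.l 0))) [(4123168604160, 274877906944), (93549756416, 16508780544), (0, 0)] rfl (by decide +kernel)
end

end Pool.Agent.helper82.WC.S5K2
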