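import Pool.Agent.helper82.WC.S5K2P

/-!
Generated certificates (in pairs, so that they are checked one after the other).
-/

namespace Pool.Agent.helper82.WC.S5K2

open Pool.Agent.helper82.WH
open Pool.Agent.helper31.IC (CovD covD_split TD)

mutual
theorem MTT_0 : CovD 1 [pTT H BM] [(4123168604160, 274877906944), (85295366144, 8254390272), (0, 0)] :=
  cov_of (fTT H BM) (.n 1 (.n 0 (.n 1 (.n 1 (.l 0) (.l 0)) (.n 1 (.l 0) (.l 0))) (.n 1 (.n 1 (.l 0) (.l 0)) (.n 1 (.l 0) (.l 0)))) (.n 0 (.n 1 (.n 1 (.l 0) (.l 0)) (.n 0 (.l 0) (.l 0))) (.n 1 (.n 1 (.l 0) (.l 0)) (.n 0 (.l 0) (.l 0))))) [(4123168604160, 274877906944), (85295366144, 8254390272), (0, 0)] rfl (by decide +kernel)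
theorem MTT_1 : CovD 1 [pTT H BM] [(4123168604160, 274877906944), (101804146688, 8254390272), (0, 0)] :=
  cov_of (fTT H BM) (.n 1 (.n 0 (.n 1 (.n 0 (.l 0) (.l 0)) (.n 0 (.l 0) (.l 0))) (.n 1 (.n 0 (.l 0) (.l 0)) (.n 0 (.l 0) (.l 0)))) (.n 0 (.n 1 (.n 0 (.l 0) (.l 0)) (.n 0 (.l 0) (.l 0))) (.n 1 (.n 0 (.l 0) (.l 0)) (.n 0 (.l 0) (.l 0))))) [(4123168604160, 274877906944), (101804146688, 8254390272), (0, 0)] rfl (by decide +kernel)
end

mutual
theorem TAD : CovD 0 [pAD H BT] [(4123168604160, 274877906944), (93549756416, 16508780544), (481036337152, 0)] :=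
  cov_of (fAD H BT) (.n 0 (.n 0 (.l 0) (.l 0)) (.n 0 (.l 0) (.l 0))) [(4123168604160, 274877906944), (93549756416, 16508780544), (481036337152, 0)] rfl (by decide +kernel)
theorem TG : CovD 1 [pG H BT] [(4123168604160, 274877906944), (93549756416, 16508780544), (481036337152, 0)] :=
  cov_of (fG H BT) (.n 0 (.l 0) (.l 0)) [(4123168604160, 274877906944), (93549756416, 16508780544), (481036337152, 0)] rfl (by decide +kernel)
end

mutual
theorem TRT : CovD 1 [pRT H BT] [(4123168604160, 274877906944), (93549756416, 16508780544), (481036337152, 0)] :=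
  cov_of (fRT H BT) (.n 0 (.n 0 (.l 0) (.l 0)) (.n 0 (.n 0 (.l 0) (.l 0)) (.n 0 (.l 0) (.l 0)))) [(4123168604160, 274877906944), (93549756416, 16508780544), (481036337152, 0)] rfl (by decide +kernel)
theorem TTT : CovD 1 [pTT H BT] [(4123168604160, 274877906944), (93549756416, 16508780544), (481036337152, 0)] :=
  cov_of (fTT H BT) (.n 0 (.l 0) (.l 0)) [(4123168604160, 274877906944), (93549756416, 16508780544), (481036337152, 0)] rfl (by decide +kernel)
end

end Pool.Agent.helper82.WC.S5K2
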