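import Pool.Agent.helper82.WC.S5K2C0
import Pool.Agent.helper82.WC.S5K2C1
import Pool.Agent.helper82.WC.S5K2C2

/-!
Generated certificates, assembled.
-/

namespace Pool.Agent.helper82.WC.S5K2

open Pool.Agent.helper82.WH
open Pool.Agent.helper31.IC (CovD covD_split TD)

theorem I0AD_1 : CovD 0 [pAD H BI0] [(4123168604160, 274877906944), (93549756416, 16508780544), (27548188672, 27548188672)] :=
  covD_split 2 (by decide +kernel) I0AD_2 I0AD_3
theorem I0AD_4 : CovD 0 [pAD H BI0] [(4123168604160, 274877906944), (93549756416, 16508780544), (82644566016, 27548188672)] :=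
  covD_split 2 (by decide +kernel) I0AD_5 I0AD_6
theorem I0AD_0 : CovD 0 [pAD H BI0] [(4123168604160, 274877906944), (93549756416, 16508780544), (55096377344, 55096377344)] :=
  covD_split 2 (by decide +kernel) I0AD_1 I0AD_4
theorem I0AD_8 : CovD 0 [pAD H BI0] [(4123168604160, 274877906944), (93549756416, 16508780544), (137740943360, 27548188672)] :=
  covD_split 2 (by decide +kernel) I0AD_9 I0AD_10
theorem I0AD_11 : CovD 0 [pAD H BI0] [(4123168604160, 274877906944), (93549756416, 16508780544), (192837320704, 27548188672)] :=
  covD_split 2 (by decide +kernel) I0AD_12 I0AD_13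
theorem I0AD_7 : CovD 0 [pAD H BI0] [(4123168604160, 274877906944), (93549756416, 16508780544), (165289132032, 55096377344)] :=
  covD_split 2 (by decide +kernel) I0AD_8 I0AD_11
theorem I0AD : CovD 0 [pAD H BI0] [(4123168604160, 274877906944), (93549756416, 16508780544), (110192754688, 110192754688)] :=
  covD_split 2 (by decide +kernel) I0AD_0 I0AD_7
theorem I0RT_3 : CovD 1 [pRT H BI0] [(4123168604160, 274877906944), (93549756416, 16508780544), (6887047168, 6887047168)] :=
  covD_split 2 (by decide +kernel) I0RT_4 I0RT_5
theorem I0RT_6 : CovD 1 [pRT H BI0] [(4123168604160, 274877906944), (93549756416, 16508780544), (20661141504, 6887047168)] :=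
  covD_split 2 (by decide +kernel) I0RT_7 I0RT_8
theorem I0RT_2 : CovD 1 [pRT H BI0] [(4123168604160, 274877906944), (93549756416, 16508780544), (13774094336, 13774094336)] :=
  covD_split 2 (by decide +kernel) I0RT_3 I0RT_6
theorem I0RT_10 : CovD 1 [pRT H BI0] [(4123168604160, 274877906944), (93549756416, 16508780544), (34435235840, 6887047168)] :=
  covD_split 2 (by decide +kernel) I0RT_11 I0RT_12
theorem I0RT_13 : CovD 1 [pRT H BI0] [(4123168604160, 274877906944), (93549756416, 16508780544), (48209330176, 6887047168)] :=
  covD_split 2 (by decide +kernel) I0RT_14 I0RT_15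
theorem I0RT_9 : CovD 1 [pRT H BI0] [(4123168604160, 274877906944), (93549756416, 16508780544), (41322283008, 13774094336)] :=
  covD_split 2 (by decide +kernel) I0RT_10 I0RT_13
theorem I0RT_1 : CovD 1 [pRT H BI0] [(4123168604160, 274877906944), (93549756416, 16508780544), (27548188672, 27548188672)] :=
  covD_split 2 (by decide +kernel) I0RT_2 I0RT_9
theorem I0RT_18 : CovD 1 [pRT H BI0] [(4123168604160, 274877906944), (93549756416, 16508780544), (61983424512, 6887047168)] :=
  covD_split 2 (by decide +kernel) I0RT_19 I0RT_20
theorem I0RT_21 : CovD 1 [pRT H BI0] [(4123168604160, 274877906944), (93549756416, 16508780544), (75757518848, 6887047168)] :=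
  covD_split 2 (by decide +kernel) I0RT_22 I0RT_23
theorem I0RT_17 : CovD 1 [pRT H BI0] [(4123168604160, 274877906944), (93549756416, 16508780544), (68870471680, 13774094336)] :=
  covD_split 2 (by decide +kernel) I0RT_18 I0RT_21
theorem I0RT_25 : CovD 1 [pRT H BI0] [(4123168604160, 274877906944), (93549756416, 16508780544), (89531613184, 6887047168)] :=
  covD_split 2 (by decide +kernel) I0RT_26 I0RT_27
theorem I0RT_24 : CovD 1 [pRT H BI0] [(4123168604160, 274877906944), (93549756416, 16508780544), (96418660352, 13774094336)] :=
  covD_split 2 (by decide +kernel) I0RT_25 I0RT_28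
theorem I0RT_16 : CovD 1 [pRT H BI0] [(4123168604160, 274877906944), (93549756416, 16508780544), (82644566016, 27548188672)] :=
  covD_split 2 (by decide +kernel) I0RT_17 I0RT_24
theorem I0RT_0 : CovD 1 [pRT H BI0] [(4123168604160, 274877906944), (93549756416, 16508780544), (55096377344, 55096377344)] :=
  covD_split 2 (by decide +kernel) I0RT_1 I0RT_16
theorem I0RT_31 : CovD 1 [pRT H BI0] [(4123168604160, 274877906944), (93549756416, 16508780544), (123966849024, 13774094336)] :=
  covD_split 2 (by decide +kernel) I0RT_32 I0RT_33
theorem I0RT_30 : CovD 1 [pRT H BI0] [(4123168604160, 274877906944), (93549756416, 16508780544), (137740943360, 27548188672)] :=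
  covD_split 2 (by decide +kernel) I0RT_31 I0RT_34
theorem I0RT_35 : CovD 1 [pRT H BI0] [(4123168604160, 274877906944), (93549756416, 16508780544), (192837320704, 27548188672)] :=
  covD_split 2 (by decide +kernel) I0RT_36 I0RT_37
theorem I0RT_29 : CovD 1 [pRT H BI0] [(4123168604160, 274877906944), (93549756416, 16508780544), (165289132032, 55096377344)] :=
  covD_split 2 (by decide +kernel) I0RT_30 I0RT_35
theorem I0RT : CovD 1 [pRT H BI0] [(4123168604160, 274877906944), (93549756416, 16508780544), (110192754688, 110192754688)] :=
  covD_split 2 (by decide +kernel) I0RT_0 I0RT_29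
theorem I1AD_0 : CovD 0 [pAD H BI1] [(4123168604160, 274877906944), (93549756416, 16508780544), (245484224512, 25098715136)] :=
  covD_split 2 (by decide +kernel) I1AD_1 I1AD_2
theorem I1AD : CovD 0 [pAD H BI1] [(4123168604160, 274877906944), (93549756416, 16508780544), (270582939648, 50197430272)] :=
  covD_split 2 (by decide +kernel) I1AD_0 I1AD_3
theorem I1RT_1 : CovD 1 [pRT H BI1] [(4123168604160, 274877906944), (93549756416, 16508780544), (232934866944, 12549357568)] :=
  covD_split 2 (by decide +kernel) I1RT_2 I1RT_3
theorem I1RT_0 : CovD 1 [pRT H BI1] [(4123168604160, 274877906944), (93549756416, 16508780544), (245484224512, 25098715136)] :=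
  covD_split 2 (by decide +kernel) I1RT_1 I1RT_4
theorem I1RT_5 : CovD 1 [pRT H BI1] [(4123168604160, 274877906944), (93549756416, 16508780544), (295681654784, 25098715136)] :=
  covD_split 2 (by decide +kernel) I1RT_6 I1RT_7
theorem I1RT : CovD 1 [pRT H BI1] [(4123168604160, 274877906944), (93549756416, 16508780544), (270582939648, 50197430272)] :=
  covD_split 2 (by decide +kernel) I1RT_0 I1RT_5
theorem I2AD : CovD 0 [pAD H BI2] [(4123168604160, 274877906944), (93549756416, 16508780544), (390842023936, 70061654016)] :=
  covD_split 2 (by decide +kernel) I2AD_0 I2AD_1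
theorem I2G : CovD 1 [pG H BI2] [(4123168604160, 274877906944), (93549756416, 16508780544), (390842023936, 70061654016)] :=
  covD_split 2 (by decide +kernel) I2G_0 I2G_1
theorem I2RT_1 : CovD 1 [pRT H BI2] [(4123168604160, 274877906944), (93549756416, 16508780544), (338295783424, 17515413504)] :=
  covD_split 2 (by decide +kernel) I2RT_2 I2RT_3
theorem I2RT_0 : CovD 1 [pRT H BI2] [(4123168604160, 274877906944), (93549756416, 16508780544), (355811196928, 35030827008)] :=
  covD_split 2 (by decide +kernel) I2RT_1 I2RT_4
theorem I2RT_5 : CovD 1 [pRT H BI2] [(4123168604160, 274877906944), (93549756416, 16508780544), (425872850944, 35030827008)] :=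
  covD_split 2 (by decide +kernel) I2RT_6 I2RT_7
theorem I2RT : CovD 1 [pRT H BI2] [(4123168604160, 274877906944), (93549756416, 16508780544), (390842023936, 70061654016)] :=
  covD_split 2 (by decide +kernel) I2RT_0 I2RT_5
theorem MTT : CovD 1 [pTT H BM] [(4123168604160, 274877906944), (93549756416, 16508780544), (0, 0)] :=
  covD_split 1 (by decide +kernel) MTT_0 MTT_1

end Pool.Agent.helper82.WC.S5K2
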