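import Pool.Agent.helper82.WH.Chks

/-!
Generated: constants of a cell.
-/

namespace Pool.Agent.helper82.WC.S5K2

open Pool.Agent.helper82.WH
open Pool.Agent.helper31.IC (CovD covD_split TD)

def H : HC := ⟨⟨4123168604160, 0⟩, ⟨7959478272, 0⟩, ⟨0, 1963398332416⟩, ⟨0, 1217386315776⟩, ⟨3793225711616, 0⟩, ⟨0, 4350967152640⟩, ⟨1432811864064, 0⟩, ⟨0, 1100122816512⟩, ⟨5639350452224, 0⟩, ⟨0, 27421548937216⟩, ⟨555300683776, 0⟩, ⟨0, 44892553216⟩, ⟨943017689088, 0⟩, ⟨1565479337984, 0⟩, ⟨1017979404288, 0⟩, ⟨0, 483516809216⟩, ⟨0, 861624795136⟩, ⟨0, 2110377754624⟩, ⟨282834698240, 0⟩, ⟨0, 4950934421504⟩, ⟨9130494328832, 0⟩, ⟨1353045770240, 0⟩, ⟨4426235904, 0⟩, ⟨1697120518144, 0⟩, ⟨0, 6665689038848⟩, ⟨0, 31341200539648⟩, ⟨0, 0⟩⟩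

def BI0 : BC := ⟨⟨0, 0, 1099511627776, 0⟩, ⟨0, 0⟩, ⟨0, 0⟩, 93764780032, 40388919296, 80489873408, 869253513216, 159428116480, 14814281728, 1485253378048, 1301408645120, ⟨18983755448320, 0⟩, ⟨0, 6274947219456⟩, ⟨999125090304, 0⟩, ⟨0, 0⟩, ⟨0, 0⟩⟩

def BI1 : BC := ⟨⟨0, 0, 1099511627776, 0⟩, ⟨0, 0⟩, ⟨0, 0⟩, 70133481472, 36214210560, 160954253312, 802003419136, 159428116480, 26709327872, 2041854296064, 1236396933120, ⟨9410273345536, 0⟩, ⟨0, 5291399708672⟩, ⟨1021715611648, 0⟩, ⟨0, 0⟩, ⟨0, 0⟩⟩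

def BI2 : BC := ⟨⟨0, 0, 1099511627776, 0⟩, ⟨0, 0⟩, ⟨0, 0⟩, 64952008704, 34252193792, 207090483200, 736546914304, 159428116480, 43956305920, 2591962431488, 1169271291904, ⟨5046586572800, 0⟩, ⟨0, 4329327034368⟩, ⟨1026222653440, 0⟩, ⟨0, 0⟩, ⟨0, 0⟩⟩

def BI3 : BC := ⟨⟨0, 0, 1099511627776, 0⟩, ⟨0, 0⟩, ⟨0, 0⟩, 60609658880, 34922954752, 170887741440, 770269118464, 159428116480, 45868908544, 2639710388224, 1038207680512, ⟨3594887626752, 0⟩, ⟨0, 3736621547520⟩, ⟨1031118258176, 0⟩, ⟨0, 0⟩, ⟨0, 0⟩⟩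

def BR0 : BC := ⟨⟨0, 0, 0, 0⟩, ⟨137438953472, 0⟩, ⟨1099511627776, 0⟩, 150652649472, 63503400960, 119638720512, 759897063424, 159428116480, 2734686208, 298533781504, 1303136698368, ⟨0, 0⟩, ⟨0, 0⟩, ⟨941550862336, 0⟩, ⟨0, 0⟩, ⟨0, 0⟩⟩

def BP : BC := ⟨⟨0, 0, 0, 0⟩, ⟨137438953472, 0⟩, ⟨1099511627776, 0⟩, 69897027584, 41486974976, 60268412928, 621128056832, 115447627776, 2650800128, 291856449536, 1300569784320, ⟨0, 0⟩, ⟨0, 0⟩, ⟨403102236672, 0⟩, ⟨0, 0⟩, ⟨1099511627776, 0⟩⟩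

def BM : BC := ⟨⟨0, 0, 0, 0⟩, ⟨137438953472, 0⟩, ⟨1099511627776, 0⟩, 59522482176, 39246299136, 52931723264, 638663000064, 115447627776, 2734686208, 298533781504, 1303136698368, ⟨0, 0⟩, ⟨0, 0⟩, ⟨410848198656, 0⟩, ⟨0, 0⟩, ⟨0, 1099511627776⟩⟩

def BT : BC := ⟨⟨0, 0, 1099511627776, 0⟩, ⟨0, 0⟩, ⟨0, 0⟩, 77246365696, 39359414272, 157477502976, 763137163264, 159428116480, 45868908544, 2639710388224, 1010005180416, ⟨3517578215424, 0⟩, ⟨0, 3667902070784⟩, ⟨1014639886336, 0⟩, ⟨1099511627776, 0⟩, ⟨0, 0⟩⟩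

end Pool.Agent.helper82.WC.S5K2
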