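import Pool.Agent.helper82.WC.S5K3P

/-!
Generated certificates (in pairs, so that they are checked one after the other).
-/

namespace Pool.Agent.helper82.WC.S5K3

open Pool.Agent.helper82.WH
open Pool.Agent.helper31.IC (CovD covD_split TD)

mutual
theorem I1RT_4 : CovD 1 [pRT H BI1] [(4123168604160, 274877906944), (131936026624, 21877489664), (251289141248, 9294577664)] :=
  cov_of (fRT H BI1) (.n 2 (.n 1 (.n 0 (.l 0) (.n 0 (.l 0) (.n 0 (.l 0) (.l 0)))) (.n 0 (.l 0) (.n 0 (.l 0) (.l 0)))) (.n 1 (.n 0 (.l 0) (.n 0 (.l 0) (.l 0))) (.n 0 (.l 0) (.n 0 (.l 0) (.l 0))))) [(4123168604160, 274877906944), (131936026624, 21877489664), (251289141248, 9294577664)] rfl (by decide +kernel)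
theorem I1RT_5 : CovD 1 [pRT H BI1] [(4123168604160, 274877906944), (131936026624, 21877489664), (269878296576, 9294577664)] :=
  cov_of (fRT H BI1) (.n 2 (.n 1 (.n 0 (.n 0 (.l 0) (.l 0)) (.n 0 (.l 0) (.l 0))) (.n 0 (.l 0) (.n 0 (.l 0) (.l 0)))) (.n 1 (.n 0 (.n 0 (.l 0) (.l 0)) (.n 0 (.l 0) (.l 0))) (.n 0 (.l 0) (.n 0 (.l 0) (.l 0))))) [(4123168604160, 274877906944), (131936026624, 21877489664), (269878296576, 9294577664)] rfl (by decide +kernel)
end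

mutual
theorem I2AD_1 : CovD 0 [pAD H BI2] [(4123168604160, 274877906944), (131936026624, 21877489664), (297795584000, 18622709760)] :=
  cov_of (fAD H BI2) (.n 0 (.n 2 (.n 0 (.n 1 (.l 0) (.l 0)) (.n 1 (.l 0) (.l 0))) (.n 0 (.n 1 (.l 0) (.l 0)) (.n 0 (.l 0) (.l 0)))) (.n 2 (.n 1 (.n 0 (.l 0) (.l 0)) (.n 0 (.l 0) (.l 0))) (.n 1 (.n 0 (.l 0) (.l 0)) (.n 0 (.l 0) (.l 0))))) [(4123168604160, 274877906944), (131936026624, 21877489664), (297795584000, 18622709760)] rfl (by decide +kernel)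
theorem I2AD_2 : CovD 0 [pAD H BI2] [(4123168604160, 274877906944), (131936026624, 21877489664), (335041003520, 18622709760)] :=
  cov_of (fAD H BI2) (.n 0 (.n 2 (.n 0 (.n 0 (.l 0) (.l 0)) (.n 0 (.l 0) (.l 0))) (.n 1 (.n 0 (.l 0) (.l 0)) (.n 0 (.l 0) (.l 0)))) (.n 2 (.n 1 (.n 0 (.l 0) (.l 0)) (.n 0 (.l 0) (.l 0))) (.n 1 (.n 0 (.l 0) (.l 0)) (.n 0 (.l 0) (.l 0))))) [(4123168604160, 274877906944), (131936026624, 21877489664), (335041003520, 18622709760)] rfl (by decide +kernel)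
end

mutual
theorem I2AD_4 : CovD 0 [pAD H BI2] [(4123168604160, 274877906944), (131936026624, 21877489664), (372286423040, 18622709760)] :=
  cov_of (fAD H BI2) (.n 0 (.n 2 (.n 1 (.n 0 (.l 0) (.l 0)) (.n 0 (.l 0) (.l 0))) (.n 0 (.n 1 (.l 0) (.l 0)) (.n 1 (.l 0) (.l 0)))) (.n 2 (.n 1 (.n 0 (.l 0) (.l 0)) (.n 0 (.l 0) (.l 0))) (.n 1 (.n 0 (.l 0) (.l 0)) (.n 0 (.l 0) (.l 0))))) [(4123168604160, 274877906944), (131936026624, 21877489664), (372286423040, 18622709760)] rfl (by decide +kernel)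
theorem I2AD_5 : CovD 0 [pAD H BI2] [(4123168604160, 274877906944), (131936026624, 21877489664), (409531842560, 18622709760)] :=
  cov_of (fAD H BI2) (.n 0 (.n 2 (.n 0 (.n 1 (.l 0) (.l 0)) (.n 1 (.l 0) (.l 0))) (.n 0 (.n 1 (.l 0) (.l 0)) (.n 1 (.l 0) (.l 0)))) (.n 2 (.n 1 (.n 0 (.l 0) (.l 0)) (.n 0 (.l 0) (.l 0))) (.n 0 (.n 1 (.l 0) (.l 0)) (.n 1 (.l 0) (.l 0))))) [(4123168604160, 274877906944), (131936026624, 21877489664), (409531842560, 18622709760)] rfl (by decide +kernel)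
end

mutual
theorem I2G_0 : CovD 1 [pG H BI2] [(4123168604160, 274877906944), (131936026624, 21877489664), (316418293760, 37245419520)] :=
  cov_of (fG H BI2) (.n 2 (.n 2 (.n 0 (.l 0) (.n 0 (.l 0) (.l 0))) (.n 0 (.l 0) (.n 2 (.l 0) (.n 0 (.l 0) (.l 0))))) (.n 2 (.n 0 (.n 0 (.l 0) (.l 0)) (.n 2 (.n 0 (.l 0) (.l 0)) (.n 0 (.l 0) (.l 0)))) (.n 0 (.n 0 (.l 0) (.l 0)) (.n 2 (.n 0 (.l 0) (.n 0 (.l 0) (.l 0))) (.n 0 (.l 0) (.n 0 (.l 0) (.l 0))))))) [(4123168604160, 274877906944), (131936026624, 21877489664), (316418293760, 37245419520)] rfl (by decide +kernel)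
theorem I2G_2 : CovD 1 [pG H BI2] [(4123168604160, 274877906944), (131936026624, 21877489664), (372286423040, 18622709760)] :=
  cov_of (fG H BI2) (.n 0 (.n 2 (.n 0 (.l 0) (.l 0)) (.n 0 (.l 0) (.l 0))) (.n 2 (.n 0 (.n 1 (.l 0) (.l 0)) (.n 2 (.n 0 (.l 0) (.l 0)) (.n 0 (.l 0) (.l 0)))) (.n 2 (.n 0 (.l 0) (.n 0 (.l 0) (.l 0))) (.n 0 (.l 0) (.n 0 (.l 0) (.l 0)))))) [(4123168604160, 274877906944), (131936026624, 21877489664), (372286423040, 18622709760)] rfl (by decide +kernel)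
end

mutual
theorem I2G_3 : CovD 1 [pG H BI2] [(4123168604160, 274877906944), (131936026624, 21877489664), (409531842560, 18622709760)] :=
  cov_of (fG H BI2) (.n 2 (.n 0 (.n 0 (.l 0) (.l 0)) (.n 2 (.n 0 (.l 0) (.n 0 (.l 0) (.l 0))) (.n 0 (.l 0) (.n 0 (.l 0) (.l 0))))) (.n 0 (.n 0 (.l 0) (.l 0)) (.n 2 (.n 0 (.l 0) (.n 0 (.l 0) (.l 0))) (.n 0 (.l 0) (.l 0))))) [(4123168604160, 274877906944), (131936026624, 21877489664), (409531842560, 18622709760)] rfl (by decide +kernel)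
theorem I2RT_3 : CovD 1 [pRT H BI2] [(4123168604160, 274877906944), (131936026624, 21877489664), (283828551680, 4655677440)] :=
  cov_of (fRT H BI2) (.n 1 (.n 0 (.n 0 (.l 0) (.n 0 (.l 0) (.l 0))) (.n 0 (.n 1 (.n 0 (.l 0) (.l 0)) (.l 0)) (.n 1 (.n 0 (.l 0) (.l 0)) (.n 0 (.l 0) (.l 0))))) (.n 0 (.n 0 (.l 0) (.n 0 (.l 0) (.l 0))) (.n 0 (.n 0 (.l 0) (.l 0)) (.n 1 (.n 0 (.l 0) (.l 0)) (.l 0))))) [(4123168604160, 274877906944), (131936026624, 21877489664), (283828551680, 4655677440)] rfl (by decide +kernel)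
end

mutual
theorem I2RT_4 : CovD 1 [pRT H BI2] [(4123168604160, 274877906944), (131936026624, 21877489664), (293139906560, 4655677440)] :=
  cov_of (fRT H BI2) (.n 1 (.n 0 (.n 0 (.l 0) (.n 0 (.l 0) (.l 0))) (.n 0 (.n 0 (.l 0) (.l 0)) (.n 1 (.n 0 (.l 0) (.l 0)) (.n 0 (.l 0) (.l 0))))) (.n 0 (.n 0 (.l 0) (.l 0)) (.n 0 (.n 0 (.l 0) (.l 0)) (.n 1 (.l 0) (.l 0))))) [(4123168604160, 274877906944), (131936026624, 21877489664), (293139906560, 4655677440)] rfl (by decide +kernel)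
theorem I2RT_5 : CovD 1 [pRT H BI2] [(4123168604160, 274877906944), (131936026624, 21877489664), (307106938880, 9311354880)] :=
  cov_of (fRT H BI2) (.n 2 (.n 0 (.n 1 (.n 0 (.l 0) (.l 0)) (.n 0 (.l 0) (.l 0))) (.n 1 (.n 0 (.n 0 (.l 0) (.l 0)) (.n 1 (.l 0) (.l 0))) (.n 0 (.l 0) (.n 0 (.l 0) (.l 0))))) (.n 0 (.n 1 (.n 0 (.l 0) (.l 0)) (.n 0 (.l 0) (.l 0))) (.n 1 (.n 0 (.l 0) (.n 0 (.l 0) (.l 0))) (.n 0 (.l 0) (.n 0 (.l 0) (.l 0)))))) [(4123168604160, 274877906944), (131936026624, 21877489664), (307106938880, 9311354880)] rfl (by decide +kernel)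
end

mutual
theorem I2RT_7 : CovD 1 [pRT H BI2] [(4123168604160, 274877906944), (131936026624, 21877489664), (325729648640, 9311354880)] :=
  cov_of (fRT H BI2) (.n 2 (.n 0 (.n 1 (.n 0 (.l 0) (.l 0)) (.n 0 (.l 0) (.l 0))) (.n 1 (.n 0 (.l 0) (.n 0 (.l 0) (.l 0))) (.n 0 (.l 0) (.l 0)))) (.n 0 (.n 1 (.n 0 (.l 0) (.l 0)) (.n 0 (.l 0) (.l 0))) (.n 1 (.n 0 (.l 0) (.l 0)) (.n 0 (.l 0) (.l 0))))) [(4123168604160, 274877906944), (131936026624, 21877489664), (325729648640, 9311354880)] rfl (by decide +kernel)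
theorem I2RT_8 : CovD 1 [pRT H BI2] [(4123168604160, 274877906944), (131936026624, 21877489664), (344352358400, 9311354880)] :=
  cov_of (fRT H BI2) (.n 2 (.n 0 (.n 1 (.n 0 (.l 0) (.l 0)) (.l 0)) (.n 1 (.n 0 (.l 0) (.l 0)) (.n 0 (.l 0) (.l 0)))) (.n 0 (.n 0 (.l 0) (.l 0)) (.n 1 (.n 0 (.l 0) (.l 0)) (.n 0 (.l 0) (.l 0))))) [(4123168604160, 274877906944), (131936026624, 21877489664), (344352358400, 9311354880)] rfl (by decide +kernel)
end

mutual
theorem I2RT_10 : CovD 1 [pRT H BI2] [(4123168604160, 274877906944), (131936026624, 21877489664), (372286423040, 18622709760)] :=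
  cov_of (fRT H BI2) (.n 2 (.n 2 (.n 0 (.n 0 (.l 0) (.l 0)) (.n 0 (.l 0) (.n 0 (.l 0) (.l 0)))) (.n 0 (.n 0 (.l 0) (.l 0)) (.n 1 (.n 0 (.l 0) (.l 0)) (.l 0)))) (.n 2 (.n 0 (.n 0 (.l 0) (.l 0)) (.n 0 (.l 0) (.l 0))) (.n 0 (.n 0 (.l 0) (.l 0)) (.n 0 (.l 0) (.l 0))))) [(4123168604160, 274877906944), (131936026624, 21877489664), (372286423040, 18622709760)] rfl (by decide +kernel)
theorem I2RT_12 : CovD 1 [pRT H BI2] [(4123168604160, 274877906944), (131936026624, 21877489664), (400220487680, 9311354880)] :=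
  cov_of (fRT H BI2) (.n 0 (.n 0 (.n 0 (.l 0) (.l 0)) (.n 1 (.l 0) (.l 0))) (.n 2 (.n 1 (.l 0) (.l 0)) (.n 1 (.n 0 (.l 0) (.l 0)) (.l 0)))) [(4123168604160, 274877906944), (131936026624, 21877489664), (400220487680, 9311354880)] rfl (by decide +kernel)
end

mutual
theorem I2RT_13 : CovD 1 [pRT H BI2] [(4123168604160, 274877906944), (131936026624, 21877489664), (418843197440, 9311354880)] :=
  cov_of (fRT H BI2) (.n 0 (.n 2 (.n 1 (.n 0 (.l 0) (.l 0)) (.l 0)) (.n 1 (.n 0 (.l 0) (.l 0)) (.n 0 (.l 0) (.l 0)))) (.n 2 (.n 0 (.n 0 (.l 0) (.l 0)) (.n 1 (.l 0) (.l 0))) (.n 1 (.n 0 (.l 0) (.n 0 (.l 0) (.l 0))) (.n 0 (.l 0) (.n 0 (.l 0) (.l 0)))))) [(4123168604160, 274877906944), (131936026624, 21877489664), (418843197440, 9311354880)] rfl (by decide +kernel)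
theorem I3AD : CovD 0 [pAD H BI3] [(4123168604160, 274877906944), (131936026624, 21877489664), (437415575552, 9261023232)] :=
  cov_of (fAD H BI3) (.n 0 (.n 0 (.n 1 (.n 0 (.l 0) (.l 0)) (.n 2 (.l 0) (.l 0))) (.n 2 (.l 0) (.n 1 (.l 0) (.l 0)))) (.n 0 (.n 2 (.l 0) (.n 1 (.l 0) (.l 0))) (.n 2 (.l 0) (.n 1 (.l 0) (.l 0))))) [(4123168604160, 274877906944), (131936026624, 21877489664), (437415575552, 9261023232)] rfl (by decide +kernel)
end

mutual
theorem I3G : CovD 1 [pG H BI3] [(4123168604160, 274877906944), (131936026624, 21877489664), (437415575552, 9261023232)] :=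
  cov_of (fG H BI3) (.n 0 (.n 2 (.n 0 (.l 0) (.l 0)) (.l 0)) (.n 2 (.n 0 (.n 0 (.l 0) (.l 0)) (.n 1 (.n 0 (.l 0) (.l 0)) (.l 0))) (.n 1 (.n 0 (.l 0) (.l 0)) (.l 0)))) [(4123168604160, 274877906944), (131936026624, 21877489664), (437415575552, 9261023232)] rfl (by decide +kernel)
theorem I3RT_0 : CovD 1 [pRT H BI3] [(3985729650688, 137438953472), (131936026624, 21877489664), (437415575552, 9261023232)] :=
  cov_of (fRT H BI3) (.n 2 (.n 1 (.n 0 (.l 0) (.l 0)) (.n 0 (.l 0) (.n 0 (.l 0) (.l 0)))) (.n 1 (.n 0 (.n 0 (.l 0) (.l 0)) (.n 2 (.l 0) (.l 0))) (.n 0 (.n 2 (.l 0) (.n 0 (.l 0) (.l 0))) (.n 2 (.l 0) (.n 0 (.l 0) (.l 0)))))) [(3985729650688, 137438953472), (131936026624, 21877489664), (437415575552, 9261023232)] rfl (by decide +kernel)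
end

mutual
theorem I3RT_1 : CovD 1 [pRT H BI3] [(4260607557632, 137438953472), (131936026624, 21877489664), (437415575552, 9261023232)] :=
  cov_of (fRT H BI3) (.n 2 (.n 1 (.n 0 (.l 0) (.n 0 (.l 0) (.l 0))) (.n 0 (.n 0 (.l 0) (.l 0)) (.n 0 (.l 0) (.l 0)))) (.n 1 (.n 0 (.n 2 (.l 0) (.n 0 (.l 0) (.l 0))) (.n 2 (.l 0) (.n 0 (.l 0) (.l 0)))) (.n 0 (.n 2 (.l 0) (.n 1 (.l 0) (.l 0))) (.n 2 (.n 0 (.l 0) (.l 0)) (.n 1 (.l 0) (.n 0 (.l 0) (.l 0))))))) [(4260607557632, 137438953472), (131936026624, 21877489664), (437415575552, 9261023232)] rfl (by decide +kernel)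
theorem R0AD : CovD 0 [pAD H BR0] [(4123168604160, 274877906944), (131936026624, 21877489664), (1099511627776, 1099511627776)] :=
  cov_of (fAD H BR0) (.n 1 (.n 1 (.n 0 (.l 0) (.l 0)) (.n 0 (.l 0) (.l 0))) (.n 0 (.n 1 (.l 0) (.l 0)) (.n 1 (.l 0) (.l 0)))) [(4123168604160, 274877906944), (131936026624, 21877489664), (1099511627776, 1099511627776)] rfl (by decide +kernel)
end

mutual
theorem R0G : CovD 1 [pG H BR0] [(4123168604160, 274877906944), (131936026624, 21877489664), (1099511627776, 1099511627776)] :=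
  cov_of (fG H BR0) (.l 0) [(4123168604160, 274877906944), (131936026624, 21877489664), (1099511627776, 1099511627776)] rfl (by decide +kernel)
theorem R0RT : CovD 1 [pRT H BR0] [(4123168604160, 274877906944), (131936026624, 21877489664), (1099511627776, 1099511627776)] :=
  cov_of (fRT H BR0) (.n 1 (.n 1 (.n 2 (.l 0) (.l 0)) (.l 0)) (.n 1 (.l 0) (.l 0))) [(4123168604160, 274877906944), (131936026624, 21877489664), (1099511627776, 1099511627776)] rfl (by decide +kernel)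
end

mutual
theorem R0RS : CovD 1 [pRS H BR0] [(4123168604160, 274877906944), (131936026624, 21877489664), (1099511627776, 1099511627776)] :=
  cov_of (fRS H BR0) (.l 0) [(4123168604160, 274877906944), (131936026624, 21877489664), (1099511627776, 1099511627776)] rfl (by decide +kernel)
theorem PAD : CovD 0 [pAD H BP] [(4123168604160, 274877906944), (131936026624, 21877489664), (2199023255552, 0)] :=
  cov_of (fAD H BP) (.n 1 (.n 0 (.n 0 (.l 0) (.l 0)) (.n 0 (.l 0) (.l 0))) (.n 0 (.n 0 (.l 0) (.l 0)) (.n 0 (.l 0) (.l 0)))) [(4123168604160, 274877906944), (131936026624, 21877489664), (2199023255552, 0)] rfl (by decide +kernel)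
end

mutual
theorem PG : CovD 1 [pG H BP] [(4123168604160, 274877906944), (131936026624, 21877489664), (2199023255552, 0)] :=
  cov_of (fG H BP) (.l 0) [(4123168604160, 274877906944), (131936026624, 21877489664), (2199023255552, 0)] rfl (by decide +kernel)
theorem PRT : CovD 1 [pRT H BP] [(4123168604160, 274877906944), (131936026624, 21877489664), (2199023255552, 0)] :=
  cov_of (fRT H BP) (.n 1 (.l 0) (.l 0)) [(4123168604160, 274877906944), (131936026624, 21877489664), (2199023255552, 0)] rfl (by decide +kernel)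
end

mutual
theorem PTT_0 : CovD 1 [pTT H BP] [(4123168604160, 274877906944), (120997281792, 10938744832), (2199023255552, 0)] :=
  cov_of (fTT H BP) (.n 1 (.n 0 (.n 1 (.n 1 (.l 0) (.l 0)) (.n 1 (.l 0) (.l 0))) (.n 1 (.n 1 (.l 0) (.l 0)) (.n 1 (.l 0) (.l 0)))) (.n 0 (.n 1 (.n 0 (.l 0) (.l 0)) (.n 0 (.l 0) (.l 0))) (.n 1 (.n 1 (.l 0) (.l 0)) (.n 1 (.l 0) (.l 0))))) [(4123168604160, 274877906944), (120997281792, 10938744832), (2199023255552, 0)] rfl (by decide +kernel)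
theorem PTT_1 : CovD 1 [pTT H BP] [(4123168604160, 274877906944), (142874771456, 10938744832), (2199023255552, 0)] :=
  cov_of (fTT H BP) (.n 1 (.n 0 (.n 1 (.n 0 (.l 0) (.l 0)) (.n 0 (.l 0) (.l 0))) (.n 1 (.n 0 (.l 0) (.l 0)) (.n 0 (.l 0) (.l 0)))) (.n 0 (.n 1 (.n 0 (.l 0) (.l 0)) (.n 0 (.l 0) (.l 0))) (.n 1 (.n 0 (.l 0) (.l 0)) (.n 0 (.l 0) (.l 0))))) [(4123168604160, 274877906944), (142874771456, 10938744832), (2199023255552, 0)] rfl (by decide +kernel)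
end

mutual
theorem MAD : CovD 0 [pAD H BM] [(4123168604160, 274877906944), (131936026624, 21877489664), (0, 0)] :=
  cov_of (fAD H BM) (.n 1 (.n 0 (.n 1 (.l 0) (.l 0)) (.n 1 (.l 0) (.l 0))) (.n 0 (.n 0 (.l 0) (.l 0)) (.n 0 (.l 0) (.l 0)))) [(4123168604160, 274877906944), (131936026624, 21877489664), (0, 0)] rfl (by decide +kernel)
theorem MG : CovD 1 [pG H BM] [(4123168604160, 274877906944), (131936026624, 21877489664), (0, 0)] :=
  cov_of (fG H BM) (.l 0) [(4123168604160, 274877906944), (131936026624, 21877489664), (0, 0)] rfl (by decide +kernel)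
end

mutual
theorem MRT : CovD 1 [pRT H BM] [(4123168604160, 274877906944), (131936026624, 21877489664), (0, 0)] :=
  cov_of (fRT H BM) (.n 1 (.n 1 (.l 0) (.l 0)) (.n 1 (.l 0) (.l 0))) [(4123168604160, 274877906944), (131936026624, 21877489664), (0, 0)] rfl (by decide +kernel)
theorem MTT_1 : CovD 1 [pTT H BM] [(4123168604160, 274877906944), (115527909376, 5469372416), (0, 0)] :=
  cov_of (fTT H BM) (.n 0 (.n 1 (.n 1 (.n 0 (.l 0) (.l 0)) (.n 0 (.l 0) (.l 0))) (.n 1 (.n 0 (.l 0) (.l 0)) (.n 0 (.l 0) (.l 0)))) (.n 1 (.n 1 (.n 1 (.l 0) (.l 0)) (.n 1 (.l 0) (.l 0))) (.n 1 (.n 1 (.l 0) (.l 0)) (.n 1 (.l 0) (.l 0))))) [(4123168604160, 274877906944), (115527909376, 5469372416), (0, 0)] rfl (by decide +kernel)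
end

mutual
theorem MTT_2 : CovD 1 [pTT H BM] [(4123168604160, 274877906944), (126466654208, 5469372416), (0, 0)] :=
  cov_of (fTT H BM) (.n 0 (.n 1 (.n 1 (.n 0 (.l 0) (.l 0)) (.n 0 (.l 0) (.l 0))) (.n 1 (.n 0 (.l 0) (.l 0)) (.n 0 (.l 0) (.l 0)))) (.n 1 (.n 1 (.n 1 (.l 0) (.l 0)) (.n 1 (.l 0) (.l 0))) (.n 1 (.n 1 (.l 0) (.l 0)) (.n 1 (.l 0) (.l 0))))) [(4123168604160, 274877906944), (126466654208, 5469372416), (0, 0)] rfl (by decide +kernel)
theorem MTT_4 : CovD 1 [pTT H BM] [(4123168604160, 274877906944), (137405399040, 5469372416), (0, 0)] :=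
  cov_of (fTT H BM) (.n 0 (.n 1 (.n 1 (.n 0 (.l 0) (.l 0)) (.n 0 (.l 0) (.l 0))) (.n 1 (.n 0 (.l 0) (.l 0)) (.n 0 (.l 0) (.l 0)))) (.n 1 (.n 1 (.n 1 (.l 0) (.l 0)) (.n 1 (.l 0) (.l 0))) (.n 1 (.n 1 (.l 0) (.l 0)) (.n 0 (.l 0) (.l 0))))) [(4123168604160, 274877906944), (137405399040, 5469372416), (0, 0)] rfl (by decide +kernel)
end

mutual
theorem MTT_5 : CovD 1 [pTT H BM] [(4123168604160, 274877906944), (148344143872, 5469372416), (0, 0)] :=
  cov_of (fTT H BM) (.n 0 (.n 1 (.n 1 (.n 0 (.l 0) (.l 0)) (.n 0 (.l 0) (.l 0))) (.n 1 (.n 0 (.l 0) (.l 0)) (.n 0 (.l 0) (.l 0)))) (.n 1 (.n 1 (.n 0 (.l 0) (.l 0)) (.n 0 (.l 0) (.l 0))) (.n 1 (.n 0 (.l 0) (.l 0)) (.n 0 (.l 0) (.l 0))))) [(4123168604160, 274877906944), (148344143872, 5469372416), (0, 0)] rfl (by decide +kernel)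
theorem TAD : CovD 0 [pAD H BT] [(4123168604160, 274877906944), (131936026624, 21877489664), (446676598784, 0)] :=
  cov_of (fAD H BT) (.n 0 (.n 0 (.l 0) (.l 0)) (.n 0 (.l 0) (.l 0))) [(4123168604160, 274877906944), (131936026624, 21877489664), (446676598784, 0)] rfl (by decide +kernel)
end

mutual
theorem TG : CovD 1 [pG H BT] [(4123168604160, 274877906944), (131936026624, 21877489664), (446676598784, 0)] :=
  cov_of (fG H BT) (.n 0 (.l 0) (.l 0)) [(4123168604160, 274877906944), (131936026624, 21877489664), (446676598784, 0)] rfl (by decide +kernel)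
theorem TRT : CovD 1 [pRT H BT] [(4123168604160, 274877906944), (131936026624, 21877489664), (446676598784, 0)] :=
  cov_of (fRT H BT) (.n 0 (.n 1 (.n 0 (.l 0) (.l 0)) (.n 0 (.l 0) (.n 0 (.l 0) (.l 0)))) (.n 1 (.n 0 (.l 0) (.l 0)) (.n 0 (.n 0 (.l 0) (.l 0)) (.n 0 (.l 0) (.l 0))))) [(4123168604160, 274877906944), (131936026624, 21877489664), (446676598784, 0)] rfl (by decide +kernel)
theorem TTT : CovD 1 [pTT H BT] [(4123168604160, 274877906944), (131936026624, 21877489664), (446676598784, 0)] :=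
  cov_of (fTT H BT) (.n 0 (.n 0 (.n 1 (.l 0) (.l 0)) (.n 0 (.l 0) (.l 0))) (.n 0 (.l 0) (.l 0))) [(4123168604160, 274877906944), (131936026624, 21877489664), (446676598784, 0)] rfl (by decide +kernel)
end

end Pool.Agent.helper82.WC.S5K3
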