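import Pool.Agent.helper82.WC.S5K3C0
import Pool.Agent.helper82.WC.S5K3C1

/-!
Generated certificates, assembled.
-/

namespace Pool.Agent.helper82.WC.S5K3

open Pool.Agent.helper82.WH
open Pool.Agent.helper31.IC (CovD covD_split TD)

theorem I0AD_1 : CovD 0 [pAD H BI0] [(4123168604160, 274877906944), (131936026624, 21877489664), (25602031616, 25602031616)] :=
  covD_split 2 (by decide +kernel) I0AD_2 I0AD_3
theorem I0AD_4 : CovD 0 [pAD H BI0] [(4123168604160, 274877906944), (131936026624, 21877489664), (76806094848, 25602031616)] :=
  covD_split 2 (by decide +kernel) I0AD_5 I0AD_6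
theorem I0AD_0 : CovD 0 [pAD H BI0] [(4123168604160, 274877906944), (131936026624, 21877489664), (51204063232, 51204063232)] :=
  covD_split 2 (by decide +kernel) I0AD_1 I0AD_4
theorem I0AD_8 : CovD 0 [pAD H BI0] [(4123168604160, 274877906944), (131936026624, 21877489664), (128010158080, 25602031616)] :=
  covD_split 2 (by decide +kernel) I0AD_9 I0AD_10
theorem I0AD_11 : CovD 0 [pAD H BI0] [(4123168604160, 274877906944), (131936026624, 21877489664), (179214221312, 25602031616)] :=
  covD_split 2 (by decide +kernel) I0AD_12 I0AD_13
theorem I0AD_7 : CovD 0 [pAD H BI0] [(4123168604160, 274877906944), (131936026624, 21877489664), (153612189696, 51204063232)] :=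
  covD_split 2 (by decide +kernel) I0AD_8 I0AD_11
theorem I0AD : CovD 0 [pAD H BI0] [(4123168604160, 274877906944), (131936026624, 21877489664), (102408126464, 102408126464)] :=
  covD_split 2 (by decide +kernel) I0AD_0 I0AD_7
theorem I0RT_2 : CovD 1 [pRT H BI0] [(4123168604160, 274877906944), (131936026624, 21877489664), (12801015808, 12801015808)] :=
  covD_split 2 (by decide +kernel) I0RT_3 I0RT_4
theorem I0RT_5 : CovD 1 [pRT H BI0] [(4123168604160, 274877906944), (131936026624, 21877489664), (38403047424, 12801015808)] :=
  covD_split 2 (by decide +kernel) I0RT_6 I0RT_7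
theorem I0RT_1 : CovD 1 [pRT H BI0] [(4123168604160, 274877906944), (131936026624, 21877489664), (25602031616, 25602031616)] :=
  covD_split 2 (by decide +kernel) I0RT_2 I0RT_5
theorem I0RT_9 : CovD 1 [pRT H BI0] [(4123168604160, 274877906944), (131936026624, 21877489664), (64005079040, 12801015808)] :=
  covD_split 2 (by decide +kernel) I0RT_10 I0RT_11
theorem I0RT_12 : CovD 1 [pRT H BI0] [(4123168604160, 274877906944), (131936026624, 21877489664), (89607110656, 12801015808)] :=
  covD_split 2 (by decide +kernel) I0RT_13 I0RT_14
theorem I0RT_8 : CovD 1 [pRT H BI0] [(4123168604160, 274877906944), (131936026624, 21877489664), (76806094848, 25602031616)] :=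
  covD_split 2 (by decide +kernel) I0RT_9 I0RT_12
theorem I0RT_0 : CovD 1 [pRT H BI0] [(4123168604160, 274877906944), (131936026624, 21877489664), (51204063232, 51204063232)] :=
  covD_split 2 (by decide +kernel) I0RT_1 I0RT_8
theorem I0RT_17 : CovD 1 [pRT H BI0] [(4123168604160, 274877906944), (131936026624, 21877489664), (115209142272, 12801015808)] :=
  covD_split 2 (by decide +kernel) I0RT_18 I0RT_19
theorem I0RT_20 : CovD 1 [pRT H BI0] [(4123168604160, 274877906944), (131936026624, 21877489664), (140811173888, 12801015808)] :=
  covD_split 2 (by decide +kernel) I0RT_21 I0RT_22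
theorem I0RT_16 : CovD 1 [pRT H BI0] [(4123168604160, 274877906944), (131936026624, 21877489664), (128010158080, 25602031616)] :=
  covD_split 2 (by decide +kernel) I0RT_17 I0RT_20
theorem I0RT_23 : CovD 1 [pRT H BI0] [(4123168604160, 274877906944), (131936026624, 21877489664), (179214221312, 25602031616)] :=
  covD_split 2 (by decide +kernel) I0RT_24 I0RT_25
theorem I0RT_15 : CovD 1 [pRT H BI0] [(4123168604160, 274877906944), (131936026624, 21877489664), (153612189696, 51204063232)] :=
  covD_split 2 (by decide +kernel) I0RT_16 I0RT_23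
theorem I0RT : CovD 1 [pRT H BI0] [(4123168604160, 274877906944), (131936026624, 21877489664), (102408126464, 102408126464)] :=
  covD_split 2 (by decide +kernel) I0RT_0 I0RT_15
theorem I1AD : CovD 0 [pAD H BI1] [(4123168604160, 274877906944), (131936026624, 21877489664), (241994563584, 37178310656)] :=
  covD_split 2 (by decide +kernel) I1AD_0 I1AD_1
theorem I1RT_0 : CovD 1 [pRT H BI1] [(4123168604160, 274877906944), (131936026624, 21877489664), (223405408256, 18589155328)] :=
  covD_split 2 (by decide +kernel) I1RT_1 I1RT_2
theorem I1RT_3 : CovD 1 [pRT H BI1] [(4123168604160, 274877906944), (131936026624, 21877489664), (260583718912, 18589155328)] :=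
  covD_split 2 (by decide +kernel) I1RT_4 I1RT_5
theorem I1RT : CovD 1 [pRT H BI1] [(4123168604160, 274877906944), (131936026624, 21877489664), (241994563584, 37178310656)] :=
  covD_split 2 (by decide +kernel) I1RT_0 I1RT_3
theorem I2AD_0 : CovD 0 [pAD H BI2] [(4123168604160, 274877906944), (131936026624, 21877489664), (316418293760, 37245419520)] :=
  covD_split 2 (by decide +kernel) I2AD_1 I2AD_2
theorem I2AD_3 : CovD 0 [pAD H BI2] [(4123168604160, 274877906944), (131936026624, 21877489664), (390909132800, 37245419520)] :=
  covD_split 2 (by decide +kernel) I2AD_4 I2AD_5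
theorem I2AD : CovD 0 [pAD H BI2] [(4123168604160, 274877906944), (131936026624, 21877489664), (353663713280, 74490839040)] :=
  covD_split 2 (by decide +kernel) I2AD_0 I2AD_3
theorem I2G_1 : CovD 1 [pG H BI2] [(4123168604160, 274877906944), (131936026624, 21877489664), (390909132800, 37245419520)] :=
  covD_split 2 (by decide +kernel) I2G_2 I2G_3
theorem I2G : CovD 1 [pG H BI2] [(4123168604160, 274877906944), (131936026624, 21877489664), (353663713280, 74490839040)] :=
  covD_split 2 (by decide +kernel) I2G_0 I2G_1
theorem I2RT_2 : CovD 1 [pRT H BI2] [(4123168604160, 274877906944), (131936026624, 21877489664), (288484229120, 9311354880)] :=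
  covD_split 2 (by decide +kernel) I2RT_3 I2RT_4
theorem I2RT_1 : CovD 1 [pRT H BI2] [(4123168604160, 274877906944), (131936026624, 21877489664), (297795584000, 18622709760)] :=
  covD_split 2 (by decide +kernel) I2RT_2 I2RT_5
theorem I2RT_6 : CovD 1 [pRT H BI2] [(4123168604160, 274877906944), (131936026624, 21877489664), (335041003520, 18622709760)] :=
  covD_split 2 (by decide +kernel) I2RT_7 I2RT_8
theorem I2RT_0 : CovD 1 [pRT H BI2] [(4123168604160, 274877906944), (131936026624, 21877489664), (316418293760, 37245419520)] :=
  covD_split 2 (by decide +kernel) I2RT_1 I2RT_6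
theorem I2RT_11 : CovD 1 [pRT H BI2] [(4123168604160, 274877906944), (131936026624, 21877489664), (409531842560, 18622709760)] :=
  covD_split 2 (by decide +kernel) I2RT_12 I2RT_13
theorem I2RT_9 : CovD 1 [pRT H BI2] [(4123168604160, 274877906944), (131936026624, 21877489664), (390909132800, 37245419520)] :=
  covD_split 2 (by decide +kernel) I2RT_10 I2RT_11
theorem I2RT : CovD 1 [pRT H BI2] [(4123168604160, 274877906944), (131936026624, 21877489664), (353663713280, 74490839040)] :=
  covD_split 2 (by decide +kernel) I2RT_0 I2RT_9
theorem I3RT : CovD 1 [pRT H BI3] [(4123168604160, 274877906944), (131936026624, 21877489664), (437415575552, 9261023232)] :=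
  covD_split 0 (by decide +kernel) I3RT_0 I3RT_1
theorem PTT : CovD 1 [pTT H BP] [(4123168604160, 274877906944), (131936026624, 21877489664), (2199023255552, 0)] :=
  covD_split 1 (by decide +kernel) PTT_0 PTT_1
theorem MTT_0 : CovD 1 [pTT H BM] [(4123168604160, 274877906944), (120997281792, 10938744832), (0, 0)] :=
  covD_split 1 (by decide +kernel) MTT_1 MTT_2
theorem MTT_3 : CovD 1 [pTT H BM] [(4123168604160, 274877906944), (142874771456, 10938744832), (0, 0)] :=
  covD_split 1 (by decide +kernel) MTT_4 MTT_5
theorem MTT : CovD 1 [pTT H BM] [(4123168604160, 274877906944), (131936026624, 21877489664), (0, 0)] :=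
  covD_split 1 (by decide +kernel) MTT_0 MTT_3

end Pool.Agent.helper82.WC.S5K3
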