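import Pool.Agent.helper82.WC.S5K3P

/-!
Generated certificates (in pairs, so that they are checked one after the other).
-/

namespace Pool.Agent.helper82.WC.S5K3

open Pool.Agent.helper82.WH
open Pool.Agent.helper31.IC (CovD covD_split TD)

mutual
theorem I0AD_2 : CovD 0 [pAD H BI0] [(4123168604160, 274877906944), (131936026624, 21877489664), (12801015808, 12801015808)] :=
  cov_of (fAD H BI0) (.n 1 (.n 0 (.n 2 (.n 0 (.l 0) (.l 0)) (.n 0 (.l 0) (.l 0))) (.n 2 (.n 0 (.l 0) (.l 0)) (.n 0 (.l 0) (.l 0)))) (.n 0 (.n 2 (.n 0 (.l 0) (.l 0)) (.n 0 (.l 0) (.l 0))) (.n 2 (.n 0 (.l 0) (.l 0)) (.n 0 (.l 0) (.l 0))))) [(4123168604160, 274877906944), (131936026624, 21877489664), (12801015808, 12801015808)] rfl (by decide +kernel)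
theorem I0AD_3 : CovD 0 [pAD H BI0] [(4123168604160, 274877906944), (131936026624, 21877489664), (38403047424, 12801015808)] :=
  cov_of (fAD H BI0) (.n 0 (.n 1 (.n 2 (.n 0 (.l 0) (.n 0 (.l 0) (.l 0))) (.n 0 (.n 0 (.l 0) (.l 0)) (.n 0 (.l 0) (.l 0)))) (.n 2 (.n 0 (.l 0) (.l 0)) (.n 0 (.l 0) (.l 0)))) (.n 1 (.n 2 (.n 1 (.n 0 (.l 0) (.l 0)) (.l 0)) (.n 1 (.n 0 (.l 0) (.l 0)) (.l 0))) (.n 2 (.n 0 (.l 0) (.l 0)) (.n 0 (.l 0) (.l 0))))) [(4123168604160, 274877906944), (131936026624, 21877489664), (38403047424, 12801015808)] rfl (by decide +kernel)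
end

mutual
theorem I0AD_5 : CovD 0 [pAD H BI0] [(4123168604160, 274877906944), (131936026624, 21877489664), (64005079040, 12801015808)] :=
  cov_of (fAD H BI0) (.n 0 (.n 1 (.n 2 (.n 0 (.l 0) (.n 0 (.l 0) (.l 0))) (.n 0 (.l 0) (.l 0))) (.n 2 (.n 0 (.l 0) (.l 0)) (.n 0 (.l 0) (.l 0)))) (.n 1 (.n 2 (.n 0 (.n 0 (.l 0) (.l 0)) (.n 0 (.l 0) (.l 0))) (.n 0 (.n 0 (.l 0) (.l 0)) (.n 0 (.l 0) (.l 0)))) (.n 2 (.n 0 (.l 0) (.l 0)) (.n 0 (.l 0) (.l 0))))) [(4123168604160, 274877906944), (131936026624, 21877489664), (64005079040, 12801015808)] rfl (by decide +kernel)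
theorem I0AD_6 : CovD 0 [pAD H BI0] [(4123168604160, 274877906944), (131936026624, 21877489664), (89607110656, 12801015808)] :=
  cov_of (fAD H BI0) (.n 0 (.n 1 (.n 2 (.n 0 (.l 0) (.l 0)) (.n 0 (.l 0) (.l 0))) (.n 2 (.n 0 (.l 0) (.l 0)) (.n 0 (.l 0) (.l 0)))) (.n 1 (.n 2 (.n 0 (.l 0) (.l 0)) (.n 0 (.l 0) (.l 0))) (.n 2 (.n 0 (.l 0) (.l 0)) (.n 0 (.l 0) (.l 0))))) [(4123168604160, 274877906944), (131936026624, 21877489664), (89607110656, 12801015808)] rfl (by decide +kernel)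
end

mutual
theorem I0AD_9 : CovD 0 [pAD H BI0] [(4123168604160, 274877906944), (131936026624, 21877489664), (115209142272, 12801015808)] :=
  cov_of (fAD H BI0) (.n 0 (.n 1 (.n 2 (.n 0 (.l 0) (.l 0)) (.n 0 (.l 0) (.l 0))) (.n 2 (.n 0 (.l 0) (.l 0)) (.n 0 (.l 0) (.l 0)))) (.n 1 (.n 2 (.n 0 (.l 0) (.l 0)) (.n 0 (.l 0) (.l 0))) (.n 2 (.n 0 (.l 0) (.l 0)) (.n 0 (.l 0) (.l 0))))) [(4123168604160, 274877906944), (131936026624, 21877489664), (115209142272, 12801015808)] rfl (by decide +kernel)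
theorem I0AD_10 : CovD 0 [pAD H BI0] [(4123168604160, 274877906944), (131936026624, 21877489664), (140811173888, 12801015808)] :=
  cov_of (fAD H BI0) (.n 0 (.n 1 (.n 2 (.n 0 (.l 0) (.l 0)) (.n 0 (.l 0) (.l 0))) (.n 2 (.n 0 (.l 0) (.l 0)) (.n 0 (.l 0) (.l 0)))) (.n 2 (.n 1 (.n 0 (.l 0) (.l 0)) (.n 0 (.l 0) (.l 0))) (.n 1 (.n 0 (.l 0) (.l 0)) (.n 0 (.l 0) (.l 0))))) [(4123168604160, 274877906944), (131936026624, 21877489664), (140811173888, 12801015808)] rfl (by decide +kernel)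
end

mutual
theorem I0AD_12 : CovD 0 [pAD H BI0] [(4123168604160, 274877906944), (131936026624, 21877489664), (166413205504, 12801015808)] :=
  cov_of (fAD H BI0) (.n 0 (.n 1 (.n 2 (.n 0 (.l 0) (.l 0)) (.n 0 (.l 0) (.l 0))) (.n 2 (.n 0 (.l 0) (.l 0)) (.n 0 (.l 0) (.l 0)))) (.n 1 (.n 2 (.n 0 (.l 0) (.l 0)) (.n 0 (.l 0) (.l 0))) (.n 2 (.n 0 (.l 0) (.l 0)) (.n 0 (.l 0) (.l 0))))) [(4123168604160, 274877906944), (131936026624, 21877489664), (166413205504, 12801015808)] rfl (by decide +kernel)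
theorem I0AD_13 : CovD 0 [pAD H BI0] [(4123168604160, 274877906944), (131936026624, 21877489664), (192015237120, 12801015808)] :=
  cov_of (fAD H BI0) (.n 0 (.n 0 (.n 1 (.n 0 (.l 0) (.l 0)) (.n 0 (.l 0) (.l 0))) (.n 1 (.n 0 (.l 0) (.l 0)) (.n 0 (.l 0) (.l 0)))) (.n 2 (.n 1 (.n 0 (.l 0) (.l 0)) (.n 0 (.l 0) (.l 0))) (.n 1 (.n 0 (.l 0) (.l 0)) (.n 0 (.l 0) (.l 0))))) [(4123168604160, 274877906944), (131936026624, 21877489664), (192015237120, 12801015808)] rfl (by decide +kernel)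
end

mutual
theorem I0G : CovD 1 [pG H BI0] [(4123168604160, 274877906944), (131936026624, 21877489664), (102408126464, 102408126464)] :=
  cov_of (fG H BI0) (.n 2 (.n 2 (.l 0) (.l 0)) (.n 2 (.n 0 (.l 0) (.l 0)) (.n 2 (.n 0 (.l 0) (.l 0)) (.n 0 (.n 1 (.l 0) (.l 0)) (.n 2 (.l 0) (.n 1 (.l 0) (.n 0 (.l 0) (.l 0)))))))) [(4123168604160, 274877906944), (131936026624, 21877489664), (102408126464, 102408126464)] rfl (by decide +kernel)
theorem I0RT_3 : CovD 1 [pRT H BI0] [(4123168604160, 274877906944), (131936026624, 21877489664), (6400507904, 6400507904)] :=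
  cov_of (fRT H BI0) (.n 1 (.n 2 (.n 2 (.n 1 (.l 0) (.l 0)) (.n 1 (.l 0) (.l 0))) (.n 2 (.n 1 (.n 0 (.l 0) (.l 0)) (.l 0)) (.n 1 (.n 0 (.l 0) (.l 0)) (.l 0)))) (.n 2 (.n 2 (.n 0 (.l 0) (.l 0)) (.n 0 (.l 0) (.l 0))) (.n 2 (.n 0 (.l 0) (.l 0)) (.n 1 (.l 0) (.l 0))))) [(4123168604160, 274877906944), (131936026624, 21877489664), (6400507904, 6400507904)] rfl (by decide +kernel)
end

mutual
theorem I0RT_4 : CovD 1 [pRT H BI0] [(4123168604160, 274877906944), (131936026624, 21877489664), (19201523712, 6400507904)] :=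
  cov_of (fRT H BI0) (.n 1 (.n 2 (.n 2 (.n 1 (.n 0 (.l 0) (.l 0)) (.l 0)) (.n 1 (.n 0 (.l 0) (.l 0)) (.l 0))) (.n 2 (.n 1 (.n 0 (.l 0) (.l 0)) (.l 0)) (.n 1 (.n 0 (.l 0) (.l 0)) (.l 0)))) (.n 2 (.n 2 (.n 1 (.l 0) (.l 0)) (.n 1 (.l 0) (.l 0))) (.n 2 (.n 1 (.l 0) (.l 0)) (.n 1 (.l 0) (.l 0))))) [(4123168604160, 274877906944), (131936026624, 21877489664), (19201523712, 6400507904)] rfl (by decide +kernel)
theorem I0RT_6 : CovD 1 [pRT H BI0] [(4123168604160, 274877906944), (131936026624, 21877489664), (32002539520, 6400507904)] :=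
  cov_of (fRT H BI0) (.n 1 (.n 2 (.n 2 (.n 1 (.n 0 (.l 0) (.l 0)) (.l 0)) (.n 1 (.n 0 (.l 0) (.l 0)) (.l 0))) (.n 2 (.n 1 (.n 0 (.l 0) (.l 0)) (.l 0)) (.n 1 (.n 0 (.l 0) (.l 0)) (.l 0)))) (.n 2 (.n 2 (.n 1 (.l 0) (.l 0)) (.n 1 (.l 0) (.l 0))) (.n 2 (.n 1 (.l 0) (.l 0)) (.n 1 (.l 0) (.l 0))))) [(4123168604160, 274877906944), (131936026624, 21877489664), (32002539520, 6400507904)] rfl (by decide +kernel)
end

mutual
theorem I0RT_7 : CovD 1 [pRT H BI0] [(4123168604160, 274877906944), (131936026624, 21877489664), (44803555328, 6400507904)] :=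
  cov_of (fRT H BI0) (.n 1 (.n 2 (.n 2 (.n 1 (.n 0 (.l 0) (.l 0)) (.l 0)) (.n 1 (.n 0 (.l 0) (.l 0)) (.l 0))) (.n 2 (.n 1 (.l 0) (.l 0)) (.n 1 (.l 0) (.l 0)))) (.n 2 (.n 2 (.n 1 (.l 0) (.l 0)) (.n 1 (.l 0) (.l 0))) (.n 2 (.n 1 (.l 0) (.l 0)) (.n 1 (.l 0) (.l 0))))) [(4123168604160, 274877906944), (131936026624, 21877489664), (44803555328, 6400507904)] rfl (by decide +kernel)
theorem I0RT_10 : CovD 1 [pRT H BI0] [(4123168604160, 274877906944), (131936026624, 21877489664), (57604571136, 6400507904)] :=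
  cov_of (fRT H BI0) (.n 1 (.n 2 (.n 2 (.n 1 (.l 0) (.l 0)) (.n 1 (.l 0) (.l 0))) (.n 2 (.n 1 (.l 0) (.l 0)) (.n 1 (.l 0) (.l 0)))) (.n 2 (.n 2 (.n 1 (.l 0) (.l 0)) (.n 1 (.l 0) (.l 0))) (.n 2 (.n 1 (.l 0) (.l 0)) (.n 1 (.l 0) (.l 0))))) [(4123168604160, 274877906944), (131936026624, 21877489664), (57604571136, 6400507904)] rfl (by decide +kernel)
end

mutual
theorem I0RT_11 : CovD 1 [pRT H BI0] [(4123168604160, 274877906944), (131936026624, 21877489664), (70405586944, 6400507904)] :=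
  cov_of (fRT H BI0) (.n 1 (.n 2 (.n 2 (.n 1 (.l 0) (.l 0)) (.n 1 (.l 0) (.l 0))) (.n 2 (.n 1 (.l 0) (.l 0)) (.n 1 (.l 0) (.l 0)))) (.n 2 (.n 2 (.n 0 (.l 0) (.l 0)) (.n 0 (.l 0) (.l 0))) (.n 2 (.n 0 (.l 0) (.l 0)) (.n 0 (.l 0) (.l 0))))) [(4123168604160, 274877906944), (131936026624, 21877489664), (70405586944, 6400507904)] rfl (by decide +kernel)
theorem I0RT_13 : CovD 1 [pRT H BI0] [(4123168604160, 274877906944), (131936026624, 21877489664), (83206602752, 6400507904)] :=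
  cov_of (fRT H BI0) (.n 1 (.n 2 (.n 2 (.n 1 (.l 0) (.l 0)) (.n 1 (.l 0) (.l 0))) (.n 2 (.n 1 (.l 0) (.l 0)) (.n 1 (.l 0) (.l 0)))) (.n 2 (.n 2 (.n 0 (.l 0) (.l 0)) (.n 0 (.l 0) (.l 0))) (.n 2 (.n 0 (.l 0) (.l 0)) (.n 0 (.l 0) (.l 0))))) [(4123168604160, 274877906944), (131936026624, 21877489664), (83206602752, 6400507904)] rfl (by decide +kernel)
end

mutual
theorem I0RT_14 : CovD 1 [pRT H BI0] [(4123168604160, 274877906944), (131936026624, 21877489664), (96007618560, 6400507904)] :=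
  cov_of (fRT H BI0) (.n 1 (.n 2 (.n 2 (.n 1 (.l 0) (.l 0)) (.n 1 (.l 0) (.l 0))) (.n 2 (.n 0 (.l 0) (.l 0)) (.n 0 (.l 0) (.l 0)))) (.n 2 (.n 2 (.n 0 (.l 0) (.l 0)) (.n 0 (.l 0) (.l 0))) (.n 2 (.n 0 (.l 0) (.l 0)) (.n 0 (.l 0) (.l 0))))) [(4123168604160, 274877906944), (131936026624, 21877489664), (96007618560, 6400507904)] rfl (by decide +kernel)
theorem I0RT_18 : CovD 1 [pRT H BI0] [(4123168604160, 274877906944), (131936026624, 21877489664), (108808634368, 6400507904)] :=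
  cov_of (fRT H BI0) (.n 1 (.n 2 (.n 2 (.n 0 (.l 0) (.l 0)) (.n 0 (.l 0) (.l 0))) (.n 2 (.n 0 (.l 0) (.l 0)) (.n 0 (.l 0) (.l 0)))) (.n 2 (.n 2 (.n 0 (.l 0) (.l 0)) (.n 0 (.l 0) (.l 0))) (.n 2 (.n 0 (.l 0) (.l 0)) (.n 0 (.l 0) (.l 0))))) [(4123168604160, 274877906944), (131936026624, 21877489664), (108808634368, 6400507904)] rfl (by decide +kernel)
end

mutual
theorem I0RT_19 : CovD 1 [pRT H BI0] [(4123168604160, 274877906944), (131936026624, 21877489664), (121609650176, 6400507904)] :=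
  cov_of (fRT H BI0) (.n 1 (.n 2 (.n 2 (.n 0 (.l 0) (.l 0)) (.n 0 (.l 0) (.l 0))) (.n 2 (.n 0 (.l 0) (.l 0)) (.n 0 (.l 0) (.l 0)))) (.n 2 (.n 1 (.n 0 (.l 0) (.l 0)) (.n 0 (.l 0) (.l 0))) (.n 1 (.n 0 (.l 0) (.l 0)) (.n 0 (.l 0) (.l 0))))) [(4123168604160, 274877906944), (131936026624, 21877489664), (121609650176, 6400507904)] rfl (by decide +kernel)
theorem I0RT_21 : CovD 1 [pRT H BI0] [(4123168604160, 274877906944), (131936026624, 21877489664), (134410665984, 6400507904)] :=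
  cov_of (fRT H BI0) (.n 2 (.n 1 (.n 2 (.n 0 (.l 0) (.l 0)) (.n 0 (.l 0) (.l 0))) (.n 1 (.n 0 (.l 0) (.l 0)) (.n 0 (.l 0) (.l 0)))) (.n 1 (.n 1 (.n 0 (.l 0) (.l 0)) (.n 0 (.l 0) (.l 0))) (.n 1 (.n 0 (.l 0) (.l 0)) (.n 0 (.l 0) (.l 0))))) [(4123168604160, 274877906944), (131936026624, 21877489664), (134410665984, 6400507904)] rfl (by decide +kernel)
end

mutual
theorem I0RT_22 : CovD 1 [pRT H BI0] [(4123168604160, 274877906944), (131936026624, 21877489664), (147211681792, 6400507904)] :=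
  cov_of (fRT H BI0) (.n 2 (.n 1 (.n 1 (.n 0 (.l 0) (.l 0)) (.n 0 (.l 0) (.l 0))) (.n 0 (.l 0) (.n 0 (.l 0) (.l 0)))) (.n 1 (.n 1 (.n 0 (.l 0) (.l 0)) (.n 0 (.l 0) (.l 0))) (.n 0 (.l 0) (.n 0 (.l 0) (.l 0))))) [(4123168604160, 274877906944), (131936026624, 21877489664), (147211681792, 6400507904)] rfl (by decide +kernel)
theorem I0RT_24 : CovD 1 [pRT H BI0] [(4123168604160, 274877906944), (131936026624, 21877489664), (166413205504, 12801015808)] :=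
  cov_of (fRT H BI0) (.n 2 (.n 2 (.n 1 (.n 0 (.l 0) (.n 1 (.l 0) (.l 0))) (.n 0 (.l 0) (.n 0 (.l 0) (.l 0)))) (.n 1 (.n 0 (.l 0) (.n 1 (.l 0) (.l 0))) (.n 0 (.l 0) (.n 0 (.l 0) (.l 0))))) (.n 2 (.n 1 (.n 0 (.l 0) (.n 1 (.l 0) (.l 0))) (.n 0 (.l 0) (.n 0 (.l 0) (.l 0)))) (.n 1 (.n 0 (.l 0) (.n 1 (.l 0) (.l 0))) (.n 0 (.l 0) (.n 0 (.l 0) (.l 0)))))) [(4123168604160, 274877906944), (131936026624, 21877489664), (166413205504, 12801015808)] rfl (by decide +kernel)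
end

mutual
theorem I0RT_25 : CovD 1 [pRT H BI0] [(4123168604160, 274877906944), (131936026624, 21877489664), (192015237120, 12801015808)] :=
  cov_of (fRT H BI0) (.n 2 (.n 2 (.n 1 (.n 0 (.l 0) (.n 1 (.l 0) (.l 0))) (.n 0 (.l 0) (.n 0 (.l 0) (.l 0)))) (.n 1 (.n 0 (.l 0) (.n 1 (.l 0) (.l 0))) (.n 0 (.l 0) (.n 0 (.l 0) (.l 0))))) (.n 2 (.n 1 (.n 0 (.l 0) (.n 1 (.l 0) (.l 0))) (.n 0 (.l 0) (.n 0 (.l 0) (.l 0)))) (.n 1 (.n 0 (.l 0) (.n 0 (.l 0) (.l 0))) (.n 0 (.l 0) (.n 0 (.l 0) (.l 0)))))) [(4123168604160, 274877906944), (131936026624, 21877489664), (192015237120, 12801015808)] rfl (by decide +kernel)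
theorem I1AD_0 : CovD 0 [pAD H BI1] [(4123168604160, 274877906944), (131936026624, 21877489664), (223405408256, 18589155328)] :=
  cov_of (fAD H BI1) (.n 0 (.n 2 (.n 0 (.n 1 (.l 0) (.l 0)) (.n 1 (.n 0 (.l 0) (.l 0)) (.l 0))) (.n 0 (.n 1 (.l 0) (.l 0)) (.n 1 (.l 0) (.l 0)))) (.n 2 (.n 1 (.n 0 (.n 0 (.l 0) (.l 0)) (.n 0 (.l 0) (.l 0))) (.n 0 (.n 0 (.l 0) (.l 0)) (.n 0 (.l 0) (.l 0)))) (.n 1 (.n 0 (.l 0) (.l 0)) (.n 0 (.l 0) (.l 0))))) [(4123168604160, 274877906944), (131936026624, 21877489664), (223405408256, 18589155328)] rfl (by decide +kernel)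
end

mutual
theorem I1AD_1 : CovD 0 [pAD H BI1] [(4123168604160, 274877906944), (131936026624, 21877489664), (260583718912, 18589155328)] :=
  cov_of (fAD H BI1) (.n 0 (.n 2 (.n 0 (.n 1 (.l 0) (.l 0)) (.n 1 (.l 0) (.l 0))) (.n 0 (.n 1 (.l 0) (.l 0)) (.n 1 (.l 0) (.l 0)))) (.n 2 (.n 1 (.n 0 (.l 0) (.l 0)) (.n 0 (.l 0) (.l 0))) (.n 1 (.n 0 (.l 0) (.l 0)) (.n 0 (.l 0) (.l 0))))) [(4123168604160, 274877906944), (131936026624, 21877489664), (260583718912, 18589155328)] rfl (by decide +kernel)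
theorem I1G : CovD 1 [pG H BI1] [(4123168604160, 274877906944), (131936026624, 21877489664), (241994563584, 37178310656)] :=
  cov_of (fG H BI1) (.n 2 (.n 2 (.l 0) (.n 0 (.l 0) (.l 0))) (.n 2 (.n 0 (.l 0) (.n 1 (.l 0) (.l 0))) (.n 0 (.n 0 (.l 0) (.l 0)) (.n 1 (.n 0 (.l 0) (.l 0)) (.n 2 (.l 0) (.n 0 (.l 0) (.l 0))))))) [(4123168604160, 274877906944), (131936026624, 21877489664), (241994563584, 37178310656)] rfl (by decide +kernel)
end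

mutual
theorem I1RT_1 : CovD 1 [pRT H BI1] [(4123168604160, 274877906944), (131936026624, 21877489664), (214110830592, 9294577664)] :=
  cov_of (fRT H BI1) (.n 2 (.n 1 (.n 1 (.n 0 (.l 0) (.n 0 (.l 0) (.l 0))) (.n 0 (.l 0) (.n 0 (.l 0) (.l 0)))) (.n 0 (.n 0 (.l 0) (.l 0)) (.n 1 (.n 0 (.l 0) (.l 0)) (.n 0 (.l 0) (.l 0))))) (.n 1 (.n 1 (.n 0 (.l 0) (.n 0 (.l 0) (.l 0))) (.n 0 (.l 0) (.n 0 (.l 0) (.l 0)))) (.n 0 (.n 0 (.l 0) (.l 0)) (.n 0 (.l 0) (.n 0 (.l 0) (.l 0)))))) [(4123168604160, 274877906944), (131936026624, 21877489664), (214110830592, 9294577664)] rfl (by decide +kernel)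
theorem I1RT_2 : CovD 1 [pRT H BI1] [(4123168604160, 274877906944), (131936026624, 21877489664), (232699985920, 9294577664)] :=
  cov_of (fRT H BI1) (.n 2 (.n 1 (.n 0 (.n 0 (.l 0) (.l 0)) (.n 0 (.l 0) (.n 0 (.l 0) (.l 0)))) (.n 0 (.l 0) (.n 1 (.n 0 (.l 0) (.l 0)) (.l 0)))) (.n 1 (.n 0 (.l 0) (.n 0 (.l 0) (.n 0 (.l 0) (.l 0)))) (.n 0 (.l 0) (.n 0 (.l 0) (.l 0))))) [(4123168604160, 274877906944), (131936026624, 21877489664), (232699985920, 9294577664)] rfl (by decide +kernel)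
end

end Pool.Agent.helper82.WC.S5K3
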