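import Pool.Agent.helper82.WH.Chks

/-!
Generated: constants of a cell.
-/

namespace Pool.Agent.helper82.WC.S5K3

open Pool.Agent.helper82.WH
open Pool.Agent.helper31.IC (CovD covD_split TD)

def H : HC := ⟨⟨4123168604160, 0⟩, ⟨15831662592, 0⟩, ⟨0, 1656615796736⟩, ⟨0, 1246609866752⟩, ⟨3451471855616, 0⟩, ⟨0, 6231610490880⟩, ⟨1358194933760, 0⟩, ⟨501843099648, 0⟩, ⟨9511100219392, 0⟩, ⟨0, 39445676752896⟩, ⟨560753803264, 0⟩, ⟨0, 35992764416⟩, ⟨843554095104, 0⟩, ⟨1573361025024, 0⟩, ⟨977132650496, 0⟩, ⟨0, 478401003520⟩, ⟨0, 882125307904⟩, ⟨0, 1862404603904⟩, ⟨0, 701325246464⟩, ⟨0, 4916920778752⟩, ⟨9222434324480, 0⟩, ⟨1203647021056, 0⟩, ⟨53631909888, 0⟩, ⟨1913084706816, 0⟩, ⟨0, 736748044288⟩, ⟨0, 91177344303104⟩, ⟨0, 0⟩⟩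

def BI0 : BC := ⟨⟨0, 0, 1099511627776, 0⟩, ⟨0, 0⟩, ⟨0, 0⟩, 97264009216, 38546505728, 80685367296, 867409395712, 159428116480, 15317598208, 1411131637760, 1282702049280, ⟨18575733555200, 0⟩, ⟨0, 4715874091008⟩, ⟨995635822592, 0⟩, ⟨0, 0⟩, ⟨0, 0⟩⟩

def BI1 : BC := ⟨⟨0, 0, 1099511627776, 0⟩, ⟨0, 0⟩, ⟨0, 0⟩, 77901004800, 35107045376, 140981829632, 820634255360, 159428116480, 23152558080, 1819891728384, 1225391079424, ⟨10973641441280, 0⟩, ⟨0, 5523327942656⟩, ⟨1014238806016, 0⟩, ⟨0, 0⟩, ⟨0, 0⟩⟩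

def BI2 : BC := ⟨⟨0, 0, 1099511627776, 0⟩, ⟨0, 0⟩, ⟨0, 0⟩, 70154584064, 32794017792, 201073754112, 747418681344, 159428116480, 38906363904, 2451470024704, 1179438284800, ⟨6420976107520, 0⟩, ⟨0, 4926327488512⟩, ⟨1021125656576, 0⟩, ⟨0, 0⟩, ⟨0, 0⟩⟩

def BI3 : BC := ⟨⟨0, 0, 1099511627776, 0⟩, ⟨0, 0⟩, ⟨0, 0⟩, 66727182336, 32716750848, 165222416384, 782413987840, 159428116480, 40063991808, 2499352199168, 1052250210304, ⟨4505420693504, 0⟩, ⟨0, 4342211936256⟩, ⟨1025098448896, 0⟩, ⟨0, 0⟩, ⟨0, 0⟩⟩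

def BR0 : BC := ⟨⟨0, 0, 0, 0⟩, ⟨137438953472, 0⟩, ⟨1099511627776, 0⟩, 103162052608, 46310359040, 89893109760, 853689040896, 159428116480, 5301600256, 364233359360, 1285604507648, ⟨0, 0⟩, ⟨0, 0⟩, ⟨989566140416, 0⟩, ⟨0, 0⟩, ⟨0, 0⟩⟩

def BP : BC := ⟨⟨0, 0, 0, 0⟩, ⟨137438953472, 0⟩, ⟨1099511627776, 0⟩, 55839621120, 32860930048, 54679830528, 723922124800, 115447627776, 4982833152, 364233359360, 1280437125120, ⟨0, 0⟩, ⟨0, 0⟩, ⟨463591243776, 0⟩, ⟨0, 0⟩, ⟨1099511627776, 0⟩⟩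

def BM : BC := ⟨⟨0, 0, 0, 0⟩, ⟨137438953472, 0⟩, ⟨1099511627776, 0⟩, 34107162624, 28025618432, 39610089472, 762370457600, 115447627776, 5301600256, 334403469312, 1285604507648, ⟨0, 0⟩, ⟨0, 0⟩, ⟨480276185088, 0⟩, ⟨0, 0⟩, ⟨0, 1099511627776⟩⟩

def BT : BC := ⟨⟨0, 0, 1099511627776, 0⟩, ⟨0, 0⟩, ⟨0, 0⟩, 84526235648, 37463195648, 158128013312, 767837536256, 159428116480, 40063991808, 2499352199168, 1025909981184, ⟨4423816314880, 0⟩, ⟨0, 4269197492224⟩, ⟨1007362179072, 0⟩, ⟨1099511627776, 0⟩, ⟨0, 0⟩⟩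

end Pool.Agent.helper82.WC.S5K3
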