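import Pool.Agent.helper82.WC.S5K4P

/-!
Generated certificates (in pairs, so that they are checked one after the other).
-/

namespace Pool.Agent.helper82.WC.S5K4

open Pool.Agent.helper82.WH
open Pool.Agent.helper31.IC (CovD covD_split TD)

mutual
theorem I1RT_7 : CovD 1 [pRT H BI1] [(4123168604160, 274877906944), (186831077376, 33017561088), (208037478400, 6710886400)] :=
  cov_of (fRT H BI1) (.n 1 (.n 2 (.n 0 (.n 0 (.l 0) (.l 0)) (.n 1 (.l 0) (.l 0))) (.n 0 (.n 0 (.l 0) (.l 0)) (.n 1 (.l 0) (.l 0)))) (.n 2 (.n 0 (.n 0 (.l 0) (.l 0)) (.n 1 (.l 0) (.l 0))) (.n 0 (.n 0 (.l 0) (.l 0)) (.n 1 (.l 0) (.l 0))))) [(4123168604160, 274877906944), (186831077376, 33017561088), (208037478400, 6710886400)] rfl (by decide +kernel)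
theorem I2AD_1 : CovD 0 [pAD H BI2] [(3985729650688, 137438953472), (186831077376, 33017561088), (228170137600, 13421772800)] :=
  cov_of (fAD H BI2) (.n 1 (.n 2 (.n 0 (.n 0 (.l 0) (.l 0)) (.n 0 (.l 0) (.l 0))) (.n 0 (.l 0) (.n 0 (.l 0) (.l 0)))) (.n 2 (.n 0 (.l 0) (.n 0 (.l 0) (.l 0))) (.n 0 (.l 0) (.l 0)))) [(3985729650688, 137438953472), (186831077376, 33017561088), (228170137600, 13421772800)] rfl (by decide +kernel)
end

mutual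
theorem I2AD_2 : CovD 0 [pAD H BI2] [(4260607557632, 137438953472), (186831077376, 33017561088), (228170137600, 13421772800)] :=
  cov_of (fAD H BI2) (.n 1 (.n 2 (.n 1 (.n 0 (.l 0) (.l 0)) (.n 0 (.l 0) (.l 0))) (.n 1 (.n 0 (.l 0) (.l 0)) (.n 0 (.l 0) (.l 0)))) (.n 2 (.n 1 (.n 0 (.l 0) (.l 0)) (.n 0 (.l 0) (.l 0))) (.n 1 (.l 0) (.l 0)))) [(4260607557632, 137438953472), (186831077376, 33017561088), (228170137600, 13421772800)] rfl (by decide +kernel)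
theorem I2AD_3 : CovD 0 [pAD H BI2] [(4123168604160, 274877906944), (186831077376, 33017561088), (255013683200, 13421772800)] :=
  cov_of (fAD H BI2) (.n 0 (.n 1 (.n 2 (.n 0 (.l 0) (.l 0)) (.n 0 (.l 0) (.l 0))) (.n 2 (.n 0 (.l 0) (.l 0)) (.n 0 (.l 0) (.l 0)))) (.n 1 (.n 2 (.n 0 (.l 0) (.l 0)) (.n 0 (.l 0) (.l 0))) (.n 2 (.n 0 (.l 0) (.l 0)) (.n 0 (.l 0) (.l 0))))) [(4123168604160, 274877906944), (186831077376, 33017561088), (255013683200, 13421772800)] rfl (by decide +kernel)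
end

mutual
theorem I2G : CovD 1 [pG H BI2] [(4123168604160, 274877906944), (186831077376, 33017561088), (241591910400, 26843545600)] :=
  cov_of (fG H BI2) (.n 2 (.n 1 (.n 0 (.l 0) (.l 0)) (.n 0 (.l 0) (.n 2 (.l 0) (.l 0)))) (.n 1 (.n 0 (.l 0) (.n 2 (.l 0) (.n 0 (.l 0) (.l 0)))) (.n 0 (.n 2 (.l 0) (.l 0)) (.n 2 (.n 0 (.l 0) (.l 0)) (.n 1 (.l 0) (.n 0 (.l 0) (.l 0))))))) [(4123168604160, 274877906944), (186831077376, 33017561088), (241591910400, 26843545600)] rfl (by decide +kernel)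
theorem I2RT_1 : CovD 1 [pRT H BI2] [(4123168604160, 274877906944), (186831077376, 33017561088), (221459251200, 6710886400)] :=
  cov_of (fRT H BI2) (.n 1 (.n 2 (.n 0 (.n 1 (.l 0) (.l 0)) (.n 1 (.n 0 (.l 0) (.n 0 (.l 0) (.l 0))) (.n 0 (.l 0) (.l 0)))) (.n 0 (.n 1 (.l 0) (.l 0)) (.n 1 (.n 0 (.l 0) (.l 0)) (.n 0 (.l 0) (.l 0))))) (.n 2 (.n 0 (.n 1 (.l 0) (.l 0)) (.n 1 (.n 0 (.l 0) (.l 0)) (.n 0 (.l 0) (.l 0)))) (.n 0 (.n 1 (.l 0) (.l 0)) (.n 1 (.n 0 (.l 0) (.l 0)) (.l 0))))) [(4123168604160, 274877906944), (186831077376, 33017561088), (221459251200, 6710886400)] rfl (by decide +kernel)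
end

mutual
theorem I2RT_2 : CovD 1 [pRT H BI2] [(4123168604160, 274877906944), (186831077376, 33017561088), (234881024000, 6710886400)] :=
  cov_of (fRT H BI2) (.n 1 (.n 2 (.n 0 (.n 1 (.l 0) (.l 0)) (.n 1 (.n 0 (.l 0) (.l 0)) (.n 0 (.l 0) (.l 0)))) (.n 0 (.n 1 (.l 0) (.l 0)) (.n 1 (.n 0 (.l 0) (.l 0)) (.n 0 (.l 0) (.l 0))))) (.n 2 (.n 0 (.n 0 (.l 0) (.l 0)) (.n 1 (.n 0 (.l 0) (.l 0)) (.l 0))) (.n 0 (.n 0 (.l 0) (.l 0)) (.n 1 (.l 0) (.l 0))))) [(4123168604160, 274877906944), (186831077376, 33017561088), (234881024000, 6710886400)] rfl (by decide +kernel)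
theorem I2RT_4 : CovD 1 [pRT H BI2] [(4123168604160, 274877906944), (186831077376, 33017561088), (248302796800, 6710886400)] :=
  cov_of (fRT H BI2) (.n 1 (.n 2 (.n 0 (.n 0 (.l 0) (.l 0)) (.n 1 (.n 0 (.l 0) (.l 0)) (.l 0))) (.n 0 (.n 0 (.l 0) (.l 0)) (.n 1 (.l 0) (.l 0)))) (.n 2 (.n 0 (.n 0 (.l 0) (.l 0)) (.n 1 (.l 0) (.l 0))) (.n 0 (.n 0 (.l 0) (.l 0)) (.n 1 (.l 0) (.l 0))))) [(4123168604160, 274877906944), (186831077376, 33017561088), (248302796800, 6710886400)] rfl (by decide +kernel)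
end

mutual
theorem I2RT_5 : CovD 1 [pRT H BI2] [(4123168604160, 274877906944), (186831077376, 33017561088), (261724569600, 6710886400)] :=
  cov_of (fRT H BI2) (.n 1 (.n 2 (.n 0 (.n 0 (.l 0) (.l 0)) (.n 1 (.l 0) (.l 0))) (.n 0 (.n 0 (.l 0) (.l 0)) (.n 1 (.l 0) (.l 0)))) (.n 2 (.n 0 (.n 0 (.l 0) (.l 0)) (.n 0 (.l 0) (.l 0))) (.n 0 (.l 0) (.n 1 (.l 0) (.l 0))))) [(4123168604160, 274877906944), (186831077376, 33017561088), (261724569600, 6710886400)] rfl (by decide +kernel)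
theorem I3AD_1 : CovD 0 [pAD H BI3] [(4123168604160, 274877906944), (186831077376, 33017561088), (288568115200, 20132659200)] :=
  cov_of (fAD H BI3) (.n 0 (.n 1 (.n 2 (.n 0 (.l 0) (.n 0 (.l 0) (.l 0))) (.n 0 (.l 0) (.l 0))) (.n 2 (.n 0 (.n 0 (.l 0) (.l 0)) (.l 0)) (.n 0 (.l 0) (.l 0)))) (.n 1 (.n 2 (.n 0 (.n 0 (.l 0) (.l 0)) (.n 0 (.l 0) (.l 0))) (.n 0 (.l 0) (.l 0))) (.n 2 (.n 0 (.l 0) (.n 0 (.l 0) (.l 0))) (.n 0 (.l 0) (.l 0))))) [(4123168604160, 274877906944), (186831077376, 33017561088), (288568115200, 20132659200)] rfl (by decide +kernel)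
end

mutual
theorem I3AD_2 : CovD 0 [pAD H BI3] [(4123168604160, 274877906944), (186831077376, 33017561088), (328833433600, 20132659200)] :=
  cov_of (fAD H BI3) (.n 0 (.n 1 (.n 2 (.n 0 (.l 0) (.l 0)) (.n 0 (.l 0) (.l 0))) (.n 2 (.n 0 (.l 0) (.l 0)) (.n 0 (.l 0) (.l 0)))) (.n 1 (.n 2 (.n 0 (.l 0) (.l 0)) (.n 0 (.l 0) (.l 0))) (.n 2 (.n 0 (.l 0) (.l 0)) (.n 0 (.l 0) (.l 0))))) [(4123168604160, 274877906944), (186831077376, 33017561088), (328833433600, 20132659200)] rfl (by decide +kernel)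
theorem I3AD_4 : CovD 0 [pAD H BI3] [(4123168604160, 274877906944), (186831077376, 33017561088), (369098752000, 20132659200)] :=
  cov_of (fAD H BI3) (.n 0 (.n 2 (.n 1 (.n 0 (.l 0) (.l 0)) (.n 0 (.n 0 (.l 0) (.l 0)) (.l 0))) (.n 1 (.n 0 (.l 0) (.l 0)) (.n 0 (.n 0 (.l 0) (.l 0)) (.n 0 (.l 0) (.l 0))))) (.n 2 (.n 1 (.n 0 (.l 0) (.l 0)) (.n 0 (.l 0) (.l 0))) (.n 1 (.n 0 (.l 0) (.l 0)) (.n 0 (.n 0 (.l 0) (.l 0)) (.n 0 (.l 0) (.l 0)))))) [(4123168604160, 274877906944), (186831077376, 33017561088), (369098752000, 20132659200)] rfl (by decide +kernel)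
end

mutual
theorem I3AD_6 : CovD 0 [pAD H BI3] [(3985729650688, 137438953472), (186831077376, 33017561088), (409364070400, 20132659200)] :=
  cov_of (fAD H BI3) (.n 2 (.n 1 (.n 0 (.n 0 (.l 0) (.l 0)) (.n 0 (.l 0) (.l 0))) (.n 0 (.n 1 (.l 0) (.l 0)) (.n 0 (.l 0) (.l 0)))) (.n 1 (.n 0 (.n 1 (.l 0) (.l 0)) (.n 1 (.l 0) (.l 0))) (.n 0 (.n 2 (.l 0) (.n 0 (.l 0) (.l 0))) (.n 2 (.l 0) (.n 0 (.l 0) (.l 0)))))) [(3985729650688, 137438953472), (186831077376, 33017561088), (409364070400, 20132659200)] rfl (by decide +kernel)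
theorem I3AD_7 : CovD 0 [pAD H BI3] [(4260607557632, 137438953472), (186831077376, 33017561088), (409364070400, 20132659200)] :=
  cov_of (fAD H BI3) (.n 2 (.n 1 (.n 0 (.n 0 (.l 0) (.l 0)) (.n 0 (.l 0) (.l 0))) (.n 0 (.n 0 (.l 0) (.l 0)) (.n 0 (.l 0) (.l 0)))) (.n 1 (.n 0 (.n 1 (.l 0) (.l 0)) (.n 1 (.l 0) (.l 0))) (.n 2 (.n 0 (.l 0) (.l 0)) (.n 0 (.n 0 (.l 0) (.l 0)) (.n 0 (.l 0) (.l 0)))))) [(4260607557632, 137438953472), (186831077376, 33017561088), (409364070400, 20132659200)] rfl (by decide +kernel)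
end

mutual
theorem I3G_1 : CovD 1 [pG H BI3] [(4123168604160, 274877906944), (186831077376, 33017561088), (288568115200, 20132659200)] :=
  cov_of (fG H BI3) (.n 2 (.n 1 (.n 0 (.l 0) (.l 0)) (.n 0 (.l 0) (.n 0 (.l 0) (.l 0)))) (.n 0 (.n 1 (.l 0) (.l 0)) (.n 1 (.n 0 (.l 0) (.l 0)) (.n 2 (.l 0) (.n 0 (.l 0) (.l 0)))))) [(4123168604160, 274877906944), (186831077376, 33017561088), (288568115200, 20132659200)] rfl (by decide +kernel)
theorem I3G_2 : CovD 1 [pG H BI3] [(4123168604160, 274877906944), (186831077376, 33017561088), (328833433600, 20132659200)] :=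
  cov_of (fG H BI3) (.n 2 (.n 0 (.n 1 (.l 0) (.n 0 (.l 0) (.l 0))) (.n 1 (.n 0 (.l 0) (.n 1 (.l 0) (.l 0))) (.n 2 (.n 0 (.l 0) (.l 0)) (.n 0 (.l 0) (.l 0))))) (.n 0 (.n 1 (.n 0 (.l 0) (.l 0)) (.n 0 (.l 0) (.l 0))) (.n 1 (.n 2 (.n 0 (.l 0) (.l 0)) (.n 0 (.l 0) (.l 0))) (.n 2 (.n 0 (.l 0) (.n 0 (.l 0) (.l 0))) (.n 0 (.l 0) (.n 0 (.l 0) (.l 0))))))) [(4123168604160, 274877906944), (186831077376, 33017561088), (328833433600, 20132659200)] rfl (by decide +kernel)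
end

mutual
theorem I3G_5 : CovD 1 [pG H BI3] [(4123168604160, 274877906944), (186831077376, 33017561088), (359032422400, 10066329600)] :=
  cov_of (fG H BI3) (.n 0 (.n 1 (.n 0 (.l 0) (.l 0)) (.n 0 (.l 0) (.l 0))) (.n 1 (.n 2 (.n 0 (.l 0) (.n 0 (.l 0) (.l 0))) (.n 0 (.l 0) (.n 0 (.l 0) (.l 0)))) (.n 2 (.n 0 (.l 0) (.n 0 (.l 0) (.l 0))) (.n 0 (.l 0) (.n 0 (.l 0) (.l 0)))))) [(4123168604160, 274877906944), (186831077376, 33017561088), (359032422400, 10066329600)] rfl (by decide +kernel)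
theorem I3G_6 : CovD 1 [pG H BI3] [(4123168604160, 274877906944), (186831077376, 33017561088), (379165081600, 10066329600)] :=
  cov_of (fG H BI3) (.n 0 (.n 1 (.n 0 (.l 0) (.l 0)) (.n 0 (.l 0) (.l 0))) (.n 1 (.n 2 (.n 0 (.l 0) (.n 0 (.l 0) (.l 0))) (.n 0 (.l 0) (.n 0 (.l 0) (.l 0)))) (.n 2 (.n 0 (.l 0) (.n 0 (.l 0) (.l 0))) (.n 0 (.l 0) (.l 0))))) [(4123168604160, 274877906944), (186831077376, 33017561088), (379165081600, 10066329600)] rfl (by decide +kernel)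
end

mutual
theorem I3G_7 : CovD 1 [pG H BI3] [(4123168604160, 274877906944), (186831077376, 33017561088), (409364070400, 20132659200)] :=
  cov_of (fG H BI3) (.n 2 (.n 0 (.n 1 (.n 0 (.l 0) (.l 0)) (.n 0 (.l 0) (.l 0))) (.n 1 (.n 2 (.n 0 (.l 0) (.l 0)) (.n 0 (.l 0) (.l 0))) (.n 2 (.n 0 (.l 0) (.l 0)) (.n 0 (.l 0) (.l 0))))) (.n 1 (.n 0 (.n 0 (.l 0) (.l 0)) (.n 2 (.n 0 (.l 0) (.l 0)) (.n 0 (.l 0) (.l 0)))) (.n 0 (.l 0) (.n 2 (.l 0) (.l 0))))) [(4123168604160, 274877906944), (186831077376, 33017561088), (409364070400, 20132659200)] rfl (by decide +kernel)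
theorem I3RT_4 : CovD 1 [pRT H BI3] [(4123168604160, 274877906944), (170322296832, 16508780544), (273468620800, 5033164800)] :=
  cov_of (fRT H BI3) (.n 1 (.n 0 (.n 0 (.l 0) (.n 0 (.l 0) (.l 0))) (.n 0 (.n 0 (.l 0) (.l 0)) (.n 2 (.n 0 (.l 0) (.l 0)) (.n 0 (.l 0) (.l 0))))) (.n 0 (.n 0 (.l 0) (.l 0)) (.n 0 (.n 0 (.l 0) (.l 0)) (.n 1 (.l 0) (.l 0))))) [(4123168604160, 274877906944), (170322296832, 16508780544), (273468620800, 5033164800)] rfl (by decide +kernel)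
end

mutual
theorem I3RT_5 : CovD 1 [pRT H BI3] [(4123168604160, 274877906944), (170322296832, 16508780544), (283534950400, 5033164800)] :=
  cov_of (fRT H BI3) (.n 1 (.n 0 (.n 0 (.l 0) (.l 0)) (.n 0 (.n 0 (.l 0) (.l 0)) (.n 1 (.l 0) (.l 0)))) (.n 0 (.n 0 (.l 0) (.l 0)) (.n 0 (.l 0) (.n 0 (.l 0) (.l 0))))) [(4123168604160, 274877906944), (170322296832, 16508780544), (283534950400, 5033164800)] rfl (by decide +kernel)
theorem I3RT_6 : CovD 1 [pRT H BI3] [(4123168604160, 274877906944), (203339857920, 16508780544), (278501785600, 10066329600)] :=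
  cov_of (fRT H BI3) (.n 2 (.n 0 (.n 1 (.n 0 (.l 0) (.l 0)) (.n 0 (.l 0) (.l 0))) (.n 1 (.n 0 (.l 0) (.n 0 (.l 0) (.l 0))) (.n 0 (.l 0) (.l 0)))) (.n 0 (.n 1 (.n 0 (.l 0) (.l 0)) (.l 0)) (.n 1 (.n 0 (.l 0) (.l 0)) (.n 0 (.l 0) (.l 0))))) [(4123168604160, 274877906944), (203339857920, 16508780544), (278501785600, 10066329600)] rfl (by decide +kernel)
end

mutual
theorem I3RT_8 : CovD 1 [pRT H BI3] [(4123168604160, 274877906944), (170322296832, 16508780544), (298634444800, 10066329600)] :=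
  cov_of (fRT H BI3) (.n 2 (.n 2 (.n 0 (.n 1 (.n 0 (.l 0) (.l 0)) (.l 0)) (.n 1 (.n 0 (.l 0) (.l 0)) (.n 0 (.l 0) (.l 0)))) (.n 0 (.n 1 (.l 0) (.l 0)) (.n 1 (.n 0 (.l 0) (.l 0)) (.n 0 (.l 0) (.l 0))))) (.n 0 (.n 1 (.n 0 (.l 0) (.l 0)) (.n 0 (.l 0) (.l 0))) (.n 1 (.n 0 (.l 0) (.n 0 (.l 0) (.l 0))) (.n 0 (.l 0) (.l 0))))) [(4123168604160, 274877906944), (170322296832, 16508780544), (298634444800, 10066329600)] rfl (by decide +kernel)
theorem I3RT_9 : CovD 1 [pRT H BI3] [(4123168604160, 274877906944), (203339857920, 16508780544), (298634444800, 10066329600)] :=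
  cov_of (fRT H BI3) (.n 2 (.n 0 (.n 1 (.n 0 (.l 0) (.l 0)) (.l 0)) (.n 1 (.n 0 (.l 0) (.l 0)) (.n 0 (.l 0) (.l 0)))) (.n 0 (.n 1 (.l 0) (.l 0)) (.n 1 (.n 0 (.l 0) (.l 0)) (.n 0 (.l 0) (.l 0))))) [(4123168604160, 274877906944), (203339857920, 16508780544), (298634444800, 10066329600)] rfl (by decide +kernel)
end

mutual
theorem I3RT_11 : CovD 1 [pRT H BI3] [(4123168604160, 274877906944), (186831077376, 33017561088), (318767104000, 10066329600)] :=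
  cov_of (fRT H BI3) (.n 2 (.n 1 (.n 0 (.n 0 (.l 0) (.n 0 (.l 0) (.l 0))) (.n 1 (.n 0 (.l 0) (.l 0)) (.n 0 (.l 0) (.l 0)))) (.n 0 (.n 0 (.l 0) (.l 0)) (.n 1 (.n 0 (.l 0) (.l 0)) (.n 0 (.l 0) (.l 0))))) (.n 1 (.n 0 (.n 0 (.l 0) (.l 0)) (.n 0 (.n 0 (.l 0) (.l 0)) (.n 1 (.l 0) (.l 0)))) (.n 0 (.n 0 (.l 0) (.l 0)) (.n 1 (.n 0 (.l 0) (.l 0)) (.l 0))))) [(4123168604160, 274877906944), (186831077376, 33017561088), (318767104000, 10066329600)] rfl (by decide +kernel)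
theorem I3RT_12 : CovD 1 [pRT H BI3] [(4123168604160, 274877906944), (186831077376, 33017561088), (338899763200, 10066329600)] :=
  cov_of (fRT H BI3) (.n 2 (.n 1 (.n 0 (.n 0 (.l 0) (.l 0)) (.n 0 (.l 0) (.n 0 (.l 0) (.l 0)))) (.n 0 (.n 0 (.l 0) (.l 0)) (.n 1 (.l 0) (.l 0)))) (.n 1 (.n 0 (.n 0 (.l 0) (.l 0)) (.n 0 (.l 0) (.l 0))) (.n 0 (.n 0 (.l 0) (.l 0)) (.n 0 (.l 0) (.l 0))))) [(4123168604160, 274877906944), (186831077376, 33017561088), (338899763200, 10066329600)] rfl (by decide +kernel)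
end

mutual
theorem I3RT_15 : CovD 1 [pRT H BI3] [(4123168604160, 274877906944), (186831077376, 33017561088), (359032422400, 10066329600)] :=
  cov_of (fRT H BI3) (.n 2 (.n 0 (.n 1 (.n 0 (.l 0) (.l 0)) (.n 0 (.l 0) (.l 0))) (.n 1 (.n 0 (.l 0) (.l 0)) (.n 0 (.l 0) (.l 0)))) (.n 0 (.n 1 (.n 0 (.l 0) (.l 0)) (.n 0 (.l 0) (.l 0))) (.n 1 (.n 0 (.l 0) (.l 0)) (.n 0 (.l 0) (.l 0))))) [(4123168604160, 274877906944), (186831077376, 33017561088), (359032422400, 10066329600)] rfl (by decide +kernel)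
theorem I3RT_16 : CovD 1 [pRT H BI3] [(4123168604160, 274877906944), (186831077376, 33017561088), (379165081600, 10066329600)] :=
  cov_of (fRT H BI3) (.n 2 (.n 0 (.n 1 (.l 0) (.n 0 (.l 0) (.l 0))) (.n 1 (.n 0 (.l 0) (.l 0)) (.n 0 (.l 0) (.l 0)))) (.n 0 (.n 1 (.l 0) (.n 0 (.l 0) (.l 0))) (.n 1 (.n 0 (.l 0) (.l 0)) (.n 0 (.l 0) (.l 0))))) [(4123168604160, 274877906944), (186831077376, 33017561088), (379165081600, 10066329600)] rfl (by decide +kernel)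
theorem I3RT_18 : CovD 1 [pRT H BI3] [(4123168604160, 274877906944), (186831077376, 33017561088), (399297740800, 10066329600)] :=
  cov_of (fRT H BI3) (.n 2 (.n 1 (.n 0 (.l 0) (.n 0 (.l 0) (.l 0))) (.n 0 (.n 0 (.l 0) (.l 0)) (.n 1 (.l 0) (.l 0)))) (.n 1 (.n 0 (.n 0 (.l 0) (.l 0)) (.n 0 (.l 0) (.n 1 (.l 0) (.l 0)))) (.n 0 (.n 0 (.l 0) (.l 0)) (.n 0 (.n 0 (.l 0) (.l 0)) (.n 1 (.l 0) (.l 0)))))) [(4123168604160, 274877906944), (186831077376, 33017561088), (399297740800, 10066329600)] rfl (by decide +kernel)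
end

end Pool.Agent.helper82.WC.S5K4
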