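import Pool.Agent.helper82.WC.S5K4C0
import Pool.Agent.helper82.WC.S5K4C1
import Pool.Agent.helper82.WC.S5K4C2

/-!
Generated certificates, assembled.
-/

namespace Pool.Agent.helper82.WC.S5K4

open Pool.Agent.helper82.WH
open Pool.Agent.helper31.IC (CovD covD_split TD)

theorem I0AD_1 : CovD 0 [pAD H BI0] [(4123168604160, 274877906944), (186831077376, 33017561088), (20132659200, 20132659200)] :=
  covD_split 1 (by decide +kernel) I0AD_2 I0AD_3
theorem I0AD_4 : CovD 0 [pAD H BI0] [(4123168604160, 274877906944), (186831077376, 33017561088), (60397977600, 20132659200)] :=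
  covD_split 1 (by decide +kernel) I0AD_5 I0AD_6
theorem I0AD_0 : CovD 0 [pAD H BI0] [(4123168604160, 274877906944), (186831077376, 33017561088), (40265318400, 40265318400)] :=
  covD_split 2 (by decide +kernel) I0AD_1 I0AD_4
theorem I0AD_8 : CovD 0 [pAD H BI0] [(4123168604160, 274877906944), (186831077376, 33017561088), (100663296000, 20132659200)] :=
  covD_split 1 (by decide +kernel) I0AD_9 I0AD_10
theorem I0AD_11 : CovD 0 [pAD H BI0] [(4123168604160, 274877906944), (186831077376, 33017561088), (140928614400, 20132659200)] :=
  covD_split 1 (by decide +kernel) I0AD_12 I0AD_13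
theorem I0AD_7 : CovD 0 [pAD H BI0] [(4123168604160, 274877906944), (186831077376, 33017561088), (120795955200, 40265318400)] :=
  covD_split 2 (by decide +kernel) I0AD_8 I0AD_11
theorem I0AD : CovD 0 [pAD H BI0] [(4123168604160, 274877906944), (186831077376, 33017561088), (80530636800, 80530636800)] :=
  covD_split 2 (by decide +kernel) I0AD_0 I0AD_7
theorem I0RT_1 : CovD 1 [pRT H BI0] [(4123168604160, 274877906944), (186831077376, 33017561088), (20132659200, 20132659200)] :=
  covD_split 2 (by decide +kernel) I0RT_2 I0RT_3
theorem I0RT_6 : CovD 1 [pRT H BI0] [(4123168604160, 274877906944), (186831077376, 33017561088), (70464307200, 10066329600)] :=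
  covD_split 1 (by decide +kernel) I0RT_7 I0RT_8
theorem I0RT_4 : CovD 1 [pRT H BI0] [(4123168604160, 274877906944), (186831077376, 33017561088), (60397977600, 20132659200)] :=
  covD_split 2 (by decide +kernel) I0RT_5 I0RT_6
theorem I0RT_0 : CovD 1 [pRT H BI0] [(4123168604160, 274877906944), (186831077376, 33017561088), (40265318400, 40265318400)] :=
  covD_split 2 (by decide +kernel) I0RT_1 I0RT_4
theorem I0RT_11 : CovD 1 [pRT H BI0] [(4123168604160, 274877906944), (186831077376, 33017561088), (90596966400, 10066329600)] :=
  covD_split 1 (by decide +kernel) I0RT_12 I0RT_13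
theorem I0RT_14 : CovD 1 [pRT H BI0] [(4123168604160, 274877906944), (186831077376, 33017561088), (110729625600, 10066329600)] :=
  covD_split 1 (by decide +kernel) I0RT_15 I0RT_16
theorem I0RT_10 : CovD 1 [pRT H BI0] [(4123168604160, 274877906944), (186831077376, 33017561088), (100663296000, 20132659200)] :=
  covD_split 2 (by decide +kernel) I0RT_11 I0RT_14
theorem I0RT_18 : CovD 1 [pRT H BI0] [(4123168604160, 274877906944), (186831077376, 33017561088), (130862284800, 10066329600)] :=
  covD_split 1 (by decide +kernel) I0RT_19 I0RT_20
theorem I0RT_21 : CovD 1 [pRT H BI0] [(4123168604160, 274877906944), (186831077376, 33017561088), (150994944000, 10066329600)] :=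
  covD_split 1 (by decide +kernel) I0RT_22 I0RT_23
theorem I0RT_17 : CovD 1 [pRT H BI0] [(4123168604160, 274877906944), (186831077376, 33017561088), (140928614400, 20132659200)] :=
  covD_split 2 (by decide +kernel) I0RT_18 I0RT_21
theorem I0RT_9 : CovD 1 [pRT H BI0] [(4123168604160, 274877906944), (186831077376, 33017561088), (120795955200, 40265318400)] :=
  covD_split 2 (by decide +kernel) I0RT_10 I0RT_17
theorem I0RT : CovD 1 [pRT H BI0] [(4123168604160, 274877906944), (186831077376, 33017561088), (80530636800, 80530636800)] :=
  covD_split 2 (by decide +kernel) I0RT_0 I0RT_9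
theorem I1AD_0 : CovD 0 [pAD H BI1] [(4123168604160, 274877906944), (186831077376, 33017561088), (174483046400, 13421772800)] :=
  covD_split 1 (by decide +kernel) I1AD_1 I1AD_2
theorem I1AD_3 : CovD 0 [pAD H BI1] [(4123168604160, 274877906944), (186831077376, 33017561088), (201326592000, 13421772800)] :=
  covD_split 1 (by decide +kernel) I1AD_4 I1AD_5
theorem I1AD : CovD 0 [pAD H BI1] [(4123168604160, 274877906944), (186831077376, 33017561088), (187904819200, 26843545600)] :=
  covD_split 2 (by decide +kernel) I1AD_0 I1AD_3
theorem I1RT_1 : CovD 1 [pRT H BI1] [(4123168604160, 274877906944), (170322296832, 16508780544), (174483046400, 13421772800)] :=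
  covD_split 2 (by decide +kernel) I1RT_2 I1RT_3
theorem I1RT_0 : CovD 1 [pRT H BI1] [(4123168604160, 274877906944), (186831077376, 33017561088), (174483046400, 13421772800)] :=
  covD_split 1 (by decide +kernel) I1RT_1 I1RT_4
theorem I1RT_5 : CovD 1 [pRT H BI1] [(4123168604160, 274877906944), (186831077376, 33017561088), (201326592000, 13421772800)] :=
  covD_split 2 (by decide +kernel) I1RT_6 I1RT_7
theorem I1RT : CovD 1 [pRT H BI1] [(4123168604160, 274877906944), (186831077376, 33017561088), (187904819200, 26843545600)] :=
  covD_split 2 (by decide +kernel) I1RT_0 I1RT_5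
theorem I2AD_0 : CovD 0 [pAD H BI2] [(4123168604160, 274877906944), (186831077376, 33017561088), (228170137600, 13421772800)] :=
  covD_split 0 (by decide +kernel) I2AD_1 I2AD_2
theorem I2AD : CovD 0 [pAD H BI2] [(4123168604160, 274877906944), (186831077376, 33017561088), (241591910400, 26843545600)] :=
  covD_split 2 (by decide +kernel) I2AD_0 I2AD_3
theorem I2RT_0 : CovD 1 [pRT H BI2] [(4123168604160, 274877906944), (186831077376, 33017561088), (228170137600, 13421772800)] :=
  covD_split 2 (by decide +kernel) I2RT_1 I2RT_2
theorem I2RT_3 : CovD 1 [pRT H BI2] [(4123168604160, 274877906944), (186831077376, 33017561088), (255013683200, 13421772800)] :=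
  covD_split 2 (by decide +kernel) I2RT_4 I2RT_5
theorem I2RT : CovD 1 [pRT H BI2] [(4123168604160, 274877906944), (186831077376, 33017561088), (241591910400, 26843545600)] :=
  covD_split 2 (by decide +kernel) I2RT_0 I2RT_3
theorem I3AD_0 : CovD 0 [pAD H BI3] [(4123168604160, 274877906944), (186831077376, 33017561088), (308700774400, 40265318400)] :=
  covD_split 2 (by decide +kernel) I3AD_1 I3AD_2
theorem I3AD_5 : CovD 0 [pAD H BI3] [(4123168604160, 274877906944), (186831077376, 33017561088), (409364070400, 20132659200)] :=
  covD_split 0 (by decide +kernel) I3AD_6 I3AD_7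
theorem I3AD_3 : CovD 0 [pAD H BI3] [(4123168604160, 274877906944), (186831077376, 33017561088), (389231411200, 40265318400)] :=
  covD_split 2 (by decide +kernel) I3AD_4 I3AD_5
theorem I3AD : CovD 0 [pAD H BI3] [(4123168604160, 274877906944), (186831077376, 33017561088), (348966092800, 80530636800)] :=
  covD_split 2 (by decide +kernel) I3AD_0 I3AD_3
theorem I3G_0 : CovD 1 [pG H BI3] [(4123168604160, 274877906944), (186831077376, 33017561088), (308700774400, 40265318400)] :=
  covD_split 2 (by decide +kernel) I3G_1 I3G_2
theorem I3G_4 : CovD 1 [pG H BI3] [(4123168604160, 274877906944), (186831077376, 33017561088), (369098752000, 20132659200)] :=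
  covD_split 2 (by decide +kernel) I3G_5 I3G_6
theorem I3G_3 : CovD 1 [pG H BI3] [(4123168604160, 274877906944), (186831077376, 33017561088), (389231411200, 40265318400)] :=
  covD_split 2 (by decide +kernel) I3G_4 I3G_7
theorem I3G : CovD 1 [pG H BI3] [(4123168604160, 274877906944), (186831077376, 33017561088), (348966092800, 80530636800)] :=
  covD_split 2 (by decide +kernel) I3G_0 I3G_3
theorem I3RT_3 : CovD 1 [pRT H BI3] [(4123168604160, 274877906944), (170322296832, 16508780544), (278501785600, 10066329600)] :=
  covD_split 2 (by decide +kernel) I3RT_4 I3RT_5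
theorem I3RT_2 : CovD 1 [pRT H BI3] [(4123168604160, 274877906944), (186831077376, 33017561088), (278501785600, 10066329600)] :=
  covD_split 1 (by decide +kernel) I3RT_3 I3RT_6
theorem I3RT_7 : CovD 1 [pRT H BI3] [(4123168604160, 274877906944), (186831077376, 33017561088), (298634444800, 10066329600)] :=
  covD_split 1 (by decide +kernel) I3RT_8 I3RT_9
theorem I3RT_1 : CovD 1 [pRT H BI3] [(4123168604160, 274877906944), (186831077376, 33017561088), (288568115200, 20132659200)] :=
  covD_split 2 (by decide +kernel) I3RT_2 I3RT_7
theorem I3RT_10 : CovD 1 [pRT H BI3] [(4123168604160, 274877906944), (186831077376, 33017561088), (328833433600, 20132659200)] :=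
  covD_split 2 (by decide +kernel) I3RT_11 I3RT_12
theorem I3RT_0 : CovD 1 [pRT H BI3] [(4123168604160, 274877906944), (186831077376, 33017561088), (308700774400, 40265318400)] :=
  covD_split 2 (by decide +kernel) I3RT_1 I3RT_10
theorem I3RT_14 : CovD 1 [pRT H BI3] [(4123168604160, 274877906944), (186831077376, 33017561088), (369098752000, 20132659200)] :=
  covD_split 2 (by decide +kernel) I3RT_15 I3RT_16
theorem I3RT_21 : CovD 1 [pRT H BI3] [(4123168604160, 274877906944), (186831077376, 33017561088), (424463564800, 5033164800)] :=
  covD_split 1 (by decide +kernel) I3RT_22 I3RT_23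
theorem I3RT_19 : CovD 1 [pRT H BI3] [(4123168604160, 274877906944), (186831077376, 33017561088), (419430400000, 10066329600)] :=
  covD_split 2 (by decide +kernel) I3RT_20 I3RT_21
theorem I3RT_17 : CovD 1 [pRT H BI3] [(4123168604160, 274877906944), (186831077376, 33017561088), (409364070400, 20132659200)] :=
  covD_split 2 (by decide +kernel) I3RT_18 I3RT_19
theorem I3RT_13 : CovD 1 [pRT H BI3] [(4123168604160, 274877906944), (186831077376, 33017561088), (389231411200, 40265318400)] :=
  covD_split 2 (by decide +kernel) I3RT_14 I3RT_17
theorem I3RT : CovD 1 [pRT H BI3] [(4123168604160, 274877906944), (186831077376, 33017561088), (348966092800, 80530636800)] :=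
  covD_split 2 (by decide +kernel) I3RT_0 I3RT_13
theorem MTT : CovD 1 [pTT H BM] [(4123168604160, 274877906944), (186831077376, 33017561088), (0, 0)] :=
  covD_split 1 (by decide +kernel) MTT_0 MTT_1

end Pool.Agent.helper82.WC.S5K4
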