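import Pool.Agent.helper82.WC.S5K4P

/-!
Generated certificates (in pairs, so that they are checked one after the other).
-/

namespace Pool.Agent.helper82.WC.S5K4

open Pool.Agent.helper82.WH
open Pool.Agent.helper31.IC (CovD covD_split TD)

mutual
theorem I0AD_2 : CovD 0 [pAD H BI0] [(4123168604160, 274877906944), (170322296832, 16508780544), (20132659200, 20132659200)] :=
  cov_of (fAD H BI0) (.n 2 (.n 0 (.n 1 (.n 0 (.l 0) (.l 0)) (.n 0 (.l 0) (.l 0))) (.n 1 (.n 0 (.l 0) (.l 0)) (.n 0 (.l 0) (.l 0)))) (.n 0 (.n 1 (.n 0 (.l 0) (.l 0)) (.n 0 (.l 0) (.l 0))) (.n 1 (.n 0 (.l 0) (.l 0)) (.n 0 (.l 0) (.l 0))))) [(4123168604160, 274877906944), (170322296832, 16508780544), (20132659200, 20132659200)] rfl (by decide +kernel)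
theorem I0AD_3 : CovD 0 [pAD H BI0] [(4123168604160, 274877906944), (203339857920, 16508780544), (20132659200, 20132659200)] :=
  cov_of (fAD H BI0) (.n 2 (.n 0 (.n 1 (.n 0 (.l 0) (.l 0)) (.n 0 (.l 0) (.l 0))) (.n 1 (.n 0 (.l 0) (.l 0)) (.n 0 (.l 0) (.l 0)))) (.n 0 (.n 1 (.n 0 (.l 0) (.l 0)) (.n 0 (.l 0) (.l 0))) (.n 1 (.n 0 (.l 0) (.l 0)) (.n 0 (.l 0) (.l 0))))) [(4123168604160, 274877906944), (203339857920, 16508780544), (20132659200, 20132659200)] rfl (by decide +kernel)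
end

mutual
theorem I0AD_5 : CovD 0 [pAD H BI0] [(4123168604160, 274877906944), (170322296832, 16508780544), (60397977600, 20132659200)] :=
  cov_of (fAD H BI0) (.n 2 (.n 0 (.n 1 (.n 0 (.l 0) (.l 0)) (.n 0 (.l 0) (.l 0))) (.n 1 (.n 2 (.l 0) (.l 0)) (.n 0 (.l 0) (.l 0)))) (.n 0 (.n 1 (.n 0 (.l 0) (.n 0 (.l 0) (.l 0))) (.n 0 (.l 0) (.l 0))) (.n 1 (.n 2 (.n 0 (.l 0) (.l 0)) (.n 0 (.l 0) (.l 0))) (.n 0 (.l 0) (.l 0))))) [(4123168604160, 274877906944), (170322296832, 16508780544), (60397977600, 20132659200)] rfl (by decide +kernel)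
theorem I0AD_6 : CovD 0 [pAD H BI0] [(4123168604160, 274877906944), (203339857920, 16508780544), (60397977600, 20132659200)] :=
  cov_of (fAD H BI0) (.n 2 (.n 0 (.n 1 (.n 0 (.l 0) (.l 0)) (.n 0 (.l 0) (.l 0))) (.n 1 (.n 0 (.l 0) (.l 0)) (.n 0 (.l 0) (.l 0)))) (.n 0 (.n 1 (.n 0 (.l 0) (.l 0)) (.n 0 (.l 0) (.l 0))) (.n 1 (.n 0 (.l 0) (.l 0)) (.n 0 (.l 0) (.l 0))))) [(4123168604160, 274877906944), (203339857920, 16508780544), (60397977600, 20132659200)] rfl (by decide +kernel)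
end

mutual
theorem I0AD_9 : CovD 0 [pAD H BI0] [(4123168604160, 274877906944), (170322296832, 16508780544), (100663296000, 20132659200)] :=
  cov_of (fAD H BI0) (.n 2 (.n 0 (.n 1 (.n 0 (.l 0) (.n 0 (.l 0) (.l 0))) (.n 0 (.l 0) (.l 0))) (.n 1 (.n 2 (.n 0 (.l 0) (.l 0)) (.n 0 (.l 0) (.l 0))) (.n 0 (.l 0) (.l 0)))) (.n 0 (.n 1 (.n 0 (.l 0) (.l 0)) (.n 0 (.l 0) (.l 0))) (.n 1 (.n 2 (.n 0 (.l 0) (.l 0)) (.n 0 (.l 0) (.l 0))) (.n 0 (.l 0) (.l 0))))) [(4123168604160, 274877906944), (170322296832, 16508780544), (100663296000, 20132659200)] rfl (by decide +kernel)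
theorem I0AD_10 : CovD 0 [pAD H BI0] [(4123168604160, 274877906944), (203339857920, 16508780544), (100663296000, 20132659200)] :=
  cov_of (fAD H BI0) (.n 2 (.n 0 (.n 1 (.n 0 (.l 0) (.l 0)) (.n 0 (.l 0) (.l 0))) (.n 1 (.n 0 (.l 0) (.l 0)) (.n 0 (.l 0) (.l 0)))) (.n 0 (.n 1 (.n 0 (.l 0) (.l 0)) (.n 0 (.l 0) (.l 0))) (.n 1 (.n 0 (.l 0) (.l 0)) (.n 0 (.l 0) (.l 0))))) [(4123168604160, 274877906944), (203339857920, 16508780544), (100663296000, 20132659200)] rfl (by decide +kernel)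
end

mutual
theorem I0AD_12 : CovD 0 [pAD H BI0] [(4123168604160, 274877906944), (170322296832, 16508780544), (140928614400, 20132659200)] :=
  cov_of (fAD H BI0) (.n 2 (.n 0 (.n 1 (.n 0 (.l 0) (.l 0)) (.n 0 (.l 0) (.l 0))) (.n 1 (.n 0 (.l 0) (.n 0 (.l 0) (.l 0))) (.n 0 (.l 0) (.l 0)))) (.n 0 (.n 1 (.n 0 (.l 0) (.l 0)) (.n 0 (.l 0) (.l 0))) (.n 1 (.n 0 (.l 0) (.l 0)) (.n 0 (.l 0) (.l 0))))) [(4123168604160, 274877906944), (170322296832, 16508780544), (140928614400, 20132659200)] rfl (by decide +kernel)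
theorem I0AD_13 : CovD 0 [pAD H BI0] [(4123168604160, 274877906944), (203339857920, 16508780544), (140928614400, 20132659200)] :=
  cov_of (fAD H BI0) (.n 2 (.n 0 (.n 1 (.n 0 (.l 0) (.l 0)) (.n 0 (.l 0) (.l 0))) (.n 1 (.n 0 (.l 0) (.l 0)) (.n 0 (.l 0) (.l 0)))) (.n 0 (.n 1 (.n 0 (.l 0) (.l 0)) (.n 0 (.l 0) (.l 0))) (.n 1 (.n 0 (.l 0) (.l 0)) (.n 0 (.l 0) (.l 0))))) [(4123168604160, 274877906944), (203339857920, 16508780544), (140928614400, 20132659200)] rfl (by decide +kernel)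
end

mutual
theorem I0G : CovD 1 [pG H BI0] [(4123168604160, 274877906944), (186831077376, 33017561088), (80530636800, 80530636800)] :=
  cov_of (fG H BI0) (.n 2 (.n 2 (.l 0) (.l 0)) (.n 2 (.n 1 (.l 0) (.n 0 (.l 0) (.l 0))) (.n 1 (.n 2 (.l 0) (.l 0)) (.n 2 (.n 0 (.l 0) (.l 0)) (.n 0 (.l 0) (.n 1 (.l 0) (.n 0 (.l 0) (.l 0)))))))) [(4123168604160, 274877906944), (186831077376, 33017561088), (80530636800, 80530636800)] rfl (by decide +kernel)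
theorem I0RT_2 : CovD 1 [pRT H BI0] [(4123168604160, 274877906944), (186831077376, 33017561088), (10066329600, 10066329600)] :=
  cov_of (fRT H BI0) (.n 1 (.n 2 (.n 2 (.n 1 (.l 0) (.l 0)) (.n 1 (.l 0) (.l 0))) (.n 2 (.n 1 (.l 0) (.l 0)) (.n 1 (.l 0) (.l 0)))) (.n 2 (.n 1 (.n 0 (.l 0) (.l 0)) (.l 0)) (.n 1 (.n 0 (.l 0) (.l 0)) (.n 0 (.l 0) (.l 0))))) [(4123168604160, 274877906944), (186831077376, 33017561088), (10066329600, 10066329600)] rfl (by decide +kernel)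
end

mutual
theorem I0RT_3 : CovD 1 [pRT H BI0] [(4123168604160, 274877906944), (186831077376, 33017561088), (30198988800, 10066329600)] :=
  cov_of (fRT H BI0) (.n 1 (.n 2 (.n 2 (.n 1 (.l 0) (.l 0)) (.n 1 (.l 0) (.l 0))) (.n 2 (.n 1 (.l 0) (.l 0)) (.n 1 (.l 0) (.l 0)))) (.n 2 (.n 1 (.n 0 (.l 0) (.l 0)) (.n 0 (.l 0) (.l 0))) (.n 2 (.n 1 (.l 0) (.l 0)) (.n 1 (.l 0) (.l 0))))) [(4123168604160, 274877906944), (186831077376, 33017561088), (30198988800, 10066329600)] rfl (by decide +kernel)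
theorem I0RT_5 : CovD 1 [pRT H BI0] [(4123168604160, 274877906944), (186831077376, 33017561088), (50331648000, 10066329600)] :=
  cov_of (fRT H BI0) (.n 1 (.n 2 (.n 2 (.n 1 (.n 0 (.l 0) (.l 0)) (.n 0 (.l 0) (.l 0))) (.n 1 (.n 0 (.l 0) (.l 0)) (.n 0 (.l 0) (.l 0)))) (.n 2 (.n 1 (.n 0 (.l 0) (.l 0)) (.n 0 (.l 0) (.l 0))) (.n 1 (.n 0 (.l 0) (.l 0)) (.n 0 (.l 0) (.l 0))))) (.n 2 (.n 1 (.n 0 (.l 0) (.l 0)) (.n 0 (.l 0) (.l 0))) (.n 1 (.n 1 (.l 0) (.l 0)) (.n 0 (.l 0) (.l 0))))) [(4123168604160, 274877906944), (186831077376, 33017561088), (50331648000, 10066329600)] rfl (by decide +kernel)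
end

mutual
theorem I0RT_7 : CovD 1 [pRT H BI0] [(4123168604160, 274877906944), (170322296832, 16508780544), (70464307200, 10066329600)] :=
  cov_of (fRT H BI0) (.n 2 (.n 2 (.n 1 (.n 0 (.l 0) (.l 0)) (.n 0 (.l 0) (.l 0))) (.n 1 (.n 0 (.l 0) (.l 0)) (.n 0 (.l 0) (.l 0)))) (.n 2 (.n 1 (.n 1 (.l 0) (.l 0)) (.n 1 (.l 0) (.l 0))) (.n 1 (.n 1 (.l 0) (.l 0)) (.n 1 (.l 0) (.l 0))))) [(4123168604160, 274877906944), (170322296832, 16508780544), (70464307200, 10066329600)] rfl (by decide +kernel)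
theorem I0RT_8 : CovD 1 [pRT H BI0] [(4123168604160, 274877906944), (203339857920, 16508780544), (70464307200, 10066329600)] :=
  cov_of (fRT H BI0) (.n 2 (.n 1 (.n 0 (.l 0) (.n 0 (.l 0) (.l 0))) (.n 1 (.l 0) (.l 0))) (.n 1 (.n 0 (.l 0) (.n 1 (.l 0) (.l 0))) (.n 0 (.l 0) (.n 0 (.l 0) (.l 0))))) [(4123168604160, 274877906944), (203339857920, 16508780544), (70464307200, 10066329600)] rfl (by decide +kernel)
end

mutual
theorem I0RT_12 : CovD 1 [pRT H BI0] [(4123168604160, 274877906944), (170322296832, 16508780544), (90596966400, 10066329600)] :=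
  cov_of (fRT H BI0) (.n 2 (.n 2 (.n 1 (.n 0 (.l 0) (.n 0 (.l 0) (.l 0))) (.n 1 (.n 0 (.l 0) (.l 0)) (.l 0))) (.n 1 (.n 0 (.l 0) (.n 0 (.l 0) (.l 0))) (.n 0 (.l 0) (.n 0 (.l 0) (.l 0))))) (.n 2 (.n 1 (.n 0 (.l 0) (.n 0 (.l 0) (.l 0))) (.n 0 (.l 0) (.n 0 (.l 0) (.l 0)))) (.n 1 (.n 0 (.l 0) (.n 0 (.l 0) (.l 0))) (.n 0 (.l 0) (.n 0 (.l 0) (.l 0)))))) [(4123168604160, 274877906944), (170322296832, 16508780544), (90596966400, 10066329600)] rfl (by decide +kernel)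
theorem I0RT_13 : CovD 1 [pRT H BI0] [(4123168604160, 274877906944), (203339857920, 16508780544), (90596966400, 10066329600)] :=
  cov_of (fRT H BI0) (.n 2 (.n 1 (.n 0 (.l 0) (.n 1 (.l 0) (.l 0))) (.n 0 (.l 0) (.n 0 (.l 0) (.l 0)))) (.n 1 (.n 0 (.l 0) (.n 1 (.l 0) (.l 0))) (.n 0 (.l 0) (.n 0 (.l 0) (.l 0))))) [(4123168604160, 274877906944), (203339857920, 16508780544), (90596966400, 10066329600)] rfl (by decide +kernel)
end

mutual
theorem I0RT_15 : CovD 1 [pRT H BI0] [(4123168604160, 274877906944), (170322296832, 16508780544), (110729625600, 10066329600)] :=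
  cov_of (fRT H BI0) (.n 2 (.n 2 (.n 1 (.n 0 (.l 0) (.n 0 (.l 0) (.l 0))) (.n 0 (.l 0) (.n 0 (.l 0) (.l 0)))) (.n 1 (.n 0 (.l 0) (.n 0 (.l 0) (.l 0))) (.n 0 (.l 0) (.n 0 (.l 0) (.l 0))))) (.n 2 (.n 1 (.n 0 (.l 0) (.n 0 (.l 0) (.l 0))) (.n 0 (.l 0) (.n 0 (.l 0) (.l 0)))) (.n 1 (.n 0 (.l 0) (.n 0 (.l 0) (.l 0))) (.n 0 (.l 0) (.n 0 (.l 0) (.l 0)))))) [(4123168604160, 274877906944), (170322296832, 16508780544), (110729625600, 10066329600)] rfl (by decide +kernel)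
theorem I0RT_16 : CovD 1 [pRT H BI0] [(4123168604160, 274877906944), (203339857920, 16508780544), (110729625600, 10066329600)] :=
  cov_of (fRT H BI0) (.n 2 (.n 1 (.n 0 (.l 0) (.n 1 (.l 0) (.l 0))) (.n 0 (.l 0) (.n 0 (.l 0) (.l 0)))) (.n 1 (.n 0 (.l 0) (.n 0 (.l 0) (.l 0))) (.n 0 (.l 0) (.n 0 (.l 0) (.l 0))))) [(4123168604160, 274877906944), (203339857920, 16508780544), (110729625600, 10066329600)] rfl (by decide +kernel)
end

mutual
theorem I0RT_19 : CovD 1 [pRT H BI0] [(4123168604160, 274877906944), (170322296832, 16508780544), (130862284800, 10066329600)] :=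
  cov_of (fRT H BI0) (.n 2 (.n 2 (.n 1 (.n 0 (.l 0) (.n 0 (.l 0) (.l 0))) (.n 0 (.l 0) (.l 0))) (.n 1 (.n 0 (.l 0) (.n 0 (.l 0) (.l 0))) (.n 0 (.l 0) (.l 0)))) (.n 1 (.n 0 (.l 0) (.n 1 (.l 0) (.l 0))) (.n 0 (.l 0) (.n 0 (.l 0) (.l 0))))) [(4123168604160, 274877906944), (170322296832, 16508780544), (130862284800, 10066329600)] rfl (by decide +kernel)
theorem I0RT_20 : CovD 1 [pRT H BI0] [(4123168604160, 274877906944), (203339857920, 16508780544), (130862284800, 10066329600)] :=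
  cov_of (fRT H BI0) (.n 2 (.n 1 (.n 0 (.l 0) (.n 0 (.l 0) (.l 0))) (.n 0 (.l 0) (.n 0 (.l 0) (.l 0)))) (.n 1 (.n 0 (.l 0) (.n 0 (.l 0) (.l 0))) (.n 0 (.l 0) (.l 0)))) [(4123168604160, 274877906944), (203339857920, 16508780544), (130862284800, 10066329600)] rfl (by decide +kernel)
end

mutual
theorem I0RT_22 : CovD 1 [pRT H BI0] [(4123168604160, 274877906944), (170322296832, 16508780544), (150994944000, 10066329600)] :=
  cov_of (fRT H BI0) (.n 2 (.n 2 (.n 1 (.n 0 (.l 0) (.n 0 (.l 0) (.l 0))) (.n 0 (.l 0) (.l 0))) (.n 1 (.n 0 (.l 0) (.n 0 (.l 0) (.l 0))) (.n 0 (.l 0) (.l 0)))) (.n 1 (.n 0 (.l 0) (.n 1 (.n 0 (.l 0) (.l 0)) (.l 0))) (.n 0 (.l 0) (.n 1 (.l 0) (.l 0))))) [(4123168604160, 274877906944), (170322296832, 16508780544), (150994944000, 10066329600)] rfl (by decide +kernel)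
theorem I0RT_23 : CovD 1 [pRT H BI0] [(4123168604160, 274877906944), (203339857920, 16508780544), (150994944000, 10066329600)] :=
  cov_of (fRT H BI0) (.n 2 (.n 1 (.n 0 (.l 0) (.n 0 (.l 0) (.l 0))) (.n 0 (.l 0) (.l 0))) (.n 1 (.n 0 (.l 0) (.n 0 (.l 0) (.l 0))) (.n 0 (.l 0) (.l 0)))) [(4123168604160, 274877906944), (203339857920, 16508780544), (150994944000, 10066329600)] rfl (by decide +kernel)
end

mutual
theorem I1AD_1 : CovD 0 [pAD H BI1] [(4123168604160, 274877906944), (170322296832, 16508780544), (174483046400, 13421772800)] :=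
  cov_of (fAD H BI1) (.n 0 (.n 2 (.n 1 (.n 0 (.l 0) (.l 0)) (.n 0 (.l 0) (.l 0))) (.n 1 (.n 0 (.l 0) (.l 0)) (.n 0 (.l 0) (.l 0)))) (.n 2 (.n 1 (.n 0 (.l 0) (.l 0)) (.n 0 (.l 0) (.l 0))) (.n 1 (.n 0 (.l 0) (.l 0)) (.n 0 (.l 0) (.l 0))))) [(4123168604160, 274877906944), (170322296832, 16508780544), (174483046400, 13421772800)] rfl (by decide +kernel)
theorem I1AD_2 : CovD 0 [pAD H BI1] [(4123168604160, 274877906944), (203339857920, 16508780544), (174483046400, 13421772800)] :=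
  cov_of (fAD H BI1) (.n 0 (.n 2 (.n 1 (.n 0 (.l 0) (.l 0)) (.n 0 (.l 0) (.l 0))) (.n 1 (.n 0 (.l 0) (.l 0)) (.n 0 (.l 0) (.l 0)))) (.n 1 (.n 2 (.n 0 (.l 0) (.l 0)) (.n 0 (.l 0) (.l 0))) (.n 2 (.n 0 (.l 0) (.l 0)) (.n 0 (.l 0) (.l 0))))) [(4123168604160, 274877906944), (203339857920, 16508780544), (174483046400, 13421772800)] rfl (by decide +kernel)
end

mutual
theorem I1AD_4 : CovD 0 [pAD H BI1] [(4123168604160, 274877906944), (170322296832, 16508780544), (201326592000, 13421772800)] :=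
  cov_of (fAD H BI1) (.n 0 (.n 2 (.n 1 (.n 0 (.l 0) (.l 0)) (.n 0 (.l 0) (.l 0))) (.n 0 (.n 0 (.l 0) (.l 0)) (.n 0 (.l 0) (.l 0)))) (.n 2 (.n 1 (.n 0 (.l 0) (.l 0)) (.n 0 (.l 0) (.l 0))) (.n 1 (.n 0 (.l 0) (.l 0)) (.n 0 (.l 0) (.l 0))))) [(4123168604160, 274877906944), (170322296832, 16508780544), (201326592000, 13421772800)] rfl (by decide +kernel)
theorem I1AD_5 : CovD 0 [pAD H BI1] [(4123168604160, 274877906944), (203339857920, 16508780544), (201326592000, 13421772800)] :=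
  cov_of (fAD H BI1) (.n 0 (.n 0 (.n 2 (.n 0 (.l 0) (.l 0)) (.l 0)) (.n 2 (.n 0 (.l 0) (.l 0)) (.l 0))) (.n 2 (.n 1 (.n 0 (.l 0) (.l 0)) (.l 0)) (.n 1 (.l 0) (.l 0)))) [(4123168604160, 274877906944), (203339857920, 16508780544), (201326592000, 13421772800)] rfl (by decide +kernel)
end

mutual
theorem I1G : CovD 1 [pG H BI1] [(4123168604160, 274877906944), (186831077376, 33017561088), (187904819200, 26843545600)] :=
  cov_of (fG H BI1) (.n 2 (.n 1 (.l 0) (.n 0 (.l 0) (.n 0 (.l 0) (.l 0)))) (.n 1 (.n 0 (.l 0) (.n 0 (.l 0) (.l 0))) (.n 0 (.n 1 (.l 0) (.l 0)) (.n 2 (.n 0 (.l 0) (.l 0)) (.n 1 (.l 0) (.n 0 (.l 0) (.l 0))))))) [(4123168604160, 274877906944), (186831077376, 33017561088), (187904819200, 26843545600)] rfl (by decide +kernel)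
theorem I1RT_2 : CovD 1 [pRT H BI1] [(4123168604160, 274877906944), (170322296832, 16508780544), (167772160000, 6710886400)] :=
  cov_of (fRT H BI1) (.n 2 (.n 1 (.n 0 (.l 0) (.n 0 (.l 0) (.n 1 (.l 0) (.l 0)))) (.n 0 (.l 0) (.n 1 (.l 0) (.l 0)))) (.n 1 (.n 0 (.l 0) (.n 1 (.n 0 (.l 0) (.l 0)) (.l 0))) (.n 0 (.l 0) (.n 0 (.l 0) (.l 0))))) [(4123168604160, 274877906944), (170322296832, 16508780544), (167772160000, 6710886400)] rfl (by decide +kernel)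
end

mutual
theorem I1RT_3 : CovD 1 [pRT H BI1] [(4123168604160, 274877906944), (170322296832, 16508780544), (181193932800, 6710886400)] :=
  cov_of (fRT H BI1) (.n 2 (.n 1 (.n 0 (.l 0) (.n 1 (.l 0) (.l 0))) (.n 0 (.l 0) (.n 0 (.l 0) (.l 0)))) (.n 1 (.n 0 (.l 0) (.n 0 (.l 0) (.l 0))) (.n 0 (.l 0) (.n 0 (.l 0) (.l 0))))) [(4123168604160, 274877906944), (170322296832, 16508780544), (181193932800, 6710886400)] rfl (by decide +kernel)
theorem I1RT_4 : CovD 1 [pRT H BI1] [(4123168604160, 274877906944), (203339857920, 16508780544), (174483046400, 13421772800)] :=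
  cov_of (fRT H BI1) (.n 2 (.n 2 (.n 1 (.n 0 (.l 0) (.n 0 (.l 0) (.l 0))) (.n 0 (.l 0) (.n 0 (.l 0) (.l 0)))) (.n 1 (.n 0 (.l 0) (.n 0 (.l 0) (.l 0))) (.n 0 (.l 0) (.n 0 (.l 0) (.l 0))))) (.n 1 (.n 0 (.n 0 (.l 0) (.l 0)) (.n 0 (.l 0) (.n 0 (.l 0) (.l 0)))) (.n 0 (.l 0) (.n 1 (.l 0) (.l 0))))) [(4123168604160, 274877906944), (203339857920, 16508780544), (174483046400, 13421772800)] rfl (by decide +kernel)
theorem I1RT_6 : CovD 1 [pRT H BI1] [(4123168604160, 274877906944), (186831077376, 33017561088), (194615705600, 6710886400)] :=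
  cov_of (fRT H BI1) (.n 1 (.n 2 (.n 1 (.n 0 (.l 0) (.n 0 (.l 0) (.l 0))) (.n 0 (.l 0) (.n 0 (.l 0) (.l 0)))) (.n 0 (.n 1 (.l 0) (.l 0)) (.n 1 (.n 0 (.l 0) (.l 0)) (.l 0)))) (.n 1 (.n 0 (.l 0) (.n 0 (.l 0) (.l 0))) (.n 0 (.l 0) (.n 0 (.l 0) (.l 0))))) [(4123168604160, 274877906944), (186831077376, 33017561088), (194615705600, 6710886400)] rfl (by decide +kernel)
end

end Pool.Agent.helper82.WC.S5K4
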