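import Pool.Agent.helper82.WH.Chks

/-!
Generated: constants of a cell.
-/

namespace Pool.Agent.helper82.WC.S5K4

open Pool.Agent.helper82.WH
open Pool.Agent.helper31.IC (CovD covD_split TD)

def H : HC := ⟨⟨4123168604160, 0⟩, ⟨31746686976, 0⟩, ⟨0, 1374935646208⟩, ⟨0, 1178680229888⟩, ⟨3245880639488, 0⟩, ⟨0, 6826002219008⟩, ⟨1183959875584, 0⟩, ⟨1305130958848, 0⟩, ⟨12024994988032, 0⟩, ⟨0, 42883167092736⟩, ⟨571240087552, 0⟩, ⟨0, 30021386240⟩, ⟨824614649856, 0⟩, ⟨1599446384640, 0⟩, ⟨955232419840, 0⟩, ⟨0, 619891589120⟩, ⟨0, 1045933064192⟩, ⟨0, 1787582873600⟩, ⟨0, 774697648128⟩, ⟨0, 4573260021760⟩, ⟨8691318390784, 0⟩, ⟨1074747736064, 0⟩, ⟨60077506560, 0⟩, ⟨2167334371328, 0⟩, ⟨2927444361216, 0⟩, ⟨0, 110150676578304⟩, ⟨0, 0⟩⟩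

def BI0 : BC := ⟨⟨0, 0, 1099511627776, 0⟩, ⟨0, 0⟩, ⟨0, 0⟩, 92009005056, 33451147264, 78010318848, 880623484928, 159428116480, 16089350144, 1242772275200, 1247822217216, ⟨18056042512384, 0⟩, ⟨0, 3122441224192⟩, ⟨1000957542400, 0⟩, ⟨0, 0⟩, ⟨0, 0⟩⟩

def BI1 : BC := ⟨⟨0, 0, 1099511627776, 0⟩, ⟨0, 0⟩, ⟨0, 0⟩, 87090397184, 33831911424, 112240558080, 846117404672, 159428116480, 20099104768, 1532548349952, 1211113668608, ⟨13469017440256, 0⟩, ⟨0, 5166845657088⟩, ⟨1005444202496, 0⟩, ⟨0, 0⟩, ⟨0, 0⟩⟩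

def BI2 : BC := ⟨⟨0, 0, 1099511627776, 0⟩, ⟨0, 0⟩, ⟨0, 0⟩, 78606368768, 32610385920, 155607760896, 806411304960, 159428116480, 24981274624, 1795044671488, 1185813626880, ⟨10956461572096, 0⟩, ⟨0, 5411658792960⟩, ⟨1013348499456, 0⟩, ⟨0, 0⟩, ⟨0, 0⟩⟩

def BI3 : BC := ⟨⟨0, 0, 1099511627776, 0⟩, ⟨0, 0⟩, ⟨0, 0⟩, 77847789568, 31805407232, 202716872704, 740372185088, 159428116480, 38419824640, 2433434517504, 1153567817728, ⟨6876242640896, 0⟩, ⟨0, 5248450035712⟩, ⟨1013415477248, 0⟩, ⟨0, 0⟩, ⟨0, 0⟩⟩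

def BR0 : BC := ⟨⟨0, 0, 0, 0⟩, ⟨164926717952, 0⟩, ⟨1099511627776, 0⟩, 73623994368, 33652473856, 74709467136, 907941904384, 159428116480, 11190403072, 659311034368, 1253878792192, ⟨0, 0⟩, ⟨0, 0⟩, ⟨1019379384320, 0⟩, ⟨0, 0⟩, ⟨0, 0⟩⟩

def BP : BC := ⟨⟨0, 0, 0, 0⟩, ⟨164926717952, 0⟩, ⟨1099511627776, 0⟩, 106909925376, 40590311424, 96749682688, 837449875456, 115447627776, 9680453632, 659311034368, 1242117963776, ⟨0, 0⟩, ⟨0, 0⟩, ⟨569175900160, 0⟩, ⟨0, 0⟩, ⟨1099511627776, 0⟩⟩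

def BM : BC := ⟨⟨0, 0, 0, 0⟩, ⟨164926717952, 0⟩, ⟨1099511627776, 0⟩, 72962342912, 33756348416, 74995138560, 908481069056, 115447627776, 11190403072, 595205292032, 1253878792192, ⟨0, 0⟩, ⟨0, 0⟩, ⟨597918613504, 0⟩, ⟨0, 0⟩, ⟨0, 1099511627776⟩⟩

def BT : BC := ⟨⟨0, 0, 1099511627776, 0⟩, ⟨0, 0⟩, ⟨0, 0⟩, 80678027264, 32560119808, 163491807232, 711472250880, 159428116480, 38419824640, 2433434517504, 1019215872000, ⟨5153960755200, 0⟩, ⟨0, 4788888535040⟩, ⟨919717281792, 0⟩, ⟨1099511627776, 0⟩, ⟨0, 0⟩⟩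

end Pool.Agent.helper82.WC.S5K4
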