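import Pool.Agent.helper82.WC.S5K5P

/-!
Generated certificates (in pairs, so that they are checked one after the other).
-/

namespace Pool.Agent.helper82.WC.S5K5

open Pool.Agent.helper82.WH
open Pool.Agent.helper31.IC (CovD covD_split TD)

mutual
theorem I2RT_4 : CovD 1 [pRT H BI2] [(4123168604160, 274877906944), (241860345856, 22011707392), (205084688384, 5368709120)] :=
  cov_of (fRT H BI2) (.n 1 (.n 0 (.n 1 (.n 0 (.l 0) (.l 0)) (.l 0)) (.n 1 (.n 0 (.l 0) (.n 0 (.l 0) (.l 0))) (.n 0 (.l 0) (.l 0)))) (.n 0 (.n 0 (.l 0) (.l 0)) (.n 1 (.n 0 (.l 0) (.l 0)) (.n 0 (.l 0) (.l 0))))) [(4123168604160, 274877906944), (241860345856, 22011707392), (205084688384, 5368709120)] rfl (by decide +kernel)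
theorem I2RT_5 : CovD 1 [pRT H BI2] [(4123168604160, 274877906944), (241860345856, 22011707392), (221190815744, 10737418240)] :=
  cov_of (fRT H BI2) (.n 2 (.n 1 (.n 0 (.n 1 (.n 0 (.l 0) (.l 0)) (.l 0)) (.n 1 (.n 0 (.l 0) (.l 0)) (.n 0 (.l 0) (.l 0)))) (.n 0 (.n 0 (.l 0) (.l 0)) (.n 1 (.n 0 (.l 0) (.l 0)) (.n 0 (.l 0) (.l 0))))) (.n 1 (.n 0 (.n 1 (.l 0) (.l 0)) (.n 1 (.n 0 (.l 0) (.l 0)) (.n 0 (.l 0) (.l 0)))) (.n 0 (.n 0 (.l 0) (.l 0)) (.n 1 (.n 0 (.l 0) (.l 0)) (.l 0))))) [(4123168604160, 274877906944), (241860345856, 22011707392), (221190815744, 10737418240)] rfl (by decide +kernel)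
end

mutual
theorem I2RT_7 : CovD 1 [pRT H BI2] [(4123168604160, 274877906944), (285883760640, 22011707392), (199715979264, 10737418240)] :=
  cov_of (fRT H BI2) (.n 2 (.n 1 (.n 0 (.n 0 (.l 0) (.l 0)) (.n 1 (.l 0) (.l 0))) (.n 0 (.l 0) (.n 0 (.l 0) (.l 0)))) (.n 1 (.n 0 (.n 0 (.l 0) (.l 0)) (.n 1 (.l 0) (.l 0))) (.n 0 (.l 0) (.n 0 (.l 0) (.l 0))))) [(4123168604160, 274877906944), (285883760640, 22011707392), (199715979264, 10737418240)] rfl (by decide +kernel)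
theorem I2RT_8 : CovD 1 [pRT H BI2] [(4123168604160, 274877906944), (285883760640, 22011707392), (221190815744, 10737418240)] :=
  cov_of (fRT H BI2) (.n 2 (.n 1 (.n 0 (.n 0 (.l 0) (.l 0)) (.n 0 (.l 0) (.l 0))) (.n 0 (.l 0) (.n 0 (.l 0) (.l 0)))) (.n 1 (.n 0 (.l 0) (.n 0 (.l 0) (.l 0))) (.n 0 (.l 0) (.n 0 (.l 0) (.l 0))))) [(4123168604160, 274877906944), (285883760640, 22011707392), (221190815744, 10737418240)] rfl (by decide +kernel)
end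

mutual
theorem I2RT_11 : CovD 1 [pRT H BI2] [(4123168604160, 274877906944), (241860345856, 22011707392), (242665652224, 10737418240)] :=
  cov_of (fRT H BI2) (.n 2 (.n 1 (.n 0 (.n 0 (.l 0) (.l 0)) (.n 1 (.n 0 (.l 0) (.l 0)) (.n 0 (.l 0) (.l 0)))) (.n 0 (.n 0 (.l 0) (.l 0)) (.n 1 (.l 0) (.l 0)))) (.n 1 (.n 0 (.n 0 (.l 0) (.l 0)) (.n 1 (.n 0 (.l 0) (.l 0)) (.l 0))) (.n 0 (.n 0 (.l 0) (.l 0)) (.n 0 (.l 0) (.l 0))))) [(4123168604160, 274877906944), (241860345856, 22011707392), (242665652224, 10737418240)] rfl (by decide +kernel)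
theorem I2RT_12 : CovD 1 [pRT H BI2] [(4123168604160, 274877906944), (285883760640, 22011707392), (242665652224, 10737418240)] :=
  cov_of (fRT H BI2) (.n 2 (.n 0 (.n 1 (.l 0) (.l 0)) (.n 1 (.n 0 (.l 0) (.l 0)) (.l 0))) (.n 0 (.n 1 (.l 0) (.l 0)) (.n 1 (.n 0 (.l 0) (.l 0)) (.n 0 (.l 0) (.l 0))))) [(4123168604160, 274877906944), (285883760640, 22011707392), (242665652224, 10737418240)] rfl (by decide +kernel)
end

mutual
theorem I2RT_14 : CovD 1 [pRT H BI2] [(4123168604160, 274877906944), (241860345856, 22011707392), (264140488704, 10737418240)] :=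
  cov_of (fRT H BI2) (.n 2 (.n 1 (.n 0 (.n 0 (.l 0) (.l 0)) (.n 0 (.l 0) (.l 0))) (.n 0 (.l 0) (.n 0 (.l 0) (.l 0)))) (.n 1 (.n 0 (.l 0) (.n 0 (.l 0) (.l 0))) (.n 0 (.l 0) (.n 0 (.l 0) (.l 0))))) [(4123168604160, 274877906944), (241860345856, 22011707392), (264140488704, 10737418240)] rfl (by decide +kernel)
theorem I2RT_15 : CovD 1 [pRT H BI2] [(4123168604160, 274877906944), (285883760640, 22011707392), (264140488704, 10737418240)] :=
  cov_of (fRT H BI2) (.n 2 (.n 1 (.n 0 (.l 0) (.n 0 (.l 0) (.l 0))) (.n 0 (.l 0) (.n 1 (.l 0) (.l 0)))) (.n 0 (.n 1 (.l 0) (.l 0)) (.n 1 (.n 1 (.l 0) (.l 0)) (.n 0 (.l 0) (.n 1 (.l 0) (.l 0)))))) [(4123168604160, 274877906944), (285883760640, 22011707392), (264140488704, 10737418240)] rfl (by decide +kernel)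
end

mutual
theorem I3AD_2 : CovD 0 [pAD H BI3] [(4123168604160, 274877906944), (241860345856, 22011707392), (292057776128, 17179869184)] :=
  cov_of (fAD H BI3) (.n 0 (.n 2 (.n 1 (.n 0 (.l 0) (.l 0)) (.n 0 (.l 0) (.l 0))) (.n 1 (.l 0) (.l 0))) (.n 2 (.n 1 (.n 0 (.l 0) (.l 0)) (.l 0)) (.n 1 (.l 0) (.l 0)))) [(4123168604160, 274877906944), (241860345856, 22011707392), (292057776128, 17179869184)] rfl (by decide +kernel)
theorem I3AD_3 : CovD 0 [pAD H BI3] [(4123168604160, 274877906944), (285883760640, 22011707392), (292057776128, 17179869184)] :=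
  cov_of (fAD H BI3) (.n 0 (.n 2 (.n 1 (.n 0 (.l 0) (.l 0)) (.n 0 (.l 0) (.l 0))) (.n 1 (.n 0 (.l 0) (.l 0)) (.n 0 (.l 0) (.l 0)))) (.n 2 (.n 1 (.l 0) (.n 0 (.l 0) (.l 0))) (.n 1 (.l 0) (.n 0 (.l 0) (.l 0))))) [(4123168604160, 274877906944), (285883760640, 22011707392), (292057776128, 17179869184)] rfl (by decide +kernel)
end

mutual
theorem I3AD_4 : CovD 0 [pAD H BI3] [(4123168604160, 274877906944), (263872053248, 44023414784), (326417514496, 17179869184)] :=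
  cov_of (fAD H BI3) (.n 1 (.n 0 (.n 2 (.n 1 (.l 0) (.l 0)) (.n 1 (.l 0) (.l 0))) (.n 2 (.n 1 (.l 0) (.l 0)) (.n 1 (.l 0) (.l 0)))) (.n 0 (.n 2 (.n 1 (.n 0 (.l 0) (.l 0)) (.n 0 (.l 0) (.l 0))) (.n 1 (.n 0 (.l 0) (.l 0)) (.n 0 (.l 0) (.l 0)))) (.n 2 (.n 1 (.l 0) (.n 0 (.l 0) (.l 0))) (.n 1 (.l 0) (.l 0))))) [(4123168604160, 274877906944), (263872053248, 44023414784), (326417514496, 17179869184)] rfl (by decide +kernel)
theorem I3AD_6 : CovD 0 [pAD H BI3] [(4123168604160, 274877906944), (263872053248, 44023414784), (360777252864, 17179869184)] :=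
  cov_of (fAD H BI3) (.n 1 (.n 0 (.n 2 (.n 1 (.l 0) (.l 0)) (.n 0 (.l 0) (.l 0))) (.n 2 (.n 1 (.l 0) (.l 0)) (.n 0 (.l 0) (.l 0)))) (.n 0 (.n 2 (.n 1 (.l 0) (.n 0 (.l 0) (.l 0))) (.n 1 (.l 0) (.n 0 (.l 0) (.l 0)))) (.n 2 (.n 1 (.l 0) (.l 0)) (.n 1 (.l 0) (.l 0))))) [(4123168604160, 274877906944), (263872053248, 44023414784), (360777252864, 17179869184)] rfl (by decide +kernel)
end

mutual
theorem I3AD_8 : CovD 0 [pAD H BI3] [(4123168604160, 274877906944), (241860345856, 22011707392), (395136991232, 17179869184)] :=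
  cov_of (fAD H BI3) (.n 0 (.n 2 (.n 0 (.l 0) (.l 0)) (.n 1 (.n 0 (.l 0) (.l 0)) (.n 0 (.l 0) (.l 0)))) (.n 2 (.n 0 (.l 0) (.l 0)) (.n 0 (.n 1 (.l 0) (.l 0)) (.n 1 (.l 0) (.l 0))))) [(4123168604160, 274877906944), (241860345856, 22011707392), (395136991232, 17179869184)] rfl (by decide +kernel)
theorem I3AD_9 : CovD 0 [pAD H BI3] [(4123168604160, 274877906944), (285883760640, 22011707392), (395136991232, 17179869184)] :=
  cov_of (fAD H BI3) (.n 0 (.n 2 (.n 1 (.l 0) (.n 0 (.l 0) (.l 0))) (.n 1 (.n 0 (.l 0) (.l 0)) (.n 2 (.l 0) (.n 0 (.l 0) (.l 0))))) (.n 2 (.n 1 (.l 0) (.l 0)) (.n 1 (.n 0 (.l 0) (.l 0)) (.n 2 (.l 0) (.n 0 (.l 0) (.l 0)))))) [(4123168604160, 274877906944), (285883760640, 22011707392), (395136991232, 17179869184)] rfl (by decide +kernel)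
end

mutual
theorem I3G_1 : CovD 1 [pG H BI3] [(4123168604160, 274877906944), (263872053248, 44023414784), (292057776128, 17179869184)] :=
  cov_of (fG H BI3) (.n 1 (.n 0 (.n 2 (.l 0) (.l 0)) (.n 2 (.n 1 (.l 0) (.l 0)) (.n 1 (.l 0) (.n 0 (.l 0) (.l 0))))) (.n 0 (.n 2 (.n 0 (.l 0) (.l 0)) (.n 0 (.l 0) (.l 0))) (.n 2 (.n 1 (.n 0 (.l 0) (.l 0)) (.n 0 (.l 0) (.l 0))) (.n 1 (.n 0 (.l 0) (.l 0)) (.n 0 (.l 0) (.l 0)))))) [(4123168604160, 274877906944), (263872053248, 44023414784), (292057776128, 17179869184)] rfl (by decide +kernel)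
theorem I3G_3 : CovD 1 [pG H BI3] [(4123168604160, 274877906944), (241860345856, 22011707392), (326417514496, 17179869184)] :=
  cov_of (fG H BI3) (.n 0 (.n 2 (.n 0 (.l 0) (.l 0)) (.n 0 (.l 0) (.l 0))) (.n 2 (.n 1 (.n 0 (.l 0) (.l 0)) (.n 0 (.l 0) (.l 0))) (.n 1 (.n 0 (.l 0) (.l 0)) (.n 0 (.l 0) (.l 0))))) [(4123168604160, 274877906944), (241860345856, 22011707392), (326417514496, 17179869184)] rfl (by decide +kernel)
end

mutual
theorem I3G_4 : CovD 1 [pG H BI3] [(4123168604160, 274877906944), (285883760640, 22011707392), (326417514496, 17179869184)] :=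
  cov_of (fG H BI3) (.n 0 (.n 2 (.n 0 (.l 0) (.l 0)) (.n 0 (.l 0) (.l 0))) (.n 2 (.n 1 (.n 0 (.l 0) (.l 0)) (.n 0 (.l 0) (.l 0))) (.n 1 (.n 0 (.l 0) (.n 0 (.l 0) (.l 0))) (.n 0 (.l 0) (.l 0))))) [(4123168604160, 274877906944), (285883760640, 22011707392), (326417514496, 17179869184)] rfl (by decide +kernel)
theorem I3G_7 : CovD 1 [pG H BI3] [(4123168604160, 274877906944), (241860345856, 22011707392), (360777252864, 17179869184)] :=
  cov_of (fG H BI3) (.n 0 (.n 2 (.n 0 (.l 0) (.l 0)) (.n 0 (.l 0) (.l 0))) (.n 2 (.n 1 (.n 0 (.l 0) (.l 0)) (.n 0 (.l 0) (.n 0 (.l 0) (.l 0)))) (.n 1 (.n 0 (.l 0) (.n 0 (.l 0) (.l 0))) (.n 0 (.l 0) (.l 0))))) [(4123168604160, 274877906944), (241860345856, 22011707392), (360777252864, 17179869184)] rfl (by decide +kernel)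
end

mutual
theorem I3G_8 : CovD 1 [pG H BI3] [(4123168604160, 274877906944), (285883760640, 22011707392), (360777252864, 17179869184)] :=
  cov_of (fG H BI3) (.n 0 (.n 2 (.n 0 (.l 0) (.l 0)) (.n 0 (.l 0) (.l 0))) (.n 2 (.n 1 (.n 0 (.l 0) (.l 0)) (.n 0 (.l 0) (.l 0))) (.n 1 (.n 0 (.l 0) (.l 0)) (.n 0 (.l 0) (.l 0))))) [(4123168604160, 274877906944), (285883760640, 22011707392), (360777252864, 17179869184)] rfl (by decide +kernel)
theorem I3G_9 : CovD 1 [pG H BI3] [(4123168604160, 274877906944), (263872053248, 44023414784), (395136991232, 17179869184)] :=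
  cov_of (fG H BI3) (.n 1 (.n 2 (.n 0 (.n 0 (.l 0) (.l 0)) (.n 1 (.n 0 (.l 0) (.l 0)) (.n 0 (.l 0) (.l 0)))) (.n 0 (.n 0 (.l 0) (.l 0)) (.n 1 (.n 0 (.l 0) (.l 0)) (.n 0 (.l 0) (.l 0))))) (.n 2 (.n 0 (.n 0 (.l 0) (.l 0)) (.n 1 (.n 0 (.l 0) (.l 0)) (.n 0 (.l 0) (.l 0)))) (.n 0 (.n 0 (.l 0) (.l 0)) (.n 1 (.n 0 (.l 0) (.l 0)) (.l 0))))) [(4123168604160, 274877906944), (263872053248, 44023414784), (395136991232, 17179869184)] rfl (by decide +kernel)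
end

mutual
theorem I3RT_3 : CovD 1 [pRT H BI3] [(4123168604160, 274877906944), (241860345856, 22011707392), (283467841536, 8589934592)] :=
  cov_of (fRT H BI3) (.n 2 (.n 0 (.n 1 (.n 0 (.l 0) (.l 0)) (.n 0 (.l 0) (.l 0))) (.n 1 (.n 0 (.n 0 (.l 0) (.l 0)) (.n 1 (.l 0) (.l 0))) (.n 0 (.l 0) (.n 0 (.l 0) (.l 0))))) (.n 0 (.n 1 (.n 0 (.l 0) (.l 0)) (.n 0 (.l 0) (.l 0))) (.n 1 (.n 0 (.n 0 (.l 0) (.l 0)) (.n 0 (.l 0) (.l 0))) (.n 0 (.l 0) (.l 0))))) [(4123168604160, 274877906944), (241860345856, 22011707392), (283467841536, 8589934592)] rfl (by decide +kernel)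
theorem I3RT_4 : CovD 1 [pRT H BI3] [(4123168604160, 274877906944), (241860345856, 22011707392), (300647710720, 8589934592)] :=
  cov_of (fRT H BI3) (.n 2 (.n 0 (.n 1 (.n 0 (.l 0) (.l 0)) (.n 0 (.l 0) (.l 0))) (.n 1 (.n 0 (.l 0) (.n 0 (.l 0) (.l 0))) (.n 0 (.l 0) (.l 0)))) (.n 0 (.n 1 (.n 0 (.l 0) (.l 0)) (.n 0 (.l 0) (.l 0))) (.n 1 (.n 0 (.l 0) (.n 0 (.l 0) (.l 0))) (.n 0 (.l 0) (.l 0))))) [(4123168604160, 274877906944), (241860345856, 22011707392), (300647710720, 8589934592)] rfl (by decide +kernel)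
end

mutual
theorem I3RT_5 : CovD 1 [pRT H BI3] [(4123168604160, 274877906944), (285883760640, 22011707392), (292057776128, 17179869184)] :=
  cov_of (fRT H BI3) (.n 2 (.n 0 (.n 1 (.n 0 (.l 0) (.l 0)) (.n 0 (.l 0) (.l 0))) (.n 1 (.n 0 (.n 0 (.l 0) (.l 0)) (.n 0 (.l 0) (.l 0))) (.n 0 (.l 0) (.l 0)))) (.n 0 (.n 1 (.n 0 (.l 0) (.l 0)) (.n 0 (.l 0) (.l 0))) (.n 1 (.n 0 (.l 0) (.n 0 (.l 0) (.l 0))) (.n 0 (.l 0) (.l 0))))) [(4123168604160, 274877906944), (285883760640, 22011707392), (292057776128, 17179869184)] rfl (by decide +kernel)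
theorem I3RT_8 : CovD 1 [pRT H BI3] [(4123168604160, 274877906944), (241860345856, 22011707392), (317827579904, 8589934592)] :=
  cov_of (fRT H BI3) (.n 2 (.n 0 (.n 1 (.n 0 (.l 0) (.l 0)) (.n 0 (.l 0) (.l 0))) (.n 1 (.n 0 (.l 0) (.l 0)) (.n 0 (.l 0) (.l 0)))) (.n 0 (.n 1 (.n 0 (.l 0) (.l 0)) (.l 0)) (.n 1 (.n 0 (.l 0) (.l 0)) (.n 0 (.l 0) (.l 0))))) [(4123168604160, 274877906944), (241860345856, 22011707392), (317827579904, 8589934592)] rfl (by decide +kernel)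
end

mutual
theorem I3RT_9 : CovD 1 [pRT H BI3] [(4123168604160, 274877906944), (241860345856, 22011707392), (335007449088, 8589934592)] :=
  cov_of (fRT H BI3) (.n 0 (.n 1 (.n 0 (.l 0) (.l 0)) (.n 0 (.l 0) (.l 0))) (.n 2 (.n 1 (.n 0 (.l 0) (.l 0)) (.n 0 (.l 0) (.l 0))) (.n 1 (.n 0 (.l 0) (.l 0)) (.n 0 (.l 0) (.l 0))))) [(4123168604160, 274877906944), (241860345856, 22011707392), (335007449088, 8589934592)] rfl (by decide +kernel)
theorem I3RT_10 : CovD 1 [pRT H BI3] [(4123168604160, 274877906944), (285883760640, 22011707392), (326417514496, 17179869184)] :=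
  cov_of (fRT H BI3) (.n 2 (.n 0 (.n 1 (.n 0 (.l 0) (.l 0)) (.n 0 (.l 0) (.l 0))) (.n 1 (.n 0 (.l 0) (.n 0 (.l 0) (.l 0))) (.n 0 (.l 0) (.l 0)))) (.n 0 (.n 1 (.n 0 (.l 0) (.l 0)) (.n 0 (.l 0) (.l 0))) (.n 1 (.n 0 (.l 0) (.l 0)) (.n 0 (.l 0) (.l 0))))) [(4123168604160, 274877906944), (285883760640, 22011707392), (326417514496, 17179869184)] rfl (by decide +kernel)
end

mutual
theorem I3RT_13 : CovD 1 [pRT H BI3] [(4123168604160, 274877906944), (241860345856, 22011707392), (360777252864, 17179869184)] :=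
  cov_of (fRT H BI3) (.n 2 (.n 0 (.n 1 (.n 0 (.l 0) (.l 0)) (.n 0 (.l 0) (.l 0))) (.n 2 (.n 1 (.n 0 (.l 0) (.l 0)) (.n 0 (.l 0) (.l 0))) (.n 1 (.n 0 (.l 0) (.l 0)) (.n 0 (.l 0) (.l 0))))) (.n 0 (.n 1 (.n 0 (.l 0) (.l 0)) (.n 0 (.l 0) (.l 0))) (.n 2 (.n 1 (.n 0 (.l 0) (.l 0)) (.n 0 (.l 0) (.l 0))) (.n 1 (.n 0 (.l 0) (.l 0)) (.n 0 (.l 0) (.l 0)))))) [(4123168604160, 274877906944), (241860345856, 22011707392), (360777252864, 17179869184)] rfl (by decide +kernel)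
theorem I3RT_14 : CovD 1 [pRT H BI3] [(4123168604160, 274877906944), (285883760640, 22011707392), (360777252864, 17179869184)] :=
  cov_of (fRT H BI3) (.n 2 (.n 0 (.n 1 (.n 0 (.l 0) (.l 0)) (.n 0 (.l 0) (.l 0))) (.n 1 (.n 0 (.l 0) (.l 0)) (.n 0 (.l 0) (.l 0)))) (.n 0 (.n 1 (.n 0 (.l 0) (.l 0)) (.n 0 (.l 0) (.l 0))) (.n 1 (.n 0 (.l 0) (.n 0 (.l 0) (.l 0))) (.n 2 (.l 0) (.n 0 (.l 0) (.l 0)))))) [(4123168604160, 274877906944), (285883760640, 22011707392), (360777252864, 17179869184)] rfl (by decide +kernel)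
end

mutual
theorem I3RT_17 : CovD 1 [pRT H BI3] [(4123168604160, 274877906944), (241860345856, 22011707392), (386547056640, 8589934592)] :=
  cov_of (fRT H BI3) (.n 0 (.n 1 (.n 0 (.l 0) (.l 0)) (.n 0 (.l 0) (.l 0))) (.n 2 (.n 0 (.n 0 (.l 0) (.l 0)) (.n 1 (.l 0) (.l 0))) (.n 1 (.n 0 (.l 0) (.l 0)) (.n 0 (.l 0) (.l 0))))) [(4123168604160, 274877906944), (241860345856, 22011707392), (386547056640, 8589934592)] rfl (by decide +kernel)
theorem I3RT_18 : CovD 1 [pRT H BI3] [(4123168604160, 274877906944), (241860345856, 22011707392), (403726925824, 8589934592)] :=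
  cov_of (fRT H BI3) (.n 0 (.n 1 (.n 0 (.l 0) (.l 0)) (.n 0 (.n 0 (.l 0) (.l 0)) (.n 0 (.l 0) (.l 0)))) (.n 2 (.n 1 (.n 0 (.l 0) (.n 0 (.l 0) (.l 0))) (.n 0 (.l 0) (.n 1 (.l 0) (.l 0)))) (.n 1 (.n 0 (.l 0) (.n 1 (.l 0) (.l 0))) (.n 0 (.l 0) (.n 1 (.l 0) (.l 0)))))) [(4123168604160, 274877906944), (241860345856, 22011707392), (403726925824, 8589934592)] rfl (by decide +kernel)
theorem I3RT_20 : CovD 1 [pRT H BI3] [(4123168604160, 274877906944), (285883760640, 22011707392), (386547056640, 8589934592)] :=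
  cov_of (fRT H BI3) (.n 0 (.n 1 (.n 0 (.l 0) (.l 0)) (.n 2 (.n 0 (.l 0) (.l 0)) (.n 0 (.l 0) (.l 0)))) (.n 1 (.n 0 (.n 0 (.l 0) (.l 0)) (.n 2 (.l 0) (.n 0 (.l 0) (.l 0)))) (.n 0 (.n 1 (.l 0) (.l 0)) (.n 2 (.l 0) (.n 0 (.l 0) (.l 0)))))) [(4123168604160, 274877906944), (285883760640, 22011707392), (386547056640, 8589934592)] rfl (by decide +kernel)
end

end Pool.Agent.helper82.WC.S5K5
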