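import Pool.Agent.helper82.WC.S5K5C0
import Pool.Agent.helper82.WC.S5K5C1
import Pool.Agent.helper82.WC.S5K5C2

/-!
Generated certificates, assembled.
-/

namespace Pool.Agent.helper82.WC.S5K5

open Pool.Agent.helper82.WH
open Pool.Agent.helper31.IC (CovD covD_split TD)

theorem I0AD_0 : CovD 0 [pAD H BI0] [(4123168604160, 274877906944), (263872053248, 44023414784), (25769803776, 25769803776)] :=
  covD_split 1 (by decide +kernel) I0AD_1 I0AD_2
theorem I0AD_3 : CovD 0 [pAD H BI0] [(4123168604160, 274877906944), (263872053248, 44023414784), (77309411328, 25769803776)] :=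
  covD_split 1 (by decide +kernel) I0AD_4 I0AD_5
theorem I0AD : CovD 0 [pAD H BI0] [(4123168604160, 274877906944), (263872053248, 44023414784), (51539607552, 51539607552)] :=
  covD_split 2 (by decide +kernel) I0AD_0 I0AD_3
theorem I0RT_0 : CovD 1 [pRT H BI0] [(4123168604160, 274877906944), (263872053248, 44023414784), (25769803776, 25769803776)] :=
  covD_split 1 (by decide +kernel) I0RT_1 I0RT_2
theorem I0RT_4 : CovD 1 [pRT H BI0] [(4123168604160, 274877906944), (241860345856, 22011707392), (77309411328, 25769803776)] :=
  covD_split 2 (by decide +kernel) I0RT_5 I0RT_6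
theorem I0RT_3 : CovD 1 [pRT H BI0] [(4123168604160, 274877906944), (263872053248, 44023414784), (77309411328, 25769803776)] :=
  covD_split 1 (by decide +kernel) I0RT_4 I0RT_7
theorem I0RT : CovD 1 [pRT H BI0] [(4123168604160, 274877906944), (263872053248, 44023414784), (51539607552, 51539607552)] :=
  covD_split 2 (by decide +kernel) I0RT_0 I0RT_3
theorem I1AD_0 : CovD 0 [pAD H BI1] [(4123168604160, 274877906944), (263872053248, 44023414784), (124554051584, 21474836480)] :=
  covD_split 1 (by decide +kernel) I1AD_1 I1AD_2
theorem I1AD_3 : CovD 0 [pAD H BI1] [(4123168604160, 274877906944), (263872053248, 44023414784), (167503724544, 21474836480)] :=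
  covD_split 1 (by decide +kernel) I1AD_4 I1AD_5
theorem I1AD : CovD 0 [pAD H BI1] [(4123168604160, 274877906944), (263872053248, 44023414784), (146028888064, 42949672960)] :=
  covD_split 2 (by decide +kernel) I1AD_0 I1AD_3
theorem I1G : CovD 1 [pG H BI1] [(4123168604160, 274877906944), (263872053248, 44023414784), (146028888064, 42949672960)] :=
  covD_split 2 (by decide +kernel) I1G_0 I1G_1
theorem I1RT_1 : CovD 1 [pRT H BI1] [(4123168604160, 274877906944), (241860345856, 22011707392), (124554051584, 21474836480)] :=
  covD_split 2 (by decide +kernel) I1RT_2 I1RT_3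
theorem I1RT_0 : CovD 1 [pRT H BI1] [(4123168604160, 274877906944), (263872053248, 44023414784), (124554051584, 21474836480)] :=
  covD_split 1 (by decide +kernel) I1RT_1 I1RT_4
theorem I1RT_6 : CovD 1 [pRT H BI1] [(4123168604160, 274877906944), (241860345856, 22011707392), (167503724544, 21474836480)] :=
  covD_split 2 (by decide +kernel) I1RT_7 I1RT_8
theorem I1RT_5 : CovD 1 [pRT H BI1] [(4123168604160, 274877906944), (263872053248, 44023414784), (167503724544, 21474836480)] :=
  covD_split 1 (by decide +kernel) I1RT_6 I1RT_9
theorem I1RT : CovD 1 [pRT H BI1] [(4123168604160, 274877906944), (263872053248, 44023414784), (146028888064, 42949672960)] :=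
  covD_split 2 (by decide +kernel) I1RT_0 I1RT_5
theorem I2AD_0 : CovD 0 [pAD H BI2] [(4123168604160, 274877906944), (263872053248, 44023414784), (210453397504, 21474836480)] :=
  covD_split 1 (by decide +kernel) I2AD_1 I2AD_2
theorem I2AD_3 : CovD 0 [pAD H BI2] [(4123168604160, 274877906944), (263872053248, 44023414784), (253403070464, 21474836480)] :=
  covD_split 1 (by decide +kernel) I2AD_4 I2AD_5
theorem I2AD : CovD 0 [pAD H BI2] [(4123168604160, 274877906944), (263872053248, 44023414784), (231928233984, 42949672960)] :=
  covD_split 2 (by decide +kernel) I2AD_0 I2AD_3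
theorem I2G_1 : CovD 1 [pG H BI2] [(4123168604160, 274877906944), (263872053248, 44023414784), (253403070464, 21474836480)] :=
  covD_split 1 (by decide +kernel) I2G_2 I2G_3
theorem I2G : CovD 1 [pG H BI2] [(4123168604160, 274877906944), (263872053248, 44023414784), (231928233984, 42949672960)] :=
  covD_split 2 (by decide +kernel) I2G_0 I2G_1
theorem I2RT_2 : CovD 1 [pRT H BI2] [(4123168604160, 274877906944), (241860345856, 22011707392), (199715979264, 10737418240)] :=
  covD_split 2 (by decide +kernel) I2RT_3 I2RT_4
theorem I2RT_1 : CovD 1 [pRT H BI2] [(4123168604160, 274877906944), (241860345856, 22011707392), (210453397504, 21474836480)] :=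
  covD_split 2 (by decide +kernel) I2RT_2 I2RT_5
theorem I2RT_6 : CovD 1 [pRT H BI2] [(4123168604160, 274877906944), (285883760640, 22011707392), (210453397504, 21474836480)] :=
  covD_split 2 (by decide +kernel) I2RT_7 I2RT_8
theorem I2RT_0 : CovD 1 [pRT H BI2] [(4123168604160, 274877906944), (263872053248, 44023414784), (210453397504, 21474836480)] :=
  covD_split 1 (by decide +kernel) I2RT_1 I2RT_6
theorem I2RT_10 : CovD 1 [pRT H BI2] [(4123168604160, 274877906944), (263872053248, 44023414784), (242665652224, 10737418240)] :=
  covD_split 1 (by decide +kernel) I2RT_11 I2RT_12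
theorem I2RT_13 : CovD 1 [pRT H BI2] [(4123168604160, 274877906944), (263872053248, 44023414784), (264140488704, 10737418240)] :=
  covD_split 1 (by decide +kernel) I2RT_14 I2RT_15
theorem I2RT_9 : CovD 1 [pRT H BI2] [(4123168604160, 274877906944), (263872053248, 44023414784), (253403070464, 21474836480)] :=
  covD_split 2 (by decide +kernel) I2RT_10 I2RT_13
theorem I2RT : CovD 1 [pRT H BI2] [(4123168604160, 274877906944), (263872053248, 44023414784), (231928233984, 42949672960)] :=
  covD_split 2 (by decide +kernel) I2RT_0 I2RT_9
theorem I3AD_1 : CovD 0 [pAD H BI3] [(4123168604160, 274877906944), (263872053248, 44023414784), (292057776128, 17179869184)] :=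
  covD_split 1 (by decide +kernel) I3AD_2 I3AD_3
theorem I3AD_0 : CovD 0 [pAD H BI3] [(4123168604160, 274877906944), (263872053248, 44023414784), (309237645312, 34359738368)] :=
  covD_split 2 (by decide +kernel) I3AD_1 I3AD_4
theorem I3AD_7 : CovD 0 [pAD H BI3] [(4123168604160, 274877906944), (263872053248, 44023414784), (395136991232, 17179869184)] :=
  covD_split 1 (by decide +kernel) I3AD_8 I3AD_9
theorem I3AD_5 : CovD 0 [pAD H BI3] [(4123168604160, 274877906944), (263872053248, 44023414784), (377957122048, 34359738368)] :=
  covD_split 2 (by decide +kernel) I3AD_6 I3AD_7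
theorem I3AD : CovD 0 [pAD H BI3] [(4123168604160, 274877906944), (263872053248, 44023414784), (343597383680, 68719476736)] :=
  covD_split 2 (by decide +kernel) I3AD_0 I3AD_5
theorem I3G_2 : CovD 1 [pG H BI3] [(4123168604160, 274877906944), (263872053248, 44023414784), (326417514496, 17179869184)] :=
  covD_split 1 (by decide +kernel) I3G_3 I3G_4
theorem I3G_0 : CovD 1 [pG H BI3] [(4123168604160, 274877906944), (263872053248, 44023414784), (309237645312, 34359738368)] :=
  covD_split 2 (by decide +kernel) I3G_1 I3G_2
theorem I3G_6 : CovD 1 [pG H BI3] [(4123168604160, 274877906944), (263872053248, 44023414784), (360777252864, 17179869184)] :=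
  covD_split 1 (by decide +kernel) I3G_7 I3G_8
theorem I3G_5 : CovD 1 [pG H BI3] [(4123168604160, 274877906944), (263872053248, 44023414784), (377957122048, 34359738368)] :=
  covD_split 2 (by decide +kernel) I3G_6 I3G_9
theorem I3G : CovD 1 [pG H BI3] [(4123168604160, 274877906944), (263872053248, 44023414784), (343597383680, 68719476736)] :=
  covD_split 2 (by decide +kernel) I3G_0 I3G_5
theorem I3RT_2 : CovD 1 [pRT H BI3] [(4123168604160, 274877906944), (241860345856, 22011707392), (292057776128, 17179869184)] :=
  covD_split 2 (by decide +kernel) I3RT_3 I3RT_4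
theorem I3RT_1 : CovD 1 [pRT H BI3] [(4123168604160, 274877906944), (263872053248, 44023414784), (292057776128, 17179869184)] :=
  covD_split 1 (by decide +kernel) I3RT_2 I3RT_5
theorem I3RT_7 : CovD 1 [pRT H BI3] [(4123168604160, 274877906944), (241860345856, 22011707392), (326417514496, 17179869184)] :=
  covD_split 2 (by decide +kernel) I3RT_8 I3RT_9
theorem I3RT_6 : CovD 1 [pRT H BI3] [(4123168604160, 274877906944), (263872053248, 44023414784), (326417514496, 17179869184)] :=
  covD_split 1 (by decide +kernel) I3RT_7 I3RT_10
theorem I3RT_0 : CovD 1 [pRT H BI3] [(4123168604160, 274877906944), (263872053248, 44023414784), (309237645312, 34359738368)] :=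
  covD_split 2 (by decide +kernel) I3RT_1 I3RT_6
theorem I3RT_12 : CovD 1 [pRT H BI3] [(4123168604160, 274877906944), (263872053248, 44023414784), (360777252864, 17179869184)] :=
  covD_split 1 (by decide +kernel) I3RT_13 I3RT_14
theorem I3RT_16 : CovD 1 [pRT H BI3] [(4123168604160, 274877906944), (241860345856, 22011707392), (395136991232, 17179869184)] :=
  covD_split 2 (by decide +kernel) I3RT_17 I3RT_18
theorem I3RT_19 : CovD 1 [pRT H BI3] [(4123168604160, 274877906944), (285883760640, 22011707392), (395136991232, 17179869184)] :=
  covD_split 2 (by decide +kernel) I3RT_20 I3RT_21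
theorem I3RT_15 : CovD 1 [pRT H BI3] [(4123168604160, 274877906944), (263872053248, 44023414784), (395136991232, 17179869184)] :=
  covD_split 1 (by decide +kernel) I3RT_16 I3RT_19
theorem I3RT_11 : CovD 1 [pRT H BI3] [(4123168604160, 274877906944), (263872053248, 44023414784), (377957122048, 34359738368)] :=
  covD_split 2 (by decide +kernel) I3RT_12 I3RT_15
theorem I3RT : CovD 1 [pRT H BI3] [(4123168604160, 274877906944), (263872053248, 44023414784), (343597383680, 68719476736)] :=
  covD_split 2 (by decide +kernel) I3RT_0 I3RT_11
theorem MTT : CovD 1 [pTT H BM] [(4123168604160, 274877906944), (263872053248, 44023414784), (0, 0)] :=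
  covD_split 1 (by decide +kernel) MTT_0 MTT_1
theorem TRT : CovD 1 [pRT H BT] [(4123168604160, 274877906944), (263872053248, 44023414784), (412316860416, 0)] :=
  covD_split 1 (by decide +kernel) TRT_0 TRT_1

end Pool.Agent.helper82.WC.S5K5
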