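import Pool.Agent.helper82.WC.S5K5P

/-!
Generated certificates (in pairs, so that they are checked one after the other).
-/

namespace Pool.Agent.helper82.WC.S5K5

open Pool.Agent.helper82.WH
open Pool.Agent.helper31.IC (CovD covD_split TD)

mutual
theorem I0AD_1 : CovD 0 [pAD H BI0] [(4123168604160, 274877906944), (241860345856, 22011707392), (25769803776, 25769803776)] :=
  cov_of (fAD H BI0) (.n 2 (.n 0 (.n 1 (.n 0 (.l 0) (.l 0)) (.n 0 (.l 0) (.l 0))) (.n 1 (.n 0 (.l 0) (.l 0)) (.n 0 (.l 0) (.l 0)))) (.n 1 (.n 0 (.n 0 (.l 0) (.l 0)) (.n 0 (.l 0) (.l 0))) (.n 0 (.n 0 (.l 0) (.l 0)) (.n 0 (.l 0) (.l 0))))) [(4123168604160, 274877906944), (241860345856, 22011707392), (25769803776, 25769803776)] rfl (by decide +kernel)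
theorem I0AD_2 : CovD 0 [pAD H BI0] [(4123168604160, 274877906944), (285883760640, 22011707392), (25769803776, 25769803776)] :=
  cov_of (fAD H BI0) (.n 2 (.n 0 (.n 1 (.n 0 (.l 0) (.l 0)) (.n 0 (.l 0) (.l 0))) (.n 1 (.n 0 (.l 0) (.l 0)) (.n 0 (.l 0) (.l 0)))) (.n 0 (.n 1 (.n 0 (.l 0) (.l 0)) (.n 0 (.l 0) (.l 0))) (.n 1 (.n 0 (.l 0) (.l 0)) (.n 0 (.l 0) (.l 0))))) [(4123168604160, 274877906944), (285883760640, 22011707392), (25769803776, 25769803776)] rfl (by decide +kernel)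
end

mutual
theorem I0AD_4 : CovD 0 [pAD H BI0] [(4123168604160, 274877906944), (241860345856, 22011707392), (77309411328, 25769803776)] :=
  cov_of (fAD H BI0) (.n 2 (.n 0 (.n 1 (.n 0 (.l 0) (.l 0)) (.n 0 (.l 0) (.l 0))) (.n 1 (.n 2 (.l 0) (.l 0)) (.n 0 (.l 0) (.l 0)))) (.n 0 (.n 1 (.n 2 (.l 0) (.l 0)) (.n 0 (.l 0) (.l 0))) (.n 1 (.n 2 (.l 0) (.l 0)) (.n 0 (.l 0) (.l 0))))) [(4123168604160, 274877906944), (241860345856, 22011707392), (77309411328, 25769803776)] rfl (by decide +kernel)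
theorem I0AD_5 : CovD 0 [pAD H BI0] [(4123168604160, 274877906944), (285883760640, 22011707392), (77309411328, 25769803776)] :=
  cov_of (fAD H BI0) (.n 2 (.n 0 (.n 1 (.n 0 (.l 0) (.l 0)) (.n 0 (.l 0) (.l 0))) (.n 1 (.n 0 (.l 0) (.l 0)) (.n 0 (.l 0) (.l 0)))) (.n 0 (.n 1 (.n 0 (.l 0) (.l 0)) (.n 0 (.l 0) (.l 0))) (.n 1 (.n 0 (.l 0) (.l 0)) (.n 0 (.l 0) (.l 0))))) [(4123168604160, 274877906944), (285883760640, 22011707392), (77309411328, 25769803776)] rfl (by decide +kernel)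
end

mutual
theorem I0G : CovD 1 [pG H BI0] [(4123168604160, 274877906944), (263872053248, 44023414784), (51539607552, 51539607552)] :=
  cov_of (fG H BI0) (.n 2 (.n 1 (.l 0) (.n 2 (.l 0) (.n 0 (.l 0) (.l 0)))) (.n 1 (.n 2 (.l 0) (.n 0 (.l 0) (.l 0))) (.n 2 (.n 1 (.l 0) (.n 0 (.l 0) (.l 0))) (.n 1 (.n 0 (.l 0) (.l 0)) (.n 0 (.l 0) (.n 2 (.l 0) (.n 0 (.l 0) (.l 0)))))))) [(4123168604160, 274877906944), (263872053248, 44023414784), (51539607552, 51539607552)] rfl (by decide +kernel)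
theorem I0RT_1 : CovD 1 [pRT H BI0] [(4123168604160, 274877906944), (241860345856, 22011707392), (25769803776, 25769803776)] :=
  cov_of (fRT H BI0) (.n 2 (.n 2 (.n 1 (.n 1 (.l 0) (.l 0)) (.n 0 (.l 0) (.l 0))) (.n 1 (.n 1 (.l 0) (.l 0)) (.n 0 (.l 0) (.l 0)))) (.n 2 (.n 1 (.n 1 (.n 0 (.l 0) (.l 0)) (.l 0)) (.n 0 (.l 0) (.l 0))) (.n 1 (.n 0 (.l 0) (.n 1 (.l 0) (.l 0))) (.n 1 (.n 0 (.l 0) (.l 0)) (.l 0))))) [(4123168604160, 274877906944), (241860345856, 22011707392), (25769803776, 25769803776)] rfl (by decide +kernel)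
end

mutual
theorem I0RT_2 : CovD 1 [pRT H BI0] [(4123168604160, 274877906944), (285883760640, 22011707392), (25769803776, 25769803776)] :=
  cov_of (fRT H BI0) (.n 2 (.n 2 (.n 1 (.l 0) (.l 0)) (.n 1 (.l 0) (.l 0))) (.n 2 (.n 1 (.n 0 (.l 0) (.l 0)) (.l 0)) (.n 1 (.n 0 (.l 0) (.l 0)) (.l 0)))) [(4123168604160, 274877906944), (285883760640, 22011707392), (25769803776, 25769803776)] rfl (by decide +kernel)
theorem I0RT_5 : CovD 1 [pRT H BI0] [(4123168604160, 274877906944), (241860345856, 22011707392), (64424509440, 12884901888)] :=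
  cov_of (fRT H BI0) (.n 2 (.n 1 (.n 0 (.l 0) (.n 1 (.l 0) (.l 0))) (.n 0 (.l 0) (.n 1 (.l 0) (.l 0)))) (.n 1 (.n 1 (.n 0 (.l 0) (.n 0 (.l 0) (.l 0))) (.n 0 (.l 0) (.l 0))) (.n 0 (.l 0) (.n 1 (.l 0) (.l 0))))) [(4123168604160, 274877906944), (241860345856, 22011707392), (64424509440, 12884901888)] rfl (by decide +kernel)
end

mutual
theorem I0RT_6 : CovD 1 [pRT H BI0] [(4123168604160, 274877906944), (241860345856, 22011707392), (90194313216, 12884901888)] :=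
  cov_of (fRT H BI0) (.n 2 (.n 1 (.n 1 (.n 0 (.l 0) (.n 0 (.l 0) (.l 0))) (.n 0 (.l 0) (.l 0))) (.n 0 (.l 0) (.n 1 (.l 0) (.l 0)))) (.n 1 (.n 0 (.n 0 (.l 0) (.l 0)) (.n 1 (.n 0 (.l 0) (.l 0)) (.l 0))) (.n 0 (.l 0) (.n 1 (.l 0) (.l 0))))) [(4123168604160, 274877906944), (241860345856, 22011707392), (90194313216, 12884901888)] rfl (by decide +kernel)
theorem I0RT_7 : CovD 1 [pRT H BI0] [(4123168604160, 274877906944), (285883760640, 22011707392), (77309411328, 25769803776)] :=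
  cov_of (fRT H BI0) (.n 2 (.n 2 (.n 1 (.n 0 (.l 0) (.l 0)) (.n 0 (.l 0) (.l 0))) (.n 1 (.n 1 (.l 0) (.l 0)) (.n 0 (.l 0) (.l 0)))) (.n 2 (.n 1 (.n 1 (.n 0 (.l 0) (.l 0)) (.l 0)) (.n 0 (.l 0) (.l 0))) (.n 1 (.n 0 (.l 0) (.n 0 (.l 0) (.l 0))) (.n 0 (.l 0) (.n 1 (.l 0) (.l 0)))))) [(4123168604160, 274877906944), (285883760640, 22011707392), (77309411328, 25769803776)] rfl (by decide +kernel)
end

mutual
theorem I1AD_1 : CovD 0 [pAD H BI1] [(4123168604160, 274877906944), (241860345856, 22011707392), (124554051584, 21474836480)] :=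
  cov_of (fAD H BI1) (.n 2 (.n 0 (.n 1 (.n 0 (.l 0) (.l 0)) (.n 0 (.l 0) (.l 0))) (.n 1 (.n 0 (.l 0) (.n 0 (.l 0) (.l 0))) (.n 0 (.l 0) (.l 0)))) (.n 0 (.n 1 (.n 0 (.l 0) (.l 0)) (.n 0 (.l 0) (.l 0))) (.n 1 (.n 0 (.l 0) (.n 0 (.l 0) (.l 0))) (.n 0 (.l 0) (.l 0))))) [(4123168604160, 274877906944), (241860345856, 22011707392), (124554051584, 21474836480)] rfl (by decide +kernel)
theorem I1AD_2 : CovD 0 [pAD H BI1] [(4123168604160, 274877906944), (285883760640, 22011707392), (124554051584, 21474836480)] :=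
  cov_of (fAD H BI1) (.n 0 (.n 2 (.n 1 (.n 0 (.l 0) (.l 0)) (.n 0 (.l 0) (.l 0))) (.n 1 (.n 0 (.l 0) (.l 0)) (.n 0 (.l 0) (.l 0)))) (.n 2 (.n 1 (.n 0 (.l 0) (.l 0)) (.n 0 (.l 0) (.l 0))) (.n 1 (.n 0 (.l 0) (.l 0)) (.n 0 (.l 0) (.l 0))))) [(4123168604160, 274877906944), (285883760640, 22011707392), (124554051584, 21474836480)] rfl (by decide +kernel)
end

mutual
theorem I1AD_4 : CovD 0 [pAD H BI1] [(4123168604160, 274877906944), (241860345856, 22011707392), (167503724544, 21474836480)] :=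
  cov_of (fAD H BI1) (.n 2 (.n 0 (.n 1 (.n 0 (.l 0) (.l 0)) (.n 0 (.l 0) (.l 0))) (.n 1 (.n 0 (.l 0) (.n 0 (.l 0) (.l 0))) (.n 0 (.l 0) (.l 0)))) (.n 0 (.n 1 (.n 0 (.l 0) (.l 0)) (.n 0 (.l 0) (.l 0))) (.n 1 (.n 0 (.l 0) (.n 0 (.l 0) (.l 0))) (.n 0 (.l 0) (.l 0))))) [(4123168604160, 274877906944), (241860345856, 22011707392), (167503724544, 21474836480)] rfl (by decide +kernel)
theorem I1AD_5 : CovD 0 [pAD H BI1] [(4123168604160, 274877906944), (285883760640, 22011707392), (167503724544, 21474836480)] :=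
  cov_of (fAD H BI1) (.n 0 (.n 2 (.n 1 (.n 0 (.l 0) (.l 0)) (.n 0 (.l 0) (.l 0))) (.n 1 (.n 0 (.l 0) (.l 0)) (.n 0 (.l 0) (.l 0)))) (.n 2 (.n 1 (.n 0 (.l 0) (.l 0)) (.n 0 (.l 0) (.l 0))) (.n 1 (.n 0 (.l 0) (.l 0)) (.n 0 (.l 0) (.l 0))))) [(4123168604160, 274877906944), (285883760640, 22011707392), (167503724544, 21474836480)] rfl (by decide +kernel)
end

mutual
theorem I1G_0 : CovD 1 [pG H BI1] [(4123168604160, 274877906944), (263872053248, 44023414784), (124554051584, 21474836480)] :=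
  cov_of (fG H BI1) (.n 1 (.n 1 (.l 0) (.l 0)) (.n 2 (.n 1 (.l 0) (.l 0)) (.n 1 (.l 0) (.n 0 (.l 0) (.l 0))))) [(4123168604160, 274877906944), (263872053248, 44023414784), (124554051584, 21474836480)] rfl (by decide +kernel)
theorem I1G_1 : CovD 1 [pG H BI1] [(4123168604160, 274877906944), (263872053248, 44023414784), (167503724544, 21474836480)] :=
  cov_of (fG H BI1) (.n 1 (.n 2 (.n 0 (.l 0) (.l 0)) (.n 1 (.l 0) (.n 0 (.l 0) (.l 0)))) (.n 2 (.n 1 (.n 0 (.l 0) (.l 0)) (.n 0 (.l 0) (.n 2 (.l 0) (.l 0)))) (.n 1 (.n 0 (.l 0) (.n 2 (.l 0) (.l 0))) (.n 0 (.n 0 (.l 0) (.l 0)) (.n 2 (.n 0 (.l 0) (.l 0)) (.n 1 (.l 0) (.n 0 (.l 0) (.l 0)))))))) [(4123168604160, 274877906944), (263872053248, 44023414784), (167503724544, 21474836480)] rfl (by decide +kernel)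
end

mutual
theorem I1RT_2 : CovD 1 [pRT H BI1] [(4123168604160, 274877906944), (241860345856, 22011707392), (113816633344, 10737418240)] :=
  cov_of (fRT H BI1) (.n 2 (.n 1 (.n 0 (.n 1 (.l 0) (.l 0)) (.n 1 (.n 2 (.l 0) (.l 0)) (.n 0 (.l 0) (.l 0)))) (.n 0 (.n 0 (.l 0) (.l 0)) (.n 1 (.l 0) (.l 0)))) (.n 1 (.n 0 (.n 1 (.l 0) (.l 0)) (.n 1 (.n 2 (.l 0) (.l 0)) (.n 0 (.l 0) (.l 0)))) (.n 0 (.n 0 (.l 0) (.l 0)) (.n 1 (.l 0) (.l 0))))) [(4123168604160, 274877906944), (241860345856, 22011707392), (113816633344, 10737418240)] rfl (by decide +kernel)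
theorem I1RT_3 : CovD 1 [pRT H BI1] [(4123168604160, 274877906944), (241860345856, 22011707392), (135291469824, 10737418240)] :=
  cov_of (fRT H BI1) (.n 2 (.n 1 (.n 0 (.n 1 (.l 0) (.l 0)) (.n 1 (.n 0 (.l 0) (.l 0)) (.n 0 (.l 0) (.l 0)))) (.n 0 (.n 0 (.l 0) (.l 0)) (.n 1 (.l 0) (.l 0)))) (.n 1 (.n 0 (.n 0 (.l 0) (.l 0)) (.n 1 (.n 0 (.l 0) (.l 0)) (.n 0 (.l 0) (.l 0)))) (.n 0 (.n 0 (.l 0) (.l 0)) (.n 1 (.l 0) (.l 0))))) [(4123168604160, 274877906944), (241860345856, 22011707392), (135291469824, 10737418240)] rfl (by decide +kernel)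
end

mutual
theorem I1RT_4 : CovD 1 [pRT H BI1] [(4123168604160, 274877906944), (285883760640, 22011707392), (124554051584, 21474836480)] :=
  cov_of (fRT H BI1) (.n 2 (.n 2 (.n 1 (.n 0 (.l 0) (.n 0 (.l 0) (.l 0))) (.n 0 (.l 0) (.l 0))) (.n 1 (.n 0 (.l 0) (.n 0 (.l 0) (.l 0))) (.n 0 (.l 0) (.l 0)))) (.n 2 (.n 1 (.n 0 (.l 0) (.n 0 (.l 0) (.l 0))) (.n 0 (.l 0) (.l 0))) (.n 1 (.n 0 (.l 0) (.n 0 (.l 0) (.l 0))) (.n 0 (.l 0) (.l 0))))) [(4123168604160, 274877906944), (285883760640, 22011707392), (124554051584, 21474836480)] rfl (by decide +kernel)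
theorem I1RT_7 : CovD 1 [pRT H BI1] [(4123168604160, 274877906944), (241860345856, 22011707392), (156766306304, 10737418240)] :=
  cov_of (fRT H BI1) (.n 2 (.n 1 (.n 0 (.n 0 (.l 0) (.l 0)) (.n 1 (.n 0 (.l 0) (.l 0)) (.n 0 (.l 0) (.l 0)))) (.n 0 (.n 0 (.l 0) (.l 0)) (.n 1 (.l 0) (.l 0)))) (.n 1 (.n 0 (.n 0 (.l 0) (.l 0)) (.n 1 (.n 0 (.l 0) (.l 0)) (.l 0))) (.n 0 (.n 0 (.l 0) (.l 0)) (.n 1 (.l 0) (.l 0))))) [(4123168604160, 274877906944), (241860345856, 22011707392), (156766306304, 10737418240)] rfl (by decide +kernel)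
end

mutual
theorem I1RT_8 : CovD 1 [pRT H BI1] [(4123168604160, 274877906944), (241860345856, 22011707392), (178241142784, 10737418240)] :=
  cov_of (fRT H BI1) (.n 2 (.n 1 (.n 0 (.n 0 (.l 0) (.l 0)) (.n 1 (.l 0) (.l 0))) (.n 0 (.l 0) (.n 0 (.l 0) (.l 0)))) (.n 1 (.n 0 (.n 0 (.l 0) (.l 0)) (.n 1 (.l 0) (.l 0))) (.n 0 (.l 0) (.n 0 (.l 0) (.l 0))))) [(4123168604160, 274877906944), (241860345856, 22011707392), (178241142784, 10737418240)] rfl (by decide +kernel)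
theorem I1RT_9 : CovD 1 [pRT H BI1] [(4123168604160, 274877906944), (285883760640, 22011707392), (167503724544, 21474836480)] :=
  cov_of (fRT H BI1) (.n 2 (.n 2 (.n 1 (.n 0 (.l 0) (.n 0 (.l 0) (.l 0))) (.n 0 (.l 0) (.l 0))) (.n 1 (.n 0 (.l 0) (.n 0 (.l 0) (.l 0))) (.n 0 (.l 0) (.l 0)))) (.n 2 (.n 1 (.n 0 (.l 0) (.n 0 (.l 0) (.l 0))) (.n 0 (.l 0) (.n 0 (.l 0) (.l 0)))) (.n 1 (.n 0 (.l 0) (.n 0 (.l 0) (.l 0))) (.n 0 (.l 0) (.n 1 (.l 0) (.n 0 (.l 0) (.l 0))))))) [(4123168604160, 274877906944), (285883760640, 22011707392), (167503724544, 21474836480)] rfl (by decide +kernel)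
end

mutual
theorem I2AD_1 : CovD 0 [pAD H BI2] [(4123168604160, 274877906944), (241860345856, 22011707392), (210453397504, 21474836480)] :=
  cov_of (fAD H BI2) (.n 0 (.n 2 (.n 1 (.n 0 (.l 0) (.l 0)) (.n 0 (.l 0) (.l 0))) (.n 1 (.n 0 (.l 0) (.l 0)) (.n 0 (.l 0) (.l 0)))) (.n 2 (.n 1 (.n 0 (.l 0) (.l 0)) (.n 0 (.l 0) (.l 0))) (.n 1 (.n 0 (.l 0) (.l 0)) (.n 0 (.l 0) (.l 0))))) [(4123168604160, 274877906944), (241860345856, 22011707392), (210453397504, 21474836480)] rfl (by decide +kernel)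
theorem I2AD_2 : CovD 0 [pAD H BI2] [(4123168604160, 274877906944), (285883760640, 22011707392), (210453397504, 21474836480)] :=
  cov_of (fAD H BI2) (.n 0 (.n 2 (.n 1 (.n 0 (.l 0) (.l 0)) (.n 0 (.l 0) (.l 0))) (.n 1 (.n 0 (.l 0) (.l 0)) (.n 0 (.l 0) (.l 0)))) (.n 2 (.n 1 (.n 0 (.l 0) (.l 0)) (.n 0 (.l 0) (.l 0))) (.n 1 (.n 0 (.l 0) (.l 0)) (.n 0 (.l 0) (.l 0))))) [(4123168604160, 274877906944), (285883760640, 22011707392), (210453397504, 21474836480)] rfl (by decide +kernel)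
end

mutual
theorem I2AD_4 : CovD 0 [pAD H BI2] [(4123168604160, 274877906944), (241860345856, 22011707392), (253403070464, 21474836480)] :=
  cov_of (fAD H BI2) (.n 0 (.n 2 (.n 1 (.n 0 (.l 0) (.l 0)) (.n 0 (.l 0) (.l 0))) (.n 1 (.n 0 (.l 0) (.l 0)) (.n 0 (.l 0) (.l 0)))) (.n 2 (.n 1 (.n 0 (.l 0) (.l 0)) (.n 0 (.l 0) (.l 0))) (.n 1 (.n 0 (.l 0) (.l 0)) (.n 0 (.l 0) (.l 0))))) [(4123168604160, 274877906944), (241860345856, 22011707392), (253403070464, 21474836480)] rfl (by decide +kernel)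
theorem I2AD_5 : CovD 0 [pAD H BI2] [(4123168604160, 274877906944), (285883760640, 22011707392), (253403070464, 21474836480)] :=
  cov_of (fAD H BI2) (.n 0 (.n 2 (.n 1 (.n 0 (.l 0) (.l 0)) (.n 0 (.l 0) (.l 0))) (.n 1 (.n 0 (.l 0) (.l 0)) (.n 0 (.l 0) (.l 0)))) (.n 2 (.n 1 (.n 0 (.l 0) (.l 0)) (.n 0 (.l 0) (.l 0))) (.n 1 (.n 0 (.l 0) (.l 0)) (.n 0 (.l 0) (.l 0))))) [(4123168604160, 274877906944), (285883760640, 22011707392), (253403070464, 21474836480)] rfl (by decide +kernel)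
end

mutual
theorem I2G_0 : CovD 1 [pG H BI2] [(4123168604160, 274877906944), (263872053248, 44023414784), (210453397504, 21474836480)] :=
  cov_of (fG H BI2) (.n 1 (.n 2 (.n 0 (.l 0) (.l 0)) (.n 0 (.l 0) (.n 0 (.l 0) (.l 0)))) (.n 2 (.n 0 (.l 0) (.n 1 (.l 0) (.l 0))) (.n 0 (.n 0 (.l 0) (.l 0)) (.n 1 (.l 0) (.n 0 (.l 0) (.l 0)))))) [(4123168604160, 274877906944), (263872053248, 44023414784), (210453397504, 21474836480)] rfl (by decide +kernel)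
theorem I2G_2 : CovD 1 [pG H BI2] [(4123168604160, 274877906944), (241860345856, 22011707392), (253403070464, 21474836480)] :=
  cov_of (fG H BI2) (.n 2 (.n 0 (.l 0) (.n 1 (.l 0) (.n 0 (.l 0) (.l 0)))) (.n 0 (.n 0 (.l 0) (.l 0)) (.n 1 (.n 0 (.l 0) (.l 0)) (.n 2 (.l 0) (.n 0 (.l 0) (.l 0)))))) [(4123168604160, 274877906944), (241860345856, 22011707392), (253403070464, 21474836480)] rfl (by decide +kernel)
end

mutual
theorem I2G_3 : CovD 1 [pG H BI2] [(4123168604160, 274877906944), (285883760640, 22011707392), (253403070464, 21474836480)] :=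
  cov_of (fG H BI2) (.n 2 (.n 0 (.n 1 (.l 0) (.l 0)) (.n 1 (.n 2 (.l 0) (.l 0)) (.n 0 (.l 0) (.n 2 (.l 0) (.l 0))))) (.n 0 (.n 1 (.l 0) (.n 0 (.l 0) (.l 0))) (.n 1 (.n 2 (.n 0 (.l 0) (.l 0)) (.n 0 (.l 0) (.n 0 (.l 0) (.l 0)))) (.n 2 (.n 0 (.l 0) (.n 0 (.l 0) (.l 0))) (.n 0 (.l 0) (.n 1 (.l 0) (.l 0))))))) [(4123168604160, 274877906944), (285883760640, 22011707392), (253403070464, 21474836480)] rfl (by decide +kernel)
theorem I2RT_3 : CovD 1 [pRT H BI2] [(4123168604160, 274877906944), (241860345856, 22011707392), (194347270144, 5368709120)] :=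
  cov_of (fRT H BI2) (.n 1 (.n 0 (.n 1 (.n 0 (.l 0) (.l 0)) (.n 0 (.l 0) (.l 0))) (.n 1 (.n 0 (.l 0) (.n 0 (.l 0) (.l 0))) (.n 0 (.l 0) (.n 0 (.l 0) (.l 0))))) (.n 0 (.n 1 (.l 0) (.l 0)) (.n 1 (.n 0 (.l 0) (.l 0)) (.n 0 (.l 0) (.l 0))))) [(4123168604160, 274877906944), (241860345856, 22011707392), (194347270144, 5368709120)] rfl (by decide +kernel)
end

end Pool.Agent.helper82.WC.S5K5
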