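import Pool.Agent.helper82.WH.Chks

/-!
Generated: constants of a cell.
-/

namespace Pool.Agent.helper82.WC.S5K5

open Pool.Agent.helper82.WH
open Pool.Agent.helper31.IC (CovD covD_split TD)

def H : HC := ⟨⟨4123168604160, 0⟩, ⟨63326715904, 0⟩, ⟨0, 210731925504⟩, ⟨0, 1047556128768⟩, ⟨3603762184192, 0⟩, ⟨0, 7535919693824⟩, ⟨860512911360, 0⟩, ⟨0, 4794296631296⟩, ⟨19824671129600, 0⟩, ⟨0, 37787024424960⟩, ⟨592680386560, 0⟩, ⟨0, 15218769920⟩, ⟨911324741632, 0⟩, ⟨1647566127104, 0⟩, ⟨919503765504, 0⟩, ⟨0, 1155628204032⟩, ⟨0, 1423627780096⟩, ⟨0, 1750049226752⟩, ⟨69634424832, 0⟩, ⟨0, 3730900254720⟩, ⟨7154473893888, 0⟩, ⟨1150600413184, 0⟩, ⟨91827470336, 0⟩, ⟨2463848202240, 0⟩, ⟨1552124477440, 0⟩, ⟨0, 82153074917376⟩, ⟨0, 0⟩⟩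

def BI0 : BC := ⟨⟨0, 0, 1099511627776, 0⟩, ⟨0, 0⟩, ⟨0, 0⟩, 104220524544, 31040339968, 102833586176, 842800103424, 159428116480, 20333985792, 1282114846720, 1177357910016, ⟨16604343566336, 0⟩, ⟨0, 1649267441664⟩, ⟨988454912000, 0⟩, ⟨0, 0⟩, ⟨0, 0⟩⟩

def BI1 : BC := ⟨⟨0, 0, 1099511627776, 0⟩, ⟨0, 0⟩, ⟨0, 0⟩, 91030290432, 29307371520, 146323537920, 808669413376, 159428116480, 24377294848, 1609622880256, 1163650924544, ⟨14096082665472, 0⟩, ⟨0, 4011499454464⟩, ⟨1001081536512, 0⟩, ⟨0, 0⟩, ⟨0, 0⟩⟩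

def BI2 : BC := ⟨⟨0, 0, 1099511627776, 0⟩, ⟨0, 0⟩, ⟨0, 0⟩, 94309515264, 32228507648, 202968006656, 739115401216, 159428116480, 29913776128, 1940100481024, 1131656773632, ⟨10827612553216, 0⟩, ⟨0, 5171140624384⟩, ⟨996938678272, 0⟩, ⟨0, 0⟩, ⟨0, 0⟩⟩

def BI3 : BC := ⟨⟨0, 0, 1099511627776, 0⟩, ⟨0, 0⟩, ⟨0, 0⟩, 105458106368, 32571064320, 241787535360, 676180393984, 159428116480, 39007027200, 2393924173824, 1084714123264, ⟨7164005449728, 0⟩, ⟨0, 5497558138880⟩, ⟨985149472768, 0⟩, ⟨0, 0⟩, ⟨0, 0⟩⟩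

def BR0 : BC := ⟨⟨0, 0, 0, 0⟩, ⟨164926717952, 0⟩, ⟨1099511627776, 0⟩, 95944572928, 31273779200, 81720639488, 872383184896, 159428116480, 20535312384, 1138401214464, 1188598644736, ⟨0, 0⟩, ⟨0, 0⟩, ⟨996992024576, 0⟩, ⟨0, 0⟩, ⟨0, 0⟩⟩

def BP : BC := ⟨⟨0, 0, 0, 0⟩, ⟨164926717952, 0⟩, ⟨1099511627776, 0⟩, 126894014464, 36721852416, 124415377408, 786987286528, 115447627776, 16005464064, 1138401214464, 1165966180352, ⟨0, 0⟩, ⟨0, 0⟩, ⟨552345141248, 0⟩, ⟨0, 0⟩, ⟨1099511627776, 0⟩⟩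

def BM : BC := ⟨⟨0, 0, 0, 0⟩, ⟨164926717952, 0⟩, ⟨1099511627776, 0⟩, 81632034816, 27457093632, 97268072448, 875618500608, 115447627776, 20535312384, 1044163592192, 1188598644736, ⟨0, 0⟩, ⟨0, 0⟩, ⟨588518129664, 0⟩, ⟨0, 0⟩, ⟨0, 1099511627776⟩⟩

def BT : BC := ⟨⟨0, 0, 1099511627776, 0⟩, ⟨0, 0⟩, ⟨0, 0⟩, 87403790336, 26538344448, 186358497280, 599581130752, 159428116480, 39007027200, 2393924173824, 986449969152, ⟨6073083756544, 0⟩, ⟨0, 5201205395456⟩, ⟨778015145984, 0⟩, ⟨1099511627776, 0⟩, ⟨0, 0⟩⟩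

end Pool.Agent.helper82.WC.S5K5
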