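import Pool.Agent.helper82.WC.S5K6C0
import Pool.Agent.helper82.WC.S5K6C1

/-!
Generated certificates, assembled.
-/

namespace Pool.Agent.helper82.WC.S5K6

open Pool.Agent.helper82.WH
open Pool.Agent.helper31.IC (CovD covD_split TD)

theorem I0AD_1 : CovD 0 [pAD H BI0] [(4123168604160, 274877906944), (379299299328, 71403831296), (101468602368, 33822867456)] :=
  covD_split 1 (by decide +kernel) I0AD_2 I0AD_3
theorem I0AD : CovD 0 [pAD H BI0] [(4123168604160, 274877906944), (379299299328, 71403831296), (67645734912, 67645734912)] :=
  covD_split 2 (by decide +kernel) I0AD_0 I0AD_1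
theorem I0RT_0 : CovD 1 [pRT H BI0] [(4123168604160, 274877906944), (379299299328, 71403831296), (33822867456, 33822867456)] :=
  covD_split 1 (by decide +kernel) I0RT_1 I0RT_2
theorem I0RT_6 : CovD 1 [pRT H BI0] [(4123168604160, 274877906944), (343597383680, 35701915648), (118380036096, 16911433728)] :=
  covD_split 2 (by decide +kernel) I0RT_7 I0RT_8
theorem I0RT_4 : CovD 1 [pRT H BI0] [(4123168604160, 274877906944), (343597383680, 35701915648), (101468602368, 33822867456)] :=
  covD_split 2 (by decide +kernel) I0RT_5 I0RT_6
theorem I0RT_9 : CovD 1 [pRT H BI0] [(4123168604160, 274877906944), (415001214976, 35701915648), (101468602368, 33822867456)] :=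
  covD_split 2 (by decide +kernel) I0RT_10 I0RT_11
theorem I0RT_3 : CovD 1 [pRT H BI0] [(4123168604160, 274877906944), (379299299328, 71403831296), (101468602368, 33822867456)] :=
  covD_split 1 (by decide +kernel) I0RT_4 I0RT_9
theorem I0RT : CovD 1 [pRT H BI0] [(4123168604160, 274877906944), (379299299328, 71403831296), (67645734912, 67645734912)] :=
  covD_split 2 (by decide +kernel) I0RT_0 I0RT_3
theorem I1AD_2 : CovD 0 [pAD H BI1] [(4123168604160, 274877906944), (415001214976, 35701915648), (176630530048, 41339060224)] :=
  covD_split 2 (by decide +kernel) I1AD_3 I1AD_4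
theorem I1AD_0 : CovD 0 [pAD H BI1] [(4123168604160, 274877906944), (379299299328, 71403831296), (176630530048, 41339060224)] :=
  covD_split 1 (by decide +kernel) I1AD_1 I1AD_2
theorem I1AD_7 : CovD 0 [pAD H BI1] [(4123168604160, 274877906944), (415001214976, 35701915648), (259308650496, 41339060224)] :=
  covD_split 2 (by decide +kernel) I1AD_8 I1AD_9
theorem I1AD_5 : CovD 0 [pAD H BI1] [(4123168604160, 274877906944), (379299299328, 71403831296), (259308650496, 41339060224)] :=
  covD_split 1 (by decide +kernel) I1AD_6 I1AD_7
theorem I1AD : CovD 0 [pAD H BI1] [(4123168604160, 274877906944), (379299299328, 71403831296), (217969590272, 82678120448)] :=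
  covD_split 2 (by decide +kernel) I1AD_0 I1AD_5
theorem I1G : CovD 1 [pG H BI1] [(4123168604160, 274877906944), (379299299328, 71403831296), (217969590272, 82678120448)] :=
  covD_split 2 (by decide +kernel) I1G_0 I1G_1
theorem I1RT_1 : CovD 1 [pRT H BI1] [(4123168604160, 274877906944), (343597383680, 35701915648), (176630530048, 41339060224)] :=
  covD_split 2 (by decide +kernel) I1RT_2 I1RT_3
theorem I1RT_0 : CovD 1 [pRT H BI1] [(4123168604160, 274877906944), (379299299328, 71403831296), (176630530048, 41339060224)] :=
  covD_split 1 (by decide +kernel) I1RT_1 I1RT_4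
theorem I1RT_8 : CovD 1 [pRT H BI1] [(4123168604160, 274877906944), (343597383680, 35701915648), (279978180608, 20669530112)] :=
  covD_split 2 (by decide +kernel) I1RT_9 I1RT_10
theorem I1RT_6 : CovD 1 [pRT H BI1] [(4123168604160, 274877906944), (343597383680, 35701915648), (259308650496, 41339060224)] :=
  covD_split 2 (by decide +kernel) I1RT_7 I1RT_8
theorem I1RT_11 : CovD 1 [pRT H BI1] [(4123168604160, 274877906944), (415001214976, 35701915648), (259308650496, 41339060224)] :=
  covD_split 2 (by decide +kernel) I1RT_12 I1RT_13
theorem I1RT_5 : CovD 1 [pRT H BI1] [(4123168604160, 274877906944), (379299299328, 71403831296), (259308650496, 41339060224)] :=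
  covD_split 1 (by decide +kernel) I1RT_6 I1RT_11
theorem I1RT : CovD 1 [pRT H BI1] [(4123168604160, 274877906944), (379299299328, 71403831296), (217969590272, 82678120448)] :=
  covD_split 2 (by decide +kernel) I1RT_0 I1RT_5
theorem I2AD : CovD 0 [pAD H BI2] [(4123168604160, 274877906944), (379299299328, 71403831296), (323196289024, 22548578304)] :=
  covD_split 1 (by decide +kernel) I2AD_0 I2AD_1
theorem I2RT_0 : CovD 1 [pRT H BI2] [(4123168604160, 274877906944), (343597383680, 35701915648), (323196289024, 22548578304)] :=
  covD_split 2 (by decide +kernel) I2RT_1 I2RT_2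
theorem I2RT_3 : CovD 1 [pRT H BI2] [(4123168604160, 274877906944), (415001214976, 35701915648), (323196289024, 22548578304)] :=
  covD_split 1 (by decide +kernel) I2RT_4 I2RT_5
theorem I2RT : CovD 1 [pRT H BI2] [(4123168604160, 274877906944), (379299299328, 71403831296), (323196289024, 22548578304)] :=
  covD_split 1 (by decide +kernel) I2RT_0 I2RT_3
theorem I3RT : CovD 1 [pRT H BI3] [(4123168604160, 274877906944), (379299299328, 71403831296), (353261060096, 7516192768)] :=
  covD_split 1 (by decide +kernel) I3RT_0 I3RT_1

end Pool.Agent.helper82.WC.S5K6
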