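import Pool.Agent.helper82.WC.S5K6P

/-!
Generated certificates (in pairs, so that they are checked one after the other).
-/

namespace Pool.Agent.helper82.WC.S5K6

open Pool.Agent.helper82.WH
open Pool.Agent.helper31.IC (CovD covD_split TD)

mutual
theorem I0AD_0 : CovD 0 [pAD H BI0] [(4123168604160, 274877906944), (379299299328, 71403831296), (33822867456, 33822867456)] :=
  cov_of (fAD H BI0) (.n 1 (.n 2 (.n 1 (.n 0 (.l 0) (.l 0)) (.n 0 (.l 0) (.l 0))) (.n 1 (.n 0 (.l 0) (.l 0)) (.n 0 (.l 0) (.l 0)))) (.n 1 (.n 2 (.n 0 (.l 0) (.l 0)) (.n 0 (.l 0) (.n 0 (.l 0) (.l 0)))) (.n 2 (.n 0 (.n 0 (.l 0) (.l 0)) (.n 0 (.l 0) (.l 0))) (.n 0 (.n 0 (.l 0) (.l 0)) (.n 0 (.l 0) (.l 0)))))) [(4123168604160, 274877906944), (379299299328, 71403831296), (33822867456, 33822867456)] rfl (by decide +kernel)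
theorem I0AD_2 : CovD 0 [pAD H BI0] [(4123168604160, 274877906944), (343597383680, 35701915648), (101468602368, 33822867456)] :=
  cov_of (fAD H BI0) (.n 2 (.n 1 (.n 0 (.l 0) (.l 0)) (.n 0 (.l 0) (.n 0 (.l 0) (.l 0)))) (.n 1 (.n 0 (.n 0 (.l 0) (.l 0)) (.n 0 (.l 0) (.l 0))) (.n 0 (.n 0 (.l 0) (.l 0)) (.n 0 (.l 0) (.l 0))))) [(4123168604160, 274877906944), (343597383680, 35701915648), (101468602368, 33822867456)] rfl (by decide +kernel)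
end

mutual
theorem I0AD_3 : CovD 0 [pAD H BI0] [(4123168604160, 274877906944), (415001214976, 35701915648), (101468602368, 33822867456)] :=
  cov_of (fAD H BI0) (.n 2 (.n 1 (.n 0 (.n 0 (.l 0) (.l 0)) (.n 0 (.l 0) (.l 0))) (.n 0 (.n 0 (.l 0) (.l 0)) (.n 0 (.l 0) (.l 0)))) (.n 1 (.n 0 (.n 0 (.l 0) (.l 0)) (.n 0 (.l 0) (.l 0))) (.n 0 (.n 1 (.l 0) (.l 0)) (.n 1 (.l 0) (.l 0))))) [(4123168604160, 274877906944), (415001214976, 35701915648), (101468602368, 33822867456)] rfl (by decide +kernel)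
theorem I0G : CovD 1 [pG H BI0] [(4123168604160, 274877906944), (379299299328, 71403831296), (67645734912, 67645734912)] :=
  cov_of (fG H BI0) (.n 1 (.n 2 (.n 2 (.n 1 (.l 0) (.l 0)) (.n 1 (.n 0 (.l 0) (.l 0)) (.l 0))) (.n 2 (.n 1 (.n 2 (.l 0) (.l 0)) (.n 0 (.l 0) (.l 0))) (.n 1 (.n 0 (.l 0) (.n 2 (.l 0) (.l 0))) (.n 2 (.l 0) (.n 0 (.l 0) (.l 0)))))) (.n 2 (.n 1 (.n 0 (.l 0) (.l 0)) (.l 0)) (.n 2 (.n 1 (.l 0) (.l 0)) (.n 1 (.n 0 (.l 0) (.l 0)) (.l 0))))) [(4123168604160, 274877906944), (379299299328, 71403831296), (67645734912, 67645734912)] rfl (by decide +kernel)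
end

mutual
theorem I0RT_1 : CovD 1 [pRT H BI0] [(4123168604160, 274877906944), (343597383680, 35701915648), (33822867456, 33822867456)] :=
  cov_of (fRT H BI0) (.n 2 (.n 2 (.n 1 (.n 0 (.l 0) (.l 0)) (.n 0 (.l 0) (.l 0))) (.n 1 (.n 0 (.l 0) (.l 0)) (.n 1 (.l 0) (.n 0 (.l 0) (.l 0))))) (.n 2 (.n 1 (.n 1 (.l 0) (.l 0)) (.n 0 (.l 0) (.n 1 (.l 0) (.l 0)))) (.n 1 (.n 1 (.l 0) (.n 0 (.l 0) (.l 0))) (.n 0 (.l 0) (.n 1 (.l 0) (.l 0)))))) [(4123168604160, 274877906944), (343597383680, 35701915648), (33822867456, 33822867456)] rfl (by decide +kernel)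
theorem I0RT_2 : CovD 1 [pRT H BI0] [(4123168604160, 274877906944), (415001214976, 35701915648), (33822867456, 33822867456)] :=
  cov_of (fRT H BI0) (.n 2 (.n 1 (.n 2 (.n 0 (.l 0) (.l 0)) (.n 1 (.n 0 (.l 0) (.l 0)) (.l 0))) (.n 2 (.l 0) (.n 0 (.l 0) (.l 0)))) (.n 1 (.n 2 (.n 0 (.l 0) (.n 1 (.l 0) (.l 0))) (.n 0 (.l 0) (.n 1 (.l 0) (.l 0)))) (.n 0 (.l 0) (.n 2 (.l 0) (.n 0 (.l 0) (.l 0)))))) [(4123168604160, 274877906944), (415001214976, 35701915648), (33822867456, 33822867456)] rfl (by decide +kernel)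
end

mutual
theorem I0RT_5 : CovD 1 [pRT H BI0] [(4123168604160, 274877906944), (343597383680, 35701915648), (84557168640, 16911433728)] :=
  cov_of (fRT H BI0) (.n 2 (.n 1 (.n 0 (.l 0) (.n 1 (.l 0) (.l 0))) (.n 0 (.l 0) (.n 1 (.l 0) (.n 0 (.l 0) (.l 0))))) (.n 1 (.n 0 (.n 0 (.l 0) (.l 0)) (.n 1 (.l 0) (.n 0 (.l 0) (.l 0)))) (.n 0 (.l 0) (.n 1 (.n 0 (.l 0) (.l 0)) (.n 1 (.l 0) (.l 0)))))) [(4123168604160, 274877906944), (343597383680, 35701915648), (84557168640, 16911433728)] rfl (by decide +kernel)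
theorem I0RT_7 : CovD 1 [pRT H BI0] [(4123168604160, 274877906944), (343597383680, 35701915648), (109924319232, 8455716864)] :=
  cov_of (fRT H BI0) (.n 1 (.n 0 (.n 0 (.l 0) (.l 0)) (.n 1 (.n 0 (.l 0) (.l 0)) (.n 2 (.l 0) (.l 0)))) (.n 1 (.n 0 (.l 0) (.n 2 (.l 0) (.l 0))) (.n 0 (.l 0) (.n 2 (.l 0) (.l 0))))) [(4123168604160, 274877906944), (343597383680, 35701915648), (109924319232, 8455716864)] rfl (by decide +kernel)
end

mutual
theorem I0RT_8 : CovD 1 [pRT H BI0] [(4123168604160, 274877906944), (343597383680, 35701915648), (126835752960, 8455716864)] :=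
  cov_of (fRT H BI0) (.n 1 (.n 0 (.n 0 (.l 0) (.l 0)) (.n 1 (.n 2 (.l 0) (.l 0)) (.n 2 (.l 0) (.n 0 (.l 0) (.l 0))))) (.n 0 (.n 1 (.l 0) (.l 0)) (.n 1 (.n 0 (.l 0) (.n 2 (.l 0) (.l 0))) (.n 0 (.l 0) (.n 2 (.l 0) (.l 0)))))) [(4123168604160, 274877906944), (343597383680, 35701915648), (126835752960, 8455716864)] rfl (by decide +kernel)
theorem I0RT_10 : CovD 1 [pRT H BI0] [(4123168604160, 274877906944), (415001214976, 35701915648), (84557168640, 16911433728)] :=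
  cov_of (fRT H BI0) (.n 1 (.n 2 (.n 0 (.l 0) (.n 1 (.l 0) (.l 0))) (.n 0 (.l 0) (.n 1 (.n 0 (.l 0) (.l 0)) (.n 0 (.l 0) (.l 0))))) (.n 2 (.n 1 (.n 0 (.l 0) (.l 0)) (.l 0)) (.n 0 (.l 0) (.n 1 (.l 0) (.l 0))))) [(4123168604160, 274877906944), (415001214976, 35701915648), (84557168640, 16911433728)] rfl (by decide +kernel)
end

mutual
theorem I0RT_11 : CovD 1 [pRT H BI0] [(4123168604160, 274877906944), (415001214976, 35701915648), (118380036096, 16911433728)] :=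
  cov_of (fRT H BI0) (.n 1 (.n 2 (.n 0 (.l 0) (.n 1 (.n 2 (.l 0) (.l 0)) (.n 0 (.l 0) (.l 0)))) (.n 0 (.n 0 (.l 0) (.l 0)) (.n 1 (.n 2 (.l 0) (.n 0 (.l 0) (.l 0))) (.n 2 (.l 0) (.l 0))))) (.n 2 (.n 0 (.l 0) (.n 1 (.l 0) (.l 0))) (.n 0 (.l 0) (.n 1 (.n 0 (.l 0) (.l 0)) (.l 0))))) [(4123168604160, 274877906944), (415001214976, 35701915648), (118380036096, 16911433728)] rfl (by decide +kernel)
theorem I1AD_1 : CovD 0 [pAD H BI1] [(4123168604160, 274877906944), (343597383680, 35701915648), (176630530048, 41339060224)] :=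
  cov_of (fAD H BI1) (.n 2 (.n 1 (.n 0 (.n 0 (.l 0) (.l 0)) (.n 0 (.l 0) (.l 0))) (.n 0 (.n 0 (.l 0) (.l 0)) (.n 0 (.l 0) (.l 0)))) (.n 1 (.n 0 (.n 2 (.l 0) (.l 0)) (.n 2 (.l 0) (.l 0))) (.n 0 (.n 2 (.l 0) (.l 0)) (.n 2 (.l 0) (.l 0))))) [(4123168604160, 274877906944), (343597383680, 35701915648), (176630530048, 41339060224)] rfl (by decide +kernel)
end

mutual
theorem I1AD_3 : CovD 0 [pAD H BI1] [(4123168604160, 274877906944), (415001214976, 35701915648), (155960999936, 20669530112)] :=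
  cov_of (fAD H BI1) (.n 1 (.n 0 (.n 2 (.l 0) (.l 0)) (.n 2 (.l 0) (.l 0))) (.n 0 (.n 2 (.n 0 (.l 0) (.l 0)) (.n 0 (.l 0) (.l 0))) (.n 2 (.n 0 (.l 0) (.l 0)) (.n 0 (.l 0) (.l 0))))) [(4123168604160, 274877906944), (415001214976, 35701915648), (155960999936, 20669530112)] rfl (by decide +kernel)
theorem I1AD_4 : CovD 0 [pAD H BI1] [(4123168604160, 274877906944), (415001214976, 35701915648), (197300060160, 20669530112)] :=
  cov_of (fAD H BI1) (.n 1 (.n 0 (.n 2 (.n 0 (.l 0) (.l 0)) (.n 0 (.l 0) (.l 0))) (.n 2 (.l 0) (.n 0 (.l 0) (.l 0)))) (.n 0 (.n 2 (.n 0 (.l 0) (.l 0)) (.n 0 (.l 0) (.l 0))) (.n 2 (.n 0 (.l 0) (.l 0)) (.n 0 (.l 0) (.l 0))))) [(4123168604160, 274877906944), (415001214976, 35701915648), (197300060160, 20669530112)] rfl (by decide +kernel)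
end

mutual
theorem I1AD_6 : CovD 0 [pAD H BI1] [(4123168604160, 274877906944), (343597383680, 35701915648), (259308650496, 41339060224)] :=
  cov_of (fAD H BI1) (.n 2 (.n 1 (.n 0 (.n 2 (.l 0) (.l 0)) (.n 2 (.l 0) (.l 0))) (.n 0 (.n 2 (.l 0) (.n 0 (.l 0) (.l 0))) (.n 2 (.l 0) (.n 0 (.l 0) (.l 0))))) (.n 1 (.n 0 (.n 2 (.l 0) (.l 0)) (.n 2 (.l 0) (.l 0))) (.n 0 (.n 2 (.n 0 (.l 0) (.l 0)) (.n 0 (.l 0) (.l 0))) (.n 2 (.n 0 (.l 0) (.l 0)) (.n 0 (.l 0) (.l 0)))))) [(4123168604160, 274877906944), (343597383680, 35701915648), (259308650496, 41339060224)] rfl (by decide +kernel)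
theorem I1AD_8 : CovD 0 [pAD H BI1] [(4123168604160, 274877906944), (415001214976, 35701915648), (238639120384, 20669530112)] :=
  cov_of (fAD H BI1) (.n 1 (.n 0 (.n 2 (.n 0 (.l 0) (.l 0)) (.n 0 (.l 0) (.l 0))) (.n 2 (.n 0 (.l 0) (.l 0)) (.n 0 (.l 0) (.l 0)))) (.n 0 (.n 2 (.n 1 (.l 0) (.l 0)) (.n 1 (.l 0) (.l 0))) (.n 2 (.n 0 (.l 0) (.l 0)) (.n 1 (.l 0) (.l 0))))) [(4123168604160, 274877906944), (415001214976, 35701915648), (238639120384, 20669530112)] rfl (by decide +kernel)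
end

mutual
theorem I1AD_9 : CovD 0 [pAD H BI1] [(4123168604160, 274877906944), (415001214976, 35701915648), (279978180608, 20669530112)] :=
  cov_of (fAD H BI1) (.n 1 (.n 0 (.n 2 (.n 0 (.l 0) (.l 0)) (.n 0 (.l 0) (.l 0))) (.n 2 (.n 0 (.l 0) (.l 0)) (.n 0 (.l 0) (.l 0)))) (.n 0 (.n 2 (.n 1 (.l 0) (.l 0)) (.n 1 (.l 0) (.l 0))) (.n 2 (.n 1 (.l 0) (.l 0)) (.n 0 (.l 0) (.l 0))))) [(4123168604160, 274877906944), (415001214976, 35701915648), (279978180608, 20669530112)] rfl (by decide +kernel)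
theorem I1G_0 : CovD 1 [pG H BI1] [(4123168604160, 274877906944), (379299299328, 71403831296), (176630530048, 41339060224)] :=
  cov_of (fG H BI1) (.n 1 (.n 2 (.n 1 (.n 2 (.n 0 (.l 0) (.l 0)) (.n 0 (.l 0) (.n 0 (.l 0) (.l 0)))) (.n 0 (.l 0) (.n 2 (.l 0) (.l 0)))) (.n 1 (.n 2 (.n 0 (.l 0) (.n 0 (.l 0) (.l 0))) (.n 0 (.l 0) (.n 1 (.l 0) (.l 0)))) (.n 2 (.n 0 (.l 0) (.l 0)) (.n 0 (.l 0) (.l 0))))) (.n 2 (.n 1 (.n 0 (.l 0) (.l 0)) (.l 0)) (.n 1 (.n 0 (.l 0) (.l 0)) (.l 0)))) [(4123168604160, 274877906944), (379299299328, 71403831296), (176630530048, 41339060224)] rfl (by decide +kernel)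
end

mutual
theorem I1G_1 : CovD 1 [pG H BI1] [(4123168604160, 274877906944), (379299299328, 71403831296), (259308650496, 41339060224)] :=
  cov_of (fG H BI1) (.n 1 (.n 2 (.n 1 (.n 2 (.n 0 (.l 0) (.n 1 (.l 0) (.l 0))) (.n 0 (.l 0) (.n 0 (.l 0) (.l 0)))) (.n 0 (.l 0) (.n 2 (.l 0) (.l 0)))) (.n 1 (.n 2 (.n 0 (.l 0) (.n 0 (.l 0) (.l 0))) (.n 0 (.l 0) (.l 0))) (.n 2 (.l 0) (.l 0)))) (.n 2 (.n 1 (.n 0 (.l 0) (.l 0)) (.l 0)) (.n 1 (.n 0 (.l 0) (.l 0)) (.l 0)))) [(4123168604160, 274877906944), (379299299328, 71403831296), (259308650496, 41339060224)] rfl (by decide +kernel)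
theorem I1RT_2 : CovD 1 [pRT H BI1] [(4123168604160, 274877906944), (343597383680, 35701915648), (155960999936, 20669530112)] :=
  cov_of (fRT H BI1) (.n 2 (.n 1 (.n 0 (.n 1 (.l 0) (.l 0)) (.n 1 (.n 0 (.l 0) (.l 0)) (.l 0))) (.n 0 (.n 0 (.l 0) (.l 0)) (.n 1 (.l 0) (.l 0)))) (.n 1 (.n 1 (.n 0 (.l 0) (.n 0 (.l 0) (.l 0))) (.n 0 (.l 0) (.l 0))) (.n 1 (.n 0 (.l 0) (.l 0)) (.n 0 (.l 0) (.l 0))))) [(4123168604160, 274877906944), (343597383680, 35701915648), (155960999936, 20669530112)] rfl (by decide +kernel)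
end

mutual
theorem I1RT_3 : CovD 1 [pRT H BI1] [(4123168604160, 274877906944), (343597383680, 35701915648), (197300060160, 20669530112)] :=
  cov_of (fRT H BI1) (.n 2 (.n 1 (.n 0 (.n 1 (.n 0 (.l 0) (.l 0)) (.l 0)) (.n 1 (.n 0 (.l 0) (.l 0)) (.n 0 (.l 0) (.l 0)))) (.n 0 (.n 0 (.l 0) (.l 0)) (.n 1 (.l 0) (.l 0)))) (.n 1 (.n 0 (.n 1 (.n 0 (.l 0) (.l 0)) (.l 0)) (.n 1 (.n 0 (.l 0) (.l 0)) (.n 0 (.l 0) (.l 0)))) (.n 0 (.n 0 (.l 0) (.l 0)) (.n 1 (.l 0) (.l 0))))) [(4123168604160, 274877906944), (343597383680, 35701915648), (197300060160, 20669530112)] rfl (by decide +kernel)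
theorem I1RT_4 : CovD 1 [pRT H BI1] [(4123168604160, 274877906944), (415001214976, 35701915648), (176630530048, 41339060224)] :=
  cov_of (fRT H BI1) (.n 2 (.n 1 (.n 0 (.n 2 (.l 0) (.l 0)) (.n 2 (.n 0 (.l 0) (.l 0)) (.l 0))) (.n 2 (.n 0 (.l 0) (.l 0)) (.n 0 (.l 0) (.l 0)))) (.n 1 (.n 2 (.n 0 (.l 0) (.l 0)) (.n 0 (.l 0) (.l 0))) (.n 0 (.n 0 (.l 0) (.l 0)) (.n 2 (.l 0) (.l 0))))) [(4123168604160, 274877906944), (415001214976, 35701915648), (176630530048, 41339060224)] rfl (by decide +kernel)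
end

mutual
theorem I1RT_7 : CovD 1 [pRT H BI1] [(4123168604160, 274877906944), (343597383680, 35701915648), (238639120384, 20669530112)] :=
  cov_of (fRT H BI1) (.n 1 (.n 2 (.n 0 (.n 1 (.n 0 (.l 0) (.l 0)) (.l 0)) (.n 1 (.n 0 (.l 0) (.l 0)) (.n 0 (.l 0) (.l 0)))) (.n 0 (.n 1 (.n 0 (.l 0) (.l 0)) (.l 0)) (.n 1 (.n 0 (.l 0) (.l 0)) (.n 0 (.l 0) (.l 0))))) (.n 2 (.n 0 (.n 0 (.l 0) (.l 0)) (.n 1 (.l 0) (.l 0))) (.n 0 (.n 0 (.l 0) (.l 0)) (.n 1 (.l 0) (.l 0))))) [(4123168604160, 274877906944), (343597383680, 35701915648), (238639120384, 20669530112)] rfl (by decide +kernel)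
theorem I1RT_9 : CovD 1 [pRT H BI1] [(4123168604160, 274877906944), (343597383680, 35701915648), (269643415552, 10334765056)] :=
  cov_of (fRT H BI1) (.n 1 (.n 0 (.n 1 (.n 0 (.l 0) (.l 0)) (.n 0 (.l 0) (.l 0))) (.n 1 (.n 2 (.l 0) (.l 0)) (.n 2 (.l 0) (.l 0)))) (.n 0 (.n 1 (.l 0) (.l 0)) (.n 1 (.n 0 (.l 0) (.l 0)) (.n 0 (.l 0) (.l 0))))) [(4123168604160, 274877906944), (343597383680, 35701915648), (269643415552, 10334765056)] rfl (by decide +kernel)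
end

mutual
theorem I1RT_10 : CovD 1 [pRT H BI1] [(4123168604160, 274877906944), (343597383680, 35701915648), (290312945664, 10334765056)] :=
  cov_of (fRT H BI1) (.n 1 (.n 0 (.n 1 (.n 0 (.l 0) (.l 0)) (.n 0 (.l 0) (.l 0))) (.n 1 (.n 0 (.l 0) (.n 2 (.l 0) (.n 0 (.l 0) (.l 0)))) (.n 0 (.l 0) (.n 2 (.l 0) (.l 0))))) (.n 0 (.n 1 (.l 0) (.l 0)) (.n 1 (.n 2 (.l 0) (.n 0 (.l 0) (.l 0))) (.n 2 (.l 0) (.l 0))))) [(4123168604160, 274877906944), (343597383680, 35701915648), (290312945664, 10334765056)] rfl (by decide +kernel)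
theorem I1RT_12 : CovD 1 [pRT H BI1] [(4123168604160, 274877906944), (415001214976, 35701915648), (238639120384, 20669530112)] :=
  cov_of (fRT H BI1) (.n 1 (.n 2 (.n 0 (.l 0) (.n 0 (.l 0) (.l 0))) (.n 0 (.n 0 (.l 0) (.l 0)) (.n 1 (.l 0) (.l 0)))) (.n 2 (.n 0 (.l 0) (.l 0)) (.n 1 (.l 0) (.l 0)))) [(4123168604160, 274877906944), (415001214976, 35701915648), (238639120384, 20669530112)] rfl (by decide +kernel)
end

mutual
theorem I1RT_13 : CovD 1 [pRT H BI1] [(4123168604160, 274877906944), (415001214976, 35701915648), (279978180608, 20669530112)] :=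
  cov_of (fRT H BI1) (.n 1 (.n 2 (.n 0 (.n 0 (.l 0) (.l 0)) (.n 1 (.l 0) (.l 0))) (.n 0 (.n 1 (.l 0) (.l 0)) (.n 1 (.n 2 (.l 0) (.l 0)) (.n 0 (.l 0) (.l 0))))) (.n 1 (.n 0 (.n 0 (.l 0) (.l 0)) (.n 2 (.l 0) (.n 0 (.l 0) (.l 0)))) (.n 0 (.n 0 (.l 0) (.l 0)) (.n 2 (.l 0) (.n 0 (.l 0) (.l 0)))))) [(4123168604160, 274877906944), (415001214976, 35701915648), (279978180608, 20669530112)] rfl (by decide +kernel)
theorem I2AD_0 : CovD 0 [pAD H BI2] [(4123168604160, 274877906944), (343597383680, 35701915648), (323196289024, 22548578304)] :=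
  cov_of (fAD H BI2) (.n 1 (.n 2 (.n 0 (.n 0 (.l 0) (.l 0)) (.n 0 (.l 0) (.l 0))) (.n 0 (.n 0 (.l 0) (.l 0)) (.n 0 (.l 0) (.l 0)))) (.n 2 (.n 0 (.n 0 (.l 0) (.l 0)) (.n 0 (.l 0) (.l 0))) (.n 0 (.n 1 (.l 0) (.l 0)) (.n 1 (.l 0) (.l 0))))) [(4123168604160, 274877906944), (343597383680, 35701915648), (323196289024, 22548578304)] rfl (by decide +kernel)
end

end Pool.Agent.helper82.WC.S5K6
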