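import Pool.Agent.helper82.WH.Chks

/-!
Generated: constants of a cell.
-/

namespace Pool.Agent.helper82.WC.S5K6

open Pool.Agent.helper82.WH
open Pool.Agent.helper31.IC (CovD covD_split TD)

def H : HC := ⟨⟨4123168604160, 0⟩, ⟨130847145984, 0⟩, ⟨709096964096, 0⟩, ⟨0, 763801894912⟩, ⟨2269174366208, 0⟩, ⟨0, 11037230170112⟩, ⟨384188678144, 0⟩, ⟨0, 9104250896384⟩, ⟨32881792516096, 0⟩, ⟨0, 50759936835584⟩, ⟨650427760640, 0⟩, ⟨32770752512, 0⟩, ⟨1084146384896, 0⟩, ⟨1646981611520, 0⟩, ⟨801898496000, 0⟩, ⟨0, 1942086483968⟩, ⟨0, 1924190502912⟩, ⟨0, 1456058335232⟩, ⟨1360118153216, 0⟩, ⟨0, 2293968404480⟩, ⟨4336015638528, 0⟩, ⟨2731637735424, 0⟩, ⟨36314677248, 0⟩, ⟨1154327379968, 0⟩, ⟨0, 38306339946496⟩, ⟨155027184746496, 0⟩, ⟨0, 0⟩⟩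

def BI0 : BC := ⟨⟨0, 0, 1099511627776, 0⟩, ⟨0, 0⟩, ⟨0, 0⟩, 197561679872, 39323959296, 166335545344, 673886896128, 159428116480, 23471325184, 1927953776640, 1063826489344, ⟨13267153977344, 0⟩, ⟨0, 1782411427840⟩, ⟨894179934208, 0⟩, ⟨0, 0⟩, ⟨0, 0⟩⟩

def BI1 : BC := ⟨⟨0, 0, 1099511627776, 0⟩, ⟨0, 0⟩, ⟨0, 0⟩, 218317389824, 42038460416, 175201386496, 635236188160, 159428116480, 29058138112, 2229020917760, 1038593556480, ⟨9904194584576, 0⟩, ⟨0, 4668629450752⟩, ⟨873271263232, 0⟩, ⟨0, 0⟩, ⟨0, 0⟩⟩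

def BI2 : BC := ⟨⟨0, 0, 1099511627776, 0⟩, ⟨0, 0⟩, ⟨0, 0⟩, 187388133376, 39549599744, 162011217920, 675881811968, 159428116480, 32161923072, 2346545315840, 950026633216, ⟨7743826034688, 0⟩, ⟨0, 5390183956480⟩, ⟨904420917248, 0⟩, ⟨0, 0⟩, ⟨0, 0⟩⟩

def BI3 : BC := ⟨⟨0, 0, 1099511627776, 0⟩, ⟨0, 0⟩, ⟨0, 0⟩, 193125089280, 32459128832, 163007954944, 673884733440, 159428116480, 33873199104, 2393135644672, 921471811584, ⟨7610682048512, 0⟩, ⟨0, 5334349381632⟩, ⟨898730950656, 0⟩, ⟨0, 0⟩, ⟨0, 0⟩⟩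

def BR0 : BC := ⟨⟨0, 0, 0, 0⟩, ⟨164926717952, 0⟩, ⟨1099511627776, 0⟩, 225689337856, 39056113664, 130959278080, 679149895680, 159428116480, 26206011392, 1869904609280, 1083606827008, ⟨0, 0⟩, ⟨0, 0⟩, ⟨866558803968, 0⟩, ⟨0, 0⟩, ⟨0, 0⟩⟩

def BP : BC := ⟨⟨0, 0, 0, 0⟩, ⟨164926717952, 0⟩, ⟨1099511627776, 0⟩, 197281579008, 37662097408, 159882280960, 551770980352, 115447627776, 18270388224, 1869904609280, 1042888523776, ⟨0, 0⟩, ⟨0, 0⟩, ⟨415435390976, 0⟩, ⟨0, 0⟩, ⟨1099511627776, 0⟩⟩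

def BM : BC := ⟨⟨0, 0, 0, 0⟩, ⟨164926717952, 0⟩, ⟨1099511627776, 0⟩, 188553625600, 29153296384, 127980732416, 644114153472, 115447627776, 26206011392, 1752447320064, 1083606827008, ⟨0, 0⟩, ⟨0, 0⟩, ⟨464386654208, 0⟩, ⟨0, 0⟩, ⟨0, 1099511627776⟩⟩

def BT : BC := ⟨⟨0, 0, 1099511627776, 0⟩, ⟨0, 0⟩, ⟨0, 0⟩, 170321575936, 26378174464, 154089029632, 631105519616, 159428116480, 33873199104, 2393135644672, 911187378176, ⟨7627861917696, 0⟩, ⟨0, 5299989643264⟩, ⟨810473291776, 0⟩, ⟨1099511627776, 0⟩, ⟨0, 0⟩⟩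

end Pool.Agent.helper82.WC.S5K6
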