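import Pool.Agent.helper82.WC.S5K7C0

/-!
Generated certificates, assembled.
-/

namespace Pool.Agent.helper82.WC.S5K7

open Pool.Agent.helper82.WH
open Pool.Agent.helper31.IC (CovD covD_split TD)

theorem I0RT : CovD 1 [pRT H BI0] [(4123168604160, 274877906944), (500229472256, 49526341632), (57310969856, 57310969856)] :=
  covD_split 2 (by decide +kernel) I0RT_0 I0RT_1
theorem I1RT : CovD 1 [pRT H BI1] [(4123168604160, 274877906944), (500229472256, 49526341632), (148981678080, 34359738368)] :=
  covD_split 1 (by decide +kernel) I1RT_0 I1RT_1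

end Pool.Agent.helper82.WC.S5K7
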