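import Pool.Agent.helper82.WH.Chks

/-!
Generated: constants of a cell.
-/

namespace Pool.Agent.helper82.WC.S5K7

open Pool.Agent.helper82.WH
open Pool.Agent.helper31.IC (CovD covD_split TD)

def H : HC := ⟨⟨4123168604160, 0⟩, ⟨227582410752, 0⟩, ⟨2172416950272, 0⟩, ⟨0, 550593363968⟩, ⟨1686799122432, 0⟩, ⟨0, 22150516572160⟩, ⟨0, 281849692160⟩, ⟨0, 13266723930112⟩, ⟨74114069954560, 0⟩, ⟨0, 114675746209792⟩, ⟨745556344832, 0⟩, ⟨83970031616, 0⟩, ⟨1184500154368, 0⟩, ⟨1527812325376, 0⟩, ⟨606847434752, 0⟩, ⟨0, 3138411888640⟩, ⟨0, 2268832989184⟩, ⟨0, 1081679347712⟩, ⟨4047151562752, 0⟩, ⟨0, 451919806464⟩, ⟨1254386237440, 0⟩, ⟨3408909369344, 0⟩, ⟨0, 80954195968⟩, ⟨1836358828032, 0⟩, ⟨0, 40685187760128⟩, ⟨135117077676032, 0⟩, ⟨0, 0⟩⟩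

def BI0 : BC := ⟨⟨0, 0, 1099511627776, 0⟩, ⟨0, 0⟩, ⟨0, 0⟩, 266245636096, 57655558144, 213880995840, 541105455104, 159428116480, 23018340352, 2293042774016, 806229114880, ⟨10471130267648, 0⟩, ⟨0, 1335734829056⟩, ⟨824566087680, 0⟩, ⟨0, 0⟩, ⟨0, 0⟩⟩

def BI1 : BC := ⟨⟨0, 0, 1099511627776, 0⟩, ⟨0, 0⟩, ⟨0, 0⟩, 288649641984, 55352426496, 201899507712, 532204814336, 159428116480, 23974641664, 2344381054976, 793528762368, ⟨9380208574464, 0⟩, ⟨0, 3191160700928⟩, ⟨802387722240, 0⟩, ⟨0, 0⟩, ⟨0, 0⟩⟩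

def BI2 : BC := ⟨⟨0, 0, 1099511627776, 0⟩, ⟨0, 0⟩, ⟨0, 0⟩, 282102464512, 54041903104, 193886617600, 546449588224, 159428116480, 25081937920, 2391994793984, 778043392000, ⟨8718783610880, 0⟩, ⟨0, 3977139716096⟩, ⟨809079668736, 0⟩, ⟨0, 0⟩, ⟨0, 0⟩⟩

def BI3 : BC := ⟨⟨0, 0, 1099511627776, 0⟩, ⟨0, 0⟩, ⟨0, 0⟩, 255507693568, 51269074944, 189916381184, 576762150912, 159428116480, 26860322816, 2457761480704, 764118302720, ⟨8641474199552, 0⟩, ⟨0, 4325032067072⟩, ⟨835766321152, 0⟩, ⟨0, 0⟩, ⟨0, 0⟩⟩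

def BR0 : BC := ⟨⟨0, 0, 0, 0⟩, ⟨164926717952, 0⟩, ⟨1099511627776, 0⟩, 267368726528, 49926111232, 187809660928, 569268436992, 159428116480, 27229421568, 2302421237760, 835287252992, ⟨0, 0⟩, ⟨0, 0⟩, ⟨823951097856, 0⟩, ⟨0, 0⟩, ⟨0, 0⟩⟩

def BP : BC := ⟨⟨0, 0, 0, 0⟩, ⟨164926717952, 0⟩, ⟨1099511627776, 0⟩, 236024496128, 56610258944, 194000322560, 457045704704, 159428116480, 17699962880, 2302421237760, 778798366720, ⟨0, 0⟩, ⟨0, 0⟩, ⟨646081740800, 0⟩, ⟨0, 0⟩, ⟨1099511627776, 0⟩⟩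

def BM : BC := ⟨⟨0, 0, 0, 0⟩, ⟨164926717952, 0⟩, ⟨1099511627776, 0⟩, 241127718912, 42928504832, 168566325248, 535619108864, 159428116480, 27229421568, 2193990090752, 835287252992, ⟨0, 0⟩, ⟨0, 0⟩, ⟨726824976384, 0⟩, ⟨0, 0⟩, ⟨0, 1099511627776⟩⟩

def BT : BC := ⟨⟨0, 0, 1099511627776, 0⟩, ⟨0, 0⟩, ⟨0, 0⟩, 200908406784, 36709269504, 149876899840, 506602651648, 159428116480, 26860322816, 2457761480704, 749186580480, ⟨8847632629760, 0⟩, ⟨0, 4410931412992⟩, ⟨648518500352, 0⟩, ⟨1099511627776, 0⟩, ⟨0, 0⟩⟩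

end Pool.Agent.helper82.WC.S5K7
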