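import Pool.Agent.helper82.WC.S5K8P

/-!
Generated certificates (in pairs, so that they are checked one after the other).
-/

namespace Pool.Agent.helper82.WC.S5K8

open Pool.Agent.helper82.WH
open Pool.Agent.helper31.IC (CovD covD_split TD)

mutual
theorem I0AD : CovD 0 [pAD H BI0] [(4123168604160, 274877906944), (604785082368, 55029268480), (38654705664, 38654705664)] :=
  cov_of (fAD H BI0) (.n 1 (.n 1 (.n 2 (.l 0) (.n 0 (.l 0) (.l 0))) (.n 2 (.l 0) (.n 0 (.l 0) (.l 0)))) (.n 1 (.n 2 (.l 0) (.l 0)) (.n 2 (.l 0) (.l 0)))) [(4123168604160, 274877906944), (604785082368, 55029268480), (38654705664, 38654705664)] rfl (by decide +kernel)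
theorem I0G : CovD 1 [pG H BI0] [(4123168604160, 274877906944), (604785082368, 55029268480), (38654705664, 38654705664)] :=
  cov_of (fG H BI0) (.n 0 (.l 0) (.l 0)) [(4123168604160, 274877906944), (604785082368, 55029268480), (38654705664, 38654705664)] rfl (by decide +kernel)
end

mutual
theorem I0RT : CovD 1 [pRT H BI0] [(4123168604160, 274877906944), (604785082368, 55029268480), (38654705664, 38654705664)] :=
  cov_of (fRT H BI0) (.n 1 (.n 2 (.n 1 (.n 2 (.l 0) (.n 0 (.l 0) (.l 0))) (.n 0 (.l 0) (.l 0))) (.n 1 (.n 0 (.l 0) (.n 2 (.l 0) (.l 0))) (.n 2 (.l 0) (.l 0)))) (.n 2 (.n 0 (.l 0) (.l 0)) (.n 1 (.n 0 (.l 0) (.l 0)) (.l 0)))) [(4123168604160, 274877906944), (604785082368, 55029268480), (38654705664, 38654705664)] rfl (by decide +kernel)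
theorem I1AD : CovD 0 [pAD H BI1] [(4123168604160, 274877906944), (604785082368, 55029268480), (115964116992, 38654705664)] :=
  cov_of (fAD H BI1) (.n 1 (.n 2 (.n 1 (.n 0 (.l 0) (.l 0)) (.n 0 (.l 0) (.l 0))) (.n 1 (.n 0 (.l 0) (.l 0)) (.n 0 (.l 0) (.l 0)))) (.n 2 (.n 1 (.n 0 (.l 0) (.l 0)) (.n 0 (.l 0) (.l 0))) (.n 1 (.n 0 (.l 0) (.l 0)) (.n 0 (.l 0) (.l 0))))) [(4123168604160, 274877906944), (604785082368, 55029268480), (115964116992, 38654705664)] rfl (by decide +kernel)
end

mutual
theorem I1G : CovD 1 [pG H BI1] [(4123168604160, 274877906944), (604785082368, 55029268480), (115964116992, 38654705664)] :=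
  cov_of (fG H BI1) (.n 1 (.l 0) (.l 0)) [(4123168604160, 274877906944), (604785082368, 55029268480), (115964116992, 38654705664)] rfl (by decide +kernel)
theorem I1RT : CovD 1 [pRT H BI1] [(4123168604160, 274877906944), (604785082368, 55029268480), (115964116992, 38654705664)] :=
  cov_of (fRT H BI1) (.n 1 (.n 2 (.n 1 (.n 2 (.l 0) (.n 0 (.l 0) (.l 0))) (.n 0 (.l 0) (.l 0))) (.n 1 (.n 0 (.l 0) (.n 2 (.l 0) (.l 0))) (.n 2 (.l 0) (.n 0 (.l 0) (.l 0))))) (.n 2 (.n 1 (.l 0) (.l 0)) (.n 1 (.n 0 (.l 0) (.l 0)) (.l 0)))) [(4123168604160, 274877906944), (604785082368, 55029268480), (115964116992, 38654705664)] rfl (by decide +kernel)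
end

mutual
theorem I2AD : CovD 0 [pAD H BI2] [(4123168604160, 274877906944), (604785082368, 55029268480), (180388626432, 25769803776)] :=
  cov_of (fAD H BI2) (.n 1 (.n 2 (.n 1 (.n 0 (.l 0) (.l 0)) (.n 0 (.l 0) (.l 0))) (.n 1 (.n 0 (.l 0) (.l 0)) (.n 0 (.l 0) (.l 0)))) (.n 2 (.n 1 (.n 0 (.l 0) (.l 0)) (.n 0 (.l 0) (.l 0))) (.n 1 (.n 0 (.l 0) (.l 0)) (.n 0 (.l 0) (.l 0))))) [(4123168604160, 274877906944), (604785082368, 55029268480), (180388626432, 25769803776)] rfl (by decide +kernel)
theorem I2G : CovD 1 [pG H BI2] [(4123168604160, 274877906944), (604785082368, 55029268480), (180388626432, 25769803776)] :=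
  cov_of (fG H BI2) (.n 1 (.l 0) (.l 0)) [(4123168604160, 274877906944), (604785082368, 55029268480), (180388626432, 25769803776)] rfl (by decide +kernel)
end

mutual
theorem I2RT : CovD 1 [pRT H BI2] [(4123168604160, 274877906944), (604785082368, 55029268480), (180388626432, 25769803776)] :=
  cov_of (fRT H BI2) (.n 1 (.n 2 (.n 0 (.l 0) (.n 1 (.l 0) (.l 0))) (.n 1 (.n 0 (.l 0) (.n 1 (.l 0) (.l 0))) (.n 0 (.l 0) (.l 0)))) (.n 1 (.n 2 (.l 0) (.n 0 (.l 0) (.l 0))) (.n 2 (.l 0) (.l 0)))) [(4123168604160, 274877906944), (604785082368, 55029268480), (180388626432, 25769803776)] rfl (by decide +kernel)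
theorem R0AD : CovD 0 [pAD H BR0] [(4123168604160, 274877906944), (604785082368, 55029268480), (1099511627776, 1099511627776)] :=
  cov_of (fAD H BR0) (.n 1 (.n 2 (.n 1 (.n 2 (.l 0) (.l 0)) (.n 2 (.l 0) (.l 0))) (.n 1 (.l 0) (.l 0))) (.n 2 (.n 1 (.n 2 (.l 0) (.l 0)) (.n 2 (.l 0) (.l 0))) (.n 1 (.l 0) (.n 2 (.l 0) (.l 0))))) [(4123168604160, 274877906944), (604785082368, 55029268480), (1099511627776, 1099511627776)] rfl (by decide +kernel)
end

mutual
theorem R0G : CovD 1 [pG H BR0] [(4123168604160, 274877906944), (604785082368, 55029268480), (1099511627776, 1099511627776)] :=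
  cov_of (fG H BR0) (.n 2 (.l 0) (.l 0)) [(4123168604160, 274877906944), (604785082368, 55029268480), (1099511627776, 1099511627776)] rfl (by decide +kernel)
theorem R0RT : CovD 1 [pRT H BR0] [(4123168604160, 274877906944), (604785082368, 55029268480), (1099511627776, 1099511627776)] :=
  cov_of (fRT H BR0) (.n 1 (.n 2 (.n 1 (.l 0) (.l 0)) (.l 0)) (.n 2 (.n 2 (.l 0) (.l 0)) (.l 0))) [(4123168604160, 274877906944), (604785082368, 55029268480), (1099511627776, 1099511627776)] rfl (by decide +kernel)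
end

mutual
theorem R0RS : CovD 1 [pRS H BR0] [(4123168604160, 274877906944), (604785082368, 55029268480), (1099511627776, 1099511627776)] :=
  cov_of (fRS H BR0) (.l 0) [(4123168604160, 274877906944), (604785082368, 55029268480), (1099511627776, 1099511627776)] rfl (by decide +kernel)
theorem PAD : CovD 0 [pAD H BP] [(4123168604160, 274877906944), (604785082368, 55029268480), (2199023255552, 0)] :=
  cov_of (fAD H BP) (.n 1 (.l 0) (.n 0 (.l 0) (.l 0))) [(4123168604160, 274877906944), (604785082368, 55029268480), (2199023255552, 0)] rfl (by decide +kernel)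
end

mutual
theorem PG : CovD 1 [pG H BP] [(4123168604160, 274877906944), (604785082368, 55029268480), (2199023255552, 0)] :=
  cov_of (fG H BP) (.l 0) [(4123168604160, 274877906944), (604785082368, 55029268480), (2199023255552, 0)] rfl (by decide +kernel)
theorem PRT : CovD 1 [pRT H BP] [(4123168604160, 274877906944), (604785082368, 55029268480), (2199023255552, 0)] :=
  cov_of (fRT H BP) (.n 1 (.l 0) (.l 0)) [(4123168604160, 274877906944), (604785082368, 55029268480), (2199023255552, 0)] rfl (by decide +kernel)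
end

mutual
theorem PTT : CovD 1 [pTT H BP] [(4123168604160, 274877906944), (604785082368, 55029268480), (2199023255552, 0)] :=
  cov_of (fTT H BP) (.n 1 (.l 0) (.l 0)) [(4123168604160, 274877906944), (604785082368, 55029268480), (2199023255552, 0)] rfl (by decide +kernel)
theorem MAD : CovD 0 [pAD H BM] [(4123168604160, 274877906944), (604785082368, 55029268480), (0, 0)] :=
  cov_of (fAD H BM) (.n 1 (.n 0 (.l 0) (.l 0)) (.n 0 (.l 0) (.l 0))) [(4123168604160, 274877906944), (604785082368, 55029268480), (0, 0)] rfl (by decide +kernel)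
end

mutual
theorem MG : CovD 1 [pG H BM] [(4123168604160, 274877906944), (604785082368, 55029268480), (0, 0)] :=
  cov_of (fG H BM) (.l 0) [(4123168604160, 274877906944), (604785082368, 55029268480), (0, 0)] rfl (by decide +kernel)
theorem MRT : CovD 1 [pRT H BM] [(4123168604160, 274877906944), (604785082368, 55029268480), (0, 0)] :=
  cov_of (fRT H BM) (.n 1 (.l 0) (.l 0)) [(4123168604160, 274877906944), (604785082368, 55029268480), (0, 0)] rfl (by decide +kernel)
end

mutual
theorem MTT : CovD 1 [pTT H BM] [(4123168604160, 274877906944), (604785082368, 55029268480), (0, 0)] :=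
  cov_of (fTT H BM) (.n 1 (.l 0) (.l 0)) [(4123168604160, 274877906944), (604785082368, 55029268480), (0, 0)] rfl (by decide +kernel)
theorem TAD : CovD 0 [pAD H BT] [(4123168604160, 274877906944), (604785082368, 55029268480), (206158430208, 0)] :=
  cov_of (fAD H BT) (.n 1 (.n 0 (.n 0 (.l 0) (.l 0)) (.n 0 (.l 0) (.l 0))) (.n 1 (.n 0 (.l 0) (.l 0)) (.n 0 (.l 0) (.l 0)))) [(4123168604160, 274877906944), (604785082368, 55029268480), (206158430208, 0)] rfl (by decide +kernel)
end

mutual
theorem TG : CovD 1 [pG H BT] [(4123168604160, 274877906944), (604785082368, 55029268480), (206158430208, 0)] :=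
  cov_of (fG H BT) (.l 0) [(4123168604160, 274877906944), (604785082368, 55029268480), (206158430208, 0)] rfl (by decide +kernel)
theorem TRT : CovD 1 [pRT H BT] [(4123168604160, 274877906944), (604785082368, 55029268480), (206158430208, 0)] :=
  cov_of (fRT H BT) (.n 1 (.n 0 (.l 0) (.l 0)) (.n 0 (.l 0) (.l 0))) [(4123168604160, 274877906944), (604785082368, 55029268480), (206158430208, 0)] rfl (by decide +kernel)
theorem TTT : CovD 1 [pTT H BT] [(4123168604160, 274877906944), (604785082368, 55029268480), (206158430208, 0)] :=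
  cov_of (fTT H BT) (.n 1 (.n 0 (.n 1 (.l 0) (.l 0)) (.n 0 (.l 0) (.l 0))) (.n 0 (.n 0 (.l 0) (.l 0)) (.l 0))) [(4123168604160, 274877906944), (604785082368, 55029268480), (206158430208, 0)] rfl (by decide +kernel)
end

end Pool.Agent.helper82.WC.S5K8
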