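import Pool.Agent.helper82.WH.Chks

/-!
Generated: constants of a cell.
-/

namespace Pool.Agent.helper82.WC.S5K8

open Pool.Agent.helper82.WH
open Pool.Agent.helper31.IC (CovD covD_split TD)

def H : HC := ⟨⟨4123168604160, 0⟩, ⟨332661325824, 0⟩, ⟨3052266061824, 0⟩, ⟨0, 287377915904⟩, ⟨426698670080, 0⟩, ⟨0, 31066484113408⟩, ⟨0, 437074395136⟩, ⟨0, 7283235815424⟩, ⟨107639705698304, 0⟩, ⟨0, 152722241748992⟩, ⟨857267240960, 0⟩, ⟨131612803072, 0⟩, ⟨1151116312576, 0⟩, ⟨1205133639680, 0⟩, ⟨395112677376, 0⟩, ⟨0, 3613684596736⟩, ⟨0, 1880083857408⟩, ⟨0, 758713286656⟩, ⟨4899784884224, 0⟩, ⟨0, 156459139072⟩, ⟨456112078848, 0⟩, ⟨2172610871296, 0⟩, ⟨0, 59095056384⟩, ⟨3993968836608, 0⟩, ⟨0, 13979968274432⟩, ⟨17337546702848, 0⟩, ⟨0, 0⟩⟩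

def BI0 : BC := ⟨⟨0, 0, 1099511627776, 0⟩, ⟨0, 0⟩, ⟨0, 0⟩, 297027371008, 67654909952, 200877539328, 515950641152, 159428116480, 18522046464, 2646236725248, 631645405184, ⟨8465380540416, 0⟩, ⟨0, 691489734656⟩, ⟨793899892736, 0⟩, ⟨0, 0⟩, ⟨0, 0⟩⟩

def BI1 : BC := ⟨⟨0, 0, 1099511627776, 0⟩, ⟨0, 0⟩, ⟨0, 0⟩, 311562862592, 62672207872, 189550034944, 516787470336, 159428116480, 19562233856, 2668365873152, 629044936704, ⟨8108898254848, 0⟩, ⟨0, 1945620185088⟩, ⟨779602952192, 0⟩, ⟨0, 0⟩, ⟨0, 0⟩⟩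

def BI2 : BC := ⟨⟨0, 0, 1099511627776, 0⟩, ⟨0, 0⟩, ⟨0, 0⟩, 295867121664, 60056666112, 181085536256, 541767958528, 159428116480, 20786970624, 2690578907136, 622216609792, ⟨8022998908928, 0⟩, ⟨0, 2778843840512⟩, ⟨795460894720, 0⟩, ⟨0, 0⟩, ⟨0, 0⟩⟩

def BR0 : BC := ⟨⟨0, 0, 0, 0⟩, ⟨164926717952, 0⟩, ⟨1099511627776, 0⟩, 289380237312, 60292005888, 181466169344, 545245757440, 159428116480, 23420993536, 2683532476416, 658421841920, ⟨0, 0⟩, ⟨0, 0⟩, ⟨801940897792, 0⟩, ⟨0, 0⟩, ⟨0, 0⟩⟩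

def BP : BC := ⟨⟨0, 0, 0, 0⟩, ⟨164926717952, 0⟩, ⟨1099511627776, 0⟩, 329888956416, 71162986496, 213212790784, 471386685440, 159428116480, 13958643712, 2683532476416, 608023085056, ⟨0, 0⟩, ⟨0, 0⟩, ⟨760786780160, 0⟩, ⟨0, 0⟩, ⟨1099511627776, 0⟩⟩

def BM : BC := ⟨⟨0, 0, 0, 0⟩, ⟨164926717952, 0⟩, ⟨1099511627776, 0⟩, 289458487296, 60312911872, 181523578880, 545571471360, 159428116480, 23420993536, 2590234378240, 658421841920, ⟨0, 0⟩, ⟨0, 0⟩, ⟨801861206016, 0⟩, ⟨0, 0⟩, ⟨0, 1099511627776⟩⟩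

def BT : BC := ⟨⟨0, 0, 1099511627776, 0⟩, ⟨0, 0⟩, ⟨0, 0⟩, 293232050176, 59353989120, 179153207296, 538964197376, 159428116480, 20786970624, 2690578907136, 614985629696, ⟨8186207666176, 0⟩, ⟨0, 3066606649344⟩, ⟨786063425536, 0⟩, ⟨1099511627776, 0⟩, ⟨0, 0⟩⟩

end Pool.Agent.helper82.WC.S5K8
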