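import Pool.Agent.helper82.WC.S5K9C0

/-!
Generated certificates, assembled.
-/

namespace Pool.Agent.helper82.WC.S5K9

open Pool.Agent.helper82.WH
open Pool.Agent.helper31.IC (CovD covD_split TD)


end Pool.Agent.helper82.WC.S5K9
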