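import Pool.Agent.helper82.WH.Chks

/-!
Generated: constants of a cell.
-/

namespace Pool.Agent.helper82.WC.S5K9

open Pool.Agent.helper82.WH
open Pool.Agent.helper31.IC (CovD covD_split TD)

def H : HC := ⟨⟨4123168604160, 0⟩, ⟨464578543616, 0⟩, ⟨3131639136256, 0⟩, ⟨0, 35726950400⟩, ⟨0, 1381542068224⟩, ⟨0, 32496109944832⟩, ⟨0, 486930841600⟩, ⟨6921150070784, 0⟩, ⟨107011055288320, 0⟩, ⟨0, 125043459817472⟩, ⟨1038991753216, 0⟩, ⟨181788868608, 0⟩, ⟨1221033852928, 0⟩, ⟨0, 62211686400⟩, ⟨163984113664, 0⟩, ⟨0, 5559944478720⟩, ⟨3527983366144, 0⟩, ⟨0, 488007270400⟩, ⟨9675338153984, 0⟩, ⟨0, 11643547549696⟩, ⟨9443364241408, 0⟩, ⟨2728660893696, 0⟩, ⟨0, 11729174528⟩, ⟨3078873612288, 0⟩, ⟨0, 10732925222912⟩, ⟨1503996346368, 0⟩, ⟨0, 0⟩⟩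

def BI0 : BC := ⟨⟨0, 0, 1099511627776, 0⟩, ⟨0, 0⟩, ⟨0, 0⟩, 294599262208, 79607496704, 268431327232, 442276839424, 159428116480, 14898167808, 2923396333568, 484542775296, ⟨6902012444672, 0⟩, ⟨0, 103079215104⟩, ⟨794929135616, 0⟩, ⟨0, 0⟩, ⟨0, 0⟩⟩

def BR0 : BC := ⟨⟨0, 0, 0, 0⟩, ⟨137438953472, 0⟩, ⟨1099511627776, 0⟩, 286768037888, 78086144000, 262161039360, 454286901248, 159428116480, 19360907264, 2954081861632, 504121786368, ⟨0, 0⟩, ⟨0, 0⟩, ⟨802910568448, 0⟩, ⟨0, 0⟩, ⟨0, 0⟩⟩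

def BP : BC := ⟨⟨0, 0, 0, 0⟩, ⟨137438953472, 0⟩, ⟨1099511627776, 0⟩, 259606577152, 71191101440, 243381174272, 378798997504, 159428116480, 11760828416, 2954081861632, 467597787136, ⟨0, 0⟩, ⟨0, 0⟩, ⟨607359205376, 0⟩, ⟨0, 0⟩, ⟨1099511627776, 0⟩⟩

def BM : BC := ⟨⟨0, 0, 0, 0⟩, ⟨137438953472, 0⟩, ⟨1099511627776, 0⟩, 245958311936, 66816049152, 231310819328, 402992594944, 159428116480, 19360907264, 2889019817984, 504121786368, ⟨0, 0⟩, ⟨0, 0⟩, ⟨625999347712, 0⟩, ⟨0, 0⟩, ⟨0, 1099511627776⟩⟩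

def BT : BC := ⟨⟨0, 0, 1099511627776, 0⟩, ⟨0, 0⟩, ⟨0, 0⟩, 158996824064, 43443552256, 168989556736, 265105768448, 159428116480, 14898167808, 2923396333568, 484542775296, ⟨6897717477376, 0⟩, ⟨0, 210453397504⟩, ⟨331227201536, 0⟩, ⟨1099511627776, 0⟩, ⟨0, 0⟩⟩

end Pool.Agent.helper82.WC.S5K9
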